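import Mathlib

set_option autoImplicit false

namespace Pool.Agent.H66.Card

section fs
variable {α : Type}

def FS {ι : Type} (P : (ι → List α) → Prop) : Prop :=
  ∃ (σ : Type) (_ : Finite σ) (f : ℕ → (ι → List α) → σ) (g : σ → (ι → List α) → Prop),
    ∀ m t, P t ↔ g (f m fun i => (t i).take m) fun i => (t i).drop m

theorem FS.congr {ι : Type} {P Q : (ι → List α) → Prop} (h : FS P) (e : ∀ t, Q t ↔ P t) :
    FS Q := by
  obtain ⟨σ, _, f, g, h⟩ := h
  exact ⟨σ, inferInstance, f, g, fun m t => (e t).trans (h m t)⟩

theorem FS.comb {ι κ : Type} [Finite κ] {P : κ → (ι → List α) → Prop} (h : ∀ a, FS (P a))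
    (G : (κ → Prop) → Prop) : FS fun t => G fun a => P a t := by
  choose σ hσ f g h using h
  refine ⟨∀ a, σ a, inferInstance, fun m x a => f a m x, fun q s => G fun a => g a (q a) s,
    fun m t => ?_⟩
  exact iff_of_eq (congrArg G (funext fun a => propext (h a m t)))

theorem FS.all {ι κ : Type} [Finite κ] {P : κ → (ι → List α) → Prop} (h : ∀ a, FS (P a)) :
    FS fun t => ∀ a, P a t := FS.comb h fun F => ∀ a, F a

theorem FS.ex {ι κ : Type} [Finite κ] {P : κ → (ι → List α) → Prop} (h : ∀ a, FS (P a)) :
    FS fun t => ∃ a, P a t := FS.comb h fun F => ∃ a, F a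

theorem FS.not {ι : Type} {P : (ι → List α) → Prop} (h : FS P) : FS fun t => ¬ P t :=
  FS.comb (κ := Unit) (P := fun _ => P) (fun _ => h) fun F => ¬ F ()

theorem FS.imp {ι : Type} {P Q : (ι → List α) → Prop} (h : FS P) (h' : FS Q) :
    FS fun t => P t → Q t :=
  FS.comb (κ := Bool) (P := fun b => if b then P else Q)
    (fun b => by cases b <;> simpa) fun F => F true → F false

theorem FS.and {ι : Type} {P Q : (ι → List α) → Prop} (h : FS P) (h' : FS Q) :
    FS fun t => P t ∧ Q t :=
  FS.comb (κ := Bool) (P := fun b => if b then P else Q)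
    (fun b => by cases b <;> simpa) fun F => F true ∧ F false

theorem FS.const {ι : Type} (p : Prop) : FS fun _ : ι → List α => p :=
  ⟨Unit, inferInstance, fun _ _ => (), fun _ _ => p, fun _ _ => Iff.rfl⟩

theorem FS.comap {ι κ : Type} {P : (ι → List α) → Prop} (h : FS P) (τ : ι → κ) :
    FS fun t : κ → List α => P fun i => t (τ i) := by
  obtain ⟨σ, _, f, g, h⟩ := h
  exact ⟨σ, inferInstance, fun m x => f m fun i => x (τ i), fun q s => g q fun i => s (τ i),
    fun m t => h m _⟩

theorem FS.eq {ι : Type} (i j : ι) : FS fun t : ι → List α => t i = t j := by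
  refine ⟨Prop, inferInstance, fun _ x => x i = x j, fun q s => q ∧ s i = s j, fun m t => ?_⟩
  constructor
  · intro h; simp [h]
  · rintro ⟨h1, h2⟩
    rw [← List.take_append_drop m (t i), ← List.take_append_drop m (t j)]
    simp only at h1 h2
    rw [h1, h2]

theorem FS.eqc {ι : Type} (i : ι) (p : List α) : FS fun t : ι → List α => t i = p := by
  refine ⟨Prop × Fin (p.length + 1), inferInstance,
    fun m x => (x i = p.take m, ⟨min m p.length, by omega⟩),
    fun q s => q.1 ∧ s i = p.drop q.2, fun m t => ?_⟩
  have e : p.drop (min m p.length) = p.drop m := by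
    rcases le_total m p.length with h | h
    · rw [min_eq_left h]
    · rw [min_eq_right h, List.drop_of_length_le h, List.drop_length]
  simp only [e]
  constructor
  · intro h; simp [h]
  · rintro ⟨h1, h2⟩
    rw [← List.take_append_drop m (t i), ← List.take_append_drop m p, h1, h2]

theorem FS.proj {ι κ : Type} [Finite κ] {P : (ι ⊕ κ → List α) → Prop} (h : FS P) :
    FS fun t : ι → List α => ∃ u : κ → List α, P (Sum.elim t u) := by
  obtain ⟨σ, _, f, g, h⟩ := h
  refine ⟨Set (σ × (κ → Prop)), inferInstance,
    fun m x => {z | ∃ u : κ → List α,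
      z = (f m (Sum.elim x fun k => (u k).take m), fun k => (u k).length < m)},
    fun S s => ∃ z ∈ S, ∃ v : κ → List α, (∀ k, z.2 k → v k = []) ∧ g z.1 (Sum.elim s v),
    fun m t => ?_⟩
  have e1 : ∀ u : κ → List α, (fun i => (Sum.elim t u i).take m) =
      Sum.elim (fun i => (t i).take m) fun k => (u k).take m := fun u => by
    funext i; cases i <;> rfl
  have e2 : ∀ u : κ → List α, (fun i => (Sum.elim t u i).drop m) =
      Sum.elim (fun i => (t i).drop m) fun k => (u k).drop m := fun u => by
    funext i; cases i <;> rfl
  constructor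
  · rintro ⟨u, hu⟩
    rw [h m, e1, e2] at hu
    exact ⟨_, ⟨u, rfl⟩, _, fun k hk => List.drop_of_length_le (le_of_lt hk), hu⟩
  · rintro ⟨_, ⟨u, rfl⟩, v, h1, h2⟩
    refine ⟨fun k => (u k).take m ++ v k, ?_⟩
    rw [h m, e1, e2]
    have a1 : (fun k => ((u k).take m ++ v k).take m) = fun k => (u k).take m := by
      funext k
      by_cases hk : (u k).length < m
      · rw [h1 k hk]; simp [List.take_take]
      · rw [List.take_left']; simp; omega
    have a2 : (fun k => ((u k).take m ++ v k).drop m) = v := by
      funext k
      by_cases hk : (u k).length < m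
      · rw [h1 k hk]; simp
      · rw [List.drop_left']; simp; omega
    rw [a1, a2]
    exact h2

theorem FS.projAll {ι : Type} {P : (Option ι → List α) → Prop} (h : FS P) :
    FS fun t : ι → List α => ∀ w : List α, P fun o => o.elim w t := by
  have h1 := (FS.proj (κ := Unit)
    ((h.comap (κ := ι ⊕ Unit) fun o => o.elim (Sum.inr ()) Sum.inl).not)).not
  refine h1.congr fun t => ?_
  simp only [not_exists, not_not]
  constructor
  · intro H u
    convert H (u ()) using 2 with o
    cases o <;> rfl
  · intro H w
    convert H (fun _ => w) using 2 with o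
    cases o <;> rfl

theorem FS.regular {A : Language α} (h : FS fun t : Unit → List α => t () ∈ A) :
    ∃ (k : ℕ) (M : DFA α (Fin k)), M.accepts = A := by
  obtain ⟨σ, _, f, g, h⟩ := h
  have h1 : A.IsRegular := by
    rw [Language.isRegular_iff_finite_range_leftQuotient]
    refine (Set.finite_range fun q : σ => ({y | g q fun _ => y} : Language α)).subset ?_
    rintro _ ⟨x, rfl⟩
    refine ⟨f x.length fun _ => x, ?_⟩
    ext y
    have := h x.length fun _ => x ++ y
    simp only [List.take_left', List.drop_left'] at this
    exact this.symm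
  obtain ⟨τ, _, M, hM⟩ := h1
  exact ⟨_, DFA.reindex (Fintype.equivFin τ) M, by rw [DFA.accepts_reindex, hM]⟩

def run {n : ℕ} {σ : Type} (step : σ → (Fin n → Option α) → σ) (q : σ) (w : Fin n → List α) : σ :=
  List.foldl step q ((List.range (Finset.univ.sup fun j => (w j).length)).map fun i j => (w j)[i]?)

theorem run_split {n : ℕ} {σ : Type} (step : σ → (Fin n → Option α) → σ) (q : σ)
    (w : Fin n → List α) (m : ℕ) :
    run step q w = run step (run step q fun j => (w j).take m) fun j => (w j).drop m := by
  set L := Finset.univ.sup fun j => (w j).length with hL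
  have e1 : (Finset.univ.sup fun j => ((w j).take m).length) = min m L := by
    apply le_antisymm
    · refine Finset.sup_le fun j _ => ?_
      have : (w j).length ≤ L := Finset.le_sup (f := fun j => (w j).length) (Finset.mem_univ j)
      simp; omega
    · rcases Nat.eq_zero_or_pos L with h | h
      · omega
      · obtain ⟨j, -, hj⟩ := Finset.exists_mem_eq_sup Finset.univ (by
          rcases Finset.eq_empty_or_nonempty (Finset.univ : Finset (Fin n)) with h' | h'
          · rw [h'] at hL; simp at hL; omega
          · exact h') fun j => (w j).length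
        refine le_trans ?_ (Finset.le_sup (f := fun j => ((w j).take m).length) (Finset.mem_univ j))
        simp; omega
  have e2 : (Finset.univ.sup fun j => ((w j).drop m).length) = L - m := by
    apply le_antisymm
    · refine Finset.sup_le fun j _ => ?_
      have : (w j).length ≤ L := Finset.le_sup (f := fun j => (w j).length) (Finset.mem_univ j)
      simp; omega
    · rcases Nat.eq_zero_or_pos L with h | h
      · omega
      · obtain ⟨j, -, hj⟩ := Finset.exists_mem_eq_sup Finset.univ (by
          rcases Finset.eq_empty_or_nonempty (Finset.univ : Finset (Fin n)) with h' | h'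
          · rw [h'] at hL; simp at hL; omega
          · exact h') fun j => (w j).length
        refine le_trans ?_ (Finset.le_sup (f := fun j => ((w j).drop m).length) (Finset.mem_univ j))
        simp; omega
  simp only [run]
  rw [e1, e2, ← hL, ← List.foldl_append]
  congr 1
  have e3 : L = min m L + (L - m) := by omega
  conv_lhs => rw [e3, List.range_add]
  rw [List.map_append, List.map_map]
  congr 1
  · refine List.map_congr_left fun i hi => ?_
    funext j
    rw [List.mem_range] at hi
    rw [List.getElem?_take_of_lt (by omega)]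
  · refine List.map_congr_left fun i hi => ?_
    funext j
    rw [List.mem_range] at hi
    simp only [Function.comp, List.getElem?_drop]
    rw [min_eq_left (by omega)]

theorem FS.ofRun {n : ℕ} {σ : Type} [Finite σ] (step : σ → (Fin n → Option α) → σ) (q : σ)
    (G : σ → Prop) : FS fun w : Fin n → List α => G (run step q w) :=
  ⟨σ, inferInstance, fun _ x => run step q x, fun r s => G (run step r s), fun m t =>
    iff_of_eq (congrArg G (run_split step q t m))⟩

end fs

end Pool.Agent.H66.Card
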