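import Pool.Agent.H66.Sig1
import Pool.Agent.H38.NP.Api

namespace Pool.Agent.H66.Sig

open Pool.Agent.H38.NP Finset

/-- not-all-equal colouring of triples -/
def NAE (φ : List (ℕ × ℕ × ℕ)) : Prop :=
  ∃ χ : ℕ → Bool, ∀ C ∈ φ, ¬ (χ C.1 = χ C.2.1 ∧ χ C.2.1 = χ C.2.2)

def lv (l : Lit) : ℕ := 4 * l.1 + 1 + l.2.toNat

def naeOf (C : (Lit × Lit × Lit) × ℕ) : List (ℕ × ℕ × ℕ) :=
  [(lv C.1.1, lv C.1.2.1, 4 * C.2 + 3), (4 * C.2 + 4, lv C.1.2.2, 0),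
   (4 * C.2 + 3, 4 * C.2 + 3, 4 * C.2 + 4),
   (4 * C.1.1.1 + 1, 4 * C.1.1.1 + 1, 4 * C.1.1.1 + 2),
   (4 * C.1.2.1.1 + 1, 4 * C.1.2.1.1 + 1, 4 * C.1.2.1.1 + 2),
   (4 * C.1.2.2.1 + 1, 4 * C.1.2.2.1 + 1, 4 * C.1.2.2.1 + 2)]

theorem nae_nph : NPH (fun _ : List (ℕ × ℕ × ℕ) => True) NAE := by
  refine sat3_nph.reduce (fun φ => φ.zipIdx.flatMap naeOf)
    (by unfold naeOf lv; fun_prop) fun φ _ => ⟨trivial, ?_, ?_⟩
  · rintro ⟨a, ha⟩
    let y : ℕ → Bool := fun c => (φ[c]?).elim false fun C =>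
      !(decide (a C.1.1 = C.1.2) || decide (a C.2.1.1 = C.2.1.2))
    let χ : ℕ → Bool := fun n => if n = 0 then false else if n % 4 = 1 then !a (n / 4)
      else if n % 4 = 2 then a (n / 4) else if n % 4 = 3 then y (n / 4) else !y (n / 4 - 1)
    have e1 : ∀ v, χ (4 * v + 1) = !a v := fun v => by
      have h1 : (4 * v + 1) % 4 = 1 := by omega
      have h2 : (4 * v + 1) / 4 = v := by omega
      simp [χ, h1, h2]
    have e2 : ∀ v, χ (4 * v + 2) = a v := fun v => by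
      have h1 : (4 * v + 2) % 4 = 2 := by omega
      have h2 : (4 * v + 2) / 4 = v := by omega
      simp [χ, h1, h2]
    have e3 : ∀ v, χ (4 * v + 3) = y v := fun v => by
      have h1 : (4 * v + 3) % 4 = 3 := by omega
      have h2 : (4 * v + 3) / 4 = v := by omega
      simp [χ, h1, h2]
    have e4 : ∀ v, χ (4 * v + 4) = !y v := fun v => by
      have h1 : (4 * v + 4) % 4 = 0 := by omega
      have h2 : (4 * v + 4) / 4 - 1 = v := by omega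
      simp only [χ, h1, h2]; simp
    have e5 : ∀ l : Lit, χ (lv l) = decide (a l.1 = l.2) := by
      rintro ⟨v, b⟩
      cases b
      · simp [lv, e1]
      · simp only [lv, Bool.toNat_true, add_assoc]; simpa using e2 v
    have e0 : χ 0 = false := rfl
    refine ⟨χ, fun T hT => ?_⟩
    simp only [List.mem_flatMap, Prod.exists, List.mem_zipIdx_iff_getElem?] at hT
    obtain ⟨v1, s1, v2, s2, v3, s3, c, hC, hT⟩ := hT
    have hy : y c = !(decide (a v1 = s1) || decide (a v2 = s2)) := by simp [y, hC]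
    have hs := ha _ (List.mem_of_getElem? hC)
    simp only [naeOf, List.mem_cons, List.not_mem_nil, or_false] at hT
    rcases hT with rfl | rfl | rfl | rfl | rfl | rfl <;> simp only [e1, e2, e3, e4, e5, e0, hy]
    · cases decide (a v1 = s1) <;> cases decide (a v2 = s2) <;> simp
    · by_cases h1 : a v1 = s1 <;> by_cases h2 : a v2 = s2 <;> simp_all
    · cases decide (a v1 = s1) <;> cases decide (a v2 = s2) <;> simp
    all_goals simp
  · rintro ⟨χ, h⟩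
    refine ⟨fun v => xor (χ (4 * v + 2)) (χ 0), fun C hC => ?_⟩
    obtain ⟨c, hc⟩ := List.mem_iff_getElem?.1 hC
    have h' : ∀ T ∈ naeOf (C, c), _ := fun T hT => h T (List.mem_flatMap.2
      ⟨(C, c), List.mem_zipIdx_iff_getElem?.2 hc, hT⟩)
    obtain ⟨⟨v1, s1⟩, ⟨v2, s2⟩, ⟨v3, s3⟩⟩ := C
    simp only [naeOf, List.forall_mem_cons, lv] at h'
    obtain ⟨h1, h2, h3, h4, h5, h6, -⟩ := h'
    cases s1 <;> cases s2 <;> cases s3 <;>
      simp only [Bool.toNat_true, Bool.toNat_false, add_zero, add_assoc, Nat.reduceAdd] at * <;>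
      generalize χ (4 * v1 + 1) = x1, χ (4 * v1 + 2) = x2, χ (4 * v2 + 1) = x3,
        χ (4 * v2 + 2) = x4, χ (4 * v3 + 1) = x5, χ (4 * v3 + 2) = x6, χ (4 * c + 3) = x7,
        χ (4 * c + 4) = x8, χ 0 = x9 at * <;>
      revert x1 x2 x3 x4 x5 x6 x7 x8 x9 <;> decide

/-- the index triples used for every clause -/
def TT (N : ℕ) : Finset (Finset ℕ × Finset ℕ × Finset ℕ) :=
  ((range N).powerset ×ˢ (range N).powerset ×ˢ (range N).powerset).filter fun t =>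
    Disjoint t.1 t.2.1 ∧ Disjoint t.1 t.2.2 ∧ Disjoint t.2.1 t.2.2 ∧
      ((t.1.card = t.2.1.card ∧ t.2.1.card = t.2.2.card) ∨ (t.2.1 = ∅ ∧ t.2.2 = ∅) ∨
        (t.1 = ∅ ∧ t.2.2 = ∅) ∨ (t.1 = ∅ ∧ t.2.1 = ∅))

theorem mem_TT {N : ℕ} {t : Finset ℕ × Finset ℕ × Finset ℕ} : t ∈ TT N ↔
    (t.1 ⊆ range N ∧ t.2.1 ⊆ range N ∧ t.2.2 ⊆ range N) ∧
    Disjoint t.1 t.2.1 ∧ Disjoint t.1 t.2.2 ∧ Disjoint t.2.1 t.2.2 ∧
      ((t.1.card = t.2.1.card ∧ t.2.1.card = t.2.2.card) ∨ (t.2.1 = ∅ ∧ t.2.2 = ∅) ∨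
        (t.1 = ∅ ∧ t.2.2 = ∅) ∨ (t.1 = ∅ ∧ t.2.1 = ∅)) := by
  simp [TT]

noncomputable def TL (N : ℕ) : List (List ℕ × List ℕ × List ℕ × Bool) :=
  (TT N).toList.map fun t => (t.1.toList, t.2.1.toList, t.2.2.toList,
    decide (t.1.card = t.2.1.card ∧ t.2.1.card = t.2.2.card))

def co (N : ℕ) (C : ℕ × ℕ × ℕ) (t : List ℕ × List ℕ × List ℕ × Bool) : List ℕ :=
  t.1.map (fun r => N * C.1 + r) ++ (t.2.1.map (fun r => N * C.2.1 + r) ++
    t.2.2.1.map (fun r => N * C.2.2 + r))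

def ind (k : ℕ) (L : List ℕ) : List Bool := (List.range k).map fun c => decide (c ∈ L)

def kk (N : ℕ) (φ : List (ℕ × ℕ × ℕ)) : ℕ := N * (φ.map fun C => C.1 + C.2.1 + C.2.2 + 1).sum + 1

noncomputable def red (N : ℕ) (φ : List (ℕ × ℕ × ℕ)) : ℕ × List (List Bool × Bool) :=
  (kk N φ, φ.flatMap fun C => (TL N).map fun t => (ind (kk N φ) (co N C t), t.2.2.2))

theorem pt_red (N : ℕ) : PT (red N) := by
  unfold red
  generalize TL N = T
  unfold ind co kk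
  fun_prop

/-- extension of a weight vector by zero -/
noncomputable def ext (k : ℕ) (a : Fin k → ℝ) (c : ℕ) : ℝ := if h : c < k then a ⟨c, h⟩ else 0

theorem dot_ind (k : ℕ) (a : Fin k → ℝ) (L : List ℕ) (hL : L.Nodup) (hk : ∀ c ∈ L, c < k) :
    dot k a (ind k L) = (L.map (ext k a)).sum := by
  unfold dot
  have e1 : ∀ i : Fin k, a i * (if (ind k L).getD i false = true then 1 else 0) =
      (fun c : ℕ => if c ∈ L.toFinset then ext k a c else 0) i := fun i => by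
    have : (ind k L).getD i false = decide ((i : ℕ) ∈ L) := by
      simp [ind, List.getD_eq_getElem?_getD, i.2]
    rw [this]; simp [ext, i.2]
  rw [Finset.sum_congr rfl fun i _ => e1 i, Fin.sum_univ_eq_sum_range
    (fun c : ℕ => if c ∈ L.toFinset then ext k a c else 0) k, Finset.sum_ite_mem,
    Finset.inter_eq_right.2 (fun c hc => mem_range.2 (hk c (List.mem_toFinset.1 hc))),
    List.sum_toFinset _ hL]

theorem dot_co {N : ℕ} {φ : List (ℕ × ℕ × ℕ)} {C : ℕ × ℕ × ℕ} (hC : C ∈ φ)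
    {t : Finset ℕ × Finset ℕ × Finset ℕ} (ht : t ∈ TT N) (a : Fin (kk N φ) → ℝ) (b : Bool) :
    dot _ a (ind (kk N φ) (co N C (t.1.toList, t.2.1.toList, t.2.2.toList, b))) =
      ∑ r ∈ t.1, ext _ a (N * C.1 + r) + ∑ r ∈ t.2.1, ext _ a (N * C.2.1 + r) +
        ∑ r ∈ t.2.2, ext _ a (N * C.2.2 + r) := by
  obtain ⟨⟨s1, s2, s3⟩, d1, d2, d3, -⟩ := mem_TT.1 ht
  have md : ∀ i r, r < N → (N * i + r) % N = r := fun i r hr => by
    rw [Nat.mul_add_mod, Nat.mod_eq_of_lt hr]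
  have dj : ∀ (S S' : Finset ℕ) (i j : ℕ), S ⊆ range N → S' ⊆ range N → Disjoint S S' →
      ∀ x ∈ S.toList.map (fun r => N * i + r), ∀ y ∈ S'.toList.map (fun r => N * j + r),
        x ≠ y := by
    intro S S' i j h1 h2 h3 x hx y hy e
    obtain ⟨r, hr, rfl⟩ := List.mem_map.1 hx
    obtain ⟨s, hs, rfl⟩ := List.mem_map.1 hy
    rw [Finset.mem_toList] at hr hs
    have := congrArg (· % N) e
    simp only [md _ _ (mem_range.1 (h1 hr)), md _ _ (mem_range.1 (h2 hs))] at this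
    exact Finset.disjoint_left.1 h3 hr (this ▸ hs)
  have nd : ∀ (S : Finset ℕ) (i : ℕ), (S.toList.map (fun r => N * i + r)).Nodup := fun S i =>
    S.nodup_toList.map fun r s h => by simpa using h
  have hle : C.1 + C.2.1 + C.2.2 + 1 ≤ (φ.map fun C => C.1 + C.2.1 + C.2.2 + 1).sum :=
    List.single_le_sum (by simp) _ (List.mem_map.2 ⟨C, hC, rfl⟩)
  have bd : ∀ (S : Finset ℕ) (i : ℕ), S ⊆ range N → i ≤ C.1 + C.2.1 + C.2.2 →
      ∀ x ∈ S.toList.map (fun r => N * i + r), x < kk N φ := by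
    intro S i h1 hi x hx
    obtain ⟨r, hr, rfl⟩ := List.mem_map.1 hx
    have := mem_range.1 (h1 (Finset.mem_toList.1 hr))
    have h2 : N * (i + 1) ≤ N * (φ.map fun C => C.1 + C.2.1 + C.2.2 + 1).sum :=
      Nat.mul_le_mul_left _ (by omega)
    unfold kk
    rw [Nat.mul_succ] at h2
    omega
  rw [dot_ind]
  · simp only [co, List.map_append, List.sum_append, List.map_map, Function.comp_def,
      Finset.sum_map_toList, add_assoc]
  · refine List.nodup_append.2 ⟨nd _ _, List.nodup_append.2 ⟨nd _ _, nd _ _,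
      dj _ _ _ _ s2 s3 d3⟩, fun x hx y hy => ?_⟩
    rcases List.mem_append.1 hy with hy | hy
    · exact dj _ _ _ _ s1 s2 d1 x hx y hy
    · exact dj _ _ _ _ s1 s3 d2 x hx y hy
  · intro c hc
    rcases List.mem_append.1 hc with hc | hc
    · exact bd _ _ s1 (by omega) c hc
    rcases List.mem_append.1 hc with hc | hc
    · exact bd _ _ s2 (by omega) c hc
    · exact bd _ _ s3 (by omega) c hc

theorem valid (N : ℕ) (φ : List (ℕ × ℕ × ℕ)) : Valid (red N φ) := by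
  refine ⟨by simp [red, kk], fun e he => ?_⟩
  simp only [red, List.mem_flatMap, List.mem_map] at he
  obtain ⟨C, -, t, -, rfl⟩ := he
  simp [ind, red]

theorem load_iff (N : ℕ) (φ : List (ℕ × ℕ × ℕ)) : Load (red N φ) ↔
    ∃ (a₁ a₂ : Fin (kk N φ) → ℝ) (b₁ b₂ c₀ c₁ c₂ : ℝ), ∀ C ∈ φ, ∀ t ∈ TT N,
      ((t.1.card = t.2.1.card ∧ t.2.1.card = t.2.2.card) ↔ G b₁ b₂ c₀ c₁ c₂
        (∑ r ∈ t.1, (ext _ a₁ (N * C.1 + r), ext _ a₂ (N * C.1 + r)) +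
          ∑ r ∈ t.2.1, (ext _ a₁ (N * C.2.1 + r), ext _ a₂ (N * C.2.1 + r)) +
          ∑ r ∈ t.2.2, (ext _ a₁ (N * C.2.2 + r), ext _ a₂ (N * C.2.2 + r)))) := by
  unfold Load
  refine exists_congr fun a₁ => exists_congr fun a₂ => exists_congr fun b₁ =>
    exists_congr fun b₂ => exists_congr fun c₀ => exists_congr fun c₁ =>
    exists_congr fun c₂ => ?_
  simp only [red, List.mem_flatMap, List.mem_map, TL, Finset.mem_toList]
  constructor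
  · intro h C hC t ht
    have := h _ ⟨C, hC, _, ⟨t, ht, rfl⟩, rfl⟩
    simp only [dot_co hC ht, decide_eq_true_eq] at this
    simpa only [G, Prod.fst_add, Prod.snd_add, Prod.fst_sum, Prod.snd_sum] using this
  · rintro h _ ⟨C, hC, _, ⟨t, ht, rfl⟩, rfl⟩
    have := h C hC t ht
    simp only [dot_co hC ht, decide_eq_true_eq]
    simpa only [G, Prod.fst_add, Prod.snd_add, Prod.fst_sum, Prod.snd_sum] using this

theorem sig_two : 3 / 4 ≤ sig 2 := by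
  rw [sig_eq]
  have := Real.add_one_le_exp (2 : ℝ)
  rw [le_div_iff₀ (by linarith)]; linarith

theorem sig_mono {x y : ℝ} (h : x ≤ y) : sig x ≤ sig y := by
  unfold sig
  have := Real.exp_le_exp.2 (neg_le_neg h)
  have h2 := Real.exp_pos (-y)
  exact one_div_le_one_div_of_le (by linarith) (by linarith)

theorem sig_lt (x : ℝ) : sig x < 1 := by
  unfold sig
  have h2 := Real.exp_pos (-x)
  rw [div_lt_one (by linarith)]; linarith

theorem G_pos {p : ℝ × ℝ} (h1 : 0 ≤ p.1) (h2 : 0 ≤ p.2) : G 2 2 (-3 / 2) 1 1 p := by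
  unfold G
  have := sig_mono (show 2 ≤ p.1 + 2 by linarith)
  have := sig_mono (show 2 ≤ p.2 + 2 by linarith)
  linarith [sig_two]

theorem G_neg {p : ℝ × ℝ} (h : p.1 ≤ -4 ∨ p.2 ≤ -4) : ¬ G 2 2 (-3 / 2) 1 1 p := by
  unfold G
  have h0 := sig_neg 2
  have h1 := sig_two
  have := sig_lt (p.1 + 2)
  have := sig_lt (p.2 + 2)
  rcases h with h | h
  · have := sig_mono (show p.1 + 2 ≤ -2 by linarith); intro; linarith
  · have := sig_mono (show p.2 + 2 ≤ -2 by linarith); intro; linarith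

theorem yes (N : ℕ) (φ : List (ℕ × ℕ × ℕ)) (h : NAE φ) : Load (red N φ) := by
  obtain ⟨χ, hχ⟩ := h
  rw [load_iff]
  let v : Bool → ℝ × ℝ := fun b => if b = true then (-4, 8) else (8, -4)
  refine ⟨fun c => (v (χ (c / N))).1, fun c => (v (χ (c / N))).2, 2, 2, -3 / 2, 1, 1,
    fun C hC t ht => ?_⟩
  obtain ⟨⟨s1, s2, s3⟩, d1, d2, d3, hc⟩ := mem_TT.1 ht
  have hle : C.1 + C.2.1 + C.2.2 + 1 ≤ (φ.map fun C => C.1 + C.2.1 + C.2.2 + 1).sum :=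
    List.single_le_sum (by simp) _ (List.mem_map.2 ⟨C, hC, rfl⟩)
  have e : ∀ (S : Finset ℕ) (i : ℕ), S ⊆ range N → i ≤ C.1 + C.2.1 + C.2.2 →
      ∑ r ∈ S, (ext (kk N φ) (fun c => (v (χ (c / N))).1) (N * i + r),
        ext (kk N φ) (fun c => (v (χ (c / N))).2) (N * i + r)) = (S.card : ℝ) • v (χ i) := by
    intro S i h1 hi
    rw [Nat.cast_smul_eq_nsmul, ← Finset.sum_const]
    refine Finset.sum_congr rfl fun r hr => ?_
    have hr' := mem_range.1 (h1 hr)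
    have h2 : N * (i + 1) ≤ N * (φ.map fun C => C.1 + C.2.1 + C.2.2 + 1).sum :=
      Nat.mul_le_mul_left _ (by omega)
    rw [Nat.mul_succ] at h2
    have h3 : N * i + r < kk N φ := by unfold kk; omega
    have h4 : (N * i + r) / N = i := by
      rw [Nat.mul_add_div (by omega), Nat.div_eq_of_lt hr', add_zero]
    simp [ext, h3, h4]
  rw [e _ _ s1 (by omega), e _ _ s2 (by omega), e _ _ s3 (by omega)]
  have one : ∀ (m : ℕ) (b : Bool), m ≠ 0 → ¬ G 2 2 (-3 / 2) 1 1 ((m : ℝ) • v b) := by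
    intro m b hm
    have : (1 : ℝ) ≤ m := by exact_mod_cast Nat.pos_of_ne_zero hm
    apply G_neg
    cases b
    · right; change (m : ℝ) * -4 ≤ -4; linarith
    · left; change (m : ℝ) * -4 ≤ -4; linarith
  have hn := hχ C hC
  by_cases hq : t.1.card = t.2.1.card ∧ t.2.1.card = t.2.2.card
  · refine iff_of_true hq ?_
    rw [← hq.2, ← hq.1]
    have : (0 : ℝ) ≤ t.1.card := Nat.cast_nonneg _
    apply G_pos <;> cases h1 : χ C.1 <;> cases h2 : χ C.2.1 <;> cases h3 : χ C.2.2 <;>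
      simp [h1, h2, h3] at hn <;> simp [v] <;> linarith
  · refine iff_of_false hq ?_
    rcases hc with hc | hc | hc | hc
    · exact absurd hc hq
    all_goals
      rw [hc.1, hc.2] at hq ⊢
      simp only [card_empty, Nat.cast_zero, zero_smul, add_zero, zero_add] at hq ⊢
      exact one _ _ (fun h0 => hq (by simp [h0]))

theorem core' {b₁ b₂ c₀ c₁ c₂ ε : ℝ} (hε : ε ≠ 0) (a b k : ℕ → ℝ × ℝ) (R₁ R₂ R₃ : Finset ℕ)
    (U L L' : Fin 4 ↪ ℕ) (m : ℝ) (hU : ∀ r, U r ∈ R₁ ∧ m ≤ ε * (a (U r)).1)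
    (hL : ∀ r, L r ∈ R₂ ∧ ε * (b (L r)).1 ≤ m) (hL' : ∀ r, L' r ∈ R₃ ∧ ε * (k (L' r)).1 ≤ m)
    (hb : ∀ r ∈ R₂, 0 ≤ ε * (b r).1) (hk : ∀ r ∈ R₃, 0 ≤ ε * (k r).1)
    (pos : ∀ S₁ ⊆ R₁, ∀ S₂ ⊆ R₂, ∀ S₃ ⊆ R₃, S₁.card = S₂.card → S₂.card = S₃.card →
      G b₁ b₂ c₀ c₁ c₂ (∑ r ∈ S₁, a r + ∑ r ∈ S₂, b r + ∑ r ∈ S₃, k r))
    (na : ∀ S ⊆ R₁, S.Nonempty → ¬ G b₁ b₂ c₀ c₁ c₂ (∑ r ∈ S, a r))
    (nb : ∀ S ⊆ R₂, S.Nonempty → ¬ G b₁ b₂ c₀ c₁ c₂ (∑ r ∈ S, b r))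
    (nk : ∀ S ⊆ R₃, S.Nonempty → ¬ G b₁ b₂ c₀ c₁ c₂ (∑ r ∈ S, k r)) : False := by
  have sub : ∀ (E : Fin 4 ↪ ℕ) (R : Finset ℕ), (∀ r, E r ∈ R) → ∀ S : Finset (Fin 4),
      S.map E ⊆ R := fun E R h S x hx => by
    obtain ⟨r, -, rfl⟩ := Finset.mem_map.1 hx; exact h r
  refine core (b₁ := b₁) (b₂ := b₂) (c₀ := c₀) (c₁ := c₁) (c₂ := c₂) hε (fun r => a (U r))
    (fun r => b (L r)) (fun r => k (L' r)) (fun r => hb _ (hL r).1) (fun r => hk _ (hL' r).1)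
    (fun r s => (hL s).2.trans (hU r).2) (fun r s => (hL' s).2.trans (hU r).2) (fun S => ?_) ?_ ?_
    (fun S hS => ?_)
  · simpa using pos _ (sub U _ (fun r => (hU r).1) S) _ (sub L _ (fun r => (hL r).1) S) _
      (sub L' _ (fun r => (hL' r).1) S) (by simp) (by simp)
  · simpa using na _ (sub U _ (fun r => (hU r).1) univ) (by simp)
  · simpa using nb _ (sub L _ (fun r => (hL r).1) univ) (by simp)
  · simpa using nk _ (sub L' _ (fun r => (hL' r).1) S) (by simpa using hS)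

theorem no (N : ℕ) (hN : 41 ≤ N) (φ : List (ℕ × ℕ × ℕ)) (h : Load (red N φ)) : NAE φ := by
  classical
  rw [load_iff] at h
  obtain ⟨a₁, a₂, b₁, b₂, c₀, c₁, c₂, h⟩ := h
  let w : ℕ → ℕ → ℝ × ℝ := fun i r => (ext _ a₁ (N * i + r), ext _ a₂ (N * i + r))
  let χ : ℕ → Bool := fun i => decide (21 ≤ ((range N).filter fun r => 0 ≤ (w i r).1).card)
  refine ⟨χ, fun C hC hm => ?_⟩
  obtain ⟨ε, hε, hg⟩ : ∃ ε : ℝ, ε ≠ 0 ∧ ∀ i, χ i = χ C.1 →
      21 ≤ ((range N).filter fun r => 0 ≤ ε * (w i r).1).card := by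
    cases h1 : χ C.1
    · refine ⟨-1, by norm_num, fun i hi => ?_⟩
      have h2 : ¬ 21 ≤ ((range N).filter fun r => 0 ≤ (w i r).1).card := by simpa [χ] using hi
      have h3 := Finset.card_filter_add_card_filter_not (s := range N) fun r => 0 ≤ (w i r).1
      rw [card_range] at h3
      have h4 : ((range N).filter fun r => ¬ 0 ≤ (w i r).1).card ≤
          ((range N).filter fun r => 0 ≤ -1 * (w i r).1).card :=
        Finset.card_le_card fun r hr => by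
          rw [Finset.mem_filter] at hr ⊢; exact ⟨hr.1, by linarith [not_le.1 hr.2]⟩
      omega
    · exact ⟨1, one_ne_zero, fun i hi => by simpa [χ] using hi⟩
  obtain ⟨R₁, r1, k1⟩ := Finset.exists_subset_card_eq (n := 7)
    (le_trans (by norm_num) (hg C.1 rfl))
  obtain ⟨R₂, r2, k2⟩ := Finset.exists_subset_card_eq (n := 7)
    (s := ((range N).filter fun r => 0 ≤ ε * (w C.2.1 r).1) \ R₁) (by
      have := hg C.2.1 hm.1.symm
      have := Finset.le_card_sdiff R₁ ((range N).filter fun r => 0 ≤ ε * (w C.2.1 r).1)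
      omega)
  obtain ⟨R₃, r3, k3⟩ := Finset.exists_subset_card_eq (n := 7)
    (s := ((range N).filter fun r => 0 ≤ ε * (w C.2.2 r).1) \ (R₁ ∪ R₂)) (by
      have := hg C.2.2 (hm.1.trans hm.2).symm
      have := Finset.le_card_sdiff (R₁ ∪ R₂) ((range N).filter fun r => 0 ≤ ε * (w C.2.2 r).1)
      have := Finset.card_union_le R₁ R₂
      omega)
  have g1 : ∀ r ∈ R₁, r ∈ range N ∧ 0 ≤ ε * (w C.1 r).1 := fun r hr => mem_filter.1 (r1 hr)
  have g2 : ∀ r ∈ R₂, r ∈ range N ∧ 0 ≤ ε * (w C.2.1 r).1 := fun r hr =>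
    mem_filter.1 (mem_sdiff.1 (r2 hr)).1
  have g3 : ∀ r ∈ R₃, r ∈ range N ∧ 0 ≤ ε * (w C.2.2 r).1 := fun r hr =>
    mem_filter.1 (mem_sdiff.1 (r3 hr)).1
  have d12 : Disjoint R₁ R₂ := disjoint_right.2 fun r hr => (mem_sdiff.1 (r2 hr)).2
  have d13 : Disjoint R₁ R₃ := disjoint_right.2 fun r hr h =>
    (mem_sdiff.1 (r3 hr)).2 (mem_union_left _ h)
  have d23 : Disjoint R₂ R₃ := disjoint_right.2 fun r hr h =>
    (mem_sdiff.1 (r3 hr)).2 (mem_union_right _ h)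
  have H : ∀ S₁ ⊆ R₁, ∀ S₂ ⊆ R₂, ∀ S₃ ⊆ R₃, ((S₁.card = S₂.card ∧ S₂.card = S₃.card) ∨
      (S₂ = ∅ ∧ S₃ = ∅) ∨ (S₁ = ∅ ∧ S₃ = ∅) ∨ (S₁ = ∅ ∧ S₂ = ∅)) →
      ((S₁.card = S₂.card ∧ S₂.card = S₃.card) ↔ G b₁ b₂ c₀ c₁ c₂
        (∑ r ∈ S₁, w C.1 r + ∑ r ∈ S₂, w C.2.1 r + ∑ r ∈ S₃, w C.2.2 r)) :=
    fun S₁ h1 S₂ h2 S₃ h3 hc => h C hC (S₁, S₂, S₃) (mem_TT.2
      ⟨⟨fun r hr => (g1 r (h1 hr)).1, fun r hr => (g2 r (h2 hr)).1, fun r hr => (g3 r (h3 hr)).1⟩,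
        d12.mono h1 h2, d13.mono h1 h3, d23.mono h2 h3, hc⟩)
  have pos : ∀ S₁ ⊆ R₁, ∀ S₂ ⊆ R₂, ∀ S₃ ⊆ R₃, S₁.card = S₂.card → S₂.card = S₃.card →
      G b₁ b₂ c₀ c₁ c₂ (∑ r ∈ S₁, w C.1 r + ∑ r ∈ S₂, w C.2.1 r + ∑ r ∈ S₃, w C.2.2 r) :=
    fun S₁ h1 S₂ h2 S₃ h3 e1 e2 => (H S₁ h1 S₂ h2 S₃ h3 (Or.inl ⟨e1, e2⟩)).1 ⟨e1, e2⟩
  have n1 : ∀ S ⊆ R₁, S.Nonempty → ¬ G b₁ b₂ c₀ c₁ c₂ (∑ r ∈ S, w C.1 r) := fun S hS hn hG => by
    have := (H S hS ∅ (empty_subset _) ∅ (empty_subset _) (by simp)).2 (by simpa using hG)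
    have := hn.card_pos; simp only [card_empty] at *; omega
  have n2 : ∀ S ⊆ R₂, S.Nonempty → ¬ G b₁ b₂ c₀ c₁ c₂ (∑ r ∈ S, w C.2.1 r) := fun S hS hn hG => by
    have := (H ∅ (empty_subset _) S hS ∅ (empty_subset _) (by simp)).2 (by simpa using hG)
    have := hn.card_pos; simp only [card_empty] at *; omega
  have n3 : ∀ S ⊆ R₃, S.Nonempty → ¬ G b₁ b₂ c₀ c₁ c₂ (∑ r ∈ S, w C.2.2 r) := fun S hS hn hG => by
    have := (H ∅ (empty_subset _) ∅ (empty_subset _) S hS (by simp)).2 (by simpa using hG)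
    have := hn.card_pos; simp only [card_empty] at *; omega
  obtain ⟨m1, U1, L1, u1, l1⟩ := median R₁ k1 fun r => ε * (w C.1 r).1
  obtain ⟨m2, U2, L2, u2, l2⟩ := median R₂ k2 fun r => ε * (w C.2.1 r).1
  obtain ⟨m3, U3, L3, u3, l3⟩ := median R₃ k3 fun r => ε * (w C.2.2 r).1
  have tri : (m2 ≤ m1 ∧ m3 ≤ m1) ∨ (m1 ≤ m2 ∧ m3 ≤ m2) ∨ (m1 ≤ m3 ∧ m2 ≤ m3) := by
    rcases le_total m1 m2 with h1 | h1 <;> rcases le_total m2 m3 with h2 | h2 <;>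
      rcases le_total m1 m3 with h3 | h3 <;>
      first
      | exact Or.inl ⟨by linarith, by linarith⟩
      | exact Or.inr (Or.inl ⟨by linarith, by linarith⟩)
      | exact Or.inr (Or.inr ⟨by linarith, by linarith⟩)
  rcases tri with ht | ht | ht
  · exact core' hε _ _ _ R₁ R₂ R₃ U1 L2 L3 m1 u1 (fun r => ⟨(l2 r).1, (l2 r).2.trans ht.1⟩)
      (fun r => ⟨(l3 r).1, (l3 r).2.trans ht.2⟩) (fun r hr => (g2 r hr).2)
      (fun r hr => (g3 r hr).2) pos n1 n2 n3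
  · refine core' hε _ _ _ R₂ R₁ R₃ U2 L1 L3 m2 u2 (fun r => ⟨(l1 r).1, (l1 r).2.trans ht.1⟩)
      (fun r => ⟨(l3 r).1, (l3 r).2.trans ht.2⟩) (fun r hr => (g1 r hr).2)
      (fun r hr => (g3 r hr).2) (fun S₂ h2 S₁ h1 S₃ h3 e1 e2 => ?_) n2 n1 n3
    convert pos S₁ h1 S₂ h2 S₃ h3 e1.symm (e1.trans e2) using 1; abel
  · refine core' hε _ _ _ R₃ R₁ R₂ U3 L1 L2 m3 u3 (fun r => ⟨(l1 r).1, (l1 r).2.trans ht.1⟩)
      (fun r => ⟨(l2 r).1, (l2 r).2.trans ht.2⟩) (fun r hr => (g1 r hr).2)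
      (fun r hr => (g2 r hr).2) (fun S₃ h3 S₁ h1 S₂ h2 e1 e2 => ?_) n3 n1 n2
    convert pos S₁ h1 S₂ h2 S₃ h3 e2 (e1.trans e2).symm using 1; abel

theorem load_nph : NPH Valid Load :=
  nae_nph.reduce (red 41) (pt_red 41) fun φ _ => ⟨valid 41 φ, yes 41 φ, no 41 le_rfl φ⟩

end Pool.Agent.H66.Sig
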