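import Mathlib

/-! One-generated c.e. algebras with two unary operations `a, b` and laws `ab = b`, `bb = b`. -/

namespace Pool.Agent.H66.Acc

/-- `n ∈ W_e` -/
def W (e n : ℕ) : Prop := ((Denumerable.ofNat Nat.Partrec.Code e).eval n).Dom

/-- congruences of an algebra with two unary operations -/
def Cong {A : Type} (op : Bool → A → A) (r : Setoid A) : Prop :=
  ∀ c x y, r x y → r (op c x) (op c y)

/-- Terms in one variable are words (`false = a`, `true = b`). The least congruence containing
the pairs coded in `W_e` and all instances of the laws `a (b y) = b y`, `b (b y) = b y`. -/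
def theta (e : ℕ) : Setoid (List Bool) :=
  sInf {r | Cong List.cons r ∧ (∀ u v, W e (Encodable.encode (u, v)) → r u v) ∧
    ∀ c w, r (c :: true :: w) (true :: w)}

/-- the operations of the presented algebra -/
def op (e : ℕ) (c : Bool) : Quotient (theta e) → Quotient (theta e) :=
  Quotient.map (List.cons c) fun x y h r hr => hr.1 c x y (h r hr)

def Iso (e i : ℕ) : Prop :=
  ∃ φ : Quotient (theta e) ≃ Quotient (theta i), ∀ c x, φ (op e c x) = op i c (φ x)

/-- every algebra of the class has the ascending chain condition on congruences -/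
def ACC : Prop :=
  ∀ e, ¬∃ r : ℕ → Setoid (Quotient (theta e)), StrictMono r ∧ ∀ n, Cong (op e) (r n)

def Sigma3 (E : ℕ → ℕ → Prop) : Prop :=
  ∃ R : (ℕ × ℕ) × ℕ × ℕ × ℕ → Prop, ComputablePred R ∧
    ∀ x y, E x y ↔ ∃ a, ∀ b, ∃ c, R ((x, y), a, b, c)

def Complete3 (F : ℕ → ℕ → Prop) : Prop :=
  Sigma3 F ∧ ∀ E, Equivalence E → Sigma3 E → ∃ f, Computable f ∧ ∀ x y, E x y ↔ F (f x) (f y)

end Pool.Agent.H66.Acc
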