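import Mathlib

/-! Bounded finite-one reducibility. -/

namespace Pool.Agent.H66.Bfin

/-- bounded finite-one reducibility -/
def Bfin (A B : ℕ → Prop) : Prop :=
  ∃ f : ℕ → ℕ, Computable f ∧ (∀ x, A x ↔ B (f x)) ∧ ∃ c : ℕ, ∀ y, {x | f x = y}.encard ≤ c

/-- the bounded finite-one degree of `A` -/
def Deg (A : ℕ → Prop) : Set (ℕ → Prop) := {B | Bfin A B ∧ Bfin B A}

end Pool.Agent.H66.Bfin
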