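import Mathlib

/-! Computable relational structures by index, bi-embeddability, computable reducibility. -/

namespace Pool.Agent.H66.Bi

/-- Analytic (lightface) binary relations on the naturals, in Kleene normal form. -/
def Sigma11 (E : ℕ → ℕ → Prop) : Prop :=
  ∃ T : ℕ × ℕ × List ℕ → Prop, ComputablePred T ∧
    ∀ x y, E x y ↔ ∃ p : ℕ → ℕ, ∀ n, T (x, y, (List.range n).map p)

/-- A universe inside the naturals and, for each symbol `i`, a set of tuples. -/
structure Str where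
  /-- the universe -/
  U : Set ℕ
  /-- the relations -/
  R : ℕ → List ℕ → Prop

/-- `A` is a structure for the language with symbol set `S` and arities `ar`. -/
def IsStr (S : Set ℕ) (ar : ℕ → ℕ) (A : Str) : Prop :=
  ∀ i l, A.R i l → i ∈ S ∧ l.length = ar i ∧ ∀ a ∈ l, a ∈ A.U

/-- `h` is an embedding of `A` into `B`. -/
def IsEmb (A B : Str) (h : ℕ → ℕ) : Prop :=
  Set.MapsTo h A.U B.U ∧ Set.InjOn h A.U ∧
    ∀ i l, (∀ a ∈ l, a ∈ A.U) → (A.R i l ↔ B.R i (l.map h))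

/-- Isomorphic structures. -/
def Iso (A B : Str) : Prop := ∃ h, IsEmb A B h ∧ Set.SurjOn h A.U B.U

/-- The `e`-th computable function (possibly not total). -/
def phi (e : ℕ) : ℕ →. ℕ := (Denumerable.ofNat Nat.Partrec.Code e).eval

/-- The structure whose diagram is decided by index `e`. -/
def str (e : ℕ) : Str :=
  ⟨{a | 1 ∈ phi e (Nat.pair 0 a)}, fun i l => 1 ∈ phi e (Nat.pair (i + 1) (Encodable.encode l))⟩

/-- Indices of computable structures in the class `K`. -/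
def Idx (S : Set ℕ) (ar : ℕ → ℕ) (K : Set Str) : Set ℕ :=
  {e | (∀ x, 0 ∈ phi e x ∨ 1 ∈ phi e x) ∧ IsStr S ar (str e) ∧ str e ∈ K}

/-- Bi-embeddability of the structures with indices `e` and `e'`. -/
def BiEmb (e e' : ℕ) : Prop := (∃ h, IsEmb (str e) (str e') h) ∧ ∃ h, IsEmb (str e') (str e) h

/-- Computable reducibility of `E` on `X` to `F` on `Y`. -/
def CRed (X : Set ℕ) (E : ℕ → ℕ → Prop) (Y : Set ℕ) (F : ℕ → ℕ → Prop) : Prop :=
  ∃ f : ℕ →. ℕ, Partrec f ∧ (∀ x ∈ X, ∃ y ∈ f x, y ∈ Y) ∧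
    ∀ x ∈ X, ∀ x' ∈ X, ∀ y ∈ f x, ∀ y' ∈ f x', (E x x' ↔ F y y')

end Pool.Agent.H66.Bi
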