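import Mathlib

open Complex Set Filter Topology Metric
open scoped ComplexConjugate

namespace Pool.Agent.H66.Bkr

/-- the right half plane -/
def HP : Set ℂ := {z | 0 < z.re}

lemma hp_open : IsOpen HP := isOpen_lt continuous_const continuous_re

lemma nsq (u v : ℂ) : ‖u + conj v‖ ^ 2 = ‖u - v‖ ^ 2 + 4 * u.re * v.re := by
  rw [← Complex.normSq_eq_norm_sq, ← Complex.normSq_eq_norm_sq]
  simp [Complex.normSq_apply]; ring

lemma add_conj_ne {u v : ℂ} (hu : 0 < u.re) (hv : 0 < v.re) : u + conj v ≠ 0 := by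
  intro h
  have := congrArg Complex.re h
  simp at this; linarith

lemma sp_strict {h : ℂ → ℂ} (hd : DifferentiableOn ℂ h HP) (hp : ∀ X ∈ HP, 0 < (h X).re)
    {a b : ℂ} (ha : a ∈ HP) (hb : b ∈ HP) :
    ‖h a - h b‖ ^ 2 * (a.re * b.re) ≤ ‖a - b‖ ^ 2 * ((h a).re * (h b).re) := by
  have ha' : 0 < a.re := ha
  have hb' : 0 < b.re := hb
  set m : ℂ → ℂ := fun t => (b + conj b * t) / (1 - t) with hm
  have hne : ∀ t ∈ ball (0 : ℂ) 1, (1 - t) ≠ 0 := by
    intro t ht h0
    have : t = 1 := by linear_combination -h0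
    rw [this] at ht; simp at ht
  have hmH : MapsTo m (ball 0 1) HP := by
    intro t ht
    have h1 := hne t ht
    have h2 : normSq t < 1 := by
      rw [Complex.normSq_eq_norm_sq]
      have : ‖t‖ < 1 := by simpa using ht
      nlinarith [norm_nonneg t]
    have h3 : 0 < normSq (1 - t) := Complex.normSq_pos.2 h1
    show 0 < ((b + conj b * t) / (1 - t)).re
    rw [Complex.div_re, ← add_div]
    apply div_pos _ h3
    simp [Complex.normSq_apply] at h2 ⊢
    nlinarith
  have hmd : DifferentiableOn ℂ m (ball 0 1) := by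
    apply DifferentiableOn.div _ _ hne <;> fun_prop
  set f : ℂ → ℂ := fun t => (h (m t) - h b) / (h (m t) + conj (h b)) with hf
  have hc : DifferentiableOn ℂ (fun t => h (m t)) (ball 0 1) := hd.comp hmd hmH
  have hfd : DifferentiableOn ℂ f (ball 0 1) := by
    apply DifferentiableOn.div (hc.sub_const _) (hc.add_const _)
    intro t ht
    exact add_conj_ne (hp _ (hmH ht)) (hp _ hb)
  have hfm : MapsTo f (ball 0 1) (closedBall 0 1) := by
    intro t ht
    have h1 := nsq (h (m t)) (h b)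
    have h2 := hp _ (hmH ht)
    have h3 := hp _ hb
    have h4 : 0 < ‖h (m t) + conj (h b)‖ := norm_pos_iff.2 (add_conj_ne h2 h3)
    simp only [mem_closedBall, dist_zero_right, hf, norm_div]
    rw [div_le_one h4]
    apply le_of_sq_le_sq _ h4.le
    nlinarith [mul_pos h2 h3]
  have hf0 : f 0 = 0 := by simp [hf, hm]
  have hab := add_conj_ne ha' hb'
  have hab' : 0 < ‖a + conj b‖ := norm_pos_iff.2 hab
  have e1 := nsq a b
  set t0 : ℂ := (a - b) / (a + conj b) with ht0
  have ht : ‖t0‖ < 1 := by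
    rw [ht0, norm_div, div_lt_one hab']
    apply lt_of_pow_lt_pow_left₀ 2 hab'.le
    nlinarith [mul_pos ha' hb']
  have hmt : m t0 = a := by
    have h1 := hne t0 (by simpa using ht)
    simp only [hm]
    rw [div_eq_iff h1, ht0]
    field_simp
    ring
  have key := Complex.norm_le_norm_of_mapsTo_ball hfd hfm hf0 ht
  simp only [hf, hmt] at key
  rw [ht0, norm_div, norm_div] at key
  have h2 := hp _ ha
  have h3 := hp _ hb
  have h4 : 0 < ‖h a + conj (h b)‖ := norm_pos_iff.2 (add_conj_ne h2 h3)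
  rw [div_le_div_iff₀ h4 hab'] at key
  have k2 := pow_le_pow_left₀ (by positivity) key 2
  rw [mul_pow, mul_pow, e1, nsq] at k2
  nlinarith

/-- Schwarz-Pick for Herglotz functions -/
lemma sp {h : ℂ → ℂ} (hd : DifferentiableOn ℂ h HP) (hp : ∀ X ∈ HP, 0 ≤ (h X).re)
    {a b : ℂ} (ha : a ∈ HP) (hb : b ∈ HP) :
    ‖h a - h b‖ ^ 2 * (a.re * b.re) ≤ ‖a - b‖ ^ 2 * ((h a).re * (h b).re) := by
  have H : ∀ e : ℝ, 0 < e → ‖h a - h b‖ ^ 2 * (a.re * b.re) ≤
      ‖a - b‖ ^ 2 * (((h a).re + e) * ((h b).re + e)) := by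
    intro e he
    have := sp_strict (h := fun X => h X + e) (hd.add_const _)
      (fun X hX => by have := hp X hX; simp; linarith) ha hb
    simpa using this
  have T : Tendsto (fun e : ℝ => ‖a - b‖ ^ 2 * (((h a).re + e) * ((h b).re + e))) (𝓝[>] 0)
      (𝓝 (‖a - b‖ ^ 2 * ((h a).re * (h b).re))) := by
    apply Tendsto.mono_left _ nhdsWithin_le_nhds
    exact Continuous.tendsto' (by fun_prop) _ _ (by simp)
  exact ge_of_tendsto T (eventually_nhdsWithin_of_forall H)

lemma harnack {h : ℂ → ℂ} (hd : DifferentiableOn ℂ h HP) (hp : ∀ X ∈ HP, 0 ≤ (h X).re)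
    {a b : ℂ} (ha : a ∈ HP) (hb : b ∈ HP) :
    ‖h a - h b‖ ≤ (‖a - b‖ ^ 2 / (a.re * b.re) + 1) * (h b).re := by
  have ha' : 0 < a.re := ha
  have hb' : 0 < b.re := hb
  have hab := mul_pos ha' hb'
  have h1 := sp hd hp ha hb
  set K := ‖a - b‖ ^ 2 / (a.re * b.re) with hK
  have hK0 : 0 ≤ K := by positivity
  have h2 : ‖h a - h b‖ ^ 2 ≤ K * ((h a).re * (h b).re) := by
    rw [hK, div_mul_eq_mul_div, le_div_iff₀ hab]; exact h1
  have h3 : (h a).re ≤ (h b).re + ‖h a - h b‖ := by
    have := Complex.re_le_norm (h a - h b)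
    simp at this; linarith
  have h4 := hp b hb
  set d := ‖h a - h b‖
  set r := (h b).re
  have hd0 : 0 ≤ d := norm_nonneg _
  have h5 : d ^ 2 ≤ K * ((r + d) * r) :=
    h2.trans (mul_le_mul_of_nonneg_left (mul_le_mul_of_nonneg_right h3 h4) hK0)
  by_contra hc
  push Not at hc
  have h6 : r < d - K * r := by linarith
  have h7 : 0 < d := lt_of_le_of_lt (by positivity) hc
  have h8 : d * r ≤ d * (d - K * r) := mul_le_mul_of_nonneg_left h6.le hd0
  have h9 : (K + 1) * r * r ≤ d * r := mul_le_mul_of_nonneg_right hc.le h4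
  rcases h4.eq_or_lt with h0 | h0
  · rw [← h0] at h5; nlinarith
  · nlinarith [mul_pos h0 h0]

lemma real_mem {x : ℝ} (hx : 0 < x) : (x : ℂ) ∈ HP := by simpa [HP] using hx

/-- Julia-Caratheodory at infinity -/
lemma jc {h : ℂ → ℂ} (hd : DifferentiableOn ℂ h HP) (hp : ∀ X ∈ HP, 0 ≤ (h X).re) :
    ∃ A : ℝ, (∀ X ∈ HP, A * X.re ≤ (h X).re) ∧
      Tendsto (fun x : ℝ => h x / x) atTop (𝓝 (A : ℂ)) := by
  set T : Set ℝ := (fun X => (h X).re / X.re) '' HP with hT
  have hTn : T.Nonempty := ⟨_, ⟨1, by simp [HP], rfl⟩⟩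
  have hTb : BddBelow T := ⟨0, by
    rintro _ ⟨X, hX, rfl⟩
    exact div_nonneg (hp X hX) (le_of_lt hX)⟩
  set A := sInf T
  have hA : ∀ X ∈ HP, A * X.re ≤ (h X).re := by
    intro X hX
    have : A ≤ (h X).re / X.re := csInf_le hTb ⟨X, hX, rfl⟩
    rwa [le_div_iff₀ hX] at this
  refine ⟨A, hA, ?_⟩
  set g : ℂ → ℂ := fun X => h X - A * X with hg
  have gd : DifferentiableOn ℂ g HP := hd.sub (by fun_prop)
  have gp : ∀ X ∈ HP, 0 ≤ (g X).re := by
    intro X hX; have := hA X hX; simp [hg]; linarith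
  have main : Tendsto (fun x : ℝ => g x / x) atTop (𝓝 0) := by
    rw [Metric.tendsto_nhds]
    intro e he
    obtain ⟨_, ⟨X0, hX0, rfl⟩, hlt⟩ := exists_lt_of_csInf_lt hTn (show A < A + e / 10 by linarith)
    have hX0' : 0 < X0.re := hX0
    have h1 : (g X0).re ≤ e / 10 * X0.re := by
      rw [div_lt_iff₀ hX0'] at hlt
      simp [hg]; linarith
    filter_upwards [eventually_gt_atTop 0, eventually_ge_atTop ‖X0‖,
      eventually_ge_atTop (20 * ‖g X0‖ / e)] with x hx0 hx1 hx2
    have h2 := sp gd gp (real_mem hx0) hX0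
    have h3 : ‖(x : ℂ) - X0‖ ≤ 2 * x := by
      have := norm_sub_le (x : ℂ) X0
      rw [Complex.norm_real, Real.norm_of_nonneg hx0.le] at this; linarith
    have h4 : ‖g x‖ ≤ ‖g x - g X0‖ + ‖g X0‖ := by
      have := norm_add_le (g x - g X0) (g X0); simpa using this
    have h5 : (g x).re ≤ ‖g x‖ := Complex.re_le_norm _
    have h6 := gp _ (real_mem hx0)
    have h7 := gp _ hX0
    rw [div_le_iff₀ he] at hx2
    rw [Complex.ofReal_re] at h2
    set d := ‖g x - g X0‖
    set G := ‖g X0‖
    have hd0 : 0 ≤ d := norm_nonneg _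
    have hG0 : 0 ≤ G := norm_nonneg _
    have h8 : d ^ 2 * (x * X0.re) ≤ (2 * x) ^ 2 * ((d + G) * (e / 10 * X0.re)) := by
      refine h2.trans (mul_le_mul (pow_le_pow_left₀ (norm_nonneg _) h3 2) ?_ (by positivity)
        (by positivity))
      exact mul_le_mul (by linarith) h1 h7 (by positivity)
    have h9 : d ^ 2 ≤ 4 * x * (e / 10) * (d + G) := by
      have : d ^ 2 * (x * X0.re) ≤ 4 * x * (e / 10) * (d + G) * (x * X0.re) := by
        refine h8.trans (le_of_eq ?_); ring
      exact le_of_mul_le_mul_right this (mul_pos hx0 hX0')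
    have h10 : d ≤ G + 8 * x * (e / 10) := by
      by_contra hc
      push Not at hc
      have hxe : 0 < x * (e / 10) := by positivity
      have : G < d := by linarith
      nlinarith
    rw [dist_zero_right, norm_div, Complex.norm_real, Real.norm_of_nonneg hx0.le, div_lt_iff₀ hx0]
    nlinarith [mul_pos hx0 he]
  have := main.add_const (A : ℂ)
  rw [zero_add] at this
  refine this.congr' ?_
  filter_upwards [eventually_gt_atTop 0] with x hx
  have : (x : ℂ) ≠ 0 := by exact_mod_cast hx.ne'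
  simp only [hg]; field_simp; ring

lemma julia {h : ℂ → ℂ} (hd : DifferentiableOn ℂ h HP) (hp : ∀ X ∈ HP, 0 ≤ (h X).re) {c : ℝ}
    (hc : Tendsto (fun x : ℝ => h x / x) atTop (𝓝 (c : ℂ))) : ∀ X ∈ HP, c * X.re ≤ (h X).re := by
  obtain ⟨A, h1, h2⟩ := jc hd hp
  have : (A : ℂ) = c := tendsto_nhds_unique h2 hc
  have : A = c := by exact_mod_cast this
  rw [← this]; exact h1

lemma im_lim {h : ℂ → ℂ} (hd : DifferentiableOn ℂ h HP) (hp : ∀ X ∈ HP, 0 ≤ (h X).re) :
    Tendsto (fun x : ℝ => (h x / x).im) atTop (𝓝 0) := by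
  obtain ⟨A, -, h2⟩ := jc hd hp
  have := (continuous_im.tendsto _).comp h2
  rw [ofReal_im] at this
  exact this

lemma slope0 {h φ : ℂ → ℂ} (hd : DifferentiableOn ℂ h HP) (fd : DifferentiableOn ℂ φ HP)
    (hp : ∀ X ∈ HP, ‖φ X‖ ≤ (h X).re) : Tendsto (fun x : ℝ => φ x / x) atTop (𝓝 0) := by
  have h0 := im_lim hd (fun X hX => (norm_nonneg _).trans (hp X hX))
  have h1 := im_lim (h := fun X => h X + φ X) (hd.add fd) (fun X hX => by
    have := hp X hX
    have h2 := Complex.abs_re_le_norm (φ X)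
    rw [abs_le] at h2
    simp; linarith)
  have h2 := im_lim (h := fun X => h X + I * φ X) (hd.add (fd.const_mul _)) (fun X hX => by
    have := hp X hX
    have h2 := Complex.abs_im_le_norm (φ X)
    rw [abs_le] at h2
    simp; linarith)
  have h3 : Tendsto (fun x : ℝ => (φ x / x).im) atTop (𝓝 0) := by
    have := h1.sub h0
    rw [sub_zero] at this
    refine this.congr fun x => ?_
    rw [add_div, add_im]; ring
  have h4 : Tendsto (fun x : ℝ => (φ x / x).re) atTop (𝓝 0) := by
    have := h2.sub h0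
    rw [sub_zero] at this
    refine this.congr fun x => ?_
    rw [add_div, add_im, mul_div_assoc]; simp
  have h5 := ((continuous_ofReal.tendsto _).comp h4).add
    (((continuous_ofReal.tendsto _).comp h3).mul_const I)
  simp only [ofReal_zero, zero_mul, add_zero] at h5
  refine h5.congr fun x => ?_
  simp only [Function.comp]
  exact Complex.re_add_im _

lemma zero_of_le {φ : ℂ → ℂ} (fd : DifferentiableOn ℂ φ HP) {C : ℝ}
    (hp : ∀ X ∈ HP, ‖φ X‖ ≤ C * X.re) : ∀ X ∈ HP, φ X = 0 := by
  have h0 := slope0 (h := fun X => C * X) (by fun_prop) fd (fun X hX => by simpa using hp X hX)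
  have key : ∀ w : ℂ, ‖w‖ = 1 → ∀ X ∈ HP, 0 ≤ (w * φ X).re := by
    intro w hw X hX
    have h1 := julia (h := fun X => C * X + w * φ X) (c := C)
      ((by fun_prop : DifferentiableOn ℂ (fun X : ℂ => C * X) HP).add (fd.const_mul _))
      (fun X hX => by
        have := hp X hX
        have h2 := Complex.abs_re_le_norm (w * φ X)
        rw [abs_le, norm_mul, hw, one_mul] at h2
        simp only [add_re, re_ofReal_mul]; linarith)
      (by
        have := (h0.const_mul w).const_add (C : ℂ)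
        simp only [mul_zero, add_zero] at this
        refine this.congr' ?_
        filter_upwards [eventually_gt_atTop 0] with x hx
        have : (x : ℂ) ≠ 0 := by exact_mod_cast hx.ne'
        field_simp) X hX
    simp only [add_re, re_ofReal_mul] at h1; linarith
  intro X hX
  have a1 := key 1 (by simp) X hX
  have a2 := key (-1) (by simp) X hX
  have a3 := key I (by simp) X hX
  have a4 := key (-I) (by simp) X hX
  simp at a1 a2 a3 a4
  apply Complex.ext <;> simp <;> linarith

lemma hopf {k : ℂ → ℂ} (hd : DifferentiableOn ℂ k HP) (hp : ∀ X ∈ HP, 0 ≤ (k X).re)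
    (hl : Tendsto (fun x : ℝ => (x : ℂ) * k x) atTop (𝓝 0)) : ∀ X ∈ HP, k X = 0 := by
  intro X hX
  have hX' : 0 < X.re := hX
  have hinv : Tendsto (fun x : ℝ => ((x : ℂ))⁻¹) atTop (𝓝 0) := by
    have := (continuous_ofReal.tendsto _).comp tendsto_inv_atTop_zero
    simpa [Function.comp_def] using this
  have h1 : Tendsto (fun x : ℝ => k x) atTop (𝓝 0) := by
    have := hinv.mul hl
    rw [mul_zero] at this
    refine this.congr' ?_
    filter_upwards [eventually_gt_atTop 0] with x hx
    have : (x : ℂ) ≠ 0 := by exact_mod_cast hx.ne'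
    field_simp
  have L : Tendsto (fun x : ℝ => ‖k x - k X‖ ^ 2 * X.re) atTop (𝓝 (‖0 - k X‖ ^ 2 * X.re)) :=
    (((h1.sub_const _).norm).pow 2).mul_const _
  have R : Tendsto (fun x : ℝ => ‖1 - X * (x : ℂ)⁻¹‖ ^ 2 * (((x : ℂ) * k x).re * (k X).re)) atTop
      (𝓝 (‖1 - X * 0‖ ^ 2 * ((0 : ℂ).re * (k X).re))) :=
    ((((hinv.const_mul X).const_sub 1).norm).pow 2).mul
      (((continuous_re.tendsto _).comp hl).mul_const _)
  have := le_of_tendsto_of_tendsto L R (by
    filter_upwards [eventually_gt_atTop 0] with x hx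
    have hx' : (x : ℂ) ≠ 0 := by exact_mod_cast hx.ne'
    have h2 := sp hd hp (real_mem hx) hX
    have e : (x : ℂ) - X = x * (1 - X * (x : ℂ)⁻¹) := by field_simp
    rw [e, norm_mul, Complex.norm_real, Real.norm_of_nonneg hx.le, ofReal_re] at h2
    rw [re_ofReal_mul]
    refine le_of_mul_le_mul_left ?_ hx
    refine le_trans (le_of_eq ?_) (h2.trans (le_of_eq ?_)) <;> ring)
  simp only [zero_sub, norm_neg, zero_re, zero_mul, mul_zero] at this
  have h3 : ‖k X‖ ^ 2 ≤ 0 := by
    by_contra hc; push Not at hc; nlinarith [mul_pos hc hX']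
  have : ‖k X‖ = 0 := by nlinarith [norm_nonneg (k X)]
  simpa using this

lemma maxp {g : ℂ → ℂ} (hd : DifferentiableOn ℂ g HP)
    (hl : Tendsto g (Bornology.cobounded ℂ ⊓ 𝓟 HP) (𝓝 0))
    (hb : ∀ R : ℝ, ∃ M : ℝ, ∀ X ∈ HP, ‖X‖ ≤ R → -(M * X.re) ≤ (g X).re) :
    ∀ X ∈ HP, 0 ≤ (g X).re := by
  intro X1 hX1
  have hX1' : 0 < X1.re := hX1
  have H : ∀ δ : ℝ, 0 < δ → -δ ≤ (g X1).re := by
    intro δ hδ
    have h1 := (Metric.tendsto_nhds.1 hl) δ hδ
    rw [eventually_inf_principal] at h1
    obtain ⟨R0, -, hR0⟩ := (Metric.hasBasis_cobounded_compl_closedBall (0 : ℂ)).eventually_iff.1 h1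
    set R := max R0 ‖X1‖ + 1 with hR
    have hR1 : R0 < R := by have := le_max_left R0 ‖X1‖; linarith
    have hR2 : ‖X1‖ < R := by have := le_max_right R0 ‖X1‖; linarith
    have hRp : 0 < R := (norm_nonneg _).trans_lt hR2
    obtain ⟨M, hM⟩ := hb R
    set e := min (X1.re / 2) (δ / (|M| + 1)) with he
    have he0 : 0 < e := lt_min (by linarith) (by positivity)
    have he1 : e < X1.re := (min_le_left _ _).trans_lt (by linarith)
    have he2 : M * e ≤ δ := by
      have h2 : e ≤ δ / (|M| + 1) := min_le_right _ _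
      rw [le_div_iff₀ (by positivity)] at h2
      nlinarith [le_abs_self M]
    set U : Set ℂ := {z | e < z.re} ∩ ball 0 R with hU
    have hcl : closure U ⊆ HP := by
      intro z hz
      have := closure_mono inter_subset_left hz
      rw [closure_setOf_lt_re] at this
      exact he0.trans_le this
    have hdc : DiffContOnCl ℂ (fun z => exp (-g z)) U :=
      DifferentiableOn.diffContOnCl ((hd.mono hcl).neg.cexp)
    have hbd : Bornology.IsBounded U := isBounded_ball.subset inter_subset_right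
    have := Complex.norm_le_of_forall_mem_frontier_norm_le hbd hdc (C := Real.exp δ) (z := X1)
      (by
        intro z hz
        have hzH : z ∈ HP := hcl (frontier_subset_closure hz)
        rw [Complex.norm_exp, Real.exp_le_exp, neg_re]
        rcases frontier_inter_subset _ _ hz with ⟨h2, h3⟩ | ⟨-, h3⟩
        · rw [frontier_setOf_lt_re] at h2
          rw [closure_ball _ hRp.ne'] at h3
          have h4 := hM z hzH (by simpa using h3)
          have h5 : z.re = e := h2
          rw [h5] at h4; linarith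
        · rw [frontier_ball _ hRp.ne'] at h3
          have h4 : ‖z‖ = R := by simpa using h3
          have h5 := hR0 (x := z) (by simp; linarith) hzH
          rw [dist_zero_right] at h5
          have h6 := Complex.abs_re_le_norm (g z)
          rw [abs_le] at h6; linarith)
      (subset_closure ⟨he1, by simpa using hR2⟩)
    rw [Complex.norm_exp, Real.exp_le_exp, neg_re] at this
    linarith
  by_contra hc
  push Not at hc
  have := H (-(g X1).re / 2) (by linarith)
  linarith

end Pool.Agent.H66.Bkr
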