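import Pool.Agent.H66.Bkr1

open Complex Set Filter Topology Metric
open scoped ComplexConjugate

namespace Pool.Agent.H66.Bkr

/-- infinity of the half plane -/
noncomputable def LL : Filter ℂ := Bornology.cobounded ℂ ⊓ 𝓟 HP

lemma real_LL : Tendsto (fun x : ℝ => (x : ℂ)) atTop LL := by
  refine tendsto_inf.2 ⟨?_, tendsto_principal.2 ?_⟩
  · rw [← tendsto_norm_atTop_iff_cobounded]
    simpa using tendsto_abs_atTop_atTop
  · filter_upwards [eventually_gt_atTop 0] with x hx using real_mem hx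

lemma ev_LL : ∀ᶠ X in LL, X ∈ HP := mem_inf_of_right (mem_principal_self _)

lemma add_one_ne {X : ℂ} (hX : X ∈ HP) : X + 1 ≠ 0 := by
  simpa using add_conj_ne (u := X) (v := 1) hX (by simp)

lemma w_LL : Tendsto (fun X : ℂ => (X + 1)⁻¹) LL (𝓝 0) := by
  refine Tendsto.mono_left ?_ inf_le_left
  refine tendsto_inv₀_cobounded.comp ?_
  rw [← tendsto_norm_atTop_iff_cobounded]
  refine tendsto_atTop_mono (f := fun X : ℂ => ‖X‖ + (-1)) (fun X => ?_)
    (tendsto_atTop_add_const_right _ _ tendsto_norm_cobounded_atTop)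
  have := norm_sub_le (X + 1) 1
  simp at this; linarith

lemma inv_real : Tendsto (fun x : ℝ => ((x : ℂ))⁻¹) atTop (𝓝 0) := by
  have := (continuous_ofReal.tendsto _).comp tendsto_inv_atTop_zero
  simpa [Function.comp_def] using this

lemma stage1 {S : ℂ → ℂ → ℂ} (hd : ∀ Y ∈ HP, DifferentiableOn ℂ (fun X => S X Y) HP)
    (hs : ∀ X Y, S X Y = S Y X) (hp : ∀ X ∈ HP, ∀ Y ∈ HP, 0 ≤ (S X Y).re) {y : ℂ} (hy : y ∈ HP)
    (h1 : Tendsto (fun X => (X + 1) * (S X y - X - y)) LL (𝓝 0)) :
    ∀ X ∈ HP, ∀ Y ∈ HP, S X Y = X + Y := by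
  have a0 : Tendsto (fun X => X * (S X y - X - y)) LL (𝓝 0) := by
    have := (w_LL.const_sub 1).mul h1
    rw [mul_zero] at this
    refine this.congr' ?_
    filter_upwards [ev_LL] with X hX
    have := add_one_ne hX
    field_simp; ring
  have a1 := a0.comp real_LL
  have b : Tendsto (fun x : ℝ => S x y / x) atTop (𝓝 ((1 : ℝ) : ℂ)) := by
    have := (((inv_real.mul inv_real).mul a1).add (inv_real.const_mul y)).add_const 1
    simp only [mul_zero, add_zero, zero_add] at this
    refine this.congr' ?_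
    filter_upwards [eventually_gt_atTop 0] with x hx
    have : (x : ℂ) ≠ 0 := by exact_mod_cast hx.ne'
    simp only [Function.comp]
    field_simp; ring
  have c : ∀ Y ∈ HP, Tendsto (fun x : ℝ => S x Y / x) atTop (𝓝 ((1 : ℝ) : ℂ)) := by
    intro Y hY
    have := slope0 (h := fun X => ((‖Y - y‖ ^ 2 / (Y.re * y.re) + 1 : ℝ) : ℂ) * S X y)
      (φ := fun X => S X Y - S X y) ((hd y hy).const_mul _) ((hd Y hY).sub (hd y hy))
      (fun X hX => by
        have := harnack (hd X hX) (fun Z hZ => hp Z hZ X hX) hY hy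
        rw [re_ofReal_mul, hs X Y, hs X y]; exact this)
    have := this.add b
    rw [zero_add] at this
    refine this.congr fun x => ?_
    ring
  have d : ∀ Y ∈ HP, ∀ X ∈ HP, X.re ≤ (S X Y).re := by
    intro Y hY X hX
    simpa using julia (hd Y hY) (fun Z hZ => hp Z hZ Y hY) (c Y hY) X hX
  have e : ∀ X ∈ HP, ∀ Y ∈ HP, 0 ≤ (S Y X - Y - X).re := by
    intro X hX Y hY
    have := julia (h := fun Y => S Y X - X) (c := 1) ((hd X hX).sub_const _)
      (fun Z hZ => by have := d Z hZ X hX; rw [hs Z X]; simp; linarith)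
      (by
        have := (c X hX).sub (inv_real.const_mul X)
        rw [mul_zero, sub_zero] at this
        refine this.congr fun x => ?_
        ring) Y hY
    simp at this ⊢; linarith
  have dT : ∀ X ∈ HP, DifferentiableOn ℂ (fun Y => S Y X - Y - X) HP := fun X hX =>
    ((hd X hX).sub differentiableOn_id).sub_const _
  have f := hopf (dT y hy) (e y hy) a1
  intro X hX Y hY
  have g := harnack (dT X hX) (e X hX) hY hy
  have f1 : S y X - y - X = 0 := by rw [hs y X]; linear_combination f X hX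
  simp only [f1, zero_re, mul_zero, sub_zero, norm_le_zero_iff] at g
  rw [hs X Y]; linear_combination g

lemma keyineq {X Y X' Y' : ℂ} (h1 : X' ∈ HP) (h2 : Y' ∈ HP) (h : X' + Y' = X + Y) :
    -(X.re * (X.re * Y.re + Y.re ^ 2 + (Y.im - X.im) ^ 2)) ≤
      ((X' * Y' - X * Y) * (X + conj Y)).re := by
  have h1' : 0 < X'.re := h1
  have h2' : 0 < Y'.re := h2
  have e1 : Y'.re = X.re + Y.re - X'.re := by have := congrArg re h; simp at this; linarith
  have e2 : Y'.im = X.im + Y.im - X'.im := by have := congrArg im h; simp at this; linarith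
  have : ((X' * Y' - X * Y) * (X + conj Y)).re +
      X.re * (X.re * Y.re + Y.re ^ 2 + (Y.im - X.im) ^ 2) =
      (X'.re ^ 2 + (X'.im - X.im) ^ 2) * Y'.re + (Y'.re ^ 2 + (Y'.im - X.im) ^ 2) * X'.re := by
    simp only [mul_re, sub_re, add_re, mul_im, sub_im, add_im, conj_re, conj_im, e1, e2]; ring
  have h3 : 0 ≤ (X'.re ^ 2 + (X'.im - X.im) ^ 2) * Y'.re +
      (Y'.re ^ 2 + (Y'.im - X.im) ^ 2) * X'.re := by positivity
  linarith

lemma stage2 {P : ℂ → ℂ → ℂ} (hd : ∀ Y ∈ HP, DifferentiableOn ℂ (fun X => P X Y) HP)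
    (hs : ∀ X Y, P X Y = P Y X)
    (hp : ∀ X ∈ HP, ∀ Y ∈ HP, ∃ X' ∈ HP, ∃ Y' ∈ HP, X' + Y' = X + Y ∧ P X Y = X' * Y')
    {y : ℂ} (hy : y ∈ HP)
    (h1 : Tendsto (fun X => (X + 1) ^ 2 * (P X y - X * y)) LL (𝓝 0)) :
    ∀ X ∈ HP, ∀ Y ∈ HP, P X Y = X * Y := by
  have hy' : 0 < y.re := hy
  have K : ∀ X ∈ HP, ∀ Y ∈ HP, -(X.re * (X.re * Y.re + Y.re ^ 2 + (Y.im - X.im) ^ 2)) ≤
      ((P X Y - X * Y) * (X + conj Y)).re := by
    intro X hX Y hY
    obtain ⟨X', h1, Y', h2, h3, h4⟩ := hp X hX Y hY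
    rw [h4]; exact keyineq h1 h2 h3
  have dE : ∀ Y ∈ HP, DifferentiableOn ℂ (fun X => P X Y - X * Y) HP := fun Y hY =>
    (hd Y hY).sub (by fun_prop)
  have dg : DifferentiableOn ℂ (fun X => (P X y - X * y) * (X + conj y)) HP :=
    (dE y hy).mul (by fun_prop)
  have gp := maxp dg
    (by
      have := h1.mul (w_LL.add ((w_LL.pow 2).const_mul (conj y - 1)))
      rw [zero_mul] at this
      refine this.congr' ?_
      filter_upwards [ev_LL] with X hX
      have := add_one_ne hX
      field_simp; ring)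
    (by
      intro R
      refine ⟨R * y.re + y.re ^ 2 + (|y.im| + R) ^ 2, fun X hX hR => le_trans ?_ (K X hX y hy)⟩
      have hX' : 0 < X.re := hX
      have a1 : X.re ≤ R := (Complex.re_le_norm X).trans hR
      have a2 : |X.im| ≤ R := (Complex.abs_im_le_norm X).trans hR
      have a3 : (y.im - X.im) ^ 2 ≤ (|y.im| + R) ^ 2 := by
        rw [← sq_abs (y.im - X.im)]
        exact pow_le_pow_left₀ (abs_nonneg _) ((abs_sub _ _).trans (by linarith)) 2
      have a4 : X.re * y.re ≤ R * y.re := mul_le_mul_of_nonneg_right a1 hy'.le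
      rw [neg_le_neg_iff, mul_comm _ X.re]
      exact mul_le_mul_of_nonneg_left (by linarith) hX'.le)
  have g0 := hopf dg gp (by
    have := h1.mul ((w_LL.const_sub 1).mul ((w_LL.const_mul (conj y - 1)).const_add 1))
    rw [zero_mul] at this
    have h2 : Tendsto (fun X => X * ((P X y - X * y) * (X + conj y))) LL (𝓝 0) := by
      refine this.congr' ?_
      filter_upwards [ev_LL] with X hX
      have := add_one_ne hX
      field_simp; ring
    exact h2.comp real_LL)
  have E0 : ∀ X ∈ HP, P X y - X * y = 0 := fun X hX =>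
    (mul_eq_zero.1 (g0 X hX)).resolve_right (add_conj_ne hX hy)
  intro X1 hX1 Y hY
  have := zero_of_le (φ := fun X => (P X Y - X * Y) / (X + conj Y))
    (C := ‖Y - y‖ ^ 2 / (Y.re * y.re) + 1)
    ((dE Y hY).div (by fun_prop) (fun X hX => add_conj_ne hX hY))
    (fun X hX => by
      have hX' : 0 < X.re := hX
      have := harnack (h := fun Z => (P Z X - Z * X) / (Z + conj X) + (X.re : ℂ))
        (((dE X hX).div (by fun_prop) (fun Z hZ => add_conj_ne hZ hX)).add_const _)
        (fun Z hZ => by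
          have hZ' : 0 < Z.re := hZ
          have k := K X hX Z hZ
          have n : 0 < normSq (Z + conj X) := normSq_pos.2 (add_conj_ne hZ hX)
          rw [hs Z X, mul_comm Z X, add_re, ofReal_re, div_re, ← add_div, ← neg_le_iff_add_nonneg,
            le_div_iff₀ n]
          set E := P X Z - X * Z
          simp only [mul_re, add_re, add_im, conj_re, conj_im, normSq_apply] at k ⊢
          nlinarith [mul_pos hX' (mul_pos hX' hX'), mul_pos hX' (mul_pos hX' hZ')]) hY hy
      have e0 : P y X - y * X = 0 := by rw [hs y X]; linear_combination E0 X hX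
      simp only [e0, zero_div, zero_add, add_sub_cancel_right, ofReal_re] at this
      have e1 : ‖X + conj Y‖ = ‖Y + conj X‖ := by
        rw [← Complex.norm_conj]; simp [add_comm]
      rw [norm_div, e1, hs X Y, mul_comm X Y, ← norm_div]
      exact this) X1 hX1
  rcases div_eq_zero_iff.1 this with h | h
  · linear_combination h
  · exact absurd h (add_conj_ne hX1 hY)

end Pool.Agent.H66.Bkr
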