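import Mathlib

namespace Pool.Agent.H66.Bkr

/-- The symmetrized bidisc `G₂ = {(a+b, ab) : |a|<1, |b|<1}` in Euclidean `ℂ²`. -/
def G2 : Set (EuclideanSpace ℂ (Fin 2)) :=
  {z | ∃ a b : ℂ, ‖a‖ < 1 ∧ ‖b‖ < 1 ∧ z 0 = a + b ∧ z 1 = a * b}

/-- The Shilov boundary `S = {(a+b, ab) : |a|=1, |b|=1}` of the symmetrized bidisc. -/
def Shilov : Set (EuclideanSpace ℂ (Fin 2)) :=
  {z | ∃ a b : ℂ, ‖a‖ = 1 ∧ ‖b‖ = 1 ∧ z 0 = a + b ∧ z 1 = a * b}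

end Pool.Agent.H66.Bkr
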