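import Pool.Agent.H66.Bkr2
import Pool.Agent.H66.BkrDefs

open Complex Set Filter Topology Metric Asymptotics
open scoped ComplexConjugate

namespace Pool.Agent.H66.Bkr

noncomputable def tau (X : ℂ) : ℂ := (X - 1) / (X + 1)

noncomputable def zz (c X Y : ℂ) : EuclideanSpace ℂ (Fin 2) :=
  !₂[c * (tau X + tau Y), c ^ 2 * (tau X * tau Y)]

noncomputable def DD (c : ℂ) (w : EuclideanSpace ℂ (Fin 2)) : ℂ := 1 - w 0 / c + w 1 / c ^ 2
noncomputable def SS (c : ℂ) (w : EuclideanSpace ℂ (Fin 2)) : ℂ := 2 * (1 - w 1 / c ^ 2) / DD c w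
noncomputable def PP (c : ℂ) (w : EuclideanSpace ℂ (Fin 2)) : ℂ := 4 / DD c w - 1 - SS c w

lemma zz0 (c X Y : ℂ) : zz c X Y 0 = c * (tau X + tau Y) := rfl
lemma zz1 (c X Y : ℂ) : zz c X Y 1 = c ^ 2 * (tau X * tau Y) := rfl

lemma ext2 {u v : EuclideanSpace ℂ (Fin 2)} (h0 : u 0 = v 0) (h1 : u 1 = v 1) : u = v := by
  ext i; fin_cases i
  · exact h0
  · exact h1

lemma tau_lt {X : ℂ} (hX : X ∈ HP) : ‖tau X‖ < 1 := by
  have hX' : 0 < X.re := hX
  have h := nsq X 1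
  have h1 : 0 < ‖X + 1‖ := norm_pos_iff.2 (add_one_ne hX)
  rw [tau, norm_div, div_lt_one h1]
  apply lt_of_pow_lt_pow_left₀ 2 h1.le
  simp at h; linarith

lemma tau_surj {a : ℂ} (ha : ‖a‖ < 1) : ∃ X ∈ HP, tau X = a := by
  have h1 : 1 - a ≠ 0 := by
    intro h0
    have : a = 1 := by linear_combination -h0
    rw [this] at ha; simp at ha
  refine ⟨(1 + a) / (1 - a), ?_, ?_⟩
  · have h2 : normSq a < 1 := by
      rw [Complex.normSq_eq_norm_sq]; nlinarith [norm_nonneg a]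
    have h3 : 0 < normSq (1 - a) := Complex.normSq_pos.2 h1
    show 0 < ((1 + a) / (1 - a)).re
    rw [Complex.div_re, ← add_div]
    apply div_pos _ h3
    simp [Complex.normSq_apply] at h2 ⊢
    nlinarith
  · have e1 : (1 + a) / (1 - a) - 1 = 2 * a / (1 - a) := by field_simp; ring
    have e2 : (1 + a) / (1 - a) + 1 = 2 / (1 - a) := by field_simp; ring
    rw [tau, e1, e2]; field_simp

lemma tau_eq {X : ℂ} (hX : X ∈ HP) : tau X = 1 - 2 * (X + 1)⁻¹ := by
  have := add_one_ne hX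
  rw [tau]; field_simp; ring

lemma zz_mem {c X Y : ℂ} (hc : ‖c‖ = 1) (hX : X ∈ HP) (hY : Y ∈ HP) : zz c X Y ∈ G2 := by
  refine ⟨c * tau X, c * tau Y, ?_, ?_, ?_, ?_⟩
  · rw [norm_mul, hc, one_mul]; exact tau_lt hX
  · rw [norm_mul, hc, one_mul]; exact tau_lt hY
  · rw [zz0]; ring
  · rw [zz1]; ring

lemma zz_surj {c : ℂ} (hc : ‖c‖ = 1) {w : EuclideanSpace ℂ (Fin 2)} (hw : w ∈ G2) :
    ∃ X ∈ HP, ∃ Y ∈ HP, w = zz c X Y := by
  have hc0 : c ≠ 0 := by rintro rfl; simp at hc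
  obtain ⟨a, b, ha, hb, h0, h1⟩ := hw
  obtain ⟨X, hX, eX⟩ := tau_surj (a := a / c) (by rw [norm_div, hc, div_one]; exact ha)
  obtain ⟨Y, hY, eY⟩ := tau_surj (a := b / c) (by rw [norm_div, hc, div_one]; exact hb)
  refine ⟨X, hX, Y, hY, ext2 ?_ ?_⟩
  · rw [zz0, eX, eY, h0]; field_simp
  · rw [zz1, eX, eY, h1]; field_simp

lemma zz_symm (c X Y : ℂ) : zz c X Y = zz c Y X :=
  ext2 (by rw [zz0, zz0]; ring) (by rw [zz1, zz1]; ring)

lemma DD_zz {c X Y : ℂ} (hc : c ≠ 0) (hX : X ∈ HP) (hY : Y ∈ HP) :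
    DD c (zz c X Y) = 4 / (Y + 1) * (X + 1)⁻¹ := by
  have := add_one_ne hX
  have := add_one_ne hY
  rw [DD, zz0, zz1, tau, tau]; field_simp; ring

lemma SS_zz {c X Y : ℂ} (hc : c ≠ 0) (hX : X ∈ HP) (hY : Y ∈ HP) : SS c (zz c X Y) = X + Y := by
  have := add_one_ne hX
  have := add_one_ne hY
  rw [SS, DD_zz hc hX hY, zz1, tau, tau]; field_simp; ring

lemma PP_zz {c X Y : ℂ} (hc : c ≠ 0) (hX : X ∈ HP) (hY : Y ∈ HP) : PP c (zz c X Y) = X * Y := by
  have := add_one_ne hX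
  have := add_one_ne hY
  rw [PP, SS_zz hc hX hY, DD_zz hc hX hY]; field_simp; ring

lemma zz_congr {c X Y X' Y' : ℂ} (hX : X ∈ HP) (hY : Y ∈ HP) (hX' : X' ∈ HP) (hY' : Y' ∈ HP)
    (h1 : X' + Y' = X + Y) (h2 : X' * Y' = X * Y) : zz c X' Y' = zz c X Y := by
  have a : ∀ U ∈ HP, ∀ V ∈ HP, tau U + tau V = (2 * (U * V) - 2) / (1 + (U + V) + U * V) ∧
      tau U * tau V = (U * V - (U + V) + 1) / (1 + (U + V) + U * V) := by
    intro U hU V hV
    have := add_one_ne hU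
    have := add_one_ne hV
    have e : 1 + (U + V) + U * V = (U + 1) * (V + 1) := by ring
    rw [e, tau, tau]
    constructor <;> field_simp <;> ring
  apply ext2
  · rw [zz0, zz0, (a _ hX _ hY).1, (a _ hX' _ hY').1, h1, h2]
  · rw [zz1, zz1, (a _ hX _ hY).2, (a _ hX' _ hY').2, h1, h2]

lemma zz_diff (c Y : ℂ) : DifferentiableOn ℂ (fun X => zz c X Y) HP := by
  have ht : DifferentiableOn ℂ tau HP :=
    DifferentiableOn.div (by fun_prop) (by fun_prop) (fun X hX => add_one_ne hX)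
  rw [differentiableOn_euclidean]
  intro i; fin_cases i
  · exact (ht.add_const _).const_mul c
  · exact (ht.mul_const _).const_mul _

lemma alg1 {w k α β q D S S' : ℂ} (hw : w ≠ 0) (hk : k ≠ 0) (hD : D ≠ 0)
    (e : D = k * w + w ^ 3 * (β - α)) (hS : S = 2 * (1 - q) / (k * w))
    (hS' : S' = 2 * (1 - (q + w ^ 3 * β)) / D) :
    w⁻¹ * (S' - S) = 2 * (-β * k * w - (1 - q) * (β - α)) / (k * (k + w ^ 2 * (β - α))) := by
  have e2 : D = w * (k + w ^ 2 * (β - α)) := by rw [e]; ring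
  have hQ : k + w ^ 2 * (β - α) ≠ 0 := by
    intro h; rw [h, mul_zero] at e2; exact hD e2
  rw [hS, hS', e2]; field_simp; ring

lemma alg2 {w k α β q D S S' : ℂ} (hw : w ≠ 0) (hk : k ≠ 0) (hD : D ≠ 0) (hq : 1 - q ≠ 0)
    (e : D = k * w + w ^ 3 * (β - α)) (hS : S = 2 * (1 - q) / (k * w))
    (hS' : S' = 2 * (1 - (q + w ^ 3 * β)) / D) (h : S' = S) :
    w⁻¹ ^ 2 * ((4 / D - 1 - S') - (4 / (k * w) - 1 - S)) =
      4 * β / ((1 - q) * (k + w ^ 2 * (β - α))) := by
  have e2 : D = w * (k + w ^ 2 * (β - α)) := by rw [e]; ring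
  have hQ : k + w ^ 2 * (β - α) ≠ 0 := by
    intro h; rw [h, mul_zero] at e2; exact hD e2
  have h1 := alg1 hw hk hD e hS hS'
  rw [h, sub_self, mul_zero, eq_comm, div_eq_zero_iff] at h1
  have h2 : -β * k * w - (1 - q) * (β - α) = 0 := by
    rcases h1 with h1 | h1
    · linear_combination h1 / 2
    · exact absurd h1 (mul_ne_zero hk hQ)
  rw [h, e2]; field_simp; linear_combination 4 * w ^ 2 * h2

theorem main {c b : ℂ} (hc : ‖c‖ = 1) (hb : ‖b‖ < 1) {p : EuclideanSpace ℂ (Fin 2)}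
    (hp0 : p 0 = c + b) (hp1 : p 1 = c * b)
    {F : EuclideanSpace ℂ (Fin 2) → EuclideanSpace ℂ (Fin 2)} (hF : DifferentiableOn ℂ F G2)
    (hm : MapsTo F G2 G2) (ho : (fun z => F z - z) =o[𝓝[G2] p] fun z => ‖z - p‖ ^ 3) :
    ∀ z ∈ G2, F z = z := by
  have hc0 : c ≠ 0 := by rintro rfl; simp at hc
  obtain ⟨y, hy, ey⟩ := tau_surj (a := b / c) (by rw [norm_div, hc, div_one]; exact hb)
  set v : EuclideanSpace ℂ (Fin 2) := !₂[-2 * c, -2 * (c * b)] with hv
  have hz : ∀ X ∈ HP, zz c X y - p = (X + 1)⁻¹ • v := by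
    intro X hX
    apply ext2
    · show zz c X y 0 - p 0 = (X + 1)⁻¹ * (-2 * c)
      rw [zz0, hp0, tau_eq hX, ey]; field_simp; ring
    · show zz c X y 1 - p 1 = (X + 1)⁻¹ * (-2 * (c * b))
      rw [zz1, hp1, tau_eq hX, ey]; field_simp; ring
  have hT : Tendsto (fun X => zz c X y) LL (𝓝[G2] p) := by
    refine tendsto_nhdsWithin_iff.2 ⟨?_, ev_LL.mono fun X hX => zz_mem hc hX hy⟩
    have := (w_LL.smul_const v).add_const p
    rw [zero_smul, zero_add] at this
    refine this.congr' ?_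
    filter_upwards [ev_LL] with X hX
    rw [← hz X hX]; abel
  have o1 : (fun X => F (zz c X y) - zz c X y) =o[LL] fun X => (X + 1)⁻¹ ^ 3 := by
    refine (ho.comp_tendsto hT).trans_isBigO (IsBigO.of_bound (‖v‖ ^ 3) ?_)
    filter_upwards [ev_LL] with X hX
    simp only [Function.comp]
    rw [hz X hX, norm_smul, norm_pow, norm_pow, norm_mul, norm_norm, norm_norm]
    apply le_of_eq; ring
  have o2 : ∀ i, Tendsto (fun X => (F (zz c X y) i - zz c X y i) / (X + 1)⁻¹ ^ 3) LL (𝓝 0) := by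
    intro i
    apply IsLittleO.tendsto_div_nhds_zero
    refine IsBigO.trans_isLittleO (IsBigO.of_bound 1 (Eventually.of_forall fun X => ?_)) o1
    rw [one_mul]
    exact PiLp.norm_apply_le (F (zz c X y) - zz c X y) i
  set α : ℂ → ℂ := fun X => (F (zz c X y) 0 - zz c X y 0) / (X + 1)⁻¹ ^ 3 / c with hα
  set β : ℂ → ℂ := fun X => (F (zz c X y) 1 - zz c X y 1) / (X + 1)⁻¹ ^ 3 / c ^ 2 with hβ
  have tα : Tendsto α LL (𝓝 0) := by
    have := (o2 0).div_const c
    rw [zero_div] at this; exact this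
  have tβ : Tendsto β LL (𝓝 0) := by
    have := (o2 1).div_const (c ^ 2)
    rw [zero_div] at this; exact this
  set k : ℂ := 4 / (y + 1) with hk
  have hk0 : k ≠ 0 := div_ne_zero (by norm_num) (add_one_ne hy)
  have hD : ∀ w ∈ G2, DD c w ≠ 0 := by
    intro w hw
    obtain ⟨X, hX, Y, hY, rfl⟩ := zz_surj hc hw
    rw [DD_zz hc0 hX hY]
    exact mul_ne_zero (div_ne_zero (by norm_num) (add_one_ne hY)) (inv_ne_zero (add_one_ne hX))
  have e1 : ∀ X ∈ HP, DD c (F (zz c X y)) = k * (X + 1)⁻¹ + (X + 1)⁻¹ ^ 3 * (β X - α X) := by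
    intro X hX
    have := add_one_ne hX
    rw [hk, ← DD_zz hc0 hX hy, DD, DD]
    simp only [hα, hβ]; field_simp; ring
  have e2 : ∀ X ∈ HP, X + y = 2 * (1 - tau X * tau y) / (k * (X + 1)⁻¹) := by
    intro X hX
    rw [← SS_zz hc0 hX hy, SS, DD_zz hc0 hX hy, zz1]
    congr 3; field_simp
  have e3 : ∀ X ∈ HP, SS c (F (zz c X y)) =
      2 * (1 - (tau X * tau y + (X + 1)⁻¹ ^ 3 * β X)) / DD c (F (zz c X y)) := by
    intro X hX
    have := add_one_ne hX
    rw [SS]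
    congr 3
    simp only [hβ, zz1]; field_simp; ring
  have tq : Tendsto (fun X => 1 - tau X * tau y) LL (𝓝 (1 - tau y)) := by
    have := (((w_LL.const_mul 2).const_sub 1).mul_const (tau y)).const_sub 1
    simp only [mul_zero, sub_zero, one_mul] at this
    refine this.congr' ?_
    filter_upwards [ev_LL] with X hX
    rw [tau_eq hX]
  have tQ : Tendsto (fun X => k + (X + 1)⁻¹ ^ 2 * (β X - α X)) LL (𝓝 k) := by
    simpa using ((w_LL.pow 2).mul (tβ.sub tα)).const_add k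
  have dF : ∀ Y ∈ HP, ∀ i, DifferentiableOn ℂ (fun X => F (zz c X Y) i) HP := by
    intro Y hY
    rw [← differentiableOn_euclidean]
    exact hF.comp (zz_diff c Y) (fun X hX => zz_mem hc hX hY)
  have dD : ∀ Y ∈ HP, DifferentiableOn ℂ (fun X => DD c (F (zz c X Y))) HP := fun Y hY =>
    (((dF Y hY 0).div_const c).const_sub 1).add ((dF Y hY 1).div_const _)
  have dS : ∀ Y ∈ HP, DifferentiableOn ℂ (fun X => SS c (F (zz c X Y))) HP := fun Y hY =>
    ((((dF Y hY 1).div_const _).const_sub 1).const_mul 2).div (dD Y hY)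
      (fun X hX => hD _ (hm (zz_mem hc hX hY)))
  have dP : ∀ Y ∈ HP, DifferentiableOn ℂ (fun X => PP c (F (zz c X Y))) HP := fun Y hY =>
    ((((differentiableOn_const 4).div (dD Y hY)
      (fun X hX => hD _ (hm (zz_mem hc hX hY)))).sub_const 1)).sub (dS Y hY)
  have s1 := stage1 (S := fun X Y => SS c (F (zz c X Y))) dS (fun X Y => by rw [zz_symm])
    (fun X hX Y hY => by
      obtain ⟨X', hX', Y', hY', e⟩ := zz_surj hc (hm (zz_mem hc hX hY))
      have a1 : 0 < X'.re := hX'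
      have a2 : 0 < Y'.re := hY'
      simp only [e, SS_zz hc0 hX' hY', add_re]; linarith) hy
    (by
      have := (((((tβ.neg.mul_const k).mul w_LL).sub (tq.mul (tβ.sub tα))).const_mul 2).div
        (tQ.const_mul k) (mul_ne_zero hk0 hk0))
      simp only [mul_zero, sub_zero, zero_div] at this
      refine this.congr' ?_
      filter_upwards [ev_LL] with X hX
      have h := alg1 (inv_ne_zero (add_one_ne hX)) hk0 (hD _ (hm (zz_mem hc hX hy))) (e1 X hX)
        (e2 X hX) (e3 X hX)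
      rw [inv_inv] at h
      simp only [Pi.div_apply]
      rw [← h]; ring)
  have hq : ∀ X ∈ HP, 1 - tau X * tau y ≠ 0 := by
    intro X hX h
    have h1 : tau X * tau y = 1 := by linear_combination -h
    have h2 := congrArg norm h1
    rw [norm_mul, norm_one] at h2
    nlinarith [tau_lt hX, tau_lt hy, norm_nonneg (tau X), norm_nonneg (tau y)]
  have hq1 : 1 - tau y ≠ 0 := by
    intro h
    have h1 : tau y = 1 := by linear_combination -h
    have := tau_lt hy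
    rw [h1] at this; simp at this
  have s2 := stage2 (P := fun X Y => PP c (F (zz c X Y))) dP (fun X Y => by rw [zz_symm])
    (fun X hX Y hY => by
      obtain ⟨X', hX', Y', hY', e⟩ := zz_surj hc (hm (zz_mem hc hX hY))
      refine ⟨X', hX', Y', hY', ?_, ?_⟩
      · have := s1 X hX Y hY
        simp only [e, SS_zz hc0 hX' hY'] at this; exact this
      · simp only [e, PP_zz hc0 hX' hY']) hy
    (by
      have := (tβ.const_mul 4).div (tq.mul tQ) (mul_ne_zero hq1 hk0)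
      simp only [mul_zero, zero_div] at this
      refine this.congr' ?_
      filter_upwards [ev_LL] with X hX
      have h := alg2 (inv_ne_zero (add_one_ne hX)) hk0 (hD _ (hm (zz_mem hc hX hy))) (hq X hX)
        (e1 X hX) (e2 X hX) (e3 X hX) (s1 X hX y hy)
      rw [inv_inv] at h
      simp only [Pi.div_apply]
      rw [← h, ← PP_zz hc0 hX hy, PP, PP, SS_zz hc0 hX hy, DD_zz hc0 hX hy])
  intro z hz
  obtain ⟨X, hX, Y, hY, rfl⟩ := zz_surj hc hz
  obtain ⟨X', hX', Y', hY', e⟩ := zz_surj hc (hm hz)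
  have a1 := s1 X hX Y hY
  have a2 := s2 X hX Y hY
  simp only [e, SS_zz hc0 hX' hY', PP_zz hc0 hX' hY'] at a1 a2
  rw [e]; exact zz_congr hX hY hX' hY' a1 a2

lemma G2_iff (z : EuclideanSpace ℂ (Fin 2)) :
    z ∈ G2 ↔ ∀ m ∈ closedBall (0 : ℂ) 1, 1 - z 0 * m + z 1 * m ^ 2 ≠ 0 := by
  constructor
  · rintro ⟨a, b, ha, hb, h0, h1⟩ m hm
    have hm' : ‖m‖ ≤ 1 := by simpa using hm
    have key : ∀ a : ℂ, ‖a‖ < 1 → 1 - a * m ≠ 0 := by
      intro a ha h
      have h1 : a * m = 1 := by linear_combination -h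
      have h2 := congrArg norm h1
      rw [norm_mul, norm_one] at h2
      nlinarith [norm_nonneg a, norm_nonneg m]
    have : 1 - z 0 * m + z 1 * m ^ 2 = (1 - a * m) * (1 - b * m) := by rw [h0, h1]; ring
    rw [this]; exact mul_ne_zero (key a ha) (key b hb)
  · intro h
    obtain ⟨r, hr⟩ := IsAlgClosed.exists_pow_nat_eq (z 0 ^ 2 - 4 * z 1) (n := 2) (by norm_num)
    have key : ∀ a : ℂ, a ^ 2 - z 0 * a + z 1 = 0 → ‖a‖ < 1 := by
      intro a ha
      by_contra hc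
      push Not at hc
      have ha0 : a ≠ 0 := by rintro rfl; norm_num at hc
      refine h a⁻¹ (by simpa using inv_le_one_of_one_le₀ hc) ?_
      field_simp; linear_combination ha
    refine ⟨(z 0 + r) / 2, (z 0 - r) / 2, key _ ?_, key _ ?_, by ring, ?_⟩
    · linear_combination hr / 4
    · linear_combination hr / 4
    · linear_combination hr / 4

lemma G2_open : IsOpen G2 := by
  rw [isOpen_iff_mem_nhds]
  intro z hz
  have h1 := (G2_iff z).1 hz
  have := (isCompact_closedBall (0 : ℂ) 1).eventually_forall_of_forall_eventually (x₀ := z)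
    (P := fun (z : EuclideanSpace ℂ (Fin 2)) m => 1 - z 0 * m + z 1 * m ^ 2 ≠ 0) (fun m hm => by
      have hc : Continuous fun q : EuclideanSpace ℂ (Fin 2) × ℂ =>
          1 - q.1 0 * q.2 + q.1 1 * q.2 ^ 2 := by fun_prop
      exact hc.continuousAt.eventually_ne (h1 m hm))
  filter_upwards [this] with w hw using (G2_iff w).2 hw

lemma closure_sub {p : EuclideanSpace ℂ (Fin 2)} (hp : p ∈ closure G2) :
    ∃ a b : ℂ, ‖a‖ ≤ 1 ∧ ‖b‖ ≤ 1 ∧ p 0 = a + b ∧ p 1 = a * b := by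
  set f : ℂ × ℂ → EuclideanSpace ℂ (Fin 2) := fun q => !₂[q.1 + q.2, q.1 * q.2] with hf
  have hc : Continuous f := by
    simp only [hf]; fun_prop
  have hK : IsCompact (f '' (closedBall 0 1 ×ˢ closedBall 0 1)) :=
    ((isCompact_closedBall _ _).prod (isCompact_closedBall _ _)).image hc
  have : G2 ⊆ f '' (closedBall 0 1 ×ˢ closedBall 0 1) := by
    rintro z ⟨a, b, ha, hb, h0, h1⟩
    exact ⟨(a, b), ⟨by simpa using ha.le, by simpa using hb.le⟩, ext2 h0.symm h1.symm⟩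
  obtain ⟨⟨a, b⟩, ⟨ha, hb⟩, rfl⟩ := closure_minimal this hK.isClosed hp
  exact ⟨a, b, by simpa using ha, by simpa using hb, rfl, rfl⟩

theorem final {p : EuclideanSpace ℂ (Fin 2)} (hp : p ∈ frontier G2 \ Shilov)
    {F : EuclideanSpace ℂ (Fin 2) → EuclideanSpace ℂ (Fin 2)} (hF : DifferentiableOn ℂ F G2)
    (hm : MapsTo F G2 G2) (ho : (fun z => F z - z) =o[𝓝[G2] p] fun z => ‖z - p‖ ^ 3) :
    ∀ z ∈ G2, F z = z := by
  obtain ⟨h1, h2⟩ := hp
  rw [G2_open.frontier_eq] at h1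
  obtain ⟨a, b, ha, hb, h0, h3⟩ := closure_sub h1.1
  rcases ha.lt_or_eq with ha | ha <;> rcases hb.lt_or_eq with hb | hb
  · exact absurd ⟨a, b, ha, hb, h0, h3⟩ h1.2
  · exact main hb ha (by rw [h0, add_comm]) (by rw [h3, mul_comm]) hF hm ho
  · exact main ha hb h0 h3 hF hm ho
  · exact absurd ⟨a, b, ha, hb, h0, h3⟩ h2

end Pool.Agent.H66.Bkr
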