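import Mathlib

namespace Pool.Agent.H66.Bks

/-- The symmetrization map `π_n`: coordinate `k` (counted from `0`) is the elementary symmetric
polynomial `σ_{k+1}` of `l`. -/
noncomputable def symm (n : ℕ) (l : Fin n → ℂ) : EuclideanSpace ℂ (Fin n) :=
  WithLp.toLp 2 fun k => ∑ s ∈ Finset.powersetCard (k.val + 1) Finset.univ, ∏ j ∈ s, l j

/-- The symmetrized polydisc `G_n = π_n(𝔻^n)`. -/
def Gn (n : ℕ) : Set (EuclideanSpace ℂ (Fin n)) := symm n '' {l | ∀ j, ‖l j‖ < 1}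

/-- The Shilov boundary `π_n((∂𝔻)^n)` of the symmetrized polydisc. -/
def Shilov (n : ℕ) : Set (EuclideanSpace ℂ (Fin n)) := symm n '' {l | ∀ j, ‖l j‖ = 1}

end Pool.Agent.H66.Bks
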