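import Pool.Agent.H66.Bkr3
import Pool.Agent.H66.BksDefs

open Complex Set Filter Topology Metric Asymptotics Polynomial
open scoped ComplexConjugate

namespace Pool.Agent.H66.Bks

open Pool.Agent.H66.Bkr

variable {n : ℕ}

noncomputable def pol (z : EuclideanSpace ℂ (Fin n)) : ℂ[X] :=
  1 + ∑ k : Fin n, C (z k * (-1) ^ (k.val + 1)) * X ^ (k.val + 1)

lemma symm_apply (l : Fin n → ℂ) (k : Fin n) :
    symm n l k = ∑ s ∈ Finset.powersetCard (k.val + 1) Finset.univ, ∏ j ∈ s, l j := rfl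

lemma pol_symm (l : Fin n → ℂ) : pol (symm n l) = ∏ j, (1 + C (-l j) * X) := by
  rw [Finset.prod_one_add, Finset.sum_powerset, Finset.card_univ, Fintype.card_fin,
    Finset.sum_range_succ', pol, add_comm]
  congr 1
  · rw [← Fin.sum_univ_eq_sum_range (fun k => ∑ t ∈ Finset.powersetCard (k + 1) Finset.univ,
      ∏ i ∈ t, (C (-l i) * X : ℂ[X]))]
    refine Finset.sum_congr rfl fun k _ => ?_
    rw [symm_apply, Finset.sum_mul, map_sum, Finset.sum_mul]
    refine Finset.sum_congr rfl fun t ht => ?_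
    have hc := (Finset.mem_powersetCard.1 ht).2
    rw [Finset.prod_mul_distrib, Finset.prod_const, hc, ← map_prod, Finset.prod_neg, hc, mul_comm
      ((-1 : ℂ) ^ _)]
  · simp

lemma pol_coeff (z : EuclideanSpace ℂ (Fin n)) (k : Fin n) :
    (pol z).coeff (k.val + 1) = z k * (-1) ^ (k.val + 1) := by
  rw [pol, coeff_add, finset_sum_coeff, coeff_one, if_neg (by omega), zero_add,
    Finset.sum_eq_single k]
  · rw [coeff_C_mul_X_pow, if_pos rfl]
  · intro j _ hj
    rw [coeff_C_mul_X_pow, if_neg]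
    intro h; exact hj (Fin.ext (by omega))
  · simp

lemma pol_zero (z : EuclideanSpace ℂ (Fin n)) : (pol z).coeff 0 = 1 := by
  rw [pol, coeff_add, finset_sum_coeff, coeff_one, if_pos rfl, Finset.sum_eq_zero, add_zero]
  intro k _
  rw [coeff_C_mul_X_pow, if_neg (by omega)]

lemma pol_inj {z w : EuclideanSpace ℂ (Fin n)} (h : pol z = pol w) : z = w := by
  ext k
  have := pol_coeff z k
  rw [h, pol_coeff] at this
  exact (mul_right_cancel₀ (pow_ne_zero _ (by norm_num)) this).symm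

lemma wr {P Q : ℂ[X]} (hP : P.coeff 0 = 1) (hQ : Q.coeff 0 = 1)
    (h : derivative P * Q = derivative Q * P) : P = Q := by
  set R := P - Q with hR
  have h1 : derivative R * Q = derivative Q * R := by
    rw [hR, derivative_sub]; linear_combination h
  have : ∀ k, R.coeff k = 0 := by
    intro k
    induction k using Nat.strong_induction_on with
    | _ k ih =>
      rcases k with _ | k
      · simp [hR, hP, hQ]
      · have h2 := congrArg (fun p => p.coeff k) h1
        simp only [coeff_mul] at h2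
        rw [Finset.sum_eq_single (k, 0), Finset.sum_eq_zero] at h2
        · rw [hQ, mul_one, coeff_derivative] at h2
          refine (mul_eq_zero.1 h2).resolve_right ?_
          exact_mod_cast Nat.succ_ne_zero k
        · intro x hx
          have : x.1 + x.2 = k := by simpa using hx
          rw [ih x.2 (by omega), mul_zero]
        · intro x hx hne
          have : x.1 + x.2 = k := by simpa using hx
          have h3 : x.1 ≠ k := fun h => hne (Prod.ext h (by simp; omega))
          rw [coeff_derivative, ih (x.1 + 1) (by omega), zero_mul, zero_mul]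
        · intro h; simp at h
  exact sub_eq_zero.1 (Polynomial.ext fun k => by rw [this, coeff_zero])

noncomputable def Sm (m : ℂ) (z : EuclideanSpace ℂ (Fin n)) : ℂ :=
  n - 2 * m * ((derivative (pol z)).eval m / (pol z).eval m)

lemma ev_symm (l : Fin n → ℂ) (m : ℂ) : (pol (symm n l)).eval m = ∏ j, (1 - l j * m) := by
  rw [pol_symm, eval_prod]
  refine Finset.prod_congr rfl fun j _ => ?_
  simp; ring

lemma Sm_symm (l : Fin n → ℂ) (m : ℂ) (h : ∀ j, 1 - l j * m ≠ 0) :
    Sm m (symm n l) = ∑ j, (1 + l j * m) / (1 - l j * m) := by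
  have hp : ∏ j, (1 - l j * m) ≠ 0 := Finset.prod_ne_zero_iff.2 fun j _ => h j
  rw [Sm, ev_symm, pol_symm, derivative_prod_finset, eval_finset_sum, Finset.sum_div,
    Finset.mul_sum]
  have : (n : ℂ) = ∑ _j : Fin n, (1 : ℂ) := by simp
  rw [this, ← Finset.sum_sub_distrib]
  refine Finset.sum_congr rfl fun j _ => ?_
  have e : eval m (∏ i ∈ Finset.univ.erase j, (1 + C (-l i) * X : ℂ[X])) =
      ∏ i ∈ Finset.univ.erase j, (1 - l i * m) := by
    rw [eval_prod]
    refine Finset.prod_congr rfl fun j _ => ?_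
    simp; ring
  rw [eval_mul, e, ← Finset.mul_prod_erase _ _ (Finset.mem_univ j)]
  have h2 : ∏ i ∈ Finset.univ.erase j, (1 - l i * m) ≠ 0 :=
    Finset.prod_ne_zero_iff.2 fun j _ => h j
  have h3 := h j
  have e2 : eval m (derivative (1 + C (-l j) * X : ℂ[X])) = -l j := by simp
  rw [e2]
  generalize ∏ i ∈ Finset.univ.erase j, (1 - l i * m) = q at h2
  have e3 : q * -l j / ((1 - l j * m) * q) = -l j / (1 - l j * m) := by
    rw [div_eq_div_iff (mul_ne_zero h3 h2) h3]; ring
  rw [e3, eq_div_iff h3, sub_mul, mul_assoc, div_mul_cancel₀ _ h3]; ring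

lemma Sm_cd (m : ℂ) {z : EuclideanSpace ℂ (Fin n)} (hz : (pol z).eval m ≠ 0) :
    ContDiffAt ℂ 1 (Sm m) z := by
  have hk : ∀ k, ContDiff ℂ 1 (fun z : EuclideanSpace ℂ (Fin n) => z k) := fun k =>
    (EuclideanSpace.proj k : EuclideanSpace ℂ (Fin n) →L[ℂ] ℂ).contDiff
  have h0 : ContDiff ℂ 1 (fun z : EuclideanSpace ℂ (Fin n) => (pol z).eval m) := by
    simp only [pol, eval_add, eval_one, eval_finset_sum, eval_mul, eval_C]
    exact contDiff_const.add (ContDiff.sum fun k _ =>
      ((hk k).mul contDiff_const).mul contDiff_const)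
  have h1 : ContDiff ℂ 1 (fun z : EuclideanSpace ℂ (Fin n) => (derivative (pol z)).eval m) := by
    simp only [pol, derivative_add, derivative_one, derivative_sum, derivative_C_mul, eval_add,
      eval_zero, eval_finset_sum, eval_mul, eval_C]
    exact contDiff_const.add (ContDiff.sum fun k _ =>
      ((hk k).mul contDiff_const).mul contDiff_const)
  exact contDiffAt_const.sub (contDiffAt_const.mul (h1.contDiffAt.div h0.contDiffAt hz))

noncomputable def Ph (m : ℂ) (U : Fin n → ℂ) : EuclideanSpace ℂ (Fin n) :=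
  symm n fun j => tau (U j) / m

lemma Ph_diff (m : ℂ) {V : ℂ → Fin n → ℂ} {t : ℂ} (hV : ∀ j, DifferentiableAt ℂ (fun t => V t j) t)
    (h1 : ∀ j, V t j + 1 ≠ 0) : DifferentiableAt ℂ (fun t => Ph m (V t)) t := by
  rw [differentiableAt_euclidean]
  intro k
  simp only [Ph, symm_apply]
  refine DifferentiableAt.fun_sum fun s _ => DifferentiableAt.fun_finsetProd fun j _ => ?_
  exact (((hV j).sub_const 1).div ((hV j).add_const 1) (h1 j)).div_const m

lemma Ph_mem {m : ℂ} (hm : ‖m‖ = 1) {U : Fin n → ℂ} (hU : ∀ j, U j ∈ HP) : Ph m U ∈ Gn n :=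
  ⟨_, fun j => by rw [norm_div, hm, div_one]; exact tau_lt (hU j), rfl⟩

lemma Ph_surj {m : ℂ} (hm : ‖m‖ = 1) {z : EuclideanSpace ℂ (Fin n)} (hz : z ∈ Gn n) :
    ∃ U : Fin n → ℂ, (∀ j, U j ∈ HP) ∧ z = Ph m U := by
  have hm0 : m ≠ 0 := by rintro rfl; simp at hm
  obtain ⟨l, hl, rfl⟩ := hz
  have : ∀ j, ∃ X ∈ HP, tau X = l j * m := fun j =>
    tau_surj (by rw [norm_mul, hm, mul_one]; exact hl j)
  choose U h1 h2 using this
  refine ⟨U, h1, ?_⟩
  rw [Ph]; congr 1; funext j; rw [h2]; field_simp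

lemma tau_ne {m U : ℂ} (hm : m ≠ 0) (hU : U + 1 ≠ 0) : 1 - tau U / m * m ≠ 0 := by
  have : 1 - tau U / m * m = 2 / (U + 1) := by rw [tau]; field_simp; ring
  rw [this]; exact div_ne_zero two_ne_zero hU

lemma ev_Ph {m : ℂ} (hm : m ≠ 0) {U : Fin n → ℂ} (hU : ∀ j, U j + 1 ≠ 0) :
    (pol (Ph m U)).eval m ≠ 0 := by
  rw [Ph, ev_symm]
  exact Finset.prod_ne_zero_iff.2 fun j _ => tau_ne hm (hU j)

lemma Sm_Ph {m : ℂ} (hm : m ≠ 0) {U : Fin n → ℂ} (hU : ∀ j, U j + 1 ≠ 0) :
    Sm m (Ph m U) = ∑ j, U j := by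
  rw [Ph, Sm_symm _ _ fun j => tau_ne hm (hU j)]
  refine Finset.sum_congr rfl fun j _ => ?_
  have := hU j
  rw [div_eq_iff (tau_ne hm this), tau]; field_simp; ring

lemma bk1 {h : ℂ → ℂ} (hd : DifferentiableOn ℂ h HP) (hp : ∀ X ∈ HP, 0 < (h X).re) {A : ℝ}
    (hA : 0 < A)
    (hl : Tendsto (fun x : ℝ => (h x - A * (x : ℂ)⁻¹) / (x : ℂ)⁻¹ ^ 3) atTop (𝓝 0)) : h 1 = A := by
  have hne : ∀ X ∈ HP, h X ≠ 0 := fun X hX h0 => by have := hp X hX; rw [h0] at this; simp at this
  have hA' : (A : ℂ) ≠ 0 := by exact_mod_cast hA.ne'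
  set ρ : ℝ → ℂ := fun x => (h x - A * (x : ℂ)⁻¹) / (x : ℂ)⁻¹ ^ 3 with hρ
  have tQ : Tendsto (fun x : ℝ => A + ρ x * (x : ℂ)⁻¹ ^ 2) atTop (𝓝 A) := by
    simpa using (hl.mul (inv_real.pow 2)).const_add (A : ℂ)
  have eQ : ∀ x : ℝ, 0 < x → A + ρ x * (x : ℂ)⁻¹ ^ 2 = x * h x := by
    intro x hx
    have : (x : ℂ) ≠ 0 := by exact_mod_cast hx.ne'
    simp only [hρ]; field_simp; ring
  have kd : DifferentiableOn ℂ (fun X => (h X)⁻¹) HP := hd.inv hne
  have j := julia (c := A⁻¹) kd (fun X hX => by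
      rw [inv_re]; exact div_nonneg (hp X hX).le (normSq_nonneg _)) (by
    have := tQ.inv₀ hA'
    rw [ofReal_inv]
    refine this.congr' ?_
    filter_upwards [eventually_gt_atTop 0] with x hx
    rw [eQ x hx, mul_inv, div_eq_mul_inv, mul_comm])
  have z := hopf (k := fun X => (h X)⁻¹ - (A⁻¹ : ℝ) * X) (kd.sub (by fun_prop))
    (fun X hX => by have := j X hX; rw [sub_re, re_ofReal_mul]; linarith) (by
      have := hl.neg.div (tQ.const_mul (A : ℂ)) (mul_ne_zero hA' hA')
      rw [neg_zero, zero_div] at this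
      refine this.congr' ?_
      filter_upwards [eventually_gt_atTop 0] with x hx
      have h1 : (x : ℂ) ≠ 0 := by exact_mod_cast hx.ne'
      have h2 := hne _ (real_mem hx)
      simp only [Pi.div_apply]
      rw [eQ x hx, ofReal_inv]
      simp only [hρ]
      field_simp; ring) 1 (by simp [HP])
  rw [ofReal_inv, mul_one, sub_eq_zero] at z
  exact inv_injective z

lemma ray_zero {f : ℂ → ℂ} (hd : DifferentiableOn ℂ f HP) (b : ℝ)
    (h : ∀ X ∈ HP, X.im = b → f X = 0) : ∀ X ∈ HP, f X = 0 := by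
  have ha := hd.analyticOnNhd hp_open
  have hc : IsPreconnected HP := (convex_halfSpace_re_gt 0).isPreconnected
  have h0 : (1 + b * I : ℂ) ∈ HP := by simp [HP]
  have T : Tendsto (fun t : ℝ => (1 + b * I + t : ℂ)) (𝓝[>] 0) (𝓝[≠] (1 + b * I)) := by
    refine tendsto_nhdsWithin_iff.2 ⟨Tendsto.mono_left ?_ nhdsWithin_le_nhds, ?_⟩
    · exact Continuous.tendsto' (by fun_prop) _ _ (by simp)
    · filter_upwards [self_mem_nhdsWithin] with t ht
      have : 0 < t := ht
      simp; linarith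
  refine ha.eqOn_zero_of_preconnected_of_frequently_eq_zero hc h0 (T.frequently ?_)
  refine Eventually.frequently ?_
  filter_upwards [self_mem_nhdsWithin] with t ht
  have : 0 < t := ht
  exact h _ (by simp [HP]; linarith) (by simp)

end Pool.Agent.H66.Bks
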