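import Pool.Agent.H66.Bks1

open Complex Set Filter Topology Metric Asymptotics Polynomial
open scoped ComplexConjugate

namespace Pool.Agent.H66.Bks

open Pool.Agent.H66.Bkr

variable {n : ℕ}

lemma ev_ne {m : ℂ} (hm : ‖m‖ = 1) {w : EuclideanSpace ℂ (Fin n)} (hw : w ∈ Gn n) :
    (pol w).eval m ≠ 0 := by
  have hm0 : m ≠ 0 := by rintro rfl; simp at hm
  obtain ⟨U, hU, rfl⟩ := Ph_surj hm hw
  exact ev_Ph hm0 fun j => add_one_ne (hU j)

lemma Sm_pos (hn : 0 < n) {m : ℂ} (hm : ‖m‖ = 1) {w : EuclideanSpace ℂ (Fin n)} (hw : w ∈ Gn n) :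
    0 < (Sm m w).re := by
  have hm0 : m ≠ 0 := by rintro rfl; simp at hm
  obtain ⟨U, hU, rfl⟩ := Ph_surj hm hw
  rw [Sm_Ph hm0 fun j => add_one_ne (hU j), re_sum]
  haveI : Nonempty (Fin n) := ⟨⟨0, hn⟩⟩
  exact Finset.sum_pos (fun j _ => hU j) Finset.univ_nonempty

lemma comp_diff {m : ℂ} (hm : ‖m‖ = 1)
    {F : EuclideanSpace ℂ (Fin n) → EuclideanSpace ℂ (Fin n)} (hF : DifferentiableOn ℂ F (Gn n))
    (hM : MapsTo F (Gn n) (Gn n)) {V : ℂ → Fin n → ℂ}
    (hV : ∀ t ∈ HP, ∀ j, DifferentiableAt ℂ (fun t => V t j) t) (h1 : ∀ t ∈ HP, ∀ j, V t j ∈ HP) :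
    DifferentiableOn ℂ (fun t => Sm m (F (Ph m (V t)))) HP := by
  have a : DifferentiableOn ℂ (fun t => F (Ph m (V t))) HP :=
    hF.comp (fun t ht => (Ph_diff m (hV t ht) fun j => add_one_ne (h1 t ht j)).differentiableWithinAt)
      (fun t ht => Ph_mem hm (h1 t ht))
  intro t ht
  have b := ((Sm_cd m (ev_ne hm (hM (Ph_mem hm (h1 t ht))))).differentiableAt
    one_ne_zero).comp_differentiableWithinAt t (a t ht)
  exact b

lemma stepA (hn : 0 < n) {m : ℂ} (hm : ‖m‖ = 1) {u : Fin n → ℂ} (hu : ∀ j, (u j).re = 0)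
    {F : EuclideanSpace ℂ (Fin n) → EuclideanSpace ℂ (Fin n)} (hF : DifferentiableOn ℂ F (Gn n))
    (hM : MapsTo F (Gn n) (Gn n))
    (ho : (fun z => F z - z) =o[𝓝[Gn n] (Ph m u)] fun z => ‖z - Ph m u‖ ^ 3)
    {a : Fin n → ℝ} (ha : ∀ j, 0 < a j) :
    Sm m (F (Ph m fun j => u j + a j)) = ∑ j, (u j + a j) := by
  have hm0 : m ≠ 0 := by rintro rfl; simp at hm
  haveI : Nonempty (Fin n) := ⟨⟨0, hn⟩⟩
  have hu1 : ∀ j, u j + 1 ≠ 0 := by
    intro j h
    have := congrArg re h
    simp [hu j] at this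
  have hV : ∀ X ∈ HP, ∀ j, u j + a j * X⁻¹ ∈ HP := by
    intro X hX j
    have hX0 : X ≠ 0 := by rintro rfl; simp [HP] at hX
    show 0 < (u j + a j * X⁻¹).re
    rw [add_re, hu, zero_add, re_ofReal_mul, inv_re]
    exact mul_pos (ha j) (div_pos hX (normSq_pos.2 hX0))
  have hd := comp_diff hm hF hM (V := fun X j => u j + a j * X⁻¹) (fun X hX j => by
    have hX0 : X ≠ 0 := by rintro rfl; simp [HP] at hX
    exact ((differentiableAt_id.inv hX0).const_mul _).const_add _) hV
  set γ : ℂ → EuclideanSpace ℂ (Fin n) := fun s => Ph m fun j => u j + a j * s with hγ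
  have g0 : γ 0 = Ph m u := by simp [hγ]
  have gd : DifferentiableAt ℂ γ 0 :=
    Ph_diff m (V := fun s j => u j + a j * s) (fun j => by fun_prop) (fun j => by simpa using hu1 j)
  have ev : ∀ᶠ x : ℝ in atTop, (x : ℂ) ∈ HP := by
    filter_upwards [eventually_gt_atTop 0] with x hx using real_mem hx
  have t1 : Tendsto (fun x : ℝ => γ (x : ℂ)⁻¹) atTop (𝓝 (Ph m u)) := by
    rw [← g0]; exact gd.continuousAt.tendsto.comp inv_real
  have t2 : Tendsto (fun x : ℝ => γ (x : ℂ)⁻¹) atTop (𝓝[Gn n] (Ph m u)) :=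
    tendsto_nhdsWithin_iff.2 ⟨t1, ev.mono fun x hx => Ph_mem hm (hV _ hx)⟩
  have o0 : (fun x : ℝ => γ (x : ℂ)⁻¹ - Ph m u) =O[atTop] fun x : ℝ => (x : ℂ)⁻¹ := by
    have := gd.isBigO_sub.comp_tendsto inv_real
    simpa [Function.comp_def, g0] using this
  have o1 : (fun x : ℝ => F (γ (x : ℂ)⁻¹) - γ (x : ℂ)⁻¹) =o[atTop] fun x : ℝ => (x : ℂ)⁻¹ ^ 3 := by
    refine (ho.comp_tendsto t2).trans_isBigO ?_
    have := o0.norm_norm.pow 3
    refine IsBigO.of_norm_right ?_
    simpa [Function.comp_def] using this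
  have t3 : Tendsto (fun x : ℝ => F (γ (x : ℂ)⁻¹)) atTop (𝓝 (Ph m u)) := by
    have h1 := o1.trans_tendsto (by simpa using inv_real.pow 3)
    simpa using h1.add t1
  have st := ((Sm_cd m (ev_Ph hm0 hu1)).hasStrictFDerivAt one_ne_zero).isBigO_sub
  have o2 := (st.comp_tendsto (t3.prodMk_nhds t1)).trans_isLittleO o1
  have := bk1 (h := fun X => Sm m (F (Ph m fun j => u j + a j * X⁻¹)) - ∑ j, u j)
    (hd.sub_const _) (fun X hX => by
      rw [sub_re, re_sum, Finset.sum_eq_zero fun j _ => hu j, sub_zero]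
      exact Sm_pos hn hm (hM (Ph_mem hm (hV X hX)))) (A := ∑ j, a j)
    (Finset.sum_pos (fun j _ => ha j) Finset.univ_nonempty) (by
      refine o2.tendsto_div_nhds_zero.congr' ?_
      filter_upwards [ev] with x hx
      simp only [Function.comp, hγ]
      rw [Sm_Ph hm0 fun j => add_one_ne (hV _ hx j), Finset.sum_add_distrib, ← Finset.sum_mul,
        ofReal_sum, sub_sub])
  simp only [inv_one, mul_one] at this
  rw [Finset.sum_add_distrib, ← ofReal_sum]; linear_combination this

lemma stepB (hn : 0 < n) {m : ℂ} (hm : ‖m‖ = 1) {u : Fin n → ℂ} (hu : ∀ j, (u j).re = 0)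
    {F : EuclideanSpace ℂ (Fin n) → EuclideanSpace ℂ (Fin n)} (hF : DifferentiableOn ℂ F (Gn n))
    (hM : MapsTo F (Gn n) (Gn n))
    (ho : (fun z => F z - z) =o[𝓝[Gn n] (Ph m u)] fun z => ‖z - Ph m u‖ ^ 3) (s : Finset (Fin n)) :
    ∀ U : Fin n → ℂ, (∀ j, U j ∈ HP) → (∀ j ∉ s, (U j).im = (u j).im) →
      Sm m (F (Ph m U)) - ∑ j, U j = 0 := by
  induction s using Finset.induction_on with
  | empty =>
    intro U hU h
    have e : U = fun j => u j + ((U j).re : ℝ) := by
      funext j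
      apply Complex.ext
      · simp [hu j]
      · simpa using h j (by simp)
    rw [e, stepA hn hm hu hF hM ho hU, sub_self]
  | insert i s hi ih =>
    intro U hU h
    have mem : ∀ t ∈ HP, ∀ j, Function.update U i t j ∈ HP := by
      intro t ht j
      by_cases hj : j = i
      · subst hj; simpa using ht
      · rw [Function.update_of_ne hj]; exact hU j
    have dd : ∀ t, ∀ j, DifferentiableAt ℂ (fun t => Function.update U i t j) t := by
      intro t j
      by_cases hj : j = i
      · subst hj; simp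
      · simp [Function.update_of_ne hj]
    have := ray_zero (f := fun t => Sm m (F (Ph m (Function.update U i t))) -
        ∑ j, Function.update U i t j)
      ((comp_diff hm hF hM (fun t _ => dd t) mem).sub
        (fun t _ => (DifferentiableAt.fun_sum fun j _ => dd t j).differentiableWithinAt))
      (u i).im (fun X hX hb => ih _ (mem X hX) (fun j hj => by
        by_cases hji : j = i
        · subst hji; simpa using hb
        · rw [Function.update_of_ne hji]; exact h j (by simp [hji, hj]))) (U i) (hU i)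
    simpa using this

lemma circ_inf : {m : ℂ | ‖m‖ = 1}.Infinite := by
  have hne : ∀ k : ℕ, (k : ℂ) * I + 1 ≠ 0 := by
    intro k h; have := congrArg re h; simp at this
  refine Set.infinite_of_injective_forall_mem (f := fun k : ℕ => tau (k * I)) ?_ ?_
  · intro a b h
    simp only [tau] at h
    rw [div_eq_div_iff (hne a) (hne b)] at h
    have : (a : ℂ) * I = b * I := by linear_combination h / 2
    exact_mod_cast mul_right_cancel₀ I_ne_zero this
  · intro k
    have h := nsq (k * I) 1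
    simp only [map_one, mul_re, natCast_re, I_re, mul_zero, natCast_im, zero_mul, sub_zero,
      add_zero] at h
    show ‖tau (k * I)‖ = 1
    rw [tau, norm_div, div_eq_one_iff_eq (norm_ne_zero_iff.2 (hne k))]
    exact (pow_left_inj₀ (norm_nonneg _) (norm_nonneg _) two_ne_zero).1 h.symm

theorem final (hn : 0 < n) {p : EuclideanSpace ℂ (Fin n)} (hp : p ∈ Shilov n)
    {F : EuclideanSpace ℂ (Fin n) → EuclideanSpace ℂ (Fin n)} (hF : DifferentiableOn ℂ F (Gn n))
    (hM : MapsTo F (Gn n) (Gn n)) (ho : (fun z => F z - z) =o[𝓝[Gn n] p] fun z => ‖z - p‖ ^ 3) :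
    ∀ z ∈ Gn n, F z = z := by
  obtain ⟨c, hc, rfl⟩ := hp
  intro z hz
  have key : ∀ m ∈ {m : ℂ | ‖m‖ = 1} \ range fun j => (c j)⁻¹,
      (derivative (pol (F z)) * pol z - derivative (pol z) * pol (F z)).IsRoot m := by
    rintro m ⟨hm, hm2⟩
    have hm : ‖m‖ = 1 := hm
    have hm0 : m ≠ 0 := by rintro rfl; simp at hm
    have h1 : ∀ j, 1 - c j * m ≠ 0 := by
      intro j h
      refine hm2 ⟨j, ?_⟩
      exact inv_eq_of_mul_eq_one_right (by linear_combination -h)
    set u : Fin n → ℂ := fun j => (1 + c j * m) / (1 - c j * m) with hu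
    have hure : ∀ j, (u j).re = 0 := by
      intro j
      have h2 : normSq (c j * m) = 1 := by
        rw [Complex.normSq_eq_norm_sq, norm_mul, hc j, hm]; norm_num
      simp only [hu]
      generalize c j * m = q at h2
      rw [Complex.div_re, ← add_div, div_eq_zero_iff]; left
      simp [Complex.normSq_apply] at h2 ⊢
      linarith
    have e : symm n c = Ph m u := by
      rw [Ph]; congr 1; funext j
      have := h1 j
      have e1 : u j - 1 = 2 * (c j * m) / (1 - c j * m) := by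
        simp only [hu]; rw [div_sub_one this]; congr 1; ring
      have e2 : u j + 1 = 2 / (1 - c j * m) := by
        simp only [hu]; rw [div_add_one this]; congr 1; ring
      rw [tau, e1, e2]; field_simp
    rw [e] at ho
    obtain ⟨U, hU, eU⟩ := Ph_surj hm hz
    have h3 := stepB hn hm hure hF hM ho Finset.univ U hU (by simp)
    rw [← Sm_Ph hm0 fun j => add_one_ne (hU j), ← eU, Sm, Sm] at h3
    have h4 := ev_ne hm hz
    have h5 := ev_ne hm (hM hz)
    have h6 : eval m (derivative (pol (F z))) / eval m (pol (F z)) =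
        eval m (derivative (pol z)) / eval m (pol z) := by
      apply mul_left_cancel₀ hm0; linear_combination -h3 / 2
    rw [div_eq_div_iff h5 h4] at h6
    rw [IsRoot.def, eval_sub, eval_mul, eval_mul, h6, sub_self]
  have hz0 := Polynomial.eq_zero_of_infinite_isRoot _
    ((circ_inf.diff (finite_range _)).mono key)
  exact pol_inj (wr (pol_zero _) (pol_zero _) (sub_eq_zero.1 hz0))

end Pool.Agent.H66.Bks
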