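import Pool.Agent.H66.Card1

set_option autoImplicit false

namespace Pool.Agent.H66.Card

section ld
variable {X : Type}

def Ld (W : Set X) : ℕ → Set (X → Bool) → Prop
  | 0, F => F.Nonempty
  | d + 1, F => ∃ x ∈ W, Ld W d {B | B ∈ F ∧ B x = true} ∧ Ld W d {B | B ∈ F ∧ B x = false}

theorem Ld.transfer {W W' : Set X} (hW : W ⊆ W') : ∀ (d : ℕ) {F F' : Set (X → Bool)},
    (∀ B ∈ F, ∃ B' ∈ F', ∀ x ∈ W, B' x = B x) → Ld W d F → Ld W' d F' := by
  intro d
  induction d with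
  | zero =>
    rintro F F' h ⟨B, hB⟩
    obtain ⟨B', h', -⟩ := h B hB
    exact ⟨B', h'⟩
  | succ d ih =>
    rintro F F' h ⟨x, hx, h1, h2⟩
    refine ⟨x, hW hx, ih ?_ h1, ih ?_ h2⟩ <;>
    · rintro B ⟨hB, e⟩
      obtain ⟨B', h', e'⟩ := h B hB
      exact ⟨B', ⟨h', (e' x hx).trans e⟩, e'⟩

theorem Ld.mono {W : Set X} {d : ℕ} {F F' : Set (X → Bool)} (h : F ⊆ F') (H : Ld W d F) :
    Ld W d F' := Ld.transfer subset_rfl d (fun B hB => ⟨B, h hB, fun _ _ => rfl⟩) H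

theorem Ld.nonempty {W : Set X} : ∀ (d : ℕ) {F : Set (X → Bool)}, Ld W d F → F.Nonempty := by
  intro d
  induction d with
  | zero => exact fun h => h
  | succ d ih =>
    rintro F ⟨x, -, h1, -⟩
    obtain ⟨B, hB, -⟩ := ih h1
    exact ⟨B, hB⟩

theorem Ld.split {W W1 W2 : Set X} (hW : W ⊆ W1 ∪ W2) : ∀ (s p q : ℕ) {F : Set (X → Bool)},
    p + q = s → Ld W s F → Ld W1 p F ∨ Ld W2 q F := by
  intro s
  induction s with
  | zero =>
    intro p q F e h
    obtain rfl : p = 0 := by omega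
    exact Or.inl h
  | succ s ih =>
    intro p q F e h
    rcases p with _ | p
    · exact Or.inl (Ld.nonempty _ h)
    rcases q with _ | q
    · exact Or.inr (Ld.nonempty _ h)
    obtain ⟨x, hx, h1, h2⟩ := h
    rcases hW hx with hx | hx
    · rcases ih p (q + 1) (by omega) h1 with a | a
      · rcases ih p (q + 1) (by omega) h2 with b | b
        · exact Or.inl ⟨x, hx, a, b⟩
        · exact Or.inr (b.mono fun _ h => h.1)
      · exact Or.inr (a.mono fun _ h => h.1)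
    · rcases ih (p + 1) q (by omega) h1 with a | a
      · exact Or.inl (a.mono fun _ h => h.1)
      · rcases ih (p + 1) q (by omega) h2 with b | b
        · exact Or.inl (b.mono fun _ h => h.1)
        · exact Or.inr ⟨x, hx, a, b⟩

def cnt {n : ℕ} (b : Fin n → Bool) : ℕ := ∑ j, if b j = true then 1 else 0

def DD : ℕ → ℕ
  | 0 => 0
  | n + 1 => (DD n + 1) + (DD n + 1)

theorem ladder : ∀ (n : ℕ) {W : Set X} {F : Set (X → Bool)}, Ld W (DD n) F →
    ∃ w : Fin n → X, Function.Injective w ∧ (∀ j, w j ∈ W) ∧ (∃ B ∈ F, ∀ j, B (w j) = true) ∧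
      (∃ B ∈ F, ∀ j, B (w j) = false) ∧ ∀ v ≤ n, ∃ B ∈ F, cnt (fun j => B (w j)) = v := by
  intro n
  induction n with
  | zero =>
    rintro W F ⟨B, hB⟩
    exact ⟨Fin.elim0, fun a => a.elim0, fun a => a.elim0, ⟨B, hB, fun a => a.elim0⟩,
      ⟨B, hB, fun a => a.elim0⟩, fun v hv => ⟨B, hB, by simp [cnt]; omega⟩⟩
  | succ n ih =>
    intro W F h
    obtain ⟨C, hC⟩ := Ld.nonempty _ h
    rcases Ld.split (W1 := {x | x ∈ W ∧ C x = true}) (W2 := {x | x ∈ W ∧ C x = false})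
      (fun x hx => by cases e : C x <;> simp [hx, e]) _ _ _ rfl h with
      ⟨x, hx, -, h2⟩ | ⟨x, hx, h2, -⟩
    · obtain ⟨w, w1, w2, ⟨B1, hB1, e1⟩, ⟨B2, hB2, e2⟩, w3⟩ := ih h2
      refine ⟨Fin.cons x w, Fin.cons_injective_iff.2 ⟨?_, w1⟩, ?_, ⟨C, hC, ?_⟩,
        ⟨B2, hB2.1, ?_⟩, fun v hv => ?_⟩
      · rintro ⟨j, rfl⟩
        exact absurd ((e1 j).symm.trans hB1.2) (by simp)
      · exact fun j => Fin.cases hx.1 (fun j => (w2 j).1) j
      · exact fun j => Fin.cases hx.2 (fun j => (w2 j).2) j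
      · exact fun j => Fin.cases hB2.2 e2 j
      · rcases Nat.lt_or_ge n v with hn | hn
        · refine ⟨C, hC, ?_⟩
          have a : ∀ j, C (w j) = true := fun j => (w2 j).2
          have b : C x = true := hx.2
          simp only [cnt, Fin.sum_univ_succ, Fin.cons_zero, Fin.cons_succ, a, b]
          simp
          omega
        · obtain ⟨B, hB, e⟩ := w3 v hn
          refine ⟨B, hB.1, ?_⟩
          rw [← e]
          simp only [cnt, Fin.sum_univ_succ, Fin.cons_zero, Fin.cons_succ, hB.2]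
          simp
    · obtain ⟨w, w1, w2, ⟨B1, hB1, e1⟩, ⟨B2, hB2, e2⟩, w3⟩ := ih h2
      refine ⟨Fin.cons x w, Fin.cons_injective_iff.2 ⟨?_, w1⟩, ?_, ⟨B1, hB1.1, ?_⟩,
        ⟨C, hC, ?_⟩, fun v hv => ?_⟩
      · rintro ⟨j, rfl⟩
        exact absurd ((e2 j).symm.trans hB2.2) (by simp)
      · exact fun j => Fin.cases hx.1 (fun j => (w2 j).1) j
      · exact fun j => Fin.cases hB1.2 e1 j
      · exact fun j => Fin.cases hx.2 (fun j => (w2 j).2) j
      · rcases v with _ | v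
        · refine ⟨C, hC, ?_⟩
          have a : ∀ j, C (w j) = false := fun j => (w2 j).2
          have b : C x = false := hx.2
          simp only [cnt, Fin.sum_univ_succ, Fin.cons_zero, Fin.cons_succ, a, b]
          simp
        · obtain ⟨B, hB, e⟩ := w3 v (by omega)
          refine ⟨B, hB.1, ?_⟩
          rw [← e]
          simp only [cnt, Fin.sum_univ_succ, Fin.cons_zero, Fin.cons_succ, hB.2]
          simp [add_comm]

theorem Ld_image {ι : Type} (t : ι → X) (J : Set ι) : ∀ (d : ℕ) (F : Set (X → Bool)),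
    Ld (t '' J) d F ↔ Ld J d {b | ∃ B ∈ F, (fun i => B (t i)) = b} := by
  intro d
  induction d with
  | zero =>
    intro F
    exact ⟨fun ⟨B, hB⟩ => ⟨_, B, hB, rfl⟩, fun ⟨_, B, hB, _⟩ => ⟨B, hB⟩⟩
  | succ d ih =>
    intro F
    have e : ∀ (i : ι) (c : Bool), {b | ∃ B ∈ {B | B ∈ F ∧ B (t i) = c}, (fun i => B (t i)) = b} =
        {b | b ∈ {b | ∃ B ∈ F, (fun i => B (t i)) = b} ∧ b i = c} := by
      intro i c
      ext b
      constructor
      · rintro ⟨B, ⟨h1, h2⟩, rfl⟩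
        exact ⟨⟨B, h1, rfl⟩, h2⟩
      · rintro ⟨⟨B, h1, rfl⟩, h2⟩
        exact ⟨B, ⟨h1, h2⟩, rfl⟩
    constructor
    · rintro ⟨_, ⟨i, hi, rfl⟩, h1, h2⟩
      rw [ih, e] at h1 h2
      exact ⟨i, hi, h1, h2⟩
    · rintro ⟨i, hi, h1, h2⟩
      refine ⟨_, ⟨i, hi, rfl⟩, ?_, ?_⟩
      · rw [ih, e]; exact h1
      · rw [ih, e]; exact h2

def CC (C0 : Set X → (X → Bool) → Prop) : ℕ → Set X → (X → Bool) → Prop
  | 0, W, B => C0 W B
  | j + 1, W, B => ∀ w, ∃ B', (∀ x ∈ W, B' x = B x) ∧ CC C0 j (insert w W) B'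

variable {C0 : Set X → (X → Bool) → Prop}

theorem CC.res (h0 : ∀ W W' B B', W ⊆ W' → (∀ x ∈ W, B x = B' x) → C0 W' B' → C0 W B) :
    ∀ (j : ℕ) W W' B B', W ⊆ W' → (∀ x ∈ W, B x = B' x) → CC C0 j W' B' → CC C0 j W B := by
  intro j
  induction j with
  | zero => exact h0
  | succ j ih =>
    intro W W' B B' h1 h2 h3 w
    obtain ⟨B2, e, h⟩ := h3 w
    exact ⟨B2, fun x hx => (e x (h1 hx)).trans (h2 x hx).symm,
      ih _ _ _ _ (Set.insert_subset_insert h1) (fun _ _ => rfl) h⟩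

theorem CC.ext [Nonempty X]
    (h0 : ∀ W W' B B', W ⊆ W' → (∀ x ∈ W, B x = B' x) → C0 W' B' → C0 W B) (j : ℕ) :
    ∀ (N : ℕ) (l : List X) W B, l.length ≤ N → CC C0 (j + N) W B →
      ∃ B', (∀ x ∈ W, B' x = B x) ∧ CC C0 j (W ∪ {x | x ∈ l}) B' := by
  intro N
  induction N with
  | zero =>
    intro l W B hl h
    obtain rfl : l = [] := List.length_eq_zero_iff.1 (by omega)
    exact ⟨B, fun _ _ => rfl, by simpa using h⟩
  | succ N ih =>
    intro l W B hl h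
    rcases l with _ | ⟨a, l⟩
    · obtain ⟨B1, e1, h1⟩ := h (Classical.arbitrary X)
      obtain ⟨B2, e2, h2⟩ := ih [] _ _ (by simp) h1
      exact ⟨B2, fun x hx => (e2 x (Or.inr hx)).trans (e1 x hx),
        CC.res h0 j _ _ _ _ (by simp) (fun _ _ => rfl) h2⟩
    · obtain ⟨B1, e1, h1⟩ := h a
      obtain ⟨B2, e2, h2⟩ := ih l _ _ (by simpa using hl) h1
      refine ⟨B2, fun x hx => (e2 x (Or.inr hx)).trans (e1 x hx),
        CC.res h0 j _ _ _ _ ?_ (fun _ _ => rfl) h2⟩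
      intro x hx
      simp at hx ⊢
      tauto

theorem CC.tot {A : X → Bool} (hA : ∀ W, C0 W A) : ∀ (j : ℕ) W, CC C0 j W A := by
  intro j
  induction j with
  | zero => exact hA
  | succ j ih => exact fun W w => ⟨A, fun _ _ => rfl, ih _⟩

def K : ℕ → Type
  | 0 => Empty
  | d + 1 => Option (K d ⊕ K d)

instance finK : ∀ d, Finite (K d)
  | 0 => inferInstanceAs (Finite Empty)
  | d + 1 => haveI := finK d; inferInstanceAs (Finite (Option (K d ⊕ K d)))

def TT (C0 : Set X → (X → Bool) → Prop) (j : ℕ) (P : Set X) (A : X → Bool) (d : ℕ) : Prop :=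
  ∃ u : K d → X, Ld (Set.range u) d {B | (∀ x ∈ P, B x = A x) ∧ CC C0 j (P ∪ Set.range u) B}

theorem define [Nonempty X]
    (h0 : ∀ W W' B B', W ⊆ W' → (∀ x ∈ W, B x = B' x) → C0 W' B' → C0 W B)
    {A : X → Bool} (hA : ∀ W, C0 W A) {D : ℕ} (hD : ¬ TT C0 0 ∅ A D) :
    ∃ (d j : ℕ) (P : Set X), P.Finite ∧ ∀ w, A w = true ↔ ∃ u : K d → X, Ld (Set.range u) d
      {B | (∀ x ∈ P, B x = A x) ∧ B w = true ∧ CC C0 j (insert w P ∪ Set.range u) B} := by
  classical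
  have hex : ∃ e, ∃ (j : ℕ) (P : Set X), P.Finite ∧ ¬ TT C0 j P A e :=
    ⟨D, 0, ∅, Set.finite_empty, hD⟩
  obtain ⟨j, P, hP, h1⟩ := Nat.find_spec hex
  have h2 : ∀ e < Nat.find hex, ∀ (j : ℕ) (P : Set X), P.Finite → TT C0 j P A e := by
    intro e he j P hP
    by_contra h
    exact Nat.find_min hex he ⟨j, P, hP, h⟩
  generalize Nat.find hex = e at h1 h2
  rcases e with _ | d
  · exact absurd ⟨Empty.elim, A, fun _ _ => rfl, CC.tot hA _ _⟩ h1
  have h3 := h2 d (by omega)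
  haveI := Fintype.ofFinite (K d)
  refine ⟨d, j + Fintype.card (K d), P, hP, fun w => ⟨fun hw => ?_, ?_⟩⟩
  · obtain ⟨u, hu⟩ := h3 (j + Fintype.card (K d)) (insert w P) (hP.insert w)
    exact ⟨u, hu.mono fun B hB => ⟨fun x hx => hB.1 x (Or.inr hx),
      (hB.1 w (Or.inl rfl)).trans hw, hB.2⟩⟩
  · rintro ⟨u, hu⟩
    by_contra hw
    obtain ⟨v, hv⟩ := h3 j (insert w P ∪ Set.range u) ((hP.insert w).union (Set.finite_range u))
    apply h1
    refine ⟨fun o => Option.elim o w (Sum.elim u v), ?_⟩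
    set W : Set X := Set.range fun o : K (d + 1) => Option.elim o w (Sum.elim u v) with hW
    have m0 : w ∈ W := ⟨none, rfl⟩
    have m1 : Set.range u ⊆ W := by
      rintro _ ⟨k, rfl⟩
      exact ⟨some (Sum.inl k), rfl⟩
    have m2 : Set.range v ⊆ W := by
      rintro _ ⟨k, rfl⟩
      exact ⟨some (Sum.inr k), rfl⟩
    have m3 : P ∪ W ⊆ insert w P ∪ Set.range u ∪ Set.range v := by
      rintro x (hx | ⟨_ | k | k, rfl⟩)
      · exact Or.inl (Or.inl (Or.inr hx))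
      · exact Or.inl (Or.inl (Or.inl rfl))
      · exact Or.inl (Or.inr ⟨k, rfl⟩)
      · exact Or.inr ⟨k, rfl⟩
    refine ⟨w, m0, Ld.transfer m1 d ?_ hu, Ld.transfer m2 d ?_ hv⟩
    · rintro B ⟨b1, b2, b3⟩
      obtain ⟨B', e, h⟩ := CC.ext h0 j _ (Finset.univ.toList.map v) _ _ (by simp) b3
      refine ⟨B', ⟨⟨fun x hx => (e x (Or.inl (Or.inr hx))).trans (b1 x hx),
        CC.res h0 j _ _ _ _ ?_ (fun _ _ => rfl) h⟩, (e w (Or.inl (Or.inl rfl))).trans b2⟩,
        fun x hx => e x (Or.inr hx)⟩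
      refine m3.trans (Set.union_subset_union_right _ ?_)
      rintro _ ⟨k, rfl⟩
      simp
    · rintro B ⟨b1, b2⟩
      refine ⟨B, ⟨⟨fun x hx => b1 x (Or.inl (Or.inr hx)),
        CC.res h0 j _ _ _ _ m3 (fun _ _ => rfl) b2⟩, ?_⟩, fun _ _ => rfl⟩
      rw [b1 w (Or.inl (Or.inl rfl))]
      simpa using hw

end ld

end Pool.Agent.H66.Card
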