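import Pool.Agent.H66.Card2

set_option autoImplicit false

namespace Pool.Agent.H66.Card

variable {α : Type} {n : ℕ} {σ : Type}

def C0 (step : σ → (Fin n → Option α) → σ) (q : σ) (out : σ → Finset ℕ)
    (W : Set (List α)) (B : List α → Bool) : Prop :=
  ∀ w : Fin n → List α, Function.Injective w → (∀ j, w j ∈ W) →
    cnt (fun j => B (w j)) ∈ out (run step q w)

variable {step : σ → (Fin n → Option α) → σ} {q : σ} {out : σ → Finset ℕ}

theorem C0_res : ∀ W W' B B', W ⊆ W' → (∀ x ∈ W, B x = B' x) → C0 step q out W' B' →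
    C0 step q out W B := by
  intro W W' B B' h1 h2 h3 w hw hW
  rw [show (fun j => B (w j)) = fun j => B' (w j) from funext fun j => h2 _ (hW j)]
  exact h3 w hw fun j => h1 (hW j)

theorem FS_CC [Finite σ] : ∀ (j : ℕ) (ι : Type) [Finite ι] (b : ι → Bool),
    FS fun t : ι → List α => ∃ B : List α → Bool, CC (C0 step q out) j (Set.range t) B ∧
      (fun i => B (t i)) = b := by
  intro j
  induction j with
  | zero =>
    intro ι _ b
    refine ((FS.all fun i => FS.all fun i' => (FS.eq i i').imp (FS.const (b i = b i'))).and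
      (FS.all fun τ : Fin n → ι =>
        (FS.all fun j => FS.all fun j' => (FS.eq (τ j) (τ j')).imp (FS.const (j = j'))).imp
        ((FS.ofRun step q fun r => cnt (fun j => b (τ j)) ∈ out r).comap τ))).congr fun t => ?_
    constructor
    · rintro ⟨B, h, rfl⟩
      exact ⟨fun i i' e => by simp only [e], fun τ hτ => h _ hτ fun j => ⟨_, rfl⟩⟩
    · rintro ⟨h1, h2⟩
      have e : ∀ i, Function.extend t b (fun _ => false) (t i) = b i := fun i =>
        Function.FactorsThrough.extend_apply (fun i i' e => h1 i i' e) _ i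
      refine ⟨Function.extend t b fun _ => false, fun w hw hW => ?_, funext e⟩
      choose τ hτ using hW
      obtain rfl : w = fun j => t (τ j) := funext fun j => (hτ j).symm
      simp only [e]
      exact h2 τ hw
  | succ j ih =>
    intro ι _ b
    refine (FS.ex fun c : Bool => ih (Option ι) fun o => o.elim c b).projAll.congr fun t => ?_
    have e : ∀ w, Set.range (fun o : Option ι => o.elim w t) = insert w (Set.range t) := by
      intro w
      ext x
      simp only [Set.mem_range, Set.mem_insert_iff, Option.exists]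
      simp [eq_comm]
    simp only [e]
    constructor
    · rintro ⟨B, h, rfl⟩ w
      obtain ⟨B', h1, h2⟩ := h w
      refine ⟨B' w, B', h2, ?_⟩
      funext o
      cases o with
      | none => rfl
      | some i => exact h1 _ ⟨i, rfl⟩
    · intro h
      obtain ⟨c, B, -, hB⟩ := h []
      refine ⟨B, fun w => ?_, funext fun i => congrFun hB (some i)⟩
      obtain ⟨c', B', h1, h2⟩ := h w
      refine ⟨B', ?_, h1⟩
      rintro _ ⟨i, rfl⟩
      exact (congrFun h2 (some i)).trans (congrFun hB (some i)).symm

theorem regular_of [Finite σ] (A : Language α) (ho : ∀ r, (out r).card ≤ n)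
    (h : ∀ w : Fin n → List α, ({x : List α | ∃ j, w j = x ∧ x ∈ A}).ncard ∈ out (run step q w)) :
    ∃ (k : ℕ) (M : DFA α (Fin k)), M.accepts = A := by
  classical
  set a : List α → Bool := fun x => decide (x ∈ A) with ha
  have hA : ∀ W, C0 step q out W a := by
    intro W w hw _
    convert h w using 1
    have : {x : List α | ∃ j, w j = x ∧ x ∈ A} =
        w '' ↑(Finset.univ.filter fun j => a (w j) = true) := by
      ext x
      simp only [ha, Set.mem_setOf_eq, Set.mem_image, Finset.coe_filter, Finset.mem_univ, true_and,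
        decide_eq_true_eq]
      constructor
      · rintro ⟨j, rfl, hj⟩
        exact ⟨j, hj, rfl⟩
      · rintro ⟨j, hj, rfl⟩
        exact ⟨j, rfl, hj⟩
    rw [this, Set.ncard_image_of_injective _ hw, Set.ncard_coe_finset, cnt, Finset.card_filter]
  have hD : ¬ TT (C0 step q out) 0 ∅ a (DD n) := by
    rintro ⟨u, hu⟩
    obtain ⟨w, w1, w2, -, -, w3⟩ := ladder n hu
    have : Finset.range (n + 1) ⊆ out (run step q w) := by
      intro v hv
      obtain ⟨B, hB, rfl⟩ := w3 v (by simpa [Nat.lt_succ_iff] using hv)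
      exact hB.2 w w1 fun j => Or.inr (w2 j)
    have h1 := Finset.card_le_card this
    have h2 := ho (run step q w)
    simp at h1
    omega
  obtain ⟨d, j, P, hP, hd⟩ := define C0_res hA hD
  haveI := hP.to_subtype
  apply FS.regular
  refine (FS.proj (ι := Unit) (κ := P ⊕ K d)
    ((FS.all fun i : P => FS.eqc (Sum.inr (Sum.inl i)) i.1).and
      (FS.comb (fun b => FS_CC (step := step) (q := q) (out := out) j (Unit ⊕ (P ⊕ K d)) b)
        fun F => Ld (Set.range fun k => Sum.inr (Sum.inr k)) d
          {b | (∀ i : P, b (Sum.inr (Sum.inl i)) = a i) ∧ b (Sum.inl ()) = true ∧ F b}))).congr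
    fun t => ?_
  have key : ∀ u : K d → List α, Ld (Set.range u) d
      {B | (∀ x ∈ P, B x = a x) ∧ B (t ()) = true ∧
        CC (C0 step q out) j (insert (t ()) P ∪ Set.range u) B} ↔
      Ld (Set.range fun k => (Sum.inr (Sum.inr k) : Unit ⊕ (P ⊕ K d))) d
        {b | (∀ i : P, b (Sum.inr (Sum.inl i)) = a i) ∧ b (Sum.inl ()) = true ∧
          ∃ B : List α → Bool, CC (C0 step q out) j
            (Set.range (Sum.elim t (Sum.elim (fun i : P => i.1) u))) B ∧
            (fun i => B (Sum.elim t (Sum.elim (fun i : P => i.1) u) i)) = b} := by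
    intro u
    have e1 : Set.range u = Sum.elim t (Sum.elim (fun i : P => i.1) u) ''
        Set.range fun k => (Sum.inr (Sum.inr k) : Unit ⊕ (P ⊕ K d)) := by
      rw [← Set.range_comp]
      rfl
    have e2 : Set.range (Sum.elim t (Sum.elim (fun i : P => i.1) u)) =
        insert (t ()) P ∪ Set.range u := by
      rw [Set.Sum.elim_range, Set.Sum.elim_range, Subtype.range_coe, Set.range_unique,
        Set.insert_eq, Set.union_assoc]
    rw [e2]
    conv_lhs => enter [1]; rw [e1]
    rw [Ld_image]
    refine iff_of_eq (congrArg _ ?_)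
    ext b
    constructor
    · rintro ⟨B, ⟨h1, h2, h3⟩, rfl⟩
      exact ⟨fun i => h1 _ i.2, h2, B, h3, rfl⟩
    · rintro ⟨h1, h2, B, h3, rfl⟩
      exact ⟨B, ⟨fun x hx => h1 ⟨x, hx⟩, h2, h3⟩, rfl⟩
  have e0 : t () ∈ A ↔ a (t ()) = true := by simp [ha]
  rw [e0, hd]
  constructor
  · rintro ⟨u, hu⟩
    exact ⟨Sum.elim (fun i : P => i.1) u, fun _ => rfl, (key u).1 hu⟩
  · rintro ⟨z, h1, h2⟩
    obtain ⟨u, rfl⟩ : ∃ u, z = Sum.elim (fun i : P => i.1) u := by
      refine ⟨fun k => z (Sum.inr k), ?_⟩
      funext i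
      cases i with
      | inl i => exact h1 i
      | inr k => rfl
    exact ⟨_, (key _).2 h2⟩

end Pool.Agent.H66.Card
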