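import Mathlib

set_option autoImplicit false

namespace Pool.Agent.H66.CatDefs

/-- The covering relation between prime ideals ordered by inclusion. -/
def primeCover (S : Type) [CommRing S] : Set (PrimeSpectrum S × PrimeSpectrum S) :=
  {x | x.1 ⋖ x.2}

/-- Any two saturated chains of prime ideals with the same endpoints have the same length. -/
def IsCatenary (S : Type) [CommRing S] : Prop :=
  ∀ s t : RelSeries (primeCover S), s.head = t.head → s.last = t.last → s.length = t.length

/-- Every finitely generated algebra is catenary. -/
def IsUniversallyCatenary (R : Type) [CommRing R] : Prop :=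
  ∀ (S : Type) [CommRing S] [Algebra R S], Algebra.FiniteType R S → IsCatenary S

/-- There is a nonzero linear map to the base ring. -/
def IsSolid (R S : Type) [CommRing R] [CommRing S] [Algebra R S] : Prop :=
  ∃ f : S →ₗ[R] R, f ≠ 0

/-- The absolute integral closure of a domain. -/
noncomputable def absIntClosure (R : Type) [CommRing R] [IsDomain R] :
    Subalgebra R (AlgebraicClosure (FractionRing R)) :=
  integralClosure R (AlgebraicClosure (FractionRing R))

end Pool.Agent.H66.CatDefs
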