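import Pool.Agent.H66.ConstDefs
import Pool.Agent.H37.Gen

/-! C.e. algebras with constants only. -/

namespace Pool.Agent.H66.Acc

open Pool.Agent.H37 Encodable Relation

theorem rtg_iff {α : Type} {R : α → α → Prop} {u v : α} : ReflTransGen R u v ↔
    ∃ l : List α, ∀ p ∈ (u :: l).zip (l ++ [v]), R p.1 p.2 ∨ p.1 = p.2 := by
  constructor
  · intro h
    induction h using ReflTransGen.head_induction_on with
    | refl => exact ⟨[], by simp⟩
    | @head a c h _ ih =>
      obtain ⟨l, hl⟩ := ih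
      refine ⟨c :: l, fun p hp => ?_⟩
      rcases List.mem_cons.1 hp with rfl | hp
      exacts [Or.inl h, hl p hp]
  · rintro ⟨l, hl⟩
    induction l generalizing u with
    | nil => rcases hl (u, v) (by simp) with h | h; exacts [.single h, (show u = v from h) ▸ .refl]
    | cons c l ih =>
      have := ih fun p hp => hl p (List.mem_cons_of_mem _ hp)
      rcases hl (u, c) List.mem_cons_self with h | h
      exacts [.head h this, (show u = c from h) ▸ this]

theorem W_iff {e n : ℕ} : W e n ↔ ∃ s, (ev e n s).isSome = true := by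
  simp only [W, Part.dom_iff_mem, ← ev_iff.symm, Option.isSome_iff_exists]
  exact exists_comm

theorem re_rtg {γ α : Type} [Primcodable γ] [Primcodable α] [DecidableEq α]
    {R : γ → α → α → Prop} (h : REPred fun q : γ × α × α => R q.1 q.2.1 q.2.2) :
    REPred fun q : γ × α × α => ReflTransGen (R q.1) q.2.1 q.2.2 := by
  have h1 : REPred fun x : ((γ × α × α) × List α) × α × α =>
      R x.1.1.1 x.2.1 x.2.2 ∨ x.2.1 = x.2.2 :=
    re_or (REPred.comp' h (g := fun x : ((γ × α × α) × List α) × α × α => (x.1.1.1, x.2))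
      (by fun_prop)) (re_of_bool (fun x => decide (x.2.1 = x.2.2)) (by fun_prop) (by simp))
  have h2 := re_forall_mem (p := fun (x : (γ × α × α) × List α) (p : α × α) =>
    R x.1.1 p.1 p.2 ∨ p.1 = p.2) h1 (l := fun x => (x.1.2.1 :: x.2).zip (x.2 ++ [x.1.2.2]))
    (by fun_prop)
  exact (re_exists (p := fun (q : γ × α × α) (l : List α) => ∀ p ∈ (q.2.1 :: l).zip (l ++ [q.2.2]),
    R q.1 p.1 p.2 ∨ p.1 = p.2) h2).of_eq fun q => rtg_iff.symm

def P2 (S : ℕ → Prop) : Prop := ∃ R : ℕ × ℕ → Prop, REPred R ∧ ∀ x, S x ↔ ∀ y, R (x, y)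

def D (x : ℕ) : Prop := ∃ a : ℕ, ∀ s, (ev x (encode (x, a)) s).isSome = false

theorem not_p2 : ¬P2 D := by
  rintro ⟨R, h1, h2⟩
  obtain ⟨e, he⟩ := re_index h1
  have := h2 e
  simp only [he, D] at this
  by_cases h : ∀ y : ℕ, ∃ s, (ev e (encode (e, y)) s).isSome = true
  · obtain ⟨a, ha⟩ := this.2 h
    obtain ⟨s, hs⟩ := h a
    rw [ha s] at hs; cases hs
  · exact h (this.1 (by simpa using h))

theorem not_complete {F : ℕ → ℕ → Prop} (H : ∀ f, CI ∅ f → ∀ e, P2 fun x => F (f x) e) :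
    ¬Complete3 F := by
    rintro ⟨-, h⟩
    obtain ⟨d, hd⟩ : ∃ d, D d := by_contra fun k => not_p2
      ⟨fun _ => False, re_of_bool (fun _ => false) (by fun_prop) (by simp), by simpa using k⟩
    obtain ⟨f, f1, f2⟩ := h (fun x y => x = y ∨ D x ∧ D y) ⟨fun _ => Or.inl rfl,
      fun h => h.imp .symm .symm, by
        rintro x y z (rfl | h) (rfl | k)
        exacts [Or.inl rfl, Or.inr k, Or.inr h, Or.inr ⟨h.1, k.2⟩]⟩
      ⟨_, computablePred_of (fun q : (ℕ × ℕ) × ℕ × ℕ × ℕ => decide (q.1.1 = q.1.2) ||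
        (!(ev q.1.1 (encode (q.1.1, q.2.1.unpair.1)) q.2.2.1).isSome &&
        !(ev q.1.2 (encode (q.1.2, q.2.1.unpair.2)) q.2.2.1).isSome)) (by fun_prop)
        fun _ => Iff.rfl, fun x y => by
          simp only [Bool.or_eq_true, decide_eq_true_eq, Bool.and_eq_true, Bool.not_eq_true',
            exists_const]
          refine ⟨fun h => h.elim (fun h => ⟨0, fun _ => Or.inl h⟩) fun ⟨⟨a, ha⟩, b, hb⟩ =>
            ⟨Nat.pair a b, fun s => Or.inr (by rw [Nat.unpair_pair]; exact ⟨ha s, hb s⟩)⟩, fun ⟨a, ha⟩ =>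
            or_iff_not_imp_left.2 fun k => ⟨⟨_, fun s => ((ha s).resolve_left k).1⟩,
              _, fun s => ((ha s).resolve_left k).2⟩⟩⟩
    obtain ⟨R, h1, h2⟩ := H f (CI.of_comp f1) (f d)
    exact not_p2 ⟨R, h1, fun x => Iff.trans (Iff.trans
      ⟨fun h => Or.inr ⟨h, hd⟩, fun h => Or.elim h (fun k : x = d => k ▸ hd) (·.1)⟩ (f2 x d)) (h2 x)⟩


theorem smn {α β : Type} [Primcodable α] [Primcodable β] {P : α × β → Prop} (h : REPred P) :
    ∃ f : α → ℕ, CI ∅ f ∧ ∀ a b, W (f a) (encode b) ↔ P (a, b) := by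
  obtain ⟨e, he⟩ := re_index h
  refine ⟨fun a => encode ((Denumerable.ofNat Nat.Partrec.Code e).curry (encode a)), by fun_prop,
    fun a b => ?_⟩
  rw [he, ← W_iff]
  simp [W]

variable {n : ℕ} {ι : Type} [Primcodable ι]

theorem re_th {α : Type} [Primcodable α] {e : α → ℕ} {u v : α → Fin n ⊕ ι} (he : CI ∅ e)
    (hu : CI ∅ u) (hv : CI ∅ v) : REPred fun a => th n ι (e a) (u a) (v a) := by
  classical
  have h := re_rtg (R := fun (e : ℕ) (u v : Fin n ⊕ ι) => W e (encode (u, v)) ∨ W e (encode (v, u)))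
    (re_of_nat (fun q s => (ev q.1 (encode q.2) s).isSome || (ev q.1 (encode (q.2.2, q.2.1)) s).isSome)
      (by fun_prop) fun q => by simp only [W_iff, Bool.or_eq_true, exists_or])
  refine (REPred.comp' h (g := fun a => (e a, u a, v a)) (by fun_prop)).of_eq fun a => ⟨fun h => ?_,
    fun h => ?_⟩
  · simp only at h
    generalize v a = y at h
    induction h with
    | refl => exact .refl _
    | tail _ h ih => exact .trans _ _ _ ih (h.elim (fun h => .rel _ _ h) fun h => .symm _ _ (.rel _ _ h))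
  · simp only
    generalize u a = x, v a = y at h
    induction h with
    | rel _ _ h => exact .single (Or.inl h)
    | refl => exact .refl
    | symm _ _ k h =>
      clear k
      induction h with
      | refl => exact .refl
      | tail _ h ih => exact .head h.symm ih
    | trans _ _ _ _ _ h k => exact h.trans k

theorem idx {α : Type} [Primcodable α] (R : α → Setoid (Fin n ⊕ ι))
    (h : REPred fun q : α × (Fin n ⊕ ι) × (Fin n ⊕ ι) => R q.1 q.2.1 q.2.2) :
    ∃ f : α → ℕ, CI ∅ f ∧ ∀ a, th n ι (f a) = R a := by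
  obtain ⟨f, f1, f2⟩ := smn h
  refine ⟨f, f1, fun a => ?_⟩
  simp only [th, f2]
  exact Setoid.eqvGen_of_setoid (R a)

/-- number of elements that are not values of constants -/
noncomputable def cnt (r : Setoid (Fin n ⊕ ι)) : ℕ :=
  (Set.range fun c => (⟦.inr c⟧ : Quotient r))ᶜ.ncard

theorem sub (r : Setoid (Fin n ⊕ ι)) : (Set.range fun c => (⟦.inr c⟧ : Quotient r))ᶜ ⊆
    Set.range fun i => ⟦.inl i⟧ := by
  rintro ⟨i | c⟩ h
  exacts [⟨i, rfl⟩, (h ⟨c, rfl⟩).elim]

theorem ciso_iff {e i : ℕ} : CIso n ι e i ↔ (∀ c d, th n ι e (.inr c) (.inr d) ↔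
    th n ι i (.inr c) (.inr d)) ∧ cnt (th n ι e) = cnt (th n ι i) := by
  constructor
  · rintro ⟨φ, h⟩
    refine ⟨fun c d => by rw [← Quotient.eq, ← Quotient.eq, ← h, ← h, φ.apply_eq_iff_eq], ?_⟩
    rw [cnt, ← Set.ncard_image_of_injective _ φ.injective, Set.image_compl_eq φ.bijective,
      ← Set.range_comp, cnt]
    congr 3
    exact funext h
  · rintro ⟨h1, h2⟩
    classical
    have f1 := ((Set.finite_range _).subset (sub (th n ι e))).to_subtype
    have f2 := ((Set.finite_range _).subset (sub (th n ι i))).to_subtype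
    obtain ⟨e2⟩ := Finite.card_eq.1 h2
    have k : ∀ c, (⟦.inr (Classical.choose (⟨c, rfl⟩ : (⟦.inr c⟧ : Quotient (th n ι e)) ∈
        Set.range fun c => ⟦.inr c⟧))⟧ : Quotient (th n ι i)) = ⟦.inr c⟧ := fun c =>
      Quotient.sound ((h1 _ _).1 (Quotient.exact (Classical.choose_spec (⟨c, rfl⟩ :
        (⟦.inr c⟧ : Quotient (th n ι e)) ∈ Set.range fun c => ⟦.inr c⟧))))
    let e1 : (Set.range fun c => (⟦.inr c⟧ : Quotient (th n ι e))) ≃
        Set.range fun c => (⟦.inr c⟧ : Quotient (th n ι i)) :=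
      Equiv.ofBijective (fun x => ⟨⟦.inr (Classical.choose x.2)⟧, _, rfl⟩) ⟨by
        rintro ⟨_, c, rfl⟩ ⟨_, d, rfl⟩ h
        have := congrArg Subtype.val h
        simp only [k] at this
        exact Subtype.ext (Quotient.sound ((h1 _ _).2 (Quotient.exact this))), by
        rintro ⟨_, c, rfl⟩
        exact ⟨⟨_, c, rfl⟩, Subtype.ext (k c)⟩⟩
    refine ⟨(Equiv.Set.sumCompl _).symm.trans ((e1.sumCongr e2).trans (Equiv.Set.sumCompl _)),
      fun c => ?_⟩
    rw [Equiv.trans_apply, Equiv.Set.sumCompl_symm_apply_of_mem (Set.mem_range_self c)]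
    exact k c

theorem cnt_le (r : Setoid (Fin n ⊕ ι)) : cnt r ≤ n := by
  refine (Set.ncard_le_ncard (sub r) (Set.finite_range _)).trans ?_
  rw [← Set.image_univ]
  simpa using Set.ncard_image_le (s := (Set.univ : Set (Fin n)))

theorem re_cnt {α : Type} [Primcodable α] {e m : α → ℕ} (he : CI ∅ e) (hm : CI ∅ m) :
    REPred fun a => cnt (th n ι (e a)) ≤ m a := by
  have h1 : REPred fun q : (α × List (Fin n)) × Fin n => (∃ c, th n ι (e q.1.1) (.inl q.2) (.inr c)) ∨
      ∃ j, j ∈ q.1.2 ∧ th n ι (e q.1.1) (.inl q.2) (.inl j) :=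
    re_or (re_exists (re_th (by fun_prop) (by fun_prop) (by fun_prop))) (re_exists (re_and
      (re_of_bool (fun q => decide (q.2 ∈ q.1.1.2)) (by fun_prop) (by simp))
      (re_th (by fun_prop) (by fun_prop) (by fun_prop))))
  have h2 := re_forall_mem (p := fun (q : α × List (Fin n)) (i : Fin n) =>
    (∃ c, th n ι (e q.1) (.inl i) (.inr c)) ∨ ∃ j, j ∈ q.2 ∧ th n ι (e q.1) (.inl i) (.inl j)) h1
    (l := fun _ => List.finRange n) (by fun_prop)
  refine (re_exists (p := fun a (l : List (Fin n)) => l.length ≤ m a ∧ ∀ i ∈ List.finRange n,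
    (∃ c, th n ι (e a) (.inl i) (.inr c)) ∨ ∃ j, j ∈ l ∧ th n ι (e a) (.inl i) (.inl j))
    (re_and (re_of_bool (fun q => decide (q.2.length ≤ m q.1)) (by fun_prop) (by simp)) h2)).of_eq
    fun a => ⟨fun ⟨l, h1, h2⟩ => ?_, fun h => ?_⟩
  · refine (Set.ncard_le_ncard (t := (fun j => ⟦.inl j⟧) '' l.toFinset) (fun x hx => ?_)
      (Set.toFinite _)).trans ((Set.ncard_image_le (Set.toFinite _)).trans ?_)
    · obtain ⟨i, rfl⟩ := sub _ hx
      obtain ⟨j, j1, j2⟩ := (h2 i (List.mem_finRange i)).resolve_left fun ⟨c, hc⟩ =>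
        hx ⟨c, (Quotient.sound hc).symm⟩
      exact ⟨j, by simpa using j1, (Quotient.sound j2).symm⟩
    · rw [Set.ncard_coe_finset]; exact (List.toFinset_card_le _).trans h1
  · have f := (Set.finite_range _).subset (sub (th n ι (e a)))
    choose g hg using sub (th n ι (e a))
    refine ⟨f.toFinset.attach.toList.map fun x => g (f.mem_toFinset.1 x.2), by
      simpa [cnt, Set.ncard_eq_toFinset_card _ f] using h, fun i _ => or_iff_not_imp_left.2
      fun k => ?_⟩
    have : (⟦.inl i⟧ : Quotient (th n ι (e a))) ∈ (Set.range fun c => ⟦.inr c⟧)ᶜ :=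
      fun ⟨c, hc⟩ => k ⟨c, Quotient.exact hc.symm⟩
    exact ⟨g this, List.mem_map.2 ⟨⟨_, f.mem_toFinset.2 this⟩, by simp, rfl⟩,
      Quotient.exact (hg this).symm⟩

end Pool.Agent.H66.Acc
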