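import Pool.Agent.H66.CfWp

set_option autoImplicit false

namespace Pool.Agent.H66.CfUn

open Pool.Agent.H66.CfWp

abbrev tb (a : Bool) : Symbol Bool NT := Symbol.terminal a

abbrev nb (k : ℕ) (d : ℤ) : Symbol Bool NT := Symbol.nonterminal (k, d)

def mk (k : ℕ) (d : ℤ) (y z : Bool) : ContextFreeRule Bool NT :=
  match k with
  | 0 => ⟨(0, 0), [nb 1 (4 * bv y - 2)]⟩
  | 1 => ⟨(1, 0), []⟩
  | 2 => ⟨(1, d + bv y + bv z - 1), [tb false, nb 1 d, tb y, tb z]⟩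
  | _ => ⟨(1, d + bv y), [tb true, nb 1 d, tb y]⟩

theorem fin_mk : {r | ∃ k d y z, k ≤ 3 ∧ |d| ≤ 1 ∧ r = mk k d y z}.Finite := by
  refine (((Set.finite_Iic 3).prod ((Set.finite_Icc (-1 : ℤ) 1).prod
    (Set.finite_univ (α := Bool × Bool)))).image
      fun x => mk x.1 x.2.1 x.2.2.1 x.2.2.2).subset ?_
  rintro _ ⟨k, d, y, z, h1, h2, rfl⟩
  exact ⟨(k, d, y, z), ⟨h1, abs_le.1 h2, trivial⟩, rfl⟩

noncomputable def H : ContextFreeGrammar Bool := ⟨NT, (0, 0), fin_mk.toFinset⟩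

def LL (n : NT) (w : List Bool) : Prop :=
  match n.1 with
  | 0 => ∃ d, |d| = 2 ∧ Nw d w
  | _ => Nw n.2 w

theorem H_sound : ∀ w ∈ H.language, ∃ d, |d| = 2 ∧ Nw d w := by
  refine sound H LL fun r hr w hw => ?_
  obtain ⟨k, d, y, z, h1, h2, rfl⟩ := fin_mk.mem_toFinset.1 hr
  have hb : |4 * bv y - 2| = 2 := by cases y <;> simp [bv]
  interval_cases k
  · obtain ⟨u, _, rfl, hu, rfl⟩ := hw
    exact ⟨_, hb, by rw [List.append_nil]; exact hu⟩
  · obtain rfl : w = [] := hw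
    exact Nw.base
  · obtain ⟨_, rfl, u, _, rfl, hu, _, rfl, _, rfl, rfl⟩ := hw
    exact Nw.f y z hu h2
  · obtain ⟨_, rfl, u, _, rfl, hu, _, rfl, rfl⟩ := hw
    exact Nw.t y hu h2

theorem use' (k : ℕ) (d : ℤ) (y z : Bool) (h1 : k ≤ 3) (h2 : |d| ≤ 1) (w : List Bool)
    (h : I (D H) (mk k d y z).output w) : D H (mk k d y z).input w :=
  complete H _ (fin_mk.mem_toFinset.2 ⟨k, d, y, z, h1, h2, rfl⟩) w h

theorem D_N' {d : ℤ} {u : List Bool} (h : Nw d u) : D H (1, d) u := by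
  induction h with
  | base => exact use' 1 0 true true (by omega) (by simp) _ rfl
  | f y1 y2 _ h2 ih =>
    exact use' 2 _ y1 y2 (by omega) h2 _ ⟨_, rfl, _, _, rfl, ih, _, rfl, _, rfl, rfl⟩
  | t y _ h2 ih =>
    exact use' 3 _ y y (by omega) h2 _ ⟨_, rfl, _, _, rfl, ih, _, rfl, rfl⟩

theorem H_complete {d : ℤ} {u : List Bool} (hd : |d| = 2) (h : Nw d u) : u ∈ H.language := by
  obtain ⟨y, rfl⟩ : ∃ y, d = 4 * bv y - 2 := by
    rcases abs_eq (by norm_num : (0 : ℤ) ≤ 2) |>.1 hd with rfl | rfl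
    · exact ⟨true, by simp [bv]⟩
    · exact ⟨false, by simp [bv]⟩
  exact use' 0 0 y y (by omega) (by simp) _ ⟨u, [], by simp, D_N' h, rfl⟩

theorem iff_InI (w : List Bool) : (∃ v ∈ H.language, v <:+: w) ↔ InI w := by
  constructor
  · rintro ⟨v, hv, a, b, rfl⟩
    obtain ⟨d, h1, h2⟩ := H_sound v hv
    exact ⟨a, v, b, d, rfl, h1, h2⟩
  · rintro ⟨a, m, b, d, rfl, h1, h2⟩
    exact ⟨m, H_complete h1 h2, a, b, rfl⟩

theorem main : ¬ (∀ (α : Type) [Fintype α] (L : Language α),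
      L.IsContextFree →
      (∀ v ∈ L, v ≠ []) →
      ({u : List α | ¬ ∃ v ∈ L, v <:+: u}.Finite ↔
        ∀ w : List α, w ≠ [] →
          ∃ n : ℕ, ∃ v ∈ L, v <:+: (List.replicate n w).flatten)) := by
  intro h
  have h1 := (h Bool H.language ⟨H, rfl⟩ fun v hv =>
    ((iff_InI v).1 ⟨v, hv, List.infix_refl v⟩).ne_nil).2 fun w hw => by
      obtain ⟨n, hn⟩ := exists_pow w hw
      exact ⟨n, (iff_InI _).2 hn⟩
  refine Set.infinite_of_injective_forall_mem (f := fun n : ℕ => (List.range' 0 n).map st)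
    (fun m n e => by simpa using congrArg List.length e) (fun n => ?_) h1
  exact fun hn => not_InI n ((iff_InI _).1 hn)

end Pool.Agent.H66.CfUn
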