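import Mathlib

set_option autoImplicit false

namespace Pool.Agent.H66.CfWp

section grammar
variable {S N : Type}

def I (L : N → List S → Prop) : List (Symbol S N) → List S → Prop
  | [], u => u = []
  | .terminal t :: l, u => ∃ u', u = t :: u' ∧ I L l u'
  | .nonterminal k :: l, u => ∃ u1 u2, u = u1 ++ u2 ∧ L k u1 ∧ I L l u2

theorem I_append (L : N → List S → Prop) (l1 l2 : List (Symbol S N)) (u : List S) :
    I L (l1 ++ l2) u ↔ ∃ u1 u2, u = u1 ++ u2 ∧ I L l1 u1 ∧ I L l2 u2 := by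
  induction l1 generalizing u with
  | nil => simp [I]
  | cons a l ih =>
    cases a with
    | terminal t =>
      simp only [List.cons_append, I, ih]
      constructor
      · rintro ⟨_, rfl, u1, u2, rfl, h1, h2⟩
        exact ⟨t :: u1, u2, rfl, ⟨u1, rfl, h1⟩, h2⟩
      · rintro ⟨_, u2, rfl, ⟨u1, rfl, h1⟩, h2⟩
        exact ⟨u1 ++ u2, rfl, u1, u2, rfl, h1, h2⟩
    | nonterminal k =>
      simp only [List.cons_append, I, ih]
      constructor
      · rintro ⟨w, _, rfl, hw, u1, u2, rfl, h1, h2⟩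
        exact ⟨w ++ u1, u2, by simp, ⟨w, u1, rfl, hw, h1⟩, h2⟩
      · rintro ⟨_, u2, rfl, ⟨w, u1, rfl, hw, h1⟩, h2⟩
        exact ⟨w, u1 ++ u2, by simp, hw, u1, u2, rfl, h1, h2⟩

theorem I_term (L : N → List S → Prop) (w u : List S) :
    I L (w.map Symbol.terminal) u ↔ u = w := by
  induction w generalizing u with
  | nil => simp [I]
  | cons a w ih => simp [I, ih]

theorem sound (g : ContextFreeGrammar S) (L : g.NT → List S → Prop)
    (h : ∀ r ∈ g.rules, ∀ u, I L r.output u → L r.input u) :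
    ∀ w ∈ g.language, L g.initial w := by
  have key : ∀ l l', g.Derives l l' → ∀ u, I L l' u → I L l u := by
    intro l l' hd
    induction hd with
    | refl => exact fun _ h => h
    | tail _ hp ih =>
      intro u hu
      apply ih
      obtain ⟨r, hr, hrw⟩ := hp
      obtain ⟨p, q, rfl, rfl⟩ := hrw.exists_parts
      obtain ⟨_, u3, rfl, h12, h3⟩ := (I_append _ _ _ _).1 hu
      obtain ⟨u1, u2, rfl, h1, h2⟩ := (I_append _ _ _ _).1 h12
      refine (I_append _ _ _ _).2 ⟨_, u3, rfl, (I_append _ _ _ _).2 ⟨u1, u2, rfl, h1, ?_⟩, h3⟩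
      exact ⟨u2, [], by simp, h r hr u2 h2, rfl⟩
  intro w hw
  obtain ⟨u1, u2, rfl, h1, h2⟩ := key _ _ hw w ((I_term _ _ _).2 rfl)
  cases h2
  simpa using h1

def D (g : ContextFreeGrammar S) (k : g.NT) (u : List S) : Prop :=
  g.Derives [Symbol.nonterminal k] (u.map Symbol.terminal)

theorem complete (g : ContextFreeGrammar S) :
    ∀ r ∈ g.rules, ∀ u, I (D g) r.output u → D g r.input u := by
  have key : ∀ l u, I (D g) l u → g.Derives l (u.map Symbol.terminal) := by
    intro l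
    induction l with
    | nil => rintro _ rfl; exact Relation.ReflTransGen.refl
    | cons a l ih =>
      cases a with
      | terminal t =>
        rintro _ ⟨u, rfl, hu⟩
        exact (ih u hu).append_left [Symbol.terminal t]
      | nonterminal k =>
        rintro _ ⟨u1, u2, rfl, h1, h2⟩
        rw [List.map_append]
        exact (ContextFreeGrammar.Derives.append_right h1 l).trans ((ih u2 h2).append_left _)
  intro r hr u hu
  exact Relation.ReflTransGen.head ⟨r, hr, ContextFreeRule.Rewrites.input_output⟩ (key _ _ hu)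

end grammar

def bv (y : Bool) : ℤ := if y then 1 else 0

inductive Nw : ℤ → List Bool → Prop
  | base : Nw 0 []
  | f {d : ℤ} {w : List Bool} (y1 y2 : Bool) : Nw d w → |d| ≤ 1 →
      Nw (d + bv y1 + bv y2 - 1) (false :: w ++ [y1, y2])
  | t {d : ℤ} {w : List Bool} (y : Bool) : Nw d w → |d| ≤ 1 → Nw (d + bv y) (true :: w ++ [y])

def InI (w : List Bool) : Prop := ∃ a m b d, w = a ++ m ++ b ∧ |d| = 2 ∧ Nw d m

theorem InI.left {w : List Bool} (h : InI w) (x : List Bool) : InI (x ++ w) := by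
  obtain ⟨a, m, b, d, rfl, h⟩ := h
  exact ⟨x ++ a, m, b, d, by simp, h⟩

theorem InI.right {w : List Bool} (h : InI w) (x : List Bool) : InI (w ++ x) := by
  obtain ⟨a, m, b, d, rfl, h⟩ := h
  exact ⟨a, m, b ++ x, d, by simp, h⟩

theorem InI.ne_nil {w : List Bool} (h : InI w) : w ≠ [] := by
  obtain ⟨a, m, b, d, rfl, h1, h2⟩ := h
  cases h2 <;> simp at h1 ⊢

theorem Nw.le {d : ℤ} {w : List Bool} (h : Nw d w) : |d| ≤ 2 := by
  cases h with
  | base => simp
  | f y1 y2 _ h => rw [abs_le] at h ⊢; cases y1 <;> cases y2 <;> simp [bv] <;> omega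
  | t y _ h => rw [abs_le] at h ⊢; cases y <;> simp [bv] <;> omega

noncomputable def al : ℝ := (3 - √5) / 2

theorem al_sq : al ^ 2 = 3 * al - 1 := by
  have := Real.sq_sqrt (show (0 : ℝ) ≤ 5 by norm_num)
  rw [al]; linarith

theorem al_pos : 0 < al := by
  have : √5 < 3 := (Real.sqrt_lt' (by norm_num)).2 (by norm_num)
  rw [al]; linarith

theorem al_lt : al < 1 := by
  have : 1 < √5 := Real.lt_sqrt_of_sq_lt (by norm_num)
  rw [al]; linarith

noncomputable def E (w : List Bool) : ℝ := (w.map fun y => (bv y : ℝ) - al).sum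

@[simp] theorem E_nil : E [] = 0 := rfl

@[simp] theorem E_cons (y : Bool) (w : List Bool) : E (y :: w) = bv y - al + E w := by simp [E]

@[simp] theorem E_append (u v : List Bool) : E (u ++ v) = E u + E v := by simp [E]

theorem Nw.split {d : ℤ} {w : List Bool} (h : Nw d w) :
    ∃ u v, w = u ++ v ∧ (d : ℝ) = E v + (1 - al) * E u := by
  induction h with
  | base => exact ⟨[], [], rfl, by simp⟩
  | f y1 y2 _ _ ih =>
    obtain ⟨u, v, rfl, h⟩ := ih
    refine ⟨false :: u, v ++ [y1, y2], by simp, ?_⟩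
    simp [h, bv]
    linear_combination -al_sq
  | t y _ _ ih =>
    obtain ⟨u, v, rfl, h⟩ := ih
    refine ⟨true :: u, v ++ [y], by simp, ?_⟩
    simp [h, bv]
    linear_combination -al_sq

theorem exists_run (u : List Bool) : ∀ v : List Bool, 2 * u.length ≤ v.length →
    ∃ (d : ℤ) (v1 v2 : List Bool), v = v1 ++ v2 ∧ v1.length ≤ 2 * u.length ∧
      (d : ℝ) = E v1 + (1 - al) * E u ∧ (Nw d (u ++ v1) ∨ InI (u ++ v1)) := by
  induction u with
  | nil => exact fun v _ => ⟨0, [], v, rfl, by simp, by simp, Or.inl Nw.base⟩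
  | cons x u ih =>
    intro v hv
    rw [List.length_cons] at hv
    obtain ⟨d, v1, v2, rfl, h1, h2, h3⟩ := ih v (by omega)
    have h4 : |d| ≤ 1 ∧ Nw d (u ++ v1) ∨ InI (u ++ v1) := by
      rcases h3 with h3 | h3
      · by_cases h : |d| ≤ 1
        · exact Or.inl ⟨h, h3⟩
        · exact Or.inr ⟨[], _, [], d, by simp, by have := h3.le; omega, h3⟩
      · exact Or.inr h3
    rw [List.length_append] at hv
    obtain ⟨y1, y2, v3, rfl⟩ : ∃ y1 y2 v3, v2 = y1 :: y2 :: v3 := by
      rcases v2 with _ | ⟨y1, _ | ⟨y2, v3⟩⟩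
      · simp at hv; omega
      · simp at hv; omega
      · exact ⟨_, _, _, rfl⟩
    cases x with
    | false =>
      refine ⟨d + bv y1 + bv y2 - 1, v1 ++ [y1, y2], v3, by simp, by simp; omega, ?_, ?_⟩
      · simp [h2, bv]
        linear_combination -al_sq
      · rcases h4 with h4 | h4
        · exact Or.inl (by simpa using Nw.f y1 y2 h4.2 h4.1)
        · exact Or.inr (by simpa using (h4.left [false]).right [y1, y2])
    | true =>
      refine ⟨d + bv y1, v1 ++ [y1], y2 :: v3, by simp, by simp; omega, ?_, ?_⟩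
      · simp [h2, bv]
        linear_combination -al_sq
      · rcases h4 with h4 | h4
        · exact Or.inl (by simpa using Nw.t y1 h4.2 h4.1)
        · exact Or.inr (by simpa using (h4.left [true]).right [y1])

def pw (p : List Bool) (n : ℕ) : List Bool := (List.replicate n p).flatten

theorem pw_add (p : List Bool) (m n : ℕ) : pw p (m + n) = pw p m ++ pw p n := by
  rw [pw, pw, pw, List.replicate_add, List.flatten_append]

theorem pw_succ (p : List Bool) (n : ℕ) : pw p (n + 1) = p ++ pw p n := by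
  simp [pw, List.replicate_succ]

theorem E_pw (p : List Bool) (n : ℕ) : E (pw p n) = n * E p := by
  induction n with
  | zero => simp [pw]
  | succ n ih => rw [pw_succ, E_append, ih]; push_cast; ring

theorem length_pw (p : List Bool) (n : ℕ) : (pw p n).length = n * p.length := by simp [pw]

theorem abs_E (w : List Bool) : |E w| ≤ w.length := by
  induction w with
  | nil => simp
  | cons y w ih =>
    have := al_pos
    have := al_lt
    rw [abs_le] at ih ⊢
    cases y <;> simp [bv] <;> constructor <;> linarith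

theorem pre_E (p : List Bool) (n : ℕ) : ∀ v1 v2, pw p n = v1 ++ v2 →
    ∃ (k : ℕ) (r : ℝ), E v1 = k * E p + r ∧ |r| ≤ p.length := by
  induction n with
  | zero =>
    intro v1 v2 h
    have : v1 = [] := (List.append_eq_nil_iff.1 h.symm).1
    exact ⟨0, 0, by simp [this], by simp⟩
  | succ n ih =>
    intro v1 v2 h
    rw [pw_succ, List.append_eq_append_iff] at h
    rcases h with ⟨a, rfl, h⟩ | ⟨c, rfl, -⟩
    · obtain ⟨k, r, h1, h2⟩ := ih _ _ h
      exact ⟨k + 1, r, by rw [E_append, h1]; push_cast; ring, h2⟩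
    · exact ⟨0, E v1, by simp, (abs_E v1).trans (by simp)⟩

theorem E_ne (p : List Bool) (hp : p ≠ []) : E p ≠ 0 := by
  have h1 : ∀ w : List Bool, ∃ c : ℤ, E w = c - w.length * al := by
    intro w
    induction w with
    | nil => exact ⟨0, by simp⟩
    | cons y w ih =>
      obtain ⟨c, hc⟩ := ih
      exact ⟨bv y + c, by simp [hc]; ring⟩
  obtain ⟨c, hc⟩ := h1 p
  have h2 : Irrational al := by
    have : Irrational √5 := by simpa using Nat.Prime.irrational_sqrt (p := 5) (by norm_num)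
    simpa [al] using (this.natCast_sub 3).div_natCast (m := 2) (by norm_num)
  intro h
  exact (h2.natCast_mul (m := p.length) (by simpa using hp)).ne_int c (by linarith)

theorem exists_pow (p : List Bool) (hp : p ≠ []) : ∃ n, InI (pw p n) := by
  have h0 : 0 < (1 - al) * |E p| := mul_pos (by linarith [al_lt]) (abs_pos.2 (E_ne p hp))
  obtain ⟨n, hn⟩ := exists_nat_gt ((p.length + 2) / ((1 - al) * |E p|))
  rw [div_lt_iff₀ h0] at hn
  obtain ⟨d, v1, v2, e, -, h2, h3⟩ := exists_run (pw p n) (pw p (2 * n))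
    (by simp [length_pw, mul_assoc])
  refine ⟨n + 2 * n, ?_⟩
  rw [pw_add, e, ← List.append_assoc]
  refine InI.right (h3.resolve_left fun h => ?_) _
  obtain ⟨k, r, h4, h5⟩ := pre_E p _ _ _ e
  have h6 : |(d : ℝ)| ≤ 2 := by exact_mod_cast h.le
  rw [h2, h4, E_pw] at h6
  have h7 : |(k + (1 - al) * n) * E p| ≤ 2 + p.length := by
    rw [abs_le] at h5 h6 ⊢
    constructor <;> linarith
  have h8 : 0 ≤ (1 - al) * n := mul_nonneg (by linarith [al_lt]) (by positivity)
  rw [abs_mul, abs_of_nonneg (by positivity)] at h7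
  have : 0 ≤ (k : ℝ) * |E p| := by positivity
  nlinarith

noncomputable def st (n : ℕ) : Bool := decide (⌊(n + 1) * al⌋ = ⌊n * al⌋ + 1)

theorem bv_st (n : ℕ) : bv (st n) = ⌊(n + 1) * al⌋ - ⌊n * al⌋ := by
  have h1 : ⌊n * al⌋ ≤ ⌊(n + 1) * al⌋ := Int.floor_mono (by linarith [al_pos])
  have h2 : ⌊(n + 1) * al⌋ ≤ ⌊n * al⌋ + 1 := by
    rw [← Int.floor_add_one]
    exact Int.floor_mono (by linarith [al_lt])
  simp only [bv, st, decide_eq_true_eq]
  split_ifs <;> omega

theorem E_st (k : ℕ) : ∀ i, E ((List.range' i k).map st) =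
    Int.fract (i * al) - Int.fract ((i + k : ℕ) * al) := by
  induction k with
  | zero => simp
  | succ k ih =>
    intro i
    rw [List.range'_succ, List.map_cons, E_cons, ih, bv_st, show i + 1 + k = i + (k + 1) by ring]
    simp only [Int.fract]
    push_cast
    ring

theorem abs_E_st {a u b : List Bool} {n : ℕ} (h : (List.range' 0 n).map st = a ++ u ++ b) :
    |E u| < 1 := by
  obtain ⟨l1, l3, h1, h2, -⟩ := List.map_eq_append_iff.1 h
  obtain ⟨l1, l2, rfl, -, rfl⟩ := List.map_eq_append_iff.1 h2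
  obtain ⟨k, -, h3, -⟩ := List.range'_eq_append_iff.1 h1
  obtain ⟨j, -, -, rfl⟩ := List.range'_eq_append_iff.1 h3.symm
  rw [E_st, abs_lt]
  constructor <;> linarith [Int.fract_nonneg (((0 + j * 1 : ℕ) : ℝ) * al),
    Int.fract_lt_one (((0 + j * 1 : ℕ) : ℝ) * al),
    Int.fract_nonneg (((0 + j * 1 + (k - j) : ℕ) : ℝ) * al),
    Int.fract_lt_one (((0 + j * 1 + (k - j) : ℕ) : ℝ) * al)]

theorem not_InI (n : ℕ) : ¬ InI ((List.range' 0 n).map st) := by
  rintro ⟨a, m, b, d, e, h1, h2⟩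
  obtain ⟨u, v, rfl, h3⟩ := h2.split
  have a1 := abs_E_st (a := a) (u := u) (b := v ++ b) (by simpa using e)
  have a2 := abs_E_st (a := a ++ u) (u := v) (b := b) (by simpa using e)
  have a3 : |(d : ℝ)| = 2 := by exact_mod_cast h1
  have a4 : |(1 - al) * E u| ≤ 1 := by
    rw [abs_mul, abs_of_nonneg (by linarith [al_lt])]
    have := al_pos
    have := abs_nonneg (E u)
    nlinarith
  have := abs_add_le (E v) ((1 - al) * E u)
  rw [← h3] at this
  linarith

abbrev NT : Type := ℕ × ℤ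

abbrev tm (a : Option Bool) : Symbol (Option Bool) NT := Symbol.terminal a

abbrev nt (k : ℕ) (d : ℤ) : Symbol (Option Bool) NT := Symbol.nonterminal (k, d)

def mkRule (k : ℕ) (d : ℤ) (y z : Bool) : ContextFreeRule (Option Bool) NT :=
  match k with
  | 0 => ⟨(0, 0), [nt 1 0]⟩
  | 1 => ⟨(0, 0), [nt 3 0, tm none, nt 4 0]⟩
  | 2 => ⟨(1, 0), [tm (some y), tm none, tm (some y)]⟩
  | 3 => ⟨(1, 0), [tm (some y), nt 1 0, tm (some y)]⟩
  | 4 => ⟨(2, 0), []⟩
  | 5 => ⟨(2, 0), [tm (some y), nt 2 0]⟩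
  | 6 => ⟨(3, 0), [nt 2 0, nt 5 (4 * bv y - 2), nt 2 0]⟩
  | 7 => ⟨(4, 0), [nt 2 0, nt 6 (4 * bv y - 2), nt 2 0]⟩
  | 8 => ⟨(5, 0), []⟩
  | 9 => ⟨(6, 0), []⟩
  | 10 => ⟨(5, d + bv y + bv z - 1), [tm (some false), nt 5 d, tm (some y), tm (some z)]⟩
  | 11 => ⟨(5, d + bv y), [tm (some true), nt 5 d, tm (some y)]⟩
  | 12 => ⟨(6, d + bv y + bv z - 1), [tm (some z), tm (some y), nt 6 d, tm (some false)]⟩
  | _ => ⟨(6, d + bv y), [tm (some y), nt 6 d, tm (some true)]⟩

theorem fin_rules : {r | ∃ k d y z, k ≤ 13 ∧ |d| ≤ 1 ∧ r = mkRule k d y z}.Finite := by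
  refine (((Set.finite_Iic 13).prod ((Set.finite_Icc (-1 : ℤ) 1).prod
    (Set.finite_univ (α := Bool × Bool)))).image
      fun x => mkRule x.1 x.2.1 x.2.2.1 x.2.2.2).subset ?_
  rintro _ ⟨k, d, y, z, h1, h2, rfl⟩
  exact ⟨(k, d, y, z), ⟨h1, abs_le.1 h2, trivial⟩, rfl⟩

noncomputable def G : ContextFreeGrammar (Option Bool) := ⟨NT, (0, 0), fin_rules.toFinset⟩

def WP (w : List (Option Bool)) : Prop :=
  ∃ u v : List Bool, u ≠ [] ∧ v ≠ [] ∧ (u = v ∨ InI u ∧ InI v) ∧
    w = u.map some ++ [none] ++ v.reverse.map some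

def L (n : NT) (w : List (Option Bool)) : Prop :=
  match n.1 with
  | 0 => WP w
  | 1 => ∃ u : List Bool, u ≠ [] ∧ w = u.map some ++ [none] ++ u.reverse.map some
  | 2 => ∃ u : List Bool, w = u.map some
  | 3 => ∃ u : List Bool, InI u ∧ w = u.map some
  | 4 => ∃ u : List Bool, InI u ∧ w = u.reverse.map some
  | 5 => ∃ u : List Bool, Nw n.2 u ∧ w = u.map some
  | _ => ∃ u : List Bool, Nw n.2 u ∧ w = u.reverse.map some

theorem G_sound : ∀ w ∈ G.language, WP w := by
  refine sound G L fun r hr w hw => ?_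
  obtain ⟨k, d, y, z, h1, h2, rfl⟩ := fin_rules.mem_toFinset.1 hr
  have hb : |4 * bv y - 2| = 2 := by cases y <;> simp [bv]
  interval_cases k
  · obtain ⟨_, _, rfl, ⟨u, hu, rfl⟩, rfl⟩ := hw
    exact ⟨u, u, hu, hu, Or.inl rfl, by simp⟩
  · obtain ⟨_, _, rfl, ⟨u, hu, rfl⟩, _, rfl, _, _, rfl, ⟨v, hv, rfl⟩, rfl⟩ := hw
    exact ⟨u, v, hu.ne_nil, hv.ne_nil, Or.inr ⟨hu, hv⟩, by simp⟩
  · obtain ⟨_, rfl, _, rfl, _, rfl, rfl⟩ := hw
    exact ⟨[y], by simp, by simp⟩
  · obtain ⟨_, rfl, _, _, rfl, ⟨u, hu, rfl⟩, _, rfl, rfl⟩ := hw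
    exact ⟨y :: u, by simp, by simp⟩
  · exact ⟨[], hw⟩
  · obtain ⟨_, rfl, _, _, rfl, ⟨u, rfl⟩, rfl⟩ := hw
    exact ⟨y :: u, by simp⟩
  · obtain ⟨_, _, rfl, ⟨a, rfl⟩, _, _, rfl, ⟨m, hm, rfl⟩, _, _, rfl, ⟨b, rfl⟩, rfl⟩ := hw
    exact ⟨a ++ m ++ b, ⟨a, m, b, _, rfl, hb, hm⟩, by simp⟩
  · obtain ⟨_, _, rfl, ⟨a, rfl⟩, _, _, rfl, ⟨m, hm, rfl⟩, _, _, rfl, ⟨b, rfl⟩, rfl⟩ := hw
    exact ⟨b.reverse ++ m ++ a.reverse, ⟨_, m, _, _, rfl, hb, hm⟩, by simp⟩
  · exact ⟨[], Nw.base, hw⟩
  · exact ⟨[], Nw.base, hw⟩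
  · obtain ⟨_, rfl, _, _, rfl, ⟨u, hu, rfl⟩, _, rfl, _, rfl, rfl⟩ := hw
    exact ⟨_, hu.f y z h2, by simp⟩
  · obtain ⟨_, rfl, _, _, rfl, ⟨u, hu, rfl⟩, _, rfl, rfl⟩ := hw
    exact ⟨_, hu.t y h2, by simp⟩
  · obtain ⟨_, rfl, _, rfl, _, _, rfl, ⟨u, hu, rfl⟩, _, rfl, rfl⟩ := hw
    exact ⟨_, hu.f y z h2, by simp⟩
  · obtain ⟨_, rfl, _, _, rfl, ⟨u, hu, rfl⟩, _, rfl, rfl⟩ := hw
    exact ⟨_, hu.t y h2, by simp⟩

theorem use (k : ℕ) (d : ℤ) (y z : Bool) (h1 : k ≤ 13) (h2 : |d| ≤ 1) (w : List (Option Bool))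
    (h : I (D G) (mkRule k d y z).output w) : D G (mkRule k d y z).input w :=
  complete G _ (fin_rules.mem_toFinset.2 ⟨k, d, y, z, h1, h2, rfl⟩) w h

theorem D_W (u : List Bool) : D G (2, 0) (u.map some) := by
  induction u with
  | nil => exact use 4 0 true true (by omega) (by simp) _ rfl
  | cons y u ih => exact use 5 0 y true (by omega) (by simp) _ ⟨_, rfl, _, [], by simp, ih, rfl⟩

theorem D_N {d : ℤ} {u : List Bool} (h : Nw d u) :
    D G (5, d) (u.map some) ∧ D G (6, d) (u.reverse.map some) := by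
  induction h with
  | base => exact ⟨use 8 0 true true (by omega) (by simp) _ rfl,
      use 9 0 true true (by omega) (by simp) _ rfl⟩
  | @f d w y z _ h ih =>
    exact ⟨use 10 d y z (by omega) h _ ⟨w.map some ++ [some y, some z], by simp, _, _, rfl, ih.1,
        _, rfl, _, rfl, rfl⟩,
      use 12 d y z (by omega) h _ ⟨some y :: (w.reverse.map some ++ [some false]), by simp, _, rfl,
        _, _, rfl, ih.2, _, rfl, rfl⟩⟩
  | @t d w y _ h ih =>
    exact ⟨use 11 d y y (by omega) h _ ⟨w.map some ++ [some y], by simp, _, _, rfl, ih.1,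
        _, rfl, rfl⟩,
      use 13 d y y (by omega) h _ ⟨w.reverse.map some ++ [some true], by simp, _, _, rfl, ih.2,
        _, rfl, rfl⟩⟩

theorem D_J {u : List Bool} (h : InI u) :
    D G (3, 0) (u.map some) ∧ D G (4, 0) (u.reverse.map some) := by
  obtain ⟨a, m, b, d, rfl, h1, h2⟩ := h
  obtain ⟨y, rfl⟩ : ∃ y, d = 4 * bv y - 2 := by
    rcases abs_eq (by norm_num) |>.1 h1 with rfl | rfl
    · exact ⟨true, by simp [bv]⟩
    · exact ⟨false, by simp [bv]⟩
  exact ⟨use 6 0 y y (by omega) (by simp) _ ⟨_, m.map some ++ b.map some, by simp, D_W a, _, _, rfl,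
      (D_N h2).1, _, [], by simp, D_W b, rfl⟩,
    use 7 0 y y (by omega) (by simp) _ ⟨_, m.reverse.map some ++ a.reverse.map some, by simp,
      D_W b.reverse, _, _, rfl, (D_N h2).2, _, [], by simp, D_W a.reverse, rfl⟩⟩

theorem D_P (u : List Bool) (hu : u ≠ []) :
    D G (1, 0) (u.map some ++ [none] ++ u.reverse.map some) := by
  induction u with
  | nil => exact absurd rfl hu
  | cons y u ih =>
    by_cases h : u = []
    · subst h
      exact use 2 0 y y (by omega) (by simp) _ ⟨_, rfl, _, rfl, _, rfl, rfl⟩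
    · exact use 3 0 y y (by omega) (by simp) _
        ⟨u.map some ++ [none] ++ u.reverse.map some ++ [some y], by simp, _, _, rfl, ih h, _, rfl,
          rfl⟩

theorem G_complete (w : List (Option Bool)) (h : WP w) : w ∈ G.language := by
  obtain ⟨u, v, hu, -, rfl | ⟨h1, h2⟩, rfl⟩ := h
  · exact use 0 0 true true (by omega) (by simp) _ ⟨_, [], by simp, D_P u hu, rfl⟩
  · exact use 1 0 true true (by omega) (by simp) _ ⟨_, none :: v.reverse.map some, by simp,
      (D_J h1).1, _, rfl, _, [], by simp, (D_J h2).2, rfl⟩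

def tl (w : FreeSemigroup Bool) : List Bool := w.head :: w.tail

theorem tl_mul (a b : FreeSemigroup Bool) : tl (a * b) = tl a ++ tl b := rfl

theorem tl_inj : Function.Injective tl := fun a b h => by
  simp only [tl, List.cons.injEq] at h
  exact FreeSemigroup.ext h.1 h.2

theorem tl_surj (u : List Bool) (hu : u ≠ []) : ∃ w, tl w = u := by
  obtain ⟨a, l, rfl⟩ := List.exists_cons_of_ne_nil hu
  exact ⟨⟨a, l⟩, rfl⟩

def con : Con (FreeSemigroup Bool) where
  r a b := a = b ∨ InI (tl a) ∧ InI (tl b)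
  iseqv := ⟨fun _ => Or.inl rfl, fun h => h.imp Eq.symm And.symm, by
    rintro a b c (rfl | h) h'
    · exact h'
    · rcases h' with rfl | h'
      · exact Or.inr h
      · exact Or.inr ⟨h.1, h'.2⟩⟩
  mul' := by
    rintro a b c d (rfl | h) h'
    · rcases h' with rfl | h'
      · exact Or.inl rfl
      · exact Or.inr ⟨h'.1.left (tl a), h'.2.left (tl a)⟩
    · exact Or.inr ⟨h.1.right (tl c), h.2.right (tl d)⟩

abbrev Sg : Type := con.Quotient

def gen (a : Bool) : Sg := (FreeSemigroup.of a : FreeSemigroup Bool)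

theorem prod_tl (w : FreeSemigroup Bool) :
    ((tl w).map fun a => ((gen a : Sg) : WithOne Sg)).prod = ((w : Sg) : WithOne Sg) := by
  induction w using FreeSemigroup.recOnMul with
  | ih1 a => simp [tl, gen, FreeSemigroup.of]
  | ih2 a w h1 h2 => rw [tl_mul, List.map_append, List.prod_append, h1, h2]; rfl

theorem infinite : Infinite Sg := by
  choose w hw using fun n => tl_surj ((List.range' 0 (n + 1)).map st) (by simp)
  refine Infinite.of_injective (fun n => (w n : Sg)) fun a b h => ?_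
  rcases (Con.eq con).1 h with h | h
  · have := congrArg (fun x => (tl x).length) h
    simpa [hw] using this
  · exact absurd (hw a ▸ h.1) (not_InI _)

theorem periodic (x : Sg) : (Subsemigroup.closure ({x} : Set Sg) : Set Sg).Finite := by
  induction x using Con.induction_on with
  | H w =>
    obtain ⟨N, hN⟩ := exists_pow (tl w) (by simp [tl])
    obtain ⟨z, hz⟩ := tl_surj _ hN.ne_nil
    have h1 : {v : FreeSemigroup Bool | (tl v).length ≤ N * (tl w).length}.Finite :=
      (List.finite_length_le Bool _).preimage tl_inj.injOn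
    refine ((h1.image fun v : FreeSemigroup Bool => (v : Sg)).insert (z : Sg)).subset fun s hs => ?_
    have h2 : ∃ (v : FreeSemigroup Bool) (k : ℕ), (v : Sg) = s ∧ tl v = pw (tl w) k := by
      induction hs using Subsemigroup.closure_induction with
      | mem x hx => exact ⟨w, 1, hx.symm, by simp [pw]⟩
      | mul x y _ _ hx hy =>
        obtain ⟨a, i, rfl, h1⟩ := hx
        obtain ⟨b, j, rfl, h2⟩ := hy
        exact ⟨a * b, i + j, rfl, by rw [tl_mul, h1, h2, pw_add]⟩
    obtain ⟨v, k, rfl, hv⟩ := h2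
    rcases le_total k N with h | h
    · exact Or.inr ⟨v, by
        simpa [hv, length_pw] using Nat.mul_le_mul_right (tl w).length h, rfl⟩
    · obtain ⟨j, rfl⟩ := Nat.exists_eq_add_of_le h
      exact Or.inl ((Con.eq con).2 (Or.inr ⟨by rw [hv, pw_add]; exact hN.right _, hz ▸ hN⟩))

theorem closure_gen : Subsemigroup.closure (Set.range gen) = ⊤ := by
  rw [eq_top_iff]
  rintro x -
  induction x using Con.induction_on with
  | H w =>
    induction w using FreeSemigroup.recOnMul with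
    | ih1 a => exact Subsemigroup.subset_closure ⟨a, rfl⟩
    | ih2 a w h1 h2 => exact mul_mem h1 h2

end Pool.Agent.H66.CfWp
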