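import Mathlib

set_option autoImplicit false

namespace Pool.Agent.H66.Chv

def cd (u q : ℤ) : ℤ := -((-u) / q)

theorem cd_le_iff {u q r : ℤ} (hq : 0 < q) : cd u q ≤ r ↔ u ≤ r * q := by
  rw [cd, neg_le, Int.le_ediv_iff_mul_le hq]
  constructor <;> intro h <;> linarith

theorem lt_cd_iff {u q r : ℤ} (hq : 0 < q) : r < cd u q ↔ r * q < u := by
  rw [← not_le, cd_le_iff hq, not_le]

theorem le_cd_mul (u : ℤ) {q : ℤ} (hq : 0 < q) : u ≤ cd u q * q := (cd_le_iff hq).1 le_rfl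

theorem cd_mono {u v q : ℤ} (hq : 0 < q) (h : u ≤ v) : cd u q ≤ cd v q :=
  (cd_le_iff hq).2 (h.trans (le_cd_mul v hq))

theorem cd_add_le {u v q K : ℤ} (hq : 0 < q) (h : u + K * q ≤ v) : cd u q + K ≤ cd v q := by
  have := le_cd_mul v hq
  have : cd u q ≤ cd v q - K := (cd_le_iff hq).2 (by linarith)
  linarith

inductive Cf : (ℤ → ℤ) → Prop
  | lin (c : ℤ) : Cf fun x => c * x
  | add {F G : ℤ → ℤ} : Cf F → Cf G → Cf fun x => F x + G x
  | ceil {F : ℤ → ℤ} (q : ℤ) (hq : 0 < q) : Cf F → Cf fun x => cd (F x) q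

theorem Cf.zero {F : ℤ → ℤ} (h : Cf F) : F 0 = 0 := by
  induction h with
  | lin c => simp
  | add _ _ h1 h2 => simp [h1, h2]
  | ceil q hq _ h1 => simp [h1, cd]

theorem Cf.smul {F : ℤ → ℤ} (h : Cf F) (j : ℕ) : Cf fun x => j * F x := by
  induction j with
  | zero => simpa using Cf.lin 0
  | succ j ih => simpa [add_mul] using ih.add h

theorem lift (A : Finset ℕ) (a h t : ℤ) {G : ℤ → ℤ} (hG : Cf G) (g1 : ∀ x ∈ A, G x ≤ 0)
    (g2 : G a ≤ 1) (g3 : t ≤ G h) {F : ℤ → ℤ} (hF : Cf F) :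
    ∀ L : ℤ, ∃ K, L ≤ K ∧ ∃ H, Cf H ∧ (∀ x ∈ A, H x ≤ F x) ∧ H a ≤ K ∧
      F (h - t * a) + K * t ≤ H h := by
  have up : ∀ (F : ℤ → ℤ) (K : ℤ), (∃ H, Cf H ∧ (∀ x ∈ A, H x ≤ F x) ∧ H a ≤ K ∧
      F (h - t * a) + K * t ≤ H h) → ∀ K', K ≤ K' → ∃ H, Cf H ∧ (∀ x ∈ A, H x ≤ F x) ∧ H a ≤ K' ∧
      F (h - t * a) + K' * t ≤ H h := by
    rintro F K ⟨H, h1, h2, h3, h4⟩ K' hK
    obtain ⟨j, rfl⟩ := Int.le.dest hK
    have hj : (0 : ℤ) ≤ j := Int.natCast_nonneg j
    refine ⟨_, h1.add (hG.smul j), fun x hx => ?_, ?_, ?_⟩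
    · have := h2 x hx
      have := g1 x hx
      nlinarith
    · nlinarith
    · nlinarith
  induction hF with
  | lin c =>
    intro L
    exact ⟨max L (c * a), le_max_left _ _, up _ (c * a)
      ⟨_, Cf.lin c, fun _ _ => le_rfl, le_rfl, by linarith⟩ _ (le_max_right _ _)⟩
  | add _ _ i1 i2 =>
    intro L
    obtain ⟨K1, l1, H1, c1, a1, b1, d1⟩ := i1 L
    obtain ⟨K2, l2, H2, c2, a2, b2, d2⟩ := i2 0
    exact ⟨K1 + K2, by linarith, _, c1.add c2, fun x hx => add_le_add (a1 x hx) (a2 x hx),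
      by linarith, by linarith⟩
  | ceil q hq _ i1 =>
    intro L
    obtain ⟨K1, -, h1⟩ := i1 0
    obtain ⟨H, c1, a1, b1, d1⟩ := up _ K1 h1 (max L (cd K1 q) * q)
      ((cd_le_iff hq).1 (le_max_right _ _))
    refine ⟨max L (cd K1 q), le_max_left _ _, _, c1.ceil q hq, fun x hx => cd_mono hq (a1 x hx),
      (cd_le_iff hq).2 b1, cd_add_le hq (by linarith)⟩

theorem sep (A : Finset ℕ) : ∀ h : ℤ, (∀ s ∈ AddSubmonoid.closure (A : Set ℕ), (s : ℤ) ≠ h) →
    ∃ F, Cf F ∧ (∀ x ∈ A, F x ≤ 0) ∧ 1 ≤ F h := by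
  induction A using Finset.induction_on with
  | empty =>
    intro h hh
    have h0 : h ≠ 0 := fun e => hh 0 (zero_mem _) (by simp [e])
    exact ⟨_, Cf.lin h, by simp, Int.add_one_le_of_lt (mul_self_pos.2 h0)⟩
  | insert a A _ ih =>
    intro h hh
    have hsub : AddSubmonoid.closure (A : Set ℕ) ≤ AddSubmonoid.closure (insert a A : Finset ℕ) :=
      AddSubmonoid.closure_mono (by simp)
    rcases Nat.eq_zero_or_pos a with rfl | ha
    · obtain ⟨F, h1, h2, h3⟩ := ih h fun s hs => hh s (hsub hs)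
      exact ⟨F, h1, by simpa [h1.zero] using h2, h3⟩
    have key : ∀ t : ℕ, ∃ G, Cf G ∧ (∀ x ∈ A, G x ≤ 0) ∧ G a ≤ 1 ∧ (t : ℤ) ≤ G h := by
      intro t
      induction t with
      | zero => exact ⟨_, Cf.lin 0, by simp, by simp, by simp⟩
      | succ t iht =>
        obtain ⟨G, g0, g1, g2, g3⟩ := iht
        obtain ⟨F, f0, f1, f2⟩ := ih (h - t * a) fun s hs e =>
          hh (s + t • a) (add_mem (hsub hs) (nsmul_mem (AddSubmonoid.subset_closure (by simp)) t))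
            (by simp [e])
        obtain ⟨K, hK, H, h0, h1, h2, h3⟩ := lift A a h t g0 g1 g2 g3 f0 1
        have hK0 : 0 < K := by omega
        refine ⟨_, h0.ceil K hK0, fun x hx => (cd_le_iff hK0).2 ?_, (cd_le_iff hK0).2 (by linarith),
          ?_⟩
        · have := h1 x hx
          have := f1 x hx
          linarith
        · have : (t : ℤ) < cd (H h) K := (lt_cd_iff hK0).2 (by linarith)
          push_cast
          omega
    obtain ⟨G, g0, g1, g2, g3⟩ := key (h.toNat + 1)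
    refine ⟨_, g0.add (Cf.lin (-1)), fun x hx => ?_, ?_⟩
    · rcases Finset.mem_insert.1 hx with rfl | hx
      · omega
      · have := g1 x hx
        omega
    · omega

theorem sep_all (A : Finset ℕ) (H : Finset ℤ)
    (hH : ∀ h ∈ H, ∀ s ∈ AddSubmonoid.closure (A : Set ℕ), (s : ℤ) ≠ h) :
    ∃ F, Cf F ∧ (∀ x ∈ A, F x ≤ 0) ∧ ∀ h ∈ H, 1 ≤ F h := by
  induction H using Finset.induction_on with
  | empty => exact ⟨_, Cf.lin 0, by simp, by simp⟩
  | insert h H _ ih =>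
    obtain ⟨F, f0, f1, f2⟩ := ih fun h' hh' => hH h' (Finset.mem_insert_of_mem hh')
    obtain ⟨G, g0, g1, g2⟩ := sep A h (hH h (Finset.mem_insert_self _ _))
    obtain ⟨M, hM⟩ := (H.image fun x => -G x).bddAbove
    have p1 : 0 < |F h| + 1 := by positivity
    have p2 : 0 < |M| + 1 := by positivity
    refine ⟨_, (f0.ceil _ p1).add (g0.ceil _ p2), fun x hx => ?_, fun x hx => ?_⟩
    · have a1 := (cd_le_iff (r := 0) p1).2 (by simpa using f1 x hx)
      have a2 := (cd_le_iff (r := 0) p2).2 (by simpa using g1 x hx)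
      linarith
    · rcases Finset.mem_insert.1 hx with rfl | hx
      · have a1 := (lt_cd_iff (r := -1) (u := F x) p1).2 (by have := neg_abs_le (F x); linarith)
        have a2 := (lt_cd_iff (r := 0) (u := G x) p2).2 (by linarith)
        omega
      · have a1 := (lt_cd_iff (r := 0) (u := F x) p1).2 (by have := f2 x hx; linarith)
        have a3 : -G x ≤ M := hM (by simpa using ⟨x, hx, rfl⟩)
        have a2 := (lt_cd_iff (r := -1) (u := G x) p2).2 (by have := le_abs_self M; linarith)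
        omega

end Pool.Agent.H66.Chv
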