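import Mathlib

set_option autoImplicit false

namespace Pool.Agent.H66.CommSub

open FreeGroup

universe u v

variable {Y : Type u} {V : Type v} [MulAction (FreeGroup Y) V]

def Coc (c : FreeGroup Y → V → (V × Y →₀ ℤ)) : Prop :=
  (∀ g h v, c (g * h) v = c h v + c g (h • v)) ∧ ∀ x v, c (of x) v = Finsupp.single (v, x) 1

theorem exists_coc : ∃ c : FreeGroup Y → V → (V × Y →₀ ℤ), Coc c := by
  let p : Y → Equiv.Perm (V × (V × Y →₀ ℤ)) := fun x =>
    { toFun := fun q => (of x • q.1, q.2 + Finsupp.single (q.1, x) 1)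
      invFun := fun q => ((of x)⁻¹ • q.1, q.2 - Finsupp.single ((of x)⁻¹ • q.1, x) 1)
      left_inv := fun q => by simp
      right_inv := fun q => by simp }
  have key : ∀ g v a, lift p g (v, a) = (g • v, a + (lift p g (v, 0)).2) := by
    intro g
    induction g using FreeGroup.induction_on with
    | C1 => simp
    | of x => intro v a; simp [p]
    | inv_of x _ => intro v a; simp [p, Equiv.Perm.inv_def, sub_eq_add_neg]
    | mul g h h1 h2 =>
      intro v a
      simp only [_root_.map_mul, Equiv.Perm.mul_apply]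
      rw [h2 v a, h2 v 0, h1, h1 _ (0 + _), mul_smul]
      simp [add_assoc]
  refine ⟨fun g v => (lift p g (v, 0)).2, fun g h v => ?_, fun x v => by simp [p]⟩
  simp only [_root_.map_mul, Equiv.Perm.mul_apply]
  rw [key h, key g]

variable {c : FreeGroup Y → V → (V × Y →₀ ℤ)}

theorem Coc.one (hc : Coc c) (v : V) : c 1 v = 0 := by simpa using hc.1 1 1 v

theorem Coc.inv (hc : Coc c) (g : FreeGroup Y) (v : V) : c g⁻¹ v = -c g (g⁻¹ • v) := by
  have := hc.1 g g⁻¹ v
  rw [mul_inv_cancel, hc.one] at this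
  exact eq_neg_of_add_eq_zero_left this.symm

theorem Coc.conj (hc : Coc c) (g f : FreeGroup Y) (v : V) (h : g • f • v = f • v) :
    c (f⁻¹ * g * f) v = c g (f • v) := by
  rw [hc.1, hc.1, h, hc.inv, inv_smul_smul]
  abel

theorem Coc.loc (hc : Coc c) (g : FreeGroup Y) :
    ∃ U : Set (FreeGroup Y), U.Finite ∧ ∀ v e, c g v e ≠ 0 → ∃ u ∈ U, v = u • e.1 := by
  classical
  induction g using FreeGroup.induction_on with
  | C1 => exact ⟨∅, Set.finite_empty, fun v e h => by simp [hc.one] at h⟩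
  | of x =>
    refine ⟨{1}, Set.finite_singleton _, fun v e h => ⟨1, rfl, ?_⟩⟩
    rw [hc.2, Finsupp.single_apply_ne_zero] at h
    simp [h.1]
  | inv_of x ih =>
    obtain ⟨U, h1, h2⟩ := ih
    refine ⟨(fun u => of x * u) '' U, h1.image _, fun v e h => ?_⟩
    rw [hc.inv] at h
    obtain ⟨u, hu, h3⟩ := h2 _ e (by simpa using h)
    exact ⟨_, ⟨u, hu, rfl⟩, by rw [mul_smul, ← h3, smul_inv_smul]⟩
  | mul g h h1 h2 =>
    obtain ⟨U, u1, u2⟩ := h1
    obtain ⟨W, w1, w2⟩ := h2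
    refine ⟨W ∪ (fun u => h⁻¹ * u) '' U, w1.union (u1.image _), fun v e he => ?_⟩
    by_cases h3 : c h v e = 0
    · rw [hc.1, Finsupp.add_apply, h3, zero_add] at he
      obtain ⟨u, hu, h4⟩ := u2 _ e he
      exact ⟨_, Or.inr ⟨u, hu, rfl⟩, by rw [mul_smul, ← h4, inv_smul_smul]⟩
    · obtain ⟨u, hu, h4⟩ := w2 _ e h3
      exact ⟨u, Or.inl hu, h4⟩

theorem Coc.fin (hc : Coc c) (g : FreeGroup Y) (z : V × Y →₀ ℤ) (hz : z ≠ 0) :
    {v | c g v = z}.Finite := by
  obtain ⟨U, h1, h2⟩ := hc.loc g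
  obtain ⟨e, he⟩ := Finsupp.ne_iff.1 hz
  refine (h1.image (· • e.1)).subset fun v hv => ?_
  obtain ⟨u, hu, h⟩ := h2 v e (by rw [show c g v = z from hv]; exact he)
  exact ⟨u, hu, h.symm⟩

theorem Coc.step (hc : Coc c) (T : List (Y × Bool)) (v : V) (e : V × Y) (h : c (mk T) v e ≠ 0) :
    ∃ A b C, T = A ++ b :: C ∧ c (mk [b]) (mk C • v) e ≠ 0 := by
  induction T with
  | nil => exact absurd (by rw [← one_eq_mk, hc.one]; rfl) h
  | cons b T ih =>
    by_cases h1 : c (mk T) v e = 0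
    · rw [← List.singleton_append, ← mul_mk, hc.1, Finsupp.add_apply, h1, zero_add] at h
      exact ⟨[], b, T, rfl, h⟩
    · obtain ⟨A, b', C, rfl, h2⟩ := ih h1
      exact ⟨b :: A, b', C, rfl, h2⟩

theorem Coc.letter (hc : Coc c) (a : Y × Bool) (v : V) : ∃ e, c (mk [a]) v e ≠ 0 ∧
    ∀ b w, c (mk [b]) w e ≠ 0 → (b = a ∧ w = v) ∨ (b.1 = a.1 ∧ b.2 ≠ a.2 ∧ w = mk [a] • v) := by
  classical
  have h1 : ∀ x : Y, mk [(x, true)] = of x := fun _ => rfl
  have h2 : ∀ x : Y, mk [(x, false)] = (of x)⁻¹ := fun _ => rfl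
  have h3 : ∀ b w e, c (mk [b]) w e ≠ 0 → e.2 = b.1 ∧ e.1 = if b.2 then w else (of b.1)⁻¹ • w := by
    rintro ⟨x, _ | _⟩ w e h
    · rw [h2, hc.inv, hc.2, Finsupp.neg_apply, neg_ne_zero, Finsupp.single_apply_ne_zero] at h
      simp [h.1]
    · rw [h1, hc.2, Finsupp.single_apply_ne_zero] at h
      simp [h.1]
  obtain ⟨x, _ | _⟩ := a
  · refine ⟨((of x)⁻¹ • v, x), by simp [h2, hc.inv, hc.2], ?_⟩
    rintro ⟨y, _ | _⟩ w h <;> obtain ⟨rfl, h4⟩ := h3 _ _ _ h
    · exact Or.inl ⟨rfl, by simpa using h4.symm⟩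
    · exact Or.inr ⟨rfl, by simp, by simpa [h2] using h4.symm⟩
  · refine ⟨(v, x), by simp [h1, hc.2], ?_⟩
    rintro ⟨y, _ | _⟩ w h <;> obtain ⟨rfl, h4⟩ := h3 _ _ _ h
    · refine Or.inr ⟨rfl, by simp, ?_⟩
      simp only [Bool.false_eq_true, if_false] at h4
      rw [h1, h4, smul_inv_smul]
    · exact Or.inl ⟨rfl, by simpa using h4.symm⟩

theorem Coc.cyc (hc : Coc c) (n : ℕ) : ∀ (L : List (Y × Bool)) (v : V), L.length = n → L ≠ [] →
    IsReduced L → mk L • v = v →
    ∃ A B C, L = A ++ B ++ C ∧ mk B • mk C • v = mk C • v ∧ c (mk B) (mk C • v) ≠ 0 := by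
  induction n using Nat.strong_induction_on with
  | _ n ih =>
  intro L v hn h0 hr hv
  have sub : ∀ A B C, L = A ++ B ++ C → B ≠ [] → B.length < n → mk B • mk C • v = mk C • v →
      ∃ A B C, L = A ++ B ++ C ∧ mk B • mk C • v = mk C • v ∧ c (mk B) (mk C • v) ≠ 0 := by
    intro A B C h1 h2 h3 h4
    obtain ⟨A', B', C', rfl, h5⟩ := ih _ h3 B _ rfl h2
      (List.IsChain.right_of_append (List.IsChain.left_of_append (h1 ▸ hr))) h4
    exact ⟨A ++ A', B', C' ++ C, by simp [h1], by rwa [← mul_mk, mul_smul]⟩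
  obtain ⟨T, a, rfl⟩ := List.eq_nil_or_concat' L |>.resolve_left h0
  obtain ⟨e, e1, e2⟩ := hc.letter a v
  by_cases h1 : c (mk T) (mk [a] • v) e = 0
  · refine ⟨[], T ++ [a], [], by simp, by rwa [← one_eq_mk, one_smul], fun h => e1 ?_⟩
    rw [← one_eq_mk, one_smul, ← mul_mk, hc.1] at h
    simpa [h1] using DFunLike.congr_fun h e
  · obtain ⟨A, b, C, rfl, h2⟩ := hc.step _ _ _ h1
    simp only [List.length_append, List.length_cons, List.length_nil] at hn
    rcases e2 _ _ h2 with ⟨-, h3⟩ | ⟨h3, h4, h5⟩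
    · exact sub (A ++ [b]) (C ++ [a]) [] (by simp) (by simp) (by simp; omega)
        (by rwa [← one_eq_mk, one_smul, ← mul_mk, mul_smul])
    · by_cases hC : C = []
      · subst hC
        rw [List.append_assoc] at hr
        have := List.IsChain.right_of_append hr
        exact absurd ((List.isChain_pair.1 this) h3) h4
      · exact sub (A ++ [b]) C [a] (by simp) hC (by omega) h5

theorem Coc.orb (hc : Coc c) (u : FreeGroup Y) (y : Y) (hu : ∀ w e, e.2 = y → c u w e = 0)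
    (N : ℕ) (v v' : V) (h : c ((u * of y) ^ (N + 1)) v = c ((u * of y) ^ (N + 1)) v') :
    ∃ i : ℕ, (u * of y) ^ i • v' = v := by
  classical
  have h1 : ∀ w, c (u * of y) w (v, y) = if w = v then 1 else 0 := by
    intro w
    rw [hc.1, Finsupp.add_apply, hu _ _ rfl, hc.2, Finsupp.single_apply]
    simp
  have h2 : ∀ n w, 0 ≤ c ((u * of y) ^ n) w (v, y) := by
    intro n
    induction n with
    | zero => simp [hc.one]
    | succ n ih =>
      intro w
      rw [pow_succ, hc.1, Finsupp.add_apply, h1]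
      have := ih ((u * of y) • w)
      split_ifs <;> omega
  by_contra hn
  push Not at hn
  have h3 : ∀ n, c ((u * of y) ^ n) v' (v, y) = 0 := by
    intro n
    induction n with
    | zero => simp [hc.one]
    | succ n ih => rw [pow_succ', hc.1, Finsupp.add_apply, h1, ih, if_neg (hn n), add_zero]
  have h4 := h3 (N + 1)
  rw [← h, pow_succ, hc.1, Finsupp.add_apply, h1, if_pos rfl] at h4
  have := h2 N ((u * of y) • v)
  omega

end Pool.Agent.H66.CommSub
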