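import Mathlib
import Pool.Agent.H66.CommSub1
import Pool.Agent.H65.FreeBasic

set_option autoImplicit false

namespace Pool.Agent.H66.CommSub

open FreeGroup Pool.Agent.H65.FreeBasic
open scoped commutatorElement

universe u

theorem core {Y : Type u} (R S : Subgroup (FreeGroup Y)) [hR : R.Normal]
    (h1 : ∀ g, ∃ r ∈ R, ∃ s ∈ S, r * s = g) (h2 : ⁅R, R⁆ ≤ ⁅S, S⁆) (h3 : ⁅R, R⁆ ≠ ⊥) : R ≤ S := by
  classical
  obtain ⟨c, hc⟩ := exists_coc (Y := Y) (V := FreeGroup Y ⧸ S)
  set v0 : FreeGroup Y ⧸ S := ((1 : FreeGroup Y) : FreeGroup Y ⧸ S) with hv0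
  have st : ∀ g, g • v0 = v0 ↔ g ∈ S := fun g => by
    rw [hv0, MulAction.Quotient.smul_mk, QuotientGroup.eq]; simp
  have tr0 : ∀ v, ∃ r ∈ R, r • v0 = v := by
    intro v
    obtain ⟨g, rfl⟩ := QuotientGroup.mk_surjective v
    obtain ⟨r, hr, s, hs, rfl⟩ := h1 g
    exact ⟨r, hr, by rw [hv0, MulAction.Quotient.smul_mk, QuotientGroup.eq]; simpa⟩
  have tr : ∀ v w : FreeGroup Y ⧸ S, ∃ r ∈ R, r • v = w := by
    intro v w
    obtain ⟨r, hr, rfl⟩ := tr0 v
    obtain ⟨s, hs, rfl⟩ := tr0 w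
    exact ⟨s * r⁻¹, mul_mem hs (inv_mem hr), by rw [mul_smul, inv_smul_smul]⟩
  have k0 : ∀ g ∈ ⁅S, S⁆, g • v0 = v0 ∧ c g v0 = 0 := by
    intro g hg
    rw [Subgroup.commutator_def] at hg
    induction hg using Subgroup.closure_induction with
    | mem g hg =>
      obtain ⟨a, ha, b, hb, rfl⟩ := hg
      have a1 := (st _).2 ha
      have a2 := (st _).2 (inv_mem ha)
      have b1 := (st _).2 hb
      have b2 := (st _).2 (inv_mem hb)
      simp only [commutatorElement_def, mul_smul, hc.1, hc.inv, a1, a2, b1, b2, true_and]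
      abel
    | one => exact ⟨one_smul _ _, hc.one _⟩
    | mul a b _ _ ha hb => rw [mul_smul, hc.1, hb.1, hb.2, ha.1, ha.2]; simp
    | inv a _ ha =>
      have : a⁻¹ • v0 = v0 := inv_smul_eq_iff.2 ha.1.symm
      rw [hc.inv, this, ha.2]; simp
  have k1 : ∀ g ∈ ⁅R, R⁆, ∀ v, g • v = v ∧ c g v = 0 := by
    intro g hg v
    obtain ⟨f, -, rfl⟩ := tr0 v
    obtain ⟨a, b⟩ := k0 _ (h2 ((Subgroup.commutator_normal R R).conj_mem' g hg f))
    have : g • f • v0 = f • v0 := by rwa [mul_smul, mul_smul, inv_smul_eq_iff] at a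
    exact ⟨this, by rwa [hc.conj _ _ _ this] at b⟩
  have k2 : ∀ m ∈ R, ∀ v, m • v = v → ∀ w, m • w = w ∧ c m w = c m v := by
    intro m hm v hv w
    obtain ⟨r, hr, rfl⟩ := tr v w
    obtain ⟨a, b⟩ := k1 _ (Subgroup.commutator_mem_commutator (inv_mem hr) hm) v
    have e : r⁻¹ * m * r = ⁅r⁻¹, m⁆ * m := by simp [commutatorElement_def]
    have : m • r • v = r • v := by
      rw [← inv_smul_eq_iff, ← mul_smul, ← mul_smul, e, mul_smul, hv, a]
    exact ⟨this, by rw [← hc.conj _ _ _ this, e, hc.1, hv, b, add_zero]⟩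
  have k3 : ∀ r ∈ R, ∀ g v, ⁅r, g⁆ • v = v → c ⁅r, g⁆ v = 0 := by
    intro r hr g v hv
    have hm : ⁅r, g⁆ ∈ R := by
      rw [commutatorElement_def, mul_assoc, mul_assoc, ← mul_assoc g]
      exact mul_mem hr (hR.conj_mem _ (inv_mem hr) g)
    rcases finite_or_infinite (FreeGroup Y ⧸ S) with hf | hf
    · have := Fintype.ofFinite (FreeGroup Y ⧸ S)
      have hs : ∀ a b, ∑ w, c (a * b) w = ∑ w, c a w + ∑ w, c b w := fun a b => by
        simp only [hc.1, Finset.sum_add_distrib]
        rw [add_comm, ← Equiv.sum_comp (MulAction.toPerm b) (c a)]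
        rfl
      have hi : ∀ a, ∑ w, c a⁻¹ w = -∑ w, c a w := fun a => by
        have := hs a⁻¹ a
        simp only [inv_mul_cancel, hc.one, Finset.sum_const_zero] at this
        exact eq_neg_of_add_eq_zero_left this.symm
      have h0 : ∑ w, c ⁅r, g⁆ w = 0 := by
        rw [commutatorElement_def, hs, hs, hs, hi, hi]; abel
      simp only [fun w => (k2 _ hm v hv w).2, Finset.sum_const] at h0
      exact (smul_eq_zero.1 h0).resolve_left (Finset.card_ne_zero_of_mem (Finset.mem_univ v))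
    · by_contra h0
      exact Set.infinite_univ ((hc.fin _ _ h0).subset fun w _ => (k2 _ hm v hv w).2)
  have k4 : ∀ g v w, g • v = v → g • w = w → c g w = c g v := by
    intro g v w hv hw
    obtain ⟨r, hr, rfl⟩ := tr v w
    have e : r⁻¹ * g * r = ⁅r⁻¹, g⁆ * g := by simp [commutatorElement_def]
    have : ⁅r⁻¹, g⁆ • v = v := by
      conv_lhs => rw [← hv]
      rw [← mul_smul, ← e, mul_smul, mul_smul, hw, inv_smul_smul]
    rw [← hc.conj _ _ _ hw, e, hc.1, hv, k3 _ (inv_mem hr) _ _ this, add_zero]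
  rcases finite_or_infinite (FreeGroup Y ⧸ S) with hf | hf
  · obtain ⟨x, y, hxy⟩ : ∃ x y : Y, x ≠ y := by
      by_contra hn
      push Not at hn
      apply h3
      rw [Subgroup.commutator_eq_bot_iff_le_centralizer]
      intro a _ b _
      have : ∀ x, ∀ b : FreeGroup Y, Commute (of x) b := by
        intro x b
        induction b using FreeGroup.induction_on with
        | C1 => simp
        | of y => rw [hn x y]
        | inv_of y h => exact h.inv_right
        | mul a b h h' => exact h.mul_right h'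
      have h5 : ∀ b : FreeGroup Y, Commute b a := by
        intro b
        induction b using FreeGroup.induction_on with
        | C1 => simp
        | of y => exact this y a
        | inv_of y h => exact h.inv_left
        | mul a b h h' => exact h.mul_left h'
      exact (h5 b).eq
    have key : ∀ u y, (∀ w e, e.2 = y → c u w e = 0) → ∀ v w : FreeGroup Y ⧸ S,
        ∃ i : ℕ, (u * of y) ^ i • w = v := by
      intro u y hu v w
      obtain ⟨N, hN, h⟩ := isOfFinOrder_iff_pow_eq_one.1 (isOfFinOrder_of_finite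
        (MulAction.toPermHom _ (FreeGroup Y ⧸ S) (u * of y)))
      obtain ⟨N, rfl⟩ : ∃ M, N = M + 1 := ⟨N - 1, by omega⟩
      have h' : ∀ v : FreeGroup Y ⧸ S, (u * of y) ^ (N + 1) • v = v := fun v => by
        rw [← map_pow] at h
        exact DFunLike.congr_fun h v
      exact hc.orb u y hu N v w (k4 _ _ _ (h' _) (h' _))
    obtain ⟨a, ha⟩ := key 1 x (fun w e _ => by simp [hc.one]) v0 (of y • v0)
    rw [one_mul, ← mul_smul] at ha
    intro r hr
    obtain ⟨i, hi⟩ := key (of x ^ a) y (fun w e he => by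
      clear ha
      induction a with
      | zero => simp [hc.one]
      | succ a ih =>
        rw [pow_succ', hc.1, Finsupp.add_apply, ih, hc.2, Finsupp.single_apply, if_neg, add_zero]
        rintro rfl
        exact hxy he) (r • v0) v0
    rw [← st, ← hi]
    exact MulAction.mem_stabilizer_iff.1 (pow_mem (MulAction.mem_stabilizer_iff.2 ha) i)
  · obtain ⟨⟨m, hm⟩, hm1⟩ := Subgroup.ne_bot_iff_exists_ne_one.1 h3
    have hm2 : m ≠ 1 := fun h => hm1 (Subtype.ext h)
    exfalso
    let P : ℕ × ℕ → Set (FreeGroup Y ⧸ S) := fun p => {v | ∃ A B C, m.toWord = A ++ B ++ C ∧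
      A.length = p.1 ∧ B.length = p.2 ∧ mk B • mk C • v = mk C • v ∧ c (mk B) (mk C • v) ≠ 0}
    have hP : ∀ p, (P p).Finite := by
      intro p
      rcases (P p).eq_empty_or_nonempty with h | ⟨v, A, B, C, a1, a2, a3, a4, a5⟩
      · rw [h]; exact Set.finite_empty
      · refine ((hc.fin (mk B) _ a5).preimage (f := fun w => mk C • w)
          (MulAction.injective _).injOn).subset ?_
        rintro w ⟨A', B', C', b1, b2, b3, b4, -⟩
        obtain ⟨e1, rfl⟩ := List.append_inj (a1.symm.trans b1) (by simp; omega)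
        obtain ⟨-, rfl⟩ := List.append_inj e1 (by omega)
        exact k4 _ _ _ a4 b4
    refine Set.infinite_univ ((((Set.finite_Iic m.toWord.length).prod
      (Set.finite_Iic m.toWord.length)).biUnion fun p _ => hP p).subset fun v _ => ?_)
    obtain ⟨A, B, C, a1, a2⟩ := hc.cyc _ m.toWord v rfl (by simpa using hm2) isReduced_toWord
      (by rw [mk_toWord]; exact (k1 m hm v).1)
    refine Set.mem_biUnion (x := (A.length, B.length)) ?_ ⟨A, B, C, a1, rfl, rfl, a2⟩
    rw [a1]
    constructor <;> simp <;> omega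

theorem nonab {X : Type u} [Nontrivial X] (R : Subgroup (FreeGroup X)) [hR : R.Normal]
    (h : ⁅R, R⁆ = ⊥) : R = ⊥ := by
  classical
  rw [Subgroup.commutator_eq_bot_iff_le_centralizer] at h
  obtain ⟨⟨t, ht⟩, h1⟩ := cyclic_of_comm R fun a b => Subtype.ext (h b.2 a a.2)
  have h2 : ∀ g ∈ R, ∃ k : ℤ, g = t ^ k := fun g hg => by
    obtain ⟨k, hk⟩ := h1 ⟨g, hg⟩
    exact ⟨k, congrArg Subtype.val hk⟩
  by_contra hne
  have ht1 : t ≠ 1 := by
    rintro rfl
    exact hne (eq_bot_iff.2 fun g hg => by obtain ⟨k, rfl⟩ := h2 g hg; simp)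
  have h3 : ∀ g : FreeGroup X, g ^ 2 * t = t * g ^ 2 := by
    intro g
    obtain ⟨k, hk⟩ := h2 _ (hR.conj_mem t ht g)
    obtain ⟨l, hl⟩ := h2 _ (hR.conj_mem' t ht g)
    have e : t ^ (1 : ℤ) = t ^ (k * l) := by
      rw [zpow_mul, ← hk, conj_zpow, ← hl]; group
    have e2 := injective_zpow_iff_not_isOfFinOrder.2 (not_isOfFinOrder_of_isMulTorsionFree ht1) e
    have e3 : k * k = 1 := by
      rcases Int.eq_one_or_neg_one_of_mul_eq_one e2.symm with rfl | rfl <;> rfl
    have e4 : g * (g * t * g⁻¹) * g⁻¹ = t := by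
      rw [hk, ← conj_zpow, hk, ← zpow_mul, e3, zpow_one]
    conv_rhs => rw [← e4]
    simp [pow_two, mul_assoc]
  obtain ⟨x, y, hxy⟩ := exists_pair_ne X
  obtain ⟨s, p, q, a1, a2⟩ := comm_root (h3 (of x))
  obtain ⟨s', p', q', b1, b2⟩ := comm_root (h3 (of y))
  let χ : X → FreeGroup X →* Multiplicative ℤ := fun x =>
    lift fun z => if z = x then Multiplicative.ofAdd 1 else 1
  have c1 := congrArg (fun g => (χ x g).toAdd) a1
  have c2 := congrArg (fun g => (χ x g).toAdd) a2
  have c3 := congrArg (fun g => (χ x g).toAdd) b1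
  have c4 := congrArg (fun g => (χ x g).toAdd) b2
  have c5 := congrArg (fun g => (χ y g).toAdd) b1
  simp only [map_pow, map_zpow, χ, lift_apply_of, if_true, if_neg hxy.symm, toAdd_pow, toAdd_zpow,
    toAdd_ofAdd, toAdd_one, smul_eq_mul, nsmul_eq_mul, zsmul_eq_mul, Int.cast_id] at c1 c2 c3 c4 c5
  have hq : q ≠ 0 := by rintro rfl; exact ht1 (by simpa using a2)
  have hp : p' ≠ 0 := by rintro rfl; simp at c5
  have d1 := (mul_eq_zero.1 (c3.symm.trans (mul_zero _))).resolve_left hp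
  rw [d1, mul_zero, c2] at c4
  rw [(mul_eq_zero.1 c4).resolve_left hq] at c1
  simp at c1

theorem main {X : Type u} [Nontrivial X] (R S : Subgroup (FreeGroup X)) [hR : R.Normal]
    (h : ⁅R, R⁆ ≤ ⁅S, S⁆) : R ≤ S := by
  by_cases h0 : ⁅R, R⁆ = ⊥
  · rw [nonab R h0]; exact bot_le
  let φ := (R ⊔ S).subtype.comp (IsFreeGroup.mulEquiv (R ⊔ S : Subgroup _)).toMonoidHom
  have hi : Function.Injective φ := Subtype.val_injective.comp (MulEquiv.injective _)
  have hr : φ.range = R ⊔ S := by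
    rw [MonoidHom.range_comp, MonoidHom.range_eq_top.2 (MulEquiv.surjective _),
      ← MonoidHom.range_eq_map, Subgroup.range_subtype]
  have m1 : (R.comap φ).map φ = R := Subgroup.map_comap_eq_self (le_sup_left.trans hr.ge)
  have m2 : (S.comap φ).map φ = S := Subgroup.map_comap_eq_self (le_sup_right.trans hr.ge)
  have := core (R.comap φ) (S.comap φ) (fun g => ?_) ?_ ?_
  · exact m1.ge.trans ((Subgroup.map_mono this).trans m2.le)
  · obtain ⟨r, a1, s, a2, e⟩ := Subgroup.mem_sup_of_normal_left.1 (hr.le ⟨g, rfl⟩ : φ g ∈ R ⊔ S)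
    obtain ⟨r, rfl⟩ : r ∈ φ.range := hr.ge (Subgroup.mem_sup_left a1)
    obtain ⟨s, rfl⟩ : s ∈ φ.range := hr.ge (Subgroup.mem_sup_right a2)
    exact ⟨r, a1, s, a2, hi (by rw [_root_.map_mul, e])⟩
  · rw [← Subgroup.map_le_map_iff_of_injective hi, Subgroup.map_commutator,
      Subgroup.map_commutator, m1, m2]
    exact h
  · intro h1
    apply h0
    have h2 := Subgroup.map_commutator (R.comap φ) (R.comap φ) φ
    rw [h1, m1, Subgroup.map_bot] at h2
    exact h2.symm

end Pool.Agent.H66.CommSub
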