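import Pool.Agent.H66.AccDefs

/-! C.e. algebras of the variety whose signature consists of constants only (no laws). -/

namespace Pool.Agent.H66.Acc

/-- Terms in `n` generators and the constants indexed by `ι` are the elements of `Fin n ⊕ ι`.
The congruence generated by the equations coded in `W_e`. -/
def th (n : ℕ) (ι : Type) [Primcodable ι] (e : ℕ) : Setoid (Fin n ⊕ ι) :=
  Relation.EqvGen.setoid fun u v => W e (Encodable.encode (u, v))

/-- isomorphism of the presented algebras -/
def CIso (n : ℕ) (ι : Type) [Primcodable ι] (e i : ℕ) : Prop :=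
  ∃ φ : Quotient (th n ι e) ≃ Quotient (th n ι i), ∀ c, φ ⟦.inr c⟧ = ⟦.inr c⟧

/-- computable reducibility -/
def Red (E F : ℕ → ℕ → Prop) : Prop := ∃ f, Computable f ∧ ∀ x y, E x y ↔ F (f x) (f y)

end Pool.Agent.H66.Acc
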