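import Mathlib

/-! Phragmen-Lindelof lemmas for entire functions of exponential type. -/

namespace Pool.Agent.H66.Cvx

open Complex Filter Set Asymptotics

theorem const_of_axes {G : ℂ → ℂ} (hG : Differentiable ℂ G) {K c C : ℝ}
    (hb : ∀ z, ‖G z‖ ≤ K * Real.exp (c * ‖z‖)) (hre : ∀ x : ℝ, ‖G x‖ ≤ C)
    (him : ∀ x : ℝ, ‖G (x * I)‖ ≤ C) (z w : ℂ) : G z = G w := by
  have hB : ∀ l : Filter ℂ, ∃ c' < (2 : ℝ), ∃ B, G =O[l] fun z => Real.exp (B * ‖z‖ ^ c') :=
    fun l => ⟨1, one_lt_two, c, IsBigO.of_bound K (Eventually.of_forall fun z => by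
      simpa using hb z)⟩
  refine hG.apply_eq_apply_of_bounded (isBounded_iff_forall_norm_le.2 ⟨C, ?_⟩) z w
  rintro _ ⟨z, rfl⟩
  rcases le_total 0 z.re with h1 | h1 <;> rcases le_total 0 z.im with h2 | h2
  · exact PhragmenLindelof.quadrant_I hG.diffContOnCl (hB _) (fun x _ => hre x)
      (fun x _ => him x) h1 h2
  · exact PhragmenLindelof.quadrant_IV hG.diffContOnCl (hB _) (fun x _ => hre x)
      (fun x _ => him x) h1 h2
  · exact PhragmenLindelof.quadrant_II hG.diffContOnCl (hB _) (fun x _ => hre x)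
      (fun x _ => him x) h1 h2
  · exact PhragmenLindelof.quadrant_III hG.diffContOnCl (hB _) (fun x _ => hre x)
      (fun x _ => him x) h1 h2

theorem norm_le_diag {t : ℂ} (h : |t.im| = |t.re|) : ‖t‖ ≤ 3 / 2 * |t.re| := by
  refine abs_le_of_sq_le_sq' ?_ (by positivity) |>.2
  rw [Complex.sq_norm, normSq_apply, mul_pow, sq_abs]
  have : t.im ^ 2 = t.re ^ 2 := by rw [← sq_abs, h, sq_abs]
  nlinarith [sq_nonneg t.re]

theorem zero_of_two {R : ℂ → ℂ} (hR : Differentiable ℂ R) {K M : ℝ} (hK : 0 ≤ K) (hM : 0 ≤ M)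
    (h1 : ∀ t, ‖R t‖ ≤ K * Real.exp ‖t‖)
    (h2 : ∀ t, ‖R t‖ ≤ M * Real.exp (-6 * t.re + |t.im| + ‖t‖)) (t : ℂ) : R t = 0 := by
  let V : ℂ → ℂ := fun z => R ((1 + I) * z) * exp (2 * ((1 + I) * z))
  have hn : ∀ t : ℂ, ‖R t * exp (2 * t)‖ = ‖R t‖ * Real.exp (2 * t.re) := fun t => by
    rw [norm_mul, norm_exp]; simp
  have dec : ∀ t : ℂ, |t.im| = |t.re| → 0 ≤ t.re →
      ‖R t * exp (2 * t)‖ ≤ M * Real.exp (-t.re) := by
    intro t h h0
    have := norm_le_diag h
    rw [hn]
    refine (mul_le_mul_of_nonneg_right (h2 t) (by positivity)).trans ?_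
    rw [mul_assoc, ← Real.exp_add]
    rw [abs_of_nonneg h0] at h this
    gcongr; linarith
  have key : ∀ t : ℂ, |t.im| = |t.re| → ‖R t * exp (2 * t)‖ ≤ K + M := by
    intro t h
    rcases le_total 0 t.re with h0 | h0
    · refine (dec t h h0).trans ?_
      have : Real.exp (-t.re) ≤ 1 := Real.exp_le_one_iff.2 (by linarith)
      nlinarith
    · have := norm_le_diag h
      rw [hn]
      refine (mul_le_mul_of_nonneg_right (h1 t) (by positivity)).trans ?_
      rw [mul_assoc, ← Real.exp_add]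
      rw [abs_of_nonpos h0] at this
      have : Real.exp (‖t‖ + 2 * t.re) ≤ 1 := Real.exp_le_one_iff.2 (by linarith)
      nlinarith
  have hc := const_of_axes (G := V) (by fun_prop) (K := K) (c := 6) (C := K + M) (fun z => by
      simp only [V]
      rw [hn]
      refine (mul_le_mul_of_nonneg_right (h1 _) (by positivity)).trans ?_
      rw [mul_assoc, ← Real.exp_add]
      have a1 : ‖(1 + I) * z‖ ≤ 2 * ‖z‖ := by
        rw [norm_mul]; gcongr
        exact (norm_add_le _ _).trans (by simp; norm_num)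
      have a2 := (le_abs_self _).trans (abs_re_le_norm ((1 + I) * z))
      gcongr; linarith)
    (fun x => key _ (by simp)) (fun x => key _ (by simp))
  have h0 : ∀ z, V z = 0 := fun z => by
    have : Tendsto (fun x : ℝ => M * Real.exp (-x)) atTop (nhds 0) := by
      simpa using Real.tendsto_exp_neg_atTop_nhds_zero.const_mul M
    refine norm_le_zero_iff.1 (ge_of_tendsto this ?_)
    filter_upwards [eventually_ge_atTop 0] with x hx
    rw [hc z x]
    simpa [V] using dec ((1 + I) * x) (by simp) (by simpa using hx)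
  have hI : (1 + I : ℂ) ≠ 0 := fun h => by simpa using congrArg Complex.re h
  have := h0 (t / (1 + I))
  simp only [V, mul_div_cancel₀ _ hI] at this
  exact (mul_eq_zero.1 this).resolve_right (exp_ne_zero _)

theorem bdd_pos {Φ : ℂ → ℂ} (hΦ : Differentiable ℂ Φ) {M : ℝ} (hM : 0 ≤ M)
    (h : ∀ u, ‖Φ u‖ ≤ M * Real.exp (‖u‖ - |u.im|)) {x : ℝ} (hx : 0 < x) : ‖Φ x‖ ≤ M := by
  have key : ∀ ε : ℝ, 0 < ε → ε ≤ 1 → ‖Φ x‖ ≤ M * Real.exp (ε * x) := by
    intro ε h0 h1
    let g : ℂ → ℂ := fun z => Φ (exp z) * exp (-ε * exp z)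
    have hn : ∀ z, ‖g z‖ = ‖Φ (exp z)‖ * Real.exp (-ε * (exp z).re) := fun z => by
      simp only [g]; rw [norm_mul, norm_exp]; simp
    have hpi := Real.pi_gt_three
    have bd : ∀ z : ℂ, |z.im| = Real.pi / 2 - ε → ‖g z‖ ≤ M := by
      intro z hz
      rw [hn]
      refine (mul_le_mul_of_nonneg_right (h _) (by positivity)).trans ?_
      rw [mul_assoc, ← Real.exp_add]
      have c1 : Real.cos z.im = Real.sin ε := by
        rw [← Real.cos_abs, hz, Real.cos_pi_div_two_sub]
      have c2 : |Real.sin z.im| = Real.cos ε := by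
        have e : Real.cos ε = Real.sin |z.im| := by rw [hz, Real.sin_pi_div_two_sub]
        rw [e, Real.abs_sin_eq_sin_abs_of_abs_le_pi (by rw [hz]; linarith)]
      have s1 := Real.sin_gt_sub_cube h0
      have s2 := Real.one_sub_sq_div_two_le_cos (x := ε)
      have : Real.exp (‖exp z‖ - |(exp z).im| + -ε * (exp z).re) ≤ 1 := by
        rw [Real.exp_le_one_iff, norm_exp, exp_im, exp_re, abs_mul, abs_of_pos (Real.exp_pos _),
          c1, c2]
        have : 1 - Real.cos ε - ε * Real.sin ε ≤ 0 := by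
          have a : ε ^ 4 ≤ ε ^ 2 := pow_le_pow_of_le_one h0.le h1 (by norm_num)
          nlinarith [mul_pos h0 h0]
        nlinarith [Real.exp_pos z.re]
      nlinarith
    have := PhragmenLindelof.horizontal_strip (f := g) (a := -(Real.pi / 2 - ε))
      (b := Real.pi / 2 - ε) (C := M) (z := Real.log x)
      (Differentiable.diffContOnCl (by fun_prop))
      ⟨1, by rw [lt_div_iff₀ (by linarith)]; linarith, 2,
        IsBigO.of_bound M (Eventually.of_forall fun z => by
          rw [hn, Real.norm_of_nonneg (Real.exp_pos _).le]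
          refine (mul_le_mul_of_nonneg_right (h _) (by positivity)).trans ?_
          rw [mul_assoc, ← Real.exp_add]
          have a1 : ‖exp z‖ ≤ Real.exp (1 * |z.re|) := by
            rw [norm_exp, one_mul]; exact Real.exp_le_exp.2 (le_abs_self _)
          have a2 := (neg_le_abs _).trans (abs_re_le_norm (exp z))
          have a3 := abs_nonneg (exp z).im
          gcongr
          nlinarith [norm_nonneg (exp z)])⟩
      (fun z hz => bd z (by rw [hz, abs_neg, abs_of_pos (by linarith)]))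
      (fun z hz => bd z (by rw [hz, abs_of_pos (by linarith)]))
      (by simp; linarith) (by simp; linarith)
    rw [hn, ← ofReal_exp, Real.exp_log hx, ofReal_re, neg_mul, Real.exp_neg,
      ← div_eq_mul_inv, div_le_iff₀ (Real.exp_pos _)] at this
    exact this
  have hc : Continuous fun ε : ℝ => M * Real.exp (ε * x) := by fun_prop
  have ht := (hc.tendsto 0).mono_left (nhdsWithin_le_nhds (s := Ioi 0))
  simp only [zero_mul, Real.exp_zero, mul_one] at ht
  refine ge_of_tendsto ht ?_
  filter_upwards [Ioc_mem_nhdsGT (zero_lt_one' ℝ)] with ε hε using key ε hε.1 hε.2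

theorem const_of_ind {Φ : ℂ → ℂ} (hΦ : Differentiable ℂ Φ) {M : ℝ} (hM : 0 ≤ M)
    (h : ∀ u, ‖Φ u‖ ≤ M * Real.exp (‖u‖ - |u.im|)) (z w : ℂ) : Φ z = Φ w := by
  refine const_of_axes hΦ (K := M) (c := 1) (C := M) (fun u => (h u).trans ?_) (fun x => ?_)
    (fun x => by simpa using h (x * I)) z w
  · gcongr; linarith [abs_nonneg u.im]
  · rcases lt_trichotomy x 0 with hx | hx | hx
    · have := bdd_pos (Φ := fun u => Φ (-u)) (by fun_prop) hM (fun u => by simpa using h (-u))
        (neg_pos.2 hx)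
      simpa using this
    · subst hx; simpa using h 0
    · exact bdd_pos hΦ hM h hx

end Pool.Agent.H66.Cvx
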