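import Mathlib

/-! Definition for MP_cfec29_an. -/

namespace Pool.Agent.H66.Cvx

/-- `T` is convex-cyclic: the convex hull of some orbit `{x, T x, T² x, ...}` is dense. -/
def ConvexCyclic {H : Type} [NormedAddCommGroup H] [InnerProductSpace ℂ H] (T : H →L[ℂ] H) :
    Prop :=
  ∃ x : H, Dense (convexHull ℝ (Set.range fun n : ℕ => (T ^ n) x))

end Pool.Agent.H66.Cvx
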