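import Pool.Agent.H66.Cvx1
import Pool.Agent.H66.CvxDefs

/-! The operator `U = 6 - i + S`; `-U` is convex-cyclic. -/

namespace Pool.Agent.H66.Cvx

open Complex Filter Set
open scoped InnerProductSpace ComplexConjugate Nat

noncomputable abbrev H := lp (fun _ : ℕ => ℂ) 2

theorem two_pos' : 0 < (2 : ENNReal).toReal := by norm_num

noncomputable def B : H →L[ℂ] H :=
  LinearMap.mkContinuous
    { toFun := fun f => ⟨fun n => f (n + 1), memℓp_gen
        ((summable_nat_add_iff 1).2 ((lp.memℓp f).summable two_pos'))⟩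
      map_add' := fun f g => by ext i; simp
      map_smul' := fun c f => by ext i; simp } 1 fun f =>
    lp.norm_le_of_tsum_le two_pos' (by positivity) (by
      rw [one_mul, lp.norm_rpow_eq_tsum two_pos',
        ((lp.memℓp f).summable two_pos').tsum_eq_zero_add]
      exact le_add_of_nonneg_left (by positivity))

theorem B_apply (f : H) (n : ℕ) : B f n = f (n + 1) := rfl

noncomputable def S : H →L[ℂ] H := ContinuousLinearMap.adjoint B

theorem inner_S (g x : H) : ⟪g, S x⟫_ℂ = ⟪B g, x⟫_ℂ := ContinuousLinearMap.adjoint_inner_right _ _ _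

noncomputable def e0 : H := lp.single 2 0 1

noncomputable def U : H →L[ℂ] H := (6 - I) • (1 : H →L[ℂ] H) + S

theorem inner_pow (j : ℕ) (g : H) : ⟪g, (S ^ j) e0⟫_ℂ = conj (g j) := by
  induction j generalizing g with
  | zero => simp [e0, lp.inner_single_right]
  | succ j ih => rw [pow_succ', ContinuousLinearMap.mul_apply, inner_S, ih, B_apply]

theorem egf (A : H →L[ℂ] H) (g x : H) (t : ℂ) :
    HasSum (fun n : ℕ => t ^ n / n ! * ⟪g, (A ^ n) x⟫_ℂ) ⟪g, NormedSpace.exp (t • A) x⟫_ℂ := by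
  have h := (NormedSpace.exp_series_hasSum_exp' (𝕂 := ℂ) (t • A)).mapL
    ((innerSL ℂ g).comp (ContinuousLinearMap.apply ℂ H x))
  refine (congrArg (HasSum · _) (funext fun n => ?_)).mp h
  simp [smul_pow, div_eq_mul_inv]
  ring

theorem hasSum_exp (r : ℝ) : HasSum (fun n : ℕ => r ^ n / n !) (Real.exp r) := by
  rw [Real.exp_eq_exp_ℝ]; exact NormedSpace.expSeries_div_hasSum_exp r

noncomputable def F (g : H) (j : ℕ) (u : ℂ) : ℂ := ⟪g, NormedSpace.exp (u • S) ((S ^ j) e0)⟫_ℂ

theorem F_deriv (g : H) (j : ℕ) (u : ℂ) : HasDerivAt (F g j) (F g (j + 1) u) u := by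
  have h := ((innerSL ℂ g).comp (ContinuousLinearMap.apply ℂ H ((S ^ j) e0))).hasFDerivAt.comp_hasDerivAt
    u (hasDerivAt_exp_smul_const (𝕂 := ℂ) S u)
  have e : F g (j + 1) u = ((innerSL ℂ g).comp (ContinuousLinearMap.apply ℂ H ((S ^ j) e0)))
      (NormedSpace.exp (u • S) * S) := by simp [F, pow_succ']
  rw [e]; exact h

theorem F_le (g : H) (u : ℂ) : ‖F g 0 u‖ ≤ ‖g‖ * Real.exp ‖u‖ := by
  have h := egf S g e0 u
  have : F g 0 u = ⟪g, NormedSpace.exp (u • S) e0⟫_ℂ := by simp [F]
  rw [this, ← h.tsum_eq]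
  refine tsum_of_norm_bounded ((hasSum_exp ‖u‖).mul_left ‖g‖) fun n => ?_
  rw [inner_pow, norm_mul, norm_div, norm_pow, norm_natCast, norm_conj, mul_comm]
  gcongr
  exact lp.norm_apply_le_norm two_ne_zero g n

theorem exp_U (g : H) (t : ℂ) :
    ⟪g, NormedSpace.exp (t • (-U)) e0⟫_ℂ = exp (-(6 - I) * t) * F g 0 (-t) := by
  have e : t • (-U) = algebraMap ℂ (H →L[ℂ] H) (-(6 - I) * t) + (-t) • S := by
    rw [Algebra.algebraMap_eq_smul_one, U]; module
  letI : NormedAlgebra ℚ (H →L[ℂ] H) := NormedAlgebra.restrictScalars ℚ ℂ _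
  rw [e, NormedSpace.exp_add_of_commute (Algebra.commutes _ _), ← NormedSpace.algebraMap_exp_comm,
    ← Complex.exp_eq_exp_ℂ, Algebra.algebraMap_eq_smul_one]
  simp [F]

theorem zero_of_bdd {g : H} {C : ℝ} (h : ∀ n, (⟪g, ((-U) ^ n) e0⟫_ℂ).re ≤ C) : g = 0 := by
  set a : ℕ → ℂ := fun n => ⟪g, ((-U) ^ n) e0⟫_ℂ with ha
  let A : ℂ → ℂ := fun t => exp (-(6 - I) * t) * F g 0 (-t)
  have hF : Differentiable ℂ (F g 0) := fun u => (F_deriv g 0 u).differentiableAt
  have hA : ∀ t, HasSum (fun n : ℕ => t ^ n / n ! * a n) (A t) := fun t => by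
    have := egf (-U) g e0 t
    rwa [exp_U] at this
  have hAd : Differentiable ℂ A := by fun_prop
  have hAb : ∀ t, ‖A t‖ ≤ ‖g‖ * Real.exp (-6 * t.re + |t.im| + ‖t‖) := fun t => by
    simp only [A]
    rw [norm_mul, norm_exp, mul_comm]
    refine (mul_le_mul_of_nonneg_right (F_le g _) (by positivity)).trans ?_
    rw [mul_assoc, ← Real.exp_add, norm_neg]
    have : (-(6 - I) * t).re = -6 * t.re - t.im := by simp
    rw [this]
    exact mul_le_mul_of_nonneg_left (Real.exp_le_exp.2 (by linarith [neg_abs_le t.im]))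
      (norm_nonneg _)
  let R : ℂ → ℂ := fun t => A t + conj (A (conj t))
  have hRd : Differentiable ℂ R := fun t => (hAd t).add (by
    have := (hAd (conj t)).conj_conj
    rwa [conj_conj] at this)
  have hR : ∀ t : ℂ, HasSum (fun n : ℕ => t ^ n / n ! * ((2 * (a n).re : ℝ) : ℂ)) (R t) := fun t => by
    have := (hA t).add (Complex.hasSum_conj'.2 (hA (conj t)))
    refine (congrArg (HasSum · _) (funext fun n => ?_)).mp this
    simp only [map_mul, map_div₀, map_pow, conj_conj, conj_natCast, ← mul_add, add_conj]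
  have hz := zero_of_two hRd (K := 2 * (2 * |C| + ‖g‖)) (M := 2 * ‖g‖) (by positivity)
    (by positivity) (fun t => ?_) (fun t => ?_)
  · let Φ : ℂ → ℂ := fun u => exp (-I * u) * F g 0 u
    have hΦ : ∀ u, Φ u = -conj (Φ (conj u)) := fun u => by
      have := hz (-u)
      simp only [R, A, map_neg, neg_neg, map_mul, ← exp_conj, map_sub, conj_I, conj_conj,
        map_ofNat] at this
      simp only [Φ, map_mul, ← exp_conj, map_neg, conj_I, conj_conj]
      rw [show -(6 - I) * -u = 6 * u + -I * u by ring, show -(6 - -I) * -u = 6 * u + - -I * u by ring,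
        exp_add, exp_add, mul_assoc, mul_assoc, ← mul_add, mul_eq_zero] at this
      exact eq_neg_of_add_eq_zero_left (this.resolve_left (exp_ne_zero _))
    have hb : ∀ u, ‖Φ u‖ ≤ ‖g‖ * Real.exp (‖u‖ + u.im) := fun u => by
      simp only [Φ]
      rw [norm_mul, norm_exp, mul_comm, Real.exp_add, ← mul_assoc]
      exact mul_le_mul (F_le g u) (by simp) (by positivity) (by positivity)
    have hc := const_of_ind (Φ := Φ) (by fun_prop) (norm_nonneg g) (fun u => by
      rcases le_total 0 u.im with h | h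
      · rw [hΦ, norm_neg, norm_conj, abs_of_nonneg h]; simpa [sub_eq_add_neg] using hb (conj u)
      · rw [abs_of_nonpos h, sub_neg_eq_add]; exact hb u)
    have hj : ∀ j, F g j = fun u => Φ 0 * I ^ j * exp (I * u) := by
      intro j
      induction j with
      | zero =>
        funext u
        rw [← hc u 0]
        simp only [Φ, pow_zero, mul_one]
        rw [mul_right_comm, ← exp_add]; simp
      | succ j ih =>
        funext u
        have h1 := F_deriv g j u
        rw [ih] at h1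
        have h2 := (((hasDerivAt_id u).const_mul I).cexp).const_mul (Φ 0 * I ^ j)
        rw [h1.unique h2]; simp; ring
    have hn : ∀ j, ‖g j‖ = ‖Φ 0‖ := fun j => by
      have := congrFun (hj j) 0
      simp only [F, zero_smul, NormedSpace.exp_zero, ContinuousLinearMap.one_apply, inner_pow,
        mul_zero, exp_zero, mul_one] at this
      rw [← norm_conj, this]; simp
    have hs := (lp.memℓp g).summable two_pos'
    simp only [hn, summable_const_iff] at hs
    ext j
    rw [lp.coeFn_zero, Pi.zero_apply, ← norm_eq_zero, hn]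
    simpa using hs
  · rw [← (hR t).tsum_eq]
    have h1 : HasSum (fun n : ℕ => ‖t‖ ^ n / n ! * (a n).re) (A ‖t‖).re := by
      have := Complex.hasSum_re (hA ‖t‖)
      refine (congrArg (HasSum · _) (funext fun n => ?_)).mp this
      rw [← ofReal_pow, ← ofReal_natCast, ← ofReal_div, re_ofReal_mul]
    refine (tsum_of_norm_bounded ((((hasSum_exp ‖t‖).mul_right (|C| + C)).sub h1).mul_left 2)
      fun n => ?_).trans ?_
    · rw [norm_mul, norm_div, norm_pow, Complex.norm_natCast, norm_real, Real.norm_eq_abs, ← mul_sub,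
        mul_left_comm]
      gcongr
      have := h n
      rw [abs_mul, abs_two]
      gcongr
      exact abs_le.2 ⟨by linarith [abs_nonneg C, le_abs_self C, neg_abs_le C],
        by linarith [le_abs_self C]⟩
    · have h2 := hAb ‖t‖
      have h3 := (neg_le_abs _).trans (abs_re_le_norm (A ‖t‖))
      have h4 : Real.exp (-6 * (‖t‖ : ℂ).re + |(‖t‖ : ℂ).im| + ‖(‖t‖ : ℂ)‖) ≤ Real.exp ‖t‖ := by
        gcongr; simp
      have h5 := mul_le_mul_of_nonneg_left h4 (norm_nonneg g)
      nlinarith [le_abs_self C, Real.exp_pos ‖t‖]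
  · refine (norm_add_le _ _).trans ?_
    have h1 := hAb t
    have h2 := hAb (conj t)
    simp only [conj_re, conj_im, abs_neg, norm_conj] at h2 ⊢
    linarith

theorem cc_of {K : Type} [NormedAddCommGroup K] [InnerProductSpace ℂ K] [CompleteSpace K]
    (T : K →L[ℂ] K) (x0 : K) (h : ∀ (g : K) (C : ℝ), (∀ n, (⟪g, (T ^ n) x0⟫_ℂ).re ≤ C) → g = 0) :
    ConvexCyclic T := by
  refine ⟨x0, fun x => ?_⟩
  by_contra hx
  obtain ⟨f, u, h1, h2⟩ := RCLike.geometric_hahn_banach_closed_point (𝕜 := ℂ)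
    (convex_convexHull ℝ _).closure isClosed_closure hx
  have hg := h ((InnerProductSpace.toDual ℂ K).symm f) u fun n => by
    rw [InnerProductSpace.toDual_symm_apply]
    exact (h1 _ (subset_closure (subset_convexHull ℝ _ ⟨n, rfl⟩))).le
  have hf : f = 0 := by simpa using hg
  have := h1 _ (subset_closure (subset_convexHull ℝ _ ⟨0, rfl⟩))
  subst hf
  simp at this h2
  linarith

theorem not_cc_of {K : Type} [NormedAddCommGroup K] [InnerProductSpace ℂ K] (T : K →L[ℂ] K)
    (h : ∀ x : K, ∃ (f : K →L[ℂ] ℂ) (C : ℝ), f ≠ 0 ∧ ∀ n, (f ((T ^ n) x)).re ≤ C) :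
    ¬ ConvexCyclic T := by
  rintro ⟨x, hx⟩
  obtain ⟨f, C, hf, hC⟩ := h x
  have hsub : convexHull ℝ (range fun n : ℕ => (T ^ n) x) ⊆ {y | (f y).re ≤ C} := by
    refine convexHull_min (by rintro _ ⟨n, rfl⟩; exact hC n) ?_
    intro y hy z hz a b ha hb hab
    simp only [mem_setOf_eq, map_add, ← Complex.coe_smul, map_smul, smul_eq_mul, add_re,
      re_ofReal_mul] at hy hz ⊢
    have : C = a * C + b * C := by rw [← add_mul, hab, one_mul]
    nlinarith [mul_le_mul_of_nonneg_left hy ha, mul_le_mul_of_nonneg_left hz hb]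
  have hall : ∀ y, (f y).re ≤ C := fun y =>
    closure_minimal hsub (isClosed_le (by fun_prop) continuous_const) (hx y)
  obtain ⟨y, hy⟩ : ∃ y, f y ≠ 0 := by
    by_contra h0; push Not at h0; exact hf (ContinuousLinearMap.ext h0)
  have := hall ((((C + 1 : ℝ) : ℂ) / f y) • y)
  rw [map_smul, smul_eq_mul, div_mul_cancel₀ _ hy, ofReal_re] at this
  linarith

theorem cc_neg_U : ConvexCyclic (-U) := cc_of _ e0 fun _ _ h => zero_of_bdd h

end Pool.Agent.H66.Cvx
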