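import Pool.Agent.H66.Cvx2

/-! Jensen: a bounded analytic function is not too small on most dyadic boundary arcs. -/

namespace Pool.Agent.H66.Cvx

open Complex Filter Set MeasureTheory Metric

theorem jensen_le {G : ℂ → ℂ} {r : ℝ} (hr : 0 < r) (hG : AnalyticOnNhd ℂ G (closedBall 0 |r|))
    (h0 : G 0 ≠ 0) : Real.log ‖G 0‖ ≤ Real.circleAverage (fun z => Real.log ‖G z‖) 0 r := by
  rw [hG.circleAverage_log_norm hr.ne' h0]
  refine le_add_of_nonneg_left (finsum_nonneg fun u => ?_)
  by_cases hu : u ∈ closedBall (0 : ℂ) |r|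
  · refine mul_nonneg (by exact_mod_cast MeromorphicOn.AnalyticOnNhd.divisor_nonneg hG u) ?_
    rcases eq_or_ne u 0 with rfl | h
    · simp
    · refine Real.log_nonneg ?_
      rw [zero_sub, norm_neg, ← div_eq_mul_inv, one_le_div (norm_pos_iff.2 h)]
      simpa [abs_of_pos hr] using hu
  · rw [Function.locallyFinsuppWithin.apply_eq_zero_of_notMem _ hu]; simp

theorem jensen_pts {G : ℂ → ℂ} (hG : DifferentiableOn ℂ G (ball 0 (1 / 2))) {M : ℝ}
    (hM : ∀ u ∈ ball (0 : ℂ) (1 / 2), ‖G u‖ ≤ M) (h0 : G 0 ≠ 0) {ε : ℝ} (hε : 0 < ε) :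
    ∀ᶠ k : ℕ in atTop, ∃ r α : ℝ, 1 / 2 - (1 / 2 ^ k) ^ 2 < r ∧ r < 1 / 2 ∧ 1 / 2 ^ k < α ∧
      α ≤ 2 / 2 ^ k ∧ Real.exp (-(ε * 2 ^ k)) ≤ ‖G (circleMap 0 r α)‖ := by
  by_contra hcon
  rw [not_eventually, Nat.frequently_atTop_iff_infinite] at hcon
  set L := Real.log (max M 1) with hL
  have hL0 : 0 ≤ L := Real.log_nonneg (le_max_right _ _)
  obtain ⟨N, hN⟩ := exists_nat_gt ((L - Real.log ‖G 0‖) * (2 * Real.pi) / ε)
  obtain ⟨F, hF, hc⟩ := hcon.exists_subset_card_eq N
  set K := F.sup id
  set r : ℝ := 1 / 2 - (1 / 2 ^ K) ^ 2 / 4 with hr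
  have hK1 : (1 / 2 ^ K : ℝ) ^ 2 ≤ 1 := pow_le_one₀ (by positivity)
    (div_le_one_of_le₀ (one_le_pow₀ one_le_two) (by positivity))
  have hK0 : (0 : ℝ) < (1 / 2 ^ K) ^ 2 := by positivity
  have hr0 : 0 < r := by linarith
  have hr1 : r < 1 / 2 := by linarith
  have hsub : closedBall (0 : ℂ) |r| ⊆ ball 0 (1 / 2) :=
    closedBall_subset_ball (by rwa [abs_of_pos hr0])
  have hA : AnalyticOnNhd ℂ G (closedBall 0 |r|) := (hG.analyticOnNhd isOpen_ball).mono hsub
  have hj := jensen_le hr0 hA h0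
  have hne : ∀ᵐ θ ∂(volume.restrict (Icc 0 (2 * Real.pi))), G (circleMap 0 r θ) ≠ 0 := by
    have h1 := (hA.eqOn_zero_or_eventually_ne_zero_of_preconnected
      (convex_closedBall _ _).isPreconnected).resolve_left fun h => h0 (h (by simp))
    apply ae_restrict_le_codiscreteWithin measurableSet_Icc
    exact codiscreteWithin_mono (subset_univ _) (circleMap_preimage_codiscrete hr0.ne'
      (codiscreteWithin_mono sphere_subset_closedBall h1))
  let b : ℕ → ℝ → ℝ := fun k => (Ioc (1 / 2 ^ k : ℝ) (2 / 2 ^ k)).indicator fun _ => ε * 2 ^ k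
  have hpi := Real.pi_gt_three
  have hbi : ∀ k, IntervalIntegrable (b k) volume 0 (2 * Real.pi) := fun k =>
    (((integrableOn_const (by simp)).integrable_indicator measurableSet_Ioc)).intervalIntegrable
  have hb : ∀ k, ∫ θ in (0 : ℝ)..(2 * Real.pi), b k θ = ε := fun k => by
    have h1 : (2 / 2 ^ k : ℝ) ≤ 2 := div_le_self two_pos.le (one_le_pow₀ one_le_two)
    have h2 : (1 / 2 ^ k : ℝ) ≤ 2 / 2 ^ k := by gcongr; norm_num
    rw [intervalIntegral.integral_of_le (by positivity), setIntegral_indicator measurableSet_Ioc,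
      inter_eq_right.2 (Ioc_subset_Ioc (by positivity) (by linarith)), setIntegral_const,
      Real.volume_real_Ioc_of_le h2, smul_eq_mul]
    field_simp; norm_num
  have hint : ∫ θ in (0 : ℝ)..(2 * Real.pi), Real.log ‖G (circleMap 0 r θ)‖ ≤
      ∫ θ in (0 : ℝ)..(2 * Real.pi), (L - ∑ k ∈ F, b k θ) := by
    refine intervalIntegral.integral_mono_ae_restrict (by positivity)
      (hA.mono sphere_subset_closedBall).meromorphicOn.circleIntegrable_log_norm
      (intervalIntegrable_const.sub (by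
        have := IntervalIntegrable.sum F fun k _ => hbi k
        rwa [Finset.sum_fn] at this)) ?_
    filter_upwards [hne] with θ hθ
    have hpos := norm_pos_iff.2 hθ
    by_cases hex : ∃ k ∈ F, θ ∈ Ioc (1 / 2 ^ k : ℝ) (2 / 2 ^ k)
    · obtain ⟨k, hk, hθk⟩ := hex
      rw [Finset.sum_eq_single k (fun j _ hjk => indicator_of_notMem (fun hj => ?_) _)
        (fun h => absurd hk h)]
      · have hbad := hF hk
        simp only [mem_setOf_eq, not_exists, not_and, not_le] at hbad
        have hkK : (1 / 2 ^ K : ℝ) ^ 2 ≤ (1 / 2 ^ k) ^ 2 := by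
          gcongr
          · norm_num
          · exact Finset.le_sup (f := id) hk
        have := Real.log_lt_log hpos (hbad r θ (by linarith) hr1 hθk.1 hθk.2)
        rw [Real.log_exp] at this
        simp only [b, indicator_of_mem hθk]
        linarith
      · have key : ∀ a c : ℕ, a < c → (2 / 2 ^ c : ℝ) ≤ 1 / 2 ^ a := fun a c h => by
          rw [div_le_div_iff₀ (by positivity) (by positivity), one_mul, ← pow_succ']
          exact pow_le_pow_right₀ one_le_two h
        rcases lt_or_gt_of_ne hjk with h | h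
        · linarith [key _ _ h, hj.1, hθk.2]
        · linarith [key _ _ h, hj.2, hθk.1]
    · push Not at hex
      rw [Finset.sum_eq_zero fun k hk => indicator_of_notMem (hex k hk) _, sub_zero]
      exact Real.log_le_log hpos ((hM _ (hsub (sphere_subset_closedBall
        (circleMap_mem_sphere' _ _ _)))).trans (le_max_left _ _))
  rw [intervalIntegral.integral_sub intervalIntegrable_const (by
        have := IntervalIntegrable.sum F fun k _ => hbi k
        rwa [Finset.sum_fn] at this), intervalIntegral.integral_finsetSum fun k _ => hbi k] at hint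
  simp only [hb, Finset.sum_const, hc, nsmul_eq_mul, intervalIntegral.integral_const, sub_zero,
    smul_eq_mul] at hint
  rw [Real.circleAverage_def, smul_eq_mul, ← div_eq_inv_mul, le_div_iff₀ (by positivity)] at hj
  rw [div_lt_iff₀ hε] at hN
  linarith

end Pool.Agent.H66.Cvx
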