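import Pool.Agent.H66.Cvx3

/-! `U` is not convex-cyclic. -/

namespace Pool.Agent.H66.Cvx

open Complex Filter Set Metric
open scoped InnerProductSpace ComplexConjugate

theorem pow_sub_le (u : ℂ) (n : ℕ) : ‖(1 + u) ^ n - 1‖ ≤ (1 + ‖u‖) ^ n - 1 := by
  induction n with
  | zero => simp
  | succ n ih =>
    have e : (1 + u) ^ (n + 1) - 1 = ((1 + u) ^ n - 1) * (1 + u) + u := by ring
    have h1 : ‖1 + u‖ ≤ 1 + ‖u‖ := (norm_add_le _ _).trans (by simp)
    rw [e]
    refine (norm_add_le _ _).trans ?_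
    rw [norm_mul, pow_succ]
    have := mul_le_mul ih h1 (norm_nonneg _) ((norm_nonneg _).trans ih)
    linarith

theorem re_pow_ge {w : ℂ} (hw : 5 ≤ w.re) {n : ℕ} (h : n * |w.im| ≤ 2) :
    w.re ^ n / 3 ≤ (w ^ n).re := by
  have h0 : 0 < w.re := by linarith
  set u : ℂ := ((w.im / w.re : ℝ) : ℂ) * I with hu
  have e : w = (w.re : ℂ) * (1 + u) := by
    apply Complex.ext <;> simp [hu]
    field_simp
  have hn : ‖u‖ = |w.im| / w.re := by simp [hu, abs_of_pos h0]
  have h1 : n * ‖u‖ ≤ 2 / 5 := by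
    rw [hn, ← mul_div_assoc, div_le_iff₀ h0]; linarith
  have h2 : (1 + ‖u‖) ^ n ≤ 5 / 3 := by
    calc (1 + ‖u‖) ^ n ≤ Real.exp ‖u‖ ^ n := by
          gcongr; linarith [Real.add_one_le_exp ‖u‖]
      _ = Real.exp (n * ‖u‖) := (Real.exp_nat_mul _ _).symm
      _ ≤ Real.exp (2 / 5) := Real.exp_le_exp.2 h1
      _ ≤ 1 / (1 - 2 / 5) := Real.exp_bound_div_one_sub_of_interval (by norm_num) (by norm_num)
      _ = 5 / 3 := by norm_num
  have h3 := (neg_le_abs _).trans ((abs_re_le_norm _).trans (pow_sub_le u n))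
  rw [sub_re, one_re] at h3
  conv_rhs => rw [e, mul_pow, ← ofReal_pow, re_ofReal_mul]
  have : 0 < w.re ^ n := by positivity
  nlinarith

theorem core {w : ℕ → ℂ} {k0 : ℕ} (hk0 : 5 ≤ k0)
    (hw : ∀ k ≥ k0, 6 - 1 / 2 ^ k ≤ (w k).re ∧ (w k).re ≤ 6 - 3 / 16 / 2 ^ k ∧
      |(w k).im| ≤ 2 / 4 ^ k) {n : ℕ} (hn : 4 ^ (k0 + 25) < n) {s : ℝ}
    (hs : HasSum (fun k => (if k0 ≤ k then 1 / 2 ^ k * Real.exp (-(1 / 196608 * 2 ^ k)) else 0) *
      (w k ^ n).re) s) : 0 ≤ s := by
  obtain ⟨m, hm0, hm1, hm2⟩ : ∃ m, k0 + 25 ≤ m ∧ 4 ^ m < n ∧ n ≤ 4 ^ (m + 1) := by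
    have h0 : n - 1 ≠ 0 := by have : 0 < 4 ^ (k0 + 25) := by positivity
                              omega
    refine ⟨Nat.log 4 (n - 1), Nat.le_log_of_pow_le (by norm_num) (by omega), ?_, ?_⟩
    · have := Nat.pow_log_le_self 4 h0; omega
    · have := Nat.lt_pow_succ_log_self (b := 4) (by norm_num) (n - 1)
      rw [Nat.succ_eq_add_one] at this; omega
  set y : ℝ := 2 ^ m with hy
  have hy0 : 0 < y := by positivity
  have h4 : (4 : ℝ) ^ m = y ^ 2 := by rw [hy, ← pow_mul, mul_comm, pow_mul]; norm_num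
  have hn1 : y ^ 2 ≤ n := by rw [← h4]; exact_mod_cast hm1.le
  have hn2 : (n : ℝ) ≤ 4 * y ^ 2 := by rw [← h4, ← pow_succ']; exact_mod_cast hm2
  set E : ℝ := 6 ^ n * Real.exp (-(y / 48)) with hE
  have hE0 : 0 < E := by positivity
  have good : ∀ k, m < k → (w k).re ^ n / 3 ≤ (w k ^ n).re ∧ 5 ≤ (w k).re := by
    intro k hk
    obtain ⟨a, -, c⟩ := hw k (by omega)
    have h5 : 5 ≤ (w k).re := by
      have : (1 / 2 ^ k : ℝ) ≤ 1 := div_le_one_of_le₀ (one_le_pow₀ one_le_two) (by positivity)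
      linarith
    refine ⟨re_pow_ge h5 ?_, h5⟩
    have : (n : ℝ) ≤ 4 ^ k := by exact_mod_cast hm2.trans (Nat.pow_le_pow_right (by norm_num) hk)
    calc n * |(w k).im| ≤ 4 ^ k * (2 / 4 ^ k) := by gcongr
      _ = 2 := by field_simp
  have hsum := hs.add (hasSum_geometric_two.mul_right E)
  have key := le_hasSum hsum (m + 9) fun k _ => ?_
  · rw [if_pos (by omega)] at key
    obtain ⟨g1, g2⟩ := good (m + 9) (by omega)
    obtain ⟨a, -, -⟩ := hw (m + 9) (by omega)
    have p9 : (2 : ℝ) ^ (m + 9) = 512 * y := by rw [pow_add, hy]; ring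
    rw [p9] at key a
    have hy1 : (2 : ℝ) ^ 25 ≤ y := pow_le_pow_right₀ one_le_two (by omega)
    have b1 : 6 * Real.exp (-(1 / (1536 * y))) ≤ (w (m + 9)).re := by
      have t0 : 0 < 1 / (1536 * y) := by positivity
      have t1 : 1 / (1536 * y) ≤ 1 := by rw [div_le_one (by positivity)]; linarith
      have t2 : 1 / (512 * y) = 3 * (1 / (1536 * y)) := by field_simp; norm_num
      set t := 1 / (1536 * y)
      have := Real.add_one_le_exp t
      rw [Real.exp_neg, ← div_eq_mul_inv, div_le_iff₀ (Real.exp_pos _)]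
      nlinarith
    have b2 : 6 ^ n * Real.exp (-(y / 384)) ≤ (w (m + 9)).re ^ n := by
      refine le_trans ?_ (pow_le_pow_left₀ (by positivity) b1 n)
      rw [mul_pow, ← Real.exp_nat_mul]
      gcongr
      rw [mul_neg, neg_le_neg_iff, mul_one_div, div_le_div_iff₀ (by positivity) (by positivity)]
      nlinarith
    have b3 : 3072 * y ≤ Real.exp (y / 64) := by
      have := Real.quadratic_le_exp_of_nonneg (show 0 ≤ y / 64 by positivity)
      nlinarith
    have b4 : 2 * E ≤ 1 / (512 * y) * Real.exp (-(1 / 196608 * (512 * y))) *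
        (6 ^ n * Real.exp (-(y / 384)) / 3) := by
      have e1 : Real.exp (-(1 / 196608 * (512 * y))) * Real.exp (-(y / 384)) =
          Real.exp (-(y / 48)) * Real.exp (y / 64) := by
        rw [← Real.exp_add, ← Real.exp_add]; congr 1; ring
      have e2 : 1 / (512 * y) * Real.exp (-(1 / 196608 * (512 * y))) *
        (6 ^ n * Real.exp (-(y / 384)) / 3) = E * Real.exp (y / 64) / (1536 * y) := by
        rw [hE, mul_assoc (6 ^ n), ← e1]; field_simp; norm_num
      rw [e2, le_div_iff₀ (by positivity)]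
      nlinarith
    have b5 : 1 / (512 * y) * Real.exp (-(1 / 196608 * (512 * y))) *
        (6 ^ n * Real.exp (-(y / 384)) / 3) ≤
        1 / (512 * y) * Real.exp (-(1 / 196608 * (512 * y))) * (w (m + 9) ^ n).re := by
      gcongr; linarith
    have : 0 ≤ (1 / 2 : ℝ) ^ (m + 9) * E := by positivity
    linarith
  · split_ifs with hk
    · rcases lt_or_ge m k with h | h
      · obtain ⟨g1, g2⟩ := good k h
        have : 0 ≤ (w k ^ n).re := le_trans (by positivity) g1
        positivity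
      · obtain ⟨a, b, c⟩ := hw k hk
        have p1 : (32 : ℝ) ≤ 2 ^ k :=
          le_trans (by norm_num) (pow_le_pow_right₀ one_le_two (hk0.trans hk))
        have p2 : (2 : ℝ) ^ k ≤ y := pow_le_pow_right₀ one_le_two h
        have p3 : (4 : ℝ) ^ k = 2 ^ k * 2 ^ k := by rw [← mul_pow]; norm_num
        set x : ℝ := 2 ^ k
        have c1 : 2 / 4 ^ k ≤ 1 / 16 / x := by
          rw [p3, div_le_div_iff₀ (by positivity) (by positivity)]; nlinarith
        have c2 : ‖w k‖ ≤ 6 * Real.exp (-(1 / 48 / x)) := by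
          have t1 := Real.add_one_le_exp (-(1 / 48 / x))
          have t2 := norm_le_abs_re_add_abs_im (w k)
          have t3 : (1 / x : ℝ) ≤ 1 := by rw [div_le_one (by positivity)]; linarith
          rw [abs_of_pos (by linarith : 0 < (w k).re)] at t2
          have e1 : 3 / 16 / x = 9 * (1 / 48 / x) := by field_simp; norm_num
          have e2 : 1 / 16 / x = 3 * (1 / 48 / x) := by field_simp; norm_num
          linarith
        have c3 : ‖w k ^ n‖ ≤ E := by
          rw [norm_pow]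
          refine (pow_le_pow_left₀ (norm_nonneg _) c2 n).trans ?_
          rw [mul_pow, ← Real.exp_nat_mul, hE]
          gcongr
          rw [mul_neg, neg_le_neg_iff, ← mul_div_assoc, le_div_iff₀ (by positivity)]
          nlinarith
        have c4 := (neg_le_abs _).trans ((abs_re_le_norm _).trans c3)
        have c5 : Real.exp (-(1 / 196608 * x)) ≤ 1 := Real.exp_le_one_iff.2 (by linarith)
        have c6 := Real.exp_pos (-(1 / 196608 * x))
        rw [one_div (2 : ℝ), inv_pow, ← one_div, mul_assoc, ← mul_add]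
        refine mul_nonneg (by positivity) ?_
        nlinarith
    · rw [zero_mul, zero_add]; positivity

theorem kz_sum {z : ℂ} (h : ‖z‖ < 1) :
    HasSum (fun n : ℕ => ‖conj z ^ n‖ ^ (2 : ENNReal).toReal) (1 - ‖z‖ ^ 2)⁻¹ := by
  have := hasSum_geometric_of_lt_one (sq_nonneg ‖z‖) (by nlinarith [norm_nonneg z])
  refine (congrArg (HasSum · _) (funext fun n => ?_)).mp this
  simp [← pow_mul, mul_comm]

noncomputable def kz (z : ℂ) (h : ‖z‖ < 1) : H := ⟨fun n => conj z ^ n, memℓp_gen (kz_sum h).summable⟩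

theorem kz_apply (z : ℂ) (h : ‖z‖ < 1) (n : ℕ) : kz z h n = conj z ^ n := rfl

noncomputable def X (x : H) (z : ℂ) : ℂ := ∑' n, z ^ n * x n

theorem inner_kz (z : ℂ) (h : ‖z‖ < 1) (x : H) : ⟪kz z h, x⟫_ℂ = X x z := by
  rw [lp.inner_eq_tsum, X]
  exact tsum_congr fun n => by simp [kz_apply, mul_comm]

theorem inner_U (z : ℂ) (h : ‖z‖ < 1) (x : H) (n : ℕ) :
    ⟪kz z h, (U ^ n) x⟫_ℂ = (6 - I + z) ^ n * X x z := by
  have hB : B (kz z h) = conj z • kz z h := by
    ext n; simp [B_apply, kz_apply, pow_succ']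
  induction n with
  | zero => simp [inner_kz]
  | succ n ih =>
    rw [pow_succ', ContinuousLinearMap.mul_apply, U, ContinuousLinearMap.add_apply,
      inner_add_right, inner_S, hB, inner_smul_left, ContinuousLinearMap.smul_apply,
      inner_smul_right, ContinuousLinearMap.one_apply, ← U, ih, conj_conj]
    ring

theorem horo {u : ℂ} (hu : ‖u‖ < 1 / 2) : ‖I / 2 + I * u‖ < 1 := by
  refine (norm_add_le _ _).trans_lt ?_
  simp; linarith

theorem norm_kz {u : ℂ} (hu : ‖u‖ < 1 / 2) :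
    ‖kz _ (horo hu)‖ * ‖u - 1 / 2‖ ≤ 1 := by
  have h1 := (lp.hasSum_norm two_pos' (kz _ (horo hu))).unique (kz_sum (horo hu))
  have h2 : ‖u - 1 / 2‖ ^ 2 ≤ 1 - ‖I / 2 + I * u‖ ^ 2 := by
    have : ‖u‖ ^ 2 ≤ (1 / 2) ^ 2 := by gcongr
    simp only [Complex.sq_norm, normSq_apply] at this ⊢
    simp
    nlinarith
  have h3 : 0 < 1 - ‖I / 2 + I * u‖ ^ 2 := by nlinarith [horo hu, norm_nonneg (I / 2 + I * u)]
  simp only [ENNReal.toReal_ofNat, Real.rpow_ofNat] at h1
  refine abs_le_of_sq_le_sq' ?_ zero_le_one |>.2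
  rw [mul_pow, h1, inv_mul_le_iff₀ h3]; linarith

theorem X_diff (x : H) : DifferentiableOn ℂ (X x) (ball 0 1) := by
  intro z hz
  obtain ⟨r, h1, h2⟩ := exists_between (mem_ball_zero_iff.1 hz)
  have h0 : 0 ≤ r := (norm_nonneg _).trans h1.le
  have := Complex.differentiableOn_tsum_of_summable_norm (F := fun n z => z ^ n * x n)
    (U := ball 0 r) ((summable_geometric_of_lt_one h0 h2).mul_right ‖x‖)
    (fun n => by fun_prop) isOpen_ball fun n w hw => by
      rw [norm_mul, norm_pow]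
      gcongr
      · exact (mem_ball_zero_iff.1 hw).le
      · exact lp.norm_apply_le_norm two_ne_zero x n
  exact (this.differentiableAt (isOpen_ball.mem_nhds (mem_ball_zero_iff.2 h1))).differentiableWithinAt

theorem pts (x : H) (h0 : X x (I / 2) ≠ 0) : ∃ k0 ≥ 5, ∀ k : ℕ, ∃ u : ℂ, ‖u‖ < 1 / 2 ∧ (k0 ≤ k →
    (6 - 1 / 2 ^ k ≤ (6 - I + (I / 2 + I * u)).re ∧
      (6 - I + (I / 2 + I * u)).re ≤ 6 - 3 / 16 / 2 ^ k ∧
      |(6 - I + (I / 2 + I * u)).im| ≤ 2 / 4 ^ k) ∧
    Real.exp (-(1 / 196608 * 2 ^ k)) ≤ ‖X x (I / 2 + I * u)‖ * ‖u - 1 / 2‖) := by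
  have hj := jensen_pts (G := fun u => X x (I / 2 + I * u) * (u - 1 / 2)) (M := ‖x‖)
    (((X_diff x).comp (by fun_prop) fun u hu =>
      mem_ball_zero_iff.2 (horo (mem_ball_zero_iff.1 hu))).mul (by fun_prop))
    (fun u hu => by
      have hu := mem_ball_zero_iff.1 hu
      rw [norm_mul, ← inner_kz _ (horo hu)]
      refine (mul_le_mul_of_nonneg_right (norm_inner_le_norm _ _) (norm_nonneg _)).trans ?_
      rw [mul_right_comm]
      exact mul_le_of_le_one_left (norm_nonneg _) (norm_kz hu))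
    (by simpa using h0) (ε := 1 / 196608) (by norm_num)
  obtain ⟨k1, hk1⟩ := eventually_atTop.1 hj
  refine ⟨max k1 5, le_max_right _ _, fun k => ?_⟩
  by_cases hk : max k1 5 ≤ k
  · obtain ⟨r, α, h1, h2, h3, h4, h5⟩ := hk1 k (le_of_max_le_left hk)
    have p1 : (32 : ℝ) ≤ 2 ^ k :=
      le_trans (by norm_num) (pow_le_pow_right₀ one_le_two (le_of_max_le_right hk))
    have p3 : (2 : ℝ) / 4 ^ k = 2 * (1 / 2 ^ k) ^ 2 := by
      rw [div_pow, ← pow_mul, mul_comm k, pow_mul]; norm_num; ring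
    have p4 : (2 : ℝ) / 2 ^ k = 2 * (1 / 2 ^ k) := by ring
    have p5 : (3 : ℝ) / 16 / 2 ^ k = 3 / 16 * (1 / 2 ^ k) := by ring
    rw [p4] at h4
    rw [p3, p5]
    set d : ℝ := 1 / 2 ^ k
    have d0 : 0 < d := by positivity
    have d1 : d ≤ 1 / 32 := one_div_le_one_div_of_le (by norm_num) p1
    have r0 : 1 / 4 ≤ r := by nlinarith
    have a0 : 0 < α := by linarith
    have s1 := Real.sin_gt_sub_cube a0
    have s2 := Real.sin_le a0.le
    have s3 := Real.one_sub_sq_div_two_le_cos (x := α)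
    have s4 := Real.cos_le_one α
    have s5 : 3 / 4 * d ≤ Real.sin α := by
      have : α ^ 2 ≤ 1 := by nlinarith
      nlinarith
    have e1 : (6 - I + (I / 2 + I * circleMap 0 r α)).re = 6 - r * Real.sin α := by
      simp [circleMap, exp_ofReal_mul_I_im, exp_ofReal_mul_I_re]; ring
    have e2 : (6 - I + (I / 2 + I * circleMap 0 r α)).im = -(1 / 2 - r * Real.cos α) := by
      simp [circleMap, exp_ofReal_mul_I_im, exp_ofReal_mul_I_re]; ring
    refine ⟨circleMap 0 r α, by simp [abs_of_pos (by linarith : 0 < r)]; linarith, fun _ => ⟨?_, ?_⟩⟩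
    · rw [e1, e2, abs_neg, abs_of_nonneg (by nlinarith)]
      have : α ^ 2 ≤ 4 * d ^ 2 := by nlinarith
      refine ⟨by nlinarith, by nlinarith, by nlinarith⟩
    · rwa [norm_mul] at h5
  · exact ⟨0, by simp, fun h => absurd h hk⟩

theorem not_cc_U : ¬ ConvexCyclic U := by
  refine not_cc_of U fun x => ?_
  by_cases h0 : X x (I / 2) = 0
  · have h : ‖I / 2‖ < 1 := by simp; norm_num
    refine ⟨innerSL ℂ (kz _ h), 0, fun hf => ?_, fun n => by
      rw [innerSL_apply_apply, inner_U, h0, mul_zero, zero_re]⟩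
    have := inner_pow 0 (kz _ h)
    rw [← innerSL_apply_apply, hf] at this
    simp [kz_apply] at this
  obtain ⟨k0, hk0, hu⟩ := pts x h0
  choose u hu1 hu2 using hu
  let ω : ℕ → ℝ := fun k => if k0 ≤ k then 1 / 2 ^ k * Real.exp (-(1 / 196608 * 2 ^ k)) else 0
  have hω : ∀ k, 0 ≤ ω k := fun k => by simp only [ω]; split_ifs <;> positivity
  let c : ℕ → H →L[ℂ] ℂ := fun k => (-(ω k : ℂ) / X x (I / 2 + I * u k)) • innerSL ℂ (kz _ (horo (hu1 k)))
  have hX : ∀ k, k0 ≤ k → X x (I / 2 + I * u k) ≠ 0 := fun k hk h => by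
    have := (hu2 k hk).2
    rw [h, norm_zero, zero_mul] at this
    exact (Real.exp_pos _).not_ge this
  have hc : Summable c := Summable.of_norm_bounded summable_geometric_two fun k => by
    simp only [c, ω, norm_smul, innerSL_apply_norm]
    split_ifs with hk
    · rw [norm_div, norm_neg, norm_real, Real.norm_of_nonneg (by positivity), div_mul_eq_mul_div,
        div_le_iff₀ (norm_pos_iff.2 (hX k hk)), one_div (2 : ℝ), inv_pow, ← one_div, mul_assoc]
      gcongr
      refine (mul_le_mul_of_nonneg_right (hu2 k hk).2 (norm_nonneg _)).trans ?_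
      rw [mul_assoc, mul_comm ‖u k - 1 / 2‖]
      exact mul_le_of_le_one_right (norm_nonneg _) (norm_kz (hu1 k))
    · simp
  have hs : ∀ n, HasSum (fun k => ω k * ((6 - I + (I / 2 + I * u k)) ^ n).re)
      (-((∑' k, c k) ((U ^ n) x)).re) := fun n => by
    have := (Complex.hasSum_re (hc.hasSum.mapL (ContinuousLinearMap.apply ℂ ℂ ((U ^ n) x)))).neg
    refine (congrArg (HasSum · _) (funext fun k => ?_)).mp this
    simp only [c, ContinuousLinearMap.apply_apply, ContinuousLinearMap.smul_apply,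
      innerSL_apply_apply, inner_U, smul_eq_mul]
    by_cases hk : k0 ≤ k
    · rw [mul_left_comm, div_mul_cancel₀ _ (hX k hk), mul_neg, neg_re, neg_neg, mul_comm,
        re_ofReal_mul]
    · simp [ω, hk]
  refine ⟨∑' k, c k, ∑ n ∈ Finset.range (4 ^ (k0 + 25) + 1), ‖(∑' k, c k) ((U ^ n) x)‖,
    fun hf => ?_, fun n => ?_⟩
  · have := le_hasSum (hs 0) k0 fun k _ => by simpa using hω k
    rw [hf] at this
    simp only [ω, le_refl, if_true, pow_zero, one_re, mul_one, ContinuousLinearMap.zero_apply,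
      zero_re, neg_zero] at this
    exact this.not_gt (by positivity)
  · rcases lt_or_ge (4 ^ (k0 + 25)) n with h | h
    · have := core hk0 (fun k hk => (hu2 k hk).1) h (hs n)
      exact le_trans (by linarith) (Finset.sum_nonneg fun _ _ => norm_nonneg _)
    · exact (re_le_norm _).trans (Finset.single_le_sum
        (f := fun n => ‖(∑' k, c k) ((U ^ n) x)‖) (fun _ _ => norm_nonneg _)
        (Finset.mem_range.2 (by omega)))

end Pool.Agent.H66.Cvx
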