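import Pool.Agent.H66.EndDefs

/-! Down-posets. -/

namespace Pool.Agent.H66.Down

open Pool.Agent.H66.Sharp

/-- the poset is isomorphic to the order of an action of a semilattice with identity -/
def IsDown (I : ℕ × List (ℕ × ℕ)) : Prop :=
  ∃ (S C : Type) (mul : S → S → S) (one : S) (act : C → S → C) (e : Fin I.1 ≃ C),
    (∀ s, mul s s = s) ∧ (∀ s t, mul s t = mul t s) ∧
    (∀ s t u, mul (mul s t) u = mul s (mul t u)) ∧ (∀ s, mul one s = s) ∧
    (∀ c s t, act c (mul s t) = act (act c s) t) ∧ (∀ c, act c one = c) ∧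
    ∀ x y, relOf I x y ↔ ∃ s, act (e y) s = e x

end Pool.Agent.H66.Down
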