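import Pool.Agent.H66.SharpDefs

/-! Counting order-preserving self-maps of a finite poset. -/

namespace Pool.Agent.H66.Sharp

/-- the relation on `Fin n` given by a list of pairs -/
def relOf (I : ℕ × List (ℕ × ℕ)) (x y : Fin I.1) : Prop := (x.val, y.val) ∈ I.2

/-- the list of pairs is a partial order on `Fin n` -/
def IsPoset (I : ℕ × List (ℕ × ℕ)) : Prop :=
  (∀ p ∈ I.2, p.1 < I.1 ∧ p.2 < I.1) ∧ (∀ x, relOf I x x) ∧
    (∀ x y, relOf I x y → relOf I y x → x = y) ∧ ∀ x y z, relOf I x y → relOf I y z → relOf I x z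

/-- the number of order-preserving self-maps -/
noncomputable def endCount (I : ℕ × List (ℕ × ℕ)) : ℕ :=
  Nat.card {f : Fin I.1 → Fin I.1 // ∀ x y, relOf I x y → relOf I (f x) (f y)}

end Pool.Agent.H66.Sharp
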