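import Pool.Agent.H66.Sharp4
import Pool.Agent.H66.EndDefs

namespace Pool.Agent.H66.Sharp

open Function Pool.Agent.H38.NP Pool.Agent.H38.ER Finset

abbrev Hm {α β : Type} (r : α → α → Prop) (s : β → β → Prop) :=
  {f : α → β // ∀ x y, r x y → s (f x) (f y)}

section
variable {α β γ δ : Type}

theorem hm_congr {r : α → α → Prop} {s : β → β → Prop} {r' : γ → γ → Prop} {s' : δ → δ → Prop}
    (e : α ≃ γ) (e' : β ≃ δ) (h : ∀ x y, r x y ↔ r' (e x) (e y))
    (h' : ∀ x y, s x y ↔ s' (e' x) (e' y)) : Nat.card (Hm r s) = Nat.card (Hm r' s') :=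
  Nat.card_congr ((e.arrowCongr e').subtypeEquiv fun f => by
    constructor
    · intro H x y hxy
      exact (h' _ _).1 (H _ _ ((h _ _).2 (by simpa using hxy)))
    · intro H x y hxy
      exact (h' _ _).2 (by simpa using H _ _ ((h _ _).1 hxy)))

theorem hm_left (r : α → α → Prop) (s : β → β → Prop) (t : γ → γ → Prop) :
    Nat.card (Hm (Sum.LiftRel r s) t) = Nat.card (Hm r t) * Nat.card (Hm s t) := by
  rw [← Nat.card_prod]
  refine Nat.card_congr ⟨fun f => (⟨f.1 ∘ Sum.inl, fun x y h => f.2 _ _ (.inl h)⟩,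
    ⟨f.1 ∘ Sum.inr, fun x y h => f.2 _ _ (.inr h)⟩), fun p => ⟨Sum.elim p.1.1 p.2.1, ?_⟩, ?_, ?_⟩
  · rintro _ _ (h | h)
    · exact p.1.2 _ _ h
    · exact p.2.2 _ _ h
  · intro f; ext (x | x) <;> rfl
  · intro p; rfl

theorem hm_right [Finite α] [Finite β] [Finite γ] (r : α → α → Prop) (s : β → β → Prop)
    (t : γ → γ → Prop) (b : α) (hb : ∀ x, r b x) :
    Nat.card (Hm r (Sum.LiftRel s t)) = Nat.card (Hm r s) + Nat.card (Hm r t) := by
  rw [← Nat.card_sum]
  refine (Nat.card_congr (Equiv.ofBijective (Sum.elim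
    (fun f : Hm r s => (⟨Sum.inl ∘ f.1, fun x y h => .inl (f.2 _ _ h)⟩ : Hm r (Sum.LiftRel s t)))
    (fun f : Hm r t => ⟨Sum.inr ∘ f.1, fun x y h => .inr (f.2 _ _ h)⟩)) ⟨?_, ?_⟩)).symm
  · rintro (f | f) (g | g) e
    · congr 1; ext x; simpa using congrFun (congrArg Subtype.val e) x
    · simpa using congrFun (congrArg Subtype.val e) b
    · simpa using congrFun (congrArg Subtype.val e) b
    · congr 1; ext x; simpa using congrFun (congrArg Subtype.val e) x
  · rintro ⟨f, hf⟩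
    cases e : f b with
    | inl c =>
      have : ∀ x, ∃ y, f x = Sum.inl y := fun x => by
        have := hf _ _ (hb x); rw [e] at this
        generalize f x = z at this; cases this; exact ⟨_, rfl⟩
      choose g hg using this
      refine ⟨Sum.inl ⟨g, fun x y h => ?_⟩, Subtype.ext (funext fun x => (hg x).symm)⟩
      have := hf _ _ h; rw [hg, hg] at this; simpa using this
    | inr c =>
      have : ∀ x, ∃ y, f x = Sum.inr y := fun x => by
        have := hf _ _ (hb x); rw [e] at this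
        generalize f x = z at this; cases this; exact ⟨_, rfl⟩
      choose g hg using this
      refine ⟨Sum.inr ⟨g, fun x y h => ?_⟩, Subtype.ext (funext fun x => (hg x).symm)⟩
      have := hf _ _ h; rw [hg, hg] at this; simpa using this

theorem hm_two (r : α → α → Prop) (hr : ∀ x, r x x) :
    Nat.card (Hm (fun x y : Fin 2 => x ≤ y) r) = Nat.card {p : α × α // r p.1 p.2} := by
  refine Nat.card_congr ⟨fun f => ⟨(f.1 0, f.1 1), f.2 _ _ (by decide)⟩,
    fun p => ⟨![p.1.1, p.1.2], ?_⟩, ?_, ?_⟩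
  · intro x y h
    fin_cases x <;> fin_cases y
    · exact hr _
    · exact p.2
    · simp at h
    · exact hr _
  · intro f; ext x; fin_cases x <;> rfl
  · intro p; rfl

theorem hm_sum [Finite α] (r : α → α → Prop) (hr : ∀ x, r x x) (b : α) (hb : ∀ x, r b x) :
    Nat.card (Hm (Sum.LiftRel r fun x y : Fin 2 => x ≤ y) (Sum.LiftRel r fun x y : Fin 2 => x ≤ y))
      = (Nat.card (Hm r r) + Nat.card (Hm r fun x y : Fin 2 => x ≤ y)) *
        (Nat.card {p : α × α // r p.1 p.2} + 3) := by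
  rw [hm_left, hm_right _ _ _ b hb, hm_right _ _ _ (0 : Fin 2) (Fin.zero_le), hm_two r hr,
    hm_two _ (fun x => le_refl x)]
  congr 2
  rw [Nat.card_eq_fintype_card]; decide

end

def plus2 (I : ℕ × List (ℕ × ℕ)) : ℕ × List (ℕ × ℕ) :=
  (I.1 + 2, I.2 ++ [(I.1, I.1), (I.1, I.1 + 1), (I.1 + 1, I.1 + 1)])

theorem plus2_rel {I : ℕ × List (ℕ × ℕ)} (h : ∀ p ∈ I.2, p.1 < I.1 ∧ p.2 < I.1)
    (x y : Fin I.1 ⊕ Fin 2) : Sum.LiftRel (relOf I) (fun x y : Fin 2 => x ≤ y) x y ↔
      relOf (plus2 I) (finSumFinEquiv x) (finSumFinEquiv y) := by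
  have h' : ∀ a b, (a, b) ∈ I.2 → a < I.1 ∧ b < I.1 := fun a b e => h _ e
  rcases x with x | x <;> rcases y with y | y <;>
    simp only [relOf, plus2, finSumFinEquiv_apply_left, finSumFinEquiv_apply_right,
      Fin.val_castAdd, Fin.val_natAdd, List.mem_append, List.mem_cons, Prod.mk.injEq,
      List.not_mem_nil, or_false, Sum.liftRel_inl_inl, Sum.liftRel_inr_inr,
      Sum.not_liftRel_inl_inr, Sum.not_liftRel_inr_inl, false_iff, Fin.le_def]
  · have := x.2; have := y.2
    exact ⟨Or.inl, fun h => h.resolve_right (by omega)⟩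
  · have := x.2; have := h' x (I.1 + y); rintro (h | h)
    · have := this h; omega
    · omega
  · have := y.2; have := h' (I.1 + x) y; rintro (h | h)
    · have := this h; omega
    · omega
  · have := x.2; have := y.2; have := h' (I.1 + x) (I.1 + y)
    refine ⟨fun h => Or.inr (by omega), fun h => ?_⟩
    rcases h with h | h
    · have := this h; omega
    · omega

theorem plus2_poset {I : ℕ × List (ℕ × ℕ)} (h : IsPoset I) : IsPoset (plus2 I) := by
  have e := fun x y => (plus2_rel h.1 x y).symm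
  have s : ∀ x : Fin (plus2 I).1, ∃ y : Fin I.1 ⊕ Fin 2, finSumFinEquiv y = x :=
    finSumFinEquiv.surjective
  refine ⟨fun p hp => ?_, fun x => ?_, fun x y => ?_, fun x y z => ?_⟩
  · simp only [plus2, List.mem_append, List.mem_cons, List.not_mem_nil, or_false] at hp ⊢
    rcases hp with hp | rfl | rfl | rfl
    · have := h.1 p hp; omega
    all_goals simp
  · obtain ⟨x, rfl⟩ := s x
    rw [e]; rcases x with x | x
    · exact .inl (h.2.1 x)
    · exact .inr le_rfl
  · obtain ⟨x, rfl⟩ := s x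
    obtain ⟨y, rfl⟩ := s y
    rw [e, e]
    rintro (h1 | h1) h2
    · rw [h.2.2.1 _ _ h1 (by simpa using h2)]
    · rw [le_antisymm h1 (by simpa using h2)]
  · obtain ⟨x, rfl⟩ := s x
    obtain ⟨y, rfl⟩ := s y
    obtain ⟨z, rfl⟩ := s z
    rw [e, e, e]
    rintro (h1 | h1) h2
    · cases h2 with
      | inl h2 => exact .inl (h.2.2.2 _ _ _ h1 h2)
    · cases h2 with
      | inr h2 => exact .inr (le_trans h1 h2)

/-- number of comparable pairs -/
def prs (I : ℕ × List (ℕ × ℕ)) : ℕ :=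
  ((List.range I.1).product (List.range I.1)).countP fun p => decide (p ∈ I.2)

theorem prs_eq (I : ℕ × List (ℕ × ℕ)) :
    Nat.card {p : Fin I.1 × Fin I.1 // relOf I p.1 p.2} = prs I := by
  have hn : (((List.range I.1).product (List.range I.1)).filter fun p => decide (p ∈ I.2)).Nodup :=
    (List.nodup_range.product List.nodup_range).filter _
  rw [prs, List.countP_eq_length_filter, ← List.toFinset_card_of_nodup hn, ← Nat.card_eq_finsetCard]
  refine Nat.card_congr (Equiv.ofBijective (fun p => ⟨(p.1.1.val, p.1.2.val), ?_⟩) ⟨?_, ?_⟩)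
  · simpa [relOf, List.product] using p.2
  · intro p q e
    simp only [Subtype.mk.injEq, Prod.mk.injEq] at e
    exact Subtype.ext (Prod.ext (Fin.ext e.1) (Fin.ext e.2))
  · rintro ⟨⟨a, b⟩, h⟩
    simp only [List.mem_toFinset, List.mem_filter, decide_eq_true_eq] at h
    have h1 : a < I.1 ∧ b < I.1 := by simpa [List.product] using h.1
    exact ⟨⟨(⟨a, h1.1⟩, ⟨b, h1.2⟩), h.2⟩, rfl⟩

/-- number of up-sets -/
def ups (I : ℕ × List (ℕ × ℕ)) : ℕ :=
  ((range I.1).powerset.filter fun U => ∀ p ∈ I.2, p.1 ∈ U → p.2 ∈ U).card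

theorem ups_eq {I : ℕ × List (ℕ × ℕ)} (h : ∀ p ∈ I.2, p.1 < I.1 ∧ p.2 < I.1) :
    Nat.card (Hm (relOf I) fun x y : Fin 2 => x ≤ y) = ups I := by
  rw [ups, ← Nat.card_eq_finsetCard]
  symm
  refine Nat.card_congr (Equiv.ofBijective (fun U => ⟨fun x => if x.val ∈ U.1 then 1 else 0,
    fun x y hxy => ?_⟩) ⟨?_, ?_⟩)
  · have := (mem_filter.1 U.2).2 _ hxy
    by_cases hx : x.val ∈ U.1
    · simp [hx, this hx]
    · simp [hx]
  · rintro ⟨U, hU⟩ ⟨V, hV⟩ e
    have hU' := mem_powerset.1 (mem_filter.1 hU).1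
    have hV' := mem_powerset.1 (mem_filter.1 hV).1
    have e' := fun x => congrFun (congrArg Subtype.val e) x
    refine Subtype.ext (Finset.ext fun z => ⟨fun hz => ?_, fun hz => ?_⟩)
    · simpa [hz] using e' ⟨z, mem_range.1 (hU' hz)⟩
    · simpa [hz] using e' ⟨z, mem_range.1 (hV' hz)⟩
  · rintro ⟨f, hf⟩
    refine ⟨⟨(range I.1).filter fun z => ∃ h : z < I.1, f ⟨z, h⟩ = 1, mem_filter.2
      ⟨mem_powerset.2 (filter_subset _ _), fun p hp h1 => ?_⟩⟩, Subtype.ext (funext fun x => ?_)⟩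
    · obtain ⟨-, h2, e⟩ := mem_filter.1 h1
      refine mem_filter.2 ⟨mem_range.2 (h p hp).2, (h p hp).2, ?_⟩
      have := hf ⟨p.1, h2⟩ ⟨p.2, (h p hp).2⟩ hp
      rw [e] at this
      exact le_antisymm (Fin.le_last _) this
    · simp only [mem_filter, mem_range, x.2, true_and, exists_true_left, Fin.eta]
      generalize f x = y
      fin_cases y <;> simp

theorem end_plus2 {I : ℕ × List (ℕ × ℕ)} (h : IsPoset I) (b : Fin I.1) (hb : ∀ x, relOf I b x) :
    endCount (plus2 I) = (endCount I + ups I) * (prs I + 3) := by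
  rw [← prs_eq, ← ups_eq h.1]
  exact (hm_congr finSumFinEquiv finSumFinEquiv (plus2_rel h.1) (plus2_rel h.1)).symm.trans
    (hm_sum _ h.2.1 b hb)

end Pool.Agent.H66.Sharp
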