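import Pool.Agent.H66.End1

namespace Pool.Agent.H66.Sharp

open Function Pool.Agent.H38.NP Pool.Agent.H38.ER Finset

abbrev MI := ℕ × List (Bool × List ℕ)

def mm (I : MI) : ℕ := I.1 + 1
def bt (I : MI) : ℕ := I.1 + I.2.length * mm I
def kap (I : MI) (u : ℕ) : Bool × List ℕ := I.2.getD ((u - I.1) / mm I) (true, [])
def nb (I : MI) (s : Bool) (u l : ℕ) : Bool :=
  decide (I.1 ≤ u) && decide (u < bt I) && ((kap I u).1 == s) && decide (l < I.1) &&
    decide (l ∈ (kap I u).2)
def rl (I : MI) (u v : ℕ) : Bool :=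
  decide (u = v) || decide (u = bt I) || nb I true v u || nb I false u v ||
    (List.range I.1).any fun l => nb I false u l && nb I true v l
def toP (I : MI) : ℕ × List (ℕ × ℕ) := (bt I + 1, edgesOf (bt I + 1) (rl I))

theorem pt_toP : PT toP := by
  have h1 : PT fun p : MI × ℕ × ℕ => rl p.1 p.2.1 p.2.2 := by
    unfold rl nb kap bt mm; fun_prop
  have h2 : PT fun I : MI => bt I + 1 := by unfold bt mm; fun_prop
  exact PT.mk h2 (PT.edgesOf h2 h1)

theorem nb_iff {I s u l} : nb I s u l = true ↔
    I.1 ≤ u ∧ u < bt I ∧ (kap I u).1 = s ∧ l < I.1 ∧ l ∈ (kap I u).2 := by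
  simp [nb, and_assoc]

theorem rl_iff {I u v} : rl I u v = true ↔ u = v ∨ u = bt I ∨ nb I true v u = true ∨
    nb I false u v = true ∨ ∃ l, nb I false u l = true ∧ nb I true v l = true := by
  simp only [rl, Bool.or_eq_true, decide_eq_true_eq, List.any_eq_true, List.mem_range,
    Bool.and_eq_true, or_assoc]
  refine or_congr Iff.rfl (or_congr Iff.rfl (or_congr Iff.rfl (or_congr Iff.rfl
    ⟨fun ⟨l, _, h⟩ => ⟨l, h⟩, fun ⟨l, h⟩ => ⟨l, (nb_iff.1 h.1).2.2.2.1, h⟩⟩)))

theorem nb_ne {I u l l'} (h : nb I true u l = true) (h' : nb I false u l' = true) : False := by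
  have := (nb_iff.1 h).2.2.1.symm.trans (nb_iff.1 h').2.2.1
  cases this

theorem nb_lt {I s u l} (h : nb I s u l = true) : l < I.1 ∧ I.1 ≤ u ∧ u < bt I :=
  ⟨(nb_iff.1 h).2.2.2.1, (nb_iff.1 h).1, (nb_iff.1 h).2.1⟩

theorem toP_rel {I} {x y : Fin (toP I).1} : relOf (toP I) x y ↔ rl I x y = true := by
  have := x.2; have := y.2
  simp only [relOf, toP, mem_edgesOf] at *
  simp [*]

theorem toP_poset (I : MI) : IsPoset (toP I) := by
  refine ⟨fun p hp => ?_, fun x => toP_rel.2 (rl_iff.2 (Or.inl rfl)), fun x y => ?_,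
    fun x y z => ?_⟩
  · have := mem_edgesOf.1 (show (p.1, p.2) ∈ _ from hp); exact ⟨this.1, this.2.1⟩
  · rw [toP_rel, toP_rel, rl_iff, rl_iff, Fin.ext_iff]
    generalize x.val = u, y.val = v
    rintro (h | h | h | h | ⟨l, h, h'⟩) (k | k | k | k | ⟨l', k, k'⟩) <;>
      first
      | omega
      | exact (nb_ne ‹_› ‹_›).elim
      | (have := nb_lt h; have := nb_lt k; omega)
      | (have := nb_lt h; omega)
      | (have := nb_lt k; omega)
      | (have := nb_lt h'; omega)
      | (have := nb_lt k'; omega)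
      | (have := nb_lt h'; have := nb_lt k; omega)
      | (have := nb_lt h; have := nb_lt k'; omega)
  · rw [toP_rel, toP_rel, toP_rel]
    generalize x.val = u, y.val = v, z.val = w
    intro h k
    rcases rl_iff.1 h with rfl | h | h | h | ⟨l, h, h'⟩
    · exact k
    · exact rl_iff.2 (Or.inr (Or.inl h))
    all_goals rcases rl_iff.1 k with rfl | k | k | k | ⟨l', k, k'⟩
    all_goals first
      | assumption
      | exact (nb_ne h k).elim
      | exact (nb_ne h' k).elim
      | exact rl_iff.2 (Or.inr (Or.inr (Or.inr (Or.inr ⟨_, h, k⟩))))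
      | (have := nb_lt h; have := nb_lt k; omega)
      | (have := nb_lt h; unfold bt at *; omega)
      | (have := nb_lt h'; omega)
      | (have := nb_lt h'; have := nb_lt k; omega)

open Classical in
theorem ups_toP (I : MI) : ups (toP I) = 1 + ((range (bt I)).powerset.filter fun U =>
    (∀ u l, nb I true u l = true → l ∈ U → u ∈ U) ∧
      ∀ u l, nb I false u l = true → u ∈ U → l ∈ U).card := by
  rw [Nat.add_comm, ← card_insert_of_notMem (a := range (bt I + 1)) (by
    intro h
    have := mem_powerset.1 (mem_filter.1 h).1 (mem_range.2 (Nat.lt_succ_self _))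
    simp at this)]
  unfold ups
  congr 1
  ext U
  simp only [mem_filter, mem_powerset, mem_insert, toP, Prod.forall, mem_edgesOf]
  constructor
  · rintro ⟨h1, h2⟩
    by_cases hb : bt I ∈ U
    · left
      refine subset_antisymm h1 fun z hz => h2 _ _ ⟨by omega, mem_range.1 hz,
        rl_iff.2 (Or.inr (Or.inl rfl))⟩ hb
    · right
      refine ⟨fun z hz => ?_, fun u l h => h2 _ _ ⟨?_, ?_, rl_iff.2 (Or.inr (Or.inr (Or.inl h)))⟩,
        fun u l h => h2 _ _ ⟨?_, ?_, rl_iff.2 (Or.inr (Or.inr (Or.inr (Or.inl h))))⟩⟩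
      · have := mem_range.1 (h1 hz)
        have : z ≠ bt I := fun e => hb (e ▸ hz)
        exact mem_range.2 (by omega)
      all_goals have := nb_lt h; omega
  · rintro (rfl | ⟨h1, h2, h3⟩)
    · exact ⟨subset_rfl, fun a b h _ => mem_range.2 h.2.1⟩
    · refine ⟨fun z hz => mem_range.2 (by have := mem_range.1 (h1 hz); omega), fun a b h ha => ?_⟩
      rcases rl_iff.1 h.2.2 with rfl | rfl | h | h | ⟨l, h, h'⟩
      · exact ha
      · simpa using h1 ha
      · exact h2 _ _ h ha
      · exact h3 _ _ h ha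
      · exact h2 _ _ h' (h3 _ _ h ha)

theorem kap_eq {I : MI} {i j : ℕ} (hi : i < I.2.length) (hj : j < mm I) :
    I.1 + i * mm I + j < bt I ∧ kap I (I.1 + i * mm I + j) = I.2[i] := by
  have h1 : (i + 1) * mm I ≤ I.2.length * mm I := Nat.mul_le_mul_right _ hi
  rw [Nat.succ_mul] at h1
  refine ⟨by unfold bt; omega, ?_⟩
  have h2 : I.1 + i * mm I + j - I.1 = j + i * mm I := by omega
  rw [kap, h2, Nat.add_mul_div_right _ _ (by omega), Nat.div_eq_of_lt hj, Nat.zero_add,
    List.getD_eq_getElem _ _ hi]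

theorem kap_mem {I : MI} {u : ℕ} (h1 : I.1 ≤ u) (h2 : u < bt I) : kap I u ∈ I.2 := by
  have : (u - I.1) / mm I < I.2.length :=
    (Nat.div_lt_iff_lt_mul (Nat.succ_pos _)).2 (by unfold bt at h2; exact (by omega : u - I.1 < I.2.length * mm I))
  rw [kap, List.getD_eq_getElem _ _ this]
  exact List.getElem_mem _

open Classical in
theorem ups_mod (I : MI) : ((range (bt I)).powerset.filter fun U =>
    (∀ u l, nb I true u l = true → l ∈ U → u ∈ U) ∧
      ∀ u l, nb I false u l = true → u ∈ U → l ∈ U).card ≡ cntM I [MOD 2 ^ mm I] := by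
  let ok : Finset ℕ → Bool × List ℕ → Prop := fun L κ => ∃ l ∈ κ.2, l < I.1 ∧ decide (l ∈ L) = κ.1
  let F : Finset ℕ → Finset ℕ := fun L =>
    L ∪ (Ico I.1 (bt I)).filter fun u => (kap I u).1 = true ∧ ok L (kap I u)
  let R : Finset ℕ → Finset ℕ := fun L => (Ico I.1 (bt I)).filter fun u => ¬ ok L (kap I u)
  have hle : I.1 ≤ bt I := Nat.le_add_right _ _
  rw [card_eq_sum_card_fiberwise (f := fun U => U.filter (· < I.1)) (t := (range I.1).powerset)
    (fun U _ => by
      simp only [coe_powerset, Set.mem_preimage, Set.mem_powerset_iff, coe_filter, coe_range]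
      exact fun z hz => hz.2), cntM, card_filter]
  refine Nat.ModEq.sum fun L hL => ?_
  have hL' : ∀ l ∈ L, l < I.1 := fun l hl => mem_range.1 (mem_powerset.1 hL hl)
  have hd : Disjoint (F L) (R L) := by
    refine disjoint_left.2 fun u h1 h2 => ?_
    simp only [F, R, mem_union, mem_filter, mem_Ico] at h1 h2
    rcases h1 with h1 | h1
    · have := hL' u h1; omega
    · exact h2.2 h1.2.2
  have fib : (((range (bt I)).powerset.filter fun U =>
      (∀ u l, nb I true u l = true → l ∈ U → u ∈ U) ∧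
      ∀ u l, nb I false u l = true → u ∈ U → l ∈ U).filter fun U => U.filter (· < I.1) = L) =
      Icc (F L) (F L ∪ R L) := by
    ext U
    simp only [mem_filter, mem_powerset, mem_Icc, le_eq_subset]
    constructor
    · rintro ⟨⟨h1, h2, h3⟩, rfl⟩
      constructor
      · intro u hu
        simp only [F, ok, mem_union, mem_filter, mem_Ico] at hu
        rcases hu with hu | ⟨hu, hp, l, hl, hl', e⟩
        · exact hu.1
        · rw [hp, decide_eq_true_eq] at e
          exact h2 u l (nb_iff.2 ⟨hu.1, hu.2, hp, hl', hl⟩) e.1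
      · intro u hu
        have hb := mem_range.1 (h1 hu)
        simp only [F, R, mem_union, mem_filter, mem_Ico]
        by_cases hn : u < I.1
        · exact Or.inl (Or.inl ⟨hu, hn⟩)
        by_cases ho : ok (U.filter (· < I.1)) (kap I u)
        · refine Or.inl (Or.inr ⟨⟨by omega, hb⟩, ?_, ho⟩)
          obtain ⟨l, hl, hl', e⟩ := ho
          by_contra hp
          rw [Bool.not_eq_true] at hp
          have := h3 u l (nb_iff.2 ⟨by omega, hb, hp, hl', hl⟩) hu
          simp [hp, this, hl'] at e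
        · exact Or.inr ⟨⟨by omega, hb⟩, ho⟩
    · rintro ⟨h1, h2⟩
      have e : ∀ l < I.1, (l ∈ U ↔ l ∈ L) := fun l hl => ⟨fun h => by
        have := h2 h
        simp only [F, R, mem_union, mem_filter, mem_Ico] at this
        rcases this with (h | h) | h
        · exact h
        all_goals omega, fun h => h1 (mem_union_left _ h)⟩
      refine ⟨⟨fun u hu => ?_, fun u l h hl => ?_, fun u l h hu => ?_⟩, ?_⟩
      · have := h2 hu
        simp only [F, R, mem_union, mem_filter, mem_Ico] at this
        rcases this with (h | h) | h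
        · exact mem_range.2 ((hL' u h).trans_le hle)
        · exact mem_range.2 h.1.2
        · exact mem_range.2 h.1.2
      · obtain ⟨a1, a2, a3, a4, a5⟩ := nb_iff.1 h
        exact h1 (mem_union_right _ (mem_filter.2 ⟨mem_Ico.2 ⟨a1, a2⟩, a3, l, a5, a4,
          by rw [a3]; simpa using (e l a4).1 hl⟩))
      · obtain ⟨a1, a2, a3, a4, a5⟩ := nb_iff.1 h
        have := h2 hu
        simp only [F, R, mem_union, mem_filter, mem_Ico] at this
        rcases this with (h | h) | h
        · have := hL' u h; omega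
        · rw [a3] at h; simp at h
        · by_contra hn
          exact h.2 ⟨l, a5, a4, by rw [a3]; simpa using fun h => hn ((e l a4).2 h)⟩
      · ext l
        rw [mem_filter]
        exact ⟨fun h => (e l h.2).1 h.1, fun h => ⟨(e l (hL' l h)).2 h, hL' l h⟩⟩
  rw [fib, card_Icc_finset subset_union_left, card_union_of_disjoint hd, Nat.add_sub_cancel_left]
  split_ifs with hg
  · have : R L = ∅ := filter_eq_empty_iff.2 fun u hu =>
      not_not.2 (hg _ (kap_mem (mem_Ico.1 hu).1 (mem_Ico.1 hu).2))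
    rw [this]; rfl
  · push Not at hg
    obtain ⟨κ, hκ, hn⟩ := hg
    obtain ⟨i, hi, rfl⟩ := List.getElem_of_mem hκ
    have : mm I ≤ (R L).card := by
      have := card_le_card_of_injOn (s := range (mm I)) (t := R L) (fun j => I.1 + i * mm I + j)
        (fun j hj => by
          obtain ⟨k1, k2⟩ := kap_eq hi (mem_range.1 hj)
          refine mem_coe.2 (mem_filter.2 ⟨mem_Ico.2 ⟨by simp only; omega, k1⟩, ?_⟩)
          rw [k2]
          rintro ⟨l, a, b, c⟩
          exact hn l a b c) (fun a _ b _ h => by simpa using h)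
      simpa using this
    exact (Nat.modEq_zero_iff_dvd.2 (pow_dvd_pow 2 this))

theorem cntM_lt (I : MI) : cntM I < 2 ^ mm I := by
  refine (card_filter_le _ _).trans_lt ?_
  rw [card_powerset, card_range]
  exact Nat.pow_lt_pow_right (by norm_num) (Nat.lt_succ_self _)

theorem end_hard : SharpHardOn IsPoset fun I => Bin.mk (endCount I) := by
  have hP : PT fun I : MI => plus2 (toP I) :=
    (show PT plus2 by unfold plus2; fun_prop).comp pt_toP
  have hc : PT fun I : MI => prs (toP I) := (show PT prs by unfold prs; fun_prop).comp pt_toP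
  refine sharp_mono.turing (fun I => [toP I, plus2 (toP I)])
    (PT.cons pt_toP (PT.cons hP (PT.const _)))
    (fun p => Bin.mk ((Bin.mk ((Bin.mk ((Bin.mk ((p.2.getD 1 ⟨0⟩).val /
      (Bin.mk (prs (toP p.1) + 3)).val)).val - (p.2.getD 0 ⟨0⟩).val)).val - (Bin.mk 1).val)).val %
        (Bin.mk (2 ^ mm p.1)).val)) ?_ fun I _ => ⟨?_, ?_⟩
  · refine pt_bmod (pt_bsub (pt_bsub (pt_bdiv (by fun_prop) (pt_bin (PT.add (hc.comp
      (g := fun p : MI × List Bin => p.1) (by fun_prop)) (PT.const 3))) fun a => by simp)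
      (by fun_prop)) (PT.const _)) (pt_pow2 (by unfold mm; fun_prop)) fun a => by simp
  · simp only [List.forall_mem_cons]
    exact ⟨toP_poset I, plus2_poset (toP_poset I), by simp⟩
  · have h1 := end_plus2 (toP_poset I) ⟨bt I, Nat.lt_succ_self _⟩ fun x =>
      toP_rel.2 (rl_iff.2 (Or.inr (Or.inl rfl)))
    simp only [List.map_cons, List.map_nil, List.getD_cons_succ, List.getD_cons_zero, h1]
    rw [Nat.mul_div_cancel _ (by omega), Nat.add_sub_cancel_left, ups_toP,
      Nat.add_sub_cancel_left, ups_mod I, Nat.mod_eq_of_lt (cntM_lt I)]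

end Pool.Agent.H66.Sharp
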