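import Pool.Agent.H66.End2

namespace Pool.Agent.H66.Sharp

open Function Pool.Agent.H38.NP Pool.Agent.H38.ER

theorem sharpPOn_of_pt {α : Type} [Enc α] [Dec α] {C : α → Prop} {G : α → ℕ}
    (V : α → List Bool → Bool) (hV : PT fun p : α × List Bool => V p.1 p.2) (p : Polynomial ℕ)
    (h : ∀ a, C a → Nat.card {w : List Bool // w.length = p.eval (sz a) ∧ V a w = true} = G a) :
    SharpPOn C G := by
  refine ⟨fun x => Nat.card {w : List Bool // w.length = p.eval x.length ∧
    pair x w ∈ {z | V (dec (Bits.fst ⟨z⟩)) (Bits.snd ⟨z⟩).val = true}}, ⟨_,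
      inP_of_pt (fun x => V (dec x.fst) x.snd.val)
      (hV.comp (g := fun x : Bits => (dec x.fst, x.snd.val)) (PT.mk (by fun_prop) (PT.bval PT.bsnd))) fun x => Iff.rfl,
      p, fun _ => rfl⟩, fun a ha => ?_⟩
  rw [← h a ha]
  refine Nat.card_congr (Equiv.subtypeEquivRight fun w => and_congr Iff.rfl ?_)
  have h1 : Bits.fst ⟨pair (enc a) w⟩ = raw a := by simp [Bits.fst, raw]
  have h2 : Bits.snd ⟨pair (enc a) w⟩ = ⟨w⟩ := by simp [Bits.snd]
  simp [h1, h2]

def chk (I : ℕ × List (ℕ × ℕ)) (w : List Bool) : Bool :=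
  ((List.range w.length).all fun k => decide (k < I.1 * I.1) || !w.getD k false) &&
  ((List.range I.1).all fun i => (List.range I.1).any fun a => w.getD (i * I.1 + a) false &&
    (List.range I.1).all fun b => !w.getD (i * I.1 + b) false || decide (b = a)) &&
  (I.2.all fun e => (List.range I.1).all fun a => (List.range I.1).all fun b =>
    !w.getD (e.1 * I.1 + a) false || !w.getD (e.2 * I.1 + b) false || decide ((a, b) ∈ I.2))

theorem chk_iff {I w} : chk I w = true ↔ (∀ k < w.length, w.getD k false = true → k < I.1 * I.1) ∧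
    (∀ i < I.1, ∃ a < I.1, w.getD (i * I.1 + a) false = true ∧
      ∀ b < I.1, w.getD (i * I.1 + b) false = true → b = a) ∧
    ∀ e ∈ I.2, ∀ a < I.1, ∀ b < I.1, w.getD (e.1 * I.1 + a) false = true →
      w.getD (e.2 * I.1 + b) false = true → (a, b) ∈ I.2 := by
  have e1 : ∀ (x : Bool) (p : Prop) [Decidable p], (decide p || !x) = true ↔ (x = true → p) := by
    intro x p _; cases x <;> simp
  have e2 : ∀ (x : Bool) (p : Prop) [Decidable p], (!x || decide p) = true ↔ (x = true → p) := by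
    intro x p _; cases x <;> simp
  have e3 : ∀ (x y : Bool) (p : Prop) [Decidable p], (!x || !y || decide p) = true ↔
      (x = true → y = true → p) := by
    intro x y p _; cases x <;> cases y <;> simp
  simp only [chk, Bool.and_eq_true, List.all_eq_true, List.any_eq_true, List.mem_range, e1, e2, e3,
    and_assoc]

theorem end_mem : SharpPOn IsPoset endCount := by
  refine sharpPOn_of_pt chk (by unfold chk; fun_prop) (Polynomial.X * Polynomial.X)
    fun ⟨n, E⟩ hI => Eq.symm ?_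
  have hn : n ≤ sz (n, E) := by
    have := sz_prod (n, E)
    have h5 : sz n = n := by simp [sz]
    simp only at this; omega
  simp only [Polynomial.eval_mul, Polynomial.eval_X]
  generalize sz (n, E) = L at hn
  have hL : n * n ≤ L * L := Nat.mul_le_mul hn hn
  have idx : ∀ i < n, ∀ a < n, i * n + a < n * n ∧ (i * n + a) / n = i ∧ (i * n + a) % n = a := by
    intro i hi a ha
    have h1 : (i + 1) * n ≤ n * n := Nat.mul_le_mul_right _ hi
    rw [Nat.succ_mul] at h1
    refine ⟨by omega, ?_, ?_⟩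
    · rw [Nat.add_comm, Nat.add_mul_div_right _ _ (by omega), Nat.div_eq_of_lt ha, Nat.zero_add]
    · rw [Nat.add_comm, Nat.add_mul_mod_self_right, Nat.mod_eq_of_lt ha]
  let W : (Fin n → Fin n) → List Bool := fun f => (List.range (L * L)).map fun k =>
    decide (∃ i : Fin n, k = i.val * n + (f i).val)
  have hW : ∀ f k, (W f).getD k false = true ↔ ∃ i : Fin n, k = i.val * n + (f i).val := by
    intro f k
    by_cases hk : k < L * L
    · simp [W, List.getD_eq_getElem?_getD, hk]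
    · rw [List.getD_eq_default _ _ (by simpa [W] using hk)]
      simp only [Bool.false_eq_true, false_iff, not_exists]
      rintro i rfl
      have := (idx _ i.2 _ (f i).2).1
      omega
  have hW' : ∀ f (i : Fin n), ∀ a < n, (W f).getD (i.val * n + a) false = true ↔ a = f i := by
    intro f i a ha
    rw [hW]
    refine ⟨fun ⟨j, e⟩ => ?_, fun e => ⟨i, by rw [e]⟩⟩
    have h1 := idx _ i.2 _ ha
    have h2 := idx _ j.2 _ (f j).2
    have : i = j := Fin.ext (by rw [← h1.2.1, e, h2.2.1])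
    subst this; omega
  refine Nat.card_congr (Equiv.ofBijective (fun f => ⟨W f.1, by simp [W], chk_iff.2
    ⟨?_, fun i hi => ?_, fun e he a ha b hb h1 h2 => ?_⟩⟩) ⟨?_, ?_⟩)
  · intro k _ h
    obtain ⟨i, rfl⟩ := (hW _ _).1 h
    exact (idx _ i.2 _ (f.1 i).2).1
  · exact ⟨f.1 ⟨i, hi⟩, (f.1 _).2, (hW' _ ⟨i, hi⟩ _ (f.1 _).2).2 rfl,
      fun b hb h => (hW' _ ⟨i, hi⟩ _ hb).1 h⟩
  · obtain ⟨e1, e2⟩ := hI.1 e he
    rw [(hW' _ ⟨_, e1⟩ _ ha).1 h1, (hW' _ ⟨_, e2⟩ _ hb).1 h2]
    exact f.2 ⟨_, e1⟩ ⟨_, e2⟩ he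
  · intro f g e
    have e' : W f.1 = W g.1 := congrArg Subtype.val e
    refine Subtype.ext (funext fun i => Fin.ext ?_)
    exact (hW' g.1 i _ (f.1 i).2).1 (e' ▸ (hW' f.1 i _ (f.1 i).2).2 rfl)
  · rintro ⟨w, hw, hc⟩
    obtain ⟨c1, c2, c3⟩ := chk_iff.1 hc
    choose g g1 g2 g3 using c2
    refine ⟨⟨fun i => ⟨g i i.2, g1 i i.2⟩, fun x y h =>
      c3 _ h _ (g1 x x.2) _ (g1 y y.2) (g2 x x.2) (g2 y y.2)⟩, Subtype.ext ?_⟩
    change W _ = w
    refine List.ext_getElem (by simp [W, hw]) fun k h1 h2 => ?_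
    rw [← List.getD_eq_getElem _ false h1, ← List.getD_eq_getElem _ false h2, Bool.eq_iff_iff, hW]
    constructor
    · rintro ⟨i, rfl⟩; exact g2 i i.2
    · intro h
      have h3 := c1 k h2 h
      have h0 : 0 < n := Nat.pos_of_ne_zero fun e => by simp [e] at h3
      have h4 : k / n < n := (Nat.div_lt_iff_lt_mul h0).2 h3
      have h5 := Nat.div_add_mod' k n
      refine ⟨⟨k / n, h4⟩, ?_⟩
      have := g3 _ h4 (k % n) (Nat.mod_lt _ h0) (by simp only; rw [h5]; exact h)
      simp only [← this, h5]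

end Pool.Agent.H66.Sharp
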