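import Mathlib
import Pool.Agent.H27.AlgEnt

set_option autoImplicit false

namespace Pool.Agent.H66.EntSub

open Classical Finset Filter Topology Pool.Agent.H27.AlgEnt
open scoped Pointwise ENNReal

universe u v w w'

variable {G : Type u} [Group G] {A : Type v} [AddCommGroup A] [DistribMulAction G A]

theorem ratio_coe (H : Subgroup G) (E : Finset H) (X : Finset A) :
    ratio (E.image fun e : H => (e : G)) X = ratio E X := by
  have hi : Set.InjOn (fun e : H => (e : G)) E := fun a _ b _ h => Subtype.ext h
  rw [ratio, ratio, card_image_of_injOn hi, traj, traj, Finset.sum_image hi]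
  rfl

theorem key {ι : Type w} {l : Filter ι} {F : ι → Finset G} (h : IsFolner l F)
    (H : Subgroup G) {κ : Type w'} {m : Filter κ} {E : κ → Finset H} (hE : IsFolner m E)
    {X : Finset A} (hX : X.Nonempty) :
    limsup (fun i => ratio (F i) X) l ≤ liminf (fun j => ratio (E j) X) m := by
  have := hE.1
  apply le_liminf_of_le
  · isBoundedDefault
  refine Eventually.of_forall fun j => ?_
  rw [← ratio_coe H (E j) X]
  exact limsup_le h.weak _ ((hE.2.1 j).image _) hX

theorem main {ι : Type w} {l : Filter ι} {F : ι → Finset G} (h : IsFolner l F)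
    (H : Subgroup G) {κ : Type w'} {m : Filter κ} {E : κ → Finset H} (hE : IsFolner m E) :
    hSup A l F ≤ hInf A m E ∧ entSup A l F ≤ entInf A m E := by
  refine ⟨iSup₂_mono fun X hX => key h H hE hX, iSup₂_mono fun X hX => key h H hE ?_⟩
  obtain ⟨B, hB⟩ := hX
  exact ⟨0, by rw [← mem_coe, ← hB]; exact B.zero_mem⟩

end Pool.Agent.H66.EntSub
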