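import Mathlib

/-! First-order definability in the language of rings, semantic closure lemmas. -/

set_option autoImplicit false

namespace Pool.Agent.H66.FO
open FirstOrder FirstOrder.Language FirstOrder.Ring

variable {H : Type} [CommRing H] [CompatibleRing H]

/-- term-definable function of the assignment -/
def TD {α : Type} (t : (α → H) → H) : Prop :=
  ∃ τ : Language.ring.Term α, ∀ v, τ.realize v = t v

/-- formula-definable property of the assignment -/
def FD {α : Type} (S : (α → H) → Prop) : Prop :=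
  ∃ φ : Language.ring.Formula α, ∀ v, φ.Realize v ↔ S v

variable {α β : Type}

theorem TD.var (i : α) : TD (fun v : α → H => v i) := ⟨Term.var i, fun _ => rfl⟩
theorem TD.zero : TD (fun _ : α → H => (0 : H)) := ⟨0, fun v => realize_zero v⟩
theorem TD.one : TD (fun _ : α → H => (1 : H)) := ⟨1, fun v => realize_one v⟩
theorem TD.add {s t : (α → H) → H} (hs : TD s) (ht : TD t) : TD (fun v => s v + t v) := by
  obtain ⟨a, ha⟩ := hs; obtain ⟨b, hb⟩ := ht
  exact ⟨a + b, fun v => by rw [realize_add, ha, hb]⟩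
theorem TD.mul {s t : (α → H) → H} (hs : TD s) (ht : TD t) : TD (fun v => s v * t v) := by
  obtain ⟨a, ha⟩ := hs; obtain ⟨b, hb⟩ := ht
  exact ⟨a * b, fun v => by rw [realize_mul, ha, hb]⟩
theorem TD.neg {s : (α → H) → H} (hs : TD s) : TD (fun v => - s v) := by
  obtain ⟨a, ha⟩ := hs
  exact ⟨-a, fun v => by rw [realize_neg, ha]⟩
theorem TD.sub {s t : (α → H) → H} (hs : TD s) (ht : TD t) : TD (fun v => s v - t v) := by
  simpa only [sub_eq_add_neg] using hs.add ht.neg
theorem TD.comp {s : (α → H) → H} (hs : TD s) (g : α → β) :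
    TD (fun v : β → H => s (fun i => v (g i))) := by
  obtain ⟨a, ha⟩ := hs
  exact ⟨a.relabel g, fun v => by rw [Term.realize_relabel, ha]; rfl⟩
theorem TD.pow {s : (α → H) → H} (hs : TD s) (n : ℕ) : TD (fun v => s v ^ n) := by
  induction n with
  | zero => simpa only [pow_zero] using TD.one
  | succ n ih => simpa only [pow_succ] using ih.mul hs
theorem TD.sum {ι : Type} (F : Finset ι) {s : ι → (α → H) → H} (hs : ∀ i, TD (s i)) :
    TD (fun v => ∑ i ∈ F, s i v) := by
  classical
  induction F using Finset.induction_on with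
  | empty => simpa only [Finset.sum_empty] using TD.zero
  | insert a F ha ih => simpa only [Finset.sum_insert ha] using (hs a).add ih
theorem TD.prod {ι : Type} (F : Finset ι) {s : ι → (α → H) → H} (hs : ∀ i, TD (s i)) :
    TD (fun v => ∏ i ∈ F, s i v) := by
  classical
  induction F using Finset.induction_on with
  | empty => simpa only [Finset.prod_empty] using TD.one
  | insert a F ha ih => simpa only [Finset.prod_insert ha] using (hs a).mul ih

theorem FD.eq {s t : (α → H) → H} (hs : TD s) (ht : TD t) : FD (fun v => s v = t v) := by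
  obtain ⟨a, ha⟩ := hs; obtain ⟨b, hb⟩ := ht
  exact ⟨a.equal b, fun v => by rw [Formula.realize_equal, ha, hb]⟩
theorem FD.not {S : (α → H) → Prop} (h : FD S) : FD (fun v => ¬ S v) := by
  obtain ⟨a, ha⟩ := h
  exact ⟨a.not, fun v => by rw [Formula.realize_not, ha]⟩
theorem FD.ne {s t : (α → H) → H} (hs : TD s) (ht : TD t) : FD (fun v => s v ≠ t v) :=
  (FD.eq hs ht).not
theorem FD.and {S T : (α → H) → Prop} (h : FD S) (h' : FD T) : FD (fun v => S v ∧ T v) := by
  obtain ⟨a, ha⟩ := h; obtain ⟨b, hb⟩ := h'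
  exact ⟨a ⊓ b, fun v => by rw [Formula.realize_inf, ha, hb]⟩
theorem FD.or {S T : (α → H) → Prop} (h : FD S) (h' : FD T) : FD (fun v => S v ∨ T v) := by
  obtain ⟨a, ha⟩ := h; obtain ⟨b, hb⟩ := h'
  exact ⟨a ⊔ b, fun v => by rw [Formula.realize_sup, ha, hb]⟩
theorem FD.imp {S T : (α → H) → Prop} (h : FD S) (h' : FD T) : FD (fun v => S v → T v) := by
  obtain ⟨a, ha⟩ := h; obtain ⟨b, hb⟩ := h'
  exact ⟨a.imp b, fun v => by rw [Formula.realize_imp, ha, hb]⟩
theorem FD.const (p : Prop) : FD (fun _ : α → H => p) := by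
  by_cases hp : p
  · exact ⟨⊤, fun v => by simp [hp]⟩
  · exact ⟨⊥, fun v => by simp [hp]⟩
theorem FD.exT [Finite β] {S : (β → H) → (α → H) → Prop}
    (h : FD (fun v : α ⊕ β → H => S (fun j => v (Sum.inr j)) (fun i => v (Sum.inl i)))) :
    FD (fun v => ∃ a, S a v) := by
  obtain ⟨a, ha⟩ := h
  exact ⟨a.iExs β, fun v => by
    rw [Formula.realize_iExs]; exact exists_congr fun x => by rw [ha]; rfl⟩
theorem FD.allT [Finite β] {S : (β → H) → (α → H) → Prop}
    (h : FD (fun v : α ⊕ β → H => S (fun j => v (Sum.inr j)) (fun i => v (Sum.inl i)))) :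
    FD (fun v => ∀ a, S a v) := by
  obtain ⟨a, ha⟩ := h
  exact ⟨a.iAlls β, fun v => by
    rw [Formula.realize_iAlls]; exact forall_congr' fun x => by rw [ha]; rfl⟩
theorem FD.ex {S : H → (α → H) → Prop}
    (h : FD (fun v : α ⊕ Unit → H => S (v (Sum.inr ())) (fun i => v (Sum.inl i)))) :
    FD (fun v => ∃ a, S a v) := by
  obtain ⟨φ, hφ⟩ := FD.exT (β := Unit) (S := fun a v => S (a ()) v) h
  exact ⟨φ, fun v => (hφ v).trans ⟨fun ⟨a, ha⟩ => ⟨a (), ha⟩, fun ⟨a, ha⟩ => ⟨fun _ => a, ha⟩⟩⟩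
theorem FD.all {S : H → (α → H) → Prop}
    (h : FD (fun v : α ⊕ Unit → H => S (v (Sum.inr ())) (fun i => v (Sum.inl i)))) :
    FD (fun v => ∀ a, S a v) := by
  obtain ⟨φ, hφ⟩ := FD.allT (β := Unit) (S := fun a v => S (a ()) v) h
  exact ⟨φ, fun v => (hφ v).trans ⟨fun ha a => ha (fun _ => a), fun ha a => ha (a ())⟩⟩
theorem FD.allI {ι : Type} [Finite ι] {S : ι → (α → H) → Prop} (h : ∀ i, FD (S i)) :
    FD (fun v => ∀ i, S i v) := by
  choose φ hφ using h
  exact ⟨Formula.iInf φ, fun v => by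
    rw [Formula.realize_iInf]; exact forall_congr' fun i => hφ i v⟩
theorem FD.exI {ι : Type} [Finite ι] {S : ι → (α → H) → Prop} (h : ∀ i, FD (S i)) :
    FD (fun v => ∃ i, S i v) := by
  choose φ hφ using h
  exact ⟨Formula.iSup φ, fun v => by
    rw [Formula.realize_iSup]; exact exists_congr fun i => hφ i v⟩
theorem FD.dvd {s t : (α → H) → H} (hs : TD s) (ht : TD t) : FD (fun v => s v ∣ t v) :=
  FD.ex (S := fun a v => t v = s v * a)
    (FD.eq (ht.comp Sum.inl) ((hs.comp Sum.inl).mul (TD.var _)))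
theorem FD.unit {s : (α → H) → H} (hs : TD s) : FD (fun v => IsUnit (s v)) := by
  simpa only [isUnit_iff_dvd_one] using FD.dvd hs TD.one

end Pool.Agent.H66.FO
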