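import Mathlib

set_option autoImplicit false

namespace Pool.Agent.H66.FSplit

open MvPolynomial Function

/-- field data: an involution, an exhaustive chain of subfields and a compatible splitting -/
structure Data (p : ℕ) (k : Type) [Field k] where
  σ : k →+* k
  A : ℕ → Subfield k
  ψ : k →+ k
  b : ℕ → k
  x : ℕ → k
  inv : ∀ a, σ (σ a) = a
  mono : Monotone A
  ex : ∀ a, ∃ N, a ∈ A N
  lin : ∀ a c, ψ (a ^ p * c) = a * ψ c
  one : ψ 1 = 1
  stab : ∀ N, ∀ a ∈ A N, ψ a ∈ A N
  hb : ∀ j, b j ∈ A 0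
  he : ∀ j, σ (b j + x j ^ p) = b j + x j ^ p
  hx : ∀ N j, N ≤ j → ∀ u ∈ A N, u - σ u ≠ σ (x j) - x j
  h1 : x 0 + σ (x 0) ≠ 0

abbrev I := ℕ × Fin 3

variable (p : ℕ) [Fact p.Prime]

noncomputable def ψP : MvPolynomial I (ZMod p) →+ MvPolynomial I (ZMod p) where
  toFun f := ∑ m ∈ f.support.preimage (fun m => p • m)
    (smul_right_injective _ (Fact.out : p.Prime).ne_zero).injOn, monomial m (coeff (p • m) f)
  map_zero' := by simp
  map_add' := by
    have key : ∀ (f : MvPolynomial I (ZMod p)) m, coeff m (∑ m ∈ f.support.preimage (fun m => p • m)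
        (smul_right_injective _ (Fact.out : p.Prime).ne_zero).injOn,
        monomial m (coeff (p • m) f)) = coeff (p • m) f := fun f m => by
      classical
      simp only [coeff_sum, coeff_monomial, Finset.sum_ite_eq', Finset.mem_preimage]
      split_ifs with h
      · rfl
      · exact (notMem_support_iff.1 h).symm
    intro f g
    ext m
    rw [coeff_add, key, key, key, coeff_add]

theorem coeff_ψP (f : MvPolynomial I (ZMod p)) (m : I →₀ ℕ) :
    coeff m (ψP p f) = coeff (p • m) f := by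
  classical
  simp only [ψP, AddMonoidHom.coe_mk, ZeroHom.coe_mk, coeff_sum, coeff_monomial,
    Finset.sum_ite_eq', Finset.mem_preimage]
  split_ifs with h
  · rfl
  · exact (notMem_support_iff.1 h).symm

theorem ψP_lin (g f : MvPolynomial I (ZMod p)) : ψP p (g ^ p * f) = g * ψP p f := by
  have hp : 0 < p := (Fact.out : p.Prime).pos
  induction g using MvPolynomial.induction_on' with
  | monomial s a =>
    ext m
    rw [coeff_ψP, monomial_pow, coeff_monomial_mul', coeff_monomial_mul', coeff_ψP, ZMod.pow_card]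
    have : p • s ≤ p • m ↔ s ≤ m := forall_congr' fun i => by simp [hp]
    have e : p • m - p • s = p • (m - s) := by
      ext i
      simp [Nat.mul_sub]
    simp only [this, e]
  | add g h ih1 ih2 => rw [add_pow_char, add_mul, map_add, ih1, ih2, add_mul]

theorem ψP_one : ψP p 1 = 1 := by
  have hp : p ≠ 0 := (Fact.out : p.Prime).ne_zero
  ext m
  classical
  rw [coeff_ψP, coeff_one, coeff_one]
  simp [eq_comm (a := (0 : I →₀ ℕ)), hp]

theorem ψP_supp {S : Set I} {f : MvPolynomial I (ZMod p)} (h : f ∈ supported (ZMod p) S) :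
    ψP p f ∈ supported (ZMod p) S := by
  rw [mem_supported] at h ⊢
  intro i hi
  obtain ⟨d, h1, h2⟩ := (mem_vars i).1 hi
  refine h ((mem_vars i).2 ⟨p • d, ?_, ?_⟩)
  · rwa [mem_support_iff, ← coeff_ψP, ← mem_support_iff]
  · simpa [(Fact.out : p.Prime).ne_zero] using h2

noncomputable def σP : MvPolynomial I (ZMod p) →ₐ[ZMod p] MvPolynomial I (ZMod p) :=
  aeval fun i => ![X (i.1, 0) + X (i.1, 1) ^ p - X (i.1, 2) ^ p, X (i.1, 2), X (i.1, 1)] i.2

theorem σP_inv (f : MvPolynomial I (ZMod p)) : σP p (σP p f) = f := by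
  have : (σP p).comp (σP p) = AlgHom.id _ _ := by
    ext1 ⟨n, i⟩
    fin_cases i <;> simp [σP]
  exact DFunLike.congr_fun this f

theorem exists_data' (k : Type) [Field k] [Algebra (MvPolynomial I (ZMod p)) k]
    [IsFractionRing (MvPolynomial I (ZMod p)) k] : ∃ _ : CharP k p, Nonempty (Data p k) := by
  classical
  have hp : 0 < p := (Fact.out : p.Prime).pos
  let ι : (MvPolynomial I (ZMod p)) →+* k := algebraMap (MvPolynomial I (ZMod p)) k
  have hι : Injective ι := IsFractionRing.injective (MvPolynomial I (ZMod p)) k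
  have nz : ∀ {q : (MvPolynomial I (ZMod p))}, q ≠ 0 → ι q ≠ 0 := fun h => (map_ne_zero_iff _ hι).2 h
  have hc : CharP k p := charP_of_injective_ringHom hι p
  have pw : ∀ f q : (MvPolynomial I (ZMod p)), q ≠ 0 → ι f / ι q = ι (f * q ^ (p - 1)) / ι q ^ p := fun f q hq => by
    rw [div_eq_div_iff (nz hq) (pow_ne_zero _ (nz hq)), map_mul, map_pow, mul_assoc,
      pow_sub_one_mul hp.ne']
  have rep0 : ∀ a : k, ∃ f q : (MvPolynomial I (ZMod p)), q ≠ 0 ∧ a = ι f / ι q := fun a => by
    obtain ⟨f, q, hq, rfl⟩ := IsFractionRing.div_surjective (A := (MvPolynomial I (ZMod p))) a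
    exact ⟨f, q, nonZeroDivisors.ne_zero hq, rfl⟩
  have rep : ∀ a : k, ∃ f q : (MvPolynomial I (ZMod p)), q ≠ 0 ∧ a = ι f / ι q ^ p := fun a => by
    obtain ⟨f, q, hq, rfl⟩ := rep0 a
    exact ⟨_, q, hq, pw f q hq⟩
  choose nu de h1 h2 using rep
  let ψ : k → k := fun a => ι (ψP p (nu a)) / ι (de a)
  have hψ : ∀ f q : (MvPolynomial I (ZMod p)), q ≠ 0 → ψ (ι f / ι q ^ p) = ι (ψP p f) / ι q := fun f q hq => by
    set a := ι f / ι q ^ p
    have e := h2 a
    rw [div_eq_div_iff (pow_ne_zero _ (nz hq)) (pow_ne_zero _ (nz (h1 a))), ← map_pow, ← map_pow,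
      ← map_mul, ← map_mul] at e
    have e2 := congrArg (ψP p) (hι e)
    rw [mul_comm f, mul_comm (nu a), ψP_lin, ψP_lin] at e2
    rw [div_eq_div_iff (nz (h1 a)) (nz hq), ← map_mul, ← map_mul, mul_comm, ← e2, mul_comm]
  have add : ∀ a c, ψ (a + c) = ψ a + ψ c := fun a c => by
    have e : a + c = ι (de c ^ p * nu a + de a ^ p * nu c) / ι (de a * de c) ^ p := by
      have := nz (h1 a)
      have := nz (h1 c)
      conv_lhs => rw [h2 a, h2 c]
      simp only [map_add, map_mul, map_pow, mul_pow]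
      field_simp
    have := nz (h1 a)
    have := nz (h1 c)
    rw [e, hψ _ _ (mul_ne_zero (h1 a) (h1 c)), map_add, ψP_lin, ψP_lin]
    simp only [ψ, map_add, map_mul]
    field_simp
  have inj : Injective (ι.comp (σP p).toRingHom) :=
    hι.comp (LeftInverse.injective (σP_inv p))
  let σ : k →+* k := IsFractionRing.lift inj
  have hσ : ∀ f, σ (ι f) = ι (σP p f) := fun f => IsFractionRing.lift_algebraMap inj f
  let S : ℕ → Set I := fun N => {i | i.2 = 0 ∨ i.1 < N}
  let A : ℕ → Subfield k := fun N => Subfield.closure (ι '' supported (ZMod p) (S N))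
  have memA : ∀ N a, a ∈ A N → ∃ f ∈ supported (ZMod p) (S N), ∃ q ∈ supported (ZMod p) (S N),
      q ≠ 0 ∧ a = ι f / ι q := fun N a ha => by
    obtain ⟨y, hy, z, hz, rfl⟩ := Subfield.mem_closure_iff.1 ha
    have le := (Subring.closure_le (s := ι '' supported (ZMod p) (S N))
      (t := (supported (ZMod p) (S N)).toSubring.map ι)).2 subset_rfl
    obtain ⟨f, hf, rfl⟩ := le hy
    obtain ⟨q, hq, rfl⟩ := le hz
    by_cases h0 : q = 0
    · exact ⟨0, zero_mem _, 1, one_mem _, one_ne_zero, by simp [h0]⟩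
    · exact ⟨f, hf, q, hq, h0, rfl⟩
  have inA : ∀ N, ∀ f ∈ supported (ZMod p) (S N), ι f ∈ A N := fun N f hf =>
    Subfield.subset_closure ⟨f, hf, rfl⟩
  refine ⟨hc, ⟨⟨σ, A, AddMonoidHom.mk' ψ add, fun j => ι (X (j, 0)),
    fun j => ι (X (j, 1)), fun a => ?_, fun M N h => ?_, fun a => ?_, fun a c => ?_, ?_,
    fun N a ha => ?_, fun j => inA 0 _ (X_mem_supported.2 (Or.inl rfl)), fun j => ?_,
    fun N j hj u hu e => ?_, ?_⟩⟩⟩
  · rw [h2 a, map_div₀, map_div₀, map_pow, map_pow, hσ, hσ, hσ, hσ, σP_inv, σP_inv]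
  · exact Subfield.closure_mono (Set.image_mono (supported_mono fun i hi =>
      hi.imp_right fun h' => lt_of_lt_of_le h' h))
  · obtain ⟨N, hN⟩ := (((nu a).vars ∪ (de a).vars).image Prod.fst).bddAbove
    have b : ∀ f : (MvPolynomial I (ZMod p)), f.vars ⊆ (nu a).vars ∪ (de a).vars → ι f ∈ A (N + 1) := fun f hf =>
      inA _ _ (mem_supported.2 fun i hi => Or.inr (Nat.lt_succ_of_le
        (hN (Finset.mem_coe.2 (Finset.mem_image_of_mem _ (hf hi))))))
    exact ⟨N + 1, h2 a ▸ div_mem (b _ Finset.subset_union_left)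
      (pow_mem (b _ Finset.subset_union_right) p)⟩
  · obtain ⟨f, q, hq, rfl⟩ := rep0 a
    have := nz hq
    have := nz (h1 c)
    have e : (ι f / ι q) ^ p * c = ι (f ^ p * nu c) / ι (q * de c) ^ p := by
      conv_lhs => rw [h2 c]
      simp only [map_mul, map_pow, mul_pow, div_pow]
      field_simp
    change ψ ((ι f / ι q) ^ p * c) = ι f / ι q * ψ c
    rw [e, hψ _ _ (mul_ne_zero hq (h1 c)), ψP_lin]
    simp only [ψ, map_mul]
    field_simp
  · have := hψ 1 1 one_ne_zero
    simpa [ψP_one] using this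
  · obtain ⟨f, hf, q, hq, h0, rfl⟩ := memA N a ha
    change ψ _ ∈ _
    rw [pw f q h0, hψ _ _ h0]
    exact div_mem (inA _ _ (ψP_supp p (mul_mem hf (pow_mem hq _)))) (inA _ _ hq)
  · simp only [map_add, map_pow, hσ]
    simp [σP]
  · obtain ⟨f, hf, q, hq, h0, rfl⟩ := memA N u hu
    have d1 : ∀ f ∈ supported (ZMod p) (S N), pderiv (j, 1) f = 0 := fun f hf =>
      pderiv_eq_zero_of_notMem_vars fun h => by
        rcases mem_supported.1 hf h with h | h
        · simp at h
        · simp at h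
          omega
    have d2 : ∀ f ∈ supported (ZMod p) (S N), pderiv (j, 1) (σP p f) = 0 := fun f hf => by
      induction hf using Algebra.adjoin_induction with
      | mem x hx =>
        obtain ⟨⟨n, i⟩, hi, rfl⟩ := hx
        have hn : i ≠ 0 → n ≠ j := fun h1 h2 => by
          rcases hi with h | h
          · exact h1 h
          · simp at h
            omega
        fin_cases i
        · simp [σP, pderiv_X, Pi.single_apply]
        · simp [σP, pderiv_X, Pi.single_apply]
        · simp [σP, pderiv_X, Pi.single_apply, hn (by simp)]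
      | algebraMap r => simp
      | add x y _ _ h1 h2 => simp [h1, h2]
      | mul x y _ _ h1 h2 => simp [h1, h2]
    have h3 : σP p q ≠ 0 := fun h => h0 (by rw [← σP_inv p q, h, map_zero])
    have := nz h0
    have := nz h3
    rw [map_div₀, hσ, hσ, hσ] at e
    have e2 : f * σP p q - q * σP p f = (X (j, 2) - X (j, 1)) * (q * σP p q) := hι (by
      simp only [map_mul, map_sub]
      have e3 : σP p (X (j, 1)) = X (j, 2) := by simp [σP]
      rw [e3] at e
      rw [← e]
      field_simp)
    have e4 := congrArg (pderiv (j, 1)) e2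
    simp [d1 f hf, d1 q hq, d2 f hf, d2 q hq, pderiv_X, Pi.single_apply, h0, h3] at e4
  · rw [hσ, ← map_add]
    refine nz fun h => ?_
    have := congrArg (pderiv ((0, 1) : I)) h
    simp [σP, pderiv_X, Pi.single_apply] at this

theorem exists_data : ∃ (k : Type) (_ : Field k) (_ : CharP k p), Nonempty (Data p k) :=
  ⟨FractionRing (MvPolynomial I (ZMod p)), inferInstance, exists_data' p _⟩

end Pool.Agent.H66.FSplit
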