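import Mathlib

set_option autoImplicit false

namespace Pool.Agent.H66.FSplit

/-- `F_* R`: the additive group of `R` -/
def Frob (_p : ℕ) (R : Type) : Type := R

instance (p : ℕ) (R : Type) [CommRing R] : AddCommGroup (Frob p R) :=
  (inferInstance : AddCommGroup R)

/-- `r • s = r ^ p * s` -/
noncomputable instance (p : ℕ) (R : Type) [CommRing R] [ExpChar R p] : Module R (Frob p R) :=
  Module.compHom R (frobenius R p)

/-- the element `1` of `F_* R` -/
def Frob.one (p : ℕ) (R : Type) [CommRing R] : Frob p R := (1 : R)

end Pool.Agent.H66.FSplit
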