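import Pool.Agent.H66.FSplit1
import Pool.Agent.H66.FSplitDefs

set_option autoImplicit false

namespace Pool.Agent.H66.FSplit

open PowerSeries Function

variable {p : ℕ} {k : Type} [Field k] (D : Data p k)

def Data.V : Subring k⟦X⟧ where
  carrier := {f | ∃ C, ∀ n, coeff n f ∈ D.A (C * (n + 1))}
  zero_mem' := ⟨0, fun n => by simp⟩
  one_mem' := ⟨0, fun n => by
    rw [coeff_one]
    split_ifs
    · exact one_mem _
    · exact zero_mem _⟩
  neg_mem' := fun ⟨C, h⟩ => ⟨C, fun n => by simpa using h n⟩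
  add_mem' := fun ⟨C, h⟩ ⟨C', h'⟩ => ⟨C + C', fun n => by
    rw [map_add]
    exact add_mem (D.mono (by nlinarith) (h n)) (D.mono (by nlinarith) (h' n))⟩
  mul_mem' := fun ⟨C, h⟩ ⟨C', h'⟩ => ⟨C + C', fun n => by
    rw [coeff_mul]
    refine sum_mem fun x hx => ?_
    have : x.1 + x.2 = n := by simpa using hx
    exact mul_mem (D.mono (by nlinarith) (h _)) (D.mono (by nlinarith) (h' _))⟩

theorem Data.C_mem (a : k) : C a ∈ D.V := by
  obtain ⟨N, h⟩ := D.ex a
  refine ⟨N, fun n => ?_⟩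
  rw [coeff_C]
  split_ifs
  · exact D.mono (by nlinarith) h
  · exact zero_mem _

theorem Data.X_mem : X ∈ D.V := ⟨0, fun n => by
  rw [coeff_X]
  split_ifs
  · exact one_mem _
  · exact zero_mem _⟩

theorem Data.inv_mem {f : k⟦X⟧} (h : f ∈ D.V) : f⁻¹ ∈ D.V := by
  obtain ⟨C, h⟩ := h
  refine ⟨C, fun n => ?_⟩
  induction n using Nat.strong_induction_on with
  | _ n ih =>
    have h0 : (constantCoeff f)⁻¹ ∈ D.A (C * (n + 1)) :=
      D.mono (by nlinarith) (Subfield.inv_mem _ (by simpa using h 0 : constantCoeff f ∈ D.A C))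
    rw [coeff_inv]
    split_ifs
    · exact h0
    refine mul_mem (neg_mem h0) (sum_mem fun x hx => ?_)
    have : x.1 + x.2 = n := by simpa using hx
    split_ifs with h1
    · exact mul_mem (D.mono (by nlinarith) (h _)) (D.mono (by nlinarith) (ih _ h1))
    · exact zero_mem _

theorem Data.shift {f : k⟦X⟧} {m : ℕ} (h : X ^ m * f ∈ D.V) : f ∈ D.V := by
  obtain ⟨C, h⟩ := h
  refine ⟨C * (m + 1), fun n => ?_⟩
  rw [← coeff_X_pow_mul f m n]
  exact D.mono (by nlinarith [Nat.zero_le (C * m * n)]) (h _)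

theorem dec {r : k⟦X⟧} (h : r ≠ 0) : ∃ m u, r = X ^ m * u ∧ constantCoeff u ≠ 0 :=
  ⟨_, _, X_pow_order_mul_divXPowOrder.symm, constantCoeff_divXPowOrder_eq_zero_iff.not.2 h⟩

theorem Data.sat {r f : k⟦X⟧} (hr : r ∈ D.V) (h0 : r ≠ 0) (h : r * f ∈ D.V) : f ∈ D.V := by
  obtain ⟨m, u, rfl, hu⟩ := dec h0
  refine D.shift (m := m) ?_
  convert mul_mem (D.inv_mem (D.shift hr)) h using 1
  rw [show u⁻¹ * (X ^ m * u * f) = X ^ m * f * (u * u⁻¹) by ring, PowerSeries.mul_inv_cancel u hu,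
    mul_one]

noncomputable def Data.T : Subring k⟦X⟧ := (D.σ.eqLocus (RingHom.id k)).comap constantCoeff

theorem Data.mem_T {f : k⟦X⟧} : f ∈ D.T ↔ D.σ (constantCoeff f) = constantCoeff f := Iff.rfl

noncomputable def Data.R : Subring k⟦X⟧ := D.V ⊓ D.T

theorem Data.X_mul_mem {f : k⟦X⟧} (h : f ∈ D.V) : X * f ∈ D.R :=
  ⟨mul_mem D.X_mem h, by simp [D.mem_T]⟩

theorem Data.C_mem' {a : k} (h : D.σ a = a) : C a ∈ D.R := ⟨D.C_mem a, by simpa [D.mem_T]⟩

theorem Data.unit (f : D.R) (h : constantCoeff f.1 ≠ 0) : IsUnit f :=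
  IsUnit.of_mul_eq_one ⟨f.1⁻¹, D.inv_mem f.2.1, by
    rw [SetLike.mem_coe, D.mem_T, constantCoeff_inv, map_inv₀, D.mem_T.1 f.2.2]⟩
    (Subtype.ext (PowerSeries.mul_inv_cancel _ h))

theorem Data.loc : IsLocalRing D.R := .of_isUnit_or_isUnit_one_sub_self fun a => by
  by_cases h : constantCoeff a.1 = 0
  · exact Or.inr (D.unit _ (by simp [h]))
  · exact Or.inl (D.unit a h)

theorem Data.prime (P : Ideal D.R) (hP : P.IsPrime) (h0 : P ≠ ⊥) (g : D.R) :
    g ∈ P ↔ constantCoeff g.1 = 0 := by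
  refine ⟨fun h => by_contra fun h' => hP.ne_top (P.eq_top_of_isUnit_mem h (D.unit g h')),
    fun h => ?_⟩
  obtain ⟨r, h1, h2⟩ := P.ne_bot_iff.1 h0
  obtain ⟨m, u, e, hu⟩ := dec fun h : r.1 = 0 => h2 (Subtype.ext h)
  obtain ⟨w, hw⟩ := X_dvd_iff.2 h
  have h3 : w ∈ D.V := D.shift (m := 1) (by simpa [← hw] using g.2.1)
  have h4 : u ∈ D.V := D.shift (e ▸ r.2.1)
  refine hP.mem_of_pow_mem (m + 1) ?_
  convert P.mul_mem_left ⟨_, D.X_mul_mem (mul_mem (pow_mem h3 (m + 1)) (D.inv_mem h4))⟩ h1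
  refine Subtype.ext ?_
  change g.1 ^ (m + 1) = X * (w ^ (m + 1) * u⁻¹) * r.1
  rw [e, hw, show X * (w ^ (m + 1) * u⁻¹) * (X ^ m * u) = (X * w) ^ (m + 1) * (u * u⁻¹) by ring,
    PowerSeries.mul_inv_cancel u hu, mul_one]

theorem Data.split (a : k) : ∃ α β, D.σ α = α ∧ D.σ β = β ∧ a = α + β * D.x 0 := by
  have h : D.σ (D.x 0) - D.x 0 ≠ 0 := by simpa using (D.hx 0 0 le_rfl 0 (zero_mem _)).symm
  have h' : D.x 0 - D.σ (D.x 0) ≠ 0 := by rwa [← neg_sub, neg_ne_zero]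
  refine ⟨a - (D.σ a - a) / (D.σ (D.x 0) - D.x 0) * D.x 0, (D.σ a - a) / (D.σ (D.x 0) - D.x 0),
    ?_, ?_, by ring⟩ <;> simp only [map_sub, map_mul, map_div₀, D.inv] <;> field_simp <;> ring

theorem Data.noeth : IsNoetherianRing D.R := .of_prime_ne_bot fun P hP h0 => by
  classical
  let a : D.R := ⟨_, D.X_mul_mem (one_mem _)⟩
  let b : D.R := ⟨_, D.X_mul_mem (D.C_mem (D.x 0))⟩
  refine ⟨{a, b}, le_antisymm (Ideal.span_le.2 ?_) fun g hg => ?_⟩
  · rw [Finset.coe_pair]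
    rintro _ (rfl | rfl) <;> exact (D.prime P hP h0 _).2 (by simp [a, b])
  · obtain ⟨w, hw⟩ := X_dvd_iff.2 ((D.prime P hP h0 _).1 hg)
    have h3 : w ∈ D.V := D.shift (m := 1) (by simpa [← hw] using g.2.1)
    obtain ⟨α, β, h1, h2, e⟩ := D.split (constantCoeff w)
    obtain ⟨w', hw'⟩ := X_dvd_iff.2 (show constantCoeff (w - C (constantCoeff w)) = 0 by simp)
    have h4 : w' ∈ D.V := D.shift (m := 1) (by simpa [← hw'] using sub_mem h3 (D.C_mem _))
    rw [Finset.coe_pair, Ideal.mem_span_pair]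
    refine ⟨⟨_, add_mem (D.C_mem' h1) (D.X_mul_mem h4)⟩, ⟨_, D.C_mem' h2⟩, Subtype.ext ?_⟩
    change (C α + X * w') * (X * 1) + C β * (X * C (D.x 0)) = g.1
    rw [hw, ← hw', e, map_add, map_mul]
    ring

theorem Data.dim : ringKrullDim D.R = 1 := by
  apply eq_of_le_of_not_lt ?_ fun h' ↦ ?_
  · rw [← Nat.cast_one, ← Ring.krullDimLE_iff]
    refine Ring.krullDimLE_one_iff_of_isPrime_bot.mpr fun I hI hI' => ?_
    obtain ⟨M, h1, h2⟩ := I.exists_le_maximal hI'.ne_top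
    have : M ≠ ⊥ := fun h => hI (le_bot_iff.1 (h ▸ h2))
    convert h1
    ext g
    rw [D.prime I hI' hI, D.prime M h1.isPrime this]
  · have h'' : ringKrullDim D.R ≤ 0 := Order.le_of_lt_succ h'
    rw [← Nat.cast_zero, ← Ring.krullDimLE_iff] at h''
    obtain ⟨b, hb⟩ := (Ring.KrullDimLE.isField_of_isDomain (R := D.R)).mul_inv_cancel
      (a := ⟨_, D.X_mul_mem (one_mem _)⟩) fun h => by simpa using congrArg Subtype.val h
    simpa using congrArg (fun f : D.R => constantCoeff f.1) hb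

noncomputable def Φ (p : ℕ) (ψ : k →+ k) : k⟦X⟧ →+ k⟦X⟧ :=
  AddMonoidHom.mk' (fun f => mk fun n => ψ (coeff (p * n) f)) fun f g => by
    ext n
    simp

theorem coeff_Φ (ψ : k →+ k) (f : k⟦X⟧) (n : ℕ) : coeff n (Φ p ψ f) = ψ (coeff (p * n) f) := by
  simp [Φ]

variable [Fact p.Prime] [CharP k p]

instance : CharP k⟦X⟧ p := charP_of_injective_ringHom C_injective p

theorem Φ_lin {ψ : k →+ k} (h : ∀ a c, ψ (a ^ p * c) = a * ψ c) (g f : k⟦X⟧) :
    Φ p ψ (g ^ p * f) = g * Φ p ψ f := by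
  have hp : 0 < p := (Fact.out : p.Prime).pos
  ext n
  induction n generalizing g with
  | zero => simp [coeff_Φ, h, ← coeff_zero_eq_constantCoeff_apply (Φ p ψ f)]
  | succ n ih =>
    rw [eq_X_mul_shift_add_const g, add_pow_char, add_mul, add_mul, map_add, map_add, map_add,
      mul_assoc X, coeff_succ_X_mul, ← ih, coeff_C_mul, coeff_Φ, coeff_Φ, coeff_Φ, coeff_Φ,
      ← map_pow, coeff_C_mul, h, mul_pow, mul_assoc, mul_add, mul_one, coeff_X_pow_mul]

theorem Data.nonzero : ∃ φ : Frob p D.R →ₗ[D.R] D.R, φ ≠ 0 := by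
  have hV : ∀ f ∈ D.V, Φ p D.ψ f ∈ D.V := fun f ⟨C, h⟩ => ⟨C * (p + 1), fun n => by
    rw [coeff_Φ]
    exact D.stab _ _ (D.mono (by nlinarith [Nat.zero_le (C * p), Nat.zero_le (C * n)]) (h _))⟩
  refine ⟨⟨⟨fun f : D.R => ⟨_, D.X_mul_mem (hV _ f.2.1)⟩, fun f g => Subtype.ext ?_⟩,
    fun r f => Subtype.ext ?_⟩, fun h => ?_⟩
  · exact (congrArg _ (map_add (Φ p D.ψ) _ _)).trans (mul_add _ _ _)
  · exact (congrArg _ (Φ_lin D.lin r.1 _)).trans (mul_left_comm _ _ _)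
  · have := congrArg (fun f : D.R => coeff 1 f.1) (LinearMap.congr_fun h (Frob.one p D.R))
    simp [Frob.one, coeff_succ_X_mul, coeff_Φ, D.one] at this

theorem Data.not_split : ¬ ∃ φ : Frob p D.R →ₗ[D.R] D.R, φ (Frob.one p D.R) = 1 := by
  rintro ⟨φ0, h1⟩
  have hp : 0 < p := (Fact.out : p.Prime).pos
  let φ : D.R → k⟦X⟧ := fun f => (φ0 f).1
  have add : ∀ f g, φ (f + g) = φ f + φ g := fun f g => congrArg Subtype.val (map_add φ0 f g)
  have lin : ∀ r f, φ (r ^ p * f) = r.1 * φ f := fun r f =>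
    congrArg Subtype.val (φ0.map_smul r f)
  have one : φ 1 = 1 := congrArg Subtype.val h1
  let t : D.R := ⟨_, D.X_mul_mem (one_mem _)⟩
  have ht : t.1 = X := mul_one _
  let y : ℕ → D.R := fun j => ⟨X ^ p * C (D.b j), by
    obtain ⟨n, rfl⟩ : ∃ n, p = n + 1 := ⟨p - 1, by omega⟩
    rw [pow_succ', mul_assoc]
    exact D.X_mul_mem (mul_mem (pow_mem D.X_mem _) (D.C_mem _))⟩
  have hy : ∀ j, ∃ ε, D.σ ε = ε ∧ coeff 1 (φ (y j)) = ε - D.x j := fun j => by
    let e : D.R := ⟨_, D.C_mem' (D.he j)⟩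
    let z : D.R := ⟨_, D.X_mul_mem (D.C_mem (D.x j))⟩
    have h2 : y j + z ^ p * 1 = t ^ p * e := Subtype.ext (by
      change X ^ p * C (D.b j) + (X * C (D.x j)) ^ p * 1 = t.1 ^ p * C _
      rw [ht, map_add, map_pow]
      ring)
    have h3 := congrArg (fun f => coeff 1 (φ f)) h2
    simp only [add, lin, one, ht, map_add] at h3
    refine ⟨_, (φ0 e).2.2, eq_sub_of_add_eq ?_⟩
    simpa [coeff_succ_X_mul, z] using h3
  choose ε h2 h3 using hy
  choose lv hlv using D.ex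
  let S : ℕ → D.R := fun n => Nat.rec 0 (fun n s => s + (t ^ (2 * n + 1)) ^ p *
    y (max (lv (coeff (2 * n + 2) (φ s))) (n * (2 * n + 3)))) n
  let j : ℕ → ℕ := fun n => max (lv (coeff (2 * n + 2) (φ (S n)))) (n * (2 * n + 3))
  have hS : ∀ n, S (n + 1) = S n + (t ^ (2 * n + 1)) ^ p * y (j n) := fun _ => rfl
  have hS' : ∀ n, (S (n + 1)).1 = (S n).1 + X ^ (p * (2 * n + 2)) * C (D.b (j n)) := fun n => by
    rw [hS]
    change _ + (t.1 ^ _) ^ p * (X ^ p * _) = _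
    rw [ht]
    ring
  have hA : ∀ n m, coeff m (S n).1 ∈ D.A 0 := fun n m => by
    induction n with
    | zero => exact zero_mem _
    | succ n ih =>
      rw [hS', map_add, coeff_X_pow_mul', coeff_C]
      refine add_mem ih ?_
      split_ifs
      · exact D.hb _
      · exact zero_mem _
      · exact zero_mem _
  have st : ∀ n d m, m < p * (2 * n + 2) → coeff m (S (n + d)).1 = coeff m (S n).1 := by
    intro n d m hm
    induction d with
    | zero => rfl
    | succ d ih =>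
      rw [← add_assoc, hS', map_add, ih, coeff_X_pow_mul', if_neg (by nlinarith), add_zero]
  let f : D.R := ⟨PowerSeries.mk fun m => coeff m (S m).1, ⟨0, fun m => by simpa using hA m m⟩, by
    rw [SetLike.mem_coe, D.mem_T, ← coeff_zero_eq_constantCoeff_apply, coeff_mk,
      coeff_zero_eq_constantCoeff_apply]
    exact (S 0).2.2⟩
  obtain ⟨n, hn⟩ := (φ0 f).2.1
  obtain ⟨w, hw⟩ : X ^ (p * (2 * n + 3) + 1) ∣ f.1 - (S (n + 1)).1 := X_pow_dvd_iff.2 fun m hm => by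
    rw [map_sub, sub_eq_zero]
    rw [show coeff m f.1 = coeff m (S m).1 from coeff_mk m fun m => coeff m (S m).1,
      ← st m (n + 1) m (by nlinarith), ← st (n + 1) m m (by nlinarith), add_comm]
  have hw' : w ∈ D.V := D.shift (hw ▸ sub_mem f.2.1 (S (n + 1)).2.1)
  have e : f = S (n + 1) + (t ^ (2 * n + 3)) ^ p * ⟨_, D.X_mul_mem hw'⟩ := Subtype.ext (by
    change f.1 = _ + (t.1 ^ _) ^ p * (X * w)
    rw [ht, ← sub_eq_iff_eq_add', hw]
    ring)
  have h4 : coeff (2 * n + 2) (φ f) =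
      coeff (2 * n + 2) (φ (S n)) + (ε (j n) - D.x (j n)) := by
    rw [e, add, hS, add, lin, lin, map_add, map_add, ← h3]
    change _ + coeff _ (t.1 ^ _ * _) + coeff _ (t.1 ^ _ * _) = _
    rw [ht, coeff_X_pow_mul', coeff_X_pow_mul', if_pos (by omega), if_neg (by omega), add_zero,
      show 2 * n + 2 - (2 * n + 1) = 1 by omega]
  refine D.hx (j n) (j n) le_rfl (ε (j n) - D.x (j n)) ?_ (by rw [map_sub, h2]; ring)
  rw [← sub_eq_iff_eq_add'.2 h4]
  exact sub_mem (D.mono (le_max_right _ _) (hn _)) (D.mono (le_max_left _ _) (hlv _))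

universe u

theorem Data.pure (M : Type u) [AddCommGroup M] [Module D.R M] :
    Injective fun m : M => m ⊗ₜ[D.R] Frob.one p D.R := by
  let T : Submodule D.R k⟦X⟧ := ⟨⟨⟨D.T, add_mem⟩, zero_mem _⟩, fun r _ h => mul_mem r.2.2 h⟩
  let ι : D.R →ₗ[D.R] T := ⟨⟨fun r => ⟨r.1, r.2.2⟩, fun _ _ => rfl⟩, fun _ _ => rfl⟩
  have hι : Injective ι := fun a b h => Subtype.ext (congrArg (fun x : T => x.1) h)
  let π := (LinearMap.range ι).mkQ
  have tf : ∀ (r : D.R) q, r ≠ 0 → r • π q = 0 → π q = 0 := fun r q h0 h => by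
    rw [← map_smul] at h
    obtain ⟨s, hs⟩ := (Submodule.Quotient.mk_eq_zero _).1 h
    have e : s.1 = r.1 * q.1 := congrArg (fun x : T => x.1) hs
    exact (Submodule.Quotient.mk_eq_zero _).2 ⟨⟨q.1, D.sat r.2.1
      (fun h => h0 (Subtype.ext h)) (e ▸ s.2.1), q.2⟩, rfl⟩
  have dv : ∀ (r : D.R) q, r ≠ 0 → ∃ q', r • π q' = π q := fun r q h0 => by
    obtain ⟨m, u, e, hu⟩ := dec fun h : r.1 = 0 => h0 (Subtype.ext h)
    obtain ⟨w, hw⟩ : X ^ (m + 1) ∣ q.1 - ∑ i ∈ Finset.range (m + 1), C (coeff i q.1) * X ^ i :=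
      X_pow_dvd_iff.2 fun i hi => by
        simp only [map_sub, map_sum, coeff_C_mul, coeff_X_pow, mul_ite, mul_one, mul_zero,
          Finset.sum_ite_eq, Finset.mem_range, hi, if_true, sub_self]
    have e2 : q.1 - r.1 * (X * w * u⁻¹) = ∑ i ∈ Finset.range (m + 1), C (coeff i q.1) * X ^ i := by
      rw [e, show X ^ m * u * (X * w * u⁻¹) = X ^ (m + 1) * w * (u * u⁻¹) by ring,
        PowerSeries.mul_inv_cancel u hu, mul_one, ← hw]
      ring
    let q' : T := ⟨X * w * u⁻¹, by simp [T, D.mem_T]⟩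
    refine ⟨q', ?_⟩
    rw [← map_smul, eq_comm]
    refine (Submodule.Quotient.eq _).2 ⟨⟨(q - r • q').1, ?_, (q - r • q').2⟩, rfl⟩
    change q.1 - r.1 * (X * w * u⁻¹) ∈ D.V
    rw [e2]
    exact sum_mem fun i _ => mul_mem (D.C_mem _) (pow_mem D.X_mem _)
  have : Module.Flat D.R (T ⧸ LinearMap.range ι) := .of_forall_isTrivialRelation
    fun {l f x} h => by
      by_cases h0 : ∀ i, f i = 0
      · exact ⟨l, fun i j => if i = j then 1 else 0, x, fun i => by simp, fun j => by simp [h0]⟩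
      push Not at h0
      obtain ⟨i0, h0⟩ := h0
      have : ∀ i, ∃ q', f i0 • π q' = x i := fun i => by
        obtain ⟨q, hq⟩ := Submodule.mkQ_surjective _ (x i)
        exact hq ▸ dv _ q h0
      choose y hy using this
      have h1 : ∑ i, f i • π (y i) = 0 := by
        have : ∑ i, f i • π (y i) = π (∑ i, f i • y i) := by simp
        rw [this]
        refine tf _ _ h0 ?_
        rw [← this, Finset.smul_sum, ← h]
        exact Finset.sum_congr rfl fun i _ => by rw [smul_comm, hy]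
      refine ⟨l, fun i j => (if i = j then f i0 else 0) - if i = i0 then f j else 0,
        fun j => π (y j), fun i => ?_, fun j => ?_⟩
      · simp only [sub_smul, Finset.sum_sub_distrib, ite_smul, zero_smul, Finset.sum_ite_eq,
          Finset.mem_univ, if_true, hy]
        split_ifs <;> simp [h1]
      · simp [mul_sub, mul_comm]
  have inj := LinearMap.lTensor_injective_of_exact_of_flat π (Submodule.mkQ_surjective _) ι hι
    (LinearMap.exact_map_mkQ_range ι) M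
  let l := D.x 0 / (D.x 0 + D.σ (D.x 0))
  let ψ : k →+ k := AddMonoidHom.mk' (fun a => l * D.ψ a + D.σ (l * D.ψ (D.σ a))) fun a b => by
    simp only [map_add, mul_add]
    ring
  have l1 : ∀ a c, ψ (a ^ p * c) = a * ψ c := fun a c => by
    simp only [ψ, AddMonoidHom.mk'_apply, map_mul, map_pow, D.lin, D.inv]
    ring
  have l2 : ψ 1 = 1 := by
    have := D.h1
    simp only [ψ, l, AddMonoidHom.mk'_apply, map_one, D.one, mul_one, map_div₀, map_add, D.inv]
    rw [add_comm (D.σ (D.x 0)), ← add_div, div_self this]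
  have l3 : ∀ f ∈ D.T, Φ p ψ f ∈ D.T := fun f hf => by
    rw [D.mem_T, ← coeff_zero_eq_constantCoeff_apply, coeff_Φ, mul_zero,
      coeff_zero_eq_constantCoeff_apply]
    simp only [ψ, AddMonoidHom.mk'_apply, map_add, D.inv, D.mem_T.1 hf]
    ring
  let F : Frob p D.R →ₗ[D.R] T := ⟨⟨fun f : D.R => ⟨_, l3 _ f.2.2⟩,
    fun f g => Subtype.ext (map_add (Φ p ψ) _ _)⟩, fun r f => Subtype.ext (Φ_lin l1 r.1 _)⟩
  have hF : F (Frob.one p D.R) = ι 1 := Subtype.ext (by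
    have hp : 0 < p := (Fact.out : p.Prime).pos
    change Φ p ψ 1 = 1
    ext n
    rw [coeff_Φ, coeff_one, coeff_one]
    by_cases h : n = 0 <;> simp [h, l2, hp.ne'])
  intro a b h
  have h1 := congrArg (F.lTensor M) h
  simp only [LinearMap.lTensor_tmul, hF] at h1
  have h2 := inj (a₁ := a ⊗ₜ 1) (a₂ := b ⊗ₜ 1) h1
  simpa using congrArg (TensorProduct.rid D.R M) h2

end Pool.Agent.H66.FSplit
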