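import Pool.Agent.H66.FhcDefs

/-! Arithmetic of the scales `D j` and the return sets `A l`. -/

namespace Pool.Agent.H66.Fhc

open Filter

def ee : ℕ → ℕ
  | 0 => 4
  | j + 1 => 2 ^ ee j

def D (j : ℕ) : ℕ := 2 ^ ee j

theorem two_e (e : ℕ) (h : 4 ≤ e) : 2 * e + 6 ≤ 2 ^ e := by
  induction e, h using Nat.le_induction with
  | base => norm_num
  | succ n _ ih => rw [pow_succ]; omega

theorem ee_ge (j : ℕ) : j + 4 ≤ ee j := by
  induction j with
  | zero => simp [ee]
  | succ j ih => have := two_e (ee j) (by omega); simp only [ee]; omega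

theorem D_succ (j : ℕ) : D (j + 1) = 2 ^ D j := rfl

theorem D_ge (j : ℕ) : j + 16 ≤ D j := by
  induction j with
  | zero => simp [D, ee]
  | succ j ih => have := two_e (D j) (by omega); rw [D_succ]; omega

theorem D_dvd (j : ℕ) : 2 ^ (j + 10) * D j ∣ D (j + 1) := by
  rw [D_succ, D, ← pow_add]
  refine pow_dvd_pow 2 ?_
  have := two_e (ee j) (by have := ee_ge j; omega)
  have := ee_ge j
  omega

theorem D_pos (j : ℕ) : 0 < D j := by have := D_ge j; omega

theorem D_16 (j : ℕ) : 32 * D j ≤ D (j + 1) := by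
  refine le_trans (Nat.mul_le_mul_right _ ?_) (Nat.le_of_dvd (D_pos _) (D_dvd j))
  calc 32 = 2 ^ 5 := by norm_num
    _ ≤ _ := Nat.pow_le_pow_right two_pos (by omega)

theorem D_dvd' {i j : ℕ} (h : i ≤ j) : D i ∣ D j := by
  induction j, h using Nat.le_induction with
  | base => rfl
  | succ n _ ih => exact ih.trans ((Dvd.intro_left _ rfl).trans (D_dvd n))

theorem D_mono {i j : ℕ} (h : i ≤ j) : D i ≤ D j := Nat.le_of_dvd (D_pos _) (D_dvd' h)

theorem D_dvd4 {i j : ℕ} (h : i ≤ j) : 4 * D i ∣ D (j + 1) := by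
  refine (Nat.mul_dvd_mul ?_ (D_dvd' h)).trans (D_dvd j)
  exact (show 4 = 2 ^ 2 by norm_num) ▸ pow_dvd_pow 2 (by omega)

theorem lin_le (x : ℕ) (h : 256 ≤ x) : 1 + x ≤ 2 ^ (x / 24) := by
  have key : ∀ y, 10 ≤ y → 24 * (y + 1) ≤ 2 ^ y := by
    intro y hy
    induction y, hy using Nat.le_induction with
    | base => norm_num
    | succ n _ ih => rw [pow_succ]; omega
  have := key (x / 24) (by omega)
  omega

def A (l : ℕ) : Set ℕ := {N | N % (4 * D (l + 1)) = D (l + 1) ∧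
  ∀ j, l + 1 ≤ j → ∀ q : ℤ, 1 ≤ q → 16 * (D j : ℤ) ≤ |(N : ℤ) - q * D (j + 1)|}

def good (N l : ℕ) : Prop := N ∈ A l ∨ (N = 0 ∧ l = 0)

theorem A_form {l N : ℕ} (h : N ∈ A l) : ∃ s : ℕ, N = (4 * s + 1) * D (l + 1) := by
  refine ⟨N / (4 * D (l + 1)), ?_⟩
  have := Nat.div_add_mod N (4 * D (l + 1))
  rw [h.1] at this
  linarith

theorem sep_lt {l l' N m : ℕ} (hN : N ∈ A l) (hm : m ∈ A l') (h : l < l') :
    16 * (D l' : ℤ) ≤ |(N : ℤ) - m| := by
  obtain ⟨s, rfl⟩ := A_form hm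
  have := hN.2 l' h (4 * s + 1) (by omega)
  simpa using this

theorem A_uniq {l l' N : ℕ} (h : N ∈ A l) (h' : N ∈ A l') : l = l' := by
  rcases lt_trichotomy l l' with h1 | h1 | h1
  · have := sep_lt h h' h1
    have := D_pos l'
    simp at *; omega
  · exact h1
  · have := sep_lt h' h h1
    have := D_pos l
    simp at *; omega

theorem odd_mul {a b d : ℤ} (ha : a ≠ 0) (hd : 0 ≤ d) (hb : b ≤ d) : b ≤ |a * d| := by
  rw [abs_mul, abs_of_nonneg hd]
  have : 1 ≤ |a| := Int.one_le_abs ha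
  nlinarith

theorem sep {l l' N m : ℕ} (hN : good N l) (hm : m ∈ A l') (hne : m ≠ N) :
    16 * (D (max l l') : ℤ) ≤ |(m : ℤ) - N| := by
  have h16 := D_16 l'
  rcases hN with hN | ⟨rfl, rfl⟩
  · rcases lt_trichotomy l l' with h | h | h
    · rw [max_eq_right h.le, abs_sub_comm]; exact sep_lt hN hm h
    · subst h
      obtain ⟨s, rfl⟩ := A_form hm
      obtain ⟨t, rfl⟩ := A_form hN
      rw [max_self]
      push_cast
      rw [← sub_mul]
      refine odd_mul (fun h => hne ?_) (by positivity) (by omega)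
      have : s = t := by omega
      rw [this]
    · rw [max_eq_left h.le]; exact sep_lt hm hN h
  · obtain ⟨s, rfl⟩ := A_form hm
    rw [max_eq_right (Nat.zero_le _)]
    push_cast
    rw [sub_zero]
    exact odd_mul (by omega) (by positivity) (by omega)

theorem gap {l N : ℕ} (hN : good N l) {j : ℕ} (hj : l ≤ j) (q : ℤ) :
    16 * (D j : ℤ) ≤ |(N : ℤ) - (4 * q - 6) * D (j + 1)| := by
  have h16 := D_16 j
  rcases hN with hN | ⟨rfl, rfl⟩
  · rcases hj.eq_or_lt with h | h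
    · subst h
      obtain ⟨t, rfl⟩ := A_form hN
      push_cast
      rw [← sub_mul]
      exact odd_mul (by omega) (by positivity) (by omega)
    · by_cases hq : 1 ≤ 4 * q - 6
      · exact hN.2 j h _ hq
      · refine le_trans ?_ (le_abs_self _)
        have : (4 * q - 6) * (D (j + 1) : ℤ) ≤ (-1) * D (j + 1) :=
          mul_le_mul_of_nonneg_right (by omega) (by positivity)
        omega
  · simp only [Nat.cast_zero, zero_sub, abs_neg]
    exact odd_mul (by omega) (by positivity) (by omega)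

theorem est1 {l l' N m : ℕ} (hN : good N l) (hm : m ∈ A l') (hne : m ≠ N) {k η : ℤ}
    (hk : |k| ≤ l') (hη : |η| ≤ l') (j : ℕ) :
    (l' + 1) * (4 * D j) * 2 ^ l * 2 ^ j * (1 + ((m : ℤ) - N).natAbs) ^ 2 ≤
      2 ^ (k + (m - N) - 6 * D j - (η + m) % (4 * D j : ℕ)).natAbs := by
  set x := ((m : ℤ) - N).natAbs with hx
  set r := (η + m) % (4 * D j : ℕ) with hr
  set d := (k + (m - N) - 6 * D j - r).natAbs with hd
  have hpos : (0 : ℤ) < (4 * D j : ℕ) := by have := D_pos j; omega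
  have r0 : 0 ≤ r := Int.emod_nonneg _ hpos.ne'
  have r1 : r < (4 * D j : ℕ) := Int.emod_lt_of_pos _ hpos
  have hs := sep hN hm hne
  rw [Int.abs_eq_natAbs, ← hx] at hs
  rw [abs_le] at hk hη
  have hl' : l' + 1 ≤ 2 ^ l' := Nat.lt_two_pow_self
  have hD := D_ge (max l l')
  have hDj := D_ge j
  have h1 := le_max_left l l'
  have h2 := le_max_right l l'
  have big : 256 ≤ x → 4 * D j ≤ 1 + x → l' + l + j + 3 * (x / 24) ≤ d → 
      (l' + 1) * (4 * D j) * 2 ^ l * 2 ^ j * (1 + x) ^ 2 ≤ 2 ^ d := by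
    intro a b c
    have e := lin_le x a
    calc _ ≤ 2 ^ l' * 2 ^ (x / 24) * 2 ^ l * 2 ^ j * (2 ^ (x / 24)) ^ 2 := by
          gcongr; exact b.trans e
      _ = 2 ^ (l' + l + j + 3 * (x / 24)) := by ring
      _ ≤ _ := Nat.pow_le_pow_right two_pos c
  rcases le_or_gt j (max l l') with hj | hj
  · have := D_mono hj
    exact big (by omega) (by omega) (by omega)
  · obtain ⟨i, rfl⟩ : ∃ i, j = i + 1 := ⟨j - 1, by omega⟩
    by_cases hx2 : 22 * D (i + 1) < x
    · exact big (by omega) (by omega) (by omega)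
    · have hg := gap hN (j := i) (by omega) ((η + m) / (4 * D (i + 1) : ℕ))
      have he := Int.mul_ediv_add_emod (η + m) (4 * D (i + 1) : ℕ)
      rw [← hr] at he
      set q := (η + m) / (4 * D (i + 1) : ℕ)
      have hDi := D_ge i
      have e1 : (N : ℤ) - (4 * q - 6) * D (i + 1) = k - η - (k + (m - N) - 6 * D (i + 1) - r) := by
        push_cast at he ⊢; linarith
      rw [e1, Int.abs_eq_natAbs] at hg
      calc _ ≤ 2 ^ l' * (4 * D (i + 1)) * 2 ^ l * 2 ^ (i + 1) * (32 * D (i + 1)) ^ 2 := by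
            gcongr; omega
        _ = 2 ^ (l' + l + i + 13 + 3 * D i) := by rw [D_succ]; ring
        _ ≤ _ := Nat.pow_le_pow_right two_pos (by omega)

theorem est2 {l j : ℕ} (hj : l ≤ j) {k r : ℤ} (hk : |k| ≤ l) (r0 : 0 ≤ r) :
    (l + 1) * (4 * D j) * 2 ^ l * 2 ^ j ≤ 2 ^ (k - 6 * D j - r).natAbs := by
  rw [abs_le] at hk
  have hl : l + 1 ≤ 2 ^ l := Nat.lt_two_pow_self
  have hD : D j ≤ 2 ^ D j := Nat.lt_two_pow_self.le
  have hDj := D_ge j
  calc _ ≤ 2 ^ l * (4 * 2 ^ D j) * 2 ^ l * 2 ^ j := by gcongr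
    _ = 2 ^ (l + l + j + 2 + D j) := by ring
    _ ≤ _ := Nat.pow_le_pow_right two_pos (by omega)

theorem est3 (j : ℕ) (k : ℤ) {r : ℤ} (r0 : 0 ≤ r) :
    4 * D j * 2 ^ j ≤ 2 ^ k.natAbs * 2 ^ (k - 6 * D j - r).natAbs := by
  have hD : D j ≤ 2 ^ D j := Nat.lt_two_pow_self.le
  have hDj := D_ge j
  calc _ ≤ 4 * 2 ^ D j * 2 ^ j := by gcongr
    _ = 2 ^ (j + 2 + D j) := by ring
    _ ≤ 2 ^ (k.natAbs + (k - 6 * D j - r).natAbs) := Nat.pow_le_pow_right two_pos (by omega)
    _ = _ := pow_add _ _ _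

open Classical in
theorem dens_aux (ρ Q : ℕ → ℕ) (h1 : ∀ j, 1 ≤ ρ j) (h2 : ∀ j, 2 ^ (j + 8) * ρ j ≤ Q j) (S : ℕ) :
    (S : ℝ) / 2 ≤ ((Finset.range S).filter fun s : ℕ =>
      ∀ j, ∀ q : ℕ, 1 ≤ q → s + 4 * ρ j < q * Q j ∨ q * Q j + 4 * ρ j < s).card := by
  have hc := Finset.card_filter_add_card_filter_not (s := Finset.range S) fun s : ℕ =>
      ∀ j, ∀ q : ℕ, 1 ≤ q → s + 4 * ρ j < q * Q j ∨ q * Q j + 4 * ρ j < s
  have hsub : ((Finset.range S).filter fun s : ℕ =>
      ¬ ∀ j, ∀ q : ℕ, 1 ≤ q → s + 4 * ρ j < q * Q j ∨ q * Q j + 4 * ρ j < s) ⊆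
      (Finset.range S).biUnion fun j => (Finset.Icc 1 (2 * S / Q j)).biUnion fun q =>
        Finset.Icc (q * Q j - 4 * ρ j) (q * Q j + 4 * ρ j) := by
    intro s hs
    simp only [Finset.mem_filter, Finset.mem_range, not_forall, not_or, not_lt] at hs
    obtain ⟨hs, j, q, hq, ha, hb⟩ := hs
    have e1 : 256 * 2 ^ j * ρ j ≤ Q j := by have := h2 j; rw [pow_add] at this; linarith
    have e2 : j < 2 ^ j := Nat.lt_two_pow_self
    have e3 : Q j ≤ q * Q j := Nat.le_mul_of_pos_left _ hq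
    have e4 : ρ j ≤ 2 ^ j * ρ j := Nat.le_mul_of_pos_left _ (by positivity)
    have e5 : 2 ^ j ≤ 2 ^ j * ρ j := Nat.le_mul_of_pos_right _ (h1 j)
    simp only [Finset.mem_biUnion, Finset.mem_range, Finset.mem_Icc]
    refine ⟨j, by nlinarith, q, ⟨hq, ?_⟩, by omega, hb⟩
    rw [Nat.le_div_iff_mul_le (by nlinarith [h1 j])]
    nlinarith
  have hb := (Finset.card_le_card hsub).trans Finset.card_biUnion_le
  have hb2 : ∀ j, (((Finset.Icc 1 (2 * S / Q j)).biUnion fun q =>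
        Finset.Icc (q * Q j - 4 * ρ j) (q * Q j + 4 * ρ j)).card : ℝ) ≤ S / 4 * (1 / 2) ^ j := by
    intro j
    have a1 : ((Finset.Icc 1 (2 * S / Q j)).biUnion fun q =>
        Finset.Icc (q * Q j - 4 * ρ j) (q * Q j + 4 * ρ j)).card ≤ (2 * S / Q j) * (9 * ρ j) := by
      refine Finset.card_biUnion_le.trans ?_
      refine (Finset.sum_le_card_nsmul _ _ (9 * ρ j) fun q _ => ?_).trans (by simp)
      have := h1 j
      simp only [Nat.card_Icc]; omega
    have a2 : (2 * S / Q j) * (2 ^ (j + 8) * ρ j) ≤ 2 * S :=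
      (Nat.mul_le_mul_left _ (h2 j)).trans (Nat.div_mul_le_self _ _)
    have a3 : (((2 * S / Q j : ℕ) : ℝ)) * (2 ^ (j + 8) * ρ j) ≤ 2 * S := by exact_mod_cast a2
    refine (Nat.cast_le.2 a1).trans ?_
    rw [one_div, inv_pow, ← div_eq_mul_inv, le_div_iff₀ (by positivity)]
    push_cast
    rw [pow_add] at a3
    have : (0 : ℝ) ≤ S := by positivity
    nlinarith
  have hb3 : (((Finset.range S).filter fun s : ℕ =>
      ¬ ∀ j, ∀ q : ℕ, 1 ≤ q → s + 4 * ρ j < q * Q j ∨ q * Q j + 4 * ρ j < s).card : ℝ) ≤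
      S / 4 * 2 := by
    refine (Nat.cast_le.2 hb).trans ?_
    push_cast
    refine (Finset.sum_le_sum fun j _ => hb2 j).trans ?_
    rw [← Finset.mul_sum]
    exact mul_le_mul_of_nonneg_left (sum_geometric_two_le _) (by positivity)
  rw [Finset.card_range] at hc
  have hc' := congrArg (fun n : ℕ => (n : ℝ)) hc
  push_cast at hc'
  linarith

open Classical in
theorem dens_A (l : ℕ) {U : Set ℕ} (hU : A l ⊆ U) : 0 < lowerDensity U := by
  set P := 4 * D (l + 1) with hP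
  have hP0 : 0 < P := by have := D_pos (l + 1); omega
  choose ρ hρ using fun j : ℕ => D_dvd' (show l + 1 ≤ l + 1 + j by omega)
  choose Q hQ using fun j : ℕ => D_dvd4 (show l + 1 ≤ l + 1 + j by omega)
  have h1 : ∀ j, 1 ≤ ρ j := fun j => by
    have := D_pos (l + 1 + j)
    rw [hρ j] at this
    exact Nat.pos_of_mul_pos_left this
  have h2 : ∀ j, 2 ^ (j + 8) * ρ j ≤ Q j := fun j => by
    have := Nat.le_of_dvd (D_pos _) (D_dvd (l + 1 + j))
    rw [hQ j, hρ j] at this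
    refine Nat.le_of_mul_le_mul_left (le_trans ?_ this) hP0
    have e : 2 ^ (j + 8) * 4 ≤ 2 ^ (l + 1 + j + 10) := by
      rw [show 4 = 2 ^ 2 by norm_num, ← pow_add]
      exact Nat.pow_le_pow_right two_pos (by omega)
    calc _ = 2 ^ (j + 8) * 4 * (D (l + 1) * ρ j) := by ring
      _ ≤ _ := Nat.mul_le_mul_right _ e
  have key : ∀ M : ℕ, ((M / P : ℕ) : ℝ) / 2 ≤ ((Finset.range M).filter (· ∈ U)).card := by
    intro M
    refine (dens_aux ρ Q h1 h2 (M / P)).trans (Nat.cast_le.2 ?_)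
    refine Finset.card_le_card_of_injOn (fun s => D (l + 1) + P * s) ?_ ?_
    · intro s hs
      simp only [Finset.coe_filter, Finset.mem_range, Set.mem_setOf_eq] at hs ⊢
      refine ⟨?_, hU ⟨?_, fun j hj q hq => ?_⟩⟩
      · have a1 : P * (s + 1) ≤ P * (M / P) := Nat.mul_le_mul_left _ hs.1
        have a2 := Nat.mul_div_le M P
        rw [mul_add] at a1
        omega
      · rw [← hP, Nat.add_mul_mod_self_left, Nat.mod_eq_of_lt (by omega)]
      · obtain ⟨i, rfl⟩ : ∃ i, j = l + 1 + i := ⟨j - (l + 1), by omega⟩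
        obtain ⟨q, rfl⟩ : ∃ n : ℕ, q = n := ⟨q.toNat, by omega⟩
        rw [hQ i, hρ i, hP]
        have hD : (0 : ℤ) < D (l + 1) := by exact_mod_cast D_pos _
        rcases hs.2 i q (by omega) with h | h
        · have h' : (s : ℤ) + 4 * ρ i + 1 ≤ q * Q i := by exact_mod_cast h
          refine le_trans ?_ (neg_le_abs _)
          push_cast
          nlinarith
        · have h' : (q : ℤ) * Q i + 4 * ρ i + 1 ≤ s := by exact_mod_cast h
          refine le_trans ?_ (le_abs_self _)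
          push_cast
          nlinarith
    · intro s _ t _ h
      exact Nat.eq_of_mul_eq_mul_left hP0 (Nat.add_left_cancel h)
  have hP' : (0 : ℝ) < P := by exact_mod_cast hP0
  refine lt_of_lt_of_le (show (0 : ℝ) < 1 / (4 * P) by positivity) (le_liminf_of_le ?_ ?_)
  · refine isCoboundedUnder_ge_of_le _ (x := 1) fun N => ?_
    refine div_le_one_of_le₀ ?_ (by positivity)
    exact_mod_cast (Finset.card_filter_le _ _).trans (by simp)
  · filter_upwards [eventually_ge_atTop P] with M hM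
    have hM0 : (0 : ℝ) < M := by exact_mod_cast lt_of_lt_of_le hP0 hM
    rw [div_le_div_iff₀ (by positivity) hM0]
    have a1 : M ≤ 2 * (P * (M / P)) := by
      have := Nat.div_add_mod M P
      have := Nat.mod_lt M hP0
      have : P * 1 ≤ P * (M / P) := Nat.mul_le_mul_left _ (Nat.div_pos hM hP0)
      omega
    have a2 : (M : ℝ) ≤ 2 * (P * (M / P : ℕ)) := by exact_mod_cast a1
    nlinarith [key M]

end Pool.Agent.H66.Fhc
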