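import Pool.Agent.H66.Fhc1

/-! The Banach space `Y`, the operator `T` and the vectors `dl k ω`. -/

namespace Pool.Agent.H66.Fhc

open Filter
open scoped ENNReal

section wop
variable {𝕜 : Type} [RCLike 𝕜] {α X : Type} [NormedAddCommGroup X] [NormedSpace 𝕜 X]

theorem wop_aux (p : ℝ≥0∞) [Fact (1 ≤ p)] (hp : p ≠ ∞) (e : α ≃ α) (B : α → X →L[𝕜] X) {C : ℝ}
    (hC : 0 ≤ C) (hB : ∀ i x, ‖B i x‖ ≤ C * ‖x‖) (f : lp (fun _ : α => X) p) :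
    Summable (fun i => ‖B i (f (e i))‖ ^ p.toReal) ∧
      ∑' i, ‖B i (f (e i))‖ ^ p.toReal ≤ (C * ‖f‖) ^ p.toReal := by
  have hp0 : 0 < p.toReal := ENNReal.toReal_pos (zero_lt_one.trans_le Fact.out).ne' hp
  have h1 : HasSum (fun i => C ^ p.toReal * ‖f (e i)‖ ^ p.toReal) (C ^ p.toReal * ‖f‖ ^ p.toReal) :=
    ((e.hasSum_iff (f := fun i => ‖f i‖ ^ p.toReal)).2 (lp.hasSum_norm hp0 f)).mul_left _
  have h2 : ∀ i, ‖B i (f (e i))‖ ^ p.toReal ≤ C ^ p.toReal * ‖f (e i)‖ ^ p.toReal := fun i => by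
    rw [← Real.mul_rpow hC (norm_nonneg _)]
    exact Real.rpow_le_rpow (norm_nonneg _) (hB _ _) hp0.le
  have h3 : Summable (fun i => ‖B i (f (e i))‖ ^ p.toReal) :=
    Summable.of_nonneg_of_le (fun _ => by positivity) h2 h1.summable
  refine ⟨h3, ?_⟩
  rw [Real.mul_rpow hC (norm_nonneg _), ← h1.tsum_eq]
  exact h3.tsum_le_tsum h2 h1.summable

noncomputable def wop (p : ℝ≥0∞) [Fact (1 ≤ p)] (hp : p ≠ ∞) (e : α ≃ α) (B : α → X →L[𝕜] X)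
    {C : ℝ} (hC : 0 ≤ C) (hB : ∀ i x, ‖B i x‖ ≤ C * ‖x‖) :
    lp (fun _ : α => X) p →L[𝕜] lp (fun _ : α => X) p :=
  LinearMap.mkContinuous
    { toFun := fun f => ⟨fun i => B i (f (e i)), memℓp_gen (wop_aux p hp e B hC hB f).1⟩
      map_add' := fun f g => by ext i; simp
      map_smul' := fun c f => by ext i; simp } C fun f =>
    lp.norm_le_of_tsum_le (ENNReal.toReal_pos (zero_lt_one.trans_le Fact.out).ne' hp)
      (by positivity) (wop_aux p hp e B hC hB f).2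

theorem wop_apply (p : ℝ≥0∞) [Fact (1 ≤ p)] (hp : p ≠ ∞) (e : α ≃ α) (B : α → X →L[𝕜] X)
    {C : ℝ} (hC : 0 ≤ C) (hB : ∀ i x, ‖B i x‖ ≤ C * ‖x‖) (f : lp (fun _ : α => X) p) (i : α) :
    wop p hp e B hC hB f i = B i (f (e i)) := rfl

end wop

abbrev I := ℤ × ℕ × ℤ

noncomputable def cw (i : I) : ℝ :=
  (4 * D i.2.1 : ℕ) / 2 ^ (i.1 - 6 * D i.2.1 - i.2.2).natAbs

theorem cw_pos (i : I) : 0 < cw i := by
  have := D_pos i.2.1
  unfold cw; positivity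

def sh (a : ℤ) : I ≃ I := (Equiv.addRight a).prodCongr (Equiv.refl _)

theorem sh_apply (a : ℤ) (i : I) : sh a i = (i.1 + a, i.2) := rfl

theorem cw_sh (a : ℤ) (i : I) : cw i ≤ 2 ^ a.natAbs * cw (sh a i) := by
  unfold cw
  simp only [sh_apply]
  rw [← mul_div_assoc, div_le_div_iff₀ (by positivity) (by positivity), mul_comm ((2 : ℝ) ^ _),
    mul_assoc, ← pow_add]
  gcongr
  · norm_num
  · omega

variable (𝕜 : Type) [RCLike 𝕜]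

abbrev L := lp (fun _ : I => 𝕜) 1

noncomputable def T0 (a : ℤ) : L 𝕜 →L[𝕜] L 𝕜 :=
  wop 1 ENNReal.one_ne_top (sh a)
    (fun i => ((cw i / cw (sh a i) : ℝ) : 𝕜) • ContinuousLinearMap.id 𝕜 𝕜)
    (C := 2 ^ a.natAbs) (by positivity) fun i x => by
      simp only [ContinuousLinearMap.smul_apply, ContinuousLinearMap.id_apply, norm_smul,
        RCLike.norm_ofReal]
      gcongr
      rw [abs_of_pos (div_pos (cw_pos _) (cw_pos _)), div_le_iff₀ (cw_pos _)]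
      exact cw_sh a i

/-- normalised coordinate -/
noncomputable def nu (i : I) : L 𝕜 →L[𝕜] 𝕜 := ((cw i : ℝ) : 𝕜)⁻¹ • lp.evalCLM 𝕜 (fun _ : I => 𝕜) 1 i

variable {𝕜}

theorem cw_ne (i : I) : ((cw i : ℝ) : 𝕜) ≠ 0 := by exact_mod_cast (cw_pos i).ne'

theorem nu_apply (i : I) (y : L 𝕜) : nu 𝕜 i y = ((cw i : ℝ) : 𝕜)⁻¹ * y i := rfl

theorem nu_ext {y z : L 𝕜} (h : ∀ i, nu 𝕜 i y = nu 𝕜 i z) : y = z := by
  ext i
  exact mul_left_cancel₀ (inv_ne_zero (cw_ne i)) (h i)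

theorem nu_T0 (a : ℤ) (i : I) (y : L 𝕜) : nu 𝕜 i (T0 𝕜 a y) = nu 𝕜 (sh a i) y := by
  simp only [nu_apply, T0, wop_apply, ContinuousLinearMap.smul_apply, ContinuousLinearMap.id_apply,
    smul_eq_mul]
  have := cw_ne (𝕜 := 𝕜) i
  have := cw_ne (𝕜 := 𝕜) (sh a i)
  push_cast
  field_simp

theorem nu_le (i : I) (y : L 𝕜) : cw i * ‖nu 𝕜 i y‖ ≤ ‖y‖ := by
  rw [nu_apply, norm_mul, norm_inv, RCLike.norm_ofReal, abs_of_pos (cw_pos i),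
    mul_inv_cancel_left₀ (cw_pos i).ne']
  exact lp.norm_apply_le_norm one_ne_zero y i

def nd (k ω : ℤ) (j : ℕ) : I := (k, j, ω % (4 * D j : ℕ))

variable (𝕜) in
noncomputable def sj (k ω : ℤ) (j : ℕ) : L 𝕜 := lp.single 1 (nd k ω j) (cw (nd k ω j) : ℝ)

theorem norm_sj (k ω : ℤ) (j : ℕ) : ‖sj 𝕜 k ω j‖ = cw (nd k ω j) := by
  rw [sj, lp.norm_single one_pos, RCLike.norm_ofReal, abs_of_pos (cw_pos _)]

theorem emod_nn (ω : ℤ) (j : ℕ) : 0 ≤ ω % (4 * D j : ℕ) :=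
  Int.emod_nonneg _ (by have := D_pos j; omega)

theorem cw_le_of {i : I} {a b : ℝ} (hb : 0 < b)
    (h : ((4 * D i.2.1 : ℕ) : ℝ) * b ≤ a * 2 ^ (i.1 - 6 * D i.2.1 - i.2.2).natAbs) :
    cw i ≤ a / b := by
  rw [cw, div_le_div_iff₀ (by positivity) hb]; exact h

theorem summable_sj (k ω : ℤ) : Summable (sj 𝕜 k ω) := by
  refine Summable.of_norm_bounded (g := fun j => (2 : ℝ) ^ k.natAbs * (1 / 2) ^ j)
    (summable_geometric_two.mul_left _) fun j => ?_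
  rw [norm_sj, one_div, inv_pow, ← div_eq_mul_inv]
  refine cw_le_of (by positivity) ?_
  exact_mod_cast est3 j k (emod_nn ω j)

variable (𝕜) in
noncomputable def d0 (k ω : ℤ) : L 𝕜 := ∑' j, sj 𝕜 k ω j

theorem nu_d0 (k ω : ℤ) (i : I) : nu 𝕜 i (d0 𝕜 k ω) = if i = nd k ω i.2.1 then 1 else 0 := by
  rw [d0, (nu 𝕜 i).map_tsum (summable_sj k ω), tsum_eq_single i.2.1]
  · rw [nu_apply, sj]
    split_ifs with h
    · rw [← h, lp.single_apply_self, inv_mul_cancel₀ (cw_ne i)]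
    · rw [lp.single_apply_ne _ _ _ h, mul_zero]
  · intro j hj
    rw [nu_apply, sj, lp.single_apply_ne, mul_zero]
    rintro rfl
    exact hj rfl

theorem T0_d0 (a k ω : ℤ) : T0 𝕜 a (d0 𝕜 k ω) = d0 𝕜 (k - a) ω := by
  refine nu_ext fun i => ?_
  rw [nu_T0, nu_d0, nu_d0]
  obtain ⟨x, j, r⟩ := i
  simp only [sh_apply, nd, Prod.mk.injEq, eq_sub_iff_add_eq]

theorem norm_d0_le {k ω : ℤ} {a : ℝ} (h : ∀ j, cw (nd k ω j) ≤ a / 2 ^ j) :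
    ‖d0 𝕜 k ω‖ ≤ a * 2 := by
  refine tsum_of_norm_bounded (hasSum_geometric_two.mul_left a) fun j => ?_
  rw [norm_sj, one_div, inv_pow, ← div_eq_mul_inv]; exact h j

theorem norm_d0_sub {k ω ω' : ℤ} {a : ℝ} (ha : 0 ≤ a) (l : ℕ)
    (h0 : ∀ j ≤ l, ω % (4 * D j : ℕ) = ω' % (4 * D j : ℕ))
    (h : ∀ j, l ≤ j → ∀ r, 0 ≤ r → cw (k, j, r) ≤ a / 2 ^ j) :
    ‖d0 𝕜 k ω - d0 𝕜 k ω'‖ ≤ 2 * a * 2 := by
  rw [d0, d0, ← (summable_sj k ω).tsum_sub (summable_sj k ω')]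
  refine tsum_of_norm_bounded (hasSum_geometric_two.mul_left (2 * a)) fun j => ?_
  rcases le_total j l with hj | hj
  · simp only [sj, nd, h0 j hj, sub_self, norm_zero]; positivity
  · refine (norm_sub_le _ _).trans ?_
    rw [norm_sj, norm_sj, one_div, inv_pow, ← div_eq_mul_inv, two_mul, add_div]
    exact add_le_add (h j hj _ (emod_nn _ _)) (h j hj _ (emod_nn _ _))

variable (𝕜) in
noncomputable def Y : Submodule 𝕜 (L 𝕜) :=
  (Submodule.span 𝕜 (Set.range fun q : ℤ × ℤ => d0 𝕜 q.1 q.2)).topologicalClosure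

instance : CompleteSpace (Y 𝕜) := (Submodule.isClosed_topologicalClosure _).completeSpace_coe

theorem Y_le {U : Submodule 𝕜 (L 𝕜)} (hU : IsClosed (U : Set (L 𝕜))) (h : ∀ k ω, d0 𝕜 k ω ∈ U) :
    Y 𝕜 ≤ U :=
  Submodule.topologicalClosure_minimal _ (Submodule.span_le.2 (by
    rintro _ ⟨q, rfl⟩; exact h _ _)) hU

theorem d0_mem (k ω : ℤ) : d0 𝕜 k ω ∈ Y 𝕜 :=
  Submodule.le_topologicalClosure _ (Submodule.subset_span ⟨(k, ω), rfl⟩)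

variable (𝕜) in
noncomputable def dl (k ω : ℤ) : Y 𝕜 := ⟨d0 𝕜 k ω, d0_mem k ω⟩

theorem T0_mem (a : ℤ) (y : Y 𝕜) : T0 𝕜 a y ∈ Y 𝕜 :=
  Y_le (U := (Y 𝕜).comap (T0 𝕜 a).toLinearMap)
    ((Submodule.isClosed_topologicalClosure _).preimage (T0 𝕜 a).continuous)
    (fun k ω => by change T0 𝕜 a (d0 𝕜 k ω) ∈ Y 𝕜; rw [T0_d0]; exact d0_mem _ _) y.2

variable (𝕜) in
noncomputable def T1 (a : ℤ) : Y 𝕜 →L[𝕜] Y 𝕜 :=
  ((T0 𝕜 a).comp (Y 𝕜).subtypeL).codRestrict (Y 𝕜) (T0_mem a)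

theorem T1_coe (a : ℤ) (y : Y 𝕜) : (T1 𝕜 a y : L 𝕜) = T0 𝕜 a y := rfl

theorem T1_T1 (a : ℤ) (y : Y 𝕜) : T1 𝕜 (-a) (T1 𝕜 a y) = y := by
  refine Subtype.ext (nu_ext fun i => ?_)
  rw [T1_coe, T1_coe, nu_T0, nu_T0]
  simp [sh_apply]

variable (𝕜) in
noncomputable def T : Y 𝕜 ≃L[𝕜] Y 𝕜 :=
  ContinuousLinearEquiv.equivOfInverse (T1 𝕜 1) (T1 𝕜 (-1)) (T1_T1 1)
    (fun y => by have := T1_T1 (-1) y; rwa [neg_neg] at this)

theorem T_coe (y : Y 𝕜) : (T 𝕜 y : L 𝕜) = T0 𝕜 1 y := by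
  rw [T, ContinuousLinearEquiv.equivOfInverse_apply, T1_coe]

theorem dl_coe (k ω : ℤ) : (dl 𝕜 k ω : L 𝕜) = d0 𝕜 k ω := by rw [dl]

theorem T_dl (k ω : ℤ) : T 𝕜 (dl 𝕜 k ω) = dl 𝕜 (k - 1) ω :=
  Subtype.ext (by rw [T_coe, dl_coe, dl_coe, T0_d0])

theorem nu_T (i : I) (y : Y 𝕜) : nu 𝕜 i (T 𝕜 y) = nu 𝕜 (sh 1 i) y := by rw [T_coe, nu_T0]

/-- additivity: a nonzero coordinate has large descendants on every level -/
theorem descend (y : Y 𝕜) (hy : y ≠ 0) : ∃ (k : ℤ) (j : ℕ) (ε : ℝ), 0 < ε ∧ ∀ j' ≥ j,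
    ∃ r : ℤ, 0 ≤ r ∧ ε ≤ (4 * D j' : ℕ) * ‖nu 𝕜 (k, j', r) y‖ := by
  obtain ⟨⟨k, j, r⟩, hi⟩ : ∃ i, nu 𝕜 i y ≠ 0 := by
    by_contra h
    push Not at h
    exact hy (Subtype.ext (nu_ext fun i => by simp [h i]))
  refine ⟨k, j, ‖nu 𝕜 (k, j, r) y‖, norm_pos_iff.2 hi, fun j' hj => ?_⟩
  set F := (Finset.Ico (0 : ℤ) (4 * D j' : ℕ)).filter fun r' => r' % (4 * D j : ℕ) = r with hF
  have hpos : (0 : ℤ) < (4 * D j' : ℕ) := by have := D_pos j'; omega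
  have key : nu 𝕜 (k, j, r) y = ∑ r' ∈ F, nu 𝕜 (k, j', r') y := by
    have := Y_le (U := (nu 𝕜 (k, j, r) - ∑ r' ∈ F, nu 𝕜 (k, j', r')).ker)
      (ContinuousLinearMap.isClosed_ker _) (fun k' ω => ?_) y.2
    · simpa [sub_eq_zero] using this
    · simp only [LinearMap.mem_ker, ContinuousLinearMap.coe_coe, ContinuousLinearMap.sub_apply,
        ContinuousLinearMap.sum_apply, nu_d0, nd, Prod.mk.injEq, true_and, sub_eq_zero]
      by_cases hk : k = k'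
      · simp only [hk, true_and, Finset.sum_ite_eq', hF, Finset.mem_filter, Finset.mem_Ico,
          emod_nn, Int.emod_lt_of_pos _ hpos]
        rw [Int.emod_emod_of_dvd _ (by exact_mod_cast Nat.mul_dvd_mul_left 4 (D_dvd' hj))]
        simp only [eq_comm]
      · simp [hk]
  by_contra h
  push Not at h
  have hc : (F.card : ℝ) ≤ (4 * D j' : ℕ) := by
    have := (Finset.card_filter_le (Finset.Ico (0 : ℤ) (4 * D j' : ℕ))
      fun r' => r' % (4 * D j : ℕ) = r)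
    simp only [Int.card_Ico, sub_zero, Int.toNat_natCast] at this
    exact_mod_cast this
  have hne : F.Nonempty := by
    by_contra h0
    rw [Finset.not_nonempty_iff_eq_empty.1 h0] at key
    exact hi (by simpa using key)
  have hpos' : (0 : ℝ) < (4 * D j' : ℕ) := by exact_mod_cast hpos
  have h1 : ∑ r' ∈ F, ‖nu 𝕜 (k, j', r') y‖ < ∑ r' ∈ F, ‖nu 𝕜 (k, j, r) y‖ / (4 * D j' : ℕ) :=
    Finset.sum_lt_sum_of_nonempty hne fun r' hr' => by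
      rw [lt_div_iff₀' hpos']
      exact h r' (Finset.mem_Ico.1 (Finset.mem_filter.1 hr').1).1
  have h2 := norm_sum_le F fun r' => nu 𝕜 (k, j', r') y
  rw [← key] at h2
  rw [Finset.sum_const, nsmul_eq_mul, ← mul_div_assoc, lt_div_iff₀ hpos'] at h1
  nlinarith [norm_nonneg (nu 𝕜 (k, j, r) y)]

end Pool.Agent.H66.Fhc
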