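import Pool.Agent.H66.Fhc2

/-! The shift operator is frequently hypercyclic and has no nonzero periodic point. -/

namespace Pool.Agent.H66.Fhc

open Filter
open scoped ENNReal

variable (𝕜 : Type) [RCLike 𝕜] (p : ℝ≥0∞) [Fact (1 ≤ p)]

noncomputable abbrev EE := lp (fun _ : ℤ => Y 𝕜) p

noncomputable def sg (hp : p ≠ ∞) : EE 𝕜 p →L[𝕜] EE 𝕜 p :=
  wop p hp (Equiv.addRight 1) (fun _ => (T 𝕜 : Y 𝕜 →L[𝕜] Y 𝕜))
    (C := ‖(T 𝕜 : Y 𝕜 →L[𝕜] Y 𝕜)‖) (ContinuousLinearMap.opNorm_nonneg _)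
    fun _ x => ContinuousLinearMap.le_opNorm _ x

noncomputable def bb (n k ω : ℤ) : EE 𝕜 p := lp.single p n (dl 𝕜 k ω)

variable {𝕜 p}

theorem sg_apply (hp : p ≠ ∞) (x : EE 𝕜 p) (n : ℤ) : sg 𝕜 p hp x n = T 𝕜 (x (n + 1)) := by
  rw [sg, wop_apply]; simp

theorem nu_iter (hp : p ≠ ∞) (N : ℕ) (x : EE 𝕜 p) (n k : ℤ) (q : ℕ × ℤ) :
    nu 𝕜 (k, q) ((sg 𝕜 p hp)^[N] x n) = nu 𝕜 (k + N, q) (x (n + N)) := by
  induction N generalizing n k with
  | zero => simp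
  | succ N ih =>
    rw [Function.iterate_succ_apply', sg_apply, nu_T, sh_apply, ih]
    push_cast
    rw [add_assoc, add_assoc, add_comm (1 : ℤ)]

theorem periodic_zero (hp : p ≠ ∞) {N : ℕ} (hN : 1 ≤ N) {x : EE 𝕜 p}
    (h : (sg 𝕜 p hp)^[N] x = x) : x = 0 := by
  have hp0 : 0 < p.toReal := ENNReal.toReal_pos (zero_lt_one.trans_le Fact.out).ne' hp
  refine lp.ext (funext fun n => ?_)
  by_contra hn
  obtain ⟨k, j, ε, hε, hj⟩ := descend (x n) hn
  have hδ : (0 : ℝ) < ε / 2 ^ N := by positivity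
  have h1 := ((lp.memℓp x).summable hp0).tendsto_cofinite_zero.eventually
    (gt_mem_nhds (Real.rpow_pos_of_pos hδ p.toReal))
  obtain ⟨M, hM⟩ := (eventually_cofinite.1 h1).bddAbove
  obtain ⟨r, r0, hr⟩ := hj (j + (k.natAbs + (M - n).natAbs + N + 1)) (by omega)
  set j' := j + (k.natAbs + (M - n).natAbs + N + 1)
  have hD := D_ge j'
  obtain ⟨i, hi1, hi2⟩ : ∃ i : ℕ, k + (N * i : ℕ) ≤ 6 * D j' + r ∧
      6 * D j' + r < k + (N * i : ℕ) + N := by
    obtain ⟨t, ht⟩ : ∃ t : ℕ, 6 * D j' + r - k = t := ⟨(6 * D j' + r - k).toNat, by omega⟩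
    have := Nat.div_add_mod t N
    have := Nat.mod_lt t hN
    exact ⟨t / N, by omega, by omega⟩
  have h2 : (sg 𝕜 p hp)^[N * i] x = x := by
    rw [Function.iterate_mul]; exact Function.iterate_fixed h i
  have h3 := nu_iter hp (N * i) x n k (j', r)
  rw [h2] at h3
  have h4 := nu_le (k + (N * i : ℕ), j', r) (x (n + (N * i : ℕ)) : L 𝕜)
  rw [← h3] at h4
  have h5 : ((4 * D j' : ℕ) : ℝ) / 2 ^ N ≤ cw (k + (N * i : ℕ), j', r) := by
    unfold cw
    gcongr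
    · norm_num
    · simp only; omega
  have h6 : ε / 2 ^ N ≤ ‖x (n + (N * i : ℕ))‖ := by
    refine le_trans ?_ h4
    refine le_trans ?_ (mul_le_mul_of_nonneg_right h5 (norm_nonneg _))
    rw [div_mul_eq_mul_div]; gcongr
  have h7 : n + (N * i : ℕ) ≤ M := hM (not_lt.2 (Real.rpow_le_rpow hδ.le h6 hp0.le))
  omega

theorem not_chaotic (hp : p ≠ ∞) : ¬ Chaotic (sg 𝕜 p hp) := by
  rintro ⟨-, h⟩
  have h1 : Dense ({0} : Set (EE 𝕜 p)) := h.mono (by
    rintro x ⟨N, hN, hx⟩; exact periodic_zero hp hN hx)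
  have h2 := h1 (bb 𝕜 p 0 0 0)
  rw [closure_singleton, Set.mem_singleton_iff] at h2
  have h3 := congrArg (fun z : EE 𝕜 p => nu 𝕜 (nd 0 0 0) (z 0 : L 𝕜)) h2
  simp only [bb, lp.single_apply_self, dl_coe, nu_d0] at h3
  simp [nd] at h3

theorem sg_bb (hp : p ≠ ∞) (n k ω : ℤ) : sg 𝕜 p hp (bb 𝕜 p n k ω) = bb 𝕜 p (n - 1) (k - 1) ω := by
  refine lp.ext (funext fun i => ?_)
  rw [sg_apply, bb, bb]
  by_cases h : i = n - 1
  · subst h
    rw [lp.single_apply_self, sub_add_cancel, lp.single_apply_self, T_dl]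
  · rw [lp.single_apply_ne _ _ _ h, lp.single_apply_ne _ _ _ (by omega), map_zero]

theorem norm_bb (n k ω : ℤ) : ‖bb 𝕜 p n k ω‖ = ‖d0 𝕜 k ω‖ := by
  rw [bb, lp.norm_single (zero_lt_one.trans_le Fact.out), ← dl_coe]; rfl

abbrev Tg := List (ℕ × ℤ × ℤ × ℤ)

variable (𝕜) in
noncomputable def co (n : ℕ) : 𝕜 := TopologicalSpace.denseSeq 𝕜 n

variable (𝕜 p) in
noncomputable def Vs (u : Tg) (s m : ℤ) : EE 𝕜 p :=
  (u.map fun t => co 𝕜 t.1 • bb 𝕜 p (t.2.1 + s) (t.2.2.1 + s) (t.2.2.2 + m)).sum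

theorem iter_Vs (hp : p ≠ ∞) (N : ℕ) (u : Tg) (s m : ℤ) :
    (sg 𝕜 p hp ^ N) (Vs 𝕜 p u s m) = Vs 𝕜 p u (s - N) m := by
  induction N with
  | zero => simp
  | succ N ih =>
    rw [pow_succ', ContinuousLinearMap.mul_apply, ih, Vs, Vs, map_list_sum, List.map_map]
    refine congrArg _ (List.map_congr_left fun t _ => ?_)
    simp only [Function.comp, map_smul, sg_bb]
    push_cast
    ring_nf

theorem list_bound {F : Type} [NormedAddCommGroup F] [NormedSpace 𝕜 F] (u : Tg)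
    (f : ℕ × ℤ × ℤ × ℤ → F) {B : ℝ} (h : ∀ t ∈ u, ‖f t‖ ≤ B) :
    ‖(u.map fun t => co 𝕜 t.1 • f t).sum‖ ≤ (u.map fun t => ‖co 𝕜 t.1‖).sum * B := by
  induction u with
  | nil => simp
  | cons t u ih =>
    simp only [List.map_cons, List.sum_cons, add_mul]
    refine (norm_add_le _ _).trans (add_le_add ?_ (ih fun s hs => h s (List.mem_cons_of_mem _ hs)))
    rw [norm_smul]
    exact mul_le_mul_of_nonneg_left (h t List.mem_cons_self) (norm_nonneg _)

variable (𝕜) in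
def ok (u : Tg) (l : ℕ) : Prop :=
  (u.map fun t => ‖co 𝕜 t.1‖).sum ≤ l + 1 ∧ ∀ t ∈ u, |t.2.2.1| ≤ l ∧ |t.2.2.2| ≤ l

theorem far {l l' N m : ℕ} (hN : good N l) (hm : m ∈ A l') (hne : m ≠ N) {u : Tg}
    (hu : ok 𝕜 u l') : ‖Vs 𝕜 p u (m - N) m‖ ≤
      2 / 2 ^ l * (1 / (1 + (((m : ℤ) - N).natAbs : ℝ)) ^ 2) := by
  refine (list_bound u (fun t => bb 𝕜 p (t.2.1 + (m - N)) (t.2.2.1 + (m - N)) (t.2.2.2 + m))
    (B := 1 / ((l' + 1) * 2 ^ l * (1 + (((m : ℤ) - N).natAbs : ℝ)) ^ 2) * 2) fun t ht => ?_).trans ?_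
  · rw [norm_bb]
    refine norm_d0_le fun j => ?_
    rw [div_div]
    refine cw_le_of (by positivity) ?_
    have := est1 hN hm hne (hu.2 t ht).1 (hu.2 t ht).2 j
    have h2 : (((l' + 1) * (4 * D j) * 2 ^ l * 2 ^ j * (1 + ((m : ℤ) - N).natAbs) ^ 2 : ℕ) : ℝ) ≤
      ((2 ^ (t.2.2.1 + (m - N) - 6 * D j - (t.2.2.2 + m) % (4 * D j : ℕ)).natAbs : ℕ) : ℝ) :=
      Nat.cast_le.2 this
    simp only [nd, one_mul]
    simp only [Nat.cast_mul, Nat.cast_add, Nat.cast_pow, Nat.cast_ofNat, Nat.cast_one] at h2 ⊢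
    refine le_trans (le_of_eq ?_) h2
    ring
  · refine (mul_le_mul_of_nonneg_right hu.1 (by positivity)).trans (le_of_eq ?_)
    field_simp

theorem near {l N : ℕ} (hN : N ∈ A l) {u : Tg} (hu : ok 𝕜 u l) :
    ‖Vs 𝕜 p u 0 N - Vs 𝕜 p u 0 0‖ ≤ 4 / 2 ^ l := by
  have e : Vs 𝕜 p u 0 N - Vs 𝕜 p u 0 0 = (u.map fun t => co 𝕜 t.1 •
      (bb 𝕜 p (t.2.1 + 0) (t.2.2.1 + 0) (t.2.2.2 + N) -
        bb 𝕜 p (t.2.1 + 0) (t.2.2.1 + 0) (t.2.2.2 + 0))).sum := by
    unfold Vs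
    clear hu
    induction u with
    | nil => simp
    | cons t u ih => simp only [List.map_cons, List.sum_cons]; rw [← ih, smul_sub]; abel
  rw [e]
  refine (list_bound u _ (B := 2 * (1 / ((l + 1) * 2 ^ l)) * 2) fun t ht => ?_).trans ?_
  · rw [bb, bb, ← lp.single_sub, lp.norm_single (zero_lt_one.trans_le Fact.out)]
    change ‖((dl 𝕜 _ _ - dl 𝕜 _ _ : Y 𝕜) : L 𝕜)‖ ≤ _
    rw [Submodule.coe_sub, dl_coe, dl_coe]
    refine norm_d0_sub (by positivity) l (fun j hj => ?_) fun j hj r r0 => ?_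
    · obtain ⟨s, rfl⟩ := A_form hN
      obtain ⟨c, hc⟩ := D_dvd4 hj
      rw [hc, add_zero, mul_left_comm, Nat.cast_mul (4 * D j), Int.add_mul_emod_self_left]
    · rw [div_div]
      refine cw_le_of (by positivity) ?_
      have := est2 hj (hu.2 t ht).1 r0
      have h2 : (((l + 1) * (4 * D j) * 2 ^ l * 2 ^ j : ℕ) : ℝ) ≤
        ((2 ^ (t.2.2.1 - 6 * D j - r).natAbs : ℕ) : ℝ) := Nat.cast_le.2 this
      simp only [one_mul, add_zero]
      simp only [Nat.cast_mul, Nat.cast_add, Nat.cast_pow, Nat.cast_ofNat, Nat.cast_one] at h2 ⊢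
      refine le_trans (le_of_eq ?_) h2
      ring
  · refine (mul_le_mul_of_nonneg_right hu.1 (by positivity)).trans (le_of_eq ?_)
    field_simp; norm_num

theorem dense_Vs (hp : p ≠ ∞) : Dense (Set.range fun u : Tg => Vs 𝕜 p u 0 0) := by
  set R := Set.range fun u : Tg => Vs 𝕜 p u 0 0 with hR
  have hadd : ∀ x ∈ closure R, ∀ y ∈ closure R, x + y ∈ closure R := fun x hx y hy =>
    map_mem_closure₂ continuous_add hx hy (by
      rintro _ ⟨u, rfl⟩ _ ⟨v, rfl⟩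
      exact ⟨u ++ v, by simp [Vs]⟩)
  set M := Submodule.span 𝕜 (Set.range fun q : ℤ × ℤ × ℤ => bb 𝕜 p q.1 q.2.1 q.2.2) with hM
  have h1 : ∀ x ∈ M, ∀ a : 𝕜, a • x ∈ closure R := by
    intro x hx
    induction hx using Submodule.span_induction with
    | mem x hx =>
      obtain ⟨q, rfl⟩ := hx
      intro a
      refine map_mem_closure (f := fun a : 𝕜 => a • bb 𝕜 p q.1 q.2.1 q.2.2) (by fun_prop)
        (TopologicalSpace.denseRange_denseSeq 𝕜 a) ?_
      rintro _ ⟨n, rfl⟩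
      exact ⟨[(n, q)], by simp [Vs, co]⟩
    | zero => exact fun a => subset_closure ⟨[], by simp [Vs]⟩
    | add x y _ _ hx hy => exact fun a => by rw [smul_add]; exact hadd _ (hx a) _ (hy a)
    | smul c x _ hx => exact fun a => by rw [smul_smul]; exact hx _
  have h2 : ∀ (n : ℤ) (y : Y 𝕜), lp.single p n y ∈ M.topologicalClosure := by
    intro n y
    let U : Submodule 𝕜 (Y 𝕜) := M.topologicalClosure.comap
      (lp.singleContinuousLinearMap 𝕜 (fun _ : ℤ => Y 𝕜) p n).toLinearMap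
    have hU : IsClosed (U : Set (Y 𝕜)) := (Submodule.isClosed_topologicalClosure M).preimage
      (lp.singleContinuousLinearMap 𝕜 (fun _ : ℤ => Y 𝕜) p n).continuous
    have hY : IsClosed (Y 𝕜 : Set (L 𝕜)) := Submodule.isClosed_topologicalClosure _
    obtain ⟨z, hz, hzy⟩ := Y_le (U := U.map (Y 𝕜).subtype)
      (hY.isClosedEmbedding_subtypeVal.isClosedMap _ hU)
      (fun k ω => ⟨dl 𝕜 k ω, M.le_topologicalClosure (Submodule.subset_span ⟨(n, k, ω), rfl⟩),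
        dl_coe k ω⟩) y.2
    rw [← Subtype.ext hzy]; exact hz
  intro x
  have h3 : x ∈ M.topologicalClosure :=
    (Submodule.isClosed_topologicalClosure M).mem_of_tendsto (lp.hasSum_single hp x)
      (Eventually.of_forall fun s => Submodule.sum_mem _ fun n _ => h2 n _)
  exact closure_minimal (fun z hz => by simpa using h1 z hz 1) isClosed_closure h3

theorem exists_enum : ∃ u : ℕ → Tg, (∀ l, ok 𝕜 (u l) l) ∧ ∀ v l0, ∃ l ≥ l0, u l = v := by
  classical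
  let w : ℕ → Tg := fun l => (Encodable.decode (Nat.unpair l).1).getD []
  refine ⟨fun l => if ok 𝕜 (w l) l then w l else [], fun l => ?_, fun v l0 => ?_⟩
  · beta_reduce
    split_ifs with h
    · exact h
    · exact ⟨by simp; positivity, by simp⟩
  · obtain ⟨a, ha⟩ := exists_nat_ge (v.map fun t => ‖co 𝕜 t.1‖).sum
    obtain ⟨b, hb⟩ : ∃ b : ℕ, ∀ t ∈ v, |t.2.2.1| ≤ b ∧ |t.2.2.2| ≤ b := by
      refine ⟨(v.map fun t => t.2.2.1.natAbs + t.2.2.2.natAbs).sum, fun t ht => ?_⟩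
      have := List.single_le_sum (l := v.map fun t => t.2.2.1.natAbs + t.2.2.2.natAbs)
        (fun _ _ => Nat.zero_le _) _ (List.mem_map_of_mem ht)
      rw [Int.abs_eq_natAbs, Int.abs_eq_natAbs]
      omega
    have hl := Nat.right_le_pair (Encodable.encode v) (l0 + a + b)
    set l := Nat.pair (Encodable.encode v) (l0 + a + b) with hl'
    have hw : w l = v := by simp [w, hl']
    refine ⟨l, by omega, ?_⟩
    simp only [hw]
    refine if_pos ⟨ha.trans ?_, fun t ht => ⟨(hb t ht).1.trans (by omega), (hb t ht).2.trans (by omega)⟩⟩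
    exact_mod_cast (by omega : a ≤ l + 1)

theorem summable_w : Summable fun z : ℤ => 1 / (1 + (z.natAbs : ℝ)) ^ 2 := by
  have h : Summable fun n : ℕ => 1 / (1 + (n : ℝ)) ^ 2 := by
    have := (summable_nat_add_iff 1).2 (Real.summable_one_div_nat_pow.2 one_lt_two)
    simpa [add_comm] using this
  exact Summable.of_nat_of_neg (by simpa using h) (by simpa using h)

theorem fhc (hp : p ≠ ∞) : FreqHypercyclic (sg 𝕜 p hp) := by
  classical
  obtain ⟨u, hu, hu2⟩ := exists_enum (𝕜 := 𝕜)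
  let X : ℤ → ℕ → EE 𝕜 p := fun N m =>
    if h : ∃ l, m ∈ A l then Vs 𝕜 p (u h.choose) (m - N) m else 0
  set K := ∑' z : ℤ, 1 / (1 + (z.natAbs : ℝ)) ^ 2 with hK
  have hinj : ∀ N : ℕ, Function.Injective fun m : ℕ => (m : ℤ) - N := fun N a b h => by
    simpa using h
  have hw : ∀ N : ℕ, Summable fun m : ℕ => 1 / (1 + (((m : ℤ) - N).natAbs : ℝ)) ^ 2 := fun N =>
    summable_w.comp_injective (hinj N)
  have hwK : ∀ N : ℕ, ∑' m : ℕ, 1 / (1 + (((m : ℤ) - N).natAbs : ℝ)) ^ 2 ≤ K := fun N =>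
    (hw N).tsum_le_tsum_of_inj _ (hinj N) (fun _ _ => by positivity) (fun _ => le_rfl) summable_w
  have hfar : ∀ N l, good N l → ∀ m, m ≠ N →
      ‖X N m‖ ≤ 2 / 2 ^ l * (1 / (1 + (((m : ℤ) - N).natAbs : ℝ)) ^ 2) := by
    intro N l hN m hm
    simp only [X]
    split_ifs with h
    · exact far hN h.choose_spec hm (hu _)
    · rw [norm_zero]; positivity
  have hs : Summable (X (0 : ℕ)) := by
    rw [← summable_nat_add_iff 1]
    exact Summable.of_norm_bounded ((summable_nat_add_iff 1).2 ((hw 0).mul_left (2 / 2 ^ 0)))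
      fun m => hfar 0 0 (Or.inr ⟨rfl, rfl⟩) (m + 1) (by omega)
  have hit : ∀ (N m : ℕ), (sg 𝕜 p hp ^ N) (X (0 : ℕ) m) = X N m := by
    intro N m
    simp only [X]
    split_ifs with h
    · rw [iter_Vs]; simp
    · exact map_zero _
  have hclose : ∀ N l, N ∈ A l →
      ‖(sg 𝕜 p hp)^[N] (∑' m, X (0 : ℕ) m) - Vs 𝕜 p (u l) 0 0‖ ≤ (4 + 2 * K) / 2 ^ l := by
    intro N l hN
    have hs' : Summable (X N) := by
      have := hs.map (sg 𝕜 p hp ^ N) (sg 𝕜 p hp ^ N).continuous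
      exact this.congr fun m => hit N m
    rw [← ContinuousLinearMap.coe_pow', (sg 𝕜 p hp ^ N).map_tsum hs, tsum_congr (hit N),
      hs'.tsum_eq_add_tsum_ite N]
    have e : X N N = Vs 𝕜 p (u l) 0 N := by
      have h : ∃ l, N ∈ A l := ⟨l, hN⟩
      simp only [X, dif_pos h, sub_self, A_uniq h.choose_spec hN]
    have h1 := near (p := p) hN (hu l)
    have h2 : ‖∑' m, if m = N then 0 else X N m‖ ≤
        2 / 2 ^ l * ∑' m : ℕ, 1 / (1 + (((m : ℤ) - N).natAbs : ℝ)) ^ 2 :=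
      tsum_of_norm_bounded ((hw N).hasSum.mul_left _) fun m => by
        split_ifs with h
        · rw [norm_zero]; positivity
        · exact hfar N l (Or.inl hN) m h
    have h3 := mul_le_mul_of_nonneg_left (hwK N) (show (0 : ℝ) ≤ 2 / 2 ^ l by positivity)
    rw [e, add_sub_right_comm]
    refine (norm_add_le _ _).trans ((add_le_add h1 (h2.trans h3)).trans (le_of_eq ?_))
    ring
  refine ⟨∑' m, X (0 : ℕ) m, fun U hU hne => ?_⟩
  obtain ⟨_, ⟨v, rfl⟩, hv⟩ := (dense_Vs hp).exists_mem_open hU hne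
  obtain ⟨ε, hε, hb⟩ := Metric.isOpen_iff.1 hU _ hv
  have ht : Tendsto (fun l : ℕ => (4 + 2 * K) / 2 ^ l) atTop (nhds 0) :=
    tendsto_const_nhds.div_atTop (tendsto_pow_atTop_atTop_of_one_lt one_lt_two)
  obtain ⟨l0, hl0⟩ := eventually_atTop.1 (ht.eventually (gt_mem_nhds hε))
  obtain ⟨l, hl, rfl⟩ := hu2 v l0
  refine dens_A l fun N hN => hb ?_
  rw [Metric.mem_ball, dist_eq_norm]
  exact (hclose N l hN).trans_lt (hl0 l hl)

end Pool.Agent.H66.Fhc
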