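import Mathlib

/-! Definitions for MP_7d5718_an: hypercyclic, Devaney chaotic, frequently hypercyclic. -/

namespace Pool.Agent.H66.Fhc

open Filter

variable {E : Type} [TopologicalSpace E]

/-- some orbit `{T^n x : n ≥ 0}` is dense -/
def Hypercyclic (T : E → E) : Prop := ∃ x, Dense (Set.range fun n : ℕ => T^[n] x)

/-- hypercyclic with dense periodic points -/
def Chaotic (T : E → E) : Prop := Hypercyclic T ∧ Dense {x | ∃ k : ℕ, 1 ≤ k ∧ T^[k] x = x}

open Classical in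
/-- lower density of a set of naturals -/
noncomputable def lowerDensity (A : Set ℕ) : ℝ :=
  liminf (fun N : ℕ => (((Finset.range N).filter (· ∈ A)).card : ℝ) / N) atTop

/-- some orbit visits every nonempty open set with positive lower density -/
def FreqHypercyclic (T : E → E) : Prop :=
  ∃ x, ∀ U : Set E, IsOpen U → U.Nonempty → 0 < lowerDensity {n | T^[n] x ∈ U}

section
variable {𝕜 X : Type} [RCLike 𝕜] [NormedAddCommGroup X] [NormedSpace 𝕜 X]

/-- `sup_n max (‖S n‖, ‖(S n)⁻¹‖) < ∞` -/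
def UnifBdd (S : ℤ → X ≃L[𝕜] X) : Prop :=
  ∃ C : ℝ, ∀ n x, ‖S n x‖ ≤ C * ‖x‖ ∧ ‖(S n).symm x‖ ≤ C * ‖x‖

/-- `σ` is the shift operator on `ℓ_p(ℤ, X)` generated by `S` -/
def IsShift (S : ℤ → X ≃L[𝕜] X) (p : ENNReal)
    (σ : lp (fun _ : ℤ => X) p → lp (fun _ : ℤ => X) p) : Prop :=
  ∀ x n, σ x n = S (n + 1) (x (n + 1))

/-- the shift operator generated by `S` on `ℓ_p(ℤ, X)` is frequently hypercyclic, not chaotic -/
def FhcNotChaotic (S : ℤ → X ≃L[𝕜] X) (p : ENNReal) [Fact (1 ≤ p)] : Prop :=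
  ∃ σ, IsShift S p σ ∧ FreqHypercyclic σ ∧ ¬ Chaotic σ

end

end Pool.Agent.H66.Fhc
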