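import Mathlib

set_option autoImplicit false

namespace Pool.Agent.H66.Fiber

universe u

def toL {α : Type} (w : FreeSemigroup α) : List α := w.head :: w.tail

theorem toL_mul {α : Type} (a b : FreeSemigroup α) : toL (a * b) = toL a ++ toL b := rfl

theorem toL_inj {α : Type} {a b : FreeSemigroup α} (h : toL a = toL b) : a = b := by
  simp only [toL, List.cons.injEq] at h
  exact FreeSemigroup.ext h.1 h.2

theorem exists_toL {α : Type} {l : List α} (h : l ≠ []) : ∃ w, toL w = l := by
  cases l with
  | nil => exact absurd rfl h
  | cons a t => exact ⟨⟨a, t⟩, rfl⟩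

def ext {α : Type} {Q : Type u} [Semigroup Q] (f : FreeSemigroup α →ₙ* Q) (l : List α) :
    WithOne Q := (l.map fun a => ((f (.of a) : Q) : WithOne Q)).prod

section
variable {α : Type} {Q : Type u} [Semigroup Q] (f : FreeSemigroup α →ₙ* Q)

@[simp] theorem ext_nil : ext f [] = 1 := rfl

@[simp] theorem ext_append (a b : List α) : ext f (a ++ b) = ext f a * ext f b := by simp [ext]

theorem ext_toL (w : FreeSemigroup α) : ext f (toL w) = (f w : Q) := by
  induction w using FreeSemigroup.recOnMul with
  | ih1 x => simp [ext, toL]
  | ih2 x y h1 h2 => rw [toL_mul, ext_append, h1, h2, map_mul, WithOne.coe_mul]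

theorem ext_eq_one {l : List α} (h : ext f l = 1) : l = [] := by
  by_contra hl
  obtain ⟨w, rfl⟩ := exists_toL hl
  rw [ext_toL] at h
  exact WithOne.coe_ne_one h

theorem ext_surj (hf : Function.Surjective f) (q : WithOne Q) : ∃ l, ext f l = q := by
  induction q using WithOne.recOneCoe with
  | one => exact ⟨[], rfl⟩
  | coe q =>
    obtain ⟨w, rfl⟩ := hf q
    exact ⟨_, ext_toL f w⟩

theorem mul_ne {a : WithOne Q} (h : a ≠ 1) (b : WithOne Q) : a * b ≠ 1 := by
  induction a using WithOne.recOneCoe with
  | one => exact absurd rfl h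
  | coe a =>
    induction b using WithOne.recOneCoe with
    | one => simp
    | coe b => rw [← WithOne.coe_mul]; exact WithOne.coe_ne_one
end

def cat {X α : Type} (s : X → List α) (P : List X) : List α := (P.map s).flatten

section
variable {X α : Type} (s : X → List α)

@[simp] theorem cat_nil : cat s [] = [] := rfl
@[simp] theorem cat_cons (x : X) (P : List X) : cat s (x :: P) = s x ++ cat s P := rfl
@[simp] theorem cat_append (P R : List X) : cat s (P ++ R) = cat s P ++ cat s R := by simp [cat]

theorem len_cat {N : ℕ} (h : ∀ x, 1 ≤ (s x).length ∧ (s x).length ≤ N) (P : List X) :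
    P.length ≤ (cat s P).length ∧ (cat s P).length ≤ N * P.length := by
  induction P with
  | nil => simp
  | cons x P ih =>
    have := h x
    simp only [cat_cons, List.length_append, List.length_cons, mul_add]
    omega
end

theorem split_le {α : Type} {a b c d : List α} (h : a ++ b = c ++ d) (hl : a.length ≤ c.length) :
    ∃ r, c = a ++ r ∧ b = r ++ d := by
  rcases List.append_eq_append_iff.1 h with h | ⟨r, h1, h2⟩
  · exact h
  · have : r = [] := by
      rw [h1, List.length_append] at hl
      exact List.eq_nil_of_length_eq_zero (by omega)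
    subst this
    exact ⟨[], by simpa using h1.symm, by simpa using h2.symm⟩

theorem split_len {α : Type} (P : List α) (n : ℕ) (h : n ≤ P.length) :
    ∃ a b, P = a ++ b ∧ a.length = n :=
  ⟨P.take n, P.drop n, (List.take_append_drop n P).symm, by simp [h]⟩

theorem core {A B X : Type} {Q : Type u} [Semigroup Q] (f : FreeSemigroup A →ₙ* Q)
    (g : FreeSemigroup B →ₙ* Q) (hf : Function.Surjective f) (hg : Function.Surjective g)
    (s : X → List A) (t : X → List B) (N : ℕ)
    (hs : ∀ x, 1 ≤ (s x).length ∧ (s x).length ≤ N) (ht : ∀ x, 1 ≤ (t x).length ∧ (t x).length ≤ N)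
    (hst : ∀ x, ext f (s x) = ext g (t x))
    (fac : ∀ a b, ext f a = ext g b → ∃ R, cat s R = a ∧ cat t R = b)
    {M : Type} [Monoid M] (p : List X → M) (hp : ∀ P R, p (P ++ R) = p P * p R)
    (base : ∀ P R, cat s P = cat s R → cat t P = cat t R →
      (cat s P).length ≤ N * (N + 1 + N * (N * (N + 1))) → p P = p R) :
    ∀ n P R, (cat s P).length = n → cat s P = cat s R → cat t P = cat t R → p P = p R := by
  have hc : ∀ P, ext f (cat s P) = ext g (cat t P) := by
    intro P
    induction P with
    | nil => rfl
    | cons x P ih => simp [hst, ih]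
  have noabs : ∀ q r : WithOne Q, q * r = q → r = 1 := by
    intro q r h
    obtain ⟨a, ha⟩ := ext_surj f hf q
    obtain ⟨b, hb⟩ := ext_surj g hg q
    obtain ⟨w, rfl⟩ := ext_surj g hg r
    by_contra hw
    have hw' : 1 ≤ w.length := by
      cases w with
      | nil => exact absurd rfl hw
      | cons => simp
    have : ∀ n : ℕ, ∃ b : List B, n ≤ b.length ∧ ext g b = q := by
      intro n
      induction n with
      | zero => exact ⟨b, by simp, hb⟩
      | succ n ih =>
        obtain ⟨c, c1, c2⟩ := ih
        exact ⟨c ++ w, by simp; omega, by rw [ext_append, c2, h]⟩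
    obtain ⟨c, c1, c2⟩ := this (N * a.length + 1)
    obtain ⟨R, rfl, rfl⟩ := fac a c (ha.trans c2.symm)
    have h1 := (len_cat s hs R).1
    have h2 := (len_cat t ht R).2
    have := Nat.mul_le_mul_left N h1
    omega
  choose hat hhat using fun b : B => ext_surj f hf (ext g [b])
  have hH : ∀ y, ext f (cat hat y) = ext g y := by
    intro y
    induction y with
    | nil => rfl
    | cons b y ih => rw [cat_cons, ext_append, hhat, ih, ← ext_append]; rfl
  intro n
  induction n using Nat.strong_induction_on with
  | _ n ih =>
  intro P R hn h1 h2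
  by_cases hb : (cat s P).length ≤ N * (N + 1 + N * (N * (N + 1)))
  · exact base P R h1 h2 hb
  have hl : N + 1 + N * (N * (N + 1)) < P.length := by
    by_contra hc
    exact hb ((len_cat s hs P).2.trans (Nat.mul_le_mul_left N (not_lt.1 hc)))
  obtain ⟨P1, P', rfl, l1⟩ := split_len P (N + 1) (by omega)
  rw [List.length_append] at hl
  obtain ⟨P2, P3, rfl, l2⟩ := split_len P' (N * (N * (N + 1))) (by omega)
  rw [List.length_append] at hl
  have s1 := len_cat s hs P1
  have t1 := len_cat t ht P1
  have t2 := len_cat t ht P2
  have s3 := len_cat s hs P3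
  rw [l1] at s1 t1
  rw [l2] at t2
  cases R with
  | nil =>
    have := congrArg List.length h1
    simp only [cat_append, List.length_append, cat_nil, List.length_nil] at this
    omega
  | cons x R =>
  have sx := hs x
  have tx := ht x
  rw [cat_cons, cat_append] at h1 h2
  obtain ⟨a, a1, a2⟩ := split_le h1.symm (by omega)
  obtain ⟨b, b1, b2⟩ := split_le h2.symm (by omega)
  have hE : ext f (s x) * ext f a = ext f (s x) * ext g b := by
    rw [← ext_append, ← a1, hc, b1, ext_append, hst]
  obtain ⟨T, T1, T2⟩ := fac (a ++ cat hat (cat t (P2 ++ P3))) (b ++ cat t (P2 ++ P3)) (by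
    rw [ext_append, hH, ← hc, ← ext_append, ← a2, hc, b2])
  have la : a.length ≤ N * (N + 1) := by
    have := congrArg List.length a1
    rw [List.length_append] at this
    omega
  have lb : b.length ≤ N * (N + 1) := by
    have := congrArg List.length b1
    rw [List.length_append] at this
    omega
  have lT : N * (N + 1) ≤ T.length := by
    have h3 := (len_cat t ht T).2
    rw [T2, cat_append, List.length_append, List.length_append] at h3
    exact Nat.le_of_mul_le_mul_left (c := N) (by omega) (by omega)
  obtain ⟨T', T'', rfl, l3⟩ := split_len T _ lT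
  have s4 := len_cat s hs T'
  have t4 := len_cat t ht T'
  rw [l3] at s4 t4
  rw [cat_append] at T1 T2
  obtain ⟨c, c1, c2⟩ := split_le T1.symm (by omega)
  obtain ⟨y, y1, y2⟩ := split_le T2.symm (by omega)
  have ly : y.length ≤ (cat t P2).length := by
    have := congrArg List.length y1
    rw [List.length_append] at this
    omega
  have k1 : ext f a * ext f c = ext g b * ext g y := by
    rw [← ext_append, ← ext_append, ← c1, ← y1, hc]
  have k2 : ext f a * ext g y = ext g b * ext g y := by
    rw [y2, cat_append] at c2
    rcases List.append_eq_append_iff.1 c2 with ⟨r, r1, -⟩ | ⟨r, r1, -⟩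
    · rw [r1, ext_append, hH] at k1
      have : ext f r = 1 := noabs (ext f (s x) * ext f a * ext g y) _ (by
        rw [mul_assoc, mul_assoc, k1, hE, mul_assoc])
      rw [← k1, this, mul_one]
    · have h3 := hH y
      rw [r1, ext_append] at h3
      have : ext f r = 1 := noabs (ext f (s x) * ext f a * ext f c) _ (by
        rw [mul_assoc, h3, hE, mul_assoc, ← k1, ← mul_assoc, hE])
      rw [← k1, ← h3, this, mul_one]
  rw [cat_append] at y2
  obtain ⟨z, z1, -⟩ := split_le y2.symm ly
  obtain ⟨m, m1, m2⟩ := fac (a ++ cat s P2) (b ++ cat t P2) (by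
    rw [ext_append, ext_append, hc, z1, ext_append, ← mul_assoc, k2, mul_assoc])
  have e1 : p (P1 ++ P2) = p (x :: m) := ih _ (by
      rw [← hn]; simp only [cat_append, List.length_append]; omega) _ _ rfl
    (by rw [cat_append, cat_cons, a1, m1, List.append_assoc])
    (by rw [cat_append, cat_cons, b1, m2, List.append_assoc])
  have e2 : p (m ++ P3) = p R := ih _ (by
      rw [← hn, cat_append, cat_append, a1, m1]
      simp only [cat_append, List.length_append]; omega) _ _ rfl
    (by rw [cat_append, m1, a2, cat_append, List.append_assoc])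
    (by rw [cat_append, m2, b2, cat_append, List.append_assoc])
  rw [← List.append_assoc, hp, e1, ← hp, List.cons_append, ← List.singleton_append, hp, e2, ← hp]
  rfl

end Pool.Agent.H66.Fiber
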