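import Mathlib

set_option autoImplicit false

namespace Pool.Agent.H66.Fiber

universe u

/-- The fiber product of two free semigroups over `f`, `g`. -/
def fiber {A B : Type} {Q : Type u} [Semigroup Q] (f : FreeSemigroup A →ₙ* Q)
    (g : FreeSemigroup B →ₙ* Q) : Subsemigroup (FreeSemigroup A × FreeSemigroup B) where
  carrier := {p | f p.1 = g p.2}
  mul_mem' := fun {a b} (ha : f a.1 = g a.2) (hb : f b.1 = g b.2) => by
    show f (a.1 * b.1) = g (a.2 * b.2)
    rw [map_mul, map_mul, ha, hb]

/-- finitely generated semigroup -/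
def FG (S : Type) [Semigroup S] : Prop :=
  ∃ X : Set S, X.Finite ∧ Subsemigroup.closure X = ⊤

/-- finitely presented semigroup -/
def FP (S : Type) [Semigroup S] : Prop :=
  ∃ (X : Type) (_ : Finite X) (R : Set (FreeSemigroup X × FreeSemigroup X)), R.Finite ∧
    Nonempty ((conGen fun a b => (a, b) ∈ R).Quotient ≃* S)

end Pool.Agent.H66.Fiber
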