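import Mathlib
import Pool.Agent.H66.Fiber
import Pool.Agent.H66.FiberDefs

set_option autoImplicit false

namespace Pool.Agent.H66.Fiber

universe u

theorem main {A B : Type} {Q : Type u} [Semigroup Q] (f : FreeSemigroup A →ₙ* Q)
    (g : FreeSemigroup B →ₙ* Q) (hf : Function.Surjective f) (hg : Function.Surjective g)
    (h : FG (fiber f g)) : FP (fiber f g) := by
  obtain ⟨X, hX, hc⟩ := h
  have := hX.to_subtype
  let φ : FreeSemigroup X →ₙ* fiber f g := FreeSemigroup.lift Subtype.val
  have hφ : Function.Surjective φ := by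
    intro a
    have ha : a ∈ Subsemigroup.closure X := hc ▸ trivial
    induction ha using Subsemigroup.closure_induction with
    | mem x hx => exact ⟨.of ⟨x, hx⟩, by simp [φ]⟩
    | mul x y _ _ h1 h2 =>
      obtain ⟨a, rfl⟩ := h1
      obtain ⟨b, rfl⟩ := h2
      exact ⟨a * b, map_mul _ _ _⟩
  let s : X → List A := fun x => toL x.1.1.1
  let t : X → List B := fun x => toL x.1.1.2
  have hφ' : ∀ w, cat s (toL w) = toL (φ w).1.1 ∧ cat t (toL w) = toL (φ w).1.2 := by
    intro w
    induction w using FreeSemigroup.recOnMul with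
    | ih1 x => simp [toL, φ, s, t]
    | ih2 x y h1 h2 =>
      rw [toL_mul, cat_append, cat_append, h1.1, h1.2, h2.1, h2.2, map_mul]
      exact ⟨rfl, rfl⟩
  obtain ⟨N, hN⟩ := (Set.finite_range fun x => max (s x).length (t x).length).bddAbove
  have hs : ∀ x, 1 ≤ (s x).length ∧ (s x).length ≤ N := fun x =>
    ⟨by simp [s, toL], (le_max_left _ _).trans (hN ⟨x, rfl⟩)⟩
  have ht : ∀ x, 1 ≤ (t x).length ∧ (t x).length ≤ N := fun x =>
    ⟨by simp [t, toL], (le_max_right _ _).trans (hN ⟨x, rfl⟩)⟩
  let K := N * (N + 1 + N * (N * (N + 1)))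
  let R : Set (FreeSemigroup X × FreeSemigroup X) :=
    {p | φ p.1 = φ p.2 ∧ (toL p.1).length ≤ K ∧ (toL p.2).length ≤ K}
  have hW : {w : FreeSemigroup X | (toL w).length ≤ K}.Finite :=
    (List.finite_length_le X K).preimage fun _ _ _ _ => toL_inj
  let c := conGen fun a b => (a, b) ∈ R
  have key := core f g hf hg s t N hs ht
    (fun x => by rw [ext_toL, ext_toL]; exact congrArg _ x.1.2)
    (fun a b hab => by
      by_cases ha : a = []
      · subst ha
        exact ⟨[], rfl, (ext_eq_one g hab.symm).symm⟩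
      · obtain ⟨a, rfl⟩ := exists_toL ha
        have hb : b ≠ [] := by
          rintro rfl
          exact ha (ext_eq_one f hab)
        obtain ⟨b, rfl⟩ := exists_toL hb
        rw [ext_toL, ext_toL, WithOne.coe_inj] at hab
        obtain ⟨w, hw⟩ := hφ ⟨(a, b), hab⟩
        exact ⟨toL w, by rw [(hφ' w).1, hw], by rw [(hφ' w).2, hw]⟩)
    (ext c.mkMulHom) (ext_append _)
    (fun P T h1 h2 h3 => by
      have l1 := (len_cat s hs P).1
      have l2 := (len_cat s hs T).1
      by_cases hP : P = []
      · subst hP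
        rw [← h1] at l2
        rw [List.eq_nil_of_length_eq_zero (Nat.le_zero.1 l2)]
      · obtain ⟨P, rfl⟩ := exists_toL hP
        have hT : T ≠ [] := by
          rintro rfl
          rw [h1] at l1
          exact hP (List.eq_nil_of_length_eq_zero (Nat.le_zero.1 l1))
        obtain ⟨T, rfl⟩ := exists_toL hT
        rw [ext_toL, ext_toL, WithOne.coe_inj]
        refine c.eq.2 (ConGen.Rel.of _ _ ⟨?_, l1.trans h3, l2.trans (h1 ▸ h3)⟩)
        rw [(hφ' _).1, (hφ' _).1] at h1
        rw [(hφ' _).2, (hφ' _).2] at h2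
        exact Subtype.ext (Prod.ext (toL_inj h1) (toL_inj h2)))
  have hle : c ≤ Con.ker φ := Con.conGen_le.2 fun a b hab => hab.1
  let ψ : c.Quotient →ₙ* fiber f g :=
    { toFun := fun q => Con.liftOn q φ fun a b hab => hle hab
      map_mul' := fun a b => Con.induction_on₂ a b fun a b => map_mul φ a b }
  refine ⟨X, inferInstance, R, (hW.prod hW).subset fun p hp => hp.2,
    Nonempty.intro (MulEquiv.ofBijective ψ ?_)⟩
  constructor
  · intro a b
    refine Con.induction_on₂ (C := fun a b => ψ a = ψ b → a = b) a b fun a b hab => ?_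
    have h0 : φ a = φ b := hab
    have := key _ (toL a) (toL b) rfl (by rw [(hφ' _).1, (hφ' _).1, h0])
      (by rw [(hφ' _).2, (hφ' _).2, h0])
    rw [ext_toL, ext_toL, WithOne.coe_inj] at this
    exact this
  · intro y
    obtain ⟨w, rfl⟩ := hφ y
    exact ⟨w, rfl⟩

end Pool.Agent.H66.Fiber
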