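import Mathlib

/-! Counting for a class of structures whose typical member carries a maximum matching. -/

set_option autoImplicit false

namespace Pool.Agent.H66.Forb

variable {α X Y : Type} (x0 : X) (y0 : Y)

/-- the constraints -/
def Cons (d : (α → α → X) × (α → α → Y)) : Prop :=
  (∀ a, d.1 a a = x0) ∧ (∀ a, d.2 a a = y0) ∧
    (∀ a b c, d.2 a b ≠ y0 → d.2 a c ≠ y0 → d.1 b c = x0) ∧
    (∀ a b c, d.2 a b ≠ y0 → d.2 b c ≠ y0 → d.1 a c = x0)

/-- the property tested by the sentence -/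
def Good (d : (α → α → X) × (α → α → Y)) : Prop :=
  (∀ a b, a = b ∨ d.1 a b ≠ x0) ∧ ∀ a, ∃ b, d.2 a b ≠ y0

theorem even_of_good [Fintype α] (d : (α → α → X) × (α → α → Y)) (h : Cons x0 y0 d)
    (g : Good x0 y0 d) : Even (Fintype.card α) := by
  classical
  choose f hf using g.2
  have h1 : ∀ a, f a ≠ a := fun a ha => hf a (by rw [ha]; exact h.2.1 a)
  have h2 : ∀ a, f (f a) = a := fun a =>
    ((g.1 a _).resolve_right (not_not.2 (h.2.2.2 a _ _ (hf a) (hf _)))).symm
  have h3 : ∑ _a : α, (1 : ZMod 2) = 0 :=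
    Finset.sum_involution (fun a _ => f a) (fun _ _ => by decide) (fun a _ _ => h1 a)
      (fun _ _ => Finset.mem_univ _) (fun a _ => h2 a)
  rw [Finset.sum_const, Finset.card_univ, nsmul_eq_mul, mul_one] at h3
  exact (ZMod.natCast_eq_zero_iff_even).1 h3

theorem pow_le_two (W m : ℕ) (h : 2 * m ≤ W) : W ^ m ≤ 2 * (W - 1) ^ m := by
  rcases Nat.eq_zero_or_pos m with rfl | hm
  · simp
  have hW : (0 : ℝ) < W := by exact_mod_cast (by omega : 0 < W)
  have h1 := one_add_mul_le_pow (a := -(1 / W : ℝ)) (by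
    have : (1 / W : ℝ) ≤ 1 := by
      rw [div_le_one hW]; exact_mod_cast (by omega : 1 ≤ W)
    linarith) m
  have h2 : (m : ℝ) * (1 / W) ≤ 1 / 2 := by
    rw [mul_one_div, div_le_iff₀ hW]
    have : (2 * m : ℝ) ≤ W := by exact_mod_cast h
    linarith
  have h3 : ((W - 1 : ℕ) : ℝ) = W * (1 + -(1 / W)) := by
    rw [Nat.cast_sub (by omega)]; field_simp; push_cast; ring
  have : (W : ℝ) ^ m ≤ 2 * ((W - 1 : ℕ) : ℝ) ^ m := by
    rw [h3, mul_pow]
    have : (0 : ℝ) < (W : ℝ) ^ m := by positivity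
    nlinarith
  exact_mod_cast this

variable [Fintype α] [Fintype X] [Fintype Y]

/-- off-diagonal pairs -/
abbrev I (α : Type) := {p : α × α // p.1 ≠ p.2}

theorem good_ge (σ : α → α) (h1 : ∀ a, σ a ≠ a) (h2 : ∀ a, σ (σ a) = a) :
    (Fintype.card X - 1) ^ Nat.card (I α) * (Fintype.card Y - 1) ^ Fintype.card α ≤
      Nat.card {d : (α → α → X) × (α → α → Y) // Cons x0 y0 d ∧ Good x0 y0 d} := by
  classical
  have hc : Nat.card ((I α → {x : X // x ≠ x0}) × (α → {y : Y // y ≠ y0})) =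
      (Fintype.card X - 1) ^ Nat.card (I α) * (Fintype.card Y - 1) ^ Fintype.card α := by
    simp [Nat.card_eq_fintype_card, Fintype.card_subtype_compl]
  rw [← hc]
  refine Nat.card_le_card_of_injective (fun p => ⟨(fun a b => if h : a ≠ b then p.1 ⟨(a, b), h⟩
    else x0, fun a b => if b = σ a then p.2 a else y0), ⟨?_, ?_, ?_, ?_⟩, ?_, ?_⟩) ?_
  · simp
  · intro a; simp [(h1 a).symm]
  · intro a b c hb hc
    have hb' : b = σ a := by by_contra h; simp [h] at hb
    have hc' : c = σ a := by by_contra h; simp [h] at hc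
    simp [hb', hc']
  · intro a b c hb hc
    have hb' : b = σ a := by by_contra h; simp [h] at hb
    have hc' : c = σ b := by by_contra h; simp [h] at hc
    simp [hb', hc', h2]
  · intro a b
    by_cases h : a = b
    · exact Or.inl h
    · right; simpa [h] using (p.1 ⟨(a, b), h⟩).2
  · intro a
    exact ⟨σ a, by simpa using (p.2 a).2⟩
  · intro p q h
    simp only [Subtype.mk.injEq, Prod.mk.injEq] at h
    ext i
    · have := congrFun (congrFun h.1 i.1.1) i.1.2
      simpa [i.2] using this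
    · have := congrFun (congrFun h.2 i) (σ i)
      simpa using this

theorem bad1_le :
    Nat.card {d : (α → α → X) × (α → α → Y) // Cons x0 y0 d ∧ ¬ ∀ a b, a = b ∨ d.1 a b ≠ x0} *
      Fintype.card X ≤ Nat.card (I α) * Fintype.card X ^ Nat.card (I α) *
        Fintype.card Y ^ (Fintype.card α * Fintype.card α) := by
  classical
  have hc : Nat.card (I α × (I α → X) × (α → α → Y)) = Nat.card (I α) *
      Fintype.card X ^ Nat.card (I α) * Fintype.card Y ^ (Fintype.card α * Fintype.card α) := by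
    simp only [Nat.card_eq_fintype_card, Fintype.card_prod, Fintype.card_fun, pow_mul, mul_assoc]
  rw [← hc, ← Nat.card_eq_fintype_card (α := X), ← Nat.card_prod]
  have : ∀ d : {d : (α → α → X) × (α → α → Y) // Cons x0 y0 d ∧ ¬ ∀ a b, a = b ∨ d.1 a b ≠ x0},
      ∃ p : I α, d.1.1 p.1.1 p.1.2 = x0 := by
    rintro ⟨d, h, h'⟩
    push Not at h'
    obtain ⟨a, b, h1, h2⟩ := h'
    exact ⟨⟨(a, b), h1⟩, h2⟩
  choose p hp using this
  refine Nat.card_le_card_of_injective (fun q => (p q.1,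
    Function.update (fun i : I α => q.1.1.1 i.1.1 i.1.2) (p q.1) q.2, q.1.1.2)) ?_
  rintro ⟨d, x⟩ ⟨e, y⟩ h
  simp only [Prod.mk.injEq] at h
  obtain ⟨h1, h2, h3⟩ := h
  have hd := hp d
  have he := hp e
  rw [← h1] at h2 he
  have h4 := congrFun h2 (p d)
  simp only [Function.update_self] at h4
  refine Prod.ext (Subtype.ext (Prod.ext ?_ h3)) h4
  funext a b
  by_cases hab : a = b
  · rw [hab, d.2.1.1, e.2.1.1]
  by_cases hi : (⟨(a, b), hab⟩ : I α) = p d
  · rw [← hi] at hd he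
    exact hd.trans he.symm
  · have := congrFun h2 ⟨(a, b), hab⟩
    simpa [Function.update_of_ne hi] using this

theorem bad2_le :
    Nat.card {d : (α → α → X) × (α → α → Y) // Cons x0 y0 d ∧ (∀ a b, a = b ∨ d.1 a b ≠ x0) ∧
      ¬ ∀ a, ∃ b, d.2 a b ≠ y0} * Fintype.card Y ≤ Fintype.card X ^ Nat.card (I α) *
        (Fintype.card α * (Fintype.card α * Fintype.card Y) ^ Fintype.card α) := by
  classical
  have hc : Nat.card ((I α → X) × α × (α → α × Y)) = Fintype.card X ^ Nat.card (I α) *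
        (Fintype.card α * (Fintype.card α * Fintype.card Y) ^ Fintype.card α) := by
    simp only [Nat.card_eq_fintype_card, Fintype.card_prod, Fintype.card_fun]
  rw [← hc, ← Nat.card_eq_fintype_card (α := Y), ← Nat.card_prod]
  have : ∀ d : {d : (α → α → X) × (α → α → Y) // Cons x0 y0 d ∧ (∀ a b, a = b ∨ d.1 a b ≠ x0) ∧
      ¬ ∀ a, ∃ b, d.2 a b ≠ y0}, ∃ a, ∀ b, d.1.2 a b = y0 := by
    rintro ⟨d, h, h1, h'⟩
    push Not at h'
    exact h'
  choose p hp using this
  have : ∀ d : {d : (α → α → X) × (α → α → Y) // Cons x0 y0 d ∧ (∀ a b, a = b ∨ d.1 a b ≠ x0) ∧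
      ¬ ∀ a, ∃ b, d.2 a b ≠ y0}, ∀ a, ∃ b, ∀ c, c ≠ b → d.1.2 a c = y0 := by
    rintro ⟨d, h, h1, h'⟩ a
    by_cases hb : ∃ b, d.2 a b ≠ y0
    · obtain ⟨b, hb⟩ := hb
      refine ⟨b, fun c hc => ?_⟩
      by_contra hc'
      exact (h1 c b).resolve_left hc (h.2.2.1 a c b hc' hb)
    · push Not at hb
      exact ⟨a, fun c _ => hb c⟩
  choose f hf using this
  refine Nat.card_le_card_of_injective (fun q => (fun i : I α => q.1.1.1 i.1.1 i.1.2, p q.1,
    Function.update (fun a => (f q.1 a, q.1.1.2 a (f q.1 a))) (p q.1) (p q.1, q.2))) ?_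
  rintro ⟨d, x⟩ ⟨e, y⟩ h
  simp only [Prod.mk.injEq] at h
  obtain ⟨h1, h2, h3⟩ := h
  have hd := hp d
  have he := hp e
  rw [← h2] at h3 he
  have h4 := congrFun h3 (p d)
  simp only [Function.update_self, Prod.mk.injEq, true_and] at h4
  refine Prod.ext (Subtype.ext (Prod.ext ?_ ?_)) h4
  · funext a b
    by_cases hab : a = b
    · rw [hab, d.2.1.1, e.2.1.1]
    · exact congrFun h1 ⟨(a, b), hab⟩
  · funext a b
    by_cases ha : a = p d
    · rw [ha, hd, he]
    have := congrFun h3 a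
    simp only [Function.update_of_ne ha, Prod.mk.injEq] at this
    by_cases hb : b = f d a
    · rw [hb, this.2, this.1]
    · rw [hf d a b hb, hf e a b (this.1 ▸ hb)]

theorem count (σ : α → α) (h1 : ∀ a, σ a ≠ a) (h2 : ∀ a, σ (σ a) = a)
    (hX : 2 * (Fintype.card α * Fintype.card α) ≤ Fintype.card X)
    (hY : 2 * Fintype.card α ≤ Fintype.card Y)
    (hX' : (Fintype.card α * Fintype.card α) *
      Fintype.card Y ^ (Fintype.card α * Fintype.card α) ≤ Fintype.card X)
    (hY' : Fintype.card α * Fintype.card α ^ Fintype.card α ≤ Fintype.card Y) :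
    Nat.card {d : (α → α → X) × (α → α → Y) // Cons x0 y0 d} ≤
      9 * Nat.card {d : (α → α → X) × (α → α → Y) // Cons x0 y0 d ∧ Good x0 y0 d} := by
  classical
  have hI : Nat.card (I α) ≤ Fintype.card α * Fintype.card α := by
    rw [← Fintype.card_prod, Nat.card_eq_fintype_card]
    exact Fintype.card_subtype_le _
  have g := good_ge x0 y0 σ h1 h2
  have b1 := bad1_le (α := α) x0 y0
  have b2 := bad2_le (α := α) x0 y0
  have hXp : 0 < Fintype.card X := Fintype.card_pos_iff.2 ⟨x0⟩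
  have hYp : 0 < Fintype.card Y := Fintype.card_pos_iff.2 ⟨y0⟩
  have t1 := pow_le_two (Fintype.card X) (Nat.card (I α)) (by omega)
  have t2 := pow_le_two (Fintype.card Y) (Fintype.card α) hY
  have hs : Nat.card {d : (α → α → X) × (α → α → Y) // Cons x0 y0 d} ≤
      Nat.card {d : (α → α → X) × (α → α → Y) // Cons x0 y0 d ∧ Good x0 y0 d} +
      (Nat.card {d : (α → α → X) × (α → α → Y) // Cons x0 y0 d ∧ ¬ ∀ a b, a = b ∨ d.1 a b ≠ x0} +
      Nat.card {d : (α → α → X) × (α → α → Y) // Cons x0 y0 d ∧ (∀ a b, a = b ∨ d.1 a b ≠ x0) ∧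
        ¬ ∀ a, ∃ b, d.2 a b ≠ y0}) := by
    simp only [Nat.card_eq_fintype_card, Fintype.card_subtype]
    refine le_trans (Finset.card_le_card ?_) ((Finset.card_union_le _ _).trans
      (Nat.add_le_add_left (Finset.card_union_le _ _) _))
    intro d
    simp only [Finset.mem_filter, Finset.mem_univ, true_and, Finset.mem_union, Good]
    generalize (∀ (a b : α), a = b ∨ d.1 a b ≠ x0) = A
    generalize (∀ (a : α), ∃ b, d.2 a b ≠ y0) = B
    tauto
  generalize Nat.card {d : (α → α → X) × (α → α → Y) // Cons x0 y0 d} = T at *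
  generalize Nat.card {d : (α → α → X) × (α → α → Y) // Cons x0 y0 d ∧ Good x0 y0 d} = G at *
  generalize Nat.card {d : (α → α → X) × (α → α → Y) // Cons x0 y0 d ∧
    ¬ ∀ a b, a = b ∨ d.1 a b ≠ x0} = B1 at *
  generalize Nat.card {d : (α → α → X) × (α → α → Y) // Cons x0 y0 d ∧
    (∀ a b, a = b ∨ d.1 a b ≠ x0) ∧ ¬ ∀ a, ∃ b, d.2 a b ≠ y0} = B2 at *
  generalize Nat.card (I α) = m at *
  generalize Fintype.card α = n at *
  generalize Fintype.card X = W at *
  generalize Fintype.card Y = V at *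
  have c1 : B1 ≤ W ^ m * V ^ n := by
    have : B1 * W ≤ W ^ m * W := by
      calc B1 * W ≤ m * W ^ m * V ^ (n * n) := b1
        _ = W ^ m * (m * V ^ (n * n)) := by ring
        _ ≤ W ^ m * (n * n * V ^ (n * n)) := by gcongr
        _ ≤ W ^ m * W := by gcongr
    exact (Nat.le_of_mul_le_mul_right this hXp).trans (Nat.le_mul_of_pos_right _ (by positivity))
  have c2 : B2 ≤ W ^ m * V ^ n := by
    have : B2 * V ≤ W ^ m * V ^ n * V := by
      calc B2 * V ≤ W ^ m * (n * (n * V) ^ n) := b2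
        _ = W ^ m * V ^ n * (n * n ^ n) := by rw [mul_pow]; ring
        _ ≤ W ^ m * V ^ n * V := by gcongr
    exact Nat.le_of_mul_le_mul_right this hYp
  have c3 : W ^ m * V ^ n ≤ 4 * G := by
    calc W ^ m * V ^ n ≤ (2 * (W - 1) ^ m) * (2 * (V - 1) ^ n) := Nat.mul_le_mul t1 t2
      _ = 4 * ((W - 1) ^ m * (V - 1) ^ n) := by ring
      _ ≤ 4 * G := by gcongr
  omega

end Pool.Agent.H66.Forb
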