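import Pool.Agent.H66.Forb1

set_option autoImplicit false

namespace Pool.Agent.H66.Forb
open FirstOrder FirstOrder.Language

/-- relation symbols -/
inductive Rel : ℕ → Type
  | N : Rel 7
  | M : Rel 4

/-- the language -/
def LL : FirstOrder.Language.{0, 0} := ⟨fun _ => Empty, Rel⟩

theorem fin_rel : Finite (Σ l, LL.Relations l) :=
  Finite.of_surjective (fun b : Bool => if b then (⟨7, Rel.N⟩ : Σ l, Rel l) else ⟨4, Rel.M⟩) (by
    rintro ⟨_, _ | _⟩
    · exact ⟨true, rfl⟩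
    · exact ⟨false, rfl⟩)

variable {α : Type}

/-- structure from two predicates -/
@[reducible] def mkS (PN : (Fin 7 → α) → Prop) (PM : (Fin 4 → α) → Prop) : LL.Structure α where
  funMap f := f.elim
  RelMap {n} r := match n, r with
    | _, .N => PN
    | _, .M => PM

/-- data of a structure -/
def dat (S : LL.Structure α) : (α → α → Set (Fin 5 → α)) × (α → α → Set (Fin 2 → α)) :=
  (fun a b => {w | S.RelMap (n := 7) Rel.N (Matrix.vecCons a (Matrix.vecCons b w))},
    fun a b => {w | S.RelMap (n := 4) Rel.M (Matrix.vecCons a (Matrix.vecCons b w))})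

theorem vec_eta {k : ℕ} (v : Fin (k + 2) → α) :
    Matrix.vecCons (v 0) (Matrix.vecCons (v 1) (Matrix.vecTail (Matrix.vecTail v))) = v := by
  funext i
  refine Fin.cases rfl (fun j => Fin.cases rfl (fun _ => rfl) j) i

theorem dat_bij : Function.Bijective (dat (α := α)) := by
  constructor
  · intro S T h
    have h1 := congrArg Prod.fst h
    have h2 := congrArg Prod.snd h
    ext n r v
    · exact r.elim
    · cases r
      · have := Set.ext_iff.1 (congrFun (congrFun h1 (v 0)) (v 1)) (Matrix.vecTail (Matrix.vecTail v))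
        simpa only [dat, Set.mem_ofPred_eq, vec_eta] using this
      · have := Set.ext_iff.1 (congrFun (congrFun h2 (v 0)) (v 1)) (Matrix.vecTail (Matrix.vecTail v))
        simpa only [dat, Set.mem_ofPred_eq, vec_eta] using this
  · intro d
    exact ⟨mkS (fun v => Matrix.vecTail (Matrix.vecTail v) ∈ d.1 (v 0) (v 1))
      (fun v => Matrix.vecTail (Matrix.vecTail v) ∈ d.2 (v 0) (v 1)), rfl⟩

theorem hom_iff {β : Type} (PN : (Fin 7 → β) → Prop) (PM : (Fin 4 → β) → Prop)
    (S : LL.Structure α) : IsEmpty (@FirstOrder.Language.Hom LL β α (mkS PN PM) S) ↔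
      ∀ h : β → α, (∀ v, PN v → S.RelMap (n := 7) Rel.N (h ∘ v)) →
        (∀ v, PM v → S.RelMap (n := 4) Rel.M (h ∘ v)) → False := by
  letI := mkS PN PM
  constructor
  · intro h f h1 h2
    exact h.false ⟨f, fun g => g.elim, fun r => by
      cases r
      · exact h1
      · exact h2⟩
  · intro h
    exact ⟨fun f => h f (fun v hv => f.map_rel (n := 7) Rel.N v hv)
      (fun v hv => f.map_rel (n := 4) Rel.M v hv)⟩

/-- the forbidden structures -/
def FF : Fin 4 → LL.Structure (Fin 12) :=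
  ![mkS (fun v => v = ![0, 0, 3, 4, 5, 6, 7]) (fun _ => False),
    mkS (fun _ => False) (fun v => v = ![0, 0, 8, 9]),
    mkS (fun v => v = ![1, 2, 3, 4, 5, 6, 7]) (fun v => v = ![0, 1, 8, 9] ∨ v = ![0, 2, 10, 11]),
    mkS (fun v => v = ![0, 2, 3, 4, 5, 6, 7]) (fun v => v = ![0, 1, 8, 9] ∨ v = ![1, 2, 10, 11])]

/-- assignment of the twelve vertices -/
def asg (a b c : α) (w : Fin 5 → α) (u u' : Fin 2 → α) : Fin 12 → α :=
  ![a, b, c, w 0, w 1, w 2, w 3, w 4, u 0, u 1, u' 0, u' 1]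

theorem cons_iff (S : LL.Structure α) :
    (∀ i, IsEmpty (@FirstOrder.Language.Hom LL (Fin 12) α (FF i) S)) ↔ Cons ∅ ∅ (dat S) := by
  have e7 : ∀ (h : Fin 12 → α) (i j : Fin 12), h ∘ ![i, j, 3, 4, 5, 6, 7] =
      Matrix.vecCons (h i) (Matrix.vecCons (h j) ![h 3, h 4, h 5, h 6, h 7]) := fun h i j => by
    funext k; fin_cases k <;> rfl
  have e4 : ∀ (h : Fin 12 → α) (i j k l : Fin 12), h ∘ ![i, j, k, l] =
      Matrix.vecCons (h i) (Matrix.vecCons (h j) ![h k, h l]) := fun h i j k l => by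
    funext k; fin_cases k <;> rfl
  have f5 : ∀ w : Fin 5 → α, ![w 0, w 1, w 2, w 3, w 4] = w := fun w => by
    funext k; fin_cases k <;> rfl
  have f2 : ∀ w : Fin 2 → α, ![w 0, w 1] = w := fun w => by
    funext k; fin_cases k <;> rfl
  rw [Fin.forall_fin_succ, Fin.forall_fin_succ, Fin.forall_fin_two]
  refine and_congr ((hom_iff _ _ S).trans ?_) (and_congr ((hom_iff _ _ S).trans ?_)
    (and_congr ((hom_iff _ _ S).trans ?_) ((hom_iff _ _ S).trans ?_)))
  all_goals
    simp only [forall_eq, or_imp, forall_and, IsEmpty.forall_iff, implies_true, e7, e4, dat,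
      ← Set.nonempty_iff_ne_empty, Set.eq_empty_iff_forall_notMem, Set.mem_ofPred_eq,
      true_imp_iff]
  · exact ⟨fun h a w hw => h (asg a a a w (fun _ => a) (fun _ => a)) (by
      rw [← f5 w] at hw; exact hw), fun h f hf => h _ _ hf⟩
  · exact ⟨fun h a w hw => h (asg a a a (fun _ => a) w w) (by
      rw [← f2 w] at hw; exact hw), fun h f hf => h _ _ hf⟩
  · exact ⟨fun h a b c ⟨u, hu⟩ ⟨u', hu'⟩ w hw => h (asg a b c w u u') (by
      rw [← f5 w] at hw; exact hw) ⟨by rw [← f2 u] at hu; exact hu, by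
        rw [← f2 u'] at hu'; exact hu'⟩, fun h f hf hg => h _ _ _ ⟨_, hg.1⟩ ⟨_, hg.2⟩ _ hf⟩
  · exact ⟨fun h a b c ⟨u, hu⟩ ⟨u', hu'⟩ w hw => h (asg a b c w u u') (by
      rw [← f5 w] at hw; exact hw) ⟨by rw [← f2 u] at hu; exact hu, by
        rw [← f2 u'] at hu'; exact hu'⟩, fun h f hf hg => h _ _ _ ⟨_, hg.1⟩ ⟨_, hg.2⟩ _ hf⟩

/-- activity of a pair -/
noncomputable def act {k : ℕ} (r : Rel (k + 2)) {γ : Type} (i j : γ) : LL.Formula γ :=
  Formula.iExs (Fin k) (Relations.formula (L := LL) r (fun t => Term.var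
    (Matrix.vecCons (Sum.inl i) (Matrix.vecCons (Sum.inl j) Sum.inr) t)))

theorem realize_act [S : LL.Structure α] {k : ℕ} (r : Rel (k + 2)) {γ : Type} (i j : γ)
    (v : γ → α) : (act r i j).Realize v ↔
      ∃ w, S.RelMap (n := k + 2) r (Matrix.vecCons (v i) (Matrix.vecCons (v j) w)) := by
  rw [act, Formula.realize_iExs]
  refine exists_congr fun w => ?_
  rw [Formula.realize_rel]
  refine iff_of_eq (congrArg _ ?_)
  funext t
  refine Fin.cases rfl (fun j => Fin.cases rfl (fun _ => rfl) j) t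

/-- the sentence -/
noncomputable def phi : LL.Sentence :=
  Formula.iAlls Bool (Term.equal (Term.var (Sum.inr true)) (Term.var (Sum.inr false)) ⊔
    act Rel.N (Sum.inr true) (Sum.inr false)) ⊓
  Formula.iAlls Unit (Formula.iExs Unit (act Rel.M (Sum.inl (Sum.inr ())) (Sum.inr ())))

theorem phi_iff (S : LL.Structure α) : α ⊨ phi ↔ Good ∅ ∅ (dat S) := by
  simp only [Sentence.Realize, phi, Formula.realize_inf, Formula.realize_iAlls,
    Formula.realize_iExs, Formula.realize_sup, realize_act, Formula.realize_equal,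
    Term.realize_var, Sum.elim_inr, Sum.elim_inl, Good, dat, ← Set.nonempty_iff_ne_empty]
  refine and_congr ⟨fun h a b => h (fun t => if t then a else b), fun h v => h _ _⟩
    ⟨fun h a => ?_, fun h v => ?_⟩
  · obtain ⟨b, hb⟩ := h (fun _ => a)
    exact ⟨b (), hb⟩
  · obtain ⟨b, hb⟩ := h (v ())
    exact ⟨fun _ => b, hb⟩

/-- the ratio -/
noncomputable def mu (n : ℕ) : ℝ :=
  (Nat.card {M : LL.Structure (Fin n) //
      (∀ i, IsEmpty (@FirstOrder.Language.Hom LL (Fin 12) (Fin n) (FF i) M)) ∧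
        Fin n ⊨ phi} : ℝ) /
    (Nat.card {M : LL.Structure (Fin n) //
      ∀ i, IsEmpty (@FirstOrder.Language.Hom LL (Fin 12) (Fin n) (FF i) M)} : ℝ)

theorem mu_eq (n : ℕ) : mu n =
    (Nat.card {d : (Fin n → Fin n → Set (Fin 5 → Fin n)) × (Fin n → Fin n → Set (Fin 2 → Fin n)) //
      Cons ∅ ∅ d ∧ Good ∅ ∅ d} : ℝ) /
    (Nat.card {d : (Fin n → Fin n → Set (Fin 5 → Fin n)) × (Fin n → Fin n → Set (Fin 2 → Fin n)) //
      Cons ∅ ∅ d} : ℝ) := by
  unfold mu
  congr 2
  · exact Nat.card_congr ((Equiv.ofBijective _ dat_bij).subtypeEquiv fun S =>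
      and_congr (cons_iff S) (phi_iff S))
  · exact Nat.card_congr ((Equiv.ofBijective _ dat_bij).subtypeEquiv fun S => cons_iff S)

theorem mu_odd (t : ℕ) : mu (2 * t + 1) = 0 := by
  rw [mu_eq, div_eq_zero_iff]
  left
  rw [Nat.cast_eq_zero, Nat.card_eq_zero]
  left
  refine ⟨fun d => ?_⟩
  have := even_of_good _ _ _ d.2.1 d.2.2
  rw [Fintype.card_fin, Nat.even_iff] at this
  omega

theorem mu_even (t : ℕ) : 1 / 9 ≤ mu (2 * t + 2) := by
  classical
  rw [mu_eq]
  generalize hn : 2 * t + 2 = n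
  have p1 : n ≤ 2 ^ (n - 1) := by
    have := Nat.lt_two_pow_self (n := n - 1); omega
  have hY' : n * n ^ n ≤ 2 ^ (n ^ 2) := by
    calc n * n ^ n = n ^ (n + 1) := by ring
      _ ≤ (2 ^ (n - 1)) ^ (n + 1) := by gcongr
      _ = 2 ^ ((n - 1) * (n + 1)) := by rw [← pow_mul]
      _ ≤ 2 ^ (n ^ 2) := by
        apply Nat.pow_le_pow_right (by norm_num)
        obtain ⟨k, rfl⟩ : ∃ k, n = k + 1 := ⟨n - 1, by omega⟩
        simp only [Nat.add_sub_cancel]; nlinarith
  have hn2 : 2 ≤ n := by omega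
  have hY : 2 * n ≤ 2 ^ (n ^ 2) := by
    have : 2 ≤ n ^ n := hn2.trans (Nat.le_self_pow (by omega) n)
    nlinarith
  have hX' : n * n * (2 ^ (n ^ 2)) ^ (n * n) ≤ 2 ^ (n ^ 5) := by
    calc n * n * (2 ^ (n ^ 2)) ^ (n * n) ≤ 2 ^ (n * n) * (2 ^ (n ^ 2)) ^ (n * n) := by
          gcongr; exact Nat.lt_two_pow_self.le
      _ = 2 ^ (n * n + n ^ 2 * (n * n)) := by rw [← pow_mul, ← pow_add]
      _ ≤ 2 ^ (n ^ 5) := by
        apply Nat.pow_le_pow_right (by norm_num)
        have h1 : n * n ≤ n ^ 2 * (n * n) := Nat.le_mul_of_pos_left _ (by positivity)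
        have h2 : n ^ 5 = n * (n ^ 2 * (n * n)) := by ring
        nlinarith
  have hX : 2 * (n * n) ≤ 2 ^ (n ^ 5) := by
    have : 2 ≤ (2 ^ (n ^ 2)) ^ (n * n) := by
      rw [← pow_mul]; exact Nat.le_self_pow (by positivity) 2
    nlinarith
  have hc := count (α := Fin n) (∅ : Set (Fin 5 → Fin n)) (∅ : Set (Fin 2 → Fin n)) Fin.rev
    (fun a h => by have := congrArg Fin.val h; rw [Fin.val_rev] at this; omega) Fin.rev_rev
    (by simpa using hX) (by simpa using hY) (by simpa using hX') (by simpa using hY')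
  have hp : 0 < Nat.card {d : (Fin n → Fin n → Set (Fin 5 → Fin n)) ×
      (Fin n → Fin n → Set (Fin 2 → Fin n)) // Cons ∅ ∅ d} := by
    haveI : Nonempty {d : (Fin n → Fin n → Set (Fin 5 → Fin n)) ×
      (Fin n → Fin n → Set (Fin 2 → Fin n)) // Cons ∅ ∅ d} :=
      ⟨⟨(fun _ _ => ∅, fun _ _ => ∅), by simp [Cons]⟩⟩
    exact Nat.card_pos
  rw [div_le_div_iff₀ (by norm_num) (by exact_mod_cast hp), one_mul, mul_comm]
  exact_mod_cast hc

theorem main : ¬ ∃ c : ℝ, Filter.Tendsto mu Filter.atTop (nhds c) := by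
  rintro ⟨c, hc⟩
  have h1 : Filter.Tendsto (fun t => mu (2 * t + 1)) Filter.atTop (nhds c) :=
    hc.comp (Filter.tendsto_atTop_mono (fun t => by simp only [id]; omega) Filter.tendsto_id)
  have h2 : Filter.Tendsto (fun t => mu (2 * t + 2)) Filter.atTop (nhds c) :=
    hc.comp (Filter.tendsto_atTop_mono (fun t => by simp only [id]; omega) Filter.tendsto_id)
  simp only [mu_odd] at h1
  have h3 := tendsto_nhds_unique h1 tendsto_const_nhds
  have h4 := ge_of_tendsto' h2 mu_even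
  rw [h3] at h4
  norm_num at h4

end Pool.Agent.H66.Forb
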