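import Mathlib

/-! A non-free subalgebra of a free algebra with a free elementary subpair: combinatorics. -/

set_option autoImplicit false

namespace Pool.Agent.H66.FreeSub
open Function

theorem fin_adjoin {k F I : Type} [Field k] [Ring F] [Algebra k F] (f : I → F) (T : Set I) {x : F}
    (hx : x ∈ Algebra.adjoin k (f '' T)) :
    ∃ S ⊆ T, S.Finite ∧ x ∈ Algebra.adjoin k (f '' S) := by
  induction hx using Algebra.adjoin_induction with
  | mem x hx =>
    obtain ⟨i, hi, rfl⟩ := hx
    exact ⟨{i}, by simpa using hi, Set.finite_singleton _, Algebra.subset_adjoin ⟨i, rfl, rfl⟩⟩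
  | algebraMap r => exact ⟨∅, Set.empty_subset _, Set.finite_empty, Subalgebra.algebraMap_mem _ r⟩
  | add x y _ _ hx hy =>
    obtain ⟨S, h1, h2, h3⟩ := hx; obtain ⟨S', h1', h2', h3'⟩ := hy
    exact ⟨S ∪ S', Set.union_subset h1 h1', h2.union h2',
      add_mem (Algebra.adjoin_mono (Set.image_mono Set.subset_union_left) h3)
        (Algebra.adjoin_mono (Set.image_mono Set.subset_union_right) h3')⟩
  | mul x y _ _ hx hy =>
    obtain ⟨S, h1, h2, h3⟩ := hx; obtain ⟨S', h1', h2', h3'⟩ := hy
    exact ⟨S ∪ S', Set.union_subset h1 h1', h2.union h2',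
      mul_mem (Algebra.adjoin_mono (Set.image_mono Set.subset_union_left) h3)
        (Algebra.adjoin_mono (Set.image_mono Set.subset_union_right) h3')⟩

theorem fin_supp {k X : Type} [Field k] (x : FreeAlgebra k X) :
    ∃ S : Set X, S.Finite ∧ x ∈ Algebra.adjoin k (FreeAlgebra.ι k '' S) := by
  obtain ⟨S, -, h⟩ := fin_adjoin (k := k) (FreeAlgebra.ι k) Set.univ (x := x) (by
    rw [Set.image_univ, FreeAlgebra.adjoin_range_ι]; trivial)
  exact ⟨S, h⟩

theorem map_mem {k F G : Type} [Field k] [Ring F] [Algebra k F] [Ring G] [Algebra k G]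
    (f : F →ₐ[k] G) {s : Set F} {x : F} (hx : x ∈ Algebra.adjoin k s) (B : Subalgebra k G)
    (h : ∀ y ∈ s, f y ∈ B) : f x ∈ B :=
  (Algebra.adjoin_le (S := B.comap f) h) hx

theorem map_fix {k F : Type} [Field k] [Ring F] [Algebra k F]
    (f : F →ₐ[k] F) {s : Set F} {x : F} (hx : x ∈ Algebra.adjoin k s)
    (h : ∀ y ∈ s, f y = y) : f x = x :=
  (Algebra.adjoin_le (S := AlgHom.equalizer f (AlgHom.id k F)) h) hx

/-- branches of the binary tree -/
abbrev Br := ℕ → ZMod 2

/-- truncation -/
def tr (n : ℕ) (b : Br) : Br := fun i => if i < n then b i else 0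

theorem tr_tr {n m : ℕ} (h : n ≤ m) (b : Br) : tr n (tr m b) = tr n b := by
  funext i; unfold tr; split_ifs <;> first | rfl | omega

theorem tr_mono {n m : ℕ} (h : n ≤ m) {b : Br} (hb : tr n b = b) : tr m b = b := by
  funext i
  have := congrFun hb i
  unfold tr at this ⊢; split_ifs at this ⊢ <;> first | rfl | omega | exact this

theorem tr_add (n : ℕ) (a b : Br) : tr n (a + b) = tr n a + tr n b := by
  funext i; simp only [tr, Pi.add_apply]; split_ifs <;> simp

theorem ev_ne {a b : Br} (h : a ≠ b) : ∀ᶠ n in Filter.atTop, tr n a ≠ tr n b := by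
  obtain ⟨i, hi⟩ := Function.ne_iff.1 h
  filter_upwards [Filter.eventually_gt_atTop i] with n hn h'
  have := congrFun h' i
  simp only [tr, hn, if_true] at this
  exact hi this

/-- eventually zero branches -/
def B0 : Set Br := {b | ∃ n, tr n b = b}

theorem down_ind {b : Br} (hb : b ∈ B0) {P : ℕ → Prop} (h1 : ∀ n, tr n b = b → P n)
    (h2 : ∀ n, P (n + 1) → P n) (n : ℕ) : P n := by
  obtain ⟨N, hN⟩ := hb
  have : ∀ d m, m + d = N + n → P m := by
    intro d
    induction d with
    | zero => intro m hm; exact h1 m (tr_mono (by omega) hN)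
    | succ d ih => intro m hm; exact h2 m (ih (m + 1) (by omega))
  exact this N n (by omega)

/-- nodes of the binary tree -/
def Node : Type := {p : ℕ × Br // tr p.1 p.2 = p.2}

/-- the node of b at level n -/
def node (b : Br) (n : ℕ) : Node := ⟨(n, tr n b), tr_tr le_rfl b⟩

theorem node_self (σ : Node) : node σ.1.2 σ.1.1 = σ := Subtype.ext (Prod.ext rfl σ.2)

instance : Countable Node := by
  have : Injective fun σ : Node => (⟨σ.1.1, fun i => σ.1.2 i⟩ : Σ n : ℕ, Fin n → ZMod 2) := by
    rintro ⟨⟨n, a⟩, ha⟩ ⟨⟨m, b⟩, hb⟩ h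
    simp only [Sigma.mk.injEq] at h
    obtain ⟨rfl, h⟩ := h
    refine Subtype.ext (Prod.ext rfl ?_)
    change a = b
    change tr n a = a at ha
    change tr n b = b at hb
    rw [← ha, ← hb]
    funext i
    simp only [tr]
    split_ifs with hi
    · exact congrFun (eq_of_heq h) ⟨i, hi⟩
    · rfl
  exact this.countable

theorem exists_t (S : Set Br) (hS : S.Finite) (N0 : ℕ) : ∃ t : Br → Br, Involutive t ∧
    (∀ n a b, tr n a = tr n b → tr n (t a) = tr n (t b)) ∧ (∀ b ∈ S, b ∈ B0 → t b = b) ∧
    (∀ b ∈ S, t b ∈ B0) ∧ ∀ n ≤ N0, ∀ b, tr n (t b) = tr n b := by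
  classical
  have h1 : ∀ᶠ n in Filter.atTop, ∀ p ∈ S ×ˢ S, p.1 ≠ p.2 → tr n p.1 ≠ tr n p.2 := by
    rw [Filter.eventually_all_finite (hS.prod hS)]
    intro p _
    by_cases h : p.1 = p.2
    · simp [h]
    · exact (ev_ne h).mono fun n hn _ => hn
  obtain ⟨N, hN, hN0⟩ := (h1.and (Filter.eventually_ge_atTop N0)).exists
  have hsep : ∀ a ∈ S, ∀ b ∈ S, tr N a = tr N b → a = b := fun a ha b hb h => by
    by_contra hne; exact hN (a, b) ⟨ha, hb⟩ hne h
  let sh : Br → Br := fun β =>
    if h : ∃ b ∈ S, b ∉ B0 ∧ tr N b = β then h.choose + β else 0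
  have h2 : ∀ x : Br, x + x = 0 := fun x => funext fun i => CharTwo.add_self_eq_zero (x i)
  have hsh : ∀ β, tr N (sh β) = 0 := by
    intro β
    simp only [sh]
    split_ifs with h
    · have := h.choose_spec.2.2
      rw [tr_add, this]
      conv_lhs => rw [← this]
      rw [tr_tr le_rfl, h2]
    · funext i; simp [tr]
  have hlow : ∀ n ≤ N, ∀ b, tr n (b + sh (tr N b)) = tr n b := by
    intro n hn b
    rw [tr_add, ← tr_tr hn (sh _), hsh]
    funext i; simp [tr]
  refine ⟨fun b => b + sh (tr N b), fun b => ?_, fun n a b h => ?_, fun b hb hb0 => ?_,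
    fun b hb => ?_, fun n hn b => hlow n (hn.trans hN0) b⟩
  · simp only [hlow N le_rfl, add_assoc, h2, add_zero]
  · rcases le_total n N with hn | hn
    · rw [hlow n hn, hlow n hn, h]
    · rw [tr_add, tr_add, h, ← tr_tr hn a, ← tr_tr hn b, h]
  · have : ¬ ∃ b' ∈ S, b' ∉ B0 ∧ tr N b' = tr N b := by
      rintro ⟨b', h1, h2, h3⟩
      exact h2 (hsep b' h1 b hb h3 ▸ hb0)
    simp only [sh, dif_neg this, add_zero]
  · by_cases h : ∃ b' ∈ S, b' ∉ B0 ∧ tr N b' = tr N b
    · have h3 := h.choose_spec
      simp only [sh, dif_pos h]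
      rw [hsep _ h3.1 b hb h3.2.2, ← add_assoc, h2, zero_add]
      exact ⟨N, tr_tr le_rfl b⟩
    · simp only [sh, dif_neg h, add_zero]
      by_contra hb0
      exact h ⟨b, hb, hb0, rfl⟩

/-- letters of the large free algebra -/
inductive X : Type
  | u : X
  | v : X
  | s : Node → X
  | g : Br → ℕ → X

/-- letters of the small free algebra -/
inductive X' : Type
  | u : X'
  | v : X'
  | d : B0 → ℕ → X'
  | g : Node → X'

/-- indices of the generators of the subalgebra -/
inductive GI : Type
  | u : GI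
  | v : GI
  | w : Node → GI
  | c : Br → ℕ → GI
  | d : Br → ℕ → GI

/-- the code sending g to u g -/
def code : X' → List X'
  | .g σ => [.u, .g σ]
  | x => [x]

/-- decoding -/
def dec : List X' → List X'
  | [] => []
  | .u :: .g σ :: t => .g σ :: dec t
  | x :: t => x :: dec t

theorem dec_code (w : List X') : dec (w.flatMap code) = w := by
  induction w with
  | nil => rfl
  | cons x t ih =>
    cases x with
    | u =>
      change dec (X'.u :: t.flatMap code) = _
      cases t with
      | nil => rfl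
      | cons y t' =>
        have : ∀ z : X', ∀ l, (∀ σ, z ≠ X'.g σ) → dec (X'.u :: z :: l) = X'.u :: dec (z :: l) := by
          intro z l hz
          cases z <;> first | rfl | exact absurd rfl (hz _)
        conv_rhs => rw [← ih]
        cases y <;> exact this _ _ (by simp)
    | v => simp [code, dec, ih]
    | d b n => simp [code, dec, ih]
    | g σ => simp [code, dec, ih]

end Pool.Agent.H66.FreeSub
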