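import Pool.Agent.H66.FreeSub1

set_option autoImplicit false

namespace Pool.Agent.H66.FreeSub
open Function FreeAlgebra

variable (k : Type) [Field k]

/-- generators of the subalgebra -/
noncomputable def gen : GI → FreeAlgebra k X
  | .u => ι k X.u
  | .v => ι k X.v
  | .w σ => ι k X.u * ι k (X.s σ)
  | .c b n => ι k X.u * ι k (X.g b n)
  | .d b n => ι k (X.g b n) - ι k (X.g b (n + 1)) * ι k X.v - ι k (X.s (node b n))

/-- the subalgebra -/
noncomputable def AA : Subalgebra k (FreeAlgebra k X) := Algebra.adjoin k (gen k '' Set.univ)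

theorem gen_mem (i : GI) : gen k i ∈ AA k := Algebra.subset_adjoin ⟨i, trivial, rfl⟩

/-- embedding of the small algebra -/
noncomputable def io : FreeAlgebra k X' →ₐ[k] FreeAlgebra k X := lift k fun
  | .u => ι k X.u
  | .v => ι k X.v
  | .d b n => gen k (.d b.1 n)
  | .g σ => ι k (X.g σ.1.2 σ.1.1)

theorem node_B0 (σ : Node) : σ.1.2 ∈ B0 := ⟨_, σ.2⟩

/-- image of an s letter -/
noncomputable def ps (σ : Node) : FreeAlgebra k X' :=
  ι k (X'.g σ) - ι k (X'.g (node σ.1.2 (σ.1.1 + 1))) * ι k X'.v - ι k (X'.d ⟨_, node_B0 σ⟩ σ.1.1)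

/-- auxiliary recursion -/
noncomputable def aux (b : B0) : ℕ → ℕ → FreeAlgebra k X'
  | 0, n => ι k (X'.g (node b.1 n))
  | m + 1, n => aux b m (n + 1) * ι k X'.v + ps k (node b.1 n) + ι k (X'.d b n)

open Classical in
/-- image of a g letter -/
noncomputable def pg (b : B0) (n : ℕ) : FreeAlgebra k X' := aux k b (Nat.find b.2 - n) n

theorem pg_base (b : B0) (n : ℕ) (h : tr n b.1 = b.1) : pg k b n = ι k (X'.g (node b.1 n)) := by
  classical
  unfold pg
  rw [Nat.sub_eq_zero_of_le (Nat.find_min' b.2 h)]; rfl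

theorem pg_rec (b : B0) (n : ℕ) :
    pg k b n = pg k b (n + 1) * ι k X'.v + ps k (node b.1 n) + ι k (X'.d b n) := by
  classical
  by_cases h : tr n b.1 = b.1
  · rw [pg_base k b n h, pg_base k b (n + 1) (tr_mono (Nat.le_succ n) h)]
    have h1 : (⟨(node b.1 n).1.2, node_B0 _⟩ : B0) = b := Subtype.ext h
    have h2 : node (node b.1 n).1.2 (n + 1) = node b.1 (n + 1) := by
      change node (tr n b.1) _ = _; rw [h]
    unfold ps
    rw [h1]
    change _ = _ + (_ - ι k (X'.g (node (node b.1 n).1.2 (n + 1))) * _ - ι k (X'.d b n)) + _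
    rw [h2]; abel
  · have h1 : n < Nat.find b.2 := by
      by_contra h1
      exact h (tr_mono (not_lt.1 h1) (Nat.find_spec b.2))
    unfold pg
    obtain ⟨m, hm⟩ : ∃ m, Nat.find b.2 - n = m + 1 := ⟨Nat.find b.2 - n - 1, by omega⟩
    rw [hm, show Nat.find b.2 - (n + 1) = m by omega]; rfl

open Classical in
/-- left inverse of the embedding -/
noncomputable def pp : FreeAlgebra k X →ₐ[k] FreeAlgebra k X' := lift k fun
  | .u => ι k X'.u
  | .v => ι k X'.v
  | .s σ => ps k σ
  | .g b n => if h : b ∈ B0 then pg k ⟨b, h⟩ n else 0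

theorem pp_d (b : B0) (n : ℕ) : pp k (gen k (.d b.1 n)) = ι k (X'.d b n) := by
  simp only [gen, pp, map_sub, map_mul, lift_ι_apply, dif_pos b.2]
  rw [pg_rec k b n]; abel

theorem pp_io (x : FreeAlgebra k X') : pp k (io k x) = x := by
  have : (pp k).comp (io k) = AlgHom.id k _ := by
    apply hom_ext; funext l
    cases l with
    | u => simp [io, pp]
    | v => simp [io, pp]
    | d b n => simpa [io] using pp_d k b n
    | g σ =>
      simp only [io, pp, comp_apply, AlgHom.comp_apply, lift_ι_apply, dif_pos (node_B0 σ),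
        AlgHom.id_apply]
      rw [pg_base k _ _ σ.2, node_self]
  exact congrArg (fun f => f x) this

/-- letters of the small part -/
def X0 : Set X := {l | ∀ b n, l = X.g b n → b ∈ B0}

theorem io_ps (σ : Node) : io k (ps k σ) = ι k (X.s σ) := by
  have h : tr (σ.1.1 + 1) σ.1.2 = σ.1.2 := tr_mono (Nat.le_succ _) σ.2
  simp only [ps, io, map_sub, map_mul, lift_ι_apply, gen, node_self]
  simp only [node, h]; abel

theorem X0_range {l : X} (hl : l ∈ X0) : ι k l ∈ (io k).range := by
  cases l with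
  | u => exact ⟨ι k X'.u, by simp [io]⟩
  | v => exact ⟨ι k X'.v, by simp [io]⟩
  | s σ => exact ⟨_, io_ps k σ⟩
  | g b n =>
    have hb := hl b n rfl
    refine ⟨pg k ⟨b, hb⟩ n, down_ind hb (P := fun n => io k (pg k ⟨b, hb⟩ n) = ι k (X.g b n))
      (fun n h => ?_) (fun n h => ?_) n⟩
    · rw [pg_base k ⟨b, hb⟩ n h]; simp [io, node, h]
    · rw [pg_rec, map_add, map_add, map_mul, h, io_ps]
      simp only [io, lift_ι_apply, gen]; abel

/-- the free generators of the small subalgebra -/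
noncomputable def ph : FreeAlgebra k X' →ₐ[k] FreeAlgebra k X' := lift k fun
  | .g σ => ι k X'.u * ι k (X'.g σ)
  | x => ι k x

theorem ph_inj : Injective (ph k) := by
  let c : FreeMonoid X' →* FreeMonoid X' := FreeMonoid.lift fun x => FreeMonoid.ofList (code x)
  have hc : ∀ w, (c w).toList = w.toList.flatMap code := by
    intro w
    induction w using FreeMonoid.inductionOn' with
    | one => rfl
    | of_mul x w ih => simp [c] at ih ⊢; exact ih
  have hci : Injective c := fun a b h => by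
    apply FreeMonoid.toList.injective
    rw [← dec_code a.toList, ← hc, h, hc, dec_code]
  have : (equivMonoidAlgebraFreeMonoid (R := k) (X := X')).toAlgHom.comp (ph k) =
      (MonoidAlgebra.mapDomainAlgHom k k c).comp equivMonoidAlgebraFreeMonoid.toAlgHom := by
    apply hom_ext; funext l
    cases l <;> simp [ph, equivMonoidAlgebraFreeMonoid, c, code, MonoidAlgebra.single_mul_single]
      <;> rfl
  intro a b h
  apply (equivMonoidAlgebraFreeMonoid (R := k) (X := X')).injective
  apply MonoidAlgebra.mapDomain_injective hci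
  have h1 := congrArg (fun f => f a) this
  have h2 := congrArg (fun f => f b) this
  simp only [AlgHom.comp_apply, h] at h1 h2
  exact h1.symm.trans h2

theorem u_ps (σ : Node) : ι k X'.u * ps k σ ∈ (ph k).range :=
  ⟨ι k (X'.g σ) - ι k (X'.g (node σ.1.2 (σ.1.1 + 1))) * ι k X'.v -
    ι k X'.u * ι k (X'.d ⟨_, node_B0 σ⟩ σ.1.1), by
    simp [ph, ps, mul_sub, mul_assoc]⟩

theorem ph_u : ι k X'.u ∈ (ph k).range := ⟨ι k X'.u, by simp [ph]⟩
theorem ph_v : ι k X'.v ∈ (ph k).range := ⟨ι k X'.v, by simp [ph]⟩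
theorem ph_d (b : B0) (n : ℕ) : ι k (X'.d b n) ∈ (ph k).range := ⟨ι k (X'.d b n), by simp [ph]⟩

theorem u_pg (b : B0) (n : ℕ) : ι k X'.u * pg k b n ∈ (ph k).range := by
  refine down_ind b.2 (P := fun n => ι k X'.u * pg k b n ∈ (ph k).range) (fun n h => ?_)
    (fun n h => ?_) n
  · rw [pg_base k b n h]; exact ⟨ι k (X'.g (node b.1 n)), by simp [ph]⟩
  · rw [pg_rec, mul_add, mul_add, ← mul_assoc]
    exact add_mem (add_mem (mul_mem h (ph_v k)) (u_ps k _)) (mul_mem (ph_u k) (ph_d k b n))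

/-- action of a tree map on letters -/
def tl (t : Br → Br) : X → X
  | .s σ => .s (node (t σ.1.2) σ.1.1)
  | .g b n => .g (t b) n
  | x => x

/-- action of a tree map on generator indices -/
def tg (t : Br → Br) : GI → GI
  | .w σ => .w (node (t σ.1.2) σ.1.1)
  | .c b n => .c (t b) n
  | .d b n => .d (t b) n
  | x => x

/-- branches occurring in a letter -/
def bl : X → Br
  | .g b _ => b
  | _ => 0

/-- level of a letter -/
def ll : X → ℕ
  | .s σ => σ.1.1
  | _ => 0

/-- branches occurring in a generator -/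
def bg : GI → Br
  | .c b _ => b
  | .d b _ => b
  | _ => 0

theorem exists_T (S : Set X) (hS : S.Finite) (J : Set GI) (hJ : J.Finite) :
    ∃ T : FreeAlgebra k X →ₐ[k] FreeAlgebra k X, Involutive T ∧ (∀ x ∈ AA k, T x ∈ AA k) ∧
      (∀ l ∈ S, l ∈ X0 → T (ι k l) = ι k l) ∧ (∀ l ∈ S, T (ι k l) ∈ (io k).range) ∧
      ∀ j ∈ J, pp k (T (gen k j)) ∈ (ph k).range := by
  obtain ⟨N, hN⟩ := (hS.image ll).bddAbove
  obtain ⟨t, h1, h2, h3, h4, h5⟩ := exists_t _ ((hS.image bl).union (hJ.image bg)) N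
  have hn : ∀ b n, node (t (tr n b)) n = node (t b) n := fun b n =>
    Subtype.ext (Prod.ext rfl (h2 n _ _ (tr_tr le_rfl b)))
  let T : FreeAlgebra k X →ₐ[k] FreeAlgebra k X := lift k fun l => ι k (tl t l)
  have hT : ∀ l, T (ι k l) = ι k (tl t l) := fun l => lift_ι_apply _ _
  have hg : ∀ j, T (gen k j) = gen k (tg t j) := by
    intro j
    cases j with
    | d b n => simp only [gen, map_sub, map_mul, hT, tl, tg]; rw [← hn b n]; rfl
    | _ => simp [gen, hT, tl, tg]
  refine ⟨T, fun x => ?_, fun x hx => map_mem T hx _ ?_, fun l hl hl0 => ?_, fun l hl => ?_,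
    fun j hj => ?_⟩
  · have : T.comp T = AlgHom.id k _ := by
      apply hom_ext; funext l
      simp only [comp_apply, AlgHom.comp_apply, hT, AlgHom.id_apply]
      congr 1
      cases l with
      | s σ =>
        simp only [tl]
        congr 1
        exact (hn _ _).trans (by rw [h1, node_self])
      | g b n => simp only [tl, h1 b]
      | _ => rfl
    exact congrArg (fun f => f x) this
  · rintro _ ⟨j, -, rfl⟩
    rw [hg]; exact gen_mem k _
  · rw [hT]; congr 1
    cases l with
    | s σ =>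
      simp only [tl]; congr 1
      exact Subtype.ext (Prod.ext rfl ((h5 _ (hN ⟨_, hl, rfl⟩) _).trans σ.2))
    | g b n => simp only [tl, h3 b (Or.inl ⟨_, hl, rfl⟩) (hl0 b n rfl)]
    | _ => rfl
  · rw [hT]
    apply X0_range
    cases l with
    | g b n =>
      intro b' n' h
      simp only [tl, X.g.injEq] at h
      exact h.1 ▸ h4 b (Or.inl ⟨_, hl, rfl⟩)
    | _ => intro b' n' h; simp [tl] at h
  · rw [hg]
    cases j with
    | u => simpa [tg, gen, pp] using ph_u k
    | v => simpa [tg, gen, pp] using ph_v k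
    | w σ => simpa [tg, gen, pp] using u_ps k _
    | c b n =>
      have := h4 b (Or.inr ⟨_, hj, rfl⟩)
      simpa [tg, gen, pp, this] using u_pg k ⟨_, this⟩ n
    | d b n =>
      have := h4 b (Or.inr ⟨_, hj, rfl⟩)
      simp only [tg]
      rw [pp_d k ⟨_, this⟩ n]; exact ph_d k _ _

theorem io_mem (x : FreeAlgebra k X') : io k x ∈ Algebra.adjoin k (ι k '' X0) := by
  obtain ⟨S, -, h⟩ := fin_supp x
  refine map_mem _ h _ ?_
  rintro _ ⟨l, -, rfl⟩
  have : ∀ l ∈ X0, ι k l ∈ Algebra.adjoin k (ι k '' X0) := fun l hl =>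
    Algebra.subset_adjoin ⟨l, hl, rfl⟩
  cases l with
  | u => simpa [io] using this X.u (by simp [X0])
  | v => simpa [io] using this X.v (by simp [X0])
  | d b n =>
    simp only [io, lift_ι_apply, gen]
    exact sub_mem (sub_mem (this _ (by simp [X0, b.2])) (mul_mem (this _ (by simp [X0, b.2]))
      (this _ (by simp [X0])))) (this _ (by simp [X0]))
  | g σ => simpa [io] using this (X.g _ _) (by simp [X0, node_B0])

theorem comap_eq : (AA k).comap (io k) = (ph k).range := by
  apply le_antisymm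
  · intro x hx
    obtain ⟨J, -, hJ, h1⟩ := fin_adjoin (gen k) Set.univ hx
    obtain ⟨S, hS0, hS, h2⟩ := fin_adjoin (ι k) X0 (io_mem k x)
    obtain ⟨T, -, -, h3, -, h4⟩ := exists_T k S hS J hJ
    have h5 : T (io k x) = io k x := map_fix T h2 (by
      rintro _ ⟨l, hl, rfl⟩; exact h3 l hl (hS0 hl))
    rw [← pp_io k x, ← h5]
    exact map_mem ((pp k).comp T) h1 _ (by rintro _ ⟨j, hj, rfl⟩; exact h4 j hj)
  · rintro _ ⟨x, rfl⟩
    obtain ⟨S, -, h⟩ := fin_supp x
    refine map_mem ((io k).comp (ph k)) h (AA k) ?_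
    rintro _ ⟨l, -, rfl⟩
    cases l with
    | u => simpa [io, ph, gen] using gen_mem k .u
    | v => simpa [io, ph, gen] using gen_mem k .v
    | d b n => simpa [io, ph] using gen_mem k (.d b n)
    | g σ => simpa [io, ph, gen] using gen_mem k (.c _ _)

theorem small_free : Nonempty ((AA k).comap (io k) ≃ₐ[k] FreeAlgebra k X') := by
  rw [comap_eq]
  exact ⟨(AlgEquiv.ofInjective (ph k) (ph_inj k)).symm⟩

theorem exists_aut {n : ℕ} (x : Fin n → FreeAlgebra k X') (a : FreeAlgebra k X) :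
    ∃ T : FreeAlgebra k X →ₐ[k] FreeAlgebra k X, Involutive T ∧ (∀ x ∈ AA k, T x ∈ AA k) ∧
      (∀ i, T (io k (x i)) = io k (x i)) ∧ T a ∈ (io k).range := by
  choose S hS0 hS h using fun i => fin_adjoin (ι k) X0 (io_mem k (x i))
  obtain ⟨S', hS', h'⟩ := fin_supp a
  obtain ⟨T, h1, h2, h3, h4, -⟩ := exists_T k _ ((Set.finite_iUnion hS).union hS') ∅
    Set.finite_empty
  refine ⟨T, h1, h2, fun i => map_fix T (h i) ?_, map_mem T h' _ ?_⟩
  · rintro _ ⟨l, hl, rfl⟩; exact h3 l (Or.inl (Set.mem_iUnion.2 ⟨i, hl⟩)) (hS0 i hl)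
  · rintro _ ⟨l, hl, rfl⟩; exact h4 l (Or.inr hl)

end Pool.Agent.H66.FreeSub
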