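import Pool.Agent.H66.FreeSub2

set_option autoImplicit false

namespace Pool.Agent.H66.FreeSub
open Function FreeAlgebra

variable (k : Type) [Field k]

open Classical in
/-- coordinate functional on letters -/
noncomputable def chi (σ : Node) : X → Polynomial k
  | .s τ => if τ = σ then 1 else 0
  | .g b n => if n ≤ σ.1.1 ∧ tr σ.1.1 b = σ.1.2 then Polynomial.X ^ (σ.1.1 - n) else 0
  | _ => 0

/-- matrix representation -/
noncomputable def rep (σ : Node) :
    FreeAlgebra k X →ₐ[k] Matrix (Fin 3) (Fin 3) (Polynomial k) := lift k fun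
  | .u => Matrix.single 0 1 1
  | .v => Matrix.single 2 2 Polynomial.X
  | l => Matrix.single 1 2 (chi k σ l)

/-- matrices with diagonal middle row -/
def Row : Subalgebra k (Matrix (Fin 3) (Fin 3) (Polynomial k)) where
  carrier := {m | m 1 0 = 0 ∧ m 1 2 = 0}
  mul_mem' := by
    rintro a b ⟨h1, h2⟩ ⟨h3, h4⟩
    simp [Matrix.mul_apply, Fin.sum_univ_three, h1, h2, h3, h4]
  add_mem' := by
    rintro a b ⟨h1, h2⟩ ⟨h3, h4⟩
    simp [h1, h2, h3, h4]
  algebraMap_mem' r := by simp [Matrix.algebraMap_matrix_apply]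

/-- matrices with diagonal last column -/
def Col : Subalgebra k (Matrix (Fin 3) (Fin 3) (Polynomial k)) where
  carrier := {m | m 0 2 = 0 ∧ m 1 2 = 0}
  mul_mem' := by
    rintro a b ⟨h1, h2⟩ ⟨h3, h4⟩
    simp [Matrix.mul_apply, Fin.sum_univ_three, h1, h2, h3, h4]
  add_mem' := by
    rintro a b ⟨h1, h2⟩ ⟨h3, h4⟩
    simp [h1, h2, h3, h4]
  algebraMap_mem' r := by simp [Matrix.algebraMap_matrix_apply]

theorem chi_rel (σ : Node) (b : Br) (n : ℕ) :
    chi k σ (.g b n) - chi k σ (.g b (n + 1)) * Polynomial.X - chi k σ (.s (node b n)) = 0 := by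
  have h0 : node b n = σ ↔ n = σ.1.1 ∧ tr σ.1.1 b = σ.1.2 := by
    constructor
    · rintro rfl
      exact ⟨rfl, rfl⟩
    · rintro ⟨rfl, h⟩
      exact Subtype.ext (Prod.ext rfl h)
  simp only [chi]
  by_cases h : tr σ.1.1 b = σ.1.2
  · rcases lt_trichotomy n σ.1.1 with hn | hn | hn
    · rw [if_pos ⟨hn.le, h⟩, if_pos ⟨hn, h⟩, if_neg (fun h => hn.ne (h0.1 h).1), ← pow_succ,
        show σ.1.1 - (n + 1) + 1 = σ.1.1 - n by omega]; simp
    · rw [if_pos ⟨hn.le, h⟩, if_neg (fun h => by omega), if_pos (h0.2 ⟨hn, h⟩), hn]; simp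
    · rw [if_neg (fun h => by omega), if_neg (fun h => by omega),
        if_neg (fun h => hn.ne' (h0.1 h).1)]; simp
  · rw [if_neg (fun h' => h h'.2), if_neg (fun h' => h h'.2), if_neg (fun h' => h (h0.1 h').2)]
    simp

theorem rep_row (σ : Node) {a : FreeAlgebra k X} (ha : a ∈ AA k) : rep k σ a ∈ Row k := by
  refine map_mem _ ha _ ?_
  rintro _ ⟨j, -, rfl⟩
  change rep k σ (gen k j) 1 0 = 0 ∧ rep k σ (gen k j) 1 2 = 0
  cases j with
  | d b n =>
    have := chi_rel k σ b n
    simp [gen, rep, Matrix.single_mul_single_same, this]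
  | _ => simp [gen, rep, Matrix.single_mul_single_same]

theorem rep_u (σ : Node) (a : FreeAlgebra k X) : rep k σ (ι k X.u * a) 0 2 = rep k σ a 1 2 := by
  simp [rep, Matrix.mul_apply, Fin.sum_univ_three]

theorem rep_v (σ : Node) (a : FreeAlgebra k X) :
    rep k σ (a * ι k X.v) 0 2 = rep k σ a 0 2 * Polynomial.X := by
  simp [rep, Matrix.mul_apply, Fin.sum_univ_three]

theorem rep_col (σ : Node) {S : Set X} (hS : ∀ l ∈ S, chi k σ l = 0) {a : FreeAlgebra k X}
    (ha : a ∈ Algebra.adjoin k (ι k '' S)) : rep k σ a ∈ Col k := by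
  refine map_mem _ ha _ ?_
  rintro _ ⟨l, hl, rfl⟩
  change rep k σ (ι k l) 0 2 = 0 ∧ rep k σ (ι k l) 1 2 = 0
  have := hS l hl
  cases l <;> simp [rep, this]

theorem no_sol (b : Br) (c d : ℕ → FreeAlgebra k X) (hd : ∀ n, d n ∈ AA k)
    (h : ∀ n, c n = c (n + 1) * ι k X.v + ι k X.u * d n + ι k X.u * ι k (X.s (node b n)))
    (hc : c 0 ∈ Algebra.adjoin k (ι k '' {l | ∀ n, l ≠ X.g b n})) : False := by
  classical
  obtain ⟨S, hS0, hS, h1⟩ := fin_adjoin (ι k) _ hc
  have : ∀ᶠ i in Filter.atTop, ∀ l ∈ S, chi k (node b i) l = 0 := by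
    rw [Filter.eventually_all_finite hS]
    intro l hl
    cases l with
    | s τ =>
      filter_upwards [Filter.eventually_gt_atTop τ.1.1] with i hi
      exact if_neg fun h => by rw [h] at hi; exact lt_irrefl _ hi
    | g b' n =>
      have : b' ≠ b := by rintro rfl; exact hS0 hl n rfl
      filter_upwards [ev_ne this] with i hi
      exact if_neg fun h => hi h.2
    | _ => exact Filter.Eventually.of_forall fun _ => rfl
  obtain ⟨i, hi⟩ := this.exists
  have h2 : rep k (node b i) (c 0) 0 2 = 0 := (rep_col k _ hi h1).1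
  have h3 : ∀ n, rep k (node b i) (c n) 0 2 =
      rep k (node b i) (c (n + 1)) 0 2 * Polynomial.X + if n = i then 1 else 0 := by
    intro n
    rw [h n, map_add, map_add, Matrix.add_apply, Matrix.add_apply, rep_u, rep_u, rep_v,
      (rep_row k _ (hd n)).2, add_zero]
    congr 1
    have : node b n = node b i ↔ n = i :=
      ⟨fun h => congrArg (fun σ : Node => σ.1.1) h, fun h => by rw [h]⟩
    simp [rep, chi, this]
  have h4 : ∀ n ≤ i, rep k (node b i) (c n) 0 2 = 0 := by
    intro n
    induction n with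
    | zero => exact fun _ => h2
    | succ n ih =>
      intro hn
      have := h3 n
      rw [ih (by omega), if_neg (by omega), add_zero] at this
      exact (mul_eq_zero.1 this.symm).resolve_right Polynomial.X_ne_zero
  have := congrArg (Polynomial.eval 0) (h3 i)
  rw [h4 i le_rfl] at this
  simp at this

theorem not_free {Y : Type} (e : AA k ≃ₐ[k] FreeAlgebra k Y) : False := by
  classical
  let g : GI → AA k := fun j => ⟨gen k j, gen_mem k j⟩
  choose sp hsp hsp' using fun x : FreeAlgebra k Y => fin_supp x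
  choose sq hsq hsq' using fun y : Y => fin_supp ((e.symm (ι k y) : AA k) : FreeAlgebra k X)
  let Y0 : Set Y := (sp (e (g .u)) ∪ sp (e (g .v))) ∪ ⋃ σ : Node, sp (e (g (.w σ)))
  have hY0 : Y0.Countable := ((hsp _).union (hsp _)).countable.union
    (Set.countable_iUnion fun σ => (hsp _).countable)
  have hB : (⋃ y ∈ Y0, bl '' sq y).Countable :=
    hY0.biUnion fun y _ => ((hsq y).image _).countable
  obtain ⟨b, hb⟩ : ∃ b, b ∉ ⋃ y ∈ Y0, bl '' sq y := by
    by_contra h
    push Not at h
    rw [Set.eq_univ_iff_forall.2 h, Set.countable_univ_iff, ← Cardinal.mk_le_aleph0_iff] at hB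
    simp only [Cardinal.mk_pi, Cardinal.prod_const, Cardinal.mk_fintype, ZMod.card,
      Cardinal.mk_nat, Cardinal.lift_id, Nat.cast_ofNat, Cardinal.two_power_aleph0] at hB
    exact absurd hB (not_le.2 Cardinal.aleph0_lt_continuum)
  let r : FreeAlgebra k Y →ₐ[k] FreeAlgebra k Y := lift k fun y => if y ∈ Y0 then ι k y else 0
  let R : AA k →ₐ[k] FreeAlgebra k X :=
    (AA k).val.comp (e.symm.toAlgHom.comp (r.comp e.toAlgHom))
  have hfix : ∀ j, sp (e (g j)) ⊆ Y0 → R (g j) = gen k j := by
    intro j hj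
    have : r (e (g j)) = e (g j) := map_fix r (hsp' _) (by
      rintro _ ⟨y, hy, rfl⟩; simp [r, hj hy])
    change ((e.symm (r (e (g j))) : AA k) : FreeAlgebra k X) = _
    rw [this, e.symm_apply_apply]
  have hu : R (g .u) = ι k X.u := hfix _ (Set.subset_union_left.trans Set.subset_union_left)
  have hv : R (g .v) = ι k X.v := hfix _ (Set.subset_union_right.trans Set.subset_union_left)
  have hw : ∀ σ, R (g (.w σ)) = ι k X.u * ι k (X.s σ) := fun σ =>
    hfix _ ((Set.subset_iUnion (fun σ : Node => sp (e (g (.w σ)))) σ).trans Set.subset_union_right)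
  refine no_sol k b (fun n => R (g (.c b n))) (fun n => R (g (.d b n)))
    (fun n => (e.symm (r (e (g (.d b n))))).2) (fun n => ?_) ?_
  · have : g (.c b n) = g (.c b (n + 1)) * g .v + g .u * g (.d b n) + g (.w (node b n)) := by
      apply Subtype.ext
      simp only [g, gen, MulMemClass.coe_mul, AddMemClass.coe_add, mul_sub, mul_assoc]
      abel
    rw [this, map_add, map_add, map_mul, map_mul, hu, hv, hw]
  · refine map_mem ((AA k).val.comp (e.symm.toAlgHom.comp r)) (hsp' (e (g (.c b 0)))) _ ?_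
    rintro _ ⟨y, -, rfl⟩
    by_cases hy : y ∈ Y0
    · have : r (ι k y) = ι k y := by simp [r, hy]
      change ((e.symm (r (ι k y)) : AA k) : FreeAlgebra k X) ∈ _
      rw [this]
      refine Algebra.adjoin_mono (Set.image_mono ?_) (hsq' y)
      rintro l hl n rfl
      exact hb (Set.mem_biUnion hy ⟨_, hl, rfl⟩)
    · have : r (ι k y) = 0 := by simp [r, hy]
      change ((e.symm (r (ι k y)) : AA k) : FreeAlgebra k X) ∈ _
      rw [this, map_zero]; exact zero_mem _

open FirstOrder FirstOrder.Language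

/-- the language of algebras with a predicate -/
abbrev Lang : FirstOrder.Language.{0, 0} :=
  ⟨fun n => {_b : Bool // n = 2} ⊕ {_c : k // n = 0}, fun n => {_u : Unit // n = 1}⟩

/-- the structure of a pair -/
@[reducible] def str {F : Type} [Ring F] [Algebra k F] (A : Subalgebra k F) :
    (Lang k).Structure F :=
  { funMap := fun {n} f xs =>
      Sum.elim
        (fun b : {_b : Bool // n = 2} =>
          if b.1 then xs (Fin.cast b.2.symm 0) + xs (Fin.cast b.2.symm 1)
          else xs (Fin.cast b.2.symm 0) * xs (Fin.cast b.2.symm 1))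
        (fun c : {_c : k // n = 0} => algebraMap k F c.1) f,
    RelMap := fun {n} _ xs => ∀ i, xs i ∈ A }

/-- embedding of pairs -/
def emb {F G : Type} [Ring F] [Algebra k F] [Ring G] [Algebra k G] (A : Subalgebra k F)
    (B : Subalgebra k G) (f : F →ₐ[k] G) (hf : Injective f) (h : ∀ x, f x ∈ B ↔ x ∈ A) :
    @Embedding (Lang k) F G (str k A) (str k B) :=
  letI := str k A
  letI := str k B
  { toFun := f
    inj' := hf
    map_fun' := by
      rintro n (⟨b, rfl⟩ | ⟨c, rfl⟩) x
      · cases b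
        · exact map_mul f _ _
        · exact map_add f _ _
      · exact f.commutes c
    map_rel' := fun _ x => forall_congr' fun i => h (x i) }

theorem transfer (T : (Lang k).Theory)
    (h : @Theory.Model _ _ (str k ((AA k).comap (io k))) T) : @Theory.Model _ _ (str k (AA k)) T := by
  letI := str k ((AA k).comap (io k))
  letI := str k (AA k)
  let f := emb k ((AA k).comap (io k)) (AA k) (io k) (LeftInverse.injective (pp_io k))
    (fun _ => Iff.rfl)
  refine ((f.toElementaryEmbedding ?_).theory_model_iff T).1 h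
  intro n φ x a ha
  obtain ⟨T, h1, h2, h3, b, hb⟩ := exists_aut k x a
  let g := emb k (AA k) (AA k) T h1.injective
    (fun x => ⟨fun hx => h1 x ▸ h2 _ hx, h2 x⟩)
  let g' : FirstOrder.Language.Equiv (Lang k) (FreeAlgebra k X) (FreeAlgebra k X) :=
    { toEquiv := h1.toPerm, map_fun' := g.map_fun', map_rel' := g.map_rel' }
  refine ⟨b, ?_⟩
  have := (StrongHomClass.realize_boundedFormula g' φ).2 ha
  convert this using 1
  funext i
  refine Fin.lastCases ?_ (fun i => ?_) i
  · simp only [Fin.snoc_last, comp_apply]; exact hb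
  · simp only [Fin.snoc_castSucc, comp_apply]; exact (h3 i).symm

theorem not_axiom (T : (Lang k).Theory)
    (hT : ∀ (F : Type) [Ring F] [Algebra k F],
      (∃ X : Type, Nonempty (F ≃ₐ[k] FreeAlgebra k X)) → ∀ A : Subalgebra k F,
        ((∃ Y : Type, Nonempty (A ≃ₐ[k] FreeAlgebra k Y)) ↔
          ∀ [S : (Lang k).Structure F], S = str k A → F ⊨ T)) : False := by
  have h1 : @Theory.Model _ _ (str k ((AA k).comap (io k))) T := by
    letI := str k ((AA k).comap (io k))
    exact (hT _ ⟨X', ⟨AlgEquiv.refl⟩⟩ ((AA k).comap (io k))).1 ⟨X', small_free k⟩ rfl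
  obtain ⟨Y, ⟨e⟩⟩ := (hT _ ⟨X, ⟨AlgEquiv.refl⟩⟩ (AA k)).2 (by
    rintro _ rfl; exact transfer k T h1)
  exact not_free k e

end Pool.Agent.H66.FreeSub
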