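import Mathlib

set_option autoImplicit false

namespace Pool.Agent.H66.Gam

open Classical Cardinal

universe u v

theorem gamma {G : Type u} [Group G] {I : Type v} [LinearOrder I] [WellFoundedLT I]
    (K H : I → Subgroup G) (hKH : ∀ i, K i ≤ H i) (hHK : ∀ i j, i < j → H i ≤ K j) :
    ∃ Γ : G → Finset I, (∀ i, ∀ u ∈ K i, ∀ g, i ∈ Γ (u * g) ↔ i ∈ Γ g) ∧
      (∀ i x y, x * y⁻¹ ∈ H i → i ∉ Γ x → i ∉ Γ y → x * y⁻¹ ∈ K i) := by
  obtain ⟨_, _⟩ := exists_wellFoundedLT G
  let m : Subgroup G → G → G := fun S g =>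
    wellFounded_lt.min {x | x * g⁻¹ ∈ S} ⟨g, by simp [one_mem]⟩
  have hm : ∀ S g, m S g * g⁻¹ ∈ S := fun S g =>
    wellFounded_lt.min_mem {x | x * g⁻¹ ∈ S} ⟨g, by simp [one_mem]⟩
  have hle : ∀ S g x, x * g⁻¹ ∈ S → m S g ≤ x := fun S g x hx =>
    wellFounded_lt.min_le (s := {x | x * g⁻¹ ∈ S}) hx
  have hmono : ∀ S T g, S ≤ T → m T g ≤ m S g := fun S T g h => hle _ _ _ (h (hm S g))
  have hinv : ∀ (S : Subgroup G) x y, x * y⁻¹ ∈ S → m S x = m S y := by
    intro S x y h
    apply le_antisymm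
    · apply hle
      have := mul_mem (hm S y) (inv_mem h)
      simpa [mul_assoc] using this
    · apply hle
      have := mul_mem (hm S x) h
      simpa [mul_assoc] using this
  have hfin : ∀ g, {i | m (K i) g ≠ m (H i) g}.Finite := by
    intro g
    have hanti : StrictAnti fun i : {i | m (K i) g ≠ m (H i) g} => m (K i) g := by
      intro i j hij
      exact lt_of_le_of_lt (hmono _ _ g (hHK _ _ hij))
        (lt_of_le_of_ne (hmono _ _ g (hKH _)) (Ne.symm i.2))
    have := hanti.wellFoundedGT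
    exact Finite.of_wellFoundedLT_wellFoundedGT _
  refine ⟨fun g => (hfin g).toFinset, fun i u hu g => ?_, fun i x y h hx hy => ?_⟩
  · simp only [Set.Finite.mem_toFinset, Set.mem_setOf_eq]
    rw [hinv (K i) (u * g) g (by simpa using hu), hinv (H i) (u * g) g (by simpa using hKH i hu)]
  · simp only [Set.Finite.mem_toFinset, Set.mem_setOf_eq, not_not] at hx hy
    have e : m (K i) x = m (K i) y := by rw [hx, hy, hinv _ _ _ h]
    have h1 := hm (K i) x
    have h2 := hm (K i) y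
    rw [e] at h1
    have := mul_mem (inv_mem h1) h2
    simpa [mul_assoc] using this

theorem mk_closure_le {G : Type u} [Group G] (s : Set G) :
    #(Subgroup.closure s) ≤ max #s ℵ₀ := by
  have h : Subgroup.closure s = (FreeGroup.lift (Subtype.val : s → G)).range := by
    rw [FreeGroup.range_lift_eq_closure]; simp
  rw [h]
  have h1 : #(FreeGroup.lift (Subtype.val : s → G)).range ≤ #(FreeGroup s) :=
    mk_le_of_surjective (FreeGroup.lift (Subtype.val : s → G)).rangeRestrict_surjective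
  refine h1.trans ?_
  rcases isEmpty_or_nonempty s with hs | hs
  · exact le_max_of_le_right mk_le_aleph0
  · rw [mk_freeGroup]

theorem exists_max_pairwise {α : Type u} (r : α → α → Prop) (hr : ∀ a b, r a b → r b a) :
    ∃ S : Set α, S.Pairwise r ∧ ∀ a, a ∈ S ∨ ∃ b ∈ S, ¬ r a b := by
  obtain ⟨S, hS⟩ := zorn_subset {S : Set α | S.Pairwise r} (fun c hc hch =>
    ⟨⋃₀ c, (Set.pairwise_sUnion hch.directedOn).2 fun a ha => hc ha,
      fun s hs => Set.subset_sUnion_of_mem hs⟩)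
  refine ⟨S, hS.prop, fun a => ?_⟩
  by_contra hc
  push Not at hc
  have h1 : (insert a S).Pairwise r := by
    intro x hx y hy hxy
    rcases hx with rfl | hx
    · rcases hy with rfl | hy
      · exact absurd rfl hxy
      · exact hc.2 y hy
    · rcases hy with rfl | hy
      · exact hr _ _ (hc.2 x hx)
      · exact hS.prop hx hy hxy
  exact hc.1 (hS.le_of_ge h1 (Set.subset_insert _ _) (Set.mem_insert _ _))

theorem sum_layers (a : ℕ → ℕ) (M : ℕ) (h : ∀ m, 2 ^ (m + 1) * a m ≤ M) (n : ℕ) :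
    2 ^ n * ∑ m ∈ Finset.range n, a m + M ≤ 2 ^ n * M := by
  induction n with
  | zero => simp
  | succ n ih =>
    rw [Finset.sum_range_succ]
    have := h n
    rw [pow_succ] at this ⊢
    nlinarith

theorem hall_layers {α : Type u} {β : Type v} (T : ℕ → β → Finset α) (S : ℕ → Set β)
    (hcard : ∀ m b, (T m b).card = 2 ^ (m + 1))
    (hdisj : ∀ m, (S m).Pairwise fun a b => Disjoint (T m a) (T m b)) :
    ∃ ν : α → ℕ, ∀ m, ∀ b ∈ S m, ∃ x ∈ T m b, ν x = m := by
  obtain ⟨f, hf, hfm⟩ := (Finset.all_card_le_biUnion_card_iff_exists_injective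
    (fun r : {r : ℕ × β // r.2 ∈ S r.1} => T r.1.1 r.1.2)).1 (by
      intro A
      set M := (A.biUnion fun r => T r.1.1 r.1.2).card with hM
      have h1 : ∀ m, 2 ^ (m + 1) * (A.filter fun r => r.1.1 = m).card ≤ M := by
        intro m
        have h2 : ((A.filter fun r => r.1.1 = m).biUnion fun r => T r.1.1 r.1.2).card =
            ∑ r ∈ A.filter fun r => r.1.1 = m, (T r.1.1 r.1.2).card := by
          apply Finset.card_biUnion
          intro x hx y hy hxy
          have hx' : x.1.1 = m := (Finset.mem_filter.1 hx).2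
          have hy' : y.1.1 = m := (Finset.mem_filter.1 hy).2
          have hx2 := x.2
          have hy2 := y.2
          simp only [Function.onFun]
          rw [hx'] at hx2 ⊢
          rw [hy'] at hy2 ⊢
          exact hdisj m hx2 hy2 fun hh => hxy (Subtype.ext (Prod.ext (hx'.trans hy'.symm) hh))
        rw [Finset.sum_congr rfl (g := fun _ => 2 ^ (m + 1))
          (fun r hr => by rw [hcard, (Finset.mem_filter.1 hr).2])] at h2
        rw [Finset.sum_const, smul_eq_mul, mul_comm] at h2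
        rw [← h2]
        exact Finset.card_le_card (Finset.biUnion_subset_biUnion_of_subset_left _
          (Finset.filter_subset _ _))
      have h3 : A.card = ∑ m ∈ Finset.range (A.sup (fun r => r.1.1) + 1),
          (A.filter fun r => r.1.1 = m).card := by
        apply Finset.card_eq_sum_card_fiberwise
        intro r hr
        simpa using Nat.lt_succ_of_le (Finset.le_sup (f := fun r => r.1.1) hr)
      have h4 := sum_layers _ M h1 (A.sup (fun r => r.1.1) + 1)
      rw [← h3] at h4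
      have h5 : 2 ^ (A.sup (fun r => r.1.1) + 1) * A.card ≤
          2 ^ (A.sup (fun r => r.1.1) + 1) * M := by omega
      exact Nat.le_of_mul_le_mul_left h5 (by positivity))
  refine ⟨fun x => if h : ∃ r, f r = x then h.choose.1.1 else 0, fun m b hb => ?_⟩
  refine ⟨f ⟨(m, b), hb⟩, hfm _, ?_⟩
  have h : ∃ r, f r = f ⟨(m, b), hb⟩ := ⟨_, rfl⟩
  simp only [dif_pos h]
  rw [hf h.choose_spec]

theorem nu {G : Type u} [Group G] (B : Subgroup G) (hB : (B : Set G).Infinite) :
    ∃ ν : G → ℕ, ∀ k, ∃ E : Finset G, (∀ u ∈ E, u ∈ B) ∧ (∀ g, ∃ u ∈ E, ν (u * g) = k) ∧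
      (∀ g, ∃ u ∈ E, ν (g * u) = k) := by
  have hF : ∀ m : ℕ, ∃ F : Finset G, (F : Set G) ⊆ B ∧ F.card = 2 ^ (m + 1) := fun m =>
    hB.exists_subset_card_eq _
  choose F hFB hFc using hF
  let T : ℕ → G → Finset G := fun m s =>
    if m % 2 = 0 then (F m).image (· * s) else (F m).image (s * ·)
  have hT : ∀ m s, (T m s).card = 2 ^ (m + 1) := by
    intro m s
    simp only [T]
    split_ifs
    · rw [Finset.card_image_of_injective _ (mul_left_injective s), hFc]
    · rw [Finset.card_image_of_injective _ (mul_right_injective s), hFc]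
  have hS := fun m => exists_max_pairwise (fun a b => Disjoint (T m a) (T m b))
    (fun a b h => h.symm)
  choose S hS1 hS2 using hS
  obtain ⟨ν, hν⟩ := hall_layers T S hT hS1
  have hS3 : ∀ m g, ∃ s ∈ S m, ¬ Disjoint (T m g) (T m s) := by
    intro m g
    rcases hS2 m g with h | h
    · refine ⟨g, h, ?_⟩
      rw [Finset.disjoint_self_iff_empty, ← Finset.card_eq_zero, hT]
      positivity
    · exact h
  refine ⟨fun x => ν x / 2, fun k => ?_⟩
  refine ⟨((F (2 * k) ×ˢ F (2 * k) ×ˢ F (2 * k)).image fun t => t.1 * t.2.1⁻¹ * t.2.2) ∪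
    ((F (2 * k + 1) ×ˢ F (2 * k + 1) ×ˢ F (2 * k + 1)).image fun t => t.1 * t.2.1⁻¹ * t.2.2),
    fun u hu => ?_, fun g => ?_, fun g => ?_⟩
  · rcases Finset.mem_union.1 hu with hu | hu <;>
    · obtain ⟨t, ht, rfl⟩ := Finset.mem_image.1 hu
      simp only [Finset.mem_product] at ht
      exact mul_mem (mul_mem (hFB _ ht.1) (inv_mem (hFB _ ht.2.1))) (hFB _ ht.2.2)
  · obtain ⟨s, hs, hd⟩ := hS3 (2 * k) g
    obtain ⟨x, hx, hxk⟩ := hν _ s hs
    obtain ⟨y, hy1, hy2⟩ := Finset.not_disjoint_iff.1 hd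
    have e : 2 * k % 2 = 0 := by omega
    simp only [T, e, if_true, Finset.mem_image] at hx hy1 hy2
    obtain ⟨a, ha, rfl⟩ := hx
    obtain ⟨b, hb, rfl⟩ := hy1
    obtain ⟨c, hc, hbc⟩ := hy2
    refine ⟨a * c⁻¹ * b, Finset.mem_union_left _ (Finset.mem_image.2 ⟨(a, c, b), by simp [ha, hb, hc],
      rfl⟩), ?_⟩
    have : a * c⁻¹ * b * g = a * s := by rw [mul_assoc, ← hbc]; simp [mul_assoc]
    rw [this]; simp only [hxk]; omega
  · obtain ⟨s, hs, hd⟩ := hS3 (2 * k + 1) g
    obtain ⟨x, hx, hxk⟩ := hν _ s hs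
    obtain ⟨y, hy1, hy2⟩ := Finset.not_disjoint_iff.1 hd
    have e : ¬ (2 * k + 1) % 2 = 0 := by omega
    simp only [T, e, if_false, Finset.mem_image] at hx hy1 hy2
    obtain ⟨a, ha, rfl⟩ := hx
    obtain ⟨b, hb, rfl⟩ := hy1
    obtain ⟨c, hc, hbc⟩ := hy2
    refine ⟨b * c⁻¹ * a, Finset.mem_union_right _ (Finset.mem_image.2 ⟨(b, c, a), by simp [ha, hb, hc],
      rfl⟩), ?_⟩
    have : g * (b * c⁻¹ * a) = s * a := by
      rw [← mul_assoc, ← mul_assoc, ← hbc]; simp [mul_assoc]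
    rw [this]; simp only [hxk]; omega

theorem colour0 {G : Type u} [Group G] [Infinite G] (C : Type v) [Countable C] [Nonempty C] :
    ∃ χ : G → C, ∀ c, ∃ F : Set G, F.Finite ∧ (∀ g, ∃ f ∈ F, χ (f * g) = c) ∧
      (∀ g, ∃ f ∈ F, χ (g * f) = c) := by
  obtain ⟨ν, hν⟩ := nu (⊤ : Subgroup G) (by simpa using Set.infinite_univ)
  obtain ⟨e, he⟩ := exists_surjective_nat C
  refine ⟨fun g => e (ν g), fun c => ?_⟩
  obtain ⟨k, rfl⟩ := he c
  obtain ⟨E, -, h1, h2⟩ := hν k
  refine ⟨E, E.finite_toSet, fun g => ?_, fun g => ?_⟩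
  · obtain ⟨u, hu, h⟩ := h1 g
    exact ⟨u, hu, by simp only [h]⟩
  · obtain ⟨u, hu, h⟩ := h2 g
    exact ⟨u, hu, by simp only [h]⟩

theorem jumps_card {G : Type u} [Group G] [LinearOrder G] [WellFoundedLT G] (hG : ℵ₀ < #G)
    (B : Set G) (hB : B.Countable) :
    #{i : G | i ∉ Subgroup.closure (B ∪ Set.Iio i)} = #G := by
  set J := {i : G | i ∉ Subgroup.closure (B ∪ Set.Iio i)} with hJ
  have h1 : ∀ i : G, i ∈ Subgroup.closure (B ∪ J) := by
    intro i
    induction i using WellFoundedLT.induction with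
    | ind i ih =>
      by_cases hi : i ∈ J
      · exact Subgroup.subset_closure (Or.inr hi)
      · have : i ∈ Subgroup.closure (B ∪ Set.Iio i) := by simpa [hJ] using hi
        refine (Subgroup.closure_le _).2 ?_ this
        rintro x (hx | hx)
        · exact Subgroup.subset_closure (Or.inl hx)
        · exact ih x hx
  have h2 : #G ≤ max #(B ∪ J : Set G) ℵ₀ := by
    refine le_trans ?_ (mk_closure_le _)
    exact mk_le_of_injective (f := fun g => ⟨g, h1 g⟩) fun a b h => by simpa using h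
  apply le_antisymm (mk_set_le _)
  by_contra hc
  push Not at hc
  have h3 : #(B ∪ J : Set G) < #G :=
    (mk_union_le _ _).trans_lt (add_lt_of_lt hG.le
      ((le_aleph0_iff_set_countable.2 hB).trans_lt hG) hc)
  exact absurd h2 (not_le.2 (max_lt h3 hG))

theorem exists_inj_prod {α C : Type u} (J : Set α) (hJ : ℵ₀ ≤ #J) (hC : #C ≤ #J) :
    ∃ j : C × ℕ → α, Function.Injective j ∧ ∀ p, j p ∈ J := by
  have h : #(C × ULift.{u} ℕ) ≤ #J := by
    simp only [mk_prod, lift_id, mk_uLift, mk_eq_aleph0, lift_aleph0]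
    exact (mul_le_mul' hC hJ).trans (mul_eq_self hJ).le
  obtain ⟨e⟩ := (le_def _ _).1 h
  refine ⟨fun p => (e (p.1, ⟨p.2⟩) : α), fun a b hab => ?_, fun p => (e _).2⟩
  have := e.injective (Subtype.ext hab)
  simp only [Prod.mk.injEq, ULift.up.injEq] at this
  exact Prod.ext this.1 this.2

theorem colour1 {G : Type u} [Group G] (hG : ℵ₀ < #G) (C : Type u) [Nonempty C] (hC : #C ≤ #G) :
    ∃ χ : G → C, ∀ c, ∃ F : Set G, F.Countable ∧ (∀ g, ∃ f ∈ F, χ (f * g) = c) ∧
      (∀ g, ∃ f ∈ F, χ (g * f) = c) := by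
  have : Infinite G := infinite_iff.2 hG.le
  obtain ⟨_, _⟩ := exists_wellFoundedLT G
  set B : Subgroup G := Subgroup.closure (Set.range (Infinite.natEmbedding G)) with hB
  have hBc : (B : Set G).Countable := by
    rw [← le_aleph0_iff_set_countable]
    refine (mk_closure_le _).trans (max_le ?_ le_rfl)
    rw [le_aleph0_iff_set_countable]
    exact Set.countable_range _
  have hBi : (B : Set G).Infinite :=
    (Set.infinite_range_of_injective (Infinite.natEmbedding G).injective).mono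
      Subgroup.subset_closure
  obtain ⟨ν, hν⟩ := nu B hBi
  let K : G → Subgroup G := fun i => Subgroup.closure (B ∪ Set.Iio i)
  let H : G → Subgroup G := fun i => Subgroup.closure (B ∪ Set.Iic i)
  obtain ⟨Γ, h1, h2⟩ := gamma K H
    (fun i => Subgroup.closure_mono (Set.union_subset_union_right _ Set.Iio_subset_Iic_self))
    (fun i j hij => Subgroup.closure_mono (Set.union_subset_union_right _
      (Set.Iic_subset_Iio.2 hij)))
  have hJ := jumps_card hG B hBc
  obtain ⟨j, hj, hjJ⟩ := exists_inj_prod (C := C) _ (hJ ▸ hG.le) (hJ ▸ hC)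
  let col : G → C := fun i => if h : ∃ p, j p = i then h.choose.1 else Classical.arbitrary C
  have hcol : ∀ p, col (j p) = p.1 := by
    intro p
    have h : ∃ q, j q = j p := ⟨p, rfl⟩
    simp only [col, dif_pos h]
    rw [hj h.choose_spec]
  have hΓB : ∀ b ∈ B, ∀ g, Γ (b * g) = Γ g := fun b hb g => Finset.ext fun i =>
    h1 i b (Subgroup.subset_closure (Or.inl hb)) g
  have hjump : ∀ (c : C) (g : G), ∃ n k, (Γ (j (c, n) * g)).toList.getD k 1 = j (c, n) := by
    intro c g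
    obtain ⟨n, hn⟩ : ∃ n, j (c, n) ∉ Γ g := by
      by_contra hc
      push Not at hc
      exact Set.infinite_of_injective_forall_mem (f := fun n => j (c, n))
        (fun a b h => by simpa using hj h) hc (Γ g).finite_toSet
    have hmem : j (c, n) ∈ Γ (j (c, n) * g) := by
      by_contra hc
      have := h2 _ _ _ (by
        simp only [mul_inv_cancel_right]
        exact Subgroup.subset_closure (Or.inr (le_refl _))) hc hn
      simp only [mul_inv_cancel_right] at this
      exact hjJ (c, n) this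
    obtain ⟨k, hk, e⟩ := List.getElem_of_mem (Finset.mem_toList.2 hmem)
    exact ⟨n, k, by rw [List.getD_eq_getElem _ _ hk, e]⟩
  refine ⟨fun g => col ((Γ (if ν g % 2 = 0 then g else g⁻¹)).toList.getD (ν g / 2) 1),
    fun c => ⟨Set.image2 (fun b n => b * j (c, n)) (B : Set G) Set.univ ∪
      Set.image2 (fun b n => (j (c, n))⁻¹ * b) (B : Set G) Set.univ,
      (hBc.image2 Set.countable_univ _).union (hBc.image2 Set.countable_univ _),
      fun g => ?_, fun g => ?_⟩⟩
  · obtain ⟨n, k, hk⟩ := hjump c g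
    obtain ⟨E, hE, e1, -⟩ := hν (2 * k)
    obtain ⟨u, hu, e⟩ := e1 (j (c, n) * g)
    refine ⟨u * j (c, n), Or.inl ⟨u, hE u hu, n, trivial, rfl⟩, ?_⟩
    have a1 : 2 * k % 2 = 0 := by omega
    have a2 : 2 * k / 2 = k := by omega
    simp only [mul_assoc, e, a1, a2, if_true, hΓB u (hE u hu), hk, hcol]
  · obtain ⟨n, k, hk⟩ := hjump c g⁻¹
    obtain ⟨E, hE, -, e1⟩ := hν (2 * k + 1)
    obtain ⟨u, hu, e⟩ := e1 (g * (j (c, n))⁻¹)
    refine ⟨(j (c, n))⁻¹ * u, Or.inr ⟨u, hE u hu, n, trivial, rfl⟩, ?_⟩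
    have a1 : ¬ (2 * k + 1) % 2 = 0 := by omega
    have a2 : (2 * k + 1) / 2 = k := by omega
    simp only [← mul_assoc, e, a1, a2, if_false]
    simp only [mul_inv_rev, inv_inv, hΓB u⁻¹ (inv_mem (hE u hu)), hk, hcol]

open scoped Pointwise in
theorem partition_of_colour {G : Type u} [Group G] {C : Type u} (χ : G → C) (κ : Cardinal.{u})
    (h : ∀ c, ∃ F : Set G, #F < κ ∧ (∀ g, ∃ f ∈ F, χ (f * g) = c) ∧
      (∀ g, ∃ f ∈ F, χ (g * f) = c)) :
    ∃ P : Set (Set G), Setoid.IsPartition P ∧ #P = #C ∧ ∀ A ∈ P,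
      (∃ F : Set G, #F < κ ∧ F * A = Set.univ) ∧ (∃ F : Set G, #F < κ ∧ A * F = Set.univ) := by
  have hs : ∀ c, ∃ g, χ g = c := fun c => by
    obtain ⟨F, -, h1, -⟩ := h c
    obtain ⟨f, -, hf⟩ := h1 1
    exact ⟨_, hf⟩
  refine ⟨Set.range fun c => {g | χ g = c}, ⟨?_, fun a => ?_⟩, ?_, ?_⟩
  · rintro ⟨c, hc⟩
    obtain ⟨g, hg⟩ := hs c
    exact (Set.ext_iff.1 hc g).1 hg
  · refine ⟨{g | χ g = χ a}, ⟨⟨_, rfl⟩, rfl⟩, ?_⟩
    rintro _ ⟨⟨c, rfl⟩, hc⟩
    simp only [Set.mem_setOf_eq] at hc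
    rw [hc]
  · apply mk_range_eq
    intro a b hab
    obtain ⟨g, hg⟩ := hs a
    exact hg.symm.trans ((Set.ext_iff.1 hab g).1 hg)
  · rintro _ ⟨c, rfl⟩
    obtain ⟨F, hF, h1, h2⟩ := h c
    have hF' : #((fun x => x⁻¹) '' F) < κ := mk_image_le.trans_lt hF
    refine ⟨⟨_, hF', Set.eq_univ_of_forall fun g => ?_⟩, ⟨_, hF', Set.eq_univ_of_forall fun g => ?_⟩⟩
    · obtain ⟨f, hf, e⟩ := h1 g
      exact ⟨f⁻¹, ⟨f, hf, rfl⟩, f * g, e, by simp⟩
    · obtain ⟨f, hf, e⟩ := h2 g
      exact ⟨g * f, e, f⁻¹, ⟨f, hf, rfl⟩, by simp⟩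

open scoped Pointwise in
theorem large_partition (G : Type u) [Group G] [Infinite G] (κ : Cardinal.{u}) (h0 : ℵ₀ ≤ κ)
    (h1 : κ ≤ #G) :
    ∃ P : Set (Set G), Setoid.IsPartition P ∧ #P = κ ∧ ∀ A ∈ P,
      (∃ F : Set G, #F < min κ ℵ₁ ∧ F * A = Set.univ) ∧
        (∃ F : Set G, #F < min κ ℵ₁ ∧ A * F = Set.univ) := by
  have hne : Nonempty κ.out := by
    rw [← mk_ne_zero_iff, mk_out]
    exact (aleph0_pos.trans_le h0).ne'
  rcases h0.eq_or_lt with h | h
  · have : Countable κ.out := by rw [← mk_le_aleph0_iff, mk_out, h]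
    obtain ⟨χ, hχ⟩ := colour0 (G := G) κ.out
    have := partition_of_colour χ (min κ ℵ₁) fun c => by
      obtain ⟨F, hF, a⟩ := hχ c
      refine ⟨F, ?_, a⟩
      have := lt_aleph0_iff_set_finite.2 hF
      exact lt_min (h ▸ this) (this.trans aleph0_lt_aleph_one)
    rwa [mk_out] at this
  · obtain ⟨χ, hχ⟩ := colour1 (h.trans_le h1) κ.out (by rwa [mk_out])
    have := partition_of_colour χ (min κ ℵ₁) fun c => by
      obtain ⟨F, hF, a⟩ := hχ c
      refine ⟨F, ?_, a⟩
      have := le_aleph0_iff_set_countable.2 hF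
      exact lt_min (this.trans_lt h) (this.trans_lt aleph0_lt_aleph_one)
    rwa [mk_out] at this

end Pool.Agent.H66.Gam
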