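import Mathlib
import Pool.Agent.H66.Gam1

set_option autoImplicit false

namespace Pool.Agent.H66.Gam

open Classical Cardinal

universe u v

theorem sym_colour {G : Type u} [Group G] {I : Type v} (Γ : G → Finset I) (z : I → ℕ) :
    ∃ f : G → ℕ, (∀ g, f g⁻¹ = f g) ∧ ∀ y, ∀ i ∈ Γ y, f y ≠ z i := by
  refine ⟨fun g => max ((Γ g).sup z) ((Γ g⁻¹).sup z) + 1, fun g => by simp [max_comm],
    fun y i hi => ?_⟩
  have h1 : z i ≤ (Γ y).sup z := Finset.le_sup hi
  have h2 := le_max_left ((Γ y).sup z) ((Γ y⁻¹).sup z)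
  simp only
  omega

theorem caseA {G : Type u} [Group G] [LinearOrder G] [WellFoundedLT G] (hG : ℵ₀ < #G)
    (ho : ∀ i : G, #(Set.Iio i) < #G) :
    ∃ f : G → ℕ, (∀ g, f g⁻¹ = f g) ∧ ∀ (n : ℕ) (β : G), ∃ i : G, ∀ g, ∃ k ∈ ({1, i} : Set G),
      ∀ x < β, f (x * k * g) ≠ n := by
  let K : G → Subgroup G := fun i => Subgroup.closure (∅ ∪ Set.Iio i)
  let H : G → Subgroup G := fun i => Subgroup.closure (∅ ∪ Set.Iic i)
  obtain ⟨Γ, h1, h2⟩ := gamma K H
    (fun i => Subgroup.closure_mono (Set.union_subset_union_right _ Set.Iio_subset_Iic_self))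
    (fun i j hij => Subgroup.closure_mono (Set.union_subset_union_right _
      (Set.Iic_subset_Iio.2 hij)))
  have hJ := jumps_card hG ∅ Set.countable_empty
  obtain ⟨j, hj, hjJ⟩ := exists_inj_prod (C := G) _ (hJ ▸ hG.le) hJ.ge
  let z : G → ℕ := fun i => if h : ∃ p, j p = i then h.choose.2 else 0
  have hz : ∀ p, z (j p) = p.2 := by
    intro p
    have h : ∃ q, j q = j p := ⟨p, rfl⟩
    simp only [z, dif_pos h]
    rw [hj h.choose_spec]
  obtain ⟨f, hf1, hf2⟩ := sym_colour Γ z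
  refine ⟨f, hf1, fun n β => ?_⟩
  obtain ⟨c, hc⟩ : ∃ c, β ≤ j (c, n) := by
    by_contra hc
    push Not at hc
    have : #G ≤ #(Set.Iio β) := mk_le_of_injective (f := fun c => ⟨j (c, n), hc c⟩)
      fun a b h => by simpa using hj (Subtype.ext_iff.1 h)
    exact absurd (ho β) (not_lt.2 this)
  refine ⟨j (c, n), fun g => ?_⟩
  have key : ∀ k, j (c, n) ∈ Γ (k * g) → ∀ x < β, f (x * k * g) ≠ n := by
    intro k hk x hx
    have := hf2 (x * k * g) (j (c, n)) (by
      rw [mul_assoc, h1 _ x (Subgroup.subset_closure (Or.inr (hx.trans_le hc)))]; exact hk)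
    rwa [hz] at this
  by_cases hm : j (c, n) ∈ Γ g
  · exact ⟨1, by simp, key 1 (by simpa using hm)⟩
  · refine ⟨j (c, n), by simp, key _ ?_⟩
    by_contra hc
    have := h2 _ _ _ (by
      simp only [mul_inv_cancel_right]
      exact Subgroup.subset_closure (Or.inr (le_refl _))) hc hm
    simp only [mul_inv_cancel_right] at this
    exact hjJ (c, n) this

theorem mk_low_le {α : Type u} [LinearOrder α] [WellFoundedLT α] (θ : Cardinal.{u}) :
    #{x : α | #(Set.Iio x) < θ} ≤ θ := by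
  by_contra hc
  push Not at hc
  set S := {x : α | #(Set.Iio x) < θ} with hS
  have h1 : ord θ < Ordinal.type (α := S) (· < ·) := by
    by_contra h
    have := Ordinal.card_le_card (not_lt.1 h)
    rw [Ordinal.card_type, card_ord] at this
    exact absurd hc (not_lt.2 this)
  obtain ⟨s, hs⟩ := Ordinal.typein_surj _ h1
  have h2 := congrArg Ordinal.card hs
  rw [card_ord] at h2
  have h3 : #{y : S // y < s} = θ := h2
  have h4 : #{y : S // y < s} ≤ #(Set.Iio (s : α)) :=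
    mk_le_of_injective (f := fun y => ⟨y.1.1, y.2⟩) fun a b h => by
      simpa [Subtype.ext_iff] using h
  have h5 : #(Set.Iio (s : α)) < θ := s.2
  exact absurd h5 (not_lt.2 (h3 ▸ h4))

theorem lt_mk_low {α : Type u} [LinearOrder α] [WellFoundedLT α] (θ : Cardinal.{u})
    (h : θ < #α) : θ < #{x : α | #(Set.Iio x) < Order.succ θ} := by
  by_contra hc
  push Not at hc
  set S := {x : α | #(Set.Iio x) < Order.succ θ} with hS
  have hne : (Sᶜ).Nonempty := by
    rw [Set.nonempty_compl]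
    intro hu
    rw [hu, mk_univ] at hc
    exact absurd h (not_lt.2 hc)
  have h1 := wellFounded_lt.min_mem _ hne
  apply h1
  show #(Set.Iio _) < Order.succ θ
  rw [Order.lt_succ_iff]
  refine le_trans (mk_le_mk_of_subset fun y hy => ?_) hc
  by_contra hy'
  exact wellFounded_lt.not_lt_min _ hy' hy

theorem exists_height : ∃ z : Cardinal.{u} → ℕ, ∀ θ n, ∃ m, z (Order.succ^[m] θ) = n := by
  let h : Cardinal.{u} → ℕ := fun θ =>
    SuccOrder.prelimitRecOn (motive := fun _ => ℕ) θ (fun _ _ k => k + 1) (fun _ _ _ => 0)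
  have h1 : ∀ θ, h (Order.succ θ) = h θ + 1 := fun θ => SuccOrder.prelimitRecOn_succ _ _ _
  have h2 : ∀ m θ, h (Order.succ^[m] θ) = h θ + m := by
    intro m θ
    induction m with
    | zero => rfl
    | succ m ih => rw [Function.iterate_succ_apply', h1, ih, add_assoc]
  refine ⟨fun θ => (h θ).unpair.1, fun θ n => ⟨Nat.pair n (h θ) - h θ, ?_⟩⟩
  have := Nat.right_le_pair n (h θ)
  simp only [h2]
  rw [Nat.add_sub_cancel' this, Nat.unpair_pair]

theorem caseB {G : Type u} [Group G] [LinearOrder G] [WellFoundedLT G] (hG : ℵ₀ < #G)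
    (ho : ∀ i : G, #(Set.Iio i) < #G) (C : Set G) (hC : #C < #G) (hCu : ∀ g, ∃ c ∈ C, g ≤ c) :
    ∃ f : G → ℕ, (∀ g, f g⁻¹ = f g) ∧ ∀ (n : ℕ) (F : Set G), #F < #G →
      ∃ K : Set G, #K < #G ∧ ∀ g, ∃ k ∈ K, ∀ x ∈ F, f (x * k * g) ≠ n := by
  have hlim : ∀ θ < #G, Order.succ θ < #G := by
    intro θ hθ
    by_contra hc
    push Not at hc
    have hθ0 : ℵ₀ ≤ θ := Order.lt_succ_iff.1 (hG.trans_le hc)
    have h1 : (Set.univ : Set G) ⊆ C ∪ ⋃ c ∈ C, Set.Iio c := by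
      intro g _
      obtain ⟨c, hc, hg⟩ := hCu g
      rcases hg.eq_or_lt with rfl | hg
      · exact Or.inl hc
      · exact Or.inr (Set.mem_biUnion hc hg)
    have h2 : #C ≤ θ := Order.lt_succ_iff.1 (hC.trans_le hc)
    have h3 : #(⋃ c ∈ C, Set.Iio c) ≤ θ := by
      refine (mk_biUnion_le _ _).trans ((mul_le_mul' h2 (ciSup_le' fun c => ?_)).trans
        (mul_eq_self hθ0).le)
      exact Order.lt_succ_iff.1 ((ho _).trans_le hc)
    have h4 := (mk_le_mk_of_subset h1).trans ((mk_union_le _ _).trans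
      ((add_le_add h2 h3).trans (add_eq_self hθ0).le))
    rw [mk_univ] at h4
    exact absurd hθ (not_lt.2 h4)
  have hlim' : ∀ m, ∀ θ < #G, Order.succ^[m] θ < #G := by
    intro m θ hθ
    induction m with
    | zero => exact hθ
    | succ m ih => rw [Function.iterate_succ_apply']; exact hlim _ ih
  let K : Cardinal.{u} → Subgroup G := fun θ => Subgroup.closure {x : G | #(Set.Iio x) < θ}
  let H : Cardinal.{u} → Subgroup G := fun θ => K (Order.succ θ)
  have hKm : ∀ a b, a ≤ b → K a ≤ K b := fun a b h =>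
    Subgroup.closure_mono fun x hx => lt_of_lt_of_le hx h
  obtain ⟨Γ, h1, h2⟩ := gamma K H (fun θ => hKm _ _ (Order.le_succ θ))
    (fun a b h => hKm _ _ (Order.succ_le_of_lt h))
  obtain ⟨z, hz⟩ := exists_height.{u}
  obtain ⟨f, hf1, hf2⟩ := sym_colour Γ z
  refine ⟨f, hf1, fun n F hF => ?_⟩
  have key : ∀ c : G, ∃ k : G, ∀ g ≤ c, ∀ x ∈ F, f (x * k * g) ≠ n := by
    intro c
    obtain ⟨m, hm⟩ := hz (max (max ℵ₀ #F) (Order.succ #(Set.Iio c))) n
    set θ := Order.succ^[m] (max (max ℵ₀ #F) (Order.succ #(Set.Iio c))) with hθ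
    have hle : max (max ℵ₀ #F) (Order.succ #(Set.Iio c)) ≤ θ := Order.le_succ_iterate _ _
    have hθ0 : ℵ₀ ≤ θ := ((le_max_left _ _).trans (le_max_left _ _)).trans hle
    have hθF : #F ≤ θ := ((le_max_right _ _).trans (le_max_left _ _)).trans hle
    have hθc : #(Set.Iio c) < θ := (Order.lt_succ _).trans_le ((le_max_right _ _).trans hle)
    have hθG : θ < #G := hlim' _ _ (max_lt (max_lt hG hF) (hlim _ (ho c)))
    have hKc : #(K θ) ≤ θ := (mk_closure_le _).trans (max_le (mk_low_le θ) hθ0)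
    have hHc : θ < #(H θ : Set G) :=
      (lt_mk_low θ hθG).trans_le (mk_le_mk_of_subset Subgroup.subset_closure)
    have hbad : ∀ x : G, #{k : G | k ∈ H θ ∧ θ ∉ Γ (k⁻¹ * x⁻¹)} ≤ θ := by
      intro x
      rcases Set.eq_empty_or_nonempty {k : G | k ∈ H θ ∧ θ ∉ Γ (k⁻¹ * x⁻¹)} with he | ⟨k₀, hk₀⟩
      · rw [he]; simp
      · refine le_trans (mk_le_of_injective (f := fun k => (⟨k.1⁻¹ * k₀, ?_⟩ : K θ)) ?_) hKc
        · have := h2 θ _ _ (by
            simpa [mul_assoc] using mul_mem (inv_mem k.2.1) hk₀.1) k.2.2 hk₀.2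
          simpa [mul_assoc] using this
        · intro a b h
          simpa [Subtype.ext_iff] using h
    obtain ⟨k, hkH, hk⟩ : ∃ k ∈ H θ, ∀ x ∈ F, θ ∈ Γ (k⁻¹ * x⁻¹) := by
      by_contra hc
      push Not at hc
      have hsub : (H θ : Set G) ⊆ ⋃ x ∈ F, {k : G | k ∈ H θ ∧ θ ∉ Γ (k⁻¹ * x⁻¹)} := by
        intro k hk
        obtain ⟨x, hx, hx'⟩ := hc k hk
        exact Set.mem_biUnion hx ⟨hk, hx'⟩
      have := (mk_le_mk_of_subset hsub).trans ((mk_biUnion_le _ _).trans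
        ((mul_le_mul' hθF (ciSup_le' fun x : F => hbad x.1)).trans (mul_eq_self hθ0).le))
      exact absurd hHc (not_lt.2 this)
    refine ⟨k, fun g hg x hx => ?_⟩
    have hgK : g ∈ K θ := Subgroup.subset_closure
      ((mk_le_mk_of_subset (Set.Iio_subset_Iio hg)).trans_lt hθc)
    rw [← hf1, ← hm]
    apply hf2
    rw [mul_inv_rev, mul_inv_rev, h1 _ _ (inv_mem hgK)]
    exact hk x hx
  choose k hk using key
  refine ⟨k '' C, mk_image_le.trans_lt hC, fun g => ?_⟩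
  obtain ⟨c, hc, hg⟩ := hCu g
  exact ⟨k c, ⟨c, hc, rfl⟩, hk c g hg⟩

theorem caseC {G : Type u} [Group G] [Infinite G] (f : G → ℕ) (hf : ∀ n, {g | f g = n}.Finite)
    (n : ℕ) (F : Set G) (hF : F.Finite) :
    ∃ K : Set G, K.Finite ∧ ∀ g, ∃ k ∈ K, ∀ x ∈ F, f (x * k * g) ≠ n := by
  obtain ⟨K, hK⟩ := Infinite.exists_subset_card_eq G
    ((hF.toFinset ×ˢ (hf n).toFinset).card + 1)
  refine ⟨K, K.finite_toSet, fun g => ?_⟩
  obtain ⟨k, hk, hk'⟩ := Finset.exists_mem_notMem_of_card_lt_card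
    (s := (hF.toFinset ×ˢ (hf n).toFinset).image fun p => p.1⁻¹ * p.2 * g⁻¹) (t := K)
    (by rw [hK]; exact Nat.lt_succ_of_le Finset.card_image_le)
  refine ⟨k, hk, fun x hx h => hk' (Finset.mem_image.2 ⟨(x, x * k * g), ?_, ?_⟩)⟩
  · simp [hx, h]
  · simp [mul_assoc]

theorem exists_sym_finite {G : Type u} [Group G] [Countable G] :
    ∃ f : G → ℕ, (∀ g, f g⁻¹ = f g) ∧ ∀ n, {g | f g = n}.Finite := by
  obtain ⟨e, he⟩ := exists_injective_nat G
  refine ⟨fun g => max (e g) (e g⁻¹), fun g => by simp [max_comm], fun n => ?_⟩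
  refine ((Set.finite_Iic n).preimage he.injOn).subset fun g hg => ?_
  simp only [Set.mem_setOf_eq] at hg
  simp only [Set.mem_preimage, Set.mem_Iic]
  omega

theorem small_colour (G : Type u) [Group G] [Infinite G] :
    ∃ f : G → ℕ, (∀ g, f g⁻¹ = f g) ∧ ∀ (n : ℕ) (F : Set G), #F < #G →
      ∃ K : Set G, #K < #G ∧ ∀ g, ∃ k ∈ K, ∀ x ∈ F, f (x * k * g) ≠ n := by
  rcases (aleph0_le_mk G).eq_or_lt with hG | hG
  · have : Countable G := mk_le_aleph0_iff.1 hG.ge
    obtain ⟨f, h1, h2⟩ := exists_sym_finite (G := G)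
    refine ⟨f, h1, fun n F hF => ?_⟩
    rw [← hG] at hF ⊢
    obtain ⟨K, hK, h⟩ := caseC f h2 n F (lt_aleph0_iff_set_finite.1 hF)
    exact ⟨K, lt_aleph0_iff_set_finite.2 hK, h⟩
  · obtain ⟨_, _, ho⟩ := exists_ord_eq_type_lt G
    have ho' : ∀ i : G, #(Set.Iio i) < #G := fun i => mk_Iio_lt i ho
    by_cases hb : ∀ F : Set G, #F < #G → ∃ β, ∀ x ∈ F, x < β
    · obtain ⟨f, h1, h2⟩ := caseA hG ho'
      refine ⟨f, h1, fun n F hF => ?_⟩
      obtain ⟨β, hβ⟩ := hb F hF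
      obtain ⟨i, hi⟩ := h2 n β
      refine ⟨{1, i}, (lt_aleph0_iff_set_finite.2 (Set.toFinite _)).trans hG, fun g => ?_⟩
      obtain ⟨k, hk, h⟩ := hi g
      exact ⟨k, hk, fun x hx => h x (hβ x hx)⟩
    · push Not at hb
      obtain ⟨C, hC, hCu⟩ := hb
      exact caseB hG ho' C hC hCu

theorem small_colour_fin (G : Type u) [Group G] [Infinite G] :
    ∃ f : G → ℕ, ∀ (n : ℕ) (F : Set G), F.Finite →
      ∃ K : Set G, K.Finite ∧ ∀ g, ∃ k ∈ K, ∀ x ∈ F, f (x * k * g) ≠ n := by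
  rcases (aleph0_le_mk G).eq_or_lt with hG | hG
  · have : Countable G := mk_le_aleph0_iff.1 hG.ge
    obtain ⟨f, h1, h2⟩ := exists_sym_finite (G := G)
    exact ⟨f, fun n F hF => caseC f h2 n F hF⟩
  · obtain ⟨_, _, ho⟩ := exists_ord_eq_type_lt G
    have ho' : ∀ i : G, #(Set.Iio i) < #G := fun i => mk_Iio_lt i ho
    obtain ⟨f, -, h2⟩ := caseA hG ho'
    refine ⟨f, fun n F hF => ?_⟩
    obtain ⟨β, hβ⟩ : ∃ β, ∀ x ∈ F, x < β := by
      by_contra hc
      push Not at hc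
      obtain ⟨b, hb⟩ := hF.bddAbove
      have h1 : (Set.univ : Set G) ⊆ {b} ∪ Set.Iio b := by
        intro g _
        obtain ⟨x, hx, hg⟩ := hc g
        exact (hg.trans (hb hx)).eq_or_lt
      have h2 := (mk_le_mk_of_subset h1).trans (mk_union_le _ _)
      rw [mk_univ] at h2
      exact absurd (add_lt_of_lt hG.le
        ((lt_aleph0_iff_set_finite.2 (Set.finite_singleton b)).trans hG) (ho' b)) (not_lt.2 h2)
    obtain ⟨i, hi⟩ := h2 n β
    refine ⟨{1, i}, Set.toFinite _, fun g => ?_⟩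
    obtain ⟨k, hk, h⟩ := hi g
    exact ⟨k, hk, fun x hx => h x (hβ x hx)⟩

end Pool.Agent.H66.Gam
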