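import Mathlib
import Pool.Agent.H66.Gam2

set_option autoImplicit false

namespace Pool.Agent.H66.Gam

open Classical

universe u

def IsInvIdeal {G : Type u} [Group G] (I : Set (Set G)) : Prop :=
  ∅ ∈ I ∧ Set.univ ∉ I ∧ (∀ A ∈ I, ∀ B ⊆ A, B ∈ I) ∧ (∀ A ∈ I, ∀ B ∈ I, A ∪ B ∈ I) ∧
    ∀ A ∈ I, ∀ g : G, {x | g * x ∈ A} ∈ I

theorem recurrent (G : Type u) [Group G] : ∃ p : Ultrafilter G, ∀ A : Set G,
    (∃ g : G, {x | g * x ∈ A} ∈ p) →
      ∃ F : Set G, F.Finite ∧ ∀ g : G, ∃ f ∈ F, {x | f * g * x ∈ A} ∈ p := by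
  obtain ⟨I, -, hI⟩ := zorn_subset_nonempty {I : Set (Set G) | IsInvIdeal I}
    (fun c hc hch hne => by
      refine ⟨⋃₀ c, ⟨?_, ?_, ?_, ?_, ?_⟩, fun s hs => Set.subset_sUnion_of_mem hs⟩
      · obtain ⟨I, hI⟩ := hne
        exact ⟨I, hI, (hc hI).1⟩
      · rintro ⟨I, hI, h⟩
        exact (hc hI).2.1 h
      · rintro A ⟨I, hI, h⟩ B hB
        exact ⟨I, hI, (hc hI).2.2.1 A h B hB⟩
      · rintro A ⟨I, hI, h⟩ B ⟨J, hJ, h'⟩
        rcases hch.total hI hJ with hij | hij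
        · exact ⟨J, hJ, (hc hJ).2.2.2.1 A (hij h) B h'⟩
        · exact ⟨I, hI, (hc hI).2.2.2.1 A h B (hij h')⟩
      · rintro A ⟨I, hI, h⟩ g
        exact ⟨I, hI, (hc hI).2.2.2.2 A h g⟩)
    {∅} ⟨rfl, fun h => Set.univ_nonempty.ne_empty h, fun A hA B hB => by
      rw [Set.mem_singleton_iff] at hA; subst hA; exact Set.subset_empty_iff.1 hB,
      fun A hA B hB => by rw [Set.mem_singleton_iff] at hA hB; simp [hA, hB],
      fun A hA g => by rw [Set.mem_singleton_iff] at hA; simp [hA]⟩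
  obtain ⟨i0, i1, i2, i3, i4⟩ := hI.prop
  let Φ : Filter G :=
    { sets := {A | Aᶜ ∈ I}
      univ_sets := by simpa using i0
      sets_of_superset := fun hA h => i2 _ hA _ (Set.compl_subset_compl.2 h)
      inter_sets := fun hA hB => by
        simp only [Set.mem_setOf_eq, Set.compl_inter]; exact i3 _ hA _ hB }
  have hΦ : Φ.NeBot := by
    rw [Filter.neBot_iff, Ne, ← Filter.empty_mem_iff_bot]
    intro h
    exact i1 (by simpa using (show (∅ : Set G)ᶜ ∈ I from h))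
  refine ⟨Ultrafilter.of Φ, fun A ⟨g₀, hg₀⟩ => ?_⟩
  have hp : ∀ B ∈ I, B ∉ Ultrafilter.of Φ := fun B hB =>
    Ultrafilter.compl_mem_iff_notMem.1 (Ultrafilter.of_le Φ (show Bᶜᶜ ∈ I by simpa using hB))
  have hA : A ∉ I := fun h => hp _ (i4 A h g₀) hg₀
  let I' : Set (Set G) := {B | ∃ F : Set G, F.Finite ∧ ∃ J ∈ I, ∀ x ∈ B, x ∈ J ∨ ∃ f ∈ F, f * x ∈ A}
  have hsub : I ⊆ I' := fun B hB => ⟨∅, Set.finite_empty, B, hB, fun x hx => Or.inl hx⟩
  have huniv : Set.univ ∈ I' := by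
    by_contra hc
    have h1 : IsInvIdeal I' := by
      refine ⟨hsub i0, hc, ?_, ?_, ?_⟩
      · rintro B ⟨F, hF, J, hJ, h⟩ B' hB'
        exact ⟨F, hF, J, hJ, fun x hx => h x (hB' hx)⟩
      · rintro B ⟨F, hF, J, hJ, h⟩ B' ⟨F', hF', J', hJ', h'⟩
        refine ⟨F ∪ F', hF.union hF', J ∪ J', i3 _ hJ _ hJ', ?_⟩
        rintro x (hx | hx)
        · rcases h x hx with h | ⟨f, hf, h⟩
          · exact Or.inl (Or.inl h)
          · exact Or.inr ⟨f, Or.inl hf, h⟩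
        · rcases h' x hx with h | ⟨f, hf, h⟩
          · exact Or.inl (Or.inr h)
          · exact Or.inr ⟨f, Or.inr hf, h⟩
      · rintro B ⟨F, hF, J, hJ, h⟩ g
        refine ⟨(· * g) '' F, hF.image _, _, i4 J hJ g, fun x hx => ?_⟩
        rcases h _ hx with h | ⟨f, hf, h⟩
        · exact Or.inl h
        · exact Or.inr ⟨f * g, ⟨f, hf, rfl⟩, by rwa [mul_assoc]⟩
    exact hA (hI.le_of_ge h1 hsub ⟨{1}, Set.finite_singleton _, ∅, i0,
      fun x hx => Or.inr ⟨1, rfl, by simpa using hx⟩⟩)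
  obtain ⟨F, hF, J, hJ, h⟩ := huniv
  refine ⟨F, hF, fun g => ?_⟩
  rw [← Ultrafilter.finite_biUnion_mem_iff hF]
  have h1 := Ultrafilter.compl_mem_iff_notMem.2 (hp _ (i4 J hJ g))
  refine Filter.mem_of_superset h1 fun x hx => ?_
  rcases h (g * x) trivial with h | ⟨f, hf, h⟩
  · exact absurd h hx
  · exact Set.mem_biUnion hf (by simpa [mul_assoc] using h)

theorem countable_mul_small (G : Type u) [Group G] [Infinite G] :
    ∃ C S : Set G, C.Countable ∧ (∀ g, ∃ c ∈ C, c * g ∈ S) ∧ ∀ F : Set G, F.Finite →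
      ∃ K : Set G, K.Finite ∧ ∀ g, ∃ k ∈ K, ∀ x ∈ F, x * k * g ∉ S := by
  obtain ⟨f, hf⟩ := small_colour_fin G
  obtain ⟨p, hp⟩ := recurrent G
  obtain ⟨ν, hν⟩ := nu (⊤ : Subgroup G) (by simpa using Set.infinite_univ)
  have hL : ∀ k, ∃ F : Set G, F.Finite ∧ ∀ g : G, ∃ f ∈ F, {x | ν (f * g * x) = k} ∈ p := by
    intro k
    apply hp {x | ν x = k}
    obtain ⟨E, -, h1, -⟩ := hν k
    have : (⋃ u ∈ (E : Set G), {x | ν (u * x) = k}) ∈ p :=
      Filter.mem_of_superset Filter.univ_mem fun x _ => by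
        obtain ⟨u, hu, h⟩ := h1 x
        exact Set.mem_biUnion hu h
    obtain ⟨u, -, hu⟩ := (Ultrafilter.finite_biUnion_mem_iff E.finite_toSet).1 this
    exact ⟨u, hu⟩
  choose Fk hFk hFk' using hL
  refine ⟨⋃ k, Fk k, {s | ∃ k, {x | ν (s * x) = k} ∈ p ∧ ∃ y ∈ Fk k, f (y⁻¹ * s) = k},
    Set.countable_iUnion fun k => (hFk k).countable, fun g => ?_, fun F hF => ?_⟩
  · obtain ⟨y, hy, h⟩ := hFk' (f g) g
    exact ⟨y, Set.mem_iUnion.2 ⟨_, hy⟩, f g, h, y, hy, by simp⟩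
  · have stepa : ∃ (m : ℕ) (B : Set G), (∃ g : G, {x | g * x ∈ B} ∈ p) ∧
        ∀ g : G, {x | g * x ∈ B} ∈ p → ∀ y ∈ F, ∀ n, m ≤ n → {x | ν (y * g * x) = n} ∉ p := by
      induction F, hF using Set.Finite.induction_on with
      | empty => exact ⟨0, Set.univ, ⟨1, Filter.univ_mem⟩, by simp⟩
      | @insert y F _ _ ih =>
        obtain ⟨m, B, hB, h⟩ := ih
        by_cases hc : ∃ g : G, {x | g * x ∈ B} ∈ p ∧ ∃ n, {x | ν (y * g * x) = n} ∈ p
        · obtain ⟨g₀, h0, n₀, h1⟩ := hc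
          refine ⟨max m (n₀ + 1), B ∩ {x | ν (y * x) = n₀}, ⟨g₀, ?_⟩, fun g hg z hz n hn => ?_⟩
          · filter_upwards [h0, h1] with x hx hx'
            exact ⟨hx, by simpa [mul_assoc] using hx'⟩
          · rcases hz with rfl | hz
            · intro h2
              have h3 : (∅ : Set G) ∈ p := by
                filter_upwards [hg, h2] with x hx hx'
                have h4 : ν (z * (g * x)) = n₀ := hx.2
                rw [mul_assoc] at hx'
                have := le_max_right m (n₀ + 1)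
                omega
              exact p.empty_notMem h3
            · exact h g (Filter.mem_of_superset hg fun x hx => hx.1) z hz n
                ((le_max_left _ _).trans hn)
        · push Not at hc
          refine ⟨m, B, hB, fun g hg z hz n hn => ?_⟩
          rcases hz with rfl | hz
          · exact hc g hg n
          · exact h g hg z hz n hn
    obtain ⟨m, B, hB, hm⟩ := stepa
    have stepc : ∀ j : ℕ, ∃ K : Set G, K.Finite ∧ ∀ g, ∃ k ∈ K, {x | k * g * x ∈ B} ∈ p ∧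
        ∀ n < j, ∀ x ∈ F, ∀ y ∈ Fk n, f (y⁻¹ * (x * (k * g))) ≠ n := by
      intro j
      induction j with
      | zero =>
        obtain ⟨K, hK, h⟩ := hp B hB
        refine ⟨K, hK, fun g => ?_⟩
        obtain ⟨k, hk, h⟩ := h g
        exact ⟨k, hk, h, by simp⟩
      | succ j ih =>
        obtain ⟨K, hK, h⟩ := ih
        obtain ⟨K', hK', h'⟩ := hf j
          (Set.image2 (fun a k => a * k) (Set.image2 (fun y x => y⁻¹ * x) (Fk j) F) K)
          (((hFk j).image2 _ hF).image2 _ hK)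
        refine ⟨Set.image2 (fun a b => a * b) K K', hK.image2 _ hK', fun g => ?_⟩
        obtain ⟨k', hk', h'⟩ := h' g
        obtain ⟨k, hk, h1, h2⟩ := h (k' * g)
        refine ⟨k * k', ⟨k, hk, k', hk', rfl⟩, by rwa [mul_assoc k k' g], fun n hn x hx y hy => ?_⟩
        rcases Nat.lt_succ_iff_lt_or_eq.1 hn with hn | rfl
        · rw [mul_assoc k k' g]; exact h2 n hn x hx y hy
        · have := h' (y⁻¹ * x * k) ⟨_, ⟨y, hy, x, hx, rfl⟩, k, hk, rfl⟩
          simpa [mul_assoc] using this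
    obtain ⟨K, hK, h⟩ := stepc m
    refine ⟨K, hK, fun g => ?_⟩
    obtain ⟨k, hk, h1, h2⟩ := h g
    refine ⟨k, hk, fun x hx => ?_⟩
    rintro ⟨n, h3, y, hy, h4⟩
    rcases lt_or_ge n m with hn | hn
    · exact h2 n hn x hx y hy (by rwa [mul_assoc x k g] at h4)
    · exact hm (k * g) h1 x hx n hn (by rwa [mul_assoc x k g] at h3)

end Pool.Agent.H66.Gam
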