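import Mathlib
import Pool.Agent.H66.Chv

set_option autoImplicit false

namespace Pool.Agent.H66.Glue

open Pool.Agent.H66.Chv

theorem mem_closure_range {e : ℕ} (n : Fin e → ℕ) (s : ℕ) :
    s ∈ AddSubmonoid.closure (Set.range n) ↔ ∃ u : Fin e → ℕ, ∑ i, u i * n i = s := by
  simpa [eq_comm] using AddSubmonoid.mem_closure_range_iff_of_fintype (f := n) (x := s)

structure Good (S : AddSubmonoid ℕ) : Prop where
  cof : ∃ N, ∀ x, N ≤ x → x ∈ S
  pres : ∃ (e : ℕ) (n : Fin (e + 1) → ℕ)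
    (σ : Finset ((Fin (e + 1) → ℕ) × (Fin (e + 1) → ℕ))),
    AddSubmonoid.closure (Set.range n) = S ∧ Function.Injective n ∧ (∀ i, n i ≠ 0) ∧
    (∀ i, ∀ x ∈ S, ∀ y ∈ S, x + y = n i → x = 0 ∨ y = 0) ∧ σ.card ≤ e ∧
    ∀ a b, addConGen (fun a b => (a, b) ∈ σ) a b ↔ ∑ i, a i * n i = ∑ i, b i * n i

theorem good_top : Good ⊤ := by
  refine ⟨⟨0, fun _ _ => trivial⟩, 0, fun _ => 1, ∅, ?_, fun _ _ _ => Subsingleton.elim (α := Fin 1) _ _,
    by simp, fun _ x _ y _ h => by simp only at h; omega, by simp, fun a b => ⟨fun h => ?_, fun h => ?_⟩⟩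
  · rw [eq_top_iff]
    intro x _
    exact (mem_closure_range _ _).2 ⟨fun _ => x, by simp⟩
  · have : addConGen (fun a b => (a, b) ∈ (∅ : Finset ((Fin 1 → ℕ) × (Fin 1 → ℕ)))) ≤ ⊥ :=
      AddCon.addConGen_le.2 fun _ _ h => by simp at h
    have h1 : a = b := this h
    rw [h1]
  · have : a = b := by
      ext i
      rw [Subsingleton.elim (α := Fin 1) i 0]
      simpa using h
    rw [this]
    exact AddCon.refl _ _

def glue (S : AddSubmonoid ℕ) (q b : ℕ) : AddSubmonoid ℕ where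
  carrier := {y | ∃ s ∈ S, ∃ j, y = q * s + j * b}
  add_mem' := by
    rintro _ _ ⟨s, hs, j, rfl⟩ ⟨s', hs', j', rfl⟩
    exact ⟨s + s', add_mem hs hs', j + j', by ring⟩
  zero_mem' := ⟨0, zero_mem _, 0, by simp⟩

def Dec (S : AddSubmonoid ℕ) (b : ℕ) : Prop :=
  ∃ x ∈ S, ∃ y ∈ S, x ≠ 0 ∧ y ≠ 0 ∧ x + y = b

theorem Dec.mem {S : AddSubmonoid ℕ} {b : ℕ} (h : Dec S b) : b ∈ S := by
  obtain ⟨x, hx, y, hy, -, -, rfl⟩ := h
  exact add_mem hx hy

theorem Dec.pos {S : AddSubmonoid ℕ} {b : ℕ} (h : Dec S b) : 0 < b := by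
  obtain ⟨x, hx, y, hy, h, -, rfl⟩ := h
  omega

theorem mul_mem {S : AddSubmonoid ℕ} {b : ℕ} (h : b ∈ S) (t : ℕ) : t * b ∈ S := nsmul_mem h t

theorem good_glue {S : AddSubmonoid ℕ} (hS : Good S) {q b : ℕ} (hq : 2 ≤ q) (hb : Dec S b)
    (hc : Nat.Coprime q b) : Good (glue S q b) := by
  obtain ⟨⟨N, hN⟩, e, n, σ, hcl, hinj, hne, hirr, hcard, hσ⟩ := hS
  have hqb : ¬ q ∣ b := fun h => by
    have := Nat.Coprime.eq_one_of_dvd hc h
    omega
  have hbpos := hb.pos
  have hnS : ∀ i, n i ∈ S := fun i => hcl ▸ AddSubmonoid.subset_closure ⟨i, rfl⟩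
  constructor
  · refine ⟨q * N + q * b, fun y hy => ?_⟩
    obtain ⟨j, hj, h1⟩ := Nat.exists_mul_mod_eq_of_coprime y hc.symm (by omega)
    have h2 : j * b ≤ q * b := Nat.mul_le_mul_right _ hj.le
    obtain ⟨s, hs⟩ := (Nat.modEq_iff_dvd' (show b * j ≤ y by rw [mul_comm]; omega)).1 h1
    rw [mul_comm b j] at hs
    refine ⟨s, hN s ?_, j, by omega⟩
    exact Nat.le_of_mul_le_mul_left (show q * N ≤ q * s by omega) (by omega)
  classical
  obtain ⟨β, hβ⟩ := (mem_closure_range n b).1 (hcl ▸ hb.mem)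
  let ι : (Fin (e + 1) → ℕ) → (Fin (e + 1 + 1) → ℕ) := fun u => Fin.cons 0 u
  have hι : ∀ u v, ι (u + v) = ι u + ι v := fun u v => by
    ext i
    refine Fin.cases ?_ (fun i => ?_) i <;> simp [ι]
  have hsum : ∀ a : Fin (e + 1 + 1) → ℕ,
      ∑ i, a i * (Fin.cons b (fun i => q * n i) : Fin (e + 1 + 1) → ℕ) i =
        q * (∑ i, Fin.tail a i * n i) + a 0 * b := fun a => by
    rw [Fin.sum_univ_succ, Finset.mul_sum, add_comm]
    simp only [Fin.cons_zero, Fin.cons_succ, Fin.tail, mul_left_comm]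
  refine ⟨e + 1, Fin.cons b fun i => q * n i,
    insert (Fin.cons q 0, ι β) (σ.image fun p => (ι p.1, ι p.2)), ?_, ?_, ?_, ?_, ?_, ?_⟩
  · ext y
    rw [mem_closure_range]
    constructor
    · rintro ⟨a, rfl⟩
      exact ⟨_, hcl ▸ (mem_closure_range n _).2 ⟨_, rfl⟩, _, hsum a⟩
    · rintro ⟨s, hs, j, rfl⟩
      obtain ⟨u, rfl⟩ := (mem_closure_range n s).1 (hcl ▸ hs)
      exact ⟨Fin.cons j u, by rw [hsum]; simp⟩
  · rw [Fin.cons_injective_iff]
    refine ⟨?_, fun i j h => hinj (Nat.eq_of_mul_eq_mul_left (by omega) h)⟩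
    rintro ⟨i, hi⟩
    exact hqb ⟨_, hi.symm⟩
  · intro i
    refine Fin.cases (by simpa using hbpos.ne') (fun i => ?_) i
    simpa using ⟨by omega, hne i⟩
  · rintro i _ ⟨s, hs, j, rfl⟩ _ ⟨s', hs', j', rfl⟩
    refine Fin.cases (fun h => ?_) (fun i h => ?_) i
    · simp only [Fin.cons_zero] at h
      rcases j with _ | j
      · rcases j' with _ | j'
        · exact absurd ⟨s + s', by linarith⟩ hqb
        · left; nlinarith
      · right; nlinarith
    · simp only [Fin.cons_succ] at h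
      have h1 : q ∣ (j + j') * b := by
        have : q ∣ q * (s + s') + (j + j') * b := ⟨n i, by linarith⟩
        exact (Nat.dvd_add_right (dvd_mul_right _ _)).1 this
      obtain ⟨t, ht⟩ := hc.dvd_of_dvd_mul_right h1
      have h2 : s + s' + t * b = n i :=
        Nat.eq_of_mul_eq_mul_left (show 0 < q by omega) (by
          have : (j + j') * b = q * t * b := by rw [ht]
          linarith)
      rcases t with _ | t
      · obtain ⟨rfl, rfl⟩ : j = 0 ∧ j' = 0 := by omega
        rcases hirr i s hs s' hs' (by simpa using h2) with rfl | rfl <;> simp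
      · obtain ⟨x, hx, y, hy, hx0, hy0, e1⟩ := id hb
        have := hirr i (s + s' + t * b + x) (add_mem (add_mem (add_mem hs hs')
          (mul_mem hb.mem t)) hx) y hy (by linarith)
        omega
  · exact (Finset.card_insert_le _ _).trans (Nat.succ_le_succ (Finset.card_image_le.trans hcard))
  · set c' := addConGen (fun a b => (a, b) ∈
      insert (Fin.cons q 0, ι β) (σ.image fun p => (ι p.1, ι p.2))) with hc'
    have hl : ∀ u v, ∑ i, u i * n i = ∑ i, v i * n i → c' (ι u) (ι v) := by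
      intro u v h
      have : addConGen (fun a b => (a, b) ∈ σ) ≤ AddCon.comap ι hι c' :=
        AddCon.addConGen_le.2 fun x y hxy => AddConGen.Rel.of _ _
          (Finset.mem_insert_of_mem (Finset.mem_image.2 ⟨(x, y), hxy, rfl⟩))
      exact this ((hσ u v).2 h)
    have hred : ∀ a : Fin (e + 1 + 1) → ℕ,
        c' a (Fin.cons (a 0 % q) 0 + ι (Fin.tail a + (a 0 / q) • β)) := by
      intro a
      have h1 : c' (Fin.cons q 0) (ι β) := AddConGen.Rel.of _ _ (Finset.mem_insert_self _ _)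
      have h2 := c'.add (c'.refl (Fin.cons (a 0 % q) (Fin.tail a))) (c'.nsmul (a 0 / q) h1)
      convert h2 using 1
      · ext i
        refine Fin.cases ?_ (fun i => ?_) i
        · simp [Nat.mod_add_div']
        · simp [Fin.tail]
      · ext i
        refine Fin.cases ?_ (fun i => ?_) i <;> simp [ι]
    intro a a'
    constructor
    · intro h
      let k : AddCon (Fin (e + 1 + 1) → ℕ) := AddCon.comap
        (fun a => ∑ i, a i * (Fin.cons b (fun i => q * n i) : Fin (e + 1 + 1) → ℕ) i)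
        (fun x y => by simp [add_mul, Finset.sum_add_distrib]) ⊥
      have : c' ≤ k := AddCon.addConGen_le.2 fun x y hxy => by
        change _ = _
        dsimp only
        rw [hsum, hsum]
        rcases Finset.mem_insert.1 hxy with h | h
        · obtain ⟨rfl, rfl⟩ := Prod.mk.inj h
          simp [ι, hβ]
        · obtain ⟨p, hp, h⟩ := Finset.mem_image.1 h
          obtain ⟨rfl, rfl⟩ := Prod.mk.inj h
          simp [ι, (hσ p.1 p.2).1 (AddConGen.Rel.of _ _ hp)]
      exact this h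
    · intro h
      rw [hsum, hsum] at h
      have h1 : a 0 % q = a' 0 % q := by
        have : a 0 * b ≡ a' 0 * b [MOD q] := by
          have := congrArg (· % q) h
          simpa [Nat.ModEq] using this
        exact Nat.ModEq.cancel_right_of_coprime hc this
      refine (hred a).trans (c'.trans ?_ (c'.symm (hred a')))
      rw [h1]
      refine c'.add (c'.refl _) (hl _ _ ?_)
      simp only [Pi.add_apply, Pi.smul_apply, smul_eq_mul, add_mul, Finset.sum_add_distrib,
        mul_assoc, ← Finset.mul_sum, hβ]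
      apply Nat.eq_of_mul_eq_mul_left (show 0 < q by omega)
      have e1 := Nat.div_add_mod (a 0) q
      have e2 := Nat.div_add_mod (a' 0) q
      rw [← e1, ← e2, h1] at h
      linarith

def Mem (S : AddSubmonoid ℕ) (y : ℤ) : Prop := ∃ s ∈ S, (s : ℤ) = y

theorem mem_glue {S : AddSubmonoid ℕ} {q b : ℕ} (hq : 0 < q) (hb : b ∈ S) (hc : Nat.Coprime q b)
    (w u : ℤ) : Mem (glue S q b) (q * w - u * b) ↔ Mem S (w - cd u q * b) := by
  have hq' : (0 : ℤ) < q := by exact_mod_cast hq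
  constructor
  · rintro ⟨_, ⟨s, hs, j, rfl⟩, h⟩
    push_cast at h
    obtain ⟨t, ht⟩ : (q : ℤ) ∣ u + j :=
      (Nat.isCoprime_iff_coprime.2 hc).dvd_of_dvd_mul_right ⟨w - s, by linarith⟩
    obtain ⟨k, hk⟩ := Int.le.dest ((cd_le_iff (u := u) (r := t) hq').2 (by
      have := Int.natCast_nonneg j
      linarith))
    refine ⟨s + k * b, add_mem hs (mul_mem hb k), ?_⟩
    push_cast
    have : w = s + t * b := mul_left_cancel₀ hq'.ne' (by linear_combination -h + b * ht)
    rw [this, ← hk]; ring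
  · rintro ⟨s, hs, h⟩
    obtain ⟨j, hj⟩ := Int.le.dest (le_cd_mul u hq')
    refine ⟨_, ⟨s, hs, j, rfl⟩, ?_⟩
    push_cast
    linear_combination q * h + b * hj

theorem realize {F : ℤ → ℤ} (hF : Cf F) : ∀ (S : AddSubmonoid ℕ) (b : ℕ) (P : Finset ℕ)
    (w : ℕ → ℤ), Good S → Dec S b → ∃ (S' : AddSubmonoid ℕ) (Q : ℕ) (d : ℤ), Good S' ∧ 0 < Q ∧
      (∀ s ∈ S, Q * s ∈ S') ∧ ∀ x ∈ P, (Mem S (w x - F x * b) ↔ Mem S' (Q * w x + d * x)) := by
  induction hF with
  | lin c =>
    intro S b P w hS hb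
    exact ⟨S, 1, -c * b, hS, one_pos, by simp, fun x _ => iff_of_eq (congrArg _ (by ring))⟩
  | @add F G _ _ i1 i2 =>
    intro S b P w hS hb
    obtain ⟨S1, Q1, d1, g1, p1, s1, m1⟩ := i1 S b P (fun x => w x - G x * b) hS hb
    obtain ⟨x, hx, y, hy, hx0, hy0, e⟩ := hb
    obtain ⟨S2, Q2, d2, g2, p2, s2, m2⟩ := i2 S1 (Q1 * b) P (fun x => Q1 * w x + d1 * x) g1
      ⟨_, s1 x hx, _, s1 y hy, by positivity, by positivity, by rw [← e]; ring⟩
    refine ⟨S2, Q2 * Q1, Q2 * d1 + d2, g2, by positivity,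
      fun s hs => by rw [mul_assoc]; exact s2 _ (s1 s hs), fun x hx => ?_⟩
    refine (iff_of_eq (congrArg _ (by ring))).trans ((m1 x hx).trans ?_)
    refine (iff_of_eq (congrArg _ (by push_cast; ring))).trans ((m2 x hx).trans ?_)
    exact iff_of_eq (congrArg _ (by push_cast; ring))
  | @ceil F q hq hF ih =>
    intro S b P w hS hb
    obtain ⟨q, rfl⟩ := Int.eq_ofNat_of_zero_le hq.le
    have hbpos := hb.pos
    obtain ⟨C, hC⟩ := (P.image fun x : ℕ => -cd (F x) q).bddAbove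
    obtain ⟨M, hM⟩ := (P.image fun x : ℕ => cd (F x) q + |C| * x).bddAbove
    obtain ⟨K, hK2, hKM, hKb⟩ : ∃ K : ℕ, 2 ≤ K ∧ M ≤ K ∧ b ∣ K :=
      ⟨b * (M.toNat + 2), by nlinarith, by
        push_cast
        have : (1 : ℤ) ≤ b := by exact_mod_cast hbpos
        have := Int.self_le_toNat M
        nlinarith, dvd_mul_right _ _⟩
    have hq0 : 0 < q := by exact_mod_cast hq
    have hcop : Nat.Coprime (q * K + 1) b := by
      obtain ⟨k, rfl⟩ := hKb
      rw [show q * (b * k) + 1 = 1 + b * (q * k) by ring]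
      simp
    have hbS : b ∈ glue S (q * K + 1) b := ⟨0, zero_mem _, 1, by simp⟩
    obtain ⟨S', Q, d, g, p, s, m⟩ := ih (glue S (q * K + 1) b) (K * b) P
      (fun x => (q * K + 1 : ℕ) * w x + |C| * b * x) (good_glue hS (by nlinarith) hb hcop)
      ⟨b, hbS, (K - 1) * b, mul_mem hbS _, hbpos.ne', mul_ne_zero (by omega) hbpos.ne', by
        obtain ⟨K, rfl⟩ := Nat.exists_eq_add_of_le' hK2
        simp; ring⟩
    refine ⟨S', Q * (q * K + 1), Q * |C| * b + d, g, by positivity,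
      fun x hx => by rw [mul_assoc]; exact s _ ⟨x, hx, 0, by simp⟩, fun x hx => ?_⟩
    have hcd : cd (K * F x - |C| * x) (q * K + 1 : ℕ) = cd (F x) q := by
      have a1 : -cd (F x) q ≤ C := hC (by simpa using ⟨x, hx, rfl⟩)
      have a2 : cd (F x) q + |C| * x ≤ M := hM (by simpa using ⟨x, hx, rfl⟩)
      have a3 := le_cd_mul (F x) hq
      have a4 := (lt_cd_iff (u := F x) (r := cd (F x) q - 1) hq).1 (by omega)
      have a5 : -(|C| * x) ≤ cd (F x) q := by
        rcases Nat.eq_zero_or_pos x with rfl | h0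
        · simp [hF.zero, cd]
        · have : (1 : ℤ) ≤ x := by exact_mod_cast h0
          have := le_abs_self C
          have := abs_nonneg C
          nlinarith
      have hK0 : (0 : ℤ) ≤ K := Int.natCast_nonneg K
      have hp : (0 : ℤ) < (q * K + 1 : ℕ) := by positivity
      apply le_antisymm
      · rw [cd_le_iff hp]
        push_cast
        nlinarith
      · have : cd (F x) q - 1 < cd (K * F x - |C| * x) (q * K + 1 : ℕ) := by
          rw [lt_cd_iff hp]
          push_cast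
          have : (cd (F x) q - 1) * q + 1 ≤ F x := a4
          nlinarith
        omega
    dsimp only
    rw [← hcd, ← mem_glue (by omega) hb.mem hcop]
    refine (iff_of_eq (congrArg _ (by push_cast; ring))).trans ((m x hx).trans ?_)
    exact iff_of_eq (congrArg _ (by push_cast; ring))

theorem main (T : AddSubmonoid ℕ) (hT : (T : Set ℕ)ᶜ.Finite) :
    ∃ S d, Good S ∧ 1 ≤ d ∧ ∀ x, x ∈ T ↔ d * x ∈ S := by
  by_cases h0 : T = ⊤
  · exact ⟨⊤, 1, good_top, le_rfl, by simp [h0]⟩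
  obtain ⟨A, hA⟩ := Nat.addSubmonoid_fg T
  obtain ⟨F, f0, f1, f2⟩ := sep_all A (hT.toFinset.image fun x : ℕ => (x : ℤ)) (by
    intro h hh s hs e
    obtain ⟨x, hx, rfl⟩ := Finset.mem_image.1 hh
    rw [hA, Nat.cast_inj.1 e] at hs
    exact (hT.mem_toFinset.1 hx) hs)
  obtain ⟨S, Q, d, g, -, -, m⟩ := realize f0 ⊤ 2 (A ∪ hT.toFinset) (fun _ => 0) good_top
    ⟨1, trivial, 1, trivial, one_ne_zero, one_ne_zero, rfl⟩
  have h1 : ∀ x ∈ A, Mem S (d * x) := fun x hx => by
    have := f1 x hx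
    simpa using (m x (Finset.mem_union_left _ hx)).1 ⟨(-F x * 2).toNat, trivial, by
      push_cast; omega⟩
  have h2 : ∀ x, x ∉ T → ¬ Mem S (d * x) := fun x hx h => by
    have hx' : x ∈ hT.toFinset := hT.mem_toFinset.2 hx
    have := f2 _ (Finset.mem_image_of_mem _ hx')
    obtain ⟨s, -, e⟩ := (m x (Finset.mem_union_right _ hx')).2 (by simpa using h)
    push_cast at e
    omega
  have h3 : ∀ x ∈ T, Mem S (d * x) := by
    intro x hx
    rw [← hA] at hx
    induction hx using AddSubmonoid.closure_induction with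
    | mem x hx => exact h1 x hx
    | zero => exact ⟨0, zero_mem _, by simp⟩
    | add x y _ _ hx hy =>
      obtain ⟨s, hs, e1⟩ := hx
      obtain ⟨t, ht, e2⟩ := hy
      exact ⟨s + t, add_mem hs ht, by push_cast; linarith⟩
  have hd : 0 < d := by
    obtain ⟨x, hx, hx0⟩ : ∃ x ∈ T, x ≠ 0 := by
      obtain ⟨x, hx⟩ := (hT.insert 0).exists_notMem
      simp only [Set.mem_insert_iff, not_or, Set.mem_compl_iff, not_not] at hx
      exact ⟨x, hx.2, hx.1⟩
    obtain ⟨s, -, e⟩ := h3 x hx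
    have h4 : 0 ≤ d := by
      have : (0 : ℤ) < x := by exact_mod_cast Nat.pos_of_ne_zero hx0
      have : (0 : ℤ) ≤ s := Int.natCast_nonneg s
      nlinarith
    refine lt_of_le_of_ne h4 ?_
    rintro rfl
    obtain ⟨y, hy⟩ := not_forall.1 (mt (AddSubmonoid.eq_top_iff' T).2 h0)
    exact h2 y hy ⟨0, zero_mem _, by simp⟩
  obtain ⟨d, rfl⟩ := Int.eq_ofNat_of_zero_le hd.le
  refine ⟨S, d, g, by exact_mod_cast hd, fun x => ⟨fun hx => ?_, fun hx => ?_⟩⟩
  · obtain ⟨s, hs, e⟩ := h3 x hx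
    rwa [show d * x = s by exact_mod_cast e.symm]
  · by_contra h
    exact h2 x h ⟨_, hx, by push_cast; rfl⟩

theorem lower {e : ℕ} (n : Fin (e + 1) → ℕ) (hn : n 0 ≠ 0)
    (σ : Finset ((Fin (e + 1) → ℕ) × (Fin (e + 1) → ℕ)))
    (hσ : ∀ a b, ∑ i, a i * n i = ∑ i, b i * n i → addConGen (fun a b => (a, b) ∈ σ) a b) :
    e ≤ σ.card := by
  classical
  let v : (Fin (e + 1) → ℕ) → (Fin (e + 1) → ℚ) := fun a i => a i
  let s : Finset (Fin (e + 1) → ℚ) := insert (Pi.single 0 1) (σ.image fun p => v p.1 - v p.2)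
  let V := Submodule.span ℚ (s : Set (Fin (e + 1) → ℚ))
  let k : AddCon (Fin (e + 1) → ℕ) := AddCon.comap (fun a => V.mkQ (v a))
    (fun x y => by rw [← map_add]; congr 1; ext i; simp [v]) ⊥
  have h1 : addConGen (fun a b => (a, b) ∈ σ) ≤ k := AddCon.addConGen_le.2 fun x y hxy =>
    (Submodule.Quotient.eq V).2 (Submodule.subset_span
      (Finset.mem_insert_of_mem (Finset.mem_image.2 ⟨(x, y), hxy, rfl⟩)))
  have h0 : Pi.single 0 1 ∈ V := Submodule.subset_span (Finset.mem_insert_self _ _)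
  have h2 : ∀ i, Pi.single i 1 ∈ V := by
    intro i
    have h3 : v (Pi.single i (n 0)) - v (Pi.single 0 (n i)) ∈ V :=
      (Submodule.Quotient.eq V).1 (h1 (hσ _ _ (by simp [Pi.single_apply, mul_comm])))
    have h4 := V.smul_mem (n 0 : ℚ)⁻¹ (V.add_mem h3 (V.smul_mem (n i : ℚ) h0))
    convert h4 using 1
    ext j
    have : (n 0 : ℚ) ≠ 0 := by exact_mod_cast hn
    simp only [v, Pi.single_apply, Pi.smul_apply, Pi.add_apply, Pi.sub_apply, smul_eq_mul]
    split_ifs <;> simp [this]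
  have h3 : V = ⊤ := by
    rw [eq_top_iff, ← (Pi.basisFun ℚ (Fin (e + 1))).span_eq, Submodule.span_le]
    rintro _ ⟨i, rfl⟩
    simpa using h2 i
  have h4 : Module.finrank ℚ V ≤ s.card := finrank_span_finset_le_card s
  rw [h3, finrank_top, Module.finrank_fin_fun] at h4
  have := (Finset.card_insert_le _ _).trans (Nat.succ_le_succ (Finset.card_image_le
    (s := σ) (f := fun p => v p.1 - v p.2))) |>.trans' h4
  omega

end Pool.Agent.H66.Glue
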