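import Pool.Agent.H66.Solid
import Pool.Agent.H66.CatDefs

set_option autoImplicit false
set_option linter.unusedSectionVars false

namespace Pool.Agent.H66.GlueCat

open Polynomial Pool.Agent.H66.CatDefs

def Sol (R : Type*) (Ω : Type*) [CommRing R] [Field Ω] [Algebra R Ω] : Prop :=
  ∃ φ : integralClosure R Ω →ₗ[R] R, φ ≠ 0

lemma Sol.equiv {R R' Ω : Type*} [CommRing R] [CommRing R'] [Field Ω] [Algebra R Ω]
    [Algebra R' Ω] (e : R ≃+* R') (he' : ∀ r, algebraMap R' Ω (e r) = algebraMap R Ω r)
    (h : Sol R Ω) : Sol R' Ω := by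
  obtain ⟨φ, hφ⟩ := h
  have he : ∀ f : R', algebraMap R Ω (e.symm f) = algebraMap R' Ω f := fun f => by
    rw [← he', e.apply_symm_apply]
  have hi : ∀ s : integralClosure R' Ω, IsIntegral R (s : Ω) :=
    fun s => IsIntegral.map_of_comp_eq (e.symm : R' →+* R) (RingHom.id Ω) (RingHom.ext he) s.2
  have hi' : ∀ s : integralClosure R Ω, IsIntegral R' (s : Ω) :=
    fun s => IsIntegral.map_of_comp_eq (e : R →+* R') (RingHom.id Ω) (RingHom.ext he') s.2
  refine ⟨{ toFun := fun s => e (φ ⟨s, hi s⟩), map_add' := ?_, map_smul' := ?_ }, ?_⟩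
  · intro s t
    rw [← map_add, ← map_add]; rfl
  · intro f s
    have : (⟨(f • s : integralClosure R' Ω), hi _⟩ :
        integralClosure R Ω) = e.symm f • ⟨s, hi s⟩ := by
      apply Subtype.ext
      rw [Subalgebra.coe_smul, Subalgebra.coe_smul, Algebra.smul_def, Algebra.smul_def, he]
    rw [this, map_smul, smul_eq_mul, map_mul, e.apply_symm_apply]
    rfl
  · intro h
    apply hφ
    ext s
    have h1 := congrArg (fun ψ => ψ ⟨s, hi' s⟩) h
    have h2 : e (φ s) = 0 := h1
    rwa [map_eq_zero_iff _ e.injective] at h2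

lemma Sol.loc {P D Ω : Type*} [CommRing P] [CommRing D] [Field Ω] [Algebra P D] [Algebra P Ω]
    [Algebra D Ω] [IsScalarTower P D Ω] (S : Submonoid P) [IsLocalization S D]
    (hS : S ≤ nonZeroDivisors P) (h : Sol P Ω) : Sol D Ω := by
  obtain ⟨φ, hφ⟩ := h
  let ι : integralClosure P Ω →ₗ[P] integralClosure D Ω :=
    { toFun := fun s => ⟨s, IsIntegral.tower_top s.2⟩
      map_add' := fun _ _ => rfl
      map_smul' := fun _ _ => rfl }
  have hu : ∀ (M : Type _) [AddCommGroup M] [Module D M] [Module P M] [IsScalarTower P D M]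
      (x : S), IsUnit (algebraMap P (Module.End P M) x) := by
    intro M _ _ _ _ x
    rw [Module.End.isUnit_iff]
    obtain ⟨u, hu⟩ := IsLocalization.map_units D x
    have : ∀ m : M, algebraMap P (Module.End P M) x m = u • m := by
      intro m
      rw [Module.algebraMap_end_apply, Units.smul_def, hu, algebraMap_smul]
    rw [funext this]
    exact MulAction.bijective u
  haveI : IsLocalizedModule S ι := by
    refine ⟨hu _, ?_, ?_⟩
    · intro y
      obtain ⟨m, hm⟩ := IsIntegral.exists_multiple_integral_of_isLocalization S y.1 y.2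
      exact ⟨(⟨_, hm⟩, m), rfl⟩
    · intro x y hxy
      refine ⟨1, ?_⟩
      have : x = y := Subtype.ext (congrArg (fun z : integralClosure D Ω => (z : Ω)) hxy)
      rw [this]
  have hu2 : ∀ x : S, IsUnit (algebraMap P (Module.End P D) x) := by
    intro x
    rw [Module.End.isUnit_iff]
    obtain ⟨u, hu⟩ := IsLocalization.map_units D x
    have : ∀ m : D, algebraMap P (Module.End P D) x m = u • m := by
      intro m
      rw [Module.algebraMap_end_apply, Units.smul_def, hu, algebraMap_smul]
    rw [funext this]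
    exact MulAction.bijective u
  refine ⟨LinearMap.extendScalarsOfIsLocalization S D
    (IsLocalizedModule.lift S ι ((Algebra.linearMap P D).comp φ) hu2), fun h => hφ ?_⟩
  ext s
  have h1 := congrArg (fun ψ => ψ (ι s)) h
  simp only [LinearMap.extendScalarsOfIsLocalization_apply', IsLocalizedModule.lift_apply,
    LinearMap.comp_apply, Algebra.linearMap_apply, LinearMap.zero_apply] at h1
  exact (IsLocalization.injective D hS) (by rw [h1]; simp)

lemma Sol.cond {D Ω : Type*} [CommRing D] [IsDomain D] [Field Ω] [Algebra D Ω] (R : Subring D)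
    [Algebra.IsIntegral R D] (c : D) (hc : c ≠ 0) (hcR : ∀ d, c * d ∈ R) (h : Sol D Ω) :
    Sol R Ω := by
  obtain ⟨φ, hφ⟩ := h
  refine ⟨{ toFun := fun s => ⟨c * φ ⟨s, IsIntegral.tower_top s.2⟩, hcR _⟩
            map_add' := ?_, map_smul' := ?_ }, ?_⟩
  · intro s t
    apply Subtype.ext
    change c * _ = c * _ + c * _
    rw [← mul_add, ← map_add]; rfl
  · intro r s
    apply Subtype.ext
    change c * _ = (r : D) * (c * _)
    rw [mul_left_comm, ← smul_eq_mul (r : D), ← map_smul]; rfl
  · intro h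
    apply hφ
    ext s
    have h1 := congrArg (fun ψ => (ψ ⟨s, isIntegral_trans _ s.2⟩ : D)) h
    have h2 : c * φ s = 0 := h1
    simpa [hc] using h2

lemma noeth {D : Type*} [CommRing D] [IsNoetherianRing D] (R : Subring D)
    [h : IsNoetherian R (D ⧸ (LinearMap.range (Algebra.linearMap R D)))] :
    IsNoetherianRing R := by
  classical
  rw [isNoetherianRing_iff_ideal_fg]
  intro J
  have h1 : (Submodule.span D (algebraMap R D '' J)).FG := IsNoetherian.noetherian _
  obtain ⟨T, hT, hT'⟩ := (Submodule.fg_span_iff_fg_span_finset_subset _).1 h1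
  let N0 : Submodule R D := Submodule.span R T
  let N : Submodule R D := Submodule.map (Algebra.linearMap R D) J
  have hN0 : N0 ≤ N := Submodule.span_le.2 hT
  let F : ∀ t : T, (D ⧸ (LinearMap.range (Algebra.linearMap R D))) →ₗ[R] D ⧸ N0 := fun t =>
    Submodule.liftQ _ (N0.mkQ.comp (LinearMap.mulRight R (t : D))) (by
      rintro _ ⟨r, rfl⟩
      simp only [LinearMap.mem_ker, LinearMap.comp_apply, LinearMap.mulRight_apply,
        Submodule.mkQ_apply, Submodule.Quotient.mk_eq_zero]
      exact N0.smul_mem r (Submodule.subset_span t.2))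
  have h2 : IsNoetherian R (⨆ t, LinearMap.range (F t) : Submodule R (D ⧸ N0)) :=
    isNoetherian_iSup
  have h3 : N.FG := by
    apply Submodule.fg_of_fg_map_of_fg_inf_ker N0.mkQ
    · apply isNoetherian_submodule.1 h2
      rintro _ ⟨x, hx, rfl⟩
      have hx' : x ∈ Submodule.span D (T : Set D) := hT' ▸ Submodule.subset_span hx
      obtain ⟨f, -, rfl⟩ := Submodule.mem_span_finset.1 hx'
      rw [map_sum]
      refine Submodule.sum_mem _ fun t ht => ?_
      exact Submodule.mem_iSup_of_mem ⟨t, ht⟩ ⟨Submodule.Quotient.mk (f t), rfl⟩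
    · rw [Submodule.ker_mkQ, inf_eq_right.2 hN0]
      exact ⟨T, rfl⟩
  exact Submodule.fg_of_fg_map_injective _ Subtype.val_injective h3

lemma prime_eq {A : Type*} [CommRing A] [IsDomain A] (Q P : Ideal A[X]) [hQ : Q.IsPrime]
    [hP : P.IsPrime] (hle : Q ≤ P) (h0 : ∀ a, C a ∈ P → a = 0) (hne : Q ≠ ⊥) : Q = P := by
  letI := Polynomial.algebra A (FractionRing A)
  haveI := Polynomial.isLocalization (nonZeroDivisors A) (FractionRing A)
  have dP : Disjoint (((nonZeroDivisors A).map (C : A →+* A[X]) : Submonoid A[X]) : Set A[X])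
      (P : Set A[X]) := by
    rw [Set.disjoint_left]
    rintro _ ⟨a, ha, rfl⟩ h
    exact nonZeroDivisors.ne_zero ha (h0 a h)
  have dQ := dP.mono_right (show (Q : Set A[X]) ≤ P from hle)
  have pP := IsLocalization.isPrime_of_isPrime_disjoint _ (FractionRing A)[X] P hP dP
  have pQ := IsLocalization.isPrime_of_isPrime_disjoint _ (FractionRing A)[X] Q hQ dQ
  have uP := IsLocalization.under_map_of_isPrime_disjoint _ (FractionRing A)[X] hP dP
  have uQ := IsLocalization.under_map_of_isPrime_disjoint _ (FractionRing A)[X] hQ dQ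
  have hne' : Q.map (algebraMap A[X] (FractionRing A)[X]) ≠ ⊥ := by
    intro h
    apply hne
    rw [← uQ, h, eq_bot_iff]
    intro x hx
    have : Polynomial.map (algebraMap A (FractionRing A)) x = 0 := hx
    exact (Polynomial.map_eq_zero_iff (IsFractionRing.injective _ _)).1 this
  have := (IsPrime.to_maximal_ideal hne').eq_of_le pP.ne_top (Ideal.map_mono hle)
  rw [← uQ, this, uP]

instance (R : Type*) [CommRing R] [IsNoetherianRing R] : WellFoundedLT (PrimeSpectrum R) := by
  have : StrictMono fun p : PrimeSpectrum R => p.asIdeal.height := fun p q h =>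
    Ideal.height_strict_mono_of_isPrime h
  exact this.wellFoundedLT

instance (R : Type*) [CommRing R] [IsNoetherianRing R] : WellFoundedGT (PrimeSpectrum R) := by
  have : StrictMono fun p : PrimeSpectrum R => p.asIdeal := fun p q h => h
  exact this.wellFoundedGT

lemma not_cat (S : Type) [CommRing S] [IsNoetherianRing S] (a b c d e : PrimeSpectrum S)
    (h1 : a ⋖ b) (h2 : b ⋖ c) (h3 : a < d) (h4 : d < e) (h5 : e < c) : ¬ IsCatenary S := by
  intro h
  let s : LTSeries (PrimeSpectrum S) := ⟨3, ![a, d, e, c], fun i => by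
    fin_cases i <;> simpa⟩
  obtain ⟨t, i, hi, h0, hl⟩ := s.exists_relSeries_covBy
  let u : RelSeries {(a, b) : PrimeSpectrum S × PrimeSpectrum S | a ⋖ b} :=
    ⟨2, ![a, b, c], fun i => by fin_cases i <;> simpa⟩
  have e1 : u.head = t.head := by
    have := congrFun hi 0
    rw [Function.comp_apply, h0] at this
    exact this.symm
  have e2 : u.last = t.last := by
    have := congrFun hi (Fin.last _)
    rw [Function.comp_apply, hl] at this
    exact this.symm
  have e3 : 2 = t.length := h u t e1 e2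
  have := Fintype.card_le_of_embedding i
  simp only [Fintype.card_fin] at this
  change 3 + 1 ≤ _ at this
  omega

section glue

variable {D k : Type} [CommRing D] [IsDomain D] [Field k] (π₁ π₂ : D →+* k)

lemma decomp (h1 : Function.Surjective π₁) (h2 : Function.Surjective π₂) (e : D)
    (he1 : π₁ e = 1) (he2 : π₂ e = 0) :
    (∀ a, ∃ r : π₁.eqLocus π₂, π₁ r = a) ∧
    ∀ f : D, ∃ r s : π₁.eqLocus π₂, f = r + s * e := by
  have H : ∀ a, ∃ r : π₁.eqLocus π₂, π₁ r = a := by
    intro a
    obtain ⟨f, hf⟩ := h1 a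
    obtain ⟨g, hg⟩ := h2 a
    refine ⟨⟨f * e + g * (1 - e), ?_⟩, ?_⟩
    · simp [RingHom.mem_eqLocus, he1, he2, hf, hg]
    · simp [he1, hf]
  refine ⟨H, fun f => ?_⟩
  obtain ⟨s, hs⟩ := H (π₁ f - π₂ f)
  refine ⟨⟨f - s * e, ?_⟩, s, by simp⟩
  simp [RingHom.mem_eqLocus, he1, he2, hs]

lemma glue_noeth [IsNoetherianRing D] (h1 : Function.Surjective π₁)
    (h2 : Function.Surjective π₂) (e : D) (he1 : π₁ e = 1) (he2 : π₂ e = 0) :
    IsNoetherianRing (π₁.eqLocus π₂) := by
  obtain ⟨H, -⟩ := decomp π₁ π₂ h1 h2 e he1 he2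
  let π : π₁.eqLocus π₂ →+* k := π₁.comp (π₁.eqLocus π₂).subtype
  haveI : RingHomSurjective π := ⟨H⟩
  let l : D →ₛₗ[π] k :=
    { toFun := fun f => π₁ f - π₂ f
      map_add' := fun x y => by simp only [map_add]; ring
      map_smul' := fun r x => by
        have : π₁ r = π₂ r := r.2
        change π₁ (r * x) - π₂ (r * x) = π₁ r * _
        simp only [map_mul, ← this]; ring }
  have hk : LinearMap.range (Algebra.linearMap (π₁.eqLocus π₂) D) = LinearMap.ker l := by
    ext x
    constructor
    · rintro ⟨r, rfl⟩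
      exact sub_eq_zero.2 r.2
    · intro hx
      exact ⟨⟨x, sub_eq_zero.1 hx⟩, rfl⟩
  have hb : Function.Bijective (Submodule.liftQ _ l hk.le) := by
    constructor
    · rw [← LinearMap.ker_eq_bot]
      exact Submodule.ker_liftQ_eq_bot _ _ _ hk.ge
    · intro a
      obtain ⟨f, hf⟩ := h1 a
      refine ⟨Submodule.Quotient.mk (f * e), ?_⟩
      change π₁ (f * e) - π₂ (f * e) = a
      simp [he1, he2, hf]
  haveI := (LinearMap.isNoetherian_iff_of_bijective _ hb).2 inferInstance
  exact noeth _

lemma glue_integral (h1 : Function.Surjective π₁)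
    (h2 : Function.Surjective π₂) (e : D) (he1 : π₁ e = 1) (he2 : π₂ e = 0) :
    Algebra.IsIntegral (π₁.eqLocus π₂) D := by
  classical
  obtain ⟨-, H⟩ := decomp π₁ π₂ h1 h2 e he1 he2
  haveI : Module.Finite (π₁.eqLocus π₂) D := by
    refine ⟨⟨{1, e}, ?_⟩⟩
    rw [eq_top_iff]
    intro f _
    obtain ⟨r, s, rfl⟩ := H f
    refine add_mem ?_ (Submodule.smul_mem _ s (Submodule.subset_span (by simp)))
    have := Submodule.smul_mem (Submodule.span (π₁.eqLocus π₂) (({1, e} : Finset D) : Set D)) r
      (Submodule.subset_span (a := 1) (by simp))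
    simpa [Subring.smul_def] using this
  infer_instance

lemma glue_not_cat [IsNoetherianRing D] (h1 : Function.Surjective π₁)
    (h2 : Function.Surjective π₂) (e : D) (he1 : π₁ e = 1) (he2 : π₂ e = 0) (he0 : e ≠ 0)
    (hht : ∀ Q : Ideal D, Q.IsPrime → Q ≤ RingHom.ker π₁ → Q ≠ ⊥ → Q = RingHom.ker π₁)
    (p : Ideal D) [hp : p.IsPrime] (hp2 : p ≤ RingHom.ker π₂) (x y : D) (hx : x ∈ p) (hx0 : x ≠ 0)
    (hy : π₂ y = 0) (hyp : y ∉ p) : ¬ IsCatenary (π₁.eqLocus π₂)[X] := by
  obtain ⟨H, H'⟩ := decomp π₁ π₂ h1 h2 e he1 he2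
  haveI := glue_noeth π₁ π₂ h1 h2 e he1 he2
  set R := π₁.eqLocus π₂ with hR
  let π : R →+* k := π₁.comp R.subtype
  let τ : R[X] →+* D := eval₂RingHom R.subtype e
  have hτ : Function.Surjective τ := by
    intro f
    obtain ⟨r, s, rfl⟩ := H' f
    exact ⟨C r + C s * X, by simp [τ]⟩
  have he : e - 1 ≠ 0 := by
    intro h
    have := congrArg π₂ h
    simp [he2] at this
  have hep : e - 1 ∉ p := by
    intro h
    have := hp2 h
    simp [he2] at this
  let ρ : R →+* D ⧸ p := (Ideal.Quotient.mk p).comp R.subtype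
  let a : PrimeSpectrum R[X] := ⟨⊥, inferInstance⟩
  let b : PrimeSpectrum R[X] := ⟨RingHom.ker τ, RingHom.ker_isPrime _⟩
  let c : PrimeSpectrum R[X] := ⟨RingHom.ker (π₁.comp τ), RingHom.ker_isPrime _⟩
  let d : PrimeSpectrum R[X] := ⟨RingHom.ker (mapRingHom ρ), RingHom.ker_isPrime _⟩
  let d' : PrimeSpectrum R[X] := ⟨RingHom.ker (mapRingHom π), RingHom.ker_isPrime _⟩
  have hmem : ∀ z : D, π₂ z = 0 → z * (e - 1) ∈ R := by
    intro z hz
    simp [hR, RingHom.mem_eqLocus, he1, hz]
  refine not_cat _ a b c d d' ⟨?_, ?_⟩ ⟨?_, ?_⟩ ?_ ?_ ?_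
  · change (⊥ : Ideal R[X]) < RingHom.ker τ
    rw [bot_lt_iff_ne_bot, Submodule.ne_bot_iff]
    refine ⟨X * (X - 1) - C ⟨_, hmem e he2⟩, by simp [τ], ?_⟩
    intro h
    have := congrArg (fun f : R[X] => f.coeff 2) h
    simp [mul_sub, ← pow_two, coeff_X, coeff_C] at this
  · intro q hq hq'
    refine hq'.ne (PrimeSpectrum.ext ?_)
    refine prime_eq q.asIdeal (RingHom.ker τ) (hP := RingHom.ker_isPrime _) hq'.le ?_ ?_
    · intro r hr
      simpa [τ] using hr
    · exact fun h => hq.ne' (PrimeSpectrum.ext h)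
  · change RingHom.ker τ < RingHom.ker (π₁.comp τ)
    rw [SetLike.lt_iff_le_and_exists]
    refine ⟨fun f hf => ?_, X - 1, by simp [τ, he1], by simpa [τ] using he⟩
    rw [RingHom.mem_ker] at hf ⊢
    simp [hf]
  · intro q hq hq'
    have hq1 : RingHom.ker τ ≤ q.asIdeal := hq.le
    have hpr : (q.asIdeal.map τ).IsPrime := Ideal.map_isPrime_of_surjective hτ hq1
    have hcm : (q.asIdeal.map τ).comap τ = q.asIdeal := by
      rw [Ideal.comap_map_of_surjective τ hτ, sup_eq_left]
      exact hq1
    have := hht _ hpr (by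
      rw [Ideal.map_le_iff_le_comap]
      exact hq'.le) (by
      intro h
      refine hq.ne' (PrimeSpectrum.ext ?_)
      rw [← hcm, h]; rfl)
    refine hq'.ne (PrimeSpectrum.ext ?_)
    rw [← hcm, this]; rfl
  · change (⊥ : Ideal R[X]) < RingHom.ker (mapRingHom ρ)
    rw [bot_lt_iff_ne_bot, Submodule.ne_bot_iff]
    refine ⟨C ⟨_, hmem x (hp2 hx)⟩, ?_, ?_⟩
    · simp only [RingHom.mem_ker, coe_mapRingHom, map_C, C_eq_zero, ρ, RingHom.comp_apply,
        Ideal.Quotient.eq_zero_iff_mem]
      exact p.mul_mem_right _ hx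
    · simp [hx0, he, Subtype.ext_iff]
  · change RingHom.ker (mapRingHom ρ) < RingHom.ker (mapRingHom π)
    rw [SetLike.lt_iff_le_and_exists]
    refine ⟨fun f hf => ?_, C ⟨_, hmem y hy⟩, ?_, ?_⟩
    · rw [RingHom.mem_ker] at hf ⊢
      ext n
      have := congrArg (fun g => coeff g n) hf
      simp only [coe_mapRingHom, coeff_map, coeff_zero, ρ, RingHom.comp_apply,
        Ideal.Quotient.eq_zero_iff_mem] at this ⊢
      have h3 : π₁ (f.coeff n) = π₂ (f.coeff n) := (f.coeff n).2
      exact h3.trans (hp2 this)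
    · simp [π, he1]
    · simp only [RingHom.mem_ker, coe_mapRingHom, map_C, C_eq_zero, ρ, RingHom.comp_apply,
        Ideal.Quotient.eq_zero_iff_mem]
      intro h
      exact (hp.mem_or_mem h).elim hyp hep
  · change RingHom.ker (mapRingHom π) < RingHom.ker (π₁.comp τ)
    rw [SetLike.lt_iff_le_and_exists]
    refine ⟨fun f hf => ?_, X - 1, by simp [τ, he1], ?_⟩
    · have : π₁.comp τ = (evalRingHom 1).comp (mapRingHom π) := by
        apply Polynomial.ringHom_ext
        · intro r; simp [τ, π]
        · simp [τ, he1]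
      rw [RingHom.mem_ker] at hf ⊢
      rw [this, RingHom.comp_apply, hf, map_zero]
    · intro h
      rw [RingHom.mem_ker] at h
      have := congrArg (fun g => coeff g 0) h
      simp at this

end glue

lemma exists_j (p : ℕ) [Fact p.Prime] : ∃ (k : Type) (_ : Field k) (_ : CharP k p)
    (j : k[X] →+* k), Function.Injective j ∧ ∀ a, ∃ f g, a = j f / j g := by
  let A := MvPolynomial ℕ (ZMod p)
  let k := FractionRing A
  let ε : A[X] ≃+* A := ((MvPolynomial.optionEquivLeft (ZMod p) ℕ).symm.trans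
    (MvPolynomial.renameEquiv (ZMod p) (Denumerable.eqv (Option ℕ)))).toRingEquiv
  let j0 : A[X] →+* k := (algebraMap A k).comp ε.toRingHom
  have hj0 : Function.Injective j0 := (IsFractionRing.injective A k).comp ε.injective
  letI := Polynomial.algebra A k
  haveI := Polynomial.isLocalization (nonZeroDivisors A) k
  have hu : ∀ y : ((nonZeroDivisors A).map (C : A →+* A[X])), IsUnit (j0 y) := by
    rintro ⟨_, a, ha, rfl⟩
    rw [isUnit_iff_ne_zero, map_ne_zero_iff _ hj0]
    simpa using nonZeroDivisors.ne_zero ha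
  refine ⟨k, inferInstance, ?_, IsLocalization.lift hu, ?_, ?_⟩
  · exact charP_of_injective_algebraMap (algebraMap (ZMod p) k).injective p
  · rw [IsLocalization.lift_injective_iff]
    intro x y
    rw [hj0.eq_iff]
    exact (Polynomial.map_injective _ (IsFractionRing.injective A k)).eq_iff
  · intro a
    obtain ⟨u, v, -, rfl⟩ := IsFractionRing.div_surjective (A := A) a
    refine ⟨algebraMap A[X] k[X] (ε.symm u), algebraMap A[X] k[X] (ε.symm v), ?_⟩
    simp [j0]

theorem main (p : ℕ) [Fact p.Prime] : ∃ (R : Type) (_ : CommRing R) (_ : IsDomain R),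
    IsNoetherianRing R ∧ CharP R p ∧ Sol R (AlgebraicClosure (FractionRing R)) ∧
    ¬ IsCatenary R[X] := by
  obtain ⟨k, _, _, j, hj, hj'⟩ := exists_j p
  haveI : (RingHom.ker (evalRingHom (0 : k))).IsPrime := RingHom.ker_isPrime _
  let S : Submonoid k[X] := (RingHom.ker (evalRingHom (0 : k))).primeCompl
  have hS : S ≤ nonZeroDivisors k[X] := Ideal.primeCompl_le_nonZeroDivisors _
  obtain ⟨V, _, _, _⟩ : ∃ (V : Type) (_ : CommRing V) (_ : Algebra k[X] V), IsLocalization S V :=
    ⟨Localization S, inferInstance, inferInstance, inferInstance⟩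
  haveI : IsDomain V := IsLocalization.isDomain_of_le_nonZeroDivisors V hS
  haveI : IsNoetherianRing V := IsLocalization.isNoetherianRing S V inferInstance
  have hu1 : ∀ y : S, IsUnit (j y) := fun y => by
    rw [isUnit_iff_ne_zero, map_ne_zero_iff _ hj]
    exact nonZeroDivisors.ne_zero (hS y.2)
  have hu2 : ∀ y : S, IsUnit (evalRingHom (0 : k) y) := fun y => isUnit_iff_ne_zero.2 y.2
  have hinj : Function.Injective (algebraMap k[X] V) := IsLocalization.injective V hS
  let a : V →+* k := IsLocalization.lift hu1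
  let b : V →+* k := IsLocalization.lift hu2
  have ha : Function.Injective a := by
    rw [IsLocalization.lift_injective_iff]
    intro x y
    rw [hj.eq_iff, hinj.eq_iff]
  have hX : j X ≠ 0 := by
    rw [map_ne_zero_iff _ hj]; exact X_ne_zero
  let π₁ : V[X] →+* k := eval₂RingHom a (j X)⁻¹
  let π₂ : V[X] →+* k := eval₂RingHom b 0
  let y : V[X] := C (algebraMap k[X] V X)
  have hy0 : algebraMap k[X] V X ≠ 0 := by
    rw [map_ne_zero_iff _ hinj]; exact X_ne_zero
  have he1 : π₁ (X * y) = 1 := by simp [π₁, y, a, hX]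
  have he2 : π₂ (X * y) = 0 := by simp [π₂]
  have he0 : X * y ≠ 0 := by simp [y, hy0]
  have h1 : Function.Surjective π₁ := by
    intro z
    obtain ⟨f, g, rfl⟩ := hj' z
    by_cases hg : g = 0
    · exact ⟨0, by simp [hg]⟩
    obtain ⟨g', hg1, hg2⟩ := g.exists_eq_pow_rootMultiplicity_mul_and_not_dvd hg 0
    have hg3 : g' ∈ S := by
      intro h
      apply hg2
      rw [dvd_iff_isRoot]
      exact h
    refine ⟨C (IsLocalization.mk' V f ⟨g', hg3⟩) * X ^ g.rootMultiplicity 0, ?_⟩
    have h4 : j g' ≠ 0 := (hu1 ⟨g', hg3⟩).ne_zero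
    have h5 : a (IsLocalization.mk' V f ⟨g', hg3⟩) = j f / j g' := by
      rw [eq_div_iff h4, mul_comm]
      exact ((IsLocalization.lift_mk'_spec hu1 f _ ⟨g', hg3⟩).1 rfl).symm
    generalize g.rootMultiplicity 0 = n at hg1
    simp only [π₁, coe_eval₂RingHom, eval₂_mul, eval₂_C, eval₂_pow, eval₂_X, h5]
    rw [hg1]
    simp only [map_zero, sub_zero, map_mul, map_pow, inv_pow]
    field_simp
  have h2 : Function.Surjective π₂ := by
    intro z
    exact ⟨C (algebraMap k[X] V (C z)), by simp [π₂, b]⟩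
  haveI := glue_integral π₁ π₂ h1 h2 _ he1 he2
  set R := π₁.eqLocus π₂ with hR
  haveI : CharP V[X] p := by
    apply charP_of_injective_ringHom (f := (C : V →+* V[X]).comp ((algebraMap k[X] V).comp C))
    exact RingHom.injective _
  refine ⟨R, inferInstance, inferInstance, glue_noeth π₁ π₂ h1 h2 _ he1 he2, inferInstance, ?_, ?_⟩
  · let Ω := AlgebraicClosure (FractionRing R)
    have hRΩ : Function.Injective (algebraMap R Ω) := by
      rw [IsScalarTower.algebraMap_eq R (FractionRing R) Ω]
      exact (algebraMap (FractionRing R) _).injective.comp (IsFractionRing.injective _ _)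
    haveI : FaithfulSMul R Ω := (faithfulSMul_iff_algebraMap_injective _ _).2 hRΩ
    haveI : FaithfulSMul R V[X] :=
      (faithfulSMul_iff_algebraMap_injective _ _).2 Subtype.val_injective
    let ι : V[X] →ₐ[R] Ω := IsAlgClosed.lift
    let c : V[X] := X * y * (X * y - 1)
    have hc : c ≠ 0 := by
      refine mul_ne_zero he0 fun h => ?_
      have := congrArg π₂ h
      rw [map_sub, he2] at this
      simp at this
    have hcR : ∀ d, c * d ∈ R := by
      intro d
      simp only [hR, c, RingHom.mem_eqLocus, map_mul π₁ (X * y * _), map_mul π₂ (X * y * _),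
        map_mul π₁ (X * y), map_mul π₂ (X * y), map_sub, he1, he2]
      simp
    have hι : Function.Injective ι := by
      rw [injective_iff_map_eq_zero]
      intro d hd
      have h3 : algebraMap R Ω ⟨_, hcR d⟩ = 0 := by
        rw [← ι.commutes]
        change ι (c * d) = 0
        rw [map_mul, hd, mul_zero]
      rw [map_eq_zero_iff _ hRΩ, Subtype.ext_iff] at h3
      exact (mul_eq_zero.1 h3).resolve_left hc
    letI alg : Algebra V[X] Ω := ι.toRingHom.toAlgebra
    have key : Sol V[X] Ω := by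
      letI := Polynomial.algebra k[X] V
      haveI := Polynomial.isLocalization S V
      letI : Algebra k[X][X] Ω := ((algebraMap V[X] Ω).comp (algebraMap k[X][X] V[X])).toAlgebra
      haveI : IsScalarTower k[X][X] V[X] Ω := IsScalarTower.of_algebraMap_eq fun _ => rfl
      refine Sol.loc (S.map (C : k[X] →+* k[X][X])) ?_ ?_
      · rintro _ ⟨s, hs, rfl⟩
        apply mem_nonZeroDivisors_of_ne_zero
        simpa using nonZeroDivisors.ne_zero (hS hs)
      · let e : MvPolynomial (Option Unit) k ≃+* k[X][X] :=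
          (MvPolynomial.optionEquivLeft k Unit).toRingEquiv.trans
            (Polynomial.mapEquiv (MvPolynomial.uniqueAlgEquiv k Unit).toRingEquiv)
        letI : Algebra (MvPolynomial (Option Unit) k) Ω :=
          ((algebraMap k[X][X] Ω).comp e.toRingHom).toAlgebra
        haveI : FaithfulSMul (MvPolynomial (Option Unit) k) Ω := by
          rw [faithfulSMul_iff_algebraMap_injective]
          exact (hι.comp (Polynomial.map_injective _ hinj)).comp e.injective
        refine Sol.equiv e (fun _ => rfl) ?_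
        obtain ⟨φ, hφ⟩ := Solid.split (k := k) (σ := Option Unit) (Ω := Ω) p none
        refine ⟨φ, fun h => ?_⟩
        rw [h] at hφ
        simp at hφ
    have := Sol.cond R c hc hcR key
    convert this using 1
    apply Algebra.algebra_ext
    intro r
    exact (ι.commutes r).symm
  · refine glue_not_cat π₁ π₂ h1 h2 _ he1 he2 he0 ?_ (RingHom.ker (evalRingHom (0 : V)))
      (hp := RingHom.ker_isPrime _) ?_ X y (by simp) X_ne_zero (by simp [π₂, y, b])
      (by simpa [y] using hy0)
    · intro Q hQ hle hne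
      refine prime_eq Q _ (hP := RingHom.ker_isPrime _) hle ?_ hne
      intro v hv
      apply ha
      simpa [π₁] using hv
    · intro f hf
      rw [RingHom.mem_ker] at hf ⊢
      have : π₂ = b.comp (evalRingHom 0) := by
        apply Polynomial.ringHom_ext <;> simp [π₂]
      rw [this, RingHom.comp_apply, hf, map_zero]

end Pool.Agent.H66.GlueCat
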