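import Mathlib

namespace Pool.Agent.H66.Hdy
open Complex Set Metric InnerProductSpace Filter Topology

def U : Set ℂ := {z | (z ^ 4).im ≠ 0}
def Sp : Set ℂ := {z | 0 < z.im ∧ z.im < z.re}

lemma im4 (z : ℂ) : (z ^ 4).im = 4 * z.re * z.im * (z.re ^ 2 - z.im ^ 2) := by
  have : z ^ 4 = z * z * (z * z) := by ring
  rw [this]; simp only [mul_im, mul_re]; ring

lemma Sp_pos {z : ℂ} (hz : z ∈ Sp) : 0 < (z ^ 4).im := by
  rw [im4]
  obtain ⟨h1, h2⟩ := hz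
  have h3 : 0 < z.re := h1.trans h2
  have : 0 < z.re ^ 2 - z.im ^ 2 := by nlinarith
  positivity

lemma harm_comp {u : ℂ → ℝ} {φ : ℂ → ℂ} {z : ℂ} (hu : HarmonicAt u (φ z))
    (hφ : AnalyticAt ℂ φ z) : HarmonicAt (fun w => u (φ w)) z := by
  obtain ⟨r, hr, hb⟩ := Metric.eventually_nhds_iff_ball.1 hu.eventually
  obtain ⟨F, hF, hFe⟩ :=
    HarmonicOnNhd.exists_analyticOnNhd_ball_re_eq (f := u) (z := φ z) (R := r) hb
  have h1 : HarmonicAt (fun w => (F (φ w)).re) z :=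
    ((hF _ (mem_ball_self hr)).comp hφ).harmonicAt_re
  refine (harmonicAt_congr_nhds ?_).1 h1
  filter_upwards [hφ.continuousAt.preimage_mem_nhds (ball_mem_nhds _ hr)] with w hw using hFe hw

noncomputable def sq' (w : ℂ) : ℂ := w ^ (2⁻¹ : ℂ)

lemma sq'_sq (w : ℂ) : sq' w ^ 2 = w := by
  have := Complex.cpow_nat_inv_pow w (n := 2) two_ne_zero
  simpa [sq'] using this

lemma sq'_im {w : ℂ} (hw : w.im ≠ 0) : (sq' w).im ≠ 0 := by
  intro h
  apply hw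
  rw [← sq'_sq w, pow_two, mul_im, h]; simp

lemma sq'_an {w : ℂ} (hw : w.im ≠ 0) : AnalyticAt ℂ sq' w :=
  analyticAt_id.cpow analyticAt_const (Or.inr hw)

noncomputable def cay (w : ℂ) : ℂ := I * (1 + w) / (1 - w)

lemma cay_im {w : ℂ} (hw : ‖w‖ < 1) : (cay w).im ≠ 0 := by
  have h1 : (1 - w) ≠ 0 := by
    intro h
    have : w = 1 := by linear_combination -h
    simp [this] at hw
  have h2 : 0 < normSq (1 - w) := normSq_pos.2 h1
  have h3 : w.re * w.re + w.im * w.im < 1 := by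
    rw [← normSq_apply, normSq_eq_norm_sq]; nlinarith [norm_nonneg w]
  have h4 : (cay w).im = (1 - (w.re * w.re + w.im * w.im)) / normSq (1 - w) := by
    unfold cay
    rw [div_im]
    simp
    field_simp
    ring
  rw [h4]
  exact (div_pos (by linarith) h2).ne'

lemma conj0 {u : ℂ → ℝ} (hu : HarmonicOnNhd u U) (h0 : ∀ z ∈ U, 0 ≤ u z) :
    ∃ h : ℂ → ℂ, ∃ C : ℝ, 0 ≤ C ∧ DifferentiableOn ℂ h Sp ∧ (∀ z ∈ Sp, (h z).re = u z) ∧
      ∀ z ∈ Sp, u z * (z ^ 4).im ≤ C * ‖z ^ 4 + I‖ ^ 2 := by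
  set Φ : ℂ → ℂ := fun w => sq' (sq' (cay w)) with hΦ
  have hΦ4 : ∀ w, Φ w ^ 4 = cay w := fun w => by
    have : Φ w ^ 4 = (Φ w ^ 2) ^ 2 := by ring
    rw [this, hΦ]; simp only [sq'_sq]
  have hΦU : ∀ w, ‖w‖ < 1 → Φ w ∈ U := fun w hw => by
    show (Φ w ^ 4).im ≠ 0
    rw [hΦ4]; exact cay_im hw
  have hΦa : ∀ w, ‖w‖ < 1 → AnalyticAt ℂ Φ w := fun w hw => by
    have h1 : (1 - w) ≠ 0 := by
      intro h
      have : w = 1 := by linear_combination -h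
      simp [this] at hw
    have hc : AnalyticAt ℂ cay w := by
      unfold cay
      exact (analyticAt_const.mul (analyticAt_const.add analyticAt_id)).div
        (analyticAt_const.sub analyticAt_id) h1
    exact (sq'_an (sq'_im (cay_im hw))).comp_of_eq ((sq'_an (cay_im hw)).comp_of_eq hc rfl) rfl
  have hH : HarmonicOnNhd (fun w => u (Φ w)) (ball 0 1) := fun w hw => by
    have hw' : ‖w‖ < 1 := mem_ball_zero_iff.1 hw
    exact harm_comp (hu _ (hΦU w hw')) (hΦa w hw')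
  obtain ⟨H, hHa, hHe⟩ := HarmonicOnNhd.exists_analyticOnNhd_ball_re_eq hH
  set ψ : ℂ → ℂ := fun z => (z ^ 4 - I) / (z ^ 4 + I) with hψ
  have hne : ∀ z ∈ Sp, z ^ 4 + I ≠ 0 := fun z hz h => by
    have := congrArg im h
    have h2 := Sp_pos hz
    simp at this; linarith
  have hA : ∀ z ∈ Sp, ‖z ^ 4 + I‖ ^ 2 - ‖z ^ 4 - I‖ ^ 2 = 4 * (z ^ 4).im := fun z hz => by
    rw [← normSq_eq_norm_sq, ← normSq_eq_norm_sq, normSq_apply, normSq_apply]
    simp; ring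
  have hψn : ∀ z ∈ Sp, ‖ψ z‖ < 1 := fun z hz => by
    have h1 := hA z hz
    have h2 := Sp_pos hz
    have h3 : 0 < ‖z ^ 4 + I‖ := norm_pos_iff.2 (hne z hz)
    rw [hψ]; simp only [norm_div]
    rw [div_lt_one h3]
    by_contra hc
    push Not at hc
    nlinarith
  have hΦψ : ∀ z ∈ Sp, Φ (ψ z) = z := fun z hz => by
    have h1 : cay (ψ z) = (z ^ 2) ^ 2 := by
      have := hne z hz
      have h2 : (1 - ψ z) = 2 * I / (z ^ 4 + I) := by rw [hψ]; field_simp; ring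
      have h3 : (1 + ψ z) = 2 * z ^ 4 / (z ^ 4 + I) := by rw [hψ]; field_simp; ring
      unfold cay
      rw [h2, h3]; field_simp
    obtain ⟨a1, a2⟩ := hz
    have h3 : 0 < z.re := a1.trans a2
    have h4 : 0 < (z ^ 2).re := by rw [pow_two, mul_re]; nlinarith
    rw [hΦ]; simp only [h1, sq']
    rw [sq_cpow_two_inv h4, sq_cpow_two_inv h3]
  have hre : ∀ z ∈ Sp, (H (ψ z)).re = u z := fun z hz => by
    have := hHe (mem_ball_zero_iff.2 (hψn z hz))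
    simp only [hΦψ z hz] at this
    exact this
  refine ⟨fun z => H (ψ z), 1 + ‖H 0‖, by positivity, fun z hz => ?_, hre, fun z hz => ?_⟩
  · have h1 : DifferentiableAt ℂ ψ z := by
      rw [hψ]
      exact DifferentiableAt.div (by fun_prop) (by fun_prop) (hne z hz)
    exact ((hHa _ (mem_ball_zero_iff.2 (hψn z hz))).differentiableAt.comp z h1).differentiableWithinAt
  · have hb := borelCaratheodory (f := fun w => -H w) (M := 1) (R := 1) (z := ψ z) one_pos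
      (hHa.differentiableOn.neg) (fun w hw => by
        have := hHe hw
        have h2 := h0 _ (hΦU w (mem_ball_zero_iff.1 hw))
        simp only at this
        show (-H w).re ≤ 1
        rw [neg_re, this]; linarith) one_pos (mem_ball_zero_iff.2 (hψn z hz))
    simp only [norm_neg] at hb
    set n := ‖ψ z‖ with hn
    have hn1 : n < 1 := hψn z hz
    have hn0 : 0 ≤ n := norm_nonneg _
    have h1 : u z ≤ ‖H (ψ z)‖ := by rw [← hre z hz]; exact re_le_norm _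
    have h2 : u z * (1 - n) ≤ 2 * (1 + ‖H 0‖) := by
      have h3 : ‖H (ψ z)‖ * (1 - n) ≤ 2 * n + ‖H 0‖ * (1 + n) := by
        rw [← add_div, le_div_iff₀ (by linarith)] at hb; linarith
      nlinarith [norm_nonneg (H 0)]
    have h3 : 0 < ‖z ^ 4 + I‖ := norm_pos_iff.2 (hne z hz)
    have h4 : ‖z ^ 4 - I‖ = n * ‖z ^ 4 + I‖ := by
      rw [hn, hψ]; simp only [norm_div]; field_simp
    have h5 := hA z hz
    rw [h4] at h5
    have h6 : 0 ≤ u z := h0 z (Sp_pos hz).ne'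
    set A := ‖z ^ 4 + I‖
    have h7 : (z ^ 4).im = A ^ 2 * (1 - n) * (1 + n) / 4 := by nlinarith
    rw [h7]
    have h8 : u z * (A ^ 2 * (1 - n) * (1 + n) / 4) = (u z * (1 - n)) * ((1 + n) / 4) * A ^ 2 := by ring
    rw [h8]
    have h9 : (u z * (1 - n)) * ((1 + n) / 4) ≤ 1 + ‖H 0‖ := by
      have : 0 ≤ u z * (1 - n) := mul_nonneg h6 (by linarith)
      nlinarith [norm_nonneg (H 0)]
    gcongr

lemma U_mul {d z : ℂ} (hd : d ≠ 0) (hd4 : (d ^ 4).im = 0) : d * z ∈ U ↔ z ∈ U := by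
  have h1 : (d ^ 4).re ≠ 0 := fun h => by
    have : d ^ 4 = 0 := Complex.ext h hd4
    exact hd (pow_eq_zero_iff (by norm_num) |>.1 this)
  simp only [U, mem_setOf_eq, mul_pow, mul_im, hd4]
  simp [h1]

lemma conj1 {u : ℂ → ℝ} (hu : HarmonicOnNhd u U) (h0 : ∀ z ∈ U, 0 ≤ u z) {d : ℂ} (hd : d ≠ 0)
    (hd4 : (d ^ 4).im = 0) :
    ∃ h : ℂ → ℂ, ∃ C : ℝ, 0 ≤ C ∧ DifferentiableOn ℂ h {z | d * z ∈ Sp} ∧
      (∀ z, d * z ∈ Sp → (h z).re = u z) ∧
      ∀ z, d * z ∈ Sp → u z * ((d * z) ^ 4).im ≤ C * ‖(d * z) ^ 4 + I‖ ^ 2 := by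
  have hm : ∀ z ∈ U, d⁻¹ * z ∈ U := fun z hz => by
    rw [← U_mul hd hd4, mul_inv_cancel_left₀ hd]; exact hz
  obtain ⟨h, C, hC, h1, h2, h3⟩ := conj0 (u := fun z => u (d⁻¹ * z))
    (fun z hz => harm_comp (φ := fun z => d⁻¹ * z) (hu _ (hm z hz)) (by fun_prop))
    (fun z hz => h0 _ (hm z hz))
  refine ⟨fun z => h (d * z), C, hC, ?_, fun z hz => ?_, fun z hz => ?_⟩
  · exact h1.comp (by fun_prop) (fun z hz => hz)
  · simpa [inv_mul_cancel_left₀ hd] using h2 _ hz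
  · simpa only [inv_mul_cancel_left₀ hd] using h3 _ hz

lemma growthU {u : ℂ → ℝ} (hu : HarmonicOnNhd u U) (h0 : ∀ z ∈ U, 0 ≤ u z) :
    ∃ C : ℝ, 0 ≤ C ∧ ∀ z ∈ U, u z * |(z ^ 4).im| ≤ C * (4 * ‖z‖ ^ 4 + 1) ^ 2 := by
  have key : ∀ d : ℂ, (d ^ 4 = 1 ∨ d ^ 4 = -4) → ∃ C : ℝ, 0 ≤ C ∧ ∀ z, d * z ∈ Sp →
      u z * |(z ^ 4).im| ≤ C * (4 * ‖z‖ ^ 4 + 1) ^ 2 := by
    intro d hd
    have hd0 : d ≠ 0 := by rintro rfl; norm_num at hd
    have hd4 : (d ^ 4).im = 0 := by rcases hd with h | h <;> simp [h]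
    obtain ⟨h, C, hC, -, -, h3⟩ := conj1 hu h0 hd0 hd4
    refine ⟨C, hC, fun z hz => ?_⟩
    have h4 := h3 z hz
    have h5 := Sp_pos hz
    have h6 : 0 ≤ u z := h0 z ((U_mul hd0 hd4).1 h5.ne')
    have h7 : |(z ^ 4).im| ≤ ((d * z) ^ 4).im := by
      rw [mul_pow] at h5 ⊢
      rcases hd with h | h <;> rw [h] at h5 ⊢ <;> simp at h5 ⊢ <;> rw [abs_le] <;>
        constructor <;> linarith
    have h8 : ‖(d * z) ^ 4 + I‖ ≤ 4 * ‖z‖ ^ 4 + 1 := by
      refine (norm_add_le _ _).trans ?_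
      rw [mul_pow, norm_mul, norm_pow z, norm_I]
      have : ‖d ^ 4‖ ≤ 4 := by rcases hd with h | h <;> simp [h]
      gcongr
    calc u z * |(z ^ 4).im| ≤ u z * ((d * z) ^ 4).im := by gcongr
      _ ≤ _ := h4
      _ ≤ _ := by gcongr
  have I4 : ∀ a b : ℂ, (a + b * I) ^ 4 = (a ^ 4 - 6 * a ^ 2 * b ^ 2 + b ^ 4) +
      (4 * a ^ 3 * b - 4 * a * b ^ 3) * I := fun a b => by
    have : I ^ 2 = -1 := I_sq
    linear_combination (6 * a ^ 2 * b ^ 2 + 4 * a * b ^ 3 * I + b ^ 4 * (I ^ 2 - 1)) * this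
  obtain ⟨C1, p1, k1⟩ := key (1 + 0 * I) (by rw [I4]; norm_num)
  obtain ⟨C2, p2, k2⟩ := key (-1 + 0 * I) (by rw [I4]; norm_num)
  obtain ⟨C3, p3, k3⟩ := key (0 + 1 * I) (by rw [I4]; norm_num)
  obtain ⟨C4, p4, k4⟩ := key (0 + (-1) * I) (by rw [I4]; norm_num)
  obtain ⟨C5, p5, k5⟩ := key (1 + 1 * I) (by rw [I4]; norm_num)
  obtain ⟨C6, p6, k6⟩ := key (1 + (-1) * I) (by rw [I4]; norm_num)
  obtain ⟨C7, p7, k7⟩ := key (-1 + 1 * I) (by rw [I4]; norm_num)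
  obtain ⟨C8, p8, k8⟩ := key (-1 + (-1) * I) (by rw [I4]; norm_num)
  refine ⟨C1 + C2 + C3 + C4 + C5 + C6 + C7 + C8, by positivity, fun z hz => ?_⟩
  have hQ : 0 ≤ (4 * ‖z‖ ^ 4 + 1) ^ 2 := by positivity
  have fin : ∀ C, C ≤ C1 + C2 + C3 + C4 + C5 + C6 + C7 + C8 →
      u z * |(z ^ 4).im| ≤ C * (4 * ‖z‖ ^ 4 + 1) ^ 2 →
      u z * |(z ^ 4).im| ≤ (C1 + C2 + C3 + C4 + C5 + C6 + C7 + C8) * (4 * ‖z‖ ^ 4 + 1) ^ 2 :=
    fun C h1 h2 => h2.trans (by gcongr)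
  have hz' : 4 * z.re * z.im * (z.re ^ 2 - z.im ^ 2) ≠ 0 := by rw [← im4]; exact hz
  have hx : z.re ≠ 0 := fun h => hz' (by simp [h])
  have hy : z.im ≠ 0 := fun h => hz' (by simp [h])
  have hs : z.re - z.im ≠ 0 := fun h => hz' (by
    have : z.re ^ 2 - z.im ^ 2 = (z.re - z.im) * (z.re + z.im) := by ring
    simp [this, h])
  have ht : z.re + z.im ≠ 0 := fun h => hz' (by
    have : z.re ^ 2 - z.im ^ 2 = (z.re - z.im) * (z.re + z.im) := by ring
    simp [this, h])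
  rcases hx.lt_or_gt with hx | hx <;> rcases hy.lt_or_gt with hy | hy <;>
    rcases hs.lt_or_gt with hs | hs <;> rcases ht.lt_or_gt with ht | ht <;>
  first
    | linarith
    | (refine fin C1 (by linarith) (k1 z ?_); constructor <;> simp <;> linarith)
    | (refine fin C2 (by linarith) (k2 z ?_); constructor <;> simp <;> linarith)
    | (refine fin C3 (by linarith) (k3 z ?_); constructor <;> simp <;> linarith)
    | (refine fin C4 (by linarith) (k4 z ?_); constructor <;> simp <;> linarith)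
    | (refine fin C5 (by linarith) (k5 z ?_); constructor <;> simp <;> linarith)
    | (refine fin C6 (by linarith) (k6 z ?_); constructor <;> simp <;> linarith)
    | (refine fin C7 (by linarith) (k7 z ?_); constructor <;> simp <;> linarith)
    | (refine fin C8 (by linarith) (k8 z ?_); constructor <;> simp <;> linarith)

end Pool.Agent.H66.Hdy
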