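import Pool.Agent.H66.Hdy1

namespace Pool.Agent.H66.Hdy
open Complex Set Metric InnerProductSpace Filter Topology MeasureTheory intervalIntegral
open scoped Real Interval

lemma re_int {F : ℝ → ℂ} {s t : ℝ} (hF : ContinuousOn F (uIcc s t)) :
    (∫ x in s..t, F x).re = ∫ x in s..t, (F x).re :=
  (Complex.reCLM.intervalIntegral_comp_comm hF.intervalIntegrable).symm

lemma im_int {F : ℝ → ℂ} {s t : ℝ} (hF : ContinuousOn F (uIcc s t)) :
    (∫ x in s..t, F x).im = ∫ x in s..t, (F x).im :=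
  (Complex.imCLM.intervalIntegral_comp_comm hF.intervalIntegrable).symm

lemma sinh_int {r : ℝ → ℝ} {y d : ℝ} (hr : ∀ t ∈ uIcc y d, 0 ≤ r t) :
    0 ≤ ∫ t in y..d, r t * Real.sinh (π * (t - y)) := by
  rcases le_total y d with h | h
  · refine intervalIntegral.integral_nonneg h fun t ht => mul_nonneg (hr t (by rwa [uIcc_of_le h])) ?_
    exact Real.sinh_nonneg_iff.2 (mul_nonneg Real.pi_pos.le (by linarith [ht.1]))
  · rw [integral_symm, ← intervalIntegral.integral_neg]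
    refine intervalIntegral.integral_nonneg h fun t ht => ?_
    have h1 := hr t (by rwa [uIcc_of_ge h])
    have h2 : Real.sinh (π * (t - y)) ≤ 0 :=
      Real.sinh_nonpos_iff.2 (mul_nonpos_of_nonneg_of_nonpos Real.pi_pos.le (by linarith [ht.2]))
    nlinarith

lemma norm_cos_le (z : ℂ) : ‖cos z‖ ≤ Real.exp ‖z‖ := by
  have h1 : ‖exp (z * I)‖ ≤ Real.exp ‖z‖ := by simpa using norm_exp_le_exp_norm (z * I)
  have h2 : ‖exp (-z * I)‖ ≤ Real.exp ‖z‖ := by simpa using norm_exp_le_exp_norm (-z * I)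
  rw [Complex.cos, norm_div]
  have := norm_add_le (exp (z * I)) (exp (-z * I))
  simp only [Complex.norm_ofNat]
  linarith

lemma weight {h : ℂ → ℂ} {y d M : ℝ} (hy : |y| ≤ 1) (hd : |d| ≤ 1)
    (hh : DifferentiableOn ℂ h (uIcc (1 / 2 : ℝ) (3 / 2) ×ℂ uIcc y d))
    (h0 : ∀ z ∈ uIcc (1 / 2 : ℝ) (3 / 2) ×ℂ uIcc y d, 0 ≤ (h z).re)
    (hM : ∀ x ∈ uIcc (1 / 2 : ℝ) (3 / 2), ‖h (x + d * I)‖ ≤ M) :
    ∫ x in (1 / 2 : ℝ)..(3 / 2), (h (x + y * I)).re * Real.cos (π * (x - 1)) ≤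
      M * Real.exp 12 := by
  set w : ℂ → ℂ := fun ζ => cos (π * (ζ - 1 - y * I)) with hw
  have hwd : Differentiable ℂ w := by rw [hw]; fun_prop
  have hF : DifferentiableOn ℂ (fun ζ => h ζ * w ζ) (uIcc (1 / 2 : ℝ) (3 / 2) ×ℂ uIcc y d) :=
    hh.mul hwd.differentiableOn
  have key := integral_boundary_rect_eq_zero_of_differentiableOn (fun ζ => h ζ * w ζ)
    ⟨1 / 2, y⟩ ⟨3 / 2, d⟩ hF
  simp only [smul_eq_mul] at key
  have mem : ∀ x s : ℝ, x ∈ uIcc (1 / 2 : ℝ) (3 / 2) → s ∈ uIcc y d →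
      (x + s * I : ℂ) ∈ uIcc (1 / 2 : ℝ) (3 / 2) ×ℂ uIcc y d := fun x s hx hs => by
    rw [mem_reProdIm]; exact ⟨by simpa using hx, by simpa using hs⟩
  have cH : ∀ s ∈ uIcc y d, ContinuousOn (fun x : ℝ => h (x + s * I) * w (x + s * I))
      (uIcc (1 / 2 : ℝ) (3 / 2)) := fun s hs =>
    hF.continuousOn.comp (f := fun x : ℝ => (x + s * I : ℂ)) (by fun_prop) fun x hx => mem x s hx hs
  have cV : ∀ x ∈ uIcc (1 / 2 : ℝ) (3 / 2), ContinuousOn
      (fun s : ℝ => h (x + s * I) * w (x + s * I)) (uIcc y d) := fun x hx =>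
    hF.continuousOn.comp (f := fun s : ℝ => (x + s * I : ℂ)) (by fun_prop) fun s hs => mem x s hx hs
  have e1 : (∫ x : ℝ in (1 / 2 : ℝ)..(3 / 2), h (x + y * I) * w (x + y * I)).re =
      ∫ x in (1 / 2 : ℝ)..(3 / 2), (h (x + y * I)).re * Real.cos (π * (x - 1)) := by
    rw [re_int (cH y left_mem_uIcc)]
    congr 1; ext x
    have : w (x + y * I) = (Real.cos (π * (x - 1)) : ℝ) := by
      rw [hw]; push_cast; congr 1; ring
    rw [this, mul_re, ofReal_re, ofReal_im]; ring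
  have e2 : (I * ∫ s : ℝ in y..d, h (((3 / 2 : ℝ) : ℂ) + s * I) * w (((3 / 2 : ℝ) : ℂ) + s * I)).re =
      ∫ s in y..d, (h (((3 / 2 : ℝ) : ℂ) + s * I)).re * Real.sinh (π * (s - y)) := by
    rw [mul_re, I_re, I_im, im_int (cV _ right_mem_uIcc), zero_mul, one_mul, zero_sub,
      ← intervalIntegral.integral_neg]
    congr 1; ext s
    have : w (((3 / 2 : ℝ) : ℂ) + s * I) = -(Real.sinh (π * (s - y)) : ℝ) * I := by
      rw [hw]; push_cast
      have : (π : ℂ) * (3 / 2 + s * I - 1 - y * I) = (π * (s - y)) * I + π / 2 := by ring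
      simp only [this, cos_add_pi_div_two, sin_mul_I]; ring
    rw [this]; simp only [mul_im, mul_re, neg_re, neg_im, ofReal_re, ofReal_im, I_re, I_im]; ring
  have e3 : (I * ∫ s : ℝ in y..d, h (((1 / 2 : ℝ) : ℂ) + s * I) * w (((1 / 2 : ℝ) : ℂ) + s * I)).re =
      -∫ s in y..d, (h (((1 / 2 : ℝ) : ℂ) + s * I)).re * Real.sinh (π * (s - y)) := by
    rw [mul_re, I_re, I_im, im_int (cV _ left_mem_uIcc), zero_mul, one_mul, zero_sub]
    congr 2; ext s
    have : w (((1 / 2 : ℝ) : ℂ) + s * I) = (Real.sinh (π * (s - y)) : ℝ) * I := by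
      rw [hw]; push_cast
      have : (π : ℂ) * (1 / 2 + s * I - 1 - y * I) = (π * (s - y)) * I - π / 2 := by ring
      simp only [this, cos_sub_pi_div_two, sin_mul_I]
    rw [this]; simp only [mul_im, mul_re, neg_re, neg_im, ofReal_re, ofReal_im, I_re, I_im]; ring
  have p2 := sinh_int (r := fun s => (h (((3 / 2 : ℝ) : ℂ) + s * I)).re)
    (fun s hs => h0 _ (mem _ s right_mem_uIcc hs))
  have p3 := sinh_int (r := fun s => (h (((1 / 2 : ℝ) : ℂ) + s * I)).re)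
    (fun s hs => h0 _ (mem _ s left_mem_uIcc hs))
  have e4 : ‖∫ x : ℝ in (1 / 2 : ℝ)..(3 / 2), h (x + d * I) * w (x + d * I)‖ ≤
      M * Real.exp 12 * |(3 / 2 : ℝ) - 1 / 2| := by
    refine norm_integral_le_of_norm_le_const fun x hx => ?_
    have hx' : x ∈ uIcc (1 / 2 : ℝ) (3 / 2) := uIoc_subset_uIcc hx
    have h1 := hM x hx'
    rw [norm_mul]
    refine mul_le_mul h1 ((norm_cos_le _).trans (Real.exp_le_exp.2 ?_)) (norm_nonneg _)
      ((norm_nonneg _).trans h1)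
    rw [uIcc_of_le (by norm_num)] at hx'
    have h2 : (x + d * I - 1 - y * I : ℂ) = ((x - 1 : ℝ) : ℂ) + ((d - y : ℝ) : ℂ) * I := by
      push_cast; ring
    rw [norm_mul, h2, norm_real, Real.norm_eq_abs, abs_of_pos Real.pi_pos]
    have h3 : ‖((x - 1 : ℝ) : ℂ) + ((d - y : ℝ) : ℂ) * I‖ ≤ 3 := by
      refine (norm_add_le _ _).trans ?_
      rw [norm_mul, norm_I, norm_real, norm_real, Real.norm_eq_abs, Real.norm_eq_abs]
      have : |x - 1| ≤ 1 := abs_le.2 ⟨by linarith [hx'.1], by linarith [hx'.2]⟩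
      have : |d - y| ≤ 2 := (abs_sub _ _).trans (by linarith)
      linarith
    nlinarith [Real.pi_le_four, norm_nonneg (((x - 1 : ℝ) : ℂ) + ((d - y : ℝ) : ℂ) * I), Real.pi_pos]
  have k := congrArg re key
  rw [sub_re, add_re, sub_re, e1, e2, e3, zero_re] at k
  have := (re_le_norm _).trans e4
  norm_num at this k p2 p3 ⊢
  linarith

lemma half {u : ℂ → ℝ} {h : ℂ → ℂ} {d : ℝ} (hd : |d| ≤ 1) {W : Set ℂ}
    (hh : DifferentiableOn ℂ h W) (hre : ∀ z ∈ W, (h z).re = u z) (h0 : ∀ z ∈ W, 0 ≤ u z)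
    (hW : ∀ x ∈ uIcc (1 / 2 : ℝ) (3 / 2), (x + d * I : ℂ) ∈ W) :
    ∃ C, ∀ y, |y| ≤ 1 → uIcc (1 / 2 : ℝ) (3 / 2) ×ℂ uIcc y d ⊆ W →
      ∫ x in (3 / 4 : ℝ)..(5 / 4), u (x + y * I) ≤ C := by
  obtain ⟨M, hM⟩ := isCompact_uIcc.exists_bound_of_continuousOn
    (hh.continuousOn.comp (f := fun x : ℝ => (x + d * I : ℂ)) (by fun_prop) hW)
  refine ⟨2 * (M * Real.exp 12), fun y hy hs => ?_⟩
  have key := weight hy hd (hh.mono hs) (fun z hz => by rw [hre z (hs hz)]; exact h0 z (hs hz)) hM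
  have mem : ∀ x : ℝ, x ∈ uIcc (1 / 2 : ℝ) (3 / 2) → (x + y * I : ℂ) ∈ W := fun x hx => hs (by
    rw [mem_reProdIm]; simpa using hx)
  have c1 : ContinuousOn (fun x : ℝ => (h (x + y * I)).re) (uIcc (1 / 2 : ℝ) (3 / 2)) :=
    continuous_re.comp_continuousOn
      (hh.continuousOn.comp (f := fun x : ℝ => (x + y * I : ℂ)) (by fun_prop) mem)
  have c2 : ContinuousOn (fun x : ℝ => (h (x + y * I)).re * Real.cos (π * (x - 1)))
      (uIcc (1 / 2 : ℝ) (3 / 2)) := c1.mul (by fun_prop)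
  have sub : uIcc (3 / 4 : ℝ) (5 / 4) ⊆ uIcc (1 / 2 : ℝ) (3 / 2) := by
    rw [uIcc_of_le (by norm_num), uIcc_of_le (by norm_num)]
    exact Icc_subset_Icc (by norm_num) (by norm_num)
  have k1 : ∫ x in (3 / 4 : ℝ)..(5 / 4), (h (x + y * I)).re * Real.cos (π * (x - 1)) ≤
      ∫ x in (1 / 2 : ℝ)..(3 / 2), (h (x + y * I)).re * Real.cos (π * (x - 1)) := by
    refine integral_mono_interval (by norm_num) (by norm_num) (by norm_num) ?_ c2.intervalIntegrable
    refine (ae_restrict_iff' measurableSet_Ioc).2 (Eventually.of_forall fun x hx => ?_)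
    have hx' : x ∈ uIcc (1 / 2 : ℝ) (3 / 2) := by
      rw [uIcc_of_le (by norm_num)]; exact Ioc_subset_Icc_self hx
    refine mul_nonneg (by rw [hre _ (mem x hx')]; exact h0 _ (mem x hx')) ?_
    apply Real.cos_nonneg_of_mem_Icc
    constructor <;> nlinarith [hx.1, hx.2, Real.pi_pos]
  have k2 : ∫ x in (3 / 4 : ℝ)..(5 / 4), u (x + y * I) ≤
      ∫ x in (3 / 4 : ℝ)..(5 / 4), 2 * ((h (x + y * I)).re * Real.cos (π * (x - 1))) := by
    refine integral_mono_on (by norm_num) ?_ ((c2.mono sub).intervalIntegrable.const_mul 2) ?_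
    · refine ((c1.mono sub).congr fun x hx => ?_).intervalIntegrable
      exact (hre _ (mem x (sub hx))).symm
    · intro x hx
      have hx' : x ∈ uIcc (1 / 2 : ℝ) (3 / 2) := sub (by rwa [uIcc_of_le (by norm_num)])
      rw [hre _ (mem x hx')]
      have h1 := h0 _ (mem x hx')
      have h2 := Real.one_sub_sq_div_two_le_cos (x := π * (x - 1))
      have h3 : (π * (x - 1)) ^ 2 ≤ 1 := by
        have a1 : (x - 1) ^ 2 ≤ 1 / 16 := by nlinarith [hx.1, hx.2]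
        have a2 : π ^ 2 ≤ 16 := by nlinarith [Real.pi_le_four, Real.pi_pos]
        rw [mul_pow]; nlinarith [sq_nonneg (x - 1), sq_nonneg π]
      nlinarith
  rw [intervalIntegral.integral_const_mul] at k2
  linarith

lemma l2 {u : ℂ → ℝ} (hu : HarmonicOnNhd u U) (h0 : ∀ z ∈ U, 0 ≤ u z) :
    ∃ C, ∀ y : ℝ, y ≠ 0 → |y| ≤ 1 / 4 → ∫ x in (3 / 4 : ℝ)..(5 / 4), u (x + y * I) ≤ C := by
  obtain ⟨h, -, -, a1, a2, -⟩ := conj0 hu h0
  have hd4 : ((1 + I) ^ 4).im = 0 := by rw [im4]; simp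
  have hd0 : (1 + I : ℂ) ≠ 0 := fun h => by simpa using congrArg re h
  obtain ⟨h', -, -, b1, b2, -⟩ := conj1 hu h0 hd0 hd4
  have e : uIcc (1 / 2 : ℝ) (3 / 2) = Icc (1 / 2) (3 / 2) := uIcc_of_le (by norm_num)
  obtain ⟨C1, k1⟩ := half (u := u) (d := 1 / 4) (by norm_num [abs_le]) a1 a2
    (fun z hz => h0 z (Sp_pos hz).ne') (fun x hx => by
      rw [e] at hx
      constructor <;> simp
      linarith [hx.1])
  obtain ⟨C2, k2⟩ := half (u := u) (d := -1 / 4) (by norm_num [abs_le]) b1 b2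
    (fun z hz => h0 z ((U_mul hd0 hd4).1 (Sp_pos hz).ne')) (fun x hx => by
      rw [e] at hx
      constructor <;> simp <;> linarith [hx.1])
  refine ⟨max C1 C2, fun y hy hy4 => ?_⟩
  have hy1 : |y| ≤ 1 := by linarith
  rw [abs_le] at hy4
  rcases hy.lt_or_gt with hy | hy
  · refine (k2 y hy1 fun z hz => ?_).trans (le_max_right _ _)
    rw [mem_reProdIm, e, uIcc_of_ge (by linarith)] at hz
    constructor <;> simp <;> linarith [hz.1.1, hz.2.1, hz.2.2]
  · refine (k1 y hy1 fun z hz => ?_).trans (le_max_left _ _)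
    rw [mem_reProdIm, e, uIcc_of_le (by linarith)] at hz
    constructor <;> linarith [hz.1.1, hz.2.1, hz.2.2]

end Pool.Agent.H66.Hdy
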