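import Pool.Agent.H66.Hdy2

namespace Pool.Agent.H66.Hdy
open Complex Set Metric InnerProductSpace Filter Topology MeasureTheory intervalIntegral
open scoped Real Interval

noncomputable def Bd (a b : ℝ) (φ : ℂ → ℂ) (s t : ℝ) : ℂ :=
  (∫ x : ℝ in a..b, φ (x + s * I)) - (∫ x : ℝ in a..b, φ (x + t * I)) +
    I * (∫ y : ℝ in s..t, φ (b + y * I)) - I * ∫ y : ℝ in s..t, φ (a + y * I)

lemma memU {x y : ℝ} (hx : 3 / 4 ≤ x) (hy : y ≠ 0) (hy' : |y| ≤ 1 / 4) : (x + y * I : ℂ) ∈ U := by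
  show ((x + y * I : ℂ) ^ 4).im ≠ 0
  rw [im4]
  simp only [add_re, ofReal_re, mul_re, I_re, mul_zero, ofReal_im, I_im, mul_one, sub_self,
    add_zero, add_im, mul_im, zero_add]
  rw [abs_le] at hy'
  have : 0 < x ^ 2 - y ^ 2 := by nlinarith
  have hx0 : x ≠ 0 := by linarith
  positivity

lemma ui {k : ℝ → ℝ → ℂ} {a b C : ℝ} (hab : a ≤ b)
    (hc : ∀ᶠ y in 𝓝[>] (0 : ℝ), ContinuousOn (k y) (uIcc a b))
    (hb : ∀ᶠ y in 𝓝[>] (0 : ℝ), ∫ x in a..b, ‖k y x‖ ^ 2 ≤ C)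
    (hl : ∀ᵐ x : ℝ, x ∈ Ι a b → Tendsto (fun y => k y x) (𝓝[>] 0) (𝓝 0)) :
    Tendsto (fun y => ∫ x in a..b, k y x) (𝓝[>] 0) (𝓝 0) := by
  rw [Metric.tendsto_nhds]
  intro ε hε
  set M := 2 * (|C| + 1) / ε with hM
  have hM0 : 0 < M := by positivity
  have h1 : Tendsto (fun y => ∫ x in a..b, min ‖k y x‖ M) (𝓝[>] 0) (𝓝 (∫ x in a..b, (0 : ℝ))) := by
    refine intervalIntegral.tendsto_integral_filter_of_dominated_convergence (fun _ => M) ?_ ?_
      intervalIntegrable_const ?_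
    · filter_upwards [hc] with y hy
      exact ((hy.norm.inf continuousOn_const).mono uIoc_subset_uIcc).aestronglyMeasurable
        measurableSet_uIoc
    · refine Eventually.of_forall fun y => Eventually.of_forall fun x _ => ?_
      rw [Real.norm_eq_abs, abs_of_nonneg (le_min (norm_nonneg _) hM0.le)]
      exact min_le_right _ _
    · filter_upwards [hl] with x hx hx'
      have := (hx hx').norm.min (tendsto_const_nhds (x := M))
      simpa [hM0.le] using this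
  rw [intervalIntegral.integral_zero] at h1
  filter_upwards [hc, hb, h1.eventually (gt_mem_nhds (half_pos hε))] with y hy hy2 hy3
  rw [dist_zero_right]
  have c1 : IntervalIntegrable (fun x => min ‖k y x‖ M) volume a b :=
    (hy.norm.inf continuousOn_const).intervalIntegrable
  have c2 : IntervalIntegrable (fun x => ‖k y x‖ ^ 2) volume a b := (hy.norm.pow 2).intervalIntegrable
  have h2 : ∫ x in a..b, ‖k y x‖ ≤ ∫ x in a..b, (min ‖k y x‖ M + M⁻¹ * ‖k y x‖ ^ 2) := by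
    refine integral_mono_on hab hy.norm.intervalIntegrable (c1.add (c2.const_mul _)) fun x _ => ?_
    rcases le_total ‖k y x‖ M with h | h
    · rw [min_eq_left h]; have : 0 ≤ M⁻¹ * ‖k y x‖ ^ 2 := by positivity
      linarith
    · rw [min_eq_right h]
      have : ‖k y x‖ ≤ M⁻¹ * ‖k y x‖ ^ 2 := by
        rw [inv_mul_eq_div, le_div_iff₀ hM0]; nlinarith
      linarith
  rw [intervalIntegral.integral_add c1 (c2.const_mul _), intervalIntegral.integral_const_mul] at h2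
  have h3 : M⁻¹ * ∫ x in a..b, ‖k y x‖ ^ 2 ≤ ε / 2 := by
    rw [inv_mul_eq_div, div_le_iff₀ hM0, hM]
    have : ε / 2 * (2 * (|C| + 1) / ε) = |C| + 1 := by field_simp
    rw [this]; linarith [le_abs_self C]
  linarith [intervalIntegral.norm_integral_le_integral_norm (f := k y) (μ := volume) hab]

lemma bd_zero {D : Set ℂ} (hD : IsOpen D) (hU : U ⊆ D) (hae : ∀ᵐ t : ℝ, (t : ℂ) ∈ D) {a b : ℝ}
    (ha : 3 / 4 ≤ a) (hab : a ≤ b) (haD : (a : ℂ) ∈ D) (hbD : (b : ℂ) ∈ D) {φ : ℂ → ℂ}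
    (hφ : DifferentiableOn ℂ φ D) {C y0 : ℝ} (hy0 : 0 < y0)
    (hC : ∀ y : ℝ, y ≠ 0 → |y| < y0 → ∫ x in a..b, ‖φ (x + y * I)‖ ^ 2 ≤ C) :
    Bd a b φ (-(1 / 4)) (1 / 4) = 0 := by
  have memV : ∀ x : ℝ, 3 / 4 ≤ x → (x : ℂ) ∈ D → ∀ y : ℝ, |y| ≤ 1 / 4 → (x + y * I : ℂ) ∈ D := by
    intro x hx hxD y hy
    by_cases h : y = 0
    · simpa [h] using hxD
    · exact hU (memU hx h hy)
  have cV : ∀ x : ℝ, 3 / 4 ≤ x → (x : ℂ) ∈ D →
      ContinuousOn (fun y : ℝ => φ (x + y * I)) (Icc (-(1 / 4)) (1 / 4)) := fun x hx hxD =>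
    hφ.continuousOn.comp (f := fun y : ℝ => (x + y * I : ℂ)) (by fun_prop)
      fun y hy => memV x hx hxD y (abs_le.2 hy)
  have cH : ∀ y : ℝ, y ≠ 0 → |y| ≤ 1 / 4 →
      ContinuousOn (fun x : ℝ => φ (x + y * I)) (uIcc a b) := fun y hy hy' =>
    hφ.continuousOn.comp (f := fun x : ℝ => (x + y * I : ℂ)) (by fun_prop)
      fun x hx => hU (memU (by rw [uIcc_of_le hab] at hx; linarith [hx.1]) hy hy')
  have cau : ∀ s t : ℝ, (∀ y ∈ uIcc s t, y ≠ 0 ∧ |y| ≤ 1 / 4) → Bd a b φ s t = 0 := by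
    intro s t hst
    have := integral_boundary_rect_eq_zero_of_differentiableOn φ ⟨a, s⟩ ⟨b, t⟩ (hφ.mono ?_)
    · simpa only [smul_eq_mul, Bd] using this
    · intro z hz
      rw [mem_reProdIm] at hz
      simp only [uIcc_of_le hab] at hz
      rw [← re_add_im z]
      exact hU (memU (by linarith [hz.1.1]) (hst _ hz.2).1 (hst _ hz.2).2)
  have ev : ∀ᶠ y in 𝓝[>] (0 : ℝ), 0 < y ∧ y < min y0 (1 / 4) := by
    filter_upwards [Ioo_mem_nhdsGT (lt_min hy0 (by norm_num : (0 : ℝ) < 1 / 4))] with y hy using hy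
  have split : ∀ x : ℝ, 3 / 4 ≤ x → (x : ℂ) ∈ D → ∀ y : ℝ, 0 < y → y < 1 / 4 →
      ∫ s : ℝ in (-(1 / 4) : ℝ)..(1 / 4), φ (x + s * I) = (∫ s : ℝ in (-(1 / 4) : ℝ)..(-y), φ (x + s * I)) +
        (∫ s : ℝ in (-y)..y, φ (x + s * I)) + ∫ s : ℝ in y..(1 / 4), φ (x + s * I) := by
    intro x hx hxD y h1 h2
    have ii : ∀ s t : ℝ, s ≤ t → -(1 / 4) ≤ s → t ≤ 1 / 4 →
        IntervalIntegrable (fun s : ℝ => φ (x + s * I)) volume s t := fun s t a1 a2 a3 =>
      ((cV x hx hxD).mono (by rw [uIcc_of_le a1]; exact Icc_subset_Icc a2 a3)).intervalIntegrable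
    rw [integral_add_adjacent_intervals (ii _ _ (by linarith) le_rfl (by linarith))
      (ii _ _ (by linarith) (by linarith) (by linarith)),
      integral_add_adjacent_intervals (ii _ _ (by linarith) le_rfl (by linarith))
      (ii _ _ (by linarith) (by linarith) le_rfl)]
  have eq1 : ∀ᶠ y in 𝓝[>] (0 : ℝ), (∫ x : ℝ in a..b, (φ (x + (-y : ℝ) * I) - φ (x + y * I))) +
      I * (∫ s : ℝ in (-y)..y, φ (b + s * I)) - I * (∫ s : ℝ in (-y)..y, φ (a + s * I)) =
      Bd a b φ (-(1 / 4)) (1 / 4) := by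
    filter_upwards [ev] with y hy
    have h2 : y < 1 / 4 := hy.2.trans_le (min_le_right _ _)
    have k1 := cau (-(1 / 4)) (-y) fun s hs => by
      rw [uIcc_of_le (by linarith)] at hs
      exact ⟨by linarith [hs.2], abs_le.2 ⟨hs.1, by linarith [hs.2]⟩⟩
    have k2 := cau y (1 / 4) fun s hs => by
      rw [uIcc_of_le (by linarith)] at hs
      exact ⟨by linarith [hs.1], abs_le.2 ⟨by linarith [hs.1], hs.2⟩⟩
    rw [intervalIntegral.integral_sub (cH (-y) (by linarith) (by rw [abs_neg, abs_of_pos hy.1]; linarith)).intervalIntegrable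
      (cH y hy.1.ne' (by rw [abs_of_pos hy.1]; linarith)).intervalIntegrable]
    unfold Bd at k1 k2 ⊢
    rw [split a ha haD y hy.1 h2, split b (ha.trans hab) hbD y hy.1 h2]
    linear_combination -k1 - k2
  have lV : ∀ x : ℝ, 3 / 4 ≤ x → (x : ℂ) ∈ D →
      Tendsto (fun y : ℝ => ∫ s : ℝ in (-y)..y, φ (x + s * I)) (𝓝[>] 0) (𝓝 0) := by
    intro x hx hxD
    obtain ⟨M, hM⟩ := isCompact_Icc.exists_bound_of_continuousOn (cV x hx hxD)
    refine squeeze_zero_norm' (a := fun y => M * |y - -y|) ?_ ?_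
    · filter_upwards [ev] with y hy
      have h2 : y < 1 / 4 := hy.2.trans_le (min_le_right _ _)
      refine norm_integral_le_of_norm_le_const fun s hs => hM s ?_
      rw [uIoc_of_le (by linarith)] at hs
      exact ⟨by linarith [hs.1], by linarith [hs.2]⟩
    · have : Continuous fun y : ℝ => M * |y - -y| := by fun_prop
      simpa using (this.tendsto 0).mono_left nhdsWithin_le_nhds
  have lH : Tendsto (fun y : ℝ => ∫ x : ℝ in a..b, (φ (x + (-y : ℝ) * I) - φ (x + y * I)))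
      (𝓝[>] 0) (𝓝 0) := by
    have cc : ∀ᶠ y in 𝓝[>] (0 : ℝ), ContinuousOn (fun x : ℝ => φ (x + (-y : ℝ) * I)) (uIcc a b) ∧
        ContinuousOn (fun x : ℝ => φ (x + y * I)) (uIcc a b) := by
      filter_upwards [ev] with y hy
      have h2 : y < 1 / 4 := hy.2.trans_le (min_le_right _ _)
      exact ⟨cH (-y) (by linarith) (by rw [abs_neg, abs_of_pos hy.1]; linarith),
        cH y hy.1.ne' (by rw [abs_of_pos hy.1]; linarith)⟩
    refine ui (C := 2 * C + 2 * C) hab ?_ ?_ ?_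
    · filter_upwards [cc] with y hy using hy.1.sub hy.2
    · filter_upwards [cc, ev] with y hy hy'
      have h2 : y < y0 := hy'.2.trans_le (min_le_left _ _)
      have k1 := hC (-y) (by linarith) (by rwa [abs_neg, abs_of_pos hy'.1])
      have k2 := hC y hy'.1.ne' (by rwa [abs_of_pos hy'.1])
      have i1 : IntervalIntegrable (fun x : ℝ => ‖φ (x + (-y : ℝ) * I)‖ ^ 2) volume a b :=
        (hy.1.norm.pow 2).intervalIntegrable
      have i2 : IntervalIntegrable (fun x : ℝ => ‖φ (x + y * I)‖ ^ 2) volume a b :=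
        (hy.2.norm.pow 2).intervalIntegrable
      have k3 : ∫ x : ℝ in a..b, ‖φ (x + (-y : ℝ) * I) - φ (x + y * I)‖ ^ 2 ≤
          ∫ x : ℝ in a..b, (2 * ‖φ (x + (-y : ℝ) * I)‖ ^ 2 + 2 * ‖φ (x + y * I)‖ ^ 2) := by
        refine integral_mono_on hab ((hy.1.sub hy.2).norm.pow 2).intervalIntegrable
          ((i1.const_mul 2).add (i2.const_mul 2)) fun x _ => ?_
        have a1 := norm_sub_le (φ (x + (-y : ℝ) * I)) (φ (x + y * I))
        have a2 : ‖φ (x + (-y : ℝ) * I) - φ (x + y * I)‖ ^ 2 ≤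
          (‖φ (x + (-y : ℝ) * I)‖ + ‖φ (x + y * I)‖) ^ 2 := by gcongr
        nlinarith [sq_nonneg (‖φ (x + (-y : ℝ) * I)‖ - ‖φ (x + y * I)‖)]
      rw [intervalIntegral.integral_add (i1.const_mul 2) (i2.const_mul 2),
        intervalIntegral.integral_const_mul, intervalIntegral.integral_const_mul] at k3
      linarith
    · filter_upwards [hae] with x hx _
      have c0 : ContinuousAt φ x := hφ.continuousOn.continuousAt (hD.mem_nhds hx)
      have c1 : ContinuousAt (fun y : ℝ => φ (x + (-y : ℝ) * I) - φ (x + y * I)) 0 :=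
        (c0.comp_of_eq (f := fun y : ℝ => (x + (-y : ℝ) * I : ℂ)) (by fun_prop) (by simp)).sub
          (c0.comp_of_eq (f := fun y : ℝ => (x + y * I : ℂ)) (by fun_prop) (by simp))
      simpa using c1.tendsto.mono_left nhdsWithin_le_nhds
  have lim := (lH.add ((lV b (ha.trans hab) hbD).const_mul I)).sub ((lV a ha haD).const_mul I)
  simp only [mul_zero, add_zero, sub_zero] at lim
  exact tendsto_nhds_unique tendsto_const_nhds (lim.congr' eq1)

end Pool.Agent.H66.Hdy
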