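import Pool.Agent.H66.Hdy3

namespace Pool.Agent.H66.Hdy
open Complex Set Metric InnerProductSpace Filter Topology MeasureTheory intervalIntegral
open scoped Real Interval

lemma far {w z : ℂ} (hw : 1 / 8 ≤ ‖w - 1‖) (hz : z ∈ ball (1 : ℂ) (1 / 16)) : 1 / 16 ≤ ‖w - z‖ := by
  rw [mem_ball, dist_eq_norm] at hz
  have := norm_sub_le_norm_sub_add_norm_sub w z 1
  linarith

lemma diff_int {s t : ℝ} {c γ : ℝ → ℂ} (hc : ContinuousOn c (uIcc s t)) (hγ : Continuous γ)
    (hd : ∀ τ ∈ uIcc s t, 1 / 8 ≤ ‖γ τ - 1‖) :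
    DifferentiableOn ℂ (fun z => ∫ τ in s..t, c τ / (γ τ - z)) (ball 1 (1 / 16)) := by
  intro z hz
  have ne : ∀ w ∈ ball (1 : ℂ) (1 / 16), ∀ τ ∈ uIcc s t, γ τ - w ≠ 0 := fun w hw τ hτ h => by
    have := far (hd τ hτ) hw
    rw [h, norm_zero] at this; linarith
  have cc : ∀ w ∈ ball (1 : ℂ) (1 / 16), ContinuousOn (fun τ => c τ / (γ τ - w)) (uIcc s t) :=
    fun w hw => hc.div (by fun_prop) (ne w hw)
  have := intervalIntegral.hasDerivAt_integral_of_dominated_loc_of_deriv_le (μ := volume)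
    (a := s) (b := t) (F := fun z τ => c τ / (γ τ - z)) (F' := fun z τ => c τ / (γ τ - z) ^ 2)
    (x₀ := z) (bound := fun τ => ‖c τ‖ * 256) (isOpen_ball.mem_nhds hz) ?_
    (cc z hz).intervalIntegrable ?_ ?_ (hc.norm.intervalIntegrable.mul_const _) ?_
  · exact this.2.differentiableAt.differentiableWithinAt
  · filter_upwards [isOpen_ball.mem_nhds hz] with w hw
    exact ((cc w hw).mono uIoc_subset_uIcc).aestronglyMeasurable measurableSet_uIoc
  · exact ((hc.div (by fun_prop) fun τ hτ => pow_ne_zero 2 (ne z hz τ hτ)).mono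
      uIoc_subset_uIcc).aestronglyMeasurable measurableSet_uIoc
  · refine Eventually.of_forall fun τ hτ w hw => ?_
    have h1 := far (hd τ (uIoc_subset_uIcc hτ)) hw
    rw [norm_div, norm_pow, div_le_iff₀ (by positivity)]
    have : 1 / 256 ≤ ‖γ τ - w‖ ^ 2 := by nlinarith
    nlinarith [norm_nonneg (c τ)]
  · refine Eventually.of_forall fun τ hτ w hw => ?_
    have h1 := ne w hw τ (uIoc_subset_uIcc hτ)
    have h2 : HasDerivAt (fun x : ℂ => γ τ - x) (-1) w := (hasDerivAt_id w).const_sub _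
    have h3 := (hasDerivAt_const w (c τ)).div h2 h1
    have h4 : (0 * (γ τ - w) - c τ * -1) / (γ τ - w) ^ 2 = c τ / (γ τ - w) ^ 2 := by ring
    rw [h4] at h3
    exact h3

lemma split_int {s t : ℝ} {f : ℂ → ℂ} {γ : ℝ → ℂ} (hc : ContinuousOn (fun τ => f (γ τ)) (uIcc s t))
    (hγ : Continuous γ) (hd : ∀ τ ∈ uIcc s t, 1 / 8 ≤ ‖γ τ - 1‖) {z : ℂ}
    (hz : z ∈ ball (1 : ℂ) (1 / 16)) :
    ∫ τ in s..t, dslope f z (γ τ) =
      (∫ τ in s..t, f (γ τ) / (γ τ - z)) - f z * ∫ τ in s..t, 1 / (γ τ - z) := by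
  have ne : ∀ τ ∈ uIcc s t, γ τ - z ≠ 0 := fun τ hτ h => by
    have := far (hd τ hτ) hz
    rw [h, norm_zero] at this; linarith
  have i1 : IntervalIntegrable (fun τ => f (γ τ) / (γ τ - z)) volume s t :=
    (hc.div (by fun_prop) ne).intervalIntegrable
  have i2 : IntervalIntegrable (fun τ => 1 / (γ τ - z)) volume s t :=
    (continuousOn_const.div (by fun_prop) ne).intervalIntegrable
  rw [← intervalIntegral.integral_const_mul, ← intervalIntegral.integral_sub i1 (i2.const_mul _)]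
  refine integral_congr fun τ hτ => ?_
  have := ne τ hτ
  rw [dslope_of_ne _ (sub_ne_zero.1 this), slope_def_field]
  field_simp

lemma rem1 {D : Set ℂ} (hD : IsOpen D) (hU : U ⊆ D) (hae : ∀ᵐ t : ℝ, (t : ℂ) ∈ D) {f : ℂ → ℂ}
    (hf : DifferentiableOn ℂ f D) {u : ℂ → ℝ} (hu : HarmonicOnNhd u U)
    (hfu : ∀ z ∈ U, ‖f z‖ ^ 2 ≤ u z) :
    ∃ r > 0, ∃ F : ℂ → ℂ, DifferentiableOn ℂ F (ball 1 r) ∧ ∀ z ∈ ball (1 : ℂ) r, z ∈ U → F z = f z := by
  obtain ⟨C, hC⟩ := l2 hu fun z hz => (sq_nonneg _).trans (hfu z hz)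
  have hden := Measure.dense_of_ae hae
  obtain ⟨a, haD, ha⟩ := hden.exists_between (by norm_num : (3 / 4 : ℝ) < 7 / 8)
  obtain ⟨b, hbD, hb⟩ := hden.exists_between (by norm_num : (9 / 8 : ℝ) < 5 / 4)
  have hab : a ≤ b := by linarith [ha.2, hb.1]
  have cH : ∀ y : ℝ, y ≠ 0 → |y| ≤ 1 / 4 →
      ContinuousOn (fun x : ℝ => f (x + y * I)) (Ici (3 / 4)) := fun y hy hy' =>
    hf.continuousOn.comp (f := fun x : ℝ => (x + y * I : ℂ)) (by fun_prop)
      fun x hx => hU (memU hx hy hy')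
  have sub : uIcc a b ⊆ Ici (3 / 4) := fun x hx => by
    rw [uIcc_of_le hab] at hx; exact ha.1.le.trans hx.1
  have cV : ∀ x : ℝ, 3 / 4 ≤ x → (x : ℂ) ∈ D →
      ContinuousOn (fun y : ℝ => f (x + y * I)) (uIcc (-(1 / 4)) (1 / 4)) := fun x hx hxD =>
    hf.continuousOn.comp (f := fun y : ℝ => (x + y * I : ℂ)) (by fun_prop) fun y hy => by
      rw [uIcc_of_le (by norm_num)] at hy
      by_cases h : y = 0
      · simpa [h] using hxD
      · exact hU (memU hx h (abs_le.2 hy))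
  have dH : ∀ y : ℝ, |y| = 1 / 4 → ∀ x ∈ uIcc a b, 1 / 8 ≤ ‖(x + y * I : ℂ) - 1‖ := fun y hy x _ => by
    have := abs_im_le_norm ((x + y * I : ℂ) - 1)
    simp at this; linarith
  have dV : ∀ x : ℝ, 1 / 8 ≤ |x - 1| → ∀ y ∈ uIcc (-(1 / 4) : ℝ) (1 / 4),
      1 / 8 ≤ ‖(x + y * I : ℂ) - 1‖ := fun x hx y _ => by
    have := abs_re_le_norm ((x + y * I : ℂ) - 1)
    simp at this; linarith
  have q1 : |(-(1 / 4) : ℝ)| = 1 / 4 := by norm_num [abs_of_pos]
  have q2 : |(1 / 4 : ℝ)| = 1 / 4 := by norm_num [abs_of_pos]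
  have q3 : 1 / 8 ≤ |a - 1| := le_abs.2 (Or.inr (by linarith [ha.2]))
  have q4 : 1 / 8 ≤ |b - 1| := le_abs.2 (Or.inl (by linarith [hb.1]))
  have hb' : 3 / 4 ≤ b := by linarith [hb.1]
  have c1 := (cH _ (by norm_num) q1.le).mono sub
  have c2 := (cH _ (by norm_num) q2.le).mono sub
  have c3 := cV b hb' hbD
  have c4 := cV a ha.1.le haD
  set N : ℂ → ℂ := fun z => Bd a b (fun ζ => f ζ / (ζ - z)) (-(1 / 4)) (1 / 4) with hN
  set N1 : ℂ → ℂ := fun z => Bd a b (fun ζ => 1 / (ζ - z)) (-(1 / 4)) (1 / 4) with hN1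
  have dN : DifferentiableOn ℂ N (ball 1 (1 / 16)) :=
    (((diff_int c1 (by fun_prop) (dH _ q1)).sub (diff_int c2 (by fun_prop) (dH _ q2))).add
      ((diff_int c3 (by fun_prop) (dV _ q4)).const_mul I)).sub
      ((diff_int c4 (by fun_prop) (dV _ q3)).const_mul I)
  have dN1 : DifferentiableOn ℂ N1 (ball 1 (1 / 16)) :=
    (((diff_int continuousOn_const (by fun_prop) (dH _ q1)).sub
      (diff_int continuousOn_const (by fun_prop) (dH _ q2))).add
      ((diff_int continuousOn_const (by fun_prop) (dV _ q4)).const_mul I)).sub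
      ((diff_int continuousOn_const (by fun_prop) (dV _ q3)).const_mul I)
  have hne : N1 1 ≠ 0 := by
    have nz : ∀ {w : ℂ}, 1 / 8 ≤ ‖w - 1‖ → w - 1 ≠ 0 := fun h h' => by
      rw [h', norm_zero] at h; linarith
    have kH : ∀ y : ℝ, |y| = 1 / 4 → ContinuousOn (fun x : ℝ => 1 / ((x + y * I : ℂ) - 1)) (uIcc a b) :=
      fun y hy => continuousOn_const.div (by fun_prop) fun x hx => nz (dH y hy x hx)
    have kV : ∀ x : ℝ, 1 / 8 ≤ |x - 1| → ContinuousOn (fun y : ℝ => 1 / ((x + y * I : ℂ) - 1))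
        (uIcc (-(1 / 4) : ℝ) (1 / 4)) :=
      fun x hx => continuousOn_const.div (by fun_prop) fun y hy => nz (dV x hx y hy)
    have p1 : 0 < ∫ x : ℝ in a..b, (1 / ((x + (-(1 / 4) : ℝ) * I : ℂ) - 1)).im := by
      refine intervalIntegral_pos_of_pos_on
        (continuous_im.comp_continuousOn (kH _ q1)).intervalIntegrable (fun x hx => ?_)
        (by linarith [ha.2, hb.1])
      have := normSq_pos.2 (nz (dH _ q1 x (by rw [uIcc_of_le hab]; exact Ioo_subset_Icc_self hx)))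
      rw [one_div, inv_im]
      refine div_pos ?_ this
      simp
    have p2 : ∫ x : ℝ in a..b, (1 / ((x + (1 / 4 : ℝ) * I : ℂ) - 1)).im ≤ 0 := by
      rw [← neg_nonneg, ← intervalIntegral.integral_neg]
      refine intervalIntegral.integral_nonneg hab fun x hx => ?_
      rw [one_div, inv_im, neg_div, neg_neg]
      refine div_nonneg ?_ (normSq_nonneg _)
      simp
    have p3 : 0 ≤ ∫ y : ℝ in (-(1 / 4) : ℝ)..(1 / 4), (1 / ((b + y * I : ℂ) - 1)).re := by
      refine intervalIntegral.integral_nonneg (by norm_num) fun x hx => ?_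
      rw [one_div, inv_re]
      refine div_nonneg ?_ (normSq_nonneg _)
      simp; linarith [hb.1]
    have p4 : ∫ y : ℝ in (-(1 / 4) : ℝ)..(1 / 4), (1 / ((a + y * I : ℂ) - 1)).re ≤ 0 := by
      rw [← neg_nonneg, ← intervalIntegral.integral_neg]
      refine intervalIntegral.integral_nonneg (by norm_num) fun x hx => ?_
      rw [one_div, inv_re, ← neg_div]
      refine div_nonneg ?_ (normSq_nonneg _)
      simp; linarith [ha.2]
    intro h
    have := congrArg im h
    simp only [hN1, Bd, sub_im, add_im, mul_im, I_re, I_im, zero_mul, one_mul, zero_add,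
      zero_im] at this
    rw [im_int (kH _ q1), im_int (kH _ q2), re_int (kV _ q4), re_int (kV _ q3)] at this
    linarith
  have hc1 : ContinuousAt N1 1 := dN1.continuousOn.continuousAt (ball_mem_nhds _ (by norm_num))
  obtain ⟨r, hr, hr1⟩ := Metric.eventually_nhds_iff_ball.1
    ((hc1.eventually_ne hne).and (ball_mem_nhds (1 : ℂ) (by norm_num : (0 : ℝ) < 1 / 16)))
  have sb : ball (1 : ℂ) r ⊆ ball 1 (1 / 16) := fun z hz => (hr1 z hz).2
  refine ⟨r, hr, fun z => N z / N1 z, (dN.mono sb).div (dN1.mono sb) fun z hz => (hr1 z hz).1,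
    fun z hz hzU => ?_⟩
  have hz0 : z.im ≠ 0 := fun h => hzU (by rw [im4, h]; simp)
  have hz1 : 0 < |z.im| := abs_pos.2 hz0
  have key : Bd a b (dslope f z) (-(1 / 4)) (1 / 4) = 0 := by
    have hφ := (differentiableOn_dslope (hD.mem_nhds (hU hzU))).2 hf
    refine bd_zero hD hU hae ha.1.le hab haD hbD hφ
      (C := 8 / |z.im| ^ 2 * (C + ‖f z‖ ^ 2)) (y0 := min (1 / 4) (|z.im| / 2)) (by positivity)
      fun y hy hy' => ?_
    have y1 : |y| ≤ 1 / 4 := hy'.le.trans (min_le_left _ _)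
    have y2 : |y| ≤ |z.im| / 2 := hy'.le.trans (min_le_right _ _)
    have e : uIcc (3 / 4 : ℝ) (5 / 4) ⊆ Ici (3 / 4) := fun x hx => by
      rw [uIcc_of_le (by norm_num)] at hx; exact hx.1
    have cu : ContinuousOn (fun x : ℝ => u (x + y * I)) (Ici (3 / 4)) :=
      hu.continuousOn.comp (f := fun x : ℝ => (x + y * I : ℂ)) (by fun_prop)
        fun x hx => memU hx hy y1
    have k1 : ∫ x : ℝ in a..b, u (x + y * I) ≤ C := by
      refine le_trans ?_ (hC y hy y1)
      refine integral_mono_interval ha.1.le hab hb.2.le ?_ (cu.mono e).intervalIntegrable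
      refine (ae_restrict_iff' measurableSet_Ioc).2 (Eventually.of_forall fun x hx => ?_)
      exact (sq_nonneg _).trans (hfu _ (memU hx.1.le hy y1))
    have iu : IntervalIntegrable (fun x : ℝ => u (x + y * I)) volume a b :=
      (cu.mono sub).intervalIntegrable
    have k2 : ∫ x : ℝ in a..b, ‖dslope f z (x + y * I)‖ ^ 2 ≤
        ∫ x : ℝ in a..b, 8 / |z.im| ^ 2 * (u (x + y * I) + ‖f z‖ ^ 2) := by
      refine integral_mono_on hab ?_ ((iu.add intervalIntegrable_const).const_mul _) fun x hx => ?_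
      · exact (((hφ.continuousOn.comp (f := fun x : ℝ => (x + y * I : ℂ)) (by fun_prop)
          fun x hx => hU (memU (sub hx) hy y1))).norm.pow 2).intervalIntegrable
      · have a1 : |z.im| / 2 ≤ ‖(x + y * I : ℂ) - z‖ := by
          have b1 := abs_im_le_norm ((x + y * I : ℂ) - z)
          have b2 := abs_sub_abs_le_abs_sub z.im y
          rw [abs_sub_comm] at b2
          simp at b1; linarith
        have a2 : (x + y * I : ℂ) ≠ z := fun h => by
          rw [h, sub_self, norm_zero] at a1; linarith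
        have a3 := hfu _ (memU (ha.1.le.trans hx.1) hy y1)
        rw [dslope_of_ne _ a2, slope_def_field, norm_div, div_pow]
        have a4 := norm_sub_le (f (x + y * I)) (f z)
        have a5 : ‖f (x + y * I) - f z‖ ^ 2 ≤ (‖f (x + y * I)‖ + ‖f z‖) ^ 2 := by gcongr
        have a6 : ‖f (x + y * I) - f z‖ ^ 2 ≤ 2 * (u (x + y * I) + ‖f z‖ ^ 2) := by
          nlinarith [sq_nonneg (‖f (x + y * I)‖ - ‖f z‖)]
        calc _ ≤ 2 * (u (x + y * I) + ‖f z‖ ^ 2) / (|z.im| / 2) ^ 2 := by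
              gcongr
              exact (sq_nonneg _).trans a6
          _ = _ := by field_simp; ring
    rw [intervalIntegral.integral_const_mul, intervalIntegral.integral_add iu intervalIntegrable_const,
      intervalIntegral.integral_const, smul_eq_mul] at k2
    refine k2.trans ?_
    gcongr
    nlinarith [ha.1, hb.2, sq_nonneg ‖f z‖]
  have hzb := sb hz
  unfold Bd at key
  rw [split_int c1 (by fun_prop) (dH _ q1) hzb, split_int c2 (by fun_prop) (dH _ q2) hzb,
    split_int c3 (by fun_prop) (dV _ q4) hzb, split_int c4 (by fun_prop) (dV _ q3) hzb] at key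
  rw [div_eq_iff (hr1 z hz).1]
  simp only [hN, hN1, Bd]
  linear_combination key

end Pool.Agent.H66.Hdy
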