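import Pool.Agent.H66.Hdy4

namespace Pool.Agent.H66.Hdy
open Complex Set Metric InnerProductSpace Filter Topology MeasureTheory
open scoped Real

lemma U_dense : Dense U := by
  intro z
  have h1 : ∀ᶠ t : ℝ in 𝓝[≠] (0 : ℝ), z + t * (2 + I) ∈ U := by
    set p : ℝ → ℝ := fun t => 4 * (z.re + 2 * t) * (z.im + t) * ((z.re - z.im + t) * (z.re + z.im + 3 * t))
    have e : ∀ t : ℝ, ((z + t * (2 + I)) ^ 4).im = p t := fun t => by
      rw [im4]; simp [p]; ring_nf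
    have lin : ∀ c d : ℝ, d ≠ 0 → ∀ᶠ t in 𝓝[≠] (0 : ℝ), c + d * t ≠ 0 := by
      intro c d hd
      by_cases hc : c = 0
      · filter_upwards [self_mem_nhdsWithin] with t ht
        simpa [hc, hd] using ht
      · have : ContinuousAt (fun t : ℝ => c + d * t) 0 := by fun_prop
        exact (this.eventually_ne (by simpa using hc)).filter_mono nhdsWithin_le_nhds
    filter_upwards [lin z.re 2 (by norm_num), lin z.im 1 (by norm_num),
      lin (z.re - z.im) 1 (by norm_num), lin (z.re + z.im) 3 (by norm_num)] with t a1 a2 a3 a4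
    show _ ≠ _
    rw [e]
    rw [one_mul] at a2 a3
    simp only [p]
    positivity
  have h2 : Tendsto (fun t : ℝ => z + t * (2 + I)) (𝓝[≠] 0) (𝓝 z) := by
    have : Continuous fun t : ℝ => z + t * (2 + I) := by fun_prop
    simpa using (this.tendsto 0).mono_left nhdsWithin_le_nhds
  exact mem_closure_of_tendsto h2 h1

lemma U_open : IsOpen U := isOpen_ne_fun (by fun_prop) continuous_const

lemma entire {D : Set ℂ} (hD : IsOpen D) (hU : U ⊆ D) (h0 : (0 : ℂ) ∈ D)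
    (hae : ∀ p : ℂ, ∀ᵐ t : ℝ, p * t ∈ D) {f : ℂ → ℂ}
    (hf : DifferentiableOn ℂ f D) {u : ℂ → ℝ} (hu : HarmonicOnNhd u U)
    (hfu : ∀ z ∈ U, ‖f z‖ ^ 2 ≤ u z) :
    ∃ F : ℂ → ℂ, Differentiable ℂ F ∧ ∀ z ∈ D, F z = f z := by
  have loc : ∀ p : ℂ, ∃ V ∈ 𝓝 p, IsOpen V ∧ ∃ F : ℂ → ℂ, DifferentiableOn ℂ F V ∧
      ∀ z ∈ V, z ∈ U → F z = f z := by
    intro p
    by_cases hp : p ∈ D
    · exact ⟨D, hD.mem_nhds hp, hD, f, hf, fun _ _ _ => rfl⟩
    have hp0 : p ≠ 0 := fun h => hp (h ▸ h0)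
    have hp4 : (p ^ 4).im = 0 := by by_contra h; exact hp (hU h)
    obtain ⟨r, hr, F, hF, hFe⟩ := rem1 (D := {z | p * z ∈ D}) (hD.preimage (by fun_prop))
      (fun z hz => hU ((U_mul hp0 hp4).2 hz)) (hae p) (f := fun z => f (p * z))
      (hf.comp (by fun_prop) fun z hz => hz) (u := fun z => u (p * z))
      (fun z hz => harm_comp (φ := fun z => p * z) (hu _ ((U_mul hp0 hp4).2 hz)) (by fun_prop))
      (fun z hz => hfu _ ((U_mul hp0 hp4).2 hz))
    have ho : IsOpen {z : ℂ | p⁻¹ * z ∈ ball (1 : ℂ) r} := isOpen_ball.preimage (by fun_prop)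
    refine ⟨_, ho.mem_nhds (by simp [hp0, hr]), ho, fun z => F (p⁻¹ * z),
      hF.comp (by fun_prop) fun z hz => hz, fun z hz hzU => ?_⟩
    have := hFe _ hz (by rw [← U_mul hp0 hp4, mul_inv_cancel_left₀ hp0]; exact hzU)
    simpa only [mul_inv_cancel_left₀ hp0] using this
  have lim : ∀ V : Set ℂ, IsOpen V → ∀ F : ℂ → ℂ, DifferentiableOn ℂ F V →
      (∀ z ∈ V, z ∈ U → F z = f z) → ∀ z ∈ V, limUnder (𝓝[U] z) f = F z := by
    intro V hV F hF hFe z hz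
    haveI : (𝓝[U] z).NeBot := mem_closure_iff_nhdsWithin_neBot.1 (U_dense z)
    refine Tendsto.limUnder_eq ?_
    refine ((hF.continuousOn.continuousAt (hV.mem_nhds hz)).tendsto.mono_left
      nhdsWithin_le_nhds).congr' ?_
    filter_upwards [self_mem_nhdsWithin, mem_nhdsWithin_of_mem_nhds (hV.mem_nhds hz)] with w h1 h2
    exact hFe w h2 h1
  refine ⟨fun z => limUnder (𝓝[U] z) f, fun p => ?_, lim D hD f hf fun _ _ _ => rfl⟩
  obtain ⟨V, hV, hVo, F, hF, hFe⟩ := loc p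
  refine (hF.differentiableAt hV).congr_of_eventuallyEq ?_
  filter_upwards [hV] with z hz using lim V hVo F hF hFe z hz

lemma growth {F : ℂ → ℂ} (hF : Differentiable ℂ F) {C : ℝ} (hC : 0 ≤ C)
    (h : ∀ z ∈ U, ‖F z‖ ^ 2 * |(z ^ 4).im| ≤ C * (4 * ‖z‖ ^ 4 + 1) ^ 2) :
    ∀ z : ℂ, 1 ≤ ‖z‖ → ‖F z‖ ≤ (C + 2000) * ‖z‖ ^ 2 := by
  intro z hz
  set R := 2 * ‖z‖ with hR
  have hR2 : 2 ≤ R := by linarith
  have hR4 : 16 ≤ R ^ 4 := by
    have : (2 : ℝ) ^ 4 ≤ R ^ 4 := by gcongr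
    linarith
  have key : ‖F z ^ 2 * (z ^ 8 - (R : ℂ) ^ 8)‖ ≤ 2 * R ^ 4 * (C * (5 * R ^ 4) ^ 2) := by
    refine Complex.norm_le_of_forall_mem_frontier_norm_le (f := fun w => F w ^ 2 * (w ^ 8 - (R : ℂ) ^ 8))
      (U := ball 0 R) isBounded_ball (Differentiable.diffContOnCl (by fun_prop)) ?_ ?_
    · intro w hw
      rw [frontier_ball _ (by linarith), mem_sphere_zero_iff_norm] at hw
      have e1 : (w ^ 8 - (R : ℂ) ^ 8) = w ^ 4 * (2 * ((w ^ 4).im : ℝ) * I) := by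
        have a1 : ((R : ℂ)) ^ 8 = w ^ 4 * (starRingEnd ℂ) (w ^ 4) := by
          rw [mul_conj, normSq_eq_norm_sq, norm_pow, hw]; push_cast; ring
        have a2 := sub_conj (w ^ 4)
        push_cast at a2
        rw [a1, ← a2]; ring
      have e2 : ‖F w ^ 2 * (w ^ 8 - (R : ℂ) ^ 8)‖ = 2 * R ^ 4 * (‖F w‖ ^ 2 * |(w ^ 4).im|) := by
        rw [e1]; simp only [norm_mul, norm_pow, hw, norm_I, norm_real, Real.norm_eq_abs,
          Complex.norm_ofNat]; ring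
      rw [e2]
      by_cases hwU : w ∈ U
      · have := h w hwU
        rw [hw] at this
        refine mul_le_mul_of_nonneg_left (this.trans ?_) (by positivity)
        gcongr; linarith
      · have : (w ^ 4).im = 0 := by by_contra h'; exact hwU h'
        rw [this]; simp only [abs_zero, mul_zero]; positivity
    · exact subset_closure (mem_ball_zero_iff.2 (by linarith))
  have h1 : R ^ 8 / 2 ≤ ‖z ^ 8 - (R : ℂ) ^ 8‖ := by
    have := norm_sub_norm_le ((R : ℂ) ^ 8) (z ^ 8)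
    rw [norm_sub_rev, norm_pow, norm_pow, norm_real, Real.norm_eq_abs, abs_of_pos (by linarith)] at this
    have h2 : R ^ 8 = 256 * ‖z‖ ^ 8 := by rw [hR]; ring
    have : 0 ≤ ‖z‖ ^ 8 := by positivity
    linarith
  rw [norm_mul, norm_pow] at key
  have h2 : ‖F z‖ ^ 2 * (R ^ 8 / 2) ≤ (100 * C * R ^ 4) * (R ^ 8 / 2) := by
    calc _ ≤ ‖F z‖ ^ 2 * ‖z ^ 8 - (R : ℂ) ^ 8‖ := by gcongr
      _ ≤ _ := key
      _ = _ := by ring
  have h3 := le_of_mul_le_mul_right h2 (by positivity)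
  have h4 : R ^ 4 = 16 * (‖z‖ ^ 2) ^ 2 := by rw [hR]; ring
  rw [h4] at h3
  refine (pow_le_pow_iff_left₀ (norm_nonneg _) (by positivity) two_ne_zero).1 (h3.trans ?_)
  have h5 : 1600 * C ≤ (C + 2000) ^ 2 := by nlinarith
  calc 100 * C * (16 * (‖z‖ ^ 2) ^ 2) = (1600 * C) * (‖z‖ ^ 2) ^ 2 := by ring
    _ ≤ (C + 2000) ^ 2 * (‖z‖ ^ 2) ^ 2 := by gcongr
    _ = _ := by ring

lemma quad {F : ℂ → ℂ} (hF : Differentiable ℂ F) {K : ℝ}
    (h : ∀ z : ℂ, 1 ≤ ‖z‖ → ‖F z‖ ≤ K * ‖z‖ ^ 2) : ∃ a b c : ℂ, ∀ z, F z = a + b * z + c * z ^ 2 := by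
  have d1 : Differentiable ℂ (dslope F 0) :=
    differentiableOn_univ.1 ((differentiableOn_dslope univ_mem).2 hF.differentiableOn)
  have d2 : Differentiable ℂ (dslope (dslope F 0) 0) :=
    differentiableOn_univ.1 ((differentiableOn_dslope univ_mem).2 d1.differentiableOn)
  have e : ∀ z, F z = F 0 + dslope F 0 0 * z + dslope (dslope F 0) 0 z * z ^ 2 := fun z => by
    have a1 := sub_smul_dslope F 0 z
    have a2 := sub_smul_dslope (dslope F 0) 0 z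
    simp only [sub_zero, smul_eq_mul] at a1 a2
    linear_combination -a1 - z * a2
  set G := dslope (dslope F 0) 0
  obtain ⟨M, hM⟩ := (isCompact_closedBall (0 : ℂ) 1).exists_bound_of_continuousOn
    d2.continuous.continuousOn
  have hb : Bornology.IsBounded (range G) := by
    rw [isBounded_iff_forall_norm_le]
    refine ⟨max M (K + ‖F 0‖ + ‖dslope F 0 0‖), ?_⟩
    rintro _ ⟨z, rfl⟩
    rcases le_total ‖z‖ 1 with hz | hz
    · exact (hM z (mem_closedBall_zero_iff.2 hz)).trans (le_max_left _ _)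
    · refine le_trans ?_ (le_max_right _ _)
      have a1 : G z * z ^ 2 = F z - F 0 - dslope F 0 0 * z := by rw [e z]; ring
      have a2 : ‖G z‖ * ‖z‖ ^ 2 ≤ ‖F z‖ + ‖F 0‖ + ‖dslope F 0 0‖ * ‖z‖ := by
        rw [← norm_pow, ← norm_mul, a1, ← norm_mul]
        exact (norm_sub_le _ _).trans (by gcongr; exact norm_sub_le _ _)
      have a3 := h z hz
      have a4 : 1 ≤ ‖z‖ ^ 2 := by nlinarith
      have a5 : ‖z‖ ≤ ‖z‖ ^ 2 := by nlinarith
      refine le_of_mul_le_mul_right (a := ‖z‖ ^ 2) ?_ (by positivity)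
      nlinarith [norm_nonneg (F 0), norm_nonneg (dslope F 0 0)]
  refine ⟨F 0, dslope F 0 0, G 0, fun z => ?_⟩
  rw [e z, d2.apply_eq_apply_of_bounded hb z 0]

theorem thmA {D : Set ℂ} (hD : IsOpen D) (hU : U ⊆ D) (h0 : (0 : ℂ) ∈ D)
    (hae : ∀ p : ℂ, ∀ᵐ t : ℝ, p * t ∈ D) {f : ℂ → ℂ}
    (hf : DifferentiableOn ℂ f D) {u : ℂ → ℝ} (hu : HarmonicOnNhd u D)
    (hfu : ∀ z ∈ D, ‖f z‖ ^ 2 ≤ u z) : ∃ a b c : ℂ, ∀ z ∈ D, f z = a + b * z + c * z ^ 2 := by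
  obtain ⟨F, hF, hFe⟩ := entire hD hU h0 hae hf (hu.mono hU) fun z hz => hfu z (hU hz)
  obtain ⟨C, hC, hg⟩ := growthU (hu.mono hU) fun z hz => (sq_nonneg _).trans (hfu z (hU hz))
  obtain ⟨a, b, c, h⟩ := quad hF (growth hF hC fun z hz => by
    rw [hFe z (hU hz)]
    refine le_trans ?_ (hg z hz)
    gcongr
    exact hfu z (hU hz))
  exact ⟨a, b, c, fun z hz => by rw [← hFe z hz, h]⟩

end Pool.Agent.H66.Hdy
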