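import Pool.Agent.H66.Hdy1

namespace Pool.Agent.H66.Hdy
open Complex Set Metric InnerProductSpace Filter Topology MeasureTheory
open scoped Real

noncomputable def P (z : ℂ) : ℂ := z ^ 2 - 6
def J : Set ℂ := {z | ∀ n, ‖P^[n] z‖ ≤ 3}

lemma P_norm (z : ℂ) : ‖z‖ ^ 2 - 6 ≤ ‖P z‖ := by
  have := norm_sub_norm_le (z ^ 2) 6
  simpa [P] using this

lemma P_diff : Differentiable ℂ P := by unfold P; fun_prop

lemma P_it_diff (n : ℕ) : Differentiable ℂ (P^[n]) := P_diff.iterate n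

lemma J_closed : IsClosed J := by
  have : J = ⋂ n, {z | ‖P^[n] z‖ ≤ 3} := by ext; simp [J]
  rw [this]
  exact isClosed_iInter fun n => isClosed_le (P_it_diff n).continuous.norm continuous_const

lemma P_big {z : ℂ} (h : 4 < ‖z‖) (n : ℕ) : 4 < ‖P^[n] z‖ := by
  induction n with
  | zero => exact h
  | succ n ih => rw [Function.iterate_succ_apply']; nlinarith [P_norm (P^[n] z)]

lemma escape {z : ℂ} (h : z ∉ J) : ∃ n, 4 < ‖P^[n] z‖ := by
  simp only [J, mem_setOf_eq, not_forall, not_le] at h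
  obtain ⟨n, hn⟩ := h
  have key : ∀ k : ℕ, (k + 1) * (‖P^[n] z‖ - 3) ≤ ‖P^[k] (P^[n] z)‖ - 3 := by
    intro k
    induction k with
    | zero => simp
    | succ k ih =>
      rw [Function.iterate_succ_apply']
      have h1 := P_norm (P^[k] (P^[n] z))
      have h2 : (0 : ℝ) ≤ k := Nat.cast_nonneg k
      have h3 : ‖P^[n] z‖ - 3 ≤ ‖P^[k] (P^[n] z)‖ - 3 := by nlinarith
      push_cast
      nlinarith
  obtain ⟨k, hk⟩ := exists_nat_gt (1 / (‖P^[n] z‖ - 3))
  rw [div_lt_iff₀ (by linarith)] at hk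
  exact ⟨k + n, by rw [Function.iterate_add_apply]; nlinarith [key k]⟩

lemma J_P {z : ℂ} (h : z ∈ J) : P z ∈ J := fun n => h (n + 1)

lemma J_re {z : ℂ} (h : z ∈ J) : 3 ≤ z.re ^ 2 := by
  have h1 := (abs_le.1 ((abs_re_le_norm _).trans (h 1))).1
  simp [P, pow_two] at h1
  nlinarith [sq_nonneg z.im]

lemma J_it {z : ℂ} (h : z ∈ J) (n : ℕ) : P^[n] z ∈ J := fun m => by
  rw [← Function.iterate_add_apply]; exact h _

lemma J_im {z : ℂ} (h : z ∈ J) : z.im = 0 := by
  have key : ∀ n : ℕ, (n + 1) * |z.im| ≤ |(P^[n] z).im| := by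
    intro n
    induction n with
    | zero => simp
    | succ n ih =>
      rw [Function.iterate_succ_apply']
      have h1 := J_re (J_it h n)
      have h2 : (P (P^[n] z)).im = 2 * (P^[n] z).re * (P^[n] z).im := by simp [P, pow_two]; ring
      have h3 : 1 ≤ |(P^[n] z).re| := by
        by_contra hc
        push Not at hc
        have := sq_abs (P^[n] z).re
        nlinarith [abs_nonneg (P^[n] z).re]
      rw [h2, abs_mul, abs_mul, abs_two]
      have h4 : (0 : ℝ) ≤ n := Nat.cast_nonneg n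
      push_cast
      nlinarith [abs_nonneg z.im, abs_nonneg (P^[n] z).im]
  by_contra hc
  have h1 := abs_pos.2 hc
  obtain ⟨k, hk⟩ := exists_nat_gt (3 / |z.im|)
  rw [div_lt_iff₀ h1] at hk
  nlinarith [key k, (abs_im_le_norm _).trans (h k)]

def JR : Set ℝ := {x | (x : ℂ) ∈ J}

lemma JR_abs {x : ℝ} (h : x ∈ JR) : |x| ≤ 3 := by simpa using h 0

lemma JR_null : volume JR = 0 := by
  have lip : LipschitzOnWith (1 / 3) (fun y : ℝ => √(y + 6)) JR := by
    refine LipschitzOnWith.of_dist_le_mul fun x hx y hy => ?_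
    have h1 := abs_le.1 (JR_abs hx)
    have h2 := abs_le.1 (JR_abs hy)
    have a1 : 3 / 2 ≤ √(x + 6) := Real.le_sqrt_of_sq_le (by linarith)
    have a2 : 3 / 2 ≤ √(y + 6) := Real.le_sqrt_of_sq_le (by linarith)
    have a3 : (√(x + 6) - √(y + 6)) * (√(x + 6) + √(y + 6)) = x - y := by
      have b1 := Real.sq_sqrt (show 0 ≤ x + 6 by linarith)
      have b2 := Real.sq_sqrt (show 0 ≤ y + 6 by linarith)
      nlinarith
    rw [Real.dist_eq, Real.dist_eq, ← a3, abs_mul, abs_of_pos (by linarith : 0 < √(x + 6) + √(y + 6))]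
    push_cast
    nlinarith [abs_nonneg (√(x + 6) - √(y + 6))]
  have lip2 : LipschitzOnWith (1 / 3) (fun y : ℝ => -√(y + 6)) JR := lip.neg
  have m1 := lip.hausdorffMeasure_image_le zero_le_one
  have m2 := lip2.hausdorffMeasure_image_le zero_le_one
  rw [hausdorffMeasure_real, ENNReal.rpow_one] at m1 m2
  have sub : JR ⊆ (fun y : ℝ => √(y + 6)) '' JR ∪ (fun y : ℝ => -√(y + 6)) '' JR := by
    intro x hx
    have h1 : x ^ 2 - 6 ∈ JR := by
      have := J_P hx
      simpa [JR, P] using this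
    have h2 : √(x ^ 2 - 6 + 6) = |x| := by rw [sub_add_cancel, Real.sqrt_sq_eq_abs]
    rcases le_total 0 x with h | h
    · exact Or.inl ⟨_, h1, by simp only [h2, abs_of_nonneg h]⟩
    · exact Or.inr ⟨_, h1, by simp only [h2, abs_of_nonpos h, neg_neg]⟩
  have fin : volume JR ≠ ⊤ :=
    ((measure_mono fun x hx => abs_le.1 (JR_abs hx) : volume JR ≤ volume (Icc (-3 : ℝ) 3)).trans_lt
      measure_Icc_lt_top).ne
  have m3 := (measure_mono sub).trans ((measure_union_le _ _).trans (add_le_add m1 m2))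
  lift volume JR to NNReal using fin with v
  norm_cast at m3 ⊢
  have : (v : ℝ) ≤ 1 / 3 * v + 1 / 3 * v := by exact_mod_cast m3
  have h0 : (0 : ℝ) ≤ v := v.2
  exact NNReal.eq (by simp; linarith)

noncomputable def L (w : ℂ) : ℂ := log (1 + -6 / w ^ 2)
noncomputable def Lam (w : ℂ) : ℂ := ∑' k : ℕ, (1 / 2 : ℂ) ^ (k + 1) * L (P^[k] w)
noncomputable def gam (w : ℂ) : ℝ := Real.log ‖w‖ + (Lam w).re

lemma L_small {w : ℂ} (h : 4 < ‖w‖) : ‖-6 / w ^ 2‖ ≤ 1 / 2 := by
  rw [norm_div, norm_pow, div_le_iff₀ (by positivity)]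
  simp; nlinarith

lemma L_norm {w : ℂ} (h : 4 < ‖w‖) : ‖L w‖ ≤ 1 := by
  have := norm_log_one_add_half_le_self (L_small h)
  have h2 := L_small h
  unfold L; linarith

lemma L_diff {w : ℂ} (h : 4 < ‖w‖) : DifferentiableAt ℂ L w := by
  have h0 : w ≠ 0 := fun h' => by rw [h', norm_zero] at h; linarith
  refine DifferentiableAt.clog (DifferentiableAt.add (by fun_prop)
    (DifferentiableAt.div (by fun_prop) (by fun_prop) (pow_ne_zero 2 h0))) ?_
  exact mem_slitPlane_of_norm_lt_one ((L_small h).trans_lt (by norm_num))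

lemma term_le {w : ℂ} (h : 4 < ‖w‖) (k : ℕ) :
    ‖(1 / 2 : ℂ) ^ (k + 1) * L (P^[k] w)‖ ≤ 1 / 2 * (1 / 2) ^ k := by
  rw [norm_mul, norm_pow]
  have := L_norm (P_big h k)
  have h2 : ‖(1 / 2 : ℂ)‖ = 1 / 2 := by simp
  rw [h2, pow_succ]
  have : (0 : ℝ) < (1 / 2) ^ k := by positivity
  nlinarith

lemma geo : HasSum (fun k : ℕ => 1 / 2 * (1 / 2 : ℝ) ^ k) 1 := by
  have := hasSum_geometric_two.mul_left (1 / 2)
  rwa [show (1 / 2 * 2 : ℝ) = 1 by norm_num] at this

lemma W_open : IsOpen {w : ℂ | 4 < ‖w‖} := isOpen_lt continuous_const continuous_norm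

lemma Lam_an {w : ℂ} (h : 4 < ‖w‖) : AnalyticAt ℂ Lam w := by
  have : DifferentiableOn ℂ Lam {w : ℂ | 4 < ‖w‖} :=
    differentiableOn_tsum_of_summable_norm geo.summable (fun k w hw =>
      (((L_diff (P_big hw k)).comp w (P_it_diff k w)).const_mul _).differentiableWithinAt) W_open
      fun k w hw => term_le hw k
  exact this.analyticAt (W_open.mem_nhds h)

lemma Lam_norm {w : ℂ} (h : 4 < ‖w‖) : ‖Lam w‖ ≤ 1 := tsum_of_norm_bounded geo (term_le h)

lemma gam_P {w : ℂ} (h : 4 < ‖w‖) : gam (P w) = 2 * gam w := by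
  have h0 : w ≠ 0 := fun h' => by rw [h', norm_zero] at h; linarith
  have hs : Summable fun k : ℕ => (1 / 2 : ℂ) ^ (k + 1) * L (P^[k] w) :=
    Summable.of_norm_bounded geo.summable (term_le h)
  have e1 : Lam w = 1 / 2 * L w + 1 / 2 * Lam (P w) := by
    unfold Lam
    rw [hs.tsum_eq_zero_add, ← tsum_mul_left]
    congr 1
    · simp
    · congr 1; ext k; rw [Function.iterate_succ_apply]; ring
  have e2 : P w = w ^ 2 * (1 + -6 / w ^ 2) := by unfold P; field_simp; ring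
  have h1 : (1 + -6 / w ^ 2) ≠ 0 :=
    slitPlane_ne_zero (mem_slitPlane_of_norm_lt_one ((L_small h).trans_lt (by norm_num)))
  have e3 : Real.log ‖P w‖ = 2 * Real.log ‖w‖ + (L w).re := by
    rw [e2, norm_mul, Real.log_mul (by simpa using h0) (by simpa using h1), norm_pow, Real.log_pow,
      L, log_re]; norm_num
  have e4 := congrArg re e1
  simp at e4
  unfold gam
  rw [e3, e4]; ring

lemma gam_it {w : ℂ} (h : 4 < ‖w‖) (k : ℕ) : gam (P^[k] w) = 2 ^ k * gam w := by
  induction k with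
  | zero => simp
  | succ k ih => rw [Function.iterate_succ_apply', gam_P (P_big h k), ih]; ring

lemma gam_ge {w : ℂ} (h : 4 < ‖w‖) : Real.log ‖w‖ - 1 ≤ gam w := by
  have := (abs_le.1 ((abs_re_le_norm _).trans (Lam_norm h))).1
  unfold gam; linarith

lemma gam_harm {w : ℂ} (h : 4 < ‖w‖) : HarmonicAt gam w := by
  have h0 : w ≠ 0 := fun h' => by rw [h', norm_zero] at h; linarith
  exact (AnalyticAt.harmonicAt_log_norm (f := id) analyticAt_id h0).add (Lam_an h).harmonicAt_re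

noncomputable def g (z : ℂ) : ℝ := limUnder atTop fun n => gam (P^[n] z) / 2 ^ n

lemma g_eq {z : ℂ} {n : ℕ} (h : 4 < ‖P^[n] z‖) : g z = gam (P^[n] z) / 2 ^ n := by
  refine Tendsto.limUnder_eq (tendsto_const_nhds.congr' ?_)
  filter_upwards [eventually_ge_atTop n] with m hm
  obtain ⟨k, rfl⟩ := Nat.exists_eq_add_of_le' hm
  rw [Function.iterate_add_apply, gam_it h, pow_add]; field_simp

lemma g_harm {z : ℂ} (h : z ∉ J) : HarmonicAt g z := by
  obtain ⟨n, hn⟩ := escape h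
  have h1 : HarmonicAt (((2 : ℝ) ^ n)⁻¹ • fun w => gam (P^[n] w)) z :=
    (harm_comp (gam_harm hn) ((P_it_diff n).analyticAt z)).const_smul
  refine (harmonicAt_congr_nhds ?_).1 h1
  filter_upwards [(P_it_diff n).continuous.continuousAt.preimage_mem_nhds (W_open.mem_nhds hn)]
    with w hw
  rw [g_eq hw]; simp [div_eq_inv_mul]

lemma g_nonneg {z : ℂ} (h : z ∉ J) : 0 ≤ g z := by
  obtain ⟨n, hn⟩ := escape h
  rw [g_eq hn]
  refine div_nonneg (le_trans ?_ (gam_ge hn)) (by positivity)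
  rw [sub_nonneg, Real.le_log_iff_exp_le (by linarith)]
  linarith [Real.exp_one_lt_d9]

lemma g_ge {z : ℂ} (h : 4 < ‖z‖) : Real.log ‖z‖ - 1 ≤ g z := by
  rw [g_eq (n := 0) h]; simpa using gam_ge h

end Pool.Agent.H66.Hdy
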