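import Pool.Agent.H66.Hdy5
import Pool.Agent.H66.Hdy6

namespace Pool.Agent.H66.Hdy
open Complex Set Metric InnerProductSpace Filter Topology MeasureTheory
open scoped Real

lemma sin_real {w : ℂ} (h : 4 * sin w ∈ J) : w.im = 0 := by
  have h1 := J_im h
  have h2 := (abs_re_le_norm _).trans (h 0)
  rw [Function.iterate_zero, id] at h2
  rw [sin_eq] at h1 h2
  simp only [← ofReal_sin, ← ofReal_cos, ← ofReal_sinh, ← ofReal_cosh, mul_im, mul_re, add_im,
    add_re, ofReal_re, ofReal_im, I_re, I_im, re_ofNat, im_ofNat] at h1 h2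
  simp at h1 h2
  rcases h1 with h1 | h1
  · exfalso
    have a1 : |Real.sin w.re| = 1 := by
      have := Real.sin_sq_add_cos_sq w.re
      rw [h1, ← sq_abs] at this
      nlinarith [abs_nonneg (Real.sin w.re)]
    have a2 := Real.one_le_cosh w.im
    rw [a1, abs_of_pos (by linarith)] at h2
    linarith
  · exact h1

lemma sin_ge (w : ℂ) : 2 * (Real.exp |w.im| - 1) ≤ ‖4 * sin w‖ := by
  have e : ‖4 * sin w‖ = 2 * ‖exp (-w * I) - exp (w * I)‖ := by
    rw [Complex.sin]; simp; ring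
  have a1 : ‖exp (-w * I)‖ = Real.exp w.im := by rw [norm_exp]; simp
  have a2 : ‖exp (w * I)‖ = Real.exp (-w.im) := by rw [norm_exp]; simp
  have a3 := abs_le.1 (abs_norm_sub_norm_le (exp (-w * I)) (exp (w * I)))
  rw [a1, a2] at a3
  rw [e]
  rcases le_total 0 w.im with h | h
  · rw [abs_of_nonneg h]
    have : Real.exp (-w.im) ≤ 1 := Real.exp_le_one_iff.2 (by linarith)
    linarith [a3.2]
  · rw [abs_of_nonpos h]
    have : Real.exp w.im ≤ 1 := Real.exp_le_one_iff.2 h
    linarith [a3.1]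

lemma G_ge {w : ℂ} (h : 4 * sin w ∉ J) : |w.im| - 2 ≤ g (4 * sin w) := by
  rcases le_total |w.im| 2 with h1 | h1
  · linarith [g_nonneg h]
  · have a1 := sin_ge w
    have a2 : 5 ≤ Real.exp |w.im| := by
      have := Real.quadratic_le_exp_of_nonneg (abs_nonneg w.im)
      nlinarith
    have a3 := g_ge (z := 4 * sin w) (by linarith)
    have a4 : |w.im| ≤ Real.log ‖4 * sin w‖ := by
      rw [Real.le_log_iff_exp_le (by linarith)]; linarith
    linarith

lemma T_null : volume {s : ℝ | 4 * Real.sin s ∈ JR} = 0 := by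
  have d : DifferentiableOn ℝ (fun y : ℝ => Real.arcsin (y / 4)) JR := fun y hy => by
    have := abs_le.1 (JR_abs hy)
    exact ((Real.differentiableAt_arcsin.2 ⟨by linarith, by linarith⟩).comp y
      (f := fun y : ℝ => y / 4) (by fun_prop)).differentiableWithinAt
  have sub : {s : ℝ | 4 * Real.sin s ∈ JR} ⊆ ⋃ k : ℤ,
      ((fun y : ℝ => 2 * k * π + Real.arcsin (y / 4)) '' JR ∪
        (fun y : ℝ => (2 * k + 1) * π - Real.arcsin (y / 4)) '' JR) := by
    intro s hs
    have h1 : Real.sin (Real.arcsin (4 * Real.sin s / 4)) = Real.sin s := by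
      rw [mul_div_cancel_left₀ _ (by norm_num), Real.sin_arcsin (Real.neg_one_le_sin s) (Real.sin_le_one s)]
    obtain ⟨k, hk | hk⟩ := Real.sin_eq_sin_iff.1 h1
    · exact mem_iUnion.2 ⟨k, Or.inl ⟨_, hs, hk.symm⟩⟩
    · exact mem_iUnion.2 ⟨k, Or.inr ⟨_, hs, hk.symm⟩⟩
  refine measure_mono_null sub (measure_iUnion_null fun k => measure_union_null ?_ ?_)
  · exact addHaar_image_eq_zero_of_differentiableOn_of_addHaar_eq_zero volume (d.const_add _) JR_null
  · exact addHaar_image_eq_zero_of_differentiableOn_of_addHaar_eq_zero volume (d.const_sub _) JR_null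

lemma zero_J : (0 : ℂ) ∉ J := fun h => by have := J_re h; norm_num at this

lemma line_ae (c : ℂ) : ∀ᵐ t : ℝ, 4 * sin (c * t ^ 2) ∉ J := by
  set T := {s : ℝ | 4 * Real.sin s ∈ JR} ∩ {s | s / c.re ≠ 0}
  have hT : volume T = 0 := measure_mono_null inter_subset_left T_null
  have d : DifferentiableOn ℝ (fun s : ℝ => √(s / c.re)) T := fun s hs =>
    (DifferentiableAt.sqrt (f := fun s : ℝ => s / c.re) (x := s) (by fun_prop) hs.2).differentiableWithinAt
  have n1 := addHaar_image_eq_zero_of_differentiableOn_of_addHaar_eq_zero volume d hT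
  have n2 := addHaar_image_eq_zero_of_differentiableOn_of_addHaar_eq_zero volume d.neg hT
  rw [ae_iff]
  refine measure_mono_null (fun t ht => ?_) (measure_union_null n1 n2)
  simp only [not_not, mem_setOf_eq] at ht
  have h1 := sin_real ht
  have h2 : c * t ^ 2 = ((c.re * t ^ 2 : ℝ) : ℂ) := by
    apply Complex.ext
    · simp [pow_two]
    · rw [h1, ofReal_im]
  have h3 : c.re * t ^ 2 ≠ 0 := fun h => zero_J (by rw [h2, h] at ht; simpa using ht)
  have hc : c.re ≠ 0 := left_ne_zero_of_mul h3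
  have h4 : c.re * t ^ 2 ∈ T := ⟨by rw [h2] at ht; simpa [JR] using ht, div_ne_zero h3 hc⟩
  have h5 : √(c.re * t ^ 2 / c.re) = |t| := by rw [mul_div_cancel_left₀ _ hc, Real.sqrt_sq_eq_abs]
  rcases le_total 0 t with h | h
  · exact Or.inl ⟨_, h4, by simp only [h5, abs_of_nonneg h]⟩
  · exact Or.inr ⟨_, h4, by simp only [Pi.neg_apply, h5, abs_of_nonpos h, neg_neg]⟩

def D : Set ℂ := {z | 4 * sin (z ^ 2) ∉ J ∧ 4 * sin (I * z ^ 2) ∉ J}

lemma D_open : IsOpen D :=
  (J_closed.isOpen_compl.preimage (f := fun z : ℂ => 4 * sin (z ^ 2)) (by fun_prop)).inter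
    (J_closed.isOpen_compl.preimage (f := fun z : ℂ => 4 * sin (I * z ^ 2)) (by fun_prop))

lemma U_D : U ⊆ D := fun z hz => by
  have e : (z ^ 4).im = 2 * (z ^ 2).re * (z ^ 2).im := by
    rw [show z ^ 4 = z ^ 2 * z ^ 2 by ring, mul_im]; ring
  refine ⟨fun h => hz ?_, fun h => hz ?_⟩
  · rw [e, sin_real h, mul_zero]
  · have := sin_real h
    rw [I_mul_im] at this
    rw [e, this]; simp

lemma zero_D : (0 : ℂ) ∈ D := ⟨by simpa using zero_J, by simpa using zero_J⟩

lemma D_ae (p : ℂ) : ∀ᵐ t : ℝ, p * t ∈ D := by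
  filter_upwards [line_ae (p ^ 2), line_ae (I * p ^ 2)] with t h1 h2
  exact ⟨by rwa [mul_pow], by rwa [mul_pow, ← mul_assoc]⟩

lemma D_conn : IsConnected D := by
  have st : StarConvex ℝ (0 : ℂ) (insert 0 U) := by
    intro y hy a b ha hb hab
    rw [smul_zero, zero_add]
    by_cases h0 : b = 0
    · simp [h0]
    rcases hy with rfl | hy
    · simp
    · right
      rw [real_smul, U_mul (by exact_mod_cast h0) (by rw [← ofReal_pow, ofReal_im])]
      exact hy
  have c := (st.isPathConnected (mem_insert _ _)).isConnected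
  refine c.subset_closure (insert_subset zero_D U_D) ?_
  rw [(U_dense.mono (subset_insert _ _)).closure_eq]
  exact subset_univ _

lemma D_maj : ∃ u : ℂ → ℝ, HarmonicOnNhd u D ∧ ∀ z ∈ D, ‖z‖ ^ 2 ≤ u z := by
  refine ⟨(fun z => g (4 * sin (z ^ 2))) + (fun z => g (4 * sin (I * z ^ 2))) + fun _ => 4,
    fun z hz => ((harm_comp (φ := fun z => 4 * sin (z ^ 2)) (g_harm hz.1) ?_).add
      (harm_comp (φ := fun z => 4 * sin (I * z ^ 2)) (g_harm hz.2) ?_)).add (harmonicAt_const _),
    fun z hz => ?_⟩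
  · exact Differentiable.analyticAt (by fun_prop) z
  · exact Differentiable.analyticAt (by fun_prop) z
  · have h1 := G_ge hz.1
    have h2 := G_ge hz.2
    rw [I_mul_im] at h2
    have h3 := norm_le_abs_re_add_abs_im (z ^ 2)
    rw [norm_pow] at h3
    simp only [Pi.add_apply]
    linarith

end Pool.Agent.H66.Hdy
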