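import Mathlib

namespace Pool.Agent.H66.Hdy

/-- `f` is holomorphic on `D` and `|f|^2` has a harmonic majorant on `D`. -/
def IsH2 (D : Set ℂ) (f : ℂ → ℂ) : Prop :=
  DifferentiableOn ℂ f D ∧
    ∃ u : ℂ → ℝ, InnerProductSpace.HarmonicOnNhd u D ∧ ∀ z ∈ D, ‖f z‖ ^ 2 ≤ u z

/-- The Hardy space `H^2(D)`, as a complex vector space of functions `D → ℂ`. -/
def H2 (D : Set ℂ) : Submodule ℂ (D → ℂ) where
  carrier := {g | ∃ f : ℂ → ℂ, IsH2 D f ∧ ∀ z : D, g z = f z}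
  zero_mem' := ⟨fun _ => 0, ⟨differentiableOn_const _, fun _ => 0,
    InnerProductSpace.harmonicOnNhd_const _, fun z _ => by simp⟩, fun _ => rfl⟩
  add_mem' := by
    rintro g g' ⟨f, ⟨hf, u, hu, hfu⟩, hg⟩ ⟨f', ⟨hf', u', hu', hfu'⟩, hg'⟩
    refine ⟨f + f', ⟨hf.add hf', (2 : ℝ) • (u + u'), (hu.add hu').const_smul, fun z hz => ?_⟩,
      fun z => by simp [hg, hg']⟩
    have h1 := hfu z hz
    have h2 := hfu' z hz
    have h3 : ‖(f + f') z‖ ≤ ‖f z‖ + ‖f' z‖ := norm_add_le _ _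
    have h4 : ‖(f + f') z‖ ^ 2 ≤ (‖f z‖ + ‖f' z‖) ^ 2 := by gcongr
    simp only [Pi.smul_apply, Pi.add_apply, smul_eq_mul] at h4 ⊢
    nlinarith [sq_nonneg (‖f z‖ - ‖f' z‖)]
  smul_mem' := by
    rintro c g ⟨f, ⟨hf, u, hu, hfu⟩, hg⟩
    refine ⟨c • f, ⟨hf.const_smul c, (‖c‖ ^ 2 : ℝ) • u, hu.const_smul, fun z hz => ?_⟩,
      fun z => by simp [hg]⟩
    have h1 := hfu z hz
    simp only [Pi.smul_apply, smul_eq_mul, norm_mul, mul_pow]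
    gcongr

end Pool.Agent.H66.Hdy
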