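import Pool.Agent.H66.FO

/-! Predicates defining the generating tuples of a polynomial ring, and their definability. -/

set_option autoImplicit false

namespace Pool.Agent.H66.Hom
open Pool.Agent.H66.FO FirstOrder.Ring

section defs
variable {H : Type} [CommRing H] {σ : Type} [Fintype σ]

def E (t z : H) : Prop := ∀ d, d ∣ z → IsUnit d ∨ t ∣ d
def Q (t q : H) : Prop :=
  (∀ a, ∀ b, q = a * b → IsUnit a ∨ IsUnit b) ∧ ∃ z, E t z ∧ z ≠ 1 ∧ q ∣ z - 1
def Mem (Y : σ → H) (q : H) (v : σ → H) (h : H) : Prop :=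
  ∃ u0, ∃ u : σ → H, h = q * u0 + ∑ l, (Y l - v l) * u l
def RF (Y : σ → H) (j k : σ) (f : H) : Prop :=
  ∀ q, Q (Y k) q → ∀ v : σ → H, v j = Y j → v k = Y k → (∀ l, l ≠ j → l ≠ k → E (Y k) (v l)) →
    Mem Y q v f ∨ ∃ g, Mem Y q v (f * g - 1)
def Dg (Y : σ → H) (j k : σ) (f w : H) : Prop :=
  ∃ g, ∀ a, ∀ c, ∀ d, RF Y j k a → RF Y j k c → RF Y j k d → a ≠ 0 → Y j - a ∣ g - c →
    Y j - a ∣ w - d → a * Y j - 1 ∣ d * f - c
def rho (Y : σ → H) (κ : σ → σ) (f w : H) : Prop := ∀ j, Dg Y j (κ j) f w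
def theta (Y : σ → H) (κ : σ → σ) : Prop :=
  (∀ i, ¬ IsUnit (Y i)) ∧ (∀ f, ∃ w, w ≠ 0 ∧ rho Y κ f w) ∧
    ∀ f, ∀ w, w ≠ 0 → rho Y κ f w → (f = 0 ∨ IsUnit f) ∨
      ∃ i, ∃ b, ∃ f1, ∃ w1, f = b + Y i * f1 ∧ w = Y i * w1 ∧ rho Y κ b w1 ∧ rho Y κ f1 w1
def theta1 (y : H) : Prop :=
  ¬ IsUnit y ∧ y ≠ 0 ∧ ∀ f, ∃ c, (c = 0 ∨ IsUnit c) ∧ y ∣ f - c
end defs

section fd
variable {H : Type} [CommRing H] [CompatibleRing H] {σ : Type} [Fintype σ]

theorem fd_E {α : Type} {t z : (α → H) → H} (ht : TD t) (hz : TD z) :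
    FD (fun v => E (t v) (z v)) :=
  FD.all ((FD.dvd (TD.var _) (hz.comp _)).imp
    ((FD.unit (TD.var _)).or (FD.dvd (ht.comp _) (TD.var _))))

theorem fd_Q {α : Type} {t q : (α → H) → H} (ht : TD t) (hq : TD q) :
    FD (fun v => Q (t v) (q v)) :=
  FD.and (FD.all (FD.all ((FD.eq ((hq.comp _).comp _) ((TD.var _).mul (TD.var _))).imp
    ((FD.unit (TD.var _)).or (FD.unit (TD.var _))))))
    (FD.ex ((fd_E (ht.comp _) (TD.var _)).and ((FD.ne (TD.var _) TD.one).and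
      (FD.dvd (hq.comp _) ((TD.var _).sub TD.one)))))

theorem fd_Mem {α : Type} {Y w : (α → H) → σ → H} {q h : (α → H) → H}
    (hY : ∀ l, TD (fun v => Y v l)) (hq : TD q) (hw : ∀ l, TD (fun v => w v l)) (hh : TD h) :
    FD (fun v => Mem (Y v) (q v) (w v) (h v)) :=
  FD.ex (FD.exT (FD.eq ((hh.comp _).comp _) ((((hq.comp _).comp _).mul (TD.var _)).add
    (TD.sum _ fun l => ((((hY l).comp _).comp _).sub (((hw l).comp _).comp _)).mul (TD.var _)))))

theorem fd_RF {α : Type} {Y : (α → H) → σ → H} {f : (α → H) → H} (j k : σ)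
    (hY : ∀ l, TD (fun v => Y v l)) (hf : TD f) :
    FD (fun v => RF (Y v) j k (f v)) :=
  FD.all ((fd_Q ((hY k).comp _) (TD.var _)).imp (FD.allT
    ((FD.eq (TD.var _) (((hY j).comp _).comp _)).imp
    ((FD.eq (TD.var _) (((hY k).comp _).comp _)).imp
    ((FD.allI fun l => (FD.const _).imp ((FD.const _).imp
      (fd_E (((hY k).comp _).comp _) (TD.var _)))).imp
    ((fd_Mem (fun l => ((hY l).comp _).comp _) (TD.var _) (fun l => TD.var _)
      ((hf.comp _).comp _)).or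
     (FD.ex (fd_Mem (fun l => (((hY l).comp _).comp _).comp _) (TD.var _) (fun l => TD.var _)
      (((((hf.comp _).comp _).comp _).mul (TD.var _)).sub TD.one)))))))))

theorem fd_Dg {α : Type} {Y : (α → H) → σ → H} {f w : (α → H) → H} (j k : σ)
    (hY : ∀ l, TD (fun v => Y v l)) (hf : TD f) (hw : TD w) :
    FD (fun v => Dg (Y v) j k (f v) (w v)) := by
  refine FD.ex (FD.all (FD.all (FD.all ?_)))
  have hY' := fun l => ((((hY l).comp (Sum.inl (β := Unit))).comp (Sum.inl (β := Unit))).comp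
    (Sum.inl (β := Unit))).comp (Sum.inl (β := Unit))
  exact (fd_RF j k hY' (TD.var _)).imp ((fd_RF j k hY' (TD.var _)).imp
    ((fd_RF j k hY' (TD.var _)).imp ((FD.ne (TD.var _) TD.zero).imp
    ((FD.dvd ((hY' j).sub (TD.var _)) ((TD.var _).sub (TD.var _))).imp
    ((FD.dvd ((hY' j).sub (TD.var _)) (((((hw.comp _).comp _).comp _).comp _).sub (TD.var _))).imp
    (FD.dvd (((TD.var _).mul (hY' j)).sub TD.one)
      (((TD.var _).mul ((((hf.comp _).comp _).comp _).comp _)).sub (TD.var _))))))))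

theorem fd_rho {α : Type} {Y : (α → H) → σ → H} {f w : (α → H) → H} (κ : σ → σ)
    (hY : ∀ l, TD (fun v => Y v l)) (hf : TD f) (hw : TD w) :
    FD (fun v => rho (Y v) κ (f v) (w v)) :=
  FD.allI fun j => fd_Dg j (κ j) hY hf hw

theorem fd_theta {α : Type} {Y : (α → H) → σ → H} (κ : σ → σ)
    (hY : ∀ l, TD (fun v => Y v l)) : FD (fun v => theta (Y v) κ) := by
  have hY2 := fun l => ((hY l).comp (Sum.inl (β := Unit))).comp (Sum.inl (β := Unit))
  have hY5 := fun l => (((hY2 l).comp (Sum.inl (β := Unit))).comp (Sum.inl (β := Unit))).comp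
    (Sum.inl (β := Unit))
  refine (FD.allI fun i => (FD.unit (hY i)).not).and (FD.and (FD.all (FD.ex ?_))
    (FD.all (FD.all ?_)))
  · exact (FD.ne (TD.var _) TD.zero).and (fd_rho κ hY2 (TD.var _) (TD.var _))
  · refine (FD.ne (TD.var _) TD.zero).imp ((fd_rho κ hY2 (TD.var _) (TD.var _)).imp
      (((FD.eq (TD.var _) TD.zero).or (FD.unit (TD.var _))).or
      (FD.exI fun i => FD.ex (FD.ex (FD.ex ?_)))))
    exact (FD.eq (TD.var _) ((TD.var _).add ((hY5 i).mul (TD.var _)))).and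
      ((FD.eq (TD.var _) ((hY5 i).mul (TD.var _))).and
      ((fd_rho κ hY5 (TD.var _) (TD.var _)).and (fd_rho κ hY5 (TD.var _) (TD.var _))))

theorem fd_theta1 {α : Type} {y : (α → H) → H} (hy : TD y) : FD (fun v => theta1 (y v)) :=
  (FD.unit hy).not.and ((FD.ne hy TD.zero).and (FD.all (FD.ex
    (((FD.eq (TD.var _) TD.zero).or (FD.unit (TD.var _))).and
      (FD.dvd ((hy.comp _).comp _) ((TD.var _).sub (TD.var _)))))))
end fd

end Pool.Agent.H66.Hom
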