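import Pool.Agent.H66.Hom1

set_option autoImplicit false

namespace Pool.Agent.H66.Hom
open MvPolynomial

section poly
open Polynomial
variable {R : Type} [CommRing R] [IsDomain R]

theorem rev_dvd (f : R[X]) (a c d : R) (ha : a ≠ 0) :
    Polynomial.C a * Polynomial.X - 1 ∣ Polynomial.C d * f - Polynomial.C c ↔
      d * f.reverse.eval a = c * a ^ f.natDegree := by
  constructor
  · rintro ⟨h, hh⟩
    let K := FractionRing R
    have hinj : Function.Injective (algebraMap R K) := IsFractionRing.injective R K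
    have ha' : algebraMap R K a ≠ 0 := fun h0 => ha (hinj (by simpa using h0))
    let x : K := (algebraMap R K a)⁻¹
    letI : Invertible x := ⟨algebraMap R K a, mul_inv_cancel₀ ha', inv_mul_cancel₀ ha'⟩
    have h1 := Polynomial.eval₂_reverse_mul_pow (algebraMap R K) x f
    have h2 : (⅟x : K) = algebraMap R K a := rfl
    rw [h2, Polynomial.eval₂_at_apply] at h1
    have h3 := congrArg (Polynomial.eval₂RingHom (algebraMap R K) x) hh
    simp only [map_sub, map_mul, map_one, Polynomial.coe_eval₂RingHom, Polynomial.eval₂_C,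
      Polynomial.eval₂_X] at h3
    have h4 : algebraMap R K a * x = 1 := mul_inv_cancel₀ ha'
    rw [h4, sub_self, zero_mul, sub_eq_zero, ← h1] at h3
    apply hinj
    rw [map_mul, map_mul, map_pow, ← h3]
    have h5 : x ^ f.natDegree * algebraMap R K a ^ f.natDegree = 1 := by
      rw [← mul_pow, mul_comm, h4, one_pow]
    linear_combination (-(algebraMap R K d * algebraMap R K (Polynomial.eval a f.reverse))) * h5
  · intro h
    rw [← Ideal.mem_span_singleton, ← Ideal.Quotient.eq_zero_iff_mem]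
    set I : Ideal R[X] := Ideal.span {Polynomial.C a * Polynomial.X - 1}
    let i : R →+* R[X] ⧸ I := (Ideal.Quotient.mk I).comp Polynomial.C
    let x : R[X] ⧸ I := Ideal.Quotient.mk I Polynomial.X
    have h4 : i a * x = 1 := by
      rw [← sub_eq_zero]
      change Ideal.Quotient.mk I (Polynomial.C a * Polynomial.X - 1) = 0
      exact Ideal.Quotient.eq_zero_iff_mem.2 (Ideal.mem_span_singleton_self _)
    letI : Invertible x := ⟨i a, h4, by rw [mul_comm, h4]⟩
    have h1 := Polynomial.eval₂_reverse_mul_pow i x f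
    have h2 : (⅟x) = i a := rfl
    rw [h2, Polynomial.eval₂_at_apply] at h1
    have h6 : Polynomial.eval₂ i x f = Ideal.Quotient.mk I f := by
      have : Polynomial.eval₂RingHom i x = Ideal.Quotient.mk I := by
        apply Polynomial.ringHom_ext
        · intro r; simp [i]
        · simp [x]
      exact congrArg (fun φ => φ f) this
    rw [map_sub, map_mul, ← h6, ← h1]
    change i d * _ - i c = 0
    have h7 := congrArg i h
    rw [map_mul, map_mul, map_pow] at h7
    have h5 : x ^ f.natDegree * i a ^ f.natDegree = 1 := by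
      rw [← mul_pow, mul_comm, h4, one_pow]
    linear_combination (x ^ f.natDegree) * h7 + (i c) * h5

theorem poly_dg [Infinite R] (f w : R[X]) :
    (∃ g : R[X], ∀ a c d : R, a ≠ 0 → Polynomial.X - Polynomial.C a ∣ g - Polynomial.C c →
      Polynomial.X - Polynomial.C a ∣ w - Polynomial.C d →
      Polynomial.C a * Polynomial.X - 1 ∣ Polynomial.C d * f - Polynomial.C c) ↔
      Polynomial.X ^ f.natDegree ∣ w := by
  constructor
  · rintro ⟨g, hg⟩
    by_cases hf : f = 0
    · simp [hf]
    have key : w * f.reverse = g * Polynomial.X ^ f.natDegree := by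
      apply Polynomial.eq_of_infinite_eval_eq
      refine Set.Infinite.mono ?_ ((Set.finite_singleton (0 : R)).infinite_compl)
      intro a ha
      have := (rev_dvd f a _ _ ha).1 (hg a (g.eval a) (w.eval a) ha
        (Polynomial.X_sub_C_dvd_sub_C_eval) (Polynomial.X_sub_C_dvd_sub_C_eval))
      simpa using this
    refine (Polynomial.prime_X.pow_dvd_of_dvd_mul_right _ ?_ ⟨g, by rw [key, mul_comm]⟩)
    rw [Polynomial.X_dvd_iff, Polynomial.coeff_zero_reverse]
    exact Polynomial.leadingCoeff_ne_zero.2 hf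
  · rintro ⟨w', rfl⟩
    refine ⟨w' * f.reverse, fun a c d ha h1 h2 => (rev_dvd f a c d ha).2 ?_⟩
    rw [Polynomial.dvd_iff_isRoot, Polynomial.IsRoot.def] at h1 h2
    simp only [Polynomial.eval_sub, Polynomial.eval_mul, Polynomial.eval_C, Polynomial.eval_pow,
      Polynomial.eval_X, sub_eq_zero] at h1 h2
    rw [← h1, ← h2]; ring
end poly

variable {P : Type} [Field P] {σ : Type} [Fintype σ] [DecidableEq σ]

theorem sub_aeval (v : σ → MvPolynomial σ P) (f : MvPolynomial σ P) :
    ∃ u : σ → MvPolynomial σ P, f - aeval v f = ∑ l, (X l - v l) * u l := by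
  induction f using MvPolynomial.induction_on with
  | C c => exact ⟨0, by simp⟩
  | add f g hf hg =>
    obtain ⟨u, hu⟩ := hf; obtain ⟨u', hu'⟩ := hg
    refine ⟨u + u', ?_⟩
    simp only [Pi.add_apply, mul_add, Finset.sum_add_distrib, ← hu, ← hu', map_add]; ring
  | mul_X f i hf =>
    obtain ⟨u, hu⟩ := hf
    refine ⟨fun l => u l * X i + if l = i then aeval v f else 0, ?_⟩
    simp only [mul_add, Finset.sum_add_distrib, ← mul_assoc, ← Finset.sum_mul, ← hu, mul_ite,
      mul_zero, Finset.sum_ite_eq', Finset.mem_univ, if_true, map_mul, aeval_X]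
    ring

theorem unit_C {f : MvPolynomial σ P} (h : IsUnit f) : ∃ c, f = C c := by
  obtain ⟨c, -, hc⟩ := isUnit_iff_eq_C_of_isReduced.1 h
  exact ⟨c, hc⟩

/-- inclusion of the one-variable polynomial ring -/
noncomputable def io (k : σ) : Polynomial P →ₐ[P] MvPolynomial σ P := Polynomial.aeval (X k)

theorem io_X (k : σ) : io (P := P) k Polynomial.X = X k := by simp [io]

theorem io_retr (k : σ) (p : Polynomial P) :
    aeval (fun _ : σ => (Polynomial.X : Polynomial P)) (io k p) = p := by
  have : (aeval (fun _ : σ => (Polynomial.X : Polynomial P))).comp (io k) = AlgHom.id P _ := by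
    apply Polynomial.algHom_ext; simp [io]
  exact congrArg (fun φ => φ p) this

theorem io_inj (k : σ) : Function.Injective (io (P := P) k) :=
  Function.LeftInverse.injective (io_retr k)

theorem io_unit (k : σ) {p : Polynomial P} (h : IsUnit (io k p)) : IsUnit p := by
  rw [← io_retr k p]; exact h.map _

theorem mem_io (k : σ) (a : MvPolynomial σ P) :
    (∃ a0, a = io k a0) ↔ ∀ l, l ≠ k → degreeOf l a = 0 := by
  have h1 : (∃ a0, a = io k a0) ↔ a ∈ supported P {k} := by
    rw [supported_eq_adjoin_X, Set.image_singleton, Algebra.adjoin_singleton_eq_range_aeval]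
    exact ⟨fun ⟨a0, h⟩ => ⟨a0, h.symm⟩, fun ⟨a0, h⟩ => ⟨a0, h.symm⟩⟩
  rw [h1, mem_supported]
  constructor
  · intro h l hl
    by_contra h0
    exact hl (h (mem_vars_iff_degreeOf_ne_zero.2 h0))
  · intro h l hl
    by_contra h0
    exact mem_vars_iff_degreeOf_ne_zero.1 hl (h l h0)

theorem dvd_io (k : σ) {a : MvPolynomial σ P} {p : Polynomial P} (hp : p ≠ 0)
    (h : a ∣ io k p) : ∃ a0, a = io k a0 := by
  obtain ⟨b, hb⟩ := h
  have h0 : io k p ≠ 0 := fun h => hp (io_inj k (by simpa using h))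
  rw [mem_io]
  intro l hl
  have h1 := (mem_io k _).1 ⟨p, rfl⟩ l hl
  rw [hb] at h0 h1
  rw [degreeOf_mul_eq (left_ne_zero_of_mul h0) (right_ne_zero_of_mul h0)] at h1
  omega

theorem E_mem (k : σ) {z : MvPolynomial σ P} (h : E (X k) z) : ∃ z0, z = io k z0 := by
  have hX : Prime (X k : MvPolynomial σ P) := X_prime
  have hz : z ≠ 0 := by
    rintro rfl
    rcases h (X k + 1) (dvd_zero _) with h1 | h1
    · have := h1.map (aeval (fun _ : σ => (-1 : P)))
      simp at this
    · exact hX.not_dvd_one ((dvd_add_right (dvd_refl _)).1 h1)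
  obtain ⟨n, z', hn, rfl⟩ := WfDvdMonoid.max_power_factor' hz hX.not_unit
  rcases h z' (dvd_mul_left _ _) with h1 | h1
  · obtain ⟨c, rfl⟩ := unit_C h1
    exact ⟨Polynomial.C c * Polynomial.X ^ n, by rw [mul_comm]; simp [io]⟩
  · exact absurd h1 hn

theorem E_pow (k : σ) (n : ℕ) : E (X k : MvPolynomial σ P) (X k ^ n) := by
  intro d hd
  obtain ⟨i, -, hi⟩ := (dvd_prime_pow X_prime n).1 hd
  rcases i with _ | i
  · left; rw [pow_zero] at hi; exact associated_one_iff_isUnit.1 hi
  · right; exact (dvd_pow_self _ (Nat.succ_ne_zero i)).trans hi.symm.dvd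

theorem Q_mem (k : σ) {q : MvPolynomial σ P} (h : Q (X k) q) :
    ∃ q0, q = io k q0 ∧ ∀ a b, q0 = a * b → IsUnit a ∨ IsUnit b := by
  obtain ⟨h1, z, hz, hz1, hq⟩ := h
  obtain ⟨z0, rfl⟩ := E_mem k hz
  have h2 : io k z0 - 1 = io k (z0 - 1) := by simp
  rw [h2] at hq
  obtain ⟨q0, rfl⟩ := dvd_io k (fun h0 => hz1 (by rw [sub_eq_zero.1 h0, map_one])) hq
  refine ⟨q0, rfl, fun a b hab => ?_⟩
  exact (h1 (io k a) (io k b) (by rw [hab, map_mul])).imp (io_unit k) (io_unit k)

theorem Q_exists (k : σ) {c : Polynomial P} (hc : c ≠ 0) :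
    ∃ π : Polynomial P, Prime π ∧ ¬ π ∣ c ∧ Q (X k) (io k π) := by
  classical
  obtain ⟨n, hn, hn'⟩ : ∃ n : ℕ, c.natDegree < n ∧ (n : P) ≠ 0 := by
    by_cases h : ((c.natDegree + 1 : ℕ) : P) = 0
    · refine ⟨c.natDegree + 1 + 1, by omega, ?_⟩
      rw [Nat.cast_succ, h, zero_add]; exact one_ne_zero
    · exact ⟨_, Nat.lt_succ_self _, h⟩
  have hsq : Squarefree (Polynomial.X ^ n - Polynomial.C (1 : P)) :=
    (Polynomial.separable_X_pow_sub_C 1 hn' one_ne_zero).squarefree
  set q := Polynomial.X ^ n - Polynomial.C (1 : P) with hq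
  obtain ⟨q', hq'⟩ := EuclideanDomain.gcd_dvd_left q c
  have hq0 : q' ≠ 0 := by rintro rfl; exact hsq.ne_zero (by rw [hq', mul_zero])
  have hnu : ¬ IsUnit q' := by
    intro hu
    have h1 : q ∣ c := by
      have : q ∣ EuclideanDomain.gcd q c := by
        conv_lhs => rw [hq']
        exact hu.mul_right_dvd.2 dvd_rfl
      exact this.trans (EuclideanDomain.gcd_dvd_right q c)
    have h2 := Polynomial.natDegree_le_of_dvd h1 hc
    rw [hq, Polynomial.natDegree_X_pow_sub_C] at h2
    omega
  obtain ⟨π, hπ, hd⟩ := WfDvdMonoid.exists_irreducible_factor hnu hq0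
  have hdq : π ∣ q := by rw [hq']; exact hd.mul_left _
  refine ⟨π, hπ.prime, fun h => hπ.not_isUnit (hsq π ?_), ?_, X k ^ n, E_pow k n, ?_, ?_⟩
  · rw [hq']; exact mul_dvd_mul (EuclideanDomain.dvd_gcd hdq h) hd
  · intro a b hab
    obtain ⟨a0, rfl⟩ := dvd_io k hπ.ne_zero (Dvd.intro b hab.symm)
    obtain ⟨b0, rfl⟩ := dvd_io k hπ.ne_zero (Dvd.intro_left _ hab.symm)
    rw [← map_mul] at hab
    exact (hπ.isUnit_or_isUnit (io_inj k hab)).imp (fun h => h.map _) (fun h => h.map _)
  · intro h
    exact (X_prime (R := P) (i := k)).not_unit (IsUnit.of_pow_eq_one h (by omega))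
  · have : (X k ^ n - 1 : MvPolynomial σ P) = io k q := by simp [hq, io]
    rw [this]; exact map_dvd _ hdq

end Pool.Agent.H66.Hom
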