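import Pool.Agent.H66.Hom2

set_option autoImplicit false

namespace Pool.Agent.H66.Hom
open MvPolynomial

variable {P : Type} [Field P] {σ : Type} [Fintype σ] [DecidableEq σ]

/-- polynomials in the variable j over the other variables -/
noncomputable def eqv (j : σ) :
    MvPolynomial σ P ≃ₐ[P] Polynomial (MvPolynomial {b // b ≠ j} P) :=
  (renameEquiv P (Equiv.optionSubtypeNe j).symm).trans (optionEquivLeft P {b // b ≠ j})

theorem eqv_deg (j : σ) (f : MvPolynomial σ P) : (eqv j f).natDegree = degreeOf j f :=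
  (degreeOf_eq_natDegree j f).symm

theorem eqv_X_self (j : σ) : eqv (P := P) j (X j) = Polynomial.X := by
  simp [eqv]

theorem eqv_X_ne (j l : σ) (h : l ≠ j) : eqv (P := P) j (X l) = Polynomial.C (X ⟨l, h⟩) := by
  simp [eqv, Equiv.optionSubtypeNe_symm_of_ne h]

theorem RF_of (j k : σ) (hjk : j ≠ k) {f : MvPolynomial σ P} (hf : degreeOf j f = 0) :
    RF X j k f := by
  classical
  intro q hq v hj hk hv
  obtain ⟨q0, rfl, hq0⟩ := Q_mem k hq
  have hu : ∀ l, ∃ u, l ≠ j → v l = io k u := by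
    intro l
    by_cases hl : l = j
    · exact ⟨0, fun h => absurd hl h⟩
    by_cases hl' : l = k
    · exact ⟨Polynomial.X, fun _ => by rw [hl', hk, io_X]⟩
    · obtain ⟨u, hu⟩ := E_mem k (hv l hl hl'); exact ⟨u, fun _ => hu⟩
  choose u hu using hu
  have h1 : aeval v f = io k (aeval u f) := by
    refine hom_congr_vars (f₁ := (aeval v : MvPolynomial σ P →ₐ[P] _).toRingHom)
      (f₂ := ((io k).comp (aeval u)).toRingHom) ?_ ?_ rfl
    · ext1 c; simp [io]
    · intro l hl _
      have : l ≠ j := by rintro rfl; exact mem_vars_iff_degreeOf_ne_zero.1 hl hf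
      simp [hu l this]
  obtain ⟨w, hw⟩ := sub_aeval v f
  rw [h1] at hw
  set f0 := aeval u f
  obtain ⟨e0, he0⟩ := EuclideanDomain.gcd_dvd_right f0 q0
  rcases hq0 _ _ he0 with h | h
  · right
    obtain ⟨A, B, hAB⟩ := EuclideanDomain.gcd_isUnit_iff.1 h
    refine ⟨io k A, - io k B, fun l => w l * io k A, ?_⟩
    have h2 := congrArg (io k) hAB
    rw [map_add, map_mul, map_mul, map_one] at h2
    simp only [← mul_assoc, ← Finset.sum_mul, ← hw]
    linear_combination h2
  · left
    have : q0 ∣ f0 := by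
      refine Dvd.dvd.trans ?_ (EuclideanDomain.gcd_dvd_left f0 q0)
      conv_lhs => rw [he0]
      exact h.mul_right_dvd.2 dvd_rfl
    obtain ⟨r, hr⟩ := this
    refine ⟨io k r, w, ?_⟩
    rw [← hw, ← map_mul, ← hr]; ring

theorem exists_u {τ : Type} [DecidableEq τ] (k : τ) {c : MvPolynomial τ P} (hc : c ≠ 0) :
    ∃ u : τ → Polynomial P, u k = Polynomial.X ∧ (∀ l, ∃ n, u l = Polynomial.X ^ n) ∧
      aeval u c ≠ 0 := by
  let φ : MvPolynomial τ P →ₐ[P] MvPolynomial τ (Polynomial P) :=
    aeval fun l => if l = k then C Polynomial.X else X l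
  let ψ : MvPolynomial τ (Polynomial P) →+* MvPolynomial τ P :=
    eval₂Hom (Polynomial.aeval (X k : MvPolynomial τ P)).toRingHom X
  have h1 : ψ.comp φ.toRingHom = RingHom.id _ := by
    apply ringHom_ext
    · intro r; simp [φ, ψ]
    · intro l
      by_cases hl : l = k
      · simp [φ, ψ, hl]
      · simp [φ, ψ, hl]
  have h2 : φ c ≠ 0 := by
    intro h
    have := congrArg (fun g => g c) h1
    simp only [RingHom.comp_apply, AlgHom.toRingHom_eq_coe, RingHom.coe_coe, h, map_zero,
      RingHom.id_apply] at this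
    exact hc this.symm
  have hinf : (Set.range fun n : ℕ => (Polynomial.X : Polynomial P) ^ n).Infinite :=
    Set.infinite_range_of_injective fun a b h => by
      simpa using congrArg Polynomial.natDegree h
  by_contra hcon
  push Not at hcon
  apply h2
  refine funext_set (fun _ => Set.range fun n : ℕ => (Polynomial.X : Polynomial P) ^ n)
    (fun _ => hinf) fun x hx => ?_
  have h3 := hcon (fun l => if l = k then Polynomial.X else x l) (by simp) (fun l => by
    by_cases hl : l = k
    · exact ⟨1, by simp [hl]⟩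
    · obtain ⟨n, hn⟩ := hx l (Set.mem_univ _)
      exact ⟨n, by simp [hl, ← hn]⟩)
  have h4 : (eval x).comp φ.toRingHom =
      (aeval (fun l => if l = k then Polynomial.X else x l) :
        MvPolynomial τ P →ₐ[P] Polynomial P).toRingHom := by
    apply ringHom_ext
    · intro r; simp [φ]
    · intro l
      by_cases hl : l = k
      · simp [φ, hl]
      · simp [φ, hl]
  rw [map_zero, ← h3]
  exact congrArg (fun g => g c) h4

theorem of_RF (j k : σ) (hjk : j ≠ k) {f : MvPolynomial σ P} (hf : RF X j k f) :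
    degreeOf j f = 0 := by
  classical
  by_contra hd
  have hf0 : eqv j f ≠ 0 := fun h => hd (by rw [← eqv_deg, h, Polynomial.natDegree_zero])
  obtain ⟨u, huk, hun, hu⟩ := exists_u (P := P) (⟨k, hjk.symm⟩ : {b // b ≠ j})
    (Polynomial.leadingCoeff_ne_zero.2 hf0)
  obtain ⟨π, hπ, hπc, hQ⟩ := Q_exists k hu
  haveI : (Ideal.span {π}).IsPrime := (Ideal.span_singleton_prime hπ.ne_zero).2 hπ
  obtain ⟨F, _, _, _, mk, hmk⟩ : ∃ (F : Type) (_ : CommRing F) (_ : IsDomain F) (_ : Algebra P F)
      (mk : Polynomial P →ₐ[P] F), ∀ p, mk p = 0 ↔ π ∣ p :=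
    ⟨Polynomial P ⧸ Ideal.span {π}, inferInstance, inferInstance, inferInstance,
      Ideal.Quotient.mkₐ P _, fun p => by
        rw [Ideal.Quotient.mkₐ_eq_mk, Ideal.Quotient.eq_zero_iff_mem, Ideal.mem_span_singleton]⟩
  let κ := mk.comp (aeval u : MvPolynomial {b // b ≠ j} P →ₐ[P] Polynomial P)
  let χ : MvPolynomial σ P →ₐ[P] Polynomial F :=
    (Polynomial.mapAlgHom κ).comp (eqv j).toAlgHom
  have hχ : ∀ g, χ g = (eqv j g).map κ.toRingHom := fun g => rfl
  have hdeg : (χ f).natDegree = degreeOf j f := by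
    rw [hχ, Polynomial.natDegree_map_of_leadingCoeff_ne_zero, eqv_deg]
    exact fun h => hπc ((hmk _).1 h)
  have hX : ∀ l (h : l ≠ j), χ (X l) = Polynomial.C (mk (u ⟨l, h⟩)) := by
    intro l h
    rw [hχ, eqv_X_ne j l h]; simp [κ]
  have hio : ∀ p, χ (io k p) = Polynomial.C (mk p) := by
    have : χ.comp (io k) = (Polynomial.CAlgHom).comp mk := by
      apply Polynomial.algHom_ext
      rw [AlgHom.comp_apply, io_X, hX k hjk.symm, huk]; simp
    exact fun p => congrArg (fun g => g p) this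
  let v : σ → MvPolynomial σ P := fun l => if h : l = j then X j else io k (u ⟨l, h⟩)
  have hv : ∀ l, χ (X l - v l) = 0 := by
    intro l
    by_cases h : l = j
    · simp [v, h]
    · rw [map_sub, hX l h]; simp [v, h, hio]
  have hmem : ∀ g, Mem X (io k π) v g → χ g = 0 := by
    rintro g ⟨u0, w, rfl⟩
    rw [map_add, map_mul, hio, (hmk π).2 dvd_rfl, map_sum]
    simp only [map_mul, hv, zero_mul, Finset.sum_const_zero, map_zero, add_zero]
  rcases hf _ hQ v (by simp [v]) (by simp only [v, dif_neg hjk.symm]; rw [huk, io_X])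
    (fun l hl _ => by
      obtain ⟨n, hn⟩ := hun ⟨l, hl⟩
      simp only [v, dif_neg hl, hn, map_pow, io_X]
      exact E_pow k n) with h | ⟨g, h⟩
  · rw [hmem _ h, Polynomial.natDegree_zero] at hdeg; exact hd hdeg.symm
  · have h1 := hmem _ h
    rw [map_sub, map_mul, map_one, sub_eq_zero] at h1
    rw [Polynomial.natDegree_eq_zero_of_isUnit (IsUnit.of_mul_eq_one _ h1)] at hdeg
    exact hd hdeg.symm

theorem RF_iff (j k : σ) (hjk : j ≠ k) (f : MvPolynomial σ P) :
    RF X j k f ↔ ∃ r, Polynomial.C r = eqv j f := by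
  rw [← Polynomial.natDegree_eq_zero, eqv_deg]
  exact ⟨of_RF j k hjk, RF_of j k hjk⟩

theorem Dg_iff (j k : σ) (hjk : j ≠ k) (f w : MvPolynomial σ P) :
    Dg X j k f w ↔ X j ^ degreeOf j f ∣ w := by
  haveI : Nonempty {b // b ≠ j} := ⟨⟨k, hjk.symm⟩⟩
  rw [← map_dvd_iff (eqv (P := P) j), map_pow, eqv_X_self, ← eqv_deg, ← poly_dg]
  constructor
  · rintro ⟨g, hg⟩
    refine ⟨eqv j g, fun a c d ha h1 h2 => ?_⟩
    have hr : ∀ r, RF X j k ((eqv (P := P) j).symm (Polynomial.C r)) := fun r =>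
      (RF_iff j k hjk _).2 ⟨r, by simp⟩
    have := hg _ _ _ (hr a) (hr c) (hr d) (by simpa using ha)
      (by rw [← map_dvd_iff (eqv (P := P) j)]; simpa [eqv_X_self] using h1)
      (by rw [← map_dvd_iff (eqv (P := P) j)]; simpa [eqv_X_self] using h2)
    rw [← map_dvd_iff (eqv (P := P) j)] at this
    simpa [eqv_X_self] using this
  · rintro ⟨g, hg⟩
    refine ⟨(eqv j).symm g, fun a c d ha hc hd ha0 h1 h2 => ?_⟩
    obtain ⟨a', ha'⟩ := (RF_iff j k hjk _).1 ha
    obtain ⟨c', hc'⟩ := (RF_iff j k hjk _).1 hc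
    obtain ⟨d', hd'⟩ := (RF_iff j k hjk _).1 hd
    rw [← map_dvd_iff (eqv (P := P) j)] at h1 h2 ⊢
    simp only [map_sub, map_mul, map_one, eqv_X_self, ← ha', ← hc', ← hd',
      AlgEquiv.apply_symm_apply] at h1 h2 ⊢
    refine hg a' c' d' ?_ h1 h2
    rintro rfl
    exact ha0 ((eqv j).injective (by simpa using ha'.symm))

theorem rho_iff (κ : σ → σ) (hκ : ∀ j, j ≠ κ j) (f w : MvPolynomial σ P) :
    rho X κ f w ↔ ∀ j, X j ^ degreeOf j f ∣ w :=
  forall_congr' fun j => Dg_iff j (κ j) (hκ j) f w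

theorem theta_X (κ : σ → σ) (hκ : ∀ j, j ≠ κ j) :
    theta (X : σ → MvPolynomial σ P) κ := by
  refine ⟨fun i => X_prime.not_unit, fun f => ⟨∏ j, X j ^ degreeOf j f, ?_, ?_⟩, ?_⟩
  · exact Finset.prod_ne_zero_iff.2 fun j _ => pow_ne_zero _ (X_ne_zero j)
  · exact (rho_iff κ hκ _ _).2 fun j => Finset.dvd_prod_of_mem _ (Finset.mem_univ j)
  intro f w hw hr
  rw [rho_iff κ hκ] at hr
  by_cases h : ∀ i, degreeOf i f = 0
  · left
    have hv : f.vars = ∅ := by
      ext i; simp [mem_vars_iff_degreeOf_ne_zero, h i]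
    have : f ∈ supported P (∅ : Set σ) := by rw [mem_supported, hv]; simp
    rw [supported_empty] at this
    obtain ⟨c, rfl⟩ := Algebra.mem_bot.1 this
    by_cases hc : c = 0
    · left; simp [hc]
    · right; exact (Ne.isUnit hc).map _
  right
  push Not at h
  obtain ⟨i, hi⟩ := h
  obtain ⟨d, hd⟩ := Nat.exists_eq_succ_of_ne_zero hi
  obtain ⟨w1, rfl⟩ : X i ∣ w := (dvd_pow_self _ hi).trans (hr i)
  have key : ∀ g : MvPolynomial σ P, degreeOf i g ≤ d → (∀ j, degreeOf j g ≤ degreeOf j f) →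
      rho X κ g w1 := by
    intro g h1 h2
    rw [rho_iff κ hκ]
    intro j
    by_cases hj : j = i
    · subst hj
      have := hr j
      rw [hd, pow_succ'] at this
      exact (pow_dvd_pow _ h1).trans ((mul_dvd_mul_iff_left (X_ne_zero j)).1 this)
    · exact (pow_dvd_pow _ (h2 j)).trans
        (X_prime.pow_dvd_of_dvd_mul_left _ (by rw [X_dvd_X]; exact hj) (hr j))
  refine ⟨i, f.modMonomial (Finsupp.single i 1), f.divMonomial (Finsupp.single i 1), w1,
    (modMonomial_add_divMonomial_single f i).symm, rfl, key _ ?_ ?_, key _ ?_ ?_⟩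
  · rw [degreeOf_le_iff]
    intro m hm
    rw [mem_support_iff] at hm
    by_contra hlt
    exact hm (coeff_modMonomial_of_le _ (by
      rw [Finsupp.single_le_iff]; omega))
  · intro j
    rw [degreeOf_le_iff]
    intro m hm
    apply monomial_le_degreeOf
    rw [mem_support_iff] at hm ⊢
    by_cases hle : Finsupp.single i 1 ≤ m
    · exact absurd (coeff_modMonomial_of_le _ hle) hm
    · rwa [coeff_modMonomial_of_not_le _ hle] at hm
  · rw [degreeOf_le_iff]
    intro m hm
    rw [mem_support_iff, coeff_divMonomial, ← mem_support_iff] at hm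
    have := monomial_le_degreeOf i hm
    simp only [Finsupp.add_apply, Finsupp.single_eq_same] at this
    omega
  · intro j
    rw [degreeOf_le_iff]
    intro m hm
    rw [mem_support_iff, coeff_divMonomial, ← mem_support_iff] at hm
    have := monomial_le_degreeOf j hm
    simp only [Finsupp.add_apply] at this
    omega

theorem const_mem (S : Subalgebra P (MvPolynomial σ P)) {f : MvPolynomial σ P}
    (h : f = 0 ∨ IsUnit f) : f ∈ S := by
  rcases h with rfl | h
  · exact S.zero_mem
  · obtain ⟨c, rfl⟩ := unit_C h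
    exact S.algebraMap_mem c

theorem theta_gen {Y : σ → MvPolynomial σ P} {κ : σ → σ} (h : theta Y κ) :
    Function.Surjective (aeval Y : MvPolynomial σ P →ₐ[P] MvPolynomial σ P) := by
  obtain ⟨h1, h2, h3⟩ := h
  have key : ∀ w : MvPolynomial σ P, w ≠ 0 → ∀ f, rho Y κ f w →
      f ∈ (aeval Y : MvPolynomial σ P →ₐ[P] MvPolynomial σ P).range := by
    intro w
    induction w using (wellFounded_dvdNotUnit (α := MvPolynomial σ P)).induction with
    | _ w ih =>
    intro hw f hf
    rcases h3 f w hw hf with h | ⟨i, b, f1, w1, rfl, rfl, hb, hf1⟩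
    · exact const_mem _ h
    · have hw1 := right_ne_zero_of_mul hw
      have hlt : DvdNotUnit w1 (Y i * w1) := ⟨hw1, Y i, h1 i, mul_comm _ _⟩
      exact add_mem (ih w1 hlt hw1 b hb) (mul_mem ⟨X i, by simp⟩ (ih w1 hlt hw1 f1 hf1))
  intro f
  obtain ⟨w, hw, hf⟩ := h2 f
  exact key w hw f hf

theorem theta1_X [Unique σ] : theta1 (X default : MvPolynomial σ P) := by
  refine ⟨X_prime.not_unit, X_ne_zero _, fun f => ?_⟩
  obtain ⟨u, hu⟩ := sub_aeval (0 : σ → MvPolynomial σ P) f
  refine ⟨aeval (0 : σ → MvPolynomial σ P) f, ?_, u default, by simpa using hu⟩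
  rw [aeval_zero]
  by_cases hc : constantCoeff f = 0
  · left; simp [hc]
  · right; exact (Ne.isUnit hc).map _

theorem theta1_gen {Y : σ → MvPolynomial σ P} (i : σ) (h : theta1 (Y i)) :
    Function.Surjective (aeval Y : MvPolynomial σ P →ₐ[P] MvPolynomial σ P) := by
  obtain ⟨h1, h2, h3⟩ := h
  have hd : (Y i).totalDegree ≠ 0 := by
    intro h0
    rw [totalDegree_eq_zero_iff_eq_C] at h0
    rw [h0] at h1 h2
    exact h1 ((Ne.isUnit fun hc => h2 (by rw [hc, map_zero])).map _)
  have key : ∀ n, ∀ f : MvPolynomial σ P, f.totalDegree = n →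
      f ∈ (aeval Y : MvPolynomial σ P →ₐ[P] MvPolynomial σ P).range := by
    intro n
    induction n using Nat.strong_induction_on with
    | _ n ih =>
    intro f hf
    obtain ⟨c, hc, g, hg⟩ := h3 f
    have hf' : f = c + Y i * g := by rw [← hg]; ring
    by_cases hg0 : g = 0
    · rw [hf', hg0, mul_zero, add_zero]; exact const_mem _ hc
    have hc0 : c.totalDegree = 0 := by
      rcases hc with rfl | hc
      · simp
      · obtain ⟨c, rfl⟩ := unit_C hc; simp
    have h4 := totalDegree_sub f c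
    rw [hg, totalDegree_mul_of_isDomain h2 hg0, hc0, hf] at h4
    rw [hf']
    exact add_mem (const_mem _ hc) (mul_mem ⟨X i, by simp⟩ (ih _ (by omega) g rfl))
  exact fun f => key _ f rfl

theorem inj_of_surj {A : Type} [CommRing A] [IsNoetherianRing A] (φ : A →+* A)
    (h : Function.Surjective φ) : Function.Injective φ := by
  let c : ℕ →o Ideal A := ⟨fun n => RingHom.ker (φ ^ n), monotone_nat_of_le_succ fun n x hx => by
    rw [RingHom.mem_ker] at hx ⊢
    rw [pow_succ', RingHom.mul_def, RingHom.comp_apply, hx, map_zero]⟩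
  obtain ⟨n, hn⟩ := monotone_stabilizes_iff_noetherian.2 (inferInstance : IsNoetherian A A) c
  rw [injective_iff_map_eq_zero]
  intro a ha
  have hs : Function.Surjective (φ ^ n) := by
    rw [RingHom.coe_pow]; exact h.iterate n
  obtain ⟨b, rfl⟩ := hs a
  have : b ∈ c (n + 1) := by
    change (φ ^ (n + 1)) b = 0
    rw [pow_succ', RingHom.mul_def, RingHom.comp_apply, ha]
  rw [← hn (n + 1) (Nat.le_succ n)] at this
  exact this

end Pool.Agent.H66.Hom
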