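import Pool.Agent.H66.Hom3

set_option autoImplicit false

namespace Pool.Agent.H66.Hom
open MvPolynomial Pool.Agent.H66.FO FirstOrder.Ring

variable {P : Type} [Field P] {m : ℕ}

/-- a definable property of tuples holding for the variables and forcing generation -/
theorem exists_basis_formula [CompatibleRing (MvPolynomial (Fin m) P)] :
    ∃ T : (Fin m → MvPolynomial (Fin m) P) → Prop, T X ∧
      (∀ Y, T Y → Function.Surjective
        (aeval Y : MvPolynomial (Fin m) P →ₐ[P] MvPolynomial (Fin m) P)) ∧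
      ∀ (α : Type) (Y : (α → MvPolynomial (Fin m) P) → Fin m → MvPolynomial (Fin m) P),
        (∀ l, TD (fun v => Y v l)) → FD (fun v => T (Y v)) := by
  rcases m with _ | _ | m
  · refine ⟨fun _ => True, trivial, fun Y _ f => ⟨f, ?_⟩, fun α Y _ => FD.const _⟩
    rw [eq_C_of_isEmpty f]; simp
  · haveI : Unique (Fin (0 + 1)) := (inferInstance : Unique (Fin 1))
    exact ⟨fun Y => theta1 (Y 0), by
      have := theta1_X (P := P) (σ := Fin (0 + 1))
      convert this using 2
      exact Subsingleton.elim _ _, fun Y h => theta1_gen 0 h,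
      fun α Y hY => fd_theta1 (hY _)⟩
  · choose κ hκ using fun j : Fin (m + 1 + 1) => exists_ne j
    exact ⟨fun Y => theta Y κ, theta_X κ fun j => (hκ j).symm, fun Y h => theta_gen h,
      fun α Y hY => fd_theta κ hY⟩

theorem homogeneous [CompatibleRing (MvPolynomial (Fin m) P)] {n : ℕ}
    (a b : Fin n → MvPolynomial (Fin m) P)
    (h : ∀ φ : FirstOrder.Language.ring.Formula (Fin n ⊕ P),
      φ.Realize (Sum.elim a (algebraMap P (MvPolynomial (Fin m) P))) ↔
      φ.Realize (Sum.elim b (algebraMap P (MvPolynomial (Fin m) P)))) :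
    ∃ σ : MvPolynomial (Fin m) P ≃ₐ[P] MvPolynomial (Fin m) P, ∀ i, σ (a i) = b i := by
  obtain ⟨T, hT, hgen, hfd⟩ := exists_basis_formula (P := P) (m := m)
  have hF : FD (fun v : Fin n ⊕ P → MvPolynomial (Fin m) P => ∃ Y, T Y ∧ ∀ i, v (Sum.inl i) =
      ∑ d ∈ (a i).support, v (Sum.inr (coeff d (a i))) * ∏ l, Y l ^ d l) :=
    FD.exT ((hfd _ _ fun l => TD.var _).and (FD.allI fun i => FD.eq (TD.var _)
      (TD.sum _ fun d => (TD.var _).mul (TD.prod _ fun l => (TD.var _).pow _))))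
  obtain ⟨φ, hφ⟩ := hF
  have hev : ∀ (Y : Fin m → MvPolynomial (Fin m) P) (f : MvPolynomial (Fin m) P), aeval Y f =
      ∑ d ∈ f.support, algebraMap P (MvPolynomial (Fin m) P) (coeff d f) * ∏ l, Y l ^ d l := by
    intro Y f
    rw [aeval_def, eval₂_eq']
  have h1 := (hφ _).1 ((h φ).1 ((hφ _).2 ⟨X, hT, fun i => by
    simp only [Sum.elim_inl, Sum.elim_inr]
    rw [← hev, aeval_X_left_apply]⟩))
  obtain ⟨Y, hY, hb⟩ := h1
  simp only [Sum.elim_inl, Sum.elim_inr] at hb
  have hs := hgen Y hY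
  refine ⟨AlgEquiv.ofBijective (aeval Y) ⟨inj_of_surj (aeval Y).toRingHom hs, hs⟩, fun i => ?_⟩
  rw [hb i, ← hev]; rfl

end Pool.Agent.H66.Hom
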