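import Mathlib

set_option autoImplicit false

namespace Pool.Agent.H66.Img

open Polynomial

variable {A : Type*} [CommRing A]

/-- the operator -/
noncomputable def D (c : A) (a : A[X]) : A[X] →ₗ[A] A[X] :=
  c • derivative - LinearMap.mulLeft A a

lemma D_apply (c : A) (a h : A[X]) : D c a h = C c * derivative h - a * h := by
  simp [D, smul_eq_C_mul]

def Concl (c : A) (a f : A[X]) : Prop :=
  ∀ g : A[X], ∃ N, ∀ m, N ≤ m → g * f ^ m ∈ LinearMap.range (D c a)

noncomputable def y (c : A) (f : A[X]) (j : ℕ) : A[X] := C c ^ j * derivative^[j] f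

def H1 (c : A) (a f : A[X]) : Prop := ∀ i j, 1 ≤ j → IsNilpotent (c * a.coeff j * f.coeff i)

def H2 (c : A) (a f : A[X]) : Prop := ∃ h, D c a h = f

def H3 (c : A) (a f : A[X]) : Prop := ∀ j, ∃ (n e : ℕ) (b : ℕ → A[X]),
  a ^ e * (y c f j ^ n - a * ∑ i ∈ Finset.range n, b i * a ^ (j * (n - i)) * y c f j ^ i) = 0

lemma y_zero (c : A) {f : A[X]} {j : ℕ} (h : f.natDegree < j) : y c f j = 0 := by
  rw [y, iterate_derivative_eq_zero h, mul_zero]

lemma y_deriv (c : A) (f : A[X]) (j : ℕ) : C c * derivative (y c f j) = y c f (j + 1) := by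
  rw [y, y, Function.iterate_succ_apply', ← C_pow, derivative_C_mul, C_pow]; ring

lemma div (c : A) (a f : A[X]) (ha : a ∈ nonZeroDivisors A[X]) (h3 : H3 c a f) (s : ℕ) :
    ∃ m0, ∀ m, m0 ≤ m → ∀ js : Fin m → ℕ, a ^ (s + ∑ i, js i) ∣ ∏ i, y c f (js i) := by
  classical
  let B := Localization.Away a
  have hinj : Function.Injective (algebraMap A[X] B) :=
    IsLocalization.injective B (Submonoid.powers_le.2 ha)
  let u : B := IsLocalization.Away.invSelf a
  have hu : algebraMap A[X] B a * u = 1 := IsLocalization.Away.mul_invSelf a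
  let φ : ℕ → B := fun j => algebraMap A[X] B (y c f j) * u ^ j
  have hφ : ∀ j, algebraMap A[X] B (y c f j) = algebraMap A[X] B a ^ j * φ j := fun j => by
    simp only [φ]
    rw [mul_left_comm, ← mul_pow, hu, one_pow, mul_one]
  have h4 : ∀ j, ∃ (n : ℕ) (b : ℕ → A[X]), φ j ^ n =
      algebraMap A[X] B a * ∑ i ∈ Finset.range n, algebraMap A[X] B (b i) * φ j ^ i := by
    intro j
    obtain ⟨n, e, b, h⟩ := h3 j
    refine ⟨n, b, ?_⟩
    have h5 := congrArg (algebraMap A[X] B) (sub_eq_zero.1 ((pow_mem ha e).1 _ h))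
    simp only [map_pow, map_mul, map_sum, hφ] at h5
    have h6 : IsUnit (algebraMap A[X] B a ^ (j * n)) := (IsUnit.of_mul_eq_one _ hu).pow _
    apply h6.mul_left_cancel
    rw [mul_pow, ← pow_mul] at h5
    rw [h5, mul_left_comm (algebraMap A[X] B a ^ (j * n)), Finset.mul_sum (s := Finset.range n)
      (a := algebraMap A[X] B a ^ (j * n))]
    congr 1
    refine Finset.sum_congr rfl fun i hi => ?_
    have : j * n = j * (n - i) + j * i := by
      rw [← mul_add, Nat.sub_add_cancel (Finset.mem_range.1 hi).le]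
    rw [this]; ring
  have hint : ∀ j, IsIntegral A[X] (φ j) := by
    intro j
    obtain ⟨n, b, h⟩ := h4 j
    refine ⟨X ^ n - ∑ i : Fin n, C (a * b i) * X ^ (i : ℕ), monic_X_pow_sub (degree_sum_fin_lt _), ?_⟩
    rw [eval₂_sub, eval₂_X_pow, h, eval₂_finsetSum, Finset.mul_sum, Finset.sum_range]
    simp [mul_assoc]
  let S : Set B := φ '' Set.Iic f.natDegree
  have hS : S.Finite := (Set.finite_Iic _).image _
  let E := Algebra.adjoin A[X] S
  have hE : ∀ j, φ j ∈ E := by
    intro j
    by_cases h : j ≤ f.natDegree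
    · exact Algebra.subset_adjoin ⟨j, h, rfl⟩
    · simp only [φ, y_zero c (not_le.1 h), map_zero, zero_mul]; exact zero_mem _
  obtain ⟨T, hT⟩ := fg_adjoin_of_finite hS (by rintro _ ⟨j, -, rfl⟩; exact hint j)
  obtain ⟨⟨_, k, rfl⟩, hk⟩ := IsLocalization.exist_integer_multiples_of_finset
    (Submonoid.powers a) T
  have hk' : ∀ x ∈ E, ∃ r, algebraMap A[X] B r = algebraMap A[X] B a ^ k * x := by
    intro x hx
    have hx' : x ∈ Submodule.span A[X] (T : Set B) := hT ▸ hx
    refine Submodule.span_induction (p := fun x _ =>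
      ∃ r, algebraMap A[X] B r = algebraMap A[X] B a ^ k * x) ?_ ⟨0, by simp⟩ ?_ ?_ hx'
    · intro x hx
      obtain ⟨r, hr⟩ := hk x hx
      exact ⟨r, by rw [hr, Algebra.smul_def, map_pow]⟩
    · rintro x y _ _ ⟨r, hr⟩ ⟨r', hr'⟩
      exact ⟨r + r', by rw [map_add, hr, hr', mul_add]⟩
    · rintro z x _ ⟨r, hr⟩
      exact ⟨z * r, by rw [map_mul, hr, Algebra.smul_def]; ring⟩
  let φ' : ℕ → E := fun j => ⟨φ j, hE j⟩
  let F : Ideal E := Ideal.span (φ' '' Set.Iic f.natDegree)
  have hF : ∀ j, φ' j ∈ F := by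
    intro j
    by_cases h : j ≤ f.natDegree
    · exact Ideal.subset_span ⟨j, h, rfl⟩
    · have : φ' j = 0 := Subtype.ext (by
        simp only [φ', φ, y_zero c (not_le.1 h), map_zero, zero_mul]; rfl)
      rw [this]; exact zero_mem _
  obtain ⟨n', hn'⟩ : ∃ n', F ^ n' ≤ Ideal.span {algebraMap A[X] E a} := by
    apply Ideal.exists_pow_le_of_le_radical_of_fg
    · rw [Ideal.span_le]
      rintro _ ⟨j, -, rfl⟩
      obtain ⟨n, b, h⟩ := h4 j
      refine ⟨n, Ideal.mem_span_singleton'.2
        ⟨∑ i ∈ Finset.range n, algebraMap A[X] E (b i) * φ' j ^ i, Subtype.ext ?_⟩⟩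
      simp only [MulMemClass.coe_mul, SubmonoidClass.coe_pow, AddSubmonoidClass.coe_finsetSum,
        Subalgebra.coe_algebraMap, φ', h]
      ring
    · exact Submodule.fg_span ((Set.finite_Iic _).image _)
  refine ⟨n' * (s + k), fun m hm js => ?_⟩
  have h7 : ∏ i, φ' (js i) ∈ F ^ m := by
    have := Ideal.prod_mem_prod (s := Finset.univ) (I := fun _ : Fin m => F)
      (fun i _ => hF (js i))
    simpa using this
  have h8 : F ^ m ≤ Ideal.span {algebraMap A[X] E a ^ (s + k)} := by
    refine (Ideal.pow_le_pow_right hm).trans ?_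
    rw [pow_mul, ← Ideal.span_singleton_pow]
    exact Ideal.pow_right_mono hn' _
  obtain ⟨z, hz⟩ := Ideal.mem_span_singleton'.1 (h8 h7)
  obtain ⟨r, hr⟩ := hk' z z.2
  refine ⟨r, hinj ?_⟩
  have h9 : (z : B) * algebraMap A[X] B a ^ (s + k) = ∏ i, φ (js i) := by
    have := congrArg Subtype.val hz
    simpa [φ'] using this
  simp only [map_prod, map_mul, map_pow, hφ, hr, Finset.prod_mul_distrib,
    Finset.prod_pow_eq_pow_sum, ← h9]
  ring

lemma deriv_mem {I : Ideal A} {p : A[X]} (h : p ∈ I.map C) : derivative p ∈ I.map C := by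
  rw [Ideal.mem_map_C_iff] at h ⊢
  intro n
  rw [coeff_derivative]
  exact I.mul_mem_right _ (h _)

theorem core (c : A) (a f : A[X]) (ha : a ∈ nonZeroDivisors A[X])
    (h1 : ∀ j, 1 ≤ j → IsNilpotent (c * a.coeff j)) (h3 : H3 c a f) : Concl c a f := by
  classical
  intro g
  let ν : Ideal A := (C c * derivative a).contentIdeal
  obtain ⟨R0, hR0⟩ : IsNilpotent ν := by
    rw [Ideal.FG.isNilpotent_iff_le_nilradical ⟨_, (contentIdeal_def _).symm⟩, contentIdeal_def,
      Ideal.span_le]
    intro x hx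
    obtain ⟨n, -, rfl⟩ := mem_coeffs_iff.1 hx
    rw [coeff_C_mul, coeff_derivative, ← mul_assoc]
    exact Ideal.mul_mem_right _ _ (mem_nilradical.2 (h1 _ (by omega)))
  have hν : C c * derivative a ∈ ν.map C := Ideal.mem_map_C_iff.2 (coeff_mem_contentIdeal _)
  set da := a.natDegree
  set s := g.natDegree + R0 * (da + 2) + 1 with hs
  obtain ⟨m0, hm0⟩ := div c a f ha h3 s
  refine ⟨m0, fun m hm => ?_⟩
  choose Z hZ using hm0 m hm
  have hZ' : ∀ js : Fin m → ℕ, a * (C c * derivative (Z js)) =
      a ^ 2 * ∑ i, Z (Function.update js i (js i + 1)) -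
        ((s + ∑ i, js i : ℕ) : A[X]) * (C c * derivative a) * Z js := by
    intro js
    have h4 := congrArg (fun p => C c * derivative p) (hZ js)
    simp only [derivative_prod_finset, Finset.mul_sum] at h4
    have h5 : ∀ i, C c * ((∏ b ∈ Finset.univ.erase i, y c f (js b)) * derivative (y c f (js i))) =
        a ^ (s + ∑ i, js i + 1) * Z (Function.update js i (js i + 1)) := by
      intro i
      have e1 : s + ∑ i, js i + 1 = s + ∑ b, Function.update js i (js i + 1) b := by
        rw [Finset.sum_update_of_mem (Finset.mem_univ i), ← Finset.add_sum_erase _ _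
          (Finset.mem_univ i), Finset.sdiff_singleton_eq_erase]
        ring
      rw [e1, ← hZ, mul_left_comm, y_deriv, ← Finset.mul_prod_erase _ _ (Finset.mem_univ i),
        Function.update_self, mul_comm]
      congr 1
      refine Finset.prod_congr rfl fun b hb => ?_
      rw [Function.update_of_ne (Finset.ne_of_mem_erase hb)]
    simp only [h5, ← Finset.mul_sum] at h4
    obtain ⟨σ, hσ⟩ : ∃ σ, s + ∑ i, js i = σ + 1 := ⟨s + ∑ i, js i - 1, by omega⟩
    rw [hσ] at h4 ⊢
    rw [derivative_mul, derivative_pow, Nat.add_sub_cancel] at h4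
    rw [← sub_eq_zero]
    apply (pow_mem ha σ).1
    rw [map_natCast] at h4
    linear_combination -h4
  have hZ0 : ∀ js : Fin m → ℕ, m * f.natDegree < ∑ i, js i → Z js = 0 := by
    intro js h
    obtain ⟨i, hi⟩ : ∃ i, f.natDegree < js i := by
      by_contra h'
      push Not at h'
      have := Finset.sum_le_sum (s := Finset.univ) fun i _ => h' i
      simp only [Finset.sum_const, Finset.card_univ, Fintype.card_fin, smul_eq_mul] at this
      omega
    apply (pow_mem ha (s + ∑ i, js i)).1
    rw [← hZ]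
    exact Finset.prod_eq_zero (Finset.mem_univ i) (y_zero c hi)
  have key : ∀ r, r ≤ R0 → ∀ l n (js : Fin m → ℕ) (e : ℕ) (p : A[X]),
      m * f.natDegree < ∑ i, js i + n → p ∈ (ν ^ (R0 - r)).map C → p.natDegree < l ∨ p = 0 →
      l + r * (da + 2) ≤ e + 1 → a * (p * a ^ e * Z js) ∈ LinearMap.range (D c a) := by
    intro r
    induction r with
    | zero =>
      intro _ l n js e p _ hp _ _
      rw [Nat.sub_zero, hR0, Ideal.zero_eq_bot, Ideal.map_bot, Ideal.mem_bot] at hp
      simp [hp]
    | succ r ihr =>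
      intro hr l
      induction l with
      | zero =>
        intro n js e p _ _ hp _
        simp [hp.resolve_left (Nat.not_lt_zero _)]
      | succ l ihl =>
        intro n
        induction n with
        | zero =>
          intro js e p h _ _ _
          simp [hZ0 js h]
        | succ n ihn =>
          intro js e p h hp hl he
          obtain ⟨e, rfl⟩ : ∃ k, e = k + 2 := ⟨e - 2, by rw [add_mul] at he; omega⟩
          have e1 : a * (p * a ^ (e + 2) * Z js) = -D c a (p * a ^ (e + 2) * Z js) +
              c • (a * (derivative p * a ^ (e + 1) * Z js)) +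
              ∑ i, a * (p * a ^ (e + 2) * Z (Function.update js i (js i + 1))) +
              (((e + 2 : ℕ) : A) - ((s + ∑ i, js i : ℕ) : A)) •
                (a * (p * (C c * derivative a) * a ^ e * Z js)) := by
            rw [D_apply, ← Finset.mul_sum, ← Finset.mul_sum, smul_eq_C_mul, smul_eq_C_mul,
              derivative_mul, derivative_mul, derivative_pow, map_sub, map_natCast, map_natCast]
            rw [show e + 2 - 1 = e + 1 from rfl]
            linear_combination (p * a ^ (e + 1)) * hZ' js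
          rw [e1]
          refine add_mem (add_mem (add_mem (neg_mem ⟨_, rfl⟩) (Submodule.smul_mem _ _ ?_))
            (Submodule.sum_mem _ fun i _ => ?_)) (Submodule.smul_mem _ _ ?_)
          · refine ihl (n + 1) js (e + 1) _ h (deriv_mem hp) ?_ (by omega)
            by_cases hd : p.natDegree = 0
            · exact Or.inr (derivative_of_natDegree_zero hd)
            · have := natDegree_derivative_lt hd
              rcases hl with hl | hl
              · left; omega
              · simp [hl] at hd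
          · refine ihn _ _ p ?_ hp hl he
            rw [Finset.sum_update_of_mem (Finset.mem_univ i), Finset.sdiff_singleton_eq_erase]
            rw [← Finset.add_sum_erase _ _ (Finset.mem_univ i)] at h
            omega
          · refine ihr (by omega) (l + 1 + da) (n + 1) js e _ h ?_ ?_ ?_
            · rw [show R0 - r = R0 - (r + 1) + 1 by omega, pow_succ, Ideal.map_mul]
              exact Ideal.mul_mem_mul hp hν
            · rcases hl with hl | hl
              · left
                have h1 := natDegree_mul_le (p := p) (q := C c * derivative a)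
                have h2 := natDegree_C_mul_le c (derivative a)
                have h3 := natDegree_derivative_le a
                omega
              · simp [hl]
            · rw [add_mul] at he; omega
  have := key R0 le_rfl (g.natDegree + 1) (m * f.natDegree + 1) (fun _ => 0)
    (g.natDegree + R0 * (da + 2)) g (by simp) (by simp [Ideal.map_top]) (by simp) (by omega)
  have h6 := hZ fun _ => 0
  simp only [y, pow_zero, Function.iterate_zero, id_eq, one_mul, Finset.prod_const,
    Finset.card_univ, Fintype.card_fin, Finset.sum_const_zero, add_zero] at h6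
  rw [h6, hs]
  convert this using 1
  ring

lemma D_map {B : Type*} [CommRing B] (φ : A →+* B) (c : A) (a h : A[X]) :
    (D c a h).map φ = D (φ c) (a.map φ) (h.map φ) := by
  simp [D_apply, derivative_map]

lemma y_map {B : Type*} [CommRing B] (φ : A →+* B) (c : A) (f : A[X]) (j : ℕ) :
    (y c f j).map φ = y (φ c) (f.map φ) j := by
  simp [y, iterate_derivative_map]

lemma H1.map {B : Type*} [CommRing B] (φ : A →+* B) {c : A} {a f : A[X]} (h : H1 c a f) :
    H1 (φ c) (a.map φ) (f.map φ) := fun i j hj => by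
  simpa using (h i j hj).map φ

lemma H2.map {B : Type*} [CommRing B] (φ : A →+* B) {c : A} {a f : A[X]} (h : H2 c a f) :
    H2 (φ c) (a.map φ) (f.map φ) := by
  obtain ⟨h, rfl⟩ := h
  exact ⟨_, (D_map φ c a h).symm⟩

lemma H3.map {B : Type*} [CommRing B] (φ : A →+* B) {c : A} {a f : A[X]} (h : H3 c a f) :
    H3 (φ c) (a.map φ) (f.map φ) := fun j => by
  obtain ⟨n, e, b, h⟩ := h j
  refine ⟨n, e, fun i => (b i).map φ, ?_⟩
  simpa [y_map, Polynomial.map_sum] using congrArg (Polynomial.map φ) h

lemma pow_content (f : A[X]) (M i : ℕ) : (f ^ M).coeff i ∈ f.contentIdeal ^ M := by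
  have : (f ^ M).contentIdeal ≤ f.contentIdeal ^ M := by
    induction M with
    | zero => simp
    | succ M ih =>
      rw [pow_succ, pow_succ]
      exact (contentIdeal_mul_le_mul_contentIdeal _ _).trans (Ideal.mul_mono_left ih)
  exact this (coeff_mem_contentIdeal _ _)

lemma red (c : A) (a f : A[X]) (J : Ideal A) (M : ℕ)
    (hJ : ∀ x ∈ f.contentIdeal ^ M, ∀ γ ∈ J.map C, x • γ ∈ LinearMap.range (D c a))
    (h : Concl (Ideal.Quotient.mk J c) (a.map (Ideal.Quotient.mk J))
      (f.map (Ideal.Quotient.mk J))) : Concl c a f := by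
  intro g
  choose N hN using fun i : ℕ => h ((X ^ i * g).map (Ideal.Quotient.mk J))
  refine ⟨(Finset.range ((f ^ M).natDegree + 1)).sup N + M, fun m hm => ?_⟩
  obtain ⟨m, rfl⟩ : ∃ k, m = k + M := ⟨m - M, by omega⟩
  rw [pow_add, ← mul_assoc]
  conv => enter [2, 2]; rw [(f ^ M).as_sum_range_C_mul_X_pow]
  rw [Finset.mul_sum]
  refine Submodule.sum_mem _ fun i hi => ?_
  obtain ⟨h', hh⟩ := hN i m ((Finset.le_sup hi).trans (by omega))
  obtain ⟨h', rfl⟩ := Polynomial.map_surjective _ Ideal.Quotient.mk_surjective h'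
  rw [← D_map, ← Polynomial.map_pow, ← Polynomial.map_mul] at hh
  have h2 : X ^ i * g * f ^ m - D c a h' ∈ J.map C := by
    rw [Ideal.mem_map_C_iff]
    intro n
    rw [← Ideal.Quotient.eq_zero_iff_mem, ← coeff_map, Polynomial.map_sub, hh, sub_self,
      coeff_zero]
  have h3 := add_mem (hJ _ (pow_content f M i) _ h2)
    (Submodule.smul_mem _ ((f ^ M).coeff i) ⟨h', rfl⟩)
  convert h3 using 1
  simp only [smul_eq_C_mul]
  ring

lemma antider [Algebra ℚ A] (Q : Ideal A) (γ : A[X]) (h : γ ∈ Q.map C) :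
    ∃ δ ∈ Q.map C, derivative δ = γ := by
  rw [Ideal.mem_map_C_iff] at h
  refine ⟨∑ i ∈ Finset.range (γ.natDegree + 1),
    C (algebraMap ℚ A (i + 1 : ℚ)⁻¹ * γ.coeff i) * X ^ (i + 1), ?_, ?_⟩
  · exact Submodule.sum_mem _ fun i _ => Ideal.mul_mem_right _ _
      (Ideal.mem_map_of_mem _ (Q.mul_mem_left _ (h i)))
  · conv_rhs => rw [γ.as_sum_range_C_mul_X_pow]
    rw [derivative_sum]
    refine Finset.sum_congr rfl fun i _ => ?_
    rw [derivative_C_mul_X_pow, Nat.add_sub_cancel, mul_right_comm]
    have : algebraMap ℚ A (i + 1 : ℚ)⁻¹ * ((i + 1 : ℕ) : A) = 1 := by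
      rw [← map_natCast (algebraMap ℚ A), ← map_mul]
      rw [Nat.cast_succ, inv_mul_cancel₀ (by positivity), map_one]
    rw [this, one_mul]

lemma tors [Algebra ℚ A] (c : A) (a : A[X]) (k : ℕ) (Q : Ideal A)
    (hQ : a.contentIdeal ^ k * Q = ⊥) (γ : A[X]) (h : γ ∈ Q.map C) :
    c ^ k • γ ∈ LinearMap.range (D c a) := by
  induction k generalizing Q γ with
  | zero =>
    rw [pow_zero, one_mul] at hQ
    rw [hQ, Ideal.map_bot, Ideal.mem_bot] at h
    simp [h]
  | succ k ih =>
    obtain ⟨δ, hδ, rfl⟩ := antider Q γ h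
    have h1 := ih (a.contentIdeal * Q) (by rw [← mul_assoc, ← pow_succ, hQ]) (a * δ) (by
      rw [Ideal.map_mul]
      exact Ideal.mul_mem_mul (Ideal.mem_map_C_iff.2 (coeff_mem_contentIdeal _)) hδ)
    have h2 := add_mem h1 (Submodule.smul_mem _ (c ^ k) ⟨δ, rfl⟩)
    convert h2 using 1
    simp only [D_apply, smul_eq_C_mul, map_pow]
    ring

theorem noeth2 [Algebra ℚ A] [IsNoetherianRing A] (c : A) (a f : A[X])
    (h1 : ∀ j, 1 ≤ j → IsNilpotent (c * a.coeff j)) (h2 : H2 c a f) (h3 : H3 c a f) :
    Concl c a f := by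
  let W : ℕ →o Ideal A := ⟨fun e => (a.contentIdeal ^ e).annihilator, fun e e' h =>
    Submodule.annihilator_mono (Ideal.pow_le_pow_right h)⟩
  obtain ⟨e, he⟩ := monotone_stabilizes_iff_noetherian.2 inferInstance W
  have hQ : a.contentIdeal ^ e * W e = ⊥ := by
    rw [mul_comm]; exact Submodule.annihilator_mul _
  refine red c a f (W e) (e + e) ?_ (core _ _ _ ?_ ?_ (h3.map _))
  · intro x hx γ hγ
    have : f.contentIdeal ≤ Ideal.span {c} ⊔ a.contentIdeal := by
      obtain ⟨h, rfl⟩ := h2
      rw [contentIdeal_def, Ideal.span_le]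
      intro x hx
      obtain ⟨n, -, rfl⟩ := mem_coeffs_iff.1 hx
      rw [D_apply, coeff_sub, coeff_C_mul]
      refine sub_mem (Ideal.mem_sup_left (Ideal.mul_mem_right _ _
        (Ideal.mem_span_singleton_self _))) (Ideal.mem_sup_right ?_)
      exact Ideal.mul_le_left (contentIdeal_mul_le_mul_contentIdeal _ _
        (coeff_mem_contentIdeal _ _))
    obtain ⟨u, hu, z, hz, rfl⟩ := Submodule.mem_sup.1
      (Ideal.sup_pow_add_le_pow_sup_pow (Ideal.pow_right_mono this _ hx))
    rw [Ideal.span_singleton_pow] at hu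
    obtain ⟨w, rfl⟩ := Ideal.mem_span_singleton'.1 hu
    have hz' : z • γ = 0 := by
      ext n
      have := Ideal.mul_mem_mul hz (Ideal.mem_map_C_iff.1 hγ n)
      rw [hQ] at this
      simpa using this
    rw [add_smul, hz', add_zero, mul_smul]
    exact Submodule.smul_mem _ _ (tors c a e _ hQ γ hγ)
  · by_contra h
    obtain ⟨x, hx, hx'⟩ := Polynomial.notMem_nonZeroDivisors_iff.1 h
    obtain ⟨x, rfl⟩ := Ideal.Quotient.mk_surjective x
    apply hx
    rw [Ideal.Quotient.eq_zero_iff_mem, he (e + 1) (by omega)]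
    change x ∈ (a.contentIdeal ^ (e + 1)).annihilator
    have h4 : Ideal.span {x} * a.contentIdeal ≤ W e := by
      rw [contentIdeal_def, Ideal.span_mul_span, Ideal.span_le]
      rintro _ ⟨_, rfl, z, hz, rfl⟩
      obtain ⟨n, -, rfl⟩ := mem_coeffs_iff.1 hz
      have := congrArg (fun p => coeff p n) hx'
      simp only [coeff_smul, coeff_map, smul_eq_mul, coeff_zero, ← map_mul] at this
      exact Ideal.Quotient.eq_zero_iff_mem.1 this
    rw [Submodule.mem_annihilator]
    intro z hz
    have h5 : Ideal.span {x} * a.contentIdeal ^ (e + 1) ≤ ⊥ := by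
      rw [pow_succ', ← mul_assoc, ← hQ, mul_comm (a.contentIdeal ^ e)]
      exact Ideal.mul_mono_left h4
    exact h5 (Ideal.mul_mem_mul (Ideal.mem_span_singleton_self x) hz)
  · intro j hj
    simpa using (h1 j hj).map (Ideal.Quotient.mk (W e))

theorem noeth [Algebra ℚ A] [IsNoetherianRing A] (c : A) (a f : A[X])
    (h1 : H1 c a f) (h2 : H2 c a f) (h3 : H3 c a f) : Concl c a f := by
  let W : ℕ →o Ideal A := ⟨fun e => (f.contentIdeal ^ e).annihilator, fun e e' h =>
    Submodule.annihilator_mono (Ideal.pow_le_pow_right h)⟩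
  obtain ⟨e, he⟩ := monotone_stabilizes_iff_noetherian.2 inferInstance W
  refine red c a f (W e) e ?_ (noeth2 _ _ _ ?_ (h2.map _) (h3.map _))
  · intro x hx γ hγ
    have : x • γ = 0 := by
      ext n
      have := Submodule.mem_annihilator.1 (Ideal.mem_map_C_iff.1 hγ n) x hx
      simpa [mul_comm] using this
    rw [this]; exact zero_mem _
  · intro j hj
    obtain ⟨N, hN⟩ : IsNilpotent (Ideal.span {c * a.coeff j} * f.contentIdeal) := by
      rw [Ideal.FG.isNilpotent_iff_le_nilradical (IsNoetherian.noetherian _), contentIdeal_def,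
        Ideal.span_mul_span, Ideal.span_le]
      rintro _ ⟨_, rfl, z, hz, rfl⟩
      obtain ⟨n, -, rfl⟩ := mem_coeffs_iff.1 hz
      exact mem_nilradical.2 (h1 n j hj)
    refine ⟨N, ?_⟩
    rw [coeff_map, ← map_mul, ← map_pow, Ideal.Quotient.eq_zero_iff_mem]
    have : W N ≤ W e := by
      rcases le_total N e with h | h
      · exact W.mono h
      · exact (he N h).ge
    apply this
    change _ ∈ (f.contentIdeal ^ N).annihilator
    rw [Submodule.mem_annihilator]
    intro z hz
    rw [mul_pow, Ideal.span_singleton_pow] at hN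
    have := Ideal.mul_mem_mul (Ideal.mem_span_singleton_self ((c * a.coeff j) ^ N)) hz
    rw [hN] at this
    exact this

theorem fin [Algebra ℚ A] (c : A) (a f : A[X])
    (h1 : H1 c a f) (h2 : H2 c a f) (h3 : H3 c a f) : Concl c a f := by
  classical
  intro g
  obtain ⟨h, hh⟩ := h2
  choose n e b hb using h3
  let P : Finset A[X] := {C c, a, f, g, h} ∪
    (Finset.range (f.natDegree + 1)).biUnion fun j => (Finset.range (n j)).image (b j)
  let A0 := Algebra.adjoin ℚ ((P.biUnion coeffs : Finset A) : Set A)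
  haveI : IsNoetherianRing A0 := isNoetherianRing_of_fg ⟨_, rfl⟩
  let φ : A0 →+* A := A0.val.toRingHom
  have hφ : Function.Injective φ := Subtype.val_injective
  have hinj := Polynomial.map_injective φ hφ
  have : ∀ p, ∃ q : A0[X], p ∈ P → q.map φ = p := by
    intro p
    by_cases hp : p ∈ P
    · have : p ∈ lifts φ := by
        rw [lifts_iff_coeff_lifts]
        intro i
        by_cases hi : p.coeff i = 0
        · exact ⟨0, by simp [hi]⟩
        · refine ⟨⟨_, Algebra.subset_adjoin ?_⟩, rfl⟩
          simp only [Finset.coe_biUnion, Set.mem_iUnion]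
          exact ⟨p, hp, coeff_mem_coeffs hi⟩
      obtain ⟨q, hq⟩ := this
      exact ⟨q, fun _ => hq⟩
    · exact ⟨0, fun h => (hp h).elim⟩
  choose l hl using this
  have hc : φ ((l (C c)).coeff 0) = c := by
    rw [← coeff_map, hl _ (by simp [P]), coeff_C_zero]
  have ha := hl a (by simp [P])
  have hf := hl f (by simp [P])
  have hg := hl g (by simp [P])
  have hh' := hl h (by simp [P])
  obtain ⟨N, hN⟩ := noeth ((l (C c)).coeff 0) (l a) (l f) (fun i j hj => by
      rw [← IsNilpotent.map_iff hφ, map_mul, map_mul, hc, ← coeff_map, ← coeff_map, ha, hf]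
      exact h1 i j hj)
    ⟨l h, hinj (by rw [D_map, hc, ha, hh', hf, hh])⟩ (fun j => by
      by_cases hj : j ≤ f.natDegree
      · refine ⟨n j, e j, fun i => l (b j i), hinj ?_⟩
        rw [Polynomial.map_zero, ← hb j]
        simp only [Polynomial.map_mul, Polynomial.map_pow, Polynomial.map_sub, Polynomial.map_sum,
          y_map, hc, ha, hf]
        congr 3
        refine Finset.sum_congr rfl fun i hi => ?_
        rw [hl]
        simp only [P, Finset.mem_union, Finset.mem_biUnion, Finset.mem_image]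
        exact Or.inr ⟨j, by simpa [Nat.lt_succ_iff] using hj, i, hi, rfl⟩
      · refine ⟨1, 0, 0, ?_⟩
        have : y ((l (C c)).coeff 0) (l f) j = 0 := hinj (by
          rw [y_map, hf, y_zero _ (not_le.1 hj), Polynomial.map_zero])
        simp [this]) (l g)
  refine ⟨N, fun m hm => ?_⟩
  obtain ⟨k, hk⟩ := hN m hm
  refine ⟨k.map φ, ?_⟩
  have := congrArg (Polynomial.map φ) hk
  rwa [D_map, hc, ha, Polynomial.map_mul, Polynomial.map_pow, hg, hf] at this

end Pool.Agent.H66.Img
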