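import Mathlib

set_option autoImplicit false

namespace Pool.Agent.H66.Mom

open Polynomial

variable {K : Type*} [Field K]

def Good (σ ℓ : K[X]) : Prop :=
  σ ≠ 0 ∧ ∀ u, σ.eval u = 0 → σ.derivative.eval u ≠ 0 ∧
    ∀ n : ℕ, ℓ.eval u + n * σ.derivative.eval u ≠ 0

def Kills (L : K[X] →ₗ[K] K) (σ ℓ : K[X]) : Prop := ∀ r, L (σ * derivative r + ℓ * r) = 0

lemma extend [CharZero K] (L : K[X] →ₗ[K] K) (σ ℓ : K[X]) (h : Good σ ℓ) (hL : Kills L σ ℓ)
    (s : Finset K) : ∃ σ' ℓ', Good σ' ℓ' ∧ Kills L σ' ℓ' ∧ ∀ u ∈ s, σ'.eval u = 0 := by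
  classical
  induction s using Finset.induction_on with
  | empty => exact ⟨σ, ℓ, h, hL, by simp⟩
  | insert u s _ ih =>
    obtain ⟨σ, ℓ, h, hL, hs⟩ := ih
    by_cases hu : σ.eval u = 0
    · exact ⟨σ, ℓ, h, hL, by simpa [hu] using hs⟩
    refine ⟨σ * (X - C u), σ + ℓ * (X - C u), ⟨mul_ne_zero h.1 (X_sub_C_ne_zero u), ?_⟩, ?_, ?_⟩
    · intro v hv
      by_cases hvu : v = u
      · subst hvu
        simp only [derivative_mul, derivative_sub, derivative_X, derivative_C, eval_add, eval_mul,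
          eval_sub, eval_X, eval_C, sub_self, mul_zero, sub_zero, eval_one, mul_one, zero_add,
          add_zero]
        refine ⟨hu, fun n => ?_⟩
        rw [show eval v σ + n * eval v σ = ((n + 1 : ℕ) : K) * eval v σ by push_cast; ring]
        exact mul_ne_zero (Nat.cast_ne_zero.2 (by omega)) hu
      · have h1 : v - u ≠ 0 := sub_ne_zero.2 hvu
        have h2 : σ.eval v = 0 := by simpa [h1] using hv
        obtain ⟨h3, h4⟩ := h.2 v h2
        simp only [derivative_mul, derivative_sub, derivative_X, derivative_C, eval_add, eval_mul,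
          eval_sub, eval_X, eval_C, sub_zero, eval_one, mul_one, h2, add_zero, zero_add]
        refine ⟨mul_ne_zero h3 h1, fun n => ?_⟩
        rw [← mul_assoc, ← add_mul]
        exact mul_ne_zero (h4 n) h1
    · intro r
      have := hL ((X - C u) * r)
      rw [← this]
      congr 1
      simp only [derivative_mul, derivative_sub, derivative_X, derivative_C]
      ring
    · intro v hv
      rcases Finset.mem_insert.1 hv with rfl | hv
      · simp
      · simp [hs v hv]

lemma dvd_of_local [IsAlgClosed K] {f g : K[X]} (hf : f ≠ 0)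
    (h : ∀ u, f.eval u = 0 → (X - C u) ^ f.rootMultiplicity u ∣ g) : f ∣ g := by
  classical
  by_cases hg : g = 0
  · simp [hg]
  rw [IsAlgClosed.dvd_iff_roots_le_roots hf hg, Multiset.le_iff_count]
  intro u
  rw [count_roots, count_roots]
  by_cases hu : f.eval u = 0
  · exact (le_rootMultiplicity_iff hg).2 (h u hu)
  · rw [rootMultiplicity_eq_zero hu]; exact Nat.zero_le _

lemma loc (σ₁ ρ : K[X]) (u : K) (j : ℕ) :
    (X - C u) * σ₁ * derivative ((X - C u) ^ j * ρ) =
      (X - C u) ^ j * (C (j : K) * σ₁ * ρ + (X - C u) * σ₁ * derivative ρ) := by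
  cases j with
  | zero => simp
  | succ j =>
    simp only [derivative_mul, derivative_X_sub_C_pow, Nat.add_sub_cancel, map_natCast]
    ring

lemma fac {σ : K[X]} {u : K} (h : σ.eval u = 0) :
    ∃ σ₁, σ = (X - C u) * σ₁ ∧ σ.derivative.eval u = σ₁.eval u := by
  obtain ⟨σ₁, rfl⟩ := dvd_iff_isRoot.2 h
  exact ⟨σ₁, rfl, by simp⟩

lemma exists_eta [IsAlgClosed K] {σ f : K[X]} (hf : f ≠ 0)
    (hs : ∀ u, f.eval u = 0 → σ.eval u = 0) : ∃ η, σ * derivative f = f * η ∧
      ∀ u, f.eval u = 0 → η.eval u = f.rootMultiplicity u * σ.derivative.eval u := by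
  have : f ∣ σ * derivative f := by
    refine dvd_of_local hf fun u hu => ?_
    obtain ⟨σ₁, h1, -⟩ := fac (hs u hu)
    obtain ⟨ρ, h2, -⟩ := f.exists_eq_pow_rootMultiplicity_mul_and_not_dvd hf u
    generalize f.rootMultiplicity u = k at h2
    rw [h1, h2, loc]
    exact Dvd.intro _ rfl
  obtain ⟨η, hη⟩ := this
  refine ⟨η, hη, fun u hu => ?_⟩
  obtain ⟨σ₁, h1, h1'⟩ := fac (hs u hu)
  obtain ⟨ρ, h2, h3⟩ := f.exists_eq_pow_rootMultiplicity_mul_and_not_dvd hf u
  generalize f.rootMultiplicity u = k at h2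
  rw [h1'] 
  rw [h1, h2, loc, mul_assoc ((X - C u) ^ k)] at hη
  have h4 := congrArg (eval u) (mul_left_cancel₀ (pow_ne_zero _ (X_sub_C_ne_zero u)) hη)
  have h5 : ρ.eval u ≠ 0 := fun h => h3 (dvd_iff_isRoot.2 h)
  simp only [eval_add, eval_mul, eval_C, eval_sub, eval_X, sub_self, zero_mul, add_zero] at h4
  apply mul_left_cancel₀ h5
  rw [← h4]; ring

lemma inj_mod [IsAlgClosed K] {σ ℓ f η : K[X]} (hf : f ≠ 0) (hG : Good σ ℓ)
    (hs : ∀ u, f.eval u = 0 → σ.eval u = 0)
    (hη : ∀ u, f.eval u = 0 → η.eval u = f.rootMultiplicity u * σ.derivative.eval u) (n : ℕ)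
    (r : K[X]) (h : f ∣ σ * derivative r + ℓ * r + C (n : K) * η * r) : f ∣ r := by
  by_cases hr : r = 0
  · simp [hr]
  refine dvd_of_local hf fun u hu => ?_
  rw [← le_rootMultiplicity_iff hr]
  by_contra hlt
  push Not at hlt
  obtain ⟨σ₁, h1, h1'⟩ := fac (hs u hu)
  obtain ⟨ρ, h2, h3⟩ := r.exists_eq_pow_rootMultiplicity_mul_and_not_dvd hr u
  have h4 := hη u hu
  obtain ⟨h5, h6⟩ := hG.2 u (hs u hu)
  have h7 : (X - C u) ^ (r.rootMultiplicity u + 1) ∣ _ :=
    ((pow_dvd_pow _ hlt).trans (pow_rootMultiplicity_dvd f u)).trans h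
  generalize r.rootMultiplicity u = j at h2 h7
  generalize f.rootMultiplicity u = k at h4
  have h8 : σ * derivative r + ℓ * r + C (n : K) * η * r = (X - C u) ^ j *
      (C (j : K) * σ₁ * ρ + (X - C u) * σ₁ * derivative ρ + ℓ * ρ + C (n : K) * η * ρ) := by
    rw [h1, h2, loc]; ring
  rw [h8, pow_succ, mul_dvd_mul_iff_left (pow_ne_zero _ (X_sub_C_ne_zero u)), dvd_iff_isRoot,
    IsRoot.def] at h7
  simp only [eval_add, eval_mul, eval_C, eval_sub, eval_X, sub_self, zero_mul, add_zero, h4,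
    ← h1'] at h7
  have h9 : ρ.eval u ≠ 0 := fun h => h3 (dvd_iff_isRoot.2 h)
  apply h6 (j + n * k)
  apply mul_left_cancel₀ h9
  push_cast
  linear_combination h7

lemma finite_adj {f : K[X]} (hf : 0 < f.natDegree) :
    Module.Finite (Algebra.adjoin K {f}) K[X] := by
  have hf0 : f ≠ 0 := by rintro rfl; simp at hf
  set B := Algebra.adjoin K {f}
  let fB : B := ⟨f, Algebra.self_mem_adjoin_singleton K f⟩
  have hX : IsIntegral B (X : K[X]) := by
    refine ⟨(f * C f.leadingCoeff⁻¹).map (algebraMap K B) -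
      C (fB * algebraMap K B f.leadingCoeff⁻¹), ?_, ?_⟩
    · apply Monic.sub_of_left ((monic_mul_leadingCoeff_inv hf0).map _)
      refine degree_C_le.trans_lt ?_
      rw [(monic_mul_leadingCoeff_inv hf0).degree_map, degree_mul_leadingCoeff_inv _ hf0]
      exact natDegree_pos_iff_degree_pos.1 hf
    · rw [← aeval_def, map_sub, aeval_map_algebraMap, aeval_X_left_apply, aeval_C]
      simp [fB]
  have h1 := Algebra.finite_adjoin_simple_of_isIntegral hX
  have h2 : Algebra.adjoin B {(X : K[X])} = ⊤ := by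
    rw [eq_top_iff]
    intro p _
    have : p ∈ Algebra.adjoin K {(X : K[X])} := by rw [adjoin_X]; trivial
    exact Algebra.adjoin_le (S := (Algebra.adjoin B {(X : K[X])}).restrictScalars K)
      Algebra.subset_adjoin this
  rw [h2] at h1
  exact Module.Finite.equiv Subalgebra.topEquiv.toLinearEquiv

def V (L : K[X] →ₗ[K] K) (f : K[X]) (n : ℕ) : Submodule K K[X] where
  carrier := {r | ∀ m, n ≤ m → L (r * f ^ m) = 0}
  add_mem' := fun ha hb m hm => by rw [add_mul, map_add, ha m hm, hb m hm, add_zero]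
  zero_mem' := fun m _ => by simp
  smul_mem' := fun c r hr m hm => by rw [smul_mul_assoc, map_smul, hr m hm, smul_zero]

lemma V_f {L : K[X] →ₗ[K] K} {f r : K[X]} {n : ℕ} : f * r ∈ V L f n ↔ r ∈ V L f (n + 1) := by
  constructor
  · intro h m hm
    obtain ⟨m, rfl⟩ : ∃ k, m = k + 1 := ⟨m - 1, by omega⟩
    rw [← h m (by omega)]; congr 1; ring
  · intro h m hm
    rw [← h (m + 1) (by omega)]; congr 1; ring

lemma V_mono (L : K[X] →ₗ[K] K) (f : K[X]) {n m : ℕ} (h : n ≤ m) : V L f n ≤ V L f m :=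
  fun _ hr k hk => hr k (h.trans hk)

lemma V_stab (L : K[X] →ₗ[K] K) {f : K[X]} (hf : 0 < f.natDegree) :
    ∃ N, V L f (N + 1) ≤ V L f N := by
  haveI := finite_adj hf
  haveI : IsNoetherianRing (Algebra.adjoin K {f}) :=
    isNoetherianRing_of_fg ⟨{f}, by simp⟩
  let W : ℕ →o Submodule (Algebra.adjoin K {f}) K[X] :=
    ⟨fun n =>
      { carrier := V L f n
        add_mem' := add_mem
        zero_mem' := zero_mem _
        smul_mem' := by
          rintro ⟨b, hb⟩ r hr
          change b * r ∈ V L f n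
          induction hb using Algebra.adjoin_induction generalizing r with
          | mem x hx => rw [Set.mem_singleton_iff.1 hx, V_f]; exact V_mono L f (by omega) hr
          | algebraMap c => rw [← Algebra.smul_def]; exact Submodule.smul_mem _ _ hr
          | add x y _ _ hx hy => rw [add_mul]; exact add_mem (hx hr) (hy hr)
          | mul x y _ _ hx hy => rw [mul_assoc]; exact hx (hy hr) },
      fun n m h => V_mono L f h⟩
  obtain ⟨N, hN⟩ := monotone_stabilizes_iff_noetherian.2 inferInstance W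
  exact ⟨N, fun r hr => (hN (N + 1) (by omega)).ge hr⟩

lemma prod_V (L : K[X] →ₗ[K] K) (f : K[X]) (n : ℕ) (s : Multiset K) (r : K[X])
    (hr : r ∈ V L f (n + 1)) : (s.map fun c => f - C c).prod * r ∈ V L f (n + 1) ∧
      L ((s.map fun c => f - C c).prod * r * f ^ n) = (s.map fun c => -c).prod * L (r * f ^ n) := by
  induction s using Multiset.induction_on with
  | empty => simpa using hr
  | cons c s ih =>
    simp only [Multiset.map_cons, Multiset.prod_cons]
    rw [mul_assoc (f - C c), sub_mul, ← smul_eq_C_mul]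
    have h1 := V_f.2 ih.1
    refine ⟨sub_mem (V_mono L f (by omega) h1) (Submodule.smul_mem _ _ ih.1), ?_⟩
    rw [sub_mul, map_sub, h1 n le_rfl, smul_mul_assoc, map_smul, ih.2, smul_eq_mul]
    ring

lemma prod_mod (f : K[X]) (s : Multiset K) :
    f ∣ (s.map fun c => f - C c).prod - C (s.map fun c => -c).prod := by
  induction s using Multiset.induction_on with
  | empty => simp
  | cons c s ih =>
    simp only [Multiset.map_cons, Multiset.prod_cons]
    obtain ⟨g, hg⟩ := ih
    refine ⟨(s.map fun c => f - C c).prod - C c * g, ?_⟩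
    rw [map_mul, map_neg]
    linear_combination (-C c) * hg

theorem main [IsAlgClosed K] [CharZero K] (L : K[X] →ₗ[K] K) (σ ℓ : K[X]) (hG : Good σ ℓ)
    (hL : Kills L σ ℓ) (f : K[X]) (hf : f ≠ 0) (hm : ∀ m, 1 ≤ m → L (f ^ m) = 0) : L 1 = 0 := by
  classical
  rcases Nat.eq_zero_or_pos f.natDegree with hd | hd
  · have h1 := hm 1 le_rfl
    rw [eq_C_of_natDegree_eq_zero hd] at h1 hf
    rw [pow_one, ← mul_one (C _), ← smul_eq_C_mul, map_smul, smul_eq_mul] at h1
    exact (mul_eq_zero.1 h1).resolve_left (by simpa using hf)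
  obtain ⟨σ, ℓ, hG, hL, hs⟩ := extend L σ ℓ hG hL f.roots.toFinset
  replace hs : ∀ u, f.eval u = 0 → σ.eval u = 0 := fun u hu => hs u (by simp [hf, hu])
  obtain ⟨η, hη1, hη2⟩ := exists_eta hf hs
  have hη0 : η ≠ 0 := by
    rintro rfl
    rw [mul_zero, mul_eq_zero, derivative_eq_zero] at hη1
    exact hη1.elim hG.1 hd.ne'
  set s := η.roots.map fun ρ => f.eval ρ with hsdef
  set Q := (s.map fun c => f - C c).prod with hQ
  set q0 := (s.map fun c => -c).prod with hq0
  have hq : q0 ≠ 0 := by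
    apply Multiset.prod_ne_zero
    simp only [hsdef, Multiset.mem_map, not_exists, not_and]
    rintro _ ⟨ρ, hρ, rfl⟩ h
    rw [neg_eq_zero] at h
    have h1 : η.eval ρ = 0 := (mem_roots hη0).1 hρ
    rw [hη2 ρ h] at h1
    refine mul_ne_zero (Nat.cast_ne_zero.2 ?_) (hG.2 ρ (hs ρ h)).1 h1
    exact ((rootMultiplicity_pos hf).2 h).ne'
  obtain ⟨η', hη'⟩ : η ∣ Q := by
    have h1 : (η.roots.map fun x => X - C x).prod ∣ Q := by
      rw [hQ, hsdef, Multiset.map_map]
      exact Multiset.prod_dvd_prod_of_dvd _ _ fun a _ => X_sub_C_dvd_sub_C_eval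
    rw [(IsAlgClosed.splits η).eq_prod_roots]
    exact (IsUnit.mul_left_dvd (isUnit_C.2 (leadingCoeff_ne_zero.2 hη0).isUnit)).2 h1
  have key : ∀ (ρ : K[X]) (m : ℕ), L ((σ * derivative ρ + ℓ * ρ) * f ^ m) = -(m : K) * L (η * ρ * f ^ m) := by
    intro ρ m
    have h1 := hL (ρ * f ^ m)
    have h2 : σ * derivative (ρ * f ^ m) + ℓ * (ρ * f ^ m) =
        (σ * derivative ρ + ℓ * ρ) * f ^ m + (m : K) • (η * ρ * f ^ m) := by
      rw [smul_eq_C_mul]
      cases m with
      | zero => simp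
      | succ m =>
        simp only [derivative_mul, derivative_pow, Nat.add_sub_cancel]
        linear_combination (ρ * C ((m + 1 : ℕ) : K) * f ^ m) * hη1
    rw [h2, map_add, map_smul, smul_eq_mul] at h1
    linear_combination h1
  have step : ∀ n, V L f (n + 2) ≤ V L f (n + 1) → V L f (n + 1) ≤ V L f n := by
    intro n hn
    let U : K[X] →ₗ[K] K[X] := (LinearMap.mulLeft K σ ∘ₗ derivative + LinearMap.mulLeft K ℓ) ∘ₗ
      LinearMap.mulLeft K η' + ((n : K) * q0) • LinearMap.id
    have hU : ∀ r, U r = σ * derivative (η' * r) + ℓ * (η' * r) + ((n : K) * q0) • r :=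
      fun r => rfl
    have hUV : ∀ r ∈ V L f (n + 1), U r ∈ V L f n := by
      intro r hr m hm
      obtain ⟨h1, h2⟩ := prod_V L f n s r hr
      rw [hU, add_mul, map_add, key, ← mul_assoc η, ← hη', smul_mul_assoc, map_smul, smul_eq_mul]
      rcases hm.eq_or_lt with rfl | hm
      · rw [h2]; ring
      · rw [h1 m hm, hr m hm]; ring
    let P : Submodule K K[X] := (Ideal.span {f}).restrictScalars K
    have hP : ∀ r, r ∈ P ↔ f ∣ r := fun r => Ideal.mem_span_singleton
    haveI : FiniteDimensional K (K[X] ⧸ P) := by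
      haveI : FiniteDimensional K (K[X] ⧸ Ideal.span {f}) := (AdjoinRoot.powerBasis hf).finite
      exact Module.Finite.equiv (Submodule.Quotient.restrictScalarsEquiv K (Ideal.span {f})).symm
    have hPU : P ≤ P.comap U := by
      intro r hr
      obtain ⟨g, rfl⟩ := (hP r).1 hr
      refine (hP _).2 ⟨σ * derivative (η' * g) + ℓ * (η' * g) + η * η' * g + ((n : K) * q0) • g, ?_⟩
      rw [hU, smul_eq_C_mul, smul_eq_C_mul]
      simp only [derivative_mul]
      linear_combination (η' * g) * hη1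
    let U' := P.mapQ P U hPU
    have hinj : Function.Injective U' := by
      rw [injective_iff_map_eq_zero]
      intro x hx
      obtain ⟨r, rfl⟩ := P.mkQ_surjective x
      have h1 : f ∣ U r := (hP _).1 ((Submodule.Quotient.mk_eq_zero P).1 hx)
      obtain ⟨g, hg⟩ := prod_mod f s
      rw [← hQ, ← hq0, hη'] at hg
      have h2 : f ∣ η' * r := by
        refine inj_mod hf hG hs hη2 n _ ?_
        have : σ * derivative (η' * r) + ℓ * (η' * r) + C (n : K) * η * (η' * r) =
            U r + f * (C (n : K) * g * r) := by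
          rw [hU, smul_eq_C_mul, map_mul C]
          linear_combination (C (n : K) * r) * hg
        rw [this]
        exact dvd_add h1 (Dvd.intro _ rfl)
      have h3 : f ∣ C q0 * r := by
        rw [show C q0 * r = η * (η' * r) - f * (g * r) by linear_combination (-r) * hg]
        exact dvd_sub (h2.mul_left _) (Dvd.intro _ rfl)
      exact (Submodule.Quotient.mk_eq_zero P).2 ((hP _).2
        ((IsUnit.dvd_mul_left (isUnit_C.2 hq.isUnit)).1 h3))
    let W := (V L f (n + 1)).map P.mkQ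
    have hW : ∀ x ∈ W, U' x ∈ W := by
      rintro _ ⟨r, hr, rfl⟩
      exact ⟨U r, V_mono L f (by omega) (hUV r hr), rfl⟩
    have hsurj : Function.Surjective (U'.restrict hW) :=
      LinearMap.injective_iff_surjective.1 fun x y h =>
        Subtype.ext (hinj (congrArg Subtype.val h))
    intro r hr
    obtain ⟨⟨_, r', hr', rfl⟩, h⟩ := hsurj ⟨_, r, hr, rfl⟩
    have h1 : P.mkQ (U r') = P.mkQ r := congrArg Subtype.val h
    obtain ⟨g, hg⟩ := (hP _).1 ((Submodule.Quotient.eq P).1 h1)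
    have h2 : f * g ∈ V L f (n + 1) := hg ▸ sub_mem (V_mono L f (by omega) (hUV r' hr')) hr
    have h3 : f * g ∈ V L f n := V_f.2 (hn (V_f.1 h2))
    rw [show r = U r' - f * g by linear_combination -hg]
    exact sub_mem (hUV r' hr') h3
  obtain ⟨N, hN⟩ := V_stab L hd
  have h0 : V L f (0 + 1) ≤ V L f 0 := by
    induction N with
    | zero => exact hN
    | succ N ih => exact ih (step N hN)
  have : (1 : K[X]) ∈ V L f (0 + 1) := fun m h => by rw [one_mul]; exact hm m h
  simpa using h0 this 0 le_rfl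

/-- submodule form -/
theorem main' [IsAlgClosed K] [CharZero K] (M : Submodule K K[X]) (σ ℓ : K[X]) (hG : Good σ ℓ)
    (hM : ∀ r, σ * derivative r + ℓ * r ∈ M) (f : K[X]) (hf : f ≠ 0)
    (hm : ∀ m, 1 ≤ m → f ^ m ∈ M) : 1 ∈ M := by
  by_contra h
  obtain ⟨L, h1, h2⟩ := Submodule.exists_le_ker_of_notMem h
  exact h1 (main L σ ℓ hG (fun r => h2 (hM r)) f hf fun m h => h2 (hm m h))

lemma top_of (M : Submodule K K[X]) (h1 : 1 ∈ M)
    (h : ∀ n : ℕ, ∃ c : K, c ≠ 0 ∧ ∃ a b : K, c • X ^ (n + 1) + a • X ^ n + b • X ^ (n - 1) ∈ M)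
    (g : K[X]) : g ∈ M := by
  have : ∀ n : ℕ, X ^ n ∈ M := by
    intro n
    induction n using Nat.strong_induction_on with
    | _ n ih =>
      cases n with
      | zero => simpa using h1
      | succ n =>
        obtain ⟨c, hc, a, b, h⟩ := h n
        have h2 := sub_mem (sub_mem h (M.smul_mem b (ih (n - 1) (by omega))))
          (M.smul_mem a (ih n (by omega)))
        rw [add_sub_cancel_right, add_sub_cancel_right] at h2
        exact (M.smul_mem_iff hc).1 h2
  induction g using Polynomial.induction_on' with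
  | add p q hp hq => exact add_mem hp hq
  | monomial n a => rw [← smul_X_eq_monomial]; exact M.smul_mem _ (this n)

def Im (σ κ : K[X]) : Submodule K K[X] where
  carrier := {p | ∃ g, σ * p = σ * derivative g + κ * g}
  add_mem' := by
    rintro _ _ ⟨g, hg⟩ ⟨h, hh⟩
    exact ⟨g + h, by rw [mul_add, hg, hh, derivative_add]; ring⟩
  zero_mem' := ⟨0, by simp⟩
  smul_mem' := by
    rintro c _ ⟨g, hg⟩
    exact ⟨c • g, by rw [mul_smul_comm, hg, derivative_smul, smul_add, mul_smul_comm,
      mul_smul_comm]⟩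

theorem mathieu [IsAlgClosed K] [CharZero K] (σ κ : K[X]) (hG : Good σ (derivative σ + κ))
    (h : ∀ n : ℕ, ∃ c : K, c ≠ 0 ∧ ∃ a b : K, c • X ^ (n + 1) + a • X ^ n + b • X ^ (n - 1) =
      σ * derivative (X ^ n) + (derivative σ + κ) * X ^ n)
    (a b : K[X]) (hm : ∀ m, 1 ≤ m → a ^ m ∈ Im σ κ) : ∃ N, ∀ m, N ≤ m → b * a ^ m ∈ Im σ κ := by
  have hM : ∀ r, σ * derivative r + (derivative σ + κ) * r ∈ Im σ κ := fun r =>
    ⟨σ * r, by rw [derivative_mul]; ring⟩
  by_cases ha : a = 0
  · refine ⟨1, fun m hm => ?_⟩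
    rw [ha, zero_pow (by omega), mul_zero]; exact zero_mem _
  refine ⟨0, fun m _ => top_of _ (main' _ σ _ hG hM a ha hm) (fun n => ?_) _⟩
  obtain ⟨c, hc, a, b, h⟩ := h n
  exact ⟨c, hc, a, b, h ▸ hM _⟩

end Pool.Agent.H66.Mom
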