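import Pool.Agent.H66.Img1
import Pool.Agent.H66.Mom

set_option autoImplicit false

namespace Pool.Agent.H66.Img

open Polynomial

variable {A : Type*} [CommRing A]

def Hyp (c : A) (a f : A[X]) : Prop := ∀ m, 1 ≤ m → f ^ m ∈ LinearMap.range (D c a)

lemma Hyp.map {B : Type*} [CommRing B] (φ : A →+* B) {c : A} {a f : A[X]} (h : Hyp c a f) :
    Hyp (φ c) (a.map φ) (f.map φ) := fun m hm => by
  obtain ⟨k, hk⟩ := h m hm
  exact ⟨k.map φ, by rw [← D_map, hk, Polynomial.map_pow]⟩

lemma field_zero {F : Type*} [Field F] [CharZero F] (c : F) (a f : F[X]) (hc : c ≠ 0)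
    (ha : 0 < a.natDegree) (h : Hyp c a f) : f = 0 := by
  let φ := algebraMap F (AlgebraicClosure F)
  by_contra hf
  have h1 := Mom.main' (LinearMap.range (D (φ c) (a.map φ))) (C (φ c)) (-a.map φ)
    ⟨by simpa using hc, fun u hu => by simp [hc] at hu⟩
    (fun r => ⟨r, by rw [D_apply]; ring⟩) (f.map φ) (by simpa using hf) (h.map φ)
  obtain ⟨k, hk⟩ := h1
  rw [D_apply] at hk
  have hk0 : k ≠ 0 := by rintro rfl; simp at hk
  have ha0 : a.map φ ≠ 0 := by
    rw [Ne, Polynomial.map_eq_zero]; rintro rfl; simp at ha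
  have h2 : (a.map φ * k).natDegree = a.natDegree + k.natDegree := by
    rw [natDegree_mul ha0 hk0, natDegree_map]
  have h3 : a.map φ * k = C (φ c) * derivative k - 1 := by linear_combination -hk
  have h4 := natDegree_sub_le (C (φ c) * derivative k) 1
  have h5 := natDegree_C_mul_le (φ c) (derivative k)
  have h6 := natDegree_derivative_le k
  rw [← h3, h2, natDegree_one] at h4
  omega

lemma field_zero' {F : Type*} [Field F] [Algebra ℚ A] (ρ : A →+* F) (c : A) (a f : A[X])
    (hc : ρ c ≠ 0) (j : ℕ) (hj : 1 ≤ j) (ha : ρ (a.coeff j) ≠ 0) (h : Hyp c a f) (i : ℕ) :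
    ρ (f.coeff i) = 0 := by
  haveI : CharZero F := (ρ.comp (algebraMap ℚ A)).charZero_iff (RingHom.injective _) |>.1
    inferInstance
  have := field_zero (ρ c) (a.map ρ) (f.map ρ) hc
    (lt_of_lt_of_le hj (le_natDegree_of_ne_zero (by rwa [coeff_map]))) (h.map ρ)
  rw [← coeff_map, this, coeff_zero]

lemma Hyp.h1 [Algebra ℚ A] {c : A} {a f : A[X]} (h : Hyp c a f) : H1 c a f := by
  intro i j hj
  rw [nilpotent_iff_mem_prime]
  intro P hP
  let ρ : A →+* FractionRing (A ⧸ P) := (algebraMap (A ⧸ P) _).comp (Ideal.Quotient.mk P)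
  have hρ : ∀ x, ρ x = 0 ↔ x ∈ P := fun x => by
    simp [ρ, Ideal.Quotient.eq_zero_iff_mem]
  rw [← hρ, map_mul, map_mul]
  by_cases hc : ρ c = 0
  · simp [hc]
  by_cases ha : ρ (a.coeff j) = 0
  · simp [ha]
  rw [field_zero' ρ c a f hc j hj ha h i, mul_zero]

noncomputable def L0 (A : Type*) [CommRing A] : A[X] →ₗ[A] A :=
  lsum fun n => (n.factorial : A) • LinearMap.id

lemma L0_monomial (n : ℕ) (x : A) : L0 A (monomial n x) = n.factorial * x := by
  simp [L0]

lemma L0_C (x : A) : L0 A (C x) = x := by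
  rw [← monomial_zero_left, L0_monomial]; simp

lemma deg_mul_lt {p q : A[X]} {n m : ℕ} (hp : p.degree < n) (hq : q.degree ≤ m) :
    (p * q).degree < ((n + m : ℕ) : WithBot ℕ) := by
  refine (degree_mul_le _ _).trans_lt ((add_le_add_right hq _).trans_lt ?_)
  rw [Nat.cast_add]
  exact WithBot.add_lt_add_right (by simp) hp

lemma L0_map {B : Type*} [CommRing B] (φ : A →+* B) (p : A[X]) :
    L0 B (p.map φ) = φ (L0 A p) := by
  induction p using Polynomial.induction_on' with
  | add p q hp hq => simp [hp, hq]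
  | monomial n x => simp [L0_monomial]

lemma L0_kill (r : A[X]) : L0 A (X * derivative r + (1 - X) * r) = 0 := by
  induction r using Polynomial.induction_on' with
  | add p q hp hq =>
    rw [show X * derivative (p + q) + (1 - X) * (p + q) = (X * derivative p + (1 - X) * p) +
      (X * derivative q + (1 - X) * q) by rw [derivative_add]; ring, map_add, hp, hq, add_zero]
  | monomial n x =>
    rw [sub_mul, one_mul, derivative_monomial, X_mul_monomial, X_mul_monomial]
    cases n with
    | zero => simp [L0_monomial, L0_C]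
    | succ n => simp [L0_monomial, Nat.factorial_succ]; ring

lemma L0_tel (r : A[X]) : L0 A (derivative r - r) = -r.coeff 0 := by
  induction r using Polynomial.induction_on' with
  | add p q hp hq =>
    rw [show derivative (p + q) - (p + q) = (derivative p - p) + (derivative q - q) by
      rw [derivative_add]; ring, map_add, hp, hq, coeff_add]; ring
  | monomial n x =>
    rw [derivative_monomial]
    cases n with
    | zero => simp [L0_monomial, L0_C]
    | succ n => simp [L0_monomial, Nat.factorial_succ, coeff_monomial]; ring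

lemma fac_zero {κ : Type*} [Field κ] [CharZero κ] (G : κ[X])
    (h : ∀ m, 1 ≤ m → L0 κ (G ^ m) = 0) : G = 0 := by
  let φ := algebraMap κ (AlgebraicClosure κ)
  by_contra hG
  have := Mom.main (L0 (AlgebraicClosure κ)) X (1 - X) ⟨X_ne_zero, fun u hu => by
      rw [eval_X] at hu
      subst hu
      simpa using fun n : ℕ => (by exact_mod_cast (by omega : 1 + n ≠ 0) :
        (1 : AlgebraicClosure κ) + n ≠ 0)⟩
    L0_kill (G.map φ) (by simpa using hG) fun m hm => by
      rw [← Polynomial.map_pow, L0_map, h m hm, map_zero]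
  rw [← C_1, ← monomial_zero_left, L0_monomial] at this
  simp at this

lemma val_fac {F : Type*} [Field F] (V : ValuationSubring F) (hQ : ∀ n : ℕ, ((n + 1 : ℕ) : F)⁻¹ ∈ V)
    (hQ' : ∀ n : ℕ, ((n + 1 : ℕ) : F) ≠ 0)
    (G : F[X]) (h : ∀ m, 1 ≤ m → V.valuation (L0 F (G ^ m)) < 1) (i : ℕ) :
    V.valuation (G.coeff i) < 1 := by
  by_contra hi
  push Not at hi
  have hi0 : G.coeff i ≠ 0 := by
    intro h0; rw [h0, map_zero] at hi; exact absurd hi (by simp)
  obtain ⟨i0, -, hi0'⟩ := G.support.exists_max_image (fun n => V.valuation (G.coeff n))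
    ⟨i, mem_support_iff.2 hi0⟩
  have hmax : ∀ n, V.valuation (G.coeff n) ≤ V.valuation (G.coeff i0) := by
    intro n
    by_cases hn : n ∈ G.support
    · exact hi0' n hn
    · rw [notMem_support_iff.1 hn, map_zero]; exact zero_le
  set l := G.coeff i0
  have hl1 : 1 ≤ V.valuation l := hi.trans (hmax i)
  have hl0 : l ≠ 0 := by
    intro h0; rw [h0, map_zero] at hl1; exact absurd hl1 (by simp)
  have hvl : 0 < V.valuation l := lt_of_lt_of_le zero_lt_one hl1
  obtain ⟨G1, hG1⟩ : C l⁻¹ * G ∈ lifts (algebraMap V F) := by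
    rw [lifts_iff_coeff_lifts]
    intro n
    refine ⟨⟨l⁻¹ * G.coeff n, ?_⟩, by simp⟩
    rw [← V.valuation_le_one_iff, map_mul, map_inv₀, inv_mul_le_one₀ hvl]
    exact hmax n
  replace hG1 : G1.map (algebraMap V F) = C l⁻¹ * G := hG1
  haveI : CharZero (IsLocalRing.ResidueField V) := by
    refine charZero_of_inj_zero fun n hn => ?_
    cases n with
    | zero => rfl
    | succ n =>
      exfalso
      have h1 : ((n + 1 : ℕ) : V) * ⟨_, hQ n⟩ = 1 := Subtype.ext (by
        simpa using mul_inv_cancel₀ (hQ' n))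
      have h2 := congrArg (IsLocalRing.residue V) h1
      rw [map_mul, map_natCast, hn, zero_mul, map_one] at h2
      exact zero_ne_one h2
  have h3 := fac_zero (G1.map (IsLocalRing.residue V)) fun m hm => by
    rw [← Polynomial.map_pow, L0_map, IsLocalRing.residue_eq_zero_iff, V.valuation_lt_one_iff]
    change V.valuation (algebraMap V F _) < 1
    rw [← L0_map, Polynomial.map_pow, hG1, mul_pow, ← C_pow, ← smul_eq_C_mul, map_smul,
      smul_eq_mul, map_mul, map_pow, map_inv₀]
    exact mul_lt_one_of_nonneg_of_lt_one_right (pow_le_one₀ zero_le (inv_le_one_of_one_le₀ hl1))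
      zero_le (h m hm)
  have h4 := congrArg (fun p => coeff p i0) h3
  have h5 := congrArg (fun p => coeff p i0) hG1
  simp only [coeff_map, coeff_zero, coeff_C_mul] at h4 h5
  rw [inv_mul_cancel₀ hl0] at h5
  have h6 : G1.coeff i0 = 1 := Subtype.ext h5
  rw [h6, map_one] at h4
  exact one_ne_zero h4

lemma val_step [Algebra ℚ A] {c : A} {a f : A[X]} (h : Hyp c a f) {F : Type*} [Field F]
    (ρ : A[X] →+* F) (V : ValuationSubring F) (hV : ∀ p, ρ p ∈ V) (ha0 : ρ a ≠ 0)
    (ha : V.valuation (ρ a) < 1) (j : ℕ) : V.valuation (ρ (y c f j) / ρ a ^ j) < 1 := by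
  have hV' : ∀ p, V.valuation (ρ p) ≤ 1 := fun p => (V.valuation_le_one_iff _).2 (hV p)
  let ψ : A →+* F := ρ.comp C
  have hψ : ∀ x, V.valuation (ψ x) ≤ 1 := fun x => hV' _
  obtain ⟨h1, hh1⟩ := h 1 le_rfl
  rw [pow_one, D_apply] at hh1
  by_cases hc : ψ c = 0
  · have hc' : ρ (C c) = 0 := hc
    cases j with
    | zero =>
      simp only [y, pow_zero, Function.iterate_zero, id_eq, one_mul, div_one, ← hh1, map_sub,
        map_mul, hc', zero_mul, zero_sub, Valuation.map_neg]
      exact mul_lt_one_of_nonneg_of_lt_one_left zero_le ha (hV' _)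
    | succ j => simp [y, hc']
  have hρ : ∀ p : A[X], ρ p = ∑ n ∈ p.support, ψ (p.coeff n) * ρ X ^ n := by
    intro p
    conv_lhs => rw [p.as_sum_support_C_mul_X_pow]
    simp [ψ]
  have main : ∀ i, j ≤ i → V.valuation (ψ (f.coeff i) * (ψ c / ρ a) ^ j) < 1 := by
    intro i hij
    by_cases hj : ∃ j', 1 ≤ j' ∧ ψ (a.coeff j') ≠ 0
    · obtain ⟨j', h2, h3⟩ := hj
      simp [field_zero' ψ c a f hc j' h2 h3 h i]
    push Not at hj
    have ham : a.map ψ = C (ψ (a.coeff 0)) := by
      ext n
      cases n with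
      | zero => simp
      | succ n => simp [hj (n + 1) (by omega)]
    have hα : ρ a = ψ (a.coeff 0) := by
      have : ρ = (evalRingHom (ρ X)).comp (mapRingHom ψ) := by
        apply Polynomial.ringHom_ext <;> simp [ψ]
      rw [this]; simp [ham]
    set α := ρ a
    set κ := ψ c / α with hκ
    haveI : CharZero F := (ψ.comp (algebraMap ℚ A)).charZero_iff (RingHom.injective _) |>.1
      inferInstance
    have h4 := val_fac V (fun n => by
        have := hV (C (algebraMap ℚ A ((n + 1 : ℕ) : ℚ)⁻¹))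
        change (ψ.comp (algebraMap ℚ A)) _ ∈ V at this
        rwa [map_inv₀, map_natCast] at this) (fun n => Nat.cast_ne_zero.2 (by omega))
      ((f.map ψ).comp (C κ * X)) (fun m hm => by
        obtain ⟨k, hk⟩ := h m hm
        have h5 := congrArg (fun p => (p.map ψ).comp (C κ * X)) hk
        simp only [D_map] at h5
        simp only [ham, ← hα, D_apply, Polynomial.map_pow, pow_comp, sub_comp, mul_comp,
          C_comp] at h5
        have h6 : C (ψ c) * (derivative (k.map ψ)).comp (C κ * X) -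
            C α * (k.map ψ).comp (C κ * X) = α • (derivative ((k.map ψ).comp (C κ * X)) -
              (k.map ψ).comp (C κ * X)) := by
          have : ψ c = α * κ := by rw [hκ]; field_simp
          rw [derivative_comp, smul_eq_C_mul, this]
          simp only [derivative_mul, derivative_C, zero_mul, derivative_X, mul_one, zero_add,
            map_mul]
          ring
        rw [← h5, h6, map_smul, L0_tel, comp_C_mul_X_coeff, pow_zero, mul_one, smul_eq_mul,
          map_mul, Valuation.map_neg, coeff_map]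
        exact mul_lt_one_of_nonneg_of_lt_one_left zero_le ha (hψ _)) i
    rw [comp_C_mul_X_coeff, coeff_map] at h4
    rcases le_total (V.valuation κ) 1 with hk | hk
    · have h7 : ψ (f.coeff i) = α * (κ * ψ ((derivative h1).coeff i) - ψ (h1.coeff i)) := by
        have h8 := congrArg (fun p => coeff (p.map ψ) i) hh1
        simp only [Polynomial.map_sub, Polynomial.map_mul, ham, ← hα, map_C, coeff_sub,
          coeff_C_mul, coeff_map] at h8
        rw [← h8, hκ]; field_simp
      rw [h7, map_mul, map_mul, map_pow]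
      refine mul_lt_one_of_nonneg_of_lt_one_left zero_le
        (mul_lt_one_of_nonneg_of_lt_one_left zero_le ha ?_) (pow_le_one₀ zero_le hk)
      refine V.valuation.map_sub_le ?_ (hψ _)
      rw [map_mul]
      exact mul_le_one₀ hk zero_le (hψ _)
    · refine lt_of_le_of_lt ?_ h4
      rw [map_mul, map_mul, map_pow, map_pow]
      exact mul_le_mul_right (pow_le_pow_right₀ hk hij) _
  have h9 : ρ (y c f j) / ρ a ^ j = ∑ n ∈ (derivative^[j] f).support,
      ((n + j).descFactorial j : F) * ρ X ^ n * (ψ (f.coeff (n + j)) * (ψ c / ρ a) ^ j) := by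
    rw [y, map_mul, hρ (derivative^[j] f), Finset.mul_sum, Finset.sum_div]
    refine Finset.sum_congr rfl fun n _ => ?_
    rw [coeff_iterate_derivative, nsmul_eq_mul, map_mul, map_natCast, map_pow, div_pow]
    change ψ c ^ j * _ / _ = _
    ring
  rw [h9]
  refine V.valuation.map_sum_lt one_ne_zero fun n _ => ?_
  rw [map_mul]
  refine mul_lt_one_of_nonneg_of_lt_one_right ?_ zero_le (main _ (by omega))
  have := hV' (((n + j).descFactorial j : A[X]) * X ^ n)
  simpa using this

lemma Hyp.h3 [Algebra ℚ A] {c : A} {a f : A[X]} (h : Hyp c a f) : H3 c a f := by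
  intro j
  let R := A[X]
  let B := Localization.Away a
  let u : B := IsLocalization.Away.invSelf a
  have hu : algebraMap A[X] B a * u = 1 := IsLocalization.Away.mul_invSelf a
  let φ : B := algebraMap A[X] B (y c f j) * u ^ j
  have hφ : algebraMap A[X] B (y c f j) = algebraMap A[X] B a ^ j * φ := by
    simp only [φ]
    rw [mul_left_comm, ← mul_pow, hu, one_pow, mul_one]
  let S : Submonoid B :=
    { carrier := {z | ∃ (n : ℕ) (β : A[X][X]), β.degree < n ∧
        z = φ ^ n - algebraMap A[X] B a * aeval φ β}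
      one_mem' := ⟨0, 0, by simp, by simp⟩
      mul_mem' := by
        rintro _ _ ⟨n, β, hβ, rfl⟩ ⟨n', β', hβ', rfl⟩
        refine ⟨n + n', β * X ^ n' + β' * X ^ n - C a * (β * β'), ?_, ?_⟩
        · rw [← mem_degreeLT, ← smul_eq_C_mul]
          refine sub_mem (add_mem ?_ ?_) (Submodule.smul_mem _ _ ?_) <;> rw [mem_degreeLT]
          · exact deg_mul_lt hβ (degree_X_pow_le _)
          · rw [add_comm]; exact deg_mul_lt hβ' (degree_X_pow_le _)
          · exact deg_mul_lt hβ hβ'.le
        · simp only [map_sub, map_add, map_mul, map_pow, aeval_X, aeval_C]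
          ring }
  by_cases h0 : (0 : B) ∈ S
  · obtain ⟨n, β, hβ, h0⟩ := h0
    have h1 : algebraMap A[X] B (y c f j ^ n - a * ∑ i ∈ Finset.range n,
        β.coeff i * a ^ (j * (n - i)) * y c f j ^ i) = 0 := by
      have h2 : aeval φ β = ∑ i ∈ Finset.range n, algebraMap A[X] B (β.coeff i) * φ ^ i := by
        by_cases hb : β = 0
        · simp [hb]
        · exact eval₂_eq_sum_range' _ ((natDegree_lt_iff_degree_lt hb).2 hβ) _
      simp only [map_sub, map_pow, map_mul, map_sum, hφ]
      rw [mul_pow, ← pow_mul, eq_comm, sub_eq_zero.1 h0.symm, h2, mul_left_comm, ← mul_sub,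
        Finset.mul_sum, ← Finset.sum_sub_distrib, Finset.sum_eq_zero, mul_zero]
      intro i hi
      have : j * n = j * (n - i) + j * i := by
        rw [← mul_add, Nat.sub_add_cancel (Finset.mem_range.1 hi).le]
      rw [this]; ring
    obtain ⟨⟨_, e, rfl⟩, he⟩ := (IsLocalization.map_eq_zero_iff (Submonoid.powers a) B _).1 h1
    exact ⟨n, e, fun i => β.coeff i, he⟩
  exfalso
  obtain ⟨P, hP, -, hd⟩ := Ideal.exists_le_prime_disjoint (⊥ : Ideal B) S (by simpa using h0)
  let F := FractionRing (B ⧸ P)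
  let τ : B →+* F := (algebraMap (B ⧸ P) _).comp (Ideal.Quotient.mk P)
  have hτ : ∀ z ∈ S, τ z ≠ 0 := fun z hz h => by
    have : z ∈ P := by simpa [τ, Ideal.Quotient.eq_zero_iff_mem] using h
    exact Set.disjoint_left.1 hd this hz
  let ρ : A[X] →+* F := τ.comp (algebraMap A[X] B)
  have ha0 : ρ a ≠ 0 := by
    have := congrArg τ hu
    rw [map_mul, map_one] at this
    exact left_ne_zero_of_mul_eq_one this
  have hx : τ φ = ρ (y c f j) / ρ a ^ j := by
    rw [eq_div_iff (pow_ne_zero _ ha0)]
    have := congrArg τ hφ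
    rw [map_mul, map_pow, mul_comm] at this
    exact this.symm
  set x := τ φ
  have hx0 : x ≠ 0 := hτ φ ⟨1, 0, by simp, by simp⟩
  let ev : A[X][X] →+* F := eval₂RingHom ρ x⁻¹
  let I : Ideal ev.range := Ideal.span {⟨ev (C a * X), ⟨_, rfl⟩⟩}
  have hI : I ≠ ⊤ := by
    intro hI
    obtain ⟨⟨_, β, rfl⟩, hβ⟩ := Ideal.mem_span_singleton'.1 ((Ideal.eq_top_iff_one _).1 hI)
    have h3 : ev β * ev (C a * X) = 1 := congrArg Subtype.val hβ
    refine hτ _ ⟨β.natDegree + 1, β.reverse, ?_, rfl⟩ ?_
    · exact degree_le_natDegree.trans_lt (by exact_mod_cast Nat.lt_succ_of_le β.reverse_natDegree_le)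
    · letI := invertibleOfNonzero (inv_ne_zero hx0)
      have h7 := eval₂_reverse_mul_pow ρ x⁻¹ β
      rw [invOf_eq_inv, inv_inv] at h7
      have h8 : τ (aeval φ β.reverse) = eval₂ ρ x β.reverse := by
        rw [aeval_def, hom_eval₂]
      rw [map_sub, map_mul, map_pow, h8]
      simp only [ev, coe_eval₂RingHom, eval₂_mul, eval₂_C, eval₂_X, ← h7, inv_pow] at h3
      change x ^ _ - ρ a * _ = 0
      have h9 : (x ^ β.natDegree)⁻¹ * x ^ β.natDegree = 1 := inv_mul_cancel₀ (pow_ne_zero _ hx0)
      have h10 : x⁻¹ * x = 1 := inv_mul_cancel₀ hx0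
      rw [pow_succ]
      linear_combination (-(x ^ β.natDegree * x)) * h3 +
        (ρ a * eval₂ ρ x β.reverse * (x⁻¹ * x)) * h9 + (ρ a * eval₂ ρ x β.reverse) * h10
  obtain ⟨V, hV1, hV2⟩ := Ideal.image_subset_nonunits_valuationSubring I hI
  have hV : ∀ p, ρ p ∈ V := fun p => hV1 ⟨C p, by simp [ev]⟩
  have h4 : V.valuation x⁻¹ ≤ 1 := (V.valuation_le_one_iff _).2 (hV1 ⟨X, by simp [ev]⟩)
  have h5 : V.valuation (ρ a * x⁻¹) < 1 := by
    have := V.mem_nonunits_iff.1 (hV2 ⟨_, Ideal.mem_span_singleton_self _, rfl⟩)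
    simpa [ev] using this
  have hvx : 0 < V.valuation x := by
    rw [zero_lt_iff]; simpa using hx0
  rw [map_inv₀, inv_le_one₀ hvx] at h4
  rcases ((V.valuation_le_one_iff _).2 (hV a)).lt_or_eq with h6 | h6
  · exact absurd (hx ▸ val_step h ρ V hV ha0 h6 j) (not_lt.2 h4)
  · rw [map_mul, h6, one_mul, map_inv₀, inv_lt_one₀ hvx, hx, map_div₀, map_pow, h6, one_pow,
      div_one] at h5
    exact absurd ((V.valuation_le_one_iff _).2 (hV _)) (not_le.2 h5)

theorem main [Algebra ℚ A] {c : A} {a f : A[X]} (h : Hyp c a f) : Concl c a f :=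
  fin c a f h.h1 (by simpa [H2] using h 1 le_rfl) h.h3

end Pool.Agent.H66.Img
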