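import Mathlib

set_option autoImplicit false

namespace Pool.Agent.H66.IntC

open Polynomial

section
variable {D K : Type*} [CommRing D] [Field K] [Algebra D K]

theorem denom (m : ℕ) : ∀ k : ℕ, ∃ ψ : ℤ[X], ψ.Monic ∧ ∀ (t : D) (f : K[X]), f.natDegree ≤ m →
    (∀ i ≤ m, eval (algebraMap D K (t ^ (k + i))) f ∈ (algebraMap D K).range) →
    ∃ g : D[X], g.map (algebraMap D K) = C (algebraMap D K (aeval t ψ)) * f := by
  induction m with
  | zero =>
    refine fun k => ⟨1, monic_one, fun t f hf h => ?_⟩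
    obtain ⟨d, hd⟩ := h 0 le_rfl
    rw [eq_C_of_natDegree_le_zero hf] at hd ⊢
    exact ⟨C d, by simpa using hd⟩
  | succ m ih =>
    intro k
    obtain ⟨ψ, hψ, h1⟩ := ih (k + 1)
    refine ⟨ψ * ∏ j ∈ Finset.range (m + 1), (X ^ (k + 1 + j) - X ^ k), hψ.mul
      (monic_prod_of_monic _ _ fun j _ => monic_X_pow_sub
        (by rw [degree_X_pow]; exact_mod_cast (by omega))), fun t f hf h => ?_⟩
    obtain ⟨d, hd⟩ := h 0 (by omega)
    rw [add_zero] at hd
    have e := X_sub_C_mul_divByMonic_eq_sub_modByMonic f (algebraMap D K (t ^ k))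
    rw [modByMonic_X_sub_C_eq_C_eval, ← hd] at e
    set q := f /ₘ (X - C (algebraMap D K (t ^ k))) with hq
    set E := ∏ j ∈ Finset.range (m + 1), (t ^ (k + 1 + j) - t ^ k) with hE
    obtain ⟨g, hg⟩ := h1 t (C (algebraMap D K E) * q) ((natDegree_C_mul_le _ _).trans (by
      rw [hq, natDegree_divByMonic f (monic_X_sub_C _), natDegree_X_sub_C]; omega)) (by
        intro i hi
        obtain ⟨d', hd'⟩ := h (i + 1) (by omega)
        have h2 := congrArg (eval (algebraMap D K (t ^ (k + 1 + i)))) e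
        simp only [eval_mul, eval_sub, eval_X, eval_C] at h2
        rw [show k + (i + 1) = k + 1 + i by ring] at hd'
        refine ⟨(∏ j ∈ (Finset.range (m + 1)).erase i, (t ^ (k + 1 + j) - t ^ k)) * (d' - d), ?_⟩
        rw [eval_mul, eval_C, hE, ← Finset.prod_erase_mul _ _ (Finset.mem_range.2 (by omega) :
          i ∈ Finset.range (m + 1)), map_mul, map_mul, map_sub, map_sub, hd', ← h2, mul_assoc])
    refine ⟨(X - C (t ^ k)) * g + C (aeval t ψ * E * d), ?_⟩
    have h3 : aeval t (∏ j ∈ Finset.range (m + 1), (X ^ (k + 1 + j) - X ^ k : ℤ[X])) = E := by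
      simp [hE, map_prod]
    rw [map_mul (aeval t), h3]
    simp only [Polynomial.map_add, Polynomial.map_mul, Polynomial.map_sub, map_X, map_C, hg,
      map_mul]
    linear_combination (C (algebraMap D K (aeval t ψ)) * C (algebraMap D K E)) * e

end

theorem map_ev {D E : Type*} [CommRing D] [Ring E] (σ : D →+* E) (t : D) (ψ : ℤ[X]) :
    σ (eval₂ (Int.castRingHom D) t ψ) = eval₂ (Int.castRingHom E) (σ t) ψ := by
  rw [hom_eval₂, RingHom.ext_int (σ.comp _) (Int.castRingHom E)]

theorem integral_of_coeffs {R E : Type*} [CommRing R] [CommRing E] [Algebra R E] (x : E) (n : ℕ)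
    (s : Fin n → E) (hs : ∀ i, IsIntegral R (s i)) (h : x ^ n + ∑ i, s i * x ^ (i : ℕ) = 0) :
    IsIntegral R x := by
  refine isIntegral_trans (A := integralClosure R E) _ ?_
  refine ⟨X ^ n + ∑ i : Fin n, C (⟨s i, hs i⟩ : integralClosure R E) * X ^ (i : ℕ),
    monic_X_pow_add (degree_sum_fin_lt fun i => (⟨s i, hs i⟩ : integralClosure R E)), ?_⟩
  simpa [eval₂_finset_sum] using h

theorem integral_map {D P E : Type*} [CommRing D] [CommRing P] [CommRing E] [Algebra D E]
    (R : Subring P) (π : P →+* E) (f : P) (hf : IsIntegral R f)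
    (hR : ∀ r ∈ R, IsIntegral D (π r)) : IsIntegral D (π f) := by
  let ρ : R →+* integralClosure D E :=
    (π.comp R.subtype).codRestrict (integralClosure D E) fun r => hR r r.2
  refine isIntegral_trans (A := integralClosure D E) _ ?_
  exact hf.map_of_comp_eq ρ π (RingHom.ext fun _ => rfl)

theorem exists_quot {P : Type} [CommRing P] (J : Ideal P) :
    ∃ (E : Type) (_ : CommRing E) (π : P →+* E), ∀ x, π x = 0 ↔ x ∈ J :=
  ⟨P ⧸ J, inferInstance, Ideal.Quotient.mk J, fun _ => Ideal.Quotient.eq_zero_iff_mem⟩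

theorem integral_map' {D P B : Type*} [CommRing D] [CommRing P] [Ring B] [Algebra D P]
    [Algebra D B] (R : Subring P) (π : P →ₐ[D] B) (f : P) (hf : IsIntegral R f)
    (hR : ∀ r ∈ R, IsIntegral D (π r)) : IsIntegral D (π f) := by
  have hj := Ideal.kerLiftAlg_injective π
  rw [← Ideal.kerLiftAlg_mk, isIntegral_algHom_iff _ hj]
  exact integral_map R _ f hf fun r hr => (isIntegral_algHom_iff _ hj).1 (hR r hr)

theorem universal (n : ℕ) (ψ : ℤ[X]) (hψ : ψ.Monic) :
    ∃ φ : ℤ[X], φ.Monic ∧ 0 < φ.degree ∧ ∀ (D : Type*) [CommRing D] (t : Fin n → D),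
      eval₂ (Int.castRingHom D[X]) X φ ∈
        Ideal.span {X ^ n + ∑ i : Fin n, C (t i) * X ^ (i : ℕ)} ⊔
        Ideal.span (Set.range fun i => C (eval₂ (Int.castRingHom D) (t i) ψ)) := by
  set J : Ideal (MvPolynomial (Fin n) ℤ)[X] :=
    Ideal.span {X ^ n + ∑ i : Fin n, C (MvPolynomial.X i) * X ^ (i : ℕ)} ⊔
      Ideal.span (Set.range fun i => C (eval₂ (Int.castRingHom (MvPolynomial (Fin n) ℤ))
        (MvPolynomial.X i) ψ)) with hJ
  obtain ⟨E, _, π, hπ⟩ := exists_quot J
  have h1 : ∀ i, IsIntegral ℤ (π (C (MvPolynomial.X i))) := by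
    intro i
    refine ⟨ψ, hψ, ?_⟩
    rw [RingHom.ext_int (algebraMap _ _) (Int.castRingHom _), ← map_ev, ← map_ev, hπ]
    exact Ideal.mem_sup_right (Ideal.subset_span ⟨i, rfl⟩)
  have h2 : π (X ^ n + ∑ i : Fin n, C (MvPolynomial.X i) * X ^ (i : ℕ)) = 0 :=
    (hπ _).2 (Ideal.mem_sup_left (Ideal.subset_span rfl))
  simp only [map_add, map_sum, map_mul, map_pow] at h2
  obtain ⟨φ, hφ, h3⟩ := integral_of_coeffs _ n _ h1 h2
  rw [RingHom.ext_int (algebraMap _ _) (Int.castRingHom _), ← map_ev, hπ] at h3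
  refine ⟨φ * X, hφ.mul monic_X, ?_, fun D _ t => ?_⟩
  · rw [degree_mul_X, degree_eq_natDegree hφ.ne_zero]
    exact_mod_cast Nat.succ_pos _
  · rw [eval₂_mul]
    refine Ideal.mul_mem_right _ _ ?_
    let σ : MvPolynomial (Fin n) ℤ →+* D := MvPolynomial.eval₂Hom (Int.castRingHom D) t
    have hσ : ∀ i, σ (MvPolynomial.X i) = t i := fun i => by simp [σ]
    have h4 := Ideal.mem_map_of_mem (mapRingHom σ) h3
    rw [map_ev, hJ, Ideal.map_sup, Ideal.map_span, Ideal.map_span, Set.image_singleton,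
      ← Set.range_comp] at h4
    have h5 : ∀ i, σ (eval₂ (Int.castRingHom _) (MvPolynomial.X i) ψ) =
        eval₂ (Int.castRingHom D) (t i) ψ := fun i => by rw [map_ev, hσ]
    simp only [Function.comp_def, coe_mapRingHom, map_C, h5, hσ, Polynomial.map_sum, map_X,
      Polynomial.map_add, Polynomial.map_mul, Polynomial.map_pow] at h4
    exact h4

section
variable {D K B : Type*} [CommRing D] [IsDomain D] [IsIntegrallyClosed D] [Field K] [Algebra D K]
  [IsFractionRing D K] [Ring B] [Algebra K B] [Algebra D B] [IsScalarTower D K B]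

theorem exists_char [FiniteDimensional K B] (y : B) (hy : IsIntegral D y) :
    ∃ t : Fin (Module.finrank K B) → D,
      aeval y (X ^ Module.finrank K B + ∑ i, C (t i) * X ^ (i : ℕ) : D[X]) = 0 := by
  have hK : IsIntegral K y := hy.tower_top
  obtain ⟨p, hp, h1⟩ := hy
  obtain ⟨g, hg⟩ := IsIntegrallyClosed.eq_map_mul_C_of_dvd K hp
    (minpoly.dvd K y (p := p.map (algebraMap D K)) (by rw [aeval_map_algebraMap]; exact h1))
  rw [(minpoly.monic hK).leadingCoeff, C_1, mul_one] at hg
  have hm : g.Monic := monic_of_injective (IsFractionRing.injective D K) (hg ▸ minpoly.monic hK)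
  have hd : g.natDegree ≤ Module.finrank K B := by
    rw [← natDegree_map_eq_of_injective (IsFractionRing.injective D K), hg]
    exact minpoly.natDegree_le y
  have h0 : aeval y g = 0 := by rw [← aeval_map_algebraMap K, hg, minpoly.aeval]
  have hq : (g * X ^ (Module.finrank K B - g.natDegree)).Monic := hm.mul (monic_X_pow _)
  have hqd : (g * X ^ (Module.finrank K B - g.natDegree)).natDegree = Module.finrank K B := by
    rw [hm.natDegree_mul (monic_X_pow _), natDegree_X_pow]; omega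
  refine ⟨fun i => (g * X ^ (Module.finrank K B - g.natDegree)).coeff i, ?_⟩
  have e := hq.as_sum
  rw [hqd, Finset.sum_range] at e
  rw [← e, map_mul, h0, zero_mul]

theorem main [FiniteDimensional K B] (S : Subalgebra D B) (f : K[X])
    (hf : ∀ a ∈ S, IsIntegral D (aeval a f)) :
    ∃ φ : ℤ[X], φ.Monic ∧ 0 < φ.degree ∧
      ∀ a ∈ S, aeval a (eval₂ (Int.castRingHom K[X]) f φ) ∈ S := by
  rcases subsingleton_or_nontrivial B with hB | hB
  · exact ⟨X, monic_X, by simp, fun a ha => by rw [Subsingleton.elim (aeval a _) a]; exact ha⟩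
  have h1 : ∀ d : D, eval (algebraMap D K d) f ∈ (algebraMap D K).range := by
    intro d
    have h := hf _ (S.algebraMap_mem d)
    rw [IsScalarTower.algebraMap_apply D K B, aeval_algebraMap_apply,
      isIntegral_algebraMap_iff (algebraMap K B).injective] at h
    exact IsIntegrallyClosed.isIntegral_iff.1 h
  obtain ⟨ψ, hψ, h2⟩ := denom (D := D) (K := K) f.natDegree 0
  set n := Module.finrank K B with hn
  obtain ⟨φ, hφ, hd, h3⟩ := universal n (ψ ^ n) (hψ.pow n)
  refine ⟨φ, hφ, hd, fun a ha => ?_⟩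
  set y := aeval a f with hy
  obtain ⟨t, ht⟩ := exists_char (K := K) y (hf a ha)
  have hn0 : 0 < n := Module.finrank_pos
  have hχ : (X ^ n + ∑ i : Fin n, C (t i) * X ^ (i : ℕ) : D[X]).Monic :=
    monic_X_pow_add (degree_sum_fin_lt _)
  have hχd : (X ^ n + ∑ i : Fin n, C (t i) * X ^ (i : ℕ) : D[X]).degree = n := by
    rw [degree_add_eq_left_of_degree_lt (by rw [degree_X_pow]; exact degree_sum_fin_lt _),
      degree_X_pow]
  have h4 : ∀ (s : D) (w : D[X]), aeval y (w * C (eval₂ (Int.castRingHom D) s (ψ ^ n))) ∈ S := by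
    intro s w
    obtain ⟨g, hg⟩ := h2 s f le_rfl fun i _ => h1 _
    have e0 : eval₂ (Int.castRingHom D) s ψ = aeval s ψ := rfl
    rw [eval₂_pow, e0]
    set d := aeval s ψ
    have h5 : d • y ∈ S := by
      have := congrArg (aeval a) hg
      rw [aeval_map_algebraMap, map_mul, aeval_C, ← IsScalarTower.algebraMap_apply,
        ← Algebra.smul_def] at this
      rw [hy, ← this]
      exact Algebra.adjoin_le (Set.singleton_subset_iff.2 ha) (aeval_mem_adjoin_singleton D a)
    have h6 : (w %ₘ (X ^ n + ∑ i : Fin n, C (t i) * X ^ (i : ℕ))).natDegree < n := by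
      by_cases h0 : w %ₘ (X ^ n + ∑ i : Fin n, C (t i) * X ^ (i : ℕ)) = 0
      · rw [h0]; exact hn0
      · rw [natDegree_lt_iff_degree_lt h0, ← hχd]
        exact degree_modByMonic_lt _ hχ
    rw [mul_comm, map_mul, aeval_C, ← Algebra.smul_def, ← aeval_modByMonic_eq_self_of_root ht,
      aeval_eq_sum_range' h6, Finset.smul_sum]
    refine S.sum_mem fun k hk => ?_
    obtain ⟨j, hj⟩ := Nat.exists_eq_add_of_le' (Finset.mem_range.1 hk).le
    rw [smul_comm, show d ^ n = d ^ j * d ^ k by rw [← pow_add, ← hj], mul_smul, ← _root_.smul_pow]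
    exact S.smul_mem (S.smul_mem (S.pow_mem h5 k) _) _
  have h5 : aeval a (eval₂ (Int.castRingHom K[X]) f φ) =
      aeval y (eval₂ (Int.castRingHom D[X]) X φ) := by
    have a1 := map_ev (aeval a : K[X] →ₐ[K] B).toRingHom f φ
    have a2 := map_ev (aeval y : D[X] →ₐ[D] B).toRingHom X φ
    simp only [AlgHom.toRingHom_eq_coe, RingHom.coe_coe, aeval_X] at a1 a2
    rw [a1, a2]
  rw [h5]
  obtain ⟨u, hu, v, hv, e⟩ := Submodule.mem_sup.1 (h3 D t)
  obtain ⟨u, rfl⟩ := Ideal.mem_span_singleton'.1 hu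
  obtain ⟨c, rfl⟩ := Ideal.mem_span_range_iff_exists_fun.1 hv
  rw [← e, map_add, map_mul, ht, mul_zero, zero_add, map_sum]
  exact S.sum_mem fun i _ => h4 _ _

end

end Pool.Agent.H66.IntC
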