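import Mathlib

set_option autoImplicit false

namespace Pool.Agent.H66.IntV

open Polynomial TensorProduct

theorem mem_lifts {D K : Type*} [CommRing D] [Field K] [Algebra D K] [Algebra ℚ D] [CharZero K]
    (f : K[X]) (hf : {c : ℚ | eval (c : K) f ∉ (algebraMap D K).range}.Finite) :
    f ∈ (mapRingHom (algebraMap D K)).range := by
  have hc : ∀ c : ℚ, algebraMap D K (algebraMap ℚ D c) = c := fun c =>
    eq_ratCast ((algebraMap D K).comp (algebraMap ℚ D)) c
  induction h : f.natDegree using Nat.strong_induction_on generalizing f with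
  | _ n ih =>
    obtain ⟨c0, h0⟩ := hf.exists_notMem
    obtain ⟨d, hd⟩ := not_not.1 h0
    by_cases hn : f.natDegree = 0
    · rw [eq_C_of_natDegree_eq_zero hn] at hd ⊢
      exact ⟨C d, by simpa using hd⟩
    have e := X_sub_C_mul_divByMonic_eq_sub_modByMonic f (c0 : K)
    rw [modByMonic_X_sub_C_eq_C_eval] at e
    obtain ⟨g, hg⟩ := ih _ (show (f /ₘ (X - C (c0 : K))).natDegree < n by
        rw [natDegree_divByMonic f (monic_X_sub_C (c0 : K)), natDegree_X_sub_C]
        omega) (f /ₘ (X - C (c0 : K))) (by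
        refine (hf.insert c0).subset fun c hc' => ?_
        by_contra h1
        rw [Set.mem_insert_iff, not_or] at h1
        obtain ⟨d', hd'⟩ := not_not.1 h1.2
        have h2 := congrArg (eval (c : K)) e
        have h3 : (c : K) - c0 ≠ 0 := sub_ne_zero.2 (by exact_mod_cast h1.1)
        simp only [eval_mul, eval_sub, eval_X, eval_C] at h2
        refine hc' ⟨algebraMap ℚ D (c - c0)⁻¹ * (d' - d), ?_⟩
        rw [map_mul, hc, map_sub, hd, hd', ← h2]
        push_cast
        field_simp) rfl
    refine ⟨(X - C (algebraMap ℚ D c0)) * g + C d, ?_⟩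
    rw [map_add, map_mul, hg]
    simp only [coe_mapRingHom, Polynomial.map_sub, map_X, map_C, hc, hd]
    rw [e, sub_add_cancel]

abbrev D : Type := ℚ[X]

abbrev K : Type := FractionRing D

abbrev A : Type := QuadraticAlgebra D (X ^ 3) 0

abbrev B : Type := K ⊗[D] A

theorem torsionFree : ∀ (d : D) (a : A), d • a = 0 → d = 0 ∨ a = 0 := fun _ _ h => smul_eq_zero.1 h

theorem lifts_of (f : K[X]) (hf : ∀ a : A, IsIntegral D (aeval ((1 : K) ⊗ₜ[D] a) f)) :
    f ∈ (mapRingHom (algebraMap D K)).range := by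
  refine mem_lifts f ?_
  convert Set.finite_empty
  rw [Set.eq_empty_iff_forall_notMem]
  intro c hc
  apply hc
  have h1 := hf (algebraMap D A (C c))
  have h2 : (1 : K) ⊗ₜ[D] (algebraMap D A (C c)) = algebraMap K B (c : K) := by
    rw [← eq_ratCast ((algebraMap D K).comp C) c, RingHom.comp_apply,
      ← IsScalarTower.algebraMap_apply, Algebra.TensorProduct.algebraMap_apply']
  rw [h2, aeval_algebraMap_apply, isIntegral_algebraMap_iff (algebraMap K B).injective] at h1
  exact IsIntegrallyClosed.isIntegral_iff.1 h1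

theorem integral_of (f : K[X]) (hf : f ∈ (mapRingHom (algebraMap D K)).range) (b : B)
    (hb : IsIntegral D b) : IsIntegral D (aeval b f) := by
  obtain ⟨g, rfl⟩ := hf
  rw [coe_mapRingHom, aeval_map_algebraMap]
  exact adjoin_le_integralClosure hb (aeval_mem_adjoin_singleton D b)

theorem integral_one (a : A) : IsIntegral D ((1 : K) ⊗ₜ[D] a : B) :=
  (Algebra.IsIntegral.isIntegral (R := D) a).map Algebra.TensorProduct.includeRight

theorem mem_iff (f : K[X]) : f ∈ (mapRingHom (algebraMap D K)).range ↔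
    ∀ a : A, ∃ a' : A, aeval ((1 : K) ⊗ₜ[D] a : B) f = 1 ⊗ₜ[D] a' := by
  constructor
  · rintro ⟨g, rfl⟩ a
    refine ⟨aeval a g, ?_⟩
    rw [coe_mapRingHom, aeval_map_algebraMap]
    exact aeval_algHom_apply (Algebra.TensorProduct.includeRight : A →ₐ[D] B) a g
  · intro h
    refine lifts_of f fun a => ?_
    obtain ⟨a', e⟩ := h a
    rw [e]
    exact integral_one a'

theorem closed : IsIntegrallyClosed (mapRingHom (algebraMap D K)).range :=
  IsIntegrallyClosed.of_equiv (RingEquiv.ofBijective (mapRingHom (algebraMap D K)).rangeRestrict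
    ⟨fun _ _ h => map_injective _ (IsFractionRing.injective D K) (congrArg Subtype.val h),
      RingHom.rangeRestrict_surjective _⟩)

noncomputable def b : B := (algebraMap D K X)⁻¹ ⊗ₜ[D] QuadraticAlgebra.omega

theorem b_sq : b ^ 2 = algebraMap D B X := by
  have h0 : algebraMap D K X ≠ 0 := by simp
  rw [b, sq, Algebra.TensorProduct.tmul_mul_tmul, QuadraticAlgebra.omega_mul_omega_eq_add,
    zero_smul, add_zero, ← smul_tmul, Algebra.TensorProduct.algebraMap_apply, Algebra.smul_def]
  congr 1
  rw [map_pow]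
  field_simp

theorem b_int : IsIntegral D b :=
  ⟨X ^ 2 - C X, monic_X_pow_sub_C _ two_ne_zero, by simp [b_sq]⟩

theorem exists_root : ∃ α : AlgebraicClosure K, aeval α (minpoly K b) = 0 ∧
    ∀ a : A, aeval α (minpoly K ((1 : K) ⊗ₜ[D] a : B)) ≠ 0 := by
  obtain ⟨α, hα⟩ := IsAlgClosed.exists_aeval_eq_zero (AlgebraicClosure K) (minpoly K b)
    (minpoly.degree_pos b_int.tower_top).ne'
  refine ⟨α, hα, fun a ha => ?_⟩
  have h1 := aeval_eq_zero_of_dvd_aeval_eq_zero
    (minpoly.dvd K b (p := X ^ 2 - C (algebraMap D K X))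
      (by simp [b_sq, ← IsScalarTower.algebraMap_apply])) hα
  have e : (a - algebraMap D A a.re) ^ 2 = algebraMap D A (a.im ^ 2 * X ^ 3) := by
    ext1 <;> simp [sq, -map_mul, -map_pow]
    ring
  have h2 := aeval_eq_zero_of_dvd_aeval_eq_zero
    (minpoly.dvd K ((1 : K) ⊗ₜ[D] a : B)
      (p := (X - C (algebraMap D K a.re)) ^ 2 - C (algebraMap D K (a.im ^ 2 * X ^ 3))) (by
        have := congrArg (Algebra.TensorProduct.includeRight : A →ₐ[D] B) e
        rw [map_pow, map_sub, AlgHom.commutes, AlgHom.commutes] at this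
        rw [map_sub, map_pow, map_sub, aeval_X, aeval_C, aeval_C, ← IsScalarTower.algebraMap_apply,
          ← IsScalarTower.algebraMap_apply, sub_eq_zero]
        exact this)) ha
  simp only [map_sub, map_pow, aeval_X, aeval_C, map_mul] at h1 h2
  have h3 : (X + a.re ^ 2 - a.im ^ 2 * X ^ 3) ^ 2 = 4 * a.re ^ 2 * X := by
    apply IsFractionRing.injective D K
    apply (algebraMap K (AlgebraicClosure K)).injective
    simp only [map_sub, map_pow, map_mul, map_add, map_ofNat]
    rw [← sub_eq_zero.1 h1] at h2 ⊢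
    linear_combination (α ^ 2 + algebraMap K (AlgebraicClosure K) (algebraMap D K a.re) ^ 2 -
      algebraMap K (AlgebraicClosure K) (algebraMap D K a.im) ^ 2 * (α ^ 2) ^ 3 +
      2 * algebraMap K (AlgebraicClosure K) (algebraMap D K a.re) * α) * h2
  have h4 : a.re.coeff 0 = 0 := by
    have := congrArg (eval 0) h3
    simpa [coeff_zero_eq_eval_zero] using this
  obtain ⟨p, hp⟩ := X_dvd_iff.2 h4
  rw [hp] at h3
  have h5 : (1 + X * p ^ 2 - a.im ^ 2 * X ^ 2) ^ 2 = 4 * p ^ 2 * X :=
    mul_left_cancel₀ (pow_ne_zero 2 X_ne_zero) (by linear_combination h3)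
  simpa using congrArg (eval 0) h5

end Pool.Agent.H66.IntV
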