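import Mathlib

set_option autoImplicit false

namespace Pool.Agent.H66.KosFil

open MvPolynomial Ideal

abbrev S := MvPolynomial (Fin 4) ℚ

def Reg (I : Ideal S) (u : S) : Prop := ∀ f, f * u ∈ I → f ∈ I

lemma Reg.swap {I : Ideal S} {u v : S} (h1 : Reg I u) (h2 : Reg (I ⊔ span {u}) v) :
    Reg (I ⊔ span {v}) u := by
  intro f hf
  obtain ⟨i, hi, w, hw, e⟩ := Submodule.mem_sup.1 hf
  obtain ⟨B, rfl⟩ := mem_span_singleton'.1 hw
  have : B * v ∈ I ⊔ span {u} := by
    rw [show B * v = -i + f * u by linear_combination e]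
    exact Submodule.add_mem_sup (I.neg_mem hi) (mem_span_singleton'.2 ⟨f, rfl⟩)
  obtain ⟨i', hi', w, hw, e'⟩ := Submodule.mem_sup.1 (h2 _ this)
  obtain ⟨B1, rfl⟩ := mem_span_singleton'.1 hw
  have h3 : (f - B1 * v) * u ∈ I := by
    rw [show (f - B1 * v) * u = i + v * i' by linear_combination -e - v * e']
    exact I.add_mem hi (I.mul_mem_left _ hi')
  rw [show f = (f - B1 * v) + B1 * v by ring]
  exact Submodule.add_mem_sup (h1 _ h3) (mem_span_singleton'.2 ⟨B1, rfl⟩)

lemma Reg.mul {I : Ideal S} {u v : S} (h1 : Reg I u) (h2 : Reg I v) : Reg I (u * v) :=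
  fun f hf => h1 _ (h2 _ (by rwa [mul_assoc]))

lemma Reg.congr {I : Ideal S} {u v : S} (h1 : Reg I u) (h : v - u ∈ I) : Reg I v := by
  intro f hf
  apply h1
  rw [show f * u = f * v - f * (v - u) by ring]
  exact I.sub_mem hf (I.mul_mem_left _ h)

lemma Reg.colon {I : Ideal S} {u : S} (h : Reg I u) (f : S) (hf : f * u ∈ I ⊔ span {u * u}) :
    f ∈ I ⊔ span {u} := by
  obtain ⟨i, hi, w, hw, e⟩ := Submodule.mem_sup.1 hf
  obtain ⟨B, rfl⟩ := mem_span_singleton'.1 hw
  have : (f - B * u) * u ∈ I := by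
    rw [show (f - B * u) * u = i by linear_combination -e]; exact hi
  rw [show f = (f - B * u) + B * u by ring]
  exact Submodule.add_mem_sup (h _ this) (mem_span_singleton'.2 ⟨B, rfl⟩)

noncomputable def P (s : Finset (Fin 4)) : Ideal S := span (X '' (s : Set (Fin 4)))

noncomputable def kill (s : Finset (Fin 4)) : S →ₐ[ℚ] S := aeval fun i => if i ∈ s then 0 else X i

lemma X_mem {s : Finset (Fin 4)} {i : Fin 4} (h : i ∈ s) : X i ∈ P s :=
  subset_span ⟨i, h, rfl⟩

lemma mem_P (s : Finset (Fin 4)) (f : S) : f ∈ P s ↔ kill s f = 0 := by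
  constructor
  · intro h
    have : P s ≤ RingHom.ker (kill s) := by
      rw [P, span_le]
      rintro _ ⟨i, hi, rfl⟩
      have : i ∈ s := hi
      simp [kill, this]
    exact this h
  · intro h
    have : ∀ g : S, g - kill s g ∈ P s := by
      intro g
      induction g using MvPolynomial.induction_on with
      | C a => simp [kill]
      | add f g hf hg =>
        rw [map_add, show f + g - (kill s f + kill s g) = (f - kill s f) + (g - kill s g) by ring]
        exact add_mem hf hg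
      | mul_X f i hf =>
        rw [map_mul]
        by_cases hi : i ∈ s
        · simp only [kill, aeval_X, if_pos hi, mul_zero, sub_zero]
          exact mul_mem_left _ _ (X_mem hi)
        · have : kill s (X i) = X i := by simp [kill, hi]
          rw [this, ← sub_mul]
          exact mul_mem_right _ _ hf
    simpa [h] using this f

lemma reg_P (s : Finset (Fin 4)) (u : S) (hu : kill s u ≠ 0) : Reg (P s) u := by
  intro f hf
  rw [mem_P] at hf ⊢
  rw [map_mul] at hf
  exact (mul_eq_zero.1 hf).resolve_right hu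

lemma reg_X {s : Finset (Fin 4)} {i : Fin 4} (h : i ∉ s) : Reg (P s) (X i) :=
  reg_P _ _ (by simp [kill, h])

lemma P_insert (s : Finset (Fin 4)) (i : Fin 4) : P (insert i s) = P s ⊔ span {X i} := by
  rw [P, Finset.coe_insert, Set.image_insert_eq, span_insert, sup_comm]; rfl

lemma P_empty : P ∅ = ⊥ := by simp [P]

lemma P_mono {s t : Finset (Fin 4)} (h : s ⊆ t) : P s ≤ P t :=
  span_mono (Set.image_mono h)

lemma reg_sq {s : Finset (Fin 4)} {i j : Fin 4} (hi : i ∉ s) (hj : j ∉ insert i s) :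
    Reg (P s ⊔ span {X j * X j}) (X i) :=
  (reg_X hi).swap (by rw [← P_insert]; exact (reg_X hj).mul (reg_X hj))

noncomputable def Q (i j : Fin 4) : S := X j * X j - X i * X i

noncomputable def J (i j k l : Fin 4) : Ideal S := span {Q i j} ⊔ span {Q k l}

lemma sup_congr {I : Ideal S} {u v : S} (h : v - u ∈ I) : I ⊔ span {u} = I ⊔ span {v} := by
  apply le_antisymm
  · refine sup_le le_sup_left ((span_singleton_le_iff_mem _).2 ?_)
    rw [show u = -(v - u) + v by ring]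
    exact Submodule.add_mem_sup (I.neg_mem h) (mem_span_singleton_self _)
  · refine sup_le le_sup_left ((span_singleton_le_iff_mem _).2 ?_)
    rw [show v = (v - u) + u by ring]
    exact Submodule.add_mem_sup h (mem_span_singleton_self _)

lemma Q_sub {I : Ideal S} {i j : Fin 4} (h : X i ∈ I) : Q i j - X j * X j ∈ I := by
  rw [show Q i j - X j * X j = -X i * X i by simp only [Q]; ring]
  exact I.mul_mem_left _ h

section
variable {i j k l : Fin 4} (hij : i ≠ j) (hik : i ≠ k) (hil : i ≠ l) (hjk : j ≠ k) (hjl : j ≠ l)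
  (hkl : k ≠ l)
include hkl

lemma regQ {s : Finset (Fin 4)} (hk : k ∉ s) (hl : l ∉ s) : Reg (P s) (Q k l) := by
  apply reg_P
  simp only [kill, Q, map_sub, map_mul, aeval_X, if_neg hk, if_neg hl]
  intro h
  have := congrArg (eval fun a => if a = l then (1 : ℚ) else 0) h
  simp [hkl] at this

include hij hik hil hjk hjl

lemma c1 : Reg (P ∅ ⊔ J i j k l) (X i) := by
  have a1 : Reg (P ∅ ⊔ span {Q k l}) (X i) :=
    (reg_X (by simp)).swap (by rw [← P_insert]; exact regQ hkl (by simp [hik.symm]) (by simp [hil.symm]))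
  have a2 : Reg (P {i} ⊔ span {Q k l}) (X j) :=
    (reg_X (by simp [hij.symm])).swap (by
      rw [← P_insert]
      exact regQ hkl (by simp [hik.symm, hjk.symm]) (by simp [hil.symm, hjl.symm]))
  have a3 : Reg (P ∅ ⊔ span {Q k l} ⊔ span {X i}) (Q i j) := by
    rw [sup_right_comm, ← P_insert]
    exact (a2.mul a2).congr (Q_sub (Ideal.mem_sup_left (X_mem (by simp))))
  have := a1.swap a3
  rwa [sup_right_comm, sup_assoc] at this

lemma c2 : Reg (P {i} ⊔ J i j k l) (X k) := by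
  have a1 : Reg (P {i} ⊔ span {X j * X j}) (X k) :=
    reg_sq (by simp [hik.symm]) (by simp [hij.symm, hjk])
  have a2 : Reg (P {k, i} ⊔ span {X j * X j}) (X l) :=
    reg_sq (by simp [hil.symm, hkl.symm]) (by simp [hij.symm, hjk, hjl])
  have a3 : Reg (P {i} ⊔ span {X j * X j} ⊔ span {X k}) (Q k l) := by
    rw [sup_right_comm, ← P_insert]
    exact (a2.mul a2).congr (Q_sub (Ideal.mem_sup_left (X_mem (by simp))))
  have := a1.swap a3
  rwa [sup_congr (Q_sub (X_mem (Finset.mem_singleton_self i))), sup_assoc] at this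

lemma c3 (f : S) : f ∈ P {j, k, i} ⊔ J i j k l ↔ f * X j ∈ P {k, i} ⊔ J i j k l := by
  have e1 : P {k, i} ⊔ J i j k l = P {k, i} ⊔ span {X l * X l} ⊔ span {X j * X j} := by
    rw [J, sup_comm (span {Q i j}), ← sup_assoc, ← sup_congr (Q_sub (X_mem (by simp))),
      ← sup_congr (Q_sub (Ideal.mem_sup_left (X_mem (by simp))))]
  have e2 : P {j, k, i} ⊔ J i j k l = P {k, i} ⊔ span {X l * X l} ⊔ span {X j} := by
    rw [P_insert, sup_right_comm, e1, sup_assoc (P {k, i} ⊔ span {X l * X l})]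
    congr 1
    exact sup_eq_right.2 (span_singleton_le_span_singleton.2 (Dvd.intro _ rfl))
  rw [e1, e2]
  constructor
  · intro h
    obtain ⟨a, ha, w, hw, rfl⟩ := Submodule.mem_sup.1 h
    obtain ⟨B, rfl⟩ := mem_span_singleton'.1 hw
    rw [add_mul]
    exact Submodule.add_mem_sup (mul_mem_right _ _ ha) (mem_span_singleton'.2 ⟨B, by ring⟩)
  · exact (reg_sq (by simp [hij.symm, hjk]) (by simp [hil.symm, hkl.symm, hjl.symm])).colon f

lemma c4 (f : S) : f ∈ P {l, j, k, i} ⊔ J i j k l ↔ f * X l ∈ P {j, k, i} ⊔ J i j k l := by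
  have e1 : P {j, k, i} ⊔ J i j k l = P {j, k, i} ⊔ span {X l * X l} := by
    rw [J, ← sup_assoc, ← sup_congr (Q_sub (X_mem (by simp))), sup_eq_left.2
      ((span_singleton_le_iff_mem _).2 (mul_mem_left _ _ (X_mem (by simp)))),
      ← sup_congr (Q_sub (X_mem (by simp)))]
  have e2 : P {l, j, k, i} ⊔ J i j k l = P {j, k, i} ⊔ span {X l} := by
    rw [P_insert, sup_right_comm, e1, sup_assoc]
    congr 1
    exact sup_eq_right.2 (span_singleton_le_span_singleton.2 (Dvd.intro _ rfl))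
  rw [e1, e2]
  constructor
  · intro h
    obtain ⟨a, ha, w, hw, rfl⟩ := Submodule.mem_sup.1 h
    obtain ⟨B, rfl⟩ := mem_span_singleton'.1 hw
    rw [add_mul]
    exact Submodule.add_mem_sup (mul_mem_right _ _ ha) (mem_span_singleton'.2 ⟨B, by ring⟩)
  · exact (reg_X (by simp [hil.symm, hkl.symm, hjl.symm])).colon f

end

lemma J_symm : J 1 0 3 2 = J 0 1 2 3 := by
  rw [J, J, ← span_singleton_neg (Q 1 0), ← span_singleton_neg (Q 3 2)]
  simp [Q]

noncomputable abbrev J0 : Ideal S := J 0 1 2 3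

noncomputable def V (s : Finset (Fin 4)) : Ideal (S ⧸ J0) := (P s).map (Ideal.Quotient.mk J0)

lemma step (s : Finset (Fin 4)) (i : Fin 4) (c : Finset (Fin 4))
    (H : ∀ f : S, f ∈ P c ⊔ J0 ↔ f * X i ∈ P s ⊔ J0) :
    V s ≤ V (insert i s) ∧
    (∃ x : S ⧸ J0, (∃ p : S, p.IsHomogeneous 1 ∧ Ideal.Quotient.mk J0 p = x) ∧
      V (insert i s) = V s ⊔ span {x}) ∧
    ∀ r : S ⧸ J0, r ∈ V c ↔ ∀ y ∈ V (insert i s), r * y ∈ V s := by
  have e : V (insert i s) = V s ⊔ span {Ideal.Quotient.mk J0 (X i)} := by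
    rw [V, P_insert, Ideal.map_sup, map_span, Set.image_singleton]; rfl
  refine ⟨e ▸ le_sup_left, ⟨_, ⟨_, isHomogeneous_X _ i, rfl⟩, e⟩, fun r => ?_⟩
  obtain ⟨f, rfl⟩ := Ideal.Quotient.mk_surjective r
  rw [V, mem_quotient_iff_mem_sup, H, ← mem_quotient_iff_mem_sup, map_mul, e]
  constructor
  · intro h y hy
    obtain ⟨a, ha, w, hw, rfl⟩ := Submodule.mem_sup.1 hy
    obtain ⟨B, rfl⟩ := mem_span_singleton'.1 hw
    rw [mul_add, mul_left_comm]
    exact add_mem (mul_mem_left _ _ ha) (mul_mem_left _ _ h)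
  · intro h
    exact h _ (Ideal.mem_sup_right (mem_span_singleton_self _))

lemma V_lin (s : Finset (Fin 4)) : V s = span {y : S ⧸ J0 | y ∈ V s ∧
    ∃ p : S, p.IsHomogeneous 1 ∧ Ideal.Quotient.mk J0 p = y} := by
  apply le_antisymm
  · conv_lhs => rw [V, P, map_span]
    apply span_mono
    rintro _ ⟨_, ⟨i, hi, rfl⟩, rfl⟩
    exact ⟨mem_map_of_mem _ (X_mem hi), _, isHomogeneous_X _ i, rfl⟩
  · rw [span_le]
    exact fun y hy => hy.1

lemma lin_eq {p : S} (hp : p.IsHomogeneous 1) :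
    ∃ a b c d : ℚ, p = C a * X 0 + C b * X 1 + C c * X 2 + C d * X 3 := by
  have : p ∈ homogeneousSubmodule (Fin 4) ℚ 1 := hp
  rw [homogeneousSubmodule_one_eq_span_X] at this
  obtain ⟨c, rfl⟩ := (Submodule.mem_span_range_iff_exists_fun ℚ).1 this
  exact ⟨c 0, c 1, c 2, c 3, by simp [Fin.sum_univ_four, smul_eq_C_mul]⟩

lemma V_top : span {y : S ⧸ J0 | ∃ p : S, p.IsHomogeneous 1 ∧ Ideal.Quotient.mk J0 p = y} =
    V {3, 1, 2, 0} := by
  apply le_antisymm
  · rw [span_le]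
    rintro _ ⟨p, hp, rfl⟩
    obtain ⟨a, b, c, d, rfl⟩ := lin_eq hp
    apply mem_map_of_mem
    refine add_mem (add_mem (add_mem ?_ ?_) ?_) ?_ <;>
      exact mul_mem_left _ _ (X_mem (by simp))
  · rw [V_lin]
    exact span_mono fun y hy => hy.2

attribute [local instance] MvPolynomial.gradedAlgebra

lemma Q_hom (i j : Fin 4) : (Q i j).IsHomogeneous 2 :=
  ((isHomogeneous_X _ j).mul (isHomogeneous_X _ j)).sub
    ((isHomogeneous_X _ i).mul (isHomogeneous_X _ i))

lemma H_mul (f q : S) (n e : ℕ) (hq : q.IsHomogeneous e) :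
    homogeneousComponent (n + e) (f * q) = homogeneousComponent n f * q := by
  have := DirectSum.coe_decompose_mul_add_of_right_mem (homogeneousSubmodule (Fin 4) ℚ)
    (a := f) (i := n) hq
  rw [← decomposition.decompose'_apply, ← decomposition.decompose'_apply]
  exact this

lemma J_hom (p : S) (hp : p ∈ J0) (i : ℕ) : homogeneousComponent i p ∈ J0 := by
  refine homogeneousComponent_mem_of_mem ?_ hp i
  refine Ideal.IsHomogeneous.sup ?_ ?_ <;> refine Ideal.homogeneous_span _ _ ?_ <;>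
    rintro _ rfl <;> exact ⟨2, Q_hom _ _⟩

lemma mem_J (f : S) : f ∈ J0 ↔ ∃ a b, f = a * Q 0 1 + b * Q 2 3 := by
  constructor
  · intro h
    obtain ⟨u, hu, w, hw, rfl⟩ := Submodule.mem_sup.1 h
    obtain ⟨a, rfl⟩ := mem_span_singleton'.1 hu
    obtain ⟨b, rfl⟩ := mem_span_singleton'.1 hw
    exact ⟨a, b, rfl⟩
  · rintro ⟨a, b, rfl⟩
    exact Submodule.add_mem_sup (mem_span_singleton'.2 ⟨a, rfl⟩) (mem_span_singleton'.2 ⟨b, rfl⟩)

lemma ev_P (s : Finset (Fin 4)) (f : S) (hf : f ∈ P s) (v : Fin 4 → ℚ) (hv : ∀ i ∈ s, v i = 0) :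
    eval v f = 0 := by
  have : P s ≤ RingHom.ker (eval v) := by
    rw [P, span_le]
    rintro _ ⟨i, hi, rfl⟩
    simp [hv i hi]
  exact this hf

lemma claimL (f : S) (hf : f.IsHomogeneous 3) (h1 : f ∈ P {2, 0} * P {3, 1}) (h2 : f ∈ J0) :
    f = 0 := by
  obtain ⟨a, b, e⟩ := (mem_J f).1 h2
  have e' : f = homogeneousComponent 1 a * Q 0 1 + homogeneousComponent 1 b * Q 2 3 := by
    rw [← H_mul _ _ _ _ (Q_hom _ _), ← H_mul _ _ _ _ (Q_hom _ _), ← map_add, ← e]
    exact (homogeneousComponent_eq_self hf).symm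
  obtain ⟨a0, a1, a2, a3, ha⟩ := lin_eq (homogeneousComponent_isHomogeneous 1 a)
  obtain ⟨b0, b1, b2, b3, hb⟩ := lin_eq (homogeneousComponent_isHomogeneous 1 b)
  rw [ha, hb] at e'
  have k1 : ∀ y t : ℚ, (a1 * y + a3 * t) * (y * y) + (b1 * y + b3 * t) * (t * t) = 0 := by
    intro y t
    have := ev_P _ f (mul_le_left h1) ![0, y, 0, t] (by simp)
    rw [e'] at this
    simpa [Q] using this
  have k2 : ∀ x z : ℚ, (a0 * x + a2 * z) * (x * x) + (b0 * x + b2 * z) * (z * z) = 0 := by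
    intro x z
    have := ev_P _ f (mul_le_right h1) ![x, 0, z, 0] (by simp)
    rw [e'] at this
    simp [Q] at this
    linear_combination -this
  have := k1 1 0; have := k1 0 1; have := k1 1 1; have := k1 1 (-1)
  have := k2 1 0; have := k2 0 1; have := k2 1 1; have := k2 1 (-1)
  obtain rfl : a0 = 0 := by linarith
  obtain rfl : a1 = 0 := by linarith
  obtain rfl : a2 = 0 := by linarith
  obtain rfl : a3 = 0 := by linarith
  obtain rfl : b0 = 0 := by linarith
  obtain rfl : b1 = 0 := by linarith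
  obtain rfl : b2 = 0 := by linarith
  obtain rfl : b3 = 0 := by linarith
  simpa using e'

lemma P_hom (s : Finset (Fin 4)) : (P s).IsHomogeneous (homogeneousSubmodule (Fin 4) ℚ) := by
  refine Ideal.homogeneous_span _ _ ?_
  rintro _ ⟨i, -, rfl⟩
  exact ⟨1, isHomogeneous_X _ _⟩

lemma coeff_zero_of (f : S) (hf : f ∈ J0 * (P {2, 0} * P {3, 1})) :
    coeff (Finsupp.single 0 2 + Finsupp.single 3 2) f = 0 := by
  let K : Ideal S := span {X 1, X 2, X 0 ^ 3, X 3 ^ 3}
  have m1 : X 1 ∈ K := subset_span (by simp)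
  have m2 : X 2 ∈ K := subset_span (by simp)
  have m3 : X 0 ^ 3 ∈ K := subset_span (by simp)
  have m4 : X 3 ^ 3 ∈ K := subset_span (by simp)
  have hK : J0 * (P {2, 0} * P {3, 1}) ≤ K := by
    rw [J0, J, ← span_insert, P, P, span_mul_span, span_mul_span, span_le]
    rintro _ ⟨q, hq, _, ⟨_, ⟨i, hi, rfl⟩, _, ⟨j, hj, rfl⟩, rfl⟩, rfl⟩
    simp only [Finset.coe_insert, Finset.coe_singleton, Set.mem_insert_iff,
      Set.mem_singleton_iff] at hq hi hj
    rcases hi with rfl | rfl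
    · exact mul_mem_left _ _ (mul_mem_right _ _ m2)
    rcases hj with rfl | rfl
    swap
    · exact mul_mem_left _ _ (mul_mem_left _ _ m1)
    rcases hq with rfl | rfl
    · change Q 0 1 * (X 0 * X 3) ∈ K
      rw [show Q 0 1 * (X 0 * X 3) = (X 1 * X 0 * X 3) * X 1 - X 3 * X 0 ^ 3 by
        simp only [Q]; ring]
      exact sub_mem (mul_mem_left _ _ m1) (mul_mem_left _ _ m3)
    · change Q 2 3 * (X 0 * X 3) ∈ K
      rw [show Q 2 3 * (X 0 * X 3) = X 0 * X 3 ^ 3 - (X 2 * X 0 * X 3) * X 2 by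
        simp only [Q]; ring]
      exact sub_mem (mul_mem_left _ _ m4) (mul_mem_left _ _ m2)
  have : ∀ g, coeff (Finsupp.single 0 2 + Finsupp.single 3 2) (g * f) = 0 := by
    refine Submodule.span_induction (p := fun f _ =>
      ∀ g, coeff (Finsupp.single 0 2 + Finsupp.single 3 2) (g * f) = 0) ?_ ?_ ?_ ?_ (hK hf)
    · intro x hx g
      simp only [Set.mem_insert_iff, Set.mem_singleton_iff] at hx
      rcases hx with rfl | rfl | rfl | rfl
      · rw [coeff_mul_X']; simp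
      · rw [coeff_mul_X']; simp
      · rw [X_pow_eq_monomial, coeff_mul_monomial', if_neg]
        intro h; simpa using h 0
      · rw [X_pow_eq_monomial, coeff_mul_monomial', if_neg]
        intro h; simpa using h 3
    · simp
    · intro x y _ _ hx hy g
      rw [mul_add, coeff_add, hx, hy, add_zero]
    · intro a x _ hx g
      rw [smul_eq_mul, ← mul_assoc, hx]
  simpa using this 1

theorem final (b0 b1 : ℕ) (g : Fin b0 → S ⧸ J0) (A : Matrix (Fin b0) (Fin b1) (S ⧸ J0))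
    (hg : ∀ j, ∃ p : S, p.IsHomogeneous 2 ∧ Ideal.Quotient.mk J0 p = g j)
    (hA : ∀ a c, ∃ p : S, p.IsHomogeneous 1 ∧ Ideal.Quotient.mk J0 p = A a c)
    (hs : span (Set.range g) = V {2, 0} * V {3, 1})
    (hv : ∀ v : Fin b0 → S ⧸ J0, ∑ j, v j * g j = 0 ↔ ∃ w, A.mulVec w = v) : False := by
  rw [V, V, ← Ideal.map_mul] at hs
  have hPP := (P_hom {2, 0}).mul (P_hom {3, 1})
  have hg' : ∀ j, ∃ p : S, p.IsHomogeneous 2 ∧ p ∈ P {2, 0} * P {3, 1} ∧
      Ideal.Quotient.mk J0 p = g j := by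
    intro j
    obtain ⟨p, hp, e⟩ := hg j
    have : g j ∈ span (Set.range g) := subset_span ⟨j, rfl⟩
    rw [hs, ← e, mem_quotient_iff_mem_sup] at this
    obtain ⟨u, hu, w, hw, e'⟩ := Submodule.mem_sup.1 this
    refine ⟨homogeneousComponent 2 u, homogeneousComponent_isHomogeneous _ _,
      homogeneousComponent_mem_of_mem hPP hu 2, ?_⟩
    rw [← e, ← homogeneousComponent_eq_self hp, ← e', map_add, map_add,
      Ideal.Quotient.eq_zero_iff_mem.2 (J_hom w hw 2), add_zero]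
  choose p hp1 hp2 hp3 using hg'
  choose a ha1 ha2 using hA
  have hG : ∀ G : S, G.IsHomogeneous 2 → G ∈ P {2, 0} * P {3, 1} →
      ∃ c : Fin b0 → S, G = ∑ j, c j * p j := by
    intro G hG1 hG2
    have : Ideal.Quotient.mk J0 G ∈ span (Set.range g) := hs ▸ mem_map_of_mem _ hG2
    obtain ⟨c, hc⟩ := (Submodule.mem_span_range_iff_exists_fun _).1 this
    choose c' hc' using fun j => Ideal.Quotient.mk_surjective (c j)
    have h1 : G - ∑ j, c' j * p j ∈ J0 := by
      rw [← Ideal.Quotient.eq, ← hc]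
      simp [hc', hp3]
    have h2 := J_hom _ h1 (0 + 2)
    rw [map_sub, map_sum, Finset.sum_congr rfl fun j _ => H_mul _ _ 0 2 (hp1 j),
      homogeneousComponent_eq_self hG1] at h2
    refine ⟨fun j => homogeneousComponent 0 (c' j), sub_eq_zero.1 ?_⟩
    have h3 := claimL (X 0 * (G - ∑ j, homogeneousComponent 0 (c' j) * p j))
      ((isHomogeneous_X _ _).mul (hG1.sub (IsHomogeneous.sum _ _ _ fun j _ =>
        (homogeneousComponent_isHomogeneous 0 _).mul (hp1 j))))
      (mul_mem_left _ _ (sub_mem hG2 (Submodule.sum_mem _ fun j _ => mul_mem_left _ _ (hp2 j))))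
      (mul_mem_left _ _ h2)
    exact (mul_eq_zero.1 h3).resolve_left (X_ne_zero _)
  obtain ⟨c, hc⟩ := hG (X 0 * X 3) ((isHomogeneous_X _ _).mul (isHomogeneous_X _ _))
    (mul_mem_mul (X_mem (by simp)) (X_mem (by simp)))
  obtain ⟨d, hd⟩ := hG (X 2 * X 1) ((isHomogeneous_X _ _).mul (isHomogeneous_X _ _))
    (mul_mem_mul (X_mem (by simp)) (X_mem (by simp)))
  have hcol : ∀ e, ∑ j, a j e * p j = 0 := by
    intro e
    apply claimL
    · exact IsHomogeneous.sum _ _ _ fun j _ => (ha1 j e).mul (hp1 j)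
    · exact Submodule.sum_mem _ fun j _ => mul_mem_left _ _ (hp2 j)
    · rw [← Ideal.Quotient.eq_zero_iff_mem]
      have := (hv _).2 ⟨Pi.single e 1, rfl⟩
      simpa [ha2, hp3] using this
  have hsum : ∑ j, (X 0 * X 3 * c j - X 2 * X 1 * d j) * p j =
      X 0 * X 3 * (X 0 * X 3) - X 2 * X 1 * (X 2 * X 1) := by
    have : ∀ j, (X 0 * X 3 * c j - X 2 * X 1 * d j) * p j =
      X 0 * X 3 * (c j * p j) - X 2 * X 1 * (d j * p j) := fun j => by ring
    simp only [this, Finset.sum_sub_distrib, ← Finset.mul_sum]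
    rw [← hc, ← hd]
  obtain ⟨w, hw⟩ := (hv fun j => Ideal.Quotient.mk J0 (X 0 * X 3 * c j - X 2 * X 1 * d j)).1 (by
    simp only [← hp3, ← map_mul, ← map_sum]
    rw [hsum, Ideal.Quotient.eq_zero_iff_mem, mem_J]
    exact ⟨-(X 3 * X 3), X 1 * X 1, by simp only [Q]; ring⟩)
  choose w' hw' using fun e => Ideal.Quotient.mk_surjective (w e)
  have h5 : ∀ j, (X 0 * X 3 * c j - X 2 * X 1 * d j) - ∑ e, a j e * w' e ∈ J0 := by
    intro j
    rw [← Ideal.Quotient.eq, ← congrFun hw j]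
    simp [Matrix.mulVec, dotProduct, ha2, hw']
  have h6 : ∑ j, ((X 0 * X 3 * c j - X 2 * X 1 * d j) - ∑ e, a j e * w' e) * p j ∈
      J0 * (P {2, 0} * P {3, 1}) := Submodule.sum_mem _ fun j _ => mul_mem_mul (h5 j) (hp2 j)
  have h7 : ∑ j, (∑ e, a j e * w' e) * p j = 0 := by
    simp only [Finset.sum_mul]
    rw [Finset.sum_comm]
    refine Finset.sum_eq_zero fun e _ => ?_
    rw [Finset.sum_congr rfl fun j _ => mul_right_comm (a j e) (w' e) (p j), ← Finset.sum_mul,
      hcol, zero_mul]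
  rw [Finset.sum_congr rfl fun j _ => sub_mul _ _ (p j), Finset.sum_sub_distrib, hsum, h7,
    sub_zero] at h6
  have h8 := coeff_zero_of _ h6
  have e1 : (X 0 * X 3 * (X 0 * X 3) : S) = monomial (Finsupp.single 0 2 + Finsupp.single 3 2) 1 := by
    rw [show (X 0 * X 3 * (X 0 * X 3) : S) = X 0 ^ 2 * X 3 ^ 2 by ring, X_pow_eq_monomial,
      X_pow_eq_monomial, monomial_mul, one_mul]
  rw [coeff_sub, e1, ← mul_assoc, coeff_mul_X'] at h8
  simp at h8

lemma prod_ne : V {2, 0} * V {3, 1} ≠ ⊥ := by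
  intro h
  have : Ideal.Quotient.mk J0 (X 0 * (X 0 * X 3)) ∈ V {2, 0} * V {3, 1} := by
    rw [map_mul, map_mul]
    exact mul_mem_left _ _ (mul_mem_mul (mem_map_of_mem _ (X_mem (by simp)))
      (mem_map_of_mem _ (X_mem (by simp))))
  rw [h, Ideal.mem_bot, Ideal.Quotient.eq_zero_iff_mem] at this
  have := claimL _ ((isHomogeneous_X _ _).mul ((isHomogeneous_X _ _).mul (isHomogeneous_X _ _)))
    (mul_mem_left _ _ (mul_mem_mul (X_mem (by simp)) (X_mem (by simp)))) this
  simp at this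

def F : Set (Ideal (S ⧸ J0)) :=
  {V ∅, V {0}, V {2, 0}, V {1, 2, 0}, V {3, 1, 2, 0}, V {1}, V {3, 1}}

lemma reg_iff {I : Ideal S} {u : S} (h : Reg I u) (f : S) : f ∈ I ↔ f * u ∈ I :=
  ⟨mul_mem_right _ _, h f⟩

lemma V_empty : V ∅ = ⊥ := by simp [V, P_empty]

lemma filt : ∀ I ∈ F, I ≠ ⊥ → ∃ I' ∈ F, I' ≤ I ∧
    (∃ x : S ⧸ J0, (∃ p : S, p.IsHomogeneous 1 ∧ Ideal.Quotient.mk J0 p = x) ∧
      I = I' ⊔ span {x}) ∧ ∃ C ∈ F, ∀ r : S ⧸ J0, r ∈ C ↔ ∀ y ∈ I, r * y ∈ I' := by
  intro I hI hne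
  simp only [F, Set.mem_insert_iff, Set.mem_singleton_iff] at hI
  rcases hI with rfl | rfl | rfl | rfl | rfl | rfl | rfl
  · exact (hne V_empty).elim
  · obtain ⟨h1, h2, h3⟩ := step ∅ 0 ∅ (reg_iff (c1 (by decide) (by decide) (by decide)
      (by decide) (by decide) (by decide)))
    exact ⟨V ∅, by simp [F], h1, h2, V ∅, by simp [F], h3⟩
  · obtain ⟨h1, h2, h3⟩ := step {0} 2 {0} (reg_iff (c2 (by decide) (by decide) (by decide)
      (by decide) (by decide) (by decide)))
    exact ⟨V {0}, by simp [F], h1, h2, V {0}, by simp [F], h3⟩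
  · obtain ⟨h1, h2, h3⟩ := step {2, 0} 1 {1, 2, 0} (c3 (by decide) (by decide) (by decide)
      (by decide) (by decide) (by decide))
    exact ⟨V {2, 0}, by simp [F], h1, h2, V {1, 2, 0}, by simp [F], h3⟩
  · obtain ⟨h1, h2, h3⟩ := step {1, 2, 0} 3 {3, 1, 2, 0} (c4 (by decide) (by decide) (by decide)
      (by decide) (by decide) (by decide))
    exact ⟨V {1, 2, 0}, by simp [F], h1, h2, V {3, 1, 2, 0}, by simp [F], h3⟩
  · obtain ⟨h1, h2, h3⟩ := step ∅ 1 ∅ (by
      rw [J0, ← J_symm]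
      exact reg_iff (c1 (by decide) (by decide) (by decide) (by decide) (by decide) (by decide)))
    exact ⟨V ∅, by simp [F], h1, h2, V ∅, by simp [F], h3⟩
  · obtain ⟨h1, h2, h3⟩ := step {1} 3 {1} (by
      rw [J0, ← J_symm]
      exact reg_iff (c2 (by decide) (by decide) (by decide) (by decide) (by decide) (by decide)))
    exact ⟨V {1}, by simp [F], h1, h2, V {1}, by simp [F], h3⟩

lemma F_lin : ∀ I ∈ F, I = span {y : S ⧸ J0 | y ∈ I ∧
    ∃ p : S, p.IsHomogeneous 1 ∧ Ideal.Quotient.mk J0 p = y} := by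
  intro I hI
  simp only [F, Set.mem_insert_iff, Set.mem_singleton_iff] at hI
  rcases hI with rfl | rfl | rfl | rfl | rfl | rfl | rfl <;> exact V_lin _

end Pool.Agent.H66.KosFil
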