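import Mathlib

set_option autoImplicit false

namespace Pool.Agent.H66.LieNil

universe u

theorem add_pow_sq_zero {R : Type*} [Ring R] {a b : R} (h : Commute a b) (hb : b * b = 0)
    (m : ℕ) : (a + b) ^ (m + 1) = a ^ (m + 1) + (m + 1) • (a ^ m * b) := by
  induction m with
  | zero => simp
  | succ m ih =>
    rw [pow_succ, ih, add_mul, mul_add, mul_add, smul_mul_assoc, smul_mul_assoc, mul_assoc _ b b,
      hb, mul_assoc _ b a, ← h.eq, ← mul_assoc, ← pow_succ, ← pow_succ, mul_zero, smul_zero,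
      add_zero, add_smul (m + 1) 1, one_smul]
    abel

variable {K : Type u} [Field K] {B : Type u} [Ring B] [Algebra K B]

def N (B : Type u) [Ring B] [Algebra K B] (a b c : K) : Matrix (Fin 4) (Fin 4) B :=
  !![0, 0, 0, 0; algebraMap K B a, 0, 0, 0; algebraMap K B b, 0, 0, 0;
    algebraMap K B c, -algebraMap K B b, algebraMap K B a, 0]

theorem N_mul (a b c a' b' c' : K) :
    N B a b c * N B a' b' c' = N B 0 0 (a * b' - b * a') := by
  ext i j
  fin_cases i <;> fin_cases j <;> simp [N, Matrix.mul_apply, Fin.sum_univ_four]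
  abel

theorem N_add (a b c a' b' c' : K) :
    N B a b c + N B a' b' c' = N B (a + a') (b + b') (c + c') := by
  ext i j
  fin_cases i <;> fin_cases j <;> simp [N]
  abel

theorem N_sub (a b c a' b' c' : K) :
    N B a b c - N B a' b' c' = N B (a - a') (b - b') (c - c') := by
  ext i j
  fin_cases i <;> fin_cases j <;> simp [N]
  abel

theorem N_smul (r a b c : K) : r • N B a b c = N B (r * a) (r * b) (r * c) := by
  ext i j
  fin_cases i <;> fin_cases j <;> simp [N, Algebra.smul_def]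

theorem N_zero : N B (0 : K) 0 0 = 0 := by
  ext i j
  fin_cases i <;> fin_cases j <;> simp [N]

theorem N_comm (U : B) (a b c : K) : Commute (Matrix.scalar (Fin 4) U) (N B a b c) := by
  refine Matrix.scalar_commute_iff.2 ?_
  ext i j
  fin_cases i <;> fin_cases j <;> simp [N, Algebra.commutes]

theorem scalar_smul (r : K) (U : B) :
    r • Matrix.scalar (Fin 4) U = Matrix.scalar (Fin 4) (r • U) := by
  ext i j
  by_cases h : i = j <;> simp [h]

def S' (S : Submodule K B) : Submodule K (Matrix (Fin 4) (Fin 4) B) where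
  carrier := {W | ∃ U ∈ S, ∃ a b c : K, W = Matrix.scalar (Fin 4) U + N B a b c}
  add_mem' := by
    rintro _ _ ⟨U, hU, a, b, c, rfl⟩ ⟨U', hU', a', b', c', rfl⟩
    refine ⟨U + U', S.add_mem hU hU', a + a', b + b', c + c', ?_⟩
    rw [map_add, ← N_add]; abel
  zero_mem' := ⟨0, S.zero_mem, 0, 0, 0, by rw [map_zero, N_zero, add_zero]⟩
  smul_mem' := by
    rintro r _ ⟨U, hU, a, b, c, rfl⟩
    exact ⟨r • U, S.smul_mem r hU, r * a, r * b, r * c, by rw [smul_add, scalar_smul, N_smul]⟩

theorem exists_rep (K : Type u) [Field K] (m : ℕ) (hK : ∀ k : ℕ, 0 < k → k ≤ m → (k : K) ≠ 0) :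
    ∃ (B : Type u) (_ : Ring B) (_ : Algebra K B) (S : Submodule K B) (x y : B),
      x ∈ S ∧ y ∈ S ∧ (∀ a ∈ S, ∀ b ∈ S, a * b - b * a ∈ S) ∧ (∀ U ∈ S, U ^ (m + 1) = 0) ∧
      x ^ m * y ^ m ≠ 0 := by
  induction m with
  | zero =>
    refine ⟨K, inferInstance, inferInstance, ⊥, 0, 0, by simp, by simp, ?_, ?_, by simp⟩
    · simp
    · simp
  | succ m ih =>
    obtain ⟨B, _, _, S, x, y, hx, hy, hS, hU, hxy⟩ := ih fun k h1 h2 => hK k h1 (by omega)
    have hNN : ∀ a b c : K, N B a b c * N B a b c = 0 := fun a b c => by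
      rw [N_mul, mul_comm a b, sub_self, N_zero]
    refine ⟨Matrix (Fin 4) (Fin 4) B, inferInstance, inferInstance, S' S,
      Matrix.scalar (Fin 4) x + N B (1 : K) 0 0, Matrix.scalar (Fin 4) y + N B (0 : K) 1 0,
      ⟨x, hx, 1, 0, 0, rfl⟩, ⟨y, hy, 0, 1, 0, rfl⟩, ?_, ?_, ?_⟩
    · rintro _ ⟨U, hU, a, b, c, rfl⟩ _ ⟨U', hU', a', b', c', rfl⟩
      refine ⟨U * U' - U' * U, hS U hU U' hU', 0 - 0, 0 - 0, (a * b' - b * a') - (a' * b - b' * a),
        ?_⟩
      rw [← N_sub, ← N_mul a b c a' b' c', ← N_mul a' b' c' a b c, map_sub, map_mul, map_mul]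
      simp only [add_mul, mul_add, (N_comm U a' b' c').eq, (N_comm U' a b c).eq]
      abel
    · rintro _ ⟨U, hU', a, b, c, rfl⟩
      rw [add_pow_sq_zero (N_comm U a b c) (hNN a b c), ← map_pow, ← map_pow, pow_succ U, hU U hU']
      simp
    · rw [add_pow_sq_zero (N_comm x 1 0 0) (hNN 1 0 0), add_pow_sq_zero (N_comm y 0 1 0) (hNN 0 1 0),
        ← map_pow, ← map_pow, ← map_pow, ← map_pow, hU x hx, hU y hy, map_zero, zero_add, zero_add,
        smul_mul_smul_comm, mul_assoc, ← mul_assoc (N B (1 : K) 0 0), ← (N_comm _ 1 0 0).eq,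
        mul_assoc, N_mul, ← mul_assoc, ← map_mul]
      intro h
      have h1 := congrFun (congrFun h 3) 0
      simp only [Matrix.smul_apply, Matrix.scalar_apply, Matrix.diagonal_mul, N] at h1
      simp only [Matrix.of_apply, Matrix.cons_val, Matrix.zero_apply] at h1
      rw [← Nat.cast_smul_eq_nsmul K] at h1
      have h2 : (((m + 1) * (m + 1) : ℕ) : K) ≠ 0 := by
        rw [Nat.cast_mul]
        exact mul_ne_zero (hK _ (by omega) le_rfl) (hK _ (by omega) le_rfl)
      rw [smul_eq_zero_iff_right h2] at h1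
      simp at h1
      exact hxy h1

end Pool.Agent.H66.LieNil
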