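import Mathlib

namespace Pool.Agent.H66.LieVar

open Polynomial

variable {F : Type} [Field F] [CharZero F]

section poly
variable {A : Type} [AddCommGroup A] [Module F A]

def IsP (E : F → A) : Prop := ∀ φ : A →ₗ[F] F, ∃ p : F[X], ∀ s, φ (E s) = p.eval s

omit [CharZero F] in
theorem IsP.const (v : A) : IsP (fun _ : F => v) := fun φ => ⟨C (φ v), fun s => by simp⟩

omit [CharZero F] in
theorem IsP.add {E E' : F → A} (h : IsP E) (h' : IsP E') : IsP (fun s => E s + E' s) := fun φ => by
  obtain ⟨p, hp⟩ := h φ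
  obtain ⟨q, hq⟩ := h' φ
  exact ⟨p + q, fun s => by simp [hp, hq]⟩

omit [CharZero F] in
theorem IsP.lin {E : F → A} (h : IsP E) (T : A →ₗ[F] A) : IsP (fun s => T (E s)) := fun φ => by
  obtain ⟨p, hp⟩ := h (φ ∘ₗ T)
  exact ⟨p, fun s => by simpa using hp s⟩

omit [CharZero F] in
theorem IsP.sm {E : F → A} (h : IsP E) : IsP (fun s => s • E s) := fun φ => by
  obtain ⟨p, hp⟩ := h φ
  exact ⟨X * p, fun s => by simp [hp]⟩

omit [CharZero F] in
theorem IsP.csm {E : F → A} (h : IsP E) (c : F) : IsP (fun s => c • E s) := fun φ => by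
  obtain ⟨p, hp⟩ := h φ
  exact ⟨C c * p, fun s => by simp [hp]⟩

omit [CharZero F] in
theorem IsP.sum {ι : Type} (t : Finset ι) {E : ι → F → A} (h : ∀ i ∈ t, IsP (E i)) :
    IsP (fun s => ∑ i ∈ t, E i s) := fun φ => by
  choose! p hp using fun i hi => h i hi φ
  exact ⟨∑ i ∈ t, p i, fun s => by
    rw [map_sum, eval_finset_sum]; exact Finset.sum_congr rfl fun i hi => hp i hi s⟩

theorem IsP.zero_of {R : F → A} (h : IsP R) {v : A} (hv : ∀ s : F, s ≠ 0 → v + s • R s = 0) :
    v = 0 := by
  rw [← Module.forall_dual_apply_eq_zero_iff F]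
  intro φ
  obtain ⟨p, hp⟩ := h φ
  have hz : C (φ v) + X * p = 0 := by
    apply Polynomial.eq_zero_of_infinite_isRoot
    refine Set.Infinite.mono (s := {0}ᶜ) ?_ (Set.Finite.infinite_compl (Set.finite_singleton _))
    intro s hs
    have := congrArg φ (hv s hs)
    simpa [hp] using this
  have := congrArg (fun q => q.coeff 0) hz
  simpa using this

/-- symmetric multilinear function on lists -/
def Good (F : Type) [Field F] {A M : Type} [AddCommGroup A] [Module F A] [AddCommGroup M]
    [Module F M] (Φ : List A → M) : Prop :=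
  (∀ l l', l.Perm l' → Φ l = Φ l') ∧ ∀ l x z (s : F), Φ ((x + s • z) :: l) = Φ (x :: l) + s • Φ (z :: l)

variable {M : Type} [AddCommGroup M] [Module F M]

omit [CharZero F] in
theorem Good.cons {Φ : List A → M} (h : Good F Φ) (y : A) : Good F (fun l => Φ (y :: l)) := by
  refine ⟨fun l l' hl => h.1 _ _ (hl.cons y), fun l x z s => ?_⟩
  show Φ (y :: (x + s • z) :: l) = Φ (y :: x :: l) + s • Φ (y :: z :: l)
  rw [h.1 _ _ (List.Perm.swap _ _ _), h.2, h.1 _ _ (List.Perm.swap y x l),
    h.1 _ _ (List.Perm.swap y z l)]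

omit [CharZero F] in
theorem Good.expand (x z : A) (q : ℕ) : ∀ {Φ : List A → M}, Good F Φ →
    ∃ R : F → M, IsP R ∧ ∀ s : F, Φ (List.replicate q (x + s • z)) =
      Φ (List.replicate q x) + s • ((q : F) • Φ (z :: List.replicate (q - 1) x) + s • R s) := by
  induction q with
  | zero => intro Φ _; exact ⟨fun _ => 0, IsP.const _, fun s => by simp⟩
  | succ q ih =>
    intro Φ h
    obtain ⟨R1, h1, e1⟩ := ih (h.cons x)
    obtain ⟨R2, h2, e2⟩ := ih (h.cons z)
    refine ⟨fun s => R1 s + ((q : F) • Φ (z :: z :: List.replicate (q - 1) x) + s • R2 s),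
      h1.add ((IsP.const _).add h2.sm), fun s => ?_⟩
    have e3 : (q : F) • Φ (x :: z :: List.replicate (q - 1) x) =
        (q : F) • Φ (z :: List.replicate q x) := by
      rcases q with _ | q
      · simp
      · rw [h.1 _ _ (List.Perm.swap _ _ _)]; simp [List.replicate_succ]
    have e1' := e1 s
    have e2' := e2 s
    rw [List.replicate_succ, h.2, e1', e2', e3]
    simp only [List.replicate_succ, Nat.add_sub_cancel, Nat.cast_succ]
    module

theorem Good.polar (q : ℕ) : ∀ {Φ : List A → M}, Good F Φ →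
    (∀ x, Φ (List.replicate q x) = 0) → ∀ l : List A, l.length = q → Φ l = 0 := by
  induction q with
  | zero =>
    intro Φ _ h0 l hl
    have := h0 0
    rw [List.length_eq_zero_iff] at hl
    simpa [hl] using this
  | succ q ih =>
    intro Φ h h0 l hl
    obtain ⟨z, l, rfl⟩ := List.exists_cons_of_length_eq_add_one hl
    refine ih (h.cons z) (fun x => ?_) l (by simpa using hl)
    obtain ⟨R, hR, e⟩ := Good.expand x z (q + 1) h
    have := hR.zero_of (v := ((q + 1 : ℕ) : F) • Φ (z :: List.replicate (q + 1 - 1) x))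
      (fun s hs => by
        have := e s
        rw [h0, h0, zero_add] at this
        exact (smul_eq_zero.1 this.symm).resolve_left hs)
    have h1 : ((q + 1 : ℕ) : F) ≠ 0 := Nat.cast_ne_zero.2 (Nat.succ_ne_zero q)
    simpa using (smul_eq_zero.1 this).resolve_left h1

end poly

section met
variable {B : Type} [LieRing B] [LieAlgebra F B]

def Met (B : Type) [LieRing B] : Prop := ∀ a b c d : B, ⁅⁅a, b⁆, ⁅c, d⁆⁆ = 0

def In (u : B) : Prop := ∀ c d : B, ⁅u, ⁅c, d⁆⁆ = 0

def act (l : List B) (u : B) : B := l.foldr (fun z v => ⁅v, z⁆) u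

@[simp] theorem act_nil (u : B) : act [] u = u := rfl
@[simp] theorem act_cons (z : B) (l : List B) (u : B) : act (z :: l) u = ⁅act l u, z⁆ := rfl
theorem act_concat (z : B) (l : List B) (u : B) : act (l ++ [z]) u = act l ⁅u, z⁆ := by
  simp [act, List.foldr_append]

theorem act_add (l : List B) (u v : B) : act l (u + v) = act l u + act l v := by
  induction l with
  | nil => rfl
  | cons z l ih => simp [ih]

omit [CharZero F] in
theorem act_smul (l : List B) (s : F) (u : B) : act l (s • u) = s • act l u := by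
  induction l with
  | nil => rfl
  | cons z l ih => simp [ih]

theorem act_neg (l : List B) (u : B) : act l (-u) = - act l u := by
  induction l with
  | nil => rfl
  | cons z l ih => simp [ih]

theorem act_sub (l : List B) (u v : B) : act l (u - v) = act l u - act l v := by
  rw [sub_eq_add_neg, act_add, act_neg, sub_eq_add_neg]

theorem In.comm {u : B} (h : In u) (x y : B) : ⁅⁅u, x⁆, y⁆ = ⁅⁅u, y⁆, x⁆ := by
  have h1 := h x y
  rw [leibniz_lie, ← lie_skew x ⁅u, y⁆] at h1
  exact (add_neg_eq_zero.1 h1)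

theorem act_in (hB : Met B) {u : B} (h : In u) (l : List B) : In (act l u) := by
  rcases l with _ | ⟨z, l⟩
  · exact h
  · exact fun c d => hB _ _ c d

theorem act_br (hB : Met B) {u : B} (h : In u) (l : List B) (z : B) :
    act l ⁅u, z⁆ = ⁅act l u, z⁆ := by
  induction l with
  | nil => rfl
  | cons y l ih => simp only [act_cons, ih]; exact (act_in hB h l).comm _ _

theorem act_perm (hB : Met B) {u : B} (h : In u) {l l' : List B} (p : l.Perm l') :
    act l u = act l' u := by
  induction p with
  | nil => rfl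
  | cons x _ ih => simp [ih]
  | swap x y l => simp only [act_cons]; exact (act_in hB h l).comm _ _
  | trans _ _ ih1 ih2 => exact ih1.trans ih2

def th (y : B) : List B → B
  | [] => 0
  | j :: l => act l ⁅y, j⁆ + ⁅th y l, j⁆

theorem th_in (hB : Met B) (y : B) (l : List B) : In (th y l) := by
  rcases l with _ | ⟨z, l⟩
  · intro c d; simp [th]
  · intro c d
    simp only [th, add_lie]
    rw [act_in hB (fun c d => hB y z c d) l c d, hB]; simp

theorem th_perm (hB : Met B) (y : B) {l l' : List B} (p : l.Perm l') : th y l = th y l' := by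
  induction p with
  | nil => rfl
  | cons x p ih => simp only [th, ih]; rw [act_perm hB (fun c d => hB y x c d) p]
  | swap x z l =>
    simp only [th, act_cons, add_lie]
    rw [(th_in hB y l).comm x z]; abel
  | trans _ _ ih1 ih2 => exact ih1.trans ih2

omit [CharZero F] in
theorem th_good (hB : Met B) (y : B) : Good F (th y) := by
  refine ⟨fun l l' p => th_perm hB y p, fun l x z s => ?_⟩
  simp only [th, lie_add, lie_smul, act_add, act_smul, smul_add]; abel

omit [CharZero F] in
theorem euler0 (hB : Met B) (a c : B) (l : List B) :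
    ⁅th a l, c⁆ - ⁅th c l, a⁆ = (l.length : F) • act l ⁅a, c⁆ := by
  induction l with
  | nil => simp [th]
  | cons j l ih =>
    have j1 : ⁅⁅a, j⁆, c⁆ - ⁅⁅c, j⁆, a⁆ = ⁅⁅a, c⁆, j⁆ := by
      have h1 : ⁅⁅a, c⁆, j⁆ = ⁅a, ⁅c, j⁆⁆ - ⁅c, ⁅a, j⁆⁆ := lie_lie a c j
      rw [h1, ← lie_skew ⁅a, j⁆ c, ← lie_skew ⁅c, j⁆ a]; abel
    have e1 : ⁅act l ⁅a, j⁆, c⁆ - ⁅act l ⁅c, j⁆, a⁆ = ⁅act l ⁅a, c⁆, j⁆ := by
      rw [← act_br hB (fun c d => hB _ _ c d), ← act_br hB (fun c d => hB _ _ c d),
        ← act_br hB (fun c d => hB _ _ c d), ← act_sub, j1]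
    have e2 : ⁅⁅th a l, j⁆, c⁆ - ⁅⁅th c l, j⁆, a⁆ = (l.length : F) • ⁅act l ⁅a, c⁆, j⁆ := by
      rw [(th_in hB a l).comm j c, (th_in hB c l).comm j a, ← sub_lie, ih, smul_lie]
    simp only [th, add_lie, act_cons, List.length_cons, Nat.cast_succ, add_smul, one_smul]
    rw [← e2, ← e1]; abel

omit [CharZero F] in
theorem euler (hB : Met B) (a c : B) (l : List B) :
    th a (c :: l) - th c (a :: l) = ((l.length + 2 : ℕ) : F) • act l ⁅a, c⁆ := by
  have := euler0 (F := F) hB a c l
  simp only [th]
  rw [← lie_skew c a, act_neg]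
  push_cast
  rw [add_smul, ← this, two_smul]; abel

omit [CharZero F] in
theorem th_rep (hB : Met B) (y x : B) (m : ℕ) :
    th y (List.replicate (m + 1) x) = ((m + 1 : ℕ) : F) • act (List.replicate m x) ⁅y, x⁆ := by
  induction m with
  | zero => simp [th]
  | succ m ih =>
    rw [List.replicate_succ, th, ih, List.replicate_succ, act_cons, smul_lie]
    push_cast
    module

def PN (B : Type) [LieRing B] (k : ℕ) : Prop := ∀ (y : B) (l : List B), l.length = k → act l y = 0

theorem PN.le {k : ℕ} (h : PN B k) (y : B) (l : List B) (hl : k ≤ l.length) : act l y = 0 := by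
  induction l with
  | nil => exact h y [] (by simpa using (Nat.le_zero.1 hl).symm)
  | cons z l ih =>
    rcases hl.eq_or_lt with e | e
    · exact h y _ e.symm
    · rw [act_cons, ih (by simpa [Nat.lt_succ_iff] using e)]; simp

include F in
theorem engel (hB : Met B) (m : ℕ) (h : ¬ PN B (m + 1)) :
    ∃ x y : B, act (List.replicate m x) ⁅y, x⁆ ≠ 0 := by
  by_contra hc
  push Not at hc
  apply h
  have h1 : ∀ y (l : List B), l.length = m + 1 → th y l = 0 := fun y =>
    Good.polar (F := F) (m + 1) (th_good hB y) (fun x => by rw [th_rep (F := F) hB, hc, smul_zero])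
  intro y l hl
  obtain ⟨l, c, rfl⟩ := (List.eq_nil_or_concat l).resolve_left (by rintro rfl; simp at hl)
  have hl' : l.length = m := by simpa using hl
  rw [List.concat_eq_append, act_concat]
  have := euler (F := F) hB y c l
  rw [h1 _ _ (by simp [hl']), h1 _ _ (by simp [hl']), sub_zero] at this
  exact (smul_eq_zero.1 this.symm).resolve_left (Nat.cast_ne_zero.2 (by omega))

end met

end Pool.Agent.H66.LieVar
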