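import Pool.Agent.H66.LieVarDefs
import Pool.Agent.H66.LieVar1

namespace Pool.Agent.H66.LieVar

variable {F : Type} [Field F] [CharZero F]

abbrev W : Type := ℕ ⊕ (ℕ × ℕ × List ℕ)

def deg : W → ℕ
  | .inl _ => 1
  | .inr (_, _, l) => l.length + 2

def ev {B : Type} [LieRing B] (b : ℕ → B) : W → B
  | .inl i => b i
  | .inr (a, c, l) => act (l.map b) ⁅b a, b c⁆

section
variable {B : Type} [LieRing B] [LieAlgebra F B]

omit [CharZero F] in
theorem map_act {B' : Type} [LieRing B'] [LieAlgebra F B'] (g : B →ₗ⁅F⁆ B') (l : List B) (u : B) :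
    g (act l u) = act (l.map g) (g u) := by
  induction l with
  | nil => rfl
  | cons z l ih => simp [ih]

omit [CharZero F] in
theorem lift_ev (b : ℕ → B) (w : W) :
    FreeLieAlgebra.lift F b (ev (FreeLieAlgebra.of F) w) = ev b w := by
  rcases w with i | ⟨a, c, l⟩
  · simp [ev]
  · simp only [ev, map_act, List.map_map, LieHom.map_lie, FreeLieAlgebra.lift_of_apply]
    congr 2
    funext i; simp

def Mn (F : Type) [Field F] {B : Type} [LieRing B] [LieAlgebra F B] (b : ℕ → B) (n : ℕ) :
    Submodule F B := Submodule.span F (ev b '' {w | deg w = n})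

omit [CharZero F] in
theorem Mn_gen (b : ℕ → B) {n : ℕ} {u : B} (hu : u ∈ Mn F b n) (j : ℕ) :
    ⁅u, b j⁆ ∈ Mn F b (n + 1) := by
  induction hu using Submodule.span_induction with
  | mem x hx =>
    obtain ⟨w, hw, rfl⟩ := hx
    apply Submodule.subset_span
    rcases w with i | ⟨a, c, l⟩
    · exact ⟨.inr (i, j, []), by simp [deg] at hw ⊢; omega, rfl⟩
    · exact ⟨.inr (a, c, j :: l), by simp [deg] at hw ⊢; omega, rfl⟩
  | zero => simp
  | add x y _ _ hx hy => rw [add_lie]; exact add_mem hx hy
  | smul s x _ hx => rw [smul_lie]; exact Submodule.smul_mem _ _ hx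

omit [CharZero F] in
theorem Mn_act (b : ℕ → B) (a : ℕ) (l : List ℕ) : ∀ {n : ℕ} {u : B}, u ∈ Mn F b n →
    ⁅u, act (l.map b) (b a)⁆ ∈ Mn F b (n + (l.length + 1)) := by
  induction l with
  | nil => intro n u hu; exact Mn_gen b hu a
  | cons j l ih =>
    intro n u hu
    simp only [List.map_cons, act_cons, List.length_cons]
    rw [leibniz_lie, ← lie_skew _ ⁅u, b j⁆]
    refine add_mem (Mn_gen b (ih hu) j) (neg_mem ?_)
    have := ih (Mn_gen b hu j)
    rwa [show n + 1 + (l.length + 1) = n + (l.length + 1 + 1) by omega] at this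

theorem ev_eq (b : ℕ → B) (w : W) : ∃ a l, ev b w = act (List.map b l) (b a) ∧
    l.length + 1 = deg w := by
  rcases w with i | ⟨a, c, l⟩
  · exact ⟨i, [], rfl, rfl⟩
  · exact ⟨a, l ++ [c], by simp [ev, act_concat], by simp [deg]⟩

omit [CharZero F] in
theorem Mn_lie (b : ℕ → B) {n m : ℕ} {u v : B} (hu : u ∈ Mn F b n) (hv : v ∈ Mn F b m) :
    ⁅u, v⁆ ∈ Mn F b (n + m) := by
  induction hv using Submodule.span_induction with
  | mem x hx =>
    obtain ⟨w, hw, rfl⟩ := hx
    obtain ⟨a, l, e, hl⟩ := ev_eq b w
    rw [e, ← (show deg w = m from hw), ← hl]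
    exact Mn_act b a l hu
  | zero => simp
  | add x y _ _ hx hy => rw [lie_add]; exact add_mem hx hy
  | smul s x _ hx => rw [lie_smul]; exact Submodule.smul_mem _ _ hx

end

omit [CharZero F] in
theorem mono_mem (w : FreeMagma ℕ) : mono F w ∈ Mn F (FreeLieAlgebra.of F) w.length := by
  induction w with
  | ih1 n => exact Submodule.subset_span ⟨.inl n, rfl, rfl⟩
  | ih2 u v hu hv => exact Mn_lie _ hu hv

omit [CharZero F] in
theorem rep_deg {d : ℕ} {f : L F} (h : DegLE F d f) : ∃ c : W →₀ F,
    (∀ w ∈ c.support, deg w ≤ d) ∧ f = Finsupp.linearCombination F (ev (FreeLieAlgebra.of F)) c := by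
  have : f ∈ Submodule.span F (ev (FreeLieAlgebra.of F : ℕ → L F) '' {w | deg w ≤ d}) := by
    refine Submodule.span_le.2 ?_ h
    rintro g ⟨w, hw, rfl⟩
    refine Submodule.span_mono (Set.image_mono ?_) (mono_mem w)
    intro x hx
    exact le_trans (le_of_eq hx) hw
  rw [Finsupp.mem_span_image_iff_linearCombination] at this
  obtain ⟨c, hc, e⟩ := this
  exact ⟨c, fun w hw => (Finsupp.mem_supported F c).1 hc hw, e.symm⟩

omit [CharZero F] in
theorem rep_all (f : L F) : ∃ c : W →₀ F,
    f = Finsupp.linearCombination F (ev (FreeLieAlgebra.of F)) c := by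
  let S : Submodule F (L F) := Submodule.span F (Set.range (ev (FreeLieAlgebra.of F : ℕ → L F)))
  have hle : ∀ n, Mn F (FreeLieAlgebra.of F : ℕ → L F) n ≤ S := fun n =>
    Submodule.span_mono (Set.image_subset_range _ _)
  let K : LieSubalgebra F (L F) :=
    { S with
      lie_mem' := by
        intro u v hu hv
        change u ∈ S at hu
        change v ∈ S at hv
        change ⁅u, v⁆ ∈ S
        induction hu using Submodule.span_induction with
        | mem x hx =>
          obtain ⟨w, rfl⟩ := hx
          induction hv using Submodule.span_induction with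
          | mem y hy =>
            obtain ⟨w', rfl⟩ := hy
            exact hle _ (Mn_lie _ (Submodule.subset_span ⟨w, rfl, rfl⟩)
              (Submodule.subset_span ⟨w', rfl, rfl⟩))
          | zero => simp
          | add x y _ _ hx hy => rw [lie_add]; exact add_mem hx hy
          | smul s x _ hx => rw [lie_smul]; exact Submodule.smul_mem _ _ hx
        | zero => simp
        | add x y _ _ hx hy => rw [add_lie]; exact add_mem hx hy
        | smul s x _ hx => rw [smul_lie]; exact Submodule.smul_mem _ _ hx }
  let g : ℕ → K := fun i => ⟨FreeLieAlgebra.of F i, Submodule.subset_span ⟨.inl i, rfl⟩⟩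
  have e : K.incl.comp (FreeLieAlgebra.lift F g) = LieHom.id :=
    FreeLieAlgebra.hom_ext fun i => by simp [g]
  have hf : f ∈ S := by
    have := congrArg (fun φ : L F →ₗ⁅F⁆ L F => φ f) e
    simp only [LieHom.comp_apply, LieHom.id_apply] at this
    rw [← this]
    exact (FreeLieAlgebra.lift F g f).2
  obtain ⟨c, hc⟩ := (Finsupp.mem_span_range_iff_exists_finsupp).1 hf
  exact ⟨c, by rw [← hc, Finsupp.linearCombination_apply]⟩

section
variable {B : Type} [LieRing B] [LieAlgebra F B]

omit [CharZero F] in
theorem lift_lc (b : ℕ → B) (c : W →₀ F) :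
    FreeLieAlgebra.lift F b (Finsupp.linearCombination F (ev (FreeLieAlgebra.of F)) c) =
      ∑ w ∈ c.support, c w • ev b w := by
  rw [Finsupp.linearCombination_apply, Finsupp.sum, map_sum]
  exact Finset.sum_congr rfl fun w _ => by rw [map_smul, lift_ev]

omit [CharZero F] in
theorem ev_smul (b : ℕ → B) (s : F) (w : W) : ev (fun i => s • b i) w = s ^ deg w • ev b w := by
  rcases w with i | ⟨a, c, l⟩
  · simp [ev, deg]
  · simp only [ev, deg]
    induction l with
    | nil => simp [smul_smul, pow_two]
    | cons j l ih =>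
      rw [List.map_cons, act_cons, ih, List.map_cons, act_cons, List.length_cons, lie_smul,
        smul_lie, smul_smul]
      congr 1; ring

open Polynomial in
theorem homog {t : Finset W} {c : W → F} (h : ∀ b : ℕ → B, ∑ w ∈ t, c w • ev b w = 0) (n : ℕ)
    (b : ℕ → B) : ∑ w ∈ t.filter (fun w => deg w = n), c w • ev b w = 0 := by
  rw [← Module.forall_dual_apply_eq_zero_iff F]
  intro φ
  have hz : ∑ w ∈ t, C (c w * φ (ev b w)) * X ^ deg w = 0 := by
    apply Polynomial.funext
    intro s
    have := congrArg φ (h (fun i => s • b i))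
    simp only [ev_smul, map_sum, map_smul, map_zero, smul_eq_mul] at this
    simp only [eval_finsetSum, eval_mul, eval_C, eval_pow, eval_X, eval_zero]
    rw [← this]
    exact Finset.sum_congr rfl fun w _ => by ring
  have := congrArg (fun q => q.coeff n) hz
  simp only [finsetSum_coeff, coeff_C_mul, coeff_X_pow, coeff_zero] at this
  rw [map_sum, Finset.sum_filter]
  refine Eq.trans (Finset.sum_congr rfl fun w _ => ?_) this
  by_cases hw : deg w = n
  · simp [hw]
  · simp [hw, Ne.symm hw]

end

noncomputable def pr (F : Type) [Field F] (l : List ℕ) : MvPolynomial ℕ F :=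
  (l.map MvPolynomial.X).prod

noncomputable def D (F : Type) [Field F] : W → (ℕ →₀ MvPolynomial ℕ F)
  | .inl _ => 0
  | .inr (a, c, l) => Finsupp.single a (pr F (c :: l)) - Finsupp.single c (pr F (a :: l))

section
variable {A : Type} [LieRing A] [LieAlgebra F A]

omit [CharZero F] in
theorem act_expand (x y : A) (t e : ℕ → F) (u : A) (l : List ℕ) : ∃ R : F → A, IsP R ∧ ∀ s : F,
    act (l.map fun j => t j • x + (s * e j) • y) u =
      (l.map t).prod • act (List.replicate l.length x) u + s • R s := by
  induction l with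
  | nil => exact ⟨fun _ => 0, IsP.const _, fun s => by simp⟩
  | cons j l ih =>
    obtain ⟨R, hR, h⟩ := ih
    refine ⟨fun s => t j • (- LieAlgebra.ad F A x) (R s) +
      (e j • ⁅(l.map t).prod • act (List.replicate l.length x) u, y⁆ +
        s • e j • (- LieAlgebra.ad F A y) (R s)),
      ((hR.lin _).csm _).add ((IsP.const _).add ((hR.lin _).csm _).sm), fun s => ?_⟩
    simp only [List.map_cons, act_cons, h, List.prod_cons, List.length_cons, List.replicate_succ,
      LinearMap.neg_apply, LieAlgebra.ad_apply, lie_skew, add_lie, lie_add, smul_lie, lie_smul]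
    module

theorem D_zero {t : Finset W} {c : W → F} {m : ℕ} (ht : ∀ w ∈ t, deg w = m + 2)
    (h : ∀ b : ℕ → A, ∑ w ∈ t, c w • ev b w = 0) {x y : A}
    (hxy : act (List.replicate m x) ⁅y, x⁆ ≠ 0) : ∑ w ∈ t, c w • D F w = 0 := by
  classical
  ext1 i
  apply MvPolynomial.funext
  intro τ
  let e : ℕ → F := fun j => if j = i then 1 else 0
  have key : ∀ w ∈ t, ∃ R : F → A, IsP R ∧ ∀ s : F,
      ev (fun j => τ j • x + (s * e j) • y) w =
        s • (MvPolynomial.eval τ (D F w i) • act (List.replicate m x) ⁅y, x⁆ + s • R s) := by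
    intro w hw
    have hd := ht w hw
    rcases w with j | ⟨a, c, l⟩
    · simp [deg] at hd
    · have hl : l.length = m := by simpa [deg] using hd
      obtain ⟨R, hR, hh⟩ := act_expand x y τ e ⁅y, x⁆ l
      refine ⟨fun s => (e a * τ c - e c * τ a) • R s, hR.csm _, fun s => ?_⟩
      have e1 : ⁅τ a • x + (s * e a) • y, τ c • x + (s * e c) • y⁆ =
          (s * (e a * τ c - e c * τ a)) • ⁅y, x⁆ := by
        simp only [add_lie, lie_add, smul_lie, lie_smul, lie_self, smul_zero]
        rw [← lie_skew x y]; module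
      have e2 : MvPolynomial.eval τ (D F (.inr (a, c, l)) i) =
          (e a * τ c - e c * τ a) * (l.map τ).prod := by
        have e3 : ∀ l : List ℕ, MvPolynomial.eval τ (pr F l) = (l.map τ).prod := by
          intro l; simp only [pr, map_list_prod, List.map_map]; congr 2; funext j; simp
        simp only [D, Finsupp.coe_sub, Pi.sub_apply, Finsupp.single_apply, map_sub, e]
        split_ifs <;> simp [e3] <;> ring
      simp only [ev]
      rw [e1, act_smul, hh, e2, hl]; module
  choose! R hR hE using key
  have := (IsP.sum t (fun w hw => (hR w hw).csm (c w))).zero_of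
    (v := (∑ w ∈ t, c w * MvPolynomial.eval τ (D F w i)) • act (List.replicate m x) ⁅y, x⁆)
    (fun s hs => by
      have h1 := h (fun j => τ j • x + (s * e j) • y)
      rw [Finset.sum_congr rfl (fun w hw => by rw [hE w hw s, smul_comm])] at h1
      rw [← Finset.smul_sum] at h1
      have h2 := (smul_eq_zero.1 h1).resolve_left hs
      rw [← h2, Finset.sum_smul, Finset.smul_sum, ← Finset.sum_add_distrib]
      exact Finset.sum_congr rfl fun w _ => by module)
  have h3 := (smul_eq_zero.1 this).resolve_right hxy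
  rw [Finsupp.finsetSum_apply, map_sum]
  simpa [MvPolynomial.smul_eval] using h3

end

section
variable {B : Type} [LieRing B] [LieAlgebra F B]

noncomputable def psi (F : Type) [Field F] {B : Type} [LieRing B] [LieAlgebra F B] (b : ℕ → B)
    (i : ℕ) : MvPolynomial ℕ F →ₗ[F] B :=
  (MvPolynomial.basisMonomials ℕ F).constr F
    (fun m => th (b i) ((Finsupp.toMultiset m).toList.map b))

omit [CharZero F] in
theorem psi_pr (hB : Met B) (b : ℕ → B) (i : ℕ) (l : List ℕ) :
    psi F b i (pr F l) = th (b i) (l.map b) := by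
  have e : pr F l = MvPolynomial.basisMonomials ℕ F (Multiset.toFinsupp (l : Multiset ℕ)) := by
    rw [MvPolynomial.coe_basisMonomials]
    induction l with
    | nil => simp [pr]
    | cons j l ih =>
      simp only [pr, List.map_cons, List.prod_cons] at ih ⊢
      rw [ih, ← Multiset.cons_coe, ← Multiset.singleton_add, map_add, Multiset.toFinsupp_singleton,
        MvPolynomial.X, MvPolynomial.monomial_mul, one_mul]
  rw [e, psi, Module.Basis.constr_basis]
  apply th_perm hB
  apply List.Perm.map
  rw [Multiset.toFinsupp_toMultiset]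
  exact Multiset.coe_eq_coe.1 (Multiset.coe_toList _)

theorem D_faith (hB : Met B) {t : Finset W} {c : W → F} {m : ℕ} (ht : ∀ w ∈ t, deg w = m + 2)
    (h : ∑ w ∈ t, c w • D F w = 0) (b : ℕ → B) : ∑ w ∈ t, c w • ev b w = 0 := by
  have := congrArg (Finsupp.lsum F (psi F b)) h
  rw [map_sum, map_zero] at this
  have e : ∀ w ∈ t, Finsupp.lsum F (psi F b) (c w • D F w) = ((m + 2 : ℕ) : F) • c w • ev b w := by
    intro w hw
    have hd := ht w hw
    rcases w with j | ⟨a, c', l⟩
    · simp [deg] at hd
    · have hl : l.length = m := by simpa [deg] using hd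
      rw [map_smul, smul_comm]
      congr 1
      simp only [D, map_sub, Finsupp.lsum_single, psi_pr hB, List.map_cons, ev]
      rw [euler (F := F) hB, List.length_map, hl]
  rw [Finset.sum_congr rfl e, ← Finset.smul_sum] at this
  exact (smul_eq_zero.1 this).resolve_left (Nat.cast_ne_zero.2 (by omega))

end

/-- Key transfer: components of degree `≤ k + 1` of an identity of a metabelian algebra with
a nonzero product of length `k + 1` vanish on every metabelian algebra. -/
theorem key {A B : Type} [LieRing A] [LieAlgebra F A] [LieRing B] [LieAlgebra F B]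
    (hA : Met A) (hB : Met B) {k : ℕ} (hk : ¬ PN A k) {t : Finset W} {c : W → F}
    (h : ∀ a : ℕ → A, ∑ w ∈ t, c w • ev a w = 0) (b : ℕ → B)
    (hb : ∀ w ∈ t, k + 1 < deg w → ev b w = 0) : ∑ w ∈ t, c w • ev b w = 0 := by
  classical
  rw [← Finset.sum_fiberwise_of_maps_to (g := deg) (t := t.image deg)
    (fun w hw => Finset.mem_image_of_mem _ hw)]
  refine Finset.sum_eq_zero fun n _ => ?_
  by_cases hn : k + 1 < n
  · refine Finset.sum_eq_zero fun w hw => ?_
    rw [Finset.mem_filter] at hw
    rw [hb w hw.1 (hw.2 ▸ hn), smul_zero]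
  have h1 := homog h n
  have hn' : ¬ PN A (n - 1) := fun hp => hk fun y l hl => hp.le y l (by omega)
  rcases n with _ | _ | m
  · refine Finset.sum_eq_zero fun w hw => ?_
    rw [Finset.mem_filter] at hw
    rcases w with j | ⟨a, c', l⟩ <;> simp [deg] at hw
  · obtain ⟨y, hy⟩ : ∃ y : A, y ≠ 0 := by
      by_contra hc
      push Not at hc
      exact hn' fun y l _ => hc _
    refine Finset.sum_eq_zero fun w hw => ?_
    have hw' := (Finset.mem_filter.1 hw).2
    rcases w with j | ⟨a, c', l⟩
    · have h2 := h1 (fun i => if i = j then y else 0)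
      rw [Finset.sum_eq_single_of_mem _ hw] at h2
      · simp only [ev, if_true] at h2
        rw [(smul_eq_zero.1 h2).resolve_right hy, zero_smul]
      · intro w' hw' hne
        have hw'' := (Finset.mem_filter.1 hw').2
        rcases w' with j' | ⟨a, c', l⟩
        · have : j' ≠ j := fun e => hne (by rw [e])
          simp [ev, this]
        · simp [deg] at hw''
    · simp [deg] at hw'
  · obtain ⟨x, y, hxy⟩ := engel (F := F) hA m hn'
    have ht : ∀ w ∈ t.filter (fun w => deg w = m + 1 + 1), deg w = m + 2 :=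
      fun w hw => (Finset.mem_filter.1 hw).2
    exact D_faith hB ht (D_zero ht h1 hxy) b

end Pool.Agent.H66.LieVar
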