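import Pool.Agent.H66.LieVar2

namespace Pool.Agent.H66.LieVar

variable {F : Type} [Field F]

/-- `F ⋉ (ℕ → F)` with the generator acting by `T`. -/
def SD (_T : (ℕ → F) →ₗ[F] (ℕ → F)) : Type := F × (ℕ → F)

variable (T : (ℕ → F) →ₗ[F] (ℕ → F))

instance : AddCommGroup (SD T) := inferInstanceAs (AddCommGroup (F × (ℕ → F)))
instance : Module F (SD T) := inferInstanceAs (Module F (F × (ℕ → F)))

def SD.br (u v : F × (ℕ → F)) : F × (ℕ → F) := (0, v.1 • T u.2 - u.1 • T v.2)

instance : LieRing (SD T) where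
  bracket u v := SD.br T u v
  add_lie := fun (x y z : F × (ℕ → F)) => by
    change SD.br T (x + y) z = SD.br T x z + SD.br T y z
    ext1 <;> simp [SD.br]; module
  lie_add := fun (x y z : F × (ℕ → F)) => by
    change SD.br T x (y + z) = SD.br T x y + SD.br T x z
    ext1 <;> simp [SD.br]; module
  lie_self := fun (x : F × (ℕ → F)) => by
    change SD.br T x x = (0 : F × (ℕ → F))
    ext1 <;> simp [SD.br]
  leibniz_lie := fun (x y z : F × (ℕ → F)) => by
    change SD.br T x (SD.br T y z) = SD.br T (SD.br T x y) z + SD.br T y (SD.br T x z)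
    ext1 <;> simp [SD.br]; module

instance : LieAlgebra F (SD T) where
  lie_smul := fun t (x y : F × (ℕ → F)) => by
    change SD.br T x (t • y) = t • SD.br T x y
    ext1 <;> simp [SD.br]; module

theorem SD.met : Met (SD T) := fun (a b c d : F × (ℕ → F)) => by
  change SD.br T (SD.br T a b) (SD.br T c d) = (0 : F × (ℕ → F))
  ext1 <;> simp [SD.br]

theorem SD.act_rep (u : ℕ → F) (k : ℕ) :
    act (B := SD T) (List.replicate k ((1, 0) : F × (ℕ → F))) ((0, u) : F × (ℕ → F)) =
      ((0, (T ^ k) u) : F × (ℕ → F)) := by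
  induction k with
  | zero => rfl
  | succ k ih =>
    rw [List.replicate_succ, act_cons, ih]
    change SD.br T _ _ = _
    simp [SD.br, pow_succ']

theorem SD.not_PN {k : ℕ} (h : T ^ k ≠ 0) : ¬ PN (SD T) k := fun hp => h (by
  ext1 u
  have := hp ((0, u) : F × (ℕ → F)) (List.replicate k ((1, 0) : F × (ℕ → F))) (by simp)
  rw [SD.act_rep] at this
  exact congrArg Prod.snd this)

theorem SD.act_mem (y : SD T) (l : List (SD T)) (hl : l ≠ []) :
    ∃ u, act l y = ((0, (T ^ l.length) u) : F × (ℕ → F)) := by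
  induction l with
  | nil => exact absurd rfl hl
  | cons z l ih =>
    rcases l with _ | ⟨z', l⟩
    · refine ⟨z.1 • y.2 - y.1 • z.2, ?_⟩
      change SD.br T _ _ = _
      simp [SD.br]
    · obtain ⟨u, hu⟩ := ih (by simp)
      refine ⟨z.1 • u, ?_⟩
      rw [act_cons, hu]
      change SD.br T _ _ = _
      simp [SD.br, pow_succ']

theorem SD.PN {k : ℕ} (hk : 0 < k) (h : T ^ k = 0) : PN (SD T) k := fun y l hl => by
  obtain ⟨u, hu⟩ := SD.act_mem T y l (by rintro rfl; simp at hl; omega)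
  rw [hu, hl, h]; rfl

def sh (F : Type) [Field F] (d : ℕ) : (ℕ → F) →ₗ[F] (ℕ → F) where
  toFun u n := if n + 1 ≤ d then u (n + 1) else 0
  map_add' u v := by funext n; simp only [Pi.add_apply]; split_ifs <;> simp
  map_smul' s u := by funext n; simp only [Pi.smul_apply]; split_ifs <;> simp

theorem sh_pow (d k : ℕ) (u : ℕ → F) (n : ℕ) :
    (sh F d ^ (k + 1)) u n = if n + (k + 1) ≤ d then u (n + (k + 1)) else 0 := by
  induction k generalizing n with
  | zero => simp [sh]
  | succ k ih =>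
    rw [pow_succ', Module.End.mul_apply]
    change (if n + 1 ≤ d then (sh F d ^ (k + 1)) u (n + 1) else 0) = _
    rw [ih, show n + 1 + (k + 1) = n + (k + 1 + 1) by omega]
    split_ifs <;> first | rfl | omega

theorem sh_nil (d : ℕ) : sh F d ^ (d + 1) = 0 := by
  ext1 u; funext n; rw [sh_pow]; simp; omega

theorem sh_ne (d : ℕ) : sh F d ^ d ≠ 0 := by
  rcases d with _ | d
  · simp
  · intro h
    have := sh_pow (F := F) (d + 1) d (fun _ => 1) 0
    rw [h] at this
    simp at this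

noncomputable def lawM (F : Type) [Field F] : L F :=
  ⁅⁅FreeLieAlgebra.of F 0, FreeLieAlgebra.of F 1⁆, ⁅FreeLieAlgebra.of F 2, FreeLieAlgebra.of F 3⁆⁆

noncomputable def lawN (F : Type) [Field F] (k : ℕ) : L F :=
  act ((List.range k).map fun i => FreeLieAlgebra.of F (i + 1)) (FreeLieAlgebra.of F 0)

theorem holds_M (A : LA F) : Holds F A (lawM F) ↔ Met A.carrier := by
  constructor
  · intro h a b c d
    simpa [lawM] using h (fun i => [a, b, c, d].getD i 0)
  · intro h b
    simpa [lawM] using h _ _ _ _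

theorem holds_N (A : LA F) (k : ℕ) : Holds F A (lawN F k) ↔ PN A.carrier k := by
  constructor
  · intro h y l hl
    have := h (fun i => (y :: l).getD i 0)
    rw [lawN, map_act, List.map_map] at this
    rw [← this]
    congr 1
    · apply List.ext_getElem (by simp [hl])
      intro i h1 h2
      simp [List.getD_eq_getElem?_getD, h1]
    · simp
  · intro h b
    rw [lawN, map_act]
    exact h _ _ (by simp)

def VN (F : Type) [Field F] (k : ℕ) : Set (LA F) := Var F {lawM F, lawN F k}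

theorem mem_VN (A : LA F) (k : ℕ) : A ∈ VN F k ↔ Met A.carrier ∧ PN A.carrier k := by
  simp [VN, Var, holds_M, holds_N]

variable [CharZero F]

theorem sub_eq {d : ℕ} {U : Set (LA F)} (hU : IsVariety F U) (h : U ⊆ VN F d) :
    ∃ k, U = VN F k := by
  classical
  have hex : ∃ k, ∀ A ∈ U, PN A.carrier k := ⟨d, fun A hA => ((mem_VN A d).1 (h hA)).2⟩
  refine ⟨Nat.find hex, Set.Subset.antisymm (fun A hA => (mem_VN _ _).2
    ⟨((mem_VN A d).1 (h hA)).1, Nat.find_spec hex A hA⟩) ?_⟩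
  intro B hB
  rw [mem_VN] at hB
  obtain ⟨S, rfl⟩ := hU
  intro f hf b
  rcases hk : Nat.find hex with _ | k
  · rw [hk] at hB
    exact hB.2 _ [] rfl
  · have := Nat.find_min hex (m := k) (by omega)
    push Not at this
    rw [hk] at hB
    obtain ⟨A, hA, hAk⟩ := this
    obtain ⟨c, rfl⟩ := rep_all f
    rw [lift_lc]
    refine key ((mem_VN A d).1 (h hA)).1 hB.1 hAk (fun a => ?_) b (fun w _ hw => ?_)
    · rw [← lift_lc]; exact hA _ hf a
    · obtain ⟨a, l, e, hl⟩ := ev_eq b w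
      rw [e]
      exact hB.2.le _ _ (by rw [List.length_map]; omega)

omit [CharZero F] in
theorem VN_mono {k m : ℕ} (h : k ≤ m) : VN F k ⊆ VN F m := fun A hA => by
  rw [mem_VN] at hA ⊢
  exact ⟨hA.1, fun y l hl => hA.2.le y l (by omega)⟩

omit [CharZero F] in
theorem join_eq {U Z : Set (LA F)} (hZ : IsVariety F Z) (h : U ⊆ Z) :
    join F U Z = Z ∧ join F Z U = Z :=
  ⟨Set.Subset.antisymm (Set.sInter_subset_of_mem ⟨hZ, h, le_rfl⟩)
    (Set.subset_sInter fun _ hY => hY.2.2),
   Set.Subset.antisymm (Set.sInter_subset_of_mem ⟨hZ, le_rfl, h⟩)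
    (Set.subset_sInter fun _ hY => hY.2.1)⟩

omit [CharZero F] in
theorem IsVariety.inter {U Z : Set (LA F)} (hU : IsVariety F U) (hZ : IsVariety F Z) :
    IsVariety F (U ∩ Z) := by
  obtain ⟨S, rfl⟩ := hU
  obtain ⟨S', rfl⟩ := hZ
  refine ⟨S ∪ S', ?_⟩
  ext A
  simp [Var, or_imp, forall_and]

theorem VN_distrib (d : ℕ) : Distributive F (VN F d) := by
  intro U₁ U₂ U₃ h1 h2 h3 _ s2 s3
  obtain ⟨k2, e2⟩ := sub_eq h2 s2
  obtain ⟨k3, e3⟩ := sub_eq h3 s3
  rcases le_total k2 k3 with h | h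
  · have hs : U₂ ⊆ U₃ := by rw [e2, e3]; exact VN_mono h
    rw [(join_eq h3 hs).1, (join_eq (h1.inter h3) (Set.inter_subset_inter_right _ hs)).1]
  · have hs : U₃ ⊆ U₂ := by rw [e2, e3]; exact VN_mono h
    rw [(join_eq h2 hs).2, (join_eq (h1.inter h2) (Set.inter_subset_inter_right _ hs)).2]

theorem VN_not (d : ℕ) : ¬ DefinedByDeg F (d + 1) (VN F (d + 1)) := by
  rintro ⟨S, hS, e⟩
  let A : LA F := ⟨SD (sh F d)⟩
  let B : LA F := ⟨SD (1 : (ℕ → F) →ₗ[F] (ℕ → F))⟩
  have hA : A ∈ VN F (d + 1) := (mem_VN _ _).2 ⟨SD.met _, SD.PN _ (by omega) (sh_nil d)⟩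
  have hB : B ∈ VN F (d + 1) := by
    rw [e] at hA ⊢
    intro f hf b
    obtain ⟨c, hc, rfl⟩ := rep_deg (hS f hf)
    rw [lift_lc]
    refine key (A := A.carrier) (SD.met _) (SD.met _) (SD.not_PN _ (sh_ne d)) (fun a => ?_) b
      (fun w hw h => absurd (hc w hw) (by omega))
    rw [← lift_lc]; exact hA _ hf a
  exact SD.not_PN _ (by simp) ((mem_VN _ _).1 hB).2

end Pool.Agent.H66.LieVar
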