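import Mathlib

/-! Varieties of Lie algebras over a field `F`: identities, subvariety lattice, degree. -/

namespace Pool.Agent.H66.LieVar

variable (F : Type) [Field F]

/-- A Lie algebra over `F` (of arbitrary dimension). -/
structure LA where
  carrier : Type
  [ring : LieRing carrier]
  [alg : LieAlgebra F carrier]

attribute [instance] LA.ring LA.alg

/-- The free Lie algebra on countably many variables. -/
abbrev L : Type := FreeLieAlgebra F ℕ

/-- `f` is an identity of `A`: it vanishes under every substitution. -/
def Holds (A : LA F) (f : L F) : Prop :=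
  ∀ b : ℕ → A.carrier, FreeLieAlgebra.lift F b f = 0

/-- The variety with basis of identities `S`. -/
def Var (S : Set (L F)) : Set (LA F) := {A | ∀ f ∈ S, Holds F A f}

def IsVariety (U : Set (LA F)) : Prop := ∃ S, U = Var F S

/-- The smallest variety containing `U` and `W`. -/
def join (U W : Set (LA F)) : Set (LA F) := ⋂₀ {Z | IsVariety F Z ∧ U ⊆ Z ∧ W ⊆ Z}

/-- The lattice of subvarieties of `V` (meet = intersection, join = `join`) is distributive. -/
def Distributive (V : Set (LA F)) : Prop :=
  ∀ U₁ U₂ U₃ : Set (LA F), IsVariety F U₁ → IsVariety F U₂ → IsVariety F U₃ →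
    U₁ ⊆ V → U₂ ⊆ V → U₃ ⊆ V →
    U₁ ∩ join F U₂ U₃ = join F (U₁ ∩ U₂) (U₁ ∩ U₃)

/-- The Lie monomial given by a bracketing of variables. -/
noncomputable def mono : FreeMagma ℕ → L F
  | FreeMagma.of n => FreeLieAlgebra.of F n
  | FreeMagma.mul u v => ⁅mono u, mono v⁆

/-- `f` has total degree at most `d`: a linear combination of monomials of degree `≤ d`. -/
def DegLE (d : ℕ) (f : L F) : Prop :=
  f ∈ Submodule.span F {g | ∃ w : FreeMagma ℕ, w.length ≤ d ∧ g = mono F w}

/-- `V` has a basis of identities all of degree at most `d`. -/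
def DefinedByDeg (d : ℕ) (V : Set (LA F)) : Prop :=
  ∃ S : Set (L F), (∀ f ∈ S, DegLE F d f) ∧ V = Var F S

end Pool.Agent.H66.LieVar
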