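import Mathlib

/-! Boolean `m`-algebras: weak extension property and weak distributivity (Sikorski). -/

set_option autoImplicit false

namespace Pool.Agent.H66.WExt
open Cardinal Set

universe u

/-- every family of at most `m` elements has a join and a meet -/
def MComplete (m : Cardinal.{u}) (A : Type u) [BooleanAlgebra A] : Prop :=
  ∀ s : Set A, #s ≤ m → (∃ x, IsLUB s x) ∧ (∃ x, IsGLB s x)

/-- the homomorphism preserves joins and meets of families of at most `m` elements -/
def IsMHom (m : Cardinal.{u}) {A B : Type u} [BooleanAlgebra A] [BooleanAlgebra B]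
    (h : BoundedLatticeHom A B) : Prop :=
  ∀ s : Set A, #s ≤ m → (∀ x, IsLUB s x → IsLUB (h '' s) (h x)) ∧
    (∀ x, IsGLB s x → IsGLB (h '' s) (h x))

/-- the only subalgebra containing `A₀` and closed under joins and meets of families of at most
`m` elements is the whole algebra -/
def MGenerates (m : Cardinal.{u}) {A : Type u} [BooleanAlgebra A] (A₀ : BooleanSubalgebra A) :
    Prop :=
  ∀ C : BooleanSubalgebra A, A₀ ≤ C →
    (∀ s : Set A, s ⊆ C → #s ≤ m → (∀ x, IsLUB s x → x ∈ C) ∧ (∀ x, IsGLB s x → x ∈ C)) → C = ⊤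

/-- condition (a') -/
def CondA (m : Cardinal.{u}) {A B : Type u} [BooleanAlgebra A] [BooleanAlgebra B]
    (A₀ : BooleanSubalgebra A) (f : BoundedLatticeHom A₀ B) : Prop :=
  ∀ s : Set A₀, #s ≤ m → IsGLB ((fun a : A₀ => (a : A)) '' s) ⊥ → IsGLB (f '' s) ⊥

/-- the weak `m`-extension property -/
def WeakExt (m : Cardinal.{u}) (B : Type u) [BooleanAlgebra B] : Prop :=
  ∀ (A : Type u) [BooleanAlgebra A], MComplete m A → ∀ A₀ : BooleanSubalgebra A,
    MGenerates m A₀ → ∀ f : BoundedLatticeHom A₀ B, CondA m A₀ f →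
      ∃ h : BoundedLatticeHom A B, IsMHom m h ∧ ∀ a : A₀, h a = f a

/-- weak `m`-distributivity -/
def WeakDistrib (m : Cardinal.{u}) (B : Type u) [BooleanAlgebra B] : Prop :=
  ∀ (T S : Type u), #T ≤ m → #S ≤ m → ∀ a : T → S → B, (∀ t, IsLUB (range (a t)) ⊤) →
    IsLUB {x | ∃ Φ : T → Finset S, (∀ t, (Φ t).Nonempty) ∧
      IsGLB (range fun t => (Φ t).sup (a t)) x} ⊤

end Pool.Agent.H66.WExt
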