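import Mathlib
import Pool.Agent.H66.WExtDefs

set_option autoImplicit false

namespace Pool.Agent.H66.MExt
open Cardinal Set Pool.Agent.H66.WExt

universe u

variable {A B : Type u} [BooleanAlgebra A] [BooleanAlgebra B]

/-- `{i, B}` is a `(J, M, m)`-extension of `A` -/
def IsExt (m : Cardinal.{u}) (J M : Set (Set A)) (i : BoundedLatticeHom A B) : Prop :=
  MComplete m B ∧ Function.Injective i ∧ (∀ s ∈ J, ∀ x, IsLUB s x → IsLUB (i '' s) (i x)) ∧
    (∀ s ∈ M, ∀ x, IsGLB s x → IsGLB (i '' s) (i x)) ∧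
    MGenerates m ((⊤ : BooleanSubalgebra A).map i)

/-- `{i, B}` is an `m`-completion of `A` -/
def IsCompletion (m : Cardinal.{u}) (i : BoundedLatticeHom A B) : Prop :=
  MComplete m B ∧ Function.Injective i ∧ (∀ b : B, b ≠ ⊥ → ∃ a, i a ≠ ⊥ ∧ i a ≤ b) ∧
    MGenerates m ((⊤ : BooleanSubalgebra A).map i)

end Pool.Agent.H66.MExt
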