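import Mathlib
import Pool.Agent.H66.MExtDefs

set_option autoImplicit false

namespace Pool.Agent.H66.MExt
open Cardinal Set Pool.Agent.H66.WExt TopologicalSpace

universe u

section gen
variable {m : Cardinal.{u}} {D : Type u} [BooleanAlgebra D] {G : Set D}

def gen (m : Cardinal.{u}) (G : Set D) : BooleanSubalgebra D :=
  sInf {C | G ⊆ C ∧ ∀ s : Set D, s ⊆ C → #s ≤ m → (∀ x, IsLUB s x → x ∈ C) ∧
    (∀ x, IsGLB s x → x ∈ C)}

theorem sub_gen : G ⊆ gen m G := fun _ h => BooleanSubalgebra.mem_sInf.2 fun _ hD => hD.1 h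

theorem gen_cl (s : Set (gen m G)) (hs : #s ≤ m) :
    (∀ x, IsLUB (Subtype.val '' s) x → x ∈ gen m G) ∧
      ∀ x, IsGLB (Subtype.val '' s) x → x ∈ gen m G :=
  ⟨fun x hx => BooleanSubalgebra.mem_sInf.2 fun C hC => (hC.2 _ (by
      rintro _ ⟨a, -, rfl⟩; exact BooleanSubalgebra.mem_sInf.1 a.2 C hC)
      (mk_image_le.trans hs)).1 x hx,
   fun x hx => BooleanSubalgebra.mem_sInf.2 fun C hC => (hC.2 _ (by
      rintro _ ⟨a, -, rfl⟩; exact BooleanSubalgebra.mem_sInf.1 a.2 C hC)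
      (mk_image_le.trans hs)).2 x hx⟩

theorem lub_of {C : BooleanSubalgebra D} {s : Set C} {x : C} (h : IsLUB (Subtype.val '' s) x.1) :
    IsLUB s x :=
  ⟨fun a ha => h.1 ⟨a, ha, rfl⟩, fun b hb => h.2 (by rintro _ ⟨a, ha, rfl⟩; exact hb ha)⟩

theorem glb_of {C : BooleanSubalgebra D} {s : Set C} {x : C} (h : IsGLB (Subtype.val '' s) x.1) :
    IsGLB s x :=
  ⟨fun a ha => h.1 ⟨a, ha, rfl⟩, fun b hb => h.2 (by rintro _ ⟨a, ha, rfl⟩; exact hb ha)⟩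

theorem gen_complete (hD : MComplete m D) : MComplete m (gen m G) := fun s hs => by
  obtain ⟨⟨x, hx⟩, y, hy⟩ := hD (Subtype.val '' s) (mk_image_le.trans hs)
  exact ⟨⟨⟨x, (gen_cl s hs).1 x hx⟩, lub_of hx⟩, ⟨y, (gen_cl s hs).2 y hy⟩, glb_of hy⟩

theorem gen_lub (hD : MComplete m D) {s : Set (gen m G)} (hs : #s ≤ m) {x : gen m G}
    (h : IsLUB s x) : IsLUB (Subtype.val '' s) x.1 := by
  obtain ⟨⟨y, hy⟩, -⟩ := hD (Subtype.val '' s) (mk_image_le.trans hs)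
  have := h.unique (lub_of (x := ⟨y, (gen_cl s hs).1 y hy⟩) hy)
  rw [this]
  exact hy

theorem gen_generates (A₀ : BooleanSubalgebra (gen m G)) (h : ∀ a : gen m G, a.1 ∈ G → a ∈ A₀) :
    MGenerates m A₀ := by
  intro C h1 h2
  refine eq_top_iff.2 fun a _ => ?_
  have : a.1 ∈ C.map (gen m G).subtype := by
    refine BooleanSubalgebra.mem_sInf.1 a.2 _ ⟨fun g hg => ⟨⟨g, sub_gen hg⟩, h1 (h _ hg), rfl⟩,
      fun s hs hm => ?_⟩
    have h3 : Subtype.val '' {c : gen m G | c.1 ∈ s} = s := by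
      ext x
      refine ⟨by rintro ⟨c, hc, rfl⟩; exact hc, fun hx => ?_⟩
      obtain ⟨c, -, rfl⟩ := hs hx
      exact ⟨c, hx, rfl⟩
    have h4 : #{c : gen m G | c.1 ∈ s} ≤ m := by
      rw [← mk_image_eq Subtype.val_injective, h3]; exact hm
    have h5 : {c : gen m G | c.1 ∈ s} ⊆ C := fun c hc => by
      obtain ⟨d, hd, h⟩ := hs hc
      exact (Subtype.ext h : d = c) ▸ hd
    refine ⟨fun x hx => ?_, fun x hx => ?_⟩
    · rw [← h3] at hx
      exact ⟨⟨x, (gen_cl _ h4).1 x hx⟩, (h2 _ h5 h4).1 _ (lub_of hx), rfl⟩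
    · rw [← h3] at hx
      exact ⟨⟨x, (gen_cl _ h4).2 x hx⟩, (h2 _ h5 h4).2 _ (glb_of hx), rfl⟩
  obtain ⟨c, hc, h⟩ := this
  exact (Subtype.ext h : c = a) ▸ hc

variable {A : Type u} [BooleanAlgebra A]

def cores (m : Cardinal.{u}) (e : BoundedLatticeHom A D) : BoundedLatticeHom A (gen m (range e)) where
  toFun a := ⟨e a, sub_gen ⟨a, rfl⟩⟩
  map_sup' a b := Subtype.ext (map_sup e a b)
  map_inf' a b := Subtype.ext (map_inf e a b)
  map_top' := Subtype.ext (map_top e)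
  map_bot' := Subtype.ext (map_bot e)

theorem cores_gen (e : BoundedLatticeHom A D) :
    MGenerates m ((⊤ : BooleanSubalgebra A).map (cores m e)) :=
  gen_generates _ fun _ ⟨a, ha⟩ => ⟨a, trivial, Subtype.ext ha⟩

theorem glb_of_lub (e : BoundedLatticeHom A D) {s : Set A} {x : A} (h : IsGLB s x)
    (H : IsLUB (compl '' s) xᶜ → IsLUB (e '' (compl '' s)) (e xᶜ)) : IsGLB (e '' s) (e x) := by
  have h1 := H ⟨by rintro _ ⟨a, ha, rfl⟩; exact compl_le_compl (h.1 ha), fun b hb =>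
    compl_le_iff_compl_le.1 (h.2 fun a ha => compl_le_iff_compl_le.1 (hb ⟨a, ha, rfl⟩))⟩
  refine ⟨by rintro _ ⟨a, ha, rfl⟩; exact OrderHomClass.mono e (h.1 ha), fun b hb => ?_⟩
  have : e xᶜ ≤ bᶜ := h1.2 (by
    rintro _ ⟨_, ⟨a, ha, rfl⟩, rfl⟩
    rw [map_compl']
    exact compl_le_compl (hb ⟨a, ha, rfl⟩))
  rw [map_compl'] at this
  exact compl_le_compl_iff_le.1 this

end gen

section ro
variable {X : Type u} (τ : TopologicalSpace X)

abbrev RO := Heyting.Regular (@Opens X τ)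

theorem ro_complete (m : Cardinal.{u}) : MComplete m (RO τ) := fun s _ =>
  ⟨⟨_, Heyting.Regular.gi.isLUB_of_u_image (isLUB_sSup _)⟩,
    _, Heyting.Regular.gi.isGLB_of_u_image (isGLB_sInf _)⟩

theorem mem_compl_opens {U : Opens X} {z : X} :
    z ∈ Uᶜ ↔ ∃ V : Set X, IsOpen V ∧ z ∈ V ∧ Disjoint V U := by
  constructor
  · intro h
    refine ⟨_, (Uᶜ).isOpen, h, ?_⟩
    have : Disjoint Uᶜ U := disjoint_compl_left
    rw [disjoint_iff] at this
    exact Set.disjoint_iff_inter_eq_empty.2 (congrArg (fun W : Opens X => (W : Set X)) this)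
  · rintro ⟨V, h1, h2, h3⟩
    have : (⟨V, h1⟩ : Opens X) ≤ Uᶜ := le_compl_iff_disjoint_right.2 (by
      rw [disjoint_iff]
      exact Opens.ext (Set.disjoint_iff_inter_eq_empty.1 h3))
    exact this h2

theorem compl_clopen {a : Set X} (h : IsOpen a) (h' : IsOpen aᶜ) :
    (⟨a, h⟩ : Opens X)ᶜ = ⟨aᶜ, h'⟩ := by
  ext z
  rw [SetLike.mem_coe, mem_compl_opens]
  exact ⟨fun ⟨V, _, h2, h3⟩ hz => Set.disjoint_left.1 h3 h2 hz,
    fun hz => ⟨aᶜ, h', hz, disjoint_compl_left⟩⟩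

def clo (a : Set X) (h : IsOpen a) (h' : IsOpen aᶜ) : RO τ :=
  ⟨⟨a, h⟩, by
    rw [Heyting.IsRegular, compl_clopen τ h h', compl_clopen τ h' (by simpa using h)]
    simp⟩

def emb (A : BooleanSubalgebra (Set X)) (hA : ∀ a ∈ A, IsOpen a) : BoundedLatticeHom A (RO τ) where
  toFun a := clo τ a.1 (hA _ a.2) (hA _ aᶜ.2)
  map_sup' a b := by
    apply Heyting.Regular.coe_injective
    rw [Heyting.Regular.coe_sup]
    exact (clo τ (a ⊔ b).1 (hA _ (a ⊔ b).2) (hA _ (a ⊔ b)ᶜ.2)).prop.eq.symm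
  map_inf' _ _ := rfl
  map_top' := rfl
  map_bot' := rfl

theorem emb_inj (A : BooleanSubalgebra (Set X)) (hA : ∀ a ∈ A, IsOpen a) :
    Function.Injective (emb τ A hA) := fun _ _ h =>
  Subtype.ext (congrArg (fun U : RO τ => (U.val : Set X)) h)

theorem le_ro {U W : RO τ} (h : ∀ z ∈ U.val, ∀ V : Set X, IsOpen V → z ∈ V →
    ∃ w ∈ V, w ∈ W.val) : U ≤ W := by
  rw [← Heyting.Regular.coe_le_coe, ← W.prop.eq, le_compl_iff_disjoint_right, disjoint_iff,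
    eq_bot_iff]
  rintro z ⟨h1, h2⟩
  obtain ⟨V, v1, v2, v3⟩ := (mem_compl_opens τ).1 h2
  obtain ⟨w, w1, w2⟩ := h z h1 V v1 v2
  exact (Set.disjoint_left.1 v3 w1 w2).elim

end ro

def topo {X ι : Type} [Nonempty ι] (r : ι → X → X → Prop)
    (hr : ∀ i j, ∃ k, ∀ z w, r k z w → r i z w ∧ r j z w) : TopologicalSpace X where
  IsOpen U := ∀ z ∈ U, ∃ i, ∀ w, r i z w → w ∈ U
  isOpen_univ := fun _ _ => ⟨Classical.arbitrary ι, fun _ _ => trivial⟩
  isOpen_inter := fun s t hs ht z hz => by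
    obtain ⟨i, hi⟩ := hs z hz.1
    obtain ⟨j, hj⟩ := ht z hz.2
    obtain ⟨k, hk⟩ := hr i j
    exact ⟨k, fun w hw => ⟨hi w (hk _ _ hw).1, hj w (hk _ _ hw).2⟩⟩
  isOpen_sUnion := fun s hs z ⟨t, ht, hz⟩ => by
    obtain ⟨i, hi⟩ := hs t ht z hz
    exact ⟨i, fun w hw => ⟨t, ht, hi w hw⟩⟩

end Pool.Agent.H66.MExt
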