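import Mathlib
import Pool.Agent.H66.MExt1

set_option autoImplicit false

namespace Pool.Agent.H66.MExt
open Cardinal Set Pool.Agent.H66.WExt TopologicalSpace

abbrev Lab := Finset ℕ × ℝ
abbrev Z := ℕ × (ℕ → Lab) × (ℕ → ℕ → Bool)

def v (z : Z) (n j : ℕ) : Bool := if n < z.1 then decide (j ∈ (z.2.1 n).1) else z.2.2 n j

def cone (k : ℕ) (g : ℕ → Lab) : Set Z := {z | k ≤ z.1 ∧ ∀ n < k, z.2.1 n = g n}

def r1 (i : ℕ × Finset Lab) (z w : Z) : Prop :=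
  (∀ n < i.1, ∀ j < i.1, v z n j = v w n j) ∧
    ∀ k g, (∀ n < k, g n ∈ i.2) → (z ∈ cone k g ↔ w ∈ cone k g)

def r2 (N : ℕ) (z w : Z) : Prop :=
  w.1 = z.1 ∧ w.2.1 = z.2.1 ∧ ∀ n < N, ∀ j < N, v z n j = v w n j

theorem r1_mono {i k : ℕ × Finset Lab} (h1 : i.1 ≤ k.1) (h2 : i.2 ⊆ k.2) {z w : Z}
    (h : r1 k z w) : r1 i z w :=
  ⟨fun n hn j hj => h.1 n (by omega) j (by omega), fun l g hg => h.2 l g fun n hn => h2 (hg n hn)⟩

theorem r1_dir (i j : ℕ × Finset Lab) : ∃ k, ∀ z w, r1 k z w → r1 i z w ∧ r1 j z w := by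
  classical
  exact ⟨(max i.1 j.1, i.2 ∪ j.2), fun z w h =>
    ⟨r1_mono (le_max_left _ _) Finset.subset_union_left h,
      r1_mono (le_max_right _ _) Finset.subset_union_right h⟩⟩

theorem r2_mono {i k : ℕ} (h1 : i ≤ k) {z w : Z} (h : r2 k z w) : r2 i z w :=
  ⟨h.1, h.2.1, fun n hn j hj => h.2.2 n (by omega) j (by omega)⟩

theorem r2_dir (i j : ℕ) : ∃ k, ∀ z w, r2 k z w → r2 i z w ∧ r2 j z w :=
  ⟨max i j, fun _ _ h => ⟨r2_mono (le_max_left _ _) h, r2_mono (le_max_right _ _) h⟩⟩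

theorem r1_of_r2 (i : ℕ × Finset Lab) {z w : Z} (h : r2 i.1 z w) : r1 i z w :=
  ⟨h.2.2, fun k g _ => by simp only [cone, mem_setOf_eq, h.1, h.2.1]⟩

theorem r1_symm {i : ℕ × Finset Lab} {z w : Z} (h : r1 i z w) : r1 i w z :=
  ⟨fun n hn j hj => (h.1 n hn j hj).symm, fun k g hg => (h.2 k g hg).symm⟩

theorem r1_trans {i : ℕ × Finset Lab} {z w y : Z} (h : r1 i z w) (h' : r1 i w y) : r1 i z y :=
  ⟨fun n hn j hj => (h.1 n hn j hj).trans (h'.1 n hn j hj),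
    fun k g hg => (h.2 k g hg).trans (h'.2 k g hg)⟩

def AA : BooleanSubalgebra (Set Z) where
  carrier := {a | ∃ i, ∀ z w, r1 i z w → z ∈ a → w ∈ a}
  supClosed' := fun a ⟨i, hi⟩ b ⟨j, hj⟩ => by
    obtain ⟨k, hk⟩ := r1_dir i j
    exact ⟨k, fun z w h hz => hz.imp (hi z w (hk _ _ h).1) (hj z w (hk _ _ h).2)⟩
  infClosed' := fun a ⟨i, hi⟩ b ⟨j, hj⟩ => by
    obtain ⟨k, hk⟩ := r1_dir i j
    exact ⟨k, fun z w h hz => ⟨hi z w (hk _ _ h).1 hz.1, hj z w (hk _ _ h).2 hz.2⟩⟩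
  compl_mem' := fun ⟨i, hi⟩ => ⟨i, fun z w h hz hw => hz (hi w z (r1_symm h) hw)⟩
  bot_mem' := ⟨(0, ∅), fun _ _ _ h => h⟩

theorem cone_mem (k : ℕ) (g : ℕ → Lab) : cone k g ∈ AA := by
  classical
  exact ⟨(0, (Finset.range k).image g), fun z w h hz =>
    (h.2 k g fun n hn => Finset.mem_image_of_mem _ (Finset.mem_range.2 hn)).1 hz⟩

def LL (n : ℕ) (S : Finset ℕ) (j : ℕ) : AA :=
  ⟨{z | v z n j = decide (j ∈ S)}, (max n j + 1, ∅), fun z w h hz => by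
    rw [mem_setOf_eq, ← h.1 n (by simp) j (by simp)]
    exact hz⟩

theorem cone_ne (k : ℕ) (g : ℕ → Lab) : (k, g, fun _ _ => true) ∈ cone k g :=
  ⟨le_rfl, fun _ _ => rfl⟩

theorem approx (z : Z) (N : ℕ) (M : Set Lab) (hM : M.Countable) :
    ∃ k g, N < k ∧ ∀ w ∈ cone k g, ∃ y, r2 N z y ∧
      ∀ i : ℕ × Finset Lab, (i.2 : Set Lab) ⊆ M → r1 i w y := by
  classical
  obtain ⟨t, ht⟩ : ∃ t : ℝ, t ∉ Prod.snd '' M := by
    by_contra hc
    push Not at hc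
    exact Set.not_countable_univ ((hM.image Prod.snd).mono fun t _ => hc t)
  obtain ⟨n, f, x⟩ := z
  refine ⟨N + n + 1, fun l => if l < n then f l else
    ((Finset.range N).filter fun j => x l j = true, t), by omega, fun w hw => ?_⟩
  have hv : ∀ l j, v w l j = v (n, f, v w) l j := by
    intro l j
    by_cases h : l < n
    · have := hw.2 l (by omega)
      have h1 := hw.1
      simp only [v, h, if_true] at this ⊢
      rw [if_pos (by omega), this]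
    · simp only [v, h, if_false]
  refine ⟨(n, f, v w), ⟨rfl, rfl, fun l hl j hj => ?_⟩, fun i hi => ⟨fun l _ j _ => hv l j,
    fun k g hg => ?_⟩⟩
  · by_cases h : l < n
    · simp only [v, h, if_true]
    · have := hw.2 l (by omega)
      have h1 := hw.1
      simp only [v, h, if_false] at this ⊢
      rw [if_pos (by omega), this]
      simp [hj]
  · have h1 := hw.1
    by_cases h : k ≤ n
    · refine and_congr ⟨fun _ => h, fun _ => by omega⟩ (forall₂_congr fun l hl => ?_)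
      have := hw.2 l (by omega)
      simp only [show l < n by omega, if_true] at this
      rw [this]
    · refine iff_of_false (fun h2 => ht ⟨g n, hi (hg n (by omega)), ?_⟩) fun h2 => h h2.1
      rw [← h2.2 n (by omega), hw.2 n (by omega)]
      simp

theorem exists_cone (a : AA) {z : Z} (hz : z ∈ a.1) (N : ℕ) (M : Set Lab) (hM : M.Countable) :
    ∃ k g, N < k ∧ cone k g ⊆ a.1 ∧ ∀ w ∈ cone k g, ∃ y, r2 N z y ∧
      ∀ i : ℕ × Finset Lab, (i.2 : Set Lab) ⊆ M → r1 i w y := by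
  obtain ⟨i, hi⟩ := a.2
  obtain ⟨k, g, h1, h2⟩ := approx z (max N i.1) (M ∪ i.2) (hM.union i.2.countable_toSet)
  refine ⟨k, g, by omega, fun w hw => ?_, fun w hw => ?_⟩
  · obtain ⟨y, y1, y2⟩ := h2 w hw
    exact hi _ _ (r1_symm (y2 i subset_union_right))
      (hi _ _ (r1_of_r2 i (r2_mono (le_max_right _ _) y1)) hz)
  · obtain ⟨y, y1, y2⟩ := h2 w hw
    exact ⟨y, r2_mono (le_max_left _ _) y1, fun j hj => y2 j (hj.trans subset_union_left)⟩

theorem open1 : ∀ a ∈ AA, @IsOpen Z (topo r1 r1_dir) a :=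
  fun _ ⟨i, hi⟩ z hz => ⟨i, fun w hw => hi z w hw hz⟩

theorem open2 : ∀ a ∈ AA, @IsOpen Z (topo r2 r2_dir) a :=
  fun _ ⟨i, hi⟩ z hz => ⟨i.1, fun w hw => hi z w (r1_of_r2 i hw) hz⟩

noncomputable def e1 := emb (topo r1 r1_dir) AA open1
noncomputable def e2 := emb (topo r2 r2_dir) AA open2

theorem compl1 : IsCompletion ℵ₀ (cores ℵ₀ e1) := by
  have hi : Function.Injective (cores ℵ₀ e1) := fun a b h =>
    emb_inj _ AA open1 (congrArg Subtype.val h)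
  refine ⟨gen_complete (ro_complete _ _), hi, fun b hb => ?_, cores_gen _⟩
  obtain ⟨z, hz⟩ : ∃ z, z ∈ b.1.val := by
    by_contra hc
    push Not at hc
    exact hb (le_bot_iff.1 fun z hz => (hc z hz).elim)
  obtain ⟨i, h⟩ := (@Opens.isOpen Z (topo r1 r1_dir) b.1.val) z hz
  refine ⟨⟨{w | r1 i z w}, i, fun w y h1 h2 => r1_trans h2 h1⟩, fun h0 => ?_, fun w hw => h w hw⟩
  have := hi (h0.trans (map_bot _).symm)
  exact (Set.ext_iff.1 (congrArg Subtype.val this) z).1 ⟨fun _ _ _ _ => rfl, fun _ _ _ => Iff.rfl⟩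

theorem e2_lub (s : Set AA) (hs : #s ≤ ℵ₀) (a : AA) (h : IsLUB s a) : IsLUB (e2 '' s) (e2 a) := by
  refine ⟨by rintro _ ⟨b, hb, rfl⟩; exact OrderHomClass.mono e2 (h.1 hb), fun W hW => ?_⟩
  refine le_ro _ fun z hz V hV hzV => ?_
  obtain ⟨N, hN⟩ := hV z hzV
  choose I hI using fun b : AA => b.2
  obtain ⟨k, g, -, h2, h3⟩ := exists_cone a hz N (⋃ b ∈ s, ((I b).2 : Set Lab))
    ((le_aleph0_iff_set_countable.1 hs).biUnion fun b _ => (I b).2.countable_toSet)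
  obtain ⟨b, hb, w, w1, w2⟩ : ∃ b ∈ s, ∃ w ∈ cone k g, w ∈ b.1 := by
    by_contra hc
    push Not at hc
    have : a ≤ (⟨_, cone_mem k g⟩ : AA)ᶜ := h.2 fun b hb w hw hw' => hc b hb w hw' hw
    exact this (h2 (cone_ne k g)) (cone_ne k g)
  obtain ⟨y, y1, y2⟩ := h3 w w1
  exact ⟨y, hN y y1, hW ⟨b, hb, rfl⟩
    (hI b _ _ (y2 (I b) (subset_biUnion_of_mem (u := fun b => ((I b).2 : Set Lab)) hb)) w2)⟩

theorem ext2 (J M : Set (Set AA)) (hJ : ∀ s ∈ J, #s ≤ ℵ₀) (hM : ∀ s ∈ M, #s ≤ ℵ₀) :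
    IsExt ℵ₀ J M (cores ℵ₀ e2) := by
  refine ⟨gen_complete (ro_complete _ _), fun a b h => emb_inj _ AA open2 (congrArg Subtype.val h),
    fun s hs x hx => lub_of ?_, fun s hs x hx => glb_of ?_, cores_gen _⟩
  · rw [← image_comp]
    exact e2_lub s (hJ s hs) x hx
  · rw [← image_comp]
    exact glb_of_lub e2 hx (e2_lub _ (mk_image_le.trans (hM s hs)) _)

def UU (n : ℕ) : RO (topo r2 r2_dir) :=
  clo _ {z : Z | n < z.1} (fun z hz => ⟨0, fun w hw => by rw [mem_setOf_eq, hw.1]; exact hz⟩)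
    (fun z hz => ⟨0, fun w hw => by rw [mem_compl_iff, mem_setOf_eq, hw.1]; exact hz⟩)

theorem no_hom {B : Type} [BooleanAlgebra B] (i : BoundedLatticeHom AA B)
    (hi : IsCompletion ℵ₀ i) (h : BoundedLatticeHom (gen ℵ₀ (range e2)) B) (hh : IsMHom ℵ₀ h)
    (he : ∀ a, h (cores ℵ₀ e2 a) = i a) : False := by
  have hc : MComplete ℵ₀ (gen ℵ₀ (range e2)) := gen_complete (ro_complete _ _)
  have hr : ∀ {ι : Type} [Countable ι] (f : ι → gen ℵ₀ (range e2)), #(range f) ≤ ℵ₀ :=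
    fun f => le_aleph0_iff_set_countable.2 (countable_range f)
  choose c hcc using fun n S => (hc _ (hr fun j => cores ℵ₀ e2 (LL n S j))).2
  choose d hd using fun n => (hc _ (hr (c n))).1
  have h1 : ∀ n S, (c n S).1 ≤ UU n := by
    intro n S z hz
    by_contra hn
    have hn' : ¬ n < z.1 := hn
    obtain ⟨N, hN⟩ := (@Opens.isOpen Z (topo r2 r2_dir) (c n S).1.val) z hz
    have h2 := (hcc n S).1 ⟨N, rfl⟩ (hN (z.1, z.2.1, fun l j => if j < N then z.2.2 l j else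
      !decide (j ∈ S)) ⟨rfl, rfl, fun l _ j hj => by simp [v, hj]⟩)
    have h3 : v (z.1, z.2.1, fun l j => if j < N then z.2.2 l j else !decide (j ∈ S)) n N =
      decide (N ∈ S) := h2
    simp [v, hn'] at h3
  have h2 : ∀ n, (d n).1 ≤ UU n := fun n =>
    (gen_lub (ro_complete _ _) (hr _) (hd n)).2 (by rintro _ ⟨_, ⟨S, rfl⟩, rfl⟩; exact h1 n S)
  have h3 : IsGLB (range d) ⊥ := ⟨fun _ _ => bot_le, fun b hb z hz =>
    (lt_irrefl z.1 (h2 z.1 (hb ⟨z.1, rfl⟩ hz))).elim⟩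
  have h4 : ∀ n, ⊤ ≤ h (d n) := by
    intro n
    rw [top_le_iff, ← compl_eq_bot]
    by_contra h5
    obtain ⟨a, a1, a2⟩ := hi.2.2.1 _ h5
    obtain ⟨z, hz⟩ : ∃ z, z ∈ a.1 := by
      by_contra hc
      push Not at hc
      exact a1 (by rw [show a = ⊥ from le_bot_iff.1 fun z hz => hc z hz, map_bot])
    obtain ⟨k, g, k1, k2, -⟩ := exists_cone a hz n ∅ countable_empty
    have b1 : i ⟨_, cone_mem k g⟩ ≤ (h (d n))ᶜ := (OrderHomClass.mono i (show (⟨_, cone_mem k g⟩ : AA) ≤ a from k2)).trans a2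
    have b2 : i ⟨_, cone_mem k g⟩ ≤ h (c n (g n).1) := ((hh _ (hr _)).2 _ (hcc n _)).2 (by
      rintro _ ⟨_, ⟨j, rfl⟩, rfl⟩
      rw [he]
      refine OrderHomClass.mono i fun w hw => ?_
      have := hw.1
      show v w n j = _
      rw [v, if_pos (by omega), hw.2 n k1])
    have b3 := le_inf (b2.trans (OrderHomClass.mono h ((hd n).1 ⟨_, rfl⟩))) b1
    rw [inf_compl_eq_bot, le_bot_iff, ← map_bot i] at b3
    exact (Set.ext_iff.1 (congrArg Subtype.val (hi.2.1 b3)) _).1 (cone_ne k g)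
  have h5 : ⊤ ≤ h ⊥ := ((hh _ (hr d)).2 _ h3).2 (by rintro _ ⟨_, ⟨n, rfl⟩, rfl⟩; exact h4 n)
  rw [map_bot, ← map_bot i, ← map_top i, map_bot, le_bot_iff, ← map_bot i] at h5
  exact (Set.ext_iff.1 (congrArg Subtype.val (hi.2.1 h5)) (0, fun _ => (∅, 0), fun _ _ => true)).1
    trivial

end Pool.Agent.H66.MExt
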