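import Mathlib

/-! Down-up matchings in graphs on ordinals. -/

set_option autoImplicit false

namespace Pool.Agent.H66.Match
open Set Ordinal Order

theorem glue {w μ : Ordinal.{0}} (hw : w ≠ 0) (F : Ordinal.{0} → Ordinal.{0} → Ordinal.{0})
    (h1 : ∀ ξ < μ, StrictMonoOn (F ξ) (Iio w))
    (h2 : ∀ ξ ξ', ξ < ξ' → ξ' < μ → ∀ r < w, ∀ r' < w, F ξ r < F ξ' r') :
    StrictMonoOn (fun o => F (o / w) (o % w)) (Iio (w * μ)) := by
  intro a ha b hb hab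
  have hb' : b / w < μ := (lt_mul_iff_div_lt hw).1 hb
  rcases (div_le_left hab.le w).eq_or_lt with h | h
  · dsimp only
    rw [h]
    refine h1 _ hb' (mod_lt _ hw) (mod_lt _ hw) ?_
    rw [← add_lt_add_iff_left (w * (b / w)), div_add_mod, ← h, div_add_mod]
    exact hab
  · exact h2 _ _ h hb' _ (mod_lt _ hw) _ (mod_lt _ hw)

theorem exists_nn : ∃ nn : Ordinal.{0} → ℕ, ∀ o < ω, (nn o : Ordinal.{0}) = o := by
  have : ∀ o : Ordinal.{0}, ∃ n : ℕ, o < ω → (n : Ordinal.{0}) = o := fun o => by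
    by_cases h : o < ω
    · obtain ⟨n, rfl⟩ := lt_omega0.1 h
      exact ⟨n, fun _ => rfl⟩
    · exact ⟨0, fun h' => absurd h' h⟩
  choose nn h using this
  exact ⟨nn, h⟩

theorem greedy {O : Type*} (R : ℕ → O → O → Prop)
    (h : ∀ n (C : Finset O), ∃ x z, R n x z ∧ x ∉ C ∧ z ∉ C) :
    ∃ a b : ℕ → O, Function.Injective a ∧ Function.Injective b ∧ ∀ n, R n (a n) (b n) := by
  classical
  choose X Z h1 h2 h3 using h
  let c : ℕ → Finset O := fun n => Nat.rec ∅ (fun n s => insert (X n s) (insert (Z n s) s)) n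
  have hc : ∀ n, c (n + 1) = insert (X n (c n)) (insert (Z n (c n)) (c n)) := fun _ => rfl
  have hm : Monotone c := monotone_nat_of_le_succ fun n => by
    rw [hc]; exact (Finset.subset_insert _ _).trans (Finset.subset_insert _ _)
  refine ⟨fun n => X n (c n), fun n => Z n (c n), Function.Injective.of_lt_imp_ne fun m n hmn h => ?_,
    Function.Injective.of_lt_imp_ne fun m n hmn h => ?_, fun n => h1 _ _⟩
  · exact h2 n (c n) (h ▸ hm hmn (by rw [hc]; simp))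
  · exact h3 n (c n) (h ▸ hm hmn (by rw [hc]; simp))

variable (G : SimpleGraph Ordinal.{0}) (α : Ordinal.{0}) (m : ℕ)

/-- no down-up matching -/
def NM : Prop := ∀ a b : Ordinal.{0} → Ordinal.{0}, StrictMonoOn a (Iio (ω ^ ((m + 1 : ℕ) :
  Ordinal.{0}))) → InjOn b (Iio (ω ^ ((m + 1 : ℕ) : Ordinal.{0}))) →
  (∀ o < ω ^ ((m + 1 : ℕ) : Ordinal.{0}), ∀ o' < ω ^ ((m + 1 : ℕ) : Ordinal.{0}), a o < b o') →
  (∀ o < ω ^ ((m + 1 : ℕ) : Ordinal.{0}), b o < α ∧ G.Adj (a o) (b o)) → False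

variable {G α m}

theorem cover (h : NM G α m) (δ w : Ordinal.{0}) :
    ∃ ξ < ω ^ (m : Ordinal.{0}), ∃ C : Finset Ordinal.{0}, ∀ x z, δ + w * ξ ≤ x →
      x < δ + w * ξ + w → δ + w * ω ^ (m : Ordinal.{0}) ≤ z → z < α → G.Adj x z →
        x ∈ C ∨ z ∈ C := by
  by_contra hc
  push Not at hc
  have hcount : (Iio (ω ^ (m : Ordinal.{0}))).Countable := by
    rw [← Cardinal.le_aleph0_iff_set_countable, Cardinal.mk_Iio_ordinal, Cardinal.lift_le_aleph0]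
    exact (card_opow_le _ _).trans (by simp)
  obtain ⟨e, he⟩ := Set.countable_iff_exists_injOn.1 hcount
  obtain ⟨a, b, ha, hb, hab⟩ := greedy (fun n x z => ∀ ξ < ω ^ (m : Ordinal.{0}),
      e ξ = (Nat.unpair n).1 → δ + w * ξ ≤ x ∧ x < δ + w * ξ + w ∧
        δ + w * ω ^ (m : Ordinal.{0}) ≤ z ∧ z < α ∧ G.Adj x z) (fun n C => by
    by_cases h1 : ∃ ξ < ω ^ (m : Ordinal.{0}), e ξ = (Nat.unpair n).1
    · obtain ⟨ξ, h1, h2⟩ := h1
      obtain ⟨x, z, h3⟩ := hc ξ h1 C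
      refine ⟨x, z, fun ξ' h4 h5 => ?_, h3.2.2.2.2.2⟩
      rw [he h4 h1 (h5.trans h2.symm)]
      exact ⟨h3.1, h3.2.1, h3.2.2.1, h3.2.2.2.1, h3.2.2.2.2.1⟩
    · obtain ⟨x, hx⟩ := Infinite.exists_notMem_finset C
      exact ⟨x, x, fun ξ h2 h3 => absurd ⟨ξ, h2, h3⟩ h1, hx, hx⟩)
  have h1 : ∀ i : ℕ, ∃ g : ℕ → ℕ, StrictMono fun t => a (Nat.pair i (g t)) := by
    intro i
    obtain ⟨g, hg | hg⟩ := exists_increasing_or_nonincreasing_subseq (· < ·)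
      (fun t => a (Nat.pair i t))
    · exact ⟨g, hg⟩
    · refine absurd (fun s t hst => lt_of_le_of_ne (not_lt.1 (hg s t hst)) fun h => ?_)
        (not_strictAnti_of_wellFoundedLT (fun t => a (Nat.pair i (g t))))
      exact hst.ne' (g.injective (Nat.pair_eq_pair.1 (ha h)).2)
  choose g hg using h1
  obtain ⟨nn, hnn⟩ := exists_nn
  have hμ : ω ^ ((m + 1 : ℕ) : Ordinal.{0}) = ω * ω ^ (m : Ordinal.{0}) := by
    rw [add_comm, Nat.cast_add, opow_add]; simp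
  have h2 := fun ξ hξ t => hab (Nat.pair (e ξ) t) ξ hξ (by simp)
  have h3 : ∀ ξ ξ' : Ordinal.{0}, ξ < ξ' → δ + w * ξ + w ≤ δ + w * ξ' := fun ξ ξ' h => by
    rw [add_assoc, ← mul_add_one]
    gcongr
    exact add_one_le_of_lt h
  have h4 : StrictMonoOn (fun o => a (Nat.pair (e (o / ω)) (g (e (o / ω)) (nn (o % ω)))))
      (Iio (ω * ω ^ (m : Ordinal.{0}))) :=
    glue omega0_ne_zero (fun ξ r => a (Nat.pair (e ξ) (g (e ξ) (nn r))))
      (fun ξ _ r hr r' hr' h => hg _ (by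
        rw [← Nat.cast_lt (α := Ordinal.{0}), hnn _ hr, hnn _ hr']; exact h))
      (fun ξ ξ' h h' r _ r' _ => (h2 ξ (h.trans h') _).2.1.trans_le
        ((h3 _ _ h).trans (h2 ξ' h' _).1))
  have h5 : ∀ o < ω * ω ^ (m : Ordinal.{0}), o / ω < ω ^ (m : Ordinal.{0}) :=
    fun o ho => (lt_mul_iff_div_lt omega0_ne_zero).1 ho
  unfold NM at h
  rw [hμ] at h
  refine h _ (fun o => b (Nat.pair (e (o / ω)) (g (e (o / ω)) (nn (o % ω))))) h4
    (fun o ho o' ho' h => h4.injOn ho ho' (congrArg a (hb h))) (fun o ho o' ho' => ?_)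
    (fun o ho => (h2 _ (h5 o ho) _).2.2.2)
  exact (h2 _ (h5 o ho) _).2.1.trans_le ((h3 _ _ (h5 o ho)).trans (h2 _ (h5 o' ho') _).2.2.1)

variable (G α) in
/-- independent sets in intervals -/
def Q (β γ : Ordinal.{0}) : Prop := ∀ δ, δ + ω ^ β ≤ α → ∃ y : Ordinal.{0} → Ordinal.{0},
  StrictMonoOn y (Iio (ω ^ γ)) ∧ (∀ o < ω ^ γ, δ ≤ y o ∧ y o < δ + ω ^ β) ∧
    ∀ o < ω ^ γ, ∀ o' < ω ^ γ, ¬ G.Adj (y o) (y o')

theorem jump {l : Ordinal.{0}} (hl : IsSuccLimit l) (θ : Ordinal.{0}) (h : θ < l)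
    (C : Finset Ordinal.{0}) : ∃ θ', θ ≤ θ' ∧ θ' < l ∧ ∀ z ∈ C, z < l → z < θ' := by
  classical
  induction C using Finset.induction_on with
  | empty => exact ⟨θ, le_rfl, h, by simp⟩
  | insert a C _ ih =>
    obtain ⟨t, h1, h2, h3⟩ := ih
    by_cases ha : a < l
    · refine ⟨max t (a + 1), le_max_of_le_left h1, max_lt h2 (hl.add_one_lt ha), fun z hz hz' => ?_⟩
      rcases Finset.mem_insert.1 hz with rfl | hz
      · exact lt_max_of_lt_right (lt_add_one _)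
      · exact lt_max_of_lt_left (h3 z hz hz')
    · refine ⟨t, h1, h2, fun z hz hz' => ?_⟩
      rcases Finset.mem_insert.1 hz with rfl | hz
      · exact absurd hz' ha
      · exact h3 z hz hz'

theorem tail {δ θ β : Ordinal.{0}} (h1 : δ ≤ θ) (h2 : θ < δ + ω ^ β) : θ + ω ^ β = δ + ω ^ β := by
  rw [← Ordinal.add_sub_cancel_of_le h1, add_assoc, add_omega0_opow ((sub_lt_of_le h1).2 h2)]

theorem sealed (h : NM G α m) {β γ β' : Ordinal.{0}} (hβ : β ≠ 0) (hQ : Q G α β γ)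
    (hβ' : β + m < β') {δ θ : Ordinal.{0}} (hα : δ + ω ^ β' ≤ α) (h1 : δ ≤ θ)
    (h2 : θ < δ + ω ^ β') : ∃ θ' < δ + ω ^ β', ∃ y : Ordinal.{0} → Ordinal.{0},
      StrictMonoOn y (Iio (ω ^ γ)) ∧ (∀ o < ω ^ γ, θ ≤ y o ∧ y o < θ') ∧
      (∀ o < ω ^ γ, ∀ o' < ω ^ γ, ¬ G.Adj (y o) (y o')) ∧
      ∀ o < ω ^ γ, ∀ z, θ' ≤ z → z < δ + ω ^ β' → ¬ G.Adj (y o) z := by
  obtain ⟨ξ, hξ, C, hC⟩ := cover h θ (ω ^ β)
  have h3 : θ + ω ^ β * ω ^ (m : Ordinal.{0}) < δ + ω ^ β' := by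
    rw [← tail h1 h2, add_lt_add_iff_left, ← opow_add]
    exact (opow_lt_opow_iff_right one_lt_omega0).2 hβ'
  have h4 : θ + ω ^ β * ξ + ω ^ β ≤ θ + ω ^ β * ω ^ (m : Ordinal.{0}) := by
    rw [add_assoc, ← mul_add_one]
    gcongr
    exact add_one_le_of_lt hξ
  obtain ⟨s, s1, s2, s3⟩ := jump (isSuccLimit_add _ (isSuccLimit_opow_left isSuccLimit_omega0 hβ))
    (θ + ω ^ β * ξ) (lt_add_of_pos_right _ (opow_pos _ omega0_pos)) C
  obtain ⟨t, t1, t2, t3⟩ := jump (isSuccLimit_add _ (isSuccLimit_opow_left isSuccLimit_omega0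
    (bot_le.trans_lt hβ').ne')) _ h3 C
  obtain ⟨y, y1, y2, y3⟩ := hQ s (by rw [tail s1 s2]; exact h4.trans (h3.le.trans hα))
  rw [tail s1 s2] at y2
  refine ⟨t, t2, y, y1, fun o ho => ⟨le_self_add.trans (s1.trans (y2 o ho).1),
    (y2 o ho).2.trans_le (h4.trans t1)⟩, y3, fun o ho z z1 z2 hz => ?_⟩
  rcases hC _ _ (s1.trans (y2 o ho).1) (y2 o ho).2 (t1.trans z1) (z2.trans_le hα) hz with h5 | h5
  · exact (s3 _ h5 (y2 o ho).2).not_ge (y2 o ho).1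
  · exact (t3 _ h5 z2).not_ge z1

theorem Q_zero (β : Ordinal.{0}) : Q G α β 0 := fun δ _ =>
  ⟨fun _ => δ, fun a ha b hb hab => by
    simp only [opow_zero, mem_Iio, lt_one_iff_zero] at ha hb
    simp [ha, hb] at hab, fun _ _ => ⟨le_rfl, lt_add_of_pos_right _ (opow_pos _ omega0_pos)⟩,
    fun _ _ _ _ => G.irrefl⟩

theorem Q_succ (h : NM G α m) {β γ : Ordinal.{0}} (hβ : β ≠ 0) (hQ : Q G α β γ) :
    Q G α (β + (m + 1 : ℕ)) (γ + 1) := by
  intro δ hα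
  choose! F hF Y h1 h2 h3 h4 using fun θ => sealed h hβ hQ (β' := β + (m + 1 : ℕ))
    (by rw [add_lt_add_iff_left, Nat.cast_lt]; omega) hα (θ := θ)
  let d : ℕ → Ordinal.{0} := fun n => F^[n] δ
  have hd : ∀ n, d (n + 1) = F (d n) := fun n => Function.iterate_succ_apply' F n δ
  have hp := opow_pos γ omega0_pos
  have d1 : ∀ n, δ ≤ d n ∧ d n < δ + ω ^ (β + (m + 1 : ℕ)) := by
    intro n
    induction n with
    | zero => exact ⟨le_rfl, lt_add_of_pos_right _ (opow_pos _ omega0_pos)⟩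
    | succ n ih =>
      rw [hd]
      exact ⟨ih.1.trans ((h2 _ ih.1 ih.2 0 hp).1.trans (h2 _ ih.1 ih.2 0 hp).2.le), hF _ ih.1 ih.2⟩
  have d2 : Monotone d := monotone_nat_of_le_succ fun n => by
    rw [hd]; exact (h2 _ (d1 n).1 (d1 n).2 0 hp).1.trans (h2 _ (d1 n).1 (d1 n).2 0 hp).2.le
  have d3 : ∀ a b, a < b → F (d a) ≤ d b := fun a b hab => (hd a).ge.trans (d2 hab)
  have d4 : ∀ n, ∀ r < ω ^ γ, Y (d n) r < δ + ω ^ (β + (m + 1 : ℕ)) := fun n r hr =>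
    (h2 _ (d1 n).1 (d1 n).2 r hr).2.trans (hF _ (d1 n).1 (d1 n).2)
  obtain ⟨nn, hnn⟩ := exists_nn
  have hm := fun o => mod_lt o hp.ne'
  refine ⟨fun o => Y (d (nn (o / ω ^ γ))) (o % ω ^ γ), ?_, fun o _ =>
    ⟨(d1 _).1.trans (h2 _ (d1 _).1 (d1 _).2 _ (hm o)).1, d4 _ _ (hm o)⟩, fun o _ o' _ => ?_⟩
  · rw [opow_add_one]
    refine glue hp.ne' (fun ξ r => Y (d (nn ξ)) r) (fun ξ _ => h1 _ (d1 _).1 (d1 _).2)
      fun ξ ξ' h h' r hr r' hr' => (h2 _ (d1 _).1 (d1 _).2 r hr).2.trans_le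
        ((d3 _ _ ?_).trans (h2 _ (d1 _).1 (d1 _).2 r' hr').1)
    rw [← Nat.cast_lt (α := Ordinal.{0}), hnn _ (h.trans h'), hnn _ h']; exact h
  · rcases lt_trichotomy (nn (o / ω ^ γ)) (nn (o' / ω ^ γ)) with h | h | h
    · exact h4 _ (d1 _).1 (d1 _).2 _ (hm o) _
        ((d3 _ _ h).trans (h2 _ (d1 _).1 (d1 _).2 _ (hm o')).1) (d4 _ _ (hm o'))
    · dsimp only
      rw [h]
      exact h3 _ (d1 _).1 (d1 _).2 _ (hm o) _ (hm o')
    · exact fun h' => h4 _ (d1 _).1 (d1 _).2 _ (hm o') _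
        ((d3 _ _ h).trans (h2 _ (d1 _).1 (d1 _).2 _ (hm o)).1) (d4 _ _ (hm o)) h'.symm

theorem stations {δ l : Ordinal.{0}} (hl : IsSuccLimit l) (hδ : δ < l)
    (F : Ordinal.{0} → Ordinal.{0}) (hF : ∀ θ, δ ≤ θ → θ < l → F θ < l) :
    ∃ D ⊆ Ico δ l, (∀ a ∈ D, ∀ b ∈ D, a < b → F a ≤ b) ∧ ∀ x < l, ∃ t ∈ D, x < t := by
  obtain ⟨D, hD⟩ := zorn_subset {D : Set Ordinal.{0} | D ⊆ Ico δ l ∧
      ∀ a ∈ D, ∀ b ∈ D, a < b → F a ≤ b} (fun c hc hch => ⟨⋃₀ c, ⟨sUnion_subset fun D hD =>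
        (hc hD).1, by
      rintro a ⟨A, hA, ha⟩ b ⟨B, hB, hb⟩
      rcases hch.total hA hB with h | h
      · exact (hc hB).2 a (h ha) b hb
      · exact (hc hA).2 a ha b (h hb)⟩, fun s hs => subset_sUnion_of_mem hs⟩)
  refine ⟨D, hD.prop.1, hD.prop.2, fun x hx => ?_⟩
  by_contra hn
  push Not at hn
  obtain ⟨t, t1, t2, t3⟩ : ∃ t, x < t ∧ t ∈ Ico δ l ∧ ∀ a ∈ D, F a ≤ t := by
    by_cases h : ∃ a ∈ D, ∀ b ∈ D, b ≤ a
    · obtain ⟨a, ha, h⟩ := h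
      refine ⟨max (x + 1) (F a), lt_max_of_lt_left (lt_add_one x), ⟨le_max_of_le_left
        ((hD.prop.1 ha).1.trans ((hn a ha).trans le_self_add)), max_lt (hl.add_one_lt hx)
        (hF a (hD.prop.1 ha).1 (hD.prop.1 ha).2)⟩, fun b hb => ?_⟩
      rcases (h b hb).eq_or_lt with rfl | h'
      · exact le_max_right _ _
      · exact le_max_of_le_left ((hD.prop.2 b hb a ha h').trans ((hn a ha).trans le_self_add))
    · push Not at h
      refine ⟨max (x + 1) δ, lt_max_of_lt_left (lt_add_one x), ⟨le_max_right _ _,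
        max_lt (hl.add_one_lt hx) hδ⟩, fun a ha => ?_⟩
      obtain ⟨b, hb, hab⟩ := h a ha
      exact le_max_of_le_left ((hD.prop.2 a ha b hb hab).trans ((hn b hb).trans le_self_add))
  have : insert t D ⊆ D := hD.le_of_ge ⟨insert_subset t2 hD.prop.1, by
    rintro a (rfl | ha) b (rfl | hb) hab
    · exact absurd hab (lt_irrefl _)
    · exact absurd (t1.trans hab) (hn b hb).not_gt
    · exact t3 a ha
    · exact hD.prop.2 a ha b hb hab⟩ (subset_insert _ _)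
  exact t1.not_ge (hn t (this (mem_insert _ _)))

theorem add_nat_lt {η β : Ordinal.{0}} (hη : IsSuccLimit η) (h : β < η) (n : ℕ) : β + n < η := by
  induction n with
  | zero => simpa using h
  | succ n ih => rw [Nat.cast_succ, ← add_assoc]; exact hη.add_one_lt ih

theorem Q_limit (h : NM G α m) {η : Ordinal.{0}} (hη : IsSuccLimit η)
    (hQ : ∀ γ < η, ∃ β < η, β ≠ 0 ∧ Q G α β γ) : Q G α η η := by
  intro δ hα
  have h0 : ∀ θ, δ ≤ θ → θ < δ + ω ^ η → ∃ θ' < δ + ω ^ η, ∃ y : Ordinal.{0} → Ordinal.{0},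
      StrictMonoOn y (Iio (θ - δ)) ∧ (∀ o < θ - δ, θ ≤ y o ∧ y o < θ') ∧
      (∀ o < θ - δ, ∀ o' < θ - δ, ¬ G.Adj (y o) (y o')) ∧
      ∀ o < θ - δ, ∀ z, θ' ≤ z → z < δ + ω ^ η → ¬ G.Adj (y o) z := by
    intro θ h1 h2
    obtain ⟨γ, h3, h4⟩ := (lt_opow_of_isSuccLimit omega0_ne_zero hη).1 ((sub_lt_of_le h1).2 h2)
    obtain ⟨β, h5, h6, h7⟩ := hQ γ h3
    obtain ⟨t, t1, y, y1, y2, y3, y4⟩ := sealed h h6 h7 (add_nat_lt hη h5 m) hα h1 h2
    exact ⟨t, t1, y, y1.mono (Iio_subset_Iio h4.le), fun o ho => y2 o (ho.trans h4),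
      fun o ho o' ho' => y3 o (ho.trans h4) o' (ho'.trans h4), fun o ho => y4 o (ho.trans h4)⟩
  choose! F hF Y h1 h2 h3 h4 using h0
  obtain ⟨D, d1, d2, d3⟩ := stations (isSuccLimit_add δ (isSuccLimit_opow_left isSuccLimit_omega0
    hη.ne_bot)) (lt_add_of_pos_right _ (opow_pos _ omega0_pos)) F hF
  let t : Ordinal.{0} → Ordinal.{0} := fun o => sInf {θ | θ ∈ D ∧ δ + o < θ}
  have t1 : ∀ o < ω ^ η, t o ∈ D ∧ δ + o < t o := fun o ho =>
    csInf_mem (s := {θ | θ ∈ D ∧ δ + o < θ}) (d3 _ ((add_lt_add_iff_left δ).2 ho))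
  have t2 : ∀ o < ω ^ η, o < t o - δ := fun o ho => lt_sub.2 (t1 o ho).2
  have t3 := fun o ho => (d1 (t1 o ho).1).1
  have t4 := fun o ho => (d1 (t1 o ho).1).2
  have t5 := fun o ho => h2 _ (t3 o ho) (t4 o ho) o (t2 o ho)
  have t6 : ∀ o < ω ^ η, Y (t o) o < δ + ω ^ η := fun o ho =>
    (t5 o ho).2.trans (hF _ (t3 o ho) (t4 o ho))
  refine ⟨fun o => Y (t o) o, fun a ha b hb hab => ?_,
    fun o ho => ⟨(t3 o ho).trans (t5 o ho).1, t6 o ho⟩, fun a ha b hb => ?_⟩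
  · have : t a ≤ t b := csInf_le' (s := {θ | θ ∈ D ∧ δ + a < θ})
      ⟨(t1 b hb).1, ((add_lt_add_iff_left δ).2 hab).trans (t1 b hb).2⟩
    rcases this.eq_or_lt with h5 | h5
    · dsimp only
      rw [h5]
      exact h1 _ (t3 b hb) (t4 b hb) (hab.trans (t2 b hb)) (t2 b hb) hab
    · exact (t5 a ha).2.trans_le ((d2 _ (t1 a ha).1 _ (t1 b hb).1 h5).trans (t5 b hb).1)
  · rcases lt_trichotomy (t a) (t b) with h5 | h5 | h5
    · exact h4 _ (t3 a ha) (t4 a ha) a (t2 a ha) _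
        ((d2 _ (t1 a ha).1 _ (t1 b hb).1 h5).trans (t5 b hb).1) (t6 b hb)
    · dsimp only
      rw [h5]
      exact h3 _ (t3 b hb) (t4 b hb) a (h5 ▸ t2 a ha) b (t2 b hb)
    · exact fun h' => h4 _ (t3 b hb) (t4 b hb) b (t2 b hb) _
        ((d2 _ (t1 b hb).1 _ (t1 a ha).1 h5).trans (t5 a ha).1) (t6 a ha) h'.symm

theorem Q_all (h : NM G α m) (γ : Ordinal.{0}) :
    ∃ (n : ℕ) (β : Ordinal.{0}), β ≤ γ + n ∧ β ≠ 0 ∧ Q G α β γ ∧ (IsSuccLimit γ → β = γ) := by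
  induction γ using Ordinal.limitRecOn with
  | zero => exact ⟨1, 1, by simp, one_ne_zero, Q_zero 1, fun h => absurd h not_isSuccLimit_bot⟩
  | add_one γ ih =>
    obtain ⟨n, β, h1, h2, h3, -⟩ := ih
    refine ⟨n + m, _, ?_, fun h' => h2 (left_eq_zero_of_add_eq_zero h'), Q_succ h h2 h3,
      fun h' => absurd h' (not_isSuccLimit_succ γ)⟩
    refine (add_le_add_left h1 _).trans (le_of_eq ?_)
    rw [add_assoc, add_assoc, ← Nat.cast_add, ← Nat.cast_one (R := Ordinal.{0}), ← Nat.cast_add]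
    congr 2
    omega
  | limit η hη ih =>
    refine ⟨0, η, by simp, hη.ne_bot, Q_limit h hη fun γ hγ => ?_, fun _ => rfl⟩
    obtain ⟨n, β, h1, h2, h3, -⟩ := ih γ hγ
    exact ⟨β, h1.trans_lt (add_nat_lt hη hγ n), h2, h3⟩

theorem Q_fin (h : NM G α m) {η : Ordinal.{0}} (hη : IsSuccLimit η) (j : ℕ) :
    Q G α (η + (j * (m + 1) : ℕ)) (η + j) := by
  induction j with
  | zero =>
    obtain ⟨n, β, -, -, h3, h4⟩ := Q_all h η
    simpa [h4 hη] using h3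
  | succ j ih =>
    have := Q_succ h (fun h' => hη.ne_bot (left_eq_zero_of_add_eq_zero h')) ih
    rwa [add_assoc, add_assoc, ← Nat.cast_add, ← Nat.cast_succ, ← add_one_mul] at this

/-- order isomorphism onto the image -/
noncomputable def iso {y : Ordinal.{0} → Ordinal.{0}} {l : Ordinal.{0}}
    (h : StrictMonoOn y (Iio l)) : Iio l ≃o y '' Iio l := h.orderIso y _

end Pool.Agent.H66.Match
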