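import Pool.Agent.H66.NR2

set_option autoImplicit false

namespace Pool.Agent.H66.Max

open Set Function Pool.Agent.H66.NR

variable {V V' : Type}

def Bad (E : Set V → Prop) (U : Set V) : Prop :=
  (E U ∧ U.ncard < 4) ∨
  (∃ S W, U = S ∪ W ∧ E S ∧ 4 ≤ S.ncard ∧ W.ncard + 1 = S.ncard ∧ Disjoint S W ∧
    ∀ s ∈ S, E (insert s W)) ∨
  (∃ S x, U = insert x S ∧ E S ∧ 4 ≤ S.ncard ∧ x ∉ S ∧
    ∀ T ⊆ S, T.ncard + 2 = S.ncard → E (insert x T))

def K (E : Set V → Prop) : Prop := ∀ U, ¬ Bad E U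

def Lv (m : ℕ) (E : Set V → Prop) : Prop := ∀ s, E s → m ≤ s.ncard

theorem nb {p : Prop} : p ≠ ⊥ ↔ p := by simp

theorem K.lv {E : Set V → Prop} (h : K E) : Lv 4 E := fun s hs => by
  by_contra h'
  exact h s (Or.inl ⟨hs, by omega⟩)

theorem K.noH {E : Set V → Prop} (h : K E) {S W : Set V} (h1 : E S) (h2 : W.ncard + 1 = S.ncard)
    (h3 : Disjoint S W) (h4 : ∀ s ∈ S, E (insert s W)) : False :=
  h _ (Or.inr (Or.inl ⟨S, W, rfl, h1, h.lv S h1, h2, h3, h4⟩))

theorem K.noA {E : Set V → Prop} (h : K E) {S : Set V} {x : V} (h1 : E S) (h2 : x ∉ S)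
    (h3 : ∀ T ⊆ S, T.ncard + 2 = S.ncard → E (insert x T)) : False :=
  h _ (Or.inr (Or.inr ⟨S, x, rfl, h1, h.lv S h1, h2, h3⟩))

theorem sub_two {S : Set V} (h : 4 ≤ S.ncard) {v : V} (hv : v ∈ S) :
    ∃ T ⊆ S, v ∈ T ∧ T.ncard + 2 = S.ncard := by
  obtain ⟨T, h1, h2, h3⟩ := exists_subsuperset_card_eq (n := S.ncard - 2)
    (singleton_subset_iff.2 hv) (by simp; omega) (by omega)
  exact ⟨T, h2, h1 rfl, by omega⟩

theorem Bad.cover {E : Set V → Prop} {U : Set V} (h : Bad E U) :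
    ∃ r, Bad (fun s => E s ∧ r ≤ s.ncard) U ∧
      ∀ u ∈ U, ∃ s ⊆ U, E s ∧ s.ncard = r ∧ u ∈ s := by
  rcases h with h | ⟨S, W, rfl, h1, h2, h3, h4, h5⟩ | ⟨S, x, rfl, h1, h2, h3, h4⟩
  · exact ⟨U.ncard, Or.inl ⟨⟨h.1, le_rfl⟩, h.2⟩, fun u hu => ⟨U, subset_rfl, h.1, rfl, hu⟩⟩
  · have hW : W.Finite := finite_of_ncard_ne_zero (by omega)
    have e : ∀ s ∈ S, (insert s W).ncard = S.ncard := fun s hs => by
      rw [ncard_insert_of_notMem (disjoint_left.1 h4 hs) hW, h3]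
    refine ⟨S.ncard, Or.inr (Or.inl ⟨S, W, rfl, ⟨h1, le_rfl⟩, h2, h3, h4,
      fun s hs => ⟨h5 s hs, (e s hs).ge⟩⟩), ?_⟩
    rintro u (hu | hu)
    · exact ⟨S, subset_union_left, h1, rfl, hu⟩
    · obtain ⟨s, hs⟩ := nonempty_of_ncard_ne_zero (s := S) (by omega)
      exact ⟨_, insert_subset (Or.inl hs) subset_union_right, h5 s hs, e s hs, Or.inr hu⟩
  · have hS : S.Finite := finite_of_ncard_ne_zero (by omega)
    have e : ∀ T ⊆ S, T.ncard + 2 = S.ncard → (insert x T).ncard = S.ncard - 1 := fun T h5 h6 => by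
      rw [ncard_insert_of_notMem (fun h => h3 (h5 h)) (hS.subset h5)]
      omega
    refine ⟨S.ncard - 1, Or.inr (Or.inr ⟨S, x, rfl, ⟨h1, by omega⟩, h2, h3,
      fun T h5 h6 => ⟨h4 T h5 h6, (e T h5 h6).ge⟩⟩), ?_⟩
    rintro u (rfl | hu)
    · obtain ⟨s, hs⟩ := nonempty_of_ncard_ne_zero (s := S) (by omega)
      obtain ⟨T, t1, -, t2⟩ := sub_two h2 hs
      exact ⟨_, insert_subset_insert t1, h4 T t1 t2, e T t1 t2, Or.inl rfl⟩
    · obtain ⟨T, t1, t3, t2⟩ := sub_two h2 hu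
      exact ⟨_, insert_subset_insert t1, h4 T t1 t2, e T t1 t2, Or.inr t3⟩

theorem Bad.irr {E : Set V → Prop} {U : Set V} (h : Bad E U) : Irr E U := by
  rcases h with h | ⟨S, W, rfl, h1, h2, h3, h4, h5⟩ | ⟨S, x, rfl, h1, h2, h3, h4⟩
  · exact fun u hu v hv => ⟨U, subset_rfl, nb.2 h.1, hu, hv⟩
  · have a : ∀ s ∈ S, insert s W ⊆ S ∪ W := fun s hs =>
      insert_subset (Or.inl hs) subset_union_right
    rintro u (hu | hu) v (hv | hv)
    · exact ⟨S, subset_union_left, nb.2 h1, hu, hv⟩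
    · exact ⟨_, a u hu, nb.2 (h5 u hu), Or.inl rfl, Or.inr hv⟩
    · exact ⟨_, a v hv, nb.2 (h5 v hv), Or.inr hu, Or.inl rfl⟩
    · obtain ⟨s, hs⟩ := nonempty_of_ncard_ne_zero (s := S) (by omega)
      exact ⟨_, a s hs, nb.2 (h5 s hs), Or.inr hu, Or.inr hv⟩
  · rintro u (rfl | hu) v (rfl | hv)
    · obtain ⟨s, hs⟩ := nonempty_of_ncard_ne_zero (s := S) (by omega)
      obtain ⟨T, t1, -, t2⟩ := sub_two h2 hs
      exact ⟨_, insert_subset_insert t1, nb.2 (h4 T t1 t2), Or.inl rfl, Or.inl rfl⟩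
    · obtain ⟨T, t1, t3, t2⟩ := sub_two h2 hv
      exact ⟨_, insert_subset_insert t1, nb.2 (h4 T t1 t2), Or.inl rfl, Or.inr t3⟩
    · obtain ⟨T, t1, t3, t2⟩ := sub_two h2 hu
      exact ⟨_, insert_subset_insert t1, nb.2 (h4 T t1 t2), Or.inr t3, Or.inl rfl⟩
    · exact ⟨S, subset_insert _ _, nb.2 h1, hu, hv⟩

theorem Bad.hom {E : Set V → Prop} {E' : Set V' → Prop} {U : Set V} (h : Bad E U) (f : V → V')
    (hf : ∀ s ⊆ U, E s → InjOn f s ∧ E' (f '' s)) : Bad E' (f '' U) := by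
  have hi : InjOn f U := fun u hu v hv e => by
    obtain ⟨s, s1, s2, s3, s4⟩ := h.irr u hu v hv
    exact (hf s s1 (nb.1 s2)).1 s3 s4 e
  rcases h with h | ⟨S, W, rfl, h1, h2, h3, h4, h5⟩ | ⟨S, x, rfl, h1, h2, h3, h4⟩
  · exact Or.inl ⟨(hf U subset_rfl h.1).2, by rw [ncard_image_of_injOn hi]; exact h.2⟩
  · have e1 := ncard_image_of_injOn (hi.mono subset_union_left)
    have e2 := ncard_image_of_injOn (hi.mono subset_union_right)
    refine Or.inr (Or.inl ⟨f '' S, f '' W, image_union _ _ _, (hf S subset_union_left h1).2,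
      by omega, by omega, ?_, ?_⟩)
    · rw [disjoint_left]
      rintro _ ⟨a, ha, rfl⟩ ⟨b, hb, e⟩
      exact disjoint_left.1 h4 ha (hi (Or.inr hb) (Or.inl ha) e ▸ hb)
    · rintro _ ⟨s, hs, rfl⟩
      rw [← image_insert_eq]
      exact (hf _ (insert_subset (Or.inl hs) subset_union_right) (h5 s hs)).2
  · have hS := hi.mono (subset_insert x S)
    have e1 := ncard_image_of_injOn hS
    refine Or.inr (Or.inr ⟨f '' S, f x, image_insert_eq, (hf S (subset_insert _ _) h1).2,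
      by omega, ?_, fun T h5 h6 => ?_⟩)
    · rintro ⟨b, hb, e⟩
      exact h3 (hi (Or.inr hb) (Or.inl rfl) e ▸ hb)
    · obtain ⟨T, h7, rfl⟩ := subset_image_iff.1 h5
      rw [ncard_image_of_injOn (hS.mono h7), e1] at h6
      rw [← image_insert_eq]
      exact (hf _ (insert_subset_insert h7) (h4 T h7 h6)).2

theorem K.hom {E : Set V → Prop} {E' : Set V' → Prop} (h : K E') (f : V → V')
    (hf : ∀ s, E s → InjOn f s ∧ E' (f '' s)) : K E :=
  fun _ hU => h _ (hU.hom f fun s _ hs => hf s hs)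

theorem K.pull {E' : Set V' → Prop} (h : K E') {f : V → V'} (hf : Injective f) :
    K fun s => E' (f '' s) := h.hom f fun _ hs => ⟨hf.injOn, hs⟩

theorem K.sub {E E' : Set V → Prop} (h : K E') {U : Set V} (hf : ∀ s ⊆ U, E s → E' s) :
    ¬ Bad E U := fun hU => h _ (hU.hom (fun x => x) fun s h1 hs =>
      ⟨fun _ _ _ _ e => e, by simpa using hf s h1 hs⟩)

theorem K.bot : K fun _ : Set V => False := fun _ hU => by
  rcases hU with h | ⟨_, _, _, h, _⟩ | ⟨_, _, _, h, _⟩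
  · exact h.1
  · exact h
  · exact h

theorem Bad.size {E : Set V → Prop} {U : Set V} {m : ℕ} (h : Bad E U) (hm : 4 ≤ m)
    (hl : ∀ s ⊆ U, E s → m ≤ s.ncard) : m + 2 ≤ U.ncard := by
  rcases h with h | ⟨S, W, rfl, h1, h2, h3, h4, h5⟩ | ⟨S, x, rfl, h1, h2, h3, h4⟩
  · have := hl U subset_rfl h.1
    omega
  · have := hl S subset_union_left h1
    rw [ncard_union_eq h4 (finite_of_ncard_ne_zero (by omega))
      (finite_of_ncard_ne_zero (by omega))]
    omega
  · have hS : S.Finite := finite_of_ncard_ne_zero (by omega)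
    obtain ⟨s, hs⟩ := nonempty_of_ncard_ne_zero (s := S) (by omega)
    obtain ⟨T, t1, -, t2⟩ := sub_two h2 hs
    have := hl _ (insert_subset_insert t1) (h4 T t1 t2)
    rw [ncard_insert_of_notMem (fun h => h3 (t1 h)) (hS.subset t1)] at this
    rw [ncard_insert_of_notMem h3 hS]
    omega

theorem K.top {m : ℕ} (hm : 4 ≤ m) : K fun s : Set (Fin m) => s = univ := fun U hU => by
  have h1 := hU.size hm fun s _ hs => by simp [hs]
  have h2 := ncard_le_ncard (subset_univ U)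
  simp at h2
  omega

theorem Emb.notBad {E : Set V → Prop} {E' : Set V' → Prop} {ψ : V → V'} (h : Emb ψ E E')
    (hK : K E) {U : Set V'} (hU : U ⊆ range ψ) : ¬ Bad E' U := by
  intro hB
  rcases isEmpty_or_nonempty V with _ | _
  · obtain rfl : U = ∅ := subset_empty_iff.1 (by rwa [range_eq_empty] at hU)
    have : ¬ E' ∅ := fun h' => by
      have := hK.lv ∅ (by rw [← h.2]; simpa using h')
      simp at this
    refine K.bot.sub (fun s hs h' => this ?_) hB
    rwa [subset_empty_iff.1 hs] at h'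
  · refine hK _ (hB.hom (invFun ψ) fun s hs h' => ?_)
    obtain ⟨s, rfl⟩ := subset_range_iff_exists_image_eq.1 (hs.trans hU)
    have e := leftInverse_invFun h.1
    refine ⟨?_, ?_⟩
    · rintro _ ⟨a, -, rfl⟩ _ ⟨b, -, rfl⟩ hab
      rw [e a, e b] at hab
      rw [hab]
    · rw [image_image]
      simp only [e _]
      rw [h.2] at h'
      simpa using h'

theorem Emb.lv {E : Set V → Prop} {E' : Set V' → Prop} {ψ : V → V'} (h : Emb ψ E E') {m : ℕ}
    (hl : Lv m E) {s : Set V'} (hs : s ⊆ range ψ) (h' : E' s) : m ≤ s.ncard := by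
  obtain ⟨s, rfl⟩ := subset_range_iff_exists_image_eq.1 hs
  rw [h.2] at h'
  rw [ncard_image_of_injective _ h.1]
  exact hl s h'

theorem Loc.K {E : Set V → Prop} {E' : Set V' → Prop} {m : ℕ} (h : Loc m E E') (hm : 4 ≤ m)
    (hK : K E') (hl : Lv m E') : K E ∧ Lv m E := by
  have a : Lv m E := fun s hs => by
    obtain ⟨s', e1, e2⟩ := h.2 s (nb.2 hs)
    exact e1 ▸ hl s' (e2 ▸ hs)
  refine ⟨fun U hU => ?_, a⟩
  obtain ⟨f, f1, f2⟩ := h.1 U hU.irr (by have := hU.size hm fun s _ => a s; omega)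
  exact hK _ (hU.hom f fun s h1 h2 => ⟨f1.mono h1, (f2 s h1).symm ▸ h2⟩)

theorem K.att {σ : Set V → Prop} (h : K σ) {S W : Set V} (hS : 4 ≤ S.ncard)
    (hW : W.ncard + 1 = S.ncard) (hd : Disjoint S W) (h1 : ∀ s, σ s → s ⊆ S) (h2 : ¬ σ S) :
    K fun t => σ t ∨ ∃ s ∈ S, t = insert s W := by
  intro U hU
  have fS : S.Finite := finite_of_ncard_ne_zero (by omega)
  have fW : W.Finite := finite_of_ncard_ne_zero (by omega)
  have e : ∀ s ∈ S, (insert s W).ncard = S.ncard := fun s hs => by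
    rw [ncard_insert_of_notMem (disjoint_left.1 hd hs) fW, hW]
  have lt : ∀ s, σ s → s.ncard < S.ncard := fun s hs =>
    ncard_lt_ncard ⟨h1 s hs, fun h' => h2 (Subset.antisymm (h1 s hs) h' ▸ hs)⟩ fS
  obtain ⟨r, hr, hc⟩ := hU.cover
  rcases lt_or_ge r S.ncard with h3 | h3
  · have hUS : U ⊆ S := fun u hu => by
      obtain ⟨s, -, s2 | ⟨y, hy, rfl⟩, s3, s4⟩ := hc u hu
      · exact h1 s s2 s4
      · rw [e y hy] at s3
        omega
    refine h.sub (fun s hs h' => h'.resolve_right ?_) hU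
    rintro ⟨y, -, rfl⟩
    obtain ⟨w, hw⟩ := nonempty_of_ncard_ne_zero (s := W) (by omega)
    exact disjoint_left.1 hd (hUS (hs (Or.inr hw))) hw
  · have a : ∀ t, ((σ t ∨ ∃ s ∈ S, t = insert s W) ∧ r ≤ t.ncard) →
        W ⊆ t ∧ t.ncard = S.ncard := by
      rintro t ⟨h4 | ⟨y, hy, rfl⟩, h5⟩
      · have := lt t h4
        omega
      · exact ⟨subset_insert _ _, e y hy⟩
    rcases hr with h4 | ⟨S', W', -, b1, b2, b3, b4, b5⟩ | ⟨S', x, -, b1, b2, b3, b4⟩
    · have := (a _ h4.1).2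
      omega
    · obtain ⟨y, hy⟩ := nonempty_of_ncard_ne_zero (s := S') (by omega)
      have : W ⊆ {y} := fun w hw => ((a _ (b5 y hy)).1 hw).resolve_right
        (disjoint_left.1 b4 ((a _ b1).1 hw))
      have := ncard_le_ncard this
      simp at this
      omega
    · obtain ⟨y, hy⟩ := nonempty_of_ncard_ne_zero (s := S') (by omega)
      obtain ⟨T, t1, -, t2⟩ := sub_two b2 hy
      have c1 := (a _ (b4 T t1 t2)).2
      have c2 := (a _ b1).2
      have := ncard_insert_le x T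
      omega

theorem exists_inj {m : ℕ} {s : Set V} (hs : s.ncard = m) (hf : s.Finite) :
    ∃ ι : Fin m → V, Injective ι ∧ range ι = s := by
  haveI := hf.to_subtype
  let e : s ≃ Fin m := Finite.equivFinOfCardEq hs
  refine ⟨fun i => e.symm i, Subtype.val_injective.comp e.symm.injective, ?_⟩
  rw [show (fun i => (e.symm i : V)) = Subtype.val ∘ e.symm from rfl, range_comp,
    e.symm.surjective.range_eq, image_univ, Subtype.range_coe]

theorem ncard_range_fin {m : ℕ} {ι : Fin m → V} (h : Injective ι) : (range ι).ncard = m := by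
  rw [← image_univ, ncard_image_of_injective _ h]
  simp

theorem Lv.pull {m : ℕ} {E : Set V → Prop} {ι : Fin m → V} (h : Injective ι)
    (hl : ∀ s ⊆ range ι, E s → m ≤ s.ncard) (t : Set (Fin m)) :
    E (ι '' t) ↔ t = univ ∧ E (range ι) := by
  constructor
  · intro h1
    have h2 := hl _ (image_subset_range _ _) h1
    rw [ncard_image_of_injective _ h] at h2
    obtain rfl : t = univ := eq_of_subset_of_ncard_le (subset_univ _) (by simpa using h2)
    exact ⟨rfl, by simpa using h1⟩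
  · rintro ⟨rfl, h1⟩
    simpa using h1

theorem Lv.pure [Finite V] {m : ℕ} {E : Set V → Prop} (h : Lv m E) {s : Set V}
    (hs : s.ncard = m) : Pure E m (E s) s :=
  ⟨hs, rfl, fun t ht => eq_false fun h' => by
    have := h t h'
    have := ncard_lt_ncard ht
    omega⟩

theorem att_struct {m : ℕ} (hm : 4 ≤ m) {σ : Set (Fin m) → Prop} (h : K σ) (h1 : ¬ σ univ) :
    ∃ B : Set (Fin m ⊕ Fin (m - 1)) → Prop, K B ∧ (∀ t, B (Sum.inl '' t) ↔ σ t) ∧
      (∀ y, B (insert (Sum.inl y) (range Sum.inr))) ∧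
      (∀ y, ∀ s ⊆ insert (Sum.inl y) (range Sum.inr), B s → m ≤ s.ncard) ∧
      ∀ s, B s → s ⊆ range Sum.inl ∨ m ≤ s.ncard := by
  have e1 : (range (Sum.inl : Fin m → Fin m ⊕ Fin (m - 1))).ncard = m :=
    ncard_range_fin Sum.inl_injective
  have e2 : (range (Sum.inr : Fin (m - 1) → Fin m ⊕ Fin (m - 1))).ncard = m - 1 :=
    ncard_range_fin Sum.inr_injective
  have e3 : ∀ y, (insert (Sum.inl y) (range Sum.inr) : Set (Fin m ⊕ Fin (m - 1))).ncard = m := by
    intro y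
    rw [ncard_insert_of_notMem (by simp), e2]
    omega
  have hK : K fun t : Set (Fin m ⊕ Fin (m - 1)) => ∃ s, σ s ∧ t = Sum.inl '' s := by
    refine h.hom (Sum.elim id fun _ => ⟨0, by omega⟩) ?_
    rintro _ ⟨s, hs, rfl⟩
    refine ⟨?_, by simpa [image_image] using hs⟩
    rintro _ ⟨a, -, rfl⟩ _ ⟨b, -, rfl⟩ e
    exact congrArg _ e
  refine ⟨_, hK.att (S := range Sum.inl) (W := range Sum.inr) (by omega) (by omega)
    isCompl_range_inl_range_inr.disjoint ?_ ?_, fun t => ⟨?_, fun h => Or.inl ⟨t, h, rfl⟩⟩,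
    fun y => Or.inr ⟨_, ⟨y, rfl⟩, rfl⟩, ?_, ?_⟩
  · rintro _ ⟨s, -, rfl⟩
    exact image_subset_range _ _
  · rintro ⟨s, hs, e⟩
    rw [← image_univ] at e
    exact h1 (Sum.inl_injective.image_injective e ▸ hs)
  · rintro (⟨s, hs, e⟩ | ⟨_, -, e⟩)
    · exact Sum.inl_injective.image_injective e ▸ hs
    · have : Sum.inr (⟨0, by omega⟩ : Fin (m - 1)) ∈ (Sum.inl '' t : Set (Fin m ⊕ Fin (m - 1))) :=
        e ▸ Or.inr ⟨_, rfl⟩
      simp at this
  · rintro y _ hs (⟨s, h2, rfl⟩ | ⟨_, ⟨z, rfl⟩, rfl⟩)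
    · have : s ⊆ {y} := fun a ha => by simpa using hs (mem_image_of_mem _ ha)
      have h3 := ncard_le_ncard this
      have h4 := h.lv s h2
      rw [ncard_singleton] at h3
      omega
    · exact (e3 z).ge
  · rintro _ (⟨s, h2, rfl⟩ | ⟨_, ⟨z, rfl⟩, rfl⟩)
    · exact Or.inl (image_subset_range _ _)
    · exact Or.inr (e3 z).ge

end Pool.Agent.H66.Max
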