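import Pool.Agent.H66.Max1

set_option autoImplicit false

namespace Pool.Agent.H66.Max

open Set Function Pool.Agent.H66.NR

/-- abstract orbit-equivalence of finite hypergraphs -/
structure Sys where
  R : ∀ {V : Type}, (Set V → Prop) → (Set V → Prop) → Prop
  refl : ∀ {V : Type} [Finite V] {E : Set V → Prop}, K E → R E E
  symm : ∀ {V : Type} {E E' : Set V → Prop}, R E E' → R E' E
  trans : ∀ {V : Type} [Finite V] {E E' E'' : Set V → Prop}, R E E' → R E' E'' → R E E''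
  kr : ∀ {V : Type} {E E' : Set V → Prop}, R E E' → K E'
  pull : ∀ {U V : Type} {E E' : Set V → Prop} {A A' : Set U → Prop} {ι : U → V}, R E E' →
    Emb ι A E → Emb ι A' E' → R A A'
  ext : ∀ {U V : Type} [Finite V] {E : Set V → Prop} {A A' : Set U → Prop} {ι : U → V}, K E →
    Emb ι A E → R A A' → ∃ E', R E E' ∧ Emb ι A' E'

variable {U V V' : Type}

def pb (ι : U → V) (E : Set V → Prop) : Set U → Prop := fun s => E (ι '' s)

theorem emb_pb {ι : U → V} (h : Injective ι) (E : Set V → Prop) : Emb ι (pb ι E) E :=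
  ⟨h, fun _ => rfl⟩

theorem Lv.pb {m : ℕ} {E : Set V → Prop} (h : Lv m E) {ι : U → V} (hι : Injective ι) :
    Lv m (pb ι E) := fun s hs => by
  rw [← ncard_image_of_injective s hι]
  exact h _ hs

theorem emb_top {m : ℕ} {E : Set V → Prop} {ι : Fin m → V} (h : Injective ι)
    (hl : ∀ s ⊆ range ι, E s → m ≤ s.ncard) (h1 : E (range ι)) :
    Emb ι (fun s => s = univ) E := ⟨h, fun t => propext (by rw [Lv.pull h hl]; simp [h1])⟩

theorem emb_bot {m : ℕ} {E : Set V → Prop} {ι : Fin m → V} (h : Injective ι)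
    (hl : ∀ s ⊆ range ι, E s → m ≤ s.ncard) (h1 : ¬ E (range ι)) :
    Emb ι (fun _ => False) E := ⟨h, fun t => propext (by rw [Lv.pull h hl]; simp [h1])⟩

theorem glueK {V0 P I : Type} [Finite V0] [Finite P] [Finite I] {l0 : Set V0 → Prop}
    {lP : Set P → Prop} (k0 : K l0) (kP : K lP) (j : U → P) (hj : Injective j) (φ : I → U → V0)
    (hφ : ∀ i, Injective (φ i)) (hc : ∀ i s, l0 (φ i '' s) = lP (j '' s)) :
    ∃ (V : Type) (_ : Finite V) (l : Set V → Prop) (ψ0 : V0 → V) (ψ : I → P → V),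
      K l ∧ (∀ m, Lv m l0 → Lv m lP → Lv m l) ∧
      Emb ψ0 l0 l ∧ (∀ i, Emb (ψ i) lP l) ∧ (∀ i u, ψ i (j u) = ψ0 (φ i u)) ∧
      (∀ i p, p ∉ range j → ψ i p ∉ range ψ0) ∧
      (∀ s, l s → s ⊆ range ψ0 ∨ ∃ i, s ⊆ range (ψ i)) ∧
      ∀ x, (∀ i, x ∉ range (φ i)) → ∀ s, l s → ψ0 x ∈ s → s ⊆ range ψ0 := by
  obtain ⟨V, _, l, ψ0, ψ, -, a1, a2, a3, -, -, a4, a5, a6⟩ :=
    glue l0 lP j hj φ hφ hc (fun _ => ()) (fun _ _ => ()) fun _ _ => rfl
  refine ⟨V, inferInstance, l, ψ0, ψ, fun W hW => ?_, fun m h1 h2 s hs => ?_, a1, a2, a3,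
    fun i p hp => (a6 i p hp).1, fun s hs => a4 s (nb.2 hs), fun x hx s hs hxs => ?_⟩
  · rcases a5 W hW.irr with h | ⟨i, h⟩
    · exact Emb.notBad a1 k0 h hW
    · exact Emb.notBad (a2 i) kP h hW
  · rcases a4 s (nb.2 hs) with h | ⟨i, h⟩
    · exact Emb.lv a1 h1 h hs
    · exact Emb.lv (a2 i) h2 h hs
  · refine (a4 s (nb.2 hs)).resolve_right ?_
    rintro ⟨i, h⟩
    obtain ⟨q, hq⟩ := h hxs
    by_cases hq' : q ∈ range j
    · obtain ⟨u, rfl⟩ := hq'
      rw [a3] at hq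
      exact hx i ⟨u, a1.1 hq⟩
    · exact (a6 i q hq').1 ⟨x, hq.symm⟩

/-- level `m` can always be reached -/
def Sys.St (X : Sys) (m : ℕ) : Prop :=
  ∀ (V : Type) [Finite V] (E : Set V → Prop), K E → ∃ E', X.R E E' ∧ Lv m E'

theorem att_card {m : ℕ} (hm : 4 ≤ m) (y : Fin m) :
    (insert (Sum.inl y) (range Sum.inr) : Set (Fin m ⊕ Fin (m - 1))).ncard = m := by
  rw [ncard_insert_of_notMem (by simp), ncard_range_fin Sum.inr_injective]
  omega

theorem K.noH' {m : ℕ} (hm : 4 ≤ m) {E : Set V → Prop} (h : K E) {z : Fin m ⊕ Fin (m - 1) → V}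
    (hz : Injective z) (h1 : E (z '' range Sum.inl))
    (h2 : ∀ y, E (z '' insert (Sum.inl y) (range Sum.inr))) : False := by
  refine (h.pull hz).noH h1 (W := range Sum.inr) ?_ isCompl_range_inl_range_inr.disjoint ?_
  · rw [ncard_range_fin Sum.inr_injective, ncard_range_fin Sum.inl_injective]
    omega
  · rintro _ ⟨y, rfl⟩
    exact h2 y

theorem Sys.s1 (X : Sys) {m : ℕ} (hm : 4 ≤ m) (st : X.St m) {E E' : Set V → Prop} {s : Set V}
    (r0 : X.R E E') (h1 : s.ncard = m) (h2 : E s) (h3 : ¬ E' s) :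
    X.R (fun s : Set (Fin m) => s = univ) fun _ => False := by
  by_contra hn
  have a : ∀ σ : Set (Fin m) → Prop, K σ → ¬ σ univ → X.R σ fun _ => False := by
    intro σ kσ hσ
    obtain ⟨B, kB, b1, b2, b3, -⟩ := att_struct hm kσ hσ
    obtain ⟨B', r, l'⟩ := st _ B kB
    refine X.pull r ⟨Sum.inl_injective, fun t => propext (b1 t)⟩
      (emb_bot Sum.inl_injective (fun s _ => l' s) fun h => ?_)
    refine (X.kr r).noH' hm injective_id (by simpa using h) fun y => ?_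
    by_contra hc
    obtain ⟨ι, hι, e⟩ := exists_inj (att_card hm y) (toFinite _)
    exact hn (X.pull r (emb_top hι (e ▸ b3 y) (e ▸ b2 y))
      (emb_bot hι (fun s _ => l' s) (e ▸ by simpa using hc)))
  have b : ∀ σ : Set (Fin m) → Prop, σ univ → ¬ X.R σ fun _ => False := by
    intro σ hσ r0
    obtain ⟨B, kB, b1, b2, b3, -⟩ := att_struct hm K.bot (by simp)
    obtain ⟨B', r, e'⟩ := X.ext kB ⟨Sum.inl_injective, fun t => propext (b1 t)⟩ (X.symm r0)
    refine (X.kr r).noH' hm injective_id ?_ fun y => ?_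
    · rw [image_id, ← image_univ, e'.2]
      exact hσ
    · by_contra hc
      obtain ⟨ι, hι, e⟩ := exists_inj (att_card hm y) (toFinite _)
      have r1 := X.pull r (emb_top hι (e ▸ b3 y) (e ▸ b2 y)) (emb_pb hι B')
      exact hn (X.trans r1 (a _ (X.kr r1) (by simpa [pb, e] using hc)))
  obtain ⟨ι, hι, e⟩ := exists_inj h1 (finite_of_ncard_ne_zero (by omega))
  have r := X.pull r0 (emb_pb hι E) (emb_pb hι E')
  exact b _ (by simpa [pb, e] using h2) (X.trans r (a _ (X.kr r) (by simpa [pb, e] using h3)))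

def Sys.Rig (X : Sys) (m : ℕ) (B : Set V → Prop) (z : Fin m ⊕ Fin (m - 1) → V) : Prop :=
  K B ∧ Lv m B ∧ (∀ B', X.R B B' → ¬ Lv (m + 1) B') ∧ Injective z ∧
    ∀ s, B s → Disjoint s (range z)

theorem Sys.exists_rig (X : Sys) {m : ℕ} (st : X.St m) (hn : ¬ X.St (m + 1)) :
    ∃ (V : Type) (_ : Finite V) (B : Set V → Prop) (z : Fin m ⊕ Fin (m - 1) → V), X.Rig m B z := by
  by_contra hc
  refine hn fun V _ E kE => ?_
  by_contra h
  obtain ⟨B0, r, l0⟩ := st V E kE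
  obtain ⟨W, _, l, ψ0, ψ, kl, ll, a1, a2, -, a3, a4, -⟩ :=
    glueK (P := Fin m ⊕ Fin (m - 1)) (I := Unit) (U := Empty) (X.kr r) K.bot (fun u => u.elim)
      (fun u => u.elim) (fun _ u => u.elim) (fun _ u => u.elim) fun _ s => by
        rw [eq_empty_of_isEmpty s, image_empty]
        exact eq_false fun h => by simpa using (X.kr r).lv _ h
  refine hc ⟨W, inferInstance, l, ψ (), kl, ll m l0 fun _ h => h.elim, fun B' r' l' => ?_,
    (a2 ()).1, fun s hs => ?_⟩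
  · exact h ⟨_, X.trans r (X.pull r' a1 (emb_pb a1.1 B')), l'.pb a1.1⟩
  · rcases a4 s hs with h1 | ⟨i, h1⟩
    · rw [disjoint_left]
      rintro _ h2 ⟨p, rfl⟩
      exact a3 () p (by simp) (h1 h2)
    · obtain ⟨t, rfl⟩ := subset_range_iff_exists_image_eq.1 h1
      rw [(a2 i).2] at hs
      exact hs.elim

theorem Sys.Rig.edge {X : Sys} {m : ℕ} {B B' : Set V → Prop} {z : Fin m ⊕ Fin (m - 1) → V}
    (h : X.Rig m B z) (r : X.R B B') (l : Lv m B') : ∃ s, B' s ∧ s.ncard = m := by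
  by_contra hc
  refine h.2.2.1 B' r fun s hs => ?_
  have := l s hs
  have : s.ncard ≠ m := fun e => hc ⟨s, hs, e⟩
  omega

theorem Sys.Rig.homog {X : Sys} {m : ℕ} (hm : 4 ≤ m) {B B' : Set V → Prop}
    {z : Fin m ⊕ Fin (m - 1) → V} (h : X.Rig m B z) (r : X.R B B') (l : Lv m B')
    (hh : ∀ s s', s.ncard = m → s'.ncard = m → (B s ↔ B s') → (B' s ↔ B' s'))
    {s : Set V} (h1 : s.ncard = m) (h2 : B s) : B' s := by
  by_contra hc
  obtain ⟨s', h3, h4⟩ := h.edge r l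
  have h5 : ¬ B s' := fun h5 => hc ((hh s s' h1 h4 (iff_of_true h2 h5)).2 h3)
  have a : ∀ t : Set (Fin m ⊕ Fin (m - 1)), t.ncard = m → B' (z '' t) := fun t ht => by
    refine (hh _ s' (by rw [ncard_image_of_injective _ h.2.2.2.1, ht]) h4
      (iff_of_false (fun h6 => ?_) h5)).2 h3
    obtain ⟨y, hy⟩ := nonempty_of_ncard_ne_zero (s := t) (by omega)
    exact disjoint_left.1 (h.2.2.2.2 _ h6) (mem_image_of_mem z hy) ⟨y, rfl⟩
  exact (X.kr r).noH' hm h.2.2.2.1 (a _ (ncard_range_fin Sum.inl_injective))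
    fun y => a _ (att_card hm y)

theorem Sys.Rig.mk_edge {X : Sys} {m : ℕ} (hm : 4 ≤ m) [Finite V] [Finite V'] {B : Set V → Prop}
    {z : Fin m ⊕ Fin (m - 1) → V} (h : X.Rig m B z) (st : X.St m)
    (s1 : X.R (fun s : Set (Fin m) => s = univ) fun _ => False) {C : Set V' → Prop} (kC : K C)
    (lC : Lv m C) {ι : Fin m → V'} (hι : Injective ι) (hn : ¬ C (range ι)) :
    ∃ C', X.R C C' ∧ Lv m C' ∧ C' (range ι) := by
  obtain ⟨C', r, e'⟩ := X.ext kC (emb_bot hι (fun s _ => lC s) hn) (X.symm s1)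
  obtain ⟨Y, _, N, loc, hN⟩ := nr Prop B m [(m, True), (m, False)] (by simp)
  obtain ⟨kN, lN⟩ := Loc.K loc hm h.1 h.2.1
  let I := {φ : Fin m → Y // Injective φ ∧ N (range φ)}
  obtain ⟨W, _, l, ψ0, ψ, kl, -, a1, a2, a3, -⟩ := glueK kN (X.kr r) ι hι (fun i : I => i.1)
    (fun i => i.2.1)
    fun i s => ((emb_top i.2.1 (fun s _ => lN s) i.2.2).2 s).trans (e'.2 s).symm
  obtain ⟨N', r', l'⟩ := st W l kl
  obtain ⟨θ, t1, t2⟩ := hN fun s => N' (ψ0 '' s)
  have t3 := a1.comp t1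
  obtain ⟨e, e1, e2⟩ := h.edge (X.refl h.1) h.2.1
  have hom := h.homog hm (X.pull r' t3 (emb_pb t3.1 N')) (l'.pb t3.1) (fun s s' h1 h2 h3 => by
    have p1 := h.2.1.pure h1
    have p2 := h.2.1.pure h2
    rw [← propext h3] at p2
    simp only [pb, ← image_image ψ0 θ]
    by_cases h4 : B s
    · rw [eq_true h4] at p1 p2
      exact (t2 (m, True) (by simp) s s' p1 p2).to_iff
    · rw [eq_false h4] at p1 p2
      exact (t2 (m, False) (by simp) s s' p1 p2).to_iff) e2 e1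
  obtain ⟨κ, hκ, rfl⟩ := exists_inj e2 (toFinite _)
  let i : I := ⟨fun y => θ (κ y), t1.1.comp hκ, by
    rw [show (fun y => θ (κ y)) = θ ∘ κ from rfl, range_comp, t1.2]
    exact e1⟩
  refine ⟨pb (ψ i) N', X.trans r (X.pull r' (a2 i) (emb_pb (a2 i).1 N')), l'.pb (a2 i).1, ?_⟩
  simp only [pb, ← range_comp] at hom ⊢
  convert hom using 2
  funext y
  exact a3 i y

end Pool.Agent.H66.Max
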