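import Pool.Agent.H66.Max2

set_option autoImplicit false

namespace Pool.Agent.H66.Max

open Set Function Pool.Agent.H66.NR

variable {U V V' Y : Type}

def lab (m : ℕ) (D : Set V → Prop) (x : V) (s : Set (Fin m × V)) (o : Option (Fin m)) : Prop :=
  ∃ t W, s = Prod.mk t '' W ∧ x ∉ W ∧
    ((o = none ∧ D W) ∨ ∃ t', o = some t' ∧ D (insert x W) ∧ (t' = t ∨ W.ncard + 1 = m))

def dec {m : ℕ} (l : Set Y → Option (Fin m) → Prop) (s : Set (Fin m ⊕ Y)) : Prop :=
  ∃ W, (s = Sum.inr '' W ∧ l W none) ∨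
    ∃ t, s = insert (Sum.inl t) (Sum.inr '' W) ∧ l W (some t)

theorem mk_inj {m : ℕ} {t t' : Fin m} {W W' : Set V} (h : Prod.mk t '' W = Prod.mk t' '' W') :
    W = W' := by
  simpa [image_image] using congrArg (image Prod.snd) h

theorem lab_none {m : ℕ} {D : Set V → Prop} {x : V} {t : Fin m} {W : Set V} (hx : x ∉ W) :
    lab m D x (Prod.mk t '' W) none ↔ D W := by
  refine ⟨?_, fun h => ⟨t, W, rfl, hx, Or.inl ⟨rfl, h⟩⟩⟩
  rintro ⟨t', W', e, -, h | ⟨_, h, -⟩⟩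
  · exact mk_inj e ▸ h.2
  · cases h

theorem lab_some {m : ℕ} {D : Set V → Prop} {x : V} {t t' : Fin m} {W : Set V} (hx : x ∉ W)
    (h1 : t' = t ∨ W.ncard + 1 = m) : lab m D x (Prod.mk t '' W) (some t') ↔ D (insert x W) := by
  refine ⟨?_, fun h => ⟨t, W, rfl, hx, Or.inr ⟨t', rfl, h, h1⟩⟩⟩
  rintro ⟨t', W', e, -, ⟨h, -⟩ | ⟨_, -, h, -⟩⟩
  · cases h
  · exact mk_inj e ▸ h

theorem lab_some' {m : ℕ} {D : Set V → Prop} {x : V} {t t' : Fin m} {W : Set V}
    (h : lab m D x (Prod.mk t '' W) (some t')) : D (insert x W) := by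
  obtain ⟨t', W', e, -, ⟨h, -⟩ | ⟨_, -, h, -⟩⟩ := h
  · cases h
  · exact mk_inj e ▸ h

theorem dec_none {m : ℕ} {l : Set Y → Option (Fin m) → Prop} {W : Set Y} :
    dec l (Sum.inr '' W) ↔ l W none := by
  refine ⟨?_, fun h => ⟨W, Or.inl ⟨rfl, h⟩⟩⟩
  rintro ⟨W', ⟨e, h⟩ | ⟨t, e, -⟩⟩
  · exact Sum.inr_injective.image_injective e ▸ h
  · have : Sum.inl t ∈ (Sum.inr '' W : Set (Fin m ⊕ Y)) := e ▸ Or.inl rfl
    simp at this

theorem dec_some {m : ℕ} {l : Set Y → Option (Fin m) → Prop} {W : Set Y} {t : Fin m} :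
    dec l (insert (Sum.inl t) (Sum.inr '' W)) ↔ l W (some t) := by
  refine ⟨?_, fun h => ⟨W, Or.inr ⟨t, rfl, h⟩⟩⟩
  rintro ⟨W', ⟨e, h⟩ | ⟨t', e, h⟩⟩
  · have : Sum.inl t ∈ (Sum.inr '' W' : Set (Fin m ⊕ Y)) := e ▸ Or.inl rfl
    simp at this
  · have h1 : Sum.inl t ∈ (insert (Sum.inl t') (Sum.inr '' W') : Set (Fin m ⊕ Y)) :=
      e ▸ Or.inl rfl
    obtain rfl : t = t' := by simpa using h1
    obtain rfl : W = W' := by
      ext y
      simpa using Set.ext_iff.1 e (Sum.inr y)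
    exact h

theorem dec_K [Finite V] [Finite Y] {m : ℕ} (hm : 4 ≤ m) {D : Set V → Prop} (kD : K D)
    (lD : Lv m D) {x : V} {l : Set Y → Option (Fin m) → Prop} (h : Loc m l (lab m D x)) :
    K (dec l) ∧ Lv m (dec l) := by
  have nz : ∀ {W o}, l W o → l W ≠ ⊥ := fun h1 h2 => by
    rw [h2] at h1
    exact h1
  have a : Lv m (dec l) := by
    rintro _ ⟨W, ⟨rfl, h1⟩ | ⟨t, rfl, h1⟩⟩
    · obtain ⟨s', e1, e2⟩ := h.2 W (nz h1)
      rw [← e2] at h1
      obtain ⟨t, W', rfl, hx, -⟩ := id h1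
      rw [ncard_image_of_injective _ Sum.inr_injective, ← e1,
        ncard_image_of_injective _ (Prod.mk_right_injective t)]
      exact lD _ ((lab_none hx).1 h1)
    · obtain ⟨s', e1, e2⟩ := h.2 W (nz h1)
      rw [← e2] at h1
      obtain ⟨t, W', rfl, hx, -⟩ := id h1
      rw [ncard_insert_of_notMem (by simp), ncard_image_of_injective _ Sum.inr_injective, ← e1,
        ncard_image_of_injective _ (Prod.mk_right_injective t), ← ncard_insert_of_notMem hx]
      exact lD _ (lab_some' h1)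
  refine ⟨fun U hU => ?_, a⟩
  have h1 := hU.size hm fun s _ => a s
  have h2 : Irr l (Sum.inr ⁻¹' U) := fun u hu v hv => by
    obtain ⟨s, s1, s2, s3, s4⟩ := hU.irr _ hu _ hv
    obtain ⟨W, ⟨rfl, h1⟩ | ⟨t, rfl, h1⟩⟩ := nb.1 s2
    · exact ⟨W, image_subset_iff.1 s1, nz h1, by simpa using s3, by simpa using s4⟩
    · exact ⟨W, image_subset_iff.1 ((subset_insert _ _).trans s1), nz h1, by simpa using s3,
        by simpa using s4⟩
  have h3 : m < (Sum.inr ⁻¹' U : Set Y).ncard := by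
    have : ∃ t, U ⊆ insert (Sum.inl t) (Sum.inr '' (Sum.inr ⁻¹' U)) := by
      by_cases h4 : ∃ t, Sum.inl t ∈ U
      · obtain ⟨t, ht⟩ := h4
        refine ⟨t, ?_⟩
        rintro (t' | y) hy
        · obtain ⟨s, s1, s2, s3, s4⟩ := hU.irr _ ht _ hy
          obtain ⟨W, ⟨rfl, h1⟩ | ⟨t2, rfl, h1⟩⟩ := nb.1 s2
          · simp at s3
          · simp at s3 s4
            simp [s3, s4]
        · exact Or.inr ⟨y, hy, rfl⟩
      · refine ⟨⟨0, by omega⟩, ?_⟩
        rintro (t' | y) hy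
        · exact (h4 ⟨t', hy⟩).elim
        · exact Or.inr ⟨y, hy, rfl⟩
    obtain ⟨t, ht⟩ := this
    have h4 := ncard_le_ncard ht
    rw [ncard_insert_of_notMem (by simp), ncard_image_of_injective _ Sum.inr_injective] at h4
    omega
  obtain ⟨f, f1, f2⟩ := h.1 _ h2 h3
  have b : ∀ W ⊆ Sum.inr ⁻¹' U, ∀ t W', f '' W = Prod.mk t '' W' →
      InjOn (fun y => (f y).2) W ∧ (fun y => (f y).2) '' W = W' := fun W hW t W' e => by
    refine ⟨fun p hp q hq e' => f1 (hW hp) (hW hq) ?_, by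
      simpa [image_image] using congrArg (image Prod.snd) e⟩
    obtain ⟨p', -, e1⟩ := e ▸ mem_image_of_mem f hp
    obtain ⟨q', -, e2⟩ := e ▸ mem_image_of_mem f hq
    exact Prod.ext (by rw [← e1, ← e2]) e'
  refine kD _ (hU.hom (Sum.elim (fun _ => x) fun y => (f y).2) ?_)
  rintro _ hs ⟨W, ⟨rfl, h1⟩ | ⟨t, rfl, h1⟩⟩
  · have hW := image_subset_iff.1 hs
    rw [← f2 W hW] at h1
    obtain ⟨t, W', e, hx, -⟩ := id h1
    obtain ⟨b1, b2⟩ := b W hW t W' e
    rw [e, lab_none hx] at h1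
    refine ⟨?_, by simpa [image_image, b2] using h1⟩
    rintro _ ⟨p, hp, rfl⟩ _ ⟨q, hq, rfl⟩ e'
    rw [b1 hp hq e']
  · have hW := image_subset_iff.1 ((subset_insert _ _).trans hs)
    rw [← f2 W hW] at h1
    obtain ⟨t', W', e, hx, -⟩ := id h1
    obtain ⟨b1, b2⟩ := b W hW t' W' e
    rw [e] at h1
    refine ⟨?_, by simpa [image_insert_eq, image_image, b2] using lab_some' h1⟩
    rw [injOn_insert (by simp)]
    refine ⟨?_, by simpa [image_image, b2] using hx⟩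
    rintro _ ⟨p, hp, rfl⟩ _ ⟨q, hq, rfl⟩ e'
    rw [b1 hp hq e']

theorem lab_pure1 [Finite V] {m : ℕ} {D : Set V → Prop} (lD : Lv m D) {x : V} (t : Fin m)
    {W : Set V} (hx : x ∉ W) (hW : W.ncard + 1 = m) :
    Pure (lab m D x) (m - 1) (fun o => o ≠ none ∧ D (insert x W)) (Prod.mk t '' W) := by
  refine ⟨by rw [ncard_image_of_injective _ (Prod.mk_right_injective t)]; omega, ?_,
    fun s hs => ?_⟩
  · funext o
    cases o with
    | none =>
      rw [lab_none hx]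
      exact propext ⟨fun h => by have := lD _ h; omega, by simp⟩
    | some t' => simp [lab_some hx (Or.inr hW)]
  · obtain ⟨W', h1, rfl⟩ := subset_image_iff.1 hs.1
    have h2 : W'.ncard < W.ncard := ncard_lt_ncard ⟨h1, fun h => hs.2 (image_mono h)⟩
    funext o
    refine eq_false fun h => ?_
    cases o with
    | none =>
      have := lD _ ((lab_none fun h => hx (h1 h)).1 h)
      omega
    | some t' =>
      have := lD _ (lab_some' h)
      have := ncard_insert_le x W'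
      omega

theorem lab_pure2 [Finite V] {m : ℕ} {D : Set V → Prop} (lD : Lv m D) {x : V} (t : Fin m)
    {W : Set V} (hx : x ∉ W) (hW : W.ncard = m) (hf : ∀ s ⊆ W, ¬ D (insert x s)) :
    Pure (lab m D x) m (fun o => o = none ∧ D W) (Prod.mk t '' W) := by
  refine ⟨by rw [ncard_image_of_injective _ (Prod.mk_right_injective t), hW], ?_,
    fun s hs => ?_⟩
  · funext o
    cases o with
    | none => simp [lab_none hx]
    | some t' => exact propext ⟨fun h => (hf W subset_rfl (lab_some' h)).elim, by simp⟩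
  · obtain ⟨W', h1, rfl⟩ := subset_image_iff.1 hs.1
    have h2 : W'.ncard < W.ncard := ncard_lt_ncard ⟨h1, fun h => hs.2 (image_mono h)⟩
    funext o
    refine eq_false fun h => ?_
    cases o with
    | none =>
      have := lD _ ((lab_none fun h => hx (h1 h)).1 h)
      omega
    | some t' => exact hf W' h1 (lab_some' h)

theorem Sys.Rig.s3a {X : Sys} {m : ℕ} (hm : 4 ≤ m) [Finite V] [Finite V'] {B : Set V → Prop}
    {z : Fin m ⊕ Fin (m - 1) → V} (h : X.Rig m B z) (st : X.St m)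
    (s1 : X.R (fun s : Set (Fin m) => s = univ) fun _ => False) {D : Set V' → Prop} (kD : K D)
    (lD : Lv m D) (x : V') : ∃ D', X.R D D' ∧ Lv m D' ∧
      (∀ W, x ∉ W → W.ncard + 1 = m → D (insert x W) → ¬ D' (insert x W)) ∧
      (∀ W W', x ∉ W → x ∉ W' → W.ncard + 1 = m → W'.ncard + 1 = m → ¬ D (insert x W) →
        ¬ D (insert x W') → D' (insert x W) → D' (insert x W')) ∧
      ∀ W W', x ∉ W → x ∉ W' → W.ncard = m → W'.ncard = m → (∀ s ⊆ W, ¬ D (insert x s)) →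
        (∀ s ⊆ W', ¬ D (insert x s)) → (D W ↔ D W') → (D' W ↔ D' W') := by
  classical
  obtain ⟨Y, _, N, loc, hN⟩ := nr (Option (Fin m) → Prop) (lab m D x) m
    [(m - 1, fun o => o ≠ none ∧ True), (m - 1, fun o => o ≠ none ∧ False),
      (m, fun o => o = none ∧ True), (m, fun o => o = none ∧ False)] (by simp)
  obtain ⟨kC, lC⟩ := dec_K hm kD lD loc
  obtain ⟨C, r, l', hT⟩ := h.mk_edge hm st s1 kC lC (ι := Sum.inl) Sum.inl_injective (by
    rintro ⟨W, ⟨e, -⟩ | ⟨t, e, -⟩⟩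
    · have : Sum.inl (⟨0, by omega⟩ : Fin m) ∈ (Sum.inr '' W : Set (Fin m ⊕ Y)) := e ▸ ⟨_, rfl⟩
      simp at this
    · have a : ∀ t', t' = t := fun t' => by
        have : Sum.inl t' ∈ (insert (Sum.inl t) (Sum.inr '' W) : Set (Fin m ⊕ Y)) := e ▸ ⟨_, rfl⟩
        simpa using this
      have := (a ⟨0, by omega⟩).trans (a ⟨1, by omega⟩).symm
      simp at this)
  obtain ⟨ψ, p1, p2⟩ := hN fun W o => o.elim (C (Sum.inr '' W))
    fun t => C (insert (Sum.inl t) (Sum.inr '' W))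
  have H1 : ∀ t1 t2 W W', x ∉ W → x ∉ W' → W.ncard + 1 = m → W'.ncard + 1 = m →
      (D (insert x W) ↔ D (insert x W')) → ∀ t,
      C (insert (Sum.inl t) (Sum.inr '' (ψ '' (Prod.mk t1 '' W)))) →
      C (insert (Sum.inl t) (Sum.inr '' (ψ '' (Prod.mk t2 '' W')))) := by
    intro t1 t2 W W' h1 h2 h3 h4 h5 t
    have q1 := lab_pure1 lD t1 h1 h3
    have q2 := lab_pure1 lD t2 h2 h4
    rw [← propext h5] at q2
    by_cases h6 : D (insert x W)
    · rw [eq_true h6] at q1 q2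
      exact (congrFun (p2 (_, _) (by simp) _ _ q1 q2) (some t)).to_iff.1
    · rw [eq_false h6] at q1 q2
      exact (congrFun (p2 (_, _) (by simp) _ _ q1 q2) (some t)).to_iff.1
  obtain ⟨t, ht⟩ : ∃ t, ∀ W, x ∉ W → W.ncard + 1 = m → D (insert x W) →
      ¬ C (insert (Sum.inl t) (Sum.inr '' (ψ '' (Prod.mk t '' W)))) := by
    by_contra hc
    push Not at hc
    let t0 : Fin m := ⟨0, by omega⟩
    obtain ⟨W, h1, h2, h3, -⟩ := hc t0
    refine (X.kr r).noH hT (W := Sum.inr '' (ψ '' (Prod.mk t0 '' W))) ?_ ?_ ?_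
    · rw [ncard_image_of_injective _ Sum.inr_injective, ncard_image_of_injective _ p1.1,
        ncard_image_of_injective _ (Prod.mk_right_injective t0),
        ncard_range_fin Sum.inl_injective, h2]
    · exact isCompl_range_inl_range_inr.disjoint.mono_right (image_subset_range _ _)
    · rintro _ ⟨t, rfl⟩
      obtain ⟨W', h4, h5, h6, h7⟩ := hc t
      exact H1 _ _ _ _ h4 h1 h5 h2 (iff_of_true h6 h3) t h7
  let θ : V' → Fin m ⊕ Y := fun v => if v = x then Sum.inl t else Sum.inr (ψ (t, v))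
  have θ1 : ∀ W, x ∉ W → θ '' W = Sum.inr '' (ψ '' (Prod.mk t '' W)) := fun W hW => by
    rw [image_image, image_image]
    exact image_congr fun v hv => if_neg fun e : v = x => hW (e ▸ hv)
  have θ2 : ∀ W, x ∉ W →
      θ '' insert x W = insert (Sum.inl t) (Sum.inr '' (ψ '' (Prod.mk t '' W))) := fun W hW => by
    rw [image_insert_eq, θ1 W hW]
    simp [θ]
  have θ3 : Emb θ D (dec N) := by
    refine ⟨fun u v e => ?_, fun s => propext ?_⟩
    · by_cases hu : u = x <;> by_cases hv : v = x <;> simp [θ, hu, hv] at e ⊢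
      exact congrArg Prod.snd (p1.1 e)
    · by_cases hx : x ∈ s
      · rw [← insert_diff_self_of_mem hx, θ2 _ (by simp), dec_some, p1.2,
          lab_some (by simp) (Or.inl rfl)]
      · rw [θ1 _ hx, dec_none, p1.2, lab_none hx]
  refine ⟨pb θ C, X.pull r θ3 (emb_pb θ3.1 C), l'.pb θ3.1, fun W h1 h2 h3 => ?_,
    fun W W' h1 h2 h3 h4 h5 h6 => ?_, fun W W' h1 h2 h3 h4 h5 h6 h7 => ?_⟩
  · rw [pb, θ2 W h1]
    exact ht W h1 h2 h3
  · rw [pb, pb, θ2 W h1, θ2 W' h2]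
    exact H1 _ _ _ _ h1 h2 h3 h4 (iff_of_false h5 h6) t
  · rw [pb, pb, θ1 W h1, θ1 W' h2]
    have q1 := lab_pure2 lD t h1 h3 h5
    have q2 := lab_pure2 lD t h2 h4 h6
    rw [← propext h7] at q2
    by_cases h8 : D W
    · rw [eq_true h8] at q1 q2
      exact (congrFun (p2 (_, _) (by simp) _ _ q1 q2) none).to_iff
    · rw [eq_false h8] at q1 q2
      exact (congrFun (p2 (_, _) (by simp) _ _ q1 q2) none).to_iff

theorem Sys.Rig.s3b {X : Sys} {m : ℕ} (hm : 4 ≤ m) [Finite V] [Finite V'] {B : Set V → Prop}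
    {z : Fin m ⊕ Fin (m - 1) → V} (h : X.Rig m B z) (st : X.St m)
    (s1 : X.R (fun s : Set (Fin m) => s = univ) fun _ => False) {D : Set V' → Prop} (kD : K D)
    (lD : Lv m D) (x : V') : ∃ D', X.R D D' ∧ Lv m D' ∧
      ∀ s, D' s → s.ncard = m → D s ∧ x ∉ s := by
  obtain ⟨A, kA, b1, b2, -, b4⟩ := att_struct hm K.bot (by simp)
  have lA : Lv m A := fun s hs => (b4 s hs).resolve_left fun h1 => by
    obtain ⟨t, rfl⟩ := subset_range_iff_exists_image_eq.1 h1
    exact (b1 t).1 hs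
  obtain ⟨V1, _, D1, ε1, β1, k1, l1, a1, a2, -, a3, -, a4⟩ :=
    glueK (I := Unit) (U := Empty) kD h.1 (fun u => u.elim)
      (fun u => u.elim) (fun _ u => u.elim) (fun _ u => u.elim) fun _ s => by
        rw [eq_empty_of_isEmpty s, image_empty, image_empty]
        exact propext (iff_of_false (fun h => by simpa using kD.lv _ h)
          fun h1 => by simpa using h.1.lv _ h1)
  have l1 := l1 m lD h.2.1
  let I := {φ : Fin m → V' // Injective φ ∧ ¬ D (range φ) ∧ x ∉ range φ}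
  obtain ⟨V2, _, D2, ε2, α, k2, l2, c1, c2, c3, c4, -, c5⟩ :=
    glueK k1 kA Sum.inl Sum.inl_injective (fun (i : I) y => ε1 (i.1 y))
      (fun i => a1.1.comp i.2.1) fun i s => by
        rw [← image_image ε1, a1.2, (emb_bot i.2.1 (fun s _ => lD s) i.2.2.1).2, b1]
  have l2 := l2 m l1 lA
  have e0 := c1.comp a1
  have eB := c1.comp (a2 ())
  set ε : V' → V2 := fun v => ε2 (ε1 v)
  set β : V → V2 := fun v => ε2 (β1 () v)
  have fr : ∀ s, D2 s → ε x ∈ s → s ⊆ range ε := fun s h1 h2 => by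
    have h3 := c5 (ε1 x) (fun i ⟨y, e⟩ => i.2.2.2 ⟨y, a1.1 e⟩) s h1 h2
    obtain ⟨t, rfl⟩ := subset_range_iff_exists_image_eq.1 h3
    rw [c1.2] at h1
    have h4 := a4 x (by simp) t h1 ((c1.1.mem_set_image).1 h2)
    rintro _ ⟨p, hp, rfl⟩
    obtain ⟨v, rfl⟩ := h4 hp
    exact ⟨v, rfl⟩
  have fβ : ∀ v, β v ∉ range ε := fun v ⟨u, e⟩ => a3 () v (by simp) ⟨u, c1.1 e⟩
  have fβ' : ∀ W, ε x ∉ β '' W := fun W ⟨v, _, e⟩ => fβ v ⟨x, e.symm⟩
  have fβ2 : ∀ W, ∀ s ⊆ β '' W, ¬ D2 (insert (ε x) s) := fun W s h1 h2 => by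
    obtain ⟨p, hp⟩ := nonempty_of_ncard_ne_zero (s := s) (by
      have := l2 _ h2
      have := ncard_insert_le (ε x) s
      omega)
    obtain ⟨v, -, rfl⟩ := h1 hp
    exact fβ v (fr _ h2 (Or.inl rfl) (Or.inr hp))
  obtain ⟨D', r, l', F1, F2, F3⟩ := h.s3a hm st s1 k2 l2 (ε x)
  obtain ⟨e, e1, e2⟩ := h.edge (X.refl h.1) h.2.1
  have cβ : ∀ W, (β '' W).ncard = W.ncard := fun W => ncard_image_of_injective _ eB.1
  have hom : D' (β '' e) := h.homog hm (X.pull r eB (emb_pb eB.1 D')) (l'.pb eB.1)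
    (fun s s' h1 h2 h3 => F3 _ _ (fβ' s) (fβ' s') (by rw [cβ, h1]) (by rw [cβ, h2]) (fβ2 s)
      (fβ2 s') (by rwa [eB.2, eB.2])) e2 e1
  have G1 : ∀ W, ε x ∉ W → W.ncard + 1 = m → ¬ D' (insert (ε x) W) := fun W h1 h2 h3 => by
    by_cases h4 : D2 (insert (ε x) W)
    · exact F1 W h1 h2 h4 h3
    obtain ⟨T, t1, t2⟩ := exists_subset_card_eq (s := range z) (n := m - 2) (by
      rw [← image_univ, ncard_image_of_injective _ h.2.2.2.1]
      simp
      omega)
    have t3 : Disjoint e T := (h.2.2.2.2 e e1).mono_right t1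
    refine (X.kr r).noH hom (W := insert (ε x) (β '' T)) ?_ ?_ ?_
    · rw [ncard_insert_of_notMem (fβ' T), cβ, cβ]
      omega
    · rw [disjoint_insert_right]
      exact ⟨fβ' e, (disjoint_image_iff eB.1).2 t3⟩
    · rintro _ ⟨v, hv, rfl⟩
      rw [insert_comm, ← image_insert_eq]
      refine F2 W _ h1 (fβ' _) h2 ?_ h4 (fβ2 _ _ subset_rfl) h3
      rw [cβ, ncard_insert_of_notMem (disjoint_left.1 t3 hv)]
      omega
  refine ⟨pb ε D', X.pull r e0 (emb_pb e0.1 D'), l'.pb e0.1, fun s h1 h2 => ?_⟩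
  have hx : x ∉ s := fun hx => by
    rw [pb, ← insert_diff_self_of_mem hx, image_insert_eq] at h1
    refine G1 _ (by simp [e0.1.mem_set_image]) ?_ h1
    rw [ncard_image_of_injective _ e0.1, ncard_diff_singleton_add_one hx, h2]
  refine ⟨by_contra fun hs => ?_, hx⟩
  obtain ⟨φ, hφ, rfl⟩ := exists_inj h2 (toFinite _)
  let i : I := ⟨φ, hφ, hs, hx⟩
  have fα : ∀ y, α i (Sum.inr y) ∉ range ε := fun y ⟨u, e⟩ => c4 i _ (by simp) ⟨_, e⟩
  refine (X.kr r).noH' hm (c2 i).1 ?_ fun y => ?_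
  · simp only [pb, ← range_comp] at h1 ⊢
    convert h1 using 2
    funext y
    exact c3 i y
  · have u1 : α i '' insert (Sum.inl y) (range Sum.inr) ∩ range ε ⊆ {α i (Sum.inl y)} := by
      rintro _ ⟨⟨_, rfl | ⟨w, rfl⟩, rfl⟩, h3⟩
      · rfl
      · exact (fα w h3).elim
    refine (F3 _ _ ?_ (fβ' e) ?_ (by rw [cβ, e2]) (fun s h3 h4 => ?_) (fβ2 e) ?_).2 hom
    · intro h3
      have h4 : ε x = α i (Sum.inl y) := u1 ⟨h3, x, rfl⟩
      rw [c3] at h4
      exact hx ⟨y, (e0.1 h4).symm⟩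
    · rw [ncard_image_of_injective _ (c2 i).1, att_card hm]
    · have h5 : s ⊆ {α i (Sum.inl y)} := fun p hp =>
        u1 ⟨h3 hp, fr _ h4 (Or.inl rfl) (Or.inr hp)⟩
      have h6 := ncard_le_ncard h5
      rw [ncard_singleton] at h6
      have := l2 _ h4
      have := ncard_insert_le (ε x) s
      omega
    · rw [eB.2, (c2 i).2]
      exact iff_of_true (b2 y) e1

theorem Sys.step (X : Sys) {m : ℕ} (hm : 4 ≤ m) (st : X.St m)
    (s1 : X.R (fun s : Set (Fin m) => s = univ) fun _ => False) : X.St (m + 1) := by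
  by_contra hn
  obtain ⟨V, _, B, z, h⟩ := X.exists_rig st hn
  have a : ∀ S : Set V, S.Finite → ∃ D, X.R B D ∧ Lv m D ∧
      ∀ s, D s → s.ncard = m → ∀ x ∈ S, x ∉ s := by
    intro S hS
    induction S, hS using Set.Finite.induction_on with
    | empty => exact ⟨B, X.refl h.1, h.2.1, by simp⟩
    | @insert x S _ _ ih =>
      obtain ⟨D, r, l, h1⟩ := ih
      obtain ⟨D', r', l', h2⟩ := h.s3b hm st s1 (X.kr r) l x
      refine ⟨D', X.trans r r', l', fun s h3 h4 => ?_⟩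
      rintro y (rfl | hy)
      · exact (h2 s h3 h4).2
      · exact h1 s (h2 s h3 h4).1 h4 y hy
  obtain ⟨D, r, l, h1⟩ := a univ (toFinite _)
  obtain ⟨s, h2, h3⟩ := h.edge r l
  obtain ⟨y, hy⟩ := nonempty_of_ncard_ne_zero (s := s) (by omega)
  exact h1 s h2 h3 y trivial hy

theorem Sys.main (X : Sys) (viol : ∀ m, 4 ≤ m → ∃ (V : Type) (E E' : Set V → Prop) (s : Set V),
    X.R E E' ∧ s.ncard = m ∧ E s ∧ ¬ E' s) [Finite V] {E : Set V → Prop} (h : K E) :
    X.R E fun _ => False := by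
  have a : ∀ m, 4 ≤ m → X.St m := fun m hm => by
    induction m, hm using Nat.le_induction with
    | base => exact fun V _ E h => ⟨E, X.refl h, h.lv⟩
    | succ m hm ih =>
      obtain ⟨V, E, E', s, h1, h2, h3, h4⟩ := viol m hm
      exact X.step hm ih (X.s1 hm ih h1 h2 h3 h4)
  obtain ⟨E', r, l⟩ := a ((univ : Set V).ncard + 4) (by omega) V E h
  convert r
  rename_i s
  refine iff_of_false id fun hs => ?_
  have := l s hs
  have := ncard_le_ncard (subset_univ s)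
  omega

end Pool.Agent.H66.Max
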