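import Pool.Agent.H66.Max3

set_option autoImplicit false

namespace Pool.Agent.H66.Max

open Set Function Pool.Agent.H66.NR

/-- one-point extension property -/
def Gen (M : Set ℕ → Prop) : Prop :=
  K M ∧ (∀ s, M s → s.Finite) ∧ ∀ (A : Set ℕ) (F : Set (Set ℕ)), A.Finite → (∀ W ∈ F, W ⊆ A) →
    (∀ n ∉ A, K fun s => (M s ∧ s ⊆ A) ∨ ∃ W ∈ F, s = insert n W) →
    ∃ n ∉ A, ∀ W ⊆ A, M (insert n W) ↔ W ∈ F

theorem Bad.finite {V : Type} {E : Set V → Prop} {U : Set V} (h : Bad E U)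
    (hf : ∀ s, E s → s.Finite) : U.Finite := by
  rcases h with h | ⟨S, W, rfl, h1, h2, h3, h4, h5⟩ | ⟨S, x, rfl, h1, h2, h3, h4⟩
  · exact hf _ h.1
  · exact (hf _ h1).union (finite_of_ncard_ne_zero (by omega))
  · exact (hf _ h1).insert _

theorem exists_gen : ∃ M, Gen M := by
  obtain ⟨f, hf⟩ := (countable_setOf_finite_subset
    (countable_setOf_finite_subset (countable_univ (α := ℕ)))).exists_eq_range ⟨∅, by simp⟩
  let nw : ℕ → Set ℕ → Prop := fun n s => ∃ W ∈ f n.unpair.1, W ⊆ Iio n ∧ s = insert n W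
  let G : ℕ → Set ℕ → Prop := fun n => Nat.rec (fun _ => False)
    (fun n G s => G s ∨ (K (fun s => G s ∨ nw n s) ∧ nw n s)) n
  have G1 : ∀ n s, G (n + 1) s ↔ G n s ∨ (K (fun s => G n s ∨ nw n s) ∧ nw n s) :=
    fun _ _ => Iff.rfl
  have kG : ∀ n, K (G n) := fun n => by
    induction n with
    | zero => exact K.bot
    | succ n ih =>
      by_cases h : K fun s => G n s ∨ nw n s
      · exact fun U => h.sub fun s _ hs => ((G1 _ _).1 hs).imp_right And.right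
      · exact fun U => ih.sub fun s _ hs => ((G1 _ _).1 hs).resolve_right fun h' => h h'.1
  have bG : ∀ n s, G n s → s ⊆ Iio n := fun n => by
    induction n with
    | zero => exact fun _ h => h.elim
    | succ n ih =>
      rintro s (h | ⟨-, W, -, h, rfl⟩)
      · exact (ih s h).trans (Iio_subset_Iio (by omega))
      · exact insert_subset (by simp) (h.trans (Iio_subset_Iio (by omega)))
  have mG : ∀ n k s, G k s → s ⊆ Iio n → G n s := fun n k s h1 h2 => by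
    rcases le_total k n with h | h
    · clear h2
      induction n, h using Nat.le_induction with
      | base => exact h1
      | succ n _ ih => exact Or.inl ih
    · induction k, h using Nat.le_induction with
      | base => exact h1
      | succ k hk ih =>
        rcases h1 with h1 | ⟨-, W, -, -, rfl⟩
        · exact ih h1
        · have : k < n := h2 (Or.inl rfl)
          omega
  have fin : ∀ s, (∃ n, G n s) → s.Finite := fun s ⟨n, h⟩ => (finite_Iio n).subset (bG n s h)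
  refine ⟨fun s => ∃ n, G n s, fun U hU => ?_, fin, fun A F hA hF hK => ?_⟩
  · obtain ⟨n, hn⟩ := (hU.finite fin).bddAbove
    exact (kG (n + 1)).sub (fun s hs ⟨k, h⟩ => mG _ k s h fun x hx =>
      Nat.lt_succ_of_le (hn (hs hx))) hU
  obtain ⟨c, hc⟩ : F ∈ range f := hf ▸ ⟨hA.finite_subsets.subset hF,
    fun W hW => ⟨hA.subset (hF W hW), subset_univ _⟩⟩
  obtain ⟨N, hN⟩ := hA.bddAbove
  obtain ⟨n, n1, n2⟩ : ∃ n, f n.unpair.1 = F ∧ A ⊆ Iio n := ⟨Nat.pair c (N + 1), by simp [hc],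
    fun x hx => (Nat.lt_succ_of_le (hN hx)).trans_le (Nat.right_le_pair _ _)⟩
  have n3 : n ∉ A := fun h => lt_irrefl n (n2 h)
  have k1 : K fun s => G n s ∨ nw n s := fun U hU => by
    by_cases hn : n ∈ U
    · have h1 : U ⊆ insert n A := fun u hu => by
        obtain ⟨s, -, s2, s3, s4⟩ := hU.irr _ hn _ hu
        rcases nb.1 s2 with h | ⟨W, h, -, rfl⟩
        · exact (lt_irrefl n (bG n s h s3)).elim
        · exact insert_subset_insert (hF W (n1 ▸ h)) s4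
      refine (hK n n3).sub ?_ hU
      rintro s hs (h | ⟨W, h, -, rfl⟩)
      · exact Or.inl ⟨⟨n, h⟩, fun x hx => (h1 (hs hx)).resolve_left fun e =>
          (bG n s h hx).ne e⟩
      · exact Or.inr ⟨W, n1 ▸ h, rfl⟩
    · refine (kG n).sub ?_ hU
      rintro s hs (h | ⟨W, h, -, rfl⟩)
      · exact h
      · exact (hn (hs (Or.inl rfl))).elim
  refine ⟨n, n3, fun W hW => ⟨fun ⟨k, h⟩ => ?_,
    fun h => ⟨n + 1, Or.inr ⟨k1, W, n1 ▸ h, hW.trans n2, rfl⟩⟩⟩⟩
  rcases mG (n + 1) k _ h (insert_subset (by simp)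
    ((hW.trans n2).trans (Iio_subset_Iio (by omega)))) with h | ⟨-, W', h1, h2, e⟩
  · exact (lt_irrefl n (bG n _ h (Or.inl rfl))).elim
  · rwa [← insert_diff_self_of_notMem (fun h => n3 (hW h) : n ∉ W), e,
      insert_diff_self_of_notMem (fun h => lt_irrefl n (h2 h) : n ∉ W'), ← n1]

theorem Gen.step {M : Set ℕ → Prop} (g : Gen M) {V V' : Type} [Nonempty V] {E : Set V' → Prop}
    (kE : K E) {j : ℕ} {c : V → V'} {a : V → ℕ} {A : Set V} (hA : A.Finite) (hc : InjOn c A)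
    (ha : InjOn a A) (h : ∀ s ⊆ A, j ≤ s.ncard → (E (c '' s) ↔ M (a '' s))) {x : V'}
    (hx : x ∉ c '' A) : ∃ n ∉ a '' A, ∀ s ⊆ A, j ≤ s.ncard + 1 →
      (E (insert x (c '' s)) ↔ M (insert n (a '' s))) := by
  classical
  obtain ⟨n, h1, h2⟩ := g.2.2 (a '' A)
    {W | ∃ s ⊆ A, j ≤ s.ncard + 1 ∧ E (insert x (c '' s)) ∧ W = a '' s} (hA.image a) (by
      rintro _ ⟨s, h1, -, -, rfl⟩
      exact image_mono h1) fun n hn U hU => by
    obtain ⟨r, hr, hv⟩ := hU.cover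
    rcases lt_or_ge r j with h1 | h1
    · have h2 : n ∉ U := fun h2 => by
        obtain ⟨_, -, h3 | ⟨_, ⟨s, s1, s2, -, rfl⟩, rfl⟩, h4, h5⟩ := hv n h2
        · exact hn (h3.2 h5)
        · rw [ncard_insert_of_notMem (fun h => hn (image_mono s1 h)) ((hA.subset s1).image a),
            (ha.mono s1).ncard_image] at h4
          omega
      refine g.1.sub ?_ hU
      rintro s hs (h3 | ⟨W, -, rfl⟩)
      · exact h3.1
      · exact (h2 (hs (Or.inl rfl))).elim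
    · let b : ℕ → V' := fun k => if k = n then x else c (invFunOn a A k)
      have b1 : ∀ v ∈ A, b (a v) = c v := fun v hv => by
        simp only [b]
        rw [if_neg fun e => hn ⟨v, hv, e⟩, ha.leftInvOn_invFunOn hv]
      have b2 : ∀ s ⊆ A, b '' (a '' s) = c '' s := fun s hs => by
        rw [image_image]
        exact image_congr fun v hv => b1 v (hs hv)
      have b3 : InjOn b (insert n (a '' A)) := by
        rw [injOn_insert hn, b2 A subset_rfl]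
        refine ⟨?_, by simpa [b] using hx⟩
        rintro _ ⟨u, hu, rfl⟩ _ ⟨v, hv, rfl⟩ e
        rw [b1 u hu, b1 v hv] at e
        rw [hc hu hv e]
      refine kE _ (hr.hom b ?_)
      rintro s - ⟨h3 | ⟨_, ⟨t, t1, -, t2, rfl⟩, rfl⟩, h4⟩
      · refine ⟨b3.mono (h3.2.trans (subset_insert _ _)), ?_⟩
        obtain ⟨t, t1, rfl⟩ := subset_image_iff.1 h3.2
        rw [(ha.mono t1).ncard_image] at h4
        rw [b2 t t1, h t t1 (by omega)]
        exact h3.1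
      · refine ⟨b3.mono (insert_subset_insert (image_mono t1)), ?_⟩
        rw [image_insert_eq, b2 t t1]
        simpa [b] using t2
  refine ⟨n, h1, fun s s1 s2 => ?_⟩
  rw [h2 _ (image_mono s1)]
  refine ⟨fun h => ⟨s, s1, s2, h, rfl⟩, ?_⟩
  rintro ⟨t, t1, -, t2, e⟩
  rwa [ha.image_eq_image_iff s1 t1 |>.1 e]

theorem Gen.ext {M : Set ℕ → Prop} (g : Gen M) {U V : Type} [Finite V] {E : Set V → Prop}
    (kE : K E) {A : Set U → Prop} {ι : U → V} {a : U → ℕ} (h1 : Emb ι A E) (h2 : Emb a A M) :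
    ∃ b, Emb b E M ∧ ∀ u, b (ι u) = a u := by
  classical
  have key : ∀ S : Set V, S.Finite → ∃ b : V → ℕ, (∀ u, b (ι u) = a u) ∧
      InjOn b (S ∪ range ι) ∧ ∀ s ⊆ S ∪ range ι, E s ↔ M (b '' s) := by
    intro S hS
    induction S, hS using Set.Finite.induction_on with
    | empty =>
      have e := fun u => h1.1.extend_apply a (fun _ => 0) u
      refine ⟨extend ι a fun _ => 0, e, ?_, fun s hs => ?_⟩
      · rw [empty_union]
        rintro _ ⟨u, rfl⟩ _ ⟨v, rfl⟩ h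
        rw [e, e] at h
        rw [h2.1 h]
      · rw [empty_union] at hs
        obtain ⟨t, rfl⟩ := subset_range_iff_exists_image_eq.1 hs
        rw [image_image]
        simp only [e]
        rw [h1.2, h2.2]
    | @insert x S _ _ ih =>
      obtain ⟨b, b1, b2, b3⟩ := ih
      rw [insert_union]
      by_cases hx : x ∈ S ∪ range ι
      · rw [insert_eq_of_mem hx]
        exact ⟨b, b1, b2, b3⟩
      have : Nonempty V := ⟨x⟩
      obtain ⟨n, n1, n2⟩ := g.step kE (j := 0) (c := id) (toFinite _) (injOn_id _) b2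
        (fun s hs _ => by simpa using b3 s hs) (x := x) (by simpa using hx)
      have e : ∀ s ⊆ S ∪ range ι, update b x n '' s = b '' s := fun s hs =>
        image_congr fun v hv => update_of_ne (fun e : v = x => hx (e ▸ hs hv)) _ _
      refine ⟨update b x n, fun u => ?_, ?_, fun s hs => ?_⟩
      · rw [update_of_ne fun e : ι u = x => hx (Or.inr ⟨u, e⟩), b1]
      · rw [injOn_insert hx, e _ subset_rfl, update_self]
        exact ⟨b2.congr fun v hv => (update_of_ne (fun e : v = x => hx (e ▸ hv)) _ _).symm, n1⟩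
      · by_cases hs' : x ∈ s
        · have h3 : s \ {x} ⊆ S ∪ range ι := fun v hv => (hs hv.1).resolve_left hv.2
          rw [← insert_diff_self_of_mem hs', image_insert_eq, update_self, e _ h3,
            ← n2 _ h3 (by omega), image_id]
        · have h3 : s ⊆ S ∪ range ι := fun v hv => (hs hv).resolve_left fun e => hs' (e ▸ hv)
          rw [e s h3, b3 s h3]
  obtain ⟨b, b1, b2, b3⟩ := key univ (toFinite _)
  rw [univ_union] at b2 b3
  exact ⟨b, ⟨injOn_univ.1 b2, fun s => propext (b3 s (subset_univ _)).symm⟩, b1⟩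

theorem Gen.univ {M : Set ℕ → Prop} (g : Gen M) {V : Type} [Finite V] {E : Set V → Prop}
    (kE : K E) : ∃ b, Emb b E M := by
  have a : ∀ {W : Type} {E : Set W → Prop}, K E →
      Emb (fun u : Empty => u.elim) (fun _ => False) E :=
    fun h => ⟨fun u => u.elim, fun s => eq_false fun h' => by
      simpa [eq_empty_of_isEmpty s] using h.lv _ h'⟩
  obtain ⟨b, h, -⟩ := g.ext kE (a kE) (a g.1)
  exact ⟨b, h⟩

theorem bf (Φ : Set (ℕ × ℕ) → Prop) (hR : ∀ p, Φ p → ∀ u ∈ p, ∀ v ∈ p, u.1 = v.1 ↔ u.2 = v.2)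
    (hf : ∀ p, Φ p → ∀ a, ∃ b, Φ (insert (a, b) p))
    (hb : ∀ p, Φ p → ∀ b, ∃ a, Φ (insert (a, b) p)) (p0 : Set (ℕ × ℕ)) (h0 : Φ p0) :
    ∃ e : Equiv.Perm ℕ, (∀ u ∈ p0, e u.1 = u.2) ∧
      ∀ s : Set ℕ, s.Finite → ∃ p, Φ p ∧ ∀ a ∈ s, (a, e a) ∈ p := by
  let S := {p // Φ p}
  let D : ℕ ⊕ ℕ → Order.Cofinal S := fun x => match x with
    | Sum.inl a => ⟨{s | ∃ b, (a, b) ∈ s.1}, fun s => by
        obtain ⟨b, h⟩ := hf s.1 s.2 a
        exact ⟨⟨_, h⟩, ⟨b, Or.inl rfl⟩, subset_insert _ _⟩⟩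
    | Sum.inr b => ⟨{s | ∃ a, (a, b) ∈ s.1}, fun s => by
        obtain ⟨a, h⟩ := hb s.1 s.2 b
        exact ⟨⟨_, h⟩, ⟨a, Or.inl rfl⟩, subset_insert _ _⟩⟩
  let I := Order.idealOfCofinals (⟨p0, h0⟩ : S) D
  have key : ∀ p q : ℕ × ℕ, (∃ s ∈ I, p ∈ s.1) → (∃ s ∈ I, q ∈ s.1) → (p.1 = q.1 ↔ p.2 = q.2) := by
    rintro p q ⟨s, hs, hp⟩ ⟨t, ht, hq⟩
    obtain ⟨u, -, h1, h2⟩ := I.directed s hs t ht
    exact hR _ u.2 p (h1 hp) q (h2 hq)
  have hF : ∀ a, ∃ b, ∃ s ∈ I, (a, b) ∈ s.1 := by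
    intro a
    obtain ⟨s, ⟨b, hb⟩, hs⟩ := Order.cofinal_meets_idealOfCofinals (⟨p0, h0⟩ : S) D (Sum.inl a)
    exact ⟨b, s, hs, hb⟩
  have hG : ∀ b, ∃ a, ∃ s ∈ I, (a, b) ∈ s.1 := by
    intro b
    obtain ⟨s, ⟨a, ha⟩, hs⟩ := Order.cofinal_meets_idealOfCofinals (⟨p0, h0⟩ : S) D (Sum.inr b)
    exact ⟨a, s, hs, ha⟩
  choose F hF using hF
  choose G hG using hG
  have m0 := Order.mem_idealOfCofinals (⟨p0, h0⟩ : S) D
  refine ⟨⟨F, G, fun a => (key _ _ (hG (F a)) (hF a)).2 rfl,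
    fun b => (key _ _ (hF (G b)) (hG b)).1 rfl⟩,
    fun p hp => (key _ p (hF p.1) ⟨_, m0, hp⟩).1 rfl, fun s hs => ?_⟩
  have : ∃ p ∈ I, ∀ a ∈ s, (a, F a) ∈ p.1 := by
    induction s, hs using Set.Finite.induction_on with
    | empty => exact ⟨_, m0, by simp⟩
    | @insert x s _ _ ih =>
      obtain ⟨p, h1, h2⟩ := ih
      obtain ⟨q, h3, h4⟩ := hF x
      obtain ⟨u, h5, h6, h7⟩ := I.directed p h1 q h3
      refine ⟨u, h5, ?_⟩
      rintro a (rfl | ha)
      · exact h7 h4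
      · exact h6 (h2 a ha)
  obtain ⟨p, -, h⟩ := this
  exact ⟨p.1, p.2, h⟩

theorem Gen.hom {M : Set ℕ → Prop} (g : Gen M) (j : ℕ) {V : Type} [Finite V] {a b : V → ℕ}
    (ha : Injective a) (hb : Injective b) (h : ∀ s, j ≤ s.ncard → (M (a '' s) ↔ M (b '' s))) :
    ∃ e : Equiv.Perm ℕ, (∀ v, e (a v) = b v) ∧ ∀ s, j ≤ s.ncard → (M (e '' s) ↔ M s) := by
  let Φ : (ℕ × ℕ → ℕ) → (ℕ × ℕ → ℕ) → Set (ℕ × ℕ) → Prop := fun c d p =>
    p.Finite ∧ InjOn c p ∧ InjOn d p ∧ ∀ q ⊆ p, j ≤ q.ncard → (M (c '' q) ↔ M (d '' q))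
  have sy : ∀ c d p, Φ c d p → Φ d c p := fun c d p h =>
    ⟨h.1, h.2.2.1, h.2.1, fun q h1 h2 => (h.2.2.2 q h1 h2).symm⟩
  have st : ∀ c d p, Φ c d p → ∀ x, (∀ n, ∃ u, c u = x ∧ d u = n) →
      ∃ u, c u = x ∧ Φ c d (insert u p) := by
    intro c d p hp x hx
    by_cases h1 : x ∈ c '' p
    · obtain ⟨u, h2, h3⟩ := h1
      exact ⟨u, h3, by rwa [insert_eq_of_mem h2]⟩
    obtain ⟨n, n1, n2⟩ := g.step g.1 hp.1 hp.2.1 hp.2.2.1 hp.2.2.2 h1
    obtain ⟨u, rfl, rfl⟩ := hx n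
    have h2 : u ∉ p := fun h => h1 (mem_image_of_mem c h)
    refine ⟨u, rfl, hp.1.insert u, (injOn_insert h2).2 ⟨hp.2.1, h1⟩,
      (injOn_insert h2).2 ⟨hp.2.2.1, n1⟩, fun q h3 h4 => ?_⟩
    by_cases h5 : u ∈ q
    · have h6 : q \ {u} ⊆ p := fun v hv => (h3 hv.1).resolve_left hv.2
      rw [← insert_diff_self_of_mem h5, image_insert_eq, image_insert_eq]
      refine n2 _ h6 ?_
      rwa [ncard_diff_singleton_add_one h5 ((hp.1.insert u).subset h3)]
    · exact hp.2.2.2 q (fun v hv => (h3 hv).resolve_left fun e => h5 (e ▸ hv)) h4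
  obtain ⟨e, e1, e2⟩ := bf (Φ Prod.fst Prod.snd)
    (fun p hp u hu v hv => ⟨fun e => by rw [hp.2.1 hu hv e], fun e => by rw [hp.2.2.1 hu hv e]⟩)
    (fun p hp x => by
      obtain ⟨u, rfl, h⟩ := st _ _ p hp x fun n => ⟨(x, n), rfl, rfl⟩
      exact ⟨u.2, h⟩)
    (fun p hp x => by
      obtain ⟨u, rfl, h⟩ := st _ _ p (sy _ _ _ hp) x fun n => ⟨(n, x), rfl, rfl⟩
      exact ⟨u.1, sy _ _ _ h⟩)
    (range fun v => (a v, b v)) ⟨finite_range _, by
      rintro _ ⟨u, rfl⟩ _ ⟨v, rfl⟩ e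
      rw [ha e], by
      rintro _ ⟨u, rfl⟩ _ ⟨v, rfl⟩ e
      rw [hb e], fun q h1 h2 => by
      obtain ⟨t, rfl⟩ := subset_range_iff_exists_image_eq.1 h1
      rw [ncard_image_of_injective _ fun u v e => ha (congrArg Prod.fst e)] at h2
      rw [image_image, image_image]
      exact h t h2⟩
  refine ⟨e, fun v => e1 _ ⟨v, rfl⟩, fun s hs => ?_⟩
  by_cases h1 : s.Finite
  · obtain ⟨p, p1, p2⟩ := e2 s h1
    have := p1.2.2.2 ((fun k => (k, e k)) '' s) (image_subset_iff.2 p2) (by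
      rwa [ncard_image_of_injective _ fun u v e => congrArg Prod.fst e])
    simpa [image_image] using this.symm
  · exact iff_of_false (fun h2 => h1 ((g.2.1 _ h2).of_finite_image e.injective.injOn))
      fun h2 => h1 (g.2.1 _ h2)

/-- automorphism group of a family of sets -/
def Aut (Φ : Set ℕ → Prop) : Subgroup (Equiv.Perm ℕ) where
  carrier := {g | ∀ s, Φ (g '' s) ↔ Φ s}
  one_mem' := fun s => by simp
  mul_mem' := fun {a b} ha hb s => by
    rw [Equiv.Perm.coe_mul, image_comp, ha, hb]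
  inv_mem' := fun {a} ha s => by
    rw [← ha, image_image]
    simp

theorem Aut.closed {Φ : Set ℕ → Prop} (h : ∀ s, Φ s → s.Finite) (σ : Equiv.Perm ℕ)
    (hσ : ∀ A : Finset ℕ, ∃ g ∈ Aut Φ, ∀ a ∈ A, g a = σ a) : σ ∈ Aut Φ := fun s => by
  by_cases h1 : s.Finite
  · obtain ⟨g, g1, g2⟩ := hσ h1.toFinset
    rw [← g1 s, image_congr fun a ha => g2 a (h1.mem_toFinset.2 ha)]
  · exact iff_of_false (fun h2 => h1 ((h _ h2).of_finite_image σ.injective.injOn))
      fun h2 => h1 (h _ h2)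

def P (M : Set ℕ → Prop) (m : ℕ) := Aut fun s => M s ∧ s.ncard = m

theorem mem_P {M : Set ℕ → Prop} {m : ℕ} {g : Equiv.Perm ℕ} :
    g ∈ P M m ↔ ∀ s, s.ncard = m → (M (g '' s) ↔ M s) :=
  forall_congr' fun s => by
    beta_reduce
    rw [ncard_image_of_injective _ g.injective]
    tauto

theorem Gen.apex {M : Set ℕ → Prop} (g : Gen M) {m : ℕ} (hm : 4 ≤ m) {s : Set ℕ}
    (h1 : s.ncard = m + 1) (h2 : ¬ M s) :
    ∃ x ∉ s, ∀ T ⊆ s, T.ncard + 2 = s.ncard → M (insert x T) := by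
  have fs : s.Finite := finite_of_ncard_ne_zero (by omega)
  obtain ⟨n, n1, n2⟩ := g.2.2 s {T | T ⊆ s ∧ T.ncard + 2 = s.ncard} fs (fun _ h => h.1)
    fun n hn U hU => by
    have c : ∀ T ⊆ s, T.ncard + 2 = s.ncard → (insert n T).ncard = m := fun T t1 t2 => by
      rw [ncard_insert_of_notMem (fun h => hn (t1 h)) (fs.subset t1)]
      omega
    by_cases h3 : n ∈ U
    · obtain ⟨r, hr, hv⟩ := hU.cover
      obtain rfl : m = r := by
        obtain ⟨_, -, h4 | ⟨T, t1, rfl⟩, h5, h6⟩ := hv n h3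
        · exact (hn (h4.2 h6)).elim
        · rw [← h5, c T t1.1 t1.2]
      have h4 : U ⊆ insert n s := fun u hu => by
        obtain ⟨_, -, h4 | ⟨T, t1, rfl⟩, -, h6⟩ := hv u hu
        · exact Or.inr (h4.2 h6)
        · exact insert_subset_insert t1.1 h6
      have h5 := ncard_le_ncard h4 (fs.insert n)
      rw [ncard_insert_of_notMem hn fs] at h5
      rcases hr with h6 | ⟨S, W, rfl, b1, b2, b3, b4, -⟩ | ⟨S, x, rfl, b1, b2, b3, b4⟩
      · omega
      · rw [ncard_union_eq b4 (finite_of_ncard_ne_zero (by omega))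
          (finite_of_ncard_ne_zero (by omega))] at h5
        omega
      · obtain ⟨y, hy⟩ := nonempty_of_ncard_ne_zero (s := S) (by omega)
        obtain ⟨T, t1, -, t2⟩ := sub_two b2 hy
        have c1 := (b4 T t1 t2).2
        have := ncard_insert_le x T
        rcases b1.1 with h6 | ⟨T', t3, rfl⟩
        · exact h2 (eq_of_subset_of_ncard_le h6.2 (by omega) fs ▸ h6.1)
        · have := c T' t3.1 t3.2
          omega
    · refine g.1.sub ?_ hU
      rintro s hs (h3 | ⟨W, -, rfl⟩)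
      · exact h3.1
      · exact (h3 (hs (Or.inl rfl))).elim
  exact ⟨n, n1, fun T t1 t2 => (n2 T t1).2 ⟨t1, t2⟩⟩

theorem Gen.P_le {M : Set ℕ → Prop} (g : Gen M) {m : ℕ} (hm : 4 ≤ m) : P M m ≤ P M (m + 1) := by
  have a : ∀ e ∈ P M m, ∀ s, s.ncard = m + 1 → M (e '' s) → M s := fun e he s h1 h2 => by
    by_contra h3
    obtain ⟨x, x1, x2⟩ := g.apex hm h1 h3
    refine g.1.noA h2 (x := e x) (by simpa using x1) fun T t1 t2 => ?_
    obtain ⟨T, t3, rfl⟩ := subset_image_iff.1 t1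
    rw [ncard_image_of_injective _ e.injective, ncard_image_of_injective _ e.injective] at t2
    rw [← image_insert_eq, mem_P.1 he]
    · exact x2 T t3 t2
    · rw [ncard_insert_of_notMem (fun h => x1 (t3 h)) (finite_of_ncard_ne_zero (by omega))]
      omega
  refine fun e he => mem_P.2 fun s hs => ⟨a e he s hs, fun h => a e⁻¹ (inv_mem he) _ ?_ ?_⟩
  · rwa [ncard_image_of_injective _ e.injective]
  · simpa [image_image] using h

theorem Gen.P_lt {M : Set ℕ → Prop} (g : Gen M) {m : ℕ} (hm : 4 ≤ m) :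
    ∃ e ∈ P M (m + 1), e ∉ P M m := by
  obtain ⟨a, ha⟩ := g.univ (K.top hm)
  obtain ⟨b, hb⟩ := g.univ (K.bot (V := Fin m))
  obtain ⟨e, e1, e2⟩ := g.hom (m + 1) ha.1 hb.1 fun s hs => by
    have := ncard_le_ncard (subset_univ s)
    simp at this
    omega
  refine ⟨e, mem_P.2 fun s hs => e2 s hs.ge, fun h => ?_⟩
  have := mem_P.1 h (a '' Set.univ) (by rw [ncard_image_of_injective _ ha.1]; simp)
  simp only [image_image, e1] at this
  rw [ha.2, hb.2] at this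
  simpa using this

theorem Gen.hom0 {M : Set ℕ → Prop} (g : Gen M) {V : Type} [Finite V] {a b : V → ℕ}
    {E : Set V → Prop} (ha : Emb a E M) (hb : Emb b E M) : ∃ e ∈ Aut M, ∀ v, e (a v) = b v := by
  obtain ⟨e, e1, e2⟩ := g.hom 0 ha.1 hb.1 fun s _ => by rw [ha.2, hb.2]
  exact ⟨e, fun s => e2 s (by omega), e1⟩

def Gen.sys {M : Set ℕ → Prop} (g : Gen M) (F : Subgroup (Equiv.Perm ℕ)) (hF : Aut M ≤ F) :
    Sys where
  R := fun E E' => ∃ a, ∃ e ∈ F, Emb a E M ∧ Emb (fun v => e (a v)) E' M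
  refl := fun h => by
    obtain ⟨a, ha⟩ := g.univ h
    exact ⟨a, 1, one_mem _, ha, ha⟩
  symm := fun ⟨_, e, h1, h2, h3⟩ => ⟨_, e⁻¹, inv_mem h1, h3, by simpa using h2⟩
  trans := fun ⟨a, e, h1, h2, h3⟩ ⟨a', e', h4, h5, h6⟩ => by
    obtain ⟨f, f1, f2⟩ := g.hom0 h3 h5
    exact ⟨a, e' * f * e, mul_mem (mul_mem h4 (hF f1)) h1, h2, by simpa [f2] using h6⟩
  kr := fun ⟨_, _, _, _, h3⟩ => g.1.hom _ fun s hs => ⟨h3.1.injOn, (h3.2 s).symm ▸ hs⟩
  pull := fun ⟨_, e, h1, h2, h3⟩ h4 h5 => ⟨_, e, h1, h2.comp h4, h3.comp h5⟩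
  ext := fun k h ⟨a, e, h1, h2, h3⟩ => by
    obtain ⟨b, b1, b2⟩ := g.ext k h h2
    refine ⟨pb (fun v => e (b v)) M, ⟨b, e, h1, b1, emb_pb (e.injective.comp b1.1) M⟩, h.1,
      fun s => ?_⟩
    rw [pb, image_image]
    simp only [b2]
    exact h3.2 s

theorem Gen.main {M : Set ℕ → Prop} (g : Gen M) (F : Subgroup (Equiv.Perm ℕ)) (hF : Aut M ≤ F)
    (hP : ∀ m, 4 ≤ m → ¬ F ≤ P M m) (σ : Equiv.Perm ℕ) (A : Finset ℕ) :
    ∃ e ∈ F, ∀ a ∈ A, e a = σ a := by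
  let X := g.sys F hF
  have a : ∀ E : Set A → Prop, K E → X.R E fun _ => False := fun E hE => X.main (fun m hm => by
    by_contra hc
    refine hP m hm fun e he => mem_P.2 fun s hs => ?_
    have r : X.R M (pb e M) := ⟨fun x => x, e, he, Emb.id M, emb_pb e.injective M⟩
    exact ⟨fun h => by_contra fun h' => hc ⟨ℕ, _, _, s, X.symm r, hs, h, h'⟩,
      fun h => by_contra fun h' => hc ⟨ℕ, _, _, s, r, hs, h, h'⟩⟩) hE
  have i1 : Injective fun x : A => (x : ℕ) := Subtype.val_injective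
  have i2 : Injective fun x : A => σ x := σ.injective.comp i1
  obtain ⟨b, e, h1, h2, h3⟩ := X.trans (a _ (g.1.pull i1)) (X.symm (a _ (g.1.pull i2)))
  obtain ⟨f1, h4, h5⟩ := g.hom0 (emb_pb i1 M) h2
  obtain ⟨f2, h6, h7⟩ := g.hom0 h3 (emb_pb i2 M)
  exact ⟨f2 * e * f1, mul_mem (mul_mem (hF h6) h1) (hF h4), fun x hx => by
    simpa [h5 ⟨x, hx⟩] using (h5 ⟨x, hx⟩).symm ▸ h7 ⟨x, hx⟩⟩

end Pool.Agent.H66.Max
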