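import Mathlib

/-! Hereditary classes of structures with one binary relation and MC-finite sequences. -/

namespace Pool.Agent.H66.Mc

/-- closed under isomorphism and induced substructures -/
def Hered (C : ∀ n, Set (Set (Fin n × Fin n))) : Prop :=
  ∀ m n (e : Fin m ↪ Fin n), ∀ R ∈ C n, {x | (e x.1, e x.2) ∈ R} ∈ C m

def MCFinite (s : ℕ → ℕ) : Prop :=
  ∀ m : ℕ, 1 ≤ m → ∃ r p : ℕ, 1 ≤ r ∧ 1 ≤ p ∧ ∃ a : ℕ → ℤ, ∀ n, r ≤ n →
    (s (n + p) : ℤ) ≡ ∑ i ∈ Finset.range p, a i * s (n + i) [ZMOD m]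

end Pool.Agent.H66.Mc
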