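import Mathlib

set_option autoImplicit false

namespace Pool.Agent.H66.MinPd

open CategoryTheory MvPolynomial

theorem pd_le_one {R : Type} [CommRing R] (a : R) (ha : ∀ f, f * a = 0 → f = 0) :
    HasProjectiveDimensionLE (ModuleCat.of R (R ⧸ Ideal.span {a})) 1 := by
  have hex : Function.Exact (LinearMap.toSpanSingleton R R a) (Ideal.span {a}).mkQ := by
    rw [LinearMap.exact_iff, Submodule.ker_mkQ, LinearMap.range_toSpanSingleton]
  have hS := ModuleCat.shortComplex_shortExact
    (ModuleCat.shortComplexOfCompEqZero (LinearMap.toSpanSingleton R R a) (Ideal.span {a}).mkQ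
      hex.linearMap_comp_eq_zero) hex
    ((injective_iff_map_eq_zero _).2 fun f hf => ha f (by simpa using hf))
    (Submodule.mkQ_surjective _)
  have h1 : Projective (ModuleCat.of R R) := inferInstance
  exact hS.hasProjectiveDimensionLT_X₃ 1 (projective_iff_hasProjectiveDimensionLT_one.1 h1)
    (hasProjectiveDimensionLT_of_ge (ModuleCat.of R R) 1 2 (by omega))

theorem abstract {S : Type} [CommRing S] [IsNoetherianRing S] [IsLocalRing S]
    (P1 P2 Q : Ideal S) [P1.IsPrime] [P2.IsPrime] [Q.IsPrime] (a : S) (h1 : a ∉ P1) (h2 : a ∉ P2)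
    (h3 : a ∈ Q) (h4 : P1 ≤ Q) (h5 : ¬ P1 ≤ P2) (h6 : ¬ P2 ≤ Q)
    (h7 : ∀ q : Ideal S, P2 ≤ q → a ∈ q → Q ≤ q) :
    ∃ (R : Type) (_ : CommRing R) (_ : IsNoetherianRing R) (_ : IsLocalRing R)
      (N : Type) (_ : AddCommGroup N) (_ : Module R N), Module.Finite R N ∧ Nontrivial N ∧
      HasProjectiveDimensionLE (ModuleCat.of R N) 1 ∧
      ∃ p ∈ minimalPrimes R, ∀ q ∈ (Module.annihilator R N).minimalPrimes, ¬ p ≤ q := by
  set I := P1 ⊓ P2 with hI
  let mk := Ideal.Quotient.mk I
  have hsurj : Function.Surjective mk := Ideal.Quotient.mk_surjective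
  have hker : RingHom.ker mk = I := Ideal.mk_ker
  have hprime : ∀ P : Ideal S, P.IsPrime → I ≤ P → (P.map mk).IsPrime := fun P hP h =>
    Ideal.map_isPrime_of_surjective hsurj (hker.le.trans h)
  have hcm : ∀ P : Ideal S, I ≤ P → (P.map mk).comap mk = P := fun P h => by
    rw [Ideal.comap_map_of_surjective _ hsurj, ← RingHom.ker_eq_comap_bot, hker, sup_eq_left.2 h]
  have hQ := hprime Q inferInstance (inf_le_left.trans h4)
  have hle : ∀ q : Ideal (S ⧸ I), I ≤ q.comap mk := fun q => hker.ge.trans (Ideal.ker_le_comap mk)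
  have : Nontrivial (S ⧸ I) := Ideal.Quotient.nontrivial_iff.2
    (ne_top_of_le_ne_top (Ideal.IsPrime.ne_top inferInstance) (inf_le_left : I ≤ P1))
  have haQ : Ideal.span {mk a} ≤ Q.map mk :=
    (Ideal.span_singleton_le_iff_mem _).2 (Ideal.mem_map_of_mem _ h3)
  refine ⟨S ⧸ I, inferInstance, inferInstance, IsLocalRing.of_surjective' mk hsurj,
    (S ⧸ I) ⧸ Ideal.span {mk a}, inferInstance, inferInstance, inferInstance,
    Ideal.Quotient.nontrivial_iff.2 (ne_top_of_le_ne_top hQ.ne_top haQ), pd_le_one _ ?_,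
    P2.map mk, ⟨⟨hprime P2 inferInstance inf_le_right, bot_le⟩, ?_⟩, ?_⟩
  · intro f hf
    obtain ⟨f, rfl⟩ := hsurj f
    rw [← map_mul, Ideal.Quotient.eq_zero_iff_mem] at hf
    exact Ideal.Quotient.eq_zero_iff_mem.2 ⟨(Ideal.IsPrime.mem_or_mem inferInstance hf.1).resolve_right h1,
      (Ideal.IsPrime.mem_or_mem inferInstance hf.2).resolve_right h2⟩
  · rintro q ⟨hq, -⟩ hq2
    have := Ideal.comap_mono (f := mk) hq2
    rw [hcm P2 inf_le_right] at this
    rw [Ideal.map_le_iff_le_comap]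
    exact ((Ideal.comap_isPrime mk q).inf_le.1 (hle q)).resolve_left fun h => h5 (h.trans this)
  · rw [Ideal.annihilator_quotient]
    intro q hq hp
    rw [Ideal.map_le_iff_le_comap] at hp
    have h8 := h7 _ hp (hq.1.2 (Ideal.mem_span_singleton_self _))
    have h9 := Ideal.comap_mono (f := mk) (hq.2 ⟨hQ, haQ⟩ (Ideal.map_le_iff_le_comap.2 h8))
    rw [hcm Q (inf_le_left.trans h4)] at h9
    exact h6 (hp.trans h9)

abbrev P : Type := MvPolynomial (Fin 3) ℚ

noncomputable def kill (T : Finset (Fin 3)) : P →ₐ[ℚ] P :=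
  aeval fun i => if i ∈ T then 0 else X i

noncomputable def K (T : Finset (Fin 3)) : Ideal P := RingHom.ker (kill T)

instance (T : Finset (Fin 3)) : (K T).IsPrime := RingHom.ker_isPrime _

theorem K_le (T : Finset (Fin 3)) (q : Ideal P) (h : ∀ i ∈ T, X i ∈ q) : K T ≤ q := by
  have : ∀ f, f - kill T f ∈ q := by
    intro f
    induction f using MvPolynomial.induction_on with
    | C a => simp [kill]
    | add f g hf hg => rw [map_add, add_sub_add_comm]; exact q.add_mem hf hg
    | mul_X f i hf =>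
      by_cases hi : i ∈ T
      · simpa [kill, hi] using q.mul_mem_left f (h i hi)
      · have : kill T (X i) = X i := by simp [kill, hi]
        rw [map_mul, this, ← sub_mul]
        exact q.mul_mem_right _ hf
  intro f hf
  simpa [(RingHom.mem_ker).1 hf] using this f

theorem X_mem_K (T : Finset (Fin 3)) (i : Fin 3) : X i ∈ K T ↔ i ∈ T := by
  by_cases hi : i ∈ T <;> simp [K, kill, RingHom.mem_ker, hi]

abbrev Loc {R : Type} [CommRing R] (I : Ideal R) [I.IsPrime] : Type := Localization.AtPrime I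

abbrev S : Type := Loc (K Finset.univ)

noncomputable def L (T : Finset (Fin 3)) : Ideal S := (K T).map (algebraMap P S)

theorem disj (T : Finset (Fin 3)) :
    Disjoint ((K Finset.univ).primeCompl : Set P) (K T) :=
  Set.disjoint_left.2 fun _ h1 h2 => h1 (K_le T _ (fun i _ => by simp [X_mem_K]) h2)

instance (T : Finset (Fin 3)) : (L T).IsPrime :=
  IsLocalization.isPrime_of_isPrime_disjoint _ S _ inferInstance (disj T)

theorem mem_L (T : Finset (Fin 3)) (f : P) : algebraMap P S f ∈ L T ↔ f ∈ K T := by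
  conv_rhs => rw [← IsLocalization.under_map_of_isPrime_disjoint _ S inferInstance (disj T)]
  rfl

theorem L_le (T : Finset (Fin 3)) (q : Ideal S) (h : ∀ i ∈ T, algebraMap P S (X i) ∈ q) :
    L T ≤ q := Ideal.map_le_iff_le_comap.2 (K_le T _ h)

theorem main :
    ∃ (R : Type) (_ : CommRing R) (_ : IsNoetherianRing R) (_ : IsLocalRing R)
      (N : Type) (_ : AddCommGroup N) (_ : Module R N), Module.Finite R N ∧ Nontrivial N ∧
      HasProjectiveDimensionLE (ModuleCat.of R N) 1 ∧
      ∃ p ∈ minimalPrimes R, ∀ q ∈ (Module.annihilator R N).minimalPrimes, ¬ p ≤ q := by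
  refine abstract (L {0}) (L {1, 2}) (L {0, 1}) (algebraMap P S (X 0 + X 1)) ?_ ?_ ?_ ?_ ?_ ?_ ?_
  · simp [mem_L, K, kill, RingHom.mem_ker, -map_add]
    simp
  · simp [mem_L, K, kill, RingHom.mem_ker, -map_add]
    simp
  · simp [mem_L, K, kill, RingHom.mem_ker, -map_add]
    simp
  · exact L_le _ _ (by simp [mem_L, X_mem_K])
  · intro h
    simpa [mem_L, X_mem_K] using h ((mem_L _ (X 0)).2 (by simp [X_mem_K]))
  · intro h
    simpa [mem_L, X_mem_K] using h ((mem_L _ (X 2)).2 (by simp [X_mem_K]))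
  · intro q hq ha
    have h1 := hq ((mem_L _ (X 1)).2 (by simp [X_mem_K]))
    have h0 := q.sub_mem ha h1
    rw [map_add, add_sub_cancel_right] at h0
    exact L_le _ _ (by simp [h0, h1])

end Pool.Agent.H66.MinPd
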