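import Mathlib

open Set Finset

namespace Pool.Agent.H66.Mkv

lemma cmp {φ ψ φ' ψ' : ℝ → ℝ} (h1 : ∀ u, HasDerivAt φ (φ' u) u) (h2 : ∀ u, HasDerivAt ψ (ψ' u) u)
    (h0 : φ 0 ≤ ψ 0) (hd : ∀ u, 0 ≤ u → φ' u ≤ ψ' u) : ∀ u, 0 ≤ u → φ u ≤ ψ u := by
  intro u hu
  have hm : MonotoneOn (fun u => ψ u - φ u) (Ici 0) := by
    apply monotoneOn_of_deriv_nonneg (convex_Ici 0)
    · exact fun x _ => ((h2 x).sub (h1 x)).continuousAt.continuousWithinAt
    · exact fun x _ => ((h2 x).sub (h1 x)).differentiableAt.differentiableWithinAt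
    · intro x hx
      rw [interior_Ici] at hx
      have := ((h2 x).sub (h1 x)).deriv
      have e : deriv (fun u => ψ u - φ u) x = ψ' x - φ' x := this
      rw [e]; linarith [hd x (le_of_lt hx)]
  have := hm (self_mem_Ici) hu hu
  simp only at this; linarith

/-- one step: solve `f₁' = l (f - f₁)`, `f₁ 0 = 0`. -/
lemma step {f f1 : ℝ → ℝ} {l g : ℝ} {k : ℕ} (hl : 0 < l) (hg : l ≤ g)
    (hd : ∀ u, HasDerivAt f1 (l * (f u - f1 u)) u) (h0 : f1 0 = 0)
    (a : ∀ u, 0 ≤ u → 0 ≤ f u ∧ f u ≤ 1 ∧ f u ≤ (g * u) ^ k / k.factorial)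
    (b : ∀ u, 0 ≤ u → |f (-u)| ≤ Real.exp (2 * g * u)) :
    (∀ u, 0 ≤ u → 0 ≤ f1 u ∧ f1 u ≤ 1 ∧ f1 u ≤ (g * u) ^ (k + 1) / (k + 1).factorial) ∧
      ∀ u, 0 ≤ u → |f1 (-u)| ≤ Real.exp (2 * g * u) := by
  have he : ∀ c u : ℝ, HasDerivAt (fun u => Real.exp (c * u)) (Real.exp (c * u) * c) u := by
    intro c u
    simpa using ((hasDerivAt_id u).const_mul c).exp
  have hh : ∀ u, HasDerivAt (fun u => Real.exp (l * u) * f1 u) (l * Real.exp (l * u) * f u) u := by
    intro u
    have := (he l u).mul (hd u)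
    refine this.congr_deriv ?_
    ring
  have p0 : ∀ u, 0 ≤ u → 0 ≤ f1 u := by
    intro u hu
    have := cmp (φ := fun _ => 0) (fun u => hasDerivAt_const u 0) hh (by simp [h0])
      (fun u hu => mul_nonneg (by positivity) (a u hu).1) u hu
    exact nonneg_of_mul_nonneg_right (by simpa [mul_comm] using this) (Real.exp_pos (l * u))
  refine ⟨fun u hu => ⟨p0 u hu, ?_, ?_⟩, fun u hu => ?_⟩
  · have := cmp hh (he l) (by simp [h0]) (fun u hu => by
      have := (a u hu).2.1
      have h3 : 0 < l * Real.exp (l * u) := by positivity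
      nlinarith) u hu
    have h3 := Real.exp_pos (l * u)
    nlinarith
  · have hp : ∀ u : ℝ, HasDerivAt (fun u => (g * u) ^ (k + 1) / (k + 1).factorial)
        (g * ((g * u) ^ k / k.factorial)) u := by
      intro u
      have := (((hasDerivAt_id u).const_mul g).pow (k + 1)).div_const ((k + 1).factorial : ℝ)
      refine this.congr_deriv ?_
      have h3 : (k.factorial : ℝ) ≠ 0 := by positivity
      simp only [id, Nat.factorial_succ, Nat.cast_mul, Nat.add_sub_cancel]
      field_simp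
    refine cmp hd hp (by simp [h0]) (fun u hu => ?_) u hu
    have h3 := a u hu
    have h4 := p0 u hu
    nlinarith
  · have hn : ∀ u, HasDerivAt (fun u => Real.exp (l * (-u)) * f1 (-u))
        (-(l * Real.exp (l * (-u)) * f (-u))) u := by
      intro u
      have := (hh (-u)).comp u (hasDerivAt_neg u)
      refine this.congr_deriv ?_
      ring
    have bd : ∀ u, 0 ≤ u → |l * Real.exp (l * (-u)) * f (-u)| ≤
        Real.exp ((2 * g - l) * u) * (2 * g - l) := by
      intro u hu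
      rw [abs_mul, abs_of_pos (by positivity : 0 < l * Real.exp (l * (-u)))]
      have e : Real.exp ((2 * g - l) * u) = Real.exp (l * (-u)) * Real.exp (2 * g * u) := by
        rw [← Real.exp_add]; congr 1; ring
      rw [e]
      have h3 := b u hu
      have h4 := Real.exp_pos (l * (-u))
      have h5 := Real.exp_pos (2 * g * u)
      calc l * Real.exp (l * (-u)) * |f (-u)| ≤ l * Real.exp (l * (-u)) * Real.exp (2 * g * u) := by
            gcongr
        _ ≤ _ := by nlinarith [mul_pos h4 h5]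
    have u1 := cmp hn (he (2 * g - l)) (by simp [h0]) (fun u hu => by
      linarith [neg_abs_le (l * Real.exp (l * (-u)) * f (-u)), bd u hu]) u hu
    have u2 := cmp (fun u => (hn u).neg) (he (2 * g - l)) (by simp [h0]) (fun u hu => by
      linarith [le_abs_self (l * Real.exp (l * (-u)) * f (-u)), bd u hu]) u hu
    have e : Real.exp ((2 * g - l) * u) = Real.exp (l * (-u)) * Real.exp (2 * g * u) := by
      rw [← Real.exp_add]; congr 1; ring
    simp only [Pi.neg_apply] at u2
    rw [e] at u1 u2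
    have h4 := Real.exp_pos (l * (-u))
    rw [abs_le]
    constructor
    · by_contra hc; push Not at hc; nlinarith
    · by_contra hc; push Not at hc; nlinarith

lemma block {ι : Type*} [DecidableEq ι] (lam : ι → ℝ) (hinj : Function.Injective lam) (o : ι)
    (ho : lam o = 0) (g : ℝ) (hg : 0 ≤ g) (S : Finset ι) (hS : o ∉ S)
    (hl : ∀ e ∈ S, 0 < lam e ∧ lam e ≤ g) :
    ∃ c : ι → ℝ, c o = 1 ∧
      (∀ u, 0 ≤ u → 0 ≤ ∑ e ∈ insert o S, c e * Real.exp (-lam e * u) ∧
        ∑ e ∈ insert o S, c e * Real.exp (-lam e * u) ≤ 1 ∧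
        ∑ e ∈ insert o S, c e * Real.exp (-lam e * u) ≤ (g * u) ^ S.card / S.card.factorial) ∧
      ∀ u, 0 ≤ u → |∑ e ∈ insert o S, c e * Real.exp (-lam e * (-u))| ≤ Real.exp (2 * g * u) := by
  induction S using Finset.induction_on with
  | empty =>
    refine ⟨fun _ => 1, rfl, fun u hu => by simp [ho], fun u hu => ?_⟩
    simp [ho]; positivity
  | insert i S hi ih =>
    have hoS : o ∉ S := fun h => hS (mem_insert_of_mem h)
    have hoi : o ≠ i := fun h => hS (h ▸ mem_insert_self _ _)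
    obtain ⟨c, c0, a, b⟩ := ih hoS (fun e he => hl e (mem_insert_of_mem he))
    have hi' : i ∉ insert o S := by simp [hi, hoi.symm]
    obtain ⟨l0, l1⟩ := hl i (mem_insert_self _ _)
    set l := lam i with hl'
    have hne : ∀ e ∈ insert o S, l - lam e ≠ 0 := by
      intro e he h
      have : lam i = lam e := by linarith
      exact hi' (hinj this ▸ he)
    set d : ι → ℝ := fun e => c e * (l / (l - lam e)) with hd
    set c1 : ι → ℝ := Function.update d i (-∑ e ∈ insert o S, d e) with hc1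
    have e1 : ∀ u, ∑ e ∈ insert o (insert i S), c1 e * Real.exp (-lam e * u) =
        ∑ e ∈ insert o S, d e * (Real.exp (-lam e * u) - Real.exp (-l * u)) := by
      intro u
      rw [Finset.insert_comm, Finset.sum_insert hi']
      have : ∑ e ∈ insert o S, c1 e * Real.exp (-lam e * u) =
          ∑ e ∈ insert o S, d e * Real.exp (-lam e * u) := by
        refine Finset.sum_congr rfl fun e he => ?_
        have hei : e ≠ i := by rintro rfl; exact hi' he
        rw [hc1, Function.update_of_ne hei]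
      rw [this, hc1, Function.update_self]
      simp only [mul_sub, Finset.sum_sub_distrib, ← Finset.sum_mul]; ring
    have he : ∀ c u : ℝ, HasDerivAt (fun u => Real.exp (c * u)) (Real.exp (c * u) * c) u := by
      intro c u
      simpa using ((hasDerivAt_id u).const_mul c).exp
    have := step (f := fun u => ∑ e ∈ insert o S, c e * Real.exp (-lam e * u))
      (f1 := fun u => ∑ e ∈ insert o S, d e * (Real.exp (-lam e * u) - Real.exp (-l * u)))
      l0 l1 (fun u => by
        have := HasDerivAt.fun_sum (u := insert o S)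
          (fun e _ => ((he (-lam e) u).sub (he (-l) u)).const_mul (d e))
        refine this.congr_deriv ?_
        rw [← Finset.sum_sub_distrib, Finset.mul_sum]
        refine Finset.sum_congr rfl fun e he => ?_
        have := hne e he
        simp only [hd]; field_simp; ring) (by simp) a b
    refine ⟨c1, ?_, ?_, ?_⟩
    · rw [hc1, Function.update_of_ne hoi]; simp only [hd, c0, ho, sub_zero, one_mul]; exact div_self l0.ne'
    · intro u hu
      rw [e1, Finset.card_insert_of_notMem hi]; exact this.1 u hu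
    · intro u hu
      rw [e1]; exact this.2 u hu

lemma pow_sub_le {η : ℝ} (h0 : 0 ≤ η) (h1 : η ≤ 1) (j : ℕ) : (1 + η) ^ j ≤ 1 + (2 ^ j - 1) * η := by
  induction j with
  | zero => simp
  | succ j ih =>
    have h2 : (1 : ℝ) ≤ 2 ^ j := one_le_pow₀ (by norm_num)
    rw [pow_succ, pow_succ]
    calc (1 + η) ^ j * (1 + η) ≤ (1 + (2 ^ j - 1) * η) * (1 + η) := by gcongr
      _ ≤ _ := by nlinarith [mul_nonneg (mul_nonneg (sub_nonneg.2 h2) h0) (sub_nonneg.2 h1)]

/-- polynomial in two variables with coefficients `c` -/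
noncomputable def ww (m : ℕ) (c : ℕ × ℕ → ℝ) (t v : ℝ) : ℝ :=
  ∑ e ∈ range (m + 1) ×ˢ range (m + 1), c e * (t ^ e.1 * v ^ e.2)

theorem exists_block {σ : ℝ} (hσ : 1 < σ) (hirr : Irrational σ) {p : ℕ} (hp : σ < p) {b : ℝ}
    (hb : 1 < b) : ∃ (m G : ℕ) (c : ℕ × ℕ → ℝ) (ω CW : ℝ), 0 < ω ∧ 1 ≤ CW ∧
      4 * ω * b ^ (2 * G + 1) ≤ 1 ∧ ww m c 0 0 = 1 ∧
      (∀ t η, 0 ≤ t → t ≤ 1 → 0 ≤ η → η ≤ 1 → |ww m c t (t ^ σ * (1 + η))| ≤ 1 + CW * η) ∧
      (∀ t η, b⁻¹ ≤ t → t ≤ 1 → 0 ≤ η → η ≤ 1 → |ww m c t (t ^ σ * (1 + η))| ≤ ω + CW * η) ∧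
      (∀ t η, 1 ≤ t → 0 ≤ η → η ≤ 1 → |ww m c t (t ^ σ * (1 + η))| ≤ (1 + CW * η) * t ^ G) := by
  set L := Real.log b with hL
  have hL0 : 0 < L := Real.log_pos hb
  set m : ℕ := ⌈8 * (1 + p) * L⌉₊ + 2 with hm
  have hm1 : 8 * (1 + p) * L + 2 ≤ m := by
    rw [hm]; push_cast; linarith [Nat.le_ceil (8 * (1 + p) * L)]
  have hp0 : (0 : ℝ) ≤ p := by positivity
  have hm2 : (2 : ℝ) ≤ m := by nlinarith
  set g : ℝ := m * (1 + p) with hg
  have hg1 : 1 ≤ g := by nlinarith
  set T := range (m + 1) ×ˢ range (m + 1) with hT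
  have h0T : ((0, 0) : ℕ × ℕ) ∈ T := by simp [hT]
  set lam : ℕ × ℕ → ℝ := fun e => e.1 + e.2 * σ with hlam
  have hinj : Function.Injective lam := by
    rintro ⟨i, j⟩ ⟨i', j'⟩ h
    simp only [hlam] at h
    by_cases hj : j = j'
    · subst hj
      have : (i : ℝ) = i' := by linarith
      rw [Nat.cast_inj.1 this]
    · exfalso
      have h1 : ((j : ℤ) - j' : ℤ) ≠ 0 := by omega
      have h2 := (hirr.intCast_mul h1).ne_int ((i' : ℤ) - i)
      apply h2; push_cast; linarith
  have hle : ∀ e ∈ T, lam e ≤ g := by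
    intro e he
    simp only [hT, Finset.mem_product, Finset.mem_range] at he
    have h1 : (e.1 : ℝ) ≤ m := by exact_mod_cast Nat.lt_succ_iff.1 he.1
    have h2 : (e.2 : ℝ) ≤ m := by exact_mod_cast Nat.lt_succ_iff.1 he.2
    have h3 : (0 : ℝ) ≤ e.2 := by positivity
    simp only [hlam, hg]; nlinarith
  have hnn : ∀ e, 0 ≤ lam e := fun e => by simp only [hlam]; positivity
  obtain ⟨c, c0, a, bb⟩ := block lam hinj (0, 0) (by simp [hlam]) g (by linarith) (T.erase (0, 0))
    (by simp) (fun e he => ⟨lt_of_le_of_ne (hnn e) (fun h => (Finset.mem_erase.1 he).1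
      (hinj (by rw [← h]; simp [hlam]))), hle e (Finset.mem_of_mem_erase he)⟩)
  rw [Finset.insert_erase h0T] at a bb
  have hK : m * m ≤ (T.erase (0, 0)).card := by
    rw [Finset.card_erase_of_mem h0T, hT, Finset.card_product, Finset.card_range]
    have : (m + 1) * (m + 1) = m * m + 2 * m + 1 := by ring
    omega
  set K := (T.erase (0, 0)).card
  have mon : ∀ t : ℝ, 0 < t → ∀ e : ℕ × ℕ,
      t ^ e.1 * (t ^ σ) ^ e.2 = Real.exp (-lam e * (-Real.log t)) := by
    intro t ht e
    rw [Real.rpow_def_of_pos ht, ← Real.exp_nat_mul]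
    nth_rewrite 1 [← Real.exp_log ht]
    rw [← Real.exp_nat_mul, ← Real.exp_add]
    congr 1; simp only [hlam]; ring
  have on : ∀ t : ℝ, 0 < t →
      ww m c t (t ^ σ) = ∑ e ∈ T, c e * Real.exp (-lam e * (-Real.log t)) := fun t ht =>
    Finset.sum_congr rfl fun e _ => by rw [mon t ht]
  have w00 : ww m c 0 0 = 1 := by
    rw [ww, Finset.sum_eq_single (0, 0)]
    · simp [c0]
    · rintro ⟨i, j⟩ _ hne
      by_cases hi : i = 0
      · have hj : j ≠ 0 := fun hj => hne (by rw [hi, hj])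
        simp [hj]
      · simp [hi]
    · intro h; exact absurd h0T h
  set CW : ℝ := 2 ^ m * ∑ e ∈ T, |c e| + 1 with hCW
  have off : ∀ t η M : ℝ, 0 ≤ t → 0 ≤ η → η ≤ 1 → 0 ≤ M → (∀ e ∈ T, t ^ e.1 * (t ^ σ) ^ e.2 ≤ M) →
      |ww m c t (t ^ σ * (1 + η))| ≤ |ww m c t (t ^ σ)| + CW * η * M := by
    intro t η M ht h0 h1 hM0 hM
    have h2 : |ww m c t (t ^ σ * (1 + η)) - ww m c t (t ^ σ)| ≤ CW * η * M := by
      rw [ww, ww, ← Finset.sum_sub_distrib]
      refine (Finset.abs_sum_le_sum_abs _ _).trans ?_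
      have : ∀ e ∈ T, |c e * (t ^ e.1 * (t ^ σ * (1 + η)) ^ e.2) - c e * (t ^ e.1 * (t ^ σ) ^ e.2)| ≤
          |c e| * (2 ^ m * η * M) := by
        intro e he
        have e1 : c e * (t ^ e.1 * (t ^ σ * (1 + η)) ^ e.2) - c e * (t ^ e.1 * (t ^ σ) ^ e.2) =
            c e * ((t ^ e.1 * (t ^ σ) ^ e.2) * ((1 + η) ^ e.2 - 1)) := by rw [mul_pow]; ring
        have e2 : (1 : ℝ) ≤ (1 + η) ^ e.2 := one_le_pow₀ (by linarith)
        have e3 := pow_sub_le h0 h1 e.2
        have e4 : (2 : ℝ) ^ e.2 ≤ 2 ^ m := by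
          simp only [hT, Finset.mem_product, Finset.mem_range] at he
          exact pow_le_pow_right₀ (by norm_num) (Nat.lt_succ_iff.1 he.2)
        have e5 : 0 ≤ t ^ e.1 * (t ^ σ) ^ e.2 := by positivity
        rw [e1, abs_mul, abs_of_nonneg (mul_nonneg e5 (by linarith))]
        refine mul_le_mul_of_nonneg_left ?_ (abs_nonneg _)
        rw [mul_comm]
        exact mul_le_mul (by nlinarith) (hM e he) e5 (by positivity)
      refine (Finset.sum_le_sum this).trans ?_
      rw [← Finset.sum_mul, hCW]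
      nlinarith [mul_nonneg h0 hM0]
    linarith [abs_sub_abs_le_abs_sub (ww m c t (t ^ σ * (1 + η))) (ww m c t (t ^ σ))]
  have small : ∀ t : ℝ, 0 ≤ t → t ≤ 1 → ∀ e ∈ T, t ^ e.1 * (t ^ σ) ^ e.2 ≤ 1 := by
    intro t h0 h1 e _
    exact mul_le_one₀ (pow_le_one₀ h0 h1) (by positivity)
      (pow_le_one₀ (by positivity) (Real.rpow_le_one h0 h1 (by linarith)))
  have hG : ((2 * (m * (1 + p)) : ℕ) : ℝ) = 2 * g := by push_cast; rw [hg]
  refine ⟨m, 2 * (m * (1 + p)), c, Real.exp (-(4 * g + 1) * L - 2), CW, Real.exp_pos _, ?_, ?_, w00,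
    ?_, ?_, ?_⟩
  · have : 0 ≤ 2 ^ m * ∑ e ∈ T, |c e| := by positivity
    rw [hCW]; linarith
  · have e1 : b ^ (2 * (2 * (m * (1 + p))) + 1) = Real.exp ((4 * g + 1) * L) := by
      rw [← Real.exp_log (by linarith : 0 < b), ← Real.exp_nat_mul, ← hL]
      congr 1; push_cast; rw [hg]; ring
    rw [e1, mul_assoc, ← Real.exp_add]
    have e2 : -(4 * g + 1) * L - 2 + (4 * g + 1) * L = -1 + -1 := by ring
    rw [e2, Real.exp_add]
    have e3 : Real.exp (-1) ≤ 1 / 2 := by
      rw [Real.exp_neg, inv_le_comm₀ (Real.exp_pos _) (by norm_num)]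
      linarith [Real.add_one_le_exp 1]
    nlinarith [Real.exp_pos (-1)]
  · intro t η h0 h1 h2 h3
    have := off t η 1 h0 h2 h3 zero_le_one (small t h0 h1)
    rcases h0.eq_or_lt with h | h
    · rw [← h] at this ⊢
      rw [Real.zero_rpow (by linarith)] at this ⊢
      rw [w00] at this; simpa using this
    · have h4 := a (-Real.log t) (by linarith [Real.log_nonpos h0 h1])
      rw [on t h, abs_of_nonneg h4.1] at this
      linarith [h4.2.1]
  · intro t η h0 h1 h2 h3
    have h : 0 < t := lt_of_lt_of_le (by positivity) h0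
    have := off t η 1 h.le h2 h3 zero_le_one (small t h.le h1)
    have hu : 0 ≤ -Real.log t := by linarith [Real.log_nonpos h.le h1]
    have hu2 : -Real.log t ≤ L := by
      have := Real.log_le_log (by positivity) h0
      rw [Real.log_inv] at this; linarith
    have h4 := a (-Real.log t) hu
    rw [on t h, abs_of_nonneg h4.1] at this
    have h5 : (g * -Real.log t) ^ K / K.factorial ≤ (g * L) ^ K / K.factorial := by gcongr
    have h6 := Real.pow_div_factorial_le_exp (Real.exp 1 * (g * L)) (by positivity) K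
    have h7 : (g * L) ^ K / K.factorial ≤ Real.exp (-(4 * g + 1) * L - 2) := by
      rw [mul_pow, ← Real.exp_nat_mul, mul_div_assoc, mul_comm, ← le_div_iff₀ (Real.exp_pos _),
        ← Real.exp_sub] at h6
      refine h6.trans (Real.exp_le_exp.2 ?_)
      have e1 : Real.exp 1 ≤ 3 := Real.exp_one_lt_d9.le.trans (by norm_num)
      have e2 : (m : ℝ) * m ≤ K := by exact_mod_cast hK
      have e3 : 0 < g * L := by positivity
      have e4 : (m : ℝ) * (8 * (1 + p) * L + 2) ≤ m * m := by gcongr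
      have e5 : (m : ℝ) * (8 * (1 + p) * L + 2) = 8 * (g * L) + 2 * m := by rw [hg]; ring
      nlinarith
    linarith [h4.2.2]
  · intro t η h0 h2 h3
    have h : 0 < t := by linarith
    have hu : 0 ≤ Real.log t := Real.log_nonneg h0
    have e1 : t ^ (2 * (m * (1 + p))) = Real.exp (2 * g * Real.log t) := by
      nth_rewrite 1 [← Real.exp_log h]
      rw [← Real.exp_nat_mul, hG]
    have := off t η (t ^ (2 * (m * (1 + p)))) h.le h2 h3 (by positivity) (fun e he => by
      rw [mon t h, e1, Real.exp_le_exp]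
      have := hle e he
      nlinarith)
    have h4 := bb _ hu
    rw [on t h] at this
    rw [← e1] at h4
    nlinarith

end Pool.Agent.H66.Mkv
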