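import Mathlib

namespace Pool.Agent.H66.Mkv

/-- The cusp `X = {(x,y) : 0 ≤ x ≤ 1, x^σ ≤ y ≤ x^σ + x^p}`. -/
def cusp (σ : ℝ) (p : ℕ) : Set (Fin 2 → ℝ) :=
  {z | 0 ≤ z 0 ∧ z 0 ≤ 1 ∧ z 0 ^ σ ≤ z 1 ∧ z 1 ≤ z 0 ^ σ + z 0 ^ p}

/-- `‖P‖_E = sup_E |P|`. -/
noncomputable def supNorm (E : Set (Fin 2 → ℝ)) (P : MvPolynomial (Fin 2) ℝ) : ℝ :=
  sSup ((fun z => |MvPolynomial.eval z P|) '' E)

/-- `‖∇P‖_E`: the supremum over `E` of the Euclidean norm of the gradient. -/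
noncomputable def gradNorm (E : Set (Fin 2 → ℝ)) (P : MvPolynomial (Fin 2) ℝ) : ℝ :=
  sSup ((fun z => √(MvPolynomial.eval z (MvPolynomial.pderiv 0 P) ^ 2 +
    MvPolynomial.eval z (MvPolynomial.pderiv 1 P) ^ 2)) '' E)

end Pool.Agent.H66.Mkv
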