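import Pool.Agent.H66.Mkv1
import Pool.Agent.H66.MkvDefs

open Set Finset MvPolynomial

namespace Pool.Agent.H66.Mkv

noncomputable def RR (w : ℝ → ℝ → ℝ) (b σ : ℝ) : ℕ → ℝ → ℝ → ℝ
  | 0 => fun _ _ => 1
  | I + 1 => fun t v => w t v ^ (2 ^ I) * RR w b σ I (b * t) (b ^ σ * v)

lemma RR_succ (w : ℝ → ℝ → ℝ) {b : ℝ} (σ : ℝ) (hb : 0 ≤ b) (I : ℕ) {t : ℝ} (ht : 0 ≤ t) (s : ℝ) :
    |RR w b σ (I + 1) t (t ^ σ * s)| =
      |w t (t ^ σ * s)| ^ (2 ^ I) * |RR w b σ I (b * t) ((b * t) ^ σ * s)| := by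
  rw [RR, abs_mul, abs_pow, Real.mul_rpow hb ht, mul_assoc]

lemma RR_zero {w : ℝ → ℝ → ℝ} (h : w 0 0 = 1) (b σ : ℝ) (I : ℕ) : RR w b σ I 0 0 = 1 := by
  induction I with
  | zero => rfl
  | succ I ih => simp [RR, h, ih]

lemma big {w : ℝ → ℝ → ℝ} {b σ s a : ℝ} {G : ℕ} (hb : 1 ≤ b) (ha : 1 ≤ a)
    (hw : ∀ t, 1 ≤ t → |w t (t ^ σ * s)| ≤ a * t ^ G) (I : ℕ) :
    ∀ t, 1 ≤ t → |RR w b σ I t (t ^ σ * s)| ≤ (a * b ^ G * t ^ G) ^ (2 ^ I) := by
  induction I with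
  | zero =>
    intro t ht
    have h1 : 1 ≤ b ^ G := one_le_pow₀ hb
    have h2 : 1 ≤ t ^ G := one_le_pow₀ ht
    simp only [RR, abs_one, pow_zero, pow_one]
    exact one_le_mul_of_one_le_of_one_le (one_le_mul_of_one_le_of_one_le ha h1) h2
  | succ I ih =>
    intro t ht
    rw [RR_succ w σ (by linarith) I (by linarith)]
    have h1 := ih (b * t) (one_le_mul_of_one_le_of_one_le hb ht)
    calc _ ≤ (a * t ^ G) ^ (2 ^ I) * (a * b ^ G * (b * t) ^ G) ^ (2 ^ I) := by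
          gcongr; exact hw t ht
      _ = _ := by
          rw [← mul_pow, pow_succ 2 I, mul_comm (2 ^ I) 2, pow_mul]; congr 1; rw [mul_pow]; ring

lemma small {w : ℝ → ℝ → ℝ} {b σ s ε ω : ℝ} {G : ℕ} (hb : 1 ≤ b) (hε : 0 ≤ ε) (hω : 0 ≤ ω)
    (hk : 4 * ω * b ^ (2 * G + 1) ≤ 1)
    (h1 : ∀ t, 0 ≤ t → t ≤ 1 → |w t (t ^ σ * s)| ≤ 1 + ε)
    (h2 : ∀ t, b⁻¹ ≤ t → t ≤ 1 → |w t (t ^ σ * s)| ≤ 2 * ω)
    (h3 : ∀ t, 1 ≤ t → |w t (t ^ σ * s)| ≤ 2 * t ^ G) (I : ℕ) :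
    ∀ t, 0 ≤ t → t ≤ 1 → t * |RR w b σ I t (t ^ σ * s)| ≤ b⁻¹ ^ I * (1 + ε) ^ (2 ^ I) := by
  have hb0 : 0 < b := by linarith
  induction I with
  | zero => intro t h0 ht; simp [RR]; linarith
  | succ I ih =>
    intro t h0 ht
    rw [RR_succ w σ hb0.le I h0]
    rcases le_total t b⁻¹ with h | h
    · have h4 : b * t ≤ 1 := by rwa [← le_div_iff₀' hb0, one_div]
      have h5 := ih (b * t) (by positivity) h4
      calc _ = b⁻¹ * |w t (t ^ σ * s)| ^ (2 ^ I) *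
            (b * t * |RR w b σ I (b * t) ((b * t) ^ σ * s)|) := by field_simp
        _ ≤ b⁻¹ * (1 + ε) ^ (2 ^ I) * (b⁻¹ ^ I * (1 + ε) ^ (2 ^ I)) := by
            gcongr; exact h1 t h0 ht
        _ = _ := by rw [pow_succ 2 I, pow_mul]; ring
    · have h4 : 1 ≤ b * t := by rwa [← div_le_iff₀' hb0, one_div]
      have h5 := big hb (by norm_num) h3 I (b * t) h4
      have h6 : b * t ≤ b := by nlinarith
      have h7 : 2 * ω * (2 * b ^ G * b ^ G) ≤ b⁻¹ := by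
        rw [← one_div, le_div_iff₀ hb0]
        refine le_trans (le_of_eq ?_) hk; ring
      have h8 : b⁻¹ ≤ 1 := inv_le_one_of_one_le₀ hb
      calc _ ≤ 1 * ((2 * ω) ^ (2 ^ I) * (2 * b ^ G * b ^ G) ^ (2 ^ I)) := by
            gcongr
            · exact h2 t h ht
            · refine h5.trans ?_; gcongr
        _ ≤ b⁻¹ ^ (2 ^ I) := by rw [one_mul, ← mul_pow]; gcongr
        _ ≤ b⁻¹ ^ (I + 1) := pow_le_pow_of_le_one (by positivity) h8 (Nat.lt_two_pow_self)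
        _ ≤ _ := le_mul_of_one_le_right (by positivity) (one_le_pow₀ (by linarith))

lemma poly (m : ℕ) (c : ℕ × ℕ → ℝ) (b σ : ℝ) (I : ℕ) : ∀ α β : ℝ, ∃ Q : MvPolynomial (Fin 2) ℝ,
    Q.totalDegree ≤ 2 * m * 2 ^ I ∧
      ∀ z : Fin 2 → ℝ, eval z Q = RR (ww m c) b σ I (α * z 0) (β * z 1) := by
  induction I with
  | zero => intro α β; exact ⟨1, by simp, fun z => by simp [RR]⟩
  | succ I ih =>
    intro α β
    obtain ⟨Q, h1, h2⟩ := ih (b * α) (b ^ σ * β)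
    set W : MvPolynomial (Fin 2) ℝ := ∑ e ∈ range (m + 1) ×ˢ range (m + 1),
      C (c e) * ((C α * X 0) ^ e.1 * (C β * X 1) ^ e.2) with hW
    have hx : ∀ (a : ℝ) (i : Fin 2) (k : ℕ),
        ((C a * X i : MvPolynomial (Fin 2) ℝ) ^ k).totalDegree ≤ k := by
      intro a i k
      refine (totalDegree_pow _ _).trans ?_
      have := totalDegree_mul (C a : MvPolynomial (Fin 2) ℝ) (X i)
      rw [totalDegree_C, totalDegree_X] at this
      nlinarith
    have hd : W.totalDegree ≤ 2 * m := by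
      refine totalDegree_finsetSum_le fun e he => ?_
      simp only [Finset.mem_product, Finset.mem_range] at he
      refine (totalDegree_mul _ _).trans ?_
      rw [totalDegree_C, zero_add]
      refine (totalDegree_mul _ _).trans ?_
      have := hx α 0 e.1
      have := hx β 1 e.2
      omega
    refine ⟨W ^ (2 ^ I) * Q, (totalDegree_mul _ _).trans ?_, fun z => ?_⟩
    · have := (totalDegree_pow W (2 ^ I)).trans (Nat.mul_le_mul_left _ hd)
      rw [pow_succ]; nlinarith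
    · rw [map_mul, map_pow, h2, RR, mul_assoc, mul_assoc]
      congr 2
      simp [hW, ww]

lemma zero_mem {σ : ℝ} (hσ : 1 < σ) (p : ℕ) : (0 : Fin 2 → ℝ) ∈ cusp σ p := by
  have : (0 : ℝ) ^ σ = 0 := Real.zero_rpow (by linarith)
  simp only [cusp, mem_setOf_eq, Pi.zero_apply, this]
  exact ⟨le_rfl, zero_le_one, le_rfl, by positivity⟩

lemma grad_ge {σ : ℝ} (hσ : 1 < σ) (p : ℕ) (Q : MvPolynomial (Fin 2) ℝ) (hQ : eval 0 Q = 1) :
    1 ≤ gradNorm (cusp σ p) (X 0 * Q) := by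
  have hsub : cusp σ p ⊆ Metric.closedBall 0 2 := by
    rintro z ⟨h0, h1, h2, h3⟩
    have a1 : 0 ≤ z 0 ^ σ := by positivity
    have a2 : z 0 ^ σ ≤ 1 := Real.rpow_le_one h0 h1 (by linarith)
    have a3 : z 0 ^ p ≤ 1 := pow_le_one₀ h0 h1
    rw [mem_closedBall_zero_iff, pi_norm_le_iff_of_nonneg (by norm_num)]
    intro i; fin_cases i
    · show ‖z 0‖ ≤ 2
      rw [Real.norm_of_nonneg h0]; linarith
    · show ‖z 1‖ ≤ 2
      rw [Real.norm_of_nonneg (by linarith)]; linarith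
  have hc : Continuous fun z : Fin 2 → ℝ => √(eval z (pderiv 0 (X 0 * Q)) ^ 2 +
      eval z (pderiv 1 (X 0 * Q)) ^ 2) :=
    (((continuous_eval _).pow 2).add ((continuous_eval _).pow 2)).sqrt
  have hb := ((isCompact_closedBall (0 : Fin 2 → ℝ) 2).bddAbove_image hc.continuousOn).mono
    (image_mono hsub)
  refine le_trans ?_ (le_csSup hb ⟨0, zero_mem hσ p, rfl⟩)
  apply Real.le_sqrt_of_sq_le
  have : eval 0 (pderiv 0 (X 0 * Q)) = 1 := by
    rw [pderiv_mul]; simp [← hQ]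
  simp only [this]; nlinarith [sq_nonneg (eval 0 (pderiv 1 (X 0 * Q)))]

theorem final {σ : ℝ} (hσ : 1 < σ) (hirr : Irrational σ) {p : ℕ} (hp : σ < p) {C r : ℝ}
    (hC : 0 < C) (hr : 0 < r) : ∃ P : MvPolynomial (Fin 2) ℝ,
      C * (P.totalDegree : ℝ) ^ r * supNorm (cusp σ p) P < gradNorm (cusp σ p) P := by
  set δ := p - σ with hδ
  have hδ0 : 0 < δ := by linarith
  set q : ℝ := 2 ^ δ⁻¹ with hq
  have hq1 : 1 ≤ q := Real.one_le_rpow (by norm_num) (by positivity)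
  set B : ℝ := (2 * q ^ 2) ^ r with hB
  have hB1 : 1 ≤ B := Real.one_le_rpow (by nlinarith) hr.le
  set b := 2 * B with hb
  have hb1 : 1 < b := by linarith
  obtain ⟨m, G, c, ω, CW, hω, hCW, hk, w0, f1, f2, f3⟩ := exists_block hσ hirr hp hb1
  have hω1 : ω ≤ 1 := by
    have : 1 ≤ b ^ (2 * G + 1) := one_le_pow₀ hb1.le
    nlinarith
  set y1 : ℝ := (CW / ω) ^ δ⁻¹ with hy1
  have hy11 : 1 ≤ y1 := Real.one_le_rpow (by rw [le_div_iff₀ hω]; linarith) (by positivity)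
  have hA : 1 ≤ (1 + CW) * b ^ (G + 1) :=
    one_le_mul_of_one_le_of_one_le (by linarith) (one_le_pow₀ hb1.le)
  set K1 := Real.log ((1 + CW) * b ^ (G + 1)) + G with hK1
  have hlog := Real.log_nonneg hA
  have hK10 : 0 ≤ K1 := by positivity
  set K3 := (2 + 2 * m + K1) * y1 ^ 2 with hK3
  obtain ⟨I, hI⟩ := pow_unbounded_of_one_lt (3 * C * K3 ^ r) (by norm_num : (1 : ℝ) < 2)
  set y := y1 * q ^ I with hy
  have hy' : 1 ≤ y := one_le_mul_of_one_le_of_one_le hy11 (one_le_pow₀ hq1)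
  have hy0 : 0 < y := by linarith
  have hyδ : y ^ δ = CW / ω * 2 ^ I := by
    rw [hy, Real.mul_rpow (by positivity) (by positivity), hy1,
      Real.rpow_inv_rpow (by positivity) hδ0.ne', ← Real.rpow_natCast, ← Real.rpow_mul (by positivity),
      mul_comm (I : ℝ), Real.rpow_mul (by positivity), hq, Real.rpow_inv_rpow (by positivity) hδ0.ne',
      Real.rpow_natCast]
  set N := ⌈K1 * y ^ 2⌉₊ with hN
  obtain ⟨Q, hQ1, hQ2⟩ := poly m c b σ I y (y ^ σ)
  refine ⟨X 0 * (Q * (1 - X 0) ^ (N * 2 ^ I)), lt_of_lt_of_le ?_ (grad_ge hσ p _ ?_)⟩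
  swap
  · rw [map_mul, hQ2]; simp [RR_zero w0]
  have hs : supNorm (cusp σ p) (X 0 * (Q * (1 - X 0) ^ (N * 2 ^ I))) ≤ 3 * b⁻¹ ^ I := by
    refine csSup_le ⟨_, 0, zero_mem hσ p, rfl⟩ ?_
    rintro _ ⟨z, ⟨h0, h1, h2, h3⟩, rfl⟩
    rcases h0.eq_or_lt with h | h
    · simp [← h]; positivity
    have hxσ : 0 < z 0 ^ σ := by positivity
    set η := (z 1 - z 0 ^ σ) / z 0 ^ σ with hη
    have η0 : 0 ≤ η := div_nonneg (by linarith) hxσ.le
    have η1 : η ≤ z 0 ^ δ := by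
      rw [hη, div_le_iff₀ hxσ, ← Real.rpow_add h, hδ, sub_add_cancel, Real.rpow_natCast]; linarith
    have η2 : η ≤ 1 := η1.trans (Real.rpow_le_one h0 h1 hδ0.le)
    have e1 : y ^ σ * z 1 = (y * z 0) ^ σ * (1 + η) := by
      rw [Real.mul_rpow hy0.le h0, hη]; field_simp; ring
    simp only [map_mul, map_pow, map_sub, map_one, eval_X, hQ2, e1, abs_mul, abs_pow]
    rw [abs_of_nonneg h0, abs_of_nonneg (by linarith : 0 ≤ 1 - z 0)]
    rcases le_total (y * z 0) 1 with ht | ht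
    · have a1 : y ^ δ * z 0 ^ δ ≤ 1 := by
        rw [← Real.mul_rpow hy0.le h0]; exact Real.rpow_le_one (by positivity) ht hδ0.le
      have a2 : CW * η * 2 ^ I ≤ ω := by
        rw [hyδ] at a1
        have : CW * η * 2 ^ I ≤ ω * (CW / ω * 2 ^ I * z 0 ^ δ) := by
          have e : ω * (CW / ω * 2 ^ I * z 0 ^ δ) = CW * z 0 ^ δ * 2 ^ I := by field_simp
          rw [e]; gcongr
        nlinarith
      have a3 : (1 : ℝ) ≤ 2 ^ I := one_le_pow₀ (by norm_num)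
      have a0 : 0 ≤ CW * η := by positivity
      have a4 : CW * η ≤ ω := by nlinarith
      have a5 := small (w := ww m c) (σ := σ) (s := 1 + η) hb1.le a0 hω.le hk
        (fun t h0 h1 => f1 t η h0 h1 η0 η2)
        (fun t h0 h1 => (f2 t η h0 h1 η0 η2).trans (by linarith))
        (fun t h0 => (f3 t η h0 η0 η2).trans (by gcongr; linarith)) I (y * z 0) (by positivity) ht
      have a6 : (1 + CW * η) ^ (2 ^ I) ≤ 3 := by
        calc _ ≤ Real.exp (CW * η) ^ (2 ^ I) := by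
              gcongr; linarith [Real.add_one_le_exp (CW * η)]
          _ ≤ Real.exp 1 := by
              rw [← Real.exp_nat_mul, Real.exp_le_exp]; push_cast; linarith
          _ ≤ 3 := Real.exp_one_lt_d9.le.trans (by norm_num)
      have a7 : (1 - z 0) ^ (N * 2 ^ I) ≤ 1 := pow_le_one₀ (by linarith) (by linarith)
      have a8 : z 0 ≤ y * z 0 := by nlinarith
      calc _ ≤ y * z 0 * (|RR (ww m c) b σ I (y * z 0) ((y * z 0) ^ σ * (1 + η))| * 1) := by gcongr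
        _ ≤ b⁻¹ ^ I * 3 := by rw [mul_one]; refine a5.trans ?_; gcongr
        _ = _ := by ring
    · have a5 := big (w := ww m c) (σ := σ) (s := 1 + η) (a := 1 + CW) (G := G) hb1.le (by linarith)
        (fun t h0 => (f3 t η h0 η0 η2).trans (by gcongr; nlinarith)) I (y * z 0) ht
      have a1 : y * z 0 ≤ y := by nlinarith
      have a2 : (1 - z 0) ^ N ≤ Real.exp (-(K1 * y)) := by
        calc _ ≤ Real.exp (-z 0) ^ N := by
              exact pow_le_pow_left₀ (by linarith) (by linarith [Real.add_one_le_exp (-z 0)]) _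
          _ ≤ _ := by
              rw [← Real.exp_nat_mul, Real.exp_le_exp]
              have n1 : K1 * y ^ 2 ≤ N := Nat.le_ceil _
              have n2 : K1 * y * 1 ≤ K1 * y * (y * z 0) := by gcongr
              nlinarith
      have a3 : (1 + CW) * b ^ (G + 1) * y ^ G ≤ Real.exp (K1 * y) := by
        have n1 : y ^ G ≤ Real.exp (G * y) := by
          rw [Real.exp_nat_mul]; gcongr; linarith [Real.add_one_le_exp y]
        have n2 : (1 + CW) * b ^ (G + 1) ≤ Real.exp (Real.log ((1 + CW) * b ^ (G + 1)) * y) := by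
          nth_rewrite 1 [← Real.exp_log (by linarith : 0 < (1 + CW) * b ^ (G + 1))]
          rw [Real.exp_le_exp]; nlinarith
        rw [hK1, add_mul (Real.log _), Real.exp_add]; gcongr
      have a4 : (1 + CW) * b ^ G * y ^ G * (1 - z 0) ^ N ≤ b⁻¹ := by
        rw [← one_div, le_div_iff₀ (by linarith)]
        calc _ = (1 + CW) * b ^ (G + 1) * y ^ G * (1 - z 0) ^ N := by ring
          _ ≤ Real.exp (K1 * y) * Real.exp (-(K1 * y)) := by
              exact mul_le_mul a3 a2 (pow_nonneg (by linarith) _) (Real.exp_pos _).le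
          _ = 1 := by rw [← Real.exp_add]; simp
      have a6 : 0 ≤ 1 - z 0 := by linarith
      have h8 : b⁻¹ ≤ 1 := inv_le_one_of_one_le₀ hb1.le
      calc _ ≤ 1 * (((1 + CW) * b ^ G * y ^ G) ^ (2 ^ I) * (1 - z 0) ^ (N * 2 ^ I)) := by
            gcongr
            refine a5.trans ?_; gcongr
        _ ≤ b⁻¹ ^ (2 ^ I) := by rw [one_mul, pow_mul, ← mul_pow]; gcongr
        _ ≤ b⁻¹ ^ I := pow_le_pow_of_le_one (by positivity) h8 (Nat.lt_two_pow_self).le
        _ ≤ _ := by have : 0 ≤ b⁻¹ ^ I := by positivity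
                    linarith
  have hdeg : (X 0 * (Q * (1 - X 0) ^ (N * 2 ^ I)) : MvPolynomial (Fin 2) ℝ).totalDegree ≤
      (1 + 2 * m + N) * 2 ^ I := by
    refine (totalDegree_mul _ _).trans ?_
    have d1 := totalDegree_mul Q ((1 - X 0) ^ (N * 2 ^ I))
    have d2 := totalDegree_pow (1 - X 0 : MvPolynomial (Fin 2) ℝ) (N * 2 ^ I)
    have d3 := totalDegree_sub (1 : MvPolynomial (Fin 2) ℝ) (X 0)
    rw [totalDegree_one, totalDegree_X] at d3
    have d4 : (1 - X 0 : MvPolynomial (Fin 2) ℝ).totalDegree ≤ 1 := by simpa using d3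
    have d5 := Nat.mul_le_mul_left (N * 2 ^ I) d4
    have d6 : 1 ≤ 2 ^ I := Nat.one_le_two_pow
    rw [totalDegree_X]; nlinarith
  have hdeg2 : ((X 0 * (Q * (1 - X 0) ^ (N * 2 ^ I)) : MvPolynomial (Fin 2) ℝ).totalDegree : ℝ) ≤
      K3 * (2 * q ^ 2) ^ I := by
    have d1 : (N : ℝ) ≤ K1 * y ^ 2 + 1 := (Nat.ceil_lt_add_one (by positivity)).le
    have d2 : 1 ≤ y ^ 2 := one_le_pow₀ hy'
    have d3 : (1 + 2 * m + N : ℝ) ≤ (2 + 2 * m + K1) * y ^ 2 := by
      have : (0 : ℝ) ≤ m := by positivity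
      nlinarith
    calc _ ≤ (((1 + 2 * m + N) * 2 ^ I : ℕ) : ℝ) := by exact_mod_cast hdeg
      _ = (1 + 2 * m + N : ℝ) * 2 ^ I := by push_cast; ring
      _ ≤ (2 + 2 * m + K1) * y ^ 2 * 2 ^ I := by gcongr
      _ = _ := by rw [hK3, hy, mul_pow, mul_pow, ← pow_mul, ← pow_mul, mul_comm I 2]; ring
  have hK30 : 0 ≤ K3 := by positivity
  have e2 : (K3 * (2 * q ^ 2) ^ I) ^ r = K3 ^ r * B ^ I := by
    have e3 : B ^ I = ((2 * q ^ 2) ^ I) ^ r := Real.rpow_pow_comm (by positivity) r I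
    rw [Real.mul_rpow hK30 (by positivity), e3]
  calc _ ≤ C * (K3 * (2 * q ^ 2) ^ I) ^ r * (3 * b⁻¹ ^ I) := by
        refine le_trans (mul_le_mul_of_nonneg_left hs (by positivity)) ?_
        gcongr
    _ = 3 * C * K3 ^ r / 2 ^ I := by
        rw [e2, hb, mul_inv, mul_pow, inv_pow, inv_pow]
        have : B ^ I ≠ 0 := by positivity
        field_simp
    _ < 1 := by rwa [div_lt_one (by positivity)]

end Pool.Agent.H66.Mkv
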