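import Mathlib

/-! An infinite poset all of whose monotone self-maps are definable with parameters. -/

set_option autoImplicit false

namespace Pool.Agent.H66.Mono
open FirstOrder FirstOrder.Language

section FD
variable {H : Type} [PartialOrder H] [Language.order.Structure H]
  [Language.order.OrderedStructure H]

/-- formula-definable property of the assignment -/
def FD {α : Type} (S : (α → H) → Prop) : Prop :=
  ∃ φ : Language.order.Formula α, ∀ v, φ.Realize v ↔ S v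

variable {α : Type}

theorem FD.le (i j : α) : FD (fun v : α → H => v i ≤ v j) :=
  ⟨Term.le (Term.var (Sum.inl i)) (Term.var (Sum.inl j)), fun v => by
    simp [Formula.Realize]⟩
theorem FD.not {S : (α → H) → Prop} (h : FD S) : FD (fun v => ¬ S v) := by
  obtain ⟨a, ha⟩ := h
  exact ⟨a.not, fun v => by rw [Formula.realize_not, ha]⟩
theorem FD.and {S T : (α → H) → Prop} (h : FD S) (h' : FD T) : FD (fun v => S v ∧ T v) := by
  obtain ⟨a, ha⟩ := h; obtain ⟨b, hb⟩ := h'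
  exact ⟨a ⊓ b, fun v => by rw [Formula.realize_inf, ha, hb]⟩
theorem FD.or {S T : (α → H) → Prop} (h : FD S) (h' : FD T) : FD (fun v => S v ∨ T v) := by
  obtain ⟨a, ha⟩ := h; obtain ⟨b, hb⟩ := h'
  exact ⟨a ⊔ b, fun v => by rw [Formula.realize_sup, ha, hb]⟩
theorem FD.imp {S T : (α → H) → Prop} (h : FD S) (h' : FD T) : FD (fun v => S v → T v) := by
  obtain ⟨a, ha⟩ := h; obtain ⟨b, hb⟩ := h'
  exact ⟨a.imp b, fun v => by rw [Formula.realize_imp, ha, hb]⟩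
theorem FD.iff {S T : (α → H) → Prop} (h : FD S) (h' : FD T) : FD (fun v => S v ↔ T v) := by
  obtain ⟨a, ha⟩ := h; obtain ⟨b, hb⟩ := h'
  exact ⟨a.iff b, fun v => by rw [Formula.realize_iff, ha, hb]⟩
theorem FD.ex {S : H → (α → H) → Prop}
    (h : FD (fun v : α ⊕ Unit → H => S (v (Sum.inr ())) (fun i => v (Sum.inl i)))) :
    FD (fun v => ∃ a, S a v) := by
  obtain ⟨a, ha⟩ := h
  exact ⟨a.iExs Unit, fun v => by
    rw [Formula.realize_iExs]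
    exact ⟨fun ⟨x, hx⟩ => ⟨x (), (ha _).1 hx⟩, fun ⟨x, hx⟩ => ⟨fun _ => x, (ha _).2 hx⟩⟩⟩
theorem FD.all {S : H → (α → H) → Prop}
    (h : FD (fun v : α ⊕ Unit → H => S (v (Sum.inr ())) (fun i => v (Sum.inl i)))) :
    FD (fun v => ∀ a, S a v) := by
  obtain ⟨a, ha⟩ := h
  exact ⟨a.iAlls Unit, fun v => by
    rw [Formula.realize_iAlls]
    exact ⟨fun hx x => (ha _).1 (hx fun _ => x), fun hx x => (ha _).2 (hx (x ()))⟩⟩

def Atom (a : H) : Prop := ∀ q, q ≤ a → a ≤ q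
def Lt (s0 s1 s2 a b : H) : Prop :=
  Atom a ∧ Atom b ∧ ∃ p, s0 ≤ p ∧ s1 ≤ p ∧ s2 ≤ p ∧ a ≤ p ∧ ¬ b ≤ p
def Suc (s0 s1 s2 a b : H) : Prop :=
  Lt s0 s1 s2 a b ∧ ¬ ∃ c, Lt s0 s1 s2 a c ∧ Lt s0 s1 s2 c b
def Gam (s0 s1 s2 a x : H) : Prop :=
  Lt s0 s1 s2 x a ∧ ∃ p, ∀ c, Atom c → (c ≤ p ↔ c ≤ a ∨ c ≤ x)
def Bit (s0 s1 s2 m z : H) : Prop :=
  ∃ a, ∃ b, Gam s0 s1 s2 a m ∧ Suc s0 s1 s2 a b ∧ a ≤ z ∧ ¬ b ≤ z
def Code (s0 s1 s2 k p z : H) : Prop :=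
  ∀ m, ∀ m', ∀ n, Gam s0 s1 s2 m k → Suc s0 s1 s2 m m' → Gam s0 s1 s2 m' n →
    (n ≤ p ↔ Bit s0 s1 s2 m z)
def Phi (s0 s1 s2 z1 z2 x y : H) : Prop :=
  ∀ p, ∀ q, (∃ k, Atom k ∧ Code s0 s1 s2 k p z1 ∧ Code s0 s1 s2 k q z2) →
    (p ≤ x → q ≤ y) ∧ (x ≤ p → y ≤ q)

theorem fd_Atom (a : α) : FD (fun v : α → H => Atom (v a)) :=
  FD.all ((FD.le _ _).imp (FD.le _ _))
theorem fd_Lt (s0 s1 s2 a b : α) : FD (fun v : α → H => Lt (v s0) (v s1) (v s2) (v a) (v b)) :=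
  (fd_Atom _).and ((fd_Atom _).and (FD.ex ((FD.le _ _).and ((FD.le _ _).and ((FD.le _ _).and
    ((FD.le _ _).and (FD.le _ _).not))))))
theorem fd_Suc (s0 s1 s2 a b : α) : FD (fun v : α → H => Suc (v s0) (v s1) (v s2) (v a) (v b)) :=
  (fd_Lt _ _ _ _ _).and (FD.ex ((fd_Lt _ _ _ _ _).and (fd_Lt _ _ _ _ _))).not
theorem fd_Gam (s0 s1 s2 a b : α) : FD (fun v : α → H => Gam (v s0) (v s1) (v s2) (v a) (v b)) :=
  (fd_Lt _ _ _ _ _).and (FD.ex (FD.all ((fd_Atom _).imp ((FD.le _ _).iff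
    ((FD.le _ _).or (FD.le _ _))))))
theorem fd_Bit (s0 s1 s2 a b : α) : FD (fun v : α → H => Bit (v s0) (v s1) (v s2) (v a) (v b)) :=
  FD.ex (FD.ex ((fd_Gam _ _ _ _ _).and ((fd_Suc _ _ _ _ _).and ((FD.le _ _).and (FD.le _ _).not))))
theorem fd_Code (s0 s1 s2 a b c : α) :
    FD (fun v : α → H => Code (v s0) (v s1) (v s2) (v a) (v b) (v c)) :=
  FD.all (FD.all (FD.all ((fd_Gam _ _ _ _ _).imp ((fd_Suc _ _ _ _ _).imp ((fd_Gam _ _ _ _ _).imp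
    ((FD.le _ _).iff (fd_Bit _ _ _ _ _)))))))
theorem fd_Phi (s0 s1 s2 a b c d : α) :
    FD (fun v : α → H => Phi (v s0) (v s1) (v s2) (v a) (v b) (v c) (v d)) :=
  FD.all (FD.all ((FD.ex ((fd_Atom _).and ((fd_Code _ _ _ _ _ _).and (fd_Code _ _ _ _ _ _)))).imp
    (((FD.le _ _).imp (FD.le _ _)).and ((FD.le _ _).imp (FD.le _ _)))))
end FD

/-- the coded partial function -/
def Edge (i x : ℕ) : Prop :=
  ∃ a b, (i = 5 * Nat.pair a b + 5 ∧ x = a) ∨ (i = 5 * Nat.pair a b + 7 ∧ x = a) ∨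
    (i = 5 * Nat.pair a b + 8 ∧ x = b)

theorem Edge.lt {i x : ℕ} (h : Edge i x) : x < i ∧ 5 ≤ i := by
  obtain ⟨a, b, h⟩ := h
  have := Nat.left_le_pair a b
  have := Nat.right_le_pair a b
  omega

open Classical in
/-- binary value of the first digits -/
noncomputable def val (T : Set ℕ) : ℕ → ℕ
  | 0 => 0
  | n + 1 => 2 * val T n + if n ∈ T then 1 else 0

theorem val_lt {T U : Set ℕ} {n : ℕ} (h : val T n < val U n) (d : ℕ) :
    val T (n + d) < val U (n + d) := by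
  induction d with
  | zero => exact h
  | succ d ih =>
    change 2 * val T (n + d) + _ < 2 * val U (n + d) + _
    split_ifs <;> omega

/-- elements of the chain -/
def SS (T : Set ℕ) : Set ℕ :=
  {i | i % 5 = 4 ∨ ∃ m j, (i = 5 * Nat.pair m j + 5 ∧ 2 * j + 1 ≤ val T (m + 1)) ∨
    (i = 5 * Nat.pair m j + 6 ∧ 2 * j + 2 ≤ val T (m + 1))}

theorem SS_mono {T U : Set ℕ} (h : ∀ n, val T n ≤ val U n) : SS T ⊆ SS U := by
  rintro i (hi | ⟨m, j, hi | hi⟩)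
  · exact Or.inl hi
  · exact Or.inr ⟨m, j, Or.inl ⟨hi.1, hi.2.trans (h _)⟩⟩
  · exact Or.inr ⟨m, j, Or.inr ⟨hi.1, hi.2.trans (h _)⟩⟩

theorem SS_total (T U : Set ℕ) : SS T ⊆ SS U ∨ SS U ⊆ SS T := by
  by_cases h : ∀ n, val T n ≤ val U n
  · exact Or.inl (SS_mono h)
  · push Not at h
    obtain ⟨n, hn⟩ := h
    refine Or.inr (SS_mono fun m => ?_)
    by_contra hm
    have h1 := val_lt hn m
    have h2 := val_lt (not_le.1 hm) n
    rw [add_comm] at h2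
    omega

/-- the poset -/
def PP : Type := {p : Set ℕ // (∃ n, p = {n}) ∨ (∃ i x, Edge i x ∧ p = {i, x}) ∨
  (∃ n, 2 ≤ n ∧ p = Set.Iic n) ∨ ∃ T, p = SS T}

instance : PartialOrder PP := Subtype.partialOrder _

theorem le_iff (p q : PP) : p ≤ q ↔ p.1 ⊆ q.1 := Iff.rfl

/-- singletons -/
def sg (n : ℕ) : PP := ⟨{n}, Or.inl ⟨n, rfl⟩⟩
/-- chain elements -/
def ch (T : Set ℕ) : PP := ⟨SS T, Or.inr (Or.inr (Or.inr ⟨T, rfl⟩))⟩

theorem sg_le (n : ℕ) (p : PP) : sg n ≤ p ↔ n ∈ p.1 := Set.singleton_subset_iff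

theorem sg_le_sg (n m : ℕ) : sg n ≤ sg m ↔ n = m := sg_le n _

theorem sg_inj : Function.Injective sg := fun a b h => (sg_le_sg a b).1 h.le

theorem ne_PP (p : PP) : p.1.Nonempty := by
  obtain ⟨p, ⟨n, rfl⟩ | ⟨i, x, -, rfl⟩ | ⟨n, -, rfl⟩ | ⟨T, rfl⟩⟩ := p
  · simp
  · simp
  · exact ⟨0, Nat.zero_le n⟩
  · exact ⟨4, Or.inl rfl⟩

theorem atom_iff (a : PP) : Atom a ↔ ∃ n, a = sg n := by
  constructor
  · intro h
    obtain ⟨n, hn⟩ := ne_PP a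
    exact ⟨n, le_antisymm (h _ ((sg_le n a).2 hn)) ((sg_le n a).2 hn)⟩
  · rintro ⟨n, rfl⟩ q hq
    obtain ⟨m, hm⟩ := ne_PP q
    obtain rfl : m = n := hq hm
    exact (sg_le _ _).2 hm

theorem lt_iff (a b : PP) :
    Lt (sg 0) (sg 1) (sg 2) a b ↔ ∃ i j, a = sg i ∧ b = sg j ∧ i < j ∧ 3 ≤ j := by
  unfold Lt
  rw [atom_iff, atom_iff]
  constructor
  · rintro ⟨⟨i, rfl⟩, ⟨j, rfl⟩, p, h0, h1, h2, h3, h4⟩
    refine ⟨i, j, rfl, rfl, ?_⟩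
    rw [sg_le] at h0 h1 h2 h3 h4
    obtain ⟨p, ⟨n, rfl⟩ | ⟨i', x, he, rfl⟩ | ⟨n, hn, rfl⟩ | ⟨T, rfl⟩⟩ := p
    · simp only [Set.mem_singleton_iff] at h0 h1; omega
    · simp only [Set.mem_insert_iff, Set.mem_singleton_iff] at h0 h1 h2; omega
    · simp only [Set.mem_Iic] at h3 h4; omega
    · simp [SS] at h0
  · rintro ⟨i, j, rfl, rfl, h1, h2⟩
    refine ⟨⟨i, rfl⟩, ⟨j, rfl⟩, ⟨Set.Iic (max i 2), Or.inr (Or.inr (Or.inl
      ⟨_, le_max_right _ _, rfl⟩))⟩, ?_⟩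
    simp only [sg_le, Set.mem_Iic]
    omega

theorem suc_iff (i : ℕ) (hi : 3 ≤ i) (b : PP) :
    Suc (sg 0) (sg 1) (sg 2) (sg i) b ↔ b = sg (i + 1) := by
  unfold Suc
  simp only [lt_iff]
  constructor
  · rintro ⟨⟨i', j, h, rfl, h1, h2⟩, h3⟩
    obtain rfl := sg_inj h
    by_contra hne
    have : j ≠ i + 1 := fun h => hne (by rw [h])
    exact h3 ⟨sg (i + 1), ⟨i, i + 1, rfl, rfl, by omega, by omega⟩,
      ⟨i + 1, j, rfl, rfl, by omega, h2⟩⟩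
  · rintro rfl
    refine ⟨⟨i, i + 1, rfl, rfl, by omega, by omega⟩, ?_⟩
    rintro ⟨c, ⟨a, b, h1, rfl, h2, -⟩, ⟨a', b', h3, h4, h5, -⟩⟩
    obtain rfl := sg_inj h1
    obtain rfl := sg_inj h3
    obtain rfl := sg_inj h4
    omega

theorem gam_iff (a x : PP) :
    Gam (sg 0) (sg 1) (sg 2) a x ↔ ∃ i j, a = sg i ∧ x = sg j ∧ Edge i j := by
  unfold Gam
  rw [lt_iff]
  constructor
  · rintro ⟨⟨j, i, rfl, rfl, h1, h2⟩, p, hp⟩
    refine ⟨i, j, rfl, rfl, ?_⟩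
    have h3 : ∀ n, n ∈ p.1 ↔ n = i ∨ n = j := fun n => by
      simpa only [sg_le_sg, sg_le n p] using hp (sg n) ((atom_iff _).2 ⟨n, rfl⟩)
    obtain ⟨p, ⟨n, rfl⟩ | ⟨i', x, he, rfl⟩ | ⟨n, hn, rfl⟩ | ⟨T, rfl⟩⟩ := p
    · have := (h3 i).2 (Or.inl rfl); have := (h3 j).2 (Or.inr rfl); simp at *; omega
    · have a1 := (h3 i).2 (Or.inl rfl); have a2 := (h3 j).2 (Or.inr rfl)
      have := he.lt
      simp only [Set.mem_insert_iff, Set.mem_singleton_iff] at a1 a2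
      obtain rfl : i = i' := by omega
      obtain rfl : j = x := by omega
      exact he
    · have a1 := (h3 0).1 (Nat.zero_le n)
      have a2 := (h3 1).1 (show 1 ≤ n by omega)
      omega
    · have a1 := (h3 4).1 (Or.inl rfl)
      have a2 := (h3 9).1 (Or.inl rfl)
      have a3 := (h3 14).1 (Or.inl rfl)
      omega
  · rintro ⟨i, j, rfl, rfl, he⟩
    refine ⟨⟨j, i, rfl, rfl, he.lt.1, by have := he.lt; omega⟩,
      ⟨{i, j}, Or.inr (Or.inl ⟨i, j, he, rfl⟩)⟩, fun c hc => ?_⟩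
    obtain ⟨n, rfl⟩ := (atom_iff c).1 hc
    rw [sg_le_sg, sg_le_sg, sg_le]
    rfl

theorem bit_iff (m : ℕ) (T : Set ℕ) : Bit (sg 0) (sg 1) (sg 2) (sg m) (ch T) ↔ m ∈ T := by
  classical
  have hv : val T (m + 1) = 2 * val T m + if m ∈ T then 1 else 0 := by
    conv_lhs => unfold val
  constructor
  · rintro ⟨a, b, h1, h2, h3, h4⟩
    obtain ⟨i, j, rfl, hj, he⟩ := (gam_iff _ _).1 h1
    obtain rfl := sg_inj hj
    obtain rfl := (suc_iff i (by have := he.lt; omega) b).1 h2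
    rw [sg_le] at h3 h4
    obtain ⟨a, b, he⟩ := he
    rcases h3 with h3 | ⟨m', j, h3 | h3⟩
    · omega
    · have h5 : Nat.pair a b = Nat.pair m' j := by omega
      rw [Nat.pair_eq_pair] at h5
      obtain ⟨rfl, rfl⟩ := h5
      obtain rfl : m = a := by omega
      have h6 : ¬ 2 * b + 2 ≤ val T (m + 1) := fun h => h4 (Or.inr ⟨m, b, Or.inr ⟨by omega, h⟩⟩)
      by_contra hm
      rw [if_neg hm] at hv
      omega
    · omega
  · intro hm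
    rw [if_pos hm] at hv
    refine ⟨sg (5 * Nat.pair m (val T m) + 5), sg (5 * Nat.pair m (val T m) + 5 + 1),
      (gam_iff _ _).2 ⟨_, _, rfl, rfl, m, _, Or.inl ⟨rfl, rfl⟩⟩, (suc_iff _ (by omega) _).2 rfl,
      (sg_le _ _).2 (Or.inr ⟨m, _, Or.inl ⟨rfl, by omega⟩⟩), ?_⟩
    rw [sg_le]
    rintro (h | ⟨m', j, h | h⟩)
    · omega
    · omega
    · have h5 : Nat.pair m (val T m) = Nat.pair m' j := by omega
      rw [Nat.pair_eq_pair] at h5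
      obtain ⟨rfl, rfl⟩ := h5
      omega

theorem code_iff (d : ℕ → PP) (k : ℕ) (p : PP) :
    Code (sg 0) (sg 1) (sg 2) (sg k) p
      (ch {m | ∃ a b, m = 5 * Nat.pair a b + 7 ∧ b ∈ (d a).1}) ↔ p = d k := by
  have key : ∀ a b, 5 * Nat.pair a b + 7 ∈ {m | ∃ a b, m = 5 * Nat.pair a b + 7 ∧ b ∈ (d a).1} ↔
      b ∈ (d a).1 := by
    intro a b
    constructor
    · rintro ⟨a', b', h, h'⟩
      have h5 : Nat.pair a b = Nat.pair a' b' := by omega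
      rw [Nat.pair_eq_pair] at h5
      obtain ⟨rfl, rfl⟩ := h5
      exact h'
    · exact fun h => ⟨a, b, rfl, h⟩
  constructor
  · intro h
    apply Subtype.ext
    ext n
    have := h (sg (5 * Nat.pair k n + 7)) (sg (5 * Nat.pair k n + 7 + 1)) (sg n)
      ((gam_iff _ _).2 ⟨_, _, rfl, rfl, k, n, Or.inr (Or.inl ⟨rfl, rfl⟩)⟩)
      ((suc_iff _ (by omega) _).2 rfl)
      ((gam_iff _ _).2 ⟨_, _, rfl, rfl, k, n, Or.inr (Or.inr ⟨rfl, rfl⟩)⟩)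
    rwa [sg_le, bit_iff, key] at this
  · rintro rfl m m' n h1 h2 h3
    obtain ⟨i, j, rfl, hj, he⟩ := (gam_iff _ _).1 h1
    obtain rfl := sg_inj hj
    obtain rfl := (suc_iff i (by have := he.lt; omega) _).1 h2
    obtain ⟨i', n, hi, rfl, he'⟩ := (gam_iff _ _).1 h3
    obtain rfl := sg_inj hi
    obtain ⟨a, b, he⟩ := he
    obtain ⟨a', b', he'⟩ := he'
    have h5 : Nat.pair a b = Nat.pair a' b' := by omega
    rw [Nat.pair_eq_pair] at h5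
    obtain ⟨rfl, rfl⟩ := h5
    obtain rfl : i = 5 * Nat.pair a b + 7 := by omega
    obtain rfl : k = a := by omega
    obtain rfl : n = b := by omega
    rw [sg_le, bit_iff, key]

theorem cofinal (W : Set (Set ℕ)) (hW : ∀ a ∈ W, ∀ b ∈ W, a ⊆ b ∨ b ⊆ a) :
    ∃ D ⊆ W, D.Countable ∧ ∀ a ∈ W, ∃ d ∈ D, a ⊆ d := by
  by_cases h : ∃ m ∈ W, ∀ a ∈ W, a ⊆ m
  · obtain ⟨m, hm, h⟩ := h
    exact ⟨{m}, by simpa using hm, Set.countable_singleton _, fun a ha => ⟨m, rfl, h a ha⟩⟩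
  push Not at h
  choose f hf hf' using fun n : {n // ∃ a ∈ W, n ∈ a} => n.2
  refine ⟨Set.range f, by rintro _ ⟨n, rfl⟩; exact hf n, Set.countable_range f, fun a ha => ?_⟩
  obtain ⟨b, hb, hab⟩ := h a ha
  obtain ⟨n, hn, hn'⟩ := Set.not_subset.1 hab
  refine ⟨f ⟨n, b, hb, hn⟩, ⟨_, rfl⟩, (hW _ ha _ (hf _)).resolve_right fun h => ?_⟩
  exact hn' (h (hf' ⟨n, b, hb, hn⟩))

theorem cofinal' (W : Set PP) (hW : W ⊆ Set.range ch) :
    ∃ D ⊆ W, D.Countable ∧ (∀ a ∈ W, ∃ d ∈ D, a ≤ d) ∧ ∀ a ∈ W, ∃ d ∈ D, d ≤ a := by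
  have tot : ∀ a ∈ W, ∀ b ∈ W, a.1 ⊆ b.1 ∨ b.1 ⊆ a.1 := by
    intro a ha b hb
    obtain ⟨T, rfl⟩ := hW ha
    obtain ⟨U, rfl⟩ := hW hb
    exact SS_total T U
  obtain ⟨D, h1, h2, h3⟩ := cofinal (Subtype.val '' W) (by
    rintro _ ⟨a, ha, rfl⟩ _ ⟨b, hb, rfl⟩; exact tot a ha b hb)
  obtain ⟨D', h1', h2', h3'⟩ := cofinal ((fun a : PP => a.1ᶜ) '' W) (by
    rintro _ ⟨a, ha, rfl⟩ _ ⟨b, hb, rfl⟩
    simpa only [Set.compl_subset_compl] using tot b hb a ha)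
  refine ⟨W ∩ (Subtype.val ⁻¹' D ∪ (fun a : PP => a.1ᶜ) ⁻¹' D'), Set.inter_subset_left,
    ((h2.preimage Subtype.val_injective).union (h2'.preimage fun a b h =>
      Subtype.ext (compl_injective h))).mono Set.inter_subset_right, fun a ha => ?_,
    fun a ha => ?_⟩
  · obtain ⟨d, hd, h⟩ := h3 _ ⟨a, ha, rfl⟩
    obtain ⟨b, hb, rfl⟩ := h1 hd
    exact ⟨b, ⟨hb, Or.inl hd⟩, h⟩
  · obtain ⟨d, hd, h⟩ := h3' _ ⟨a, ha, rfl⟩
    obtain ⟨b, hb, rfl⟩ := h1' hd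
    exact ⟨b, ⟨hb, Or.inr hd⟩, Set.compl_subset_compl.1 h⟩

theorem countable_part : (Set.range ch)ᶜ.Countable := by
  have : ((Set.range fun n : ℕ => ({n} : Set ℕ)) ∪ (Set.range fun q : ℕ × ℕ => ({q.1, q.2} : Set ℕ))
      ∪ Set.range fun n : ℕ => Set.Iic n).Countable :=
    ((Set.countable_range _).union (Set.countable_range _)).union (Set.countable_range _)
  refine (this.preimage (Subtype.val_injective (p := fun p : Set ℕ => (∃ n, p = {n}) ∨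
    (∃ i x, Edge i x ∧ p = {i, x}) ∨ (∃ n, 2 ≤ n ∧ p = Set.Iic n) ∨ ∃ T, p = SS T))).mono ?_
  rintro ⟨p, ⟨n, rfl⟩ | ⟨i, x, -, rfl⟩ | ⟨n, -, rfl⟩ | ⟨T, rfl⟩⟩ hp
  · exact Or.inl (Or.inl ⟨n, rfl⟩)
  · exact Or.inl (Or.inr ⟨(i, x), rfl⟩)
  · exact Or.inr ⟨n, rfl⟩
  · exact absurd ⟨T, rfl⟩ hp

theorem exists_seq (f : PP → PP) (hf : Monotone f) : ∃ d : ℕ → PP, ∀ x y,
    (∀ k, (d k ≤ x → f (d k) ≤ y) ∧ (x ≤ d k → y ≤ f (d k))) ↔ f x = y := by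
  choose D h1 h2 h3 h4 using fun q : ℕ × Prop =>
    cofinal' {x ∈ Set.range ch | q.1 ∈ (f x).1 ↔ q.2} (fun _ h => h.1)
  have hc : ((Set.range ch)ᶜ ∪ ⋃ q, D q).Countable :=
    countable_part.union (Set.countable_iUnion h2)
  obtain ⟨d, hd⟩ := hc.exists_eq_range ⟨sg 0, Or.inl (by
    rintro ⟨T, hT⟩
    have : (4 : ℕ) ∈ (sg 0).1 := hT ▸ (Or.inl rfl : 4 ∈ SS T)
    simp [sg] at this)⟩
  refine ⟨d, fun x y => ⟨fun h => ?_, ?_⟩⟩
  · have h' : ∀ e ∈ (Set.range ch)ᶜ ∪ ⋃ q, D q, (e ≤ x → f e ≤ y) ∧ (x ≤ e → y ≤ f e) := by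
      rw [hd]; rintro _ ⟨k, rfl⟩; exact h k
    by_cases hx : x ∈ Set.range ch
    · apply Subtype.ext
      ext n
      constructor
      · intro hn
        obtain ⟨e, he, hex⟩ := h4 (n, True) x ⟨hx, by simpa using hn⟩
        exact (h' e (Or.inr (Set.mem_iUnion.2 ⟨_, he⟩))).1 hex ((h1 _ he).2.2 trivial)
      · intro hn
        by_contra hn'
        obtain ⟨e, he, hex⟩ := h3 (n, False) x ⟨hx, by simpa using hn'⟩
        exact (h1 _ he).2.1 ((h' e (Or.inr (Set.mem_iUnion.2 ⟨_, he⟩))).2 hex hn)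
    · exact le_antisymm ((h' x (Or.inl hx)).1 le_rfl) ((h' x (Or.inl hx)).2 le_rfl)
  · rintro rfl k
    exact ⟨fun h => hf h, fun h => hf h⟩

theorem phi_iff (f : PP → PP) (hf : Monotone f) :
    ∃ z1 z2, ∀ x y, Phi (sg 0) (sg 1) (sg 2) z1 z2 x y ↔ f x = y := by
  obtain ⟨d, hd⟩ := exists_seq f hf
  refine ⟨ch {m | ∃ a b, m = 5 * Nat.pair a b + 7 ∧ b ∈ (d a).1},
    ch {m | ∃ a b, m = 5 * Nat.pair a b + 7 ∧ b ∈ (f (d a)).1}, fun x y => ?_⟩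
  rw [← hd]
  constructor
  · intro h k
    exact h _ _ ⟨sg k, (atom_iff _).2 ⟨k, rfl⟩, (code_iff d k _).2 rfl,
      (code_iff (fun a => f (d a)) k _).2 rfl⟩
  · rintro h p q ⟨k, hk, h1, h2⟩
    obtain ⟨k, rfl⟩ := (atom_iff _).1 hk
    rw [(code_iff d k _).1 h1, (code_iff (fun a => f (d a)) k _).1 h2]
    exact h k

theorem main [Language.order.Structure PP] [Language.order.OrderedStructure PP] (f : PP → PP)
    (hf : Monotone f) :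
    (Set.univ : Set PP).Definable Language.order {v : Fin 2 → PP | f (v 0) = v 1} := by
  obtain ⟨z1, z2, h⟩ := phi_iff f hf
  rw [Set.definable_iff_exists_formula_sum]
  obtain ⟨φ, hφ⟩ := fd_Phi (H := PP) (α := (Set.univ : Set PP) ⊕ Fin 2)
    (Sum.inl ⟨sg 0, trivial⟩) (Sum.inl ⟨sg 1, trivial⟩) (Sum.inl ⟨sg 2, trivial⟩)
    (Sum.inl ⟨z1, trivial⟩) (Sum.inl ⟨z2, trivial⟩) (Sum.inr 0) (Sum.inr 1)
  refine ⟨φ, Set.ext fun v => ?_⟩
  rw [Set.mem_setOf_eq, Set.mem_setOf_eq, hφ]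
  exact (h _ _).symm

end Pool.Agent.H66.Mono
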