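import Mathlib

set_option autoImplicit false

namespace Pool.Agent.H66.Mptr

open Finset Pointwise

def zz (S : Finset ℕ) : Finset ℤ := S.image (↑)

theorem mem_zz_sub {S : Finset ℕ} {x : ℤ} : x ∈ zz S - zz S ↔ ∃ a ∈ S, ∃ b ∈ S, (a : ℤ) - b = x := by
  simp [zz, mem_sub]

theorem base : ∃ U : Finset ℕ, U.Nonempty ∧ #(U + U) = 26 ∧ #(zz U - zz U) = 25 ∧
    ∀ x ∈ U + U, x < 29 :=
  ⟨{0, 2, 3, 4, 7, 11, 12, 14}, by decide, by decide +kernel, by decide +kernel, by decide +kernel⟩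

theorem strong (k : ℕ) : ∃ S : Finset ℕ, S.Nonempty ∧ 26 ^ k ≤ #(S + S) ∧
    #(zz S - zz S) ≤ 25 ^ k := by
  induction k with
  | zero => exact ⟨{0}, by simp, by simp, by simp [zz]⟩
  | succ k ih =>
    obtain ⟨S, h0, h1, h2⟩ := ih
    obtain ⟨U, u0, u1, u2, u3⟩ := base
    refine ⟨(U ×ˢ S).image fun p => p.1 + 29 * p.2, (Nonempty.product u0 h0).image _,
      ?_, ?_⟩
    · calc 26 ^ (k + 1) ≤ #((U + U) ×ˢ (S + S)) := by
            rw [card_product, u1, pow_succ']; omega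
        _ ≤ _ := card_le_card_of_injOn (fun p => p.1 + 29 * p.2) (fun p hp => ?_) fun p hp q hq h => ?_
      · rw [mem_coe, mem_product] at hp
        obtain ⟨a, ha, b, hb, e1⟩ := mem_add.1 hp.1
        obtain ⟨c, hc, d, hd, e2⟩ := mem_add.1 hp.2
        exact mem_coe.2 (mem_add.2 ⟨_, mem_image.2 ⟨(a, c), mem_product.2 ⟨ha, hc⟩, rfl⟩, _,
          mem_image.2 ⟨(b, d), mem_product.2 ⟨hb, hd⟩, rfl⟩, by simp only; omega⟩)
      · rw [mem_coe, mem_product] at hp hq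
        have := u3 _ hp.1
        have := u3 _ hq.1
        simp only at h
        exact Prod.ext (by omega) (by omega)
    · calc _ ≤ #(((zz U - zz U) ×ˢ (zz S - zz S)).image fun p => p.1 + 29 * p.2) :=
            card_le_card fun x hx => ?_
        _ ≤ _ := card_image_le.trans (by rw [card_product, u2, pow_succ']; omega)
      obtain ⟨y, hy, z, hz, rfl⟩ := mem_zz_sub.1 hx
      obtain ⟨⟨a, c⟩, ha, rfl⟩ := mem_image.1 hy
      obtain ⟨⟨b, d⟩, hb, rfl⟩ := mem_image.1 hz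
      rw [mem_product] at ha hb
      exact mem_image.2 ⟨((a : ℤ) - b, (c : ℤ) - d), mem_product.2 ⟨mem_zz_sub.2 ⟨_, ha.1, _, hb.1, rfl⟩,
        mem_zz_sub.2 ⟨_, ha.2, _, hb.2, rfl⟩⟩, by push_cast; ring⟩

def TT (S : Finset ℕ) (N L : ℕ) : Finset ℕ := (S ×ˢ range L).image fun p => p.1 + N * p.2

theorem plus (S : Finset ℕ) (N L c : ℕ) (hN : ∀ w ∈ S + S, w < N) (hL : 1 + N * c ≤ L) :
    #(S + S) * ((1 + N * c) * L) ≤
      #((TT S N L ×ˢ TT S N L).image fun p => p.1 + (1 + N * c) * p.2) := by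
  have : ∀ w : ℕ, ∃ u v : ℕ, w ∈ S + S → u ∈ S ∧ v ∈ S ∧ u + v = w := by
    intro w
    by_cases h : w ∈ S + S
    · obtain ⟨a, ha, b, hb, e⟩ := mem_add.1 h
      exact ⟨a, b, fun _ => ⟨ha, hb, e⟩⟩
    · exact ⟨0, 0, fun h' => absurd h' h⟩
  choose u v huv using this
  rw [← card_range ((1 + N * c) * L), ← card_product]
  refine card_le_card_of_injOn (fun p => p.1 + N * (c * v p.1 + p.2)) (fun p hp => ?_)
    fun p hp q hq h => ?_
  · rw [mem_coe, mem_product, mem_range] at hp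
    obtain ⟨h1, h2, h3⟩ := huv _ hp.1
    refine mem_coe.2 (mem_image.2 ⟨(u p.1 + N * (p.2 % (1 + N * c)), v p.1 + N * (p.2 / (1 + N * c))),
      mem_product.2 ⟨mem_image.2 ⟨(_, _), mem_product.2 ⟨h1, mem_range.2 ?_⟩, rfl⟩,
        mem_image.2 ⟨(_, _), mem_product.2 ⟨h2, mem_range.2 ?_⟩, rfl⟩⟩, ?_⟩)
    · exact (Nat.mod_lt _ (by omega)).trans_le hL
    · exact Nat.div_lt_of_lt_mul hp.2
    · have := Nat.mod_add_div p.2 (1 + N * c)
      simp only
      conv_rhs => rw [← this, ← h3]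
      rw [h3]
      nth_rewrite 3 [← h3]
      ring
  · rw [mem_coe, mem_product] at hp hq
    have h1 := hN _ hp.1
    have h2 := hN _ hq.1
    simp only at h
    have h3 : p.1 = q.1 := by
      have := congrArg (· % N) h
      simpa [Nat.mod_eq_of_lt h1, Nat.mod_eq_of_lt h2] using this
    rw [h3] at h
    have h4 := Nat.eq_of_mul_eq_mul_left (by omega) (Nat.add_left_cancel h)
    exact Prod.ext h3 (by omega)

theorem minus (S : Finset ℕ) (N L c : ℕ) (hN : ∀ w ∈ S, w < N) (hL : 1 ≤ L) :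
    #((TT S N L ×ˢ TT S N L).image fun p => (p.1 : ℤ) - (1 + N * c : ℕ) * p.2) ≤
      #(zz S - zz S) * (3 * ((1 + N * c) * L)) := by
  rw [← card_range (3 * ((1 + N * c) * L)), ← card_product]
  refine le_trans (card_le_card fun x hx => ?_)
    (card_image_le (f := fun p : ℤ × ℕ => p.1 + N * ((L : ℤ) - 1 - p.2)))
  obtain ⟨⟨y, z⟩, hp, rfl⟩ := mem_image.1 hx
  obtain ⟨hy, hz⟩ := mem_product.1 hp
  obtain ⟨⟨a, i⟩, ha, ea⟩ := mem_image.1 hy
  obtain ⟨⟨b, j⟩, hb, eb⟩ := mem_image.1 hz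
  simp only at ea eb
  subst ea eb
  rw [mem_product, mem_range] at ha hb
  have h1 := hN _ hb.1
  have h2 := ha.2
  have h3 := hb.2
  refine mem_image.2 ⟨((a : ℤ) - b, L - 1 - i + c * b + (1 + N * c) * j),
    mem_product.2 ⟨mem_zz_sub.2 ⟨_, ha.1, _, hb.1, rfl⟩, mem_range.2 ?_⟩, ?_⟩
  · simp only at h1 h2 h3 ⊢
    have e1 : c * b ≤ (1 + N * c) * L := (Nat.mul_le_mul_left c h1.le).trans
      (((mul_comm c N).le.trans (Nat.le_add_left _ 1)).trans (Nat.le_mul_of_pos_right _ hL))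
    have e2 : (1 + N * c) * j ≤ (1 + N * c) * L := Nat.mul_le_mul_left _ h3.le
    have e3 : L ≤ (1 + N * c) * L := Nat.le_mul_of_pos_left _ (by omega)
    omega
  · simp only at h2 ⊢
    rw [Nat.sub_sub]
    push_cast [Nat.cast_sub (show 1 + i ≤ L by omega)]
    ring

theorem pow_form (N d : ℕ) : ∃ c, (N + 1) ^ d = 1 + N * c := by
  induction d with
  | zero => exact ⟨0, by simp⟩
  | succ d ih =>
    obtain ⟨c, hc⟩ := ih
    exact ⟨c + 1 + N * c, by rw [pow_succ, hc]; ring⟩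

theorem scale {g a b x y : ℕ} (hx : x < g * y) (hy : y < g * x) (h : g ^ a * x = g ^ b * y) :
    a = b := by
  have key : ∀ {a b x y : ℕ}, x < g * y → g ^ a * x = g ^ b * y → b ≤ a := by
    intro a b x y hx h
    by_contra hc
    obtain ⟨d, rfl⟩ : ∃ d, b = a + (d + 1) := ⟨b - a - 1, by omega⟩
    have hg : 0 < g := Nat.pos_of_ne_zero (by rintro rfl; simp at hx)
    rw [pow_add, mul_assoc] at h
    have h1 := Nat.eq_of_mul_eq_mul_left (pow_pos hg a) h
    have h2 : 1 ≤ g ^ d := Nat.one_le_pow _ _ hg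
    rw [pow_succ] at h1
    nlinarith [Nat.mul_le_mul_right (g * y) h2]
  exact le_antisymm (key hy h.symm) (key hx h)

theorem divmod {X a b c d : ℕ} (hb : b < X) (hd : d < X) (h : X * a + b = X * c + d) :
    a = c ∧ b = d := by
  have h1 : b = d := by
    have := congrArg (· % X) h
    simpa [Nat.mod_eq_of_lt hb, Nat.mod_eq_of_lt hd] using this
  rw [h1] at h
  exact ⟨Nat.eq_of_mul_eq_mul_left (by omega) (Nat.add_right_cancel h), h1⟩

def AA (S T : Finset ℕ) (g X : ℕ) : Finset ℕ := (S ×ˢ T).image fun p => g ^ p.1 * (X + p.2)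

theorem mem_AA {S T : Finset ℕ} {g X s t : ℕ} (hs : s ∈ S) (ht : t ∈ T) :
    g ^ s * (X + t) ∈ AA S T g X := mem_image.2 ⟨(s, t), mem_product.2 ⟨hs, ht⟩, rfl⟩

theorem half (T : Finset ℕ) : #T * #T ≤ 2 * #((T ×ˢ T).filter fun p => p.1 ≤ p.2) := by
  rw [← card_product, two_mul]
  refine le_trans (card_le_card fun p hp => ?_) ((card_union_le _
    (((T ×ˢ T).filter fun p => p.1 ≤ p.2).image Prod.swap)).trans
      (Nat.add_le_add_left card_image_le _))
  rcases le_total p.1 p.2 with h | h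
  · exact mem_union_left _ (mem_filter.2 ⟨hp, h⟩)
  · exact mem_union_right _ (mem_image.2 ⟨p.swap, mem_filter.2
      ⟨mem_product.2 (mem_product.1 hp).symm, h⟩, rfl⟩)

theorem mult (S T : Finset ℕ) (g X : ℕ) (hg : 4 ≤ g) (hT : T.Nonempty)
    (hX : ∀ t ∈ T, ∀ t' ∈ T, t * t' < X) (hX' : ∀ t ∈ T, t < X)
    (h : 2 * #(zz S - zz S) < #(S + S)) :
    #((AA S T g X).image (fun a : ℕ => (a : ℚ)) / (AA S T g X).image (fun a : ℕ => (a : ℚ))) <
      #(AA S T g X * AA S T g X) := by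
  have h1 : #((AA S T g X).image (fun a : ℕ => (a : ℚ)) / (AA S T g X).image (fun a : ℕ => (a : ℚ)))
      ≤ #(zz S - zz S) * (#T * #T) := by
    rw [← card_product, ← card_product]
    refine le_trans (card_le_card fun x hx => ?_) (card_image_le
      (f := fun p : ℤ × ℕ × ℕ => (g : ℚ) ^ p.1 * ((X + p.2.1) / (X + p.2.2))))
    obtain ⟨y, hy, z, hz, rfl⟩ := mem_div.1 hx
    obtain ⟨y', hy', rfl⟩ := mem_image.1 hy
    obtain ⟨z', hz', rfl⟩ := mem_image.1 hz
    obtain ⟨⟨s, t⟩, ha, rfl⟩ := mem_image.1 hy'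
    obtain ⟨⟨s', t'⟩, hb, rfl⟩ := mem_image.1 hz'
    rw [mem_product] at ha hb
    refine mem_image.2 ⟨((s : ℤ) - s', t, t'), mem_product.2 ⟨mem_zz_sub.2 ⟨_, ha.1, _, hb.1, rfl⟩,
      mem_product.2 ⟨ha.2, hb.2⟩⟩, ?_⟩
    have : (g : ℚ) ≠ 0 := by positivity
    simp only [zpow_sub₀ this, zpow_natCast]
    push_cast
    rw [mul_div_mul_comm]
  have h2 : #(S + S) * #((T ×ˢ T).filter fun p => p.1 ≤ p.2) ≤ #(AA S T g X * AA S T g X) := by
    rw [← card_product]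
    refine card_le_card_of_injOn (fun p => g ^ p.1 * ((X + p.2.1) * (X + p.2.2))) (fun p hp => ?_)
      fun p hp q hq h => ?_
    · rw [mem_coe, mem_product, mem_filter, mem_product] at hp
      obtain ⟨a, ha, b, hb, e⟩ := mem_add.1 hp.1
      exact mem_coe.2 (mem_mul.2 ⟨_, mem_AA ha hp.2.1.1, _, mem_AA hb hp.2.1.2, by
        simp only; rw [← e]; ring⟩)
    · rw [mem_coe, mem_product, mem_filter, mem_product] at hp hq
      obtain ⟨w, a, b⟩ := p
      obtain ⟨w', c, d⟩ := q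
      simp only at hp hq h
      have a1 := hX' _ hp.2.1.1
      have b1 := hX' _ hp.2.1.2
      have c1 := hX' _ hq.2.1.1
      have d1 := hX' _ hq.2.1.2
      have key : ∀ {a b c d : ℕ}, a < X → b < X → (X + a) * (X + b) < g * ((X + c) * (X + d)) := by
        intro a b c d h1 h2
        calc (X + a) * (X + b) < (X + X) * (X + X) := Nat.mul_lt_mul'' (by omega) (by omega)
          _ = 4 * (X * X) := by ring
          _ ≤ _ := Nat.mul_le_mul hg (Nat.mul_le_mul (by omega) (by omega))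
      have e1 := scale (key a1 b1) (key c1 d1) h
      subst e1
      have e2 := Nat.eq_of_mul_eq_mul_left (by positivity) h
      obtain ⟨e3, e4⟩ := divmod (a := X + a + b) (c := X + c + d) (hX _ hp.2.1.1 _ hp.2.1.2)
        (hX _ hq.2.1.1 _ hq.2.1.2) (by linarith)
      have e5 : a = c := by
        have h5 := hp.2.2
        have h6 := hq.2.2
        rcases lt_trichotomy a c with h7 | h7 | h7
        · nlinarith
        · exact h7
        · nlinarith
      subst e5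
      rw [show b = d by omega]
  have h3 := half T
  have h4 := hT.card_pos
  have h5 : 0 < #((T ×ˢ T).filter fun p => p.1 ≤ p.2) := by nlinarith
  nlinarith [Nat.mul_le_mul_left #(zz S - zz S) h3, Nat.mul_lt_mul_of_pos_right h h5]

theorem sidon {g a b c d : ℕ} (hg : 3 ≤ g) (h1 : a ≤ b) (h2 : c ≤ d)
    (h : g ^ a + g ^ b = g ^ c + g ^ d) : a = c ∧ b = d := by
  have key : ∀ {a b c d : ℕ}, a ≤ b → g ^ a + g ^ b = g ^ c + g ^ d → d ≤ b := by
    intro a b c d h1 h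
    by_contra hc
    have e1 : g ^ a ≤ g ^ b := Nat.pow_le_pow_right (by omega) h1
    have e2 : g ^ (b + 1) ≤ g ^ d := Nat.pow_le_pow_right (by omega) (by omega)
    have e3 : 0 < g ^ b := by positivity
    rw [pow_succ] at e2
    nlinarith [Nat.zero_le (g ^ c)]
  have e := le_antisymm (key h2 h.symm) (key h1 h)
  subst e
  exact ⟨Nat.pow_right_injective (by omega) (Nat.add_right_cancel h), rfl⟩

theorem addi (S T : Finset ℕ) (g X : ℕ) (hg : 3 ≤ g) (hS : S.Nonempty)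
    (hX : ∀ s ∈ S, ∀ s' ∈ S, ∀ t ∈ T, ∀ t' ∈ T, g ^ s * t + g ^ s' * t' < X)
    (h : ∀ s ∈ S, ∀ s' ∈ S, s ≤ s' →
      2 * #((T ×ˢ T).image fun p => (p.1 : ℤ) - (g ^ (s' - s) : ℕ) * p.2) <
        #((T ×ˢ T).image fun p => p.1 + g ^ (s' - s) * p.2)) :
    #(zz (AA S T g X) - zz (AA S T g X)) < #(AA S T g X + AA S T g X) := by
  let P := (S ×ˢ S).filter fun p => p.1 ≤ p.2
  let D : ℕ × ℕ → Finset ℤ := fun q => (T ×ˢ T).image fun p => (p.1 : ℤ) - (g ^ (q.2 - q.1) : ℕ) * p.2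
  let E : ℕ × ℕ → Finset ℕ := fun q => (T ×ˢ T).image fun p => p.1 + g ^ (q.2 - q.1) * p.2
  have hp : ∀ {s s' : ℕ}, s ≤ s' → g ^ s' = g ^ s * g ^ (s' - s) := fun h => by
    rw [← pow_add, Nat.add_sub_cancel' h]
  have h1 : #(zz (AA S T g X) - zz (AA S T g X)) ≤ ∑ q ∈ P, 2 * #(D q) := by
    let f : ℕ × ℕ → ℤ → ℤ := fun q y => ((g : ℤ) ^ q.1 - g ^ q.2) * X + g ^ q.1 * y
    refine le_trans (card_le_card (t := P.biUnion fun q => (D q).image (f q) ∪
      (D q).image fun y => -f q y) fun x hx => ?_) (card_biUnion_le.trans (sum_le_sum fun q _ => ?_))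
    · obtain ⟨y, hy, z, hz, rfl⟩ := mem_zz_sub.1 hx
      obtain ⟨⟨s, t⟩, ha, rfl⟩ := mem_image.1 hy
      obtain ⟨⟨s', t'⟩, hb, rfl⟩ := mem_image.1 hz
      rw [mem_product] at ha hb
      rcases le_total s s' with e | e
      · refine mem_biUnion.2 ⟨(s, s'), mem_filter.2 ⟨mem_product.2 ⟨ha.1, hb.1⟩, e⟩,
          mem_union_left _ (mem_image.2 ⟨_, mem_image.2 ⟨(t, t'), mem_product.2 ⟨ha.2, hb.2⟩, rfl⟩,
            ?_⟩)⟩
        have : (g : ℤ) ^ s' = g ^ s * g ^ (s' - s) := by exact_mod_cast hp e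
        simp only [f]
        push_cast
        linear_combination (t' : ℤ) * this
      · refine mem_biUnion.2 ⟨(s', s), mem_filter.2 ⟨mem_product.2 ⟨hb.1, ha.1⟩, e⟩,
          mem_union_right _ (mem_image.2 ⟨_, mem_image.2 ⟨(t', t), mem_product.2 ⟨hb.2, ha.2⟩, rfl⟩,
            ?_⟩)⟩
        have : (g : ℤ) ^ s = g ^ s' * g ^ (s - s') := by exact_mod_cast hp e
        simp only [f]
        push_cast
        linear_combination (-t : ℤ) * this
    · rw [two_mul]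
      exact (card_union_le _ _).trans (add_le_add card_image_le card_image_le)
  have h2 : ∑ q ∈ P, #(E q) ≤ #(AA S T g X + AA S T g X) := by
    rw [← card_sigma]
    have key : ∀ q ∈ P.sigma E, ∃ t ∈ T, ∃ t' ∈ T, q.1.1 ∈ S ∧ q.1.2 ∈ S ∧ q.1.1 ≤ q.1.2 ∧
        g ^ q.1.1 * q.2 = g ^ q.1.1 * t + g ^ q.1.2 * t' := by
      intro q hq
      obtain ⟨h1, h2⟩ := mem_sigma.1 hq
      obtain ⟨⟨t, t'⟩, ht, e⟩ := mem_image.1 h2
      rw [mem_product] at ht
      rw [mem_filter, mem_product] at h1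
      exact ⟨t, ht.1, t', ht.2, h1.1.1, h1.1.2, h1.2, by rw [← e, hp h1.2]; ring⟩
    refine card_le_card_of_injOn (fun q => X * (g ^ q.1.1 + g ^ q.1.2) + g ^ q.1.1 * q.2)
      (fun q hq => ?_) fun q hq r hr e => ?_
    · obtain ⟨t, ht, t', ht', a, b, -, e⟩ := key q hq
      exact mem_coe.2 (mem_add.2 ⟨_, mem_AA a ht, _, mem_AA b ht', by simp only; rw [e]; ring⟩)
    · obtain ⟨t, ht, t', ht', a, b, c, e1⟩ := key q hq
      obtain ⟨u, hu, u', hu', a', b', c', e2⟩ := key r hr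
      obtain ⟨e3, e4⟩ := divmod (e1 ▸ hX _ a _ b _ ht _ ht') (e2 ▸ hX _ a' _ b' _ hu _ hu') e
      obtain ⟨e5, e6⟩ := sidon hg c c' e3
      obtain ⟨⟨q1, q2⟩, q3⟩ := q
      obtain ⟨⟨r1, r2⟩, r3⟩ := r
      simp only at e4 e5 e6
      subst e5 e6
      rw [Nat.eq_of_mul_eq_mul_left (by positivity) e4]
  refine h1.trans_lt (lt_of_lt_of_le (sum_lt_sum_of_nonempty ?_ fun q hq => ?_) h2)
  · obtain ⟨s, hs⟩ := hS
    exact ⟨(s, s), mem_filter.2 ⟨mem_product.2 ⟨hs, hs⟩, le_rfl⟩⟩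
  · rw [mem_filter, mem_product] at hq
    exact h _ hq.1.1 _ hq.1.2 hq.2

theorem main : ∃ A : Finset ℕ, A.Nonempty ∧ (∀ a ∈ A, 0 < a) ∧ #(zz A - zz A) < #(A + A) ∧
    #(A.image (fun a : ℕ => (a : ℚ)) / A.image (fun a : ℕ => (a : ℚ))) < #(A * A) := by
  obtain ⟨S, h0, h1, h2⟩ := strong 60
  have h3 : 6 * #(zz S - zz S) < #(S + S) := by omega
  obtain ⟨m, hm⟩ := S.bddAbove
  have hm' : ∀ s ∈ S, s ≤ m := fun s hs => hm hs
  set N := 2 * m + 3 with hN
  set L := (N + 1) ^ m with hL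
  have hL1 : 1 ≤ L := Nat.one_le_pow _ _ (by omega)
  obtain ⟨b, hb⟩ := (TT S N L).bddAbove
  have hb' : ∀ t ∈ TT S N L, t ≤ b := fun t ht => hb ht
  have hT : (TT S N L).Nonempty := (h0.product ⟨0, mem_range.2 hL1⟩).image _
  refine ⟨AA S (TT S N L) (N + 1) (b * b + b + 2 * (L * b) + 1), (h0.product hT).image _,
    fun a ha => ?_, addi _ _ _ _ (by omega) h0 (fun s hs s' hs' t ht t' ht' => ?_)
      (fun s hs s' hs' e => ?_), mult _ _ _ _ (by omega) hT (fun t ht t' ht' => ?_)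
      (fun t ht => ?_) (by omega)⟩
  · obtain ⟨p, -, rfl⟩ := mem_image.1 ha
    positivity
  · have e1 : (N + 1) ^ s * t ≤ L * b :=
      Nat.mul_le_mul (Nat.pow_le_pow_right (by omega) (hm' s hs)) (hb' t ht)
    have e2 : (N + 1) ^ s' * t' ≤ L * b :=
      Nat.mul_le_mul (Nat.pow_le_pow_right (by omega) (hm' s' hs')) (hb' t' ht')
    omega
  · obtain ⟨c, hc⟩ := pow_form N (s' - s)
    have e1 : 1 + N * c ≤ L := by
      rw [← hc]
      exact Nat.pow_le_pow_right (by omega) (by have := hm' s' hs'; omega)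
    have e2 := plus S N L c (fun w hw => by
      obtain ⟨a, ha, a', ha', rfl⟩ := mem_add.1 hw
      have := hm' a ha
      have := hm' a' ha'
      omega) e1
    have e3 := minus S N L c (fun w hw => by have := hm' w hw; omega) hL1
    rw [hc]
    have e4 : 0 < (1 + N * c) * L := by positivity
    nlinarith [Nat.mul_lt_mul_of_pos_right h3 e4]
  · have := Nat.mul_le_mul (hb' t ht) (hb' t' ht')
    omega
  · have := hb' t ht
    omega

end Pool.Agent.H66.Mptr
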