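import Pool.Agent.H31.HyperRamsey

set_option autoImplicit false

namespace Pool.Agent.H66.NR

open Set Function

variable {Λ : Type} [Bot Λ]

def Irr {V : Type} (l : Set V → Λ) (U : Set V) : Prop :=
  ∀ u ∈ U, ∀ v ∈ U, ∃ s ⊆ U, l s ≠ ⊥ ∧ u ∈ s ∧ v ∈ s

def Emb {V W : Type} (f : V → W) (l : Set V → Λ) (l' : Set W → Λ) : Prop :=
  Injective f ∧ ∀ s, l' (f '' s) = l s

theorem Emb.comp {U V W : Type} {f : U → V} {g : V → W} {l1 : Set U → Λ} {l2 : Set V → Λ}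
    {l3 : Set W → Λ} (hg : Emb g l2 l3) (hf : Emb f l1 l2) : Emb (fun x => g (f x)) l1 l3 :=
  ⟨hg.1.comp hf.1, fun s => by rw [← image_image g f, hg.2, hf.2]⟩

theorem Emb.id {V : Type} (l : Set V → Λ) : Emb (fun x => x) l l :=
  ⟨fun _ _ h => h, fun s => by simp⟩

theorem Emb.irr {V W : Type} {f : V → W} {l : Set V → Λ} {l' : Set W → Λ} (h : Emb f l l')
    {U : Set V} (hU : Irr l' (f '' U)) : Irr l U := by
  intro u hu v hv
  obtain ⟨s, h1, h2, h3, h4⟩ := hU _ (mem_image_of_mem f hu) _ (mem_image_of_mem f hv)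
  obtain ⟨s, h5, rfl⟩ := subset_image_iff.1 h1
  exact ⟨s, h5, h.2 s ▸ h2, (h.1.mem_set_image).1 h3, (h.1.mem_set_image).1 h4⟩

theorem glue {U V0 P I Z : Type} [Finite V0] [Finite P] [Finite I] (l0 : Set V0 → Λ)
    (lP : Set P → Λ) (j : U → P) (hj : Injective j) (φ : I → U → V0) (hφ : ∀ i, Injective (φ i))
    (hc : ∀ i s, l0 (φ i '' s) = lP (j '' s)) (π0 : V0 → Z) (πP : I → P → Z)
    (hπ : ∀ i u, π0 (φ i u) = πP i (j u)) :
    ∃ (V : Type) (_ : Finite V) (l : Set V → Λ) (ψ0 : V0 → V) (ψ : I → P → V) (π : V → Z),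
      Emb ψ0 l0 l ∧ (∀ i, Emb (ψ i) lP l) ∧ (∀ i u, ψ i (j u) = ψ0 (φ i u)) ∧
      (∀ v, π (ψ0 v) = π0 v) ∧ (∀ i p, π (ψ i p) = πP i p) ∧
      (∀ s, l s ≠ ⊥ → s ⊆ range ψ0 ∨ ∃ i, s ⊆ range (ψ i)) ∧
      (∀ W, Irr l W → W ⊆ range ψ0 ∨ ∃ i, W ⊆ range (ψ i)) ∧
      ∀ i p, p ∉ range j → ψ i p ∉ range ψ0 ∧ ∀ i' p', ψ i' p' = ψ i p → i' = i := by
  classical
  let ψ : I → P → V0 ⊕ (I × P) := fun i p =>
    if h : p ∈ range j then Sum.inl (φ i h.choose) else Sum.inr (i, p)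
  have a1 : ∀ i u, ψ i (j u) = Sum.inl (φ i u) := fun i u => by
    have h : j u ∈ range j := ⟨u, rfl⟩
    simp only [ψ, dif_pos h, hj h.choose_spec]
  have a2 : ∀ i p, p ∉ range j → ψ i p = Sum.inr (i, p) := fun i p h => dif_neg h
  have a3 : ∀ i, Injective (ψ i) := by
    intro i p q e
    by_cases hp : p ∈ range j <;> by_cases hq : q ∈ range j
    · obtain ⟨u, rfl⟩ := hp
      obtain ⟨v, rfl⟩ := hq
      rw [a1, a1] at e
      rw [hφ i (Sum.inl_injective e)]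
    · obtain ⟨u, rfl⟩ := hp
      rw [a1, a2 i q hq] at e
      cases e
    · obtain ⟨u, rfl⟩ := hq
      rw [a1, a2 i p hp] at e
      cases e
    · rw [a2 i p hp, a2 i q hq] at e
      exact congrArg Prod.snd (Sum.inr_injective e)
  have a4 : ∀ i i' p p', ψ i' p' = Sum.inr (i, p) → i' = i := by
    intro i i' p p' e
    by_cases hp : p' ∈ range j
    · obtain ⟨u, rfl⟩ := hp
      rw [a1] at e
      cases e
    · rw [a2 i' p' hp] at e
      exact congrArg Prod.fst (Sum.inr_injective e)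
  let l : Set (V0 ⊕ (I × P)) → Λ := fun s =>
    if s ⊆ range Sum.inl then l0 (Sum.inl ⁻¹' s)
    else if h : ∃ i, s ⊆ range (ψ i) then lP (ψ h.choose ⁻¹' s) else ⊥
  have a5 : ∀ s, l s ≠ ⊥ → s ⊆ range Sum.inl ∨ ∃ i, s ⊆ range (ψ i) := by
    intro s hs
    by_contra h
    rw [not_or] at h
    exact hs (by simp only [l, if_neg h.1, dif_neg h.2])
  refine ⟨V0 ⊕ (I × P), inferInstance, l, Sum.inl, ψ, Sum.elim π0 fun x => πP x.1 x.2,
    ⟨Sum.inl_injective, fun s => ?_⟩, fun i => ⟨a3 i, fun s => ?_⟩, a1, fun _ => rfl,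
    fun i p => ?_, a5, fun W hW => ?_, fun i p hp => ⟨?_, fun i' p' e => ?_⟩⟩
  · simp only [l, if_pos (image_subset_range _ _), preimage_image_eq _ Sum.inl_injective]
  · by_cases h : s ⊆ range j
    · obtain ⟨s, rfl⟩ := subset_range_iff_exists_image_eq.1 h
      have e : ψ i '' (j '' s) = Sum.inl '' (φ i '' s) := by
        simp only [image_image, a1]
      simp only [e, l, if_pos (image_subset_range _ _), preimage_image_eq _ Sum.inl_injective, hc]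
    · obtain ⟨p, hp, hp'⟩ := not_subset.1 h
      have b1 : Sum.inr (i, p) ∈ ψ i '' s := ⟨p, hp, a2 i p hp'⟩
      have b2 : ¬ ψ i '' s ⊆ range Sum.inl := fun h => by simpa using h b1
      have b3 : ∃ i', ψ i '' s ⊆ range (ψ i') := ⟨i, image_subset_range _ _⟩
      obtain ⟨p', e⟩ := b3.choose_spec b1
      simp only [l, if_neg b2, dif_pos b3]
      rw [a4 _ _ _ _ e, preimage_image_eq _ (a3 i)]
  · by_cases h : p ∈ range j
    · obtain ⟨u, rfl⟩ := h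
      rw [a1]
      exact hπ i u
    · rw [a2 i p h]
      rfl
  · by_cases h : W ⊆ range Sum.inl
    · exact Or.inl h
    · obtain ⟨w, hw, hw'⟩ := not_subset.1 h
      obtain ⟨⟨i, p⟩, rfl⟩ : w ∈ range Sum.inr := by
        cases w with
        | inl w => exact absurd ⟨w, rfl⟩ hw'
        | inr w => exact ⟨w, rfl⟩
      refine Or.inr ⟨i, fun v hv => ?_⟩
      obtain ⟨s, -, h2, h3, h4⟩ := hW _ hw v hv
      rcases a5 s h2 with h5 | ⟨i', h5⟩
      · exact absurd (h5 h3) hw'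
      · obtain ⟨p', e⟩ := h5 h3
        exact a4 _ _ _ _ e ▸ h5 h4
  · rw [a2 i p hp]
    simp
  · rw [a2 i p hp] at e
    exact a4 _ _ _ _ e

/-- local control of a structure `l` by the structure `lB` -/
def Loc {V β : Type} (k : ℕ) (l : Set V → Λ) (lB : Set β → Λ) : Prop :=
  (∀ U, Irr l U → k < U.ncard → ∃ f : V → β, InjOn f U ∧ ∀ s ⊆ U, lB (f '' s) = l s) ∧
  ∀ s, l s ≠ ⊥ → ∃ s', s'.ncard = s.ncard ∧ lB s' = l s

theorem Loc.refl {V : Type} (k : ℕ) (l : Set V → Λ) : Loc k l l :=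
  ⟨fun U _ _ => ⟨fun x => x, fun _ _ _ _ h => h, fun s _ => by simp⟩, fun s _ => ⟨s, rfl, rfl⟩⟩

theorem Loc.mono {V β : Type} {k k' : ℕ} {l : Set V → Λ} {lB : Set β → Λ} (h : Loc k l lB)
    (hk : k ≤ k') : Loc k' l lB :=
  ⟨fun U h1 h2 => h.1 U h1 (by omega), h.2⟩

theorem Loc.trans {V β γ : Type} {k : ℕ} {l : Set V → Λ} {lB : Set β → Λ} {lC : Set γ → Λ}
    (h : Loc k l lB) (h' : Loc k lB lC) : Loc k l lC := by
  refine ⟨fun U h1 h2 => ?_, fun s hs => ?_⟩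
  · obtain ⟨f, f1, f2⟩ := h.1 U h1 h2
    obtain ⟨g, g1, g2⟩ := h'.1 (f '' U) (by
      rintro _ ⟨u, hu, rfl⟩ _ ⟨v, hv, rfl⟩
      obtain ⟨s, s1, s2, s3, s4⟩ := h1 u hu v hv
      exact ⟨f '' s, image_mono s1, f2 s s1 ▸ s2, mem_image_of_mem f s3, mem_image_of_mem f s4⟩)
      (by rwa [ncard_image_of_injOn f1])
    exact ⟨fun x => g (f x), g1.comp f1 (mapsTo_image f U), fun s hs => by
      rw [← image_image g f, g2 _ (image_mono hs), f2 s hs]⟩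
  · obtain ⟨s1, e1, e2⟩ := h.2 s hs
    obtain ⟨s2, e3, e4⟩ := h'.2 s1 (e2 ▸ hs)
    exact ⟨s2, e3.trans e1, e4.trans e2⟩

theorem Emb.back {V W β : Type} {ψ : V → W} {l : Set V → Λ} {l' : Set W → Λ} {lB : Set β → Λ}
    {k : ℕ} (h : Emb ψ l l') (hl : Loc k l lB) {U : Set W} (hU : U ⊆ range ψ) (h1 : Irr l' U)
    (h2 : k < U.ncard) : ∃ f : W → β, InjOn f U ∧ ∀ s ⊆ U, lB (f '' s) = l' s := by
  obtain ⟨U, rfl⟩ := subset_range_iff_exists_image_eq.1 hU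
  rw [ncard_image_of_injective _ h.1] at h2
  obtain ⟨v, -⟩ := nonempty_of_ncard_ne_zero (s := U) (by omega)
  haveI : Nonempty V := ⟨v⟩
  obtain ⟨f, f1, f2⟩ := hl.1 U (h.irr h1) h2
  have e := leftInverse_invFun h.1
  refine ⟨fun w => f (invFun ψ w), ?_, fun s hs => ?_⟩
  · rintro _ ⟨a, ha, rfl⟩ _ ⟨b, hb, rfl⟩ hab
    simp only [e a, e b] at hab
    rw [f1 ha hb hab]
  · obtain ⟨s, h5, rfl⟩ := subset_image_iff.1 hs
    rw [image_image]
    simp only [e _]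
    rw [f2 s h5, h.2]

theorem Emb.back' {V W β : Type} {ψ : V → W} {l : Set V → Λ} {l' : Set W → Λ} {lB : Set β → Λ}
    {k : ℕ} (h : Emb ψ l l') (hl : Loc k l lB) {s : Set W} (hs : s ⊆ range ψ) (h1 : l' s ≠ ⊥) :
    ∃ s', s'.ncard = s.ncard ∧ lB s' = l' s := by
  obtain ⟨s, rfl⟩ := subset_range_iff_exists_image_eq.1 hs
  rw [h.2] at h1 ⊢
  rw [ncard_image_of_injective _ h.1]
  exact hl.2 s h1

def Pure {V : Type} (l : Set V → Λ) (k : ℕ) (c : Λ) (s : Set V) : Prop :=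
  s.ncard = k ∧ l s = c ∧ ∀ s' ⊂ s, l s' = ⊥

theorem Emb.pure {V W : Type} {f : V → W} {l : Set V → Λ} {l' : Set W → Λ} (h : Emb f l l')
    {k : ℕ} {c : Λ} {s : Set V} (hs : Pure l k c s) : Pure l' k c (f '' s) := by
  refine ⟨by rw [ncard_image_of_injective _ h.1, hs.1], by rw [h.2, hs.2.1], fun s' hs' => ?_⟩
  obtain ⟨t, ht, rfl⟩ := subset_image_iff.1 hs'.1
  rw [h.2]
  exact hs.2.2 t ⟨ht, fun h => hs'.2 (image_mono h)⟩

end Pool.Agent.H66.NR
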