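import Pool.Agent.H66.NR1

set_option autoImplicit false

namespace Pool.Agent.H66.NR

open Set Function

variable {Λ : Type} [Bot Λ]

open Classical in
noncomputable def comb {ι : Type} (a : Λ) (l : ι → Λ) : Λ :=
  if h : ∃ i, l i ≠ a then l h.choose else a

theorem comb_eq {ι : Type} {a b : Λ} {l : ι → Λ} (h : ∀ i, l i = a ∨ l i = b) (h' : ∃ i, l i = b) :
    comb a l = b := by
  unfold comb
  split_ifs with h1
  · exact (h _).resolve_left h1.choose_spec
  · obtain ⟨i, rfl⟩ := h'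
    by_contra h2
    exact h1 ⟨i, fun e => h2 e.symm⟩

theorem comb_mem {ι : Type} (i0 : ι) (a : Λ) (l : ι → Λ) : ∃ i, comb a l = l i := by
  unfold comb
  split_ifs with h1
  · exact ⟨_, rfl⟩
  · refine ⟨i0, ?_⟩
    by_contra h2
    exact h1 ⟨i0, fun e => h2 e.symm⟩

def Pic {V Z β : Type} (k : ℕ) (lB : Set β → Λ) (l : Set V → Λ) (π : V → Z) : Prop :=
  (∀ s, l s ≠ ⊥ → InjOn π s) ∧ Loc k l lB

theorem step {V Z β κ : Type} [Finite V] [Finite Z] [Finite κ] [Nonempty κ] {k : ℕ}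
    {lB : Set β → Λ} {l : Set V → Λ} {π : V → Z} (hP : Pic k lB l π) (α : Set Z)
    (hα : α.ncard = k) (c : Λ) :
    ∃ (V' : Type) (_ : Finite V') (l' : Set V' → Λ) (π' : V' → Z), Pic k lB l' π' ∧
      ∀ χ : Set V' → κ, ∃ ψ : V → V', Emb ψ l l' ∧ (∀ v, π' (ψ v) = π v) ∧
        ∀ s s', Pure l k c s → Pure l k c s' → π '' s = α → π '' s' = α →
          χ (ψ '' s) = χ (ψ '' s') := by
  classical
  let Al := {s : Set V // Pure l k c s ∧ π '' s = α}
  have hs : ∀ (a : Al) (p : α), ∃ v ∈ a.1, π v = p := fun a p =>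
    (a.2.2.symm.subset p.2 : p.1 ∈ π '' a.1)
  choose sec s1 s2 using hs
  have s3 : ∀ a : Al, InjOn π a.1 := fun a =>
    injOn_of_ncard_image_eq (by rw [a.2.2, hα, a.2.1.1])
  have s4 : ∀ a : Al, sec a '' univ = a.1 := fun a => by
    refine Subset.antisymm (by rintro _ ⟨p, -, rfl⟩; exact s1 a p) fun v hv => ?_
    have : π v ∈ α := a.2.2 ▸ mem_image_of_mem π hv
    exact ⟨⟨π v, this⟩, trivial, s3 a (s1 a _) hv (s2 a _)⟩
  let A : Set α → Λ := fun τ => if τ = univ then c else ⊥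
  have s5 : ∀ (a : Al) τ, l (sec a '' τ) = A τ := fun a τ => by
    by_cases h : τ = univ
    · simp only [A, if_pos h]
      rw [h, s4, a.2.1.2.1]
    · simp only [A, if_neg h]
      refine a.2.1.2.2 _ ⟨by rintro _ ⟨p, -, rfl⟩; exact s1 a p, fun h' => h ?_⟩
      refine eq_univ_of_forall fun p => ?_
      obtain ⟨q, hq, e⟩ := h' (s1 a p)
      have : q = p := Subtype.ext (by rw [← s2 a q, e, s2])
      exact this ▸ hq
  obtain ⟨ι, _, hι⟩ := Combinatorics.Line.exists_mono_in_high_dimension Al κ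
  obtain ⟨⟨_, i0, -⟩, -⟩ := hι fun _ => Classical.arbitrary κ
  let X := {x : α × (ι → V) // ∀ i, π (x.2 i) = x.1}
  let lX : Set X → Λ := fun s => if InjOn (fun x : X => x.1.1) s then
    comb (A ((fun x : X => x.1.1) '' s)) (fun i => l ((fun x : X => x.1.2 i) '' s)) else ⊥
  let φ : Combinatorics.Line Al ι → {v // π v ∈ α} → X := fun L v =>
    ⟨(⟨π v, v.2⟩, fun i => (L.idxFun i).elim v.1 fun a => sec a ⟨π v, v.2⟩), fun i => by
      dsimp only
      cases L.idxFun i with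
      | none => rfl
      | some a => exact s2 a _⟩
  have hφ : ∀ L, Injective (φ L) := by
    intro L u v e
    obtain ⟨i, hi⟩ := L.proper
    have := congrArg (fun x : X => x.1.2 i) e
    simp only [φ, hi, Option.elim] at this
    exact Subtype.ext this
  have hc : ∀ L s, lX (φ L '' s) = l (Subtype.val '' s) := by
    intro L s
    by_cases h : InjOn (fun x : X => x.1.1) (φ L '' s)
    · simp only [lX, if_pos h]
      refine comb_eq (fun i => ?_) ?_
      · rcases hi : L.idxFun i with _ | a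
        · right
          simp only [image_image, φ, hi, Option.elim]
        · left
          rw [← s5 a]
          simp only [image_image, φ, hi, Option.elim]
      · obtain ⟨i, hi⟩ := L.proper
        refine ⟨i, ?_⟩
        simp only [image_image, φ, hi, Option.elim]
    · simp only [lX, if_neg h]
      by_contra h'
      apply h
      rintro _ ⟨u, hu, rfl⟩ _ ⟨v, hv, rfl⟩ e
      have := hP.1 _ (Ne.symm h') (mem_image_of_mem _ hu) (mem_image_of_mem _ hv)
        (congrArg Subtype.val e)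
      rw [Subtype.ext this]
  have hX : ∀ s, lX s ≠ ⊥ → InjOn (fun x : X => x.1.1) s := by
    intro s hs
    by_contra h
    exact hs (if_neg h)
  haveI : Finite (Combinatorics.Line Al ι) :=
    Finite.of_injective (fun L => L.idxFun) fun a b h => by cases a; cases b; simp_all
  obtain ⟨V', _, l', ψ0, ψ, π', g1, g2, g3, g4, g5, g6, g7, -⟩ := glue lX l Subtype.val
    Subtype.val_injective φ hφ hc (fun x => (x.1.1 : Z)) (fun _ => π) (fun _ _ => rfl)
  refine ⟨V', inferInstance, l', π', ⟨fun s hs => ?_, fun U h1 h2 => ?_, fun s hs => ?_⟩,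
    fun χ => ?_⟩
  · rcases g6 s hs with h | ⟨L, h⟩
    · obtain ⟨s, rfl⟩ := subset_range_iff_exists_image_eq.1 h
      rw [g1.2] at hs
      rintro _ ⟨u, hu, rfl⟩ _ ⟨v, hv, rfl⟩ e
      rw [g4, g4] at e
      rw [hX s hs hu hv (Subtype.ext e)]
    · obtain ⟨s, rfl⟩ := subset_range_iff_exists_image_eq.1 h
      rw [(g2 L).2] at hs
      rintro _ ⟨u, hu, rfl⟩ _ ⟨v, hv, rfl⟩ e
      rw [g5, g5] at e
      rw [hP.1 s hs hu hv e]
  · rcases g7 U h1 with h | ⟨L, h⟩
    · exfalso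
      obtain ⟨U, rfl⟩ := subset_range_iff_exists_image_eq.1 h
      rw [ncard_image_of_injective _ g1.1] at h2
      have h3 : InjOn (fun x : X => (x.1.1 : Z)) U := by
        intro u hu v hv e
        obtain ⟨s, -, a2, a3, a4⟩ := g1.irr h1 u hu v hv
        exact hX s a2 a3 a4 (Subtype.ext e)
      have := ncard_le_ncard_of_injOn (t := α) _ (fun x _ => x.1.1.2) h3
      omega
    · exact (g2 L).back hP.2 h h1 h2
  · rcases g6 s hs with h | ⟨L, h⟩
    · obtain ⟨s, rfl⟩ := subset_range_iff_exists_image_eq.1 h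
      rw [g1.2] at hs ⊢
      rw [ncard_image_of_injective _ g1.1]
      have h3 := hX s hs
      obtain ⟨i, hi⟩ := comb_mem i0 (A ((fun x : X => x.1.1) '' s))
        (fun i => l ((fun x : X => x.1.2 i) '' s))
      have e : lX s = l ((fun x : X => x.1.2 i) '' s) := by simp only [lX, if_pos h3, hi]
      rw [e] at hs ⊢
      obtain ⟨s', e1, e2⟩ := hP.2.2 _ hs
      refine ⟨s', ?_, e2⟩
      rw [e1, ncard_image_of_injOn]
      intro u hu v hv e
      exact h3 hu hv (Subtype.ext (by rw [← u.2 i, ← v.2 i]; exact congrArg π e))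
    · exact (g2 L).back' hP.2 h hs
  · let w : (ι → Al) → α → X := fun w p => ⟨(p, fun i => sec (w i) p), fun i => s2 _ _⟩
    obtain ⟨L, col, hL⟩ := hι fun x => χ (ψ0 '' (w x '' univ))
    have key : ∀ a : Al, ψ L '' a.1 = ψ0 '' (w (L a) '' univ) := by
      intro a
      rw [← s4 a, image_image, image_image]
      refine image_congr fun p _ => ?_
      have hp : π (sec a p) ∈ α := by rw [s2]; exact p.2
      rw [show sec a p = (⟨sec a p, hp⟩ : {v // π v ∈ α}).1 from rfl, g3]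
      congr 1
      have e : (⟨π (sec a p), hp⟩ : α) = p := Subtype.ext (s2 a p)
      refine Subtype.ext (Prod.ext e (funext fun i => ?_))
      simp only [φ, w, e, Combinatorics.Line.apply_def]
      cases L.idxFun i <;> rfl
    refine ⟨ψ L, g2 L, g5 L, fun s s' h1 h2 h3 h4 => ?_⟩
    rw [key ⟨s, h1, h3⟩, key ⟨s', h2, h4⟩]
    exact (hL _).trans (hL _).symm

theorem steps {V Z β κ : Type} [Finite V] [Finite Z] [Finite κ] [Nonempty κ] {k : ℕ}
    {lB : Set β → Λ} {l : Set V → Λ} {π : V → Z} (hP : Pic k lB l π) (c : Λ) (L : List (Set Z))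
    (hL : ∀ α ∈ L, α.ncard = k) :
    ∃ (V' : Type) (_ : Finite V') (l' : Set V' → Λ) (π' : V' → Z), Pic k lB l' π' ∧
      ∀ χ : Set V' → κ, ∃ ψ : V → V', Emb ψ l l' ∧ (∀ v, π' (ψ v) = π v) ∧
        ∀ α ∈ L, ∀ s s', Pure l k c s → Pure l k c s' → π '' s = α → π '' s' = α →
          χ (ψ '' s) = χ (ψ '' s') := by
  induction L with
  | nil => exact ⟨V, inferInstance, l, π, hP, fun χ => ⟨fun x => x, Emb.id l, fun _ => rfl,
      by simp⟩⟩
  | cons α L ih =>
    obtain ⟨V1, _, l1, π1, h1, h2⟩ := ih fun β hβ => hL β (List.mem_cons_of_mem _ hβ)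
    obtain ⟨V2, _, l2, π2, h3, h4⟩ := step (κ := κ) h1 α (hL α List.mem_cons_self) c
    refine ⟨V2, inferInstance, l2, π2, h3, fun χ => ?_⟩
    obtain ⟨ψ1, a1, a2, a3⟩ := h4 χ
    obtain ⟨ψ2, b1, b2, b3⟩ := h2 fun s => χ (ψ1 '' s)
    refine ⟨fun v => ψ1 (ψ2 v), a1.comp b1, fun v => by rw [a2, b2], fun β hβ s s' p1 p2 e1 e2 => ?_⟩
    rw [← image_image ψ1 ψ2, ← image_image ψ1 ψ2]
    rcases List.mem_cons.1 hβ with rfl | hβ
    · refine a3 _ _ (b1.pure p1) (b1.pure p2) ?_ ?_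
      · rw [image_image]; simp only [b2, e1]
      · rw [image_image]; simp only [b2, e2]
    · exact b3 β hβ s s' p1 p2 e1 e2

theorem nr1 {β : Type} (κ : Type) [Finite β] [Finite κ] [Nonempty κ] (lB : Set β → Λ) (k : ℕ)
    (c : Λ) : ∃ (V : Type) (_ : Finite V) (l : Set V → Λ), Loc k l lB ∧
      ∀ χ : Set V → κ, ∃ ψ : β → V, Emb ψ lB l ∧
        ∀ s s', Pure lB k c s → Pure lB k c s' → χ (ψ '' s) = χ (ψ '' s') := by
  classical
  haveI := Fintype.ofFinite κ
  haveI := Fintype.ofFinite β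
  obtain ⟨R, hR⟩ := Pool.Agent.H31.HyperRamsey.ramsey κ k (Fintype.card β)
  obtain ⟨V0, _, l0, ψ0, ψ, π0, g1, g2, -, -, g5, g6, g7, -⟩ := glue (U := Empty) (V0 := Empty)
    (I := β ↪ Fin R) (Z := Fin R) (fun _ => lB ∅) lB Empty.elim (fun a => a.elim)
    (fun _ => Empty.elim) (fun _ a => a.elim) (fun _ s => by rw [eq_empty_of_isEmpty s, image_empty]) Empty.elim (fun e => e)
    (fun _ a => a.elim)
  have e0 : range ψ0 = ∅ := range_eq_empty _
  have hP : Pic k lB l0 π0 := by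
    refine ⟨fun s hs => ?_, fun U h1 h2 => ?_, fun s hs => ?_⟩
    · rcases g6 s hs with h | ⟨e, h⟩
      · rw [e0, subset_empty_iff] at h
        simp [h]
      · obtain ⟨s, rfl⟩ := subset_range_iff_exists_image_eq.1 h
        rintro _ ⟨u, hu, rfl⟩ _ ⟨v, hv, rfl⟩ h
        rw [g5, g5] at h
        rw [e.injective h]
    · rcases g7 U h1 with h | ⟨e, h⟩
      · rw [e0, subset_empty_iff] at h
        simp [h] at h2
      · exact (g2 e).back (Loc.refl k lB) h h1 h2
    · rcases g6 s hs with h | ⟨e, h⟩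
      · rw [e0, subset_empty_iff] at h
        refine ⟨∅, by simp [h], ?_⟩
        rw [h]
        simpa using (g1.2 ∅).symm
      · exact (g2 e).back' (Loc.refl k lB) h hs
  obtain ⟨V, _, l, π, h1, h2⟩ := steps (κ := κ) hP c
    ((Set.toFinite {α : Set (Fin R) | α.ncard = k}).toFinset.toList) (by simp)
  refine ⟨V, inferInstance, l, h1.2, fun χ => ?_⟩
  obtain ⟨θ, a1, -, a3⟩ := h2 χ
  let χ' : Finset (Fin R) → κ := fun α =>
    if h : ∃ s, Pure l0 k c s ∧ π0 '' s = α then χ (θ '' h.choose) else Classical.arbitrary κ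
  obtain ⟨T, -, hT, col, hcol⟩ := hR (Fin R) Finset.univ χ' (by simp)
  let e : β ↪ Fin R := (T.equivFinOfCardEq hT).symm.toEmbedding.trans (Embedding.subtype _) |>
    (Fintype.equivFin β).toEmbedding.trans
  have he : ∀ b, e b ∈ T := fun b => ((T.equivFinOfCardEq hT).symm (Fintype.equivFin β b)).2
  have key : ∀ s, Pure lB k c s → χ ((fun b => θ (ψ e b)) '' s) = col := by
    intro s hs
    have b1 : π0 '' (ψ e '' s) = ↑(Set.toFinite (e '' s)).toFinset := by
      rw [image_image]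
      simp only [g5, Finite.coe_toFinset]
    have b2 : ∃ s', Pure l0 k c s' ∧ π0 '' s' = ↑(Set.toFinite (e '' s)).toFinset :=
      ⟨_, (g2 e).pure hs, b1⟩
    have b3 : (e '' s).ncard = k := by rw [ncard_image_of_injective _ e.injective, hs.1]
    rw [← hcol (Set.toFinite (e '' s)).toFinset (fun x hx => by
      obtain ⟨b, -, rfl⟩ := (Finite.mem_toFinset _).1 hx
      exact he b) (by rw [← b3, ncard_eq_toFinset_card])]
    simp only [χ', dif_pos b2]
    rw [← image_image θ (ψ e)]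
    exact a3 _ (by simpa using b3) _ _ ((g2 e).pure hs) b2.choose_spec.1 b1 b2.choose_spec.2
  exact ⟨_, a1.comp (g2 e), fun s s' p1 p2 => (key s p1).trans (key s' p2).symm⟩

theorem nr {β : Type} (κ : Type) [Finite β] [Finite κ] [Nonempty κ] (lB : Set β → Λ) (m : ℕ)
    (L : List (ℕ × Λ)) (hL : ∀ p ∈ L, p.1 ≤ m) :
    ∃ (V : Type) (_ : Finite V) (l : Set V → Λ), Loc m l lB ∧
      ∀ χ : Set V → κ, ∃ ψ : β → V, Emb ψ lB l ∧ ∀ p ∈ L,
        ∀ s s', Pure lB p.1 p.2 s → Pure lB p.1 p.2 s' → χ (ψ '' s) = χ (ψ '' s') := by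
  induction L with
  | nil => exact ⟨β, inferInstance, lB, Loc.refl _ _, fun χ => ⟨fun x => x, Emb.id _, by simp⟩⟩
  | cons p L ih =>
    obtain ⟨V1, _, l1, h1, h2⟩ := ih fun β hβ => hL β (List.mem_cons_of_mem _ hβ)
    obtain ⟨V2, _, l2, h3, h4⟩ := nr1 κ l1 p.1 p.2
    refine ⟨V2, inferInstance, l2, (h3.mono (hL p List.mem_cons_self)).trans h1, fun χ => ?_⟩
    obtain ⟨ψ1, a1, a3⟩ := h4 χ
    obtain ⟨ψ2, b1, b3⟩ := h2 fun s => χ (ψ1 '' s)
    refine ⟨fun v => ψ1 (ψ2 v), a1.comp b1, fun q hq s s' p1 p2 => ?_⟩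
    rw [← image_image ψ1 ψ2, ← image_image ψ1 ψ2]
    rcases List.mem_cons.1 hq with rfl | hq
    · exact a3 _ _ (b1.pure p1) (b1.pure p2)
    · exact b3 q hq s s' p1 p2

end Pool.Agent.H66.NR
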