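import Mathlib

/-! State and transition complexity of NFAs. -/

namespace Pool.Agent.H66.Nfa

variable {α : Type}

/-- `L` is recognised by an NFA with one start state, `n` states and `t` transitions -/
def Rec (L : Language α) (n t : ℕ) : Prop :=
  ∃ A : NFA α (Fin n), (∃ q, A.start = {q}) ∧ A.accepts = L ∧
    {x : Fin n × α × Fin n | x.2.2 ∈ A.step x.1 x.2.1}.ncard = t

/-- least number of states -/
noncomputable def nsc (L : Language α) : ℕ := sInf {n | ∃ t, Rec L n t}

/-- least number of transitions -/
noncomputable def tc (L : Language α) : ℕ := sInf {t | ∃ n, Rec L n t}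

/-- least number of states of a transition-minimal NFA -/
noncomputable def T (L : Language α) : ℕ := sInf {n | Rec L n (tc L)}

end Pool.Agent.H66.Nfa
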