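import Mathlib

/-! Countably categorical structures in a countable language are atomic and homogeneous. -/

set_option autoImplicit false

namespace Pool.Agent.H66.RN
open FirstOrder FirstOrder.Language Function

variable {L : FirstOrder.Language.{0, 0}} {A : Type} [L.Structure A]

theorem term_supp {α : Type} (t : L.Term α) :
    ∃ s : Set α, s.Finite ∧ ∀ v w : α → A, (∀ i ∈ s, v i = w i) → t.realize v = t.realize w := by
  induction t with
  | var i => exact ⟨{i}, Set.finite_singleton _, fun v w h => h i rfl⟩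
  | func f ts ih =>
    choose s hs hs' using ih
    refine ⟨⋃ i, s i, Set.finite_iUnion hs, fun v w h => ?_⟩
    simp only [Term.realize]
    congr 1; funext i
    exact hs' i v w fun j hj => h j (Set.mem_iUnion.2 ⟨i, hj⟩)

theorem term_supp' {α : Type} {n : ℕ} (t : L.Term (α ⊕ Fin n)) :
    ∃ s : Set α, s.Finite ∧ ∀ (v w : α → A) (xs : Fin n → A), (∀ i ∈ s, v i = w i) →
      t.realize (Sum.elim v xs) = t.realize (Sum.elim w xs) := by
  obtain ⟨s, hs, h⟩ := term_supp (A := A) t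
  refine ⟨Sum.inl ⁻¹' s, hs.preimage Sum.inl_injective.injOn, fun v w xs hv => h _ _ ?_⟩
  rintro (i | i) hi
  · exact hv i hi
  · rfl

theorem bf_supp {α : Type} {n : ℕ} (φ : L.BoundedFormula α n) :
    ∃ s : Set α, s.Finite ∧ ∀ (v w : α → A) (xs : Fin n → A), (∀ i ∈ s, v i = w i) →
      (φ.Realize v xs ↔ φ.Realize w xs) := by
  induction φ with
  | falsum => exact ⟨∅, Set.finite_empty, fun _ _ _ _ => Iff.rfl⟩
  | equal t u =>
    obtain ⟨s, hs, h⟩ := term_supp' (A := A) t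
    obtain ⟨s', hs', h'⟩ := term_supp' (A := A) u
    refine ⟨s ∪ s', hs.union hs', fun v w xs hv => ?_⟩
    simp only [BoundedFormula.Realize]
    rw [h v w xs fun i hi => hv i (Or.inl hi), h' v w xs fun i hi => hv i (Or.inr hi)]
  | rel R ts =>
    choose s hs hs' using fun i => term_supp' (A := A) (ts i)
    refine ⟨⋃ i, s i, Set.finite_iUnion hs, fun v w xs h => ?_⟩
    simp only [BoundedFormula.Realize]
    rw [iff_eq_eq]; congr 1; funext i
    exact hs' i v w xs fun j hj => h j (Set.mem_iUnion.2 ⟨i, hj⟩)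
  | imp φ ψ h1 h2 =>
    obtain ⟨s, hs, h⟩ := h1
    obtain ⟨s', hs', h'⟩ := h2
    refine ⟨s ∪ s', hs.union hs', fun v w xs hv => ?_⟩
    simp only [BoundedFormula.realize_imp]
    rw [h v w xs fun i hi => hv i (Or.inl hi), h' v w xs fun i hi => hv i (Or.inr hi)]
  | all φ h1 =>
    obtain ⟨s, hs, h⟩ := h1
    refine ⟨s, hs, fun v w xs hv => ?_⟩
    simp only [BoundedFormula.realize_all]
    exact forall_congr' fun a => h v w _ hv

theorem f_supp {α : Type} (φ : L.Formula α) :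
    ∃ s : Set α, s.Finite ∧ ∀ (v w : α → A), (∀ i ∈ s, v i = w i) →
      (φ.Realize v ↔ φ.Realize w) := by
  obtain ⟨s, hs, h⟩ := bf_supp (A := A) φ
  exact ⟨s, hs, fun v w hv => h v w _ hv⟩

variable (L) in
/-- definable sets of assignments depending on the first k variables only -/
def D (k : ℕ) (S : Set (ℕ → A)) : Prop :=
  (∃ φ : L.Formula ℕ, ∀ v, v ∈ S ↔ φ.Realize v) ∧
    ∀ v w : ℕ → A, (∀ i < k, v i = w i) → v ∈ S → w ∈ S

theorem D.univ (k : ℕ) : D L k (Set.univ : Set (ℕ → A)) :=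
  ⟨⟨⊤, by simp⟩, fun _ _ _ _ => trivial⟩

theorem D.mono {k m : ℕ} {S : Set (ℕ → A)} (h : D L k S) (hk : k ≤ m) : D L m S :=
  ⟨h.1, fun v w hv => h.2 v w fun i hi => hv i (by omega)⟩

theorem D.inter {k : ℕ} {S T : Set (ℕ → A)} (h : D L k S) (h' : D L k T) : D L k (S ∩ T) := by
  obtain ⟨⟨φ, hφ⟩, h⟩ := h
  obtain ⟨⟨ψ, hψ⟩, h'⟩ := h'
  exact ⟨⟨φ ⊓ ψ, fun v => by simp [hφ, hψ]⟩, fun v w hv hS => ⟨h v w hv hS.1, h' v w hv hS.2⟩⟩

theorem D.compl {k : ℕ} {S : Set (ℕ → A)} (h : D L k S) : D L k Sᶜ := by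
  obtain ⟨⟨φ, hφ⟩, h⟩ := h
  exact ⟨⟨φ.not, fun v => by simp [hφ]⟩,
    fun v w hv hS hw => hS (h w v (fun i hi => (hv i hi).symm) hw)⟩

theorem D.proj {k : ℕ} {S : Set (ℕ → A)} (h : D L (k + 1) S) :
    D L k {v | ∃ a, update v k a ∈ S} := by
  obtain ⟨⟨φ, hφ⟩, h⟩ := h
  refine ⟨⟨(φ.relabel fun i => if i = k then Sum.inr () else Sum.inl i).iExs Unit, fun v => ?_⟩,
    ?_⟩
  · have : ∀ x : Unit → A, (Sum.elim v x ∘ fun i => if i = k then Sum.inr () else Sum.inl i) =
        update v k (x ()) := by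
      intro x; funext i
      by_cases hi : i = k
      · subst hi; simp
      · simp [hi]
    simp only [Formula.realize_iExs, Formula.realize_relabel, this, Set.mem_setOf_eq, hφ]
    exact ⟨fun ⟨a, ha⟩ => ⟨fun _ => a, ha⟩, fun ⟨a, ha⟩ => ⟨a (), ha⟩⟩
  · rintro v w hv ⟨a, ha⟩
    refine ⟨a, h _ _ (fun i hi => ?_) ha⟩
    by_cases hik : i = k
    · subst hik; simp
    · simp [hik, hv i (by omega)]

theorem exists_D (φ : L.Formula ℕ) : ∃ k, D L k {v : ℕ → A | φ.Realize v} := by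
  obtain ⟨s, hs, h⟩ := f_supp (A := A) φ
  obtain ⟨k, hk⟩ := hs.bddAbove
  exact ⟨k + 1, ⟨φ, fun _ => Iff.rfl⟩,
    fun v w hv => (h v w fun i hi => hv i (Nat.lt_succ_of_le (hk hi))).1⟩

variable (L) in
/-- same type of the first k entries -/
def Eqv (k : ℕ) (v w : ℕ → A) : Prop := ∀ S, D L k S → v ∈ S → w ∈ S

variable (L) in
/-- the first k entries have an isolated type -/
def Iso (k : ℕ) (v : ℕ → A) : Prop := ∃ χ, D L k χ ∧ v ∈ χ ∧ ∀ u ∈ χ, ∀ w ∈ χ, Eqv L k u w

theorem Iso.congr {k : ℕ} {v w : ℕ → A} (h : ∀ i < k, v i = w i) (hv : Iso L k v) :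
    Iso L k w := by
  obtain ⟨χ, h1, h2, h3⟩ := hv
  exact ⟨χ, h1, h1.2 v w h h2, h3⟩

theorem chain (k : ℕ) (P : ℕ → (ℕ → A) → Prop)
    (hs : ∀ m v w, (∀ i < m, v i = w i) → P m v → P m w)
    (step : ∀ m v, k ≤ m → P m v → ∃ b, P (m + 1) (update v m b)) (v0 : ℕ → A) (h0 : P k v0) :
    ∃ z : ℕ → A, (∀ i < k, z i = v0 i) ∧ ∀ m, k ≤ m → P m z := by
  haveI : Nonempty A := ⟨v0 0⟩
  choose! b hb using step
  let seq : ℕ → ℕ → A := fun n => Nat.rec v0 (fun n v => update v (k + n) (b (k + n) v)) n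
  have hP : ∀ n, P (k + n) (seq n) := by
    intro n
    induction n with
    | zero => exact h0
    | succ n ih => exact hb _ _ (Nat.le_add_right k n) ih
  have hst : ∀ n d i, i < k + n → seq (n + d) i = seq n i := by
    intro n d i hi
    induction d with
    | zero => rfl
    | succ d ih =>
      change update (seq (n + d)) (k + (n + d)) _ i = _
      rw [update_of_ne (by omega), ih]
  have hz : ∀ n i, i < k + n → seq n i = seq (i + 1) i := by
    intro n i hi
    rw [← hst n (i + 1) i hi, add_comm n, hst (i + 1) n i (by omega)]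
  refine ⟨fun i => seq (i + 1) i, fun i hi => (hz 0 i (by omega)).symm, fun m hm => ?_⟩
  obtain ⟨n, rfl⟩ := Nat.exists_eq_add_of_le hm
  exact hs _ _ _ (hz n) (hP n)

variable (L A) in
/-- the theory of A has only one countable model up to isomorphism -/
def Cat : Prop :=
  ∀ (B : Type) [L.Structure B] [Countable B], B ⊨ L.completeTheory A → Nonempty (B ≃[L] A)

variable [Countable L.Symbols] [Countable A] [Infinite A]

theorem limit (hc : Cat L A) {I J : Type} [Countable I] (U : Ultrafilter J) (v : J → I → A) :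
    ∃ z : I → A, ∀ φ : L.Formula I, φ.Realize z ↔ ∀ᶠ j in U, φ.Realize (v j) := by
  let N := (U : Filter J).Product (fun _ => A)
  have hN : N ⊨ L.completeTheory A := by
    rw [Theory.model_iff]
    intro φ hφ
    exact (Ultraproduct.sentence_realize φ).2 (Filter.Eventually.of_forall fun _ => hφ)
  have hee : A ≅[L] N := by
    haveI := hN
    exact (elementarilyEquivalent_iff.2 fun φ =>
      (realize_iff_of_model_completeTheory A N φ).symm)
  haveI : Infinite N := hee.infinite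
  let x : I → N := fun i => ((fun j => v j i : ∀ _ : J, A) : (U : Filter J).Product (fun _ => A))
  obtain ⟨S, hS, hcard⟩ := exists_elementarySubstructure_card_eq L (Set.range x) Cardinal.aleph0.{0}
    le_rfl (by simpa using (Set.countable_range x).le_aleph0)
    (by simpa [FirstOrder.Language.card] using Cardinal.mk_le_aleph0 (α := L.Symbols)) (by simpa using Cardinal.aleph0_le_mk N)
  haveI : Countable S := by
    rw [← Cardinal.mk_le_aleph0_iff]; simpa using hcard.le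
  obtain ⟨e⟩ := hc S ((S.theory_model_iff _).2 hN)
  refine ⟨fun i => e ⟨x i, hS ⟨i, rfl⟩⟩, fun φ => ?_⟩
  rw [← Ultraproduct.realize_formula_cast φ (fun i j => v j i)]
  have h1 := StrongHomClass.realize_formula e φ (v := fun i => (⟨x i, hS ⟨i, rfl⟩⟩ : S))
  have h2 := S.subtype.map_formula φ (fun i => (⟨x i, hS ⟨i, rfl⟩⟩ : S))
  exact h1.trans h2.symm

theorem dens (hc : Cat L A) {k : ℕ} {ψ : Set (ℕ → A)} (hψ : D L k ψ) (hne : ψ.Nonempty) :
    ∃ v ∈ ψ, Iso L k v := by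
  classical
  by_contra hcon
  push Not at hcon
  obtain ⟨c, hc'⟩ := exists_surjective_nat (Fin k → A)
  let a : ℕ → ℕ → A := fun n i => if h : i < k then c n ⟨i, h⟩ else Classical.arbitrary A
  have step : ∀ (n : ℕ) (T : {T : Set (ℕ → A) // D L k T ∧ T.Nonempty ∧ T ⊆ ψ}),
      ∃ T' : {T : Set (ℕ → A) // D L k T ∧ T.Nonempty ∧ T ⊆ ψ}, T'.1 ⊆ T.1 ∧ a n ∉ T'.1 := by
    rintro n ⟨T, h1, ⟨v, hv⟩, h3⟩
    have := hcon v (h3 hv)
    simp only [Iso, Eqv, not_exists, not_and, not_forall] at this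
    obtain ⟨u, hu, w, hw, S, hS, huS, hwS⟩ := this T h1 hv
    by_cases h : a n ∈ S
    · exact ⟨⟨T ∩ Sᶜ, h1.inter hS.compl, ⟨w, hw, hwS⟩, fun x hx => h3 hx.1⟩,
        Set.inter_subset_left, fun hx => hx.2 h⟩
    · exact ⟨⟨T ∩ S, h1.inter hS, ⟨u, hu, huS⟩, fun x hx => h3 hx.1⟩,
        Set.inter_subset_left, fun hx => h hx.2⟩
  choose f hf hf' using step
  let T : ℕ → {T : Set (ℕ → A) // D L k T ∧ T.Nonempty ∧ T ⊆ ψ} :=
    fun n => Nat.rec ⟨ψ, hψ, hne, subset_rfl⟩ (fun n T => f n T) n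
  have hanti : Antitone fun n => (T n).1 := antitone_nat_of_succ_le fun n => hf n (T n)
  choose v hv using fun n => (T n).2.2.1
  obtain ⟨z, hz⟩ := limit hc (Filter.hyperfilter ℕ) v
  obtain ⟨n, hn⟩ := hc' fun i => z i
  obtain ⟨⟨φ, hφ⟩, h2⟩ := (T (n + 1)).2.1
  have hzT : z ∈ (T (n + 1)).1 := by
    rw [hφ, hz]
    apply Nat.hyperfilter_le_atTop
    filter_upwards [Filter.eventually_ge_atTop (n + 1)] with m hm
    exact (hφ _).1 (hanti hm (hv m))
  exact hf' n (T n) (h2 z (a n) (fun i hi => by simp [a, hi, hn]) hzT)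

theorem ext_iso (hc : Cat L A) {k : ℕ} {v : ℕ → A} (hv : Iso L k v) {S : Set (ℕ → A)}
    (hS : D L (k + 1) S) (ha : ∃ a, update v k a ∈ S) :
    ∃ b, update v k b ∈ S ∧ Iso L (k + 1) (update v k b) := by
  obtain ⟨χ, h1, h2, h3⟩ := hv
  obtain ⟨a, ha⟩ := ha
  obtain ⟨u, hu, χ', g1, g2, g3⟩ := dens hc ((h1.mono (Nat.le_succ k)).inter hS)
    ⟨update v k a, h1.2 v _ (fun i hi => by rw [update_of_ne (by omega)]) h2, ha⟩
  obtain ⟨b, hb⟩ := h3 u hu.1 v h2 _ g1.proj ⟨u k, by simpa using g2⟩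
  exact ⟨b, g3 u g2 _ hb S hS hu.2, χ', g1, hb, g3⟩

theorem build (hc : Cat L A) : ∃ b : ℕ → A, (∀ k, Iso L k b) ∧
    ∀ (φ : L.Formula (Option ℕ)) (a : A), φ.Realize (fun o => o.elim a b) →
      ∃ m, φ.Realize (fun o => o.elim (b m) b) := by
  haveI : Nonempty (L.Formula (Option ℕ)) := ⟨⊤⟩
  obtain ⟨s, hs⟩ := exists_surjective_nat (L.Formula (Option ℕ))
  let S : ℕ → Set (ℕ → A) := fun k => {v | (s k.unpair.1).Realize (fun o => o.elim (v k) v)}
  obtain ⟨v0, -, h0⟩ := dens hc (D.univ (L := L) (A := A) 0) Set.univ_nonempty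
  refine (chain 0 (fun m v => Iso L m v ∧
    ∀ k < m, D L (k + 1) (S k) → (∃ a, update v k a ∈ S k) → v ∈ S k) ?_ ?_ v0
    ⟨h0, fun k hk => absurd hk (Nat.not_lt_zero k)⟩).elim fun z hz => ?_
  rotate_left 2
  · replace hz := hz.2
    refine ⟨z, fun k => (hz k (Nat.zero_le k)).1, fun φ a ha => ?_⟩
    obtain ⟨n, rfl⟩ := hs φ
    obtain ⟨t, ht, h⟩ := f_supp (A := A) (s n)
    obtain ⟨m, hm⟩ := (ht.preimage (Option.some_injective ℕ).injOn).bddAbove
    set k := Nat.pair n (m + 1) with hk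
    have hk1 : m + 1 ≤ k := Nat.right_le_pair _ _
    have hk2 : k.unpair.1 = n := by simp [hk]
    have := (hz (k + 1) (Nat.zero_le _)).2 k (Nat.lt_succ_self k) ⟨⟨(s n).relabel
      (fun o => o.elim k id), fun v => ?_⟩, fun v w hv => ?_⟩ ⟨a, ?_⟩
    · exact ⟨k, by simpa only [S, hk2, Set.mem_setOf_eq] using this⟩
    · simp only [S, hk2, Set.mem_setOf_eq, Formula.realize_relabel]
      rw [iff_eq_eq]; congr 1; funext o; cases o <;> rfl
    · simp only [S, hk2, Set.mem_setOf_eq]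
      refine (h _ _ ?_).1
      rintro (_ | i) hi
      · exact hv k (Nat.lt_succ_self k)
      · exact hv i (by have := hm hi; omega)
    · simp only [S, hk2, Set.mem_setOf_eq]
      refine (h _ _ ?_).1 ha
      rintro (_ | i) hi
      · simp
      · have := hm hi
        simp [update_of_ne (show i ≠ k by omega)]
  · rintro m v w hvw ⟨h1, h2⟩
    refine ⟨h1.congr hvw, fun k hk hD ⟨a, ha⟩ => ?_⟩
    refine hD.2 v w (fun i hi => hvw i (by omega)) (h2 k hk hD ⟨a, hD.2 _ _ (fun i hi => ?_) ha⟩)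
    by_cases hik : i = k
    · subst hik; simp
    · simp [hik, hvw i (by omega)]
  · rintro m v - ⟨h1, h2⟩
    have key : ∀ b, ∀ k < m, D L (k + 1) (S k) → (∃ a, update (update v m b) k a ∈ S k) →
        update v m b ∈ S k := by
      rintro b k hk hD ⟨a, ha⟩
      refine hD.2 v _ (fun i hi => by rw [update_of_ne (by omega)])
        (h2 k hk hD ⟨a, hD.2 _ _ (fun i hi => ?_) ha⟩)
      by_cases hik : i = k
      · subst hik; simp
      · simp [hik, update_of_ne (show i ≠ m by omega)]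
    by_cases h : D L (m + 1) (S m) ∧ ∃ a, update v m a ∈ S m
    · obtain ⟨b, hb, hb'⟩ := ext_iso hc h1 h.1 h.2
      refine ⟨b, hb', fun k hk hD ha => ?_⟩
      rcases Nat.lt_succ_iff_lt_or_eq.1 hk with hk | rfl
      · exact key b k hk hD ha
      · exact hb
    · obtain ⟨b, -, hb'⟩ := ext_iso hc h1 (D.univ _) ⟨v 0, trivial⟩
      refine ⟨b, hb', fun k hk hD ha => ?_⟩
      rcases Nat.lt_succ_iff_lt_or_eq.1 hk with hk | rfl
      · exact key b k hk hD ha
      · exact absurd ⟨hD, by simpa using ha⟩ h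

theorem Iso.sub {K k : ℕ} {b : ℕ → A} (hb : Iso L K b) (n : ℕ → ℕ) (hn : ∀ i < k, n i < K) :
    Iso L k (b ∘ n) := by
  obtain ⟨χ, ⟨⟨φ, hφ⟩, h1⟩, h2, h3⟩ := hb
  rcases Nat.eq_zero_or_pos K with rfl | hK
  · obtain rfl : k = 0 := by
      by_contra hk; exact absurd (hn 0 (by omega)) (by omega)
    refine ⟨χ, ⟨⟨φ, hφ⟩, h1⟩, h1 b _ (by simp) h2, h3⟩
  refine ⟨{v | ∃ w ∈ χ, ∀ i < k, w (n i) = v i}, ⟨⟨(((φ.relabel fun i =>
    Sum.inr (if h : i < K then ⟨i, h⟩ else ⟨0, hK⟩))) ⊓ Formula.iInf fun i : Fin k =>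
      Term.equal (Term.var (Sum.inr ⟨n i, hn i i.2⟩)) (Term.var (Sum.inl i.1))).iExs (Fin K),
      fun v => ?_⟩, ?_⟩, ⟨b, h2, fun _ _ => rfl⟩, ?_⟩
  · simp only [Formula.realize_iExs, Formula.realize_inf, Formula.realize_relabel,
      Formula.realize_iInf, Formula.realize_equal, Term.realize_var, Sum.elim_inl, Sum.elim_inr,
      Set.mem_setOf_eq, ← hφ]
    constructor
    · rintro ⟨w, hw, hw'⟩
      exact ⟨fun i => w i, h1 w _ (fun i hi => by simp [hi]) hw, fun i => hw' i i.2⟩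
    · rintro ⟨x, hx, hx'⟩
      exact ⟨_, hx, fun i hi => by simpa [hn i hi] using hx' ⟨i, hi⟩⟩
  · rintro v w hv ⟨u, hu, hu'⟩
    exact ⟨u, hu, fun i hi => (hu' i hi).trans (hv i hi)⟩
  · rintro v ⟨w, hw, hw'⟩ v' ⟨u, hu, hu'⟩ S ⟨⟨ψ, hψ⟩, hS⟩ hv
    have hD : D L K {x : ℕ → A | x ∘ n ∈ S} :=
      ⟨⟨ψ.relabel n, fun x => by simp [hψ]⟩,
        fun x y hxy hx => hS _ _ (fun i hi => hxy _ (hn i hi)) hx⟩
    exact hS _ _ hu' (h3 w hw u hu _ hD (hS v _ (fun i hi => (hw' i hi).symm) hv))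

theorem atomic (hc : Cat L A) (k : ℕ) (v : ℕ → A) : Iso L k v := by
  obtain ⟨b, hb, htv⟩ := build hc
  let S : L.Substructure A :=
    { carrier := Set.range b
      fun_mem := by
        intro n f x hx
        choose m hm using hx
        obtain ⟨j, hj⟩ := htv (Term.equal (Term.var none)
          (Term.func f fun i => Term.var (some (m i)))) (Structure.funMap f x) (by simp [hm])
        exact ⟨j, by simpa [hm] using hj⟩ }
  let S' : L.ElementarySubstructure A := S.toElementarySubstructure (by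
    intro n φ x a h
    choose m hm using fun i => (x i).2
    have key : ∀ c : A, Formula.Realize (φ.toFormula.relabel
        (Sum.elim Empty.elim (Fin.snoc (α := fun _ => Option ℕ) (fun i => some (m i)) none)))
        (fun o : Option ℕ => o.elim c b) ↔
        φ.Realize default (Fin.snoc ((↑) ∘ x) c : _ → A) := by
      intro c
      rw [Formula.realize_relabel, BoundedFormula.realize_toFormula, iff_eq_eq]
      congr 1
      · exact Subsingleton.elim _ _
      · funext i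
        refine Fin.lastCases ?_ (fun i => ?_) i
        · simp
        · simp [hm]
    obtain ⟨j, hj⟩ := htv _ a ((key a).2 h)
    exact ⟨⟨b j, j, rfl⟩, (key _).1 hj⟩)
  obtain ⟨e⟩ := hc S' ((S'.theory_model_iff _).2 inferInstance)
  have hn : ∀ i, ∃ n, b n = (e.symm (v i) : A) := fun i => (e.symm (v i)).2
  choose n hn using hn
  obtain ⟨K, hK⟩ := ((Set.finite_lt_nat k).image n).bddAbove
  obtain ⟨χ, ⟨⟨φ, hφ⟩, h1⟩, h2, h3⟩ := (hb (K + 1)).sub (k := k) n
    (fun i hi => Nat.lt_succ_of_le (hK ⟨i, hi, rfl⟩))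
  refine ⟨χ, ⟨⟨φ, hφ⟩, h1⟩, ?_, h3⟩
  rw [hφ] at h2 ⊢
  have g1 := StrongHomClass.realize_formula e.symm φ (v := v)
  have g2 := S'.subtype.map_formula φ (e.symm ∘ v)
  rw [← g1, ← g2]
  convert h2 using 1
  funext i; exact (hn i).symm

omit [Countable L.Symbols] [Countable A] [Infinite A] in
theorem mkHom (z : A → A)
    (hz : ∀ φ : L.Formula A, (∀ g : A →[L] A, φ.Realize g) → φ.Realize z) :
    ∃ f : A →[L] A, ⇑f = z := by
  refine ⟨⟨z, fun {n} f x => ?_, fun {n} r x hr => ?_⟩, rfl⟩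
  · have := hz (Term.equal (Term.var (Structure.funMap f x)) (Term.func f fun i => Term.var (x i)))
      (fun g => by rw [Formula.realize_equal]; exact g.map_fun f x)
    rw [Formula.realize_equal] at this
    exact this
  · have := hz (r.formula fun i => Term.var (x i)) (fun g => by
      rw [Formula.realize_rel]; exact g.map_rel r x hr)
    rw [Formula.realize_rel] at this
    exact this

theorem homog (hc : Cat L A) {k : ℕ} {v w : ℕ → A} (h : Eqv L k v w) :
    ∃ f : A →[L] A, Injective f ∧ ∀ i < k, f (v i) = w i := by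
  obtain ⟨c, hc'⟩ := exists_surjective_nat A
  let u : ℕ → A := fun i => if i < k then v i else c (i - k)
  have hu : Surjective u := fun a => by
    obtain ⟨n, rfl⟩ := hc' a
    exact ⟨k + n, by simp [u]⟩
  obtain ⟨z, hz, hz'⟩ := chain k (fun m w => Eqv L m u w)
    (fun m w w' hw h S hS hu => hS.2 _ _ hw (h S hS hu)) (fun m w _ h => by
      obtain ⟨χ, h1, h2, h3⟩ := atomic hc (m + 1) u
      obtain ⟨b, hb⟩ := h _ h1.proj ⟨u m, by simpa using h2⟩
      exact ⟨b, h3 u h2 _ hb⟩) w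
    (fun S hS hu => h S hS (hS.2 u v (fun i hi => by simp [u, hi]) hu))
  have key : ∀ φ : L.Formula ℕ, φ.Realize u → φ.Realize z := by
    intro φ hφ
    obtain ⟨m, hm⟩ := exists_D (A := A) φ
    exact hz' (max k m) (le_max_left _ _) _ (hm.mono (le_max_right _ _)) hφ
  have key2 : ∀ φ : L.Formula A, φ.Realize id → φ.Realize (z ∘ surjInv hu) := by
    intro φ hφ
    rw [← Formula.realize_relabel]
    apply key
    rw [Formula.realize_relabel]
    convert hφ using 1
    funext a; exact surjInv_eq hu a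
  obtain ⟨f, hf⟩ := mkHom (z ∘ surjInv hu) (fun φ hφ => key2 φ (hφ (Hom.id L A)))
  refine ⟨f, fun a b hab => ?_, fun i hi => ?_⟩
  · by_contra hne
    have := key2 (Term.equal (Term.var a) (Term.var b)).not (by simpa using hne)
    rw [hf] at hab
    simp at this
    exact this hab
  · have := key (Term.equal (Term.var (surjInv hu (v i))) (Term.var i))
      (by simp [surjInv_eq hu, u, hi])
    rw [hf, ← hz i hi]
    simpa using this

theorem main (hc : Cat L A) (U : Ultrafilter (A →[L] A)) :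
    ∃ f e : A →[L] A, ∀ W ∈ U, ∀ F : Set A, F.Finite → ∃ g ∈ W, ∃ h : A →[L] A, Injective h ∧
      ∀ x ∈ F, h (g x) = f x ∧ h x = e x := by
  obtain ⟨z, hz⟩ := limit hc U (fun g : A →[L] A => (Sum.elim (⇑g) id : A ⊕ A → A))
  obtain ⟨f, hf⟩ := mkHom (L := L) (z ∘ Sum.inl) (fun φ hφ => by
    rw [← Formula.realize_relabel, hz]
    exact Filter.Eventually.of_forall fun g => by
      rw [Formula.realize_relabel]; exact hφ g)
  obtain ⟨e, he⟩ := mkHom (L := L) (z ∘ Sum.inr) (fun φ hφ => by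
    rw [← Formula.realize_relabel, hz]
    exact Filter.Eventually.of_forall fun g => by
      rw [Formula.realize_relabel]; exact hφ (Hom.id L A))
  refine ⟨f, e, fun W hW F hF => ?_⟩
  obtain ⟨c, hc'⟩ := exists_surjective_nat (A ⊕ A)
  obtain ⟨K, hK⟩ := (((hF.image Sum.inl).union (hF.image Sum.inr)).image (surjInv hc')).bddAbove
  obtain ⟨χ, ⟨⟨φ, hφ⟩, h1⟩, h2, h3⟩ := atomic hc (K + 1) (z ∘ c)
  have h4 := h2
  rw [hφ, ← Formula.realize_relabel, hz] at h4
  obtain ⟨g, hg, hgW⟩ := (h4.and hW).exists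
  rw [Formula.realize_relabel, ← hφ] at hg
  obtain ⟨h, hi, hh⟩ := homog hc (h3 _ hg _ h2)
  refine ⟨g, hgW, h, hi, fun x hx => ⟨?_, ?_⟩⟩
  · have := hh _ (Nat.lt_succ_of_le (hK ⟨Sum.inl x, Or.inl ⟨x, hx, rfl⟩, rfl⟩))
    simpa [surjInv_eq hc', hf] using this
  · have := hh _ (Nat.lt_succ_of_le (hK ⟨Sum.inr x, Or.inr ⟨x, hx, rfl⟩, rfl⟩))
    simpa [surjInv_eq hc', he] using this

end Pool.Agent.H66.RN
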