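import Pool.Agent.H66.OligoDefs
import Pool.Agent.H66.RN

set_option autoImplicit false

namespace Pool.Agent.H66.Oligo
open Function Topology

theorem cont_ev (x : ℕ) : Continuous fun f : Function.End ℕ => f x :=
  continuous_apply (A := fun _ : ℕ => ℕ) x

theorem open_fin {O : Set (Function.End ℕ)} (h : IsOpen O) {f : Function.End ℕ} (hf : f ∈ O) :
    ∃ F : Set ℕ, F.Finite ∧ ∀ g : Function.End ℕ, (∀ x ∈ F, g x = f x) → g ∈ O := by
  obtain ⟨I, u, hu, hI⟩ := isOpen_pi_iff.1 (show IsOpen (X := ℕ → ℕ) O from h) _ hf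
  exact ⟨I, I.finite_toSet, fun g hg => hI fun x hx => by
    rw [hg x hx]; exact (hu x hx).2⟩

theorem mem_closed {S : Submonoid (Function.End ℕ)} (hS : Closed S) {f : Function.End ℕ}
    (h : ∀ F : Set ℕ, F.Finite → ∃ g ∈ S, ∀ x ∈ F, g x = f x) : f ∈ S := by
  by_contra hf
  obtain ⟨F, hF, k⟩ := open_fin hS.isOpen_compl hf
  obtain ⟨g, hg, hg'⟩ := h F hF
  exact k g hg' hg

instance : ContinuousMul (Function.End ℕ) where
  continuous_mul := by
    refine continuous_pi (A := fun _ : ℕ => ℕ) fun x => ?_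
    have h1 : Continuous fun q : Function.End ℕ × ℕ => q.1 q.2 :=
      continuous_prod_of_discrete_right.2 fun b => cont_ev b
    exact h1.comp (continuous_fst.prodMk ((cont_ev x).comp continuous_snd))

instance : T2Space (Function.End ℕ) := inferInstanceAs (T2Space (ℕ → ℕ))

variable {S : Submonoid (Function.End ℕ)}

/-- action of a unit -/
def act (g : Sˣ) : ℕ → ℕ := ((g : S) : Function.End ℕ)

theorem act_mul (g h : Sˣ) (x : ℕ) : act (g * h) x = act g (act h x) := rfl
theorem act_inv (g : Sˣ) (x : ℕ) : act g⁻¹ (act g x) = x := by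
  rw [← act_mul, inv_mul_cancel]; rfl
theorem act_inj (g : Sˣ) : Injective (act g) := LeftInverse.injective (act_inv g)

theorem main (hS : Closed S) (ho : Oligo S) (U : Ultrafilter S) :
    ∃ f e : S, ∀ W ∈ U, ∀ F : Set ℕ, F.Finite → ∃ g ∈ W, ∃ h : Sˣ,
      ∀ x ∈ F, act h (g.1 x) = f.1 x ∧ act h x = e.1 x := by
  let c : ℕ ≃ ℕ ⊕ ℕ := (Denumerable.eqv (ℕ ⊕ ℕ)).symm
  let v : S → ℕ → ℕ := fun g i => Sum.elim (g.1 : ℕ → ℕ) id (c i)
  let P : ℕ → (ℕ → ℕ) → Prop := fun k z => ∀ᶠ g in U, ∃ h : Sˣ, ∀ i < k, act h (v g i) = z i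
  have hP : ∀ k, ∃ r, P (k + 1) r := by
    intro k
    obtain ⟨R, hR, h⟩ := ho (k + 1) (by omega)
    have : (⋃ r ∈ R, {g : S | ∃ h : Sˣ, ∀ i : Fin (k + 1), act h (v g i) = r i}) ∈ U := by
      refine Filter.univ_mem' fun g => ?_
      obtain ⟨r, hr, h', hh⟩ := h fun i => v g i
      exact Set.mem_biUnion hr ⟨h'⁻¹, fun i => by rw [← hh i]; exact act_inv h' _⟩
    obtain ⟨r, -, hr⟩ := (Ultrafilter.finite_biUnion_mem_iff hR).1 this
    refine ⟨fun i => if h : i < k + 1 then r ⟨i, h⟩ else 0, Filter.mem_of_superset hr ?_⟩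
    rintro g ⟨h, hh⟩
    exact ⟨h, fun i hi => by simpa [hi] using hh ⟨i, hi⟩⟩
  obtain ⟨z, -, hz⟩ := Pool.Agent.H66.RN.chain 0 P
    (fun m a b hab h => h.mono fun g ⟨h', hh⟩ => ⟨h', fun i hi => (hh i hi).trans (hab i hi)⟩)
    (fun m a _ h => by
      obtain ⟨r, hr⟩ := hP m
      obtain ⟨g, ⟨h1, hh1⟩, h2, hh2⟩ := (h.and hr).exists
      refine ⟨act (h1 * h2⁻¹) (r m), hr.mono fun g' ⟨h3, hh3⟩ => ⟨h1 * h2⁻¹ * h3, fun i hi => ?_⟩⟩
      rw [act_mul, hh3 i hi]
      by_cases him : i = m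
      · subst him; simp
      · rw [update_of_ne him, ← hh2 i hi, act_mul, act_inv, hh1 i (by omega)]) (fun _ => 0)
    (Filter.Eventually.of_forall fun g => ⟨1, fun i hi => absurd hi (Nat.not_lt_zero i)⟩)
  have key : ∀ W ∈ U, ∀ F : Set ℕ, F.Finite → ∃ g ∈ W, ∃ h : Sˣ,
      ∀ x ∈ F, act h (g.1 x) = z (c.symm (Sum.inl x)) ∧ act h x = z (c.symm (Sum.inr x)) := by
    intro W hW F hF
    obtain ⟨K, hK⟩ := (((hF.image Sum.inl).union (hF.image Sum.inr)).image c.symm).bddAbove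
    obtain ⟨g, ⟨h, hh⟩, hg⟩ := ((hz (K + 1) (Nat.zero_le _)).and hW).exists
    refine ⟨g, hg, h, fun x hx => ⟨?_, ?_⟩⟩
    · simpa [v] using hh _ (Nat.lt_succ_of_le (hK ⟨Sum.inl x, Or.inl ⟨x, hx, rfl⟩, rfl⟩))
    · simpa [v] using hh _ (Nat.lt_succ_of_le (hK ⟨Sum.inr x, Or.inr ⟨x, hx, rfl⟩, rfl⟩))
  refine ⟨⟨fun x => z (c.symm (Sum.inl x)), mem_closed hS fun F hF => ?_⟩,
    ⟨fun x => z (c.symm (Sum.inr x)), mem_closed hS fun F hF => ?_⟩, key⟩
  · obtain ⟨g, -, h, hh⟩ := key _ Filter.univ_mem F hF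
    exact ⟨_, ((h : S) * g).2, fun x hx => (hh x hx).1⟩
  · obtain ⟨g, -, h, hh⟩ := key _ Filter.univ_mem F hF
    exact ⟨_, (h : S).2, fun x hx => (hh x hx).2⟩

theorem open_fin' {O : Set S} (h : IsOpen O) {f : S} (hf : f ∈ O) :
    ∃ F : Set ℕ, F.Finite ∧ ∀ g : S, (∀ x ∈ F, g.1 x = f.1 x) → g ∈ O := by
  obtain ⟨V, hV, rfl⟩ := h
  obtain ⟨F, hF, k⟩ := open_fin hV hf
  exact ⟨F, hF, fun g hg => k g hg⟩

/-- a continuous bijective homomorphism onto a Hausdorff topological semigroup is open -/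
theorem symm_cont (hS : Closed S) (ho : Oligo S) {T : Type} [TopologicalSpace T] [Mul T]
    [T2Space T] [ContinuousMul T] (φ : S ≃* T) (hφ : Continuous φ) : Continuous φ.symm := by
  have hx : ∀ (t : T) (x : ℕ), {u : T | (φ.symm u).1 x = (φ.symm t).1 x} ∈ 𝓝 t := by
    intro t x
    obtain ⟨f, rfl⟩ := φ.surjective t
    rw [φ.symm_apply_apply]
    by_contra hcon
    haveI : (𝓝 (φ f) ⊓ Filter.principal {u : T | (φ.symm u).1 x = f.1 x}ᶜ).NeBot :=
      Filter.notMem_iff_inf_principal_compl.1 hcon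
    let U := Ultrafilter.of (𝓝 (φ f) ⊓ Filter.principal {u : T | (φ.symm u).1 x = f.1 x}ᶜ)
    have hU : (U : Filter T) ≤ 𝓝 (φ f) ⊓ Filter.principal {u : T | (φ.symm u).1 x = f.1 x}ᶜ :=
      Ultrafilter.of_le _
    obtain ⟨f', e, H⟩ := main hS ho (U.map φ.symm)
    have h1 : φ f' = φ e * φ f := by
      by_contra hne
      obtain ⟨U1, U2, o1, o2, m1, m2, hd⟩ := t2_separation hne
      obtain ⟨V, W, oV, oW, mV, mW, hVW⟩ :=
        isOpen_prod_iff.1 (o2.preimage continuous_mul) (φ e) (φ f) m2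
      obtain ⟨F1, hF1, k1⟩ := open_fin' (o1.preimage hφ) m1
      obtain ⟨F2, hF2, k2⟩ := open_fin' (oV.preimage hφ) mV
      obtain ⟨g, hg, h, hh⟩ := H (φ ⁻¹' W) (by
        rw [Ultrafilter.mem_map]
        simpa [Set.preimage_preimage] using hU (Filter.mem_inf_of_left (oW.mem_nhds mW))) _
        (hF1.union hF2)
      refine Set.disjoint_left.1 hd (k1 (h * g) fun y hy => (hh y (Or.inl hy)).1) ?_
      rw [map_mul]
      exact hVW (Set.mk_mem_prod (k2 h fun y hy => (hh y (Or.inr hy)).2) hg)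
    rw [← map_mul, φ.injective.eq_iff] at h1
    obtain ⟨g, hg, h, hh⟩ := H {g | g.1 x ≠ f.1 x} (by
      rw [Ultrafilter.mem_map]
      exact hU (Filter.mem_inf_of_right (Filter.mem_principal_self _))) {x, f.1 x} (Set.toFinite _)
    apply hg
    apply act_inj h
    rw [(hh x (Or.inl rfl)).1, (hh (f.1 x) (Or.inr rfl)).2, h1]
    rfl
  rw [continuous_def]
  intro O hO
  rw [isOpen_iff_mem_nhds]
  intro t ht
  obtain ⟨F, hF, k⟩ := open_fin' hO ht
  exact Filter.mem_of_superset ((Filter.biInter_mem hF).2 fun x _ => hx t x)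
    fun g hg => k _ fun x hx => Set.mem_iInter₂.1 hg x hx

/-- min on the naturals with 0 playing the role of infinity -/
def mm (a b : ℕ) : ℕ := if a = 0 then b else if b = 0 then a else min a b
/-- truncation -/
def tt (a : ℕ) : Function.End ℕ := fun x => if a = 0 then x else min x a

theorem mm_assoc (a b c : ℕ) : mm a (mm b c) = mm (mm a b) c := by
  unfold mm; split_ifs <;> omega
theorem mm_zero (a : ℕ) : mm a 0 = a := by unfold mm; split_ifs <;> omega
theorem tt_mul (a b : ℕ) : tt a * tt b = tt (mm a b) := by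
  funext x
  change tt a (tt b x) = _
  unfold mm tt; split_ifs <;> omega
theorem tt_inj : Injective tt := by
  intro a b h
  have := congrFun h (a + b + 1)
  unfold tt at this; split_ifs at this <;> omega

/-- the regular representation -/
def S0 : Submonoid (Function.End ℕ) where
  carrier := {f | f = mm (f 0)}
  one_mem' := rfl
  mul_mem' := by
    intro f g hf hg
    funext x
    change f (g x) = mm (f (g 0)) x
    rw [congrFun hf (g x), congrFun hg x, congrFun hf (g 0), mm_assoc]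

/-- the representation by truncations -/
def T0 : Submonoid (Function.End ℕ) where
  carrier := Set.range tt
  one_mem' := ⟨0, rfl⟩
  mul_mem' := by
    rintro _ _ ⟨a, rfl⟩ ⟨b, rfl⟩
    exact ⟨_, (tt_mul a b).symm⟩

theorem S0_closed : Closed S0 :=
  isClosed_eq continuous_id
    ((continuous_of_discreteTopology (f := fun a => (mm a : Function.End ℕ))).comp (cont_ev 0))

theorem T0_closed : Closed T0 := by
  have : (T0 : Set (Function.End ℕ)) = ⋂ x, ⋂ y, (fun f : Function.End ℕ => (f x, f y, f 1)) ⁻¹'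
      {q : ℕ × ℕ × ℕ | q.1 ≤ x ∧ q.2.2 = 1 ∧ (q.1 < x → q.2.1 = min y q.1)} := by
    ext f
    simp only [Set.mem_iInter, Set.mem_preimage, Set.mem_setOf_eq]
    constructor
    · rintro ⟨a, rfl⟩ x y
      unfold tt; split_ifs <;> omega
    · intro h
      by_cases h1 : ∃ x, f x < x
      · obtain ⟨x, hx⟩ := h1
        refine ⟨f x, funext fun y => ?_⟩
        have h2 := (h x y).2.2 hx
        have h3 := (h x 1).2.2 hx
        have h4 := (h x 1).2.1
        unfold tt; split_ifs <;> omega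
      · push Not at h1
        exact ⟨0, funext fun y => le_antisymm (h1 y) (h y y).1⟩
  unfold Closed
  rw [this]
  exact isClosed_iInter fun x => isClosed_iInter fun y =>
    (isClosed_discrete _).preimage ((cont_ev x).prodMk ((cont_ev y).prodMk (cont_ev 1)))

/-- element of the regular representation -/
def s0 (a : ℕ) : S0 := ⟨mm a, by change (mm a : ℕ → ℕ) = mm (mm a 0); rw [mm_zero]⟩

theorem s0_ev (f : S0) : s0 (f.1 0) = f := Subtype.ext f.2.symm

theorem S0_autCont : AutCont S0 := by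
  intro T _ φ
  have : (φ : S0 → T) = (fun a => φ (s0 a)) ∘ fun f => f.1 0 := by
    funext f; simp [s0_ev]
  rw [this]
  exact continuous_of_discreteTopology.comp ((cont_ev 0).comp continuous_subtype_val)

theorem S0_not : ¬ AutHomeo S0 := by
  intro h
  let ψ : S0 →* T0 :=
    { toFun := fun f => ⟨tt (f.1 0), _, rfl⟩
      map_one' := rfl
      map_mul' := fun f g => Subtype.ext (by
        change tt (f.1 (g.1 0)) = tt (f.1 0) * tt (g.1 0)
        rw [tt_mul, congrFun f.2 (g.1 0)]) }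
  have hb : Bijective ψ := by
    constructor
    · intro f g hfg
      rw [← s0_ev f, ← s0_ev g, tt_inj (congrArg Subtype.val hfg)]
    · rintro ⟨_, a, rfl⟩
      exact ⟨s0 a, Subtype.ext (by change tt (mm a 0) = tt a; rw [mm_zero])⟩
  have hc := (h T0 T0_closed (MulEquiv.ofBijective ψ hb)).2
  have ho : IsOpen {t : T0 | ((MulEquiv.ofBijective ψ hb).symm t).1 0 = 0} :=
    (isOpen_discrete ({0} : Set ℕ)).preimage ((cont_ev 0).comp (continuous_subtype_val.comp hc))
  obtain ⟨F, hF, k⟩ := open_fin' ho (f := 1) (by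
    change ((MulEquiv.ofBijective ψ hb).symm 1).1 0 = 0
    rw [map_one]; rfl)
  obtain ⟨K, hK⟩ := hF.bddAbove
  have := k (MulEquiv.ofBijective ψ hb (s0 (K + 1))) fun x hx => by
    have := hK hx
    change tt (mm (K + 1) 0) x = x
    rw [mm_zero]; unfold tt; split_ifs <;> omega
  rw [Set.mem_setOf_eq, MulEquiv.symm_apply_apply] at this
  change mm (K + 1) 0 = 0 at this
  rw [mm_zero] at this
  omega

end Pool.Agent.H66.Oligo
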