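import Mathlib

/-! Closed transformation monoids on the natural numbers. -/

set_option autoImplicit false

namespace Pool.Agent.H66.Oligo

/-- pointwise convergence on the monoid of all self-maps of the discrete space of naturals -/
instance topEnd : TopologicalSpace (Function.End ℕ) := inferInstanceAs (TopologicalSpace (ℕ → ℕ))

/-- S is closed in the topology of pointwise convergence -/
def Closed (S : Submonoid (Function.End ℕ)) : Prop := IsClosed (S : Set (Function.End ℕ))

/-- every semigroup homomorphism from S to a closed transformation monoid is continuous -/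
def AutCont (S : Submonoid (Function.End ℕ)) : Prop :=
  ∀ T : Submonoid (Function.End ℕ), Closed T → ∀ φ : S →ₙ* T, Continuous φ

/-- every isomorphism from S onto a closed transformation monoid is a homeomorphism -/
def AutHomeo (S : Submonoid (Function.End ℕ)) : Prop :=
  ∀ T : Submonoid (Function.End ℕ), Closed T → ∀ φ : S ≃* T, Continuous φ ∧ Continuous φ.symm

/-- the group of invertible elements of S has finitely many orbits on n-tuples for all n ≥ 1 -/
def Oligo (S : Submonoid (Function.End ℕ)) : Prop :=
  ∀ n, 1 ≤ n → ∃ R : Set (Fin n → ℕ), R.Finite ∧
    ∀ x : Fin n → ℕ, ∃ r ∈ R, ∃ g : Sˣ, ∀ i, ((g : S) : Function.End ℕ) (r i) = x i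

end Pool.Agent.H66.Oligo
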