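import Mathlib

set_option autoImplicit false

namespace Pool.Agent.H66.Osc

open Filter Pointwise

universe u

/-- growth function of the family `f` in the semigroup `S`. -/
noncomputable def gr {S : Type u} [Semigroup S] {m : ℕ} (f : Fin m → S) (n : ℕ) : ℕ :=
  (FreeSemigroup.lift f '' {w | w.length ≤ n}).ncard

section
variable {S : Type u} [Semigroup S] {m : ℕ} (f : Fin m → S)

theorem exists_pow : ∃ (_ : DecidableEq (WithOne S)) (A : Finset (WithOne S)), 1 ∈ A ∧
    ∀ n, (FreeSemigroup.lift f '' {w | w.length ≤ n}).Finite ∧ gr f n + 1 = (A ^ n).card := by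
  classical
  refine ⟨inferInstance, insert 1 (Finset.univ.image fun i => (f i : WithOne S)), by simp, ?_⟩
  set A : Finset (WithOne S) := insert 1 (Finset.univ.image fun i => (f i : WithOne S)) with hA
  have h1 : (1 : WithOne S) ∈ A := by simp [hA]
  have key : ∀ n, ((A ^ n : Finset (WithOne S)) : Set (WithOne S)) =
      insert 1 ((fun s : S => (s : WithOne S)) '' (FreeSemigroup.lift f '' {w | w.length ≤ n})) := by
    intro n
    apply Set.Subset.antisymm
    · induction n with
      | zero => simp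
      | succ n ih =>
        intro x hx
        rw [pow_succ, Finset.mem_coe, Finset.mem_mul] at hx
        obtain ⟨a, ha, b, hb, rfl⟩ := hx
        simp only [hA, Finset.mem_insert, Finset.mem_image, Finset.mem_univ, true_and] at hb
        rcases ih ha with rfl | ⟨_, ⟨w, hw, rfl⟩, rfl⟩
        · rcases hb with rfl | ⟨i, rfl⟩
          · simp
          · exact Or.inr ⟨_, ⟨FreeSemigroup.of i, by simp, rfl⟩, by simp⟩
        · have hw' : w.length ≤ n := hw
          rcases hb with rfl | ⟨i, rfl⟩
          · exact Or.inr ⟨_, ⟨w, by simp; omega, rfl⟩, by simp⟩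
          · exact Or.inr ⟨_, ⟨w * FreeSemigroup.of i, by simpa using hw', rfl⟩, by simp⟩
    · have hw : ∀ w : FreeSemigroup (Fin m),
          ((FreeSemigroup.lift f w : S) : WithOne S) ∈ A ^ w.length := by
        intro w
        induction w using FreeSemigroup.recOnMul with
        | ih1 i => simp [hA]
        | ih2 i w h2 h3 =>
          rw [map_mul, WithOne.coe_mul, FreeSemigroup.length_mul, pow_add]
          exact Finset.mul_mem_mul h2 h3
      rintro _ (rfl | ⟨_, ⟨w, hw', rfl⟩, rfl⟩)
      · exact Finset.pow_subset_pow_right h1 (Nat.zero_le n) (by simp)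
      · exact Finset.pow_subset_pow_right h1 hw' (hw w)
  intro n
  have hinj : Function.Injective (fun s : S => (s : WithOne S)) := fun a b h => WithOne.coe_inj.1 h
  have hfin : (FreeSemigroup.lift f '' {w | w.length ≤ n}).Finite := by
    have := (A ^ n).finite_toSet
    rw [key] at this
    exact Set.Finite.of_finite_image (this.subset (Set.subset_insert _ _)) hinj.injOn
  refine ⟨hfin, ?_⟩
  rw [← Set.ncard_coe_finset, key, Set.ncard_insert_of_notMem (by simp) (hfin.image _),
    Set.ncard_image_of_injective _ hinj, gr]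

theorem gr_mono : Monotone (gr f) := by
  obtain ⟨_, A, -, h⟩ := exists_pow f
  intro a b hab
  exact Set.ncard_le_ncard (Set.image_mono fun w hw => le_trans hw hab) (h b).1

theorem gr_sub (a q : ℕ) : gr f (a * q) + 1 ≤ (gr f a + 1) ^ q := by
  obtain ⟨_, A, -, h⟩ := exists_pow f
  rw [(h _).2, (h _).2, pow_mul]
  exact Finset.card_pow_le

end

def Sub (g : ℕ → ℕ) : Prop := ∀ k, ∀ᶠ n in atTop, g n ^ k ≤ 2 ^ n

theorem poly_le (k : ℕ) : ∀ᶠ n : ℕ in atTop, n ^ k ≤ 2 ^ n := by
  have h := (tendsto_pow_const_div_const_pow_of_one_lt k (r := 2) (by norm_num)).eventually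
    (gt_mem_nhds (show (0 : ℝ) < 1 by norm_num))
  filter_upwards [h] with n hn
  rw [div_lt_one (by positivity)] at hn
  exact_mod_cast hn.le

theorem dich (g : ℕ → ℕ) (hm : Monotone g) (hs : ∀ a q, g (a * q) + 1 ≤ (g a + 1) ^ q)
    (h : ¬ Sub g) : ∀ᶠ n in atTop, n ^ 3 ≤ g n := by
  obtain ⟨k, hk⟩ := not_forall.1 h
  have h1 : ∀ a, 1 ≤ a → 2 ^ a < (g a + 1) ^ (2 * k) := by
    intro a ha
    by_contra h2
    apply hk
    filter_upwards [eventually_ge_atTop a] with n hn
    have h3 : n ≤ a * (n / a + 1) := (Nat.lt_mul_div_succ n ha).le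
    have h4 : a * (n / a + 1) ≤ n * 2 := by
      have := Nat.mul_div_le n a
      rw [mul_add]; omega
    have h5 : g n ≤ (g a + 1) ^ (n / a + 1) := by
      have := hm h3
      have := hs a (n / a + 1)
      omega
    have h6 : (g n ^ k) ^ 2 ≤ (2 ^ n) ^ 2 :=
      calc (g n ^ k) ^ 2 = g n ^ (2 * k) := by ring
        _ ≤ ((g a + 1) ^ (n / a + 1)) ^ (2 * k) := Nat.pow_le_pow_left h5 _
        _ = ((g a + 1) ^ (2 * k)) ^ (n / a + 1) := by rw [← pow_mul, ← pow_mul, mul_comm]
        _ ≤ (2 ^ a) ^ (n / a + 1) := Nat.pow_le_pow_left (not_lt.1 h2) _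
        _ = 2 ^ (a * (n / a + 1)) := by ring
        _ ≤ 2 ^ (n * 2) := Nat.pow_le_pow_right (by norm_num) h4
        _ = (2 ^ n) ^ 2 := by ring
    exact (Nat.pow_le_pow_iff_left (by norm_num)).1 h6
  filter_upwards [eventually_ge_atTop 1, poly_le (3 * (2 * k))] with n hn h2
  have h3 := h2.trans_lt (h1 n hn)
  rw [pow_mul] at h3
  have := lt_of_pow_lt_pow_left₀ _ (by positivity) h3
  omega

theorem dominate (G : ℕ → ℕ → ℕ) (hm : ∀ i, Monotone (G i)) :
    ∃ F : ℕ → ℕ, Monotone F ∧ (∀ n, F n ≤ 2 ^ n) ∧ Sub F ∧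
      ∀ i, Sub (G i) → ∀ᶠ n in atTop, G i n ≤ F n := by
  classical
  let P : ℕ → ℕ → Prop := fun i n => Sub (G i) ∧ ∀ m, n ≤ m → G i m ^ (i + 1) ≤ 2 ^ m
  refine ⟨fun n => ((Finset.range n).filter (P · n)).sup (G · n), ?_, ?_, ?_, ?_⟩
  · intro a b hab
    refine Finset.sup_le fun i hi => (hm i hab).trans (Finset.le_sup (f := (G · b)) ?_)
    rw [Finset.mem_filter, Finset.mem_range] at hi ⊢
    exact ⟨by omega, hi.2.1, fun m hm => hi.2.2 m (hab.trans hm)⟩
  · intro n
    refine Finset.sup_le fun i hi => ?_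
    exact (Nat.le_self_pow (by omega) _).trans ((Finset.mem_filter.1 hi).2.2 n le_rfl)
  · intro k
    have h1 : ∀ᶠ n in atTop, ∀ i ∈ Finset.range k, Sub (G i) → G i n ^ k ≤ 2 ^ n := by
      rw [eventually_all_finset]
      intro i _
      by_cases h : Sub (G i)
      · exact (h k).mono fun n hn _ => hn
      · exact Eventually.of_forall fun n hn => absurd hn h
    filter_upwards [h1] with n hn
    rcases ((Finset.range n).filter (P · n)).eq_empty_or_nonempty with h | h
    · rw [h, Finset.sup_empty]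
      exact (zero_pow_le_one k).trans Nat.one_le_two_pow
    · obtain ⟨i, hi, e⟩ := Finset.exists_mem_eq_sup _ h (G · n)
      rw [e]
      have hi' := (Finset.mem_filter.1 hi).2
      by_cases hik : i < k
      · exact hn i (Finset.mem_range.2 hik) hi'.1
      · rcases Nat.eq_zero_or_pos (G i n) with h0 | h0
        · rw [h0]; exact (zero_pow_le_one k).trans Nat.one_le_two_pow
        · exact (Nat.pow_le_pow_right h0 (by omega)).trans (hi'.2 n le_rfl)
  · intro i hi
    obtain ⟨N, hN⟩ := eventually_atTop.1 (hi (i + 1))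
    filter_upwards [eventually_ge_atTop N, eventually_gt_atTop i] with n h1 h2
    refine Finset.le_sup (f := (G · n)) (Finset.mem_filter.2 ⟨Finset.mem_range.2 h2, hi, ?_⟩)
    exact fun m hm => hN m (h1.trans hm)

instance (α : Type) [Countable α] : Countable (FreeSemigroup α) :=
  Function.Injective.countable (f := fun w : FreeSemigroup α => (w.head, w.tail))
    fun a b h => by ext1 <;> simp_all

abbrev Data : Type := Σ k m : ℕ,
  Finset (FreeSemigroup (Fin k) × FreeSemigroup (Fin k)) × (Fin m → FreeSemigroup (Fin k))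

noncomputable def grD (d : Data) : ℕ → ℕ :=
  gr (S := (conGen fun a b => (a, b) ∈ d.2.2.1).Quotient) fun i => (d.2.2.2 i :)

theorem exists_data {S : Type u} [Semigroup S] {m : ℕ} (f : Fin m → S) (k : ℕ)
    (π : FreeSemigroup (Fin k) →ₙ* S) (R : Finset (FreeSemigroup (Fin k) × FreeSemigroup (Fin k)))
    (hπ : Function.Surjective π) (hR : Con.ker π = conGen fun a b => (a, b) ∈ R) :
    ∃ d, gr f = grD d := by
  choose y hy using fun i => hπ (f i)
  refine ⟨⟨k, m, R, y⟩, ?_⟩
  simp only [grD]
  rw [← hR]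
  ext n
  let j : (Con.ker π).Quotient → S := Setoid.kerLift π
  have hj : Function.Injective j := Setoid.kerLift_injective π
  rw [gr, gr, ← Set.ncard_image_of_injective _ hj, Set.image_image]
  congr 1
  refine Set.image_congr fun w _ => ?_
  have e1 : FreeSemigroup.lift f = π.comp (FreeSemigroup.lift y) :=
    FreeSemigroup.hom_ext (by ext i; simp [hy])
  have e2 : FreeSemigroup.lift (fun i => (y i : (Con.ker π).Quotient)) =
      (Con.mkMulHom _).comp (FreeSemigroup.lift y) := FreeSemigroup.hom_ext (by ext i; simp)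
  rw [e1, e2]
  rfl

end Pool.Agent.H66.Osc
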