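import Mathlib

/-! Sequential OWA rules and free-riding. -/

namespace Pool.Agent.H66.Owa

open Classical

/-- An election with `n` voters and `k` issues. The candidates of issue `i` are `Fin (m i + 1)`,
and the order of `Fin` is the tie-breaking order. -/
structure Election (n k : ℕ) (m : Fin k → ℕ) where
  /-- approval ballots -/
  A : (i : Fin k) → Fin n → Finset (Fin (m i + 1))

/-- the OWA value of a satisfaction vector (sorted increasingly) -/
noncomputable def owa {n : ℕ} (α : Fin n → ℝ) (s : Fin n → ℕ) : ℝ :=
  ∑ j, α j * (s (Tuple.sort s j) : ℝ)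

/-- the first candidate that maximizes `f` -/
noncomputable def best {c : ℕ} (f : Fin (c + 1) → ℝ) : Fin (c + 1) :=
  (Finset.univ.filter fun x => ∀ y, f y ≤ f x).min' (by
    obtain ⟨x, -, hx⟩ := Finset.exists_max_image Finset.univ f Finset.univ_nonempty
    exact ⟨x, Finset.mem_filter.2 ⟨Finset.mem_univ _, fun y => hx y (Finset.mem_univ _)⟩⟩)

variable {n k : ℕ} {m : Fin k → ℕ}

/-- the choice on issue `i` when the satisfactions so far are `s` -/
noncomputable def pick (α : Fin n → ℝ) (E : Election n k m) (i : Fin k) (s : Fin n → ℕ) :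
    Fin (m i + 1) :=
  best fun c => owa α fun v => s v + if c ∈ E.A i v then 1 else 0

/-- the satisfactions after the first `t` issues under the sequential rule -/
noncomputable def state (α : Fin n → ℝ) (E : Election n k m) : ℕ → Fin n → ℕ
  | 0 => fun _ => 0
  | t + 1 => fun v => state α E t v +
      if h : t < k then (if pick α E ⟨t, h⟩ (state α E t) ∈ E.A ⟨t, h⟩ v then 1 else 0) else 0

/-- the outcome of the sequential rule -/
noncomputable def outcome (α : Fin n → ℝ) (E : Election n k m) (i : Fin k) : Fin (m i + 1) :=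
  pick α E i (state α E i)

/-- the satisfaction of `v` with an outcome -/
def sat (E : Election n k m) (v : Fin n) (w : (i : Fin k) → Fin (m i + 1)) : ℕ :=
  (Finset.univ.filter fun i => w i ∈ E.A i v).card

/-- voter `v` free-rides on issue `i` via `E'` -/
def FreeRides (α : Fin n → ℝ) (E E' : Election n k m) (v : Fin n) (i : Fin k) : Prop :=
  (∀ j u, (j ≠ i ∨ u ≠ v) → E'.A j u = E.A j u) ∧ outcome α E i ∈ E.A i v ∧
    outcome α E i ∉ E'.A i v ∧ outcome α E' i = outcome α E i

/-- an OWA rule: a family of weight vectors with positive first entry and nonnegative entries -/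
def IsRule (α : (n : ℕ) → Fin n → ℝ) : Prop :=
  ∀ n (j : Fin n), 0 ≤ α n j ∧ (j.val = 0 → 0 < α n j)

/-- free-riding is never harmful under the sequential rule -/
def NeverHarmful (α : (n : ℕ) → Fin n → ℝ) : Prop :=
  ∀ (n k : ℕ) (m : Fin k → ℕ) (E E' : Election n k m) (v : Fin n) (i : Fin k),
    FreeRides (α n) E E' v i → sat E v (outcome (α n) E) ≤ sat E v (outcome (α n) E')

end Pool.Agent.H66.Owa
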