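import Pool.Agent.H38.NP.Defs

/-! Pinwheel scheduling with durations. -/

namespace Pool.Agent.H66.Pin

open Pool.Agent.H38.NP

/-- The frequency of job `i`; an instance is a list of pairs (frequency, duration) in binary. -/
def fr (V : List (Bin × Bin)) (i : Fin V.length) : ℕ := (V.get i).1.val

/-- The duration of job `i`. -/
def du (V : List (Bin × Bin)) (i : Fin V.length) : ℕ := (V.get i).2.val

/-- At least one job, positive integers, sorted frequencies, each dividing the next one. -/
def DivInst (V : List (Bin × Bin)) : Prop :=
  V ≠ [] ∧ (∀ i, 0 < fr V i ∧ 0 < du V i) ∧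
    ∀ i j : Fin V.length, j.val = i.val + 1 → fr V i ≤ fr V j ∧ fr V i ∣ fr V j

/-- The density: the sum of duration over frequency. -/
noncomputable def density (V : List (Bin × Bin)) : ℝ := ∑ i, (du V i : ℝ) / (fr V i : ℝ)

/-- Some schedule runs every job infinitely often, and the gap between two consecutive
completions of a job is at most its frequency. -/
def Feasible (V : List (Bin × Bin)) : Prop :=
  ∃ S : ℕ → Fin V.length, ∀ i, (S ⁻¹' {i}).Infinite ∧ ∀ a b, a < b → S a = i → S b = i →
    (∀ t, a < t → t < b → S t ≠ i) → ∑ t ∈ Finset.Ioc a b, du V (S t) ≤ fr V i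

end Pool.Agent.H66.Pin
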