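import Mathlib

set_option autoImplicit false

namespace Pool.Agent.H66.Prot

open Classical

abbrev G : Type := FreeGroup ℕ

abbrev gen (k : ℕ) : G := FreeGroup.of k

def low (k : ℕ) : Subgroup G := Subgroup.closure (FreeGroup.of '' {j | j < k})

theorem low_mono {k l : ℕ} (h : k ≤ l) : low k ≤ low l :=
  Subgroup.closure_mono (Set.image_mono fun _ hj => lt_of_lt_of_le hj h)

theorem gen_mem_low {j k : ℕ} (h : j < k) : gen j ∈ low k :=
  Subgroup.subset_closure ⟨j, h, rfl⟩

theorem exists_low (w : G) : ∃ k, w ∈ low k := by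
  induction w using FreeGroup.induction_on with
  | C1 => exact ⟨0, one_mem _⟩
  | of j => exact ⟨j + 1, gen_mem_low (Nat.lt_succ_self j)⟩
  | inv_of j hj => obtain ⟨k, hk⟩ := hj; exact ⟨k, inv_mem hk⟩
  | mul a b ha hb =>
    obtain ⟨k, hk⟩ := ha
    obtain ⟨l, hl⟩ := hb
    exact ⟨max k l, mul_mem (low_mono (le_max_left _ _) hk) (low_mono (le_max_right _ _) hl)⟩

theorem exists_low_finset (X : Finset G) : ∃ k, ∀ x ∈ X, x ∈ low k := by
  induction X using Finset.induction_on with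
  | empty => exact ⟨0, by simp⟩
  | insert a s _ ih =>
    obtain ⟨k, hk⟩ := ih
    obtain ⟨l, hl⟩ := exists_low a
    refine ⟨max k l, fun x hx => ?_⟩
    rcases Finset.mem_insert.1 hx with rfl | hx
    · exact low_mono (le_max_right _ _) hl
    · exact low_mono (le_max_left _ _) (hk x hx)

noncomputable def step (k : ℕ) (h : G) (j : ℕ) : Equiv.Perm (G × Bool) where
  toFun q := (gen j * q.1, if j = k ∧ q.1 = h then !q.2 else q.2)
  invFun q := ((gen j)⁻¹ * q.1, if j = k ∧ (gen j)⁻¹ * q.1 = h then !q.2 else q.2)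
  left_inv q := by
    obtain ⟨p, b⟩ := q
    simp only [inv_mul_cancel_left]
    split_ifs <;> simp
  right_inv q := by
    obtain ⟨p, b⟩ := q
    simp only [mul_inv_cancel_left]
    split_ifs <;> simp

theorem side (k : ℕ) (h : G) : ∃ σ : G → Bool, (∀ u ∈ low k, ∀ w, σ (u * w) = σ w) ∧
    (∀ w, w ≠ h → σ (gen k * w) = σ w) ∧ σ (gen k * h) ≠ σ h := by
  set ρ : G →* Equiv.Perm (G × Bool) := FreeGroup.lift (step k h) with hρ
  have hof : ∀ j, ρ (gen j) = step k h j := fun j => by simp [hρ, gen]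
  have h1 : ∀ w : G, ∀ q : G × Bool, (ρ w q).1 = w * q.1 := by
    intro w
    induction w using FreeGroup.induction_on with
    | C1 => intro q; simp
    | of j => intro q; rw [show FreeGroup.of j = gen j from rfl, hof]; rfl
    | inv_of j hj =>
      intro q
      have := hj (ρ (FreeGroup.of j)⁻¹ q)
      rw [← Equiv.Perm.mul_apply, ← map_mul, mul_inv_cancel, map_one, Equiv.Perm.one_apply] at this
      rw [this, inv_mul_cancel_left]
    | mul a b ha hb => intro q; rw [map_mul, Equiv.Perm.mul_apply, ha, hb, mul_assoc]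
  have h2 : ∀ u ∈ low k, ∀ q : G × Bool, (ρ u q).2 = q.2 := by
    intro u hu
    induction hu using Subgroup.closure_induction with
    | mem x hx =>
      obtain ⟨j, hj, rfl⟩ := hx
      intro q
      rw [show FreeGroup.of j = gen j from rfl, hof]
      have : j ≠ k := ne_of_lt hj
      simp [step, this]
    | one => intro q; simp
    | mul a b _ _ ha hb => intro q; rw [map_mul, Equiv.Perm.mul_apply, ha, hb]
    | inv a _ ha =>
      intro q
      have := ha (ρ a⁻¹ q)
      rw [← Equiv.Perm.mul_apply, ← map_mul, mul_inv_cancel, map_one, Equiv.Perm.one_apply] at this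
      exact this.symm
  have h3 : ∀ w : G, (ρ w (1, false)).1 = w := fun w => by rw [h1]; simp
  refine ⟨fun w => (ρ w (1, false)).2, fun u hu w => ?_, fun w hw => ?_, ?_⟩
  · show (ρ (u * w) (1, false)).2 = _
    rw [map_mul, Equiv.Perm.mul_apply, h2 u hu]
  · show (ρ (gen k * w) (1, false)).2 = _
    rw [map_mul, Equiv.Perm.mul_apply, hof]
    simp [step, h3, hw]
  · show (ρ (gen k * h) (1, false)).2 ≠ _
    rw [map_mul, Equiv.Perm.mul_apply, hof]
    simp [step, h3]

theorem gen_not_mem_low (k : ℕ) : gen k ∉ low k := by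
  intro hk
  obtain ⟨σ, h1, -, h3⟩ := side k 1
  exact h3 (h1 _ hk 1)

/-! The weight game. -/

def lam : Fin 7 → ℕ := ![729, 486, 324, 216, 144, 96, 64]

def cyc (t s : Fin 7) : Fin 7 := if s < t then s else if s = t then 6 else s - 1

theorem cyc_inj : ∀ t s s' : Fin 7, cyc t s = cyc t s' → s = s' := by decide

theorem cyc_self : ∀ t : Fin 7, lam (cyc t t) = 64 := by decide

theorem cyc_le : ∀ t s : Fin 7, 2 * lam (cyc t s) ≤ 3 * lam s := by decide

theorem lam_sum : ∑ s, lam s = 2059 := by decide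

theorem lam_pos : ∀ s, 0 < lam s := by decide

def Good (D : Finset (G × Fin 7)) : Prop :=
  ∃ r : Fin 7 → Fin 7, Function.Injective r ∧ ∑ d ∈ D, lam (r d.2) < 2059

theorem sum_rank {r : Fin 7 → Fin 7} (hr : Function.Injective r) : ∑ j, lam (r j) = 2059 := by
  rw [← lam_sum]
  exact Function.Bijective.sum_comp (Finite.injective_iff_bijective.1 hr) lam

theorem Good.mono {D E : Finset (G × Fin 7)} (hD : Good D) (h : E ⊆ D) : Good E := by
  obtain ⟨r, hr, hs⟩ := hD
  exact ⟨r, hr, lt_of_le_of_lt (Finset.sum_le_sum_of_subset h) hs⟩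

theorem Good.base {D : Finset (G × Fin 7)} (hD : Good D) (p : G) : ∃ j, (p, j) ∉ D := by
  by_contra hc
  push Not at hc
  obtain ⟨r, hr, hs⟩ := hD
  have hsub : (Finset.univ.image fun j : Fin 7 => (p, j)) ⊆ D := by
    intro d hd
    obtain ⟨j, -, rfl⟩ := Finset.mem_image.1 hd
    exact hc j
  have := Finset.sum_le_sum_of_subset (f := fun d : G × Fin 7 => lam (r d.2)) hsub
  rw [Finset.sum_image (fun a _ b _ h => by simpa using h)] at this
  have h2 := sum_rank hr
  simp only at this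
  omega

theorem good_add {D : Finset (G × Fin 7)} {r : Fin 7 → Fin 7} (hr : Function.Injective r)
    (hs : 2 * ∑ d ∈ D, lam (r d.2) < 2059) (i : Fin 7) (Z : Finset G) (hZ : Z.card ≤ 7) :
    Good (D ∪ Z.image fun z => (z, i)) := by
  refine ⟨fun j => cyc (r i) (r j), fun a b h => hr (cyc_inj _ _ _ h), ?_⟩
  have h1 : ∑ d ∈ D ∪ Z.image (fun z => (z, i)), lam (cyc (r i) (r d.2)) ≤
      ∑ d ∈ D, lam (cyc (r i) (r d.2)) + ∑ d ∈ Z.image (fun z => (z, i)), lam (cyc (r i) (r d.2)) := by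
    rw [← Finset.sum_union_inter]
    exact Nat.le_add_right _ _
  have h2 : ∑ d ∈ Z.image (fun z => (z, i)), lam (cyc (r i) (r d.2)) = Z.card * 64 := by
    rw [Finset.sum_image (fun a _ b _ h => by simpa using h)]
    simp [cyc_self]
  have h3 : 2 * ∑ d ∈ D, lam (cyc (r i) (r d.2)) ≤ 3 * ∑ d ∈ D, lam (r d.2) := by
    rw [Finset.mul_sum, Finset.mul_sum]
    exact Finset.sum_le_sum fun d _ => cyc_le _ _
  simp only
  omega

theorem good_split {D : Finset (G × Fin 7)} (hD : Good D) (P : G × Fin 7 → Prop) (i : Fin 7)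
    (Z W : Finset G) (hZ : Z.card ≤ 7) (hW : W.card ≤ 7) :
    Good (D.filter P ∪ Z.image fun z => (z, i)) ∨
      Good (D.filter (fun d => ¬ P d) ∪ W.image fun z => (z, i)) := by
  obtain ⟨r, hr, hs⟩ := hD
  have e : ∑ d ∈ D.filter P, lam (r d.2) + ∑ d ∈ D.filter (fun d => ¬ P d), lam (r d.2) =
      ∑ d ∈ D, lam (r d.2) := by
    convert Finset.sum_filter_add_sum_filter_not D P (fun d => lam (r d.2))
  by_cases h : 2 * ∑ d ∈ D.filter P, lam (r d.2) < 2059
  · exact Or.inl (good_add hr h i Z hZ)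
  · exact Or.inr (good_add hr (by omega) i W hW)

theorem good_image (i : Fin 7) (Z : Finset G) (hZ : Z.card ≤ 7) :
    Good (Z.image fun z => (z, i)) := by
  have := good_add (D := ∅) (r := id) Function.injective_id (by simp) i Z hZ
  simpa using this

theorem good_pin (p : G) (i : Fin 7) : Good ((Finset.univ.erase i).image fun j => (p, j)) := by
  refine ⟨id, Function.injective_id, ?_⟩
  rw [Finset.sum_image (fun a _ b _ h => by simpa using h)]
  have h1 := Finset.add_sum_erase Finset.univ lam (Finset.mem_univ i)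
  have h2 := lam_sum
  have h3 := lam_pos i
  simp only [id]
  omega

/-! The colouring. -/

structure Data where
  pin : ℕ → Prop
  I : ℕ → Fin 7
  J : ℕ → Fin 7
  X : ℕ → Finset G
  Y : ℕ → Finset G
  g : ℕ → G
  hX : ∀ k, ∀ x ∈ X k, x ∈ low k
  hY : ∀ k, ∀ y ∈ Y k, y ∈ low k
  cX : ∀ k, (X k).card ≤ 7
  cY : ∀ k, (Y k).card ≤ 7
  hg : ∀ k, g k ∈ low k

def Edge (δ : Data) (c : G → Fin 7) (e : ℕ × G) : Prop :=
  ∀ x ∈ δ.X e.1, ∀ y ∈ δ.Y e.1, ¬ (c (x * e.2) = δ.I e.1 ∧ c (y * (gen e.1 * e.2)) = δ.I e.1)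

def Pin (δ : Data) (c : G → Fin 7) (k : ℕ) : Prop :=
  c (gen k) = δ.I k ∧ c ((gen k)⁻¹ * δ.g k) = δ.J k

theorem edge_glue (δ : Data) (c₁ c₂ : G → Fin 7) (σ : G → Bool) (b : Bool) (k : ℕ) (h : G)
    (h1 : ∀ u ∈ low k, ∀ w, σ (u * w) = σ w) (h2 : ∀ w, w ≠ h → σ (gen k * w) = σ w)
    (e : ℕ × G) (hk : e.1 ≤ k) (hne : e ≠ (k, h)) (e1 : Edge δ c₁ e) (e2 : Edge δ c₂ e) :
    Edge δ (fun p => if σ p = b then c₁ p else c₂ p) e := by
  intro x hx y hy
  have hx' : σ (x * e.2) = σ e.2 := h1 _ (low_mono hk (δ.hX _ x hx)) _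
  have hy' : σ (y * (gen e.1 * e.2)) = σ e.2 := by
    rw [h1 _ (low_mono hk (δ.hY _ y hy))]
    rcases lt_or_eq_of_le hk with hlt | heq
    · exact h1 _ (gen_mem_low hlt) _
    · rw [heq]
      apply h2
      intro hh
      exact hne (Prod.ext heq hh)
  simp only [hx', hy']
  split_ifs
  · exact e1 x hx y hy
  · exact e2 x hx y hy

theorem claim1 (δ : Data) (S : Finset (ℕ × G)) :
    ∀ D : Finset (G × Fin 7), Good D →
      ∃ c : G → Fin 7, (∀ e ∈ S, Edge δ c e) ∧ ∀ p, (p, c p) ∉ D := by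
  induction S using Finset.induction_on_max_value (ι := ℕ × G) (α := ℕ) (f := Prod.fst) with
  | empty =>
    intro D hD
    choose c hc using hD.base
    exact ⟨c, by simp, hc⟩
  | insert e S hS hmax ih =>
    intro D hD
    obtain ⟨k, h⟩ := e
    obtain ⟨σ, h1, h2, h3⟩ := side k h
    have key : ∀ D₁ D₂ : Finset (G × Fin 7), Good D₁ → Good D₂ →
        D.filter (fun d => σ d.1 = σ h) ⊆ D₁ → D.filter (fun d => ¬ σ d.1 = σ h) ⊆ D₂ →
        ((∀ x ∈ δ.X k, (x * h, δ.I k) ∈ D₁) ∨ (∀ y ∈ δ.Y k, (y * (gen k * h), δ.I k) ∈ D₂)) →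
        ∃ c : G → Fin 7, (∀ e ∈ insert (k, h) S, Edge δ c e) ∧ ∀ p, (p, c p) ∉ D := by
      intro D₁ D₂ g1 g2 s1 s2 hor
      obtain ⟨c₁, e1, d1⟩ := ih D₁ g1
      obtain ⟨c₂, e2, d2⟩ := ih D₂ g2
      refine ⟨fun p => if σ p = σ h then c₁ p else c₂ p, fun e he => ?_, fun p hp => ?_⟩
      · rcases Finset.mem_insert.1 he with rfl | he
        · intro x hx y hy
          have hx' : σ (x * h) = σ h := h1 _ (δ.hX _ x hx) _
          have hy' : ¬ σ (y * (gen k * h)) = σ h := by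
            rw [h1 _ (δ.hY _ y hy)]; exact h3
          simp only [hx', hy', if_true, if_false]
          rintro ⟨a1, a2⟩
          rcases hor with hor | hor
          · exact d1 (x * h) (by rw [a1]; exact hor x hx)
          · exact d2 (y * (gen k * h)) (by rw [a2]; exact hor y hy)
        · exact edge_glue δ c₁ c₂ σ (σ h) k h h1 h2 e (hmax e he)
            (fun hh => hS (hh ▸ he)) (e1 e he) (e2 e he)
      · by_cases hs : σ p = σ h
        · simp only [hs, if_true] at hp
          exact d1 p (s1 (Finset.mem_filter.2 ⟨hp, hs⟩))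
        · simp only [hs, if_false] at hp
          exact d2 p (s2 (Finset.mem_filter.2 ⟨hp, hs⟩))
    rcases good_split hD (fun d => σ d.1 = σ h) (δ.I k) ((δ.X k).image (· * h))
      ((δ.Y k).image (· * (gen k * h))) (Finset.card_image_le.trans (δ.cX k))
      (Finset.card_image_le.trans (δ.cY k)) with hg | hg
    · refine key _ _ hg (hD.mono (Finset.filter_subset _ _)) ?_ subset_rfl (Or.inl fun x hx => ?_)
      · convert Finset.subset_union_left
      · exact Finset.mem_union_right _ (Finset.mem_image.2 ⟨_, Finset.mem_image.2 ⟨x, hx, rfl⟩, rfl⟩)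
    · refine key _ _ (hD.mono (Finset.filter_subset _ _)) hg subset_rfl ?_ (Or.inr fun x hx => ?_)
      · convert Finset.subset_union_left
      · exact Finset.mem_union_right _ (Finset.mem_image.2 ⟨_, Finset.mem_image.2 ⟨x, hx, rfl⟩, rfl⟩)

def Item (δ : Data) (c : G → Fin 7) (e : ℕ × G) : Prop :=
  (δ.pin e.1 → Pin δ c e.1) ∧ (¬ δ.pin e.1 → Edge δ c e)

theorem pin_glue (δ : Data) (c₁ c₂ : G → Fin 7) (σ : G → Bool) (k : ℕ)
    (h1 : ∀ u ∈ low k, ∀ w, σ (u * w) = σ w) (j : ℕ) (hj : j < k) (e1 : Pin δ c₁ j) :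
    Pin δ (fun p => if σ p = σ 1 then c₁ p else c₂ p) j := by
  have a1 : σ (gen j) = σ 1 := by simpa using h1 _ (gen_mem_low hj) 1
  have a2 : σ ((gen j)⁻¹ * δ.g j) = σ 1 := by
    simpa using h1 _ (mul_mem (inv_mem (gen_mem_low hj)) (low_mono hj.le (δ.hg j))) 1
  unfold Pin
  simp only [a1, a2, if_true]
  exact e1

theorem exists_pin (δ : Data) (S : Finset (ℕ × G)) (p : G) (i : Fin 7) :
    ∃ c : G → Fin 7, (∀ e ∈ S, Edge δ c e) ∧ c p = i := by
  obtain ⟨c, h1, h2⟩ := claim1 δ S _ (good_pin p i)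
  refine ⟨c, h1, ?_⟩
  by_contra hne
  exact h2 p (Finset.mem_image.2 ⟨c p, by simp [hne], rfl⟩)

theorem claim2 (δ : Data) (S : Finset (ℕ × G)) : ∃ c : G → Fin 7, ∀ e ∈ S, Item δ c e := by
  induction S using Finset.induction_on_max_value (ι := ℕ × G) (α := ℕ) (f := Prod.fst) with
  | empty => exact ⟨fun _ => 0, by simp⟩
  | insert e S hS hmax ih =>
    obtain ⟨c₀, hc₀⟩ := ih
    obtain ⟨k, h⟩ := e
    by_cases hp : δ.pin k
    · obtain ⟨σ, h1, h2, h3⟩ := side k 1
      obtain ⟨τ, t1, t2, t3⟩ := side k ((gen k)⁻¹ * δ.g k)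
      obtain ⟨c₁, e1, p1⟩ := exists_pin δ S (gen k) (δ.I k)
      obtain ⟨c₂, e2, p2⟩ := exists_pin δ S ((gen k)⁻¹ * δ.g k) (δ.J k)
      have hpin : Pin δ (fun p => if σ p = σ 1 then (if τ p = τ 1 then c₀ p else c₂ p) else c₁ p) k := by
        have a1 : ¬ σ (gen k) = σ 1 := by simpa using h3
        have hne : (gen k)⁻¹ * δ.g k ≠ 1 := by
          intro hh
          have : δ.g k = gen k := (inv_mul_eq_one.1 hh).symm
          exact gen_not_mem_low k (this ▸ δ.hg k)
        have a2 : σ ((gen k)⁻¹ * δ.g k) = σ 1 := by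
          rw [← h2 _ hne, mul_inv_cancel_left]
          simpa using h1 _ (δ.hg k) 1
        have a3 : ¬ τ ((gen k)⁻¹ * δ.g k) = τ 1 := by
          rw [mul_inv_cancel_left] at t3
          have : τ (δ.g k) = τ 1 := by simpa using t1 _ (δ.hg k) 1
          rw [← this]
          exact fun hh => t3 hh.symm
        unfold Pin
        simp only [a1, a2, a3, if_true, if_false]
        exact ⟨p1, p2⟩
      refine ⟨fun p => if σ p = σ 1 then (if τ p = τ 1 then c₀ p else c₂ p) else c₁ p,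
        fun e he => ?_⟩
      rcases Finset.mem_insert.1 he with rfl | he
      · exact ⟨fun _ => hpin, fun hn => absurd hp hn⟩
      · refine ⟨fun hq => ?_, fun hq => ?_⟩
        · rcases lt_or_eq_of_le (hmax e he) with hlt | heq
          · exact pin_glue δ _ c₁ σ k h1 _ hlt (pin_glue δ c₀ c₂ τ k t1 _ hlt ((hc₀ e he).1 hq))
          · simp only at heq
            rw [heq]; exact hpin
        · have hne : ∀ w, e ≠ (k, w) := fun w hh => hq (by rw [hh]; exact hp)
          exact edge_glue δ _ c₁ σ (σ 1) k 1 h1 h2 e (hmax e he) (hne _)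
            (edge_glue δ c₀ c₂ τ (τ 1) k _ t1 t2 e (hmax e he) (hne _) ((hc₀ e he).2 hq) (e2 e he))
            (e1 e he)
    · obtain ⟨σ, h1, h2, h3⟩ := side k h
      have key : ∀ c₁ : G → Fin 7, (∀ e ∈ S, Edge δ c₁ e) →
          Edge δ (fun p => if σ p = σ 1 then c₀ p else c₁ p) (k, h) →
          ∃ c : G → Fin 7, ∀ e ∈ insert (k, h) S, Item δ c e := by
        intro c₁ e1 hE
        refine ⟨fun p => if σ p = σ 1 then c₀ p else c₁ p, fun e he => ?_⟩
        rcases Finset.mem_insert.1 he with rfl | he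
        · exact ⟨fun hq => absurd hq hp, fun _ => hE⟩
        · refine ⟨fun hq => ?_, fun hq => ?_⟩
          · have hlt : e.1 < k := lt_of_le_of_ne (hmax e he) fun hh => hp (hh ▸ hq)
            exact pin_glue δ c₀ c₁ σ k h1 _ hlt ((hc₀ e he).1 hq)
          · exact edge_glue δ c₀ c₁ σ (σ 1) k h h1 h2 e (hmax e he)
              (fun hh => hS (hh ▸ he)) ((hc₀ e he).2 hq) (e1 e he)
      by_cases hs : σ h = σ 1
      · obtain ⟨c₁, e1, d1⟩ := claim1 δ S _ (good_image (δ.I k)
          ((δ.Y k).image (· * (gen k * h))) (Finset.card_image_le.trans (δ.cY k)))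
        refine key c₁ e1 ?_
        intro x hx y hy
        have hy' : ¬ σ (y * (gen k * h)) = σ 1 := by
          rw [h1 _ (δ.hY _ y hy), ← hs]; exact h3
        simp only [hy', if_false]
        rintro ⟨-, a2⟩
        exact d1 (y * (gen k * h)) (by
          rw [a2]; exact Finset.mem_image.2 ⟨_, Finset.mem_image.2 ⟨y, hy, rfl⟩, rfl⟩)
      · obtain ⟨c₁, e1, d1⟩ := claim1 δ S _ (good_image (δ.I k)
          ((δ.X k).image (· * h)) (Finset.card_image_le.trans (δ.cX k)))
        refine key c₁ e1 ?_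
        intro x hx y hy
        have hx' : ¬ σ (x * h) = σ 1 := by
          rw [h1 _ (δ.hX _ x hx)]; exact hs
        simp only [hx', if_false]
        rintro ⟨a1, -⟩
        exact d1 (x * h) (by
          rw [a1]; exact Finset.mem_image.2 ⟨_, Finset.mem_image.2 ⟨x, hx, rfl⟩, rfl⟩)

theorem closed_item (δ : Data) (e : ℕ × G) : IsClosed {c : G → Fin 7 | Item δ c e} := by
  have hc : ∀ (p : G) (i : Fin 7), IsClopen {c : G → Fin 7 | c p = i} := fun p i =>
    (isClopen_discrete {i}).preimage (continuous_apply p)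
  by_cases hp : δ.pin e.1
  · have : {c : G → Fin 7 | Item δ c e} = {c | c (gen e.1) = δ.I e.1} ∩
        {c | c ((gen e.1)⁻¹ * δ.g e.1) = δ.J e.1} := by
      ext c; simp [Item, hp, Pin]
    rw [this]
    exact (hc _ _).1.inter (hc _ _).1
  · have : {c : G → Fin 7 | Item δ c e} = ⋂ x ∈ δ.X e.1, ⋂ y ∈ δ.Y e.1,
        ({c : G → Fin 7 | c (x * e.2) = δ.I e.1} ∩
          {c | c (y * (gen e.1 * e.2)) = δ.I e.1})ᶜ := by
      ext c; simp [Item, hp, Edge]
    rw [this]
    exact isClosed_biInter fun x _ => isClosed_biInter fun y _ =>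
      ((hc _ _).2.inter (hc _ _).2).isClosed_compl

theorem claim3 (δ : Data) : ∃ c : G → Fin 7, ∀ e, Item δ c e := by
  have := (isCompact_univ (X := G → Fin 7)).inter_iInter_nonempty
    (fun e : ℕ × G => {c : G → Fin 7 | Item δ c e}) (closed_item δ) (fun u => by
      obtain ⟨c, hc⟩ := claim2 δ u
      exact ⟨c, trivial, by simpa using fun a b hab => hc (a, b) hab⟩)
  obtain ⟨c, -, hc⟩ := this
  exact ⟨c, fun e => Set.mem_iInter.1 hc e⟩

abbrev T : Type := Bool × Fin 7 × Fin 7 × Finset G × Finset G × G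

def Ok (t : T) (k : ℕ) : Prop :=
  (∀ x ∈ t.2.2.2.1, x ∈ low k) ∧ (∀ x ∈ t.2.2.2.2.1, x ∈ low k) ∧ t.2.2.2.1.card ≤ 7 ∧
    t.2.2.2.2.1.card ≤ 7 ∧ t.2.2.2.2.2 ∈ low k

theorem exists_enum : ∃ f : ℕ → T, (∀ k, Ok (f k) k) ∧ ∀ t : T, t.2.2.2.1.card ≤ 7 →
    t.2.2.2.2.1.card ≤ 7 → ∃ k, f k = t := by
  obtain ⟨e, he⟩ := exists_surjective_nat T
  refine ⟨fun k => if Ok (e k.unpair.1) k then e k.unpair.1 else (true, 0, 0, ∅, ∅, 1),
    fun k => ?_, fun t h1 h2 => ?_⟩
  · dsimp only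
    split_ifs with h
    · exact h
    · simp [Ok, one_mem]
  · obtain ⟨a, rfl⟩ := he t
    obtain ⟨k1, hk1⟩ := exists_low_finset (e a).2.2.2.1
    obtain ⟨k2, hk2⟩ := exists_low_finset (e a).2.2.2.2.1
    obtain ⟨k3, hk3⟩ := exists_low (e a).2.2.2.2.2
    have hle := Nat.right_le_pair a (k1 + k2 + k3)
    refine ⟨Nat.pair a (k1 + k2 + k3), ?_⟩
    simp only [Nat.unpair_pair]
    rw [if_pos]
    exact ⟨fun x hx => low_mono (by omega) (hk1 x hx), fun x hx => low_mono (by omega) (hk2 x hx),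
      h1, h2, low_mono (by omega) hk3⟩

/-- A 7-colouring of the free group of countable rank such that no colour class is large. -/
theorem main : ∃ c : G → Fin 7,
    (∀ (i : Fin 7) (X Y : Finset G), X.card ≤ 7 → Y.card ≤ 7 →
      ∃ g : G, ∀ h : G, ∀ x ∈ X, ∀ y ∈ Y, ¬ (c (x * h) = i ∧ c (y * (g * h)) = i)) ∧
    ∀ (g : G) (i j : Fin 7), ∃ a : G, c a = i ∧ c (a⁻¹ * g) = j := by
  obtain ⟨f, hf, hs⟩ := exists_enum
  let δ : Data :=
    { pin := fun k => (f k).1 = true
      I := fun k => (f k).2.1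
      J := fun k => (f k).2.2.1
      X := fun k => (f k).2.2.2.1
      Y := fun k => (f k).2.2.2.2.1
      g := fun k => (f k).2.2.2.2.2
      hX := fun k => (hf k).1
      hY := fun k => (hf k).2.1
      cX := fun k => (hf k).2.2.1
      cY := fun k => (hf k).2.2.2.1
      hg := fun k => (hf k).2.2.2.2 }
  obtain ⟨c, hc⟩ := claim3 δ
  refine ⟨c, fun i X Y hX hY => ?_, fun g i j => ?_⟩
  · obtain ⟨k, hk⟩ := hs (false, i, i, X, Y, 1) hX hY
    refine ⟨gen k, fun h x hx y hy => ?_⟩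
    have := (hc (k, h)).2 (by simp [δ, hk]) x (by simpa [δ, hk] using hx) y
      (by simpa [δ, hk] using hy)
    simpa [δ, hk] using this
  · obtain ⟨k, hk⟩ := hs (true, i, j, ∅, ∅, g) (by simp) (by simp)
    have := (hc (k, 1)).1 (by simp [δ, hk])
    exact ⟨gen k, by simpa [δ, hk, Pin] using this⟩

end Pool.Agent.H66.Prot
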