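import Mathlib

set_option autoImplicit false

namespace Pool.Agent.H66.Pyth

open Polynomial

noncomputable def phi : GaussianInt →+* ZMod 2 := Zsqrtd.lift ⟨1, by decide⟩

noncomputable def psi : GaussianInt[X] →+* ZMod 2 := phi.comp constantCoeff

noncomputable def P : Ideal GaussianInt[X] := RingHom.ker psi

instance : P.IsPrime := RingHom.ker_isPrime _

def pi : GaussianInt := ⟨1, 1⟩

def ii : GaussianInt := ⟨0, 1⟩

theorem phi_pi : phi pi = 0 := by
  simp [phi, pi, Zsqrtd.lift]; decide

theorem phi_two : phi 2 = 0 := by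
  rw [map_ofNat]; decide

theorem dvd_of_phi (z : GaussianInt) (h : phi z = 0) : pi ∣ z := by
  obtain ⟨a, b⟩ := z
  have h1 : ((a + b : ℤ) : ZMod 2) = 0 := by simpa [phi, Zsqrtd.lift] using h
  obtain ⟨c, hc⟩ := (ZMod.intCast_zmod_eq_zero_iff_dvd _ 2).1 h1
  refine ⟨⟨c, c - a⟩, ?_⟩
  push_cast at hc
  ext <;> simp [pi] <;> omega

theorem mem_P (f : GaussianInt[X]) : f ∈ P ↔ phi (f.coeff 0) = 0 := by
  simp [P, psi, RingHom.mem_ker]

theorem P_eq : P = Ideal.span {C pi, X} := by
  apply le_antisymm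
  · intro f hf
    obtain ⟨c, hc⟩ := dvd_of_phi _ ((mem_P f).1 hf)
    rw [Ideal.mem_span_pair]
    refine ⟨C c, divX f, ?_⟩
    rw [← C_mul, mul_comm c, ← hc, add_comm, divX_mul_X_add]
  · rw [Ideal.span_le]
    rintro _ (rfl | rfl)
    · simp [mem_P, phi_pi]
    · simp [mem_P]

theorem height_P : P.height = 2 := by
  apply le_antisymm
  · have h := Ideal.height_le_card_of_mem_minimalPrimes_span_finset (p := P)
      (s := {C pi, X}) (by
        rw [Finset.coe_pair, ← P_eq, Ideal.minimalPrimes_eq_subsingleton_self]; rfl)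
    refine h.trans ?_
    exact_mod_cast Finset.card_le_two
  · have : (Ideal.span {(X : GaussianInt[X])}).IsPrime :=
      (Ideal.span_singleton_prime X_ne_zero).2 prime_X
    have h1 : (⊥ : Ideal GaussianInt[X]) < Ideal.span {X} :=
      bot_lt_iff_ne_bot.2 (by simp)
    have h2 : Ideal.span {(X : GaussianInt[X])} < P := by
      refine lt_of_le_of_ne (by rw [P_eq]; exact Ideal.span_mono (by simp)) fun h => ?_
      have : C pi ∈ Ideal.span {(X : GaussianInt[X])} := by rw [h]; simp [mem_P, phi_pi]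
      rw [Ideal.mem_span_singleton, X_dvd_iff] at this
      simp [pi] at this
      exact absurd this (by decide)
    have a1 := Ideal.height_add_one_le_of_lt_of_isPrime h1
    have a2 := Ideal.height_add_one_le_of_lt_of_isPrime h2
    rw [Ideal.height_bot, zero_add] at a1
    calc (2 : ℕ∞) = 1 + 1 := rfl
      _ ≤ _ := add_le_add_left a1 1
      _ ≤ _ := a2

theorem aux (u v s y : GaussianInt[X]) (hs : s ∉ P) (h : u * v = 2 * X * s ^ 2)
    (huv : v = u + 2 * y) (h0 : u.coeff 0 = 0) : False := by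
  obtain ⟨u', rfl⟩ := X_dvd_iff.2 h0
  have h1 : u' * v = 2 * s ^ 2 := mul_left_cancel₀ X_ne_zero (by rw [← mul_assoc, h]; ring)
  have h2 : X * u' ^ 2 = 2 * (s ^ 2 - u' * y) := by rw [huv] at h1; linear_combination h1
  have h3 : u'.coeff 0 ^ 2 = 2 * (s ^ 2 - u' * y).coeff 1 := by
    have := congrArg (fun f => coeff f (0 + 1)) h2
    simp only [coeff_X_mul] at this
    simpa [sq, two_mul] using this
  have h4 : phi (u'.coeff 0) = 0 := by
    have := congrArg phi h3
    rw [map_pow, map_mul, phi_two, zero_mul] at this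
    exact pow_eq_zero_iff (two_ne_zero) |>.1 this
  have h5 : (s.coeff 0) ^ 2 = u'.coeff 0 * y.coeff 0 := by
    have := congrArg (fun f => coeff f 0) h2
    simp [sq, two_mul] at this
    linear_combination (1 : GaussianInt) * (mul_left_cancel₀ (two_ne_zero : (2 : GaussianInt) ≠ 0)
      (show 2 * (s.coeff 0 ^ 2) = 2 * (u'.coeff 0 * y.coeff 0) by linear_combination -this))
  apply hs
  rw [mem_P]
  have := congrArg phi h5
  rw [map_pow, map_mul, h4, zero_mul] at this
  exact pow_eq_zero_iff (two_ne_zero) |>.1 this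

theorem ii_sq : ii * ii = -1 := by decide

theorem not_two (a b s : GaussianInt[X]) (hs : s ∉ P) : a ^ 2 + b ^ 2 ≠ 2 * X * s ^ 2 := by
  intro h
  have hi : (C ii : GaussianInt[X]) * C ii = -1 := by rw [← C_mul, ii_sq]; simp
  have h1 : (a + C ii * b) * (a - C ii * b) = 2 * X * s ^ 2 := by
    linear_combination h - b ^ 2 * hi
  have h2 := congrArg (fun f => coeff f 0) h1
  simp only [mul_coeff_zero, coeff_X_zero, mul_zero, zero_mul] at h2
  rcases mul_eq_zero.1 h2 with h0 | h0
  · exact aux _ _ s (-(C ii * b)) hs h1 (by ring) h0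
  · exact aux _ _ s (C ii * b) hs (by rw [mul_comm, h1]) (by ring) h0

end Pool.Agent.H66.Pyth
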