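import Mathlib

set_option autoImplicit false

namespace Pool.Agent.H66.QAut

theorem orth {A : Type*} [CStarAlgebra A] {ι : Type*} [Fintype ι] (p : ι → A)
    (hp : ∀ i, IsStarProjection (p i)) (hs : ∑ i, p i = 1) {i j : ι} (hij : j ≠ i) :
    p j * p i = 0 := by
  classical
  letI := CStarAlgebra.spectralOrder A
  haveI := CStarAlgebra.spectralOrderedRing A
  have h1 : ∀ j, star (p j * p i) * (p j * p i) = p i * p j * p i := fun j => by
    rw [star_mul, (hp i).isSelfAdjoint.star_eq, (hp j).isSelfAdjoint.star_eq, mul_assoc,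
      ← mul_assoc (p j), (hp j).isIdempotentElem.eq, mul_assoc]
  have h2 : ∑ j ∈ Finset.univ.erase i, star (p j * p i) * (p j * p i) = 0 := by
    have h3 : ∑ j, star (p j * p i) * (p j * p i) = p i := by
      simp only [h1]
      rw [← Finset.sum_mul, ← Finset.mul_sum, hs, mul_one, (hp i).isIdempotentElem.eq]
    rw [← Finset.add_sum_erase _ _ (Finset.mem_univ i), h1, (hp i).isIdempotentElem.eq,
      (hp i).isIdempotentElem.eq] at h3
    simpa using h3
  have h4 := (Finset.sum_eq_zero_iff_of_nonneg fun j _ => star_mul_self_nonneg _).1 h2 j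
    (by simp [hij])
  exact (CStarRing.star_mul_self_eq_zero_iff _).1 h4

section
variable {A : Type*} [Ring A] {ι : Type*} [Fintype ι] [DecidableEq ι] (p : ι → A)
  (hid : ∀ i, p i * p i = p i) (ho : ∀ i j, i ≠ j → p i * p j = 0)
include hid ho

theorem comm_sum (a b : ι → Prop) [DecidablePred a] [DecidablePred b] :
    Commute (∑ i, if a i then p i else 0) (∑ i, if b i then p i else 0) := by
  refine Commute.sum_left _ _ _ fun i _ => Commute.sum_right _ _ _ fun j _ => ?_
  have : Commute (p i) (p j) := by
    by_cases h : i = j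
    · rw [h]
    · rw [Commute, SemiconjBy, ho i j h, ho j i (Ne.symm h)]
  split_ifs <;> simp [this]

theorem mul_sum_ite (a : ι → Prop) [DecidablePred a] (i : ι) :
    p i * (∑ j, if a j then p j else 0) = if a i then p i else 0 := by
  rw [Finset.mul_sum, Finset.sum_eq_single i]
  · split_ifs <;> simp [hid]
  · intro j _ hj
    split_ifs <;> simp [ho i j hj.symm]
  · simp

theorem sum_ite_mul (a : ι → Prop) [DecidablePred a] (i : ι) :
    (∑ j, if a j then p j else 0) * p i = if a i then p i else 0 := by
  rw [Finset.sum_mul, Finset.sum_eq_single i]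
  · split_ifs <;> simp [hid]
  · intro j _ hj
    split_ifs <;> simp [ho j i hj]
  · simp

theorem sandwich (c : A) (a : ι → Prop) [DecidablePred a]
    (hc : Commute c (∑ j, if a j then p j else 0)) (i j : ι) (h : ¬ (a i ↔ a j)) :
    p i * c * p j = 0 := by
  have h1 : (if a i then p i else 0) * c * p j = p i * c * (if a j then p j else 0) := by
    rw [← mul_sum_ite p hid ho, ← sum_ite_mul p hid ho a j, mul_assoc (p i), ← hc.eq]
    simp only [mul_assoc]
  by_cases hi : a i
  · have hj : ¬ a j := fun hj => h (iff_of_true hi hj)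
    simpa [hi, hj] using h1
  · have hj : a j := by tauto
    simpa [hi, hj] using h1.symm

omit hid ho in
theorem comm_of_sandwich (hs : ∑ i, p i = 1) (c : A) (h : ∀ i j, i ≠ j → p i * c * p j = 0)
    (i : ι) : Commute c (p i) := by
  have h1 : p i * c = p i * c * p i := by
    conv_lhs => rw [← mul_one (p i * c), ← hs, Finset.mul_sum]
    exact Finset.sum_eq_single i (fun j _ hj => h i j hj.symm) (by simp)
  have h2 : c * p i = p i * c * p i := by
    conv_lhs => rw [← one_mul c, ← hs, Finset.sum_mul, Finset.sum_mul]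
    exact Finset.sum_eq_single i (fun j _ hj => h j i hj) (by simp)
  rw [Commute, SemiconjBy, h2, ← h1]

end

theorem main {V : Type*} [Fintype V] [DecidableEq V] {A : Type*} [CStarAlgebra A]
    (u : V → V → A) (w : Finset V × Finset V → Finset V × Finset V → A)
    (hw : ∀ e f, IsStarProjection (w e f)) (hc : ∀ f, ∑ e, w e f = 1)
    (hs : ∀ v f, ∑ e, (if v ∈ e.1 then w e f else 0) = ∑ x, if x ∈ f.1 then u v x else 0)
    (hr : ∀ v f, ∑ e, (if v ∈ e.2 then w e f else 0) = ∑ x, if x ∈ f.2 then u v x else 0) :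
    (∀ a b c d, Commute (u a b) (u c d)) ∧ (∀ a b e f, Commute (u a b) (w e f)) ∧
      ∀ e f e' f', Commute (w e f) (w e' f') := by
  have hid : ∀ f e, w e f * w e f = w e f := fun f e => (hw e f).isIdempotentElem.eq
  have ho : ∀ f e e', e ≠ e' → w e f * w e' f = 0 := fun f e e' h =>
    orth (fun e => w e f) (fun e => hw e f) (hc f) h
  have key : ∀ c, (∀ a b, Commute c (u a b)) → ∀ e f, Commute c (w e f) := by
    intro c h e f
    refine comm_of_sandwich (fun e => w e f) (hc f) c (fun i j hij => ?_) e
    by_cases h1 : i.1 = j.1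
    · have h2 : i.2 ≠ j.2 := fun h2 => hij (Prod.ext h1 h2)
      obtain ⟨v, hv⟩ := not_forall.1 (mt Finset.ext h2)
      refine sandwich (fun e => w e f) (hid f) (ho f) c (fun e => v ∈ e.2) ?_ i j hv
      rw [hr]
      exact Commute.sum_right _ _ _ fun x _ => by split_ifs <;> simp [h]
    · obtain ⟨v, hv⟩ := not_forall.1 (mt Finset.ext h1)
      refine sandwich (fun e => w e f) (hid f) (ho f) c (fun e => v ∈ e.1) ?_ i j hv
      rw [hs]
      exact Commute.sum_right _ _ _ fun x _ => by split_ifs <;> simp [h]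
  have h1 : ∀ a b c d, Commute (u a b) (u c d) := by
    intro a b c d
    have := comm_sum (fun e => w e ({b}, {d})) (hid _) (ho _) (fun e => a ∈ e.1) (fun e => c ∈ e.2)
    rw [hs, hr] at this
    simpa using this
  have h2 := fun a b => key (u a b) (h1 a b)
  exact ⟨h1, h2, fun e f => key _ fun a b => (h2 a b e f).symm⟩

theorem exists_magic (V : Type*) [Fintype V] [DecidableEq V] (hV : 4 ≤ Fintype.card V)
    {B : Type*} [Ring B] [StarRing B] (p q : B) (hp : IsStarProjection p)
    (hq : IsStarProjection q) :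
    ∃ u : V → V → B, (∀ x y, IsStarProjection (u x y)) ∧ (∀ x, ∑ y, u x y = 1) ∧
      (∀ y, ∑ x, u x y = 1) ∧ ∃ a c, u a a = p ∧ u c c = q := by
  obtain ⟨j⟩ : Nonempty (Fin 4 ↪ V) := Function.Embedding.nonempty_of_card_le (by simpa using hV)
  let σ : Equiv.Perm V := Equiv.swap (j 0) (j 1) * Equiv.swap (j 2) (j 3)
  let e : V → B := fun x => if x = j 0 ∨ x = j 1 then p else q
  have he : ∀ x, IsStarProjection (e x) := fun x => by
    simp only [e]; split_ifs <;> assumption
  have heσ : ∀ x, e (σ x) = e x := by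
    intro x
    have : (σ x = j 0 ∨ σ x = j 1) ↔ (x = j 0 ∨ x = j 1) := by
      simp only [σ, Equiv.Perm.mul_apply, Equiv.swap_apply_eq_iff, Equiv.swap_apply_left,
        Equiv.swap_apply_right]
      rw [Equiv.swap_apply_of_ne_of_ne (by simp) (by simp),
        Equiv.swap_apply_of_ne_of_ne (by simp) (by simp), or_comm]
    simp only [e, this]
  refine ⟨fun x y => (if x = y then e x else 0) + if σ x = y then 1 - e x else 0, ?_, ?_, ?_,
    j 0, j 2, ?_, ?_⟩
  · intro x y
    dsimp only
    split_ifs
    · simpa using IsStarProjection.one B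
    · simpa using he x
    · simpa using (he x).one_sub
    · simpa using IsStarProjection.zero B
  · intro x
    simp [Finset.sum_add_distrib]
  · intro y
    obtain ⟨z, rfl⟩ := σ.surjective y
    simp [Finset.sum_add_distrib, heσ]
  · simp [σ, e, Equiv.swap_apply_of_ne_of_ne]
  · simp [σ, e, Equiv.swap_apply_of_ne_of_ne]

end Pool.Agent.H66.QAut
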