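import Mathlib

set_option autoImplicit false

namespace Pool.Agent.H66.RegDesc

open Polynomial

theorem principal_of_regular {C D : Type*} [CommRing C] [CommRing D] [IsDomain D]
    [Ring.DimensionLEOne D] [IsRegularLocalRing C] (f : C →+* D) (hf : Function.Injective f)
    (hi : f.IsIntegral) : (IsLocalRing.maximalIdeal C).IsPrincipal := by
  have : IsDomain C := hf.isDomain f
  letI := f.toAlgebra
  have : Algebra.IsIntegral C D := ⟨hi⟩
  have h1 : Ring.KrullDimLE 1 C := by
    rw [Ring.krullDimLE_one_iff_of_noZeroDivisors]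
    intro Q hQ0 hQ
    obtain ⟨Q', hQ', e⟩ := Ideal.exists_ideal_over_prime_of_isIntegral_of_isDomain (S := D) Q
      (((RingHom.injective_iff_ker_eq_bot _).1 hf).le.trans bot_le)
    have hne : Q' ≠ ⊥ := by
      rintro rfl
      exact hQ0 (e ▸ (RingHom.injective_iff_ker_eq_bot _).1 hf)
    have := Ring.DimensionLEOne.maximalOfPrime hne hQ'
    exact e ▸ Ideal.isMaximal_comap_of_isIntegral_of_isMaximal Q'
  have h2 : ringKrullDim C ≤ 1 := Ring.krullDimLE_iff.1 h1
  rw [← IsRegularLocalRing.spanFinrank_maximalIdeal] at h2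
  have h3 : (IsLocalRing.maximalIdeal C).spanFinrank ≤ 1 := by exact_mod_cast h2
  rcases Nat.le_one_iff_eq_zero_or_eq_one.1 h3 with h4 | h4
  · rw [(Submodule.spanFinrank_eq_zero_iff_eq_bot (IsNoetherian.noetherian _)).1 h4]
    exact bot_isPrincipal
  · exact ((Submodule.spanFinrank_eq_one_iff _).1 h4).1

theorem finite_of_dec {A B : Type*} [CommRing A] [CommRing B] (f : A →+* B) (x : B)
    (h : ∀ b, ∃ a0 a1, b = f a0 + x * f a1) : f.Finite := by
  classical
  letI := f.toAlgebra
  refine ⟨⟨{1, x}, ?_⟩⟩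
  rw [eq_top_iff]
  intro b _
  obtain ⟨a0, a1, rfl⟩ := h b
  rw [Finset.coe_pair, Submodule.mem_span_pair]
  refine ⟨a0, a1, ?_⟩
  simp only [Algebra.smul_def, RingHom.algebraMap_toAlgebra]
  ring

abbrev Loc {R : Type} [CommRing R] (I : Ideal R) [I.IsPrime] : Type := Localization.AtPrime I

abbrev P : Type := ℤ[X][X]

noncomputable def th0 : P →+* (ZMod 2)[X] :=
  eval₂RingHom (eval₂RingHom (Int.castRingHom _) (X ^ 3)) X

noncomputable def n : Ideal (ZMod 2)[X] := RingHom.ker constantCoeff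

instance : n.IsPrime := RingHom.ker_isPrime _

noncomputable def m : Ideal P := n.comap th0

instance : m.IsPrime := Ideal.comap_isPrime _ _

noncomputable def ph0 : P →+* P := (expand ℤ[X] 2).toRingHom

theorem m_comap : m = m.comap ph0 := by
  have : (constantCoeff.comp th0) = (constantCoeff.comp th0).comp ph0 := by
    ext <;> simp [th0, ph0]
  rw [m, n, RingHom.comap_ker, RingHom.comap_ker, ← this]

abbrev A : Type := Loc m

abbrev D : Type := Loc n

noncomputable def ph : A →+* A := Localization.localRingHom m m ph0 m_comap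

noncomputable def th : A →+* D := Localization.localRingHom m n th0 rfl

theorem ph_al (f : P) : ph (algebraMap P A f) = algebraMap P A (ph0 f) :=
  Localization.localRingHom_to_map _ _ _ _ _

theorem th_al (f : P) : th (algebraMap P A f) = algebraMap _ D (th0 f) :=
  Localization.localRingHom_to_map _ _ _ _ _

theorem dec0 (g : P) : ∃ g0 g1, g = ph0 g0 + X * ph0 g1 := by
  induction g using Polynomial.induction_on with
  | C a => exact ⟨C a, 0, by simp [ph0]⟩
  | add p q hp hq =>
    obtain ⟨p0, p1, rfl⟩ := hp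
    obtain ⟨q0, q1, rfl⟩ := hq
    exact ⟨p0 + q0, p1 + q1, by simp only [map_add]; ring⟩
  | monomial k a h =>
    obtain ⟨p0, p1, e⟩ := h
    refine ⟨X * p1, p0, ?_⟩
    rw [pow_succ, ← mul_assoc, e, map_mul]
    have : ph0 X = X ^ 2 := by simp [ph0]
    rw [this]; ring

theorem X_mem : (X : P) ∈ m := by simp [m, n, th0, RingHom.mem_ker]

theorem dec (b : A) : ∃ a0 a1, b = ph a0 + algebraMap P A X * ph a1 := by
  obtain ⟨⟨g, s⟩, h⟩ := IsLocalization.surj m.primeCompl b
  obtain ⟨s0, s1, hs⟩ := dec0 s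
  have hX : ph0 X = X ^ 2 := by simp [ph0]
  have hN : s0 ^ 2 - X * s1 ^ 2 ∈ m.primeCompl := by
    intro hN
    have h1 : s0 ^ 2 ∈ m := by
      have := m.add_mem hN (m.mul_mem_right (s1 ^ 2) X_mem)
      rwa [sub_add_cancel] at this
    have h2 : s0 ∈ m := Ideal.IsPrime.mem_of_pow_mem inferInstance _ h1
    rw [m_comap] at h2
    exact s.2 (hs ▸ m.add_mem h2 (m.mul_mem_right _ X_mem))
  obtain ⟨g0, g1, hg⟩ := dec0 (g * (ph0 s0 - X * ph0 s1))
  obtain ⟨u, hu⟩ := (IsLocalization.map_units A ⟨_, hN⟩).exists_right_inv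
  refine ⟨algebraMap P A g0 * u, algebraMap P A g1 * u, ?_⟩
  have hu' := congrArg ph hu
  simp only at h hu'
  have hg' := congrArg (algebraMap P A) hg
  rw [hs] at h
  simp only [map_mul, map_one, ph_al, map_sub, map_add, map_pow, hX] at h hu' hg' ⊢
  linear_combination (-b) * hu' + ph u * hg' +
    ph u * (algebraMap P A (ph0 s0) - algebraMap P A X * algebraMap P A (ph0 s1)) * h

theorem ph_inj : Function.Injective ph := by
  rw [injective_iff_map_eq_zero]
  intro a ha
  obtain ⟨⟨g, s⟩, h⟩ := IsLocalization.surj m.primeCompl a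
  have h1 := congrArg ph h
  rw [map_mul, ha, zero_mul, ph_al] at h1
  have hinj : Function.Injective (algebraMap P A) :=
    IsLocalization.injective A m.primeCompl_le_nonZeroDivisors
  have h2 : ph0 g = 0 := hinj (by rw [← h1, map_zero])
  have h3 : g = 0 := (expand_eq_zero two_pos).1 h2
  simp only [h3, map_zero] at h
  exact (IsLocalization.map_units A s).mul_left_eq_zero.1 h

theorem ph_finite : ph.Finite := finite_of_dec ph _ dec

theorem th_surj : Function.Surjective th := by
  have h0 : Function.Surjective th0 := by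
    intro f
    induction f using Polynomial.induction_on with
    | C a =>
      obtain ⟨k, rfl⟩ := ZMod.intCast_surjective a
      exact ⟨k, by simp⟩
    | add p q hp hq =>
      obtain ⟨p, rfl⟩ := hp
      obtain ⟨q, rfl⟩ := hq
      exact ⟨p + q, map_add _ _ _⟩
    | monomial k a h =>
      obtain ⟨p, e⟩ := h
      exact ⟨p * X, by rw [map_mul, e, pow_succ, mul_assoc]; simp [th0]⟩
  intro d
  obtain ⟨⟨g, s, hs⟩, h⟩ := IsLocalization.surj n.primeCompl d
  obtain ⟨g, rfl⟩ := h0 g
  obtain ⟨s, rfl⟩ := h0 s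
  obtain ⟨u, hu⟩ := (IsLocalization.map_units A (⟨s, hs⟩ : m.primeCompl)).exists_right_inv
  refine ⟨algebraMap P A g * u, ?_⟩
  have hu' := congrArg th hu
  simp only [map_mul, th_al, map_one] at h hu' ⊢
  linear_combination d * hu' - th u * h

noncomputable def p : Ideal A := RingHom.ker (th.comp ph)

instance : p.IsPrime := RingHom.ker_isPrime _

theorem two_D : (2 : D) = 0 := by
  rw [← map_ofNat (algebraMap (ZMod 2)[X] D) 2, ← map_ofNat (C : ZMod 2 →+* (ZMod 2)[X]) 2,
    show (2 : ZMod 2) = 0 by decide, map_zero, map_zero]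

theorem rad_eq : (p.map ph).radical = RingHom.ker th := by
  apply le_antisymm
  · rw [(RingHom.ker_isPrime th).radical_le_iff, Ideal.map_le_iff_le_comap, RingHom.comap_ker]
    exact le_rfl
  · intro b hb
    obtain ⟨a0, a1, e⟩ := dec b
    have hX : ph (algebraMap P A X) = algebraMap P A X ^ 2 := by
      rw [ph_al, ← map_pow]; simp [ph0]
    have e2 : b ^ 2 = ph (a0 ^ 2 + algebraMap P A X * a1 ^ 2) +
        ph 2 * (algebraMap P A X * ph a0 * ph a1) := by
      simp only [map_add, map_mul, map_pow, hX, map_ofNat]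
      rw [e]; ring
    have h2 : (2 : A) ∈ p := by
      rw [p, RingHom.mem_ker, map_ofNat, two_D]
    have h3 : a0 ^ 2 + algebraMap P A X * a1 ^ 2 ∈ p := by
      have := congrArg th e2
      rw [map_pow, (RingHom.mem_ker).1 hb, map_add, map_mul, map_ofNat, map_ofNat, two_D] at this
      rw [p, RingHom.mem_ker, RingHom.comp_apply]
      linear_combination -this
    refine ⟨2, ?_⟩
    rw [e2]
    exact Ideal.add_mem _ (Ideal.mem_map_of_mem _ h3)
      (Ideal.mul_mem_right _ _ (Ideal.mem_map_of_mem _ h2))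

theorem reg_B : IsRegularLocalRing (A ⧸ (p.map ph).radical) := by
  rw [rad_eq]
  exact IsRegularLocalRing.of_ringEquiv (RingHom.quotientKerEquivOfSurjective th_surj).symm

theorem coeff_one (g : P) : (th0 (ph0 g)).coeff 1 = 0 := by
  have h : ∀ g : P, ∃ c : ZMod 2, ∃ h, th0 (ph0 g) = C c + X ^ 2 * h := by
    intro g
    have h1 : ∀ a : ℤ[X], ∃ c : ZMod 2, ∃ h, th0 (ph0 (C a)) = C c + X ^ 2 * h := by
      intro a
      obtain ⟨q, hq⟩ := X_dvd_sub_C (p := a)
      refine ⟨(a.coeff 0 : ℤ), X * th0 (ph0 (C q)), ?_⟩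
      conv_lhs => rw [eq_add_of_sub_eq hq]
      have e1 : th0 (ph0 (C X)) = X ^ 3 := by simp [th0, ph0]
      rw [map_add, map_add, map_add, map_mul, map_mul, map_mul, e1, eq_intCast (C : ℤ →+* ℤ[X]),
        map_intCast, map_intCast, map_intCast, map_intCast]
      ring
    obtain ⟨q, hq⟩ := X_dvd_sub_C (p := g)
    obtain ⟨c, h, e⟩ := h1 (g.coeff 0)
    refine ⟨c, h + th0 (ph0 q), ?_⟩
    rw [eq_add_of_sub_eq hq, map_add, map_add, e, map_mul, map_mul]
    have : th0 (ph0 X) = X ^ 2 := by simp [th0, ph0]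
    rw [this]; ring
  obtain ⟨c, h, e⟩ := h g
  rw [e, coeff_add, coeff_C, X_pow_mul, coeff_mul_X_pow']
  simp

theorem sq_dvd (a : A) (ha : ¬ IsUnit a) : algebraMap (ZMod 2)[X] D X ^ 2 ∣ th (ph a) := by
  obtain ⟨⟨g, s⟩, h⟩ := IsLocalization.surj m.primeCompl a
  have hg : g ∈ m := by
    by_contra hg
    exact ha (isUnit_of_mul_isUnit_left (h ▸ IsLocalization.map_units A (⟨g, hg⟩ : m.primeCompl)))
  have h1 : X ^ 2 ∣ th0 (ph0 g) := by
    rw [X_pow_dvd_iff]
    intro d hd
    interval_cases d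
    · rw [m_comap] at hg
      exact hg
    · exact coeff_one g
  have hu : IsUnit (th (ph (algebraMap P A s))) := ((IsLocalization.map_units A s).map _).map _
  rw [← hu.dvd_mul_right, ← map_mul, ← map_mul, h, ph_al, th_al, ← map_pow]
  exact map_dvd _ h1

theorem not_reg : ¬ IsRegularLocalRing (A ⧸ p) := by
  intro hreg
  have : Ring.DimensionLEOne D := Ring.DimensionLEOne.localization D n.primeCompl_le_nonZeroDivisors
  let f : A ⧸ p →+* D := RingHom.kerLift (th.comp ph)
  have hf : Function.Injective f := RingHom.kerLift_injective _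
  have hfm : ∀ a, f (Ideal.Quotient.mk p a) = th (ph a) := fun a => rfl
  have hi : f.IsIntegral := by
    refine (finite_of_dec f (th (algebraMap P A X)) fun d => ?_).to_isIntegral
    obtain ⟨b, rfl⟩ := th_surj d
    obtain ⟨a0, a1, rfl⟩ := dec b
    exact ⟨Ideal.Quotient.mk p a0, Ideal.Quotient.mk p a1, by rw [hfm, hfm, map_add, map_mul]⟩
  obtain ⟨g, hg⟩ := principal_of_regular f hf hi
  set t := algebraMap (ZMod 2)[X] D X with ht
  have htu : ¬ IsUnit t := by
    rw [ht, IsLocalization.AtPrime.isUnit_to_map_iff D n]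
    simp [n]
  have ht0 : t ≠ 0 := by
    intro h0
    exact X_ne_zero (IsLocalization.injective D n.primeCompl_le_nonZeroDivisors
      (h0.trans (map_zero _).symm))
  have hsq : ∀ c : A ⧸ p, ¬ IsUnit c → t ^ 2 ∣ f c := by
    intro c hc
    obtain ⟨a, rfl⟩ := Ideal.Quotient.mk_surjective c
    exact sq_dvd a fun ha => hc (ha.map _)
  have e2 : f (Ideal.Quotient.mk p (algebraMap P A X)) = t ^ 2 := by
    rw [hfm, ph_al, th_al, ht, ← map_pow]; simp [th0, ph0]
  have e3 : f (Ideal.Quotient.mk p (algebraMap P A (C X))) = t ^ 3 := by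
    rw [hfm, ph_al, th_al, ht, ← map_pow]; simp [th0, ph0]
  have hmem : ∀ c k, f c = t ^ (k + 1) → ∃ a, a * g = c := by
    intro c k hc
    have : c ∈ IsLocalRing.maximalIdeal (A ⧸ p) := fun hu =>
      htu (isUnit_pow_succ_iff.1 (hc ▸ hu.map f))
    rw [hg] at this
    exact Ideal.mem_span_singleton'.1 this
  obtain ⟨a, ha⟩ := hmem _ 1 e2
  obtain ⟨b, hb⟩ := hmem _ 2 e3
  have hgn : ¬ IsUnit g := by
    have : g ∈ IsLocalRing.maximalIdeal (A ⧸ p) := by
      rw [hg]; exact Submodule.mem_span_singleton_self g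
    exact this
  obtain ⟨g', hg'⟩ := hsq g hgn
  rw [← ha, map_mul, hg'] at e2
  rw [← hb, map_mul, hg'] at e3
  have ht2 : t ^ 2 ≠ 0 := pow_ne_zero _ ht0
  have a1 : f a * g' = 1 := mul_left_cancel₀ ht2 (by linear_combination e2)
  have a2 : f b * g' = t := mul_left_cancel₀ ht2 (by linear_combination e3)
  have hbn : ¬ IsUnit b := fun hu =>
    htu (a2 ▸ (hu.map f).mul (IsUnit.of_mul_eq_one_right _ a1))
  obtain ⟨b', hb'⟩ := hsq b hbn
  rw [hb'] at a2
  exact htu (IsUnit.of_mul_eq_one (b' * g') (mul_left_cancel₀ ht0 (by linear_combination a2)))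

instance : CharZero A :=
  charZero_of_injective_ringHom (f := algebraMap P A)
    (IsLocalization.injective A m.primeCompl_le_nonZeroDivisors)

end Pool.Agent.H66.RegDesc
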