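import Mathlib

/-! Plain complexity relative to an oracle and conditional on a number. -/

namespace Pool.Agent.H66.Rt

/-- an oracle machine: a computable map (oracle prefix, program) ↦ output, monotone in the prefix -/
def OM (Φ : List Bool → List Bool → Option (List Bool)) : Prop :=
  Computable₂ Φ ∧ ∀ σ τ p v, σ <+: τ → Φ σ p = some v → Φ τ p = some v

open Classical in
def Run (Φ : List Bool → List Bool → Option (List Bool)) (X : Set ℕ) (p s : List Bool) : Prop :=
  ∃ k, Φ ((List.range k).map fun i => decide (i ∈ X)) p = some s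

/-- universal oracle machine -/
def UnivO (Φ : List Bool → List Bool → Option (List Bool)) : Prop :=
  OM Φ ∧ ∀ Ψ, OM Ψ → ∃ c : ℕ, ∀ X p s, Run Ψ X p s → ∃ q, q.length ≤ p.length + c ∧ Run Φ X q s

/-- universal machine for conditional complexity -/
def UnivC (V : List Bool × ℕ →. List Bool) : Prop :=
  Partrec V ∧ ∀ M : List Bool × ℕ →. List Bool, Partrec M → ∃ c : ℕ,
    ∀ p n s, s ∈ M (p, n) → ∃ q : List Bool, q.length ≤ p.length + c ∧ s ∈ V (q, n)

noncomputable def CO (Φ : List Bool → List Bool → Option (List Bool)) (X : Set ℕ) (s : List Bool) :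
    ℕ∞ := ⨅ q, ⨅ _ : Run Φ X q s, q.length

noncomputable def CC (V : List Bool × ℕ →. List Bool) (s : List Bool) (n : ℕ) : ℕ∞ :=
  ⨅ q, ⨅ _ : s ∈ V (q, n), q.length

def RT (A : Set ℕ) : Set (Set ℕ) := {X | X.Infinite ∧ (X ⊆ A ∨ X ⊆ Aᶜ)}

end Pool.Agent.H66.Rt
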