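import Mathlib

set_option autoImplicit false

namespace Pool.Agent.H66.Scl

open Polynomial

def scl {S : Type*} [CommSemiring S] (I : Ideal S) : Ideal S where
  carrier := {h | ∃ i ∈ I, h + i ∈ I}
  add_mem' := by
    rintro a b ⟨i, hi, h1⟩ ⟨j, hj, h2⟩
    exact ⟨i + j, I.add_mem hi hj, by rw [add_add_add_comm]; exact I.add_mem h1 h2⟩
  zero_mem' := ⟨0, I.zero_mem, by simp⟩
  smul_mem' := by
    rintro c a ⟨i, hi, h1⟩
    exact ⟨c * i, I.mul_mem_left c hi, by rw [smul_eq_mul, ← mul_add]; exact I.mul_mem_left c h1⟩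

theorem parity (a : ℕ[X]) (ha : a ≠ 0) (h : eval₂ (Nat.castRingHom ℤ) (-1) a = 0) :
    (∃ i, Even i ∧ a.coeff i ≠ 0) ∧ ∃ i, Odd i ∧ a.coeff i ≠ 0 := by
  rw [eval₂_eq_sum, Polynomial.sum] at h
  obtain ⟨n, hn⟩ := support_nonempty.2 ha
  constructor
  · by_contra hc
    push Not at hc
    refine absurd h (ne_of_lt (Finset.sum_neg (fun i hi => ?_) ⟨n, hn⟩))
    have hi' := mem_support_iff.1 hi
    have : Odd i := Nat.not_even_iff_odd.1 fun he => hi' (hc i he)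
    simpa [this.neg_one_pow] using Nat.pos_of_ne_zero hi'
  · by_contra hc
    push Not at hc
    refine absurd h (ne_of_gt (Finset.sum_pos (fun i hi => ?_) ⟨n, hn⟩))
    have hi' := mem_support_iff.1 hi
    have : Even i := Nat.not_odd_iff_even.1 fun he => hi' (hc i he)
    simpa [this.neg_one_pow] using Nat.pos_of_ne_zero hi'

theorem coeff_mul_ne (a b : ℕ[X]) (i j : ℕ) (hi : a.coeff i ≠ 0) (hj : b.coeff j ≠ 0) :
    (a * b).coeff (i + j) ≠ 0 := by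
  rw [coeff_mul]
  intro h
  exact mul_ne_zero hi hj (Finset.sum_eq_zero_iff.1 h (i, j) (by simp))

def Q (g : ℕ[X]) : Prop := g = 0 ∨ ∃ n, n ≠ 0 ∧ n ≠ 1 ∧ n ≠ 4 ∧ g.coeff n ≠ 0

theorem Q_mul (a b : ℕ[X]) (ha : eval₂ (Nat.castRingHom ℤ) (-1) a = 0)
    (hb : eval₂ (Nat.castRingHom ℤ) (-1) b = 0) : Q (a * b) := by
  by_cases h1 : a = 0
  · exact Or.inl (by simp [h1])
  by_cases h2 : b = 0
  · exact Or.inl (by simp [h2])
  obtain ⟨⟨e, ⟨e1, rfl⟩, he⟩, o, ⟨o1, rfl⟩, ho⟩ := parity a h1 ha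
  obtain ⟨⟨e', ⟨e2, rfl⟩, he'⟩, o', ⟨o2, rfl⟩, ho'⟩ := parity b h2 hb
  right
  by_contra hc
  push Not at hc
  have key : ∀ n, (a * b).coeff n ≠ 0 → n = 0 ∨ n = 1 ∨ n = 4 := by
    intro n hn
    by_contra h3
    push Not at h3
    exact hn (hc n h3.1 h3.2.1 h3.2.2)
  have a1 := key _ (coeff_mul_ne a b _ _ ho ho')
  have a2 := key _ (coeff_mul_ne a b _ _ he ho')
  have a3 := key _ (coeff_mul_ne a b _ _ ho he')
  omega

theorem Q_add (a b : ℕ[X]) (ha : Q a) (hb : Q b) : Q (a + b) := by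
  rcases ha with rfl | ⟨n, h0, h1, h4, h⟩
  · rwa [zero_add]
  · exact Or.inr ⟨n, h0, h1, h4, by rw [coeff_add]; omega⟩

abbrev S : Type := MvPolynomial (Fin 3) ℕ

noncomputable def psi : S →+* ℕ[X] := MvPolynomial.eval₂Hom C fun _ => X

noncomputable def I : Ideal S := Ideal.span {MvPolynomial.X 0 + 1}

theorem ev_I (h : S) (hh : h ∈ scl I) : eval₂ (Nat.castRingHom ℤ) (-1) (psi h) = 0 := by
  have h1 : ∀ i ∈ I, eval₂ (Nat.castRingHom ℤ) (-1) (psi i) = 0 := by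
    intro i hi
    obtain ⟨c, rfl⟩ := Ideal.mem_span_singleton'.1 hi
    simp [psi, eval₂_mul]
  obtain ⟨i, hi, h2⟩ := hh
  have := h1 _ h2
  rwa [map_add, eval₂_add, h1 i hi, add_zero] at this

theorem not_mem : (MvPolynomial.X 0 ^ 4 + 4 * MvPolynomial.X 0 + 3 : S) ∉ scl I * scl I := by
  intro h
  have h1 : Q (psi (MvPolynomial.X 0 ^ 4 + 4 * MvPolynomial.X 0 + 3)) := by
    refine Submodule.mul_induction_on h (fun a ha b hb => ?_) (fun a b ha hb => ?_)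
    · rw [map_mul]; exact Q_mul _ _ (ev_I a ha) (ev_I b hb)
    · rw [map_add]; exact Q_add _ _ ha hb
  have e : psi (MvPolynomial.X 0 ^ 4 + 4 * MvPolynomial.X 0 + 3) = X ^ 4 + C 4 * X + C 3 := by
    simp [psi, map_ofNat]
  rw [e] at h1
  rcases h1 with h1 | ⟨n, h0, h1, h4, h⟩
  · simpa using congrArg (fun p => coeff p 0) h1
  · rw [coeff_add, coeff_add, coeff_X_pow, coeff_C_mul, coeff_X, coeff_C, if_neg h4, if_neg h1.symm,
      if_neg h0] at h
    exact h rfl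

theorem mem : ∃ k ∈ I * I, (MvPolynomial.X 0 ^ 4 + 4 * MvPolynomial.X 0 + 3 : S) + k ∈ I * I := by
  have h : ((MvPolynomial.X 0 + 1) * (MvPolynomial.X 0 + 1) : S) ∈ I * I :=
    Ideal.mul_mem_mul (Ideal.mem_span_singleton_self _) (Ideal.mem_span_singleton_self _)
  refine ⟨_, Ideal.mul_mem_left _ (2 * MvPolynomial.X 0) h, ?_⟩
  convert Ideal.mul_mem_left _ (MvPolynomial.X 0 ^ 2 + 3) h using 1
  ring

end Pool.Agent.H66.Scl
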