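import Pool.Agent.H38.NP.Defs

/-! The counting class #P and #P-hardness. -/

namespace Pool.Agent.H66.Sharp

open Pool.Agent.H38.NP

/-- The class #P: `F x` counts the certificates of a fixed polynomial length that are accepted by
a polynomial-time checker. -/
def SharpP (F : List Bool → ℕ) : Prop :=
  ∃ R, InP R ∧ ∃ p : Polynomial ℕ, ∀ x,
    F x = Nat.card {w : List Bool // w.length = p.eval x.length ∧ pair x w ∈ R}

/-- The function `G`, restricted to inputs in the class `C`, is #P-hard: every function in #P is
computed in polynomial time from the values of `G` at a list of members of `C` which is itself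
computed in polynomial time (non-adaptive polynomial-time Turing reductions). -/
def SharpHardOn {α β : Type} [Enc α] [Enc β] (C : α → Prop) (G : α → β) : Prop :=
  ∀ F, SharpP F → ∃ q h, PolyTime q ∧ PolyTime h ∧ ∀ x, ∃ l : List α, q x = enc l ∧
    (∀ a ∈ l, C a) ∧ h (pair x (enc (l.map G))) = enc (Bin.mk (F x))

/-- The function `G`, restricted to inputs in the class `C`, belongs to #P. -/
def SharpPOn {α : Type} [Enc α] (C : α → Prop) (G : α → ℕ) : Prop :=
  ∃ F, SharpP F ∧ ∀ a, C a → F (enc a) = G a

end Pool.Agent.H66.Sharp
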