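import Pool.Agent.H66.Sharp1
import Pool.Agent.H66.SharpDefs

/-! A parsimonious Cook-Levin theorem. -/

namespace Pool.Agent.H66.Sharp

open Function Pool.Agent.H38.NP

abbrev GC := List Lit × List Lit

def ok (u : List Bool) (g : GC) : Bool := g.1.all fun l => u.getD l.1 false == l.2

def act (u : List Bool) (G : List GC) : CNF ℕ := (G.filter (ok u)).map Prod.snd

theorem mem_act {u G C} : C ∈ act u G ↔ ∃ g ∈ G, ok u g = true ∧ g.2 = C := by
  simp only [act, List.mem_map, List.mem_filter, and_assoc]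

def rn (C : List ((ℕ × ℕ × ℕ) × Bool)) : List Lit :=
  C.map fun l => (Nat.pair l.1.1 (Nat.pair l.1.2.1 l.1.2.2), l.2)

def gbuild (TT IC I0 I1 IB FIN : List (List (TL ℕ))) (L T N : ℕ) : List GC :=
  (List.range T).flatMap (fun t => (List.range N).flatMap fun i =>
    TT.map fun C => ([], rn (inst t i C))) ++
  ((List.range N).flatMap (fun i => IC.map (fun C => ([], rn (inst 0 i C))) ++
    cond (decide (i < L)) (I0.map (fun C => ([(i, false)], rn (inst 0 i C))) ++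
      I1.map (fun C => ([(i, true)], rn (inst 0 i C)))) (IB.map fun C => ([], rn (inst 0 i C)))) ++
  FIN.map fun C => ([], rn (inst T 0 C)))

theorem mem_gbuild {TT IC I0 I1 IB FIN L T N g} : g ∈ gbuild TT IC I0 I1 IB FIN L T N ↔
    (∃ t < T, ∃ i < N, ∃ C ∈ TT, ([], rn (inst t i C)) = g) ∨
    (∃ i < N, (∃ C ∈ IC, ([], rn (inst 0 i C)) = g) ∨
      (i < L ∧ ((∃ C ∈ I0, ([(i, false)], rn (inst 0 i C)) = g) ∨
        (∃ C ∈ I1, ([(i, true)], rn (inst 0 i C)) = g))) ∨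
      (¬ i < L ∧ ∃ C ∈ IB, ([], rn (inst 0 i C)) = g)) ∨
    (∃ C ∈ FIN, ([], rn (inst T 0 C)) = g) := by
  simp only [gbuild, List.mem_append, List.mem_flatMap, List.mem_range, List.mem_map]
  refine or_congr Iff.rfl (or_congr (exists_congr fun i => and_congr Iff.rfl
    (or_congr Iff.rfl ?_)) Iff.rfl)
  by_cases h : i < L <;> simp [h]

theorem horn_rn {t i} {C : List (TL ℕ)} (h : HornT C) : Horn (rn (inst t i C)) := by
  intro l hl l' hl' e e'
  simp only [rn, inst, List.map_map, List.mem_map, Function.comp] at hl hl'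
  obtain ⟨l0, h0, rfl⟩ := hl
  obtain ⟨l1, h1, rfl⟩ := hl'
  rw [h l0 h0 l1 h1 e e']

theorem horn_cook {f : List Bool → List Bool} (hf : PolyTime f) :
    ∃ g : ℕ → List GC, PT g ∧ (∀ L, ∀ c ∈ g L, Horn c.2 ∧ ∀ l ∈ c.1, l.1 < L) ∧
      ∀ u, (Sat (act u (g u.length)) ↔ f u = [true]) := by
  obtain ⟨TT, IC, I0, I1, IW, IB, FIN, D, τ, hH, h⟩ := tableauN hf
  refine ⟨fun L => gbuild TT IC I0 I1 IB FIN L (τ.eval L) (τ.eval L * D + (L + 2)), ?_, ?_, ?_⟩
  · have hT : PT fun L : ℕ => τ.eval L := PT.polyEval τ PT.id'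
    have : PT fun p : ℕ × ℕ × ℕ => gbuild TT IC I0 I1 IB FIN p.1 p.2.1 p.2.2 := by
      unfold gbuild rn inst; fun_prop
    exact this.comp (g := fun L : ℕ => (L, τ.eval L, τ.eval L * D + (L + 2)))
      (PT.mk PT.id' (PT.mk hT ((hT.mul (PT.const D)).add (by fun_prop))))
  · intro L c hc
    rcases mem_gbuild.1 hc with ⟨t, -, i, -, C, hC, rfl⟩ | ⟨i, -, ⟨C, hC, rfl⟩ |
      ⟨hi, ⟨C, hC, rfl⟩ | ⟨C, hC, rfl⟩⟩ | ⟨-, C, hC, rfl⟩⟩ | ⟨C, hC, rfl⟩ <;>
      exact ⟨horn_rn (hH C (by simp [hC])), by simp [*]⟩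
  · intro u
    have h1 := h u 0
    simp only [Nat.add_zero, Nat.le_zero, List.length_eq_zero_iff, exists_eq_left,
      List.append_nil] at h1
    rw [← h1, ← sat_ren (fun v : ℕ × ℕ × ℕ => Nat.pair v.1 (Nat.pair v.2.1 v.2.2)) _
      (fun n => (n.unpair.1, n.unpair.2.unpair.1, n.unpair.2.unpair.2)) (by simp)]
    have key : ∀ C, C ∈ act u (gbuild TT IC I0 I1 IB FIN u.length (τ.eval u.length)
        (τ.eval u.length * D + (u.length + 2))) ↔ C ∈ ren
        (fun v : ℕ × ℕ × ℕ => Nat.pair v.1 (Nat.pair v.2.1 v.2.2))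
        (build TT IC I0 I1 IW IB FIN u 0 (τ.eval u.length)
          (τ.eval u.length * D + (u.length + 2))) := by
      intro C
      rw [mem_act]
      simp only [ren, List.mem_map, mem_build]
      constructor
      · rintro ⟨g, hg, ho, rfl⟩
        rcases mem_gbuild.1 hg with ⟨t, ht, i, hi, C, hC, rfl⟩ | ⟨i, hi, ⟨C, hC, rfl⟩ |
          ⟨hi', ⟨C, hC, rfl⟩ | ⟨C, hC, rfl⟩⟩ | ⟨hi', C, hC, rfl⟩⟩ | ⟨C, hC, rfl⟩
        · exact ⟨_, Or.inl ⟨t, ht, i, hi, C, hC, rfl⟩, rfl⟩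
        · exact ⟨_, Or.inr (Or.inl ⟨i, hi, C, Or.inl hC, rfl⟩), rfl⟩
        · refine ⟨_, Or.inr (Or.inl ⟨i, hi, C, Or.inr ?_, rfl⟩), rfl⟩
          have : u.getD i false = false := by simpa [ok] using ho
          simp only [sel, hi', decide_true, cond_true, this, cond_false, hC]
        · refine ⟨_, Or.inr (Or.inl ⟨i, hi, C, Or.inr ?_, rfl⟩), rfl⟩
          have : u.getD i false = true := by simpa [ok] using ho
          simp only [sel, hi', decide_true, cond_true, this, hC]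
        · refine ⟨_, Or.inr (Or.inl ⟨i, hi, C, Or.inr ?_, rfl⟩), rfl⟩
          simp only [sel, hi', decide_false, cond_false, Nat.add_zero, hC]
        · exact ⟨_, Or.inr (Or.inr ⟨C, hC, rfl⟩), rfl⟩
      · rintro ⟨_, ⟨t, ht, i, hi, C, hC, rfl⟩ | ⟨i, hi, C, hC | hC, rfl⟩ | ⟨C, hC, rfl⟩, rfl⟩
        · exact ⟨_, mem_gbuild.2 (Or.inl ⟨t, ht, i, hi, C, hC, rfl⟩), rfl, rfl⟩
        · exact ⟨_, mem_gbuild.2 (Or.inr (Or.inl ⟨i, hi, Or.inl ⟨C, hC, rfl⟩⟩)), rfl, rfl⟩
        · by_cases hi' : i < u.length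
          · cases hu : u.getD i false
            · simp only [sel, hi', decide_true, cond_true, hu, cond_false] at hC
              exact ⟨_, mem_gbuild.2 (Or.inr (Or.inl ⟨i, hi, Or.inr (Or.inl
                ⟨hi', Or.inl ⟨C, hC, rfl⟩⟩)⟩)), by simpa [ok] using hu, rfl⟩
            · simp only [sel, hi', decide_true, cond_true, hu] at hC
              exact ⟨_, mem_gbuild.2 (Or.inr (Or.inl ⟨i, hi, Or.inr (Or.inl
                ⟨hi', Or.inr ⟨C, hC, rfl⟩⟩)⟩)), by simpa [ok] using hu, rfl⟩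
          · simp only [sel, hi', decide_false, cond_false, Nat.add_zero] at hC
            exact ⟨_, mem_gbuild.2 (Or.inr (Or.inl ⟨i, hi, Or.inr (Or.inr
              ⟨hi', C, hC, rfl⟩)⟩)), rfl, rfl⟩
        · exact ⟨_, mem_gbuild.2 (Or.inr (Or.inr ⟨C, hC, rfl⟩)), rfl, rfl⟩
    unfold Sat
    simp only [key]

/-- stages of forward chaining -/
def stg (φ : CNF ℕ) : ℕ → Set ℕ
  | 0 => ∅
  | r + 1 => {v | ∃ C ∈ φ, (v, true) ∈ C ∧ ∀ u, (u, false) ∈ C → u ∈ stg φ r}

theorem stg_mono (φ : CNF ℕ) (r : ℕ) : stg φ r ⊆ stg φ (r + 1) := by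
  induction r with
  | zero => exact Set.empty_subset _
  | succ r ih => rintro v ⟨C, hC, h1, h2⟩; exact ⟨C, hC, h1, fun u hu => ih (h2 u hu)⟩

theorem stg_stab (φ : CNF ℕ) (nv : ℕ) (hb : ∀ C ∈ φ, ∀ l ∈ C, l.1 < nv) :
    stg φ nv = stg φ (nv + 1) := by
  have hs : ∀ r, stg φ r ⊆ Set.Iio nv := by
    intro r v hv
    cases r with
    | zero => exact hv.elim
    | succ r => obtain ⟨C, hC, h1, -⟩ := hv; exact hb C hC _ h1
  have hf : ∀ r, (stg φ r).Finite := fun r => (Set.finite_Iio nv).subset (hs r)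
  have key : ∀ r, stg φ r = stg φ (r + 1) ∨ r + 1 ≤ (stg φ (r + 1)).ncard := by
    intro r
    induction r with
    | zero =>
      by_cases h : stg φ 0 = stg φ 1
      · exact Or.inl h
      · exact Or.inr (Set.ncard_lt_ncard ((stg_mono φ 0).ssubset_of_ne h) (hf 1) |>.trans_le' (Nat.zero_le _))
    | succ r ih =>
      rcases ih with ih | ih
      · left; rw [stg, stg, ← ih, ih]
      · by_cases h : stg φ (r + 1) = stg φ (r + 2)
        · exact Or.inl h
        · exact Or.inr (lt_of_le_of_lt ih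
            (Set.ncard_lt_ncard ((stg_mono φ _).ssubset_of_ne h) (hf _)))
  rcases key nv with h | h
  · exact h
  · have := Set.ncard_le_ncard (hs (nv + 1)) (Set.finite_Iio nv)
    rw [Set.ncard_Iio_nat] at this
    omega

theorem lfp (φ : CNF ℕ) (nv : ℕ) (hb : ∀ C ∈ φ, ∀ l ∈ C, l.1 < nv) (hH : ∀ C ∈ φ, Horn C) :
    Sat φ ↔ ∀ C ∈ φ, (∀ l ∈ C, l.2 = false) → ¬ ∀ u, (u, false) ∈ C → u ∈ stg φ nv := by
  classical
  constructor
  · rintro ⟨a, ha⟩
    have key : ∀ r, ∀ v ∈ stg φ r, a v = true := by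
      intro r
      induction r with
      | zero => exact fun v hv => hv.elim
      | succ r ih =>
        rintro v ⟨C, hC, h1, h2⟩
        obtain ⟨⟨u, s⟩, hl, e⟩ := ha C hC
        cases s
        · rw [ih u (h2 u hl)] at e; cases e
        · have := hH C hC _ hl _ h1 rfl rfl
          cases this; exact e
    intro C hC hn h
    obtain ⟨⟨u, s⟩, hl, e⟩ := ha C hC
    have := hn _ hl
    simp only at this e
    subst this
    rw [key nv u (h u hl)] at e; cases e
  · intro h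
    refine ⟨fun v => decide (v ∈ stg φ nv), fun C hC => ?_⟩
    by_cases h1 : ∀ u, (u, false) ∈ C → u ∈ stg φ nv
    · have : ¬ ∀ l ∈ C, l.2 = false := fun hn => h C hC hn h1
      push Not at this
      obtain ⟨⟨v, s⟩, hl, e⟩ := this
      have : s = true := by simpa using e
      subst this
      refine ⟨_, hl, ?_⟩
      simp only [decide_eq_true_eq]
      rw [stg_stab φ nv hb]
      exact ⟨C, hC, hl, h1⟩
    · push Not at h1
      obtain ⟨u, hu, h2⟩ := h1
      exact ⟨_, hu, by simpa using h2⟩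

def andG (g : Lit × List Lit) : CNF ℕ :=
  (g.1 :: g.2.map fun l => (l.1, !l.2)) :: g.2.map fun l => [(g.1.1, !g.1.2), l]

theorem andG_spec (a : ℕ → Bool) (Γ : List (Lit × List Lit)) :
    (∀ C ∈ Γ.flatMap andG, ∃ l ∈ C, a l.1 = l.2) ↔
      ∀ g ∈ Γ, (a g.1.1 = g.1.2 ↔ ∀ l ∈ g.2, a l.1 = l.2) := by
  simp only [List.mem_flatMap, forall_exists_index, and_imp]
  have nb : ∀ x y : Bool, x = !y ↔ ¬ x = y := by decide
  constructor
  · intro h g hg
    constructor
    · intro e l hl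
      have := h _ g hg (List.mem_cons_of_mem _ (List.mem_map.2 ⟨l, hl, rfl⟩))
      simpa [nb, e] using this
    · intro e
      obtain ⟨l, hl, e'⟩ := h _ g hg List.mem_cons_self
      rcases List.mem_cons.1 hl with rfl | hl
      · exact e'
      · obtain ⟨l', hl', rfl⟩ := List.mem_map.1 hl
        exact absurd (e l' hl') ((nb _ _).1 e')
  · intro h C g hg hC
    rcases List.mem_cons.1 hC with rfl | hC
    · by_cases e : a g.1.1 = g.1.2
      · exact ⟨_, List.mem_cons_self, e⟩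
      · have := mt (h g hg).2 e
        push Not at this
        obtain ⟨l, hl, e'⟩ := this
        exact ⟨_, List.mem_cons_of_mem _ (List.mem_map.2 ⟨l, hl, rfl⟩), (nb _ _).2 e'⟩
    · obtain ⟨l, hl, rfl⟩ := List.mem_map.1 hC
      by_cases e : a g.1.1 = g.1.2
      · exact ⟨l, by simp, (h g hg).1 e l hl⟩
      · exact ⟨_, List.mem_cons_self, (nb _ _).2 e⟩

end Pool.Agent.H66.Sharp
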