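import Pool.Agent.H66.Sharp2

/-! A parsimonious Cook-Levin theorem, part 2. -/

namespace Pool.Agent.H66.Sharp

open Function Pool.Agent.H38.NP

/-- the number of satisfying assignments; variables from `n` on are false -/
def cnt (I : ℕ × CNF ℕ) : ℕ :=
  ((Finset.range I.1).powerset.filter fun S => ∀ C ∈ I.2, ∃ l ∈ C, decide (l.1 ∈ S) = l.2).card

def xv (L nv nc r v : ℕ) : ℕ := L + r * (nv + nc) + v
def bv (L nv nc r c : ℕ) : ℕ := L + r * (nv + nc) + (nv + c)

def gates (y : List Bool) (L : ℕ) (G : List GC) (nv : ℕ) : List (Lit × List Lit) :=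
  y.zipIdx.map (fun p => ((p.2, p.1), [])) ++
  ((List.range nv).map (fun v => ((xv L nv G.length 0 v, false), [])) ++
  ((List.range (nv + 1)).flatMap (fun r => G.zipIdx.map fun gc =>
    ((bv L nv G.length r gc.2, true), gc.1.1 ++ (gc.1.2.filter fun l => !l.2).map
      fun l => (xv L nv G.length r l.1, true))) ++
  ((List.range nv).flatMap (fun r => (List.range nv).map fun v =>
    ((xv L nv G.length (r + 1) v, false),
      (G.zipIdx.filter fun gc => decide ((v, true) ∈ gc.1.2)).map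
        fun gc => (bv L nv G.length r gc.2, false))) ++
  (G.zipIdx.filter fun gc => gc.1.2.all fun l => !l.2).map
    fun gc => ((bv L nv G.length nv gc.2, false), []))))

theorem pt_gates : PT fun p : List Bool × ℕ × List GC × ℕ => gates p.1 p.2.1 p.2.2.1 p.2.2.2 := by
  unfold gates xv bv; fun_prop

def GS (y : List Bool) (L : ℕ) (G : List GC) (nv : ℕ) (a : ℕ → Bool) : Prop :=
  (∀ i b, y[i]? = some b → a i = b) ∧ (∀ v < nv, a (xv L nv G.length 0 v) = false) ∧
  (∀ r ≤ nv, ∀ c g, G[c]? = some g → (a (bv L nv G.length r c) = true ↔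
    (∀ l ∈ g.1, a l.1 = l.2) ∧ ∀ v, (v, false) ∈ g.2 → a (xv L nv G.length r v) = true)) ∧
  (∀ r < nv, ∀ v < nv, (a (xv L nv G.length (r + 1) v) = false ↔
    ∀ c g, G[c]? = some g → (v, true) ∈ g.2 → a (bv L nv G.length r c) = false)) ∧
  (∀ c g, G[c]? = some g → (∀ l ∈ g.2, l.2 = false) → a (bv L nv G.length nv c) = false)

theorem gates_spec (y L G nv) (a : ℕ → Bool) :
    (∀ g ∈ gates y L G nv, (a g.1.1 = g.1.2 ↔ ∀ l ∈ g.2, a l.1 = l.2)) ↔ GS y L G nv a := by
  have e1 : ∀ (C : List Lit) (x : ℕ → ℕ), (∀ l ∈ (C.filter fun l => !l.2).map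
      fun l => (x l.1, true), a l.1 = l.2) ↔ ∀ v, (v, false) ∈ C → a (x v) = true := by
    intro C x
    simp only [List.forall_mem_map, List.forall_mem_filter, Prod.forall, Bool.not_eq_true']
    exact ⟨fun h v hv => h v false hv rfl, fun h v s hv e => h v (e ▸ hv)⟩
  have e2 : ∀ (v : ℕ) (x : ℕ → ℕ), (∀ l ∈ (G.zipIdx.filter fun gc : GC × ℕ =>
      decide ((v, true) ∈ gc.1.2)).map fun gc => (x gc.2, false), a l.1 = l.2) ↔
      ∀ c g, G[c]? = some g → (v, true) ∈ g.2 → a (x c) = false := by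
    intro v x
    simp only [List.forall_mem_map, List.forall_mem_filter, decide_eq_true_eq]
    exact ⟨fun h c g e => h (g, c) (List.mem_zipIdx_iff_getElem?.2 e),
      fun h p e => h p.2 p.1 (List.mem_zipIdx_iff_getElem?.1 e)⟩
  unfold gates GS
  rw [List.forall_mem_append, List.forall_mem_append, List.forall_mem_append,
    List.forall_mem_append, List.forall_mem_map, List.forall_mem_map, List.forall_mem_flatMap,
    List.forall_mem_flatMap, List.forall_mem_map]
  refine and_congr ?_ (and_congr (by simp) (and_congr ?_ (and_congr ?_ ?_)))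
  · simp only [List.not_mem_nil, IsEmpty.forall_iff, implies_true, iff_true]
    exact ⟨fun h i b e => h (b, i) (List.mem_zipIdx_iff_getElem?.2 e),
      fun h p e => h p.2 p.1 (List.mem_zipIdx_iff_getElem?.1 e)⟩
  · refine forall_congr' fun r => imp_congr (by simp [Nat.lt_succ_iff]) ?_
    rw [List.forall_mem_map]
    simp only [List.forall_mem_append, e1 _ (xv L nv G.length r)]
    exact ⟨fun h c g e => h (g, c) (List.mem_zipIdx_iff_getElem?.2 e),
      fun h p e => h p.2 p.1 (List.mem_zipIdx_iff_getElem?.1 e)⟩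
  · refine forall_congr' fun r => imp_congr (by simp) ?_
    rw [List.forall_mem_map]
    simp only [e2 _ (bv L nv G.length r), List.mem_range]
  · simp only [List.not_mem_nil, IsEmpty.forall_iff, implies_true, iff_true,
      List.forall_mem_filter, List.all_eq_true, Bool.not_eq_true']
    exact ⟨fun h c g e => h (g, c) (List.mem_zipIdx_iff_getElem?.2 e),
      fun h p e => h p.2 p.1 (List.mem_zipIdx_iff_getElem?.1 e)⟩

def Good (L : ℕ) (G : List GC) (nv : ℕ) (u : List Bool) (a : ℕ → Bool) : Prop :=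
  (∀ i < L, a i = u.getD i false) ∧ ∀ r ≤ nv,
    (∀ v < nv, (a (xv L nv G.length r v) = true ↔ v ∈ stg (act u G) r)) ∧
    ∀ c g, G[c]? = some g → (a (bv L nv G.length r c) = true ↔
      ok u g = true ∧ ∀ v, (v, false) ∈ g.2 → v ∈ stg (act u G) r)

section
variable {y : List Bool} {L : ℕ} {G : List GC} {nv : ℕ}
  (hg : ∀ g ∈ G, ∀ l ∈ g.1, l.1 < L) (hb : ∀ g ∈ G, ∀ l ∈ g.2, l.1 < nv)
  (hH : ∀ g ∈ G, Horn g.2) {u : List Bool} {a : ℕ → Bool}

include hg in
theorem ok_iff (hu : ∀ i < L, a i = u.getD i false) {g : GC} (h : g ∈ G) :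
    ok u g = true ↔ ∀ l ∈ g.1, a l.1 = l.2 := by
  simp only [ok, List.all_eq_true, beq_iff_eq]
  exact forall₂_congr fun l hl => by rw [hu _ (hg g h l hl)]

theorem stg_succ {r v} : v ∈ stg (act u G) (r + 1) ↔ ∃ (c : ℕ) (g : GC), G[c]? = some g ∧ (v, true) ∈ g.2 ∧
    ok u g = true ∧ ∀ w, (w, false) ∈ g.2 → w ∈ stg (act u G) r := by
  constructor
  · rintro ⟨C, hC, h1, h2⟩
    obtain ⟨g, hg, ho, rfl⟩ := mem_act.1 hC
    obtain ⟨c, hc⟩ := List.mem_iff_getElem?.1 hg
    exact ⟨c, g, hc, h1, ho, h2⟩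
  · rintro ⟨c, g, hc, h1, ho, h2⟩
    exact ⟨g.2, mem_act.2 ⟨g, List.mem_of_getElem? hc, ho, rfl⟩, h1, h2⟩

include hb hH in
theorem sat_iff : Sat (act u G) ↔ ∀ (c : ℕ) (g : GC), G[c]? = some g → (∀ l ∈ g.2, l.2 = false) →
    ¬ (ok u g = true ∧ ∀ v, (v, false) ∈ g.2 → v ∈ stg (act u G) nv) := by
  rw [lfp _ nv (fun C hC => by obtain ⟨g, hg, -, rfl⟩ := mem_act.1 hC; exact hb g hg)
    (fun C hC => by obtain ⟨g, hg, -, rfl⟩ := mem_act.1 hC; exact hH g hg)]
  constructor
  · rintro h c g hc hn ⟨ho, h2⟩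
    exact h _ (mem_act.2 ⟨g, List.mem_of_getElem? hc, ho, rfl⟩) hn h2
  · intro h C hC hn h2
    obtain ⟨g, hg, ho, rfl⟩ := mem_act.1 hC
    obtain ⟨c, hc⟩ := List.mem_iff_getElem?.1 hg
    exact h c g hc hn ⟨ho, h2⟩

include hg hb hH in
theorem gs_iff (hu : ∀ i < L, a i = u.getD i false) :
    GS y L G nv a ↔ (∀ i b, y[i]? = some b → a i = b) ∧ Good L G nv u a ∧ Sat (act u G) := by
  refine and_congr Iff.rfl ⟨fun ⟨h0, h1, h2, h3⟩ => ?_, fun ⟨⟨_, h⟩, hs⟩ => ⟨?_, ?_, ?_, ?_⟩⟩
  · have step : ∀ r ≤ nv, (∀ v < nv, (a (xv L nv G.length r v) = true ↔ v ∈ stg (act u G) r)) →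
        ∀ c g, G[c]? = some g → (a (bv L nv G.length r c) = true ↔
          ok u g = true ∧ ∀ v, (v, false) ∈ g.2 → v ∈ stg (act u G) r) := by
      intro r hr hx c g hc
      have hm := List.mem_of_getElem? hc
      rw [h1 r hr c g hc, ok_iff hg hu hm]
      exact and_congr Iff.rfl (forall₂_congr fun v hv => hx v (hb g hm _ hv))
    have hx : ∀ r ≤ nv, ∀ v < nv, (a (xv L nv G.length r v) = true ↔ v ∈ stg (act u G) r) := by
      intro r
      induction r with
      | zero => intro _ v hv; simp [h0 v hv, stg]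
      | succ r ih =>
        intro hr v hv
        rw [← not_iff_not, Bool.not_eq_true, h2 r hr v hv, stg_succ]
        push Not
        refine forall₄_congr fun c g hc hv => ?_
        rw [← Bool.not_eq_true, step r (by omega) (ih (by omega)) c g hc]
        push Not; rfl
    refine ⟨⟨hu, fun r hr => ⟨hx r hr, step r hr (hx r hr)⟩⟩, (sat_iff hb hH).2 fun c g hc hn => ?_⟩
    rw [← step nv le_rfl (hx nv le_rfl) c g hc, h3 c g hc hn]; simp
  · intro v hv
    rw [← Bool.not_eq_true, (h 0 (Nat.zero_le _)).1 v hv]; simp [stg]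
  · intro r hr c g hc
    have hm := List.mem_of_getElem? hc
    rw [(h r hr).2 c g hc, ok_iff hg hu hm]
    exact and_congr Iff.rfl (forall₂_congr fun v hv => ((h r hr).1 v (hb g hm _ hv)).symm)
  · intro r hr v hv
    rw [← Bool.not_eq_true, (h (r + 1) hr).1 v hv, stg_succ]
    push Not
    refine forall₄_congr fun c g hc hv => ?_
    rw [← Bool.not_eq_true, (h r hr.le).2 c g hc]
    push Not; rfl
  · intro c g hc hn
    rw [← Bool.not_eq_true, (h nv le_rfl).2 c g hc]
    exact (sat_iff hb hH).1 hs c g hc hn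

theorem forms {z : ℕ} (hz : z < L + (nv + 1) * (nv + G.length)) : z < L ∨
    (∃ r ≤ nv, ∃ v < nv, z = xv L nv G.length r v) ∨
    (∃ r ≤ nv, ∃ c < G.length, z = bv L nv G.length r c) := by
  by_cases h : z < L
  · exact Or.inl h
  right
  obtain ⟨k, rfl⟩ := Nat.exists_eq_add_of_le (not_lt.1 h)
  have hW : 0 < nv + G.length := by
    rcases Nat.eq_zero_or_pos (nv + G.length) with h0 | h0
    · rw [h0] at hz; omega
    · exact h0
  have h1 : k / (nv + G.length) ≤ nv :=
    Nat.lt_succ_iff.1 ((Nat.div_lt_iff_lt_mul hW).2 (Nat.lt_of_add_lt_add_left hz))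
  have h2 := Nat.mod_lt k hW
  have h3 := Nat.div_add_mod' k (nv + G.length)
  by_cases h4 : k % (nv + G.length) < nv
  · exact Or.inl ⟨_, h1, _, h4, by unfold xv; omega⟩
  · exact Or.inr ⟨_, h1, k % (nv + G.length) - nv, by omega, by unfold bv; omega⟩

theorem good_uniq {a' : ℕ → Bool} (h : Good L G nv u a) (h' : Good L G nv u a') {z : ℕ}
    (hz : z < L + (nv + 1) * (nv + G.length)) : a z = a' z := by
  rcases forms hz with h1 | ⟨r, hr, v, hv, rfl⟩ | ⟨r, hr, c, hc, rfl⟩
  · rw [h.1 z h1, h'.1 z h1]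
  · rw [Bool.eq_iff_iff, (h.2 r hr).1 v hv, (h'.2 r hr).1 v hv]
  · rw [Bool.eq_iff_iff, (h.2 r hr).2 c _ (List.getElem?_eq_getElem hc),
      (h'.2 r hr).2 c _ (List.getElem?_eq_getElem hc)]

theorem good_ex (L : ℕ) (G : List GC) (nv : ℕ) (u : List Bool) :
    ∃ S ⊆ Finset.range (L + (nv + 1) * (nv + G.length)), Good L G nv u fun z => decide (z ∈ S) := by
  classical
  let W := nv + G.length
  let P : ℕ → Prop := fun z => if z < L then u.getD z false = true else
    if (z - L) % W < nv then (z - L) % W ∈ stg (act u G) ((z - L) / W) else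
      ∃ g, G[(z - L) % W - nv]? = some g ∧ ok u g = true ∧
        ∀ v, (v, false) ∈ g.2 → v ∈ stg (act u G) ((z - L) / W)
  have dec : ∀ r ≤ nv, ∀ k < W, L + r * W + k < L + (nv + 1) * W ∧ ¬ L + r * W + k < L ∧
      (L + r * W + k - L) % W = k ∧ (L + r * W + k - L) / W = r := by
    intro r hr k hk
    have h1 : (r + 1) * W ≤ (nv + 1) * W := Nat.mul_le_mul_right _ (by omega)
    rw [Nat.succ_mul] at h1
    have h2 : L + r * W + k - L = k + r * W := by omega
    refine ⟨by omega, by omega, ?_, ?_⟩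
    · rw [h2, Nat.add_mul_mod_self_right, Nat.mod_eq_of_lt hk]
    · rw [h2, Nat.add_mul_div_right _ _ (by omega), Nat.div_eq_of_lt hk, Nat.zero_add]
  refine ⟨(Finset.range _).filter P, Finset.filter_subset _ _, fun i hi => ?_,
    fun r hr => ⟨fun v hv => ?_, fun c g hc => ?_⟩⟩
  · have : i < L + (nv + 1) * (nv + G.length) := by omega
    rw [Bool.eq_iff_iff]
    simp only [decide_eq_true_eq, Finset.mem_filter, Finset.mem_range, this, true_and, P, hi,
      if_true]
  · obtain ⟨d1, d2, d3, d4⟩ := dec r hr v (by omega)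
    simp only [decide_eq_true_eq, Finset.mem_filter, Finset.mem_range, xv]
    rw [and_iff_right d1]
    simp only [P]
    rw [if_neg d2, d3, d4, if_pos hv]
  · have hc' : c < G.length := (List.getElem?_eq_some_iff.1 hc).1
    obtain ⟨d1, d2, d3, d4⟩ := dec r hr (nv + c) (by omega)
    simp only [decide_eq_true_eq, Finset.mem_filter, Finset.mem_range, bv]
    rw [and_iff_right d1]
    simp only [P]
    rw [if_neg d2, d3, d4, if_neg (by omega), Nat.add_sub_cancel_left, hc]
    simp

include hg hb hH in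
theorem cnt_gates {q : ℕ} (hL : L = y.length + q) :
    cnt (L + (nv + 1) * (nv + G.length), (gates y L G nv).flatMap andG) =
      Nat.card {w : List Bool // w.length = q ∧ Sat (act (y ++ w) G)} := by
  classical
  unfold cnt
  rw [← Nat.card_eq_finsetCard]
  have spec : ∀ S : Finset ℕ, (∀ C ∈ (gates y L G nv).flatMap andG, ∃ l ∈ C,
      decide (l.1 ∈ S) = l.2) ↔ GS y L G nv fun z => decide (z ∈ S) := fun S =>
    (andG_spec (fun z => decide (z ∈ S)) _).trans (gates_spec y L G nv fun z => decide (z ∈ S))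
  let wv : Finset ℕ → List Bool := fun S => (List.range q).map fun j => decide (y.length + j ∈ S)
  have agree : ∀ S : Finset ℕ, (∀ i b, y[i]? = some b → decide (i ∈ S) = b) →
      ∀ i < L, decide (i ∈ S) = (y ++ wv S).getD i false := by
    intro S hS i hi
    by_cases h1 : i < y.length
    · rw [hS i _ (List.getElem?_eq_getElem h1), List.getD_eq_getElem?_getD,
        List.getElem?_append_left h1, List.getElem?_eq_getElem h1]; rfl
    · obtain ⟨j, rfl⟩ := Nat.exists_eq_add_of_le (not_lt.1 h1)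
      have : j < q := by omega
      simp [wv, List.getD_eq_getElem?_getD, List.getElem?_append_right, this]
  refine Nat.card_congr (Equiv.ofBijective (fun S => ⟨wv S.1, by simp [wv], ?_⟩) ⟨?_, ?_⟩)
  · have h := (spec _).1 (Finset.mem_filter.1 S.2).2
    exact ((gs_iff hg hb hH (agree _ h.1)).1 h).2.2
  · rintro ⟨S, hS⟩ ⟨S', hS'⟩ e
    have e' : wv S = wv S' := congrArg Subtype.val e
    rw [Finset.mem_filter, Finset.mem_powerset, spec] at hS hS'
    have g1 := ((gs_iff hg hb hH (agree _ hS.2.1)).1 hS.2).2.1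
    have g2 := ((gs_iff hg hb hH (agree _ hS'.2.1)).1 hS'.2).2.1
    rw [← e'] at g2
    refine Subtype.ext (Finset.ext fun z => ⟨fun hz => ?_, fun hz => ?_⟩)
    · simpa [hz] using good_uniq g1 g2 (Finset.mem_range.1 (hS.1 hz))
    · simpa [hz] using good_uniq g1 g2 (Finset.mem_range.1 (hS'.1 hz))
  · rintro ⟨w, hw, hs⟩
    obtain ⟨S, hS, hG⟩ := good_ex L G nv (y ++ w)
    refine ⟨⟨S, Finset.mem_filter.2 ⟨Finset.mem_powerset.2 hS, (spec S).2
      ((gs_iff hg hb hH hG.1).2 ⟨fun i b hi => ?_, hG, hs⟩)⟩⟩, Subtype.ext ?_⟩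
    · have h1 : i < y.length := (List.getElem?_eq_some_iff.1 hi).1
      refine (hG.1 i (by omega)).trans ?_
      rw [List.getD_eq_getElem?_getD, List.getElem?_append_left h1, hi]; rfl
    · change wv S = w
      refine List.ext_getElem (by simp [wv, hw]) fun j h1 h2 => ?_
      have := hG.1 (y.length + j) (by omega)
      simp only [List.getD_eq_getElem?_getD, List.getElem?_append_right (Nat.le_add_right _ _),
        Nat.add_sub_cancel_left, List.getElem?_eq_getElem h2, Option.getD_some] at this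
      simp [wv, this]

end

/-- parsimonious hardness -/
def SPH {α : Type} [Enc α] (C : α → Prop) (G : α → ℕ) : Prop :=
  ∀ F, SharpP F → ∃ q : Bits → α, PT q ∧ ∀ x, C (q x) ∧ G (q x) = F x.val

theorem sharp_sat : SPH (fun _ => True) cnt := by
  rintro F ⟨R, ⟨f, hf, hR⟩, p, hF⟩
  obtain ⟨g, hg, hH, h⟩ := horn_cook hf
  let y : Bits → List Bool := fun x => pair x.val []
  let L : Bits → ℕ := fun x => (y x).length + p.eval x.val.length
  have hy : PT y := by unfold y pair; fun_prop
  have hL : PT L := hy.length.add (PT.polyEval p (by fun_prop))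
  have hG : PT fun x => g (L x) := hg.comp hL
  refine ⟨fun x => (L x + (sz (g (L x)) + 1) * (sz (g (L x)) + (g (L x)).length),
    (gates (y x) (L x) (g (L x)) (sz (g (L x)))).flatMap andG), PT.mk (by fun_prop) ?_,
    fun x => ⟨trivial, ?_⟩⟩
  · refine PT.flatMap (f := fun _ => andG) (by unfold andG; fun_prop)
      (pt_gates.comp (g := fun x => (y x, L x, g (L x), sz (g (L x)))) (by fun_prop))
  · rw [cnt_gates (q := p.eval x.val.length) (fun c hc => (hH _ c hc).2) (fun c hc l hl => ?_)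
      (fun c hc => (hH _ c hc).1) rfl, hF]
    · refine Nat.card_congr (Equiv.subtypeEquivRight fun w => and_congr_right fun hw => ?_)
      rw [hR, pair_eq_append, ← h, List.length_append, hw]
    · have h1 : sz c ≤ sz (g (L x)) := sz_le_of_mem hc
      have h2 := sz_le_of_mem hl
      have h3 := sz_prod c
      have h4 := sz_prod l
      have h5 : sz l.1 = l.1 := by simp [sz]
      omega

end Pool.Agent.H66.Sharp
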