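import Pool.Agent.H66.Sharp3

/-! Reductions between counting problems; binary division; monotone clauses. -/

namespace Pool.Agent.H66.Sharp

open Function Pool.Agent.H38.NP Pool.Agent.H38.ER Finset

variable {α β γ : Type} [Enc α] [Enc β] [Enc γ]

instance : Dec Bin := ⟨fun x => Bin.mk (bval x.val), pt_ofBits (PT.bval PT.id'), fun a => by
  obtain ⟨a⟩ := a
  change Bin.mk (bval a.bits) = _
  rw [bval_bits]⟩

theorem SPH.reduce {C : α → Prop} {G : α → ℕ} {C' : β → Prop} {G' : β → ℕ} (h : SPH C G)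
    (f : α → β) (hf : PT f) (e : ∀ a, C a → C' (f a) ∧ G' (f a) = G a) : SPH C' G' :=
  fun F hF => let ⟨q, hq, hx⟩ := h F hF
  ⟨fun x => f (q x), hf.comp hq, fun x => ⟨(e _ (hx x).1).1, (e _ (hx x).1).2.trans (hx x).2⟩⟩

theorem SPH.turing [Dec γ] {C : α → Prop} {G : α → ℕ} {C' : β → Prop} {G' : β → γ} (h : SPH C G)
    (q : α → List β) (hq : PT q) (r : α × List γ → Bin) (hr : PT r)
    (e : ∀ a, C a → (∀ b ∈ q a, C' b) ∧ r (a, (q a).map G') = Bin.mk (G a)) :
    SharpHardOn C' G' := by
  intro F hF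
  obtain ⟨q0, hq0, hx⟩ := h F hF
  have h1 : PT fun x : Bits => raw (q (q0 x)) := (hq.comp hq0).raw
  have h2 : PT fun z : Bits => raw (r (q0 z.fst, (dec z.snd : List γ))) :=
    (hr.comp (g := fun z : Bits => (q0 z.fst, (dec z.snd : List γ)))
      (PT.mk (hq0.comp PT.bfst) (by fun_prop))).raw
  refine ⟨_, _, h1.polyTime, h2.polyTime, fun x => ⟨q (q0 ⟨x⟩), rfl, (e _ (hx _).1).1, ?_⟩⟩
  have e1 : Bits.fst ⟨pair x (enc ((q (q0 ⟨x⟩)).map G'))⟩ = ⟨x⟩ := by simp [Bits.fst]
  have e2 : Bits.snd ⟨pair x (enc ((q (q0 ⟨x⟩)).map G'))⟩ = raw ((q (q0 ⟨x⟩)).map G') := by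
    simp [Bits.snd, raw]
  simp only [e1, e2, Dec.dec_raw, (e _ (hx _).1).2, (hx _).2]
  rfl

def dstep (d : Bin) (b : Bool) (s : Bin × Bin) : Bin × Bin :=
  cond (decide (d.val ≤ (Bin.mk ((Bin.mk (s.2.val + s.2.val)).val + (Bin.mk b.toNat).val)).val))
    (Bin.mk ((Bin.mk (s.1.val + s.1.val)).val + (Bin.mk 1).val),
      Bin.mk ((Bin.mk ((Bin.mk (s.2.val + s.2.val)).val + (Bin.mk b.toNat).val)).val - d.val))
    (Bin.mk (s.1.val + s.1.val),
      Bin.mk ((Bin.mk (s.2.val + s.2.val)).val + (Bin.mk b.toNat).val))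

theorem dstep_spec (d : ℕ) (hd : 0 < d) (l : List Bool) :
    l.foldr (dstep ⟨d⟩) (⟨0⟩, ⟨0⟩) = (⟨bval l / d⟩, ⟨bval l % d⟩) := by
  induction l with
  | nil => simp [bval]
  | cons b l ih =>
    rw [List.foldr_cons, ih]
    have e : bval (b :: l) = b.toNat + 2 * bval l := rfl
    have h1 := Nat.div_add_mod (bval l) d
    have h2 := Nat.mod_lt (bval l) hd
    have h3 : b.toNat ≤ 1 := Bool.toNat_le b
    simp only [dstep]
    by_cases h : d ≤ bval l % d + bval l % d + b.toNat
    · have := (Nat.div_mod_unique (a := bval (b :: l)) (c := bval l % d + bval l % d + b.toNat - d)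
        (d := bval l / d + bval l / d + 1) hd).2 ⟨by rw [e, mul_add, mul_add]; omega, by omega⟩
      simp [h, this.1, this.2]
    · have := (Nat.div_mod_unique (a := bval (b :: l)) (c := bval l % d + bval l % d + b.toNat)
        (d := bval l / d + bval l / d) hd).2 ⟨by rw [e, mul_add]; omega, by omega⟩
      simp [h, this.1, this.2]

theorem pt_bdivmod {f g : α → Bin} (hf : PT f) (hg : PT g) (h0 : ∀ a, 0 < (g a).val) :
    PT fun a => (Bin.mk ((f a).val / (g a).val), Bin.mk ((f a).val % (g a).val)) := by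
  have hs : PT fun p : α × Bool × Bin × Bin => dstep (g p.1) p.2.1 p.2.2 := by
    have hg' : PT fun p : α × Bool × Bin × Bin => g p.1 := hg.comp (by fun_prop)
    have a1 : PT fun p : α × Bool × Bin × Bin =>
        Bin.mk ((Bin.mk (p.2.2.2.val + p.2.2.2.val)).val + (Bin.mk p.2.1.toNat).val) :=
      pt_badd (pt_badd (by fun_prop) (by fun_prop)) (pt_bin (by fun_prop))
    have a2 : PT fun p : α × Bool × Bin × Bin => Bin.mk (p.2.2.1.val + p.2.2.1.val) :=
      pt_badd (by fun_prop) (by fun_prop)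
    exact PT.cond (pt_ble hg' a1) (PT.mk (pt_badd a2 (PT.const _)) (pt_bsub a1 hg')) (PT.mk a2 a1)
  have := PT.foldr (f := fun a b s => dstep (g a) b s) hs (pt_bits hf)
    (PT.const ((⟨0⟩, ⟨0⟩) : Bin × Bin)) (((PB.const 3).mul hf.pb).add (PB.const 1)) fun a k => by
      have := dstep_spec (g a).val (h0 a) ((f a).val.bits.drop k)
      erw [this, sz_prod]
      have h1 := bval_lt ((f a).val.bits.drop k)
      have h2 : 2 ^ ((f a).val.bits.drop k).length ≤ 2 ^ sz (f a) :=
        Nat.pow_le_pow_right (by omega) (by rw [List.length_drop]; exact Nat.sub_le _ _)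
      have h3 := size_le_of_lt ((Nat.div_le_self _ (g a).val).trans_lt (h1.trans_le h2))
      have h4 := size_le_of_lt ((Nat.mod_le _ (g a).val).trans_lt (h1.trans_le h2))
      simp only at h3 h4 ⊢
      omega
  exact this.of_eq fun a => by
    have := dstep_spec (g a).val (h0 a) (f a).val.bits
    erw [this, bval_bits]

theorem pt_bdiv {f g : α → Bin} (hf : PT f) (hg : PT g) (h0 : ∀ a, 0 < (g a).val) :
    PT fun a => Bin.mk ((f a).val / (g a).val) := (pt_bdivmod hf hg h0).fst

theorem pt_bmod {f g : α → Bin} (hf : PT f) (hg : PT g) (h0 : ∀ a, 0 < (g a).val) :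
    PT fun a => Bin.mk ((f a).val % (g a).val) := (pt_bdivmod hf hg h0).snd

theorem pt_pow2 {f : α → ℕ} (hf : PT f) : PT fun a => Bin.mk (2 ^ f a) := by
  have : PT fun a => List.replicate (f a) false ++ [true] := by fun_prop
  refine (pt_ofBits this).of_eq fun a => ?_
  congr 1
  rw [bval_append]
  have : ∀ n, bval (List.replicate n false) = 0 := fun n => by
    induction n with
    | zero => rfl
    | succ n ih => change false.toNat + 2 * bval (List.replicate n false) = 0; simp [ih]
  rw [this]; simp [bval]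

/-- number of models of a list of all-positive or all-negative clauses -/
def cntM (I : ℕ × List (Bool × List ℕ)) : ℕ :=
  ((range I.1).powerset.filter fun S => ∀ κ ∈ I.2, ∃ l ∈ κ.2, l < I.1 ∧ decide (l ∈ S) = κ.1).card

def toM (I : ℕ × CNF ℕ) : ℕ × List (Bool × List ℕ) :=
  (2 * I.1, (I.2.filter fun C => C.all fun l => l.2 || decide (l.1 < I.1)).map
      (fun C => (true, C.map fun l => 2 * l.1 + l.2.toNat)) ++
    (List.range I.1).flatMap fun v => [(true, [2 * v, 2 * v + 1]), (false, [2 * v, 2 * v + 1])])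

theorem sharp_mono : SPH (fun _ => True) cntM := by
  refine sharp_sat.reduce toM (by unfold toM; fun_prop) fun ⟨n, φ⟩ _ => ⟨trivial, Eq.symm ?_⟩
  have mem : ∀ (S : Finset ℕ) (v : ℕ) (s : Bool), 2 * v + s.toNat ∈
      ((range (2 * n)).filter fun z => decide (z / 2 ∈ S) = decide (z % 2 = 1)) ↔
        v < n ∧ decide (v ∈ S) = s := by
    intro S v s
    have h1 : (2 * v + s.toNat) / 2 = v := by cases s <;> simp <;> omega
    have h2 : decide ((2 * v + s.toNat) % 2 = 1) = s := by cases s <;> simp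
    rw [mem_filter, mem_range, h1, h2]
    exact and_congr (by cases s <;> simp <;> omega) Iff.rfl
  have spec : ∀ T : Finset ℕ, (∀ κ ∈ (toM (n, φ)).2, ∃ l ∈ κ.2, l < 2 * n ∧ decide (l ∈ T) = κ.1) ↔
      (∀ C ∈ φ, (∀ l ∈ C, l.2 = false → l.1 < n) →
        ∃ l ∈ C, l.1 < n ∧ 2 * l.1 + l.2.toNat ∈ T) ∧
      ∀ v < n, (2 * v ∈ T ↔ 2 * v + 1 ∉ T) := by
    intro T
    simp only [toM, List.forall_mem_append, List.forall_mem_map, List.forall_mem_filter,
      List.forall_mem_flatMap, List.forall_mem_cons, List.mem_range, List.all_eq_true]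
    refine and_congr (forall₂_congr fun C _ => imp_congr ?_ ?_) (forall₂_congr fun v hv => ?_)
    · exact forall₂_congr fun l _ => by cases l.2 <;> simp
    · simp only [List.mem_map, exists_exists_and_eq_and, decide_eq_true_eq]
      exact exists_congr fun l => and_congr Iff.rfl (and_congr
        (by cases l.2 <;> simp <;> omega) Iff.rfl)
    · have h1 : 2 * v < 2 * n := by omega
      have h2 : 2 * v + 1 < 2 * n := by omega
      simp [h1, h2]; tauto
  unfold cnt cntM
  refine card_nbij' (fun S => (range (2 * n)).filter fun z => decide (z / 2 ∈ S) = decide (z % 2 = 1))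
    (fun T => (range n).filter fun v => 2 * v + 1 ∈ T) ?_ ?_ ?_ ?_
  · intro S hS
    simp only [coe_filter, mem_powerset, Set.mem_setOf_eq] at hS
    refine mem_coe.2 (mem_filter.2 ⟨mem_powerset.2 (filter_subset _ _), (spec _).2
      ⟨fun C hC hn => ?_, fun v hv => ?_⟩⟩)
    · obtain ⟨l, hl, e⟩ := hS.2 C hC
      have : l.1 < n := by
        cases h : l.2
        · exact hn l hl h
        · rw [h] at e; exact mem_range.1 (hS.1 (by simpa using e))
      exact ⟨l, hl, this, (mem _ _ _).2 ⟨this, e⟩⟩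
    · have h1 := mem S v false
      have h2 := mem S v true
      simp only [Bool.toNat_false, Nat.add_zero, Bool.toNat_true] at h1 h2
      rw [h1, h2]; simp [hv]
  · intro T hT
    obtain ⟨h1, h2⟩ := mem_filter.1 (mem_coe.1 hT)
    replace h2 := (spec T).1 h2
    refine mem_coe.2 (mem_filter.2 ⟨mem_powerset.2 (filter_subset _ _), fun C hC => ?_⟩)
    by_cases hn : ∀ l ∈ C, l.2 = false → l.1 < n
    · obtain ⟨⟨v, s⟩, hl, hv, e⟩ := h2.1 C hC hn
      refine ⟨_, hl, ?_⟩
      have := h2.2 v hv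
      cases s
      · simpa [hv] using this.1 e
      · simpa [hv] using e
    · push Not at hn
      obtain ⟨l, hl, e, hv⟩ := hn
      exact ⟨l, hl, by simp [e, not_lt.2 hv]⟩
  · intro S hS
    simp only [coe_filter, mem_powerset, Set.mem_setOf_eq] at hS
    ext v
    have h2 := mem S v true
    simp only [Bool.toNat_true] at h2
    simp only [mem_filter (s := range n), h2, mem_range, decide_eq_true_eq]
    exact ⟨fun h => h.2.2, fun h => ⟨mem_range.1 (hS.1 h), mem_range.1 (hS.1 h), h⟩⟩
  · intro T hT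
    obtain ⟨h1, h2⟩ := mem_filter.1 (mem_coe.1 hT)
    replace h2 := (spec T).1 h2
    ext z
    obtain ⟨v, s, rfl⟩ : ∃ v, ∃ s : Bool, z = 2 * v + s.toNat :=
      ⟨z / 2, decide (z % 2 = 1), by by_cases h : z % 2 = 1 <;> simp [h] <;> omega⟩
    rw [mem]
    by_cases hv : v < n
    · have := h2.2 v hv
      cases s <;> simp [hv, this]
    · simp only [hv, false_and, false_iff]
      intro h
      have := mem_range.1 (mem_powerset.1 h1 h)
      simp only [toM] at this
      omega

end Pool.Agent.H66.Sharp
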