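import Pool.Agent.H66.SigDefs

namespace Pool.Agent.H66.Sig

open Real

theorem sig_eq (u : ℝ) : sig u = exp u / (1 + exp u) := by
  unfold sig
  rw [exp_neg]
  have := exp_pos u
  field_simp
  ring

theorem sig_neg (u : ℝ) : sig (-u) = 1 - sig u := by
  rw [sig_eq u]; unfold sig
  rw [neg_neg]
  have := exp_pos u
  field_simp
  ring

theorem lin_sep (a b tX tY tZ tW : ℝ) (pX : 0 < tX) (pY : 0 < tY) (pZ : 0 < tZ) (pW : 0 < tW)
    (ht : tX * tY = tZ * tW) (h1 : a + b * tX ≤ 0) (h2 : a + b * tY ≤ 0) (h3 : 0 < a + b * tZ)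
    (h4 : 0 < a + b * tW) : False := by
  rcases lt_trichotomy b 0 with hb | hb | hb
  · have e1 : tZ < tX := by nlinarith
    have e2 : tW < tY := by nlinarith
    nlinarith [mul_lt_mul'' e1 e2 pZ.le pW.le]
  · subst hb; linarith
  · have e1 : tX < tZ := by nlinarith
    have e2 : tY < tW := by nlinarith
    nlinarith [mul_lt_mul'' e1 e2 pX.le pY.le]

/-- the four-point inequality -/
theorem four (A B C D c tX tY tZ tW sX sY sZ sW : ℝ) (hc : 0 ≤ c) (h1 : C - A = c) (h2 : D - B = c)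
    (pX : 0 < tX) (pY : 0 < tY) (pZ : 0 < tZ) (pW : 0 < tW)
    (qX : 0 < sX) (qY : 0 < sY) (qZ : 0 < sZ) (qW : 0 < sW)
    (ht : tX * tY = tZ * tW) (hs : sX * sY = sZ * sW)
    (hX : 0 ≤ A + B * tX + sX * (C + D * tX)) (hY : 0 ≤ A + B * tY + sY * (C + D * tY))
    (hZ : A + B * tZ + sZ * (C + D * tZ) < 0) (hW : A + B * tW + sW * (C + D * tW) < 0) :
    (tX + tY - (tZ + tW)) * (A * B * (C ^ 2 + D ^ 2 * (tX * tY)) -
      C * D * (A ^ 2 + B ^ 2 * (tX * tY))) < 0 := by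
  have key : ∀ t : ℝ, 0 < t → 0 ≤ (-A + -B * t) + (C + D * t) := fun t ht => by
    have : (-A + -B * t) + (C + D * t) = c * (1 + t) := by rw [← h1, show D = B + (C - A) by linarith]; ring
    rw [this]; positivity
  have nZ : 0 < -A + -B * tZ := by
    by_contra h; push Not at h
    have := key tZ pZ
    nlinarith [mul_nonneg qZ.le (show 0 ≤ C + D * tZ by linarith)]
  have nW : 0 < -A + -B * tW := by
    by_contra h; push Not at h
    have := key tW pW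
    nlinarith [mul_nonneg qW.le (show 0 ≤ C + D * tW by linarith)]
  rcases hc.eq_or_lt with hc0 | hc0
  · exfalso
    have e1 : C = A := by linarith
    have e2 : D = B := by linarith
    subst e1 e2
    refine lin_sep (-C) (-D) tX tY tZ tW pX pY pZ pW ht ?_ ?_ nZ nW
    · by_contra h; push Not at h; nlinarith
    · by_contra h; push Not at h; nlinarith
  have key' : ∀ t : ℝ, 0 < t → 0 < (-A + -B * t) + (C + D * t) := fun t ht => by
    have : (-A + -B * t) + (C + D * t) = c * (1 + t) := by rw [← h1, show D = B + (C - A) by linarith]; ring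
    rw [this]; positivity
  have mX : 0 < C + D * tX := by
    by_contra h; push Not at h
    have := key' tX pX
    nlinarith [mul_nonneg qX.le (show 0 ≤ -(C + D * tX) by linarith)]
  have mY : 0 < C + D * tY := by
    by_contra h; push Not at h
    have := key' tY pY
    nlinarith [mul_nonneg qY.le (show 0 ≤ -(C + D * tY) by linarith)]
  set NX := -A + -B * tX with hNX
  set NY := -A + -B * tY with hNY
  set NZ := -A + -B * tZ with hNZ
  set NW := -A + -B * tW with hNW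
  set MX := C + D * tX with hMX
  set MY := C + D * tY with hMY
  set MZ := C + D * tZ with hMZ
  set MW := C + D * tW with hMW
  have id1 : NX * NY - NZ * NW = A * B * (tX + tY - (tZ + tW)) := by
    rw [hNX, hNY, hNZ, hNW]; linear_combination B ^ 2 * ht
  have id2 : MX * MY - MZ * MW = C * D * (tX + tY - (tZ + tW)) := by
    rw [hMX, hMY, hMZ, hMW]; linear_combination D ^ 2 * ht
  have id3 : (tX + tY - (tZ + tW)) * (A * B * (C ^ 2 + D ^ 2 * (tX * tY)) -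
      C * D * (A ^ 2 + B ^ 2 * (tX * tY))) = NX * NY * (MZ * MW) - NZ * NW * (MX * MY) := by
    rw [hNX, hNY, hNZ, hNW, hMX, hMY, hMZ, hMW]
    linear_combination (-(B ^ 2 * (C ^ 2 + C * D * (tX + tY)) - D ^ 2 * (A ^ 2 + A * B * (tX + tY)))) * ht
  have n' : 0 < NZ * NW := mul_pos nZ nW
  have m : 0 < MX * MY := mul_pos mX mY
  have nm : 0 < NZ * NW * (MX * MY) := mul_pos n' m
  by_cases hn : NX * NY < 0 ∧ MZ * MW < 0
  · have e1 : A * B * (tX + tY - (tZ + tW)) < 0 := by linarith [hn.1]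
    have e2 : 0 < C * D * (tX + tY - (tZ + tW)) := by linarith [hn.2]
    have hA : A ≠ 0 := by rintro rfl; simp at e1
    have p1 : 0 < A ^ 2 + B ^ 2 * (tX * tY) := by positivity
    have p2 : 0 ≤ C ^ 2 + D ^ 2 * (tX * tY) := by positivity
    nlinarith [mul_pos e2 p1, mul_nonneg (neg_nonneg.2 e1.le) p2]
  rw [id3]
  have hN : ¬ (NX ≤ 0 ∧ NY ≤ 0) := fun h =>
    lin_sep (-A) (-B) tX tY tZ tW pX pY pZ pW ht h.1 h.2 nZ nW
  have hM : ¬ (MZ ≤ 0 ∧ MW ≤ 0) := fun h =>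
    lin_sep C D tZ tW tX tY pZ pW pX pY ht.symm h.1 h.2 mX mY
  by_cases hp : NX * NY * (MZ * MW) ≤ 0
  · linarith
  push Not at hp
  have hpos : 0 < NX * NY ∧ 0 < MZ * MW := by
    rcases pos_and_pos_or_neg_and_neg_of_mul_pos hp with h | h
    · exact h
    · exact absurd h hn
  have a1 : 0 < NX ∧ 0 < NY := by
    rcases pos_and_pos_or_neg_and_neg_of_mul_pos hpos.1 with h | h
    · exact h
    · exact absurd ⟨h.1.le, h.2.le⟩ hN
  have a2 : 0 < MZ ∧ 0 < MW := by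
    rcases pos_and_pos_or_neg_and_neg_of_mul_pos hpos.2 with h | h
    · exact h
    · exact absurd ⟨h.1.le, h.2.le⟩ hM
  have b1 : NX ≤ sX * MX := by rw [hNX]; linarith
  have b2 : NY ≤ sY * MY := by rw [hNY]; linarith
  have b3 : sZ * MZ < NZ := by rw [hNZ]; linarith
  have b4 : sW * MW < NW := by rw [hNW]; linarith
  have c1 : NX * NY ≤ sX * MX * (sY * MY) := mul_le_mul b1 b2 a1.2.le (a1.1.le.trans b1)
  have c2 : sZ * MZ * (sW * MW) < NZ * NW :=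
    mul_lt_mul'' b3 b4 (mul_pos qZ a2.1).le (mul_pos qW a2.2).le
  have d1 : NX * NY * (MZ * MW) ≤ sX * MX * (sY * MY) * (MZ * MW) :=
    mul_le_mul_of_nonneg_right c1 hpos.2.le
  have d2 : sZ * MZ * (sW * MW) * (MX * MY) < NZ * NW * (MX * MY) := mul_lt_mul_of_pos_right c2 m
  have d3 : sX * MX * (sY * MY) * (MZ * MW) = sZ * MZ * (sW * MW) * (MX * MY) := by
    linear_combination (MX * MY * MZ * MW) * hs
  linarith

/-- the decision region in the plane of the two hidden activations -/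
def G (b₁ b₂ c₀ c₁ c₂ : ℝ) (p : ℝ × ℝ) : Prop :=
  0 ≤ c₀ + c₁ * sig (p.1 + b₁) + c₂ * sig (p.2 + b₂)

theorem G_iff (b₁ b₂ c₀ c₁ c₂ : ℝ) (p : ℝ × ℝ) : G b₁ b₂ c₀ c₁ c₂ p ↔
    0 ≤ c₀ + (c₀ + c₁) * exp (p.1 + b₁) +
      exp (p.2 + b₂) * ((c₀ + c₂) + (c₀ + c₁ + c₂) * exp (p.1 + b₁)) := by
  unfold G
  rw [sig_eq, sig_eq]
  have h1 := exp_pos (p.1 + b₁)
  have h2 := exp_pos (p.2 + b₂)
  set t := exp (p.1 + b₁)
  set s := exp (p.2 + b₂)
  have : c₀ + (c₀ + c₁) * t + s * ((c₀ + c₂) + (c₀ + c₁ + c₂) * t) =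
      (c₀ + c₁ * (t / (1 + t)) + c₂ * (s / (1 + s))) * ((1 + t) * (1 + s)) := by
    field_simp; ring
  rw [this]
  have h3 : 0 < (1 + t) * (1 + s) := by positivity
  exact (mul_nonneg_iff_of_pos_right h3).symm

theorem exp_prod {ε x y z w : ℝ} (hε : ε ≠ 0) (h1 : 0 ≤ ε * (x - y)) (h2 : 0 ≤ ε * (z - w)) :
    0 ≤ (exp x - exp y) * (exp z - exp w) := by
  rcases lt_or_gt_of_ne hε with h | h
  · have e1 : x ≤ y := by nlinarith
    have e2 : z ≤ w := by nlinarith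
    exact mul_nonneg_of_nonpos_of_nonpos (sub_nonpos.2 (exp_le_exp.2 e1))
      (sub_nonpos.2 (exp_le_exp.2 e2))
  · have e1 : y ≤ x := by nlinarith
    have e2 : w ≤ z := by nlinarith
    exact mul_nonneg (sub_nonneg.2 (exp_le_exp.2 e1)) (sub_nonneg.2 (exp_le_exp.2 e2))

theorem key0 {b₁ b₂ c₀ c₁ c₂ ε : ℝ} (hc : 0 ≤ c₂) (hε : ε ≠ 0) (α₁ α₂ β₁ β₂ : ℝ × ℝ)
    (h1 : 0 ≤ ε * (α₁.1 + α₂.1)) (h2 : 0 ≤ ε * (β₁.1 + β₂.1))
    (h3 : 0 ≤ ε * (α₁.1 - β₂.1)) (h4 : 0 ≤ ε * (α₂.1 - β₁.1))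
    (g0 : G b₁ b₂ c₀ c₁ c₂ 0) (g1 : G b₁ b₂ c₀ c₁ c₂ (α₁ + α₂ + β₁ + β₂))
    (g2 : G b₁ b₂ c₀ c₁ c₂ (α₁ + β₁)) (g3 : G b₁ b₂ c₀ c₁ c₂ (α₂ + β₂))
    (n1 : ¬ G b₁ b₂ c₀ c₁ c₂ (α₁ + α₂)) (n2 : ¬ G b₁ b₂ c₀ c₁ c₂ (β₁ + β₂)) : False := by
  rw [G_iff] at g0 g1 g2 g3 n1 n2
  push Not at n1 n2
  have e1 := four _ _ _ _ c₂ _ _ _ _ _ _ _ _ hc (by ring) (by ring) (exp_pos _) (exp_pos _)
    (exp_pos _) (exp_pos _) (exp_pos _) (exp_pos _) (exp_pos _) (exp_pos _)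
    (by rw [← exp_add, ← exp_add]; congr 1; simp; ring)
    (by rw [← exp_add, ← exp_add]; congr 1; simp; ring) g0 g1 n1 n2
  have e2 := four _ _ _ _ c₂ _ _ _ _ _ _ _ _ hc (by ring) (by ring) (exp_pos _) (exp_pos _)
    (exp_pos _) (exp_pos _) (exp_pos _) (exp_pos _) (exp_pos _) (exp_pos _)
    (by rw [← exp_add, ← exp_add]; congr 1; simp; ring)
    (by rw [← exp_add, ← exp_add]; congr 1; simp; ring) g2 g3 n1 n2
  have hp : exp ((0 : ℝ × ℝ).1 + b₁) * exp ((α₁ + α₂ + β₁ + β₂).1 + b₁) =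
      exp ((α₁ + β₁).1 + b₁) * exp ((α₂ + β₂).1 + b₁) := by
    rw [← exp_add, ← exp_add]; congr 1; simp; ring
  rw [hp] at e1
  have f1 := exp_prod (x := α₁.1 + α₂.1) (y := 0) (z := β₁.1 + β₂.1) (w := 0) hε
    (by simpa using h1) (by simpa using h2)
  have f2 := exp_prod hε h3 h4
  have hb := exp_pos b₁
  have s1 : 0 ≤ exp ((0 : ℝ × ℝ).1 + b₁) + exp ((α₁ + α₂ + β₁ + β₂).1 + b₁) -
      (exp ((α₁ + α₂).1 + b₁) + exp ((β₁ + β₂).1 + b₁)) := by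
    have := mul_nonneg hb.le f1
    simp only [Prod.fst_add, Prod.fst_zero, exp_add, exp_zero] at this ⊢
    nlinarith
  have s2 : exp ((α₁ + β₁).1 + b₁) + exp ((α₂ + β₂).1 + b₁) -
      (exp ((α₁ + α₂).1 + b₁) + exp ((β₁ + β₂).1 + b₁)) ≤ 0 := by
    have := mul_nonneg hb.le f2
    simp only [Prod.fst_add, Prod.fst_zero, exp_add, exp_zero] at this ⊢
    nlinarith
  set E := c₀ * (c₀ + c₁) * ((c₀ + c₂) ^ 2 + (c₀ + c₁ + c₂) ^ 2 *
    (exp ((α₁ + β₁).1 + b₁) * exp ((α₂ + β₂).1 + b₁))) - (c₀ + c₂) * (c₀ + c₁ + c₂) *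
    (c₀ ^ 2 + (c₀ + c₁) ^ 2 * (exp ((α₁ + β₁).1 + b₁) * exp ((α₂ + β₂).1 + b₁)))
  rcases le_total 0 E with h | h
  · nlinarith [mul_nonneg s1 h]
  · nlinarith [mul_nonneg_of_nonpos_of_nonpos s2 h]

theorem G_flip (b₁ b₂ c₀ c₁ c₂ : ℝ) (p : ℝ × ℝ) :
    G b₁ b₂ c₀ c₁ c₂ p ↔ G b₁ (-b₂) (c₀ + c₂) c₁ (-c₂) (p.1, -p.2) := by
  unfold G
  have : sig (-p.2 + -b₂) = 1 - sig (p.2 + b₂) := by rw [← sig_neg]; congr 1; ring
  simp only [this]
  constructor <;> intro h <;> linarith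

theorem key {b₁ b₂ c₀ c₁ c₂ ε : ℝ} (hε : ε ≠ 0) (α₁ α₂ β₁ β₂ : ℝ × ℝ)
    (h1 : 0 ≤ ε * (α₁.1 + α₂.1)) (h2 : 0 ≤ ε * (β₁.1 + β₂.1))
    (h3 : 0 ≤ ε * (α₁.1 - β₂.1)) (h4 : 0 ≤ ε * (α₂.1 - β₁.1))
    (g0 : G b₁ b₂ c₀ c₁ c₂ 0) (g1 : G b₁ b₂ c₀ c₁ c₂ (α₁ + α₂ + β₁ + β₂))
    (g2 : G b₁ b₂ c₀ c₁ c₂ (α₁ + β₁)) (g3 : G b₁ b₂ c₀ c₁ c₂ (α₂ + β₂))
    (n1 : ¬ G b₁ b₂ c₀ c₁ c₂ (α₁ + α₂)) (n2 : ¬ G b₁ b₂ c₀ c₁ c₂ (β₁ + β₂)) : False := by
  rcases le_total 0 c₂ with hc | hc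
  · exact key0 hc hε α₁ α₂ β₁ β₂ h1 h2 h3 h4 g0 g1 g2 g3 n1 n2
  · rw [G_flip] at g0 g1 g2 g3 n1 n2
    refine key0 (b₁ := b₁) (b₂ := -b₂) (c₀ := c₀ + c₂) (c₁ := c₁) (c₂ := -c₂) (by linarith) hε
      (α₁.1, -α₁.2) (α₂.1, -α₂.2) (β₁.1, -β₁.2) (β₂.1, -β₂.2) h1 h2 h3 h4 ?_ ?_ ?_ ?_ ?_ ?_
    · convert g0 using 1; ext <;> simp
    · convert g1 using 1; ext <;> simp; ring
    · convert g2 using 1; ext <;> simp; ring
    · convert g3 using 1; ext <;> simp; ring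
    · convert n1 using 2; ext <;> simp; ring
    · convert n2 using 2; ext <;> simp; ring

/-- three families of four vectors cannot be monochromatic -/
theorem core {b₁ b₂ c₀ c₁ c₂ ε : ℝ} (hε : ε ≠ 0) (a b k : Fin 4 → ℝ × ℝ)
    (hb : ∀ r, 0 ≤ ε * (b r).1) (hk : ∀ r, 0 ≤ ε * (k r).1)
    (hab : ∀ r s, ε * (b s).1 ≤ ε * (a r).1) (hak : ∀ r s, ε * (k s).1 ≤ ε * (a r).1)
    (pos : ∀ S : Finset (Fin 4), G b₁ b₂ c₀ c₁ c₂ (∑ r ∈ S, a r + ∑ r ∈ S, b r + ∑ r ∈ S, k r))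
    (na : ¬ G b₁ b₂ c₀ c₁ c₂ (∑ r, a r)) (nb : ¬ G b₁ b₂ c₀ c₁ c₂ (∑ r, b r))
    (nk : ∀ S : Finset (Fin 4), S.Nonempty → ¬ G b₁ b₂ c₀ c₁ c₂ (∑ r ∈ S, k r)) : False := by
  have g0 : G b₁ b₂ c₀ c₁ c₂ 0 := by simpa using pos ∅
  have two : ∀ r s : Fin 4, r ≠ s → G b₁ b₂ c₀ c₁ c₂ (a r + a s + (b r + b s)) := by
    intro r s hrs
    by_contra hn
    have := hb r; have := hb s; have := hk r; have := hk s
    have := hak r s; have := hak s r; have := hab r r; have := hab s s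
    refine key hε (a r + b r) (a s + b s) (k r) (k s) (by simp; nlinarith) (by nlinarith)
      (by simp; nlinarith) (by simp; nlinarith) g0 ?_ ?_ ?_ ?_ ?_
    · convert pos {r, s} using 1; simp [Finset.sum_pair hrs]; abel
    · simpa using pos {r}
    · simpa using pos {s}
    · convert hn using 2; abel
    · have := nk {r, s} (by simp); rwa [Finset.sum_pair hrs] at this
  have h0 := hb 0; have h1 := hb 1; have h2 := hb 2; have h3 := hb 3
  have := hk 0; have := hk 1; have := hk 2; have := hk 3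
  have all : G b₁ b₂ c₀ c₁ c₂ (a 0 + a 1 + (a 2 + a 3) + (b 0 + b 1) + (b 2 + b 3)) := by
    by_contra hn
    have := hak 0 2; have := hak 1 3; have := hak 2 0; have := hak 3 1
    refine key hε (a 0 + a 1 + (b 0 + b 1)) (a 2 + a 3 + (b 2 + b 3)) (k 0 + k 1) (k 2 + k 3)
      (by simp; nlinarith) (by simp; nlinarith)
      (by simp; nlinarith) (by simp; nlinarith) g0 ?_ ?_ ?_ ?_ ?_
    · convert pos Finset.univ using 1; simp [Fin.sum_univ_four]; abel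
    · convert pos {0, 1} using 1; simp [Finset.sum_pair (show (0 : Fin 4) ≠ 1 by decide)]
    · convert pos {2, 3} using 1; simp [Finset.sum_pair (show (2 : Fin 4) ≠ 3 by decide)]
    · convert hn using 2; abel
    · have := nk Finset.univ (by simp); rw [Fin.sum_univ_four] at this
      convert this using 2; abel
  have := hab 0 2; have := hab 1 3; have := hab 2 0; have := hab 3 1
  refine key hε (a 0 + a 1) (a 2 + a 3) (b 0 + b 1) (b 2 + b 3)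
      (by simp; nlinarith) (by simp; nlinarith)
      (by simp; nlinarith) (by simp; nlinarith) g0 all (two 0 1 (by decide)) (two 2 3 (by decide))
      ?_ ?_
  · rw [Fin.sum_univ_four] at na; convert na using 2; abel
  · rw [Fin.sum_univ_four] at nb; convert nb using 2; abel

theorem median (R : Finset ℕ) (hR : R.card = 7) (f : ℕ → ℝ) :
    ∃ m : ℝ, ∃ U L : Fin 4 ↪ ℕ, (∀ r, U r ∈ R ∧ m ≤ f (U r)) ∧ (∀ r, L r ∈ R ∧ f (L r) ≤ m) := by
  classical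
  have emb : ∀ S : Finset ℕ, 4 ≤ S.card → ∃ U : Fin 4 ↪ ℕ, ∀ r, U r ∈ S := by
    intro S hS
    obtain ⟨T, hT, hc⟩ := Finset.exists_subset_card_eq hS
    exact ⟨(T.orderEmbOfFin hc).toEmbedding, fun r => hT (Finset.orderEmbOfFin_mem T hc r)⟩
  have hne : R.Nonempty := Finset.card_pos.1 (by omega)
  obtain ⟨r1, hr1, hmax⟩ := R.exists_max_image f hne
  obtain ⟨r0, hr0, hmin⟩ := (R.filter fun r => 4 ≤ (R.filter fun s => f s ≤ f r).card).exists_min_image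
    f ⟨r1, by
      rw [Finset.mem_filter, Finset.filter_true_of_mem hmax]; exact ⟨hr1, by omega⟩⟩
  rw [Finset.mem_filter] at hr0
  obtain ⟨L, hL⟩ := emb _ hr0.2
  have hU : 4 ≤ (R.filter fun s => f r0 ≤ f s).card := by
    by_contra hn
    have hc := Finset.card_filter_add_card_filter_not (s := R) (fun s => f r0 ≤ f s)
    have h4 : 4 ≤ (R.filter fun s => ¬ f r0 ≤ f s).card := by omega
    obtain ⟨r2, hr2, hm2⟩ := (R.filter fun s => ¬ f r0 ≤ f s).exists_max_image f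
      (Finset.card_pos.1 (by omega))
    rw [Finset.mem_filter] at hr2
    refine hr2.2 (hmin r2 (Finset.mem_filter.2 ⟨hr2.1, h4.trans (Finset.card_le_card ?_)⟩))
    intro s hs
    exact Finset.mem_filter.2 ⟨(Finset.mem_filter.1 hs).1, hm2 s hs⟩
  obtain ⟨U, hU'⟩ := emb _ hU
  exact ⟨f r0, U, L, fun r => Finset.mem_filter.1 (hU' r), fun r => Finset.mem_filter.1 (hL r)⟩

end Pool.Agent.H66.Sig
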