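import Pool.Agent.H38.NP.Defs

/-! The loading problem for the three-neuron network with two sigmoid hidden neurons. -/

namespace Pool.Agent.H66.Sig

/-- the standard sigmoid -/
noncomputable def sig (t : ℝ) : ℝ := 1 / (1 + Real.exp (-t))

/-- the inner product of a weight vector with a Boolean input -/
def dot (k : ℕ) (a : Fin k → ℝ) (x : List Bool) : ℝ :=
  ∑ i : Fin k, a i * (if x.getD i false = true then 1 else 0)

/-- An instance: the input length `k ≥ 1` and a list of labelled examples of length `k`. -/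
def Valid (I : ℕ × List (List Bool × Bool)) : Prop := 1 ≤ I.1 ∧ ∀ e ∈ I.2, e.1.length = I.1

/-- Some choice of real parameters makes the network give the right label on every example. -/
def Load (I : ℕ × List (List Bool × Bool)) : Prop :=
  ∃ (a₁ a₂ : Fin I.1 → ℝ) (b₁ b₂ c₀ c₁ c₂ : ℝ), ∀ e ∈ I.2,
    (e.2 = true ↔ 0 ≤ c₀ + c₁ * sig (dot I.1 a₁ e.1 + b₁) + c₂ * sig (dot I.1 a₂ e.1 + b₂))

end Pool.Agent.H66.Sig
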