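import Mathlib

set_option autoImplicit false
set_option linter.unusedSectionVars false

namespace Pool.Agent.H66.Solid

open MvPolynomial

variable {k : Type*} [Field k] {σ : Type*} [Fintype σ] [DecidableEq σ]
variable {K : Type*} [Field K] [Algebra k K] [Algebra (MvPolynomial σ k) K]
  [IsScalarTower k (MvPolynomial σ k) K]

/-- all exponents one -/
noncomputable def one' (σ : Type*) [Fintype σ] : σ →₀ ℕ := Finsupp.equivFunOnFinite.symm (fun _ => 1)

@[simp] lemma one'_apply (i : σ) : one' σ i = 1 := rfl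

lemma degree_one' : (one' σ).degree = Fintype.card σ := by
  rw [Finsupp.degree_eq_sum]; simp

/-- monomial as an element of K -/
noncomputable def mon (k : Type*) [Field k] (K : Type*) [Field K] [Algebra (MvPolynomial σ k) K]
    (a : σ →₀ ℕ) : K := algebraMap (MvPolynomial σ k) K (monomial a 1)

lemma mon_add (a b : σ →₀ ℕ) : mon k K (a + b) = mon k K a * mon k K b := by
  simp [mon, ← map_mul, monomial_mul]

lemma mon_zero : mon k K (0 : σ →₀ ℕ) = 1 := by
  simp [mon]

lemma mon_smul (n : ℕ) (a : σ →₀ ℕ) : mon k K (n • a) = mon k K a ^ n := by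
  induction n with
  | zero => simp [mon_zero]
  | succ n ih => rw [succ_nsmul, mon_add, ih, pow_succ]

/-- Laurent polynomials with nonnegative exponent of the variable i -/
def Ai (k : Type*) [Field k] (K : Type*) [Field K] [Algebra k K] [Algebra (MvPolynomial σ k) K]
    [IsScalarTower k (MvPolynomial σ k) K] (i : σ) : Subalgebra k K where
  carrier := {a | ∃ (b : σ →₀ ℕ) (f : MvPolynomial σ k), b i = 0 ∧
    a * mon k K b = algebraMap _ K f}
  mul_mem' := by
    rintro x y ⟨b, f, hb, h⟩ ⟨c, g, hc, h'⟩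
    refine ⟨b + c, f * g, by simp [hb, hc], ?_⟩
    rw [mon_add, map_mul, ← h, ← h']; ring
  add_mem' := by
    rintro x y ⟨b, f, hb, h⟩ ⟨c, g, hc, h'⟩
    refine ⟨b + c, f * monomial c 1 + g * monomial b 1, by simp [hb, hc], ?_⟩
    rw [mon_add, map_add, map_mul, map_mul, ← h, ← h']; simp only [mon]; ring
  algebraMap_mem' := by
    intro r
    refine ⟨0, C r, rfl, ?_⟩
    rw [mon_zero, mul_one, IsScalarTower.algebraMap_apply k (MvPolynomial σ k) K]; rfl

/-- Laurent polynomials of degree at most zero -/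
def A0 (σ : Type*) [Fintype σ] [DecidableEq σ] (k : Type*) [Field k] (K : Type*) [Field K]
    [Algebra k K] [Algebra (MvPolynomial σ k) K]
    [IsScalarTower k (MvPolynomial σ k) K] : Subalgebra k K where
  carrier := {a | ∃ (b : σ →₀ ℕ) (f : MvPolynomial σ k), f.totalDegree ≤ b.degree ∧
    a * mon k K b = algebraMap _ K f}
  mul_mem' := by
    rintro x y ⟨b, f, hb, h⟩ ⟨c, g, hc, h'⟩
    refine ⟨b + c, f * g, ?_, ?_⟩
    · refine (totalDegree_mul _ _).trans ?_
      rw [map_add]; omega
    · rw [mon_add, map_mul, ← h, ← h']; ring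
  add_mem' := by
    rintro x y ⟨b, f, hb, h⟩ ⟨c, g, hc, h'⟩
    refine ⟨b + c, f * monomial c 1 + g * monomial b 1, ?_, ?_⟩
    · refine (totalDegree_add _ _).trans (max_le ?_ ?_)
      · refine (totalDegree_mul _ _).trans ?_
        have := totalDegree_monomial_le c (1 : k)
        rw [map_add]
        have h2 : c.sum (fun _ => id) = c.degree := rfl
        omega
      · refine (totalDegree_mul _ _).trans ?_
        have := totalDegree_monomial_le b (1 : k)
        rw [map_add]
        have h2 : b.sum (fun _ => id) = b.degree := rfl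
        omega
    · rw [mon_add, map_add, map_mul, map_mul, ← h, ← h']; simp only [mon]; ring
  algebraMap_mem' := by
    intro r
    refine ⟨0, C r, by simp, ?_⟩
    rw [mon_zero, mul_one, IsScalarTower.algebraMap_apply k (MvPolynomial σ k) K]; rfl

variable [IsFractionRing (MvPolynomial σ k) K]

lemma mon_ne_zero (a : σ →₀ ℕ) : mon k K a ≠ 0 := by
  simp [mon]

variable {Ω : Type*} [Field Ω] [Algebra k Ω] [Algebra K Ω] [IsScalarTower k K Ω]

omit [Fintype σ] [DecidableEq σ] [Algebra (MvPolynomial σ k) K]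
  [IsScalarTower k (MvPolynomial σ k) K] [IsFractionRing (MvPolynomial σ k) K] [Algebra k Ω]
  [IsScalarTower k K Ω] in
lemma bdd (ψ : Ω →ₗ[K] K) (A : Subalgebra k K) (u : Ω) (hu : IsIntegral A u) :
    ∃ T : Finset K, ∀ q : ℕ, ψ (u ^ q) ∈ Submodule.span A (T : Set K) := by
  classical
  obtain ⟨S, hS⟩ := hu.fg_adjoin_singleton
  refine ⟨S.image ψ, fun q => ?_⟩
  have h1 : u ^ q ∈ Submodule.span A (S : Set Ω) := by
    rw [hS]
    exact Subalgebra.pow_mem _ (Algebra.self_mem_adjoin_singleton A u) q
  have h2 := Submodule.mem_map_of_mem (f := ψ.restrictScalars A) h1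
  rw [Submodule.map_span] at h2
  simpa using h2

lemma key (p : ℕ) [Fact p.Prime] [CharP Ω p] (i0 : σ) (u : σ → Ω) (v : Ω)
    (hu : ∀ i, IsIntegral (Ai k K i) (u i)) (hv : IsIntegral (A0 σ k K) v)
    (h : algebraMap K Ω (mon k K (one' σ))⁻¹ = ∑ i, u i +
      algebraMap K Ω (mon k K (Finsupp.single i0 (Fintype.card σ + 1)))⁻¹ * v) : False := by
  classical
  obtain ⟨ψ, hψ⟩ : ∃ ψ : Ω →ₗ[K] K, ψ 1 = 1 := by
    obtain ⟨g, -, hg⟩ := LinearMap.exists_extend_of_notMem (K := K) (V := Ω)
      (0 : (⊥ : Submodule K Ω) →ₗ[K] K) (v := 1) (by simp) 1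
    exact ⟨g, hg⟩
  choose T hT using fun i => bdd ψ (Ai k K i) (u i) (hu i)
  obtain ⟨T0, hT0⟩ := bdd ψ (A0 σ k K) v hv
  obtain ⟨c, hc⟩ := IsLocalization.exist_integer_multiples_of_finset
    (nonZeroDivisors (MvPolynomial σ k)) (T0 ∪ Finset.univ.biUnion T)
  have hc0 : (c : MvPolynomial σ k) ≠ 0 := nonZeroDivisors.coe_ne_zero c
  choose F hF using hc
  set D := (T0 ∪ Finset.univ.biUnion T).attach.sup fun z => (F z.1 z.2).totalDegree with hD
  have hD' : ∀ z hz, (F z hz).totalDegree ≤ D := fun z hz =>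
    Finset.le_sup (f := fun z : {x // x ∈ T0 ∪ Finset.univ.biUnion T} => (F z.1 z.2).totalDegree)
      (Finset.mem_attach _ ⟨z, hz⟩)
  have h1 : ∀ i q, algebraMap _ K (c : MvPolynomial σ k) * ψ (u i ^ q) ∈ Ai k K i := by
    intro i q
    refine Submodule.span_induction (p := fun x _ =>
      algebraMap _ K (c : MvPolynomial σ k) * x ∈ Ai k K i) ?_ ?_ ?_ ?_ (hT i q)
    · intro z hz
      have hz' : z ∈ T0 ∪ Finset.univ.biUnion T := by
        simp only [Finset.mem_union, Finset.mem_biUnion]; exact Or.inr ⟨i, by simp, hz⟩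
      refine ⟨0, F z hz', rfl, ?_⟩
      rw [mon_zero, mul_one, hF z hz', Algebra.smul_def]
    · simp
    · intro x y _ _ hx hy
      rw [mul_add]; exact add_mem hx hy
    · intro a x _ hx
      rw [Subalgebra.smul_def, smul_eq_mul, mul_left_comm]; exact mul_mem a.2 hx
  have h2 : ∀ q, algebraMap _ K (c : MvPolynomial σ k) * ψ (v ^ q) *
      (mon k K (Finsupp.single i0 D))⁻¹ ∈ A0 σ k K := by
    intro q
    refine Submodule.span_induction (p := fun x _ =>
      algebraMap _ K (c : MvPolynomial σ k) * x * (mon k K (Finsupp.single i0 D))⁻¹ ∈ A0 σ k K)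
      ?_ ?_ ?_ ?_ (hT0 q)
    · intro z hz
      have hz' : z ∈ T0 ∪ Finset.univ.biUnion T := by
        simp only [Finset.mem_union]; exact Or.inl hz
      refine ⟨Finsupp.single i0 D, F z hz', by simpa using hD' z hz', ?_⟩
      rw [hF z hz', Algebra.smul_def, mul_assoc, inv_mul_cancel₀ (mon_ne_zero _), mul_one]
    · simp
    · intro x y _ _ hx hy
      rw [mul_add, add_mul]; exact add_mem hx hy
    · intro a x _ hx
      rw [Subalgebra.smul_def, smul_eq_mul, mul_left_comm, mul_assoc]; exact mul_mem a.2 hx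
  obtain ⟨γ, hγ⟩ := MvPolynomial.ne_zero_iff.1 hc0
  obtain ⟨e, he⟩ : ∃ e, D + γ.degree < p ^ e :=
    ⟨_, Nat.lt_pow_self (Fact.out : p.Prime).one_lt⟩
  set q := p ^ e with hq
  have h3 : algebraMap K Ω ((mon k K (one' σ))⁻¹ ^ q) = ∑ i, u i ^ q +
      algebraMap K Ω ((mon k K (Finsupp.single i0 (Fintype.card σ + 1)))⁻¹ ^ q) * v ^ q := by
    rw [map_pow, h, hq, add_pow_char_pow, sum_pow_char_pow, mul_pow, map_pow]
  have h4 : (mon k K (one' σ))⁻¹ ^ q = ∑ i, ψ (u i ^ q) +
      (mon k K (Finsupp.single i0 (Fintype.card σ + 1)))⁻¹ ^ q * ψ (v ^ q) := by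
    have := congrArg ψ h3
    rw [Algebra.algebraMap_eq_smul_one, map_smul, hψ, map_add, map_sum, ← Algebra.smul_def,
      map_smul] at this
    simpa using this
  choose b f hb hf using fun i => h1 i q
  obtain ⟨b0, f0, hb0, hf0⟩ := h2 q
  set B := ∑ i, b i with hB
  have hBi : ∀ i, ∃ r, B = b i + r := fun i =>
    ⟨∑ j ∈ Finset.univ.erase i, b j, by rw [hB, Finset.add_sum_erase _ _ (Finset.mem_univ i)]⟩
  choose r hr using hBi
  set E : σ →₀ ℕ := q • Finsupp.single i0 (Fintype.card σ + 1) with hE
  have h5 : (c : MvPolynomial σ k) * monomial (B + b0 + E) 1 =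
      ∑ i, f i * monomial (r i + b0 + E + q • one' σ) 1 +
      f0 * monomial (B + Finsupp.single i0 D + q • one' σ) 1 := by
    apply IsFractionRing.injective (MvPolynomial σ k) K
    simp only [map_mul, map_add, map_sum]
    change _ * mon k K _ = ∑ i, _ * mon k K _ + _ * mon k K _
    have e1 : ∀ i, algebraMap _ K (f i) * mon k K (r i + b0 + E + q • one' σ) =
        algebraMap _ K (c : MvPolynomial σ k) * ψ (u i ^ q) *
          (mon k K B * mon k K b0 * mon k K E * mon k K (one' σ) ^ q) := by
      intro i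
      rw [← hf i, hr i]; simp only [mon_add, mon_smul]; ring
    simp only [e1]
    rw [← hf0, ← Finset.sum_mul, ← Finset.mul_sum]
    have h6 : ∑ i, ψ (u i ^ q) = (mon k K (one' σ))⁻¹ ^ q -
      (mon k K (Finsupp.single i0 (Fintype.card σ + 1)))⁻¹ ^ q * ψ (v ^ q) := by
      rw [h4]; ring
    rw [h6, hE]
    simp only [mon_add, mon_smul, inv_pow]
    have n1 := mon_ne_zero (k := k) (K := K) (one' σ)
    have n2 := mon_ne_zero (k := k) (K := K) (Finsupp.single i0 (Fintype.card σ + 1))
    have n3 := mon_ne_zero (k := k) (K := K) (Finsupp.single i0 D)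
    field_simp
    ring
  have h7 := congrArg (coeff (γ + (B + b0 + E))) h5
  rw [coeff_mul_monomial, mul_one, coeff_add, coeff_sum] at h7
  apply hγ
  rw [h7, Finset.sum_eq_zero, zero_add]
  · rw [coeff_mul_monomial']
    split_ifs with hle
    · rw [mul_one]
      apply coeff_eq_zero_of_totalDegree_lt
      obtain ⟨w, hw⟩ := exists_add_of_le hle
      rw [hw, add_tsub_cancel_left]
      have := congrArg Finsupp.degree hw
      simp only [map_add, map_nsmul, hE, Finsupp.degree_single, degree_one', smul_eq_mul] at this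
      change _ < w.degree
      have h8 : q * (Fintype.card σ + 1) = q * Fintype.card σ + q := by ring
      omega
    · rfl
  · intro i _
    rw [coeff_mul_monomial', if_neg]
    intro hle
    have := hle i
    have h9 := congrArg (fun x => x i) (hr i)
    have h10 : γ i ≤ γ.degree := Finsupp.le_degree i γ
    simp only [Finsupp.add_apply, Finsupp.smul_apply, one'_apply, smul_eq_mul, mul_one,
      hb i] at this h9
    omega

omit [Fintype σ] [DecidableEq σ] [Algebra (MvPolynomial σ k) K]
  [IsScalarTower k (MvPolynomial σ k) K] [IsFractionRing (MvPolynomial σ k) K] [Algebra k Ω]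
  [IsScalarTower k K Ω] in
lemma integral_scale (A : Subalgebra k K) (y : K) (s : Ω) (P : Polynomial K) (hP : P.Monic)
    (hs : Polynomial.aeval s P = 0) (hc : ∀ j, P.coeff j * y ^ (P.natDegree - j) ∈ A) :
    IsIntegral A (algebraMap K Ω y * s) := by
  have h1 : P.scaleRoots y ∈ Polynomial.lifts (algebraMap A K) := by
    rw [Polynomial.lifts_iff_coeff_lifts]
    intro j
    exact ⟨⟨_, hc j⟩, by simp⟩
  obtain ⟨Q, hQ, -, hQm⟩ := Polynomial.lifts_and_natDegree_eq_and_monic h1
    ((Polynomial.monic_scaleRoots_iff y).2 hP)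
  refine ⟨Q, hQm, ?_⟩
  have h2 := Polynomial.scaleRoots_aeval_eq_zero (r := y) hs
  rw [← hQ, Polynomial.aeval_map_algebraMap] at h2
  exact h2

variable [Algebra (MvPolynomial σ k) Ω] [IsScalarTower (MvPolynomial σ k) K Ω]

lemma poly_mem_Ai (i : σ) (f : MvPolynomial σ k) : algebraMap _ K f ∈ Ai k K i :=
  ⟨0, f, rfl, by rw [mon_zero, mul_one]⟩

lemma integral_Ai (i : σ) (s : Ω) (hs : IsIntegral (MvPolynomial σ k) s) :
    IsIntegral (Ai k K i) s := by
  obtain ⟨P, hP, hP'⟩ := hs
  have := integral_scale (Ai k K i) 1 s (P.map (algebraMap _ K)) (hP.map _)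
    (by rw [Polynomial.aeval_map_algebraMap]; exact hP') (by
      intro j
      rw [one_pow, mul_one, Polynomial.coeff_map]; exact poly_mem_Ai i _)
  simpa using this

lemma integral_A0 (i0 : σ) (s : Ω) (hs : IsIntegral (MvPolynomial σ k) s) :
    ∃ n : ℕ, IsIntegral (A0 σ k K) (algebraMap K Ω (mon k K (Finsupp.single i0 n))⁻¹ * s) := by
  obtain ⟨P, hP, hP'⟩ := hs
  refine ⟨P.support.sup fun j => (P.coeff j).totalDegree, ?_⟩
  set n := P.support.sup fun j => (P.coeff j).totalDegree with hn
  have hn' : ∀ j, (P.coeff j).totalDegree ≤ n := by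
    intro j
    by_cases h : j ∈ P.support
    · exact Finset.le_sup (f := fun j => (P.coeff j).totalDegree) h
    · rw [Polynomial.notMem_support_iff.1 h]; simp
  refine integral_scale (A0 σ k K) _ s (P.map (algebraMap _ K)) (hP.map _)
    (by rw [Polynomial.aeval_map_algebraMap]; exact hP') ?_
  intro j
  rw [hP.natDegree_map, Polynomial.coeff_map]
  refine ⟨(P.natDegree - j) • Finsupp.single i0 n, P.coeff j, ?_, ?_⟩
  · rcases lt_trichotomy j P.natDegree with h | h | h
    · simp only [map_nsmul, Finsupp.degree_single, smul_eq_mul]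
      have : 1 * n ≤ (P.natDegree - j) * n := Nat.mul_le_mul_right _ (by omega)
      have := hn' j
      omega
    · rw [h, hP.coeff_natDegree]; simp
    · rw [Polynomial.coeff_eq_zero_of_natDegree_lt h]; simp
  · rw [mon_smul, mul_assoc, ← mul_pow, inv_mul_cancel₀ (mon_ne_zero _), one_pow, mul_one]

theorem exists_functional (p : ℕ) [Fact p.Prime] [CharP Ω p] (i0 : σ) :
    ∃ l : Ω →ₗ[k] k, l (algebraMap K Ω (mon k K (one' σ))⁻¹) = 1 ∧
      (∀ (i : σ) u, IsIntegral (Ai k K i) u → l u = 0) ∧
      (∀ v, IsIntegral (A0 σ k K) v →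
        l (algebraMap K Ω (mon k K (Finsupp.single i0 (Fintype.card σ + 1)))⁻¹ * v) = 0) := by
  classical
  let U : Submodule k Ω :=
    { carrier := {z | ∃ (u : σ → Ω) (v : Ω), (∀ i, IsIntegral (Ai k K i) (u i)) ∧
        IsIntegral (A0 σ k K) v ∧ z = ∑ i, u i +
        algebraMap K Ω (mon k K (Finsupp.single i0 (Fintype.card σ + 1)))⁻¹ * v}
      add_mem' := by
        rintro _ _ ⟨u, v, hu, hv, rfl⟩ ⟨u', v', hu', hv', rfl⟩
        refine ⟨u + u', v + v', fun i => (hu i).add (hu' i), hv.add hv', ?_⟩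
        simp only [Pi.add_apply, Finset.sum_add_distrib]; ring
      zero_mem' := ⟨0, 0, fun i => isIntegral_zero, isIntegral_zero, by simp⟩
      smul_mem' := by
        rintro a _ ⟨u, v, hu, hv, rfl⟩
        have h1 : ∀ A : Subalgebra k K, IsIntegral A (algebraMap k Ω a) := fun A => by
          have : algebraMap k Ω a = algebraMap A Ω (algebraMap k A a) := by
            rw [IsScalarTower.algebraMap_apply A K Ω, IsScalarTower.algebraMap_apply k K Ω]; rfl
          rw [this]; exact isIntegral_algebraMap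
        refine ⟨fun i => algebraMap k Ω a * u i, algebraMap k Ω a * v,
          fun i => (h1 _).mul (hu i), (h1 _).mul hv, ?_⟩
        rw [Algebra.smul_def, ← Finset.mul_sum]; ring }
  have hU : algebraMap K Ω (mon k K (one' σ))⁻¹ ∉ U := by
    rintro ⟨u, v, hu, hv, h⟩
    exact key p i0 u v hu hv h
  obtain ⟨l, hl, hl'⟩ := LinearMap.exists_extend_of_notMem (0 : U →ₗ[k] k) hU 1
  have hz : ∀ z ∈ U, l z = 0 := fun z hz => by simpa using congr($hl ⟨z, hz⟩)
  refine ⟨l, hl', fun i u hu => hz _ ⟨Pi.single i u, 0, fun j => ?_, isIntegral_zero, by simp⟩,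
    fun v hv => hz _ ⟨0, v, fun i => isIntegral_zero, hv, by simp⟩⟩
  by_cases h : j = i
  · subst h; simpa using hu
  · simp [h, isIntegral_zero]

include K in
theorem split' (p : ℕ) [Fact p.Prime] [CharP Ω p] (i0 : σ) :
    ∃ φ : integralClosure (MvPolynomial σ k) Ω →ₗ[MvPolynomial σ k] MvPolynomial σ k,
      coeff 0 (φ 1) = 1 := by
  classical
  obtain ⟨l, hl1, hl2, hl3⟩ := exists_functional (k := k) (K := K) (Ω := Ω) p i0
  have hfin : ∀ s : integralClosure (MvPolynomial σ k) Ω, ∃ f : MvPolynomial σ k,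
      ∀ α, coeff α f = l (algebraMap K Ω (mon k K (α + one' σ))⁻¹ * s) := by
    intro s
    obtain ⟨n, hn⟩ := integral_A0 (K := K) i0 s.1 s.2
    have hF := Finsupp.finite_of_degree_le (σ := σ) n
    refine ⟨∑ α ∈ hF.toFinset, monomial α (l (algebraMap K Ω (mon k K (α + one' σ))⁻¹ * s)),
      fun α => ?_⟩
    simp only [coeff_sum, coeff_monomial, Finset.sum_ite_eq', Set.Finite.mem_toFinset,
      Set.mem_setOf_eq]
    split_ifs with h
    · rfl
    · symm
      have hm : mon k K (Finsupp.single i0 (n + (Fintype.card σ + 1))) *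
          (mon k K (α + one' σ))⁻¹ ∈ A0 σ k K := by
        refine ⟨α + one' σ, monomial (Finsupp.single i0 (n + (Fintype.card σ + 1))) 1, ?_, ?_⟩
        · refine (totalDegree_monomial_le _ _).trans ?_
          change Finsupp.degree _ ≤ _
          simp only [map_add, Finsupp.degree_single, degree_one']
          omega
        · rw [mul_assoc, inv_mul_cancel₀ (mon_ne_zero _), mul_one]; rfl
      have h2 : IsIntegral (A0 σ k K) (algebraMap (A0 σ k K) Ω ⟨_, hm⟩) := isIntegral_algebraMap
      have h3 := hl3 _ (h2.mul hn)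
      rw [← h3]
      congr 1
      rw [IsScalarTower.algebraMap_apply (A0 σ k K) K Ω, ← mul_assoc, ← mul_assoc, ← map_mul,
        ← map_mul]
      congr 2
      rw [Subalgebra.algebraMap_apply]
      dsimp only
      rw [Finsupp.single_add i0 n, mon_add (Finsupp.single i0 n)]
      have n2 := mon_ne_zero (k := k) (K := K) (Finsupp.single i0 (Fintype.card σ + 1))
      have n3 := mon_ne_zero (k := k) (K := K) (Finsupp.single i0 n)
      field_simp
  choose φ hφ using hfin
  have hadd : ∀ s t, φ (s + t) = φ s + φ t := by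
    intro s t; ext α; simp [hφ, mul_add]
  have hsm : ∀ (f : MvPolynomial σ k) s, φ (f • s) = f * φ s := by
    intro f
    induction f using MvPolynomial.induction_on with
    | C a =>
      intro s; ext α
      rw [coeff_C_mul, hφ, hφ, ← smul_eq_mul a, ← map_smul]
      congr 1
      rw [Subalgebra.coe_smul, Algebra.smul_def, Algebra.smul_def,
        IsScalarTower.algebraMap_apply k K Ω,
        IsScalarTower.algebraMap_apply k (MvPolynomial σ k) K,
        IsScalarTower.algebraMap_apply (MvPolynomial σ k) K Ω]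
      simp only [algebraMap_eq]; ring
    | add f g hf hg => intro s; rw [add_smul, hadd, hf, hg, add_mul]
    | mul_X f i hf =>
      intro s
      rw [mul_smul, hf, mul_assoc]
      congr 1
      ext α
      rw [coeff_X_mul', hφ, hφ, Subalgebra.coe_smul, Algebra.smul_def,
        IsScalarTower.algebraMap_apply (MvPolynomial σ k) K Ω, ← mul_assoc, ← map_mul]
      have hX : algebraMap (MvPolynomial σ k) K (X i) = mon k K (Finsupp.single i 1) := rfl
      rw [hX]
      have n3 := mon_ne_zero (k := k) (K := K) (Finsupp.single i 1)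
      split_ifs with h
      · congr 3
        have : α + one' σ = (α - Finsupp.single i 1 + one' σ) + Finsupp.single i 1 := by
          rw [add_right_comm, tsub_add_cancel_of_le]
          simpa [Finsupp.single_le_iff, Nat.one_le_iff_ne_zero] using h
        rw [this, mon_add]
        field_simp
      · have hm : (mon k K (α + one' σ))⁻¹ * mon k K (Finsupp.single i 1) ∈ Ai k K i := by
          refine ⟨α + (one' σ - Finsupp.single i 1), 1, ?_, ?_⟩
          · simpa using h
          · rw [mul_assoc, ← mon_add, map_one]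
            have : Finsupp.single i 1 + (α + (one' σ - Finsupp.single i 1)) = α + one' σ := by
              rw [add_left_comm, add_tsub_cancel_of_le]
              simp [Finsupp.single_le_iff]
            rw [this, inv_mul_cancel₀ (mon_ne_zero _)]
        have h2 : IsIntegral (Ai k K i) (algebraMap (Ai k K i) Ω ⟨_, hm⟩) := isIntegral_algebraMap
        exact hl2 i _ (h2.mul (integral_Ai i s.1 s.2))
  refine ⟨{ toFun := φ, map_add' := hadd, map_smul' := hsm }, ?_⟩
  change coeff 0 (φ 1) = 1
  rw [hφ]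
  simpa using hl1

theorem split {k : Type*} [Field k] {σ : Type*} [Fintype σ] {Ω : Type*} [Field Ω]
    [Algebra (MvPolynomial σ k) Ω] [FaithfulSMul (MvPolynomial σ k) Ω]
    (p : ℕ) [Fact p.Prime] [CharP k p] (i0 : σ) :
    ∃ φ : integralClosure (MvPolynomial σ k) Ω →ₗ[MvPolynomial σ k] MvPolynomial σ k,
      coeff 0 (φ 1) = 1 := by
  classical
  letI : Algebra k Ω := ((algebraMap (MvPolynomial σ k) Ω).comp (algebraMap k _)).toAlgebra
  letI : Algebra (FractionRing (MvPolynomial σ k)) Ω := FractionRing.liftAlgebra _ _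
  haveI : IsScalarTower (MvPolynomial σ k) (FractionRing (MvPolynomial σ k)) Ω :=
    FractionRing.isScalarTower_liftAlgebra _ _
  haveI : IsScalarTower k (FractionRing (MvPolynomial σ k)) Ω := by
    apply IsScalarTower.of_algebraMap_eq
    intro a
    rw [IsScalarTower.algebraMap_apply k (MvPolynomial σ k) (FractionRing (MvPolynomial σ k)),
      ← IsScalarTower.algebraMap_apply]
    rfl
  haveI : CharP Ω p := charP_of_injective_algebraMap (algebraMap k Ω).injective p
  exact split' (K := FractionRing (MvPolynomial σ k)) p i0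

theorem split_poly {k : Type*} [Field k] {Ω : Type*} [Field Ω]
    [Algebra (Polynomial k) Ω] [FaithfulSMul (Polynomial k) Ω]
    (p : ℕ) [Fact p.Prime] [CharP k p] :
    ∃ φ : integralClosure (Polynomial k) Ω →ₗ[Polynomial k] Polynomial k, φ ≠ 0 := by
  let e : MvPolynomial Unit k ≃+* Polynomial k := (MvPolynomial.uniqueAlgEquiv k Unit).toRingEquiv
  letI : Algebra (MvPolynomial Unit k) Ω :=
    ((algebraMap (Polynomial k) Ω).comp e.toRingHom).toAlgebra
  haveI : FaithfulSMul (MvPolynomial Unit k) Ω := by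
    rw [faithfulSMul_iff_algebraMap_injective]
    exact (FaithfulSMul.algebraMap_injective (Polynomial k) Ω).comp e.injective
  obtain ⟨φ, hφ⟩ := split (k := k) (σ := Unit) (Ω := Ω) p ()
  have he : ∀ f : Polynomial k, algebraMap (MvPolynomial Unit k) Ω (e.symm f) =
      algebraMap (Polynomial k) Ω f := fun f => by
    change algebraMap (Polynomial k) Ω (e (e.symm f)) = _
    rw [e.apply_symm_apply]
  have hi : ∀ s : integralClosure (Polynomial k) Ω, IsIntegral (MvPolynomial Unit k) (s : Ω) :=
    fun s => IsIntegral.map_of_comp_eq (e.symm : Polynomial k →+* MvPolynomial Unit k)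
      (RingHom.id Ω) (RingHom.ext he) s.2
  refine ⟨{ toFun := fun s => e (φ ⟨s, hi s⟩), map_add' := ?_, map_smul' := ?_ }, ?_⟩
  · intro s t
    rw [← map_add, ← map_add]; rfl
  · intro f s
    have : (⟨(f • s : integralClosure (Polynomial k) Ω), hi _⟩ :
        integralClosure (MvPolynomial Unit k) Ω) = e.symm f • ⟨s, hi s⟩ := by
      apply Subtype.ext
      rw [Subalgebra.coe_smul, Subalgebra.coe_smul, Algebra.smul_def, Algebra.smul_def, he]
    rw [this, map_smul, smul_eq_mul, map_mul, e.apply_symm_apply]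
    rfl
  · intro h
    have h1 := congrArg (fun ψ => ψ 1) h
    have h2 : e (φ 1) = 0 := h1
    rw [map_eq_zero_iff _ e.injective] at h2
    rw [h2] at hφ
    simp at hφ

end Pool.Agent.H66.Solid
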