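import Pool.Agent.H66.SpecDefs

/-! General facts on faces; the countability lemma. -/

namespace Pool.Agent.H66.Spec

open scoped RealInnerProductSpace
open Set Module

variable {V : Type} [NormedAddCommGroup V] [InnerProductSpace ℝ V]

theorem dim_eq (F : Set V) : dim F = finrank ℝ (vectorSpan ℝ F) := by
  unfold dim; rw [direction_affineSpan]

theorem isFace_self {S : Set V} (hS : Convex ℝ S) : IsFace S S :=
  ⟨subset_rfl, hS, fun _ hx _ hy _ => ⟨hx, hy⟩⟩

theorem IsFace.inter {S F G : Set V} (hF : IsFace S F) (hG : IsFace S G) : IsFace S (F ∩ G) := by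
  refine ⟨fun x hx => hF.1 hx.1, hF.2.1.inter hG.2.1, fun x hx y hy h => ?_⟩
  obtain ⟨m, hm, hmF, hmG⟩ := h
  have h1 := hF.2.2 x hx y hy ⟨m, hm, hmF⟩
  have h2 := hG.2.2 x hx y hy ⟨m, hm, hmG⟩
  exact ⟨⟨h1.1, h2.1⟩, ⟨h1.2, h2.2⟩⟩

theorem isFace_exposed {S : Set V} (hS : Convex ℝ S) (u : V) (c : ℝ) (h : ∀ x ∈ S, ⟪u, x⟫ ≤ c) :
    IsFace S {x | x ∈ S ∧ ⟪u, x⟫ = c} := by
  refine ⟨fun x hx => hx.1, ?_, ?_⟩
  · intro x hx y hy a b ha hb hab
    refine ⟨hS hx.1 hy.1 ha hb hab, ?_⟩
    rw [inner_add_right, inner_smul_right, inner_smul_right, hx.2, hy.2, ← add_mul, hab, one_mul]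
  · rintro x hx y hy ⟨m, ⟨a, b, ha, hb, hab, rfl⟩, -, hm⟩
    rw [inner_add_right, inner_smul_right, inner_smul_right] at hm
    have h1 := h x hx
    have h2 := h y hy
    have hc : c = a * c + b * c := by rw [← add_mul, hab, one_mul]
    refine ⟨⟨hx, ?_⟩, ⟨hy, ?_⟩⟩
    · nlinarith
    · nlinarith

/-- a face containing `p` contains every `x` such that `p + ε (p - x)` stays in `S`. -/
theorem IsFace.mem_of {S F : Set V} (hF : IsFace S F) {p x : V} (hp : p ∈ F) (hx : x ∈ S)
    {ε : ℝ} (hε : 0 < ε) (h : p + ε • (p - x) ∈ S) : x ∈ F := by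
  refine (hF.2.2 x hx _ h ⟨p, ⟨ε / (1 + ε), 1 / (1 + ε), by positivity, by positivity, ?_, ?_⟩,
    hp⟩).1
  · field_simp; ring
  · have : (1 + ε) ≠ 0 := by positivity
    match_scalars <;> field_simp <;> ring

theorem shrink {S : Set V} (hS : Convex ℝ S) {p w : V} (hp : p ∈ S) {ε δ : ℝ} (hε : 0 < ε)
    (h : p + ε • w ∈ S) (h0 : 0 ≤ δ) (hδ : δ ≤ ε) : p + δ • w ∈ S := by
  have := hS hp h (a := 1 - δ / ε) (b := δ / ε) (by rw [sub_nonneg, div_le_one hε]; exact hδ)
    (by positivity) (by ring)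
  convert this using 1
  match_scalars <;> field_simp <;> ring

/-- the space of two-sided directions at `p` -/
def W {S : Set V} (hS : Convex ℝ S) {p : V} (hp : p ∈ S) : Submodule ℝ V where
  carrier := {w | ∃ ε > (0 : ℝ), p + ε • w ∈ S ∧ p + ε • (-w) ∈ S}
  zero_mem' := ⟨1, one_pos, by simpa using hp, by simpa using hp⟩
  add_mem' := by
    rintro v w ⟨a, ha, h1, h2⟩ ⟨b, hb, h3, h4⟩
    have key : ∀ v w : V, p + a • v ∈ S → p + b • w ∈ S →
        p + (a * b / (a + b)) • (v + w) ∈ S := by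
      intro v w h1 h3
      have := hS h1 h3 (a := b / (a + b)) (b := a / (a + b)) (by positivity) (by positivity)
        (by field_simp; ring)
      convert this using 1
      match_scalars <;> field_simp <;> ring
    refine ⟨a * b / (a + b), by positivity, key _ _ h1 h3, ?_⟩
    rw [neg_add]; exact key _ _ h2 h4
  smul_mem' := by
    rintro c w ⟨a, ha, h1, h2⟩
    rcases lt_trichotomy c 0 with hc | hc | hc
    · refine ⟨a / (-c), div_pos ha (neg_pos.2 hc), ?_, ?_⟩
      · convert h2 using 2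
        have := hc.ne
        match_scalars; field_simp
      · convert h1 using 2
        have := hc.ne
        match_scalars; field_simp
    · subst hc; exact ⟨1, one_pos, by simpa using hp, by simpa using hp⟩
    · refine ⟨a / c, by positivity, ?_, ?_⟩
      · convert h1 using 2
        match_scalars; field_simp
      · convert h2 using 2
        match_scalars; field_simp

theorem mem_W {S : Set V} (hS : Convex ℝ S) {p : V} (hp : p ∈ S) {w : V} :
    w ∈ W hS hp ↔ ∃ ε > (0 : ℝ), p + ε • w ∈ S ∧ p + ε • (-w) ∈ S := Iff.rfl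

theorem sub_mem_W {S : Set V} (hS : Convex ℝ S) {p x : V} (hp : p ∈ S) (hx : x ∈ S) {ε : ℝ}
    (hε : 0 < ε) (h : p + ε • (p - x) ∈ S) : x - p ∈ W hS hp := by
  refine ⟨min ε 1, lt_min hε one_pos, ?_, ?_⟩
  · exact shrink hS hp one_pos (by simpa using hx) (lt_min hε one_pos).le (min_le_right _ _)
  · rw [neg_sub]
    exact shrink hS hp hε h (lt_min hε one_pos).le (min_le_left _ _)

/-- the minimal face -/
theorem isFace_min {S : Set V} (hS : Convex ℝ S) {p : V} (hp : p ∈ S) :
    IsFace S {x | x ∈ S ∧ x - p ∈ W hS hp} := by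
  refine ⟨fun x hx => hx.1, ?_, ?_⟩
  · intro x hx y hy a b ha hb hab
    refine ⟨hS hx.1 hy.1 ha hb hab, ?_⟩
    have : a • x + b • y - p = a • (x - p) + b • (y - p) := by
      have : b = 1 - a := by linarith
      subst this; module
    rw [this]
    exact add_mem (Submodule.smul_mem _ _ hx.2) (Submodule.smul_mem _ _ hy.2)
  · have key : ∀ x ∈ S, ∀ y ∈ S, ∀ a b : ℝ, 0 < a → 0 < b → a + b = 1 →
        a • x + b • y - p ∈ W hS hp → x - p ∈ W hS hp := by
      rintro x hx y hy a b ha hb hab ⟨ε, hε, -, h⟩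
      refine sub_mem_W hS hp hx (ε := ε * a / (1 + ε * b)) (by positivity) ?_
      have := hS h hy (a := 1 / (1 + ε * b)) (b := ε * b / (1 + ε * b)) (by positivity)
        (by positivity) (by field_simp)
      convert this using 1
      have hb' : a = 1 - b := by linarith
      subst hb'
      match_scalars <;> field_simp <;> ring
    rintro x hx y hy ⟨m, ⟨a, b, ha, hb, hab, rfl⟩, -, hm⟩
    refine ⟨⟨hx, key x hx y hy a b ha hb hab hm⟩,
      ⟨hy, key y hy x hx b a hb ha (by linarith) (by rwa [add_comm])⟩⟩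

theorem vectorSpan_le_of {F : Set V} {p : V} (hp : p ∈ F) {U : Submodule ℝ V}
    (h : ∀ x ∈ F, x - p ∈ U) : vectorSpan ℝ F ≤ U := by
  rw [vectorSpan_eq_span_vsub_set_right ℝ hp, Submodule.span_le]
  rintro _ ⟨x, hx, rfl⟩
  exact h x hx

theorem sub_mem_vs {F : Set V} {x y : V} (hx : x ∈ F) (hy : y ∈ F) : x - y ∈ vectorSpan ℝ F :=
  vsub_mem_vectorSpan ℝ hx hy

/-- relative interior point -/
theorem exists_relint [FiniteDimensional ℝ V] {S F : Set V} (hS : Convex ℝ S) (hFS : F ⊆ S)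
    (hF : Convex ℝ F) (hne : F.Nonempty) :
    ∃ q, ∃ hq : q ∈ F, vectorSpan ℝ F ≤ W hS (hFS hq) := by
  classical
  let f : F → ℕ := fun q => finrank ℝ (W hS (hFS q.2))
  have hb : ∀ q, f q ≤ finrank ℝ V := fun q => Submodule.finrank_le _
  haveI : Nonempty F := hne.to_subtype
  obtain ⟨q, hq⟩ : ∃ q : F, ∀ r, f r ≤ f q := by
    have hfin : (range f).Finite := (finite_le_nat (finrank ℝ V)).subset (by
      rintro _ ⟨q, rfl⟩; exact hb q)
    obtain ⟨_, ⟨q, rfl⟩, h⟩ := hfin.exists_maximal (range_nonempty f)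
    exact ⟨q, fun r => by
      by_contra hlt
      exact hlt (h ⟨r, rfl⟩ (not_le.1 hlt).le)⟩
  refine ⟨q, q.2, vectorSpan_le_of q.2 fun x hx => ?_⟩
  have hm : (1 / 2 : ℝ) • x + (1 / 2 : ℝ) • (q : V) ∈ F :=
    hF hx q.2 (by norm_num) (by norm_num) (by norm_num)
  have hle : W hS (hFS q.2) ≤ W hS (hFS hm) := by
    rintro w ⟨ε, hε, h1, h2⟩
    refine ⟨ε / 2, by positivity, ?_, ?_⟩
    · have := hS (hFS hx) h1 (a := 1 / 2) (b := 1 / 2) (by norm_num) (by norm_num) (by norm_num)
      convert this using 1; module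
    · have := hS (hFS hx) h2 (a := 1 / 2) (b := 1 / 2) (by norm_num) (by norm_num) (by norm_num)
      convert this using 1; module
  have heq := Submodule.eq_of_le_of_finrank_le hle (hq ⟨_, hm⟩)
  rw [heq]
  refine ⟨1 / 2, by norm_num, ?_, ?_⟩
  · convert hFS hx using 1; module
  · convert hFS q.2 using 1; module

theorem countable_lemma [FiniteDimensional ℝ V] [Nontrivial V] {A B : Set V} (hB : Convex ℝ B)
    (h1 : ∀ a ∈ A, ∀ b ∈ B, ⟪a, b⟫ ≤ 1)
    (h2 : ∀ a ∈ A, Submodule.span ℝ {b | b ∈ B ∧ ⟪a, b⟫ = 1} = ⊤) : A.Countable := by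
  let T : V → Set V := fun a => {w | ∃ t > (0 : ℝ), ∃ b ∈ B, ⟪a, b⟫ = 1 ∧ w = t • b}
  have hconv : ∀ a, Convex ℝ (T a) := by
    rintro a _ ⟨s, hs, x, hx, hx1, rfl⟩ _ ⟨t, ht, y, hy, hy1, rfl⟩ α β hα hβ hαβ
    have hpos : 0 < α * s + β * t := by
      rcases hα.eq_or_lt with h | h
      · subst h; have : β = 1 := by linarith
        subst this; simpa using ht
      · have := mul_nonneg hβ ht.le
        have := mul_pos h hs
        linarith
    refine ⟨α * s + β * t, hpos, (α * s / (α * s + β * t)) • x + (β * t / (α * s + β * t)) • y,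
      hB hx hy (by positivity) (by positivity) (by field_simp), ?_, ?_⟩
    · rw [inner_add_right, inner_smul_right, inner_smul_right, hx1, hy1]; field_simp
    · match_scalars <;> field_simp
  have hint : ∀ a ∈ A, (interior (T a)).Nonempty := by
    intro a ha
    have hne : {b | b ∈ B ∧ ⟪a, b⟫ = 1}.Nonempty := by
      by_contra h
      have := h2 a ha
      rw [not_nonempty_iff_eq_empty.1 h, Submodule.span_empty] at this
      exact bot_ne_top this
    obtain ⟨b0, hb0, hb1⟩ := hne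
    have hT : (T a).Nonempty := ⟨b0, 1, one_pos, b0, hb0, hb1, by simp⟩
    rw [(hconv a).interior_nonempty_iff_affineSpan_eq_top,
      AffineSubspace.affineSpan_eq_top_iff_vectorSpan_eq_top_of_nonempty ℝ V V
        hT, eq_top_iff, ← h2 a ha, Submodule.span_le]
    rintro b ⟨hb, hb1⟩
    have := sub_mem_vs (F := T a) (x := (2 : ℝ) • b) (y := b) ⟨2, two_pos, b, hb, hb1, rfl⟩
      ⟨1, one_pos, b, hb, hb1, by simp⟩
    rwa [show (2 : ℝ) • b - b = b by module] at this
  have hz : ∀ a ∈ A, ∀ a' ∈ A, ∀ w ∈ T a, w ∈ T a' → ⟪a - a', w⟫ = 0 := by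
    rintro a ha a' ha' _ ⟨s, hs, x, hx, hx1, rfl⟩ ⟨t, ht, y, hy, hy1, h⟩
    have e1 : ⟪a, s • x⟫ = s := by rw [inner_smul_right, hx1, mul_one]
    have e2 : ⟪a', s • x⟫ = t := by rw [h, inner_smul_right, hy1, mul_one]
    have l1 : ⟪a, s • x⟫ ≤ t := by
      rw [h, inner_smul_right]; nlinarith [h1 a ha y hy]
    have l2 : ⟪a', s • x⟫ ≤ s := by
      rw [inner_smul_right]; nlinarith [h1 a' ha' x hx]
    rw [inner_sub_left]; linarith
  refine Set.PairwiseDisjoint.countable_of_isOpen (s := fun a => interior (T a)) ?_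
    (fun _ _ => isOpen_interior) hint
  intro a ha a' ha' hne
  rw [Function.onFun, Set.disjoint_left]
  intro w hw hw'
  have hc : Continuous fun ε : ℝ => w + ε • (a - a') := by fun_prop
  have hev : ∀ᶠ ε in nhds (0 : ℝ), w + ε • (a - a') ∈ interior (T a) ∩ interior (T a') :=
    hc.continuousAt.eventually_mem ((isOpen_interior.inter isOpen_interior).mem_nhds
      (by rw [zero_smul, add_zero]; exact ⟨hw, hw'⟩))
  obtain ⟨ε, hε, hε0⟩ := ((hev.filter_mono nhdsWithin_le_nhds).and
    (self_mem_nhdsWithin (s := Ioi (0 : ℝ)) (a := 0))).exists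
  have e1 := hz a ha a' ha' w (interior_subset hw) (interior_subset hw')
  have e2 := hz a ha a' ha' _ (interior_subset hε.1) (interior_subset hε.2)
  rw [inner_add_right, e1, zero_add, inner_smul_right, mul_eq_zero] at e2
  rcases e2 with e | e
  · exact (ne_of_gt hε0) e
  · exact hne (sub_eq_zero.1 (inner_self_eq_zero.1 e))

theorem bipolar [FiniteDimensional ℝ V] {S : Set V} (hc : IsClosed S) (hS : Convex ℝ S)
    (h0 : (0 : V) ∈ S) {x : V} (hx : ∀ y ∈ polar S, ⟪x, y⟫ ≤ 1) : x ∈ S := by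
  by_contra h
  obtain ⟨f, u, h1, h2⟩ := geometric_hahn_banach_closed_point hS hc h
  have hu : 0 < u := by simpa using h1 0 h0
  haveI : CompleteSpace V := FiniteDimensional.complete ℝ V
  have key : ∀ z, ⟪z, u⁻¹ • (InnerProductSpace.toDual ℝ V).symm f⟫ = u⁻¹ * f z := by
    intro z
    rw [inner_smul_right, real_inner_comm, InnerProductSpace.toDual_symm_apply]
  have := hx (u⁻¹ • (InnerProductSpace.toDual ℝ V).symm f) (fun z hz => by
    rw [key, inv_mul_le_iff₀ hu, mul_one]; exact (h1 z hz).le)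
  rw [key, inv_mul_le_iff₀ hu, mul_one] at this
  linarith

theorem convex_polar (S : Set V) : Convex ℝ (polar S) := by
  intro x hx y hy a b ha hb hab z hz
  rw [inner_add_right, inner_smul_right, inner_smul_right]
  nlinarith [hx z hz, hy z hz]

end Pool.Agent.H66.Spec
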