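import Pool.Agent.H66.Spec1

/-! Signature `{0,2,3}` is impossible when `0 ∈ S` and `S`, `S°` are facially exposed. -/

namespace Pool.Agent.H66.Spec

open scoped RealInnerProductSpace
open Set Module

variable {V : Type} [NormedAddCommGroup V] [InnerProductSpace ℝ V]

theorem eq_of_dim_zero [FiniteDimensional ℝ V] {F : Set V} (h : dim F = 0) {x y : V}
    (hx : x ∈ F) (hy : y ∈ F) : x = y := by
  rw [dim_eq, Submodule.finrank_eq_zero] at h
  have := sub_mem_vs hx hy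
  rw [h, Submodule.mem_bot] at this
  exact sub_eq_zero.1 this

theorem no_line [FiniteDimensional ℝ V] {S E : Set V} (hc : IsClosed S) (hS : Convex ℝ S)
    (hE : IsFace S E) (hne : E.Nonempty) (h0 : dim E = 0) {q v : V}
    (h : ∀ t : ℝ, q + t • v ∈ S) : v = 0 := by
  obtain ⟨e, he⟩ := hne
  have key : ∀ v : V, (∀ t : ℝ, q + t • v ∈ S) → e + v ∈ S := by
    intro v h
    have hcont : Continuous fun s : ℝ => (1 - s) • e + s • q + v := by fun_prop
    have h1 : Filter.Tendsto (fun s : ℝ => (1 - s) • e + s • q + v) (nhdsWithin 0 (Ioi 0))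
        (nhds (e + v)) := by
      have := (hcont.tendsto 0).mono_left (nhdsWithin_le_nhds (s := Ioi 0))
      simpa using this
    refine hc.mem_of_tendsto h1 ?_
    filter_upwards [Ioo_mem_nhdsGT (zero_lt_one' ℝ)] with s hs
    have := hS (hE.1 he) (h s⁻¹) (a := 1 - s) (b := s) (by linarith [hs.2]) hs.1.le (by ring)
    convert this using 1
    have := hs.1.ne'
    match_scalars <;> field_simp
  have h1 := key v h
  have h2 := key (-v) (fun t => by simpa using h (-t))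
  have := (hE.2.2 _ h1 _ h2 ⟨e, ⟨1 / 2, 1 / 2, by norm_num, by norm_num, by norm_num, by module⟩,
    he⟩).1
  simpa using eq_of_dim_zero h0 this he

theorem exit_pt {S : Set V} (hc : IsClosed S) (hS : Convex ℝ S) {q v : V} (hq : q ∈ S) {ε : ℝ}
    (hε : 0 < ε) (h1 : q + ε • v ∈ S) {t : ℝ} (ht : 0 ≤ t) (h2 : q + t • v ∉ S) :
    ∃ s > (0 : ℝ), q + s • v ∈ S ∧ ∀ r > s, q + r • v ∉ S := by
  let T : Set ℝ := {s | q + s • v ∈ S}
  have hT : IsClosed T := hc.preimage (by fun_prop : Continuous fun s : ℝ => q + s • v)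
  have hb : BddAbove T := ⟨t, fun s hs => by
    by_contra h
    exact h2 (shrink hS hq (lt_of_le_of_lt ht (not_le.1 h)) hs ht (not_le.1 h).le)⟩
  have hm := hT.csSup_mem ⟨ε, h1⟩ hb
  exact ⟨sSup T, lt_of_lt_of_le hε (le_csSup hb h1), hm, fun r hr h => (not_le.2 hr) (le_csSup hb h)⟩

theorem extreme_family [FiniteDimensional ℝ V] {S E F : Set V} (hc : IsClosed S) (hS : Convex ℝ S)
    (hE : IsFace S E) (hne : E.Nonempty) (h0 : dim E = 0)
    (hsig : ∀ G, IsFace S G → G.Nonempty → dim G ≠ 1)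
    (hF : IsFace S F) (hFne : F.Nonempty) (h2 : dim F = 2) :
    ∃ q ∈ F, ∃ P : ℝ → V, Function.Injective P ∧ ∀ θ, P θ ∈ F ∧ P θ ≠ q ∧ IsFace S {P θ} := by
  obtain ⟨q, hq, hW⟩ := exists_relint hS hF.1 hF.2.1 hFne
  rw [dim_eq] at h2
  let b := Module.finBasisOfFinrankEq ℝ (vectorSpan ℝ F) h2
  have hli : ∀ s t : ℝ, s • (b 0 : V) + t • (b 1 : V) = 0 → s = 0 ∧ t = 0 := by
    intro s t h
    have h' : s • b 0 + t • b 1 = 0 := Subtype.ext (by simpa using h)
    have := Fintype.linearIndependent_iff.1 b.linearIndependent ![s, t] (by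
      simpa [Fin.sum_univ_two] using h')
    exact ⟨this 0, this 1⟩
  have main : ∀ v ∈ vectorSpan ℝ F, v ≠ 0 → ∃ s : ℝ, s ≠ 0 ∧ q + s • v ∈ F ∧
      IsFace S {q + s • v} := by
    have aux : ∀ v ∈ vectorSpan ℝ F, ∀ t : ℝ, 0 ≤ t → q + t • v ∉ S → ∃ s : ℝ, s ≠ 0 ∧
        q + s • v ∈ F ∧ IsFace S {q + s • v} := by
      intro v hv t ht hn
      obtain ⟨ε, hε, h1, h1'⟩ := hW hv
      obtain ⟨s, hs, hp, hmax⟩ := exit_pt hc hS (hF.1 hq) hε h1 ht hn
      have hpF : q + s • v ∈ F := by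
        refine hF.mem_of hq hp (ε := ε / s) (by positivity) ?_
        convert h1' using 2
        match_scalars <;> field_simp
        ring
      refine ⟨s, hs.ne', hpF, ?_⟩
      have hM := isFace_min hS hp
      set M := {x | x ∈ S ∧ x - (q + s • v) ∈ W hS hp} with hMdef
      have hpM : q + s • v ∈ M := ⟨hp, by simp⟩
      have hMF : M ⊆ F := by
        rintro x ⟨hx, δ, hδ, -, h⟩
        exact hF.mem_of hpF hx hδ (by rwa [neg_sub] at h)
      have hMW : vectorSpan ℝ M ≤ W hS hp := vectorSpan_le_of hpM fun x hx => hx.2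
      have hle : vectorSpan ℝ M ≤ vectorSpan ℝ F := vectorSpan_mono ℝ hMF
      have hd : dim M = 0 := by
        have h1 := hsig M hM ⟨_, hpM⟩
        rw [dim_eq] at h1 ⊢
        by_contra h3
        have heq := Submodule.eq_of_le_of_finrank_le hle (by omega)
        obtain ⟨δ, hδ, h4, -⟩ := hMW (heq ▸ hv)
        refine hmax (s + δ) (by linarith) ?_
        convert h4 using 1; module
      have : M = {q + s • v} := by
        ext x
        exact ⟨fun hx => eq_of_dim_zero hd hx hpM, fun hx => hx ▸ hpM⟩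
      rwa [this] at hM
    intro v hv hv0
    by_contra hcon
    refine hv0 (no_line hc hS hE hne h0 (q := q) fun t => ?_)
    by_contra ht
    rcases le_total 0 t with h | h
    · exact hcon (aux v hv t h ht)
    · obtain ⟨s, hs, h1, h2⟩ := aux (-v) (neg_mem hv) (-t) (by linarith) (by simpa using ht)
      refine hcon ⟨-s, neg_ne_zero.2 hs, by simpa using h1, by simpa using h2⟩
  have hv0 : ∀ θ : ℝ, (b 0 : V) + θ • (b 1 : V) ≠ 0 := fun θ h => by
    have := (hli 1 θ (by simpa using h)).1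
    exact one_ne_zero this
  choose s hs0 hsF hsf using fun θ : ℝ => main ((b 0 : V) + θ • (b 1 : V))
    (add_mem (b 0).2 (Submodule.smul_mem _ _ (b 1).2)) (hv0 θ)
  refine ⟨q, hq, fun θ => q + s θ • ((b 0 : V) + θ • (b 1 : V)), ?_, fun θ => ⟨hsF θ, ?_, hsf θ⟩⟩
  · intro θ θ' h
    have h' := add_left_cancel h
    have := hli (s θ - s θ') (s θ * θ - s θ' * θ') (by
      rw [← sub_eq_zero] at h'; rw [← h']; module)
    have e : s θ = s θ' := by linarith [this.1]
    have := this.2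
    rw [← e, ← mul_sub, mul_eq_zero] at this
    exact sub_eq_zero.1 (this.resolve_left (hs0 θ))
  · intro h
    have : s θ • ((b 0 : V) + θ • (b 1 : V)) = 0 := by simpa using h
    rcases smul_eq_zero.1 this with h | h
    · exact hs0 θ h
    · exact hv0 θ h

theorem second_face [FiniteDimensional ℝ V] (h3 : finrank ℝ V = 3) {S : Set V} (hc : IsClosed S)
    (hS : Convex ℝ S) (h0 : (0 : V) ∈ S)
    (hP : ∀ z ≠ 0, IsFace (polar S) {z} → ∃ (u : V) (c : ℝ), (∀ y ∈ polar S, ⟪u, y⟫ ≤ c) ∧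
      {z} = {y | y ∈ polar S ∧ ⟪u, y⟫ = c})
    {yF : V} {cF : ℝ} (hyF : ∀ x ∈ S, ⟪yF, x⟫ ≤ cF) {x0 : V} (hx0 : x0 ∈ S) (hδ : ⟪yF, x0⟫ < cF)
    {p q : V} (hp : p ∈ S) (hq : q ∈ S) (hpF : ⟪yF, p⟫ = cF) (hqF : ⟪yF, q⟫ = cF) (hp0 : p ≠ 0)
    {yp : V} (hyp : ∀ x ∈ S, ⟪yp, x⟫ ≤ 1) (hpp : ⟪yp, p⟫ = 1) (hpq : ⟪yp, q⟫ < 1)
    (hspan : Submodule.span ℝ {y | y ∈ polar S ∧ ⟪p, y⟫ = 1} ≠ ⊤) :
    ∃ (z : V) (c : ℝ), (∀ x ∈ S, ⟪z, x⟫ ≤ c) ∧ ⟪z, p⟫ = c ∧ ⟪z, q⟫ < c ∧
      ∃ x ∈ S, x ≠ p ∧ ⟪z, x⟫ = c := by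
  have hcF : 0 ≤ cF := by simpa using hyF 0 h0
  let T : Set ℝ := {s | ∀ x ∈ S, ⟪yp, x⟫ - s * ⟪yF, x⟫ ≤ 1 - s * cF}
  have hT : IsClosed T := by
    have : T = ⋂ x ∈ S, {s | ⟪yp, x⟫ - s * ⟪yF, x⟫ ≤ 1 - s * cF} := by ext s; simp [T]
    rw [this]
    exact isClosed_biInter fun x _ => isClosed_le (by fun_prop) (by fun_prop)
  have hb : BddAbove T := ⟨(1 - ⟪yp, x0⟫) / (cF - ⟪yF, x0⟫), fun s hs => by
    rw [le_div_iff₀ (by linarith)]; linarith [hs x0 hx0]⟩
  have h0T : (0 : ℝ) ∈ T := fun x hx => by simpa using hyp x hx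
  have hm := hT.csSup_mem ⟨0, h0T⟩ hb
  set s := sSup T with hs
  set z := yp - s • yF with hz
  set c := 1 - s * cF with hcdef
  have hzx : ∀ x, ⟪z, x⟫ = ⟪yp, x⟫ - s * ⟪yF, x⟫ := fun x => by
    rw [hz, inner_sub_left, real_inner_smul_left]
  have hzS : ∀ x ∈ S, ⟪z, x⟫ ≤ c := fun x hx => by rw [hzx]; exact hm x hx
  have hzp : ⟪z, p⟫ = c := by rw [hzx, hpp, hpF]
  have hzq : ⟪z, q⟫ < c := by rw [hzx, hqF]; linarith
  have hmax : ∀ r > (0 : ℝ), ¬ ∀ x ∈ S, ⟪z, x⟫ - r * ⟪yF, x⟫ ≤ c - r * cF := by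
    intro r hr h
    have : s + r ∈ T := fun x hx => by have := h x hx; rw [hzx] at this; linarith
    linarith [le_csSup hb this]
  refine ⟨z, c, hzS, hzp, hzq, ?_⟩
  have hc0 : 0 ≤ c := by simpa using hzS 0 h0
  rcases hc0.eq_or_lt with hc0 | hc0
  · exact ⟨0, h0, hp0.symm, by simp [← hc0]⟩
  -- the dual face lies in the span of `z` and `yF`
  have hz' : c⁻¹ • z ∈ polar S := fun x hx => by
    rw [inner_smul_right, real_inner_comm, inv_mul_le_iff₀ hc0, mul_one]; exact hzS x hx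
  have hz'p : ⟪p, c⁻¹ • z⟫ = 1 := by
    rw [inner_smul_right, real_inner_comm, hzp, inv_mul_cancel₀ hc0.ne']
  have hcc : 0 < c + cF := by linarith
  have hy2 : (c + cF)⁻¹ • (z + yF) ∈ polar S := fun x hx => by
    rw [inner_smul_right, real_inner_comm, inv_mul_le_iff₀ hcc, mul_one, inner_add_left]
    linarith [hzS x hx, hyF x hx]
  have hy2p : ⟪p, (c + cF)⁻¹ • (z + yF)⟫ = 1 := by
    rw [inner_smul_right, real_inner_comm, inner_add_left, hzp, hpF, inv_mul_cancel₀ hcc.ne']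
  have hli : ∀ a b : ℝ, a • z + b • yF = 0 → a = 0 ∧ b = 0 := by
    intro a b h
    have e : ∀ x, a * ⟪z, x⟫ + b * ⟪yF, x⟫ = 0 := fun x => by
      rw [← real_inner_smul_left, ← real_inner_smul_left, ← inner_add_left, h, inner_zero_left]
    have e1 := e p
    have e2 := e q
    have e3 := e x0
    rw [hzp, hpF] at e1
    rw [hqF] at e2
    have ha : a = 0 := by
      have : a * (c - ⟪z, q⟫) = 0 := by linarith
      exact (mul_eq_zero.1 this).resolve_right (by linarith)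
    subst ha
    refine ⟨rfl, ?_⟩
    have : b * (cF - ⟪yF, x0⟫) = 0 := by linarith
    exact (mul_eq_zero.1 this).resolve_right (by linarith)
  have hsp : Submodule.span ℝ {z, yF} = Submodule.span ℝ {y | y ∈ polar S ∧ ⟪p, y⟫ = 1} := by
    have hzU : z ∈ Submodule.span ℝ {y | y ∈ polar S ∧ ⟪p, y⟫ = 1} := by
      have := Submodule.smul_mem _ c (Submodule.subset_span (R := ℝ)
        (s := {y | y ∈ polar S ∧ ⟪p, y⟫ = 1}) ⟨hz', hz'p⟩)
      rwa [smul_smul, mul_inv_cancel₀ hc0.ne', one_smul] at this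
    have hyU : z + yF ∈ Submodule.span ℝ {y | y ∈ polar S ∧ ⟪p, y⟫ = 1} := by
      have := Submodule.smul_mem _ (c + cF) (Submodule.subset_span (R := ℝ)
        (s := {y | y ∈ polar S ∧ ⟪p, y⟫ = 1}) ⟨hy2, hy2p⟩)
      rwa [smul_smul, mul_inv_cancel₀ hcc.ne', one_smul] at this
    refine Submodule.eq_of_le_of_finrank_le ?_ ?_
    · rw [Submodule.span_le]
      rintro y (rfl | rfl)
      · exact hzU
      · simpa using sub_mem hyU hzU
    · have h1 := Submodule.finrank_lt hspan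
      have h2 := finrank_span_eq_card (LinearIndependent.pair_iff.2 hli)
      rw [Matrix.range_cons_cons_empty] at h2
      simp only [Fintype.card_fin] at h2
      omega
  have hcoef : ∀ u ∈ polar S, ⟪p, u⟫ = 1 → ∃ a b : ℝ, u = a • z + b • yF ∧ 0 ≤ b ∧
      a * c + b * cF = 1 := by
    intro u hu hu1
    have : u ∈ Submodule.span ℝ {z, yF} := hsp ▸ Submodule.subset_span ⟨hu, hu1⟩
    obtain ⟨a, b, rfl⟩ := Submodule.mem_span_pair.1 this
    have e : ∀ x, ⟪x, a • z + b • yF⟫ = a * ⟪z, x⟫ + b * ⟪yF, x⟫ := fun x => by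
      rw [real_inner_comm, inner_add_left, real_inner_smul_left, real_inner_smul_left]
    rw [e, hzp, hpF] at hu1
    refine ⟨a, b, rfl, ?_, hu1⟩
    have h1 := hu q hq
    rw [e, hqF] at h1
    have ha : 0 ≤ a := by nlinarith
    by_contra hb0
    push Not at hb0
    rcases ha.eq_or_lt with ha | ha
    · have h2 := hu x0 hx0
      rw [e] at h2
      subst ha
      nlinarith
    · refine hmax (-b / a) (div_pos (neg_pos.2 hb0) ha) fun x hx => ?_
      have h2 := hu x hx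
      rw [e, ← hu1] at h2
      have : ⟪z, x⟫ - -b / a * ⟪yF, x⟫ - (c - -b / a * cF) =
          (a * ⟪z, x⟫ + b * ⟪yF, x⟫ - (a * c + b * cF)) / a := by field_simp; ring
      have h4 : (a * ⟪z, x⟫ + b * ⟪yF, x⟫ - (a * c + b * cF)) / a ≤ 0 :=
        div_nonpos_of_nonpos_of_nonneg (by linarith) ha.le
      linarith
  have hface : IsFace (polar S) {c⁻¹ • z} := by
    refine ⟨by simpa using hz', convex_singleton _, ?_⟩
    rintro u hu v hv ⟨_, ⟨l, m, hl, hm', hlm, rfl⟩, h⟩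
    have h : l • u + m • v = c⁻¹ • z := h
    have e := hz'p
    rw [← h, inner_add_right, inner_smul_right, inner_smul_right] at e
    have hu1 := hu p hp
    have hv1 := hv p hp
    obtain ⟨a, b, rfl, hb0, hab⟩ := hcoef u hu (by nlinarith)
    obtain ⟨a', b', rfl, hb0', hab'⟩ := hcoef v hv (by nlinarith)
    have := (hli (l * a + m * a' - c⁻¹) (l * b + m * b') (by
      rw [← sub_eq_zero] at h; rw [← h]; module)).2
    have hb1 : b = 0 := by nlinarith
    have hb2 : b' = 0 := by nlinarith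
    subst hb1 hb2
    have ea : a = c⁻¹ := by field_simp; linarith
    have ea' : a' = c⁻¹ := by field_simp; linarith
    simp [ea, ea']
  obtain ⟨w, e, hw, heq⟩ := hP _ (fun h => by rw [h] at hz'p; simp at hz'p) hface
  have h0P : (0 : V) ∈ polar S := fun x _ => by simp
  have hmem : ∀ y ∈ polar S, ⟪w, y⟫ = e → y = c⁻¹ • z := fun y hy h => by
    have : y ∈ ({c⁻¹ • z} : Set V) := heq ▸ ⟨hy, h⟩
    exact this
  have hwz : ⟪w, c⁻¹ • z⟫ = e := by
    have : c⁻¹ • z ∈ {y | y ∈ polar S ∧ ⟪w, y⟫ = e} := heq ▸ rfl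
    exact this.2
  have he : 0 < e := by
    have h1 : 0 ≤ e := by simpa using hw 0 h0P
    refine h1.lt_of_ne fun h => ?_
    have := hmem 0 h0P (by simp [← h])
    rw [← this] at hz'p; simp at hz'p
  refine ⟨e⁻¹ • w, bipolar hc hS h0 fun y hy => ?_, fun h => ?_, ?_⟩
  · rw [real_inner_smul_left, inv_mul_le_iff₀ he, mul_one]; exact hw y hy
  · have h1 := hmem _ hy2 (by
      have := hy2p
      rw [← h, real_inner_smul_left, inv_mul_eq_one₀ he.ne'] at this
      exact this.symm)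
    have := (hli ((c + cF)⁻¹ - c⁻¹) (c + cF)⁻¹ (by
      rw [← sub_eq_zero] at h1; rw [← h1]; module)).2
    exact (inv_pos.2 hcc).ne' this
  · rw [inner_smul_right, real_inner_comm] at hwz
    rw [inner_smul_right]
    field_simp at hwz ⊢
    linarith

end Pool.Agent.H66.Spec
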