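import Pool.Agent.H66.Spec2

/-! The obstruction theorem. -/

namespace Pool.Agent.H66.Spec

open scoped RealInnerProductSpace
open Set Module

variable {V : Type} [NormedAddCommGroup V] [InnerProductSpace ℝ V]

theorem inner_vs {G : Set V} {z : V} {c : ℝ} (h : ∀ x ∈ G, ⟪z, x⟫ = c) {w : V}
    (hw : w ∈ vectorSpan ℝ G) : ⟪z, w⟫ = 0 := by
  have : vectorSpan ℝ G ≤ LinearMap.ker (innerₛₗ ℝ z) := by
    rw [vectorSpan_def, Submodule.span_le]
    rintro _ ⟨x, hx, y, hy, rfl⟩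
    simp [inner_sub_right, h x hx, h y hy]
  simpa using this hw

theorem core [FiniteDimensional ℝ V] (h3 : finrank ℝ V = 3) {S E F : Set V} (hc : IsClosed S)
    (hS : Convex ℝ S) (h0 : (0 : V) ∈ S) (htop : vectorSpan ℝ S = ⊤)
    (hsig : ∀ G, IsFace S G → G.Nonempty → dim G ≠ 1)
    (hE : IsFace S E) (hne : E.Nonempty) (hE0 : dim E = 0)
    (hF : IsFace S F) (hFne : F.Nonempty) (h2 : dim F = 2)
    (hX : ∀ G, IsFace S G → G.Nonempty → G ≠ S → ∃ (u : V) (c : ℝ), (∀ x ∈ S, ⟪u, x⟫ ≤ c) ∧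
      G = {x | x ∈ S ∧ ⟪u, x⟫ = c})
    (hP : ∀ z ≠ 0, IsFace (polar S) {z} → ∃ (u : V) (c : ℝ), (∀ y ∈ polar S, ⟪u, y⟫ ≤ c) ∧
      {z} = {y | y ∈ polar S ∧ ⟪u, y⟫ = c}) : False := by
  haveI : Nontrivial V := Module.nontrivial_of_finrank_pos (R := ℝ) (by omega)
  obtain ⟨q, hq, P, hPi, hPf⟩ := extreme_family hc hS hE hne hE0 hsig hF hFne h2
  have hFS : F ≠ S := fun h => by
    rw [h, dim_eq, htop, finrank_top] at h2; omega
  obtain ⟨yF, cF, hyF, hFeq⟩ := hX F hF hFne hFS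
  have hmemF : ∀ x ∈ F, ⟪yF, x⟫ = cF := fun x hx => by rw [hFeq] at hx; exact hx.2
  obtain ⟨x0, hx0, hδ⟩ : ∃ x0 ∈ S, ⟪yF, x0⟫ < cF := by
    by_contra h
    push Not at h
    exact hFS (hF.1.antisymm fun x hx => hFeq ▸ ⟨hx, le_antisymm (hyF x hx) (h x hx)⟩)
  obtain ⟨o, ho, hoW⟩ := exists_relint hS subset_rfl hS ⟨0, h0⟩
  rw [htop] at hoW
  -- first countable set
  have cA : {p | p ∈ S ∧ Submodule.span ℝ {y | y ∈ polar S ∧ ⟪p, y⟫ = 1} = ⊤}.Countable :=
    countable_lemma (convex_polar S) (fun a ha b hb => hb a ha.1) (fun a ha => ha.2)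
  let B : Set V := {b | o + b ∈ S}
  have hB : Convex ℝ B := by
    intro x hx y hy a b ha hb hab
    have := hS hx hy ha hb hab
    change o + _ ∈ S
    convert this using 1
    have : b = 1 - a := by linarith
    subst this; module
  let A : Set V := {z | (∀ b ∈ B, ⟪z, b⟫ ≤ 1) ∧ Submodule.span ℝ {b | b ∈ B ∧ ⟪z, b⟫ = 1} = ⊤}
  have cB : A.Countable := countable_lemma hB (fun a ha => ha.1) (fun a ha => ha.2)
  have main : ∀ θ, P θ ≠ 0 → Submodule.span ℝ {y | y ∈ polar S ∧ ⟪P θ, y⟫ = 1} ≠ ⊤ →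
      ∃ z ∈ A, ⟪z, P θ - o⟫ = 1 ∧ ⟪z, q - o⟫ < 1 := by
    intro θ hp0 hsp
    obtain ⟨hpF, hpq, hpf⟩ := hPf θ
    obtain ⟨u, e, hu, heq⟩ := hX _ hpf (singleton_nonempty _) (fun h => hpq (by
      have : q ∈ ({P θ} : Set V) := h ▸ hF.1 hq
      exact this.symm))
    have hmem : ∀ x ∈ S, ⟪u, x⟫ = e → x = P θ := fun x hx h => by
      have : x ∈ ({P θ} : Set V) := heq ▸ ⟨hx, h⟩
      exact this
    have hup : ⟪u, P θ⟫ = e := by
      have : P θ ∈ {x | x ∈ S ∧ ⟪u, x⟫ = e} := heq ▸ rfl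
      exact this.2
    have he : 0 < e := by
      have h1 : 0 ≤ e := by simpa using hu 0 h0
      exact h1.lt_of_ne fun h => hp0 (hmem 0 h0 (by simp [← h])).symm
    obtain ⟨z, c, hz, hzp, hzq, x, hx, hxp, hzx⟩ := second_face h3 hc hS h0 hP hyF hx0 hδ
      (hF.1 hpF) (hF.1 hq) (hmemF _ hpF) (hmemF _ hq) hp0 (yp := e⁻¹ • u)
      (fun x hx => by rw [real_inner_smul_left, inv_mul_le_iff₀ he, mul_one]; exact hu x hx)
      (by rw [real_inner_smul_left, hup, inv_mul_cancel₀ he.ne'])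
      (by
        rw [real_inner_smul_left, inv_mul_lt_iff₀ he, mul_one]
        exact (hu q (hF.1 hq)).lt_of_ne fun h => hpq (hmem q (hF.1 hq) h).symm) hsp
    have hz0 : z ≠ 0 := fun h => by subst h; simp at hzp hzq; linarith
    have hd : 0 < c - ⟪z, o⟫ := by
      obtain ⟨ε, hε, h1, -⟩ := hoW (Submodule.mem_top (x := z))
      have h2 := hz _ h1
      rw [inner_add_right, inner_smul_right] at h2
      have := mul_pos hε (real_inner_self_pos.2 hz0)
      linarith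
    have hG := isFace_exposed hS z c hz
    set G := {x | x ∈ S ∧ ⟪z, x⟫ = c} with hGdef
    have hpG : P θ ∈ G := ⟨hF.1 hpF, hzp⟩
    have hG0 : dim G ≠ 0 := fun h => hxp (eq_of_dim_zero h ⟨hx, hzx⟩ hpG)
    have hG1 := hsig G hG ⟨_, hpG⟩
    have key : ∀ x, ⟪(c - ⟪z, o⟫)⁻¹ • z, x - o⟫ = (c - ⟪z, o⟫)⁻¹ * (⟪z, x⟫ - ⟪z, o⟫) := fun x => by
      rw [real_inner_smul_left, inner_sub_right]
    refine ⟨(c - ⟪z, o⟫)⁻¹ • z, ⟨fun b hb => ?_, ?_⟩, ?_, ?_⟩
    · have := key (o + b)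
      rw [add_sub_cancel_left] at this
      rw [this, inv_mul_le_iff₀ hd]
      linarith [hz _ hb]
    · have hin : ∀ x ∈ G, x - o ∈
          Submodule.span ℝ {b | b ∈ B ∧ ⟪(c - ⟪z, o⟫)⁻¹ • z, b⟫ = 1} := fun x hx =>
        Submodule.subset_span ⟨by simpa [B] using hx.1, by
          rw [key, hx.2, inv_mul_cancel₀ hd.ne']⟩
      have hlt : vectorSpan ℝ G <
          Submodule.span ℝ {b | b ∈ B ∧ ⟪(c - ⟪z, o⟫)⁻¹ • z, b⟫ = 1} := by
        refine lt_of_le_of_ne (vectorSpan_le_of hpG fun x hx => ?_) fun h => ?_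
        · simpa using sub_mem (hin x hx) (hin _ hpG)
        · have := inner_vs (G := G) (z := z) (c := c) (fun x hx => hx.2) (h ▸ hin _ hpG)
          rw [inner_sub_right, hzp] at this
          linarith
      have := Submodule.finrank_lt_finrank_of_lt hlt
      rw [dim_eq] at hG0 hG1
      refine Submodule.eq_top_of_finrank_eq (le_antisymm (Submodule.finrank_le _) (by omega))
    · rw [key, hzp, inv_mul_cancel₀ hd.ne']
    · rw [key, inv_mul_lt_iff₀ hd]; linarith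
  let Θ : Set ℝ := {θ | P θ ≠ 0 ∧ Submodule.span ℝ {y | y ∈ polar S ∧ ⟪P θ, y⟫ = 1} ≠ ⊤}
  choose! f hfA hf1 hf2 using main
  have cΘ : Θ.Countable := by
    refine Set.MapsTo.countable_of_injOn (f := f) (fun θ h => hfA θ h.1 h.2) ?_ cB
    intro θ h θ' h' hff
    by_contra hne
    have hz : ∀ x ∈ S, ⟪f θ, x⟫ ≤ 1 + ⟪f θ, o⟫ := fun x hx => by
      have := (hfA θ h.1 h.2).1 (x - o) (by simpa [B] using hx)
      rw [inner_sub_right] at this; linarith
    have hG := (isFace_exposed hS _ _ hz).inter hF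
    set G := {x | x ∈ S ∧ ⟪f θ, x⟫ = 1 + ⟪f θ, o⟫} ∩ F with hGdef
    have e1 := hf1 θ h.1 h.2
    have e2 := hf1 θ' h'.1 h'.2
    have e3 := hf2 θ h.1 h.2
    rw [← hff] at e2
    rw [inner_sub_right] at e1 e2 e3
    have hp : P θ ∈ G := ⟨⟨hF.1 (hPf θ).1, by linarith⟩, (hPf θ).1⟩
    have hp' : P θ' ∈ G := ⟨⟨hF.1 (hPf θ').1, by linarith⟩, (hPf θ').1⟩
    have hG0 : dim G ≠ 0 := fun h => hne (hPi (eq_of_dim_zero h hp hp'))
    have hG1 := hsig G hG ⟨_, hp⟩
    rw [dim_eq] at hG0 hG1 h2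
    have hGF : G ⊆ F := inter_subset_right
    have heq := Submodule.eq_of_le_of_finrank_le (vectorSpan_mono ℝ hGF) (by omega)
    have := inner_vs (G := G) (fun x hx => hx.1.2) (heq ▸ sub_mem_vs hq (hPf θ).1)
    rw [inner_sub_right] at this
    linarith
  refine Cardinal.not_countable_real ((cΘ.union
    (((countable_singleton (0 : V)).union cA).preimage hPi)).mono fun θ _ => ?_)
  by_cases h : θ ∈ Θ
  · exact Or.inl h
  · right
    by_cases h1 : P θ = 0
    · exact Or.inl h1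
    · exact Or.inr ⟨hF.1 (hPf θ).1, by_contra fun h2 => h ⟨h1, h2⟩⟩

theorem dim_image (U : Submodule ℝ V) (G : Set U) : dim (((↑) : U → V) '' G) = dim G := by
  rw [dim_eq, dim_eq]
  have := AffineMap.vectorSpan_image_eq_submodule_map (U.subtype.toAffineMap) (s := G)
  simp only [LinearMap.toAffineMap_linear, LinearMap.coe_toAffineMap, Submodule.coe_subtype] at this
  rw [← this, Submodule.finrank_map_subtype_eq]

theorem isFace_image {U : Submodule ℝ V} {S : Set V} (hSU : S ⊆ U) {G : Set U}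
    (hG : IsFace (((↑) : U → V) ⁻¹' S) G) : IsFace S (((↑) : U → V) '' G) := by
  refine ⟨?_, hG.2.1.linear_image U.subtype, ?_⟩
  · rintro _ ⟨x, hx, rfl⟩; exact hG.1 hx
  · rintro x hx y hy ⟨_, ⟨a, b, ha, hb, hab, h⟩, m, hm, rfl⟩
    have := hG.2.2 ⟨x, hSU hx⟩ hx ⟨y, hSU hy⟩ hy ⟨m, ⟨a, b, ha, hb, hab, Subtype.ext h⟩, hm⟩
    exact ⟨⟨_, this.1, rfl⟩, ⟨_, this.2, rfl⟩⟩

theorem isFace_preimage {U : Submodule ℝ V} {S F : Set V} (hF : IsFace S F) :
    IsFace (((↑) : U → V) ⁻¹' S) (((↑) : U → V) ⁻¹' F) := by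
  refine ⟨fun x hx => hF.1 hx, hF.2.1.linear_preimage U.subtype, ?_⟩
  rintro x hx y hy ⟨_, ⟨a, b, ha, hb, hab, rfl⟩, hm⟩
  exact hF.2.2 x hx y hy ⟨_, ⟨a, b, ha, hb, hab, rfl⟩, hm⟩

theorem obstruction [FiniteDimensional ℝ V] {S : Set V} (hc : IsClosed S) (hS : Convex ℝ S)
    (h0 : (0 : V) ∈ S) (hsig : signature S = {0, 2, 3}) (hX : FaciallyExposed S)
    (hP : FaciallyExposed (polar S)) : False := by
  set U := vectorSpan ℝ S with hU
  have hSU : S ⊆ U := fun x hx => by simpa using sub_mem_vs hx h0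
  have hsig' : ∀ G, IsFace S G → G.Nonempty → dim G = 0 ∨ dim G = 2 ∨ dim G = 3 := by
    intro G hG hne
    have : dim G ∈ signature S := ⟨G, hG, hne, rfl⟩
    rw [hsig] at this
    simpa using this
  obtain ⟨E, hE, hEne, hE0⟩ : 0 ∈ signature S := by simp [hsig]
  obtain ⟨F, hF, hFne, hF2⟩ : 2 ∈ signature S := by simp [hsig]
  obtain ⟨F3, hF3, -, hF33⟩ : 3 ∈ signature S := by simp [hsig]
  have h3 : finrank ℝ U = 3 := by
    have h1 := hsig' S (isFace_self hS) ⟨0, h0⟩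
    have h2 := Submodule.finrank_mono (vectorSpan_mono ℝ hF3.1)
    rw [dim_eq] at h1 hF33
    rw [← hU] at h1 h2
    omega
  have him : ∀ G ⊆ S, ((↑) : U → V) '' (((↑) : U → V) ⁻¹' G) = G := fun G hG =>
    Set.image_preimage_eq_of_subset fun x hx => ⟨⟨x, hSU (hG hx)⟩, rfl⟩
  have hdim : ∀ G ⊆ S, dim (((↑) : U → V) ⁻¹' G) = dim G := fun G hG => by
    rw [← dim_image, him G hG]
  have hne : ∀ G ⊆ S, G.Nonempty → (((↑) : U → V) ⁻¹' G).Nonempty := fun G hG ⟨x, hx⟩ =>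
    ⟨⟨x, hSU (hG hx)⟩, hx⟩
  have hproj : ∀ (u : V) (x : U), ⟪U.orthogonalProjection u, x⟫ = ⟪u, (x : V)⟫ := fun u x =>
    U.inner_orthogonalProjection_eq_of_mem_right x u
  refine core h3 (S := ((↑) : U → V) ⁻¹' S) (hc.preimage continuous_subtype_val)
    (hS.linear_preimage U.subtype) h0 ?_ ?_ (isFace_preimage hE) (hne _ hE.1 hEne)
    (by rw [hdim _ hE.1, hE0]) (isFace_preimage hF) (hne _ hF.1 hFne) (by rw [hdim _ hF.1, hF2])
    ?_ ?_
  · refine Submodule.eq_top_of_finrank_eq ?_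
    rw [← dim_eq, hdim _ subset_rfl, dim_eq]
  · intro G hG hGne
    have := hsig' _ (isFace_image hSU hG) (hGne.image _)
    rw [dim_image] at this
    omega
  · intro G hG hGne hGS
    obtain ⟨u, c, -, hu, heq⟩ := hX _ (isFace_image hSU hG) (hGne.image _) (fun h => hGS (by
      rw [← h, Set.preimage_image_eq _ Subtype.val_injective]))
    refine ⟨U.orthogonalProjection u, c, fun x hx => by rw [hproj]; exact hu x hx, ?_⟩
    rw [← Set.preimage_image_eq G Subtype.val_injective, heq]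
    ext x; simp only [mem_preimage, mem_setOf_eq, hproj]
  · intro z hz0 hz
    have hpol : ∀ y : V, y ∈ polar S ↔
        U.orthogonalProjection y ∈ polar (((↑) : U → V) ⁻¹' S) := fun y =>
      ⟨fun h x hx => by rw [real_inner_comm, hproj, real_inner_comm]; exact h x hx,
       fun h x hx => by
        have := h ⟨x, hSU hx⟩ hx
        rwa [real_inner_comm, hproj, real_inner_comm] at this⟩
    have hface : IsFace (polar S) {y | U.orthogonalProjection y = z} := by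
      refine ⟨fun y hy => (hpol y).2 (hz.1 hy), ?_, ?_⟩
      · exact (convex_singleton z).linear_preimage U.orthogonalProjection.toLinearMap
      · rintro x hx y hy ⟨_, ⟨a, b, ha, hb, hab, rfl⟩, hm⟩
        exact hz.2.2 _ ((hpol x).1 hx) _ ((hpol y).1 hy) ⟨z, ⟨a, b, ha, hb, hab, by
          rw [← map_smul, ← map_smul, ← map_add]; exact hm⟩, rfl⟩
    have hpz : ∀ y : U, U.orthogonalProjection (y : V) = y := fun y => by simp
    obtain ⟨u, c, -, hu, heq⟩ := hP _ hface ⟨z, hpz z⟩ (fun h => hz0 (by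
      have : (0 : V) ∈ {y | U.orthogonalProjection y = z} := h ▸ fun x _ => by simp
      simpa using this.symm))
    have hy : ∀ y : U, y ∈ polar (((↑) : U → V) ⁻¹' S) ↔ (y : V) ∈ polar S := fun y => by
      rw [hpol, hpz]
    refine ⟨U.orthogonalProjection u, c, fun y h => by rw [hproj]; exact hu y ((hy y).1 h), ?_⟩
    ext y
    have := Set.ext_iff.1 heq y
    simp only [mem_setOf_eq, hpz] at this
    simp only [mem_singleton_iff, mem_setOf_eq, hproj, hy, this]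

end Pool.Agent.H66.Spec
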