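import Pool.Agent.H66.Spec1

/-! Spectrahedra: closure under intersection, second-order cone constraints. -/

namespace Pool.Agent.H66.Spec

open scoped RealInnerProductSpace
open Set Module Matrix

theorem isSpec_of {n : ℕ} {ι : Type} [Fintype ι] [DecidableEq ι] (A₀ : Matrix ι ι ℝ)
    (A : Fin n → Matrix ι ι ℝ) (h0 : A₀.IsSymm) (hA : ∀ i, (A i).IsSymm) :
    IsSpectrahedron {x : EuclideanSpace ℝ (Fin n) | (A₀ + ∑ i, x i • A i).PosSemidef} := by
  let e := (Fintype.equivFin ι).symm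
  refine ⟨_, A₀.submatrix e e, fun i => (A i).submatrix e e, h0.submatrix e,
    fun i => (hA i).submatrix e, ?_⟩
  ext x
  simp only [mem_setOf_eq]
  rw [← posSemidef_submatrix_equiv e]
  refine iff_of_eq (congrArg _ ?_)
  ext a b
  simp [Matrix.sum_apply]

theorem psd_iff {ι : Type} [Fintype ι] {M : Matrix ι ι ℝ} (hM : M.IsSymm) :
    M.PosSemidef ↔ ∀ v : ι → ℝ, 0 ≤ v ⬝ᵥ M *ᵥ v := by
  rw [posSemidef_iff_dotProduct_mulVec]
  simp only [star_trivial]
  exact ⟨fun h => h.2, fun h => ⟨by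
    unfold IsHermitian; rw [conjTranspose_eq_transpose_of_trivial]; exact hM, h⟩⟩

theorem pencil_symm {n : ℕ} {ι : Type} {A₀ : Matrix ι ι ℝ}
    {A : Fin n → Matrix ι ι ℝ} (h0 : A₀.IsSymm) (hA : ∀ i, (A i).IsSymm) (x : Fin n → ℝ) :
    (A₀ + ∑ i, x i • A i).IsSymm := by
  refine IsSymm.ext fun a b => ?_
  simp only [Matrix.add_apply, Matrix.sum_apply, Matrix.smul_apply]
  rw [h0.apply]
  congr 1
  exact Finset.sum_congr rfl fun i _ => by rw [(hA i).apply]

theorem IsSpectrahedron.closed_convex {n : ℕ} {S : Set (EuclideanSpace ℝ (Fin n))}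
    (h : IsSpectrahedron S) : IsClosed S ∧ Convex ℝ S := by
  obtain ⟨m, A₀, A, h0, hA, rfl⟩ := h
  have key : ∀ (x : EuclideanSpace ℝ (Fin n)) (v : Fin m → ℝ),
      v ⬝ᵥ (A₀ + ∑ i, x i • A i) *ᵥ v = v ⬝ᵥ A₀ *ᵥ v + ∑ i, x i * (v ⬝ᵥ A i *ᵥ v) := by
    intro x v
    rw [add_mulVec, dotProduct_add, sum_mulVec, dotProduct_sum]
    simp [smul_mulVec]
  have : {x : EuclideanSpace ℝ (Fin n) | (A₀ + ∑ i, x i • A i).PosSemidef} =
      ⋂ v : Fin m → ℝ, {x | 0 ≤ v ⬝ᵥ A₀ *ᵥ v + ∑ i, x i * (v ⬝ᵥ A i *ᵥ v)} := by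
    ext x
    simp only [mem_setOf_eq, mem_iInter, psd_iff (pencil_symm h0 hA x), key]
  rw [this]
  refine ⟨isClosed_iInter fun v => isClosed_le continuous_const (by fun_prop),
    convex_iInter fun v => ?_⟩
  intro x hx y hy a b ha hb hab
  simp only [mem_setOf_eq, PiLp.add_apply, PiLp.smul_apply, smul_eq_mul, add_mul, mul_assoc,
    Finset.sum_add_distrib, ← Finset.mul_sum] at hx hy ⊢
  have : v ⬝ᵥ A₀ *ᵥ v = a * (v ⬝ᵥ A₀ *ᵥ v) + b * (v ⬝ᵥ A₀ *ᵥ v) := by
    rw [← add_mul, hab, one_mul]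
  nlinarith [mul_nonneg ha hx, mul_nonneg hb hy]

theorem isSpec_univ (n : ℕ) : IsSpectrahedron (univ : Set (EuclideanSpace ℝ (Fin n))) := by
  refine ⟨0, 0, 0, isSymm_zero, fun _ => isSymm_zero, ?_⟩
  ext x
  simp [PosSemidef.zero]

theorem IsSpectrahedron.inter {n : ℕ} {S T : Set (EuclideanSpace ℝ (Fin n))}
    (hS : IsSpectrahedron S) (hT : IsSpectrahedron T) : IsSpectrahedron (S ∩ T) := by
  obtain ⟨m, A₀, A, h0, hA, rfl⟩ := hS
  obtain ⟨k, B₀, B, g0, hB, rfl⟩ := hT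
  have hs : ∀ {M : Matrix (Fin m) (Fin m) ℝ} {N : Matrix (Fin k) (Fin k) ℝ}, M.IsSymm → N.IsSymm →
      (fromBlocks M 0 0 N).IsSymm := fun hM hN => hM.fromBlocks (by simp) hN
  have := isSpec_of (fromBlocks A₀ 0 0 B₀) (fun i => fromBlocks (A i) 0 0 (B i)) (hs h0 g0)
    (fun i => hs (hA i) (hB i))
  refine (congrArg _ ?_).mp this
  ext x
  have e : fromBlocks A₀ 0 0 B₀ + ∑ i, x i • fromBlocks (A i) 0 0 (B i) =
      fromBlocks (A₀ + ∑ i, x i • A i) 0 0 (B₀ + ∑ i, x i • B i) := by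
    ext (a | a) (b | b) <;> simp [Matrix.sum_apply]
  simp only [mem_setOf_eq, mem_inter_iff, e]
  constructor
  · intro h
    exact ⟨h.submatrix Sum.inl, h.submatrix Sum.inr⟩
  · rintro ⟨h1, h2⟩
    rw [psd_iff (pencil_symm h0 hA x)] at h1
    rw [psd_iff (pencil_symm g0 hB x)] at h2
    rw [psd_iff (hs (pencil_symm h0 hA x) (pencil_symm g0 hB x))]
    intro v
    rw [← Sum.elim_comp_inl_inr v, fromBlocks_mulVec, sumElim_dotProduct_sumElim]
    simp only [Sum.elim_comp_inl, Sum.elim_comp_inr, zero_mulVec, add_zero, zero_add]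
    exact add_nonneg (h1 _) (h2 _)

/-- arrow matrix -/
def arrow {κ : Type} [DecidableEq κ] (s : ℝ) (w : κ → ℝ) : Matrix (Option κ) (Option κ) ℝ
  | none, none => s
  | none, some j => w j
  | some i, none => w i
  | some i, some j => if i = j then s else 0

theorem arrow_symm {κ : Type} [DecidableEq κ] (s : ℝ) (w : κ → ℝ) : (arrow s w).IsSymm := by
  refine IsSymm.ext fun a b => ?_
  rcases a with _ | a <;> rcases b with _ | b <;> simp [arrow, eq_comm]

theorem arrow_psd {κ : Type} [Fintype κ] [DecidableEq κ] (s : ℝ) (w : κ → ℝ) :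
    (arrow s w).PosSemidef ↔ 0 ≤ s ∧ ∑ k, w k ^ 2 ≤ s ^ 2 := by
  rw [psd_iff (arrow_symm s w)]
  have key : ∀ v : Option κ → ℝ, v ⬝ᵥ arrow s w *ᵥ v =
      s * (v none ^ 2 + ∑ k, v (some k) ^ 2) + 2 * v none * ∑ k, w k * v (some k) := by
    intro v
    simp only [dotProduct, mulVec, Fintype.sum_option, arrow, ite_mul, zero_mul,
      Finset.sum_ite_eq, Finset.mem_univ, if_true, mul_add, Finset.sum_add_distrib,
      Finset.mul_sum, mul_ite, mul_zero]
    have : ∑ k, 2 * v none * (w k * v (some k)) = ∑ k, v none * (w k * v (some k)) +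
        ∑ k, v (some k) * (w k * v none) := by
      rw [← Finset.sum_add_distrib]; exact Finset.sum_congr rfl fun _ _ => by ring
    have h2 : ∑ k, v (some k) * (s * v (some k)) = ∑ k, s * v (some k) ^ 2 :=
      Finset.sum_congr rfl fun _ _ => by ring
    rw [this, h2]; ring
  simp only [key]
  set N := ∑ k, w k ^ 2 with hN
  have hN0 : 0 ≤ N := Finset.sum_nonneg fun _ _ => sq_nonneg _
  constructor
  · intro h
    have h1 : 0 ≤ s := by simpa using h (fun o => o.elim 1 fun _ => 0)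
    refine ⟨h1, ?_⟩
    have h2 := h (fun o => o.elim (√N) fun k => -w k)
    simp only [Option.elim_none, Option.elim_some, neg_sq, mul_neg, ← sq, Finset.sum_neg_distrib,
      ← hN, Real.sq_sqrt hN0] at h2
    rcases hN0.eq_or_lt with h3 | h3
    · rw [← h3]; positivity
    · have h4 : √N ≤ s := by nlinarith
      have := Real.sq_sqrt hN0
      nlinarith [Real.sqrt_nonneg N]
  · rintro ⟨h1, h2⟩ v
    have cs := Finset.sum_mul_sq_le_sq_mul_sq Finset.univ w (fun k => v (some k))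
    rw [← hN] at cs
    set M := ∑ k, v (some k) ^ 2
    have hM : 0 ≤ M := Finset.sum_nonneg fun _ _ => sq_nonneg _
    set D := ∑ k, w k * v (some k)
    have h3 : (2 * v none * D) ^ 2 ≤ (s * (v none ^ 2 + M)) ^ 2 := by
      have a1 : D ^ 2 ≤ s ^ 2 * M := cs.trans (mul_le_mul_of_nonneg_right h2 hM)
      have a2 : 4 * v none ^ 2 * M ≤ (v none ^ 2 + M) ^ 2 := by nlinarith [sq_nonneg (v none ^ 2 - M)]
      calc (2 * v none * D) ^ 2 = 4 * v none ^ 2 * D ^ 2 := by ring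
        _ ≤ 4 * v none ^ 2 * (s ^ 2 * M) := by gcongr
        _ = s ^ 2 * (4 * v none ^ 2 * M) := by ring
        _ ≤ s ^ 2 * (v none ^ 2 + M) ^ 2 := by gcongr
        _ = _ := by ring
    have := abs_le_of_sq_le_sq' h3 (by positivity)
    linarith [this.1]

theorem isSpec_soc {n : ℕ} (t : Fin n) (p : Fin n → Prop) [DecidablePred p] {a : ℝ} (ha : 0 ≤ a) :
    IsSpectrahedron {x : EuclideanSpace ℝ (Fin n) |
      0 ≤ x t ∧ a + ∑ k, (if p k then x k else 0) ^ 2 ≤ x t ^ 2} := by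
  have := isSpec_of (n := n) (arrow 0 (fun o : Option (Fin n) => o.elim (√a) fun _ => 0))
    (fun i => arrow (if i = t then 1 else 0)
      (fun o : Option (Fin n) => o.elim 0 fun k => if p k ∧ i = k then 1 else 0))
    (arrow_symm _ _) (fun _ => arrow_symm _ _)
  refine (congrArg _ ?_).mp this
  ext x
  have e : arrow 0 (fun o : Option (Fin n) => o.elim (√a) fun _ => 0) +
      ∑ i, x i • arrow (if i = t then 1 else 0)
      (fun o : Option (Fin n) => o.elim 0 fun k => if p k ∧ i = k then 1 else 0) =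
      arrow (x t) (fun o : Option (Fin n) => o.elim (√a) fun k => if p k then x k else 0) := by
    ext (_ | _ | a) (_ | _ | b) <;> simp [Matrix.sum_apply, arrow, ite_and]
  simp only [mem_setOf_eq, e, arrow_psd, Fintype.sum_option, Option.elim_none, Option.elim_some,
    Real.sq_sqrt ha]

end Pool.Agent.H66.Spec
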