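import Pool.Agent.H66.Spec4

/-! The construction: nested hyperbolic cylinders inside a Lorentz cone. -/

namespace Pool.Agent.H66.Spec

open scoped RealInnerProductSpace
open Set Module

abbrev E (t : ℕ) := EuclideanSpace ℝ (Fin (t + 1))

variable {t : ℕ}

def P (i : ℕ) : E t →ₗ[ℝ] E t where
  toFun x := WithLp.toLp 2 fun k => if i ≤ k.val ∧ k.val < t then x k else 0
  map_add' x y := by ext k; simp only [PiLp.add_apply]; split_ifs <;> simp
  map_smul' c x := by ext k; simp only [PiLp.smul_apply]; split_ifs <;> simp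

theorem P_apply (i : ℕ) (x : E t) (k : Fin (t + 1)) :
    P i x k = if i ≤ k.val ∧ k.val < t then x k else 0 := rfl

theorem inner_P (i : ℕ) (x y : E t) : ⟪P i x, y⟫ = ⟪P i x, P i y⟫ := by
  simp only [PiLp.inner_apply, P_apply]
  exact Finset.sum_congr rfl fun k _ => by split_ifs <;> simp

theorem norm_P_le {i j : ℕ} (h : i ≤ j) (x : E t) : ‖P j x‖ ^ 2 ≤ ‖P i x‖ ^ 2 := by
  simp only [EuclideanSpace.real_norm_sq_eq, P_apply]
  refine Finset.sum_le_sum fun k _ => ?_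
  by_cases h1 : j ≤ k.val ∧ k.val < t
  · rw [if_pos h1, if_pos ⟨h.trans h1.1, h1.2⟩]
  · rw [if_neg h1]; simp only [ne_eq, OfNat.ofNat_ne_zero, not_false_eq_true, zero_pow]
    positivity

noncomputable def eT (t : ℕ) : E t := EuclideanSpace.single (Fin.last t) 1

theorem inner_eT (x : E t) : ⟪eT t, x⟫ = x (Fin.last t) := by
  simp [eT, EuclideanSpace.inner_single_left]

theorem P_eT (i : ℕ) : P i (eT t) = 0 := by
  ext k
  rw [P_apply]
  split_ifs with h
  · have : k ≠ Fin.last t := fun e => by subst e; simp at h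
    simp [eT, this]
  · rfl

def agree (j : ℕ) (x p : E t) : Prop := ∀ k : Fin (t + 1), j ≤ k.val → x k = p k

theorem agree_iff {i : ℕ} (hi : i ≤ t) (x p : E t) :
    agree i x p ↔ P i x = P i p ∧ x (Fin.last t) = p (Fin.last t) := by
  constructor
  · intro h
    refine ⟨?_, h _ (by simpa using hi)⟩
    ext k
    simp only [P_apply]
    split_ifs with h1
    · exact h k h1.1
    · rfl
  · rintro ⟨h1, h2⟩ k hk
    rcases (Nat.lt_succ_iff.1 k.2).eq_or_lt with h | h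
    · have : k = Fin.last t := Fin.ext h
      rw [this, h2]
    · have := congrArg (fun z : E t => z k) h1
      simpa [P_apply, hk, h] using this

theorem hyp_ineq {V : Type} [NormedAddCommGroup V] [InnerProductSpace ℝ V] {a s r : ℝ}
    {U W : V} (ha : 0 ≤ a) (hs : 0 ≤ s) (hr : 0 ≤ r) (h1 : a + ‖U‖ ^ 2 ≤ s ^ 2)
    (h2 : a + ‖W‖ ^ 2 ≤ r ^ 2) : (a + ⟪U, W⟫) ^ 2 + a * ‖U - W‖ ^ 2 ≤ (s * r) ^ 2 ∧
      a + ⟪U, W⟫ ≤ s * r := by
  have cs : ⟪U, W⟫ ^ 2 ≤ ‖U‖ ^ 2 * ‖W‖ ^ 2 := by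
    have := real_inner_mul_inner_self_le U W
    rw [real_inner_self_eq_norm_sq, real_inner_self_eq_norm_sq] at this
    nlinarith
  have h3 : (a + ⟪U, W⟫) ^ 2 + a * ‖U - W‖ ^ 2 ≤ (s * r) ^ 2 := by
    rw [norm_sub_sq_real]
    calc _ ≤ (a + ‖U‖ ^ 2) * (a + ‖W‖ ^ 2) := by nlinarith
      _ ≤ s ^ 2 * r ^ 2 := by gcongr
      _ = _ := by ring
  refine ⟨h3, (abs_le_of_sq_le_sq' ?_ (by positivity)).2⟩
  have : 0 ≤ a * ‖U - W‖ ^ 2 := by positivity
  linarith

def C (i : ℕ) : Set (E t) :=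
  {x | 0 ≤ x (Fin.last t) ∧ ((i : ℝ) + 1) + ‖P i x‖ ^ 2 ≤ x (Fin.last t) ^ 2}

def tight (i : ℕ) (x : E t) : Prop := ((i : ℝ) + 1) + ‖P i x‖ ^ 2 = x (Fin.last t) ^ 2

noncomputable def uu (i : ℕ) (p : E t) : E t := P i p - p (Fin.last t) • eT t

theorem inner_uu (i : ℕ) (p x : E t) :
    ⟪uu i p, x⟫ = ⟪P i p, P i x⟫ - p (Fin.last t) * x (Fin.last t) := by
  rw [uu, inner_sub_left, real_inner_smul_left, inner_eT, inner_P]

theorem C_pos {i : ℕ} {x : E t} (hx : x ∈ C i) : 0 < x (Fin.last t) := by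
  refine hx.1.lt_of_ne fun h => ?_
  have := hx.2
  rw [← h] at this
  nlinarith [sq_nonneg ‖P i x‖, (Nat.cast_nonneg i : (0 : ℝ) ≤ i)]

theorem uu_le {i : ℕ} {p x : E t} (hp : p ∈ C i) (hx : x ∈ C i) : ⟪uu i p, x⟫ ≤ -((i : ℝ) + 1) := by
  rw [inner_uu]
  linarith [(hyp_ineq (by positivity) hp.1 hx.1 hp.2 hx.2).2]

theorem uu_eq {i : ℕ} (hi : i ≤ t) {p x : E t} (hp : p ∈ C i) (ht : tight i p) (hx : x ∈ C i) :
    ⟪uu i p, x⟫ = -((i : ℝ) + 1) ↔ agree i x p := by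
  rw [inner_uu, agree_iff hi]
  unfold tight at ht
  constructor
  · intro h
    have h1 := (hyp_ineq (by positivity) hp.1 hx.1 hp.2 hx.2).1
    rw [show (i : ℝ) + 1 + ⟪P i p, P i x⟫ = p (Fin.last t) * x (Fin.last t) by linarith] at h1
    have h2 : ‖P i p - P i x‖ ^ 2 ≤ 0 := by
      by_contra h3
      have := mul_pos (show (0 : ℝ) < i + 1 by positivity) (not_le.1 h3)
      linarith
    have h3 : P i p = P i x := by
      rw [← sub_eq_zero, ← norm_eq_zero]
      exact pow_eq_zero_iff two_ne_zero |>.1 (le_antisymm h2 (sq_nonneg _))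
    refine ⟨h3.symm, ?_⟩
    rw [← h3, real_inner_self_eq_norm_sq] at h
    have := C_pos hp
    have h4 : p (Fin.last t) * (x (Fin.last t) - p (Fin.last t)) = 0 := by linarith
    linarith [(mul_eq_zero.1 h4).resolve_left this.ne']
  · rintro ⟨h1, h2⟩
    rw [h1, h2, real_inner_self_eq_norm_sq]; linarith

def SS (J : Finset ℕ) : Set (E t) := {x | ∀ i ∈ J, x ∈ C i}

theorem spec_SS (J : Finset ℕ) : IsSpectrahedron (SS J : Set (E t)) := by
  induction J using Finset.induction_on with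
  | empty =>
    have : (SS ∅ : Set (E t)) = univ := by ext x; simp [SS]
    rw [this]; exact isSpec_univ _
  | insert i J _ ih =>
    have : (SS (insert i J) : Set (E t)) = C i ∩ SS J := by ext x; simp [SS]
    rw [this]
    refine IsSpectrahedron.inter ?_ ih
    have := isSpec_soc (Fin.last t) (fun k => i ≤ k.val ∧ k.val < t) (a := (i : ℝ) + 1)
      (by positivity)
    refine (congrArg _ ?_).mp this
    ext x
    simp only [C, mem_setOf_eq, EuclideanSpace.real_norm_sq_eq, P_apply]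

theorem slack {J : Finset ℕ} (hJ : ∀ i ∈ J, i ≤ t) {p : E t} (hp : p ∈ SS J) {j : ℕ}
    (hs : ∀ i ∈ J, i < j → ¬ tight i p) {w : E t} (hw : agree j w 0) :
    ∃ ε > (0 : ℝ), p + ε • w ∈ SS J := by
  have : ∀ᶠ ε in nhds (0 : ℝ), ∀ i ∈ J, p + ε • w ∈ C i := by
    rw [Filter.eventually_all_finset]
    intro i hi
    rcases lt_or_ge i j with h | h
    · have hc : Continuous (P i : E t → E t) := LinearMap.continuous_of_finiteDimensional _
      have h1 : ∀ᶠ ε in nhds (0 : ℝ), 0 < (p + ε • w) (Fin.last t) :=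
        ContinuousAt.eventually_lt (f := fun _ => (0 : ℝ)) (by fun_prop) (by fun_prop)
          (by simpa using C_pos (hp i hi))
      have h2 : ∀ᶠ ε in nhds (0 : ℝ),
          ((i : ℝ) + 1) + ‖P i (p + ε • w)‖ ^ 2 < (p + ε • w) (Fin.last t) ^ 2 :=
        ContinuousAt.eventually_lt (by fun_prop) (by fun_prop)
          (by simpa using (hp i hi).2.lt_of_ne (hs i hi h))
      filter_upwards [h1, h2] with ε h1 h2 using ⟨h1.le, h2.le⟩
    · refine Filter.Eventually.of_forall fun ε => ?_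
      have : agree i (p + ε • w) p := fun k hk => by simp [hw k (h.trans hk)]
      rw [agree_iff (hJ i hi)] at this
      have := hp i hi
      unfold C at this ⊢
      simp_all only [mem_setOf_eq, and_self]
  obtain ⟨ε, hε, hε0⟩ := ((this.filter_mono nhdsWithin_le_nhds).and
    (self_mem_nhdsWithin (s := Ioi (0 : ℝ)) (a := 0))).exists
  exact ⟨ε, hε0, hε⟩

def emb (j : ℕ) : (Fin j → ℝ) →ₗ[ℝ] E t where
  toFun y := WithLp.toLp 2 fun k => if h : k.val < j then y ⟨k, h⟩ else 0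
  map_add' x y := by ext k; simp only [PiLp.add_apply]; split_ifs <;> simp
  map_smul' c x := by ext k; simp only [PiLp.smul_apply]; split_ifs <;> simp

theorem mem_range_emb {j : ℕ} (hj : j ≤ t + 1) (w : E t) :
    w ∈ LinearMap.range (emb j) ↔ agree j w 0 := by
  constructor
  · rintro ⟨y, rfl⟩ k hk
    simp [emb, not_lt.2 hk]
  · intro h
    refine ⟨fun k => w ⟨k, lt_of_lt_of_le k.2 hj⟩, ?_⟩
    ext k
    by_cases hk : k.val < j
    · simp [emb, hk]
    · simp [emb, hk, h k (not_lt.1 hk)]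

theorem finrank_emb {j : ℕ} (hj : j ≤ t + 1) :
    finrank ℝ (LinearMap.range (emb j : _ →ₗ[ℝ] E t)) = j := by
  rw [LinearMap.finrank_range_of_inj, Module.finrank_fin_fun]
  intro y z h
  ext k
  have := congrArg (fun z : E t => z ⟨k, lt_of_lt_of_le k.2 hj⟩) h
  simpa [emb] using this

theorem dim_agree {J : Finset ℕ} (hJ : ∀ i ∈ J, i ≤ t) {p : E t} (hp : p ∈ SS J) {j : ℕ}
    (hj : j ≤ t + 1) (hs : ∀ i ∈ J, i < j → ¬ tight i p) :
    dim {x | x ∈ SS J ∧ agree j x p} = j := by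
  have hpm : p ∈ {x | x ∈ SS J ∧ agree j x p} := ⟨hp, fun _ _ => rfl⟩
  have : vectorSpan ℝ {x | x ∈ SS J ∧ agree j x p} = LinearMap.range (emb j) := by
    refine le_antisymm (vectorSpan_le_of hpm fun x hx => ?_) fun w hw => ?_
    · rw [mem_range_emb hj]
      intro k hk; simp [hx.2 k hk]
    · rw [mem_range_emb hj] at hw
      obtain ⟨ε, hε, h⟩ := slack hJ hp hs hw
      have := Submodule.smul_mem _ ε⁻¹ (sub_mem_vs (F := {x | x ∈ SS J ∧ agree j x p})
        ⟨h, fun k hk => by simp [hw k hk]⟩ hpm)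
      rwa [add_sub_cancel_left, smul_smul, inv_mul_cancel₀ hε.ne', one_smul] at this
  rw [dim_eq, this, finrank_emb hj]

theorem face_struct {J : Finset ℕ} (hJ : ∀ i ∈ J, i ≤ t) {F : Set (E t)} (hF : IsFace (SS J) F)
    (hne : F.Nonempty) : ∃ j ≤ t + 1, ∃ p ∈ SS J, ((j ∈ J ∧ tight j p) ∨ j = t + 1) ∧
      (∀ i ∈ J, i < j → ¬ tight i p) ∧ F = {x | x ∈ SS J ∧ agree j x p} := by
  classical
  have hex : ∀ p : E t, ∃ j, (j ∈ J ∧ tight j p) ∨ j = t + 1 := fun p => ⟨_, Or.inr rfl⟩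
  let f : E t → ℕ := fun p => Nat.find (hex p)
  have hb : ∀ p, f p ≤ t + 1 := fun p => Nat.find_min' _ (Or.inr rfl)
  have hsl : ∀ p, ∀ i ∈ J, i < f p → ¬ tight i p := fun p i hi h ht =>
    Nat.find_min (hex p) h (Or.inl ⟨hi, ht⟩)
  obtain ⟨p, hp, hmax⟩ : ∃ p ∈ F, ∀ r ∈ F, f r ≤ f p := by
    have hfin : (f '' F).Finite := (finite_le_nat (t + 1)).subset (by
      rintro _ ⟨q, -, rfl⟩; exact hb q)
    obtain ⟨_, ⟨q, hq, rfl⟩, h⟩ := hfin.exists_maximal (hne.image f)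
    exact ⟨q, hq, fun r hr => by
      by_contra hlt
      exact hlt (h ⟨r, hr, rfl⟩ (not_le.1 hlt).le)⟩
  refine ⟨f p, hb p, p, hF.1 hp, Nat.find_spec (hex p), hsl p, ?_⟩
  ext x
  constructor
  · intro hx
    refine ⟨hF.1 hx, ?_⟩
    have hm : (1 / 2 : ℝ) • x + (1 / 2 : ℝ) • p ∈ F :=
      hF.2.1 hx hp (by norm_num) (by norm_num) (by norm_num)
    set m := (1 / 2 : ℝ) • x + (1 / 2 : ℝ) • p with hmdef
    have hle := hmax m hm
    rcases Nat.find_spec (hex m) with ⟨hi, ht⟩ | h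
    · set i := Nat.find (hex m)
      have h0 := (uu_eq (hJ i hi) (hF.1 hm i hi) ht (hF.1 hm i hi)).2 fun _ _ => rfl
      have h1 := uu_le (hF.1 hm i hi) (hF.1 hx i hi)
      have h2 := uu_le (hF.1 hm i hi) (hF.1 hp i hi)
      have h3 : ⟪uu i m, m⟫ = 1 / 2 * ⟪uu i m, x⟫ + 1 / 2 * ⟪uu i m, p⟫ := by
        rw [← inner_smul_right, ← inner_smul_right, ← inner_add_right]
      have a1 := (uu_eq (hJ i hi) (hF.1 hm i hi) ht (hF.1 hx i hi)).1 (by linarith)
      have a2 := (uu_eq (hJ i hi) (hF.1 hm i hi) ht (hF.1 hp i hi)).1 (by linarith)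
      exact fun k hk => (a1 k (hle.trans hk)).trans (a2 k (hle.trans hk)).symm
    · intro k hk
      have : f m = t + 1 := h
      omega
  · rintro ⟨hx, ha⟩
    obtain ⟨ε, hε, h⟩ := slack hJ (hF.1 hp) (hsl p) (w := p - x) fun k hk => by simp [ha k hk]
    exact hF.mem_of hp hx hε h

end Pool.Agent.H66.Spec
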