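import Pool.Agent.H66.Spec5

/-! Signature, exposedness and polar of the construction. -/

namespace Pool.Agent.H66.Spec

open scoped RealInnerProductSpace
open Set Module

variable {t : ℕ}

theorem eT_last : eT t (Fin.last t) = 1 := by simp [eT]

theorem P_last (i : ℕ) (x : E t) : P i x (Fin.last t) = 0 := by simp [P_apply]

theorem P_P (i : ℕ) (x : E t) : P i (P i x) = P i x := by
  ext k; simp only [P_apply]; split_ifs <;> rfl

theorem agree_eq {J : Finset ℕ} (hJ : ∀ i ∈ J, i ≤ t) {j : ℕ} (hj : j ∈ J) {p : E t}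
    (hp : p ∈ SS J) (ht : tight j p) : {x | x ∈ SS J ∧ agree j x p} =
      {x | x ∈ SS J ∧ ⟪uu j p, x⟫ = -((j : ℝ) + 1)} := by
  ext x
  exact and_congr_right fun hx => (uu_eq (hJ j hj) (hp j hj) ht (hx j hj)).symm

theorem agree_top {J : Finset ℕ} (p : E t) : {x | x ∈ SS J ∧ agree (t + 1) x p} = SS J := by
  ext x
  exact ⟨fun h => h.1, fun h => ⟨h, fun k hk => by omega⟩⟩

theorem exposed_SS {J : Finset ℕ} (hJ : ∀ i ∈ J, i ≤ t) : FaciallyExposed (SS J : Set (E t)) := by
  intro F hF hne hFS
  obtain ⟨j, -, p, hp, ⟨hj, ht⟩ | rfl, -, rfl⟩ := face_struct hJ hF hne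
  · refine ⟨uu j p, _, fun h => ?_, fun x hx => uu_le (hp j hj) (hx j hj), agree_eq hJ hj hp ht⟩
    have := uu_le (hp j hj) (hp j hj)
    rw [h, inner_zero_left] at this
    linarith [(Nat.cast_nonneg j : (0 : ℝ) ≤ j)]
  · exact absurd (agree_top p) hFS

theorem rec_mem {J : Finset ℕ} (hJ : ∀ i ∈ J, i ≤ t) {κ : E t} (h0 : 0 ≤ κ (Fin.last t))
    (h : ∀ i ∈ J, ‖P i κ‖ ^ 2 ≤ κ (Fin.last t) ^ 2) :
    ((t : ℝ) + 2) • eT t + κ ∈ SS J ∧ ∀ i ∈ J, ¬ tight i (((t : ℝ) + 2) • eT t + κ) := by
  have key : ∀ i ∈ J, ((i : ℝ) + 1) + ‖P i (((t : ℝ) + 2) • eT t + κ)‖ ^ 2 <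
      (((t : ℝ) + 2) • eT t + κ) (Fin.last t) ^ 2 := by
    intro i hi
    have h1 : (i : ℝ) ≤ t := by exact_mod_cast hJ i hi
    have h2 : (0 : ℝ) ≤ t := Nat.cast_nonneg t
    simp only [map_add, map_smul, P_eT, smul_zero, zero_add, PiLp.add_apply, PiLp.smul_apply,
      eT_last, smul_eq_mul, mul_one]
    nlinarith [h i hi, mul_nonneg h2 h0]
  refine ⟨fun i hi => ⟨?_, (key i hi).le⟩, fun i hi => (key i hi).ne⟩
  simp only [PiLp.add_apply, PiLp.smul_apply, eT_last, smul_eq_mul, mul_one]
  positivity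

theorem signature_SS {J : Finset ℕ} (hJ : ∀ i ∈ J, i ≤ t) :
    signature (SS J : Set (E t)) = insert (t + 1) ↑J := by
  have hconv : Convex ℝ (SS J : Set (E t)) := (spec_SS J).closed_convex.2
  ext j
  constructor
  · rintro ⟨F, hF, hne, rfl⟩
    obtain ⟨j, hj, p, hp, h, hs, rfl⟩ := face_struct hJ hF hne
    rw [dim_agree hJ hp hj hs]
    rcases h with h | h
    · exact Or.inr h.1
    · exact Or.inl h
  · rintro (rfl | hj)
    · obtain ⟨hp, hs⟩ := rec_mem hJ (κ := 0) (by simp) (by simp)
      refine ⟨SS J, isFace_self hconv, ⟨_, hp⟩, ?_⟩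
      have := dim_agree hJ hp le_rfl fun i hi _ => hs i hi
      rwa [agree_top] at this
    · have hj : j ∈ J := hj
      obtain ⟨w, hw1, hw2, hw3, hw4⟩ : ∃ w : E t, (∀ i ≤ j, P i w = w) ∧ (∀ i, j < i → P i w = 0) ∧
          w (Fin.last t) = 0 ∧ (j < t → (t : ℝ) ≤ ‖w‖ ^ 2) := by
        by_cases hjt : j < t
        · refine ⟨EuclideanSpace.single ⟨j, by omega⟩ (√t), fun i hi => ?_, fun i hi => ?_, ?_, ?_⟩
          · ext k
            rw [P_apply]
            split_ifs with h
            · rfl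
            · rw [PiLp.single_apply, if_neg]
              rintro rfl
              exact h ⟨hi, hjt⟩
          · ext k
            rw [P_apply]
            split_ifs with h
            · rw [PiLp.single_apply, if_neg]
              · rfl
              · rintro rfl
                simp only at h; omega
            · rfl
          · rw [PiLp.single_apply, if_neg]
            intro h
            have := congrArg Fin.val h
            simp only [Fin.val_last] at this; omega
          · intro _
            simp [Real.sq_sqrt]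
        · exact ⟨0, by simp, by simp, by simp, fun h => absurd h hjt⟩
      set s := √((j : ℝ) + 1 + ‖w‖ ^ 2) with hs
      have hs2 : s ^ 2 = (j : ℝ) + 1 + ‖w‖ ^ 2 := Real.sq_sqrt (by positivity)
      have hl : (w + s • eT t) (Fin.last t) = s := by simp [hw3, eT_last]
      have hP : ∀ i, P i (w + s • eT t) = P i w := fun i => by simp [P_eT]
      have hp : w + s • eT t ∈ SS J := by
        intro i hi
        refine ⟨by rw [hl]; positivity, ?_⟩
        rw [hl, hP, hs2]
        rcases le_or_gt i j with h | h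
        · rw [hw1 i h]
          have : (i : ℝ) ≤ j := by exact_mod_cast h
          linarith
        · rw [hw2 i h]
          have h1 : (i : ℝ) ≤ t := by exact_mod_cast hJ i hi
          have := hw4 (lt_of_lt_of_le h (hJ i hi))
          simp only [norm_zero, ne_eq, OfNat.ofNat_ne_zero, not_false_eq_true, zero_pow, add_zero]
          linarith [(Nat.cast_nonneg j : (0 : ℝ) ≤ j)]
      have ht : tight j (w + s • eT t) := by
        unfold tight; rw [hl, hP, hs2, hw1 j le_rfl]
      refine ⟨{x | x ∈ SS J ∧ agree j x (w + s • eT t)}, ?_, ⟨_, hp, fun _ _ => rfl⟩,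
        dim_agree hJ hp ((hJ j hj).trans (Nat.le_succ _)) fun i hi h => ?_⟩
      · rw [agree_eq hJ hj hp ht]
        exact isFace_exposed hconv _ _ fun x hx => uu_le (hp j hj) (hx j hj)
      · unfold tight; rw [hl, hP, hs2, hw1 i h.le]
        have : (i : ℝ) < j := by exact_mod_cast h
        linarith

def LL (m : ℕ) : Set (E t) :=
  {y | y = P m y + y (Fin.last t) • eT t ∧ ‖P m y‖ ≤ -y (Fin.last t)}

theorem inner_dec (m : ℕ) (x y : E t) (c : ℝ) :
    ⟪x, P m y + c • eT t⟫ = ⟪P m x, P m y⟫ + c * x (Fin.last t) := by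
  rw [inner_add_right, inner_smul_right, real_inner_comm, inner_P, real_inner_comm,
    real_inner_comm (eT t), inner_eT]

theorem polar_SS {J : Finset ℕ} (hJ : ∀ i ∈ J, i ≤ t) {m : ℕ} (hm : m ∈ J) (hmin : ∀ i ∈ J, m ≤ i) :
    polar (SS J : Set (E t)) = LL m := by
  ext y
  constructor
  · intro hy
    have key : ∀ κ : E t, ‖P m κ‖ ≤ κ (Fin.last t) → ⟪κ, y⟫ ≤ 0 := by
      intro κ hκ
      by_contra hpos
      push Not at hpos
      have h0 : 0 ≤ κ (Fin.last t) := (norm_nonneg _).trans hκ
      set a := ⟪((t : ℝ) + 2) • eT t, y⟫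
      have hl : 0 ≤ (|a| + 2) / ⟪κ, y⟫ := by positivity
      have := hy _ (rec_mem hJ (κ := ((|a| + 2) / ⟪κ, y⟫) • κ) (by simpa using mul_nonneg hl h0)
        (fun i hi => by
          refine (norm_P_le (hmin i hi) _).trans ?_
          rw [map_smul, norm_smul, Real.norm_of_nonneg hl, PiLp.smul_apply, smul_eq_mul]
          gcongr)).1
      rw [inner_add_left, real_inner_smul_left κ, div_mul_cancel₀ _ hpos.ne'] at this
      linarith [neg_abs_le a]
    have h1 : y = P m y + y (Fin.last t) • eT t := by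
      set r := y - (P m y + y (Fin.last t) • eT t) with hr
      have r1 : P m r = 0 := by simp [hr, P_P, P_eT]
      have r2 : r (Fin.last t) = 0 := by simp [hr, P_last, eT_last]
      have h := key r (by rw [r1, r2, norm_zero])
      have e : ⟪r, y⟫ = ⟪r, r⟫ + ⟪r, P m y + y (Fin.last t) • eT t⟫ := by
        rw [← inner_add_right, hr, sub_add_cancel]
      rw [e, inner_dec, r1, r2, inner_zero_left, mul_zero, add_zero, add_zero] at h
      exact sub_eq_zero.1 (inner_self_eq_zero.1 (le_antisymm h real_inner_self_nonneg))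
    refine ⟨h1, ?_⟩
    have h2 := key (eT t) (by simp [P_eT, eT_last])
    rw [inner_eT] at h2
    have h3 := key (P m y + ‖P m y‖ • eT t) (by simp [P_eT, eT_last, P_P, P_last])
    rw [real_inner_comm, inner_dec, real_inner_self_eq_norm_sq] at h3
    rcases (norm_nonneg (P m y)).eq_or_lt with h | h
    · linarith
    · nlinarith
  · rintro ⟨h1, h2⟩ x hx
    rw [h1, inner_dec]
    have h3 : ‖P m x‖ ≤ x (Fin.last t) := by
      refine abs_le_of_sq_le_sq' ?_ (hx m hm).1 |>.2
      linarith [(hx m hm).2, (Nat.cast_nonneg m : (0 : ℝ) ≤ m)]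
    have := real_inner_le_norm (P m x) (P m y)
    nlinarith [norm_nonneg (P m x), norm_nonneg (P m y)]

theorem LL_smul {m : ℕ} {y : E t} (hy : y ∈ LL m) {c : ℝ} (hc : 0 ≤ c) : c • y ∈ LL m := by
  refine ⟨?_, ?_⟩
  · conv_lhs => rw [hy.1]
    simp [smul_smul]
  · rw [map_smul, norm_smul, Real.norm_of_nonneg hc, PiLp.smul_apply, smul_eq_mul]
    nlinarith [hy.2]

theorem exposed_LL (m : ℕ) : FaciallyExposed (LL m : Set (E t)) := by
  intro F hF hne hFS
  have hz : ∀ y ∈ (LL m : Set (E t)), y (Fin.last t) = 0 → y = 0 := fun y hy h => by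
    have h1 := hy.2
    rw [h, neg_zero, norm_le_zero_iff] at h1
    rw [hy.1, h1, h]; simp
  by_cases h0 : ∀ y ∈ F, y = 0
  · refine ⟨eT t, 0, fun h => by simpa [h] using eT_last (t := t), fun x hx => ?_, ?_⟩
    · rw [inner_eT]; linarith [hx.2, norm_nonneg (P m x)]
    · ext x
      simp only [mem_setOf_eq, inner_eT]
      refine ⟨fun hx => ⟨hF.1 hx, by rw [h0 x hx]; rfl⟩, fun hx => ?_⟩
      obtain ⟨y, hy⟩ := hne
      rwa [hz x hx.1 hx.2, ← h0 y hy]
  push Not at h0
  obtain ⟨y, hy, hy0⟩ := h0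
  have htight : ∀ y ∈ F, ‖P m y‖ = -y (Fin.last t) := by
    intro y hy
    by_contra h
    have hlt := (hF.1 hy).2.lt_of_ne h
    refine hFS (hF.1.antisymm fun z hz => ?_)
    have hc : Continuous (P m : E t → E t) := LinearMap.continuous_of_finiteDimensional _
    have h2 : ∀ᶠ ε in nhds (0 : ℝ), ‖P m (y + ε • (y - z))‖ < -(y + ε • (y - z)) (Fin.last t) :=
      ContinuousAt.eventually_lt (by fun_prop) (by fun_prop) (by simpa using hlt)
    obtain ⟨ε, hε, hε0⟩ := ((h2.filter_mono nhdsWithin_le_nhds).and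
      (self_mem_nhdsWithin (s := Ioi (0 : ℝ)) (a := 0))).exists
    refine hF.mem_of hy hz hε0 ⟨?_, hε.le⟩
    conv_lhs => rw [(hF.1 hy).1, hz.1]
    simp only [map_add, map_smul, map_sub, PiLp.add_apply, PiLp.smul_apply, PiLp.sub_apply,
      smul_eq_mul]
    module
  set r := ‖P m y‖ with hr
  have hry : y (Fin.last t) = -r := by rw [hr, htight y hy, neg_neg]
  have hr0 : 0 < r := (norm_nonneg _).lt_of_ne fun h => hy0 (hz y (hF.1 hy) (by
    rw [hry, hr, ← h, neg_zero]))
  have hu : ∀ z : E t, ⟪P m y + r • eT t, z⟫ = ⟪P m z, P m y⟫ + r * z (Fin.last t) := fun z => by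
    rw [real_inner_comm, inner_dec]
  refine ⟨P m y + r • eT t, 0, fun h => ?_, fun z hz => ?_, ?_⟩
  · have := congrArg (fun z : E t => z (Fin.last t)) h
    simp [P_last, eT_last] at this
    exact hr0.ne' this
  · rw [hu]
    have := real_inner_le_norm (P m z) (P m y)
    nlinarith [hz.2]
  · ext z
    simp only [mem_setOf_eq, hu]
    constructor
    · intro hzF
      refine ⟨hF.1 hzF, ?_⟩
      have hm : (1 / 2 : ℝ) • z + (1 / 2 : ℝ) • y ∈ F :=
        hF.2.1 hzF hy (by norm_num) (by norm_num) (by norm_num)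
      have h1 := htight _ hm
      have h2 := htight _ hzF
      rw [← smul_add, map_smul, norm_smul, map_add, PiLp.smul_apply, PiLp.add_apply, hry] at h1
      have h3 : ‖P m z + P m y‖ = ‖P m z‖ + r := by
        rw [h2]; simp only [one_div, norm_inv, Real.norm_ofNat, smul_eq_mul] at h1; linarith
      have h4 := norm_add_sq_real (P m z) (P m y)
      rw [h3, ← hr] at h4
      have h5 : z (Fin.last t) = -‖P m z‖ := by linarith
      rw [h5]; nlinarith
    · rintro ⟨hzL, h⟩
      have h1 := real_inner_le_norm (P m z) (P m y)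
      rw [← hr] at h1
      have h2 : ‖P m z‖ = -z (Fin.last t) := le_antisymm hzL.2 (by nlinarith)
      have h3 : ⟪P m z, P m y⟫ = ‖P m z‖ * ‖P m y‖ := by rw [← hr, h2]; linarith
      rw [inner_eq_norm_mul_iff_real, ← hr] at h3
      have h4 : z = (‖P m z‖ / r) • y := by
        have e1 : P m z = (‖P m z‖ / r) • P m y := by
          rw [div_eq_inv_mul, mul_smul, ← h3, smul_smul, inv_mul_cancel₀ hr0.ne', one_smul]
        have e2 : z (Fin.last t) = ‖P m z‖ / r * y (Fin.last t) := by
          rw [hry]; field_simp; linarith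
        conv_lhs => rw [hzL.1, e1, e2]
        conv_rhs => rw [(hF.1 hy).1]
        simp [smul_smul, P_P, P_eT, P_last, eT_last]
      set c := ‖P m z‖ / r
      have hc : 0 ≤ c := by positivity
      refine hF.mem_of hy hzL (ε := 1 / (c + 1)) (by positivity) ?_
      have := LL_smul (hF.1 hy) (c := 2 / (c + 1)) (by positivity)
      convert this using 1
      rw [h4]
      match_scalars
      field_simp
      ring

theorem realise (I : Finset ℕ) (hI : I.Nonempty) :
    ∃ (n : ℕ) (S : Set (EuclideanSpace ℝ (Fin n))), IsSpectrahedron S ∧ signature S = ↑I ∧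
      FaciallyExposed S ∧ FaciallyExposed (polar S) := by
  classical
  set d := I.max' hI with hd
  have hdI : d ∈ I := I.max'_mem hI
  by_cases hJ : (I.erase d).Nonempty
  · have hlt : ∀ i ∈ I.erase d, i < d := fun i hi =>
      (I.le_max' i (Finset.mem_of_mem_erase hi)).lt_of_ne (Finset.ne_of_mem_erase hi)
    obtain ⟨t, ht⟩ : ∃ t, d = t + 1 := by
      obtain ⟨i, hi⟩ := hJ
      exact ⟨d - 1, by have := hlt i hi; omega⟩
    have hle : ∀ i ∈ I.erase d, i ≤ t := fun i hi => by have := hlt i hi; omega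
    refine ⟨t + 1, SS (I.erase d), spec_SS _, ?_, exposed_SS hle, ?_⟩
    · rw [signature_SS hle, ← ht, ← Finset.coe_insert, Finset.insert_erase hdI]
    · rw [polar_SS hle ((I.erase d).min'_mem hJ) fun i hi => Finset.min'_le _ i hi]
      exact exposed_LL _
  · have hId : I = {d} := by
      rw [← Finset.insert_erase hdI, Finset.not_nonempty_iff_eq_empty.1 hJ]; rfl
    have hu : ∀ F : Set (EuclideanSpace ℝ (Fin d)), IsFace univ F → F.Nonempty → F = univ :=
      fun F hF ⟨p, hp⟩ => eq_univ_of_forall fun x => hF.mem_of hp trivial one_pos trivial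
    refine ⟨d, univ, isSpec_univ d, ?_, fun F hF hne h => absurd (hu F hF hne) h, ?_⟩
    · have hdim : dim (univ : Set (EuclideanSpace ℝ (Fin d))) = d := by
        unfold dim
        rw [AffineSubspace.span_univ, AffineSubspace.direction_top, finrank_top]; simp
      rw [hId]
      ext j
      simp only [Finset.coe_singleton, mem_singleton_iff]
      constructor
      · rintro ⟨F, hF, hne, rfl⟩; rw [hu F hF hne, hdim]
      · rintro rfl; exact ⟨univ, isFace_self convex_univ, univ_nonempty, hdim⟩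
    · intro F hF ⟨p, hp⟩ h
      have hz : ∀ y ∈ polar (univ : Set (EuclideanSpace ℝ (Fin d))), y = 0 := fun y hy => by
        by_contra h0
        have h1 := real_inner_self_pos.2 h0
        have := hy ((2 / ⟪y, y⟫) • y) trivial
        rw [real_inner_smul_left, div_mul_cancel₀ _ h1.ne'] at this
        norm_num at this
      refine absurd (hF.1.antisymm fun y hy => ?_) h
      rwa [hz y hy, ← hz p (hF.1 hp)]

end Pool.Agent.H66.Spec
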