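import Mathlib

/-! Definitions for MP_f0e28a_gt: faces, facial dimension signature, exposed faces,
spectrahedra, polars. -/

namespace Pool.Agent.H66.Spec

open scoped RealInnerProductSpace

variable {V : Type} [NormedAddCommGroup V] [InnerProductSpace ℝ V]

/-- `F` is a face of `C`: a convex subset such that whenever `x, y ∈ C` and the open segment
`(x, y)` meets `F`, both `x` and `y` lie in `F`. -/
def IsFace (C F : Set V) : Prop :=
  F ⊆ C ∧ Convex ℝ F ∧
    ∀ x ∈ C, ∀ y ∈ C, (openSegment ℝ x y ∩ F).Nonempty → x ∈ F ∧ y ∈ F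

/-- The dimension of a (nonempty convex) set: the dimension of its affine hull. -/
noncomputable def dim (F : Set V) : ℕ := Module.finrank ℝ (affineSpan ℝ F).direction

/-- The facial dimension signature: the dimensions of the nonempty faces. -/
def signature (C : Set V) : Set ℕ := {k | ∃ F, IsFace C F ∧ F.Nonempty ∧ dim F = k}

/-- `F` is cut out of `C` by the boundary hyperplane of a closed half-space containing `C`. -/
def IsExposedIn (C F : Set V) : Prop :=
  ∃ (u : V) (c : ℝ), u ≠ 0 ∧ (∀ x ∈ C, ⟪u, x⟫ ≤ c) ∧ F = {x | x ∈ C ∧ ⟪u, x⟫ = c}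

/-- Every nonempty proper face is exposed. -/
def FaciallyExposed (C : Set V) : Prop :=
  ∀ F, IsFace C F → F.Nonempty → F ≠ C → IsExposedIn C F

/-- The polar set. -/
def polar (C : Set V) : Set V := {y | ∀ x ∈ C, ⟪x, y⟫ ≤ 1}

/-- `{x | A₀ + x₁ A₁ + ... + xₙ Aₙ ⪰ 0}` with real symmetric matrices of a common size. -/
def IsSpectrahedron {n : ℕ} (S : Set (EuclideanSpace ℝ (Fin n))) : Prop :=
  ∃ (m : ℕ) (A₀ : Matrix (Fin m) (Fin m) ℝ) (A : Fin n → Matrix (Fin m) (Fin m) ℝ),
    A₀.IsSymm ∧ (∀ i, (A i).IsSymm) ∧ S = {x | (A₀ + ∑ i, x i • A i).PosSemidef}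

end Pool.Agent.H66.Spec
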