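import Mathlib

namespace Pool.Agent.H66.Sqn
open Finset

variable {H : Type*} [NormedAddCommGroup H] [InnerProductSpace ℂ H] [CompleteSpace H]

noncomputable def q (X : H →L[ℂ] H) (x : H) : ℝ := (inner ℂ (X x) x).re

lemma q_add (X Y : H →L[ℂ] H) (x : H) : q (X + Y) x = q X x + q Y x := by
  simp [q, inner_add_left]
lemma q_sub (X Y : H →L[ℂ] H) (x : H) : q (X - Y) x = q X x - q Y x := by
  simp [q, inner_sub_left]
lemma q_smul (c : ℝ) (X : H →L[ℂ] H) (x : H) : q ((c : ℂ) • X) x = c * q X x := by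
  simp [q, inner_smul_left]
lemma q_one (x : H) : q (1 : H →L[ℂ] H) x = ‖x‖ ^ 2 := by
  simp only [q, ContinuousLinearMap.one_apply]
  exact inner_self_eq_norm_sq (𝕜 := ℂ) x
lemma q_sum {ι : Type*} (s : Finset ι) (X : ι → H →L[ℂ] H) (x : H) :
    q (∑ i ∈ s, X i) x = ∑ i ∈ s, q (X i) x := by
  simp [q, sum_inner]
lemma q_conj (X T : H →L[ℂ] H) (x : H) : q (star T * X * T) x = q X (T x) := by
  simp only [q, ContinuousLinearMap.mul_apply, ContinuousLinearMap.star_eq_adjoint,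
    ContinuousLinearMap.adjoint_inner_left]
lemma q_star_mul (T : H →L[ℂ] H) (x : H) : q (star T * T) x = ‖T x‖ ^ 2 := by
  rw [← q_one, ← q_conj, mul_one]
lemma q_nonneg {X : H →L[ℂ] H} (h : 0 ≤ X) (x : H) : 0 ≤ q X x :=
  ((ContinuousLinearMap.nonneg_iff_isPositive X).1 h).re_inner_nonneg_left x
lemma q_abs (X : H →L[ℂ] H) (x : H) : |q X x| ≤ ‖X‖ * ‖x‖ ^ 2 := by
  refine (Complex.abs_re_le_norm _).trans ((norm_inner_le_norm _ _).trans ?_)
  nlinarith [X.le_opNorm x, norm_nonneg x]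
lemma q_zero {X : H →L[ℂ] H} (h : 0 ≤ X) {x : H} (hx : q X x ≤ 0) : X x = 0 := by
  obtain ⟨b, rfl⟩ := CStarAlgebra.nonneg_iff_eq_star_mul_self.1 h
  rw [q_star_mul] at hx
  have : b x = 0 := by rw [← norm_eq_zero]; nlinarith [norm_nonneg (b x)]
  simp [this]

lemma cfc_sq_le {A : H →L[ℂ] H} {f g : ℝ → ℝ} (hf : Continuous f) (hg : Continuous g)
    (h : ∀ s, f s * f s ≤ g s) (x : H) : ‖cfc f A x‖ ^ 2 ≤ q (cfc g A) x := by
  have h1 : 0 ≤ cfc (fun s => g s - f s * f s) A := cfc_nonneg fun s _ => sub_nonneg.2 (h s)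
  rw [cfc_sub g (fun s => f s * f s) A hg.continuousOn (hf.mul hf).continuousOn,
    cfc_mul _ _ A hf.continuousOn hf.continuousOn] at h1
  have h2 := q_nonneg h1 x
  have h3 : IsSelfAdjoint (cfc f A) := cfc_predicate f A
  rw [q_sub] at h2
  rw [← q_star_mul, h3.star_eq]
  linarith

noncomputable def cl (s : ℝ) : ℝ := max 0 (min 1 s)

lemma zero_of {A D : H →L[ℂ] H} (hA : 0 ≤ A) {C R : ℝ} (hC : 0 ≤ C) (hR : ‖A‖ ≤ R) (hR0 : 0 < R)
    (h : ∀ t : ℝ, 0 ≤ t → t ≤ R → ∀ y, ‖D y‖ ≤ C * ‖A y - (t : ℂ) • y‖) : D = 0 := by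
  have hsa : IsSelfAdjoint A := hA.isSelfAdjoint
  ext x
  have key : ∀ N : ℕ, 1 ≤ N → ‖D x‖ ^ 2 * N ≤ 2 * (C * R * ‖x‖) ^ 2 := by
    intro N hN
    have hN' : (1 : ℝ) ≤ N := by exact_mod_cast hN
    set δ := R / N with hδ
    have hδ0 : 0 < δ := by positivity
    set φ : ℕ → ℝ → ℝ := fun j s => cl (s / δ - j + 1) - cl (s / δ - (j + 1 : ℕ) + 1) with hφ
    have cφ : ∀ j, Continuous (φ j) := fun j => by simp only [hφ, cl]; fun_prop
    have sφ : ∑ j ∈ range (N + 1), cfc (φ j) A = 1 := by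
      rw [← cfc_sum φ A _ fun j _ => (cφ j).continuousOn, ← cfc_one ℝ A]
      refine cfc_congr fun s hs => ?_
      have s0 : 0 ≤ s := spectrum_nonneg_of_nonneg hA hs
      have s1 : s ≤ R := by
        have := spectrum.norm_le_norm_mul_of_mem hs
        have h1 : ‖(1 : H →L[ℂ] H)‖ ≤ 1 := ContinuousLinearMap.norm_id_le
        rw [Real.norm_eq_abs, abs_of_nonneg s0] at this
        nlinarith [norm_nonneg A]
      rw [Finset.sum_apply, Finset.sum_range_sub' (fun j : ℕ => cl (s / δ - j + 1))]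
      have a1 : 0 ≤ s / δ := by positivity
      have a2 : s / δ ≤ N := by rw [div_le_iff₀ hδ0, hδ]; field_simp; exact s1
      simp only [cl, Pi.one_apply]
      push_cast
      rw [min_eq_left (by linarith), max_eq_right zero_le_one,
        max_eq_left (min_le_of_right_le (by linarith))]
      ring
    have pw : ∀ (j : ℕ) s, ((s - j * δ) * φ j s) * ((s - j * δ) * φ j s) ≤ δ ^ 2 * φ j s := by
      intro j s
      obtain ⟨u, hu⟩ : ∃ u, u = s / δ - j := ⟨_, rfl⟩
      have e1 : s - j * δ = u * δ := by rw [hu]; field_simp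
      have e2 : φ j s = cl (u + 1) - cl u := by
        simp only [hφ, hu]; push_cast; congr 2; ring
      rw [e1, e2]
      have : (u * (cl (u + 1) - cl u)) * (u * (cl (u + 1) - cl u)) ≤ cl (u + 1) - cl u := by
        simp only [cl]
        rcases le_total u (-1) with h1 | h1
        · rw [max_eq_left (min_le_of_right_le (by linarith)),
            max_eq_left (min_le_of_right_le (by linarith))]; simp
        rcases le_total u 0 with h2 | h2
        · rw [min_eq_right (by linarith), max_eq_right (by linarith),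
            max_eq_left (min_le_of_right_le h2), sub_zero]
          have a1 : 0 ≤ -u * (u + 1) := mul_nonneg (by linarith) (by linarith)
          have a2 : -u * (u + 1) ≤ u + 1 := by nlinarith
          have a3 : -u * (u + 1) ≤ 1 := by nlinarith
          nlinarith
        rcases le_total u 1 with h3 | h3
        · rw [min_eq_left (by linarith), max_eq_right zero_le_one, min_eq_right h3, max_eq_right h2]
          have a1 : 0 ≤ u * (1 - u) := mul_nonneg h2 (by linarith)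
          have a2 : u * (1 - u) ≤ 1 - u := by nlinarith
          have a3 : u * (1 - u) ≤ 1 := by nlinarith
          nlinarith
        · rw [min_eq_left (by linarith), min_eq_left h3]; simp
      nlinarith [mul_le_mul_of_nonneg_left this (sq_nonneg δ)]
    set y : ℕ → H := fun j => A (cfc (φ j) A x) - ((j * δ : ℝ) : ℂ) • cfc (φ j) A x with hy
    have ey : ∀ j, ‖y j‖ ^ 2 ≤ δ ^ 2 * q (cfc (φ j) A) x := by
      intro j
      have a1 := cfc_sq_le (A := A) (f := fun s => (s - j * δ) * φ j s) (g := fun s => δ ^ 2 * φ j s)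
        (by fun_prop) (by fun_prop) (pw j) x
      rw [cfc_mul _ _ A (by fun_prop) (cφ j).continuousOn, cfc_const_mul _ _ A (cφ j).continuousOn,
        cfc_sub _ _ A (by fun_prop) (by fun_prop), cfc_id' ℝ A, cfc_const _ A,
        Algebra.algebraMap_eq_smul_one, ← Complex.coe_smul, ← Complex.coe_smul, q_smul] at a1
      simpa [hy] using a1
    have e1 : ∑ j ∈ range (N + 1), ‖y j‖ ^ 2 ≤ δ ^ 2 * ‖x‖ ^ 2 := by
      refine (sum_le_sum fun j _ => ey j).trans (le_of_eq ?_)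
      rw [← mul_sum, ← q_sum, sφ, q_one]
    have e2 : ‖D x‖ ≤ C * ∑ j ∈ range (N + 1), ‖y j‖ := by
      have : x = ∑ j ∈ range (N + 1), cfc (φ j) A x := by
        rw [← ContinuousLinearMap.sum_apply, sφ]; rfl
      conv_lhs => rw [this, map_sum]
      rw [mul_sum]
      refine (norm_sum_le _ _).trans (sum_le_sum fun j hj => h _ (by positivity) ?_ _)
      have : (j : ℝ) ≤ N := by exact_mod_cast Nat.lt_succ_iff.1 (mem_range.1 hj)
      calc j * δ ≤ N * δ := by gcongr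
        _ = R := by rw [hδ]; field_simp
    have e3 := sq_sum_le_card_mul_sum_sq (s := range (N + 1)) (f := fun j => ‖y j‖)
    rw [card_range] at e3
    push_cast at e3
    have e4 : ‖D x‖ ^ 2 ≤ C ^ 2 * ((N + 1) * (δ ^ 2 * ‖x‖ ^ 2)) := by
      calc ‖D x‖ ^ 2 ≤ (C * ∑ j ∈ range (N + 1), ‖y j‖) ^ 2 := by gcongr
        _ = C ^ 2 * (∑ j ∈ range (N + 1), ‖y j‖) ^ 2 := by ring
        _ ≤ _ := by gcongr; exact e3.trans (by gcongr)
    calc ‖D x‖ ^ 2 * N ≤ C ^ 2 * ((2 * N) * (δ ^ 2 * ‖x‖ ^ 2)) * N := by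
          gcongr; exact e4.trans (by gcongr; linarith)
      _ = _ := by rw [hδ]; field_simp
  by_contra hc
  have h1 : 0 < ‖D x‖ ^ 2 := pow_pos (norm_pos_iff.2 hc) 2
  obtain ⟨N, hN⟩ := exists_nat_gt (2 * (C * R * ‖x‖) ^ 2 / ‖D x‖ ^ 2)
  rw [div_lt_iff₀ h1] at hN
  have := key (N + 1) (by omega)
  push_cast at this
  nlinarith

lemma polar {S B : H →L[ℂ] H} (hS : IsSelfAdjoint S) {C β : ℝ} (hC : 0 < C) (hβ : 0 < β)
    (hB : ‖B‖ ≤ β) (h : ∀ x, |q S x| ≤ C * ‖B x‖ ^ 2) (x : H) : ‖S x‖ ≤ C * β * ‖B x‖ := by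
  set ε : ℝ := 1 / (C * β ^ 2) with hε
  have hε0 : 0 < ε := by positivity
  set y := (ε : ℂ) • S x with hy
  have a1 : q S (x + y) - q S (x - y) = 4 * (ε * ‖S x‖ ^ 2) := by
    have b1 : inner ℂ (S y) x = inner ℂ y (S x) := hS.isSymmetric y x
    have b2 : (inner ℂ (S x) y).re = ε * ‖S x‖ ^ 2 := by
      rw [hy, inner_smul_right, Complex.re_ofReal_mul]
      congr 1; exact inner_self_eq_norm_sq (𝕜 := ℂ) _
    have b3 : (inner ℂ y (S x)).re = ε * ‖S x‖ ^ 2 := by
      rw [← b2]; exact inner_re_symm (𝕜 := ℂ) _ _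
    simp only [q, map_add, map_sub, inner_add_left, inner_add_right, inner_sub_left,
      inner_sub_right, Complex.add_re, Complex.sub_re, b1, b2, b3]
    ring
  have a2 := parallelogram_law_with_norm ℂ (B x) (B y)
  have a3 := (abs_le.1 (h (x + y))).2
  have a4 := (abs_le.1 (h (x - y))).1
  rw [map_add] at a3
  rw [map_sub] at a4
  have a5 : ‖B y‖ ≤ β * (ε * ‖S x‖) := by
    refine (B.le_opNorm y).trans ?_
    rw [hy, norm_smul, Complex.norm_real, Real.norm_eq_abs, abs_of_pos hε0]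
    gcongr
  have a6 : C * ‖B y‖ ^ 2 ≤ ε * ‖S x‖ ^ 2 := by
    calc C * ‖B y‖ ^ 2 ≤ C * (β * (ε * ‖S x‖)) ^ 2 := by gcongr
      _ = _ := by rw [hε]; field_simp
  have a7 : ε * ‖S x‖ ^ 2 ≤ C * ‖B x‖ ^ 2 := by nlinarith
  refine (pow_le_pow_iff_left₀ (norm_nonneg _) (by positivity) two_ne_zero).1 ?_
  rw [hε, one_div, inv_mul_le_iff₀ (by positivity)] at a7
  exact a7.trans (le_of_eq (by ring))

lemma taylor {A : H →L[ℂ] H} (hA : IsSelfAdjoint A) {R : ℝ} (hR : ‖A‖ ≤ R) (e : ℕ) :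
    ∃ K : ℝ, 0 ≤ K ∧ ∀ t : ℝ, 0 ≤ t → t ≤ R → ∀ y, |t * q (A ^ e) y - t ^ (e + 1) * ‖y‖ ^ 2 -
      e * t ^ e * (q A y - t * ‖y‖ ^ 2)| ≤ K * ‖A y - (t : ℂ) • y‖ ^ 2 := by
  have R0 : 0 ≤ R := (norm_nonneg _).trans hR
  have key : ∃ K : ℝ, 0 ≤ K ∧ ∀ t : ℝ, 0 ≤ t → t ≤ R → ∃ W : H →L[ℂ] H, ‖W‖ ≤ K ∧
      (t : ℂ) • A ^ e - ((t ^ (e + 1) : ℝ) : ℂ) • 1 - ((e * t ^ e : ℝ) : ℂ) • (A - (t : ℂ) • 1) =
        (A - (t : ℂ) • 1) * W * (A - (t : ℂ) • 1) := by
    induction e with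
    | zero => exact ⟨0, le_rfl, fun t _ _ => ⟨0, by simp, by simp⟩⟩
    | succ e ih =>
      obtain ⟨K, hK, ih⟩ := ih
      refine ⟨K * R + e * R ^ e, by positivity, fun t t0 t1 => ?_⟩
      obtain ⟨W, hW, hWe⟩ := ih t t0 t1
      refine ⟨W * A + ((e * t ^ e : ℝ) : ℂ) • 1, ?_, ?_⟩
      · refine (norm_add_le _ _).trans (add_le_add ((norm_mul_le _ _).trans (by gcongr)) ?_)
        rw [norm_smul, Complex.norm_real, Real.norm_eq_abs, abs_of_nonneg (by positivity)]
        have h1 : ‖(1 : H →L[ℂ] H)‖ ≤ 1 := ContinuousLinearMap.norm_id_le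
        calc _ ≤ e * R ^ e * 1 := by gcongr
          _ = _ := mul_one _
      · have : (A - (t : ℂ) • 1) * (W * A + ((e * t ^ e : ℝ) : ℂ) • 1) * (A - (t : ℂ) • 1) =
            (A - (t : ℂ) • 1) * W * (A - (t : ℂ) • 1) * A +
              ((e * t ^ e : ℝ) : ℂ) • ((A - (t : ℂ) • 1) * (A - (t : ℂ) • 1)) := by
          simp only [mul_sub, sub_mul, mul_add, add_mul, mul_smul_comm, smul_mul_assoc, mul_one,
            one_mul, mul_assoc, smul_sub, smul_smul]
          module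
        rw [this, ← hWe]
        simp only [mul_sub, sub_mul, mul_smul_comm, smul_mul_assoc, mul_one, one_mul, smul_sub,
          smul_smul, ← pow_succ]
        push_cast
        module
  obtain ⟨K, hK, key⟩ := key
  refine ⟨K, hK, fun t t0 t1 y => ?_⟩
  obtain ⟨W, hW, hWe⟩ := key t t0 t1
  have h1 := congrArg (q · y) hWe
  have h2 : star (A - (t : ℂ) • 1) = A - (t : ℂ) • 1 := by
    simp [hA.star_eq, Complex.conj_ofReal]
  simp only [q_sub, q_smul, q_one] at h1
  rw [h1]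
  nth_rewrite 1 [← h2]
  rw [q_conj]
  refine (q_abs _ _).trans ?_
  simp only [ContinuousLinearMap.sub_apply, ContinuousLinearMap.smul_apply,
    ContinuousLinearMap.one_apply]
  gcongr

lemma pow_diff (A : H →L[ℂ] H) {R : ℝ} (R0 : 0 ≤ R) (r : ℕ) : ∃ K : ℝ, 0 ≤ K ∧
    ∀ t : ℝ, 0 ≤ t → t ≤ R → ∀ y, ‖(A ^ r) y - ((t ^ r : ℝ) : ℂ) • y‖ ≤ K * ‖A y - (t : ℂ) • y‖ := by
  induction r with
  | zero => exact ⟨0, le_rfl, fun t _ _ y => by simp⟩
  | succ r ih =>
    obtain ⟨K, hK, ih⟩ := ih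
    refine ⟨‖A ^ r‖ + R * K, by positivity, fun t t0 t1 y => ?_⟩
    have : (A ^ (r + 1)) y - ((t ^ (r + 1) : ℝ) : ℂ) • y = (A ^ r) (A y - (t : ℂ) • y) +
        (t : ℂ) • ((A ^ r) y - ((t ^ r : ℝ) : ℂ) • y) := by
      rw [pow_succ A, ContinuousLinearMap.mul_apply, map_sub, map_smul]
      push_cast
      module
    rw [this, add_mul]
    refine (norm_add_le _ _).trans (add_le_add ((A ^ r).le_opNorm _) ?_)
    rw [norm_smul, Complex.norm_real, Real.norm_eq_abs, abs_of_nonneg t0, mul_assoc]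
    gcongr
    exact ih t t0 t1 y

lemma ker_pow {A : H →L[ℂ] H} (hA : IsSelfAdjoint A) {y : H} (r : ℕ) (h : (A ^ (r + 1)) y = 0) :
    A y = 0 := by
  induction r with
  | zero => simpa using h
  | succ r ih =>
    apply ih
    have h1 : inner ℂ ((A ^ (r + 1 + 1)) y) ((A ^ r) y) = 0 := by rw [h, inner_zero_left]
    rw [pow_succ' A (r + 1), ContinuousLinearMap.mul_apply, hA.isSymmetric.apply_clm,
      ← ContinuousLinearMap.mul_apply, ← pow_succ'] at h1
    exact inner_self_eq_zero.1 h1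

lemma conv {u : ℕ → ℝ} (h : ∀ j, 2 * u (j + 1) ≤ u j + u (j + 2)) (i a b : ℕ) :
    (a + b) * u (i + a) ≤ b * u i + a * u (i + a + b) := by
  have mono : Monotone fun j => u (j + 1) - u j := monotone_nat_of_le_succ fun j => by
    linarith [h j]
  have h1 : ∀ a : ℕ, u (i + a) - u i ≤ a * (u (i + a + 1) - u (i + a)) := by
    intro a
    induction a with
    | zero => simp
    | succ a ih =>
      have := mono (Nat.le_succ (i + a))
      have h0 : (0 : ℝ) ≤ a := Nat.cast_nonneg a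
      simp only [Nat.succ_eq_add_one] at this
      rw [← add_assoc]; push_cast
      nlinarith
  have h2 : ∀ k b : ℕ, b * (u (k + 1) - u k) ≤ u (k + b) - u k := by
    intro k b
    induction b with
    | zero => simp
    | succ b ih =>
      have := mono (Nat.le_add_right k b)
      simp only at this
      rw [← add_assoc]; push_cast
      nlinarith
  have h3 := mul_le_mul_of_nonneg_left (h1 a) (Nat.cast_nonneg (α := ℝ) b)
  have h4 := mul_le_mul_of_nonneg_left (h2 (i + a) b) (Nat.cast_nonneg (α := ℝ) a)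
  nlinarith

end Pool.Agent.H66.Sqn
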