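import Mathlib

namespace Pool.Agent.H66.Sqn

variable {H : Type*} [NormedAddCommGroup H] [InnerProductSpace ℂ H] [CompleteSpace H]

/-- Commuting tuple. -/
def Commuting {ι : Type} (T : ι → H →L[ℂ] H) : Prop := ∀ i j, T i * T j = T j * T i

/-- The operator matrix with `(i,j)` entry `[T_j^*, T_i]` (always self-adjoint) is positive. -/
def JointlyHyponormal {ι : Type} [Fintype ι] (T : ι → H →L[ℂ] H) : Prop :=
  ∀ x : ι → H, 0 ≤ (∑ i, ∑ j, inner ℂ (x i) ((star (T j) * T i - T i * star (T j)) (x j))).re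

/-- Every `T_i` commutes with `∑ T_j^* T_j`. -/
def SphQuasinormal {ι : Type} [Fintype ι] (T : ι → H →L[ℂ] H) : Prop :=
  ∀ i, T i * (∑ j, star (T j) * T j) = (∑ j, star (T j) * T j) * T i

/-- The tuple `T^n` of all words `T_{w 0} T_{w 1} ... T_{w (n-1)}`. -/
noncomputable def tuplePow {ι : Type} (T : ι → H →L[ℂ] H) (n : ℕ) : (Fin n → ι) → H →L[ℂ] H :=
  fun w => (List.ofFn fun k => T (w k)).prod

end Pool.Agent.H66.Sqn
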