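import Pool.Agent.H66.Sqn1
import Pool.Agent.H66.SqnDefs

namespace Pool.Agent.H66.Sqn
open Finset

variable {H : Type*} [NormedAddCommGroup H] [InnerProductSpace ℂ H] [CompleteSpace H]

lemma main {P : ℕ → H →L[ℂ] H} {A : H →L[ℂ] H} (hA : 0 ≤ A) (hP : ∀ j, 0 ≤ P j) (h0 : P 0 = 1)
    (hc : ∀ j (t : ℝ) y, 2 * t * q (P (j + 1)) y ≤ t ^ 2 * q (P j) y + q (P (j + 2)) y)
    {k b : ℕ} (hk : 1 ≤ k) (h1 : P (k + b) = A ^ (k + b))
    (h2 : P (k + b + (k + b)) = A ^ (k + b + (k + b))) : P k = A ^ k := by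
  have hsa : IsSelfAdjoint A := hA.isSelfAdjoint
  set L := k + b with hL
  have hL' : (L : ℝ) = k + b := by rw [hL]; push_cast; ring
  have hk' : (1 : ℝ) ≤ k := by exact_mod_cast hk
  have hb' : (0 : ℝ) ≤ b := Nat.cast_nonneg b
  have cv : ∀ t : ℝ, 0 < t → ∀ y j, 2 * (q (P (j + 1)) y / t ^ (j + 1)) ≤
      q (P j) y / t ^ j + q (P (j + 2)) y / t ^ (j + 2) := by
    intro t ht y j
    have := hc j t y
    have e : ∀ u v w : ℝ, 2 * (u / t ^ (j + 1)) - (v / t ^ j + w / t ^ (j + 2)) =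
        (2 * t * u - (t ^ 2 * v + w)) / t ^ (j + 2) := fun u v w => by field_simp; ring
    rw [← sub_nonpos, e]
    exact div_nonpos_of_nonpos_of_nonneg (by linarith) (by positivity)
  have up : ∀ t : ℝ, 0 < t → ∀ y, L * (t ^ b * q (P k) y) ≤ b * (t ^ L * ‖y‖ ^ 2) + k * q (A ^ L) y := by
    intro t ht y
    have := conv (u := fun j => q (P j) y / t ^ j) (cv t ht y) 0 k b
    simp only [zero_add, ← hL, h0, h1, q_one, pow_zero, div_one] at this
    have h3 := mul_le_mul_of_nonneg_left this (pow_pos ht L).le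
    have e1 : t ^ L * ((k + b) * (q (P k) y / t ^ k)) = L * (t ^ b * q (P k) y) := by
      rw [hL', hL, pow_add]; field_simp
    have e2 : t ^ L * (b * ‖y‖ ^ 2 + k * (q (A ^ L) y / t ^ L)) =
        b * (t ^ L * ‖y‖ ^ 2) + k * q (A ^ L) y := by field_simp
    rwa [e1, e2] at h3
  have lo : ∀ t : ℝ, 0 < t → ∀ y, (b + L) * (t ^ L * q (A ^ L) y) ≤
      L * (t ^ (b + L) * q (P k) y) + b * q (A ^ (L + L)) y := by
    intro t ht y
    have := conv (u := fun j => q (P j) y / t ^ j) (cv t ht y) k b L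
    simp only [← hL, h1, h2] at this
    have h3 := mul_le_mul_of_nonneg_left this (pow_pos ht (L + L)).le
    have e1 : t ^ (L + L) * ((b + L) * (q (A ^ L) y / t ^ L)) = (b + L) * (t ^ L * q (A ^ L) y) := by
      rw [pow_add]; field_simp
    have e2 : t ^ (L + L) * (L * (q (P k) y / t ^ k) + b * (q (A ^ (L + L)) y / t ^ (L + L))) =
        L * (t ^ (b + L) * q (P k) y) + b * q (A ^ (L + L)) y := by
      have : t ^ (L + L) = t ^ k * t ^ (b + L) := by rw [← pow_add]; congr 1; omega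
      rw [mul_add]; congr 1
      · rw [this]; field_simp
      · field_simp
    rwa [e1, e2] at h3
  set R := ‖A‖ + 1 with hR
  have R0 : 0 < R := by positivity
  have hAR : ‖A‖ ≤ R := by linarith
  obtain ⟨K1, k1, t1⟩ := taylor hsa hAR k
  obtain ⟨K2, k2, t2⟩ := taylor hsa hAR L
  obtain ⟨K3, k3, t3⟩ := taylor hsa hAR (L + L)
  set D := P k - A ^ k with hD
  have hDs : IsSelfAdjoint D := (hP k).isSelfAdjoint.sub (hsa.pow k)
  set C := L * R ^ (b + L) * K1 + (k + b + L) * R ^ L * K2 + b * K3 + 1 with hC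
  have C0 : 0 < C := by positivity
  have form : ∀ t : ℝ, 0 ≤ t → t ≤ R → ∀ y, |q (((L * t ^ (b + L + 1) : ℝ) : ℂ) • D) y| ≤
      C * ‖(A - (t : ℂ) • 1) y‖ ^ 2 := by
    intro t t0 tR y
    rw [q_smul, hD, q_sub]
    rcases t0.eq_or_lt with rfl | ht
    · simp only [ne_eq, Nat.add_eq_zero_iff, one_ne_zero, and_false, not_false_eq_true, zero_pow,
        mul_zero, zero_mul, abs_zero]
      positivity
    simp only [ContinuousLinearMap.sub_apply, ContinuousLinearMap.smul_apply,
      ContinuousLinearMap.one_apply]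
    have a1 := t1 t t0 tR y
    have a2 := t2 t t0 tR y
    have a3 := t3 t t0 tR y
    have a4 := mul_le_mul_of_nonneg_left (up t ht y) (pow_pos ht (L + 1)).le
    have a5 := mul_le_mul_of_nonneg_left (lo t ht y) t0
    set β := ‖A y - (t : ℂ) • y‖ ^ 2
    have β0 : 0 ≤ β := by positivity
    set γ := q A y - t * ‖y‖ ^ 2
    obtain ⟨e1, he1⟩ : ∃ e, e = t * q (A ^ k) y - t ^ (k + 1) * ‖y‖ ^ 2 - k * t ^ k * γ := ⟨_, rfl⟩
    obtain ⟨e2, he2⟩ : ∃ e, e = t * q (A ^ L) y - t ^ (L + 1) * ‖y‖ ^ 2 - L * t ^ L * γ := ⟨_, rfl⟩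
    obtain ⟨e3, he3⟩ : ∃ e, e = t * q (A ^ (L + L)) y - t ^ (L + L + 1) * ‖y‖ ^ 2 -
      (L + L : ℕ) * t ^ (L + L) * γ := ⟨_, rfl⟩
    rw [← he1] at a1
    rw [← he2] at a2
    rw [← he3] at a3
    have pk : t ^ L = t ^ k * t ^ b := by rw [hL, pow_add]
    have u1 : L * t ^ (b + L + 1) * (q (P k) y - q (A ^ k) y) ≤ k * t ^ L * e2 - L * t ^ (b + L) * e1 := by
      rw [he1, he2]
      simp only [pow_add, pow_one, pk, hL'] at a4 ⊢
      linarith
    have u2 : (b + L) * t ^ L * e2 - b * e3 - L * t ^ (b + L) * e1 ≤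
        L * t ^ (b + L + 1) * (q (P k) y - q (A ^ k) y) := by
      rw [he1, he2, he3]
      push_cast
      simp only [pow_add, pow_one, pk, hL'] at a5 ⊢
      linarith
    have bd : ∀ (c e K : ℝ) (m : ℕ), 0 ≤ c → 0 ≤ K → |e| ≤ K * β → |c * t ^ m * e| ≤ c * R ^ m * K * β := by
      intro c e K m hc hK he
      rw [abs_mul, abs_of_nonneg (by positivity), mul_assoc (c * R ^ m)]
      gcongr
    have b1 := abs_le.1 (bd L e1 K1 (b + L) (by positivity) k1 a1)
    have b2 := abs_le.1 (bd k e2 K2 L (by positivity) k2 a2)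
    have b3 := abs_le.1 (bd (b + L) e2 K2 L (by positivity) k2 a2)
    have b4 := abs_le.1 (bd b e3 K3 0 (by positivity) k3 a3)
    simp only [pow_zero, mul_one] at b4
    have c1 : 0 ≤ k * R ^ L * K2 * β := by positivity
    have c2 : 0 ≤ (b + L) * R ^ L * K2 * β := by positivity
    have c3 : 0 ≤ b * K3 * β := by positivity
    rw [abs_le, hC]
    constructor <;> nlinarith
  obtain ⟨K4, k4, t4⟩ := pow_diff A R0.le (b + L + 1)
  have L1 : (1 : ℝ) ≤ L := by linarith
  have z1 : D * A ^ (b + L + 1) = 0 := by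
    refine zero_of hA (C := ‖D‖ * K4 + C * (2 * R)) (by positivity) hAR R0 fun t t0 tR y => ?_
    have a1 := polar (S := ((L * t ^ (b + L + 1) : ℝ) : ℂ) • D) (B := A - (t : ℂ) • 1)
      (by rw [Complex.coe_smul]; exact (IsSelfAdjoint.all _).smul hDs) C0 (β := 2 * R)
      (by positivity) (by
        refine (norm_sub_le _ _).trans ?_
        rw [norm_smul, Complex.norm_real, Real.norm_eq_abs, abs_of_nonneg t0]
        have h1 : ‖(1 : H →L[ℂ] H)‖ ≤ 1 := ContinuousLinearMap.norm_id_le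
        nlinarith [norm_nonneg (1 : H →L[ℂ] H)]) (form t t0 tR) y
    simp only [ContinuousLinearMap.sub_apply, ContinuousLinearMap.smul_apply,
      ContinuousLinearMap.one_apply] at a1
    rw [norm_smul, Complex.norm_real, Real.norm_eq_abs, abs_of_nonneg (by positivity)] at a1
    have a2 : (D * A ^ (b + L + 1)) y = D ((A ^ (b + L + 1)) y - ((t ^ (b + L + 1) : ℝ) : ℂ) • y) +
        ((t ^ (b + L + 1) : ℝ) : ℂ) • D y := by
      rw [map_sub, map_smul, sub_add_cancel]; rfl
    rw [a2, add_mul]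
    refine (norm_add_le _ _).trans (add_le_add ?_ ?_)
    · refine (D.le_opNorm _).trans ?_
      rw [mul_assoc]
      gcongr
      exact t4 t t0 tR y
    · rw [norm_smul, Complex.norm_real, Real.norm_eq_abs, abs_of_nonneg (by positivity)]
      refine le_trans ?_ a1
      have : 0 ≤ t ^ (b + L + 1) * ‖D y‖ := by positivity
      nlinarith
  have z2 : A ^ (b + L + 1) * D = 0 := by
    have := congrArg star z1
    rwa [star_mul, hDs.star_eq, (hsa.pow _).star_eq, star_zero] at this
  have z3 : ∀ y, A y = 0 → D y = 0 := by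
    intro y hy
    have pw : ∀ m : ℕ, 1 ≤ m → (A ^ m) y = 0 := fun m hm => by
      obtain ⟨m, rfl⟩ := Nat.exists_eq_add_of_le' hm
      rw [pow_succ, ContinuousLinearMap.mul_apply, hy, map_zero]
    have a1 : q (P k) y ≤ 0 := by
      have c : ContinuousWithinAt (fun t : ℝ => t ^ k * ‖y‖ ^ 2) (Set.Ioi 0) 0 := by fun_prop
      have c2 := c.tendsto
      simp only [zero_pow (by omega : k ≠ 0), zero_mul] at c2
      refine ge_of_tendsto c2 ?_
      filter_upwards [self_mem_nhdsWithin] with t ht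
      have ht' : 0 < t := ht
      have a2 := up t ht y
      rw [q, q, pw L (by omega), inner_zero_left, Complex.zero_re, mul_zero, add_zero, ← q] at a2
      have a3 : b * (t ^ L * ‖y‖ ^ 2) ≤ L * (t ^ b * (t ^ k * ‖y‖ ^ 2)) := by
        rw [hL, pow_add t k b]
        have : 0 ≤ t ^ k * t ^ b * ‖y‖ ^ 2 := by positivity
        push_cast
        nlinarith
      exact le_of_mul_le_mul_left (le_of_mul_le_mul_left (a2.trans a3) (by linarith)) (pow_pos ht' b)
    rw [hD, ContinuousLinearMap.sub_apply, q_zero (hP k) a1, pw k hk, sub_zero]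
  rw [← sub_eq_zero, ← hD]
  ext x
  have a1 : D (D x) = 0 := z3 _ (ker_pow hsa (b + L) (by
    rw [← ContinuousLinearMap.mul_apply, z2]; rfl))
  have a2 := q_star_mul D x
  rw [hDs.star_eq, q, ContinuousLinearMap.mul_apply, a1, inner_zero_left, Complex.zero_re] at a2
  simpa using a2.symm

variable {ι : Type} [Fintype ι]

noncomputable def PP (T : ι → H →L[ℂ] H) : ℕ → H →L[ℂ] H
  | 0 => 1
  | j + 1 => ∑ i, star (T i) * PP T j * T i

lemma PP_nonneg (T : ι → H →L[ℂ] H) (j : ℕ) : 0 ≤ PP T j := by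
  induction j with
  | zero => exact zero_le_one
  | succ j ih => exact sum_nonneg fun i _ => star_left_conjugate_nonneg ih _

lemma PP_one (T : ι → H →L[ℂ] H) : PP T 1 = ∑ i, star (T i) * T i := by simp [PP]

lemma q_PP (T : ι → H →L[ℂ] H) (j : ℕ) (y : H) : q (PP T (j + 1)) y = ∑ i, q (PP T j) (T i y) := by
  simp only [PP, q_sum, q_conj]

lemma PP_add (T : ι → H →L[ℂ] H) (j n : ℕ) :
    PP T (j + n) = ∑ w, star (tuplePow T n w) * PP T j * tuplePow T n w := by
  induction n generalizing j with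
  | zero => simp [tuplePow]
  | succ n ih =>
    rw [show j + (n + 1) = j + 1 + n by omega, ih, ← (Fin.consEquiv fun _ => ι).sum_comp,
      Fintype.sum_prod_type, sum_comm]
    refine sum_congr rfl fun w _ => ?_
    simp only [PP, mul_sum, sum_mul]
    refine sum_congr rfl fun i _ => ?_
    simp [tuplePow, List.ofFn_succ, mul_assoc]

lemma PP_mul {T : ι → H →L[ℂ] H} {n : ℕ} (h : SphQuasinormal (tuplePow T n)) (m : ℕ) :
    PP T (n * m) = PP T n ^ m := by
  have e : PP T n = ∑ w, star (tuplePow T n w) * tuplePow T n w := by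
    have := PP_add T 0 n
    simpa [PP] using this
  induction m with
  | zero => simp [PP]
  | succ m ih =>
    rw [Nat.mul_succ, PP_add, ih, pow_succ']
    conv_rhs => rw [e, sum_mul, ← e]
    refine sum_congr rfl fun w _ => ?_
    have : Commute (tuplePow T n w) (PP T n) := by rw [e]; exact h w
    rw [mul_assoc, mul_assoc, (this.pow_right m).eq]

lemma PP_conv {T : ι → H →L[ℂ] H} (hc : Commuting T) (hh : JointlyHyponormal T) (j : ℕ) (t : ℝ)
    (y : H) : 2 * t * q (PP T (j + 1)) y ≤ t ^ 2 * q (PP T j) y + q (PP T (j + 2)) y := by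
  induction j generalizing y with
  | zero =>
    have h1 := hh fun i => T i y
    have e1 : q (PP T 2) y = (∑ i, ∑ j, inner ℂ (T i y) ((star (T j) * T i) (T j y))).re := by
      simp only [q_PP, Complex.re_sum]
      refine sum_congr rfl fun i _ => sum_congr rfl fun j _ => ?_
      have : T i (T j y) = T j (T i y) := by
        rw [← ContinuousLinearMap.mul_apply, hc, ContinuousLinearMap.mul_apply]
      simp only [PP, q, ContinuousLinearMap.one_apply, ContinuousLinearMap.mul_apply,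
        ContinuousLinearMap.star_eq_adjoint, ContinuousLinearMap.adjoint_inner_right, this]
    have e2 : ‖PP T 1 y‖ ^ 2 = (∑ i, ∑ j, inner ℂ (T i y) ((T i * star (T j)) (T j y))).re := by
      rw [← inner_self_eq_norm_sq (𝕜 := ℂ), PP_one]
      simp only [ContinuousLinearMap.sum_apply, sum_inner, inner_sum, ContinuousLinearMap.mul_apply,
        ContinuousLinearMap.star_eq_adjoint, ContinuousLinearMap.adjoint_inner_left]
      rw [sum_comm]; rfl
    simp only [ContinuousLinearMap.sub_apply, inner_sub_right, sum_sub_distrib, Complex.sub_re] at h1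
    rw [← e1, ← e2] at h1
    have h2 : q (PP T 1) y ≤ ‖PP T 1 y‖ * ‖y‖ := re_inner_le_norm (𝕜 := ℂ) _ _
    have h3 : -(‖PP T 1 y‖ * ‖y‖) ≤ q (PP T 1) y :=
      (neg_nonpos.2 (by positivity)).trans (q_nonneg (PP_nonneg T 1) y)
    have h4 : q (PP T 0) y = ‖y‖ ^ 2 := q_one y
    simp only [zero_add, h4]
    rcases le_total 0 t with h | h
    · nlinarith [sq_nonneg (t * ‖y‖ - ‖PP T 1 y‖), mul_le_mul_of_nonneg_left h2 h]
    · nlinarith [sq_nonneg (t * ‖y‖ + ‖PP T 1 y‖), mul_le_mul_of_nonneg_left h3 (neg_nonneg.2 h)]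
  | succ j ih =>
    rw [q_PP, q_PP T j, show j + 1 + 2 = j + 2 + 1 by omega, q_PP, mul_sum, mul_sum,
      ← sum_add_distrib]
    exact sum_le_sum fun i _ => ih _

theorem thm {T : ι → H →L[ℂ] H} (hc : Commuting T) (hh : JointlyHyponormal T) {n : ℕ} (hn : 1 ≤ n)
    (h : SphQuasinormal (tuplePow T n)) : SphQuasinormal T := by
  set A := cfc (fun s : ℝ => s ^ ((n : ℝ)⁻¹)) (PP T n) with hA
  have cA : Continuous fun s : ℝ => s ^ ((n : ℝ)⁻¹) := Real.continuous_rpow_const (by positivity)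
  have A0 : 0 ≤ A := cfc_nonneg fun s hs =>
    Real.rpow_nonneg (spectrum_nonneg_of_nonneg (PP_nonneg T n) hs) _
  have An : A ^ n = PP T n := by
    have := (PP_nonneg T n).isSelfAdjoint
    rw [hA, ← cfc_pow _ n _ cA.continuousOn]
    conv_rhs => rw [← cfc_id' ℝ (PP T n)]
    exact cfc_congr fun s hs =>
      Real.rpow_inv_natCast_pow (spectrum_nonneg_of_nonneg (PP_nonneg T n) hs) (by omega)
  have key : ∀ k, 1 ≤ k → k ≤ 3 → PP T k = A ^ k := fun k h1 h3 => by
    have e : k + (n * 3 - k) = n * 3 := by omega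
    refine main A0 (PP_nonneg T) rfl (PP_conv hc hh) h1 (b := n * 3 - k) ?_ ?_
    · rw [e, PP_mul h, pow_mul, An]
    · rw [e, ← mul_add, PP_mul h, pow_mul, An]
  have k1 := key 1 le_rfl (by norm_num)
  have k2 := key 2 (by norm_num) (by norm_num)
  have k3 := key 3 (by norm_num) le_rfl
  rw [pow_one] at k1
  have hsa := A0.isSelfAdjoint
  have e1 : ∑ i, star (T i) * T i = A := by rw [← k1, PP_one]
  have e2 : ∑ i, star (T i) * A * T i = A ^ 2 := by rw [← k2, ← k1]; rfl
  have e3 : ∑ i, star (T i) * A ^ 2 * T i = A ^ 3 := by rw [← k3, ← k2]; rfl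
  have z : ∑ i, star (T i * A - A * T i) * (T i * A - A * T i) = 0 := by
    have : ∀ i, star (T i * A - A * T i) * (T i * A - A * T i) = A * (star (T i) * T i) * A -
        A * (star (T i) * A * T i) - star (T i) * A * T i * A + star (T i) * A ^ 2 * T i := by
      intro i
      simp only [star_sub, star_mul, hsa.star_eq]
      noncomm_ring
    simp only [this, sum_add_distrib, sum_sub_distrib, ← mul_sum, ← sum_mul, e1, e2, e3]
    noncomm_ring
  intro i
  rw [e1, ← sub_eq_zero]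
  exact (CStarRing.star_mul_self_eq_zero_iff _).1
    ((sum_eq_zero_iff_of_nonneg fun i _ => star_mul_self_nonneg _).1 z i (mem_univ i))

end Pool.Agent.H66.Sqn
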