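import Mathlib

set_option autoImplicit false

namespace Pool.Agent.H66.Stable

open MvPolynomial

variable (K : Type*) [Field K] (n : ℕ)

abbrev P : Type _ := MvPolynomial (Fin (n + 3)) K

noncomputable def phi : P K n →ₐ[K] P K n :=
  aeval fun i => if i = 1 then X 1 * (1 + X 0) else if i = 2 then X 2 + (2 + X 0) * X 1 ^ 2 else X i

noncomputable def D : Derivation K (P K n) (P K n) :=
  mkDerivation K fun i => if i = 1 then X 0 else if i = 2 then 2 * X 1 else 0

theorem n01 : (0 : Fin (n + 3)) ≠ 1 := by simp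
theorem n02 : (0 : Fin (n + 3)) ≠ 2 := by
  simp [Fin.ext_iff, Nat.mod_eq_of_lt (show 2 < n + 3 by omega)]
theorem n21 : (2 : Fin (n + 3)) ≠ 1 := by
  simp [Fin.ext_iff, Nat.mod_eq_of_lt (show 2 < n + 3 by omega)]

theorem phi0 : phi K n (X 0) = X 0 := by simp [phi, n02]
theorem phi1 : phi K n (X 1) = X 1 * (1 + X 0) := by simp [phi]
theorem phi2 : phi K n (X 2) = X 2 + (2 + X 0) * X 1 ^ 2 := by simp [phi, n21]
theorem D0 : D K n (X 0) = 0 := by simp [D, n02]
theorem D1 : D K n (X 1) = X 0 := by simp [D]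
theorem D2 : D K n (X 2) = 2 * X 1 := by simp [D, n21]

theorem D_phi (g : P K n) : D K n (phi K n g) = (1 + X 0) * phi K n (D K n g) := by
  have h2 : D K n 2 = 0 := (D K n).map_natCast 2
  have hX : ∀ i, D K n (phi K n (X i)) = (1 + X 0) * phi K n (D K n (X i)) := by
    intro i
    by_cases h1 : i = 1
    · subst h1
      rw [phi1, D1, phi0]
      simp [D0, D1]
    by_cases h3 : i = 2
    · subst h3
      rw [phi2, D2, map_mul, phi1, map_ofNat]
      simp [D0, D1, D2, h2]
      ring
    · have : phi K n (X i) = X i := by simp [phi, h1, h3]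
      have h4 : D K n (X i) = 0 := by simp [D, h1, h3]
      rw [this, h4]; simp
  induction g using MvPolynomial.induction_on with
  | C a => simp
  | add f g hf hg => simp [hf, hg, mul_add]
  | mul_X f i hf =>
    simp only [map_mul, Derivation.leibniz, smul_eq_mul, hf, hX, map_add]
    ring

theorem D_phi_pow (k : ℕ) (g : P K n) :
    D K n ((phi K n ^ k) g) = (1 + X 0) ^ k * (phi K n ^ k) (D K n g) := by
  induction k with
  | zero => simp
  | succ k ih =>
    rw [pow_succ', AlgHom.mul_apply, AlgHom.mul_apply, D_phi, ih, map_mul, map_pow, map_add, phi0,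
      map_one]
    ring

theorem D_eq_zero (g : P K n) (hg : ∀ k, g ∈ (phi K n ^ (k + 1)).range) : D K n g = 0 := by
  have hne : Ideal.span {(1 + X 0 : P K n)} ≠ ⊤ := by
    rw [Ne, Ideal.span_singleton_eq_top]
    intro hu
    simpa using hu.map (eval fun _ => (-1 : K))
  rw [← Ideal.mem_bot, ← Ideal.iInf_pow_eq_bot_of_isDomain _ hne, Ideal.mem_iInf]
  intro k
  obtain ⟨f, rfl⟩ := hg k
  rw [Ideal.span_singleton_pow, Ideal.mem_span_singleton]
  refine (pow_dvd_pow _ k.le_succ).trans ⟨_, D_phi_pow K n (k + 1) f⟩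

theorem D_const (g : P K n) : constantCoeff (D K n g) = 0 := by
  induction g using MvPolynomial.induction_on with
  | C a => simp
  | add f g hf hg => simp [hf, hg]
  | mul_X f i hf =>
    have : constantCoeff (D K n (X i)) = 0 := by
      simp only [D, mkDerivation_X]
      split_ifs <;> simp
    simp [this]

theorem fixed (g : P K n) (hg : phi K n g = g) (k : ℕ) : g ∈ (phi K n ^ k).range := by
  refine ⟨g, ?_⟩
  induction k with
  | zero => simp
  | succ k ih =>
    change (phi K n ^ k) g = g at ih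
    change (phi K n ^ (k + 1)) g = g
    rw [pow_succ, AlgHom.mul_apply, hg, ih]

theorem main (π : P K n →ₐ[K] P K n) (h1 : ∀ g, D K n (π g) = 0) (hx : π (X 0) = X 0)
    (hw : π (X 0 * X 2 - X 1 ^ 2) = X 0 * X 2 - X 1 ^ 2) : False := by
  rw [map_sub, map_mul, map_pow, hx] at hw
  have h2 : X 0 ∣ (π (X 1) - X 1) * (π (X 1) + X 1) :=
    ⟨π (X 2) - X 2, by linear_combination -hw⟩
  have hD := h1 (X 1)
  rcases (X_prime (i := (0 : Fin (n + 3)))).dvd_or_dvd h2 with ⟨h, e⟩ | ⟨h, e⟩
  · have := congrArg (D K n) e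
    simp only [map_sub, hD, D1, Derivation.leibniz, D0, smul_eq_mul] at this
    have h3 : D K n h = -1 := mul_left_cancel₀ (X_ne_zero 0) (by linear_combination -this)
    simpa [h3] using D_const K n h
  · have := congrArg (D K n) e
    simp only [map_add, hD, D1, Derivation.leibniz, D0, smul_eq_mul] at this
    have h3 : D K n h = 1 := mul_left_cancel₀ (X_ne_zero 0) (by linear_combination -this)
    simpa [h3] using D_const K n h

end Pool.Agent.H66.Stable
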