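import Pool.Agent.H57.WeiDefs

/-! Totalization, meet and the totalizing jump. -/

namespace Pool.Agent.H66.Tj

open Pool.Agent.H57.Wei

/-- totalization -/
def Tot (g : Problem) : Problem := fun p => {y | (g p).Nonempty → y ∈ g p}

/-- meet -/
def meet (f g : Problem) : Problem := fun p => {s | ∃ x z, p = pair x z ∧ (f x).Nonempty ∧
  (g z).Nonempty ∧ ((∃ y ∈ f x, s = pair (fun _ => 0) y) ∨ ∃ w ∈ g z, s = pair (fun _ => 1) w)}

def WEq (f g : Problem) : Prop := WLe f g ∧ WLe g f

/-- `J` has the largest degree among the degrees of `Tot g` with `g` equivalent to `f` -/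
def IsTJ (f J : Problem) : Prop := (∃ g, WEq g f ∧ WEq J (Tot g)) ∧ ∀ g, WEq g f → WLe (Tot g) J

end Pool.Agent.H66.Tj
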