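import Mathlib

set_option autoImplicit false

namespace Pool.Agent.H66.TrPoly

open Matrix

noncomputable def S : ℕ → Polynomial ℤ
  | 0 => 1
  | 1 => Polynomial.X
  | n + 2 => Polynomial.X * S (n + 1) - S n

noncomputable def G (n i : ℕ) : ℤ := (-1) ^ ((n + 3 * i) / 2) * (S n).coeff i

theorem S_eq (n i : ℕ) : (S n).coeff i = (-1) ^ ((n + 3 * i) / 2) * G n i := by
  rw [G, ← mul_assoc, ← mul_pow]; simp

theorem G_rec0 (n : ℕ) : G (n + 2) 0 = G n 0 := by
  simp only [G, S, Polynomial.coeff_sub, Polynomial.coeff_X_mul_zero]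
  rw [show (n + 2 + 3 * 0) / 2 = (n + 3 * 0) / 2 + 1 by omega, pow_succ]
  ring

theorem G_rec (n i : ℕ) : G (n + 2) (i + 1) = G (n + 1) i + G n (i + 1) := by
  simp only [G, S, Polynomial.coeff_sub, Polynomial.coeff_X_mul]
  rw [show (n + 2 + 3 * (i + 1)) / 2 = (n + 1 + 3 * i) / 2 + 2 by omega,
    show (n + 3 * (i + 1)) / 2 = (n + 1 + 3 * i) / 2 + 1 by omega, pow_succ, pow_succ]
  ring

theorem G_prop (n : ℕ) : ∀ i, 0 ≤ G n i ∧ ((n + i) % 2 = 1 → G n i = 0) ∧
    ((n + i) % 2 = 0 → i ≤ n → 0 < G n i) := by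
  induction n using Nat.twoStepInduction with
  | zero =>
    intro i
    rcases i with _ | i <;> simp [G, S, Polynomial.coeff_one]
  | one =>
    intro i
    rcases i with _ | _ | i <;> simp [G, S, Polynomial.coeff_X]
  | more n h0 h1 =>
    intro i
    rcases i with _ | i
    · rw [G_rec0]
      exact ⟨(h0 0).1, fun h => (h0 0).2.1 (by omega), fun h _ => (h0 0).2.2 (by omega) (by omega)⟩
    · rw [G_rec]
      have a := h1 i
      have b := h0 (i + 1)
      refine ⟨by omega, fun h => by rw [a.2.1 (by omega), b.2.1 (by omega)]; rfl, fun h h' => ?_⟩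
      have := a.2.2 (by omega) (by omega)
      omega

theorem S_odd {n i : ℕ} (h : (n + i) % 2 = 1) : (S n).coeff i = 0 := by
  rw [S_eq, (G_prop n i).2.1 h, mul_zero]

theorem XS_even {n i : ℕ} (h : (n + i) % 2 = 0) : (Polynomial.X * S n).coeff i = 0 := by
  rcases i with _ | i
  · simp
  · rw [Polynomial.coeff_X_mul, S_odd (by omega)]

noncomputable def e (a b c : ℕ) : Fin 3 →₀ ℕ := Finsupp.equivFunOnFinite.symm ![a, b, c]

theorem e_inj {a b c a' b' c' : ℕ} : e a b c = e a' b' c' ↔ a = a' ∧ b = b' ∧ c = c' :=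
  ⟨fun h => ⟨congrArg (· 0) h, congrArg (· 1) h, congrArg (· 2) h⟩, by rintro ⟨rfl, rfl, rfl⟩; rfl⟩

open MvPolynomial in
theorem mono_e (a b c : ℕ) :
    (X 0 ^ a * X 1 ^ b * X 2 ^ c : MvPolynomial (Fin 3) ℤ) = monomial (e a b c) 1 := by
  rw [X_pow_eq_monomial, X_pow_eq_monomial, X_pow_eq_monomial, monomial_mul, monomial_mul]
  congr 2
  ext i
  fin_cases i <;> simp [e]

noncomputable def Pr (P Q R : Polynomial ℤ) : MvPolynomial (Fin 3) ℤ :=
  Polynomial.aeval (MvPolynomial.X 0) P * Polynomial.aeval (MvPolynomial.X 1) Q *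
    Polynomial.aeval (MvPolynomial.X 2) R

theorem coeff_Pr (P Q R : Polynomial ℤ) (i j k : ℕ) :
    (Pr P Q R).coeff (e i j k) = P.coeff i * Q.coeff j * R.coeff k := by
  induction P using Polynomial.induction_on' with
  | add p q hp hq => simp only [Pr, map_add, add_mul, MvPolynomial.coeff_add,
      Polynomial.coeff_add] at *; rw [hp, hq]
  | monomial a x =>
  induction Q using Polynomial.induction_on' with
  | add p q hp hq => simp only [Pr, map_add, add_mul, mul_add, MvPolynomial.coeff_add,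
      Polynomial.coeff_add] at *; rw [hp, hq]
  | monomial b y =>
  induction R using Polynomial.induction_on' with
  | add p q hp hq => simp only [Pr, map_add, mul_add, MvPolynomial.coeff_add,
      Polynomial.coeff_add] at *; rw [hp, hq]
  | monomial c z =>
    have : Pr (Polynomial.monomial a x) (Polynomial.monomial b y) (Polynomial.monomial c z) =
        MvPolynomial.monomial (e a b c) (x * y * z) := by
      rw [← mul_one (x * y * z), ← MvPolynomial.C_mul_monomial, ← mono_e]
      simp only [Pr, Polynomial.aeval_monomial, MvPolynomial.algebraMap_eq, map_mul]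
      ring
    rw [this, MvPolynomial.coeff_monomial]
    simp only [Polynomial.coeff_monomial, e_inj]
    by_cases h1 : a = i <;> by_cases h2 : b = j <;> by_cases h3 : c = k <;> simp [h1, h2, h3]

noncomputable def F (p q r : ℕ) : MvPolynomial (Fin 3) ℤ :=
  Pr (S (p + 2)) (S (q + 2)) (Polynomial.X * S (r + 2)) + Pr (S (p + 2)) (S q) (S (r + 1)) +
  Pr (S p) (S (q + 2)) (S (r + 1)) +
  Pr (Polynomial.X * S (p + 2)) (S (q + 1)) (S r - Polynomial.X * S (r + 1)) +
  Pr (S (p + 1)) (Polynomial.X * S (q + 2)) (S r - Polynomial.X * S (r + 1)) +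
  Pr (S (p + 1)) (S (q + 1)) (Polynomial.X * S (r + 1) - 2 * S r)

theorem coeff_F (p q r i j k : ℕ) (hi : (p + i) % 2 = 0) (hj : (q + j) % 2 = 0)
    (hk : (r + k) % 2 = 0) (hi' : i ≤ p) (hj' : j ≤ q) (hk' : k ≤ r) :
    (F p q r).coeff (e i j (k + 1)) ≠ 0 := by
  simp only [F, MvPolynomial.coeff_add, coeff_Pr]
  rw [XS_even (n := p + 2) (by omega), S_odd (n := p + 1) (by omega), Polynomial.coeff_X_mul]
  simp only [S_eq]
  rw [show (p + 2 + 3 * i) / 2 = (p + 3 * i) / 2 + 1 by omega,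
    show (q + 2 + 3 * j) / 2 = (q + 3 * j) / 2 + 1 by omega,
    show (r + 1 + 3 * (k + 1)) / 2 = (r + 2 + 3 * k) / 2 + 1 by omega]
  have h1 := (G_prop (p + 2) i).2.2 (by omega) (by omega)
  have h2 := (G_prop q j).2.2 hj hj'
  have h3 := (G_prop (r + 1) (k + 1)).2.2 (by omega) (by omega)
  have h4 := (G_prop (q + 2) j).1
  have h5 := (G_prop (r + 2) k).1
  have h6 := (G_prop p i).1
  have h7 : 0 < G (p + 2) i * G (q + 2) j * G (r + 2) k + G (p + 2) i * G q j * G (r + 1) (k + 1) +
      G p i * G (q + 2) j * G (r + 1) (k + 1) := by positivity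
  have h8 : ((-1 : ℤ) ^ ((p + 3 * i) / 2) * (-1) ^ ((q + 3 * j) / 2) *
      (-1) ^ ((r + 2 + 3 * k) / 2)) ≠ 0 := by positivity
  convert mul_ne_zero h8 h7.ne' using 1
  ring

theorem card_F (p q r t : ℕ) (hp : 2 * t ≤ p) (hq : 2 * t ≤ q) (hr : 2 * t ≤ r) :
    t ^ 3 ≤ (F p q r).support.card := by
  have : (Finset.range t ×ˢ Finset.range t ×ˢ Finset.range t).card = t ^ 3 := by
    simp; ring
  rw [← this]
  refine Finset.card_le_card_of_injOn (fun x => e (p - 2 * x.1) (q - 2 * x.2.1) (r - 2 * x.2.2 + 1))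
    (fun x hx => ?_) fun x hx y hy h => ?_
  · simp only [Finset.coe_product, Finset.coe_range, Set.mem_prod, Set.mem_Iio] at hx
    exact MvPolynomial.mem_support_iff.2 (coeff_F _ _ _ _ _ _ (by omega) (by omega) (by omega)
      (by omega) (by omega) (by omega))
  · simp only [Finset.coe_product, Finset.coe_range, Set.mem_prod, Set.mem_Iio] at hx hy
    have := e_inj.1 h
    exact Prod.ext (by omega) (Prod.ext (by omega) (by omega))

theorem sq2 (M : Matrix (Fin 2) (Fin 2) ℂ) (h : M.det = 1) : M * M = M.trace • M - 1 := by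
  rw [det_fin_two] at h
  ext i j
  fin_cases i <;> fin_cases j <;> simp [mul_apply, trace_fin_two, Fin.sum_univ_two]
  · linear_combination -h
  · ring
  · ring
  · linear_combination -h

theorem pow2 (M : Matrix (Fin 2) (Fin 2) ℂ) (h : M.det = 1) (n : ℕ) :
    M ^ (n + 2) = Polynomial.aeval M.trace (S (n + 1)) • M - Polynomial.aeval M.trace (S n) • 1 := by
  induction n with
  | zero => simp [S, pow_two, sq2 M h]
  | succ n ih =>
    rw [pow_succ, ih, sub_mul, smul_mul_assoc, sq2 M h, S]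
    simp only [map_sub, map_mul, Polynomial.aeval_X, smul_mul_assoc, one_mul]
    module

theorem trace_F (A B : Matrix (Fin 2) (Fin 2) ℂ) (hA : A.det = 1) (hB : B.det = 1) (p q r : ℕ) :
    (A ^ (p + 3) * B ^ (q + 3) * (A * B) ^ (r + 2)).trace =
      MvPolynomial.aeval ![A.trace, B.trace, (A * B).trace] (F p q r) := by
  have hC : (A * B).det = 1 := by rw [det_mul, hA, hB, mul_one]
  have t1 : (A * B * (A * B)).trace = (A * B).trace ^ 2 - 2 := by
    rw [sq2 _ hC]; simp; ring
  have t2 : (A * (A * B)).trace = A.trace * (A * B).trace - B.trace := by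
    rw [← mul_assoc, sq2 _ hA, sub_mul]; simp
  have t3 : (B * (A * B)).trace = B.trace * (A * B).trace - A.trace := by
    rw [trace_mul_comm, mul_assoc, sq2 _ hB, mul_sub]; simp
  rw [pow2 A hA (p + 1), pow2 B hB (q + 1), pow2 _ hC r]
  simp only [sub_mul, mul_sub, smul_mul_assoc, mul_smul_comm, one_mul, mul_one, trace_sub,
    trace_smul, t1, t2, t3, trace_one, smul_eq_mul, F, Pr, map_add, map_mul,
    ← Polynomial.aeval_algHom_apply, MvPolynomial.aeval_X, map_sub, Polynomial.aeval_X, S,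
    map_ofNat, Fintype.card_fin, Nat.cast_ofNat]
  simp only [cons_val_zero, cons_val_one, cons_val_two, Nat.succ_eq_add_one, Nat.reduceAdd,
    tail_cons, head_cons]
  ring

theorem surj (x y z : ℂ) : ∃ A B : SpecialLinearGroup (Fin 2) ℂ,
    A.1.trace = x ∧ B.1.trace = y ∧ (A * B).1.trace = z := by
  obtain ⟨s, hs⟩ := IsAlgClosed.exists_pow_nat_eq (z ^ 2 - 4) two_pos
  refine ⟨⟨!![x, -1; 1, 0], by simp [det_fin_two]⟩,
    ⟨!![0, (z + s) / 2; -(z - s) / 2, y], by
      simp only [det_fin_two_of]; linear_combination (-1 / 4 : ℂ) * hs⟩, by simp, by simp, ?_⟩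
  simp [trace_fin_two]
  ring

end Pool.Agent.H66.TrPoly
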