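import Mathlib

set_option autoImplicit false

namespace Pool.Agent.H66.TrPoly

open Matrix

/-- `f` is a trace polynomial of the word `w` in the free group on two letters. -/
def IsTracePoly (w : FreeGroup (Fin 2)) (f : MvPolynomial (Fin 3) ℤ) : Prop :=
  ∀ A B : SpecialLinearGroup (Fin 2) ℂ, (FreeGroup.lift ![A, B] w).1.trace =
    MvPolynomial.aeval ![A.1.trace, B.1.trace, (A * B).1.trace] f

/-- The number of monomials of the trace polynomial of `w`. -/
noncomputable def N (w : FreeGroup (Fin 2)) : ℕ :=
  (Classical.epsilon (IsTracePoly w)).support.card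

/-- The largest support size among cyclically reduced words of length `n`. -/
noncomputable def M (n : ℕ) : ℕ :=
  sSup {k | ∃ L : List (Fin 2 × Bool), FreeGroup.IsCyclicallyReduced L ∧ L.length = n ∧
    N (FreeGroup.mk L) = k}

end Pool.Agent.H66.TrPoly
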