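import Mathlib
import Pool.Agent.H66.TrPoly
import Pool.Agent.H66.TrPolyDefs

set_option autoImplicit false

namespace Pool.Agent.H66.TrPoly

open Matrix

theorem uniq {w : FreeGroup (Fin 2)} {f g : MvPolynomial (Fin 3) ℤ} (hf : IsTracePoly w f)
    (hg : IsTracePoly w g) : f = g := by
  apply MvPolynomial.map_injective (algebraMap ℤ ℂ) (RingHom.injective_int _)
  apply MvPolynomial.funext
  intro x
  obtain ⟨A, B, h1, h2, h3⟩ := surj (x 0) (x 1) (x 2)
  have hx : ![A.1.trace, B.1.trace, (A * B).1.trace] = x := by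
    ext i
    fin_cases i <;> simp only [h1, h2, h3] <;> rfl
  have := (hf A B).symm.trans (hg A B)
  rw [hx] at this
  rw [MvPolynomial.eval_map, MvPolynomial.eval_map]
  exact this

def W (p q r : ℕ) : List (Fin 2 × Bool) :=
  List.replicate p (0, true) ++ List.replicate q (1, true) ++
    (List.replicate r [(0, true), (1, true)]).flatten

theorem W_pos (p q r : ℕ) : ∀ a ∈ W p q r, a.2 = true := by
  intro a ha
  simp only [W, List.mem_append, List.mem_replicate, List.mem_flatten] at ha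
  rcases ha with (⟨-, rfl⟩ | ⟨-, rfl⟩) | ⟨_, ⟨-, rfl⟩, h⟩
  · rfl
  · rfl
  · simp only [List.mem_cons, List.not_mem_nil, or_false] at h
    rcases h with rfl | rfl <;> rfl

theorem W_red (p q r : ℕ) : FreeGroup.IsCyclicallyReduced (W p q r) := by
  refine ⟨List.Pairwise.isChain (List.pairwise_of_forall_mem_list fun a ha b hb _ => ?_),
    fun a ha b hb _ => ?_⟩
  · rw [W_pos _ _ _ a ha, W_pos _ _ _ b hb]
  · rw [W_pos _ _ _ a (List.mem_of_mem_getLast? ha), W_pos _ _ _ b (List.mem_of_mem_head? hb)]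

theorem W_len (p q r : ℕ) : (W p q r).length = p + q + 2 * r := by
  simp [W]; ring

theorem mk_rep (L : List (Fin 2 × Bool)) (n : ℕ) :
    FreeGroup.mk (List.replicate n L).flatten = FreeGroup.mk L ^ n := by
  induction n with
  | zero => rfl
  | succ n ih => rw [List.replicate_succ, List.flatten_cons, ← FreeGroup.mul_mk, ih, pow_succ']

theorem W_mk (p q r : ℕ) : FreeGroup.mk (W p q r) =
    FreeGroup.of 0 ^ p * FreeGroup.of 1 ^ q * (FreeGroup.of 0 * FreeGroup.of 1) ^ r := by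
  rw [W, ← FreeGroup.mul_mk, ← FreeGroup.mul_mk, mk_rep, ← List.flatten_replicate_singleton,
    ← List.flatten_replicate_singleton (n := q), mk_rep, mk_rep]
  rfl

theorem W_tr (p q r : ℕ) : IsTracePoly (FreeGroup.mk (W (p + 3) (q + 3) (r + 2))) (F p q r) := by
  intro A B
  have h : FreeGroup.lift ![A, B] (FreeGroup.mk (W (p + 3) (q + 3) (r + 2))) =
      A ^ (p + 3) * B ^ (q + 3) * (A * B) ^ (r + 2) := by
    rw [W_mk]
    simp only [map_mul, map_pow, FreeGroup.lift_apply_of, cons_val_zero, cons_val_one]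
  rw [h]
  exact trace_F A.1 B.1 A.2 B.2 p q r

theorem main : ∃ c : ℝ, 0 < c ∧ ∀ᶠ n : ℕ in Filter.atTop, c * (n : ℝ) ^ 3 ≤ M n := by
  refine ⟨1 / 8000, by norm_num, Filter.eventually_atTop.2 ⟨100, fun n hn => ?_⟩⟩
  have h1 := card_F (n - 3 * (n / 4) - 3) (n / 4 - 3) (n / 4 - 2) (n / 10) (by omega) (by omega)
    (by omega)
  have h2 := W_tr (n - 3 * (n / 4) - 3) (n / 4 - 3) (n / 4 - 2)
  rw [← uniq (Classical.epsilon_spec ⟨_, h2⟩) h2] at h1
  have h3 : _ ≤ M n := le_csSup (((List.finite_length_eq (Fin 2 × Bool) n).image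
    fun L => N (FreeGroup.mk L)).subset (by rintro _ ⟨L, -, h, rfl⟩; exact ⟨L, h, rfl⟩)).bddAbove
    ⟨_, W_red (n - 3 * (n / 4) - 3 + 3) (n / 4 - 3 + 3) (n / 4 - 2 + 2), by rw [W_len]; omega, rfl⟩
  have h4 : n ^ 3 ≤ 8000 * M n :=
    calc n ^ 3 ≤ (20 * (n / 10)) ^ 3 := Nat.pow_le_pow_left (by omega) 3
      _ = 8000 * (n / 10) ^ 3 := by ring
      _ ≤ _ := Nat.mul_le_mul_left _ (h1.trans h3)
  have h5 : (n : ℝ) ^ 3 ≤ 8000 * M n := by exact_mod_cast h4
  linarith

end Pool.Agent.H66.TrPoly
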