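import Mathlib

/-! Bernstein colourings, counting monotone maps, and a closure game. -/

set_option autoImplicit false

namespace Pool.Agent.H66.Univ
open Cardinal Set

theorem inj_choice {X I : Type} [Infinite X] (hI : #I ≤ #X) (F : I → Set X)
    (hF : ∀ i, #(F i) = #X) : ∃ x : I → X, Function.Injective x ∧ ∀ i, x i ∈ F i := by
  classical
  obtain ⟨e⟩ : Nonempty (I ↪ (#X).ord.ToType) := by
    rw [← Cardinal.le_def, mk_ord_toType]; exact hI
  letI : LinearOrder I := LinearOrder.lift' e e.injective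
  have hlt : ∀ a b : I, a < b ↔ e a < e b := fun _ _ => Iff.rfl
  have wf : WellFounded (fun a b : I => a < b) := (wellFounded_lt.onFun (f := e))
  have key : ∀ (i : I) (g : ∀ j, j < i → X), ∃ y ∈ F i, ∀ j h, g j h ≠ y := by
    intro i g
    by_contra h
    push Not at h
    have h1 : F i ⊆ range (fun j : Iio i => g j.1 j.2) := fun y hy => by
      obtain ⟨j, hj, rfl⟩ := h y hy
      exact ⟨⟨j, hj⟩, rfl⟩
    have h2 : #(Iio i) ≤ #(Iio (e i)) :=
      mk_le_of_injective (f := fun j => ⟨e j.1, j.2⟩) fun a b h =>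
        Subtype.ext (e.injective (congrArg Subtype.val h))
    have h3 := mk_Iio_lt (e i) (by simp)
    rw [mk_ord_toType] at h3
    exact absurd ((hF i).symm.le.trans ((mk_le_mk_of_subset h1).trans (mk_range_le.trans h2)))
      h3.not_ge
  choose G hG hG' using key
  let x : I → X := wf.fix G
  have hx : ∀ i, x i = G i (fun j _ => x j) := wf.fix_eq G
  refine ⟨x, fun a b h => ?_, fun i => hx i ▸ hG _ _⟩
  rcases lt_trichotomy a b with hab | hab | hab
  · exact absurd (h.trans (hx b)) (hG' b (fun j _ => x j) a hab)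
  · exact hab
  · exact absurd (h.symm.trans (hx a)) (hG' a (fun j _ => x j) b hab)

theorem bernstein {X I : Type} [Infinite X] (hI : #I ≤ #X) (F : I → Set X)
    (hF : ∀ i, #(F i) = #X) : ∃ g : X → Prop, ∀ i, ∃ x ∈ F i, ∃ y ∈ F i, g x ∧ ¬ g y := by
  obtain ⟨x, h1, h2⟩ := inj_choice (X := X) (I := I × Bool) (by
    rw [mk_prod, lift_id, lift_id]
    refine (mul_le_mul' hI ((mk_le_aleph0 (α := Bool)).trans (aleph0_le_mk X))).trans ?_
    rw [mul_eq_self (aleph0_le_mk X)]) (fun p => F p.1) (fun p => hF p.1)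
  refine ⟨fun y => ∃ i, x (i, true) = y, fun i => ⟨_, h2 (i, true), _, h2 (i, false),
    ⟨i, rfl⟩, fun ⟨j, hj⟩ => ?_⟩⟩
  simpa using h1 hj

theorem card_seq (N : Type) [Infinite N] : #(ℕ → N) ≤ 2 ^ #N := by
  rw [mk_pi, prod_const, lift_id, lift_id]
  exact (power_le_power_left (by simp) (by simp)).trans (power_self_eq (aleph0_le_mk N)).le

theorem card_upper (N : Type) [LinearOrder N] [Infinite N] :
    #{U : Set (Lex (ℕ → N)) // IsUpperSet U} ≤ 2 ^ #N := by
  classical
  have h0 : #(Set (List N) × Option (ℕ → N)) ≤ 2 ^ #N := by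
    have h2 : ℵ₀ ≤ 2 ^ #N := (aleph0_le_mk N).trans (cantor _).le
    rw [mk_prod, lift_id, lift_id, mk_set, mk_list_eq_mk, mk_option]
    refine (mul_le_mul' le_rfl (add_le_of_le h2 (card_seq N) (one_le_aleph0.trans h2))).trans ?_
    rw [mul_eq_self h2]
  refine le_trans (mk_le_of_injective (f := fun U => ({l | ∀ y : ℕ → N,
    (List.range l.length).map y = l → toLex y ∈ U.1},
    if h : ∃ m, IsLeast U.1 m then some (ofLex h.choose) else none)) ?_) h0
  have key : ∀ U V : {U : Set (Lex (ℕ → N)) // IsUpperSet U}, U.1 ⊆ V.1 →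
      ({l : List N | ∀ y : ℕ → N, (List.range l.length).map y = l → toLex y ∈ U.1} =
      {l : List N | ∀ y : ℕ → N, (List.range l.length).map y = l → toLex y ∈ V.1}) →
      ∀ y ∈ V.1, y ∉ U.1 → IsLeast V.1 y := by
    intro U V _ h y hy hy'
    refine ⟨hy, fun z hz => ?_⟩
    by_contra hzy
    obtain ⟨n, h1, h2⟩ : z < y := not_le.1 hzy
    have : (List.range (n + 1)).map (ofLex y) ∈ {l : List N | ∀ y : ℕ → N,
        (List.range l.length).map y = l → toLex y ∈ V.1} := by
      intro t ht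
      simp only [List.length_map, List.length_range, List.map_inj_left, List.mem_range] at ht
      refine V.2 (le_of_lt ⟨n, fun j hj => (h1 j hj).trans (ht j (by omega)).symm, ?_⟩) hz
      exact h2.trans_eq (ht n (by omega)).symm
    rw [← h] at this
    exact hy' (this _ (by simp))
  have key2 : ∀ U V : {U : Set (Lex (ℕ → N)) // IsUpperSet U}, U.1 ⊆ V.1 →
      ({l : List N | ∀ y : ℕ → N, (List.range l.length).map y = l → toLex y ∈ U.1} =
      {l : List N | ∀ y : ℕ → N, (List.range l.length).map y = l → toLex y ∈ V.1}) →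
      ((if h : ∃ m, IsLeast U.1 m then some (ofLex h.choose) else none) =
        if h : ∃ m, IsLeast V.1 m then some (ofLex h.choose) else none) → U = V := by
    intro U V hUV h h'
    refine Subtype.ext (hUV.antisymm fun y hy => ?_)
    by_contra hy'
    have h1 := key U V hUV h y hy hy'
    have h0 : ∃ m, IsLeast V.1 m := ⟨y, h1⟩
    rw [dif_pos h0] at h'
    split_ifs at h' with h2
    have h3 : h2.choose = h0.choose := Option.some.inj h'
    rw [h0.choose_spec.unique h1] at h3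
    exact hy' (h3 ▸ h2.choose_spec.1)
  intro U V h
  rw [Prod.mk.injEq] at h
  rcases U.2.total V.2 with h1 | h1
  · exact key2 U V h1 h.1 h.2
  · exact (key2 V U h1 h.1.symm h.2.symm).symm

theorem colour (N : Type) [LinearOrder N] [Infinite N] : ∃ g : Set N → Prop,
    ∀ φ : Lex (ℕ → N) → Set N, Monotone φ → (∃ ψ : Set N → Lex (ℕ → N),
      Function.Injective (φ ∘ ψ)) → ∃ x y, g (φ x) ∧ ¬ g (φ y) := by
  have h1 : #{φ : Lex (ℕ → N) → Set N // Monotone φ ∧ ∃ ψ : Set N → Lex (ℕ → N),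
      Function.Injective (φ ∘ ψ)} ≤ #(Set N) := by
    refine le_trans (mk_le_of_injective (β := N → {U : Set (Lex (ℕ → N)) // IsUpperSet U})
      (f := fun φ m => ⟨{y | m ∈ φ.1 y}, fun a b hab ha => φ.2.1 hab ha⟩) fun φ φ' h => ?_) ?_
    · ext y m
      exact Set.ext_iff.1 (congrArg Subtype.val (congrFun h m)) y
    · rw [mk_pi, prod_const, lift_id, lift_id, mk_set]
      refine (power_le_power_right (card_upper N)).trans ?_
      rw [← power_mul, mul_eq_self (aleph0_le_mk N)]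
  obtain ⟨g, hg⟩ := bernstein h1 (fun φ => range φ.1) (fun φ => le_antisymm (mk_set_le _) (by
    obtain ⟨ψ, h⟩ := φ.2.2
    exact mk_le_of_injective (f := fun X => ⟨φ.1 (ψ X), _, rfl⟩)
      fun a b hab => h (congrArg Subtype.val hab)))
  refine ⟨g, fun φ h h' => ?_⟩
  obtain ⟨_, ⟨x, rfl⟩, _, ⟨y, rfl⟩, h⟩ := hg ⟨φ, h, h'⟩
  exact ⟨x, y, h⟩

theorem list_count {W : Type} (S : Set W) (h : S.Countable) :
    {l : List W | ∀ x ∈ l, x ∈ S}.Countable := by
  haveI := h.to_subtype
  refine (countable_range (List.map (Subtype.val : S → W))).mono fun l hl => ?_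
  exact ⟨l.attachWith _ hl, by simp⟩

theorem closure {W : Type} (F : List W → Set W) (hF : ∀ l, (F l).Countable) (w : W) :
    ∃ D : Set W, D.Countable ∧ w ∈ D ∧ ∀ l, (∀ x ∈ l, x ∈ D) → F l ⊆ D := by
  let d : ℕ → Set W := fun n => Nat.rec {w} (fun _ S => S ∪ ⋃ l ∈ {l : List W | ∀ x ∈ l, x ∈ S},
    F l) n
  have hd : ∀ n, (d n).Countable := by
    intro n
    induction n with
    | zero => exact countable_singleton w
    | succ n ih =>
      refine ih.union (Countable.biUnion ?_ fun l _ => hF l)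
      exact list_count _ ih
  have hm : Monotone d := monotone_nat_of_le_succ fun n => subset_union_left
  refine ⟨⋃ n, d n, countable_iUnion hd, mem_iUnion.2 ⟨0, rfl⟩, fun l hl => ?_⟩
  obtain ⟨n, hn⟩ : ∃ n, ∀ x ∈ l, x ∈ d n := by
    induction l with
    | nil => exact ⟨0, by simp⟩
    | cons a l ih =>
      obtain ⟨n, hn⟩ := ih fun x hx => hl x (List.mem_cons_of_mem _ hx)
      obtain ⟨m, hm'⟩ := mem_iUnion.1 (hl a List.mem_cons_self)
      refine ⟨max n m, fun x hx => ?_⟩
      rcases List.mem_cons.1 hx with rfl | hx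
      · exact hm (le_max_right _ _) hm'
      · exact hm (le_max_left _ _) (hn x hx)
  exact fun y hy => mem_iUnion.2 ⟨n + 1, Or.inr (mem_biUnion hn hy)⟩

section game
variable {Nd M W : Type} (ch : Nd → M → Nd) (lab : Nd → M → Set W) (k : W → Cardinal.{0})

/-- ranked losing positions -/
inductive Sm (D : Set W) : Ordinal.{0} → Nd → Prop
  | mk (o : Ordinal.{0}) (s : Nd) (ν : W) (E : Set M) (hν : ν ∈ D) (hE : #E ≤ k ν)
      (r : M → Ordinal.{0}) (hr : ∀ a, a ∉ E → lab s a ⊆ D → r a < o)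
      (h : ∀ a, a ∉ E → lab s a ⊆ D → Sm D (r a) (ch s a)) : Sm D o s

theorem game (hl : ∀ s a, (lab s a).Countable) (root : Nd) (w : W)
    (H : ∀ ν, 2 ^ #W * k ν < #M) : ∃ D : Set W, D.Countable ∧ w ∈ D ∧ ∃ G : Set Nd, root ∈ G ∧
      ∀ s ∈ G, ∀ ν ∈ D, k ν < #{a | lab s a ⊆ D ∧ ch s a ∈ G} := by
  classical
  by_contra hc
  push Not at hc
  have h1 : ∀ D : Set W, D.Countable → w ∈ D → ∃ o, Sm ch lab k D o root := by
    intro D h1 h2
    by_contra h3
    obtain ⟨s, hs, ν, hν, h4⟩ := hc D h1 h2 {s | ¬ ∃ o, Sm ch lab k D o s} h3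
    have : ∀ a, ∃ o, a ∉ {a | lab s a ⊆ D ∧ ch s a ∈ {s | ¬ ∃ o, Sm ch lab k D o s}} →
        lab s a ⊆ D → Sm ch lab k D o (ch s a) := by
      intro a
      by_cases h : ∃ o, Sm ch lab k D o (ch s a)
      · exact ⟨h.choose, fun _ _ => h.choose_spec⟩
      · exact ⟨0, fun h5 h6 => absurd ⟨h6, h⟩ h5⟩
    choose r hr using this
    exact hs ⟨_, Sm.mk (⨆ a, r a + 1) s ν _ hν h4 r (fun a _ _ => Ordinal.lt_iSup_add_one r a) hr⟩
  let rk : Set W → Nd → Ordinal.{0} := fun D s => sInf {o | Sm ch lab k D o s}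
  have h2 : ∀ (D : Set W) (s : Nd), ∃ (ν : W) (E : Set M), #E ≤ k ν ∧
      ((∃ o, Sm ch lab k D o s) → ν ∈ D ∧ ∀ a, a ∉ E → lab s a ⊆ D →
        (∃ o, Sm ch lab k D o (ch s a)) ∧ rk D (ch s a) < rk D s) := by
    intro D s
    by_cases h : ∃ o, Sm ch lab k D o s
    · have h3 : Sm ch lab k D (rk D s) s := csInf_mem (s := {o | Sm ch lab k D o s}) h
      generalize rk D s = o at h3
      obtain ⟨_, _, ν, E, hν, hE, r, hr, h'⟩ := h3
      exact ⟨ν, E, hE, fun _ => ⟨hν, fun a ha hb => ⟨⟨_, h' a ha hb⟩,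
        (csInf_le' (s := {o | Sm ch lab k D o (ch s a)}) (h' a ha hb)).trans_lt (hr a ha hb)⟩⟩⟩
    · exact ⟨w, ∅, by simp, fun h' => absurd h' h⟩
  choose nf Ef hE hnf using h2
  have h3 : ∀ (s : Nd) (ν : W), ∃ a, ∀ D, nf D s = ν → a ∉ Ef D s := by
    intro s ν
    by_contra h
    push Not at h
    have h4 : (univ : Set M) ⊆ ⋃ D : {D // nf D s = ν}, Ef D.1 s := fun a _ => by
      obtain ⟨D, h5, h6⟩ := h a
      exact mem_iUnion.2 ⟨⟨D, h5⟩, h6⟩
    have h5 := (mk_le_mk_of_subset h4).trans (mk_iUnion_le _)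
    rw [mk_univ] at h5
    refine absurd (h5.trans (mul_le_mul' ((mk_subtype_le _).trans mk_set.le)
      (ciSup_le' fun D => ?_))) (H ν).not_ge
    exact (hE D.1 s).trans_eq (congrArg k D.2)
  choose a ha using h3
  let nd : List W → Nd := fun l => List.rec root (fun ν _ s => ch s (a s ν)) l
  obtain ⟨D, hD1, hD2, hD3⟩ := closure
    (fun l => List.casesOn l ∅ (fun ν l => lab (nd l) (a (nd l) ν))) (fun l => by
      cases l
      · exact countable_empty
      · exact hl _ _) w
  have h4 : ∀ (o : Ordinal.{0}) (l : List W), (∀ x ∈ l, x ∈ D) →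
      (∃ o, Sm ch lab k D o (nd l)) → rk D (nd l) = o → False := by
    intro o
    induction o using WellFoundedLT.induction with
    | ind o ih =>
      intro l h5 h6 h7
      obtain ⟨h8, h9⟩ := hnf D _ h6
      have h10 : ∀ x ∈ nf D (nd l) :: l, x ∈ D := fun x hx => by
        rcases List.mem_cons.1 hx with rfl | hx
        · exact h8
        · exact h5 x hx
      obtain ⟨h11, h12⟩ := h9 _ (ha _ _ D rfl) (hD3 _ h10)
      exact ih _ (h7 ▸ h12) (nf D (nd l) :: l) h10 h11 rfl
  exact h4 _ [] (by simp) (h1 D hD1 hD2) rfl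

end game

end Pool.Agent.H66.Univ
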