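import Pool.Agent.H66.Univ1

set_option autoImplicit false

namespace Pool.Agent.H66.Univ
open Cardinal Set

variable {W M : Type} [LinearOrder M] (ρ : M → W)

/-- inclusion of sequences -/
def emb (D : Set W) (y : Lex (ℕ → ρ ⁻¹' D)) : Lex (ℕ → WithBot M) :=
  toLex fun n => ((ofLex y n).1 : WithBot M)

theorem emb_mono (D : Set W) : Monotone (emb ρ D) := by
  refine StrictMono.monotone ?_
  rintro x y ⟨n, h1, h2⟩
  exact ⟨n, fun j hj => congrArg (fun t : ρ ⁻¹' D => (t.1 : WithBot M)) (h1 j hj),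
    WithBot.coe_lt_coe.2 h2⟩

theorem tree (w : W) (H : ∀ ν, 2 ^ #W * 2 ^ #(ρ ⁻¹' {ν}) < #M) (m0 : M)
    (f : Lex (ℕ → WithBot M) → Set M) (hf : StrictMono f) :
    ∃ D : Set W, w ∈ D ∧ ∃ ψ : Set (ρ ⁻¹' D) → Lex (ℕ → ρ ⁻¹' D),
      Function.Injective ((fun y => {m : ρ ⁻¹' D | m.1 ∈ f (emb ρ D y)}) ∘ ψ) := by
  classical
  have h0 : ∀ (n : ℕ) (u : ℕ → WithBot M), ∃ m, u n = ⊥ →
      m ∈ f (toLex (Function.update u (n + 1) m0)) ∧ m ∉ f (toLex u) ∨ u (n + 1) ≠ ⊥ := by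
    intro n u
    by_cases h : u (n + 1) = ⊥
    · have : toLex u < toLex (Function.update u (n + 1) m0) :=
        ⟨n + 1, fun j hj => (Function.update_of_ne hj.ne _ _).symm, by
          simp [h]⟩
      obtain ⟨m, hm⟩ := exists_of_ssubset (hf this)
      exact ⟨m, fun _ => Or.inl hm⟩
    · exact ⟨m0, fun _ => Or.inr h⟩
  choose wt hwt using h0
  obtain ⟨D, hD, hw, G, hG, hG'⟩ := game (Nd := ℕ × (ℕ → WithBot M))
    (fun s (a : M) => (s.1 + 1, Function.update s.2 s.1 a))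
    (fun s a => {ρ a, ρ (wt (s.1 + 1) (Function.update s.2 s.1 a))})
    (fun ν => 2 ^ #(ρ ⁻¹' {ν})) (fun _ _ => (toFinite _).countable) (0, fun _ => ⊥) w H
  obtain ⟨ν, hν⟩ := hD.exists_eq_range ⟨w, hw⟩
  have h1 : ∀ (n : ℕ) (u : ℕ → WithBot M), ∃ j : Set (ρ ⁻¹' {ν n}) → M, (n, u) ∈ G →
      Function.Injective j ∧ ∀ t, (ρ (j t) ∈ D ∧ ρ (wt (n + 1) (Function.update u n (j t))) ∈ D) ∧
        (n + 1, Function.update u n (j t)) ∈ G := by
    intro n u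
    by_cases h : (n, u) ∈ G
    · have := (hG' _ h (ν n) (hν ▸ ⟨n, rfl⟩)).le
      rw [← mk_set, Cardinal.le_def] at this
      obtain ⟨j⟩ := this
      exact ⟨fun t => j t, fun _ => ⟨Subtype.val_injective.comp j.injective, fun t =>
        ⟨⟨(j t).2.1 (by simp), (j t).2.1 (by simp)⟩, (j t).2.2⟩⟩⟩
    · exact ⟨fun _ => m0, fun h' => absurd h' h⟩
  choose j hj using h1
  let tr : Set (ρ ⁻¹' D) → (n : ℕ) → Set (ρ ⁻¹' {ν n}) := fun X n =>
    {m | ∃ h, (⟨m.1, h⟩ : ρ ⁻¹' D) ∈ X}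
  obtain ⟨U, hU0, hU⟩ : ∃ U : Set (ρ ⁻¹' D) → ℕ → ℕ → WithBot M, (∀ X, U X 0 = fun _ => ⊥) ∧
      ∀ X n, U X (n + 1) = Function.update (U X n) n (j n (U X n) (tr X n)) :=
    ⟨fun X n => Nat.rec (fun _ => ⊥) (fun n u => Function.update u n (j n u (tr X n))) n,
      fun _ => rfl, fun _ _ => rfl⟩
  let a : Set (ρ ⁻¹' D) → ℕ → M := fun X n => j n (U X n) (tr X n)
  have hUG : ∀ X n, (n, U X n) ∈ G := by
    intro X n
    induction n with
    | zero => rw [hU0]; exact hG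
    | succ n ih => rw [hU]; exact ((hj n _ ih).2 _).2
  have hUa : ∀ X n k, U X n k = if k < n then (a X k : WithBot M) else ⊥ := by
    intro X n k
    induction n with
    | zero => rw [hU0]; rfl
    | succ n ih =>
      rw [hU]
      by_cases hk : k = n
      · simp [hk, a]
      · rw [Function.update_of_ne hk, ih]
        exact if_congr (by omega) rfl rfl
  let ψ : Set (ρ ⁻¹' D) → Lex (ℕ → ρ ⁻¹' D) := fun X =>
    toLex fun n => ⟨a X n, ((hj n _ (hUG X n)).2 _).1.1⟩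
  have hsep : ∀ X Y, ψ X < ψ Y → {m : ρ ⁻¹' D | m.1 ∈ f (emb ρ D (ψ X))} ≠
      {m : ρ ⁻¹' D | m.1 ∈ f (emb ρ D (ψ Y))} := by
    rintro X Y ⟨n, h1, h2⟩ h
    have h3 : ρ (wt (n + 1) (U Y (n + 1))) ∈ D := by
      rw [hU]; exact ((hj n _ (hUG Y n)).2 _).1.2
    obtain ⟨h4, h5⟩ := (hwt (n + 1) (U Y (n + 1)) (by simp [hUa])).resolve_right (by simp [hUa])
    have h6 : emb ρ D (ψ X) < toLex (U Y (n + 1)) := by
      refine ⟨n, fun k hk => ?_, ?_⟩
      · change (a X k : WithBot M) = U Y (n + 1) k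
        have hk' : k < n := hk
        rw [hUa, if_pos (by omega)]
        exact congrArg (fun t : ρ ⁻¹' D => (t.1 : WithBot M)) (h1 k hk)
      · change (a X n : WithBot M) < U Y (n + 1) n
        rw [hUa, if_pos (by omega)]
        exact WithBot.coe_lt_coe.2 h2
    have h7 : toLex (Function.update (U Y (n + 1)) (n + 1 + 1) m0) < emb ρ D (ψ Y) := by
      refine ⟨n + 1, fun k hk => ?_, ?_⟩
      · change Function.update (U Y (n + 1)) (n + 1 + 1) m0 k = (a Y k : WithBot M)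
        have hk' : k < n + 1 := hk
        rw [Function.update_of_ne (by omega), hUa, if_pos hk']
      · change Function.update (U Y (n + 1)) (n + 1 + 1) m0 (n + 1) < (a Y (n + 1) : WithBot M)
        rw [Function.update_of_ne (by omega), hUa, if_neg (by omega)]
        exact WithBot.bot_lt_coe _
    exact h5 ((hf h6).le ((Set.ext_iff.1 h ⟨_, h3⟩).2 ((hf h7).le h4)))
  refine ⟨D, hw, ψ, fun X Y h => ?_⟩
  have h2 : ψ X = ψ Y := by
    rcases lt_trichotomy (ψ X) (ψ Y) with h' | h' | h'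
    · exact absurd h (hsep X Y h')
    · exact h'
    · exact absurd h.symm (hsep Y X h')
  have h3 : a X = a Y := funext fun n => congrArg Subtype.val (congrFun h2 n)
  have h4 : ∀ n, tr X n = tr Y n := fun n => by
    have h5 : U X n = U Y n := funext fun k => by rw [hUa, hUa, h3]
    refine (hj n _ (hUG X n)).1 ?_
    have h6 := congrFun h3 n
    change _ = j n (U Y n) _ at h6
    rw [← h5] at h6
    exact h6
  ext m
  obtain ⟨n, hn⟩ : ρ m.1 ∈ range ν := hν ▸ m.2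
  have := Set.ext_iff.1 (h4 n) ⟨m.1, hn.symm⟩
  exact ⟨fun h => (this.1 ⟨m.2, h⟩).2, fun h => (this.2 ⟨m.2, h⟩).2⟩

theorem comb (w : W) (hw : (ρ ⁻¹' {w}).Infinite) (H : ∀ ν, 2 ^ #W * 2 ^ #(ρ ⁻¹' {ν}) < #M) :
    ∃ c : Set M → Set (Set W), ∀ f : Lex (ℕ → WithBot M) → Set M, StrictMono f →
      ∃ x y, c (f x) ≠ c (f y) := by
  have h1 : ∀ D : Set W, ∃ g : Set (ρ ⁻¹' D) → Prop, w ∈ D →
      ∀ φ : Lex (ℕ → ρ ⁻¹' D) → Set (ρ ⁻¹' D), Monotone φ →
        (∃ ψ : Set (ρ ⁻¹' D) → Lex (ℕ → ρ ⁻¹' D), Function.Injective (φ ∘ ψ)) →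
          ∃ x y, g (φ x) ∧ ¬ g (φ y) := by
    intro D
    by_cases h : w ∈ D
    · haveI : Infinite (ρ ⁻¹' D) :=
        (hw.mono (preimage_mono (singleton_subset_iff.2 h))).to_subtype
      obtain ⟨g, hg⟩ := colour (ρ ⁻¹' D)
      exact ⟨g, fun _ => hg⟩
    · exact ⟨fun _ => True, fun h' => absurd h' h⟩
  choose g hg using h1
  refine ⟨fun X => {D | g D {m | m.1 ∈ X}}, fun f hf => ?_⟩
  obtain ⟨D, hD, h⟩ := tree ρ w H hw.nonempty.some f hf
  obtain ⟨x, y, h1, h2⟩ := hg D hD (fun y => {m : ρ ⁻¹' D | m.1 ∈ f (emb ρ D y)})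
    (fun a b hab m hm => hf.monotone (emb_mono ρ D hab) hm) h
  exact ⟨_, _, fun h3 => h2 ((Set.ext_iff.1 h3 D).1 h1)⟩

end Pool.Agent.H66.Univ
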