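import Pool.Agent.H66.Univ2

set_option autoImplicit false

namespace Pool.Agent.H66.Univ
open Cardinal Set Ordinal

/-- the singular cardinal -/
noncomputable def kk : Cardinal.{0} := ℶ_ (ω_ 1)

theorem kk_sl : IsStrongLimit kk := isStrongLimit_beth.2 (isSuccLimit_omega 1).isSuccPrelimit

theorem kk_inf : ℵ₀ ≤ kk := aleph0_le_beth _

theorem kk_cof : kk.ord.cof = ℵ₁ := by
  have := cof_map_of_isNormal (isNormal_ord.comp isNormal_beth) (isSuccLimit_omega (1 : Ordinal.{0}))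
  rw [cof_omega_one] at this
  exact this

theorem beth_lt (o : Ordinal.{0}) (h : o < ω_ 1) : ℶ_ o < kk := isNormal_beth.strictMono h

theorem al_lt : ℵ₁ < kk := by
  refine (aleph_le_beth 1).trans_lt (beth_lt 1 ?_)
  exact (one_lt_omega0).trans_le (omega0_le_omega 1)

/-- levels -/
abbrev WW : Type := (ω_ (1 : Ordinal.{0})).ToType
/-- ground set -/
abbrev MM : Type := Σ ν : WW, (ℶ_ (ν.toOrd.1)).out

theorem mk_WW : #WW = ℵ₁ := by simp [WW]

theorem mk_MM : #MM = kk := by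
  rw [mk_sigma]
  simp only [mk_out]
  apply le_antisymm
  · refine (sum_le_mk_mul_iSup _).trans ?_
    rw [mk_WW]
    refine (mul_le_mul' al_lt.le (ciSup_le' fun ν => (beth_lt _ ν.toOrd.2).le)).trans ?_
    rw [mul_eq_self kk_inf]
  · rw [kk, beth_limit (isSuccLimit_omega 1)]
    refine ciSup_le' fun a => ?_
    have := le_sum (fun ν : WW => ℶ_ (ν.toOrd.1)) (ToType.mk a)
    simpa [ToType.toOrd] using this

theorem mk_fib (ν : WW) : #((Sigma.fst : MM → WW) ⁻¹' {ν}) = ℶ_ (ν.toOrd.1) := by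
  rw [← mk_out (ℶ_ (ν.toOrd.1))]
  refine (mk_congr (Equiv.ofBijective (fun a => ⟨⟨ν, a⟩, rfl⟩) ⟨fun a b h => ?_, ?_⟩)).symm
  · simpa using h
  · rintro ⟨⟨_, a⟩, rfl⟩
    exact ⟨a, rfl⟩

theorem mk_seq (X : Type) (h : #X = kk) : #(ℕ → X) = kk := by
  have h1 : #(ℕ × X) = kk := by
    rw [mk_prod, Cardinal.lift_id, Cardinal.lift_id, h, mk_nat, mul_eq_right kk_inf kk_inf aleph0_ne_zero]
  apply le_antisymm
  · have h2 := mk_subset_mk_lt_cof (α := ℕ × X) (h1 ▸ kk_sl.isStrongPrelimit)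
    rw [h1, kk_cof] at h2
    rw [← h2]
    refine mk_le_of_injective (f := fun x => ⟨range fun n => (n, x n),
      (mk_range_le.trans mk_nat.le).trans_lt aleph0_lt_aleph_one⟩) fun x y hxy => ?_
    funext n
    obtain ⟨m, hm⟩ := (Set.ext_iff.1 (congrArg Subtype.val hxy) (n, x n)).1 ⟨n, rfl⟩
    simp only [Prod.mk.injEq] at hm
    rw [← hm.2, hm.1]
  · rw [← h]
    exact mk_le_of_injective (f := fun x _ => x) fun a b h => congrFun h 0

theorem sum_eq (α : Ordinal.{0}) (h : ℵ_ α = kk) : Cardinal.lift.{1} kk =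
    Cardinal.sum (fun ν : Set.Iio α => (2 : Cardinal.{0}) ^ Cardinal.aleph ν.1) := by
  apply le_antisymm
  · refine le_of_forall_lt fun c' hc' => ?_
    obtain ⟨c, hc, rfl⟩ := Cardinal.lt_lift_iff.1 hc'
    obtain ⟨ν, hν⟩ := mem_range_aleph_iff.2 (le_max_right c ℵ₀)
    have h1 : ν < α := by
      rw [← aleph_lt_aleph, h, hν]
      exact max_lt hc (aleph0_lt_aleph_one.trans al_lt)
    refine lt_of_lt_of_le ?_ (lift_le_sum _ ⟨ν, h1⟩)
    rw [Cardinal.lift_lt]
    exact ((le_max_left _ _).trans hν.ge).trans_lt (cantor _)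
  · refine (sum_le_sum _ (fun _ => kk) fun ν => (kk_sl.isStrongPrelimit ?_).le).trans ?_
    · rw [← h, aleph_lt_aleph]; exact ν.2
    · rw [sum_const, Cardinal.mk_Iio_ordinal, Cardinal.lift_lift]
      have h1 : Cardinal.lift.{1} α.card ≤ Cardinal.lift.{1} kk :=
        Cardinal.lift_le.2 (h ▸ α.card_le_aleph)
      refine (mul_le_mul' h1 le_rfl).trans ?_
      rw [mul_eq_self (by simpa using kk_inf)]

theorem main : ¬ (∀ (α : Ordinal.{0}), ¬ (Cardinal.aleph α).IsRegular →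
      ∀ (M : Type),
        Cardinal.lift.{1} (Cardinal.mk M) =
          Cardinal.sum (fun ν : Set.Iio α => (2 : Cardinal.{0}) ^ Cardinal.aleph ν.1) →
        ∀ (ι : Type), Cardinal.mk ι = Cardinal.aleph α →
          ∀ c : Set M → ι, ∃ i : ι,
            ∀ (P : Type) [PartialOrder P], Cardinal.mk P = Cardinal.aleph α →
              ∃ f : P → Set M, (∀ x, c (f x) = i) ∧ ∀ x y : P, f x ≤ f y ↔ x ≤ y) := by
  intro h
  obtain ⟨α, hα⟩ := mem_range_aleph_iff.2 kk_inf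
  obtain ⟨_, -⟩ := exists_wellOrder MM
  have hW : 2 ^ #WW < kk := kk_sl.isStrongPrelimit (mk_WW ▸ al_lt)
  obtain ⟨w⟩ : Nonempty WW := by
    rw [← mk_ne_zero_iff, mk_WW]; exact (aleph_pos 1).ne'
  obtain ⟨c, hc⟩ := comb (Sigma.fst : MM → WW) w (by
    rw [← infinite_coe_iff, infinite_iff, mk_fib]; exact aleph0_le_beth _) (fun ν => by
      rw [mk_fib, mk_MM]
      exact mul_lt_of_lt kk_inf hW (kk_sl.isStrongPrelimit (beth_lt _ ν.toOrd.2)))
  obtain ⟨e⟩ : Nonempty (Set (Set WW) ↪ MM) := by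
    rw [← Cardinal.le_def, mk_MM, mk_set, mk_set]
    exact (kk_sl.isStrongPrelimit hW).le
  obtain ⟨i, hi⟩ := h α (fun hr => by
    rw [hα] at hr
    exact absurd (kk_cof ▸ hr.le_cof_ord) al_lt.not_ge) MM (by rw [mk_MM]; exact sum_eq α hα)
    MM (mk_MM.trans hα.symm) (e ∘ c)
  obtain ⟨f, h1, h2⟩ := hi (Lex (ℕ → WithBot MM)) (by
    rw [hα]
    refine mk_seq (Option MM) ?_
    rw [mk_option, mk_MM, add_one_eq kk_inf])
  obtain ⟨x, y, h3⟩ := hc f fun a b hab => lt_of_le_not_ge ((h2 a b).2 hab.le)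
    fun h4 => hab.not_ge ((h2 b a).1 h4)
  exact h3 (e.injective ((h1 x).trans (h1 y).symm))

end Pool.Agent.H66.Univ
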