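import Mathlib

namespace Pool.Agent.H66.Ups
open Set Classical

def r (s : Bool) (p q : ℕ) : Prop := if s then p < q else q < p

noncomputable def Q (θ : ℝ) : List Bool → Set ℕ → (ℕ → ℝ) → ℝ
  | [], _, _ => 0
  | s :: σ, S, u => ⨆ p : ℕ, if p ∈ S then u p ^ 2 + θ * Q θ σ (S ∩ {q | r s p q}) u else 0

variable {θ : ℝ}

lemma Q_nonneg (h0 : 0 ≤ θ) (σ : List Bool) (S : Set ℕ) (u : ℕ → ℝ) : 0 ≤ Q θ σ S u := by
  induction σ generalizing S with
  | nil => exact le_rfl
  | cons s σ ih =>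
    refine Real.iSup_nonneg fun p => ?_
    split_ifs
    · exact add_nonneg (sq_nonneg _) (mul_nonneg h0 (ih _))
    · exact le_rfl

lemma Q_cons_le {s : Bool} {σ : List Bool} {S : Set ℕ} {u : ℕ → ℝ} {M : ℝ} (hM : 0 ≤ M)
    (h : ∀ p ∈ S, u p ^ 2 + θ * Q θ σ (S ∩ {q | r s p q}) u ≤ M) : Q θ (s :: σ) S u ≤ M := by
  refine ciSup_le fun p => ?_
  split_ifs with hp
  · exact h p hp
  · exact hM

lemma Q_le (h0 : 0 ≤ θ) (h1 : θ ≤ 1 / 2) (σ : List Bool) {S : Set ℕ} {u : ℕ → ℝ} {R : ℝ}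
    (h : ∀ q ∈ S, |u q| ≤ R) : Q θ σ S u ≤ 2 * R ^ 2 := by
  induction σ generalizing S with
  | nil => exact by simp only [Q]; positivity
  | cons s σ ih =>
    refine Q_cons_le (by positivity) fun p hp => ?_
    have a1 := ih (S := S ∩ {q | r s p q}) fun q hq => h q hq.1
    have a2 : u p ^ 2 ≤ R ^ 2 := sq_le_sq' (abs_le.1 (h p hp)).1 (abs_le.1 (h p hp)).2
    nlinarith [Q_nonneg h0 σ (S ∩ {q | r s p q}) u]

lemma le_Q (h0 : 0 ≤ θ) (h1 : θ ≤ 1 / 2) (s : Bool) (σ : List Bool) {S : Set ℕ} {u : ℕ → ℝ} {R : ℝ}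
    (h : ∀ q ∈ S, |u q| ≤ R) {p : ℕ} (hp : p ∈ S) :
    u p ^ 2 + θ * Q θ σ (S ∩ {q | r s p q}) u ≤ Q θ (s :: σ) S u := by
  have hb : BddAbove (range fun p : ℕ =>
      if p ∈ S then u p ^ 2 + θ * Q θ σ (S ∩ {q | r s p q}) u else 0) := by
    refine ⟨2 * R ^ 2, ?_⟩
    rintro _ ⟨p, rfl⟩
    simp only
    split_ifs with hp
    · have a1 := Q_le h0 h1 σ (S := S ∩ {q | r s p q}) fun q hq => h q hq.1
      have a2 : u p ^ 2 ≤ R ^ 2 := sq_le_sq' (abs_le.1 (h p hp)).1 (abs_le.1 (h p hp)).2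
      nlinarith [Q_nonneg h0 σ (S ∩ {q | r s p q}) u]
    · positivity
  have := le_ciSup hb p
  rwa [if_pos hp] at this

lemma Q_smul (σ : List Bool) (S : Set ℕ) (u : ℕ → ℝ) (c : ℝ) :
    Q θ σ S (fun q => c * u q) = c ^ 2 * Q θ σ S u := by
  induction σ generalizing S with
  | nil => simp [Q]
  | cons s σ ih =>
    simp only [Q]
    rw [Real.mul_iSup_of_nonneg (sq_nonneg c)]
    congr 1; ext p
    split_ifs
    · rw [ih]; ring
    · simp

lemma Q_add (h0 : 0 ≤ θ) (h1 : θ ≤ 1 / 2) (σ : List Bool) {S : Set ℕ} {u v : ℕ → ℝ} {R R' : ℝ}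
    (hu : ∀ q ∈ S, |u q| ≤ R) (hv : ∀ q ∈ S, |v q| ≤ R') {t : ℝ} (ht : 0 < t) :
    Q θ σ S (fun q => u q + v q) ≤ (1 + t) * Q θ σ S u + (1 + t⁻¹) * Q θ σ S v := by
  induction σ generalizing S with
  | nil => simp [Q]
  | cons s σ ih =>
    have n1 := Q_nonneg h0 (s :: σ) S u
    have n2 := Q_nonneg h0 (s :: σ) S v
    refine Q_cons_le (by positivity) fun p hp => ?_
    have a1 := mul_le_mul_of_nonneg_left
      (ih (S := S ∩ {q | r s p q}) (fun q hq => hu q hq.1) fun q hq => hv q hq.1) h0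
    have a2 := mul_le_mul_of_nonneg_left (le_Q h0 h1 s σ hu hp) (by positivity : 0 ≤ 1 + t)
    have a3 := mul_le_mul_of_nonneg_left (le_Q h0 h1 s σ hv hp) (by positivity : 0 ≤ 1 + t⁻¹)
    have a4 : (u p + v p) ^ 2 ≤ (1 + t) * u p ^ 2 + (1 + t⁻¹) * v p ^ 2 := by
      have : 0 ≤ t⁻¹ * (t * u p - v p) ^ 2 := by positivity
      have e : t⁻¹ * (t * u p - v p) ^ 2 = t * u p ^ 2 - 2 * u p * v p + t⁻¹ * v p ^ 2 := by
        field_simp; ring
      nlinarith
    nlinarith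

lemma lift {t τ g : ℝ} (h1 : τ - 3 * g ≤ |t|) (h2 : |t| ≤ τ) : ∃ t', |t'| = τ ∧ |t' - t| ≤ 3 * g := by
  have h0 : 0 ≤ τ := (abs_nonneg t).trans h2
  rcases le_total 0 t with h | h
  · rw [abs_of_nonneg h] at h1 h2
    exact ⟨τ, abs_of_nonneg h0, by rw [abs_of_nonneg (by linarith)]; linarith⟩
  · rw [abs_of_nonpos h] at h1 h2
    exact ⟨-τ, by rw [abs_neg, abs_of_nonneg h0], by rw [abs_of_nonpos (by linarith)]; linarith⟩

lemma r_tri (s : Bool) (q m : ℕ) : q = m ∨ r s q m ∨ r (!s) q m := by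
  cases s <;> simp [r] <;> omega

lemma r_irr (s : Bool) (p : ℕ) : ¬ r s p p := by cases s <;> simp [r]

lemma r_ext (s : Bool) (m : ℕ) {T : Set ℕ} (hT : T.Nonempty) (h : ∀ q ∈ T, r s q m) :
    ∃ p ∈ T, ∀ q ∈ T, ¬ r s p q := by
  cases s
  · exact ⟨sInf T, Nat.sInf_mem hT, fun q hq => by simpa [r] using Nat.sInf_le hq⟩
  · have hb : BddAbove T := ⟨m, fun q hq => le_of_lt (by simpa [r] using h q hq)⟩
    exact ⟨sSup T, Nat.sSup_mem hT hb, fun q hq => by simpa [r] using le_csSup hb hq⟩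

def Good (θ g : ℝ) (m n : ℕ) (S : Set ℕ) (x : ℕ → ℝ) : Prop :=
  ∃ σ : List Bool, σ.length ≤ n + 1 ∧ ∃ v : ℕ → ℝ, (∀ q, |v q - x q| ≤ 3 * g) ∧
    {q | v q ≠ x q}.Finite ∧ (∀ q ∉ S, v q = x q) ∧ (∀ q ∈ S, |v q| ≤ (n + 2) * g) ∧
    ∀ (w : ℕ → ℝ) (W : ℝ), (∀ q, |w q| ≤ W) → 2 * θ ^ n * w m ^ 2 + 2 * Q θ σ S v ≤
      Q θ σ S (fun q => v q + w q) + Q θ σ S (fun q => v q - w q)

lemma finish (h0 : 0 ≤ θ) (h1 : θ ≤ 1 / 2) {g : ℝ} (hg : 0 < g) {m n : ℕ} {S : Set ℕ} {x : ℕ → ℝ}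
    (hm : m ∈ S) (hx : ∀ q ∈ S, |x q| ≤ (n + 1) * g) (hxm : (n - 1) * g ≤ |x m|) :
    Good θ g m n S x := by
  obtain ⟨t, ht, ht'⟩ := lift (t := x m) (τ := (n + 2) * g) (g := g) (by linarith)
    (by linarith [hx m hm])
  have hv : ∀ q ∈ S, |Function.update x m t q| ≤ (n + 2) * g := fun q hq => by
    by_cases h : q = m
    · simp [h, ht]
    · rw [Function.update_of_ne h]; linarith [hx q hq]
  refine ⟨[true], by simp, Function.update x m t, fun q => ?_, ?_, fun q hq => ?_, hv,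
    fun w W hw => ?_⟩
  · by_cases h : q = m
    · simpa [h] using ht'
    · rw [Function.update_of_ne h]; simp; positivity
  · exact (finite_singleton m).subset fun q hq => by
      by_contra h; exact hq (Function.update_of_ne h _ _)
  · exact Function.update_of_ne (by rintro rfl; exact hq hm) _ _
  · have a1 : Q θ [true] S (Function.update x m t) ≤ t ^ 2 :=
      Q_cons_le (sq_nonneg _) fun p hp => by
        simp only [Q, mul_zero, add_zero]
        rw [sq_le_sq, ht]; exact hv p hp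
    have a2 := le_Q h0 h1 true [] (u := fun q => Function.update x m t q + w q)
      (R := (n + 2) * g + W) (fun q hq => (abs_add_le _ _).trans (add_le_add (hv q hq) (hw q))) hm
    have a3 := le_Q h0 h1 true [] (u := fun q => Function.update x m t q - w q)
      (R := (n + 2) * g + W) (fun q hq => (abs_sub _ _).trans (add_le_add (hv q hq) (hw q))) hm
    rw [show ∀ S u, Q θ [] S u = 0 from fun _ _ => rfl, Function.update_self] at a2 a3
    have a4 : θ ^ n ≤ 1 := pow_le_one₀ h0 (by linarith)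
    nlinarith [sq_nonneg (w m)]

lemma good (h0 : 0 ≤ θ) (h1 : θ ≤ 1 / 2) {g R : ℝ} (hg : 0 < g) (hθ : θ * (2 * R ^ 2) ≤ g ^ 2)
    (m n : ℕ) : ∀ (s : Bool) (S : Set ℕ) (x : ℕ → ℝ), (n + 2) * g ≤ R → m ∈ S →
      (∀ q ∈ S, r s q m → |x q| ≤ (n + 1) * g) → (∀ q ∈ S, r (!s) q m → |x q| ≤ n * g) →
      |x m| ≤ (n + 1) * g → Good θ g m n S x := by
  induction n with
  | zero =>
    intro s S x _ hm a1 a2 a3
    refine finish h0 h1 hg hm (fun q hq => ?_) (by push_cast; linarith [abs_nonneg (x m)])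
    rcases r_tri s q m with rfl | h | h
    · exact a3
    · exact a1 q hq h
    · linarith [a2 q hq h]
  | succ n ih =>
    intro s S x hR hm a1 a2 a3
    have hx : ∀ q ∈ S, |x q| ≤ ((n + 1 : ℕ) + 1) * g := fun q hq => by
      rcases r_tri s q m with rfl | h | h
      · exact a3
      · exact a1 q hq h
      · linarith [a2 q hq h]
    rcases le_total (n * g) |x m| with hxm | hxm
    · exact finish h0 h1 hg hm hx (by push_cast; linarith)
    push_cast at hR a1 a2 a3 hx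
    have hθn : θ ^ (n + 1) ≤ θ ^ n := pow_le_pow_of_le_one h0 (by linarith) (by omega)
    by_cases hT : {q | q ∈ S ∧ r s q m ∧ n * g < |x q|}.Nonempty
    swap
    · obtain ⟨σ, b1, v, b2, b3, b4, b5, b6⟩ := ih (!s) S x (by linarith) hm a2 (fun q hq h => by
        by_contra hc
        exact hT ⟨q, hq, by simpa using h, not_le.1 hc⟩) (by linarith)
      refine ⟨σ, by omega, v, b2, b3, b4, fun q hq => by push_cast; linarith [b5 q hq],
        fun w W hw => ?_⟩
      nlinarith [b6 w W hw, sq_nonneg (w m)]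
    obtain ⟨p, ⟨hp, hpm, hpx⟩, hmax⟩ := r_ext s m hT fun q hq => hq.2.1
    obtain ⟨t, ht, ht'⟩ := lift (t := x p) (τ := (n + 3) * g) (g := g) (by linarith)
      (by linarith [hx p hp])
    have hne : ∀ q ∈ S ∩ {q | r s p q}, q ≠ p := fun q hq h => r_irr s p (h ▸ hq.2)
    obtain ⟨σ, b1, v, b2, b3, b4, b5, b6⟩ := ih (!s) (S ∩ {q | r s p q}) (Function.update x p t)
      (by linarith) ⟨hm, hpm⟩
      (fun q hq h => by rw [Function.update_of_ne (hne q hq)]; exact a2 q hq.1 h)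
      (fun q hq h => by
        rw [Function.update_of_ne (hne q hq)]
        by_contra hc
        exact hmax q ⟨hq.1, by simpa using h, not_le.1 hc⟩ hq.2)
      (by rw [Function.update_of_ne (hne m ⟨hm, hpm⟩)]; linarith)
    have vp : v p = t := by rw [b4 p fun h => hne p h rfl, Function.update_self]
    have vq : ∀ q ∈ S, q ≠ p → |v q| ≤ (n + 2) * g := fun q hq h => by
      by_cases h' : q ∈ S ∩ {q | r s p q}
      · exact b5 q h'
      · rw [b4 q h', Function.update_of_ne h]; linarith [hx q hq]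
    have hv : ∀ q ∈ S, |v q| ≤ (n + 3) * g := fun q hq => by
      by_cases h : q = p
      · rw [h, vp, ht]
      · linarith [vq q hq h]
    refine ⟨s :: σ, by simp; omega, v, fun q => ?_, ?_, fun q hq => ?_,
      fun q hq => by push_cast; linarith [hv q hq], fun w W hw => ?_⟩
    · by_cases h : q = p
      · rw [h, vp]; exact ht'
      · have := b2 q; rwa [Function.update_of_ne h] at this
    · refine (b3.insert p).subset fun q hq => ?_
      by_cases h : q = p
      · exact Or.inl h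
      · right; show v q ≠ _; rwa [Function.update_of_ne h]
    · rw [b4 q fun h => hq h.1, Function.update_of_ne (by rintro rfl; exact hq hp)]
    · have n0 := Q_nonneg h0 σ (S ∩ {q | r s p q}) v
      have c1 : Q θ (s :: σ) S v ≤ t ^ 2 + θ * Q θ σ (S ∩ {q | r s p q}) v :=
        Q_cons_le (by positivity) fun q hq => by
          by_cases h : q = p
          · rw [h, vp]
          · have d1 := Q_le h0 h1 σ (S := S ∩ {q' | r s q q'}) (u := v) (R := R)
              fun q' hq' => by linarith [hv q' hq'.1]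
            have d2 : v q ^ 2 ≤ ((n + 2) * g) ^ 2 := by
              rw [← sq_abs]; gcongr; exact vq q hq h
            have d3 : t ^ 2 = ((n + 3) * g) ^ 2 := by rw [← sq_abs, ht]
            have d4 := mul_le_mul_of_nonneg_left d1 h0
            have d5 : 0 ≤ n * g ^ 2 := by positivity
            nlinarith [mul_nonneg h0 n0]
      have c2 := le_Q h0 h1 s σ (u := fun q => v q + w q)
        (R := (n + 3) * g + W) (fun q hq => (abs_add_le _ _).trans (add_le_add (hv q hq) (hw q))) hp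
      have c3 := le_Q h0 h1 s σ (u := fun q => v q - w q)
        (R := (n + 3) * g + W) (fun q hq => (abs_sub _ _).trans (add_le_add (hv q hq) (hw q))) hp
      have c4 := mul_le_mul_of_nonneg_left (b6 w W hw) h0
      rw [vp] at c2 c3
      rw [pow_succ]
      nlinarith [sq_nonneg (w p)]

end Pool.Agent.H66.Ups
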