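import Pool.Agent.H66.Ups1

namespace Pool.Agent.H66.Ups
open Set Filter Topology
open scoped ZeroAtInfty

abbrev X := C₀(ℕ, ℝ)
abbrev ι := ℕ × List Bool

noncomputable def th (j : ℕ) : ℝ := (1 / 2) ^ (j + 1)
noncomputable def c (i : ι) : ℝ := (1 / 2) ^ (Encodable.encode i)

lemma th_pos (j : ℕ) : 0 < th j := by unfold th; positivity
lemma th_le (j : ℕ) : th j ≤ 1 / 2 := by
  unfold th; rw [pow_succ]
  have : (1 / 2 : ℝ) ^ j ≤ 1 := pow_le_one₀ (by norm_num) (by norm_num)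
  linarith
lemma c_pos (i : ι) : 0 < c i := by unfold c; positivity
lemma c_sum : Summable c := summable_geometric_two.comp_injective Encodable.encode_injective

lemma abs_le_norm (u : X) (q : ℕ) : |u q| ≤ ‖u‖ := u.toBCF.norm_coe_le_norm q

lemma norm_le {u : X} {M : ℝ} (hM : 0 ≤ M) (h : ∀ q, |u q| ≤ M) : ‖u‖ ≤ M :=
  (BoundedContinuousFunction.norm_le (f := u.toBCF) hM).2 h

noncomputable def T (i : ι) (u : X) : ℝ := c i * Q (th i.1) i.2 univ u

lemma T_nonneg (i : ι) (u : X) : 0 ≤ T i u := mul_nonneg (c_pos i).le (Q_nonneg (th_pos _).le _ _ _)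

lemma T_le (i : ι) (u : X) : T i u ≤ c i * (2 * ‖u‖ ^ 2) :=
  mul_le_mul_of_nonneg_left (Q_le (th_pos _).le (th_le _) _ fun q _ => abs_le_norm u q) (c_pos i).le

lemma T_sum (u : X) : Summable fun i => T i u :=
  Summable.of_nonneg_of_le (fun i => T_nonneg i u) (fun i => T_le i u) (c_sum.mul_right _)

lemma T_smul (i : ι) (a : ℝ) (u : X) : T i (a • u) = a ^ 2 * T i u := by
  have := Q_smul (θ := th i.1) i.2 univ u a
  unfold T
  rw [show (⇑(a • u) : ℕ → ℝ) = fun q => a * u q from rfl, this]; ring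

lemma T_add (i : ι) (u v : X) {t : ℝ} (ht : 0 < t) :
    T i (u + v) ≤ (1 + t) * T i u + (1 + t⁻¹) * T i v := by
  have := mul_le_mul_of_nonneg_left (Q_add (th_pos i.1).le (th_le _) i.2 (S := univ)
    (fun q _ => abs_le_norm u q) (fun q _ => abs_le_norm v q) ht) (c_pos i).le
  unfold T
  rw [show (⇑(u + v) : ℕ → ℝ) = fun q => u q + v q from rfl]
  linarith

noncomputable def QT (u : X) : ℝ := ∑' i, T i u

lemma QT_nonneg (u : X) : 0 ≤ QT u := tsum_nonneg fun i => T_nonneg i u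

lemma QT_smul (a : ℝ) (u : X) : QT (a • u) = a ^ 2 * QT u := by
  simp only [QT, T_smul, tsum_mul_left]

lemma QT_add (u v : X) {t : ℝ} (ht : 0 < t) : QT (u + v) ≤ (1 + t) * QT u + (1 + t⁻¹) * QT v := by
  unfold QT
  rw [← tsum_mul_left, ← tsum_mul_left, ← ((T_sum u).mul_left _).tsum_add ((T_sum v).mul_left _)]
  exact (T_sum _).tsum_le_tsum (fun i => T_add i u v ht)
    (((T_sum u).mul_left _).add ((T_sum v).mul_left _))

lemma QT_le (u : X) : QT u ≤ (∑' i, c i) * (2 * ‖u‖ ^ 2) := by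
  rw [← tsum_mul_right]
  exact (T_sum _).tsum_le_tsum (fun i => T_le i u) (c_sum.mul_right _)

lemma le_QT (u : X) (q : ℕ) : c (0, [true]) * u q ^ 2 ≤ QT u := by
  refine le_trans ?_ ((T_sum u).le_tsum (0, [true]) fun i _ => T_nonneg i u)
  have := le_Q (th_pos 0).le (th_le 0) true [] (S := univ) (fun q _ => abs_le_norm u q) (mem_univ q)
  rw [show ∀ S u, Q (th 0) [] S u = 0 from fun _ _ => rfl, mul_zero, add_zero] at this
  exact mul_le_mul_of_nonneg_left this (c_pos _).le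

noncomputable def N : Seminorm ℝ X := Seminorm.of (fun u => √(QT u))
  (fun u v => by
    have hu := QT_nonneg u
    have hv := QT_nonneg v
    refine le_of_forall_pos_le_add fun ε hε => ?_
    have a0 := Real.sqrt_nonneg (QT u)
    have b0 := Real.sqrt_nonneg (QT v)
    have a1 := Real.sq_sqrt hu
    have b1 := Real.sq_sqrt hv
    set a := √(QT u) + ε / 2 with ha
    set b := √(QT v) + ε / 2 with hb
    have a2 : 0 < a := by positivity
    have b2 : 0 < b := by positivity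
    have a3 : QT u ≤ a ^ 2 := by nlinarith
    have b3 : QT v ≤ b ^ 2 := by nlinarith
    refine Real.sqrt_le_iff.2 ⟨by positivity, (QT_add u v (div_pos b2 a2)).trans ?_⟩
    calc _ ≤ (1 + b / a) * a ^ 2 + (1 + (b / a)⁻¹) * b ^ 2 := by gcongr
      _ = (a + b) ^ 2 := by field_simp; ring
      _ = _ := by rw [ha, hb]; ring)
  (fun a u => by rw [QT_smul, Real.sqrt_mul (sq_nonneg _), Real.sqrt_sq_eq_abs, Real.norm_eq_abs])

lemma N_sq (u : X) : N u ^ 2 = QT u := Real.sq_sqrt (QT_nonneg u)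

lemma N_equiv : ∃ A B : ℝ, 0 < A ∧ 0 < B ∧ ∀ u : X, A * ‖u‖ ≤ N u ∧ N u ≤ B * ‖u‖ := by
  have h0 := c_pos (0, [true])
  have hs : 0 ≤ ∑' i, c i := tsum_nonneg fun i => (c_pos i).le
  refine ⟨√(c (0, [true])), 2 * (∑' i, c i) + 1, Real.sqrt_pos.2 h0, by positivity, fun u => ⟨?_, ?_⟩⟩
  · rw [← le_div_iff₀' (Real.sqrt_pos.2 h0)]
    refine norm_le (by positivity) fun q => ?_
    rw [le_div_iff₀' (Real.sqrt_pos.2 h0)]
    refine (pow_le_pow_iff_left₀ (by positivity) (by positivity) two_ne_zero).1 ?_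
    rw [N_sq, mul_pow, Real.sq_sqrt h0.le, sq_abs]
    exact le_QT u q
  · refine (pow_le_pow_iff_left₀ (by positivity) (by positivity) two_ne_zero).1 ?_
    rw [N_sq, mul_pow]
    refine (QT_le u).trans ?_
    nlinarith [sq_nonneg ‖u‖, mul_nonneg (mul_nonneg hs hs) (sq_nonneg ‖u‖),
      mul_nonneg hs (sq_nonneg ‖u‖)]

lemma key {g B : ℝ} (hg : 0 < g) : ∃ κ > 0, ∀ x : X, ‖x‖ ≤ B → ∀ m : ℕ, ∃ v : X, ‖v - x‖ ≤ 3 * g ∧
    ∀ w : X, κ * w m ^ 2 + 2 * QT v ≤ QT (v + w) + QT (v - w) := by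
  obtain ⟨n, hn⟩ := exists_nat_ge (B / g)
  rw [div_le_iff₀ hg] at hn
  obtain ⟨j, hj⟩ := exists_pow_lt_of_lt_one (x := g ^ 2 / (2 * ((n + 2) * g) ^ 2)) (y := (1 / 2 : ℝ))
    (by positivity) (by norm_num)
  have hθ : th j * (2 * ((n + 2) * g) ^ 2) ≤ g ^ 2 := by
    rw [← le_div_iff₀ (by positivity)]
    refine le_trans ?_ hj.le
    unfold th; rw [pow_succ]
    have : (0 : ℝ) < (1 / 2) ^ j := by positivity
    linarith
  obtain ⟨σ0, -, h0⟩ := Set.exists_min_image _ (fun σ => c (j, σ)) (List.finite_length_le Bool (n + 1))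
    ⟨[], by simp⟩
  refine ⟨c (j, σ0) * (2 * th j ^ n), by have := c_pos (j, σ0); have := th_pos j; positivity,
    fun x hx m => ?_⟩
  have hb : ∀ q, |x q| ≤ n * g := fun q => (abs_le_norm x q).trans (hx.trans hn)
  obtain ⟨σ, b1, v, b2, b3, -, -, b6⟩ := good (th_pos j).le (th_le j) hg hθ m n true univ x le_rfl
    (mem_univ _) (fun q _ _ => by linarith [hb q]) (fun q _ _ => hb q) (by linarith [hb m])
  have hz : Tendsto v (cocompact ℕ) (𝓝 0) := by
    refine (zero_at_infty x).congr' ?_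
    rw [Filter.cocompact_eq_cofinite]
    exact Filter.eventually_cofinite.2 (b3.subset fun q hq h => hq h.symm)
  set V : X := ⟨⟨v, continuous_of_discreteTopology⟩, hz⟩ with hV
  refine ⟨V, norm_le (by positivity) b2, fun w => ?_⟩
  have pos : ∀ i, 0 ≤ T i (V + w) + T i (V - w) - 2 * T i V := fun i => by
    have a1 := T_add i (V + w) (V - w) one_pos
    have a2 := T_smul i 2 V
    rw [show V + w + (V - w) = (2 : ℝ) • V by module, a2] at a1
    norm_num at a1; linarith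
  have s1 := ((T_sum (V + w)).add (T_sum (V - w))).sub ((T_sum V).mul_left 2)
  have a1 := s1.le_tsum (j, σ) fun i _ => pos i
  rw [((T_sum (V + w)).add (T_sum (V - w))).tsum_sub ((T_sum V).mul_left 2),
    (T_sum (V + w)).tsum_add (T_sum (V - w)), tsum_mul_left] at a1
  have a2 := mul_le_mul_of_nonneg_left (b6 w ‖w‖ (abs_le_norm w)) (c_pos (j, σ)).le
  have a3 : c (j, σ0) * (2 * th j ^ n) * w m ^ 2 ≤ c (j, σ) * (2 * th j ^ n * w m ^ 2) := by
    rw [mul_assoc]
    have := th_pos j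
    gcongr
    exact h0 σ b1
  have e1 : T (j, σ) (V + w) = c (j, σ) * Q (th j) σ univ fun q => v q + w q := rfl
  have e2 : T (j, σ) (V - w) = c (j, σ) * Q (th j) σ univ fun q => v q - w q := rfl
  have e3 : T (j, σ) V = c (j, σ) * Q (th j) σ univ v := rfl
  rw [e1, e2, e3] at a1
  unfold QT
  linarith

theorem ups {d a : ℝ} (hd : 0 < d) (ha : 0 < a) : ∃ δ > 0, ∀ x y : X, N x = 1 → N y = 1 →
    d ≤ N (x - y) → ∃ z : X, N z ≤ a ∧ δ ≤ |N (x + z) - N (y + z)| := by
  obtain ⟨A, B, hA, hB, hAB⟩ := N_equiv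
  obtain ⟨κ, hκ, hk⟩ := key (g := a / (12 * B)) (B := 1 / A) (by positivity)
  set τ := min 1 (a / 4) with hτ
  have τ0 : 0 < τ := by positivity
  have τ1 : τ ≤ 1 := min_le_left _ _
  have τ2 : τ ≤ a / 4 := min_le_right _ _
  set K := κ * (τ / 2 * (d / (2 * B))) ^ 2 with hK
  have K0 : 0 < K := by positivity
  refine ⟨min 1 (K / (8 * (1 + a) + 11)), by positivity, fun x y hx hy hxy => ?_⟩
  set δ := min 1 (K / (8 * (1 + a) + 11)) with hδ
  have δ0 : 0 < δ := by positivity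
  have δ1 : δ ≤ 1 := min_le_left _ _
  have δ2 : δ * (8 * (1 + a) + 11) ≤ K := (le_div_iff₀ (by positivity)).1 (min_le_right _ _)
  obtain ⟨m, hm⟩ : ∃ m, d / (2 * B) ≤ |(x - y) m| := by
    by_contra hc
    push Not at hc
    have a1 := norm_le (by positivity) fun q => (hc q).le
    have a2 := (hAB (x - y)).2
    have a3 : B * (d / (2 * B)) = d / 2 := by field_simp
    nlinarith
  obtain ⟨v, hv, hw⟩ := hk x (by rw [le_div_iff₀' hA, ← hx]; exact (hAB x).1) m
  set w := x - y with hwd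
  have n1 : N (v - x) ≤ a / 4 := by
    refine (hAB _).2.trans ?_
    calc B * ‖v - x‖ ≤ B * (3 * (a / (12 * B))) := by gcongr
      _ = a / 4 := by field_simp; ring
  have n2 : N ((τ / 2) • w) ≤ a / 4 := by
    have := map_sub_le_add N x y
    rw [map_smul_eq_mul, Real.norm_eq_abs, abs_of_pos (by positivity)]
    nlinarith [apply_nonneg N w]
  have n3 : N v ≤ 1 + a := by
    have := map_add_le_add N x (v - x)
    rw [add_sub_cancel] at this; linarith
  by_contra hc
  push Not at hc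
  have c1 := abs_lt.1 (hc (v - x - (τ / 2) • w) ((map_sub_le_add N _ _).trans (by linarith)))
  have c2 := abs_lt.1 (hc (v - x + (τ / 2) • w) ((map_add_le_add N _ _).trans (by linarith)))
  rw [show x + (v - x - (τ / 2) • w) = v - (τ / 2) • w by module] at c1
  rw [show x + (v - x + (τ / 2) • w) = v + (τ / 2) • w by module] at c2
  have d1 := map_add_le_add N ((1 - τ) • (y + (v - x - (τ / 2) • w))) (τ • (v - (τ / 2) • w))
  rw [show (1 - τ) • (y + (v - x - (τ / 2) • w)) + τ • (v - (τ / 2) • w) =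
      y + (v - x + (τ / 2) • w) by rw [hwd]; module, map_smul_eq_mul, map_smul_eq_mul,
    Real.norm_eq_abs, Real.norm_eq_abs, abs_of_nonneg (by linarith), abs_of_pos τ0] at d1
  have d2 := map_add_le_add N ((τ / 2) • (y + (v - x - (τ / 2) • w))) v
  rw [show (τ / 2) • (y + (v - x - (τ / 2) • w)) + v = (1 + τ / 2) • (v - (τ / 2) • w) by
      rw [hwd]; module, map_smul_eq_mul, map_smul_eq_mul,
    Real.norm_eq_abs, Real.norm_eq_abs, abs_of_pos (by positivity), abs_of_pos (by positivity)] at d2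
  have e1 := hw ((τ / 2) • w)
  rw [← N_sq, ← N_sq, ← N_sq] at e1
  have e2 : K ≤ κ * ((τ / 2) • w) m ^ 2 := by
    rw [hK, show ((τ / 2) • w) m = τ / 2 * w m from rfl, mul_pow, mul_pow, ← sq_abs (w m)]
    gcongr
  set G0 := N (y + (v - x - (τ / 2) • w))
  have p1 := apply_nonneg N (v - (τ / 2) • w)
  have p2 := apply_nonneg N (v + (τ / 2) • w)
  have pm := apply_nonneg N v
  set G1 := N (v - (τ / 2) • w)
  set G2 := N (v + (τ / 2) • w)
  set Gm := N v
  have f1 : G1 ≤ Gm + δ := by nlinarith [c1.1]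
  have f2 : G2 ≤ Gm + 3 * δ := by nlinarith [c1.1, c2.2]
  have f3 : G1 ^ 2 ≤ (Gm + δ) ^ 2 := by gcongr
  have f4 : G2 ^ 2 ≤ (Gm + 3 * δ) ^ 2 := by gcongr
  nlinarith

end Pool.Agent.H66.Ups
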