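import Mathlib

namespace Pool.Agent.H66.Ups

variable {E : Type} [AddCommGroup E]

/-- `U_X(x,y;a)` for the norm `N`. -/
noncomputable def Uxy (N : E → ℝ) (x y : E) (a : ℝ) : ℝ :=
  sSup {t | ∃ z, N z ≤ a ∧ t = |N (x + z) - N (y + z)|}

/-- `U_X(d;a)` for the norm `N`. -/
noncomputable def Ud (N : E → ℝ) (d a : ℝ) : ℝ :=
  sInf {t | ∃ x y, N x = 1 ∧ N y = 1 ∧ d ≤ N (x - y) ∧ t = Uxy N x y a}

/-- Uniform property (S) for the norm `N`. -/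
def UniformS (N : E → ℝ) : Prop := ∀ d a : ℝ, 0 < d → d < 2 → 0 < a → 0 < Ud N d a

end Pool.Agent.H66.Ups
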