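import Mathlib

set_option autoImplicit false

namespace Pool.Agent.H66.VNum

open MvPolynomial

variable {σ : Type} {K : Type} [Field K]

/-- `I` is a homogeneous ideal for the standard grading. -/
def IsHomog (I : Ideal (MvPolynomial σ K)) : Prop :=
  ∀ f ∈ I, ∀ d : ℕ, homogeneousComponent d f ∈ I

/-- Associated primes of `S / J`: the primes of the form `(J : f)`. -/
def Ass (J : Ideal (MvPolynomial σ K)) : Set (Ideal (MvPolynomial σ K)) :=
  {p | p.IsPrime ∧ ∃ f, J.colon {f} = p}

/-- Primes associated to `I ^ k` for all large `k`. -/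
def AssInf (I : Ideal (MvPolynomial σ K)) : Set (Ideal (MvPolynomial σ K)) :=
  {p | ∀ᶠ k in Filter.atTop, p ∈ Ass (I ^ k)}

/-- The local v-number: least degree of a homogeneous `f` with `(J : f) = p`. -/
noncomputable def vloc (J p : Ideal (MvPolynomial σ K)) : ℕ :=
  sInf {d | ∃ f : MvPolynomial σ K, f.IsHomogeneous d ∧ J.colon {f} = p}

/-- The initial degree. -/
noncomputable def alpha (I : Ideal (MvPolynomial σ K)) : ℕ :=
  sInf {d | ∃ f ∈ I, f ≠ 0 ∧ f.IsHomogeneous d}

end Pool.Agent.H66.VNum
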