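import Mathlib
import Pool.Agent.H66.VNumDefs

set_option autoImplicit false

namespace Pool.Agent.H66.VNum

open MvPolynomial Pointwise

variable {K : Type} [Field K]

noncomputable def mon (K : Type) [Field K] (A : Set (Fin 3 →₀ ℕ)) :
    Ideal (MvPolynomial (Fin 3) K) := Ideal.span ((fun s => monomial s (1 : K)) '' A)

theorem mem_mon {A : Set (Fin 3 →₀ ℕ)} {f : MvPolynomial (Fin 3) K} :
    f ∈ mon K A ↔ ∀ m ∈ f.support, ∃ s ∈ A, s 0 ≤ m 0 ∧ s 1 ≤ m 1 ∧ s 2 ≤ m 2 := by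
  rw [mon, mem_ideal_span_monomial_image]
  simp only [Finsupp.le_def, Fin.forall_fin_succ]
  simp

theorem mon_mul (A B : Set (Fin 3 →₀ ℕ)) : mon K A * mon K B = mon K (A + B) := by
  rw [mon, mon, mon, Ideal.span_mul_span']
  congr 1
  ext f
  constructor
  · rintro ⟨_, ⟨a, ha, rfl⟩, _, ⟨b, hb, rfl⟩, rfl⟩
    exact ⟨a + b, ⟨a, ha, b, hb, rfl⟩, by simp [monomial_mul]⟩
  · rintro ⟨_, ⟨a, ha, b, hb, rfl⟩, rfl⟩
    exact ⟨_, ⟨a, ha, rfl⟩, _, ⟨b, hb, rfl⟩, by simp [monomial_mul]⟩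

theorem mon_homog (A : Set (Fin 3 →₀ ℕ)) : IsHomog (mon K A) := by
  intro f hf d
  rw [mem_mon] at hf ⊢
  intro m hm
  apply hf
  rw [mem_support_iff] at hm ⊢
  intro h
  apply hm
  rw [coeff_homogeneousComponent, h, ite_self]

noncomputable def e (a b c : ℕ) : Fin 3 →₀ ℕ := Finsupp.equivFunOnFinite.symm ![a, b, c]

@[simp] theorem e0 (a b c : ℕ) : e a b c 0 = a := rfl
@[simp] theorem e1 (a b c : ℕ) : e a b c 1 = b := rfl
@[simp] theorem e2 (a b c : ℕ) : e a b c 2 = c := rfl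

theorem mono_e (a b c : ℕ) :
    (monomial (e a b c) (1 : K) : MvPolynomial (Fin 3) K) = X 0 ^ a * X 1 ^ b * X 2 ^ c := by
  rw [X_pow_eq_monomial, X_pow_eq_monomial, X_pow_eq_monomial, monomial_mul, monomial_mul]
  congr 1
  · congr 1
    ext i
    fin_cases i <;> simp
  · simp

theorem deg3 (m : Fin 3 →₀ ℕ) : m.degree = m 0 + m 1 + m 2 := by
  rw [Finsupp.degree_eq_sum, Fin.sum_univ_three]

theorem hom_deg {f : MvPolynomial (Fin 3) K} {d : ℕ} (hf : f.IsHomogeneous d)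
    {m : Fin 3 →₀ ℕ} (hm : m ∈ f.support) : m 0 + m 1 + m 2 = d := by
  by_contra h
  exact (mem_support_iff.1 hm) (hf.coeff_eq_zero (by rwa [deg3]))

theorem hom_e (a b c : ℕ) :
    (monomial (e a b c) (1 : K) : MvPolynomial (Fin 3) K).IsHomogeneous (a + b + c) :=
  isHomogeneous_monomial _ (by rw [deg3]; rfl)

theorem mem_mon_e {A : Set (Fin 3 →₀ ℕ)} {a b c : ℕ} :
    (monomial (e a b c) (1 : K) : MvPolynomial (Fin 3) K) ∈ mon K A ↔
      ∃ s ∈ A, s 0 ≤ a ∧ s 1 ≤ b ∧ s 2 ≤ c := by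
  classical
  rw [mem_mon, support_monomial]
  simp

theorem X_mul_supp {f : MvPolynomial (Fin 3) K} {m : Fin 3 →₀ ℕ} (i : Fin 3)
    (hm : m ∈ f.support) : Finsupp.single i 1 + m ∈ (X i * f).support := by
  rw [mem_support_iff] at hm ⊢
  rwa [coeff_X_mul]

theorem X_mul_e (a b c : ℕ) :
    X 0 * (monomial (e a b c) (1 : K) : MvPolynomial (Fin 3) K) = monomial (e (a + 1) b c) 1 ∧
    X 1 * (monomial (e a b c) (1 : K) : MvPolynomial (Fin 3) K) = monomial (e a (b + 1) c) 1 ∧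
    X 2 * (monomial (e a b c) (1 : K) : MvPolynomial (Fin 3) K) = monomial (e a b (c + 1)) 1 := by
  simp only [mono_e]
  refine ⟨by ring, by ring, by ring⟩

/-- the irrelevant maximal ideal -/
noncomputable def mm (K : Type) [Field K] : Ideal (MvPolynomial (Fin 3) K) :=
  Ideal.span {X 0, X 1, X 2}

theorem mm_max : (mm K).IsMaximal := by
  have h : mm K = RingHom.ker (constantCoeff : MvPolynomial (Fin 3) K →+* K) := by
    have h1 : ({X 0, X 1, X 2} : Set (MvPolynomial (Fin 3) K)) = X '' Set.univ := by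
      ext f
      simp [Fin.exists_fin_succ, eq_comm]
    ext f
    rw [mm, h1, mem_ideal_span_X_image, RingHom.mem_ker, constantCoeff_eq]
    constructor
    · intro h
      by_contra hc
      obtain ⟨i, -, hi⟩ := h 0 (mem_support_iff.2 hc)
      exact hi rfl
    · intro h m hm
      by_contra hc
      push Not at hc
      have : m = 0 := Finsupp.ext fun i => hc i trivial
      exact (mem_support_iff.1 hm) (this ▸ h)
  rw [h]
  exact RingHom.ker_isMaximal_of_surjective _ fun c => ⟨C c, by simp⟩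

theorem colon_mm {J : Ideal (MvPolynomial (Fin 3) K)} {f : MvPolynomial (Fin 3) K} (hf : f ∉ J)
    (h0 : X 0 * f ∈ J) (h1 : X 1 * f ∈ J) (h2 : X 2 * f ∈ J) : J.colon {f} = mm K := by
  symm
  apply mm_max.eq_of_le
  · intro h
    have : (1 : MvPolynomial (Fin 3) K) ∈ J.colon {f} := h ▸ Submodule.mem_top
    exact hf (by simpa using this)
  · rw [mm, Ideal.span_le]
    rintro g (rfl | rfl | rfl) <;> simpa

theorem ass_mm {J : Ideal (MvPolynomial (Fin 3) K)} (hJ : J ≠ ⊤) (N : ℕ) (h : mm K ^ N ≤ J) :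
    mm K ∈ Ass J := by
  refine ⟨mm_max.isPrime, ?_⟩
  induction N with
  | zero => exact absurd (top_le_iff.1 (by simpa using h)) hJ
  | succ N ih =>
    by_cases h' : mm K ^ N ≤ J
    · exact ih h'
    · obtain ⟨f, hf, hf'⟩ := SetLike.not_le_iff_exists.1 h'
      have key : ∀ g ∈ mm K, g * f ∈ J := fun g hg =>
        h (by rw [pow_succ']; exact Ideal.mul_mem_mul hg hf)
      exact ⟨f, colon_mm hf' (key _ (Ideal.subset_span (by simp)))
        (key _ (Ideal.subset_span (by simp))) (key _ (Ideal.subset_span (by simp)))⟩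

def A1 : Set (Fin 3 →₀ ℕ) := {e 5 0 0, e 0 2 0, e 0 0 5, e 1 0 1, e 0 1 1}

theorem I1_eq : (Ideal.span {X 0 ^ 5, X 1 ^ 2, X 2 ^ 5, X 0 * X 2, X 1 * X 2} :
    Ideal (MvPolynomial (Fin 3) K)) = mon K A1 := by
  simp [mon, A1, Set.image_insert_eq, mono_e]

theorem drop : (∀ k, 1 ≤ k → mm K ∈ Ass (mon K A1 ^ k)) ∧ vloc (mon K A1 ^ 1) (mm K) = 4 ∧
    vloc (mon K A1 ^ 2) (mm K) ≤ 3 := by
  have hle : mon K A1 ≤ mm K := by
    rw [← I1_eq, Ideal.span_le]
    have h0 : X 0 ∈ mm K := Ideal.subset_span (by simp)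
    have h1 : X 1 ∈ mm K := Ideal.subset_span (by simp)
    have h2 : X 2 ∈ mm K := Ideal.subset_span (by simp)
    rintro g (rfl | rfl | rfl | rfl | rfl)
    · exact Ideal.pow_mem_of_mem _ h0 _ (by norm_num)
    · exact Ideal.pow_mem_of_mem _ h1 _ (by norm_num)
    · exact Ideal.pow_mem_of_mem _ h2 _ (by norm_num)
    · exact Ideal.mul_mem_right _ _ h0
    · exact Ideal.mul_mem_right _ _ h1
  refine ⟨fun k hk => ?_, ?_, ?_⟩
  · have hr : mm K ≤ (mon K A1).radical := by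
      rw [mm, Ideal.span_le, ← I1_eq]
      rintro g (rfl | rfl | rfl)
      · exact ⟨5, Ideal.subset_span (by simp)⟩
      · exact ⟨2, Ideal.subset_span (by simp)⟩
      · exact ⟨5, Ideal.subset_span (by simp)⟩
    obtain ⟨N, hN⟩ := Ideal.exists_pow_le_of_le_radical_of_fg hr (IsNoetherian.noetherian _)
    refine ass_mm (fun h => (mm_max (K := K)).ne_top (top_le_iff.1 ?_)) (N * k) ?_
    · rw [← h]
      exact (Ideal.pow_le_self (by omega)).trans hle
    · rw [pow_mul]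
      exact Ideal.pow_right_mono hN k
  · rw [pow_one]
    have h4 : 4 ∈ {d | ∃ f : MvPolynomial (Fin 3) K, f.IsHomogeneous d ∧
        (mon K A1).colon {f} = mm K} := by
      refine ⟨_, hom_e 0 0 4, colon_mm ?_ ?_ ?_ ?_⟩
      · rw [mem_mon_e]; simp [A1]
      · rw [(X_mul_e _ _ _).1, mem_mon_e]; simp [A1]
      · rw [(X_mul_e _ _ _).2.1, mem_mon_e]; simp [A1]
      · rw [(X_mul_e _ _ _).2.2, mem_mon_e]; simp [A1]
    refine le_antisymm (Nat.sInf_le h4) (le_csInf ⟨_, h4⟩ ?_)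
    rintro d ⟨f, hf, hc⟩
    have hn : f ∉ mon K A1 := fun h => (mm_max (K := K)).ne_top (by
      rw [← hc, eq_top_iff]
      intro g _
      simpa using Ideal.mul_mem_left _ g h)
    have hx : ∀ i, X i * f ∈ mon K A1 := fun i => by
      have : X i ∈ (mon K A1).colon {f} := by
        rw [hc]
        apply Ideal.subset_span
        fin_cases i <;> simp
      simpa using this
    rw [mem_mon] at hn
    push Not at hn
    obtain ⟨m, hm, hm'⟩ := hn
    have g0 := mem_mon.1 (hx 0) _ (X_mul_supp 0 hm)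
    have g2 := mem_mon.1 (hx 2) _ (X_mul_supp 2 hm)
    have := hom_deg hf hm
    simp [A1] at hm' g0 g2
    omega
  · refine Nat.sInf_le ⟨_, hom_e 0 2 1, colon_mm ?_ ?_ ?_ ?_⟩
    · rw [pow_two, mon_mul, mem_mon_e]
      rintro ⟨_, ⟨a, ha, b, hb, rfl⟩, h⟩
      simp only [A1, Set.mem_insert_iff, Set.mem_singleton_iff] at ha hb
      rcases ha with rfl | rfl | rfl | rfl | rfl <;> rcases hb with rfl | rfl | rfl | rfl | rfl <;>
        simp at h
    · rw [(X_mul_e _ _ _).1, pow_two, mon_mul, mem_mon_e]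
      exact ⟨_, ⟨e 0 2 0, by simp [A1], e 1 0 1, by simp [A1], rfl⟩, by simp⟩
    · rw [(X_mul_e _ _ _).2.1, pow_two, mon_mul, mem_mon_e]
      exact ⟨_, ⟨e 0 2 0, by simp [A1], e 0 1 1, by simp [A1], rfl⟩, by simp⟩
    · rw [(X_mul_e _ _ _).2.2, pow_two, mon_mul, mem_mon_e]
      exact ⟨_, ⟨e 0 1 1, by simp [A1], e 0 1 1, by simp [A1], rfl⟩, by simp⟩

end Pool.Agent.H66.VNum
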