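import Mathlib
import Pool.Agent.H66.VNum1

set_option autoImplicit false

namespace Pool.Agent.H66.VNum

open MvPolynomial Pointwise

variable {K : Type} [Field K]

noncomputable def phi (K : Type) [Field K] :
    MvPolynomial (Fin 3) K →ₐ[K] Polynomial (MvPolynomial (Fin 3) K) :=
  aeval ![Polynomial.C (X 0) * Polynomial.X, Polynomial.C (X 1) * Polynomial.X, Polynomial.C (X 2)]

theorem phi_mono (m : Fin 3 →₀ ℕ) (c : K) :
    phi K (monomial m c) = Polynomial.C (monomial m c) * Polynomial.X ^ (m 0 + m 1) := by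
  have h : (monomial m c : MvPolynomial (Fin 3) K) = C c * (X 0 ^ m 0 * X 1 ^ m 1 * X 2 ^ m 2) := by
    rw [← mono_e, C_mul_monomial, mul_one]
    congr 2
    ext i
    fin_cases i <;> simp
  have h2 : phi K (C c) = Polynomial.C (C c) := by
    rw [phi, aeval_C]; rfl
  rw [h, map_mul, h2]
  simp [phi]
  ring

theorem phi_coeff (f : MvPolynomial (Fin 3) K) (d : ℕ) (m : Fin 3 →₀ ℕ) :
    coeff m ((phi K f).coeff d) = if m 0 + m 1 = d then coeff m f else 0 := by
  induction f using MvPolynomial.induction_on' with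
  | monomial u a =>
    rw [phi_mono, Polynomial.coeff_C_mul, Polynomial.coeff_X_pow]
    by_cases h : u = m
    · subst h
      by_cases h2 : u 0 + u 1 = d
      · simp [h2]
      · simp [h2, Ne.symm h2]
    · by_cases h2 : d = u 0 + u 1 <;> simp [h2, coeff_monomial, h]
  | add p q hp hq =>
    rw [map_add, Polynomial.coeff_add, coeff_add, hp, hq, coeff_add]
    split_ifs <;> simp

def Ord (k : ℕ) (f : MvPolynomial (Fin 3) K) : Prop := ∀ m ∈ f.support, k ≤ m 0 + m 1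

theorem ord_iff (k : ℕ) (f : MvPolynomial (Fin 3) K) :
    Ord k f ↔ Polynomial.X ^ k ∣ phi K f := by
  rw [Polynomial.X_pow_dvd_iff]
  constructor
  · intro h d hd
    ext m
    rw [phi_coeff, coeff_zero]
    split_ifs with h2
    · by_contra h3
      have := h m (mem_support_iff.2 h3)
      omega
    · rfl
  · intro h m hm
    by_contra h2
    have := phi_coeff f (m 0 + m 1) m
    rw [h _ (not_le.1 h2), if_pos rfl] at this
    exact (mem_support_iff.1 hm) this.symm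

theorem ord_cancel {k : ℕ} {f g : MvPolynomial (Fin 3) K} (hg : ¬ Ord 1 g) (h : Ord k (g * f)) :
    Ord k f := by
  rw [ord_iff] at *
  rw [map_mul] at h
  exact Polynomial.prime_X.pow_dvd_of_dvd_mul_left k (by simpa using hg) h

noncomputable def pp (K : Type) [Field K] : Ideal (MvPolynomial (Fin 3) K) :=
  Ideal.span {X 0, X 1}

theorem mem_pp {g : MvPolynomial (Fin 3) K} : g ∈ pp K ↔ Ord 1 g := by
  have h1 : ({X 0, X 1} : Set (MvPolynomial (Fin 3) K)) = X '' {0, 1} := by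
    simp [Set.image_insert_eq]
  rw [pp, h1, mem_ideal_span_X_image, Ord]
  refine forall₂_congr fun m _ => ?_
  simp
  omega

theorem pp_prime : (pp K).IsPrime := by
  refine ⟨fun h => ?_, fun {f g} h => ?_⟩
  · have : (1 : MvPolynomial (Fin 3) K) ∈ pp K := h ▸ Submodule.mem_top
    have := mem_pp.1 this 0 (by simp [mem_support_iff])
    simp at this
  · rw [mem_pp] at h
    rw [mem_pp, mem_pp]
    by_cases hf : Ord 1 f
    · exact Or.inl hf
    · exact Or.inr (ord_cancel hf h)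

def A2 (k : ℕ) : Set (Fin 3 →₀ ℕ) :=
  {s | ∃ i j l, i + j + l = k ∧ s = e l (2 * i + j) (2 * j + 4 * l)}

theorem e_add (a b c a' b' c' : ℕ) : e a b c + e a' b' c' = e (a + a') (b + b') (c + c') := by
  ext i
  fin_cases i <;> simp

noncomputable def I2 (K : Type) [Field K] : Ideal (MvPolynomial (Fin 3) K) :=
  Ideal.span {X 1 ^ 2, X 1 * X 2 ^ 2, X 0 * X 2 ^ 4}

theorem I2_pow (k : ℕ) : I2 K ^ k = mon K (A2 k) := by
  have h1 : I2 K = mon K {e 0 2 0, e 0 1 2, e 1 0 4} := by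
    simp [I2, mon, Set.image_insert_eq, mono_e]
  induction k with
  | zero =>
    symm
    rw [pow_zero, Ideal.one_eq_top, Ideal.eq_top_iff_one]
    have : (1 : MvPolynomial (Fin 3) K) = monomial (e 0 0 0) 1 := by simp [mono_e]
    rw [this, mem_mon_e]
    exact ⟨_, ⟨0, 0, 0, rfl, rfl⟩, by simp⟩
  | succ k ih =>
    rw [pow_succ, ih, h1, mon_mul]
    congr 1
    ext s
    constructor
    · rintro ⟨_, ⟨i, j, l, h, rfl⟩, _, rfl | rfl | rfl, rfl⟩
      · exact ⟨i + 1, j, l, by omega, by simp only [e_add]; congr 1 <;> omega⟩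
      · exact ⟨i, j + 1, l, by omega, by simp only [e_add]; congr 1 <;> omega⟩
      · exact ⟨i, j, l + 1, by omega, by simp only [e_add]; congr 1 <;> omega⟩
    · rintro ⟨i, j, l, h, rfl⟩
      rcases i with _ | i
      · rcases j with _ | j
        · rcases l with _ | l
          · omega
          · exact ⟨_, ⟨0, 0, l, by omega, rfl⟩, e 1 0 4, by simp,
              by simp only [e_add]; congr 1 <;> omega⟩
        · exact ⟨_, ⟨0, j, l, by omega, rfl⟩, e 0 1 2, by simp,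
            by simp only [e_add]; congr 1 <;> omega⟩
      · exact ⟨_, ⟨i, j, l, by omega, rfl⟩, e 0 2 0, by simp,
          by simp only [e_add]; congr 1 <;> omega⟩

theorem mem_I2 {k : ℕ} {f : MvPolynomial (Fin 3) K} : f ∈ I2 K ^ k ↔ ∀ m ∈ f.support,
    ∃ i j l, i + j + l = k ∧ l ≤ m 0 ∧ 2 * i + j ≤ m 1 ∧ 2 * j + 4 * l ≤ m 2 := by
  rw [I2_pow, mem_mon]
  refine forall₂_congr fun m _ => ⟨?_, ?_⟩
  · rintro ⟨_, ⟨i, j, l, h, rfl⟩, h'⟩
    exact ⟨i, j, l, h, h'⟩
  · rintro ⟨i, j, l, h, h'⟩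
    exact ⟨_, ⟨i, j, l, h, rfl⟩, h'⟩

theorem ord_of_mem {k : ℕ} {f : MvPolynomial (Fin 3) K} (h : f ∈ I2 K ^ k) : Ord k f := by
  intro m hm
  obtain ⟨i, j, l, h⟩ := mem_I2.1 h m hm
  omega

theorem mem_of_ord {k : ℕ} {f : MvPolynomial (Fin 3) K} (h : X 0 * f ∈ I2 K ^ k) (h' : Ord k f) :
    f ∈ I2 K ^ k := by
  rw [mem_I2] at h ⊢
  intro m hm
  obtain ⟨i, j, l, h1, h2, h3, h4⟩ := h _ (X_mul_supp 0 hm)
  have h5 := h' m hm
  simp at h2 h3 h4
  by_cases a : l ≤ m 0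
  · exact ⟨i, j, l, h1, a, h3, h4⟩
  by_cases b : 2 * i + j < m 1
  · exact ⟨i, j + 1, l - 1, by omega, by omega, by omega, by omega⟩
  · exact ⟨i - 1, j + 2, l - 1, by omega, by omega, by omega, by omega⟩

theorem colon_pp {k : ℕ} {f : MvPolynomial (Fin 3) K} (hf : f ∉ I2 K ^ k)
    (h : pp K ≤ (I2 K ^ k).colon {f}) : (I2 K ^ k).colon {f} = pp K := by
  refine le_antisymm (fun g hg => ?_) h
  have h0 : X 0 * f ∈ I2 K ^ k := by
    simpa using h (Ideal.subset_span (by simp) : X 0 ∈ pp K)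
  by_contra hc
  rw [mem_pp] at hc
  exact hf (mem_of_ord h0 (ord_cancel hc (ord_of_mem (by simpa using hg))))

theorem not_mem_of_colon {J p : Ideal (MvPolynomial (Fin 3) K)} {f : MvPolynomial (Fin 3) K}
    (hp : p.IsPrime) (h : J.colon {f} = p) : f ∉ J := fun hf => hp.ne_top (by
  rw [← h, eq_top_iff]
  intro g _
  simpa using Ideal.mul_mem_left _ g hf)

theorem witness (k : ℕ) : (I2 K ^ (k + 1)).colon {monomial (e 0 k (2 * k + 4)) 1} = pp K := by
  classical
  apply colon_pp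
  · intro h
    have := ord_of_mem h (e 0 k (2 * k + 4)) (by simp [support_monomial])
    simp at this
  · rw [pp, Ideal.span_le]
    rintro g (rfl | rfl)
    · simp only [SetLike.mem_coe, Submodule.mem_colon_singleton, smul_eq_mul]
      rw [(X_mul_e _ _ _).1, I2_pow, mem_mon_e]
      exact ⟨_, ⟨0, k, 1, by omega, rfl⟩, by simp⟩
    · simp only [SetLike.mem_coe, Submodule.mem_colon_singleton, smul_eq_mul]
      rw [(X_mul_e _ _ _).2.1, I2_pow, mem_mon_e]
      exact ⟨_, ⟨0, k + 1, 0, by omega, rfl⟩, by simp; omega⟩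

theorem vloc_I2 (k : ℕ) : vloc (I2 K ^ (k + 1)) (pp K) = 3 * (k + 1) + 1 := by
  have h4 : 3 * (k + 1) + 1 ∈ {d | ∃ f : MvPolynomial (Fin 3) K, f.IsHomogeneous d ∧
      (I2 K ^ (k + 1)).colon {f} = pp K} :=
    ⟨_, by convert hom_e 0 k (2 * k + 4) using 1; omega, witness k⟩
  refine le_antisymm (Nat.sInf_le h4) (le_csInf ⟨_, h4⟩ ?_)
  rintro d ⟨f, hf, hc⟩
  have h0 : X 0 * f ∈ I2 K ^ (k + 1) := by
    have : X 0 ∈ (I2 K ^ (k + 1)).colon {f} := hc ▸ (Ideal.subset_span (by simp) : X 0 ∈ pp K)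
    simpa using this
  have h1 : ¬ Ord (k + 1) f := fun h => not_mem_of_colon pp_prime hc (mem_of_ord h0 h)
  simp only [Ord, not_forall] at h1
  obtain ⟨m, hm, hm'⟩ := h1
  obtain ⟨i, j, l, h1, h2, h3, h4⟩ := mem_I2.1 h0 _ (X_mul_supp 0 hm)
  have := hom_deg hf hm
  simp at h2 h3 h4
  omega

theorem max_pp : Maximal (· ∈ AssInf (I2 K)) (pp K) := by
  refine ⟨?_, fun q hq hle => ?_⟩
  · refine Filter.eventually_atTop.2 ⟨1, fun k hk => ?_⟩
    obtain ⟨k, rfl⟩ : ∃ j, k = j + 1 := ⟨k - 1, by omega⟩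
    exact ⟨pp_prime, _, witness k⟩
  · obtain ⟨k, hp, f, hf⟩ := Filter.Eventually.exists hq
    rw [← hf] at hle ⊢
    exact (colon_pp (not_mem_of_colon hp hf) hle).le

theorem alpha_I2 : alpha (I2 K) = 2 := by
  have h2 : 2 ∈ {d | ∃ f ∈ I2 K, f ≠ 0 ∧ f.IsHomogeneous d} :=
    ⟨X 1 ^ 2, Ideal.subset_span (by simp), pow_ne_zero _ (X_ne_zero _),
      by simpa using (isHomogeneous_X K (1 : Fin 3)).pow 2⟩
  refine le_antisymm (Nat.sInf_le h2) (le_csInf ⟨_, h2⟩ ?_)
  rintro d ⟨f, hf, h0, hd⟩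
  obtain ⟨m, hm⟩ := support_nonempty.2 h0
  rw [← pow_one (I2 K), mem_I2] at hf
  obtain ⟨i, j, l, h⟩ := hf m hm
  have := hom_deg hd hm
  omega

theorem lim_I2 : Filter.Tendsto (fun k : ℕ => (vloc (I2 K ^ k) (pp K) : ℝ) / k) Filter.atTop
    (nhds 3) := by
  have h : Filter.Tendsto (fun k : ℕ => (3 : ℝ) + 1 / k) Filter.atTop (nhds (3 + 0)) :=
    tendsto_const_nhds.add tendsto_one_div_atTop_nhds_zero_nat
  rw [add_zero] at h
  refine h.congr' (Filter.eventually_atTop.2 ⟨1, fun k hk => ?_⟩)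
  obtain ⟨k, rfl⟩ : ∃ j, k = j + 1 := ⟨k - 1, by omega⟩
  simp only [vloc_I2]
  push_cast
  field_simp

theorem homog_I2 : IsHomog (I2 K) := by
  rw [← pow_one (I2 K), I2_pow]
  exact mon_homog _

theorem I2_ne : I2 K ≠ ⊥ ∧ I2 K ≠ ⊤ := by
  refine ⟨fun h => ?_, fun h => ?_⟩
  · have : X 1 ^ 2 ∈ I2 K := Ideal.subset_span (by simp)
    rw [h] at this
    exact pow_ne_zero _ (X_ne_zero _) this
  · have : (1 : MvPolynomial (Fin 3) K) ∈ I2 K ^ 1 := by rw [pow_one, h]; trivial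
    have := ord_of_mem this 0 (by simp [mem_support_iff])
    simp at this

end Pool.Agent.H66.VNum
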