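import Mathlib

/-! Computable vector spaces, maximal and atomless sets, maximal subspaces. -/

namespace Pool.Agent.H66.Vec

/-- A computable infinite-dimensional space with a dependence algorithm over a computable field. -/
def IsVInf (F V : Type) [Field F] [AddCommGroup V] [Module F V] [Primcodable F]
    [Primcodable V] : Prop :=
  Computable₂ (fun a b : F => a + b) ∧ Computable₂ (fun a b : F => a * b) ∧
    Computable₂ (fun u v : V => u + v) ∧ Computable₂ (fun (a : F) (v : V) => a • v) ∧
    ComputablePred (fun l : List V => LinearIndependent F l.get) ∧ ¬Module.Finite F V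

variable {V : Type} [Primcodable V]

/-- `B` is a computable basis. -/
def CompBasis (F : Type) [Field F] [AddCommGroup V] [Module F V] (B : Set V) : Prop :=
  ComputablePred (· ∈ B) ∧ LinearIndepOn F id B ∧ Submodule.span F B = ⊤

/-- `M` is a maximal c.e. subset of `B`. -/
def MaxIn (B M : Set V) : Prop :=
  REPred (· ∈ M) ∧ M ⊆ B ∧ (B \ M).Infinite ∧
    ∀ W : Set V, REPred (· ∈ W) → M ⊆ W → W ⊆ B → (W \ M).Finite ∨ (B \ W).Finite

/-- `A` is an atomless c.e. subset of `B`. -/
def AtomlessIn (B A : Set V) : Prop :=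
  REPred (· ∈ A) ∧ A ⊆ B ∧ (B \ A).Infinite ∧ ¬∃ M, A ⊆ M ∧ MaxIn B M

/-- `M` is a maximal c.e. subspace; `W.map M.mkQ` is the subspace `W/M` of `V/M`. -/
def MaxSub {F : Type} [Field F] [AddCommGroup V] [Module F V] (M : Submodule F V) : Prop :=
  REPred (· ∈ M) ∧ ¬Module.Finite F (V ⧸ M) ∧ ∀ W : Submodule F V, REPred (· ∈ W) → M ≤ W →
    Module.Finite F (W.map M.mkQ) ∨ Module.Finite F (V ⧸ W)

end Pool.Agent.H66.Vec
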