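import Mathlib

set_option autoImplicit false

namespace Pool.Agent.H66.Vfun

open MvPolynomial

abbrev A : Type := MvPolynomial (Fin 2) (ZMod 2)

noncomputable def I : Ideal A := Ideal.span {X 0 ^ 3, X 1 ^ 3}

noncomputable def J : Ideal A := Ideal.span {X 0 + X 1}

noncomputable def K (n : ℕ) : Ideal A :=
  Ideal.span ((fun s => monomial s (1 : ZMod 2)) '' {s : Fin 2 →₀ ℕ | n ≤ s 0 / 3 + s 1 / 3})

theorem pow_le_K (n : ℕ) : I ^ n ≤ K n := by
  induction n with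
  | zero =>
    rw [pow_zero, Ideal.one_eq_top, top_le_iff, Ideal.eq_top_iff_one]
    exact Ideal.subset_span ⟨0, by simp, rfl⟩
  | succ n ih =>
    rw [pow_succ]
    refine (Ideal.mul_mono_left ih).trans ?_
    rw [K, I, Ideal.span_mul_span', Ideal.span_le]
    rintro _ ⟨_, ⟨s, hs, rfl⟩, g, hg, rfl⟩
    simp only [Set.mem_setOf_eq] at hs
    rcases hg with rfl | rfl
    · refine Ideal.subset_span ⟨s + Finsupp.single 0 3, ?_, ?_⟩
      · simp; omega
      · simp [X_pow_eq_monomial]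
    · refine Ideal.subset_span ⟨s + Finsupp.single 1 3, ?_, ?_⟩
      · simp; omega
      · simp [X_pow_eq_monomial]

theorem le_of_mem {n : ℕ} {f : A} (hf : f ∈ I ^ n) (s : Fin 2 →₀ ℕ) (hs : coeff s f ≠ 0) :
    n ≤ s 0 / 3 + s 1 / 3 := by
  obtain ⟨t, ht, hts⟩ := mem_ideal_span_monomial_image.1 (pow_le_K n hf) s (mem_support_iff.2 hs)
  have h0 := Nat.div_le_div_right (c := 3) (hts 0)
  have h1 := Nat.div_le_div_right (c := 3) (hts 1)
  simp only [Set.mem_setOf_eq] at ht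
  omega

theorem mono_mem (a b : ℕ) : (X 0 ^ a * X 1 ^ b : A) ∈ I ^ (a / 3 + b / 3) := by
  have h0 : (X 0 ^ 3 : A) ∈ I := Ideal.subset_span (by simp)
  have h1 : (X 1 ^ 3 : A) ∈ I := Ideal.subset_span (by simp)
  have e : (X 0 ^ a * X 1 ^ b : A) = (X 0 ^ (a % 3) * X 1 ^ (b % 3)) *
      ((X 0 ^ 3) ^ (a / 3) * (X 1 ^ 3) ^ (b / 3)) := by
    conv_lhs => rw [← Nat.mod_add_div a 3, ← Nat.mod_add_div b 3]
    ring
  rw [e, pow_add]
  exact Ideal.mul_mem_left _ _ (Ideal.mul_mem_mul (Ideal.pow_mem_pow h0 _) (Ideal.pow_mem_pow h1 _))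

theorem J_le_iff (m n : ℕ) : J ^ m ≤ I ^ n ↔ ((X 0 + X 1) ^ m : A) ∈ I ^ n := by
  rw [J, Ideal.span_singleton_pow, Ideal.span_singleton_le_iff_mem]

theorem upper {m n : ℕ} (h : J ^ m ≤ I ^ n) : n ≤ m / 3 := by
  rw [J_le_iff] at h
  have := le_of_mem h (Finsupp.single 0 m) (by
    rw [coeff_add_pow]
    simp)
  simpa using this

noncomputable def v (m : ℕ) : ℕ := sSup {n : ℕ | J ^ m ≤ I ^ n}

theorem bdd (m : ℕ) : BddAbove {n : ℕ | J ^ m ≤ I ^ n} := ⟨m / 3, fun _ h => upper h⟩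

theorem v_mem (m : ℕ) : J ^ m ≤ I ^ v m :=
  Nat.sSup_mem (s := {n : ℕ | J ^ m ≤ I ^ n}) ⟨0, by simp⟩ (bdd m)

theorem v_upper (m : ℕ) : 3 * v m ≤ m := by
  have := upper (v_mem m); omega

theorem v_lower (m : ℕ) : m ≤ 3 * v m + 6 := by
  have h : J ^ m ≤ I ^ ((m - 4) / 3) := by
    rw [J_le_iff, add_pow]
    refine Ideal.sum_mem _ fun k hk => Ideal.mul_mem_right _ _ ?_
    have hk' := Finset.mem_range.1 hk
    exact Ideal.pow_le_pow_right (by omega) (mono_mem k (m - k))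
  have : (m - 4) / 3 ≤ v m := le_csSup (bdd m) h
  omega

theorem four_pow_mod (j : ℕ) : 4 ^ j % 3 = 1 := by
  simp [Nat.pow_mod]

theorem v_four (j : ℕ) : 4 ^ j ≤ 3 * v (4 ^ j) + 1 := by
  have h : J ^ 4 ^ j ≤ I ^ (4 ^ j / 3) := by
    rw [J_le_iff, show 4 ^ j = 2 ^ (2 * j) by rw [pow_mul]; norm_num, add_pow_char_pow]
    refine Ideal.add_mem _ ?_ ?_
    · simpa using mono_mem (2 ^ (2 * j)) 0
    · simpa using mono_mem 0 (2 ^ (2 * j))
  have : 4 ^ j / 3 ≤ v (4 ^ j) := le_csSup (bdd _) h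
  have := four_pow_mod j
  omega

theorem v_two (p q : ℕ) (h : p < q) : 3 * v (2 * 4 ^ p + 2 * 4 ^ q) + 4 ≤ 2 * 4 ^ p + 2 * 4 ^ q := by
  have h1 := v_mem (2 * 4 ^ p + 2 * 4 ^ q)
  have e : ∀ j, 2 * 4 ^ j = 2 ^ (2 * j + 1) := fun j => by rw [pow_succ, pow_mul]; norm_num; ring
  have hlt : 4 ^ p < 4 ^ q := Nat.pow_lt_pow_right (by norm_num) h
  have hpos : 0 < 4 ^ p := by positivity
  rw [J_le_iff, pow_add] at h1
  have e1 : ((X 0 + X 1) ^ (2 * 4 ^ p) : A) = X 0 ^ (2 * 4 ^ p) + X 1 ^ (2 * 4 ^ p) := by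
    rw [e, add_pow_char_pow]
  have e2 : ((X 0 + X 1) ^ (2 * 4 ^ q) : A) = X 0 ^ (2 * 4 ^ q) + X 1 ^ (2 * 4 ^ q) := by
    rw [e, add_pow_char_pow]
  rw [e1, e2] at h1
  have h2 := le_of_mem h1 (Finsupp.single 0 (2 * 4 ^ p) + Finsupp.single 1 (2 * 4 ^ q)) (by
    simp only [X_pow_eq_monomial, add_mul, mul_add, monomial_mul, coeff_add, coeff_monomial]
    rw [if_neg, if_neg, if_pos trivial, if_neg]
    · simp
    · intro hh
      have := DFunLike.congr_fun hh 0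
      simp at this
    · intro hh
      have := DFunLike.congr_fun hh 0
      simp at this
      omega
    · intro hh
      have := DFunLike.congr_fun hh 1
      simp at this)
  simp at h2
  have := four_pow_mod p
  have := four_pow_mod q
  omega

theorem main : ¬ ∃ t : ℕ, 0 < t ∧ ∃ M : ℕ, ∀ m : ℕ, M ≤ m →
    (v (m + 1 + t) : ℤ) - v (m + t) = (v (m + 1) : ℤ) - v m := by
  rintro ⟨t, ht, M, h⟩
  set c : ℤ := (v (M + t) : ℤ) - v M with hc
  have h1 : ∀ m, M ≤ m → (v (m + t) : ℤ) - v m = c := by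
    intro m hm
    induction m, hm using Nat.le_induction with
    | base => rfl
    | succ m hm ih => have := h m hm; omega
  have h2 : ∀ m, M ≤ m → ∀ k : ℕ, (v (m + k * t) : ℤ) = v m + k * c := by
    intro m hm k
    induction k with
    | zero => simp
    | succ k ih =>
      have := h1 (m + k * t) (by omega)
      rw [show m + (k + 1) * t = m + k * t + t by ring]
      push_cast
      linarith
  have h3 : 3 * c = t := by
    have a1 := h2 M le_rfl 7
    have a2 := v_upper (M + 7 * t)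
    have a3 := v_lower (M + 7 * t)
    have a4 := v_upper M
    have a5 := v_lower M
    push_cast at a1
    omega
  have : NeZero t := ⟨ht.ne'⟩
  obtain ⟨b, b', hne, hbb⟩ := Finite.exists_ne_map_eq_of_infinite (fun n : ℕ => (4 : ZMod t) ^ n)
  wlog hlt : b < b' generalizing b b'
  · exact this b' b hne.symm hbb.symm (by omega)
  obtain ⟨a, rfl⟩ := Nat.exists_eq_add_of_lt hlt
  have h4 : ∀ j, b ≤ j → (4 : ZMod t) ^ (j + (a + 1)) = 4 ^ j := by
    intro j hj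
    obtain ⟨i, rfl⟩ := Nat.exists_eq_add_of_le hj
    rw [show b + i + (a + 1) = (b + a + 1) + i by ring, pow_add, ← hbb, ← pow_add]
  set j := b + M with hj
  have h5 : ((4 ^ (j + 1) : ℕ) : ZMod t) =
      ((2 * 4 ^ (j + (a + 1)) + 2 * 4 ^ (j + (a + 1) + (a + 1)) : ℕ) : ZMod t) := by
    push_cast
    rw [h4 (j + (a + 1)) (by omega), h4 j (by omega)]
    ring
  have hle : 4 ^ (j + 1) ≤ 2 * 4 ^ (j + (a + 1)) + 2 * 4 ^ (j + (a + 1) + (a + 1)) := by
    have := Nat.pow_le_pow_right (show 0 < 4 by norm_num) (show j + 1 ≤ j + (a + 1) by omega)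
    omega
  obtain ⟨k, hk⟩ := (Nat.modEq_iff_dvd' hle).1 ((ZMod.natCast_eq_natCast_iff _ _ _).1 h5)
  have hM : M ≤ 4 ^ (j + 1) := by
    have := Nat.lt_pow_self (show 1 < 4 by norm_num) (n := j + 1)
    omega
  have a1 := h2 _ hM k
  have e : 4 ^ (j + 1) + k * t = 2 * 4 ^ (j + (a + 1)) + 2 * 4 ^ (j + (a + 1) + (a + 1)) := by
    rw [mul_comm k t]; omega
  have a2 := v_two (j + (a + 1)) (j + (a + 1) + (a + 1)) (by omega)
  rw [← e] at a2
  have a3 := v_four (j + 1)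
  have a4 : (3 * (k * c) : ℤ) = ((k * t : ℕ) : ℤ) := by push_cast; rw [← h3]; ring
  omega

end Pool.Agent.H66.Vfun
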