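import Pool.Agent.H66.WExtDefs

set_option autoImplicit false

namespace Pool.Agent.H66.WExt
open Cardinal Set Order

universe u

/-- the `m`-field of sets generated by a family -/
def gen (m : Cardinal.{u}) {X : Type u} (G : Set (Set X)) : BooleanSubalgebra (Set X) :=
  sInf {D | G ⊆ D ∧ ∀ s : Set (Set X), s ⊆ D → #s ≤ m → ⋃₀ s ∈ D ∧ ⋂₀ s ∈ D}

variable {m : Cardinal.{u}} {X : Type u} {G : Set (Set X)}

theorem sub_gen : G ⊆ gen m G := fun _ h => BooleanSubalgebra.mem_sInf.2 fun _ hD => hD.1 h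

theorem gen_cl (s : Set (gen m G)) (hs : #s ≤ m) :
    ⋃₀ (Subtype.val '' s) ∈ gen m G ∧ ⋂₀ (Subtype.val '' s) ∈ gen m G := by
  have h : ∀ D ∈ {D : BooleanSubalgebra (Set X) | G ⊆ D ∧ ∀ s : Set (Set X), s ⊆ D → #s ≤ m →
      ⋃₀ s ∈ D ∧ ⋂₀ s ∈ D}, ⋃₀ (Subtype.val '' s) ∈ D ∧ ⋂₀ (Subtype.val '' s) ∈ D :=
    fun D hD => hD.2 _ (by rintro _ ⟨a, -, rfl⟩; exact BooleanSubalgebra.mem_sInf.1 a.2 D hD)
      (mk_image_le.trans hs)
  exact ⟨BooleanSubalgebra.mem_sInf.2 fun D hD => (h D hD).1,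
    BooleanSubalgebra.mem_sInf.2 fun D hD => (h D hD).2⟩

theorem gen_lub (s : Set (gen m G)) (hs : #s ≤ m) : IsLUB s ⟨_, (gen_cl s hs).1⟩ :=
  ⟨fun a ha => subset_sUnion_of_mem ⟨a, ha, rfl⟩, fun b hb => sUnion_subset (by
    rintro _ ⟨a, ha, rfl⟩; exact hb ha)⟩

theorem gen_glb (s : Set (gen m G)) (hs : #s ≤ m) : IsGLB s ⟨_, (gen_cl s hs).2⟩ :=
  ⟨fun a ha => sInter_subset_of_mem ⟨a, ha, rfl⟩, fun b hb => subset_sInter (by
    rintro _ ⟨a, ha, rfl⟩; exact hb ha)⟩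

theorem gen_complete : MComplete m (gen m G) := fun s hs => ⟨⟨_, gen_lub s hs⟩, _, gen_glb s hs⟩

theorem gen_generates (A₀ : BooleanSubalgebra (gen m G)) (h : ∀ a : gen m G, a.1 ∈ G → a ∈ A₀) :
    MGenerates m A₀ := by
  intro C h1 h2
  refine eq_top_iff.2 fun a _ => ?_
  have : a.1 ∈ C.map (gen m G).subtype := by
    refine BooleanSubalgebra.mem_sInf.1 a.2 _ ⟨fun g hg => ⟨⟨g, sub_gen hg⟩, h1 (h _ hg), rfl⟩,
      fun s hs hm => ?_⟩
    have h3 : Subtype.val '' {c : gen m G | c.1 ∈ s} = s := by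
      ext x
      refine ⟨by rintro ⟨c, hc, rfl⟩; exact hc, fun hx => ?_⟩
      obtain ⟨c, -, rfl⟩ := hs hx
      exact ⟨c, hx, rfl⟩
    have h4 : #{c : gen m G | c.1 ∈ s} ≤ m := by
      rw [← mk_image_eq Subtype.val_injective, h3]; exact hm
    have h5 : {c : gen m G | c.1 ∈ s} ⊆ C := fun c hc => by
      obtain ⟨d, hd, h⟩ := hs hc
      exact (Subtype.ext h : d = c) ▸ hd
    exact ⟨⟨_, (h2 _ h5 h4).1 _ (gen_lub _ h4), congrArg sUnion h3⟩,
      ⟨_, (h2 _ h5 h4).2 _ (gen_glb _ h4), congrArg sInter h3⟩⟩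
  obtain ⟨c, hc, h⟩ := this
  exact (Subtype.ext h : c = a) ▸ hc

variable {B : Type u} [BooleanAlgebra B]

/-- extension along a representation on a set of prime ideals -/
theorem ext_rep (hB : WeakExt m B) (P : Set (Ideal B)) (hP : ∀ I ∈ P, I.IsPrime)
    (hd : ∀ a : B, a ≠ ⊥ → ∃ I ∈ P, a ∉ I) :
    ∃ h : BoundedLatticeHom (gen m (range fun a : B => {I : P | a ∉ I.1})) B, IsMHom m h ∧
      ∀ a : B, h ⟨{I : P | a ∉ I.1}, sub_gen ⟨a, rfl⟩⟩ = a := by
  let e : BoundedLatticeHom B (gen m (range fun a : B => {I : P | a ∉ I.1})) :=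
    { toFun := fun a => ⟨{I : P | a ∉ I.1}, sub_gen ⟨a, rfl⟩⟩
      map_sup' := fun a b => Subtype.ext (Set.ext fun I => by
        change a ⊔ b ∉ I.1 ↔ a ∉ I.1 ∨ b ∉ I.1
        rw [Ideal.sup_mem_iff, not_and_or])
      map_inf' := fun a b => Subtype.ext (Set.ext fun I => by
        change a ⊓ b ∉ I.1 ↔ a ∉ I.1 ∧ b ∉ I.1
        rw [← not_or]
        exact not_congr ⟨(hP _ I.2).mem_or_mem, fun h => h.elim (I.1.lower inf_le_left)
          (I.1.lower inf_le_right)⟩)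
      map_top' := Subtype.ext (eq_univ_of_forall fun I => (hP _ I.2).toIsProper.top_notMem)
      map_bot' := Subtype.ext (eq_empty_of_forall_notMem fun I h => h I.1.bot_mem) }
  have he : Function.Injective e := by
    have : ∀ a b, e a = e b → a ≤ b := fun a b h => by
      by_contra hab
      obtain ⟨I, hI, h1⟩ := hd (a \ b) (fun h => hab (sdiff_eq_bot_iff.1 h))
      have h2 : e (a \ b) = ⊥ := by rw [map_sdiff', h]; exact _root_.sdiff_self
      exact (Set.ext_iff.1 (congrArg Subtype.val h2) ⟨I, hI⟩).1 h1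
    exact fun a b h => (this a b h).antisymm (this b a h.symm)
  have h0 : ∀ c : (⊤ : BooleanSubalgebra B).map e, ∃ a, e a = c := fun c => by
    obtain ⟨a, -, h⟩ := c.2
    exact ⟨a, h⟩
  choose f hf using h0
  let F : BoundedLatticeHom ((⊤ : BooleanSubalgebra B).map e) B :=
    { toFun := f
      map_sup' := fun a b => he (by rw [map_sup, hf, hf, hf]; rfl)
      map_inf' := fun a b => he (by rw [map_inf, hf, hf, hf]; rfl)
      map_top' := he (by rw [map_top, hf]; rfl)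
      map_bot' := he (by rw [map_bot, hf]; rfl) }
  obtain ⟨h, h1, h2⟩ := hB _ gen_complete ((⊤ : BooleanSubalgebra B).map e)
    (gen_generates _ fun c ⟨a, ha⟩ => ⟨a, trivial, Subtype.ext ha⟩) F (fun s _ hs =>
      ⟨fun _ _ => bot_le, fun c hc => by
        have : e c ≤ ⊥ := hs.2 (by
          rintro _ ⟨a, ha, rfl⟩
          exact (OrderHomClass.mono e (hc ⟨a, ha, rfl⟩)).trans (hf a).le)
        exact (he ((le_bot_iff.1 this).trans (map_bot e).symm)).le⟩)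
  exact ⟨h, h1, fun a => (h2 ⟨e a, a, trivial, rfl⟩).trans (he (hf _))⟩

theorem main (hc : MComplete m B) (hB : WeakExt m B) : WeakDistrib m B := by
  classical
  intro T S hT hS a ha
  refine ⟨fun _ _ => le_top, fun c hcu => ?_⟩
  let P : Set (Ideal B) := {I | I.IsPrime ∧ (cᶜ ∈ I ∨ ∃ t, ∀ s, a t s ∈ I)}
  obtain ⟨h, h1, h2⟩ := ext_rep hB P
    (fun _ h => h.1) (fun x hx => by
      by_cases hxc : x ≤ cᶜ
      · have : ∃ t, ∀ Φ : Finset S, ¬ x ≤ Φ.sup (a t) := by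
          by_contra hn
          push Not at hn
          choose Φ hΦ using hn
          obtain ⟨y, hy⟩ := (hc (range fun t => (Φ t).sup (a t)) (mk_range_le.trans hT)).2
          have h3 : y ≤ c := hcu ⟨Φ, fun t => Finset.nonempty_iff_ne_empty.2 fun h => hx (by
            simpa [h] using hΦ t), hy⟩
          have h4 : x ≤ y := hy.2 (by rintro _ ⟨t, rfl⟩; exact hΦ t)
          exact hx (le_bot_iff.1 ((le_inf (h4.trans h3) hxc).trans inf_compl_eq_bot.le))
        obtain ⟨t, ht⟩ := this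
        let J : Ideal B :=
          { carrier := {y | ∃ Φ : Finset S, y ≤ Φ.sup (a t)}
            lower' := fun y z hyz ⟨Φ, h⟩ => ⟨Φ, hyz.trans h⟩
            nonempty' := ⟨⊥, ∅, bot_le⟩
            directed' := fun y ⟨Φ, h⟩ z ⟨Ψ, h'⟩ => ⟨y ⊔ z, ⟨Φ ∪ Ψ, by
              rw [Finset.sup_union]; exact sup_le_sup h h'⟩, le_sup_left, le_sup_right⟩ }
        obtain ⟨I, i1, i2, i3⟩ := DistribLattice.prime_ideal_of_disjoint_filter_ideal
          (F := PFilter.principal x) (I := J)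
          (Set.disjoint_left.2 fun y hy ⟨Φ, h⟩ => ht Φ (le_trans hy h))
        exact ⟨I, ⟨i1, Or.inr ⟨t, fun s => i2 ⟨{s}, by simp⟩⟩⟩,
          Set.disjoint_left.1 i3 (le_refl x)⟩
      · obtain ⟨I, i1, i2, i3⟩ := DistribLattice.prime_ideal_of_disjoint_filter_ideal
          (F := PFilter.principal x) (I := Ideal.principal cᶜ)
          (Set.disjoint_left.2 fun y hy h => hxc (le_trans hy h))
        exact ⟨I, ⟨i1, Or.inl (i2 (le_refl cᶜ))⟩, Set.disjoint_left.1 i3 (le_refl x)⟩)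
  let e : B → gen m (range fun a : B => {I : P | a ∉ I.1}) :=
    fun a => ⟨{I : P | a ∉ I.1}, sub_gen ⟨a, rfl⟩⟩
  have hs : ∀ t, #(range fun s => e (a t s)) ≤ m := fun t => mk_range_le.trans hS
  let u : T → gen m (range fun a : B => {I : P | a ∉ I.1}) := fun t => ⟨_, (gen_cl _ (hs t)).1⟩
  have hu : ∀ t, h (u t) = ⊤ := fun t => by
    have := (h1 _ (hs t)).1 _ (gen_lub _ (hs t))
    rw [← range_comp] at this
    exact this.unique (by simpa only [Function.comp_def, e, h2] using ha t)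
  have hv : #(range u) ≤ m := mk_range_le.trans hT
  have h3 := (h1 _ hv).2 _ (gen_glb _ hv)
  have h4 : ⊤ ≤ h ⟨_, (gen_cl _ hv).2⟩ := h3.2 (by
    rintro _ ⟨_, ⟨t, rfl⟩, rfl⟩; exact (hu t).ge)
  refine h4.trans ((OrderHomClass.mono h ?_).trans (h2 c).le)
  intro I hI hcI
  rcases I.2.2 with h5 | ⟨t, ht⟩
  · exact I.2.1.toIsProper.top_notMem (by simpa using Ideal.sup_mem hcI h5)
  · obtain ⟨_, ⟨_, ⟨s, rfl⟩, rfl⟩, h6⟩ := hI _ ⟨u t, ⟨t, rfl⟩, rfl⟩
    exact h6 (ht s)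

end Pool.Agent.H66.WExt
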